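import Pool.Agent.EHP.Defs

/-!
# Base lemmas on sums over a period
-/

open Finset
open scoped Real ComplexConjugate

namespace Pool.Agent.EHP

variable {M : Type*} [AddCommGroup M]

theorem per_mul {α : Type*} {n : ℕ} {f : ℤ → α} (hf : ∀ j, f (j + n) = f j) (m : ℤ) :
    ∀ j, f (j + m * n) = f j := by
  induction m using Int.induction_on with
  | zero => intro j; simp
  | succ i ih =>
    intro j
    have : j + ((i : ℤ) + 1) * n = (j + i * n) + n := by ring
    rw [this, hf, ih]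
  | pred i ih =>
    intro j
    have h1 := hf (j + (-(i : ℤ) - 1) * n)
    have : j + (-(i : ℤ) - 1) * n + n = j + -(i : ℤ) * n := by ring
    rw [this, ih] at h1
    exact h1.symm

theorem per_dvd {α : Type*} {n : ℕ} {f : ℤ → α} (hf : ∀ j, f (j + n) = f j) {i j : ℤ}
    (h : (n : ℤ) ∣ i - j) : f i = f j := by
  obtain ⟨m, hm⟩ := h
  have : i = j + m * n := by linarith [mul_comm (n : ℤ) m]
  rw [this, per_mul hf]

theorem per_mod {α : Type*} {n : ℕ} {f : ℤ → α} (hf : ∀ j, f (j + n) = f j) (j : ℤ) :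
    f (j % n) = f j := by
  apply per_dvd hf
  have := Int.emod_add_mul_ediv j n
  exact ⟨-(j / n), by linarith⟩

/-- Shift of a sum over a period. -/
theorem sum_shift {n : ℕ} {f : ℤ → M} (hf : ∀ j, f (j + n) = f j) (m : ℤ) :
    ∑ j ∈ range n, f ((j : ℤ) + m) = ∑ j ∈ range n, f (j : ℤ) := by
  have key : ∀ g : ℤ → M, (∀ j, g (j + n) = g j) →
      ∑ j ∈ range n, g ((j : ℤ) + 1) = ∑ j ∈ range n, g (j : ℤ) := by
    intro g hg
    have h1 := Finset.sum_range_succ (fun j : ℕ => g (j : ℤ)) n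
    have h2 := Finset.sum_range_succ' (fun j : ℕ => g (j : ℤ)) n
    have h3 : g (n : ℤ) = g 0 := by have := hg 0; simpa using this
    rw [h1] at h2
    simp only [Nat.cast_zero, h3] at h2
    have h4 := add_right_cancel h2
    rw [h4]
    apply Finset.sum_congr rfl
    intro j _
    push_cast
    rfl
  induction m using Int.induction_on with
  | zero => simp
  | succ i ih =>
    rw [← ih]
    have := key (fun j => f (j + i)) (fun j => by
      have : j + (n : ℤ) + i = (j + i) + n := by ring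
      rw [this, hf])
    rw [← this]
    apply Finset.sum_congr rfl
    intro j _
    congr 1
    ring
  | pred i ih =>
    rw [← ih]
    have := key (fun j => f (j + (-(i : ℤ) - 1))) (fun j => by
      have : j + (n : ℤ) + (-(i : ℤ) - 1) = (j + (-(i : ℤ) - 1)) + n := by ring
      rw [this, hf])
    rw [← this]
    apply Finset.sum_congr rfl
    intro j _
    congr 1
    ring

/-- Swap the two members of a pair in a sum over ordered pairs. -/
theorem sum_swap {n : ℕ} {F : ℤ → ℤ → M} (h1 : ∀ i j, F (i + n) j = F i j)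
    (h2 : ∀ i j, F i (j + n) = F i j) :
    ∑ j ∈ range n, ∑ d ∈ Ico 1 n, F ((j : ℤ) + (d : ℤ)) (j : ℤ) =
      ∑ j ∈ range n, ∑ d ∈ Ico 1 n, F (j : ℤ) ((j : ℤ) + (d : ℤ)) := by
  rw [Finset.sum_comm, Finset.sum_comm (s := range n)]
  have e1 : ∀ d ∈ Ico 1 n, ∑ j ∈ range n, F ((j : ℤ) + (d : ℤ)) (j : ℤ)
      = ∑ j ∈ range n, F (j : ℤ) ((j : ℤ) + ((n - d : ℕ) : ℤ)) := by
    intro d hd
    have hd' := Finset.mem_Ico.1 hd
    have := sum_shift (n := n) (f := fun j => F j (j - d)) (fun j => by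
      have : j + (n : ℤ) - d = (j - d) + n := by ring
      simp only [h1, this, h2]) (d : ℤ)
    simp only [add_sub_cancel_right] at this
    rw [this]
    apply Finset.sum_congr rfl
    intro j _
    have : (j : ℤ) + ((n - d : ℕ) : ℤ) = ((j : ℤ) - d) + n := by
      rw [Nat.cast_sub hd'.2.le]; ring
    rw [this, h2]
  rw [Finset.sum_congr rfl e1]
  apply Finset.sum_nbij' (fun d => n - d) (fun d => n - d)
  · intro d hd; simp only [Finset.mem_Ico] at *; omega
  · intro d hd; simp only [Finset.mem_Ico] at *; omega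
  · intro d hd; simp only [Finset.mem_Ico] at *; omega
  · intro d hd; simp only [Finset.mem_Ico] at *; omega
  · intro d _; rfl

/-- The sum over ordered pairs of a function of the first member only. -/
theorem sum_fst {n : ℕ} (f : ℤ → M) :
    ∑ j ∈ range n, ∑ _d ∈ Ico 1 n, f (j : ℤ) = (n - 1) • ∑ j ∈ range n, f (j : ℤ) := by
  simp only [Finset.sum_const, Nat.card_Ico, Finset.smul_sum]

/-- The sum over ordered pairs of a function of the second member only. -/
theorem sum_snd {n : ℕ} {f : ℤ → M} (hf : ∀ j, f (j + n) = f j) :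
    ∑ j ∈ range n, ∑ d ∈ Ico 1 n, f ((j : ℤ) + (d : ℤ)) = (n - 1) • ∑ j ∈ range n, f (j : ℤ) := by
  rw [← sum_fst f]
  have := sum_swap (n := n) (F := fun i _ => f i) (fun i _ => hf i) (fun _ _ => rfl)
  exact this

namespace Cfg

variable {n : ℕ} (c : Cfg n)

theorem z_add (j : ℤ) : c.z (j + n) = c.z j := by
  unfold z
  rw [c.ρ_add, c.θ_add]
  have : (c.ρ j : ℂ) + ((c.θ j + 2 * π : ℝ) : ℂ) * Complex.I
      = ((c.ρ j : ℂ) + (c.θ j : ℂ) * Complex.I) + 2 * π * Complex.I := by
    push_cast; ring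
  rw [this, Complex.exp_add, Complex.exp_two_pi_mul_I, mul_one]

theorem z_ne (j : ℤ) : c.z j ≠ 0 := Complex.exp_ne_zero _

theorem norm_z (j : ℤ) : ‖c.z j‖ = Real.exp (c.ρ j) := by
  unfold z
  rw [Complex.norm_exp]
  simp

theorem φ_add (hn : 0 < n) (j : ℤ) : c.φ (j + n) = c.φ j := by
  unfold φ
  rw [c.θ_add]
  have : (n : ℝ) ≠ 0 := by positivity
  push_cast
  field_simp
  ring

theorem g_pos (j : ℤ) : 0 < c.g j := sub_pos.2 (c.mono (by omega))

theorem g_add (j : ℤ) : c.g (j + n) = c.g j := by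
  unfold g
  have : j + (n : ℤ) + 1 = (j + 1) + n := by ring
  rw [this, c.θ_add, c.θ_add]; ring

theorem Δ_add (j : ℤ) : c.Δ (j + n) = c.Δ j := by
  unfold Δ
  have : j + (n : ℤ) + 1 = (j + 1) + n := by ring
  rw [this, c.ρ_add, c.ρ_add]

theorem s_add (j : ℤ) : c.s (j + n) = c.s j := by
  unfold s; rw [c.Δ_add, c.g_add]

theorem y_add (j : ℤ) : c.y (j + n) = c.y j := by
  unfold y; rw [c.g_add]

theorem sum_g : ∑ j ∈ range n, c.g (j : ℤ) = 2 * π := by
  have h : ∀ m : ℕ, ∑ j ∈ range m, c.g (j : ℤ) = c.θ (m : ℤ) - c.θ 0 := by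
    intro m
    induction m with
    | zero => simp
    | succ k ih =>
      rw [Finset.sum_range_succ, ih]
      unfold g
      push_cast
      ring
  rw [h]
  have := c.θ_add 0
  simp only [zero_add] at this
  rw [this]; ring

theorem g_eq (hn : 0 < n) (j : ℤ) : c.g j = 2 * π / n * (1 + c.y j) := by
  unfold y
  have : (n : ℝ) ≠ 0 := by positivity
  have := Real.pi_ne_zero
  field_simp
  ring

theorem y_gt (hn : 0 < n) (j : ℤ) : -1 < c.y j := by
  have h := c.g_pos j
  have hn' : (0 : ℝ) < n := by exact_mod_cast hn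
  unfold y
  have : 0 < c.g j * n / (2 * π) := by positivity
  linarith

theorem sum_y (hn : 0 < n) : ∑ j ∈ range n, c.y (j : ℤ) = 0 := by
  unfold y
  rw [Finset.sum_sub_distrib, ← Finset.sum_div, ← Finset.sum_mul, c.sum_g]
  have : (n : ℝ) ≠ 0 := by positivity
  have := Real.pi_ne_zero
  simp

/-- The exact formula for the distances:
`|z_i - z_j|² = 4 e^{ρ_i + ρ_j} (sin² X_{ij} + sinh² Y_{ij})`. -/
theorem dist_sq (i j : ℤ) : ‖c.z i - c.z j‖ ^ 2 =
    4 * Real.exp (c.ρ i + c.ρ j) * (Real.sin (c.X i j) ^ 2 + Real.sinh (c.Y i j) ^ 2) := by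
  have h1 : ‖c.z i - c.z j‖ ^ 2 = ‖c.z i‖ ^ 2 + ‖c.z j‖ ^ 2
      - 2 * (Real.exp (c.ρ i) * Real.exp (c.ρ j) * Real.cos (c.θ i - c.θ j)) := by
    rw [← Complex.normSq_eq_norm_sq, ← Complex.normSq_eq_norm_sq, ← Complex.normSq_eq_norm_sq,
      Complex.normSq_sub]
    have : (c.z i * conj (c.z j)).re =
        Real.exp (c.ρ i) * Real.exp (c.ρ j) * Real.cos (c.θ i - c.θ j) := by
      unfold z
      rw [← Complex.exp_conj, ← Complex.exp_add, Complex.exp_re]
      simp
      rw [Real.exp_add, sub_eq_add_neg]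
    rw [this]
  rw [h1, c.norm_z, c.norm_z]
  have h2 : Real.cos (c.θ i - c.θ j) = 1 - 2 * Real.sin (c.X i j) ^ 2 := by
    have : c.θ i - c.θ j = 2 * c.X i j := by unfold X; ring
    rw [this, Real.cos_two_mul]
    have := Real.sin_sq_add_cos_sq (c.X i j)
    linarith
  have h3 : Real.sinh (c.Y i j) ^ 2 = (Real.cosh (c.ρ i - c.ρ j) - 1) / 2 := by
    have : c.ρ i - c.ρ j = 2 * c.Y i j := by unfold Y; ring
    rw [this, Real.cosh_two_mul]
    have := Real.cosh_sq (c.Y i j)
    linarith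
  rw [h2, h3, Real.exp_add, Real.cosh_eq]
  have e1 : Real.exp (c.ρ i - c.ρ j) = Real.exp (c.ρ i) / Real.exp (c.ρ j) := Real.exp_sub _ _
  have e2 : Real.exp (-(c.ρ i - c.ρ j)) = Real.exp (c.ρ j) / Real.exp (c.ρ i) := by
    rw [neg_sub]; exact Real.exp_sub _ _
  rw [e1, e2]
  have := Real.exp_pos (c.ρ i)
  have := Real.exp_pos (c.ρ j)
  field_simp
  ring

end Cfg

end Pool.Agent.EHP
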