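import Mathlib

/-!
# Maximizers of the product of distances (Erdos, Herzog, Piranian), `n` even: definitions

Problem MP_fd5ac7_co. Points `z_1, …, z_n` of the plane with mutual distances at most `2` maximise
`∏_{i ≠ j} |z_i - z_j|`. Theorem: for all large even `n` the diameter graph of every maximizer is
a cycle `C_{n-3}` with three pendant edges.

Conventions: most of the work is done with `n`-periodic families `z : ℤ → ℂ`; sums over ordered
pairs `i ≠ j` are sums over `j ∈ range n` and `d ∈ Ico 1 n` (the pair is `(j + d, j)`).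
-/

open Finset
open scoped Real ComplexConjugate

namespace Pool.Agent.EHP

/-! ### The problem -/

/-- The product of all distances of ordered pairs of different indices. -/
noncomputable def PD {n : ℕ} (z : Fin n → ℂ) : ℝ := ∏ i, ∏ j ∈ univ.erase i, ‖z i - z j‖

/-- The diameter is at most `2`. -/
def Adm {n : ℕ} (z : Fin n → ℂ) : Prop := ∀ i j, ‖z i - z j‖ ≤ 2

/-- Maximizers of the product of all distances among the families of diameter at most `2`. -/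
def IsMaximizer {n : ℕ} (z : Fin n → ℂ) : Prop :=
  Adm z ∧ ∀ w : Fin n → ℂ, Adm w → PD w ≤ PD z

/-- The diameter graph: two different points are adjacent when their distance is the largest one. -/
def diamGraph {n : ℕ} (z : Fin n → ℂ) : SimpleGraph (Fin n) where
  Adj i j := i ≠ j ∧ ∀ k l, ‖z k - z l‖ ≤ ‖z i - z j‖
  symm := ⟨fun i j h => ⟨h.1.symm, fun k l => by rw [norm_sub_rev (z j) (z i)]; exact h.2 k l⟩⟩
  loopless := ⟨fun _ h => h.1 rfl⟩

/-- The cycle `C_m` with three pendant edges, attached at the vertices `a 0`, `a 1`, `a 2`. -/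
def cyclePlus3 (m : ℕ) (a : Fin 3 → Fin m) : SimpleGraph (Fin m ⊕ Fin 3) where
  Adj x y := match x, y with
    | Sum.inl i, Sum.inl j => (SimpleGraph.cycleGraph m).Adj i j
    | Sum.inl i, Sum.inr k => a k = i
    | Sum.inr k, Sum.inl i => a k = i
    | Sum.inr _, Sum.inr _ => False
  symm := ⟨fun x y h => by
    rcases x with i | k <;> rcases y with j | l
    · exact SimpleGraph.Adj.symm (G := SimpleGraph.cycleGraph m) h
    · exact h
    · exact h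
    · exact h⟩
  loopless := ⟨fun x h => by
    rcases x with i | k
    · exact (SimpleGraph.cycleGraph m).loopless.irrefl i h
    · exact h⟩

/-! ### Periodic families -/

/-- The logarithm of the distance product of an `n`-periodic family. -/
noncomputable def FL (n : ℕ) (z : ℤ → ℂ) : ℝ :=
  ∑ j ∈ range n, ∑ d ∈ Ico 1 n, Real.log ‖z ((j : ℤ) + (d : ℤ)) - z (j : ℤ)‖

/-- `z` is `n`-periodic and its `n` points are different. -/
structure Pts (n : ℕ) (z : ℤ → ℂ) : Prop where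
  per : ∀ j : ℤ, z (j + n) = z j
  inj : ∀ i j : ℤ, z i = z j → (n : ℤ) ∣ i - j

/-- `z` is a maximizer. -/
structure Opt (n : ℕ) (z : ℤ → ℂ) : Prop where
  pts : Pts n z
  adm : ∀ i j : ℤ, ‖z i - z j‖ ≤ 2
  max : ∀ w : ℤ → ℂ, Pts n w → (∀ i j : ℤ, ‖w i - w j‖ ≤ 2) → FL n w ≤ FL n z

/-- `n`-periodic sets of indices. -/
def PerSet (n : ℕ) (C : Set ℤ) : Prop := ∀ j : ℤ, j + n ∈ C ↔ j ∈ C

open Classical in
/-- The conjugate of the force on the points of `C`: the sum of `1 / (z_a - z_b)` over all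
`a ∈ C`, `b ∉ C`. -/
noncomputable def FC (n : ℕ) (z : ℤ → ℂ) (C : Set ℤ) : ℂ :=
  ∑ a ∈ range n, ∑ d ∈ Ico 1 n,
    if (a : ℤ) ∈ C ∧ (a : ℤ) + (d : ℤ) ∉ C then 1 / (z (a : ℤ) - z ((a : ℤ) + (d : ℤ))) else 0

/-- The conjugate of the force on the point `z_v`. -/
noncomputable def fb (n : ℕ) (z : ℤ → ℂ) (v : ℤ) : ℂ :=
  ∑ d ∈ Ico 1 n, 1 / (z v - z (v + (d : ℤ)))

/-- `c_{vw} = (z_v + z_w) / (z_v - z_w)`. -/
noncomputable def cc (z : ℤ → ℂ) (v w : ℤ) : ℂ := (z v + z w) / (z v - z w)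

/-- `H_v = (1/2) ∑_w c_{vw}`, so that `z_v * fb v = (n - 1) / 2 + H_v`. -/
noncomputable def HH (n : ℕ) (z : ℤ → ℂ) (v : ℤ) : ℂ :=
  (1 / 2 : ℂ) * ∑ d ∈ Ico 1 n, cc z v (v + (d : ℤ))

/-- Mean over a period. -/
noncomputable def mn (n : ℕ) (f : ℤ → ℝ) : ℝ := (∑ j ∈ range n, f (j : ℤ)) / n

/-- Discrete Fourier coefficients of an `n`-periodic sequence. -/
noncomputable def dft (n : ℕ) (f : ℤ → ℂ) (k : ℤ) : ℂ :=
  (∑ j ∈ range n, f (j : ℤ) * Complex.exp (-(2 * π * k * j / n : ℝ) * Complex.I)) / n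

/-- Discrete Fourier coefficients of a real sequence. -/
noncomputable def dr (n : ℕ) (f : ℤ → ℝ) (k : ℤ) : ℂ := dft n (fun j => (f j : ℂ)) k

/-- The quadratic form `(1 / 8 n²) ∑_{i ≠ j} (f_i - f_j)² / sin² (π (i - j) / n)`. -/
noncomputable def QK (n : ℕ) (f : ℤ → ℝ) : ℝ :=
  (∑ j ∈ range n, ∑ d ∈ Ico 1 n,
    (f ((j : ℤ) + (d : ℤ)) - f (j : ℤ)) ^ 2 / Real.sin (π * d / n) ^ 2) / (8 * (n : ℝ) ^ 2)

/-- The symbol of `2 QK`: `κ_k = |k| (1 - |k| / n)` for `|k| ≤ n`. -/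
noncomputable def kap (n : ℕ) (k : ℤ) : ℝ := |(k : ℝ)| * (1 - |(k : ℝ)| / n)

/-! ### Configurations in polar coordinates -/

/-- `n` points in polar coordinates `z_j = exp (ρ_j + i θ_j)`, ordered by their angles. -/
structure Cfg (n : ℕ) where
  /-- the angles -/
  θ : ℤ → ℝ
  /-- the logarithms of the moduli -/
  ρ : ℤ → ℝ
  θ_add : ∀ j : ℤ, θ (j + n) = θ j + 2 * π
  ρ_add : ∀ j : ℤ, ρ (j + n) = ρ j
  mono : StrictMono θ

namespace Cfg

variable {n : ℕ} (c : Cfg n)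

/-- The points. -/
noncomputable def z (j : ℤ) : ℂ := Complex.exp ((c.ρ j : ℂ) + (c.θ j : ℂ) * Complex.I)

/-- Deviation of the angle from that of the regular `n`-gon. -/
noncomputable def φ (j : ℤ) : ℝ := c.θ j - 2 * π * j / n

/-- The angular gaps. -/
noncomputable def g (j : ℤ) : ℝ := c.θ (j + 1) - c.θ j

/-- The increments of `ρ`. -/
noncomputable def Δ (j : ℤ) : ℝ := c.ρ (j + 1) - c.ρ j

/-- The slopes. -/
noncomputable def s (j : ℤ) : ℝ := c.Δ j / c.g j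

/-- The relative deviation of the gaps: `g_j = (2 π / n) (1 + y_j)`. -/
noncomputable def y (j : ℤ) : ℝ := c.g j * n / (2 * π) - 1

/-- Midpoint values. -/
noncomputable def ρm (j : ℤ) : ℝ := (c.ρ j + c.ρ (j + 1)) / 2

/-- Midpoint values. -/
noncomputable def φm (j : ℤ) : ℝ := (c.φ j + c.φ (j + 1)) / 2

/-- Half of the difference of the angles. -/
noncomputable def X (i j : ℤ) : ℝ := (c.θ i - c.θ j) / 2

/-- Half of the difference of the logarithms of the moduli. -/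
noncomputable def Y (i j : ℤ) : ℝ := (c.ρ i - c.ρ j) / 2

/-- `S = ∑ Δ_j² / g_j`. -/
noncomputable def S : ℝ := ∑ j ∈ range n, c.Δ (j : ℤ) ^ 2 / c.g (j : ℤ)

/-- Rescaled quantities `R = n ρ`, `Φ = n φ`. -/
noncomputable def R (j : ℤ) : ℝ := n * c.ρ j

/-- Rescaled quantities `R = n ρ`, `Φ = n φ`. -/
noncomputable def Φ (j : ℤ) : ℝ := n * c.φ j

/-- `DR_j = (n / 2π) (R_{j+1} - R_j)`. -/
noncomputable def DR (j : ℤ) : ℝ := n / (2 * π) * (c.R (j + 1) - c.R j)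

end Cfg

/-- The function `D(a; X) = -log (sin X / sin a) + (X - a) cot a ≥ 0` for `a, X ∈ (0, π)`. -/
noncomputable def DD (a X : ℝ) : ℝ :=
  -Real.log (Real.sin X / Real.sin a) + (X - a) * (Real.cos a / Real.sin a)

/-- The angular energy `∑_{i ≠ j} D(a_{ij}; X_{ij})`. -/
noncomputable def Eφ {n : ℕ} (c : Cfg n) : ℝ :=
  ∑ j ∈ range n, ∑ d ∈ Ico 1 n, DD (π * d / n) (c.X ((j : ℤ) + (d : ℤ)) (j : ℤ))

/-- The radial gain `(1/2) ∑_{i ≠ j} log (1 + sinh² Y_{ij} / sin² X_{ij})`. -/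
noncomputable def TT {n : ℕ} (c : Cfg n) : ℝ :=
  (∑ j ∈ range n, ∑ d ∈ Ico 1 n, Real.log (1 + Real.sinh (c.Y ((j : ℤ) + (d : ℤ)) (j : ℤ)) ^ 2 /
    Real.sin (c.X ((j : ℤ) + (d : ℤ)) (j : ℤ)) ^ 2)) / 2

/-- A normalised maximizer which is `ε`-close to the regular `n`-gon. -/
structure Nice (n : ℕ) (ε : ℝ) (c : Cfg n) : Prop where
  opt : Opt n c.z
  cent : ∑ j ∈ range n, c.z (j : ℤ) = 0
  rot : ∑ j ∈ range n, c.φ (j : ℤ) = 0
  hρ : ∀ j, |c.ρ j| ≤ ε
  hφ : ∀ j, |c.φ j| ≤ ε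
  slope : ∀ i j, |c.ρ i - c.ρ j| ≤ ε * |c.θ i - c.θ j|

/-- A normalised maximizer with the a priori bounds with the constant `K`. -/
structure Reg (n : ℕ) (K : ℝ) (c : Cfg n) : Prop where
  opt : Opt n c.z
  cent : ∑ j ∈ range n, c.z (j : ℤ) = 0
  rot : ∑ j ∈ range n, c.φ (j : ℤ) = 0
  hρ : ∀ j, |c.ρ j| ≤ K / n
  hφ : ∀ j, |c.φ j| ≤ K / n
  hy : ∑ j ∈ range n, c.y (j : ℤ) ^ 2 ≤ K / n
  hs : ∑ j ∈ range n, c.s (j : ℤ) ^ 2 ≤ K / n
  hH : ∑ j ∈ range n, ‖HH n c.z (j : ℤ)‖ ^ 2 ≤ K * n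

/-- Pivot function of the diameter graph: the partners of `v` are `L (v - 1), …, L v`. -/
structure Piv (n : ℕ) (c : Cfg n) (L : ℤ → ℤ) : Prop where
  mono : Monotone L
  add : ∀ v, L (v + n) = L v + n
  lt : ∀ v, v < L v ∧ L v < v + n
  tight : ∀ v l : ℤ, v < l → l < v + n → (‖c.z v - c.z l‖ = 2 ↔ L (v - 1) ≤ l ∧ l ≤ L v)

/-- `p_j = 1/2 - m_j`, `m_j = L j - j - N`, `n = 2 N`. -/
noncomputable def pp (N : ℕ) (L : ℤ → ℤ) (j : ℤ) : ℝ := 1 / 2 - ((L j - j - N : ℤ) : ℝ)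

/-- `u_j = -(Φ_j - Φ_{j+N}) / 2π`. -/
noncomputable def uu {n : ℕ} (N : ℕ) (c : Cfg n) (j : ℤ) : ℝ := -(c.Φ j - c.Φ (j + N)) / (2 * π)

/-- The constant `c* = ∑_{l odd} 1 / (l² (3 l + 1)) = 0.26578…`. -/
noncomputable def cstar : ℝ := ∑' l : ℕ, 1 / ((2 * (l : ℝ) + 1) ^ 2 * (3 * (2 * l + 1) + 1))

end Pool.Agent.EHP
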