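import Pool.Agent.EHP.Stmts3

/-!
# Tight pairs are nearly antipodal: `Stmt_ANTI`
-/

open Finset
open scoped Real ComplexConjugate

namespace Pool.Agent.EHP

theorem m_ANTI : Stmt_ANTI := by
  intro K
  obtain ⟨A, hA⟩ : ∃ A : ℝ, A = max K 1 := ⟨_, rfl⟩
  have hA1 : 1 ≤ A := hA ▸ le_max_right _ _
  have hKA : K ≤ A := hA ▸ le_max_left _ _
  have hA0 : 0 < A := by linarith
  obtain ⟨B, hB⟩ : ∃ B : ℝ, B = Real.sqrt (3 * A) := ⟨_, rfl⟩
  have hB0 : 0 < B := by rw [hB]; exact Real.sqrt_pos.2 (by linarith)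
  have hB2 : B ^ 2 = 3 * A := by rw [hB]; exact Real.sq_sqrt (by linarith)
  have hπ := Real.pi_pos
  have hπ3 := Real.pi_gt_three
  refine ⟨π * B + A, ⌈4 * A⌉₊ + 1, by positivity, fun n hn c hc v l hvl hln ht => ?_⟩
  have hn0 : 0 < n := by omega
  have hnR : (0 : ℝ) < n := by exact_mod_cast hn0
  have hn1 : (1 : ℝ) ≤ n := by exact_mod_cast hn0
  have hnA : 4 * A ≤ n := by
    have h1 := Nat.le_ceil (4 * A)
    have h2 : ((⌈4 * A⌉₊ : ℕ) : ℝ) ≤ n := by exact_mod_cast (by omega : ⌈4 * A⌉₊ ≤ n)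
    linarith
  obtain ⟨δ, hδ⟩ : ∃ δ : ℝ, δ = A / n := ⟨_, rfl⟩
  have hδ0 : 0 < δ := by rw [hδ]; positivity
  have hδ4 : δ ≤ 1 / 4 := by
    rw [hδ, div_le_iff₀ hnR]; linarith
  have hKn : K / n ≤ δ := by rw [hδ]; gcongr
  have hρ : ∀ j, |c.ρ j| ≤ δ := fun j => (hc.hρ j).trans hKn
  have hφ : ∀ j, |c.φ j| ≤ δ := fun j => (hc.hφ j).trans hKn
  obtain ⟨s, hs⟩ : ∃ s : ℝ, s = c.ρ l + c.ρ v := ⟨_, rfl⟩
  have hs1 : s ≤ 2 * δ := by
    have h1 := (abs_le.1 (hρ l)).2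
    have h2 := (abs_le.1 (hρ v)).2
    rw [hs]; linarith
  have hY : |c.Y l v| ≤ δ := by
    unfold Cfg.Y
    have h1 := abs_le.1 (hρ l)
    have h2 := abs_le.1 (hρ v)
    rw [abs_le]
    constructor <;> linarith [h1.1, h1.2, h2.1, h2.2]
  have hd := c.dist_sq l v
  rw [norm_sub_rev, ht, ← hs] at hd
  have he := Real.exp_pos s
  have h1 : Real.sin (c.X l v) ^ 2 + Real.sinh (c.Y l v) ^ 2 = Real.exp (-s) := by
    rw [Real.exp_neg]
    field_simp
    linarith
  have h2 : 1 - s ≤ Real.exp (-s) := by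
    have := Real.add_one_le_exp (-s)
    linarith
  have h3 : |Real.sinh (c.Y l v)| ≤ 2 * |c.Y l v| := by
    have a1 := Real.abs_exp_sub_one_le (x := c.Y l v) (by linarith)
    have a2 := Real.abs_exp_sub_one_le (x := -c.Y l v) (by rw [abs_neg]; linarith)
    rw [abs_neg] at a2
    rw [Real.sinh_eq, abs_le]
    rw [abs_le] at a1 a2
    constructor <;> linarith [a1.1, a1.2, a2.1, a2.2]
  have h4 : Real.sinh (c.Y l v) ^ 2 ≤ δ := by
    have b1 : |Real.sinh (c.Y l v)| ≤ 2 * δ := h3.trans (by linarith)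
    have b2 : Real.sinh (c.Y l v) ^ 2 ≤ (2 * δ) ^ 2 := by
      rw [← sq_abs]
      exact pow_le_pow_left₀ (abs_nonneg _) b1 2
    nlinarith
  have h5 : Real.cos (c.X l v) ^ 2 ≤ 3 * δ := by
    have := Real.sin_sq_add_cos_sq (c.X l v)
    linarith
  have hX1 : 0 < c.X l v := by
    unfold Cfg.X
    have := c.mono hvl
    linarith
  have hX2 : c.X l v < π := by
    unfold Cfg.X
    have h6 := c.mono hln
    rw [c.θ_add] at h6
    linarith
  have h6 : |π / 2 - c.X l v| ≤ π / 2 := by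
    rw [abs_le]; constructor <;> linarith
  have h7 := Real.mul_abs_le_abs_sin h6
  rw [Real.sin_pi_div_two_sub] at h7
  have hsn : 0 < Real.sqrt n := Real.sqrt_pos.2 hnR
  have hsn2 : Real.sqrt n ^ 2 = n := Real.sq_sqrt hnR.le
  have hsn1 : 1 ≤ Real.sqrt n := by
    rw [show (1 : ℝ) = Real.sqrt 1 by simp]
    exact Real.sqrt_le_sqrt hn1
  have h8 : |Real.cos (c.X l v)| ≤ B / Real.sqrt n := by
    have h80 : Real.cos (c.X l v) ^ 2 ≤ (B / Real.sqrt n) ^ 2 := by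
      rw [div_pow, hB2, hsn2]
      rw [hδ] at h5
      calc Real.cos (c.X l v) ^ 2 ≤ 3 * (A / n) := h5
        _ = 3 * A / n := by ring
    exact abs_le_of_sq_le_sq h80 (by positivity)
  have h9 : |π / 2 - c.X l v| ≤ π / 2 * (B / Real.sqrt n) := by
    have h10 : 2 / π * |π / 2 - c.X l v| ≤ B / Real.sqrt n := h7.trans h8
    have h11 : |π / 2 - c.X l v| = π / 2 * (2 / π * |π / 2 - c.X l v|) := by
      field_simp
    rw [h11]
    gcongr
  have h10 : |c.θ l - c.θ v - π| ≤ π * B / Real.sqrt n := by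
    have e : c.θ l - c.θ v - π = -2 * (π / 2 - c.X l v) := by
      unfold Cfg.X; ring
    rw [e, abs_mul, show |(-2 : ℝ)| = 2 by norm_num]
    calc 2 * |π / 2 - c.X l v| ≤ 2 * (π / 2 * (B / Real.sqrt n)) := by gcongr
      _ = π * B / Real.sqrt n := by ring
  refine ⟨h10.trans ?_, ?_⟩
  · gcongr
    linarith
  · have e1 : ((l - v : ℤ) : ℝ) - n / 2
        = n / (2 * π) * ((c.θ l - c.θ v - π) - c.φ l + c.φ v) := by
      unfold Cfg.φ
      push_cast
      field_simp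
      ring
    have h11 : |(c.θ l - c.θ v - π) - c.φ l + c.φ v| ≤ π * B / Real.sqrt n + 2 * δ := by
      have a1 := abs_le.1 h10
      have a2 := abs_le.1 (hφ l)
      have a3 := abs_le.1 (hφ v)
      rw [abs_le]
      constructor <;> linarith [a1.1, a1.2, a2.1, a2.2, a3.1, a3.2]
    rw [e1, abs_mul, abs_of_pos (by positivity : 0 < (n : ℝ) / (2 * π))]
    calc (n : ℝ) / (2 * π) * |(c.θ l - c.θ v - π) - c.φ l + c.φ v|
        ≤ n / (2 * π) * (π * B / Real.sqrt n + 2 * δ) := by gcongr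
      _ = B / 2 * (n / Real.sqrt n) + A / π := by rw [hδ]; field_simp
      _ = B / 2 * Real.sqrt n + A / π := by
        congr 2
        rw [div_eq_iff hsn.ne', ← sq, hsn2]
      _ ≤ (π * B + A) * Real.sqrt n := by
        have q1 : A / π ≤ A := div_le_self hA0.le (by linarith)
        have q2 : A ≤ A * Real.sqrt n := le_mul_of_one_le_right hA0.le hsn1
        have q3 : B / 2 ≤ π * B := by nlinarith
        have q4 : B / 2 * Real.sqrt n ≤ π * B * Real.sqrt n := by gcongr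
        nlinarith

end Pool.Agent.EHP
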