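import Pool.Agent.EHP.Stmts4

/-!
# The sequence `p` is almost antiperiodic in the mean: `Stmt_ANTIP`
-/

open Finset
open scoped Real ComplexConjugate

namespace Pool.Agent.EHP

namespace M_ANTIP

theorem sum_split (f : ℤ → ℤ) {a b c : ℤ} (h1 : a ≤ b) (h2 : b ≤ c) :
    ∑ l ∈ Finset.Ico a c, f l = ∑ l ∈ Finset.Ico a b, f l + ∑ l ∈ Finset.Ico b c, f l := by
  rw [← Finset.Ico_union_Ico_eq_Ico h1 h2, Finset.sum_union]
  exact Finset.Ico_disjoint_Ico_consecutive a b c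

theorem sum_bound (f : ℤ → ℤ) {a b B : ℤ} (h : ∀ l, a ≤ l → l < b → |f l| ≤ B) (hab : a ≤ b) :
    |∑ l ∈ Finset.Ico a b, f l| ≤ (b - a) * B := by
  refine (Finset.abs_sum_le_sum_abs _ _).trans ?_
  refine (Finset.sum_le_card_nsmul _ _ B fun l hl => ?_).trans ?_
  · obtain ⟨h1, h2⟩ := Finset.mem_Ico.1 hl
    exact h l h1 h2
  · rw [Int.card_Ico, nsmul_eq_mul, Int.toNat_of_nonneg (by omega)]

theorem tail {N : ℕ} {c : Cfg (2 * N)} {L : ℤ → ℤ} (hL : Piw (2 * N) c L) (hS : Stmt_SYM)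
    {v c₀ : ℤ} (h1 : c₀ ≤ L v) (h2 : c₀ ≤ v + N) :
    |∑ l ∈ Finset.Ico c₀ (L v), (L l - l - N) - ∑ l ∈ Finset.Ico c₀ (v + N), (L l - l - N)| ≤
      |L v - v - N| * (|L v - v - N| + |L (v + N) - (v + N) - N|) := by
  have hmono := hL.piv.mono
  obtain ⟨s1, s2⟩ := hS (2 * N) c L hL v
  push_cast at s1 s2
  rcases le_total (v + N) (L v) with h | h
  · rw [sum_split _ h2 h, add_sub_cancel_left]
    have hb : ∀ l, v + N ≤ l → l < L v → |L l - l - N| ≤
        |L v - v - N| + |L (v + N) - (v + N) - N| := by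
      intro l hl1 hl2
      have g1 : L l ≤ L (L v - 1) := hmono (by omega)
      have g2 : L (v + N) ≤ L l := hmono hl1
      have g3 := le_abs_self (L v - v - N)
      have g4 := neg_abs_le (L (v + N) - (v + N) - N)
      rw [abs_le]
      constructor <;> omega
    refine (sum_bound _ hb h).trans ?_
    apply mul_le_mul_of_nonneg_right _ (by positivity)
    have := le_abs_self (L v - v - N)
    omega
  · rw [sum_split _ h1 h, sub_add_cancel_left, abs_neg]
    have hb : ∀ l, L v ≤ l → l < v + N → |L l - l - N| ≤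
        |L v - v - N| + |L (v + N) - (v + N) - N| := by
      intro l hl1 hl2
      have g1 : L (L v) ≤ L l := hmono hl1
      have g2 : L l ≤ L (v + N) := hmono (by omega)
      have g3 := neg_abs_le (L v - v - N)
      have g4 := le_abs_self (L (v + N) - (v + N) - N)
      rw [abs_le]
      constructor <;> omega
    refine (sum_bound _ hb h).trans ?_
    apply mul_le_mul_of_nonneg_right _ (by positivity)
    have := neg_abs_le (L v - v - N)
    omega

/-- from `m` to `p` -/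
theorem m_le_p (N : ℕ) (L : ℤ → ℤ) (j : ℤ) :
    |((L j - j - N : ℤ) : ℝ)| ≤ 2 * |pp N L j| := by
  obtain ⟨m, hm⟩ : ∃ m : ℤ, m = L j - j - N := ⟨_, rfl⟩
  unfold pp
  rw [← hm]
  rcases le_or_gt m 0 with h | h
  · have h' : (m : ℝ) ≤ 0 := by exact_mod_cast h
    rw [abs_of_nonpos h', abs_of_pos (by linarith)]
    linarith
  · have h' : (1 : ℝ) ≤ m := by exact_mod_cast h
    rw [abs_of_pos (by linarith), abs_of_neg (by linarith)]
    linarith

end M_ANTIP

open M_ANTIP in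
theorem m_ANTIP : Stmt_AREA → Stmt_SYM → Stmt_ANTIP := by
  intro hArea hS N c L hL a b hab
  have hmono := hL.piv.mono
  obtain ⟨c₀, h1, h2⟩ : ∃ c₀ : ℤ, c₀ ≤ L a ∧ c₀ ≤ a + N :=
    ⟨min (L a) (a + N), min_le_left _ _, min_le_right _ _⟩
  have h3 : L a ≤ L b := hmono hab
  have ta := tail hL hS h1 h2
  have tb := tail hL hS (v := b) (h1.trans h3) (by omega : c₀ ≤ b + N)
  have harea := hArea N c L hL a b hab
  have s1 := sum_split (fun l => L l - l - N) h1 h3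
  have s2 := sum_split (fun l => L l - l - N) h2 (by omega : a + N ≤ b + N)
  have s3 : ∑ l ∈ Finset.Ico (a + N) (b + N), (L l - l - N) =
      ∑ j ∈ Finset.Ico a b, (L (j + N) - (j + N) - N) := by
    rw [← Finset.image_add_right_Ico, Finset.sum_image]
    intro x _ y _ h
    exact add_right_cancel h
  obtain ⟨Ta, hTa⟩ : ∃ T : ℤ, T = ∑ l ∈ Finset.Ico c₀ (L a), (L l - l - N) -
    ∑ l ∈ Finset.Ico c₀ (a + N), (L l - l - N) := ⟨_, rfl⟩
  obtain ⟨Tb, hTb⟩ : ∃ T : ℤ, T = ∑ l ∈ Finset.Ico c₀ (L b), (L l - l - N) -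
    ∑ l ∈ Finset.Ico c₀ (b + N), (L l - l - N) := ⟨_, rfl⟩
  rw [← hTa] at ta
  rw [← hTb] at tb
  have hZ : 2 * (∑ j ∈ Finset.Ico a b, (L j - j - N) +
      ∑ j ∈ Finset.Ico a b, (L (j + N) - (j + N) - N)) =
      2 * (b - a) - ((L b - b - N) ^ 2 - (L b - b - N)) + ((L a - a - N) ^ 2 - (L a - a - N)) -
        2 * Tb + 2 * Ta := by
    rw [← s3]
    linarith
  have hcard : ((b - a : ℤ) : ℝ) = ∑ _j ∈ Finset.Ico a b, (1 : ℝ) := by
    rw [Finset.sum_const, Int.card_Ico, nsmul_eq_mul, mul_one]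
    have : (((b - a).toNat : ℤ) : ℝ) = ((b - a : ℤ) : ℝ) := by
      rw [Int.toNat_of_nonneg (by omega)]
    rw [← this]
    exact Int.cast_natCast _
  have hsum : ∑ j ∈ Finset.Ico a b, (pp N L j + pp N L (j + N)) =
      ((b - a : ℤ) : ℝ) - ((∑ j ∈ Finset.Ico a b, (L j - j - N) +
      ∑ j ∈ Finset.Ico a b, (L (j + N) - (j + N) - N) : ℤ) : ℝ) := by
    rw [hcard, ← Finset.sum_add_distrib]
    push_cast
    rw [← Finset.sum_sub_distrib]
    apply Finset.sum_congr rfl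
    intro j _
    unfold pp
    push_cast
    ring
  have hZ' : 2 * ((∑ j ∈ Finset.Ico a b, (L j - j - N) +
      ∑ j ∈ Finset.Ico a b, (L (j + N) - (j + N) - N) : ℤ) : ℝ) =
      2 * ((b - a : ℤ) : ℝ) - (((L b - b - N : ℤ) : ℝ) ^ 2 - ((L b - b - N : ℤ) : ℝ)) +
        (((L a - a - N : ℤ) : ℝ) ^ 2 - ((L a - a - N : ℤ) : ℝ)) - 2 * (Tb : ℝ) + 2 * (Ta : ℝ) := by
    exact_mod_cast hZ
  have hpa : pp N L a = 1 / 2 - ((L a - a - N : ℤ) : ℝ) := rfl
  have hpb : pp N L b = 1 / 2 - ((L b - b - N : ℤ) : ℝ) := rfl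
  have hmain : ∑ j ∈ Finset.Ico a b, (pp N L j + pp N L (j + N)) =
      (pp N L b ^ 2 - pp N L a ^ 2) / 2 + (Tb : ℝ) - Ta := by
    rw [hsum, hpa, hpb]
    linarith
  have hT : ∀ (T v : ℤ), |T| ≤ |L v - v - N| * (|L v - v - N| + |L (v + N) - (v + N) - N|) →
      |(T : ℝ)| ≤ 6 * pp N L v ^ 2 + 2 * pp N L (v + N) ^ 2 := by
    intro T v h
    have h1 : |(T : ℝ)| ≤ |((L v - v - N : ℤ) : ℝ)| *
        (|((L v - v - N : ℤ) : ℝ)| + |((L (v + N) - (v + N) - N : ℤ) : ℝ)|) := by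
      exact_mod_cast h
    have h2 := m_le_p N L v
    have h3 := m_le_p N L (v + N)
    have h4 : |((L v - v - N : ℤ) : ℝ)| *
        (|((L v - v - N : ℤ) : ℝ)| + |((L (v + N) - (v + N) - N : ℤ) : ℝ)|) ≤
        (2 * |pp N L v|) * (2 * |pp N L v| + 2 * |pp N L (v + N)|) := by
      apply mul_le_mul h2 (add_le_add h2 h3) (by positivity) (by positivity)
    have h5 := sq_abs (pp N L v)
    have h6 := sq_abs (pp N L (v + N))
    have h7 := sq_nonneg (|pp N L v| - |pp N L (v + N)|)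
    nlinarith
  have k1 := hT Ta a ta
  have k2 := hT Tb b tb
  rw [hmain]
  have q1 := sq_nonneg (pp N L a)
  have q2 := sq_nonneg (pp N L b)
  have q3 := sq_nonneg (pp N L (a + N))
  have q4 := sq_nonneg (pp N L (b + N))
  rw [abs_le] at k1 k2 ⊢
  constructor <;> linarith [k1.1, k1.2, k2.1, k2.2]

end Pool.Agent.EHP
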