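import Pool.Agent.EHP.Stmts4

/-!
# The area identity for the pivot function: `Stmt_AREA`
-/

open Finset
open scoped Real ComplexConjugate

namespace Pool.Agent.EHP

namespace M_AREA

theorem sum_split (f : ℤ → ℤ) {a b c : ℤ} (h1 : a ≤ b) (h2 : b ≤ c) :
    ∑ l ∈ Finset.Ico a c, f l = ∑ l ∈ Finset.Ico a b, f l + ∑ l ∈ Finset.Ico b c, f l := by
  rw [← Finset.Ico_union_Ico_eq_Ico h1 h2, Finset.sum_union]
  exact Finset.Ico_disjoint_Ico_consecutive a b c

theorem sum_succ (f : ℤ → ℤ) {a b : ℤ} (h1 : a ≤ b) :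
    ∑ l ∈ Finset.Ico a (b + 1), f l = ∑ l ∈ Finset.Ico a b, f l + f b := by
  rw [sum_split f h1 (by omega)]
  congr 1
  have : Finset.Ico b (b + 1) = {b} := by
    ext x
    simp only [Finset.mem_Ico, Finset.mem_singleton]
    omega
  rw [this, Finset.sum_singleton]

theorem sum_lin (M A : ℤ) : ∀ B : ℤ, A ≤ B →
    2 * ∑ l ∈ Finset.Ico A B, (M - l) = 2 * M * (B - A) - B ^ 2 + B + A ^ 2 - A := by
  apply Int.le_induction
  · simp
  · intro B hB ih
    rw [sum_succ _ hB, mul_add, ih]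
    ring

end M_AREA

open M_AREA in
theorem m_AREA : Stmt_PIVINV → Stmt_AREA := by
  intro hP N c L hL a
  have hmono := hL.piv.mono
  apply Int.le_induction
  · simp
  · intro b hb ih
    have h1 : L a ≤ L b := hmono hb
    have h2 : L b ≤ L (b + 1) := hmono (by omega)
    have h3 : ∑ l ∈ Finset.Ico (L b) (L (b + 1)), (L l - l - N) =
        ∑ l ∈ Finset.Ico (L b) (L (b + 1)), ((b + 1 + N) - l) := by
      apply Finset.sum_congr rfl
      intro l hl
      obtain ⟨h4, h5⟩ := Finset.mem_Ico.1 hl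
      have h6 := hP (2 * N) c L hL (b + 1) l (by rw [add_sub_cancel_right]; exact h4) h5
      rw [h6]
      push_cast
      ring
    have h7 := sum_lin (b + 1 + N) (L b) (L (b + 1)) h2
    rw [sum_succ _ hb, sum_split _ h1 h2, h3]
    linear_combination ih + h7

end Pool.Agent.EHP
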