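import Pool.Agent.EHP.Stmts5

/-!
# Sequences with an almost maximal third coefficient
-/

open Finset
open scoped Real ComplexConjugate

namespace Pool.Agent.EHP

namespace SHAPE

/-- Riemann sums of Lipschitz functions. -/
theorem riem (f : ℝ → ℝ) (Lc : ℝ) (hL0 : 0 ≤ Lc) (hL : ∀ x y, f x ≤ f y + Lc * |x - y|)
    (hc : Continuous f) (n : ℕ) (hn : 1 ≤ n) :
    mn n (fun j => f (2 * π * j / n)) ≤ (∫ x in (0 : ℝ)..(2 * π), f x) / (2 * π) +
      2 * π * Lc / n := by
  have hn' : (0 : ℝ) < n := by exact_mod_cast hn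
  have hpi := Real.pi_pos
  set h : ℝ := 2 * π / n with hh
  have hh0 : 0 < h := by positivity
  have hint : ∀ a b : ℝ, IntervalIntegrable f MeasureTheory.volume a b :=
    fun a b => hc.intervalIntegrable a b
  have key : ∀ k ∈ range n, h * f (2 * π * ((k : ℤ) : ℝ) / n) ≤
      (∫ x in (h * k)..(h * ((k + 1 : ℕ) : ℝ)), f x) + Lc * h * h := by
    intro k _
    have hle : h * k ≤ h * ((k + 1 : ℕ) : ℝ) := by
      apply mul_le_mul_of_nonneg_left _ hh0.le
      push_cast; linarith
    have e1 : h * f (2 * π * ((k : ℤ) : ℝ) / n) - Lc * h * h =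
        ∫ x in (h * k)..(h * ((k + 1 : ℕ) : ℝ)), (f (h * k) - Lc * h) := by
      rw [intervalIntegral.integral_const, smul_eq_mul]
      have : 2 * π * ((k : ℤ) : ℝ) / n = h * k := by
        rw [hh]; push_cast; ring
      rw [this]
      push_cast
      ring
    have e2 : (∫ x in (h * k)..(h * ((k + 1 : ℕ) : ℝ)), (f (h * k) - Lc * h)) ≤
        ∫ x in (h * k)..(h * ((k + 1 : ℕ) : ℝ)), f x := by
      apply intervalIntegral.integral_mono_on hle (by simp) (hint _ _)
      intro x hx
      have h1 := hL (h * k) x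
      have h2 : |h * k - x| ≤ h := by
        rw [abs_sub_comm, abs_of_nonneg (by linarith [hx.1])]
        have := hx.2
        push_cast at this
        linarith
      have h3 := mul_le_mul_of_nonneg_left h2 hL0
      linarith
    linarith
  have hsum := Finset.sum_le_sum key
  rw [Finset.sum_add_distrib,
    intervalIntegral.sum_integral_adjacent_intervals (f := f) (μ := MeasureTheory.volume)
      (a := fun k : ℕ => h * (k : ℝ)) (n := n) (fun k _ => hint _ _), ← Finset.mul_sum] at hsum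
  have e3 : h * (n : ℝ) = 2 * π := by rw [hh]; field_simp
  simp only [Nat.cast_zero, mul_zero, e3, Finset.sum_const, Finset.card_range, nsmul_eq_mul] at hsum
  unfold mn
  have e4 : (∑ j ∈ range n, f (2 * π * ((j : ℤ) : ℝ) / n)) / n =
      (h * ∑ j ∈ range n, f (2 * π * ((j : ℤ) : ℝ) / n)) / (2 * π) := by
    rw [hh]; field_simp
  rw [e4]
  have e5 : ((∫ x in (0 : ℝ)..(2 * π), f x) / (2 * π) + 2 * π * Lc / n) =
      ((∫ x in (0 : ℝ)..(2 * π), f x) + (n : ℝ) * (Lc * h * h)) / (2 * π) := by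
    rw [hh]; field_simp
  rw [e5]
  exact div_le_div_of_nonneg_right hsum (by positivity)

/-- Integral of a `π`-periodic function of `3 x + β`. -/
theorem per_int (F : ℝ → ℝ) (hc : Continuous F) (hper : Function.Periodic F π) (β : ℝ) :
    ∫ x in (0 : ℝ)..(2 * π), F (3 * x + β) = 2 * ∫ x in (0 : ℝ)..π, F x := by
  rw [intervalIntegral.integral_comp_mul_add _ (by norm_num : (3 : ℝ) ≠ 0)]
  have h1 := hper.intervalIntegral_add_zsmul_eq 6 β (fun a b => hc.intervalIntegrable a b)
  have h2 := hper.intervalIntegral_add_eq β 0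
  rw [h2, zero_add] at h1
  have e1 : (3 : ℝ) * 0 + β = β := by ring
  have e2 : (3 : ℝ) * (2 * π) + β = β + (6 : ℤ) • π := by
    rw [zsmul_eq_mul]; push_cast; ring
  rw [e1, e2, h1, smul_eq_mul, zsmul_eq_mul]
  push_cast
  ring

theorem abs_sin_per : Function.Periodic (fun x : ℝ => |Real.sin x|) π := by
  intro x
  show |Real.sin (x + π)| = |Real.sin x|
  rw [Real.sin_add_pi, abs_neg]

theorem int_abs_sin : ∫ x in (0 : ℝ)..π, |Real.sin x| = 2 := by
  have h1 : ∫ x in (0 : ℝ)..π, |Real.sin x| = ∫ x in (0 : ℝ)..π, Real.sin x := by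
    apply intervalIntegral.integral_congr
    intro x hx
    rw [Set.uIcc_of_le Real.pi_pos.le] at hx
    exact abs_of_nonneg (Real.sin_nonneg_of_nonneg_of_le_pi hx.1 hx.2)
  rw [h1, integral_sin]
  simp
  norm_num

theorem int_exp (a : ℝ) (ha : 0 < a) : ∫ x in (0 : ℝ)..π, Real.exp (-(a * x)) ≤ 1 / a := by
  have h1 : ∫ x in (0 : ℝ)..π, Real.exp (-(a * x)) =
      -(Real.exp (-(a * π)) / a) - -(Real.exp (-(a * 0)) / a) := by
    apply intervalIntegral.integral_eq_sub_of_hasDerivAt
      (f := fun x : ℝ => -(Real.exp (-(a * x)) / a)) (f' := fun x : ℝ => Real.exp (-(a * x)))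
    · intro x _
      have h2 : HasDerivAt (fun x : ℝ => -(a * x)) (-a) x := by
        have h5 := (hasDerivAt_id x).const_mul (-a)
        rw [mul_one] at h5
        have e5 : (fun x : ℝ => -(a * x)) = fun x => -a * id x := by
          funext x; simp
        rw [e5]; exact h5
      have h3 := (h2.exp.div_const a).neg
      have e : -(Real.exp (-(a * x)) * -a / a) = Real.exp (-(a * x)) := by
        field_simp
      rw [e] at h3
      exact h3
    · apply Continuous.intervalIntegrable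
      fun_prop
  rw [h1, mul_zero, neg_zero, Real.exp_zero]
  have : 0 < Real.exp (-(a * π)) / a := by positivity
  linarith

theorem int_exp_sin (τ : ℝ) (hτ : 0 < τ) :
    ∫ x in (0 : ℝ)..π, Real.exp (-(|Real.sin x| / τ)) ≤ π * τ := by
  have hpi := Real.pi_pos
  set a : ℝ := 2 / (π * τ) with ha
  have ha0 : 0 < a := by positivity
  have h1 : ∫ x in (0 : ℝ)..π, Real.exp (-(|Real.sin x| / τ)) ≤
      ∫ x in (0 : ℝ)..π, (Real.exp (-(a * x)) + Real.exp (-(a * (π - x)))) := by
    apply intervalIntegral.integral_mono_on hpi.le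
    · apply Continuous.intervalIntegrable
      fun_prop
    · apply Continuous.intervalIntegrable
      fun_prop
    · intro x hx
      have hs : |Real.sin x| = Real.sin x :=
        abs_of_nonneg (Real.sin_nonneg_of_nonneg_of_le_pi hx.1 hx.2)
      rw [hs]
      rcases le_total x (π / 2) with h2 | h2
      · have h3 := Real.mul_le_sin hx.1 h2
        have h4 : a * x ≤ Real.sin x / τ := by
          rw [le_div_iff₀ hτ]
          calc a * x * τ = 2 / π * x := by rw [ha]; field_simp
            _ ≤ Real.sin x := h3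
        have h5 : Real.exp (-(Real.sin x / τ)) ≤ Real.exp (-(a * x)) :=
          Real.exp_le_exp.2 (by linarith)
        have h6 := Real.exp_pos (-(a * (π - x)))
        linarith
      · have h3 := Real.mul_le_sin (x := π - x) (by linarith [hx.2]) (by linarith)
        rw [Real.sin_pi_sub] at h3
        have h4 : a * (π - x) ≤ Real.sin x / τ := by
          rw [le_div_iff₀ hτ]
          calc a * (π - x) * τ = 2 / π * (π - x) := by rw [ha]; field_simp
            _ ≤ Real.sin x := h3
        have h5 : Real.exp (-(Real.sin x / τ)) ≤ Real.exp (-(a * (π - x))) :=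
          Real.exp_le_exp.2 (by linarith)
        have h6 := Real.exp_pos (-(a * x))
        linarith
  refine h1.trans ?_
  rw [intervalIntegral.integral_add (Continuous.intervalIntegrable (by fun_prop) _ _)
    (Continuous.intervalIntegrable (by fun_prop) _ _)]
  have h2 : ∫ x in (0 : ℝ)..π, Real.exp (-(a * (π - x))) = ∫ x in (0 : ℝ)..π, Real.exp (-(a * x)) := by
    have := intervalIntegral.integral_comp_sub_left (a := (0 : ℝ)) (b := π)
      (fun x => Real.exp (-(a * x))) π
    rw [this]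
    simp
  rw [h2]
  have h3 := int_exp a ha0
  have h4 : 1 / a = π * τ / 2 := by rw [ha]; field_simp
  rw [h4] at h3
  linarith

/-- Mean of `|sin|`. -/
theorem mean_abs_sin (β : ℝ) (n : ℕ) (hn : 1 ≤ n) :
    mn n (fun j => |Real.sin (3 * (2 * π * j / n) + β)|) ≤ 2 / π + 6 * π / n := by
  have hpi := Real.pi_pos
  have h1 := riem (fun x => |Real.sin (3 * x + β)|) 3 (by norm_num) (by
    intro x y
    have h2 : |Real.sin (3 * x + β)| - |Real.sin (3 * y + β)| ≤
        |Real.sin (3 * x + β) - Real.sin (3 * y + β)| := abs_sub_abs_le_abs_sub _ _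
    have h3 : |Real.sin (3 * x + β) - Real.sin (3 * y + β)| ≤ |(3 * x + β) - (3 * y + β)| :=
      Real.abs_sin_sub_sin_le _ _
    have h4 : |(3 * x + β) - (3 * y + β)| = 3 * |x - y| := by
      have : (3 * x + β) - (3 * y + β) = 3 * (x - y) := by ring
      rw [this, abs_mul, abs_of_pos (by norm_num : (0 : ℝ) < 3)]
    linarith) (by fun_prop) n hn
  have h2 := per_int (fun x => |Real.sin x|) (by fun_prop) abs_sin_per β
  rw [h2, int_abs_sin] at h1
  have e1 : (2 : ℝ) * 2 / (2 * π) + 2 * π * 3 / n = 2 / π + 6 * π / n := by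
    field_simp
    ring
  rw [e1] at h1
  exact h1

/-- Mean of `exp (-|sin| / τ)`. -/
theorem mean_exp_sin (β τ : ℝ) (hτ : 0 < τ) (n : ℕ) (hn : 1 ≤ n) :
    mn n (fun j => Real.exp (-(|Real.sin (3 * (2 * π * j / n) + β)| / τ))) ≤
      τ + 6 * π / (τ * n) := by
  have hpi := Real.pi_pos
  have h1 := riem (fun x => Real.exp (-(|Real.sin (3 * x + β)| / τ))) (3 / τ) (by positivity) (by
    intro x y
    have h3 : |Real.sin (3 * x + β) - Real.sin (3 * y + β)| ≤ |(3 * x + β) - (3 * y + β)| :=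
      Real.abs_sin_sub_sin_le _ _
    have h4 : |(3 * x + β) - (3 * y + β)| = 3 * |x - y| := by
      have : (3 * x + β) - (3 * y + β) = 3 * (x - y) := by ring
      rw [this, abs_mul, abs_of_pos (by norm_num : (0 : ℝ) < 3)]
    have h5 : |Real.sin (3 * y + β)| - |Real.sin (3 * x + β)| ≤ 3 * |x - y| := by
      have := abs_sub_abs_le_abs_sub (Real.sin (3 * y + β)) (Real.sin (3 * x + β))
      rw [abs_sub_comm] at this
      linarith
    set A := |Real.sin (3 * x + β)| / τ with hA
    set B := |Real.sin (3 * y + β)| / τ with hB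
    have hA0 : 0 ≤ A := by positivity
    have hAB : B - A ≤ 3 / τ * |x - y| := by
      rw [hA, hB, ← sub_div, div_mul_eq_mul_div]
      exact div_le_div_of_nonneg_right h5 hτ.le
    -- `e^{-A} - e^{-B} ≤ B - A` or `≤ 0`
    have h6 : Real.exp (-A) - Real.exp (-B) ≤ max 0 (B - A) := by
      rcases le_total B A with h7 | h7
      · have : Real.exp (-A) ≤ Real.exp (-B) := Real.exp_le_exp.2 (by linarith)
        exact le_max_of_le_left (by linarith)
      · apply le_max_of_le_right
        have h8 : Real.exp (-B) = Real.exp (-A) * Real.exp (-(B - A)) := by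
          rw [← Real.exp_add]; congr 1; ring
        have h9 := Real.add_one_le_exp (-(B - A))
        have h10 : Real.exp (-A) ≤ 1 := Real.exp_le_one_iff.2 (by linarith)
        have h11 := Real.exp_pos (-A)
        rw [h8]
        nlinarith
    have h12 : max 0 (B - A) ≤ 3 / τ * |x - y| := max_le (by positivity) hAB
    linarith) (by fun_prop) n hn
  have h2 := per_int (fun x => Real.exp (-(|Real.sin x| / τ))) (by fun_prop) (by
    intro x
    show Real.exp (-(|Real.sin (x + π)| / τ)) = Real.exp (-(|Real.sin x| / τ))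
    rw [Real.sin_add_pi, abs_neg]) β
  rw [h2] at h1
  have h3 := int_exp_sin τ hτ
  have h4 : 2 * (∫ x in (0 : ℝ)..π, Real.exp (-(|Real.sin x| / τ))) / (2 * π) ≤ τ := by
    rw [div_le_iff₀ (by positivity)]
    linarith
  have e1 : 2 * π * (3 / τ) / n = 6 * π / (τ * n) := by
    field_simp
    ring
  rw [e1] at h1
  linarith

theorem mn_add (n : ℕ) (f g : ℤ → ℝ) : mn n (fun j => f j + g j) = mn n f + mn n g := by
  unfold mn
  rw [Finset.sum_add_distrib, add_div]

theorem mn_mul (n : ℕ) (a : ℝ) (f : ℤ → ℝ) : mn n (fun j => a * f j) = a * mn n f := by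
  unfold mn
  rw [← Finset.mul_sum, mul_div_assoc]

theorem mn_mono (n : ℕ) (f g : ℤ → ℝ) (h : ∀ j, f j ≤ g j) : mn n f ≤ mn n g := by
  unfold mn
  exact div_le_div_of_nonneg_right (Finset.sum_le_sum (fun j _ => h j)) (by positivity)

/-- The phase. -/
theorem phase (n : ℕ) (q : ℤ → ℝ) : ∃ x₀ : ℝ,
    mn n (fun j => q j * Real.sin (3 * (2 * π * j / n - x₀))) = ‖dr n q 3‖ := by
  set A := dr n q 3 with hA
  set α := Complex.arg A with hα
  refine ⟨-(α + π / 2) / 3, ?_⟩
  have h1 : (‖A‖ : ℂ) = A * Complex.exp (-(α : ℂ) * Complex.I) := by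
    have h2 := Complex.norm_mul_exp_arg_mul_I A
    rw [← hα] at h2
    calc (‖A‖ : ℂ) = (‖A‖ : ℂ) * (Complex.exp (α * Complex.I) *
          Complex.exp (-(α : ℂ) * Complex.I)) := by
          rw [← Complex.exp_add]
          have : (α : ℂ) * Complex.I + -(α : ℂ) * Complex.I = 0 := by ring
          rw [this, Complex.exp_zero, mul_one]
      _ = A * Complex.exp (-(α : ℂ) * Complex.I) := by rw [← mul_assoc, h2]
  have h3 : ‖A‖ = (A * Complex.exp (-(α : ℂ) * Complex.I)).re := by
    rw [← h1, Complex.ofReal_re]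
  rw [h3, hA]
  unfold dr dft mn
  rw [div_mul_eq_mul_div, Finset.sum_mul]
  have h4 : ((∑ j ∈ range n, (q (j : ℤ) : ℂ) *
      Complex.exp (-((2 * π * ((3 : ℤ) : ℝ) * j / n : ℝ) : ℂ) * Complex.I) *
      Complex.exp (-(α : ℂ) * Complex.I)) / (n : ℂ)).re =
      (∑ j ∈ range n, (q (j : ℤ) : ℂ) *
      Complex.exp (-((2 * π * ((3 : ℤ) : ℝ) * j / n : ℝ) : ℂ) * Complex.I) *
      Complex.exp (-(α : ℂ) * Complex.I)).re / n := by
    rw [← Complex.ofReal_natCast, Complex.div_ofReal_re]
  rw [h4, Complex.re_sum]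
  congr 1
  apply Finset.sum_congr rfl
  intro j _
  rw [mul_assoc, ← Complex.exp_add]
  have e1 : -((2 * π * ((3 : ℤ) : ℝ) * j / n : ℝ) : ℂ) * Complex.I + -(α : ℂ) * Complex.I =
      ((-(3 * (2 * π * j / n) + α) : ℝ) : ℂ) * Complex.I := by
    push_cast
    ring
  rw [e1, Complex.re_ofReal_mul, Complex.exp_ofReal_mul_I_re, Real.cos_neg]
  show q (j : ℤ) * Real.sin (3 * (2 * π * ((j : ℤ) : ℝ) / n - -(α + π / 2) / 3)) = _
  congr 1
  have e2 : 3 * (2 * π * ((j : ℤ) : ℝ) / n - -(α + π / 2) / 3) =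
      3 * (2 * π * j / n) + α + π / 2 := by
    push_cast
    ring
  rw [e2, Real.sin_add_pi_div_two]

end SHAPE

open SHAPE in
theorem m_SHAPE : Stmt_SHAPE := by
  intro ε hε
  have hpi := Real.pi_pos
  have hpi3 := Real.pi_gt_three
  set τ : ℝ := ε / 4 with hτ
  have hτ0 : 0 < τ := by positivity
  refine ⟨min 1 (τ ^ 2), by positivity, ?_⟩
  obtain ⟨n₀, hn₀⟩ := exists_nat_gt (6 * π / τ ^ 2 + 1)
  refine ⟨n₀, ?_⟩
  intro n hn q _ hq hδ
  have hn1 : 6 * π / τ ^ 2 + 1 < n := lt_of_lt_of_le hn₀ (by exact_mod_cast hn)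
  have hnp : (0 : ℝ) < n := by
    have : 0 < 6 * π / τ ^ 2 := by positivity
    linarith
  have hn1' : 1 ≤ n := by
    have : 0 < n := by exact_mod_cast hnp
    exact this
  have hn2 : 6 * π / n ≤ τ ^ 2 := by
    rw [div_le_iff₀ hnp]
    have h1 : 6 * π / τ ^ 2 < n := by linarith
    rw [div_lt_iff₀ (by positivity)] at h1
    linarith
  obtain ⟨x₀, hx₀⟩ := phase n q
  refine ⟨x₀, ?_⟩
  set s : ℤ → ℝ := fun j => Real.sin (3 * (2 * π * j / n - x₀)) with hs
  set w : ℤ → ℝ := fun j => |q j - sqw (2 * π * j / n - x₀)| with hw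
  -- pointwise identity
  have hpt : ∀ j, w j * |s j| = 1 / 2 * |s j| + -1 * (q j * s j) ∧ 0 ≤ w j ∧ w j ≤ 1 := by
    intro j
    have hqj := abs_le.1 (hq j)
    simp only [hw, hs]
    unfold sqw
    by_cases h0 : 0 ≤ Real.sin (3 * (2 * π * j / n - x₀))
    · rw [if_pos h0, abs_of_nonneg h0, abs_of_nonpos (by linarith [hqj.2])]
      exact ⟨by ring, by linarith [hqj.2], by linarith [hqj.1]⟩
    · rw [if_neg h0, abs_of_neg (not_le.1 h0), abs_of_nonneg (by linarith [hqj.1])]
      exact ⟨by ring, by linarith [hqj.1], by linarith [hqj.2]⟩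
  have hbeta : ∀ j : ℤ, 3 * (2 * π * j / n - x₀) = 3 * (2 * π * j / n) + (-(3 * x₀)) := by
    intro j; ring
  have hm1 : mn n (fun j => |s j|) ≤ 2 / π + 6 * π / n := by
    have := mean_abs_sin (-(3 * x₀)) n hn1'
    simp only [hs, hbeta]
    exact this
  have hm2 : mn n (fun j => Real.exp (-(|s j| / τ))) ≤ τ + 6 * π / (τ * n) := by
    have := mean_exp_sin (-(3 * x₀)) τ hτ0 n hn1'
    simp only [hs, hbeta]
    exact this
  -- the weighted mean
  have hws : mn n (fun j => w j * |s j|) = 1 / 2 * mn n (fun j => |s j|) - ‖dr n q 3‖ := by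
    have e1 : (fun j => w j * |s j|) = fun j => 1 / 2 * |s j| + -1 * (q j * s j) := by
      funext j; exact (hpt j).1
    rw [e1, mn_add, mn_mul, mn_mul, hx₀]
    ring
  -- lower bound for the coefficient
  have hcoef : (1 - τ ^ 2) / π ≤ ‖dr n q 3‖ := by
    have h1 : 1 - π ^ 2 * ‖dr n q 3‖ ^ 2 ≤ τ ^ 2 := hδ.trans (min_le_right _ _)
    have h2 : 0 ≤ ‖dr n q 3‖ := norm_nonneg _
    rw [div_le_iff₀ hpi]
    by_contra h3
    push Not at h3
    have h4 : 0 ≤ ‖dr n q 3‖ * π := by positivity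
    have h5 : ‖dr n q 3‖ * π < 1 := by nlinarith [sq_nonneg τ]
    nlinarith [sq_nonneg τ]
  have hws2 : mn n (fun j => w j * |s j|) ≤ τ ^ 2 := by
    rw [hws]
    have h1 : (1 - τ ^ 2) / π = 1 / π - τ ^ 2 / π := by ring
    rw [h1] at hcoef
    have h2 : τ ^ 2 / π ≤ τ ^ 2 / 2 := by
      apply div_le_div_of_nonneg_left (by positivity) (by norm_num) (by linarith)
    have h3 : 1 / 2 * (2 / π + 6 * π / n) = 1 / π + 1 / 2 * (6 * π / n) := by ring
    have h4 : 1 / 2 * mn n (fun j => |s j|) ≤ 1 / π + 1 / 2 * (6 * π / n) := by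
      rw [← h3]; linarith
    linarith
  -- conclusion
  have hfin : mn n w ≤ mn n (fun j => 1 / τ * (w j * |s j|) + Real.exp (-(|s j| / τ))) := by
    apply mn_mono
    intro j
    obtain ⟨_, h0, h1⟩ := hpt j
    have h2 := Real.add_one_le_exp (-(|s j| / τ))
    have h3 : 1 / τ * (w j * |s j|) = w j * (|s j| / τ) := by ring
    rw [h3]
    have h4 := Real.exp_pos (-(|s j| / τ))
    have h5 : w j * 1 ≤ w j * (|s j| / τ + Real.exp (-(|s j| / τ))) :=
      mul_le_mul_of_nonneg_left (by linarith) h0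
    have h6 : w j * Real.exp (-(|s j| / τ)) ≤ 1 * Real.exp (-(|s j| / τ)) :=
      mul_le_mul_of_nonneg_right h1 h4.le
    linarith
  rw [mn_add, mn_mul] at hfin
  have h7 : 1 / τ * mn n (fun j => w j * |s j|) ≤ τ := by
    rw [div_mul_eq_mul_div, one_mul, div_le_iff₀ hτ0]
    linarith [hws2]
  have h8 : 6 * π / (τ * n) ≤ τ := by
    have : 6 * π / (τ * n) = (6 * π / n) / τ := by
      field_simp
    rw [this, div_le_iff₀ hτ0]
    linarith [hn2]
  have h9 : mn n w ≤ ε := by
    have : ε = 4 * τ := by rw [hτ]; ring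
    linarith
  exact h9

end Pool.Agent.EHP
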