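import Pool.Agent.EHP.Stmts6
import Pool.Agent.EHP.MSHAPE

/-!
# The value of the maximum
-/

open Finset
open scoped Real ComplexConjugate

namespace Pool.Agent.EHP

namespace M_ASY

/-- The logarithm of the product of the distances. -/
theorem log_PD {n : ℕ} (hn : 0 < n) {z : Fin n → ℂ} {w : ℤ → ℂ} (hw : Pts n w) (e : Fin n ≃ Fin n)
    (h : ∀ i j : Fin n, ‖w ((i : ℕ) : ℤ) - w ((j : ℕ) : ℤ)‖ = ‖z (e i) - z (e j)‖) :
    Real.log (PD z) = FL n w := by
  have h1 : PD z = ∏ i : Fin n, ∏ j ∈ univ.erase i, ‖w ((i : ℕ) : ℤ) - w ((j : ℕ) : ℤ)‖ := by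
    unfold PD
    rw [← Equiv.prod_comp e]
    refine Finset.prod_congr rfl fun i _ => ?_
    symm
    refine Finset.prod_equiv e (fun j => ?_) (fun j _ => h i j)
    simp
  have hne : ∀ i j : Fin n, j ≠ i → ‖w ((i : ℕ) : ℤ) - w ((j : ℕ) : ℤ)‖ ≠ 0 := by
    intro i j hij h0
    rw [norm_eq_zero, sub_eq_zero] at h0
    obtain ⟨m, hm⟩ := hw.inj _ _ h0
    have hi := i.2
    have hj := j.2
    apply hij
    ext
    have hm0 : m = 0 := by
      by_contra hm0
      rcases lt_or_gt_of_ne hm0 with h | h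
      · have : (n : ℤ) * m ≤ n * (-1) := by
          apply mul_le_mul_of_nonneg_left (by omega) (by omega)
        omega
      · have : (n : ℤ) * 1 ≤ n * m := by
          apply mul_le_mul_of_nonneg_left (by omega) (by omega)
        omega
    rw [hm0] at hm
    omega
  rw [h1, Real.log_prod (fun i _ => Finset.prod_ne_zero_iff.2 fun j hj =>
    hne i j (Finset.ne_of_mem_erase hj))]
  unfold FL
  rw [Finset.sum_range]
  refine Finset.sum_congr rfl fun i _ => ?_
  rw [Real.log_prod (fun j hj => hne i j (Finset.ne_of_mem_erase hj))]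
  have hi := i.2
  refine Finset.sum_nbij' (fun j : Fin n => if (i : ℕ) < j then (j : ℕ) - i else (j : ℕ) + n - i)
    (fun d => if hd : (i : ℕ) + d < n then ⟨(i : ℕ) + d, hd⟩ else ⟨((i : ℕ) + d - n) % n,
      Nat.mod_lt _ hn⟩) ?_ ?_ ?_ ?_ ?_
  · intro j hj
    have hj' : (j : ℕ) ≠ i := fun h => Finset.ne_of_mem_erase hj (Fin.ext h)
    have := j.2
    simp only [Finset.mem_Ico]
    split_ifs <;> omega
  · intro d hd
    rw [Finset.mem_Ico] at hd
    rw [Finset.mem_erase]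
    refine ⟨?_, Finset.mem_univ _⟩
    split_ifs with h2
    · intro h3
      have := congrArg Fin.val h3
      simp only at this
      omega
    · intro h3
      have := congrArg Fin.val h3
      simp only at this
      rw [Nat.mod_eq_of_lt (by omega)] at this
      omega
  · intro j hj
    have hj' : (j : ℕ) ≠ i := fun h => Finset.ne_of_mem_erase hj (Fin.ext h)
    have := j.2
    ext
    by_cases h2 : (i : ℕ) < j
    · simp only [h2, if_true]
      rw [dif_pos (by omega)]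
      simp only
      omega
    · simp only [h2, if_false]
      rw [dif_neg (by omega)]
      simp only
      rw [Nat.mod_eq_of_lt (by omega)]
      omega
  · intro d hd
    rw [Finset.mem_Ico] at hd
    by_cases h2 : (i : ℕ) + d < n
    · rw [dif_pos h2]
      simp only
      rw [if_pos (by omega)]
      omega
    · rw [dif_neg h2]
      simp only
      rw [Nat.mod_eq_of_lt (by omega), if_neg (by omega)]
      omega
  · intro j hj
    have hj' : (j : ℕ) ≠ i := fun h => Finset.ne_of_mem_erase hj (Fin.ext h)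
    have := j.2
    rw [norm_sub_rev]
    by_cases h2 : (i : ℕ) < j
    · simp only [h2, if_true]
      rw [Nat.cast_sub h2.le]
      congr 4
      ring
    · simp only [h2, if_false]
      rw [Nat.cast_sub (by omega)]
      have e1 : ((i : ℕ) : ℤ) + ((((j : ℕ) + n : ℕ) : ℤ) - ((i : ℕ) : ℤ)) = ((j : ℕ) : ℤ) + n := by
        push_cast
        ring
      rw [e1, hw.per]

theorem dr_three {n : ℕ} (hn : 1 ≤ n) {q : ℤ → ℝ} (hq : ∀ j, |q j| ≤ 1 / 2) :
    ‖dr n q 3‖ ≤ 1 / π + 3 * π / n := by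
  obtain ⟨x, hx⟩ := SHAPE.phase n q
  rw [← hx]
  have h1 := SHAPE.mean_abs_sin (-(3 * x)) n hn
  have h2 : mn n (fun j => q j * Real.sin (3 * (2 * π * j / n - x))) ≤
      mn n (fun j => 1 / 2 * |Real.sin (3 * (2 * π * j / n) + -(3 * x))|) := by
    apply SHAPE.mn_mono
    intro j
    have e1 : 3 * (2 * π * j / n - x) = 3 * (2 * π * j / n) + -(3 * x) := by ring
    rw [e1]
    refine (le_abs_self _).trans ?_
    rw [abs_mul]
    exact mul_le_mul_of_nonneg_right (hq j) (abs_nonneg _)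
  rw [SHAPE.mn_mul] at h2
  refine h2.trans ?_
  have := mul_le_mul_of_nonneg_left h1 (by norm_num : (0 : ℝ) ≤ 1 / 2)
  refine this.trans (le_of_eq ?_)
  ring

theorem dr_three_sq {n : ℕ} (hn : 30 ≤ n) {q : ℤ → ℝ} (hq : ∀ j, |q j| ≤ 1 / 2) :
    π ^ 2 * ‖dr n q 3‖ ^ 2 - 1 ≤ 90 / n := by
  have h1 := dr_three (by omega : 1 ≤ n) hq
  have hn0 : (30 : ℝ) ≤ n := by exact_mod_cast hn
  have hnp : (0 : ℝ) < n := by linarith
  have hp2 : π ^ 2 ≤ 10 := by
    have := Real.pi_lt_d2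
    have := Real.pi_pos
    nlinarith
  have h2 : π * ‖dr n q 3‖ ≤ 1 + 30 / n := by
    have e1 := mul_le_mul_of_nonneg_left h1 Real.pi_pos.le
    refine e1.trans ?_
    have e2 : π * (1 / π + 3 * π / n) = 1 + 3 * π ^ 2 / n := by
      have := Real.pi_ne_zero
      field_simp
    rw [e2]
    have : 3 * π ^ 2 / n ≤ 30 / n := div_le_div_of_nonneg_right (by linarith) hnp.le
    linarith
  have h3 : (π * ‖dr n q 3‖) ^ 2 ≤ (1 + 30 / n) ^ 2 :=
    pow_le_pow_left₀ (by positivity) h2 2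
  have h4 : (30 : ℝ) / n ≤ 1 := by
    rw [div_le_one hnp]
    exact hn0
  have h5 : (0 : ℝ) ≤ 30 / n := by positivity
  have h6 : (90 : ℝ) / n = 3 * (30 / n) := by ring
  rw [h6]
  nlinarith

theorem QM_nonneg (n M : ℕ) (f : ℤ → ℝ) : 0 ≤ QM n M f := by
  unfold QM
  positivity

theorem UM_nonneg (n M : ℕ) (u p : ℤ → ℝ) : 0 ≤ UM n M u p := by
  unfold UM
  positivity

theorem pp_per {N : ℕ} {c : Cfg (2 * N)} {L : ℤ → ℤ} (hL : Piw (2 * N) c L) (j : ℤ) :
    pp N L (j + (2 * N : ℕ)) = pp N L j := by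
  unfold pp
  rw [hL.piv.add]
  congr 2
  ring

theorem pp_abs (N : ℕ) (L : ℤ → ℤ) (j : ℤ) : 1 / 2 ≤ |pp N L j| := by
  unfold pp
  generalize L j - j - N = m
  rcases le_or_gt m 0 with h | h
  · have : (m : ℝ) ≤ 0 := by exact_mod_cast h
    rw [abs_of_nonneg (by linarith)]
    linarith
  · have : (1 : ℝ) ≤ m := by exact_mod_cast h
    rw [abs_of_nonpos (by linarith)]
    linarith

theorem pT_abs (p : ℤ → ℝ) (j : ℤ) : |pT p j| ≤ 1 / 2 := by
  unfold pT
  rw [abs_le]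
  constructor
  · exact le_max_right _ _
  · exact max_le (min_le_right _ _) (by norm_num)

theorem pO_abs (N : ℕ) (p : ℤ → ℝ) (j : ℤ) : |pO N p j| ≤ 1 / 2 := by
  unfold pO
  have h1 := abs_le.1 (pT_abs p j)
  have h2 := abs_le.1 (pT_abs p (j + N))
  rw [abs_le]
  constructor <;> linarith [h1.1, h1.2, h2.1, h2.2]

theorem pO_anti {N : ℕ} {p : ℤ → ℝ} (hp : ∀ j, p (j + (2 * N : ℕ)) = p j) (j : ℤ) :
    pO N p (j + N) = -pO N p j := by
  unfold pO
  have h1 : pT p (j + N + N) = pT p j := by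
    unfold pT
    have e1 : j + (N : ℤ) + N = j + (2 * N : ℕ) := by
      push_cast
      ring
    rw [e1, hp]
  rw [h1]
  ring

end M_ASY

open M_ASY in
theorem m_ASY : Stmt_NICE → Stmt_REG → Stmt_PIV → Stmt_HFIN → Stmt_TRUNC → Stmt_LIMIT →
    Stmt_LOWER → Stmt_ASY := by
  intro hNI hRE hPV hHF hTR hLI hLO ε hε
  obtain ⟨K, ε0, hK, hε0, n1, hRE⟩ := hRE
  obtain ⟨n2, hNI⟩ := hNI ε0 hε0
  obtain ⟨n3, hPV⟩ := hPV K
  obtain ⟨C, hC, hHF⟩ := hHF K
  obtain ⟨M0, hM0⟩ := exists_nat_gt (4 * C / ε)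
  obtain ⟨M, hM5, hM1⟩ : ∃ M : ℕ, 5 ≤ M ∧ M0 ≤ M := ⟨max 5 M0, le_max_left _ _, le_max_right _ _⟩
  have hMp : (0 : ℝ) < M := by exact_mod_cast (by omega : 0 < M)
  have hCM : C / M ≤ ε / 4 := by
    have e1 : 4 * C / ε < M := lt_of_lt_of_le hM0 (by exact_mod_cast hM1)
    rw [div_lt_iff₀ hε] at e1
    rw [div_le_iff₀ hMp]
    linarith
  obtain ⟨n4, hHF⟩ := hHF M (ε / 4) hM5 (by positivity)
  obtain ⟨n5, hLI⟩ := hLI M (ε / 4) (by omega) (by positivity)
  obtain ⟨n6, hLO⟩ := hLO ε hε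
  obtain ⟨n7, hn7⟩ := exists_nat_gt (1 / ε)
  refine ⟨n1 + n2 + n3 + n4 + 2 * n5 + n6 + n7 + 2 * M + 32, fun n hn hev z hz => ?_⟩
  obtain ⟨N, hN⟩ := hev
  have hN2 : n = 2 * N := by omega
  subst hN2
  clear hN
  have hn0 : (0 : ℝ) < (2 * N : ℕ) := by exact_mod_cast (by omega : 0 < 2 * N)
  obtain ⟨c, hc, e, u, t, hu, hez⟩ := hNI (2 * N) (by omega) z hz
  have hreg := hRE (2 * N) (by omega) c hc
  obtain ⟨L, hL⟩ := hPV (2 * N) (by omega) c hreg
  have hPD : Real.log (PD z) = FL (2 * N) c.z := by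
    refine log_PD (by omega) hc.opt.pts e fun i j => ?_
    rw [hez i, hez j, ← mul_sub, norm_mul, hu, one_mul]
    congr 1
    ring
  rw [hPD, abs_le]
  constructor
  · have := hLO N (by omega) c.z hc.opt
    linarith
  · have h1 := hHF N (by omega) c hreg L hL
    have h2 := hTR N M (pp N L) (by omega) (pp_per hL) (pp_abs N L)
    have h3 := hLI N (by omega) (pO N (pp N L)) (pO_anti (pp_per hL)) (pO_abs N _)
    have h4 := dr_three_sq (by omega : 30 ≤ 2 * N) (pO_abs N (pp N L))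
    have h5 := UM_nonneg (2 * N) M (uu N c) (pp N L)
    have h6 : 0 ≤ mn (2 * N) (fun j => |pp N L j - pT (pp N L) j|) := by
      unfold mn
      positivity
    have h7 := mul_le_mul_of_nonneg_left h2 (by positivity : 0 ≤ π ^ 2 / 2)
    have h8 : π ^ 2 / 2 * (QM (2 * N) M (pO N (pp N L)) -
        2 / 5 * mn (2 * N) (fun j => |pp N L j - pT (pp N L) j|)) ≤
        π ^ 2 / 2 * QM (2 * N) M (pO N (pp N L)) := by
      apply mul_le_mul_of_nonneg_left _ (by positivity)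
      linarith
    have h9 : (90 : ℝ) / (2 * N : ℕ) ≤ 100 * ε := by
      have e1 : (n7 : ℝ) ≤ (2 * N : ℕ) := by exact_mod_cast (by omega : n7 ≤ 2 * N)
      have e2 : 1 / ε < (2 * N : ℕ) := lt_of_lt_of_le hn7 e1
      rw [div_lt_iff₀ hε] at e2
      rw [div_le_iff₀ hn0]
      nlinarith
    linarith

end Pool.Agent.EHP
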