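import Pool.Agent.EHP.Stmts2

open Finset
open scoped Real ComplexConjugate

namespace Pool.Agent.EHP

namespace BIGGAPaux

/-- `sin X / sin a ≤ X / a` for `0 < a ≤ X < π`. -/
theorem sin_ratio {a X : ℝ} (ha : 0 < a) (haX : a ≤ X) (hX : X < π) :
    Real.sin X * a ≤ Real.sin a * X := by
  have hX0 : 0 < X := lt_of_lt_of_le ha haX
  have hc := strictConcaveOn_sin_Icc.concaveOn
  have h := hc.2 (show X ∈ Set.Icc (0:ℝ) π from ⟨hX0.le, hX.le⟩)
    (show (0:ℝ) ∈ Set.Icc (0:ℝ) π from ⟨le_refl _, Real.pi_pos.le⟩)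
    (show 0 ≤ a / X by positivity)
    (show 0 ≤ 1 - a / X by rw [sub_nonneg, div_le_one hX0]; exact haX)
    (show a / X + (1 - a / X) = 1 by ring)
  simp only [smul_eq_mul, Real.sin_zero, mul_zero, add_zero] at h
  have h2 : a / X * X = a := by field_simp
  rw [h2] at h
  have h3 : a / X * Real.sin X * X ≤ Real.sin a * X := mul_le_mul_of_nonneg_right h hX0.le
  have h4 : a / X * Real.sin X * X = Real.sin X * a := by field_simp
  linarith

theorem log_le {t : ℝ} (ht : 1 ≤ t) : Real.log (1 + t) ≤ 3 / 4 * t := by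
  have h1 : Real.log (1 + t) = Real.log 2 + Real.log ((1 + t) / 2) := by
    rw [← Real.log_mul (by norm_num) (by positivity)]
    congr 1
    ring
  have h2 : Real.log ((1 + t) / 2) ≤ (1 + t) / 2 - 1 :=
    Real.log_le_sub_one_of_pos (by positivity)
  have h3 := Real.log_two_lt_d9
  rw [h1]
  linarith

/-- The basic inequality. -/
theorem DD_ge {a t : ℝ} (ha : 0 < a) (ha2 : a ≤ 1 / 20) (ht : 1 ≤ t) (hX : a * (1 + t) < π) :
    1 / 5 * t ≤ DD a (a * (1 + t)) := by
  have hpi := Real.pi_gt_three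
  have hapi : a < π := by linarith
  have hX0 : 0 < a * (1 + t) := by positivity
  have hsa : 0 < Real.sin a := Real.sin_pos_of_pos_of_lt_pi ha hapi
  have hsX : 0 < Real.sin (a * (1 + t)) := Real.sin_pos_of_pos_of_lt_pi hX0 hX
  have h1 := sin_ratio ha (by nlinarith : a ≤ a * (1 + t)) hX
  have h2 : Real.sin (a * (1 + t)) / Real.sin a ≤ 1 + t := by
    rw [div_le_iff₀ hsa]
    have h5 : Real.sin (a * (1 + t)) * a ≤ ((1 + t) * Real.sin a) * a := by linarith
    exact le_of_mul_le_mul_right h5 ha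
  have h3 : Real.log (Real.sin (a * (1 + t)) / Real.sin a) ≤ 3 / 4 * t :=
    le_trans (Real.log_le_log (by positivity) h2) (log_le ht)
  have hcos : 1 - a ^ 2 / 2 ≤ Real.cos a := Real.one_sub_sq_div_two_le_cos
  have hsin : Real.sin a ≤ a := Real.sin_le ha.le
  have h4 : 19 / 20 * t ≤ (a * (1 + t) - a) * (Real.cos a / Real.sin a) := by
    have e : (a * (1 + t) - a) * (Real.cos a / Real.sin a) = t * (a * Real.cos a / Real.sin a) := by
      ring
    rw [e]
    have h6 : 19 / 20 ≤ a * Real.cos a / Real.sin a := by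
      rw [le_div_iff₀ hsa]
      have : 19 / 20 ≤ Real.cos a := by nlinarith
      nlinarith
    nlinarith
  unfold DD
  linarith

/-- The truncated gaps. -/
noncomputable def F {n : ℕ} (c : Cfg n) (d : ℕ) (j : ℤ) : ℝ :=
  if 2 * (d : ℝ) ≤ c.y j then c.y j else 0

theorem F_nonneg {n : ℕ} (c : Cfg n) (d : ℕ) (j : ℤ) : 0 ≤ F c d j := by
  unfold F
  split_ifs with h
  · exact le_trans (by positivity) h
  · exact le_refl _

theorem X_eq {n : ℕ} (hn : 0 < n) (c : Cfg n) (j : ℤ) (d : ℕ) :
    c.X (j + (d : ℤ)) j = π * d / n + π / n * ∑ l ∈ range d, c.y (j + (l : ℤ)) := by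
  have hn' : (n : ℝ) ≠ 0 := by positivity
  have h : ∀ d : ℕ, c.θ (j + (d : ℤ)) - c.θ j = ∑ l ∈ range d, c.g (j + (l : ℤ)) := by
    intro d
    induction d with
    | zero => simp
    | succ k ih =>
      rw [Finset.sum_range_succ, ← ih]
      unfold Cfg.g
      push_cast
      rw [← add_assoc]
      ring
  unfold Cfg.X
  rw [h]
  have h2 : ∑ l ∈ range d, c.g (j + (l : ℤ)) =
      ∑ l ∈ range d, (2 * π / n) * (1 + c.y (j + (l : ℤ))) :=
    Finset.sum_congr rfl (fun (l : ℕ) _ => c.g_eq hn (j + (l : ℤ)))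
  rw [h2, ← Finset.mul_sum,
    Finset.sum_add_distrib, Finset.sum_const, Finset.card_range, nsmul_eq_mul]
  field_simp

end BIGGAPaux

open BIGGAPaux

theorem m_BIGGAP : Stmt_DDLB → Stmt_BIGGAP := by
  intro hDD
  refine ⟨1 / 10, by norm_num, 1, ?_⟩
  intro n hn c hc
  have hn0 : 0 < n := hn
  have hnR : (0 : ℝ) < n := by exact_mod_cast hn0
  have hpi := Real.pi_gt_three
  have hpi0 := Real.pi_pos
  -- bound of the gaps
  have hy : ∀ j, c.y j ≤ n * (1 / 10) / π := by
    intro j
    have h1 : c.g j = 2 * π / n + (c.φ (j + 1) - c.φ j) := by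
      unfold Cfg.g Cfg.φ
      push_cast
      field_simp
      ring
    have h2 := abs_le.1 (hc.hφ (j + 1))
    have h3 := abs_le.1 (hc.hφ j)
    have h4 := c.g_eq hn0 j
    have h5 : 2 * π / n * c.y j ≤ 2 * (1 / 10) := by
      have : 2 * π / n * (1 + c.y j) ≤ 2 * π / n + 2 * (1 / 10) := by
        rw [← h4, h1]; linarith [h2.2, h3.1]
      linarith
    have h6 : c.y j = (2 * π / n * c.y j) * (n / (2 * π)) := by field_simp
    rw [h6]
    calc (2 * π / n * c.y j) * (n / (2 * π)) ≤ (2 * (1 / 10)) * (n / (2 * π)) :=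
          mul_le_mul_of_nonneg_right h5 (by positivity)
      _ = n * (1 / 10) / π := by field_simp
  -- the claim for one pair
  have hpair : ∀ d ∈ Ico 1 n, ∀ j : ℤ,
      1 / (10 * (d : ℝ)) * ∑ l ∈ range d, F c d (j + (l : ℤ)) ≤
        DD (π * d / n) (c.X (j + (d : ℤ)) j) := by
    intro d hd j
    rw [Finset.mem_Ico] at hd
    have hd1 : (1 : ℝ) ≤ d := by exact_mod_cast hd.1
    have hdn : (d : ℝ) < n := by exact_mod_cast hd.2
    have hd0 : (0 : ℝ) < d := by linarith
    have ha : 0 < π * d / n := by positivity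
    have hapi : π * d / n < π := by
      rw [div_lt_iff₀ hnR]
      nlinarith
    have hXpos : 0 < c.X (j + (d : ℤ)) j := by
      unfold Cfg.X
      have := c.mono (show j < j + (d : ℤ) by omega)
      linarith
    have hXpi : c.X (j + (d : ℤ)) j < π := by
      unfold Cfg.X
      have h1 := c.mono (show j + (d : ℤ) < j + (n : ℤ) by omega)
      rw [c.θ_add] at h1
      linarith
    by_cases hB : ∃ l ∈ range d, 2 * (d : ℝ) ≤ c.y (j + (l : ℤ))
    · obtain ⟨l₀, hl₀, hyl₀⟩ := hB
      set SF := ∑ l ∈ range d, F c d (j + (l : ℤ)) with hSF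
      set SY := ∑ l ∈ range d, c.y (j + (l : ℤ)) with hSY
      have h1 : 2 * (d : ℝ) ≤ SF := by
        calc 2 * (d : ℝ) ≤ F c d (j + (l₀ : ℤ)) := by unfold F; rw [if_pos hyl₀]; exact hyl₀
          _ ≤ SF := Finset.single_le_sum (f := fun l : ℕ => F c d (j + (l : ℤ)))
              (fun l _ => F_nonneg c d _) hl₀
      have h2 : SF - d ≤ SY := by
        have : SF - d = ∑ l ∈ range d, (F c d (j + (l : ℤ)) - 1) := by
          rw [Finset.sum_sub_distrib]; simp [hSF]
        rw [this]
        refine Finset.sum_le_sum fun l _ => ?_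
        unfold F
        split_ifs with h
        · linarith
        · linarith [c.y_gt hn0 (j + (l : ℤ))]
      set t := SY / d with ht
      have ht1 : 1 / (2 * (d : ℝ)) * SF ≤ t := by
        rw [ht, div_mul_eq_mul_div, one_mul, div_le_div_iff₀ (by positivity) hd0]
        nlinarith
      have ht2 : 1 ≤ t := by
        refine le_trans ?_ ht1
        rw [div_mul_eq_mul_div, one_mul, le_div_iff₀ (by positivity)]
        linarith
      have hXe : c.X (j + (d : ℤ)) j = (π * d / n) * (1 + t) := by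
        rw [X_eq hn0, ← hSY, ht]
        field_simp
      have ha2 : π * d / n ≤ 1 / 20 := by
        have h3 : 2 * (d : ℝ) ≤ n * (1 / 10) / π := le_trans hyl₀ (hy _)
        rw [le_div_iff₀ hpi0] at h3
        rw [div_le_iff₀ hnR]
        linarith
      rw [hXe] at hXpi ⊢
      have h4 := DD_ge ha ha2 ht2 hXpi
      refine le_trans ?_ h4
      have : 1 / (10 * (d : ℝ)) * SF = 1 / 5 * (1 / (2 * (d : ℝ)) * SF) := by
        field_simp
        ring
      rw [this]
      linarith
    · have h0 : ∑ l ∈ range d, F c d (j + (l : ℤ)) = 0 := by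
        refine Finset.sum_eq_zero fun l hl => ?_
        unfold F
        rw [if_neg]
        intro h
        exact hB ⟨l, hl, h⟩
      rw [h0, mul_zero]
      exact le_trans (by positivity) (hDD _ _ ha hapi hXpos hXpi)
  -- sum over the pairs
  have hE : ∑ d ∈ Ico 1 n, ∑ j ∈ range n, 1 / 10 * F c d (j : ℤ) ≤ Eφ c := by
    unfold Eφ
    rw [Finset.sum_comm (s := range n)]
    refine Finset.sum_le_sum fun d hd => ?_
    have hd' := Finset.mem_Ico.1 hd
    have hd0 : (0 : ℝ) < d := by exact_mod_cast (by omega : 0 < d)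
    calc ∑ j ∈ range n, 1 / 10 * F c d (j : ℤ)
        = ∑ j ∈ range n, 1 / (10 * (d : ℝ)) * ∑ l ∈ range d, F c d ((j : ℤ) + (l : ℤ)) := by
          rw [← Finset.mul_sum, ← Finset.mul_sum, Finset.sum_comm]
          have hF : ∀ j, F c d (j + n) = F c d j := by
            intro j
            unfold F
            rw [c.y_add]
          have hs : ∑ l ∈ range d, ∑ j ∈ range n, F c d ((j : ℤ) + (l : ℤ)) =
              ∑ l ∈ range d, ∑ j ∈ range n, F c d (j : ℤ) :=
            Finset.sum_congr rfl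
              (fun (l : ℕ) _ => sum_shift (n := n) (f := F c d) hF (l : ℤ))
          rw [hs, Finset.sum_const, Finset.card_range, nsmul_eq_mul]
          field_simp
      _ ≤ _ := Finset.sum_le_sum fun j _ => hpair d hd (j : ℤ)
  rw [Finset.sum_comm] at hE
  have hfin : ∀ j ∈ range n, (if 2 ≤ c.y (j : ℤ) then c.y (j : ℤ) ^ 2 else 0) ≤
      40 * ∑ d ∈ Ico 1 n, 1 / 10 * F c d (j : ℤ) := by
    intro j _
    split_ifs with h2
    · set y := c.y (j : ℤ) with hyd
      have hyn : y / 2 < n := by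
        have h3 := hy (j : ℤ)
        rw [← hyd] at h3
        have : n * (1 / 10) / π ≤ (n : ℝ) := by
          rw [div_le_iff₀ hpi0]
          nlinarith
        linarith
      set m := ⌊y / 2⌋₊ with hm
      have hm1 : (m : ℝ) ≤ y / 2 := Nat.floor_le (by linarith)
      have hm2 : y / 2 < m + 1 := Nat.lt_floor_add_one _
      have hm3 : 1 ≤ m := Nat.le_floor (by push_cast; linarith)
      have hm3' : (1 : ℝ) ≤ m := by exact_mod_cast hm3
      have hmn : m < n := by
        have : (m : ℝ) < n := lt_of_le_of_lt hm1 hyn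
        exact_mod_cast this
      have h4 : ∑ d ∈ Ico 1 (m + 1), 1 / 10 * F c d (j : ℤ) ≤
          ∑ d ∈ Ico 1 n, 1 / 10 * F c d (j : ℤ) := by
        refine Finset.sum_le_sum_of_subset_of_nonneg ?_ ?_
        · intro d hd
          rw [Finset.mem_Ico] at hd ⊢
          omega
        · intro d _ _
          have := F_nonneg c d (j : ℤ)
          positivity
      have h5 : ∑ d ∈ Ico 1 (m + 1), 1 / 10 * F c d (j : ℤ) = m * (1 / 10 * y) := by
        have : ∀ d ∈ Ico 1 (m + 1), 1 / 10 * F c d (j : ℤ) = 1 / 10 * y := by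
          intro d hd
          rw [Finset.mem_Ico] at hd
          have hdm : (d : ℝ) ≤ m := by exact_mod_cast (by omega : d ≤ m)
          unfold F
          rw [if_pos (by rw [← hyd]; linarith)]
        rw [Finset.sum_congr rfl this, Finset.sum_const, Nat.card_Ico, nsmul_eq_mul]
        congr 1
      have h6 : y / 4 ≤ m := by linarith
      nlinarith
    · have : 0 ≤ ∑ d ∈ Ico 1 n, 1 / 10 * F c d (j : ℤ) := by
        refine Finset.sum_nonneg fun d _ => ?_
        have := F_nonneg c d (j : ℤ)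
        positivity
      linarith
  calc ∑ j ∈ range n, (if 2 ≤ c.y (j : ℤ) then c.y (j : ℤ) ^ 2 else 0)
      ≤ ∑ j ∈ range n, 40 * ∑ d ∈ Ico 1 n, 1 / 10 * F c d (j : ℤ) := Finset.sum_le_sum hfin
    _ = 40 * ∑ j ∈ range n, ∑ d ∈ Ico 1 n, 1 / 10 * F c d (j : ℤ) := by rw [Finset.mul_sum]
    _ ≤ 40 * Eφ c := by linarith

end Pool.Agent.EHP
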