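import Pool.Agent.EHP.Stmts2

/-!
# Summation by parts
-/

open Finset
open scoped Real ComplexConjugate

namespace Pool.Agent.EHP

theorem m_BYP : Stmt_BYP := by
  intro n c hn
  have hn0 : 0 < n := hn
  have hnR : (n : ℝ) ≠ 0 := by positivity
  have hg : ∀ j : ℤ, c.g j = 2 * π / n + (c.φ (j + 1) - c.φ j) := by
    intro j
    unfold Cfg.g Cfg.φ
    push_cast
    field_simp
    ring
  have h1 := sum_shift (n := n) (f := fun j : ℤ => c.φ j * c.ρ j)
    (fun j => by rw [c.φ_add hn0, c.ρ_add]) 1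
  have h2 := sum_shift (n := n) (f := fun j : ℤ => c.ρ j) (fun j => c.ρ_add j) 1
  have h3 : ∑ j ∈ range n, c.g (j : ℤ) * c.ρm (j : ℤ) + ∑ j ∈ range n, c.φm (j : ℤ) * c.Δ (j : ℤ) =
      ∑ j ∈ range n, (2 * π / n * ((c.ρ (j : ℤ) + c.ρ ((j : ℤ) + 1)) / 2) +
        (c.φ ((j : ℤ) + 1) * c.ρ ((j : ℤ) + 1) - c.φ (j : ℤ) * c.ρ (j : ℤ))) := by
    rw [← Finset.sum_add_distrib]
    apply Finset.sum_congr rfl
    intro j _
    rw [hg]
    unfold Cfg.ρm Cfg.φm Cfg.Δ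
    ring
  rw [h3, Finset.sum_add_distrib, Finset.sum_sub_distrib, h1, sub_self, add_zero,
    ← Finset.mul_sum, ← Finset.sum_div, Finset.sum_add_distrib, h2]
  ring

end Pool.Agent.EHP
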