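import Pool.Agent.EHP.Stmts2

/-!
# The Calogero identity
-/

open Finset
open scoped Real ComplexConjugate

namespace Pool.Agent.EHP

theorem calo_cc_self (z : ℤ → ℂ) (v : ℤ) : cc z v v = 0 := by
  unfold cc; rw [sub_self, div_zero]

theorem calo_cc_sq_symm (z : ℤ → ℂ) (v w : ℤ) : cc z w v ^ 2 = cc z v w ^ 2 := by
  unfold cc
  have : (z w + z v) / (z w - z v) = -((z v + z w) / (z v - z w)) := by
    rw [← neg_sub (z v) (z w), div_neg, add_comm (z w)]
  rw [this, neg_sq]

/-- A sum over the other indices. -/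
theorem calo_sum_others {n : ℕ} (hn : 1 ≤ n) {f : ℤ → ℂ} (hf : ∀ j, f (j + n) = f j) (v : ℤ)
    (h0 : f v = 0) : ∑ d ∈ Ico 1 n, f (v + (d : ℤ)) = ∑ j ∈ range n, f (j : ℤ) := by
  have h1 := sum_shift hf v
  have hpos : 0 < n := hn
  rw [← h1, Finset.range_eq_Ico, Finset.sum_eq_sum_Ico_succ_bot hpos]
  have h2 : f (((0 : ℕ) : ℤ) + v) = 0 := by rw [Nat.cast_zero, zero_add, h0]
  rw [h2, zero_add]
  apply Finset.sum_congr rfl
  intro d _
  rw [add_comm]

/-- The field identity with its degenerate cases. -/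
theorem calo_field (z : ℕ → ℂ) (n : ℕ) (hz : ∀ i < n, ∀ j < n, z i = z j → i = j)
    {i j k : ℕ} (hi : i < n) (hj : j < n) (hk : k < n) :
    (z i + z j) / (z i - z j) * ((z i + z k) / (z i - z k)) +
      (z j + z i) / (z j - z i) * ((z j + z k) / (z j - z k)) +
      (z k + z i) / (z k - z i) * ((z k + z j) / (z k - z j)) =
    1 - (if i = j then 1 else 0) - (if j = k then 1 else 0) - (if i = k then 1 else 0) +
      (if i = j then (if j = k then 2 else 0) else 0) +
      (if i = j then ((z i + z k) / (z i - z k)) ^ 2 else 0) +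
      (if i = k then ((z i + z j) / (z i - z j)) ^ 2 else 0) +
      (if j = k then ((z i + z j) / (z i - z j)) ^ 2 else 0) := by
  have flip : ∀ a b : ℂ, (a + b) / (a - b) = -((b + a) / (b - a)) := by
    intro a b
    rw [← neg_sub b a, div_neg, add_comm a]
  by_cases hij : i = j
  · subst hij
    by_cases hik : i = k
    · subst hik
      simp
      norm_num
    · simp only [sub_self, div_zero, zero_mul, zero_add, if_true, hik, if_false]
      rw [flip (z k) (z i)]
      ring
  · by_cases hik : i = k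
    · subst hik
      have hji : ¬ j = i := fun h => hij h.symm
      simp only [sub_self, div_zero, mul_zero, zero_mul, zero_add, if_true, hij, hji, if_false]
      rw [flip (z j) (z i)]
      ring
    · by_cases hjk : j = k
      · subst hjk
        simp only [sub_self, div_zero, mul_zero, if_true, hij, if_false]
        ring
      · have e1 : z i - z j ≠ 0 := fun h => hij (hz i hi j hj (sub_eq_zero.1 h))
        have e2 : z i - z k ≠ 0 := fun h => hik (hz i hi k hk (sub_eq_zero.1 h))
        have e3 : z j - z k ≠ 0 := fun h => hjk (hz j hj k hk (sub_eq_zero.1 h))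
        simp only [hij, hik, hjk, if_false]
        rw [flip (z j) (z i), flip (z k) (z i), flip (z k) (z j)]
        field_simp
        ring

theorem m_CALO : Stmt_CALO := by
  intro n z hn hz
  have hcc1 : ∀ v w, cc z v (w + n) = cc z v w := by
    intro v w; unfold cc; rw [hz.per]
  have hH : ∀ v : ℤ, HH n z v = (1 / 2 : ℂ) * ∑ j ∈ range n, cc z v (j : ℤ) := by
    intro v
    unfold HH
    rw [calo_sum_others hn (fun w => hcc1 v w) v (calo_cc_self z v)]
  have hC : ∀ v : ℤ, ∑ d ∈ Ico 1 n, cc z v (v + (d : ℤ)) ^ 2 =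
      ∑ j ∈ range n, cc z v (j : ℤ) ^ 2 := by
    intro v
    exact calo_sum_others hn (f := fun w => cc z v w ^ 2) (fun w => by
      show cc z v (w + n) ^ 2 = cc z v w ^ 2
      rw [hcc1]) v (by show cc z v v ^ 2 = 0; rw [calo_cc_self]; norm_num)
  simp only [hH, hC]
  set G : ℕ → ℕ → ℂ := fun i j => cc z (i : ℤ) (j : ℤ) with hG
  have hzinj : ∀ i < n, ∀ j < n, z ((i : ℕ) : ℤ) = z ((j : ℕ) : ℤ) → i = j := by
    intro i hi j hj h
    have h1 := hz.inj _ _ h
    obtain ⟨m, hm⟩ := h1
    have hm0 : m = 0 := by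
      by_contra hne
      rcases lt_or_gt_of_ne hne with h2 | h2
      · have : (n : ℤ) * m ≤ -(n : ℤ) := by nlinarith
        omega
      · have : (n : ℤ) * m ≥ (n : ℤ) := by nlinarith
        omega
    rw [hm0] at hm
    omega
  -- the sum over all triples
  have hT : 4 * ∑ j ∈ range n, ((1 / 2 : ℂ) * ∑ k ∈ range n, G j k) ^ 2 =
      ∑ i ∈ range n, ∑ j ∈ range n, ∑ k ∈ range n, G i j * G i k := by
    rw [Finset.mul_sum]
    apply Finset.sum_congr rfl
    intro i _
    have : 4 * ((1 / 2 : ℂ) * ∑ k ∈ range n, G i k) ^ 2 =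
        (∑ k ∈ range n, G i k) * (∑ k ∈ range n, G i k) := by ring
    rw [this, Finset.sum_mul_sum]
  have hT2 : ∑ i ∈ range n, ∑ j ∈ range n, ∑ k ∈ range n, G j i * G j k =
      ∑ i ∈ range n, ∑ j ∈ range n, ∑ k ∈ range n, G i j * G i k := by
    rw [Finset.sum_comm]
  have hT3 : ∑ i ∈ range n, ∑ j ∈ range n, ∑ k ∈ range n, G k i * G k j =
      ∑ i ∈ range n, ∑ j ∈ range n, ∑ k ∈ range n, G i j * G i k := by
    have e1 : ∑ i ∈ range n, ∑ j ∈ range n, ∑ k ∈ range n, G k i * G k j =
        ∑ i ∈ range n, ∑ k ∈ range n, ∑ j ∈ range n, G k i * G k j := by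
      apply Finset.sum_congr rfl
      intro i _
      rw [Finset.sum_comm]
    rw [e1, Finset.sum_comm]
  have hB : ∑ i ∈ range n, ∑ j ∈ range n, ∑ k ∈ range n,
      (G i j * G i k + G j i * G j k + G k i * G k j) =
      (n : ℂ) * (n - 1) * (n - 2) + 3 * ∑ i ∈ range n, ∑ j ∈ range n, G i j ^ 2 := by
    have e : ∀ i ∈ range n, ∀ j ∈ range n, ∀ k ∈ range n,
        G i j * G i k + G j i * G j k + G k i * G k j =
        1 - (if i = j then 1 else 0) - (if j = k then 1 else 0) - (if i = k then 1 else 0) +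
        (if i = j then (if j = k then 2 else 0) else 0) +
        (if i = j then (G i k) ^ 2 else 0) +
        (if i = k then (G i j) ^ 2 else 0) +
        (if j = k then (G i j) ^ 2 else 0) := by
      intro i hi j hj k hk
      exact calo_field (fun m => z (m : ℤ)) n hzinj (Finset.mem_range.1 hi) (Finset.mem_range.1 hj)
        (Finset.mem_range.1 hk)
    rw [Finset.sum_congr rfl (fun i hi => Finset.sum_congr rfl (fun j hj =>
      Finset.sum_congr rfl (fun k hk => e i hi j hj k hk)))]
    simp only [Finset.sum_add_distrib, Finset.sum_sub_distrib]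
    have s1 : ∑ i ∈ range n, ∑ j ∈ range n, ∑ k ∈ range n, (1 : ℂ) = (n : ℂ) ^ 3 := by
      simp; ring
    have s2 : ∑ i ∈ range n, ∑ j ∈ range n, ∑ k ∈ range n, (if i = j then (1 : ℂ) else 0) =
        (n : ℂ) ^ 2 := by
      have : ∀ i ∈ range n, ∑ j ∈ range n, ∑ k ∈ range n, (if i = j then (1 : ℂ) else 0) = n := by
        intro i hi
        simp [Finset.sum_ite_eq, Finset.mem_range.1 hi]
      rw [Finset.sum_congr rfl this]; simp; ring
    have s3 : ∑ i ∈ range n, ∑ j ∈ range n, ∑ k ∈ range n, (if j = k then (1 : ℂ) else 0) =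
        (n : ℂ) ^ 2 := by
      have : ∀ j ∈ range n, ∑ k ∈ range n, (if j = k then (1 : ℂ) else 0) = 1 := by
        intro j hj
        rw [Finset.sum_ite_eq, if_pos hj]
      rw [Finset.sum_congr rfl (fun i _ => Finset.sum_congr rfl this)]; simp; ring
    have s4 : ∑ i ∈ range n, ∑ j ∈ range n, ∑ k ∈ range n, (if i = k then (1 : ℂ) else 0) =
        (n : ℂ) ^ 2 := by
      have : ∀ i ∈ range n, ∑ k ∈ range n, (if i = k then (1 : ℂ) else 0) = 1 := by
        intro j hj
        rw [Finset.sum_ite_eq, if_pos hj]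
      rw [Finset.sum_congr rfl (fun i hi => Finset.sum_congr rfl (fun j _ => this i hi))]
      simp; ring
    have s5 : ∑ i ∈ range n, ∑ j ∈ range n, ∑ k ∈ range n,
        (if i = j then (if j = k then (2 : ℂ) else 0) else 0) = 2 * n := by
      have : ∀ i ∈ range n, ∑ j ∈ range n, ∑ k ∈ range n,
          (if i = j then (if j = k then (2 : ℂ) else 0) else 0) = 2 := by
        intro i hi
        have h1 : ∀ j ∈ range n, ∑ k ∈ range n,
          (if i = j then (if j = k then (2 : ℂ) else 0) else 0) = if i = j then 2 else 0 := by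
          intro j hj
          by_cases h : i = j
          · simp only [h, if_true]
            rw [Finset.sum_ite_eq, if_pos hj]
          · simp only [h, if_false]; simp
        rw [Finset.sum_congr rfl h1, Finset.sum_ite_eq, if_pos hi]
      rw [Finset.sum_congr rfl this]; simp; ring
    have s6 : ∑ i ∈ range n, ∑ j ∈ range n, ∑ k ∈ range n,
        (if i = j then (G i k) ^ 2 else 0) = ∑ i ∈ range n, ∑ j ∈ range n, G i j ^ 2 := by
      apply Finset.sum_congr rfl
      intro i hi
      have h1 : ∀ j ∈ range n, ∑ k ∈ range n, (if i = j then (G i k) ^ 2 else 0) =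
          if i = j then ∑ k ∈ range n, (G i k) ^ 2 else 0 := by
        intro j _
        by_cases h : i = j
        · simp only [h, if_true]
        · simp only [h, if_false]; simp
      rw [Finset.sum_congr rfl h1, Finset.sum_ite_eq, if_pos hi]
    have s7 : ∑ i ∈ range n, ∑ j ∈ range n, ∑ k ∈ range n,
        (if i = k then (G i j) ^ 2 else 0) = ∑ i ∈ range n, ∑ j ∈ range n, G i j ^ 2 := by
      apply Finset.sum_congr rfl
      intro i hi
      apply Finset.sum_congr rfl
      intro j _
      rw [Finset.sum_ite_eq, if_pos hi]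
    have s8 : ∑ i ∈ range n, ∑ j ∈ range n, ∑ k ∈ range n,
        (if j = k then (G i j) ^ 2 else 0) = ∑ i ∈ range n, ∑ j ∈ range n, G i j ^ 2 := by
      apply Finset.sum_congr rfl
      intro i _
      apply Finset.sum_congr rfl
      intro j hj
      rw [Finset.sum_ite_eq, if_pos hj]
    rw [s1, s2, s3, s4, s5, s6, s7, s8]
    ring
  have hB2 := hB
  simp only [Finset.sum_add_distrib] at hB2
  rw [hT2, hT3] at hB2
  show 4 * ∑ j ∈ range n, ((1 / 2 : ℂ) * ∑ k ∈ range n, G j k) ^ 2 =
    ∑ i ∈ range n, ∑ j ∈ range n, G i j ^ 2 + (n : ℂ) * (n - 1) * (n - 2) / 3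
  rw [hT]
  linear_combination (1 / 3 : ℂ) * hB2

end Pool.Agent.EHP
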