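import Pool.Agent.EHP.Stmts1

/-!
# The mean of the logarithm of a projection
-/

open Finset MeasureTheory
open scoped Real ComplexConjugate

namespace Pool.Agent.EHP

theorem CAVG_re (v : ℂ) (θ : ℝ) : (v * Complex.exp (-(θ : ℂ) * Complex.I)).re =
    ‖v‖ * Real.sin ((v.arg + π / 2) - θ) := by
  conv_lhs => rw [← Complex.norm_mul_exp_arg_mul_I v]
  rw [mul_assoc, ← Complex.exp_add]
  have : (v.arg : ℂ) * Complex.I + -(θ : ℂ) * Complex.I
      = ((v.arg - θ : ℝ) : ℂ) * Complex.I := by push_cast; ring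
  rw [this, Complex.re_ofReal_mul, Complex.exp_ofReal_mul_I_re]
  have h2 : v.arg + π / 2 - θ = (v.arg - θ) + π / 2 := by ring
  rw [h2, Real.sin_add_pi_div_two]

theorem CAVG_per (r : ℝ) :
    Function.Periodic (fun x : ℝ => Real.log |2 * (r * Real.sin x)|) π := by
  intro x
  simp only
  rw [Real.sin_add_pi]
  congr 1
  rw [mul_neg, mul_neg, abs_neg]

theorem CAVG_eq {r : ℝ} (hr : 0 < r) {x : ℝ} (hx : x ∈ Set.Ioo 0 π) :
    Real.log |2 * (r * Real.sin x)| = Real.log (2 * r) + (Real.log ∘ Real.sin) x := by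
  have h := Real.sin_pos_of_mem_Ioo hx
  rw [Real.log_abs, ← mul_assoc, Real.log_mul (by positivity) h.ne']
  rfl

theorem CAVG_ae {r : ℝ} (hr : 0 < r) :
    ∀ᵐ x ∂volume, x ∈ Set.uIoc 0 π →
      Real.log |2 * (r * Real.sin x)| = Real.log (2 * r) + (Real.log ∘ Real.sin) x := by
  have h : ∀ᵐ x ∂(volume : Measure ℝ), x ≠ π := by
    simp [ae_iff, measure_singleton]
  filter_upwards [h] with x hx hx2
  rw [Set.uIoc_of_le Real.pi_pos.le] at hx2
  exact CAVG_eq hr ⟨hx2.1, lt_of_le_of_ne hx2.2 hx⟩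

theorem CAVG_int0 {r : ℝ} (hr : 0 < r) :
    IntervalIntegrable (fun x : ℝ => Real.log |2 * (r * Real.sin x)|) volume 0 π := by
  have h : IntervalIntegrable (fun x : ℝ => Real.log (2 * r) + (Real.log ∘ Real.sin) x)
      volume 0 π := intervalIntegrable_const.add intervalIntegrable_log_sin
  refine h.congr_ae ?_
  rw [Filter.EventuallyEq, ae_restrict_iff' measurableSet_uIoc]
  filter_upwards [CAVG_ae hr] with x hx hx2
  exact (hx hx2).symm

theorem CAVG_val0 {r : ℝ} (hr : 0 < r) :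
    ∫ x in (0 : ℝ)..π, Real.log |2 * (r * Real.sin x)| = π * Real.log r := by
  rw [intervalIntegral.integral_congr_ae (CAVG_ae hr),
    intervalIntegral.integral_add intervalIntegrable_const intervalIntegrable_log_sin]
  have h := integral_log_sin_zero_pi
  have h2 : ∫ x in (0 : ℝ)..π, (Real.log ∘ Real.sin) x = -Real.log 2 * π := h
  rw [h2, intervalIntegral.integral_const, Real.log_mul two_ne_zero hr.ne']
  simp
  ring

theorem m_CAVG : Stmt_CAVG := by
  intro v hv
  have hr : 0 < ‖v‖ := norm_pos_iff.2 hv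
  have hI : ∀ a b : ℝ, IntervalIntegrable
      (fun x : ℝ => Real.log |2 * (‖v‖ * Real.sin x)|) volume a b := fun a b =>
    (CAVG_per ‖v‖).intervalIntegrable₀ Real.pi_ne_zero (CAVG_int0 hr) a b
  have hf : (fun θ : ℝ => Real.log |2 * (v * Complex.exp (-(θ : ℂ) * Complex.I)).re|) =
      fun θ : ℝ => (fun x : ℝ => Real.log |2 * (‖v‖ * Real.sin x)|) ((v.arg + π / 2) - θ) := by
    funext θ
    simp only
    rw [CAVG_re]
  rw [hf]
  constructor
  · have := (hI (v.arg + π / 2 - 0) (v.arg + π / 2 - 2 * π)).comp_sub_left (v.arg + π / 2)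
    simpa using this
  · rw [intervalIntegral.integral_comp_sub_left
      (fun x : ℝ => Real.log |2 * (‖v‖ * Real.sin x)|) (v.arg + π / 2)]
    have h1 := (CAVG_per ‖v‖).intervalIntegral_add_zsmul_eq 2 (v.arg + π / 2 - 2 * π) hI
    have h2 : v.arg + π / 2 - 2 * π + (2 : ℤ) • π = v.arg + π / 2 - 0 := by
      rw [zsmul_eq_mul]; push_cast; ring
    rw [h2] at h1
    have h3 := (CAVG_per ‖v‖).intervalIntegral_add_eq (v.arg + π / 2 - 2 * π) 0
    rw [h3, zero_add, CAVG_val0 hr] at h1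
    rw [h1, zsmul_eq_mul]
    push_cast
    ring

end Pool.Agent.EHP
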