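import Pool.Agent.EHP.Stmts5

/-!
# Module EHP_CERT
-/

open Finset Filter Topology MeasureTheory
open scoped Real Interval

namespace Pool.Agent.EHP

namespace CERTaux

theorem cont_Wk (hW : Stmt_WDER) {t : ℝ} (h0 : 0 < t) (h1 : t < π) : ContinuousAt Wk t :=
  (hW.1 t h0 h1).1.continuousAt

theorem cont_Wk3 (hW : Stmt_WDER) :
    ContinuousOn (fun s => Wk (π / 3 + s)) (Set.Icc 0 (π / 3)) := by
  have hpi := Real.pi_pos
  intro t ht
  have h := cont_Wk hW (t := π / 3 + t) (by linarith [ht.1]) (by linarith [ht.2])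
  exact (ContinuousAt.comp (f := fun t : ℝ => π / 3 + t) h (by fun_prop)).continuousWithinAt

theorem cont_rest (hW : Stmt_WDER) :
    ContinuousOn (fun t => t * ww t + GG (π / 3 - t)) (Set.Icc 0 (π / 3)) := by
  have hpi := Real.pi_pos
  intro t ht
  have h1 : ContinuousAt ww t :=
    (hW.2.1 t (by linarith [ht.1]) (by linarith [ht.2])).1.continuousAt
  have h2 := (hW.2.1 (π / 3 - t) (by linarith [ht.2]) (by linarith [ht.1])).2.continuousAt
  have h3 : ContinuousAt (fun t : ℝ => GG (π / 3 - t)) t :=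
    ContinuousAt.comp (f := fun t : ℝ => π / 3 - t) h2 (by fun_prop)
  exact ((continuousAt_id.mul h1).add h3).continuousWithinAt

theorem int_rest (hW : Stmt_WDER) {a : ℝ → ℝ} (ha : Continuous a) :
    IntervalIntegrable (fun t => (t * ww t + GG (π / 3 - t)) * a t) volume 0 (π / 3) := by
  apply ContinuousOn.intervalIntegrable
  rw [Set.uIcc_of_le (by have := Real.pi_pos; positivity)]
  exact (cont_rest hW).mul ha.continuousOn

theorem Wk_eq (t : ℝ) : Wk t = -rh t - (t * ww t + GG (π / 3 - t)) := by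
  unfold rh
  ring

/-- `Wk` times a continuous function on `[0, π/3]`. -/
theorem int_Wk (hW : Stmt_WDER) (hI : Stmt_IBP) {a : ℝ → ℝ} (ha : Continuous a) :
    IntervalIntegrable (fun t => Wk t * a t) volume 0 (π / 3) := by
  have h1 := ((hI a ha).1.neg).sub (int_rest hW ha)
  have e : (fun t => Wk t * a t) =
      fun t => -(rh t * a t) - (t * ww t + GG (π / 3 - t)) * a t := by
    funext t
    rw [Wk_eq]
    ring
  rw [e]
  exact h1

/-- `Wk` times a continuous function on `[π/3, π/2]`. -/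
theorem int_Wk' (hW : Stmt_WDER) {a : ℝ → ℝ} (ha : Continuous a) :
    IntervalIntegrable (fun t => Wk t * a t) volume (π / 3) (π / 2) := by
  have hpi := Real.pi_pos
  apply ContinuousOn.intervalIntegrable
  rw [Set.uIcc_of_le (by linarith)]
  intro t ht
  exact ((cont_Wk hW (by linarith [ht.1]) (by linarith [ht.2])).mul
    ha.continuousAt).continuousWithinAt

theorem EE_symm (s : ℝ) : EE (π / 3 - s) = EE s := by
  unfold EE
  have e : (π / 3 - s - π / 6) / (π / 6) = -((s - π / 6) / (π / 6)) := by ring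
  rw [e]
  ring

theorem Wk_anti (hW : Stmt_WDER) {s : ℝ} (h0 : 0 ≤ s) (h1 : s ≤ π / 3) :
    Wk (π / 3 + (π / 3 - s)) = -Wk (π / 3 + s) := by
  have hpi := Real.pi_pos
  have h := (hW.1 (π / 3 + s) (by linarith) (by linarith)).2.2.2.2
  rw [← h]
  congr 1
  ring

end CERTaux

open CERTaux in
/-- Module EHP_CERT. -/
theorem m_CERT : Stmt_WDER → Stmt_WPOS → Stmt_CERTA → Stmt_CERTB → Stmt_FUB → Stmt_IBP →
    Stmt_CERT := by
  intro hW _ hA hB hF hI D hD
  have hpi := Real.pi_pos
  obtain ⟨a, ha⟩ : ∃ a : ℝ → ℝ, a = fun t => D t - 3 * t / π := ⟨_, rfl⟩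
  obtain ⟨b, hb⟩ : ∃ b : ℝ → ℝ, b = fun s => D (π / 3 + s) - (1 - 3 * s / π) := ⟨_, rfl⟩
  have hDc := hD.cont
  have hac : Continuous a := by
    rw [ha]
    fun_prop
  have hbc : Continuous b := by
    rw [hb]
    have h1 : Continuous fun s : ℝ => D (π / 3 + s) := hDc.comp (by fun_prop)
    fun_prop
  have hanti : ∀ s, 0 ≤ s → s ≤ π / 3 → b (π / 3 - s) = -b s := by
    intro s h0 h1
    rw [hb]
    have h2 := hD.refl (π / 3 + s) (by linarith) (by linarith)
    have e1 : π / 3 + (π / 3 - s) = π - (π / 3 + s) := by ring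
    simp only
    rw [e1, h2]
    field_simp
    ring
  -- the two inequalities
  have hT1 := hA D hD
  have hT2 := (hB D hD).2
  have hF' := hF a b hac hbc
  have hT1' : ∫ x in (0 : ℝ)..(π / 3), ww x * (x * a x + (∫ y in (π / 3 - x)..(π / 3), a y) +
      ∫ s in (0 : ℝ)..x, b s) ≤ 0 := by
    rw [ha, hb]
    exact hT1
  have hT2' : 0 ≤ ∫ x in (0 : ℝ)..(π / 3), rh1 x * ∫ y in (0 : ℝ)..x, a y := by
    rw [ha]
    exact hT2
  obtain ⟨hIa, -, hIb⟩ := hI a hac
  rw [hF'] at hT1'
  rw [hIb] at hT2'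
  -- the integral of `b Γ`
  have hcE : Continuous EE := by
    unfold EE
    fun_prop
  have hle3 : (0 : ℝ) ≤ π / 3 := by positivity
  have hu : [[(0 : ℝ), π / 3]] = Set.Icc 0 (π / 3) := Set.uIcc_of_le hle3
  have hbE : ∫ s in (0 : ℝ)..(π / 3), b s * EE s = 0 := by
    have h1 := intervalIntegral.integral_comp_sub_left (a := 0) (b := π / 3)
      (fun s => b s * EE s) (π / 3)
    rw [sub_self, sub_zero] at h1
    have h2 : ∫ s in (0 : ℝ)..(π / 3), b (π / 3 - s) * EE (π / 3 - s) =
        ∫ s in (0 : ℝ)..(π / 3), -(b s * EE s) := by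
      refine intervalIntegral.integral_congr fun s hs => ?_
      rw [hu] at hs
      show b (π / 3 - s) * EE (π / 3 - s) = -(b s * EE s)
      rw [hanti s hs.1 hs.2, EE_symm]
      ring
    rw [h2, intervalIntegral.integral_neg] at h1
    linarith
  have hcW := cont_Wk3 hW
  have hiW : IntervalIntegrable (fun s => Wk (π / 3 + s) * b s) volume 0 (π / 3) := by
    apply ContinuousOn.intervalIntegrable
    rw [hu]
    exact hcW.mul hbc.continuousOn
  have hbG : ∫ s in (0 : ℝ)..(π / 3), b s * GG s =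
      -(1 / 2) * ∫ s in (0 : ℝ)..(π / 3), Wk (π / 3 + s) * b s := by
    have e : ∀ s, b s * GG s = -(1 / 2) * (Wk (π / 3 + s) * b s) + b s * EE s := by
      intro s
      unfold GG
      ring
    simp only [e]
    have i1 : IntervalIntegrable (fun s => -(1 / 2) * (Wk (π / 3 + s) * b s)) volume 0 (π / 3) :=
      hiW.const_mul _
    have i2 : IntervalIntegrable (fun s => b s * EE s) volume 0 (π / 3) :=
      (hbc.mul hcE).continuousOn.intervalIntegrable
    rw [intervalIntegral.integral_add i1 i2,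
      intervalIntegral.integral_const_mul, hbE, add_zero]
  -- the folding
  have hfold : ∫ s in (0 : ℝ)..(π / 3), Wk (π / 3 + s) * b s =
      2 * ∫ s in (0 : ℝ)..(π / 6), Wk (π / 3 + s) * b s := by
    have hi1 : IntervalIntegrable (fun s => Wk (π / 3 + s) * b s) volume 0 (π / 6) :=
      hiW.mono_set (by
        rw [hu, Set.uIcc_of_le (by positivity)]
        exact Set.Icc_subset_Icc le_rfl (by linarith))
    have hi2 : IntervalIntegrable (fun s => Wk (π / 3 + s) * b s) volume (π / 6) (π / 3) :=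
      hiW.mono_set (by
        rw [hu, Set.uIcc_of_le (by linarith)]
        exact Set.Icc_subset_Icc (by positivity) le_rfl)
    rw [← intervalIntegral.integral_add_adjacent_intervals hi1 hi2]
    have h1 := intervalIntegral.integral_comp_sub_left (a := 0) (b := π / 6)
      (fun s => Wk (π / 3 + s) * b s) (π / 3)
    have e1 : π / 3 - π / 6 = π / 6 := by ring
    rw [e1, sub_zero] at h1
    rw [← h1]
    have h2 : ∫ s in (0 : ℝ)..(π / 6), Wk (π / 3 + (π / 3 - s)) * b (π / 3 - s) =
        ∫ s in (0 : ℝ)..(π / 6), Wk (π / 3 + s) * b s := by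
      refine intervalIntegral.integral_congr fun s hs => ?_
      rw [Set.uIcc_of_le (by positivity)] at hs
      show Wk (π / 3 + (π / 3 - s)) * b (π / 3 - s) = Wk (π / 3 + s) * b s
      rw [hanti s hs.1 (by linarith [hs.2]), Wk_anti hW hs.1 (by linarith [hs.2])]
      ring
    rw [h2]
    ring
  have hshift : ∫ s in (0 : ℝ)..(π / 6), Wk (π / 3 + s) * b s =
      ∫ t in (π / 3)..(π / 2), Wk t * (D t - (2 - 3 * t / π)) := by
    have h1 := intervalIntegral.integral_comp_add_left (a := 0) (b := π / 6)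
      (fun t => Wk t * (D t - (2 - 3 * t / π))) (π / 3)
    have e1 : π / 3 + π / 6 = π / 2 := by ring
    rw [e1, add_zero] at h1
    rw [← h1]
    refine intervalIntegral.integral_congr fun s _ => ?_
    simp only [hb]
    congr 2
    field_simp
    ring
  -- the integral of `Wk a`
  have hWa : ∫ t in (0 : ℝ)..(π / 3), Wk t * a t =
      -(∫ t in (0 : ℝ)..(π / 3), rh t * a t) -
        ∫ t in (0 : ℝ)..(π / 3), a t * (t * ww t + GG (π / 3 - t)) := by
    have e : ∀ t, Wk t * a t = -(rh t * a t) - a t * (t * ww t + GG (π / 3 - t)) := by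
      intro t
      rw [Wk_eq]
      ring
    simp only [e]
    have hi : IntervalIntegrable (fun t => a t * (t * ww t + GG (π / 3 - t))) volume 0 (π / 3) := by
      have := int_rest hW hac
      refine this.congr ?_
      exact fun t _ => mul_comm _ _
    have i1 : IntervalIntegrable (fun t => -(rh t * a t)) volume 0 (π / 3) := hIa.neg
    rw [intervalIntegral.integral_sub i1 hi, intervalIntegral.integral_neg]
  -- the main inequality
  have hmain : 0 ≤ (∫ t in (0 : ℝ)..(π / 3), Wk t * a t) +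
      ∫ t in (π / 3)..(π / 2), Wk t * (D t - (2 - 3 * t / π)) := by
    rw [← hshift]
    rw [hbG] at hT1'
    rw [hfold] at hT1'
    rw [hWa]
    linarith
  -- splitting of the integrals
  have hc1 : Continuous fun t : ℝ => 1 / 2 - D t := by fun_prop
  have hc2 : Continuous fun t : ℝ => 1 / 2 - 3 * t / π := by fun_prop
  have hc3 : Continuous fun t : ℝ => 1 / 2 - (2 - 3 * t / π) := by fun_prop
  have hs1 : ∫ t in (0 : ℝ)..(π / 2), Wk t * (1 / 2 - D t) =
      (∫ t in (0 : ℝ)..(π / 3), Wk t * (1 / 2 - D t)) +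
        ∫ t in (π / 3)..(π / 2), Wk t * (1 / 2 - D t) :=
    (intervalIntegral.integral_add_adjacent_intervals (int_Wk hW hI hc1) (int_Wk' hW hc1)).symm
  have heq1 : Set.EqOn (fun t => Wk t * (1 / 2 - Dst t)) (fun t => Wk t * (1 / 2 - 3 * t / π))
      (Set.uIoc 0 (π / 3)) := by
    intro t ht
    rw [Set.uIoc_of_le hle3] at ht
    simp only [Dst, if_pos ht.2]
  have heq2 : Set.EqOn (fun t => Wk t * (1 / 2 - Dst t))
      (fun t => Wk t * (1 / 2 - (2 - 3 * t / π))) (Set.uIoc (π / 3) (π / 2)) := by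
    intro t ht
    rw [Set.uIoc_of_le (by linarith)] at ht
    simp only [Dst, if_neg (not_le.2 ht.1)]
  have hs2 : ∫ t in (0 : ℝ)..(π / 2), Wk t * (1 / 2 - Dst t) =
      (∫ t in (0 : ℝ)..(π / 3), Wk t * (1 / 2 - 3 * t / π)) +
        ∫ t in (π / 3)..(π / 2), Wk t * (1 / 2 - (2 - 3 * t / π)) := by
    have hi1 : IntervalIntegrable (fun t => Wk t * (1 / 2 - Dst t)) volume 0 (π / 3) :=
      (int_Wk hW hI hc2).congr heq1.symm
    have hi2 : IntervalIntegrable (fun t => Wk t * (1 / 2 - Dst t)) volume (π / 3) (π / 2) :=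
      (int_Wk' hW hc3).congr heq2.symm
    rw [← intervalIntegral.integral_add_adjacent_intervals hi1 hi2,
      intervalIntegral.integral_congr_ae (Eventually.of_forall fun t ht => heq1 ht),
      intervalIntegral.integral_congr_ae (Eventually.of_forall fun t ht => heq2 ht)]
  have hd1 : (∫ t in (0 : ℝ)..(π / 3), Wk t * (1 / 2 - 3 * t / π)) -
      (∫ t in (0 : ℝ)..(π / 3), Wk t * (1 / 2 - D t)) = ∫ t in (0 : ℝ)..(π / 3), Wk t * a t := by
    rw [← intervalIntegral.integral_sub (int_Wk hW hI hc2) (int_Wk hW hI hc1)]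
    refine intervalIntegral.integral_congr fun t _ => ?_
    simp only [ha]
    ring
  have hd2 : (∫ t in (π / 3)..(π / 2), Wk t * (1 / 2 - (2 - 3 * t / π))) -
      (∫ t in (π / 3)..(π / 2), Wk t * (1 / 2 - D t)) =
        ∫ t in (π / 3)..(π / 2), Wk t * (D t - (2 - 3 * t / π)) := by
    rw [← intervalIntegral.integral_sub (int_Wk' hW hc3) (int_Wk' hW hc1)]
    refine intervalIntegral.integral_congr fun t _ => ?_
    show Wk t * (1 / 2 - (2 - 3 * t / π)) - Wk t * (1 / 2 - D t) =
      Wk t * (D t - (2 - 3 * t / π))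
    ring
  rw [hs1, hs2]
  linarith

end Pool.Agent.EHP
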