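import Pool.Agent.EHP.Stmts5

/-!
# CERTA: first part of the certificate
-/

open Finset
open scoped Real ComplexConjugate Interval

namespace Pool.Agent.EHP

namespace Certa

lemma pointwise {D : ℝ → ℝ} (hD : DProp D) {x y : ℝ} (hx0 : 0 ≤ x) (hx : x ≤ π / 3)
    (hy0 : π / 3 - x ≤ y) (hy : y ≤ π / 3) :
    (D x - 3 * x / π) + (D y - 3 * y / π) +
      (D (π / 3 + (y + (x - π / 3))) - (1 - 3 * (y + (x - π / 3)) / π)) ≤ 0 := by
  have hpi := Real.pi_pos
  have h := hD.tri x y hx0 (by linarith) (by linarith)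
  have e1 : π / 3 + (y + (x - π / 3)) = x + y := by ring
  have e2 : (1 : ℝ) - 3 * (y + (x - π / 3)) / π = 2 - 3 * x / π - 3 * y / π := by
    field_simp
    ring
  rw [e1, e2]
  linarith

lemma inner {D : ℝ → ℝ} (hD : DProp D) {x : ℝ} (hx0 : 0 ≤ x) (hx : x ≤ π / 3) :
    x * (D x - 3 * x / π) + (∫ y in (π / 3 - x)..(π / 3), (D y - 3 * y / π)) +
      ∫ s in (0 : ℝ)..x, (D (π / 3 + s) - (1 - 3 * s / π)) ≤ 0 := by
  have hpi := Real.pi_pos
  have hDc := hD.cont
  have e1 : ∫ s in (0 : ℝ)..x, (D (π / 3 + s) - (1 - 3 * s / π)) =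
      ∫ y in (π / 3 - x)..(π / 3),
        (D (π / 3 + (y + (x - π / 3))) - (1 - 3 * (y + (x - π / 3)) / π)) := by
    rw [intervalIntegral.integral_comp_add_right
      (fun s => D (π / 3 + s) - (1 - 3 * s / π)) (x - π / 3)]
    congr 1 <;> ring
  have e2 : x * (D x - 3 * x / π) = ∫ _y in (π / 3 - x)..(π / 3), (D x - 3 * x / π) := by
    rw [intervalIntegral.integral_const, smul_eq_mul]
    congr 1
    ring
  have c1 : Continuous fun y : ℝ => D x - 3 * x / π := continuous_const
  have c2 : Continuous fun y : ℝ => D y - 3 * y / π := by fun_prop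
  have c3 : Continuous fun y : ℝ =>
      D (π / 3 + (y + (x - π / 3))) - (1 - 3 * (y + (x - π / 3)) / π) := by fun_prop
  have c4 : Continuous fun y : ℝ => (D x - 3 * x / π) + (D y - 3 * y / π) := c1.add c2
  rw [e1, e2, ← intervalIntegral.integral_add (c1.intervalIntegrable _ _)
    (c2.intervalIntegrable _ _), ← intervalIntegral.integral_add
    (c4.intervalIntegrable _ _) (c3.intervalIntegrable _ _)]
  have h := intervalIntegral.integral_nonneg (μ := MeasureTheory.volume) (a := π / 3 - x)
    (b := π / 3) (f := fun y => -((D x - 3 * x / π) + (D y - 3 * y / π) +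
      (D (π / 3 + (y + (x - π / 3))) - (1 - 3 * (y + (x - π / 3)) / π)))) (by linarith)
    (fun y hy => by
      have := pointwise hD hx0 hx hy.1 hy.2
      linarith)
  rw [intervalIntegral.integral_neg] at h
  linarith

end Certa

open Certa in
theorem m_CERTA : Stmt_WPOS → Stmt_CERTA := by
  intro hW D hD
  have hpi := Real.pi_pos
  have h := intervalIntegral.integral_nonneg (μ := MeasureTheory.volume) (a := 0)
    (b := π / 3) (f := fun x => -(ww x * (x * (D x - 3 * x / π) +
    (∫ y in (π / 3 - x)..(π / 3), (D y - 3 * y / π)) +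
      ∫ s in (0 : ℝ)..x, (D (π / 3 + s) - (1 - 3 * s / π))))) (by positivity)
    (fun x hx => by
      have h1 := hW.1 x hx.1 hx.2
      have h2 := inner hD hx.1 hx.2
      have h3 := mul_nonneg h1 (neg_nonneg.2 h2)
      linarith)
  rw [intervalIntegral.integral_neg] at h
  linarith

end Pool.Agent.EHP
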