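import Pool.Agent.EHP.MIBP

/-!
# Module EHP_CERTB (helper50)
-/

open Finset Filter Topology MeasureTheory
open scoped Real Interval

namespace Pool.Agent.EHP

namespace CERTBaux

open IBPaux

/-- `x a(x) ≤ 2 A(x)`. -/
theorem two_pA {a : ℝ → ℝ} (ha : Continuous a) {x : ℝ} (hx : 0 ≤ x)
    (hsub : ∀ y, 0 ≤ y → y ≤ x → a x ≤ a y + a (x - y)) : x * a x ≤ 2 * pA a x := by
  have h1 : ∫ y in (0 : ℝ)..x, a (x - y) = pA a x := by
    rw [intervalIntegral.integral_comp_sub_left (fun y => a y) x, sub_self, sub_zero]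
    rfl
  have h2 : ∫ _y in (0 : ℝ)..x, a x = x * a x := by
    rw [intervalIntegral.integral_const, sub_zero, smul_eq_mul]
  have hac : Continuous (fun y => a (x - y)) := ha.comp (continuous_const.sub continuous_id)
  have h3 : ∫ y in (0 : ℝ)..x, (a y + a (x - y)) = 2 * pA a x := by
    rw [intervalIntegral.integral_add (ha.intervalIntegrable 0 x) (hac.intervalIntegrable 0 x), h1]
    unfold pA
    ring
  rw [← h2, ← h3]
  refine intervalIntegral.integral_mono_on hx intervalIntegrable_const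
    ((ha.add hac).intervalIntegrable 0 x) ?_
  intro y hy
  exact hsub y hy.1 hy.2

/-- `A(x) / x²` is antitone. -/
theorem anti {a : ℝ → ℝ} (ha : Continuous a)
    (h2 : ∀ x, 0 < x → x ≤ π / 3 → x * a x ≤ 2 * pA a x) :
    AntitoneOn (fun x => pA a x / x ^ 2) (Set.Ioc 0 (π / 3)) := by
  have hder : ∀ x : ℝ, 0 < x → HasDerivAt (fun x => pA a x / x ^ 2)
      ((x * a x - 2 * pA a x) / x ^ 3) x := by
    intro x hx
    have h1 := (hd_pA ha x).div (hasDerivAt_pow 2 x) (pow_ne_zero 2 hx.ne')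
    have e : (a x * x ^ 2 - pA a x * ((2 : ℕ) * x ^ (2 - 1))) / (x ^ 2) ^ 2 =
        (x * a x - 2 * pA a x) / x ^ 3 := by
      have : x ≠ 0 := hx.ne'
      field_simp
      push_cast
      ring
    rw [e] at h1
    exact h1
  refine antitoneOn_of_deriv_nonpos (convex_Ioc 0 (π / 3)) ?_ ?_ ?_
  · intro x hx
    exact (hder x hx.1).continuousAt.continuousWithinAt
  · intro x hx
    rw [interior_Ioc] at hx
    exact (hder x hx.1).differentiableAt.differentiableWithinAt
  · intro x hx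
    rw [interior_Ioc] at hx
    rw [(hder x hx.1).deriv]
    exact div_nonpos_of_nonpos_of_nonneg (by linarith [h2 x hx.1 hx.2.le]) (pow_nonneg hx.1.le 3)

/-- A convex function on `(0, c]`, negative at two points, is negative between them. -/
theorem neg_between {f : ℝ → ℝ} {c : ℝ} (hf : ConvexOn ℝ (Set.Ioc 0 c) f) {x y : ℝ}
    (hx : 0 < x) (hxy : x ≤ y) (hyc : y ≤ c) (h1 : f x ≤ 0) (h2 : f c < 0) (hlt : x < y) :
    f y < 0 := by
  have hc : x < c := lt_of_lt_of_le hlt hyc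
  set l : ℝ := (y - x) / (c - x) with hl
  have hcx : 0 < c - x := by linarith
  have hl0 : 0 < l := div_pos (by linarith) hcx
  have hl1 : l ≤ 1 := by
    rw [hl, div_le_one hcx]
    linarith
  have hxm : x ∈ Set.Ioc 0 c := ⟨hx, hc.le⟩
  have hcm : c ∈ Set.Ioc 0 c := ⟨by linarith, le_rfl⟩
  have hl2 : 0 ≤ 1 - l := by linarith
  have h3 := hf.2 hxm hcm hl2 hl0.le (by ring)
  have e : (1 - l) • x + l • c = y := by
    simp only [smul_eq_mul]
    have : l * (c - x) = y - x := by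
      rw [hl]
      field_simp
    linarith
  rw [e] at h3
  simp only [smul_eq_mul] at h3
  nlinarith

end CERTBaux

open IBPaux CERTBaux in
/-- Module EHP_CERTB. -/
theorem m_CERTB : Stmt_WDER → Stmt_WPOS → Stmt_RHOC → Stmt_MOM → Stmt_CERTB := by
  intro hW hP hR hM D hD
  have hpi := Real.pi_pos
  have hp3 : (0 : ℝ) < π / 3 := by positivity
  set a : ℝ → ℝ := fun y => D y - 3 * y / π with ha_def
  have ha : Continuous a := by
    have := hD.cont
    rw [ha_def]
    fun_prop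
  have hint := int_rh1 hW ha
  refine ⟨hint, ?_⟩
  -- the quadratic comparison
  have hq : Continuous (fun y : ℝ => 2 * y) := by fun_prop
  have hqA : ∀ x : ℝ, pA (fun y => 2 * y) x = x ^ 2 := by
    intro x
    unfold pA
    rw [intervalIntegral.integral_const_mul, integral_id]
    ring
  have hintq : IntervalIntegrable (fun x => rh1 x * x ^ 2) volume 0 (π / 3) := by
    have := int_rh1 hW hq
    simpa only [hqA] using this
  have hzero : ∫ x in (0 : ℝ)..(π / 3), rh1 x * x ^ 2 = 0 := by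
    have h1 := (m_IBP hW hP (fun y => 2 * y) hq).2.2
    have h2 : ∀ x : ℝ, (∫ y in (0 : ℝ)..x, 2 * y) = x ^ 2 := hqA
    simp only [h2] at h1
    rw [h1]
    have h3 : (fun x => rh x * (2 * x)) = fun x => 2 * (x * rh x) := by
      funext x; ring
    have h4 : ∫ x in (0 : ℝ)..(π / 3), rh x * (2 * x) = 2 * ∫ x in (0 : ℝ)..(π / 3), x * rh x := by
      rw [← intervalIntegral.integral_const_mul, h3]
    rw [h4, hM.2, mul_zero, neg_zero]
  -- positivity somewhere
  have hpos : ∃ p, 0 < p ∧ p ≤ π / 3 ∧ 0 < rh1 p := by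
    by_contra hcon
    push Not at hcon
    have hneg : ∀ x ∈ Set.Ioo 0 (π / 3), 0 < -(rh1 x * x ^ 2) := by
      intro x hx
      have h1 : rh1 x < 0 := neg_between hR.1 (x := x / 2) (by linarith [hx.1])
        (by linarith [hx.1]) hx.2.le (hcon (x / 2) (by linarith [hx.1]) (by linarith [hx.1, hx.2]))
        hR.2 (by linarith [hx.1])
      have h2 : 0 < x ^ 2 := pow_pos hx.1 2
      nlinarith
    have h1 := intervalIntegral.intervalIntegral_pos_of_pos_on hintq.neg hneg hp3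
    have h2 : ∫ x in (0 : ℝ)..(π / 3), (-fun x => rh1 x * x ^ 2) x =
        -∫ x in (0 : ℝ)..(π / 3), rh1 x * x ^ 2 :=
      intervalIntegral.integral_neg
    rw [h2, hzero, neg_zero] at h1
    exact lt_irrefl _ h1
  obtain ⟨p, hp0, hp1, hp2⟩ := hpos
  set P : Set ℝ := {x | 0 < x ∧ x ≤ π / 3 ∧ 0 < rh1 x} with hPdef
  have hpP : p ∈ P := ⟨hp0, hp1, hp2⟩
  have hbdd : BddAbove P := ⟨π / 3, fun x hx => hx.2.1⟩
  set t₀ : ℝ := sSup P with ht₀
  have ht0 : 0 < t₀ := lt_of_lt_of_le hp0 (le_csSup hbdd hpP)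
  have ht1 : t₀ ≤ π / 3 := csSup_le ⟨p, hpP⟩ fun x hx => hx.2.1
  have hlow : ∀ x, 0 < x → x < t₀ → 0 ≤ rh1 x := by
    intro x hx hxt
    obtain ⟨q, hqP, hxq⟩ := exists_lt_of_lt_csSup ⟨p, hpP⟩ hxt
    by_contra hcon
    push Not at hcon
    have := neg_between hR.1 hx hxq.le hqP.2.1 hcon.le hR.2 hxq
    linarith [hqP.2.2]
  have hhigh : ∀ x, t₀ < x → x ≤ π / 3 → rh1 x ≤ 0 := by
    intro x hx hx1
    by_contra hcon
    push Not at hcon
    have : x ≤ t₀ := le_csSup hbdd ⟨by linarith, hx1, hcon⟩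
    linarith
  have hanti : AntitoneOn (fun x => pA a x / x ^ 2) (Set.Ioc 0 (π / 3)) := by
    refine anti ha fun x hx hx1 => two_pA ha hx.le fun y hy hyx => ?_
    have h1 := hD.sub y (x - y) hy (by linarith) (by linarith)
    have e : y + (x - y) = x := by ring
    rw [e] at h1
    rw [ha_def]
    have e2 : 3 * x / π = 3 * y / π + 3 * (x - y) / π := by ring
    simp only
    rw [e2]
    linarith
  set B₀ : ℝ := pA a t₀ / t₀ ^ 2 with hB₀
  have hsplit : ∫ x in (0 : ℝ)..(π / 3), rh1 x * pA a x =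
      (∫ x in (0 : ℝ)..(π / 3), rh1 x * (pA a x - B₀ * x ^ 2)) +
        B₀ * ∫ x in (0 : ℝ)..(π / 3), rh1 x * x ^ 2 := by
    rw [← intervalIntegral.integral_const_mul, ← intervalIntegral.integral_add]
    · refine intervalIntegral.integral_congr fun x _ => ?_
      ring
    · have := hint.sub (hintq.const_mul B₀)
      refine this.congr fun x _ => ?_
      ring
    · exact hintq.const_mul B₀
  change 0 ≤ ∫ x in (0 : ℝ)..(π / 3), rh1 x * pA a x
  rw [hsplit, hzero, mul_zero, add_zero]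
  refine intervalIntegral.integral_nonneg hp3.le fun x hx => ?_
  rcases eq_or_lt_of_le hx.1 with h0 | h0
  · have hA0 : pA a 0 = 0 := by simp [pA]
    rw [← h0, hA0]
    simp
  · have hx2 : 0 < x ^ 2 := pow_pos h0 2
    have ht2 : 0 < t₀ ^ 2 := pow_pos ht0 2
    have e : pA a x - B₀ * x ^ 2 = (pA a x / x ^ 2 - B₀) * x ^ 2 := by
      field_simp
    rw [e]
    rcases lt_trichotomy x t₀ with h | h | h
    · have h1 : B₀ ≤ pA a x / x ^ 2 := hanti ⟨h0, hx.2⟩ ⟨ht0, ht1⟩ h.le
      exact mul_nonneg (hlow x h0 h) (mul_nonneg (by linarith) hx2.le)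
    · rw [h, ← hB₀, sub_self, zero_mul, mul_zero]
    · have h1 : pA a x / x ^ 2 ≤ B₀ := hanti ⟨ht0, ht1⟩ ⟨h0, hx.2⟩ h.le
      exact mul_nonneg_of_nonpos_of_nonpos (hhigh x h hx.2)
        (mul_nonpos_of_nonpos_of_nonneg (by linarith) hx2.le)

end Pool.Agent.EHP
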