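import Pool.Agent.EHP.Stmts5
import Pool.Agent.EHP.MSHAPE

/-!
# Convergence of the data of the maximizers
-/

set_option autoImplicit false

open Finset
open scoped Real ComplexConjugate

namespace Pool.Agent.EHP

namespace CLOSE

/-- Upper bound for the third coefficient. -/
theorem coef_le (n : ℕ) (hn : 1 ≤ n) (q : ℤ → ℝ) (hq : ∀ j, |q j| ≤ 1 / 2) :
    ‖dr n q 3‖ ≤ 1 / π + 3 * π / n := by
  obtain ⟨x₀, hx₀⟩ := SHAPE.phase n q
  rw [← hx₀]
  have h1 : mn n (fun j => q j * Real.sin (3 * (2 * π * j / n - x₀))) ≤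
      mn n (fun j => 1 / 2 * |Real.sin (3 * (2 * π * j / n) + -(3 * x₀))|) := by
    apply SHAPE.mn_mono
    intro j
    have e : 3 * (2 * π * j / n - x₀) = 3 * (2 * π * j / n) + -(3 * x₀) := by ring
    rw [e]
    calc q j * Real.sin (3 * (2 * π * j / n) + -(3 * x₀))
        ≤ |q j * Real.sin (3 * (2 * π * j / n) + -(3 * x₀))| := le_abs_self _
      _ = |q j| * |Real.sin (3 * (2 * π * j / n) + -(3 * x₀))| := abs_mul _ _
      _ ≤ 1 / 2 * |Real.sin (3 * (2 * π * j / n) + -(3 * x₀))| :=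
        mul_le_mul_of_nonneg_right (hq j) (abs_nonneg _)
  rw [SHAPE.mn_mul] at h1
  have h2 := SHAPE.mean_abs_sin (-(3 * x₀)) n hn
  have h3 : 1 / 2 * (2 / π + 6 * π / n) = 1 / π + 3 * π / n := by ring
  linarith

/-- Lower bound for the defect of the third coefficient. -/
theorem defect_ge (n : ℕ) (δ : ℝ) (hδ : 0 < δ) (hδ1 : δ ≤ 1) (hn : 9 * π ^ 2 / δ ≤ n)
    (q : ℤ → ℝ) (hq : ∀ j, |q j| ≤ 1 / 2) : -δ ≤ 1 - π ^ 2 * ‖dr n q 3‖ ^ 2 := by
  have hpi := Real.pi_pos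
  have hnp : (0 : ℝ) < n := lt_of_lt_of_le (by positivity) hn
  have hn1 : 1 ≤ n := by
    have : 0 < n := by exact_mod_cast hnp
    exact this
  have h1 := coef_le n hn1 q hq
  have hx : 3 * π ^ 2 / n ≤ δ / 3 := by
    rw [div_le_iff₀ hδ] at hn
    rw [div_le_iff₀ hnp]
    linarith
  have hx0 : 0 ≤ 3 * π ^ 2 / n := by positivity
  have h2 : π * ‖dr n q 3‖ ≤ 1 + 3 * π ^ 2 / n := by
    have h3 := mul_le_mul_of_nonneg_left h1 hpi.le
    have e : π * (1 / π + 3 * π / n) = 1 + 3 * π ^ 2 / n := by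
      field_simp
    rw [e] at h3
    exact h3
  have h4 : 0 ≤ π * ‖dr n q 3‖ := by positivity
  have h5 : (π * ‖dr n q 3‖) ^ 2 ≤ (1 + δ / 3) ^ 2 :=
    pow_le_pow_left₀ h4 (h2.trans (by linarith)) 2
  rw [mul_pow] at h5
  nlinarith

theorem UM_nonneg (n M : ℕ) (u p : ℤ → ℝ) : 0 ≤ UM n M u p := by
  unfold UM
  exact mul_nonneg zero_le_two (Finset.sum_nonneg fun _ _ => sq_nonneg _)

theorem UM_mono (n M M' : ℕ) (h : M ≤ M') (u p : ℤ → ℝ) : UM n M u p ≤ UM n M' u p := by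
  unfold UM
  refine mul_le_mul_of_nonneg_left (Finset.sum_le_sum_of_subset_of_nonneg ?_
    fun _ _ _ => sq_nonneg _) zero_le_two
  intro k hk
  unfold odds at hk ⊢
  rw [Finset.mem_filter, Finset.mem_range] at hk ⊢
  exact ⟨by omega, hk.2⟩

theorem pp_per {N : ℕ} {c : Cfg (2 * N)} {L : ℤ → ℤ} (h : Piw (2 * N) c L) (j : ℤ) :
    pp N L (j + (2 * N : ℕ)) = pp N L j := by
  unfold pp
  have h1 : L (j + (2 * N : ℕ)) - (j + (2 * N : ℕ)) - N = L j - j - N := by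
    rw [h.piv.add j]
    ring
  rw [h1]

theorem pp_ge (N : ℕ) (L : ℤ → ℤ) (j : ℤ) : 1 / 2 ≤ |pp N L j| := by
  unfold pp
  generalize L j - j - N = m
  rcases le_or_gt m 0 with h | h
  · have h1 : (m : ℝ) ≤ 0 := by exact_mod_cast h
    rw [abs_of_nonneg (by linarith)]
    linarith
  · have h1 : (1 : ℝ) ≤ m := by exact_mod_cast h
    rw [abs_of_nonpos (by linarith)]
    linarith

theorem pT_le (p : ℤ → ℝ) (j : ℤ) : |pT p j| ≤ 1 / 2 := by
  unfold pT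
  rw [abs_le]
  exact ⟨le_max_right _ _, max_le (min_le_right _ _) (by norm_num)⟩

theorem pO_le (N : ℕ) (p : ℤ → ℝ) (j : ℤ) : |pO N p j| ≤ 1 / 2 := by
  unfold pO
  have h1 := abs_le.1 (pT_le p j)
  have h2 := abs_le.1 (pT_le p (j + N))
  rw [abs_le]
  constructor <;> linarith [h1.1, h1.2, h2.1, h2.2]

theorem pO_anti (N : ℕ) (p : ℤ → ℝ) (hp : ∀ j, p (j + (2 * N : ℕ)) = p j) (j : ℤ) :
    pO N p (j + N) = -pO N p j := by
  unfold pO
  have h1 : pT p (j + N + N) = pT p j := by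
    unfold pT
    have e : j + N + N = j + (2 * N : ℕ) := by
      push_cast
      ring
    rw [e, hp]
  rw [h1]
  ring

end CLOSE

open CLOSE in
theorem m_CLOSE : Stmt_LOWER → Stmt_HFIN → Stmt_TRUNC → Stmt_LIMIT → Stmt_CLOSE := by
  intro hLOW hHF hTR hLI K M ε hM hε
  have hpi := Real.pi_pos
  have hpi3 := Real.pi_gt_three
  obtain ⟨C, hC, hHF'⟩ := hHF K
  obtain ⟨M', hMM', hM'C⟩ : ∃ M' : ℕ, M ≤ M' ∧ 4000 * C / ε ≤ M' := by
    obtain ⟨m, hm⟩ := exists_nat_ge (4000 * C / ε)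
    exact ⟨max M m, le_max_left _ _, hm.trans (by exact_mod_cast le_max_right _ _)⟩
  have hM'5 : 5 ≤ M' := hM.trans hMM'
  have hM'p : (0 : ℝ) < M' := by
    have : 0 < M' := by omega
    exact_mod_cast this
  have hCM : C / M' ≤ ε / 4000 := by
    rw [div_le_iff₀ hε] at hM'C
    rw [div_le_iff₀ hM'p]
    linarith
  have hε' : 0 < ε / 12000 := by positivity
  obtain ⟨n₁, hn₁⟩ := hLOW (ε / 12000) hε'
  obtain ⟨n₂, hn₂⟩ := hHF' M' (ε / 12000) hM'5 hε'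
  obtain ⟨N₀, hN₀⟩ := hLI M' (ε / 12000) (by omega) hε'
  set δ : ℝ := min 1 (ε / 2) with hδdef
  have hδ : 0 < δ := lt_min zero_lt_one (by positivity)
  have hδ1 : δ ≤ 1 := min_le_left _ _
  have hδ2 : δ ≤ ε / 2 := min_le_right _ _
  obtain ⟨n₃, hn₃⟩ := exists_nat_ge (9 * π ^ 2 / δ)
  refine ⟨n₁ + n₂ + n₃ + 2 * (M' + 1) + 2 * N₀, ?_⟩
  intro N hN c hc L hL
  have g1 := hn₁ N (by omega) c.z hc.opt
  have g2 := hn₂ N (by omega) c hc L hL
  have g3 := hTR N M' (pp N L) (by omega) (pp_per hL) (pp_ge N L)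
  have g4 := hN₀ N (by omega) (pO N (pp N L)) (pO_anti N (pp N L) (pp_per hL))
    (pO_le N (pp N L))
  have g5 := defect_ge (2 * N) δ hδ hδ1 (hn₃.trans (by
    have : n₃ ≤ 2 * N := by omega
    exact_mod_cast this)) (pO N (pp N L)) (pO_le N (pp N L))
  have g6 := UM_nonneg (2 * N) M' (uu N c) (pp N L)
  have g7 := UM_mono (2 * N) M M' hMM' (uu N c) (pp N L)
  have g8 : 0 ≤ mn (2 * N) (fun j => |pp N L j - pT (pp N L) j|) := by
    unfold mn
    exact div_nonneg (Finset.sum_nonneg fun _ _ => abs_nonneg _) (Nat.cast_nonneg _)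
  have g9 := mul_le_mul_of_nonneg_left g3 (by positivity : (0 : ℝ) ≤ π ^ 2 / 2)
  generalize mn (2 * N) (fun j => |pp N L j - pT (pp N L) j|) = a at *
  generalize 1 - π ^ 2 * ‖dr (2 * N) (pO N (pp N L)) 3‖ ^ 2 = t at *
  generalize UM (2 * N) M' (uu N c) (pp N L) = U' at *
  generalize UM (2 * N) M (uu N c) (pp N L) = U at *
  have g10 : π ^ 2 / 2 * (2 / 5 * a) ≥ 9 / 5 * a := by
    have : (9 : ℝ) ≤ π ^ 2 := by nlinarith
    nlinarith
  have g11 : 1 / 500 * t + 9 / 5 * a + 8 * U' ≤ ε / 2000 := by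
    have e : π ^ 2 / 2 * (QM (2 * N) M' (pO N (pp N L)) - 2 / 5 * a) =
      π ^ 2 / 2 * QM (2 * N) M' (pO N (pp N L)) - π ^ 2 / 2 * (2 / 5 * a) := by ring
    rw [e] at g9
    linarith
  refine ⟨by linarith, by linarith, by linarith⟩

end Pool.Agent.EHP
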