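import Pool.Agent.EHP.Stmts1

/-!
# The coarse bound for the moduli (module EHP_COARSE)
-/

open Finset
open scoped Real ComplexConjugate

namespace Pool.Agent.EHP

namespace COARSE

open MeasureTheory

/-- Projection of a complex number to a direction. -/
lemma re_exp (v : ℂ) (θ : ℝ) :
    (v * Complex.exp (-(θ : ℂ) * Complex.I)).re = ‖v‖ * Real.cos (v.arg - θ) := by
  have h : v * Complex.exp (-(θ : ℂ) * Complex.I)
      = (‖v‖ : ℂ) * Complex.exp (((v.arg - θ : ℝ) : ℂ) * Complex.I) := by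
    conv_lhs => rw [← Complex.norm_mul_exp_arg_mul_I v]
    rw [mul_assoc, ← Complex.exp_add]
    congr 2
    push_cast
    ring
  rw [h, Complex.re_ofReal_mul, Complex.exp_ofReal_mul_I_re]

lemma countable_zero {v : ℂ} (hv : v ≠ 0) :
    {θ : ℝ | (v * Complex.exp (-(θ : ℂ) * Complex.I)).re = 0}.Countable := by
  refine (Set.countable_range (fun k : ℤ => v.arg - (2 * (k : ℝ) + 1) * π / 2)).mono ?_
  intro θ hθ
  rw [Set.mem_setOf_eq, re_exp] at hθ
  rcases mul_eq_zero.1 hθ with h | h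
  · exact absurd (norm_eq_zero.1 h) hv
  · obtain ⟨k, hk⟩ := Real.cos_eq_zero_iff.1 h
    exact ⟨k, by simp only; linarith⟩

/-- For almost every direction the projections of different points are different. -/
lemma ae_ne (z : ℤ → ℂ) : ∀ᵐ θ : ℝ, ∀ i j : ℤ, z i ≠ z j →
    ((z i - z j) * Complex.exp (-(θ : ℂ) * Complex.I)).re ≠ 0 := by
  rw [ae_all_iff]
  intro i
  rw [ae_all_iff]
  intro j
  by_cases h : z i = z j
  · exact Filter.Eventually.of_forall fun θ h2 => absurd h h2
  · filter_upwards [(countable_zero (sub_ne_zero.2 h)).ae_notMem volume] with θ hθ _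
    exact hθ

/-- The one dimensional inequality for the projections. -/
lemma line_ineq (hL : Stmt_LINE) {n : ℕ} (hn : 2 ≤ n) {z : ℤ → ℂ} (hz : Pts n z)
    (hadm : ∀ i j, ‖z i - z j‖ ≤ 2) (hsum : ∑ j ∈ range n, z (j : ℤ) = 0) {θ : ℝ}
    (hθ : ∀ i j : ℤ, z i ≠ z j → ((z i - z j) * Complex.exp (-(θ : ℂ) * Complex.I)).re ≠ 0)
    (j₀ : ℤ) :
    ∃ m : ℝ, (z j₀ * Complex.exp (-(θ : ℂ) * Complex.I)).re - m ≤ 1 ∧
      ∑ j ∈ range n, ∑ d ∈ Ico 1 n, Real.log |2 * ((z ((j : ℤ) + (d : ℤ)) - z (j : ℤ)) *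
        Complex.exp (-(θ : ℂ) * Complex.I)).re| ≤
      n + 2 * n * Real.log n - 2 * (1 - 1 / (n : ℝ)) * (n * m) ^ 2 := by
  set E : ℂ := Complex.exp (-(θ : ℂ) * Complex.I) with hE
  have hEn : ‖E‖ = 1 := by
    rw [hE, show -(θ : ℂ) * Complex.I = ((-θ : ℝ) : ℂ) * Complex.I by push_cast; ring]
    exact Complex.norm_exp_ofReal_mul_I _
  set x : ℤ → ℝ := fun j => (z j * E).re with hx
  have hper : ∀ j, x (j + n) = x j := fun j => by rw [hx]; simp only [hz.per j]
  have hdiff : ∀ i j, x i - x j = ((z i - z j) * E).re := by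
    intro i j
    rw [hx]
    simp only [sub_mul, Complex.sub_re]
  have hd2 : ∀ i j, x i - x j ≤ 2 := by
    intro i j
    rw [hdiff]
    refine (Complex.re_le_norm _).trans ?_
    rw [norm_mul, hEn, mul_one]
    exact hadm i j
  have hne : (range n).Nonempty := ⟨0, mem_range.2 (by omega)⟩
  obtain ⟨a, ha, hamax⟩ := exists_max_image (range n) (fun j : ℕ => x (j : ℤ)) hne
  obtain ⟨b, hb, hbmin⟩ := exists_min_image (range n) (fun j : ℕ => x (j : ℤ)) hne
  have hred : ∀ j : ℤ, ∃ k ∈ range n, x j = x ((k : ℕ) : ℤ) := by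
    intro j
    have hn0 : (n : ℤ) ≠ 0 := by
      have : 0 < n := by omega
      exact_mod_cast this.ne'
    have h1 : 0 ≤ j % n := Int.emod_nonneg j hn0
    have h2 : j % n < n := Int.emod_lt_of_pos j (by omega)
    refine ⟨(j % n).toNat, mem_range.2 (by omega), ?_⟩
    rw [Int.toNat_of_nonneg h1]
    exact (per_mod hper j).symm
  set m : ℝ := (x a + x b) / 2 with hm
  have habs : ∀ j, |x j - m| ≤ 1 := by
    intro j
    obtain ⟨k, hk, hjk⟩ := hred j
    have h1 := hamax k hk
    have h2 := hbmin k hk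
    have h3 := hd2 a b
    rw [abs_le, hm, hjk]
    constructor <;> linarith
  refine ⟨m, (abs_le.1 (habs j₀)).2, ?_⟩
  have hinj : ∀ i j, x i - m = x j - m → (n : ℤ) ∣ i - j := by
    intro i j hij
    apply hz.inj
    by_contra hne'
    apply hθ i j hne'
    rw [← hdiff]
    linarith
  have h := hL n (fun j => x j - m) hn (fun j => by simp only [hper j]) hinj habs
  have e1 : ∑ j ∈ range n, (x (j : ℤ) - m) = - (n * m) := by
    rw [sum_sub_distrib, sum_const, card_range, nsmul_eq_mul]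
    have : ∑ j ∈ range n, x (j : ℤ) = 0 := by
      have h2 : ∑ j ∈ range n, x (j : ℤ) = ((∑ j ∈ range n, z (j : ℤ)) * E).re := by
        rw [sum_mul, Complex.re_sum]
      rw [h2, hsum, zero_mul, Complex.zero_re]
    rw [this, zero_sub]
  rw [e1, neg_sq] at h
  refine le_trans (le_of_eq ?_) h
  refine sum_congr rfl fun j _ => sum_congr rfl fun d _ => ?_
  rw [← hdiff]
  congr 3
  ring

/-- The interval of directions. -/
lemma dirs (α η : ℝ) (h1 : -π < α) (h2 : α ≤ π) (h3 : 0 < η) (h4 : η ≤ 1) :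
    ∃ a : ℝ, 0 ≤ a ∧ a + η ≤ 2 * π ∧ ∀ θ ∈ Set.Icc a (a + η), 1 - η ^ 2 / 2 ≤ Real.cos (α - θ) := by
  have hpi := Real.pi_gt_three
  have key : ∀ t : ℝ, |t| ≤ η → 1 - η ^ 2 / 2 ≤ Real.cos t := by
    intro t ht
    have h5 := Real.one_sub_sq_div_two_le_cos (x := t)
    have h6 : t ^ 2 ≤ η ^ 2 := by
      rw [← sq_abs t]
      exact pow_le_pow_left₀ (abs_nonneg t) ht 2
    linarith
  by_cases hα : 0 ≤ α
  · refine ⟨α, hα, by linarith, fun θ hθ => key _ ?_⟩
    rw [abs_le]
    constructor <;> linarith [hθ.1, hθ.2]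
  · push Not at hα
    refine ⟨α + 2 * π - η, by linarith, by linarith, fun θ hθ => ?_⟩
    rw [← Real.cos_add_two_pi]
    refine key _ ?_
    rw [abs_le]
    constructor <;> linarith [hθ.1, hθ.2]

end COARSE

open COARSE MeasureTheory in
theorem m_COARSE (hL : Stmt_LINE) (hA : Stmt_CAVG) : Stmt_COARSE := by
  have main : ∀ δ : ℝ, 0 < δ → δ ≤ 1 → ∃ n₀ : ℕ, ∀ n ≥ n₀, ∀ z : ℤ → ℂ, Pts n z →
      (∀ i j, ‖z i - z j‖ ≤ 2) → ∑ j ∈ range n, z (j : ℤ) = 0 → n * Real.log n ≤ FL n z →
      ∀ j, ‖z j‖ ≤ 1 + δ := by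
    intro δ hδ hδ1
    obtain ⟨N, hN⟩ := exists_nat_gt ((101 / δ ^ 3) ^ 2)
    refine ⟨N + 2, fun n hn z hz hadm hsum hFL j₀ => ?_⟩
    by_contra hj
    push Not at hj
    have hn2 : 2 ≤ n := by omega
    have hnr : (2 : ℝ) ≤ n := by exact_mod_cast hn2
    have hn0 : (0 : ℝ) < n := by linarith
    have hpi := Real.pi_gt_three
    set η : ℝ := δ / 2 with hη
    obtain ⟨a, ha0, ha2, haI⟩ := dirs (z j₀).arg η (Complex.neg_pi_lt_arg _)
      (Complex.arg_le_pi _) (by positivity) (by rw [hη]; linarith)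
    set F : ℝ → ℝ := fun θ => ∑ j ∈ range n, ∑ d ∈ Ico 1 n,
      Real.log |2 * ((z ((j : ℤ) + (d : ℤ)) - z (j : ℤ)) *
        Complex.exp (-(θ : ℂ) * Complex.I)).re| with hF
    have hv : ∀ j ∈ range n, ∀ d ∈ Ico 1 n, z ((j : ℤ) + (d : ℤ)) - z (j : ℤ) ≠ 0 := by
      intro j _ d hd h
      have h1 := hz.inj _ _ (sub_eq_zero.1 h)
      rw [add_sub_cancel_left] at h1
      have h2 := Int.le_of_dvd (by have := (mem_Ico.1 hd).1; omega) h1
      have := (mem_Ico.1 hd).2
      omega
    have hFint : IntervalIntegrable F volume 0 (2 * π) := by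
      have h : F = ∑ j ∈ range n, ∑ d ∈ Ico 1 n, fun θ : ℝ =>
          Real.log |2 * ((z ((j : ℤ) + (d : ℤ)) - z (j : ℤ)) *
            Complex.exp (-(θ : ℂ) * Complex.I)).re| := by
        funext θ
        simp only [hF, Finset.sum_apply]
      rw [h]
      refine IntervalIntegrable.sum _ fun j hj => IntervalIntegrable.sum _ fun d hd => ?_
      exact (hA _ (hv j hj d hd)).1
    have hFval : ∫ θ in (0 : ℝ)..(2 * π), F θ = 2 * π * FL n z := by
      simp only [hF]
      rw [intervalIntegral.integral_finset_sum]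
      · unfold FL
        rw [mul_sum]
        refine sum_congr rfl fun j hj => ?_
        rw [intervalIntegral.integral_finset_sum]
        · rw [mul_sum]
          refine sum_congr rfl fun d hd => ?_
          exact (hA _ (hv j hj d hd)).2
        · intro d hd
          exact (hA _ (hv j hj d hd)).1
      · intro j hj
        have h : (fun θ : ℝ => ∑ d ∈ Ico 1 n, Real.log |2 * ((z ((j : ℤ) + (d : ℤ)) - z (j : ℤ)) *
            Complex.exp (-(θ : ℂ) * Complex.I)).re|) = ∑ d ∈ Ico 1 n, fun θ : ℝ =>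
            Real.log |2 * ((z ((j : ℤ) + (d : ℤ)) - z (j : ℤ)) *
            Complex.exp (-(θ : ℂ) * Complex.I)).re| := by
          funext θ
          simp only [Finset.sum_apply]
        rw [h]
        exact IntervalIntegrable.sum _ fun d hd => (hA _ (hv j hj d hd)).1
    set K : ℝ := n + 2 * n * Real.log n with hK
    set c : ℝ := 2 * (1 - 1 / (n : ℝ)) * (n * (δ / 2)) ^ 2 with hc
    have hq : 0 ≤ 1 - 1 / (n : ℝ) := by
      rw [sub_nonneg, div_le_one hn0]
      linarith
    have hae1 : ∀ᵐ θ : ℝ, F θ ≤ K := by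
      filter_upwards [ae_ne z] with θ hθ
      obtain ⟨m, _, hm⟩ := line_ineq hL hn2 hz hadm hsum hθ j₀
      have : 0 ≤ 2 * (1 - 1 / (n : ℝ)) * (n * m) ^ 2 := by positivity
      simp only [hF]
      linarith
    have hae2 : ∀ᵐ θ : ℝ, θ ∈ Set.Icc a (a + η) → F θ ≤ K - c := by
      filter_upwards [ae_ne z] with θ hθ hI
      obtain ⟨m, hm1, hm⟩ := line_ineq hL hn2 hz hadm hsum hθ j₀
      rw [re_exp] at hm1
      have h1 := haI θ hI
      have h2 : (1 + δ) * (1 - η ^ 2 / 2) ≤ ‖z j₀‖ * Real.cos ((z j₀).arg - θ) := by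
        refine mul_le_mul hj.le h1 ?_ (norm_nonneg _)
        rw [hη]
        nlinarith
      have h3 : 1 + δ / 2 ≤ (1 + δ) * (1 - η ^ 2 / 2) := by
        rw [hη]
        nlinarith [mul_pos hδ hδ, mul_pos hδ (mul_pos hδ hδ)]
      have h4 : δ / 2 ≤ m := by linarith
      have h5 : (n * (δ / 2)) ^ 2 ≤ ((n : ℝ) * m) ^ 2 :=
        pow_le_pow_left₀ (by positivity) (mul_le_mul_of_nonneg_left h4 hn0.le) 2
      have h6 : c ≤ 2 * (1 - 1 / (n : ℝ)) * (n * m) ^ 2 := by
        rw [hc]
        exact mul_le_mul_of_nonneg_left h5 (by positivity)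
      simp only [hF]
      linarith
    have hη0 : 0 < η := by rw [hη]; positivity
    have hsub : ∀ p q : ℝ, 0 ≤ p → p ≤ q → q ≤ 2 * π → IntervalIntegrable F volume p q := by
      intro p q hp hpq hq2
      refine hFint.mono_set ?_
      rw [Set.uIcc_of_le hpq, Set.uIcc_of_le (by linarith)]
      exact Set.Icc_subset_Icc hp hq2
    have I1 : ∫ θ in (0 : ℝ)..a, F θ ≤ ∫ _θ in (0 : ℝ)..a, K :=
      intervalIntegral.integral_mono_ae ha0 (hsub 0 a le_rfl ha0 (by linarith))
        intervalIntegrable_const hae1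
    have I2 : ∫ θ in a..(a + η), F θ ≤ ∫ _θ in a..(a + η), (K - c) := by
      refine intervalIntegral.integral_mono_ae_restrict (by linarith)
        (hsub a (a + η) ha0 (by linarith) ha2) intervalIntegrable_const ?_
      exact (ae_restrict_iff' measurableSet_Icc).2 hae2
    have I3 : ∫ θ in (a + η)..(2 * π), F θ ≤ ∫ _θ in (a + η)..(2 * π), K :=
      intervalIntegral.integral_mono_ae ha2 (hsub (a + η) (2 * π) (by linarith) ha2 le_rfl)
        intervalIntegrable_const hae1
    rw [intervalIntegral.integral_const, smul_eq_mul] at I1 I2 I3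
    have hsplit : ∫ θ in (0 : ℝ)..(2 * π), F θ = (∫ θ in (0 : ℝ)..a, F θ) +
        (∫ θ in a..(a + η), F θ) + ∫ θ in (a + η)..(2 * π), F θ := by
      rw [intervalIntegral.integral_add_adjacent_intervals
        (hsub 0 a le_rfl ha0 (by linarith)) (hsub a (a + η) ha0 (by linarith) ha2),
        intervalIntegral.integral_add_adjacent_intervals
        (hsub 0 (a + η) le_rfl (by linarith) ha2)
        (hsub (a + η) (2 * π) (by linarith) ha2 le_rfl)]
    have htot : 2 * π * FL n z ≤ 2 * π * K - η * c := by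
      rw [← hFval, hsplit]
      linarith
    have h7 : η * c ≤ 2 * π * (n + n * Real.log n) := by
      have h8 := mul_le_mul_of_nonneg_left hFL (by positivity : (0 : ℝ) ≤ 2 * π)
      rw [hK] at htot
      linarith
    have h9 : η * c = δ ^ 3 * (n - 1) * n / 4 := by
      rw [hη, hc]
      field_simp
      ring
    rw [h9] at h7
    have h10 : δ ^ 3 * (n - 1) ≤ 8 * π * (1 + Real.log n) := by
      have h11 : n * (δ ^ 3 * (n - 1)) ≤ n * (8 * π * (1 + Real.log n)) := by linarith
      exact le_of_mul_le_mul_left h11 hn0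
    have hs0 : 0 < Real.sqrt n := Real.sqrt_pos.2 hn0
    have hsq : Real.sqrt n * Real.sqrt n = n := Real.mul_self_sqrt hn0.le
    have h12 : 1 + Real.log n ≤ 2 * Real.sqrt n := by
      have h13 := Real.log_le_sub_one_of_pos hs0
      have h14 : Real.log n = 2 * Real.log (Real.sqrt n) := by
        rw [Real.log_sqrt hn0.le]
        ring
      linarith
    have h15 : δ ^ 3 * n ≤ 32 * π * Real.sqrt n := by
      have h16 : 8 * π * (1 + Real.log n) ≤ 8 * π * (2 * Real.sqrt n) :=
        mul_le_mul_of_nonneg_left h12 (by positivity)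
      have h17 : δ ^ 3 * (n / 2) ≤ δ ^ 3 * (n - 1) :=
        mul_le_mul_of_nonneg_left (by linarith) (by positivity)
      linarith
    have h18 : δ ^ 3 * Real.sqrt n ≤ 32 * π := by
      have h19 : Real.sqrt n * (δ ^ 3 * Real.sqrt n) ≤ Real.sqrt n * (32 * π) := by
        have h21 : Real.sqrt n * (δ ^ 3 * Real.sqrt n) = δ ^ 3 * n := by
          have h22 : Real.sqrt n * (δ ^ 3 * Real.sqrt n)
              = δ ^ 3 * (Real.sqrt n * Real.sqrt n) := by ring
          rw [h22, hsq]
        rw [h21]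
        linarith
      exact le_of_mul_le_mul_left h19 hs0
    have h20 : 101 / δ ^ 3 < Real.sqrt n := by
      apply Real.lt_sqrt_of_sq_lt
      have : (N : ℝ) ≤ n := by
        have : N ≤ n := by omega
        exact_mod_cast this
      linarith
    rw [div_lt_iff₀ (by positivity)] at h20
    have hpi2 := Real.pi_lt_d2
    nlinarith
  intro δ hδ
  obtain ⟨n₀, h⟩ := main (min δ 1) (lt_min hδ one_pos) (min_le_right _ _)
  exact ⟨n₀, fun n hn z h1 h2 h3 h4 j =>
    (h n hn z h1 h2 h3 h4 j).trans (by linarith [min_le_left δ 1])⟩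

end Pool.Agent.EHP
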