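import Pool.Agent.EHP.Stmts5

/-!
# The distances of the deformed polygon
-/

open Finset
open scoped Real ComplexConjugate

namespace Pool.Agent.EHP

namespace MCOMP

theorem mul_cos_le_sin {u : ℝ} (h0 : 0 ≤ u) (h1 : u ≤ π / 2) : u * Real.cos u ≤ Real.sin u := by
  rcases h1.lt_or_eq with h | h
  · have hc := Real.cos_pos_of_mem_Ioo ⟨by linarith [Real.pi_pos], h⟩
    have := Real.le_tan h0 h
    rw [Real.tan_eq_sin_div_cos, le_div_iff₀ hc] at this
    exact this
  · rw [h, Real.cos_pi_div_two, Real.sin_pi_div_two]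
    norm_num

/-- The elementary bound. -/
theorem elem {n u : ℝ} {m : ℕ} (hn : 4 ≤ n) (hu : u = π * m / n) (hu1 : u ≤ π / 2) :
    4 * Real.cos u ^ 2 + 4 * Real.cos u / n * (π * Real.sin u) + (π * u) ^ 2 / n ^ 2 ≤
      4 + π ^ 4 / n ^ 4 := by
  have hpi := Real.pi_pos
  have hn0 : 0 < n := by linarith
  have hu0 : 0 ≤ u := by rw [hu]; positivity
  have hc0 : 0 ≤ Real.cos u := Real.cos_nonneg_of_mem_Icc ⟨by linarith, hu1⟩
  have hs0 : 0 ≤ Real.sin u := Real.sin_nonneg_of_nonneg_of_le_pi hu0 (by linarith)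
  have hcs := Real.sin_sq_add_cos_sq u
  have hmc := mul_cos_le_sin hu0 hu1
  have hpos : 0 ≤ π ^ 4 / n ^ 4 := by positivity
  rcases Nat.lt_or_ge m 2 with hm | hm
  · have hm' : m = 0 ∨ m = 1 := by omega
    rcases hm' with rfl | rfl
    · have : u = 0 := by rw [hu]; simp
      subst this
      simp only [Real.cos_zero, Real.sin_zero]
      norm_num
      positivity
    · have hu' : u = π / n := by rw [hu]; simp
      have e1 : 4 * Real.cos u / n * (π * Real.sin u) = 4 * Real.sin u * (u * Real.cos u) := by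
        rw [hu']
        ring
      have e2 : (π * u) ^ 2 / n ^ 2 = π ^ 4 / n ^ 4 := by
        rw [hu']
        field_simp
      rw [e1, e2]
      have := mul_le_mul_of_nonneg_left hmc hs0
      nlinarith
  · have hmR : (2 : ℝ) ≤ m := by exact_mod_cast hm
    have hpn : π / n ≤ u / 2 := by
      rw [hu, div_le_iff₀ hn0]
      have e : π * m / n / 2 * n = π * (m / 2) := by field_simp
      rw [e]
      nlinarith
    have e1 : 4 * Real.cos u / n * (π * Real.sin u) = 4 * (π / n) * (Real.sin u * Real.cos u) := by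
      ring
    have h1 : 4 * (π / n) * (Real.sin u * Real.cos u) ≤ 4 * (u / 2) * (Real.sin u * Real.cos u) :=
      mul_le_mul_of_nonneg_right (by linarith) (mul_nonneg hs0 hc0)
    have h2 : 4 * (u / 2) * (Real.sin u * Real.cos u) ≤ 2 * Real.sin u ^ 2 := by
      have := mul_le_mul_of_nonneg_left hmc hs0
      nlinarith
    have h3 : (π * u) ^ 2 / n ^ 2 ≤ 2 * Real.sin u ^ 2 := by
      have h4 := Real.mul_le_sin hu0 hu1
      have h5 : u ≤ π / 2 * Real.sin u := by
        have : π / 2 * (2 / π * u) = u := by field_simp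
        have := mul_le_mul_of_nonneg_left h4 (show 0 ≤ π / 2 by positivity)
        linarith
      have h6 : π * u / n ≤ π * (π / 2 * Real.sin u) / 4 := by
        apply div_le_div₀ (by positivity) (mul_le_mul_of_nonneg_left h5 hpi.le) (by norm_num) hn
      have h7 := pow_le_pow_left₀ (by positivity) h6 2
      rw [div_pow] at h7
      refine h7.trans ?_
      have h8 : (π * (π / 2 * Real.sin u) / 4) ^ 2 = π ^ 4 / 64 * Real.sin u ^ 2 := by ring
      rw [h8]
      refine mul_le_mul_of_nonneg_right ?_ (sq_nonneg _)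
      have h9 := Real.pi_lt_d2
      have h10 : π ^ 4 ≤ 3.15 ^ 4 := pow_le_pow_left₀ hpi.le h9.le 4
      norm_num at h10 ⊢
      linarith
    rw [e1]
    linarith

variable {p : ℝ → ℝ} {ζ : ℝ → ℂ}

/-- The function `η`. -/
noncomputable def eta (ζ : ℝ → ℂ) (y : ℝ) : ℂ := ζ y * Complex.exp (y * Complex.I)

theorem eta_lip (h : Defo p ζ) (x y : ℝ) : ‖eta ζ y - eta ζ x‖ ≤ π / 2 * |y - x| := by
  have h1 := Convex.norm_image_sub_le_of_norm_hasDerivWithin_le (f := eta ζ)
    (f' := fun x : ℝ => (π : ℂ) * p x * Complex.exp (x * Complex.I)) (C := π / 2)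
    (s := Set.univ) (x := x) (y := y) (fun z _ => (h.der z).hasDerivWithinAt)
    (fun z _ => by
      rw [norm_mul, norm_mul, Complex.norm_exp_ofReal_mul_I, Complex.norm_real, Complex.norm_real,
        Real.norm_eq_abs, Real.norm_eq_abs, abs_of_pos Real.pi_pos, mul_one]
      have := mul_le_mul_of_nonneg_left (h.bd z) Real.pi_pos.le
      linarith)
    convex_univ (Set.mem_univ _) (Set.mem_univ _)
  rwa [Real.norm_eq_abs] at h1

theorem re_bound (h : Defo p ζ) (x : ℝ) {u : ℝ} (h0 : 0 ≤ u) (h1 : u ≤ π / 2) :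
    (Complex.exp (-(x + u : ℝ) * Complex.I) * (eta ζ x - eta ζ (x + 2 * u))).re ≤
      π * Real.sin u := by
  set w : ℂ := Complex.exp (-(x + u : ℝ) * Complex.I) with hw
  set F : ℝ → ℝ := fun s => π / 2 * Real.sin (s - u) + (w * eta ζ (x + s)).re with hF
  have hd : ∀ s, HasDerivAt F (π / 2 * Real.cos (s - u) + π * p (x + s) * Real.cos (s - u)) s := by
    intro s
    have e1 : HasDerivAt (fun s : ℝ => eta ζ (x + s))
        ((π : ℂ) * p (x + s) * Complex.exp (((x + s : ℝ) : ℂ) * Complex.I)) s :=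
      HasDerivAt.comp_const_add x s (h.der (x + s))
    have e2 := e1.const_mul w
    have e3 := Complex.reCLM.hasFDerivAt.comp_hasDerivAt s e2
    have e4 : HasDerivAt (fun s : ℝ => π / 2 * Real.sin (s - u)) (π / 2 * Real.cos (s - u)) s := by
      have := ((Real.hasDerivAt_sin (s - u)).comp_sub_const s u).const_mul (π / 2)
      exact this
    have e5 := e4.add e3
    refine e5.congr_deriv ?_
    congr 1
    have e6 : w * ((π : ℂ) * p (x + s) * Complex.exp (((x + s : ℝ) : ℂ) * Complex.I)) =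
        ((π * p (x + s) : ℝ) : ℂ) * Complex.exp (((s - u : ℝ) : ℂ) * Complex.I) := by
      have : Complex.exp (((s - u : ℝ) : ℂ) * Complex.I) =
          w * Complex.exp (((x + s : ℝ) : ℂ) * Complex.I) := by
        rw [hw, ← Complex.exp_add]
        congr 1
        push_cast
        ring
      rw [this]
      push_cast
      ring
    show (w * ((π : ℂ) * p (x + s) * Complex.exp (((x + s : ℝ) : ℂ) * Complex.I))).re = _
    rw [e6, Complex.re_ofReal_mul, Complex.exp_ofReal_mul_I_re]
  have hmono : MonotoneOn F (Set.Icc 0 (2 * u)) := by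
    refine monotoneOn_of_deriv_nonneg (convex_Icc _ _)
      (fun s _ => (hd s).continuousAt.continuousWithinAt)
      (fun s _ => (hd s).differentiableAt.differentiableWithinAt) (fun s hs => ?_)
    rw [interior_Icc] at hs
    rw [(hd s).deriv]
    have hc : 0 ≤ Real.cos (s - u) :=
      Real.cos_nonneg_of_mem_Icc ⟨by linarith [hs.1], by linarith [hs.2]⟩
    have hp := (abs_le.1 (h.bd (x + s))).1
    have e : π / 2 * Real.cos (s - u) + π * p (x + s) * Real.cos (s - u) =
      π * (1 / 2 + p (x + s)) * Real.cos (s - u) := by ring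
    rw [e]
    have := Real.pi_pos
    exact mul_nonneg (mul_nonneg this.le (by linarith)) hc
  have h3 := hmono (Set.left_mem_Icc.2 (by linarith)) (Set.right_mem_Icc.2 (by linarith))
    (by linarith)
  simp only [hF] at h3
  have e1 : 0 - u = -u := by ring
  have e2 : 2 * u - u = u := by ring
  rw [e1, e2, Real.sin_neg, add_zero] at h3
  rw [mul_sub, Complex.sub_re]
  linarith

theorem wz_add (h : Defo p ζ) {n : ℕ} (hn : 0 < n) (j : ℤ) : wz n ζ (j + n) = wz n ζ j := by
  have hnR : (n : ℝ) ≠ 0 := by positivity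
  have e1 : 2 * π * ((j + n : ℤ) : ℝ) / n = 2 * π * j / n + 2 * π := by
    push_cast
    field_simp
  have e2 : ζ (2 * π * j / n + 2 * π) = ζ (2 * π * j / n) := by
    have e3 : 2 * π * j / n + 2 * π = (2 * π * j / n + π) + π := by ring
    rw [e3, h.anti, h.anti, neg_neg]
  unfold wz
  rw [e1, e2]
  congr 1
  have e4 : ((2 * π * j / n + 2 * π : ℝ) : ℂ) * Complex.I =
      ((2 * π * j / n : ℝ) : ℂ) * Complex.I + 2 * π * Complex.I := by
    push_cast
    ring
  rw [e4, Complex.exp_add, Complex.exp_two_pi_mul_I, mul_one]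

theorem key (h : Defo p ζ) {n N : ℕ} (hnN : n = 2 * N) (hN : 2 ≤ N) (i : ℤ) {m : ℕ} (hm : m ≤ N) :
    ‖wz n ζ i - wz n ζ (i + N + m)‖ ^ 2 ≤ 4 + π ^ 4 / (n : ℝ) ^ 4 := by
  have hpi := Real.pi_pos
  have hn4 : (4 : ℝ) ≤ n := by
    have : 4 ≤ n := by omega
    exact_mod_cast this
  have hn0 : (0 : ℝ) < n := by linarith
  have hnN' : (n : ℝ) = 2 * N := by rw [hnN]; push_cast; ring
  set x : ℝ := 2 * π * i / n with hx
  set u : ℝ := π * m / n with hu
  have hu0 : 0 ≤ u := by positivity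
  have hu1 : u ≤ π / 2 := by
    rw [hu, div_le_div_iff₀ hn0 (by norm_num), hnN']
    have : (m : ℝ) ≤ N := by exact_mod_cast hm
    nlinarith
  have e1 : 2 * π * ((i + N + m : ℤ) : ℝ) / n = (x + 2 * u) + π := by
    rw [hx, hu, hnN']
    have : (N : ℝ) ≠ 0 := by
      have : 0 < N := by omega
      positivity
    push_cast
    field_simp
    ring
  set w : ℂ := Complex.exp (-(x + u : ℝ) * Complex.I) with hw
  have hwn : ‖w‖ = 1 := by
    rw [hw]
    have : -((x + u : ℝ) : ℂ) * Complex.I = ((-(x + u) : ℝ) : ℂ) * Complex.I := by push_cast; ring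
    rw [this, Complex.norm_exp_ofReal_mul_I]
  set g : ℂ := w * (eta ζ x - eta ζ (x + 2 * u)) with hg
  have hgn : ‖g‖ ≤ π * u := by
    rw [hg, norm_mul, hwn, one_mul, norm_sub_rev]
    refine (eta_lip h _ _).trans (le_of_eq ?_)
    rw [show x + 2 * u - x = 2 * u by ring, abs_of_nonneg (by linarith)]
    ring
  have hgr : g.re ≤ π * Real.sin u := re_bound h x hu0 hu1
  have hD : w * (wz n ζ i - wz n ζ (i + N + m)) = ((2 * Real.cos u : ℝ) : ℂ) + g / n := by
    unfold wz
    rw [e1, h.anti]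
    have e2 : (((x + 2 * u) + π : ℝ) : ℂ) * Complex.I =
        ((x + 2 * u : ℝ) : ℂ) * Complex.I + π * Complex.I := by push_cast; ring
    rw [e2, Complex.exp_add, Complex.exp_pi_mul_I, ← hx, hg]
    unfold eta
    have e3 : w * Complex.exp ((x : ℂ) * Complex.I) = Complex.exp (-(u : ℂ) * Complex.I) := by
      rw [hw, ← Complex.exp_add]
      congr 1
      push_cast
      ring
    have e4 : w * Complex.exp (((x + 2 * u : ℝ) : ℂ) * Complex.I) =
        Complex.exp ((u : ℂ) * Complex.I) := by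
      rw [hw, ← Complex.exp_add]
      congr 1
      push_cast
      ring
    have e5 : ((2 * Real.cos u : ℝ) : ℂ) = Complex.exp ((u : ℂ) * Complex.I) +
        Complex.exp (-(u : ℂ) * Complex.I) := by
      rw [← Complex.two_cos]
      push_cast
      ring
    rw [e5, ← e3, ← e4]
    ring
  have h1 : ‖wz n ζ i - wz n ζ (i + N + m)‖ ^ 2 =
      4 * Real.cos u ^ 2 + 4 * Real.cos u / n * g.re + ‖g‖ ^ 2 / n ^ 2 := by
    have h2 : ‖wz n ζ i - wz n ζ (i + N + m)‖ = ‖w * (wz n ζ i - wz n ζ (i + N + m))‖ := by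
      rw [norm_mul, hwn, one_mul]
    rw [h2, hD, ← Complex.normSq_eq_norm_sq, ← Complex.normSq_eq_norm_sq, Complex.normSq_add,
      Complex.normSq_ofReal, Complex.normSq_div, Complex.normSq_natCast, Complex.re_ofReal_mul]
    have e6 : (conj (g / (n : ℂ))).re = g.re / n := by
      rw [Complex.conj_re, Complex.div_natCast_re]
    rw [e6]
    ring
  rw [h1]
  have hc0 : 0 ≤ Real.cos u := Real.cos_nonneg_of_mem_Icc ⟨by linarith, hu1⟩
  have h3 := mul_le_mul_of_nonneg_left hgr (show 0 ≤ 4 * Real.cos u / n by positivity)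
  have h4 : ‖g‖ ^ 2 / (n : ℝ) ^ 2 ≤ (π * u) ^ 2 / n ^ 2 :=
    div_le_div_of_nonneg_right (pow_le_pow_left₀ (norm_nonneg _) hgn 2) (by positivity)
  have h5 := elem (m := m) hn4 hu hu1
  linarith

end MCOMP

open MCOMP in
theorem m_COMP : Stmt_COMP := by
  intro p ζ h N hN i j
  obtain ⟨n, hnN⟩ : ∃ n, n = 2 * N := ⟨_, rfl⟩
  rw [← hnN]
  have hn0 : 0 < n := by omega
  have hper := wz_add h hn0
  have h0 := Int.emod_nonneg (j - i - N) (show (n : ℤ) ≠ 0 by omega)
  have h1 := Int.emod_lt_of_pos (j - i - N) (show (0 : ℤ) < n by omega)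
  have h2 := Int.mul_ediv_add_emod (j - i - N) n
  set q := (j - i - N) / (n : ℤ) with hq
  set r := (j - i - N) % (n : ℤ) with hr
  obtain ⟨m, hm⟩ := Int.eq_ofNat_of_zero_le h0
  by_cases hmN : m ≤ N
  · have h3 : wz n ζ j = wz n ζ (i + N + m) := by
      refine per_dvd hper ⟨q, ?_⟩
      linarith
    rw [h3]
    exact key h hnN hN i hmN
  · obtain ⟨m', hm'⟩ : ∃ m' : ℕ, m' = n - m := ⟨_, rfl⟩
    have h3 : wz n ζ i = wz n ζ (j + N + m') := by
      refine per_dvd hper ⟨-q - 2, ?_⟩
      have h4 : (m' : ℤ) = n - m := by omega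
      have h5 : (n : ℤ) = 2 * N := by omega
      rw [h4]
      linarith
    rw [h3, norm_sub_rev]
    exact key h hnN hN j (by omega)

end Pool.Agent.EHP
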