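import Pool.Agent.EHP.Stmts2

/-!
# COTSUM: the sum of the squared cotangents
-/

open Finset
open scoped Real ComplexConjugate

namespace Pool.Agent.EHP

theorem cotsum_sin_ne {n d : ℕ} (h1 : 1 ≤ d) (h2 : d < n) : Real.sin (π * d / n) ≠ 0 := by
  have hn : (0 : ℝ) < n := by exact_mod_cast (by omega : 0 < n)
  have hd : (0 : ℝ) < d := by exact_mod_cast h1
  have hdn : (d : ℝ) < n := by exact_mod_cast h2
  apply ne_of_gt
  apply Real.sin_pos_of_pos_of_lt_pi
  · have := Real.pi_pos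
    positivity
  · rw [div_lt_iff₀ hn]
    exact mul_lt_mul_of_pos_left hdn Real.pi_pos

/-- The roots of unity. -/
noncomputable def cotsumZ (n : ℕ) (j : ℤ) : ℂ := Complex.exp ((2 * π * j / n : ℝ) * Complex.I)

theorem cotsumZ_ne (n : ℕ) (j : ℤ) : cotsumZ n j ≠ 0 := Complex.exp_ne_zero _

theorem cotsumZ_add (n : ℕ) (i j : ℤ) : cotsumZ n (i + j) = cotsumZ n i * cotsumZ n j := by
  unfold cotsumZ
  rw [← Complex.exp_add]
  congr 1
  push_cast
  ring

theorem cotsumZ_nat (n d : ℕ) : cotsumZ n (d : ℤ) =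
    ((Real.cos (π * d / n) : ℝ) + (Real.sin (π * d / n) : ℝ) * Complex.I) ^ 2 := by
  have : ((Real.cos (π * d / n) : ℝ) : ℂ) + ((Real.sin (π * d / n) : ℝ) : ℂ) * Complex.I
      = Complex.exp (((π * d / n : ℝ) : ℂ) * Complex.I) := by
    rw [Complex.exp_mul_I]
    push_cast
    rfl
  rw [this]
  unfold cotsumZ
  rw [← Complex.exp_nat_mul]
  congr 1
  push_cast
  ring

theorem cotsum_one_sub {n d : ℕ} (h1 : 1 ≤ d) (h2 : d < n) : (1 : ℂ) - cotsumZ n (d : ℤ) ≠ 0 := by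
  have hs := cotsum_sin_ne h1 h2
  rw [cotsumZ_nat]
  have hcs := Real.cos_sq_add_sin_sq (π * d / n)
  intro h
  have hsc : ((Real.sin (π * d / n) : ℝ) : ℂ) ≠ 0 := by exact_mod_cast hs
  have hcs' : ((Real.cos (π * d / n) : ℝ) : ℂ) ^ 2 + ((Real.sin (π * d / n) : ℝ) : ℂ) ^ 2 = 1 := by
    exact_mod_cast hcs
  set C := ((Real.cos (π * d / n) : ℝ) : ℂ) with hC
  set S := ((Real.sin (π * d / n) : ℝ) : ℂ) with hS
  have hI := Complex.I_sq
  have h4 : (-2 * S * Complex.I) * (C + S * Complex.I) = 0 := by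
    linear_combination h + hcs' - S ^ 2 * hI
  rcases mul_eq_zero.1 h4 with h5 | h5
  · rcases mul_eq_zero.1 h5 with h6 | h6
    · rcases mul_eq_zero.1 h6 with h7 | h7
      · norm_num at h7
      · exact hsc h7
    · exact Complex.I_ne_zero h6
  · rw [h5] at h
    norm_num at h

theorem cotsum_cc {n d : ℕ} (h1 : 1 ≤ d) (h2 : d < n) (j : ℤ) :
    cc (cotsumZ n) j (j + (d : ℤ)) =
      ((Real.cos (π * d / n) / Real.sin (π * d / n) : ℝ) : ℂ) * Complex.I := by
  have hs := cotsum_sin_ne h1 h2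
  have h3 := cotsum_one_sub h1 h2
  unfold cc
  rw [cotsumZ_add]
  have e1 : cotsumZ n j + cotsumZ n j * cotsumZ n (d : ℤ) = cotsumZ n j * (1 + cotsumZ n (d : ℤ)) := by
    ring
  have e2 : cotsumZ n j - cotsumZ n j * cotsumZ n (d : ℤ) = cotsumZ n j * (1 - cotsumZ n (d : ℤ)) := by
    ring
  rw [e1, e2, mul_div_mul_left _ _ (cotsumZ_ne n j), div_eq_iff h3, cotsumZ_nat]
  have hsc : ((Real.sin (π * d / n) : ℝ) : ℂ) ≠ 0 := by exact_mod_cast hs
  have hcs : ((Real.cos (π * d / n) : ℝ) : ℂ) ^ 2 + ((Real.sin (π * d / n) : ℝ) : ℂ) ^ 2 = 1 := by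
    exact_mod_cast Real.cos_sq_add_sin_sq (π * d / n)
  set C := ((Real.cos (π * d / n) : ℝ) : ℂ) with hC
  set S := ((Real.sin (π * d / n) : ℝ) : ℂ) with hS
  have e3 : ((Real.cos (π * d / n) / Real.sin (π * d / n) : ℝ) : ℂ) = C / S := by
    rw [hC, hS]; push_cast; rfl
  rw [e3]
  field_simp
  have hI := Complex.I_sq
  have e4 : S * (1 + (C + S * Complex.I) ^ 2) - C * Complex.I * (1 - (C + S * Complex.I) ^ 2) = 0 := by
    have e5 : (C + S * Complex.I) ^ 2 = C ^ 2 - S ^ 2 + 2 * C * S * Complex.I := by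
      linear_combination S ^ 2 * hI
    rw [e5]
    have e6 : C ^ 2 = 1 - S ^ 2 := by linear_combination hcs
    linear_combination (-S + C * Complex.I) * hcs + 2 * C ^ 2 * S * hI
  linear_combination e4

theorem cotsum_pts {n : ℕ} (hn : 1 ≤ n) : Pts n (cotsumZ n) := by
  have hnR : (n : ℝ) ≠ 0 := by positivity
  have hnC : (n : ℂ) ≠ 0 := by exact_mod_cast hnR
  have hpi : (π : ℂ) ≠ 0 := by exact_mod_cast Real.pi_ne_zero
  refine ⟨?_, ?_⟩
  · intro j
    unfold cotsumZ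
    rw [Complex.exp_eq_exp_iff_exists_int]
    refine ⟨1, ?_⟩
    push_cast
    field_simp
  · intro i j h
    unfold cotsumZ at h
    rw [Complex.exp_eq_exp_iff_exists_int] at h
    obtain ⟨k, hk⟩ := h
    refine ⟨k, ?_⟩
    push_cast at hk
    have h1 : (2 * (π : ℂ) * Complex.I) * ((i : ℂ) - j) = (2 * (π : ℂ) * Complex.I) * (n * k) := by
      field_simp at hk
      have h2 := hk
      linear_combination 2 * (π : ℂ) * Complex.I * h2
    have h3 : (2 * (π : ℂ) * Complex.I) ≠ 0 := by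
      simp [hpi, Complex.I_ne_zero]
    have h4 := mul_left_cancel₀ h3 h1
    exact_mod_cast h4

theorem m_COTSUM : Stmt_CALO → Stmt_COTSUM := by
  intro hcalo n hn
  have hC := hcalo n (cotsumZ n) hn (cotsum_pts hn)
  have hnR : (n : ℝ) ≠ 0 := by positivity
  -- the forces vanish
  have hH : ∀ j : ℤ, HH n (cotsumZ n) j = 0 := by
    intro j
    unfold HH
    have e1 : ∑ d ∈ Ico 1 n, cc (cotsumZ n) j (j + (d : ℤ)) =
        ∑ d ∈ Ico 1 n, ((Real.cos (π * d / n) / Real.sin (π * d / n) : ℝ) : ℂ) * Complex.I := by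
      apply Finset.sum_congr rfl
      intro d hd
      have hd' := Finset.mem_Ico.1 hd
      exact cotsum_cc hd'.1 hd'.2 j
    rw [e1]
    have e2 : ∑ d ∈ Ico 1 n, ((Real.cos (π * d / n) / Real.sin (π * d / n) : ℝ) : ℂ) * Complex.I =
        - ∑ d ∈ Ico 1 n, ((Real.cos (π * d / n) / Real.sin (π * d / n) : ℝ) : ℂ) * Complex.I := by
      rw [← Finset.sum_neg_distrib]
      apply Finset.sum_nbij' (fun d => n - d) (fun d => n - d)
      · intro d hd; simp only [Finset.mem_Ico] at *; omega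
      · intro d hd; simp only [Finset.mem_Ico] at *; omega
      · intro d hd; simp only [Finset.mem_Ico] at *; omega
      · intro d hd; simp only [Finset.mem_Ico] at *; omega
      · intro d hd
        have hd' := Finset.mem_Ico.1 hd
        have e3 : π * ((n - d : ℕ) : ℝ) / n = π - π * d / n := by
          rw [Nat.cast_sub hd'.2.le]
          field_simp
        rw [e3, Real.cos_pi_sub, Real.sin_pi_sub]
        push_cast
        ring
    have e3 : ∑ d ∈ Ico 1 n, ((Real.cos (π * d / n) / Real.sin (π * d / n) : ℝ) : ℂ) * Complex.I = 0 := by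
      have := add_eq_zero_iff_eq_neg.2 e2
      rw [← two_mul] at this
      exact (mul_eq_zero.1 this).resolve_left two_ne_zero
    rw [e3, mul_zero]
  have e4 : ∑ j ∈ range n, ∑ d ∈ Ico 1 n, cc (cotsumZ n) (j : ℤ) ((j : ℤ) + (d : ℤ)) ^ 2 =
      -((n : ℂ) * ((∑ d ∈ Ico 1 n, Real.cos (π * d / n) ^ 2 / Real.sin (π * d / n) ^ 2 : ℝ) : ℂ)) := by
    have e5 : ∀ j ∈ range n, ∑ d ∈ Ico 1 n, cc (cotsumZ n) (j : ℤ) ((j : ℤ) + (d : ℤ)) ^ 2 =
        -((∑ d ∈ Ico 1 n, Real.cos (π * d / n) ^ 2 / Real.sin (π * d / n) ^ 2 : ℝ) : ℂ) := by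
      intro j _
      push_cast
      rw [← Finset.sum_neg_distrib]
      apply Finset.sum_congr rfl
      intro d hd
      have hd' := Finset.mem_Ico.1 hd
      rw [cotsum_cc hd'.1 hd'.2, mul_pow, Complex.I_sq]
      push_cast
      ring
    rw [Finset.sum_congr rfl e5, Finset.sum_const, Finset.card_range, nsmul_eq_mul]
    ring
  rw [e4] at hC
  simp only [hH] at hC
  have hnC : (n : ℂ) ≠ 0 := by exact_mod_cast hnR
  have h6 : ((∑ d ∈ Ico 1 n, Real.cos (π * d / n) ^ 2 / Real.sin (π * d / n) ^ 2 : ℝ) : ℂ) =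
      (((n : ℝ) - 1) * (n - 2) / 3 : ℝ) := by
    have h7 : (n : ℂ) * ((∑ d ∈ Ico 1 n, Real.cos (π * d / n) ^ 2 / Real.sin (π * d / n) ^ 2 : ℝ) : ℂ) =
        (n : ℂ) * ((((n : ℝ) - 1) * (n - 2) / 3 : ℝ) : ℂ) := by
      have h8 : (4 : ℂ) * ∑ j ∈ range n, (0 : ℂ) ^ 2 = 0 := by simp
      rw [h8] at hC
      push_cast
      push_cast at hC
      linear_combination hC
    exact mul_left_cancel₀ hnC h7
  exact_mod_cast h6

end Pool.Agent.EHP
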