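import Pool.Agent.EHP.Stmts1

/-!
# The energy identity: `Stmt_IDEN`
-/

open Finset
open scoped Real ComplexConjugate

namespace Pool.Agent.EHP

namespace M_IDEN

/-- `∏_{k = 1}^{n - 1} 2 sin (π k / n) = n`, in logarithmic form. -/
theorem sum_log_sin (n : ℕ) (hn : 1 ≤ n) :
    ∑ d ∈ Ico 1 n, Real.log (2 * Real.sin (π * d / n)) = Real.log n := by
  obtain ⟨m, rfl⟩ : ∃ m, n = m + 1 := ⟨n - 1, by omega⟩
  have hpos : ∀ d ∈ Ico 1 (m + 1), 0 < 2 * Real.sin (π * d / ((m + 1 : ℕ) : ℝ)) := by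
    intro d hd
    obtain ⟨h1, h2⟩ := Finset.mem_Ico.1 hd
    have h1' : (0 : ℝ) < d := by exact_mod_cast h1
    have h2' : (d : ℝ) < ((m + 1 : ℕ) : ℝ) := by exact_mod_cast h2
    have h3 : (0 : ℝ) < ((m + 1 : ℕ) : ℝ) := h1'.trans h2'
    have h4 : 0 < Real.sin (π * d / ((m + 1 : ℕ) : ℝ)) := by
      apply Real.sin_pos_of_pos_of_lt_pi
      · have := Real.pi_pos
        positivity
      · rw [div_lt_iff₀ h3]
        exact mul_lt_mul_of_pos_left h2' Real.pi_pos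
    linarith
  rw [← Real.log_prod (fun d hd => (hpos d hd).ne')]
  congr 1
  have hprim := Complex.isPrimitiveRoot_exp (m + 1) (Nat.succ_ne_zero m)
  have h5 := hprim.prod_one_sub_pow_eq_order
  have h6 : ‖∏ k ∈ range m, (1 - Complex.exp (2 * π * Complex.I / ((m + 1 : ℕ) : ℂ)) ^ (k + 1))‖ =
      ((m + 1 : ℕ) : ℝ) := by
    rw [h5]
    have : (m : ℂ) + 1 = ((m + 1 : ℕ) : ℂ) := by push_cast; rfl
    rw [this, Complex.norm_natCast]
  refine Eq.trans ?_ h6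
  rw [norm_prod, Finset.prod_Ico_eq_prod_range]
  refine Finset.prod_congr (by simp) fun k hk => ?_
  have hk' : k < m := by simpa using hk
  have h7 : Complex.exp (2 * π * Complex.I / ((m + 1 : ℕ) : ℂ)) ^ (k + 1) =
      Complex.exp (Complex.I * ((2 * (π * ((1 + k : ℕ) : ℝ) / ((m + 1 : ℕ) : ℝ)) : ℝ) : ℂ)) := by
    rw [← Complex.exp_nat_mul]
    congr 1
    push_cast
    ring
  rw [h7, norm_sub_rev, Complex.norm_exp_I_mul_ofReal_sub_one]
  have h8 : 2 * (π * ((1 + k : ℕ) : ℝ) / ((m + 1 : ℕ) : ℝ)) / 2 =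
      π * ((1 + k : ℕ) : ℝ) / ((m + 1 : ℕ) : ℝ) := by ring
  rw [h8, Real.norm_of_nonneg (hpos (1 + k) (Finset.mem_Ico.2 ⟨by omega, by omega⟩)).le]

/-- half of the angle differences lie in `(0, π)` -/
theorem X_mem {n : ℕ} (c : Cfg n) (j : ℤ) {d : ℕ} (hd : d ∈ Ico 1 n) :
    0 < c.X (j + (d : ℤ)) j ∧ c.X (j + (d : ℤ)) j < π := by
  obtain ⟨h1, h2⟩ := Finset.mem_Ico.1 hd
  have h3 : c.θ j < c.θ (j + (d : ℤ)) := c.mono (by omega)
  have h4 : c.θ (j + (d : ℤ)) < c.θ (j + n) := c.mono (by omega)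
  rw [c.θ_add] at h4
  unfold Cfg.X
  constructor <;> linarith

/-- the logarithm of one distance -/
theorem log_dist {n : ℕ} (c : Cfg n) (j : ℤ) {d : ℕ} (hd : d ∈ Ico 1 n) :
    Real.log ‖c.z (j + (d : ℤ)) - c.z j‖ =
      Real.log (2 * Real.sin (π * d / n)) + (c.ρ (j + (d : ℤ)) / 2 + c.ρ j / 2) -
      DD (π * d / n) (c.X (j + (d : ℤ)) j) +
      (c.X (j + (d : ℤ)) j - π * d / n) * (Real.cos (π * d / n) / Real.sin (π * d / n)) +
      Real.log (1 + Real.sinh (c.Y (j + (d : ℤ)) j) ^ 2 / Real.sin (c.X (j + (d : ℤ)) j) ^ 2) / 2 := by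
  obtain ⟨hX0, hX1⟩ := X_mem c j hd
  have hsX : 0 < Real.sin (c.X (j + (d : ℤ)) j) := Real.sin_pos_of_pos_of_lt_pi hX0 hX1
  obtain ⟨h1, h2⟩ := Finset.mem_Ico.1 hd
  have h1' : (0 : ℝ) < d := by exact_mod_cast h1
  have h2' : (d : ℝ) < (n : ℝ) := by exact_mod_cast h2
  have hn : (0 : ℝ) < n := h1'.trans h2'
  have hsa : 0 < Real.sin (π * d / n) := by
    apply Real.sin_pos_of_pos_of_lt_pi
    · have := Real.pi_pos
      positivity
    · rw [div_lt_iff₀ hn]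
      exact mul_lt_mul_of_pos_left h2' Real.pi_pos
  set X := c.X (j + (d : ℤ)) j with hX
  set Y := c.Y (j + (d : ℤ)) j with hY
  have h3 : Real.log ‖c.z (j + (d : ℤ)) - c.z j‖ =
      Real.log (‖c.z (j + (d : ℤ)) - c.z j‖ ^ 2) / 2 := by
    rw [Real.log_pow]
    push_cast
    ring
  rw [h3, c.dist_sq, ← hX, ← hY]
  have h4 : Real.sin X ^ 2 + Real.sinh Y ^ 2 =
      Real.sin X ^ 2 * (1 + Real.sinh Y ^ 2 / Real.sin X ^ 2) := by
    field_simp
  have h5 : 0 < 1 + Real.sinh Y ^ 2 / Real.sin X ^ 2 := by positivity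
  have h6 : 0 < Real.sin X ^ 2 := by positivity
  have h7 : (4 : ℝ) = 2 ^ 2 := by norm_num
  rw [h4, Real.log_mul (by positivity) (by positivity), Real.log_mul (by norm_num) (by positivity),
    Real.log_mul h6.ne' h5.ne', Real.log_exp, h7, Real.log_pow, Real.log_pow]
  unfold DD
  rw [Real.log_div hsX.ne' hsa.ne', Real.log_mul (by norm_num) hsa.ne']
  push_cast
  ring

end M_IDEN

open M_IDEN in
theorem m_IDEN : Stmt_IDEN := by
  intro n c hn
  have hn0 : 0 < n := hn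
  have hnr : (n : ℝ) ≠ 0 := by positivity
  unfold FL Eφ TT
  have h1 : ∀ j ∈ range n, ∀ d ∈ Ico 1 n, Real.log ‖c.z ((j : ℤ) + (d : ℤ)) - c.z (j : ℤ)‖ =
      Real.log (2 * Real.sin (π * d / n)) + (c.ρ ((j : ℤ) + (d : ℤ)) / 2 + c.ρ (j : ℤ) / 2) -
      DD (π * d / n) (c.X ((j : ℤ) + (d : ℤ)) (j : ℤ)) +
      (c.X ((j : ℤ) + (d : ℤ)) (j : ℤ) - π * d / n) *
        (Real.cos (π * d / n) / Real.sin (π * d / n)) +
      Real.log (1 + Real.sinh (c.Y ((j : ℤ) + (d : ℤ)) (j : ℤ)) ^ 2 /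
        Real.sin (c.X ((j : ℤ) + (d : ℤ)) (j : ℤ)) ^ 2) / 2 := fun j _ d hd => log_dist c j hd
  rw [Finset.sum_congr rfl fun j hj => Finset.sum_congr rfl fun d hd => h1 j hj d hd]
  simp only [Finset.sum_add_distrib, Finset.sum_sub_distrib]
  have e1 : ∑ _j ∈ range n, ∑ d ∈ Ico 1 n, Real.log (2 * Real.sin (π * d / n)) =
      n * Real.log n := by
    rw [Finset.sum_const, Finset.card_range, nsmul_eq_mul, sum_log_sin n hn]
  have hcast : ((n - 1 : ℕ) : ℝ) = n - 1 := by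
    rw [Nat.cast_sub hn]
    simp
  have e2 : ∑ j ∈ range n, ∑ d ∈ Ico 1 n, c.ρ ((j : ℤ) + (d : ℤ)) / 2 =
      (n - 1) * (∑ j ∈ range n, c.ρ (j : ℤ)) / 2 := by
    have := sum_snd (n := n) (f := fun j => c.ρ j / 2) (fun j => by
      rw [c.ρ_add])
    rw [this, nsmul_eq_mul, hcast, ← Finset.sum_div]
    ring
  have e3 : ∑ j ∈ range n, ∑ _d ∈ Ico 1 n, c.ρ (j : ℤ) / 2 =
      (n - 1) * (∑ j ∈ range n, c.ρ (j : ℤ)) / 2 := by
    have := sum_fst (n := n) (f := fun j => c.ρ j / 2)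
    rw [this, nsmul_eq_mul, hcast, ← Finset.sum_div]
    ring
  have e4 : ∑ j ∈ range n, ∑ d ∈ Ico 1 n, (c.X ((j : ℤ) + (d : ℤ)) (j : ℤ) - π * d / n) *
      (Real.cos (π * d / n) / Real.sin (π * d / n)) = 0 := by
    rw [Finset.sum_comm]
    refine Finset.sum_eq_zero fun d _ => ?_
    rw [← Finset.sum_mul]
    have h2 : ∑ j ∈ range n, (c.X ((j : ℤ) + (d : ℤ)) (j : ℤ) - π * d / n) = 0 := by
      have h3 : ∀ j ∈ range n, c.X ((j : ℤ) + (d : ℤ)) (j : ℤ) - π * d / n =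
          c.φ ((j : ℤ) + (d : ℤ)) / 2 - c.φ (j : ℤ) / 2 := by
        intro j _
        unfold Cfg.X Cfg.φ
        push_cast
        ring
      rw [Finset.sum_congr rfl h3, Finset.sum_sub_distrib, ← Finset.sum_div, ← Finset.sum_div,
        sum_shift (f := c.φ) (c.φ_add hn0) (d : ℤ), sub_self]
    rw [h2, zero_mul]
  rw [e1, e2, e3, e4]
  simp only [← Finset.sum_div]
  ring

end Pool.Agent.EHP
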