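import Pool.Agent.EHP.Stmts5
import Pool.Agent.EHP.MCOTSUM
import Pool.Agent.EHP.MIDEN

/-!
# The energy of the deformed polygon: `Stmt_COMPE`
-/

open Finset
open scoped Real ComplexConjugate Interval

namespace Pool.Agent.EHP

namespace M_COMPE

/-- second order lower bound of `log ‖1 + E‖` -/
theorem log_ge (E : ℂ) (hE : ‖E‖ ≤ 3 / 10) :
    E.re - (E ^ 2).re / 2 - ‖E‖ ^ 3 ≤ Real.log ‖1 + E‖ := by
  have h1 := Complex.norm_log_sub_logTaylor_le 2 (z := E) (by linarith)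
  have h2 : Complex.logTaylor (2 + 1) E = E - E ^ 2 / 2 := by
    simp [Complex.logTaylor_succ, Complex.logTaylor_zero]
    ring
  rw [h2] at h1
  have h3 := (Complex.abs_re_le_norm (Complex.log (1 + E) - (E - E ^ 2 / 2))).trans h1
  have h4 := (abs_le.1 h3).1
  rw [Complex.sub_re, Complex.sub_re, Complex.log_re] at h4
  have h5 : (E ^ 2 / 2).re = (E ^ 2).re / 2 := by
    have : E ^ 2 / 2 = E ^ 2 / ((2 : ℝ) : ℂ) := by push_cast; rfl
    rw [this, Complex.div_ofReal_re]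
  rw [h5] at h4
  have h6 : ‖E‖ ^ (2 + 1) * (1 - ‖E‖)⁻¹ / (((2 : ℕ) : ℝ) + 1) ≤ ‖E‖ ^ 3 := by
    have h7 : 0 < 1 - ‖E‖ := by linarith
    have h8 : 0 ≤ ‖E‖ ^ 3 := by positivity
    rw [div_le_iff₀ (by positivity), mul_inv_le_iff₀ h7]
    push_cast
    nlinarith
  linarith

variable {p : ℝ → ℝ} {ζ : ℝ → ℂ}

/-- the values of the deformation -/
noncomputable def ze (n : ℕ) (ζ : ℝ → ℂ) (j : ℤ) : ℂ := ζ (2 * π * j / n)

theorem wz_eq (n : ℕ) (ζ : ℝ → ℂ) (j : ℤ) : wz n ζ j = cotsumZ n j * (1 + ze n ζ j / n) := rfl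

theorem ze_add (h : Defo p ζ) {n : ℕ} (hn : 0 < n) (j : ℤ) : ze n ζ (j + n) = ze n ζ j := by
  unfold ze
  have hnR : (n : ℝ) ≠ 0 := by positivity
  have e : 2 * π * ((j + (n : ℤ) : ℤ) : ℝ) / n = 2 * π * j / n + π + π := by
    push_cast
    field_simp
    ring
  rw [e, h.anti, h.anti, neg_neg]

theorem ze_anti (h : Defo p ζ) {N : ℕ} (hN : 0 < N) (j : ℤ) :
    ze (2 * N) ζ (j + N) = -ze (2 * N) ζ j := by
  unfold ze
  have hnR : (N : ℝ) ≠ 0 := by positivity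
  have e : 2 * π * ((j + (N : ℤ) : ℤ) : ℝ) / ((2 * N : ℕ) : ℝ) = 2 * π * j / ((2 * N : ℕ) : ℝ) + π := by
    push_cast
    field_simp
  rw [e, h.anti]

theorem om_add {n : ℕ} (hn : 0 < n) (j : ℤ) : cotsumZ n (j + n) = cotsumZ n j :=
  (cotsum_pts hn).per j

theorem lip (h : Defo p ζ) (x y : ℝ) :
    ‖ζ y * Complex.exp (y * Complex.I) - ζ x * Complex.exp (x * Complex.I)‖ ≤ π / 2 * |y - x| := by
  have h1 := Convex.norm_image_sub_le_of_norm_hasDerivWithin_le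
    (f := fun y : ℝ => ζ y * Complex.exp (y * Complex.I))
    (f' := fun x : ℝ => π * p x * Complex.exp (x * Complex.I)) (C := π / 2) (s := Set.univ) (x := x)
    (y := y) (fun x _ => (h.der x).hasDerivWithinAt) (fun x _ => ?_) convex_univ (Set.mem_univ _)
    (Set.mem_univ _)
  · rw [Real.norm_eq_abs] at h1
    exact h1
  · rw [norm_mul, Complex.norm_exp_ofReal_mul_I, mul_one, ← Complex.ofReal_mul, Complex.norm_real,
      Real.norm_eq_abs, abs_mul, abs_of_pos Real.pi_pos]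
    have := mul_le_mul_of_nonneg_left (h.bd x) Real.pi_pos.le
    linarith

theorem eta_le (h : Defo p ζ) {n : ℕ} (hn : 0 < n) (i j : ℤ) :
    ‖ze n ζ i * cotsumZ n i - ze n ζ j * cotsumZ n j‖ ≤ π ^ 2 * |((i - j : ℤ) : ℝ)| / n := by
  have h1 := lip h (2 * π * j / n) (2 * π * i / n)
  refine h1.trans (le_of_eq ?_)
  have hnR : (0 : ℝ) < n := by exact_mod_cast hn
  have e : 2 * π * (i : ℝ) / n - 2 * π * j / n = 2 * π / n * ((i - j : ℤ) : ℝ) := by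
    push_cast
    ring
  rw [e, abs_mul, abs_of_pos (by positivity : 0 < 2 * π / (n : ℝ))]
  ring

theorem sin_ge {n d : ℕ} (hn : 0 < n) (hd : 2 * d ≤ n) : 2 * (d : ℝ) / n ≤ Real.sin (π * d / n) := by
  have hnR : (0 : ℝ) < n := by exact_mod_cast hn
  have h1 := Real.mul_le_sin (x := π * d / n) (by positivity) (by
    rw [div_le_div_iff₀ hnR two_pos]
    have : 2 * (d : ℝ) ≤ n := by exact_mod_cast hd
    nlinarith [Real.pi_pos])
  refine le_trans (le_of_eq ?_) h1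
  field_simp

/-- the quotient of the differences -/
theorem quot (h : Defo p ζ) {n : ℕ} (hn : 0 < n) (j : ℤ) {d : ℕ} (h2 : d < n) :
    ‖ze n ζ (j + d) * cotsumZ n (j + d) - ze n ζ j * cotsumZ n j‖ ≤
      π ^ 2 / 4 * (2 * Real.sin (π * d / n)) := by
  have hnR : (0 : ℝ) < n := by exact_mod_cast hn
  rcases le_total (2 * d) n with hd | hd
  · refine (eta_le h hn _ _).trans ?_
    have e : ((j + (d : ℤ) - j : ℤ) : ℝ) = d := by push_cast; ring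
    rw [e, abs_of_nonneg (Nat.cast_nonneg d)]
    have h3 := sin_ge hn hd
    calc π ^ 2 * (d : ℝ) / n = π ^ 2 / 4 * (2 * (2 * (d : ℝ) / n)) := by ring
      _ ≤ _ := by gcongr
  · have e1 : ze n ζ (j + d) = ze n ζ (j + d - n) := by
      rw [← ze_add h hn (j + d - n)]
      congr 1
      ring
    have e2 : cotsumZ n (j + d) = cotsumZ n (j + d - n) := by
      rw [← om_add hn (j + d - n)]
      congr 1
      ring
    rw [e1, e2]
    refine (eta_le h hn _ _).trans ?_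
    have e : ((j + (d : ℤ) - (n : ℤ) - j : ℤ) : ℝ) = -((n - d : ℕ) : ℝ) := by
      rw [Nat.cast_sub h2.le]
      push_cast
      ring
    rw [e, abs_neg, abs_of_nonneg (Nat.cast_nonneg _)]
    have h3 := sin_ge (d := n - d) hn (by omega)
    have h4 : Real.sin (π * ((n - d : ℕ) : ℝ) / n) = Real.sin (π * d / n) := by
      rw [Nat.cast_sub h2.le]
      have : π * ((n : ℝ) - d) / n = π - π * d / n := by field_simp
      rw [this, Real.sin_pi_sub]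
    rw [h4] at h3
    calc π ^ 2 * ((n - d : ℕ) : ℝ) / n = π ^ 2 / 4 * (2 * (2 * ((n - d : ℕ) : ℝ) / n)) := by ring
      _ ≤ _ := by gcongr

theorem sin_pos' {n d : ℕ} (h1 : 1 ≤ d) (h2 : d < n) : 0 < Real.sin (π * d / n) := by
  have hn : (0 : ℝ) < n := by exact_mod_cast (by omega : 0 < n)
  have hd : (0 : ℝ) < d := by exact_mod_cast h1
  have hdn : (d : ℝ) < n := by exact_mod_cast h2
  apply Real.sin_pos_of_pos_of_lt_pi
  · have := Real.pi_pos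
    positivity
  · rw [div_lt_iff₀ hn]
    exact mul_lt_mul_of_pos_left hdn Real.pi_pos

/-- `(v - 1) E = (ζ' v - ζ) / n` -/
theorem Eeq (n : ℕ) (hn : 0 < n) {d : ℕ} (h1 : 1 ≤ d) (h2 : d < n) (a b : ℂ) :
    (cotsumZ n d - 1) * (1 / (2 * (n : ℂ)) * ((b + a) - Complex.I * (b - a) *
      ((Real.cos (π * d / n) / Real.sin (π * d / n) : ℝ) : ℂ))) = (b * cotsumZ n d - a) / n := by
  have hs := cotsum_sin_ne h1 h2
  have hnC : (n : ℂ) ≠ 0 := by
    have : n ≠ 0 := by omega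
    exact_mod_cast this
  rw [cotsumZ_nat]
  have hsc : ((Real.sin (π * d / n) : ℝ) : ℂ) ≠ 0 := by exact_mod_cast hs
  have hcs : ((Real.cos (π * d / n) : ℝ) : ℂ) ^ 2 + ((Real.sin (π * d / n) : ℝ) : ℂ) ^ 2 = 1 := by
    exact_mod_cast Real.cos_sq_add_sin_sq (π * d / n)
  rw [Complex.ofReal_div]
  set C := ((Real.cos (π * d / n) : ℝ) : ℂ) with hC
  set S := ((Real.sin (π * d / n) : ℝ) : ℂ) with hS
  have hI := Complex.I_sq
  field_simp
  have e5 : (C + S * Complex.I) ^ 2 = C ^ 2 - S ^ 2 + 2 * C * S * Complex.I := by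
    linear_combination S ^ 2 * hI
  rw [e5]
  linear_combination (-2 * C ^ 2 * S * (b - a)) * hI + (b - a) * (S - C * Complex.I) * hcs

theorem norm_om (n : ℕ) (j : ℤ) : ‖cotsumZ n j‖ = 1 := by
  unfold cotsumZ
  exact Complex.norm_exp_ofReal_mul_I _

theorem norm_om_sub {n d : ℕ} (h1 : 1 ≤ d) (h2 : d < n) :
    ‖cotsumZ n d - 1‖ = 2 * Real.sin (π * d / n) := by
  have hs := sin_pos' h1 h2
  unfold cotsumZ
  rw [mul_comm, Complex.norm_exp_I_mul_ofReal_sub_one]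
  have e : 2 * π * (((d : ℕ) : ℤ) : ℝ) / n / 2 = π * d / n := by
    push_cast
    ring
  rw [e, Real.norm_of_nonneg (by linarith)]

/-- the quotient `E` -/
noncomputable def EE (n : ℕ) (ζ : ℝ → ℂ) (j : ℤ) (d : ℕ) : ℂ :=
  1 / (2 * (n : ℂ)) * ((ze n ζ (j + d) + ze n ζ j) - Complex.I * (ze n ζ (j + d) - ze n ζ j) *
    ((Real.cos (π * d / n) / Real.sin (π * d / n) : ℝ) : ℂ))

theorem wz_sub {n : ℕ} (hn : 0 < n) (j : ℤ) {d : ℕ} (h1 : 1 ≤ d) (h2 : d < n) :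
    wz n ζ (j + d) - wz n ζ j = cotsumZ n j * ((cotsumZ n d - 1) * (1 + EE n ζ j d)) := by
  have h3 := Eeq n hn h1 h2 (ze n ζ j) (ze n ζ (j + d))
  rw [mul_add, mul_one]
  unfold EE
  rw [h3, wz_eq, wz_eq, cotsumZ_add]
  have hnC : (n : ℂ) ≠ 0 := by
    have : n ≠ 0 := by omega
    exact_mod_cast this
  field_simp
  ring

theorem EE_le (h : Defo p ζ) {n : ℕ} (hn : 0 < n) (j : ℤ) {d : ℕ} (h1 : 1 ≤ d) (h2 : d < n) :
    ‖EE n ζ j d‖ ≤ 3 / n := by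
  have hnR : (0 : ℝ) < n := by exact_mod_cast hn
  have h3 := Eeq n hn h1 h2 (ze n ζ j) (ze n ζ (j + d))
  have h4 := congrArg norm h3
  rw [norm_mul, norm_om_sub h1 h2, norm_div, Complex.norm_natCast] at h4
  have h5 : ‖ze n ζ (j + d) * cotsumZ n d - ze n ζ j‖ ≤ π ^ 2 / 4 * (2 * Real.sin (π * d / n)) := by
    have h6 := quot h hn j h2
    have e : ze n ζ (j + d) * cotsumZ n (j + d) - ze n ζ j * cotsumZ n j =
        cotsumZ n j * (ze n ζ (j + d) * cotsumZ n d - ze n ζ j) := by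
      rw [cotsumZ_add]
      ring
    rwa [e, norm_mul, norm_om, one_mul] at h6
  have hs := sin_pos' h1 h2
  have h7 : (2 * Real.sin (π * d / n)) * ‖EE n ζ j d‖ ≤ (2 * Real.sin (π * d / n)) * (π ^ 2 / 4 / n) := by
    calc (2 * Real.sin (π * d / n)) * ‖EE n ζ j d‖ = ‖ze n ζ (j + d) * cotsumZ n d - ze n ζ j‖ / n := h4
      _ ≤ π ^ 2 / 4 * (2 * Real.sin (π * d / n)) / n := by gcongr
      _ = _ := by ring
  have h8 := le_of_mul_le_mul_left h7 (by linarith)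
  refine h8.trans ?_
  have h9 : π ^ 2 / 4 ≤ 3 := by
    have := Real.pi_lt_d2
    nlinarith [Real.pi_pos]
  gcongr

/-- the summands of the lower bound -/
noncomputable def TT1 (n : ℕ) (ζ : ℝ → ℂ) (j : ℤ) (d : ℕ) : ℝ :=
  1 / (2 * (n : ℝ)) * (((ze n ζ (j + d)).re + (ze n ζ j).re) + ((ze n ζ (j + d)).im - (ze n ζ j).im) *
    (Real.cos (π * d / n) / Real.sin (π * d / n)))

noncomputable def TT2 (n : ℕ) (ζ : ℝ → ℂ) (j : ℤ) (d : ℕ) : ℝ :=
  1 / (4 * (n : ℝ) ^ 2) * (2 * ((ze n ζ (j + d)).re ^ 2 - (ze n ζ (j + d)).im ^ 2) +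
    2 * ((ze n ζ j).re ^ 2 - (ze n ζ j).im ^ 2) +
    4 * ((ze n ζ (j + d)).re * (ze n ζ (j + d)).im - (ze n ζ j).re * (ze n ζ j).im) *
      (Real.cos (π * d / n) / Real.sin (π * d / n)) -
    (((ze n ζ (j + d)).re - (ze n ζ j).re) ^ 2 - ((ze n ζ (j + d)).im - (ze n ζ j).im) ^ 2) /
      Real.sin (π * d / n) ^ 2)

theorem EE_re (n : ℕ) (j : ℤ) (d : ℕ) : (EE n ζ j d).re = TT1 n ζ j d := by
  unfold EE TT1
  have e : (1 / (2 * (n : ℂ))) = (((1 / (2 * (n : ℝ)) : ℝ)) : ℂ) := by push_cast; rfl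
  rw [e, Complex.re_ofReal_mul]
  congr 1
  generalize Real.cos (π * d / n) / Real.sin (π * d / n) = c
  simp only [Complex.sub_re, Complex.add_re, Complex.mul_re, Complex.sub_im, Complex.mul_im,
    Complex.I_re, Complex.I_im, Complex.ofReal_re, Complex.ofReal_im]
  ring

theorem EE_sq_re {n : ℕ} (hn : 0 < n) (j : ℤ) {d : ℕ} (h1 : 1 ≤ d) (h2 : d < n) :
    (EE n ζ j d ^ 2).re = TT2 n ζ j d := by
  have hs := (sin_pos' h1 h2).ne'
  have hnR : (n : ℝ) ≠ 0 := by positivity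
  have hcs := Real.cos_sq_add_sin_sq (π * d / n)
  have him : (EE n ζ j d).im = 1 / (2 * (n : ℝ)) * (((ze n ζ (j + d)).im + (ze n ζ j).im) -
      ((ze n ζ (j + d)).re - (ze n ζ j).re) * (Real.cos (π * d / n) / Real.sin (π * d / n))) := by
    unfold EE
    have e : (1 / (2 * (n : ℂ))) = (((1 / (2 * (n : ℝ)) : ℝ)) : ℂ) := by push_cast; rfl
    rw [e, Complex.im_ofReal_mul]
    congr 1
    generalize Real.cos (π * d / n) / Real.sin (π * d / n) = c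
    simp only [Complex.sub_re, Complex.add_im, Complex.mul_re, Complex.sub_im, Complex.mul_im,
      Complex.I_re, Complex.I_im, Complex.ofReal_re, Complex.ofReal_im]
    ring
  rw [sq, Complex.mul_re, him, EE_re]
  unfold TT1 TT2
  set a := (ze n ζ (j + d)).re
  set b := (ze n ζ (j + d)).im
  set r := (ze n ζ j).re
  set s := (ze n ζ j).im
  set S := Real.sin (π * d / n)
  set C := Real.cos (π * d / n)
  field_simp
  have e6 : C ^ 2 = 1 - S ^ 2 := by linarith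
  ring_nf
  rw [e6]
  ring

/-- one pair -/
theorem pair (h : Defo p ζ) {n : ℕ} (hn : 10 ≤ n) (j : ℤ) {d : ℕ} (h1 : 1 ≤ d) (h2 : d < n) :
    Real.log (2 * Real.sin (π * d / n)) + TT1 n ζ j d - TT2 n ζ j d / 2 - 27 / (n : ℝ) ^ 3 ≤
      Real.log ‖wz n ζ (j + d) - wz n ζ j‖ := by
  have hn0 : 0 < n := by omega
  have hnR : (10 : ℝ) ≤ n := by exact_mod_cast hn
  have hE := EE_le h hn0 j h1 h2
  have hE3 : ‖EE n ζ j d‖ ≤ 3 / 10 := hE.trans (by gcongr)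
  have h3 := log_ge _ hE3
  have hs := sin_pos' h1 h2
  have hne : 1 + EE n ζ j d ≠ 0 := by
    intro h0
    have h4 : EE n ζ j d = -1 := by linear_combination h0
    rw [h4, norm_neg, norm_one] at hE3
    norm_num at hE3
  rw [wz_sub hn0 j h1 h2, norm_mul, norm_om, one_mul, norm_mul, norm_om_sub h1 h2,
    Real.log_mul (by positivity) (norm_ne_zero_iff.2 hne)]
  rw [EE_re, EE_sq_re hn0 j h1 h2] at h3
  have h5 : ‖EE n ζ j d‖ ^ 3 ≤ 27 / (n : ℝ) ^ 3 := by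
    calc ‖EE n ζ j d‖ ^ 3 ≤ (3 / (n : ℝ)) ^ 3 := pow_le_pow_left₀ (norm_nonneg _) hE 3
      _ = _ := by rw [div_pow]; norm_num
  linarith

theorem wz_per (h : Defo p ζ) {n : ℕ} (hn : 0 < n) (j : ℤ) : wz n ζ (j + n) = wz n ζ j := by
  rw [wz_eq, wz_eq, om_add hn, ze_add h hn]

theorem wz_pts (h : Defo p ζ) {n : ℕ} (hn : 10 ≤ n) : Pts n (wz n ζ) := by
  have hn0 : 0 < n := by omega
  have hnZ : (0 : ℤ) < n := by exact_mod_cast hn0
  refine ⟨wz_per h hn0, fun i j hij => ?_⟩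
  by_contra hnd
  have h0 : (i - j) % n ≠ 0 := fun h0 => hnd (Int.dvd_of_emod_eq_zero h0)
  have h1 := Int.emod_nonneg (i - j) hnZ.ne'
  have h2 := Int.emod_lt_of_pos (i - j) hnZ
  obtain ⟨d, hd⟩ := Int.eq_ofNat_of_zero_le h1
  have hd1 : 1 ≤ d := by omega
  have hd2 : d < n := by omega
  have h3 : wz n ζ i = wz n ζ (j + d) := by
    apply per_dvd (wz_per h hn0)
    have h4 := Int.emod_add_mul_ediv (i - j) n
    exact ⟨(i - j) / n, by rw [← hd]; linarith⟩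
  have hE := EE_le h hn0 j hd1 hd2
  have hnR : (10 : ℝ) ≤ n := by exact_mod_cast hn
  have hE3 : ‖EE n ζ j d‖ ≤ 3 / 10 := hE.trans (by gcongr)
  have hs := sin_pos' hd1 hd2
  have h5 := wz_sub (ζ := ζ) hn0 j hd1 hd2
  rw [← h3, hij, sub_self] at h5
  have h6 := congrArg norm h5
  rw [norm_zero, norm_mul, norm_om, one_mul, norm_mul, norm_om_sub hd1 hd2] at h6
  rcases mul_eq_zero.1 h6.symm with h7 | h7
  · linarith
  · have h4 : EE n ζ j d = -1 := by linear_combination norm_eq_zero.1 h7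
    rw [h4, norm_neg, norm_one] at hE3
    norm_num at hE3

theorem sum_ze (h : Defo p ζ) {N : ℕ} (hN : 0 < N) :
    ∑ j ∈ range (2 * N), (ze (2 * N) ζ (j : ℤ)).re = 0 := by
  have hper : ∀ j : ℤ, (ze (2 * N) ζ (j + (2 * N : ℕ))).re = (ze (2 * N) ζ j).re := fun j => by
    rw [ze_add h (by omega)]
  have h1 := sum_shift (n := 2 * N) (f := fun j => (ze (2 * N) ζ j).re) hper N
  have h2 : ∑ j ∈ range (2 * N), (ze (2 * N) ζ ((j : ℤ) + N)).re =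
      -∑ j ∈ range (2 * N), (ze (2 * N) ζ (j : ℤ)).re := by
    rw [← Finset.sum_neg_distrib]
    refine Finset.sum_congr rfl fun j _ => ?_
    rw [ze_anti h hN, Complex.neg_re]
  rw [h2] at h1
  linarith

theorem sum_T1 (h : Defo p ζ) {N : ℕ} (hN : 0 < N) (d : ℕ) :
    ∑ j ∈ range (2 * N), TT1 (2 * N) ζ (j : ℤ) d = 0 := by
  have hre : ∀ j : ℤ, (ze (2 * N) ζ (j + (2 * N : ℕ))).re = (ze (2 * N) ζ j).re := fun j => by
    rw [ze_add h (by omega)]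
  have him : ∀ j : ℤ, (ze (2 * N) ζ (j + (2 * N : ℕ))).im = (ze (2 * N) ζ j).im := fun j => by
    rw [ze_add h (by omega)]
  unfold TT1
  rw [← Finset.mul_sum, Finset.sum_add_distrib, Finset.sum_add_distrib, ← Finset.sum_mul,
    Finset.sum_sub_distrib, sum_shift (f := fun j => (ze (2 * N) ζ j).re) hre d,
    sum_shift (f := fun j => (ze (2 * N) ζ j).im) him d, sum_ze h hN]
  ring

theorem sum_T2 (h : Defo p ζ) {N : ℕ} (hN : 0 < N) (d : ℕ) :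
    ∑ j ∈ range (2 * N), TT2 (2 * N) ζ (j : ℤ) d =
      1 / (4 * ((2 * N : ℕ) : ℝ) ^ 2) * (4 * (∑ j ∈ range (2 * N), (ze (2 * N) ζ (j : ℤ)).re ^ 2 -
        ∑ j ∈ range (2 * N), (ze (2 * N) ζ (j : ℤ)).im ^ 2) -
        (∑ j ∈ range (2 * N), ((ze (2 * N) ζ ((j : ℤ) + d)).re - (ze (2 * N) ζ (j : ℤ)).re) ^ 2 /
          Real.sin (π * d / ((2 * N : ℕ) : ℝ)) ^ 2 -
        ∑ j ∈ range (2 * N), ((ze (2 * N) ζ ((j : ℤ) + d)).im - (ze (2 * N) ζ (j : ℤ)).im) ^ 2 /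
          Real.sin (π * d / ((2 * N : ℕ) : ℝ)) ^ 2)) := by
  have hre : ∀ j : ℤ, (ze (2 * N) ζ (j + (2 * N : ℕ))).re = (ze (2 * N) ζ j).re := fun j => by
    rw [ze_add h (by omega)]
  have him : ∀ j : ℤ, (ze (2 * N) ζ (j + (2 * N : ℕ))).im = (ze (2 * N) ζ j).im := fun j => by
    rw [ze_add h (by omega)]
  unfold TT2
  rw [← Finset.mul_sum, Finset.sum_sub_distrib, Finset.sum_add_distrib, Finset.sum_add_distrib,
    ← Finset.sum_mul, ← Finset.mul_sum, ← Finset.mul_sum, ← Finset.mul_sum,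
    Finset.sum_sub_distrib, Finset.sum_sub_distrib, Finset.sum_sub_distrib,
    sum_shift (f := fun j => (ze (2 * N) ζ j).re ^ 2) (fun j => by rw [hre]) d,
    sum_shift (f := fun j => (ze (2 * N) ζ j).im ^ 2) (fun j => by rw [him]) d,
    sum_shift (f := fun j => (ze (2 * N) ζ j).re * (ze (2 * N) ζ j).im) (fun j => by rw [hre, him]) d]
  congr 1
  have e : ∑ j ∈ range (2 * N), (((ze (2 * N) ζ ((j : ℤ) + d)).re - (ze (2 * N) ζ (j : ℤ)).re) ^ 2 -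
      ((ze (2 * N) ζ ((j : ℤ) + d)).im - (ze (2 * N) ζ (j : ℤ)).im) ^ 2) /
        Real.sin (π * d / ((2 * N : ℕ) : ℝ)) ^ 2 =
      ∑ j ∈ range (2 * N), ((ze (2 * N) ζ ((j : ℤ) + d)).re - (ze (2 * N) ζ (j : ℤ)).re) ^ 2 /
          Real.sin (π * d / ((2 * N : ℕ) : ℝ)) ^ 2 -
        ∑ j ∈ range (2 * N), ((ze (2 * N) ζ ((j : ℤ) + d)).im - (ze (2 * N) ζ (j : ℤ)).im) ^ 2 /
          Real.sin (π * d / ((2 * N : ℕ) : ℝ)) ^ 2 := by
    rw [← Finset.sum_sub_distrib]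
    refine Finset.sum_congr rfl fun j _ => ?_
    rw [sub_div]
  rw [e]
  ring

end M_COMPE

open M_COMPE in
theorem m_COMPE : Stmt_COMPE := by
  intro p ζ h N hN
  have hN0 : 0 < N := by omega
  have hn : 10 ≤ 2 * N := by omega
  refine ⟨wz_pts h hn, ?_⟩
  obtain ⟨n, hnd⟩ : ∃ n : ℕ, n = 2 * N := ⟨_, rfl⟩
  have hnR : (10 : ℝ) ≤ ((2 * N : ℕ) : ℝ) := by exact_mod_cast hn
  have hn0 : (0 : ℝ) < ((2 * N : ℕ) : ℝ) := by linarith
  -- the lower bound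
  have h1 : ∑ j ∈ range (2 * N), ∑ d ∈ Ico 1 (2 * N),
      (Real.log (2 * Real.sin (π * d / ((2 * N : ℕ) : ℝ))) + TT1 (2 * N) ζ (j : ℤ) d -
        TT2 (2 * N) ζ (j : ℤ) d / 2 - 27 / ((2 * N : ℕ) : ℝ) ^ 3) ≤ FL (2 * N) (wz (2 * N) ζ) := by
    unfold FL
    refine Finset.sum_le_sum fun j _ => Finset.sum_le_sum fun d hd => ?_
    obtain ⟨h2, h3⟩ := Finset.mem_Ico.1 hd
    exact pair h hn (j : ℤ) h2 h3
  refine le_trans ?_ h1
  have hR : ∀ j : ℤ, (ζ (2 * π * j / ((2 * N : ℕ) : ℝ))) = ze (2 * N) ζ j := fun j => rfl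
  simp only [hR]
  have h4 : ∑ j ∈ range (2 * N), ∑ d ∈ Ico 1 (2 * N),
      (Real.log (2 * Real.sin (π * d / ((2 * N : ℕ) : ℝ))) + TT1 (2 * N) ζ (j : ℤ) d -
        TT2 (2 * N) ζ (j : ℤ) d / 2 - 27 / ((2 * N : ℕ) : ℝ) ^ 3) =
      ((2 * N : ℕ) : ℝ) * Real.log ((2 * N : ℕ) : ℝ) -
        (∑ d ∈ Ico 1 (2 * N), ∑ j ∈ range (2 * N), TT2 (2 * N) ζ (j : ℤ) d) / 2 -
        ((2 * N : ℕ) : ℝ) * (((2 * N : ℕ) : ℝ) - 1) * (27 / ((2 * N : ℕ) : ℝ) ^ 3) := by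
    rw [Finset.sum_comm]
    simp only [Finset.sum_sub_distrib, Finset.sum_add_distrib]
    have e1 : ∑ d ∈ Ico 1 (2 * N), ∑ _j ∈ range (2 * N),
        Real.log (2 * Real.sin (π * d / ((2 * N : ℕ) : ℝ))) =
        ((2 * N : ℕ) : ℝ) * Real.log ((2 * N : ℕ) : ℝ) := by
      simp only [Finset.sum_const, Finset.card_range, nsmul_eq_mul]
      rw [← Finset.mul_sum, M_IDEN.sum_log_sin (2 * N) (by omega)]
    have e2 : ∑ d ∈ Ico 1 (2 * N), ∑ j ∈ range (2 * N), TT1 (2 * N) ζ (j : ℤ) d = 0 :=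
      Finset.sum_eq_zero fun d _ => sum_T1 h hN0 d
    have e3 : ∑ _d ∈ Ico 1 (2 * N), ∑ _j ∈ range (2 * N), 27 / ((2 * N : ℕ) : ℝ) ^ 3 =
        ((2 * N : ℕ) : ℝ) * (((2 * N : ℕ) : ℝ) - 1) * (27 / ((2 * N : ℕ) : ℝ) ^ 3) := by
      simp only [Finset.sum_const, Finset.card_range, nsmul_eq_mul, Nat.card_Ico]
      rw [Nat.cast_sub (by omega)]
      push_cast
      ring
    have e4 : ∑ d ∈ Ico 1 (2 * N), ∑ j ∈ range (2 * N), TT2 (2 * N) ζ (j : ℤ) d / 2 =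
        (∑ d ∈ Ico 1 (2 * N), ∑ j ∈ range (2 * N), TT2 (2 * N) ζ (j : ℤ) d) / 2 := by
      rw [Finset.sum_div]
      refine Finset.sum_congr rfl fun d _ => ?_
      rw [Finset.sum_div]
    rw [e1, e2, e3, e4]
    ring
  rw [h4]
  simp only [sum_T2 h hN0]
  have h5 : ∀ f : ℤ → ℝ, QK (2 * N) f = (∑ d ∈ Ico 1 (2 * N), ∑ j ∈ range (2 * N),
      (f ((j : ℤ) + (d : ℤ)) - f (j : ℤ)) ^ 2 / Real.sin (π * d / ((2 * N : ℕ) : ℝ)) ^ 2) /
        (8 * ((2 * N : ℕ) : ℝ) ^ 2) := by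
    intro f
    unfold QK
    rw [Finset.sum_comm]
  rw [h5, h5]
  unfold mn
  rw [← Finset.mul_sum, Finset.sum_sub_distrib, Finset.sum_sub_distrib]
  simp only [Finset.sum_const, Nat.card_Ico, nsmul_eq_mul]
  rw [Nat.cast_sub (by omega : 1 ≤ 2 * N)]
  set A := ∑ j ∈ range (2 * N), (ze (2 * N) ζ (j : ℤ)).re ^ 2
  set B := ∑ j ∈ range (2 * N), (ze (2 * N) ζ (j : ℤ)).im ^ 2
  set D := ∑ d ∈ Ico 1 (2 * N), ∑ j ∈ range (2 * N),
    ((ze (2 * N) ζ ((j : ℤ) + (d : ℤ))).re - (ze (2 * N) ζ (j : ℤ)).re) ^ 2 /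
      Real.sin (π * d / ((2 * N : ℕ) : ℝ)) ^ 2
  set E := ∑ d ∈ Ico 1 (2 * N), ∑ j ∈ range (2 * N),
    ((ze (2 * N) ζ ((j : ℤ) + (d : ℤ))).im - (ze (2 * N) ζ (j : ℤ)).im) ^ 2 /
      Real.sin (π * d / ((2 * N : ℕ) : ℝ)) ^ 2
  set ν : ℝ := ((2 * N : ℕ) : ℝ)
  have h6 : ν * (ν - 1) * (27 / ν ^ 3) ≤ 27 / ν := by
    rw [mul_div_assoc', div_le_div_iff₀ (by positivity) hn0]
    have : 0 ≤ ν ^ 2 := by positivity
    nlinarith
  have h7 : D / (8 * ν ^ 2) - E / (8 * ν ^ 2) - 1 / 2 * (1 - 1 / ν) * (A / ν - B / ν) =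
      -((1 / (4 * ν ^ 2)) * (((ν - (1 : ℕ)) * (4 * (A - B))) - (D - E))) / 2 := by
    push_cast
    field_simp
    ring
  linarith

end Pool.Agent.EHP
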