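import Pool.Agent.EHP.Stmts2

/-!
# The force on a point is in the cone of its tight directions: `Stmt_CONE`
-/

open Finset
open scoped Real ComplexConjugate

namespace Pool.Agent.EHP

namespace M_CONE

theorem fb_add {n : ℕ} {z : ℤ → ℂ} (hz : ∀ j, z (j + n) = z j) (j : ℤ) :
    fb n z (j + n) = fb n z j := by
  unfold fb
  refine Finset.sum_congr rfl fun d _ => ?_
  have h : j + (n : ℤ) + (d : ℤ) = (j + d) + n := by ring
  rw [h, hz, hz]

theorem perSet (n : ℕ) (v : ℤ) : PerSet n {j : ℤ | (n : ℤ) ∣ j - v} := by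
  intro j
  simp only [Set.mem_ofPred_eq]
  have h : j + (n : ℤ) - v = (j - v) + n := by ring
  rw [h]
  exact dvd_add_self_right

/-- the force on the class of `v` -/
theorem FC_eq (hFC : Stmt_FCSUM) {n : ℕ} (hn : 1 ≤ n) {z : ℤ → ℂ} (hz : ∀ j, z (j + n) = z j)
    (v : ℤ) : FC n z {j : ℤ | (n : ℤ) ∣ j - v} = fb n z v := by
  classical
  rw [hFC n z hz _ (perSet n v)]
  obtain ⟨f, hf⟩ : ∃ f : ℤ → ℂ, f = fun j : ℤ => if (n : ℤ) ∣ j - v then fb n z j else 0 := ⟨_, rfl⟩
  have hper : ∀ j : ℤ, f (j + n) = f j := by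
    intro j
    have h := perSet n v j
    simp only [Set.mem_ofPred_eq] at h
    simp only [hf, h, fb_add hz j]
  have h := sum_shift (n := n) (f := f) hper v
  have h3 : ∑ j ∈ range n, f ((j : ℤ) + v) = fb n z v := by
    rw [Finset.sum_eq_single 0]
    · simp [hf]
    · intro j hj hj0
      have hlt := Finset.mem_range.1 hj
      simp only [hf]
      rw [if_neg]
      intro hdvd
      have h5 : (j : ℤ) + v - v = (j : ℤ) := by ring
      rw [h5] at hdvd
      have h4 : n ∣ j := by exact_mod_cast hdvd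
      exact hj0 (Nat.eq_zero_of_dvd_of_lt h4 hlt)
    · intro h0
      exact absurd (Finset.mem_range.2 (by omega)) h0
  rw [← h3, h]
  refine Finset.sum_congr rfl fun a _ => ?_
  simp only [hf, Set.mem_ofPred_eq]
  by_cases ha : (n : ℤ) ∣ (a : ℤ) - v
  · rw [if_pos ha, if_pos ha]
  · rw [if_neg ha, if_neg ha]

theorem key (hT : Stmt_TLEM) (hFC : Stmt_FCSUM) {n : ℕ} {z : ℤ → ℂ} (hn : 1 ≤ n)
    (ho : Opt n z) (v : ℤ) {b κ σ : ℝ} (hv : z v ≠ 0) (hκ : 0 < κ) (hσ : |σ| = 1)
    (ht : ∀ l, ‖z v - z l‖ = 2 → 0 < ((z v - z l) / z v).re ∧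
      |((z v - z l) / z v).im| ≤ b * ((z v - z l) / z v).re) :
    -(b + κ) * (z v * fb n z v).re - σ * (z v * fb n z v).im ≤ 0 := by
  have h := hT n z ho {j : ℤ | (n : ℤ) ∣ j - v} (perSet n v)
    (z v * (((-(b + κ) : ℝ) : ℂ) + (σ : ℂ) * Complex.I)) (by
    intro a ha l _ hal
    have haz : z a = z v := per_dvd ho.pts.per ha
    rw [haz] at hal ⊢
    obtain ⟨hp, hq⟩ := ht l hal
    set w := (z v - z l) / z v with hw
    have hzw : z v - z l = w * z v := by rw [hw]; field_simp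
    rw [hzw]
    have e1 : conj (z v * (((-(b + κ) : ℝ) : ℂ) + (σ : ℂ) * Complex.I)) * (w * z v) =
        ((Complex.normSq (z v) : ℝ) : ℂ) * ((((-(b + κ) : ℝ) : ℂ) - (σ : ℂ) * Complex.I) * w) := by
      rw [map_mul, map_add, map_mul, Complex.conj_ofReal, Complex.conj_ofReal, Complex.conj_I,
        ← Complex.mul_conj (z v)]
      ring
    rw [e1, Complex.re_ofReal_mul]
    have e2 : ((((-(b + κ) : ℝ) : ℂ) - (σ : ℂ) * Complex.I) * w).re =
        -(b + κ) * w.re + σ * w.im := by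
      simp [Complex.mul_re, Complex.mul_im]
    rw [e2]
    have h3 : σ * w.im ≤ |w.im| := by
      calc σ * w.im ≤ |σ * w.im| := le_abs_self _
        _ = |w.im| := by rw [abs_mul, hσ, one_mul]
    have hns : 0 < Complex.normSq (z v) := Complex.normSq_pos.2 hv
    have h4 : -(b + κ) * w.re + σ * w.im < 0 := by nlinarith
    exact mul_neg_of_pos_of_neg hns h4)
  rw [FC_eq hFC hn ho.pts.per v] at h
  have e3 : z v * (((-(b + κ) : ℝ) : ℂ) + (σ : ℂ) * Complex.I) * fb n z v =
      (((-(b + κ) : ℝ) : ℂ) + (σ : ℂ) * Complex.I) * (z v * fb n z v) := by ring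
  rw [e3] at h
  have e4 : ((((-(b + κ) : ℝ) : ℂ) + (σ : ℂ) * Complex.I) * (z v * fb n z v)).re =
      -(b + κ) * (z v * fb n z v).re - σ * (z v * fb n z v).im := by
    generalize z v * fb n z v = u
    simp [Complex.mul_re, Complex.mul_im]
  rwa [e4] at h

end M_CONE

theorem m_CONE : Stmt_TLEM → Stmt_FCSUM → Stmt_CONE := by
  intro hT hFC n z hn ho v b hv hb ht
  have hk : ∀ κ : ℝ, 0 < κ → |(z v * fb n z v).im| ≤ (b + κ) * (z v * fb n z v).re := by
    intro κ hκ
    have h1 := M_CONE.key hT hFC hn ho v hv hκ (σ := 1) (by simp) ht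
    have h2 := M_CONE.key hT hFC hn ho v hv hκ (σ := -1) (by simp) ht
    rw [abs_le]
    constructor <;> linarith
  set R := (z v * fb n z v).re with hR
  set J := (z v * fb n z v).im with hJ
  have hR0 : 0 ≤ R := by
    have h1 := hk 1 one_pos
    have h2 := (abs_nonneg J).trans h1
    by_contra hneg
    push Not at hneg
    nlinarith
  by_contra hcon
  push Not at hcon
  have hδ : 0 < |J| - b * R := by linarith
  have h1 := hk ((|J| - b * R) / (2 * (R + 1))) (by positivity)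
  have h2 : (|J| - b * R) / (2 * (R + 1)) * R ≤ (|J| - b * R) / 2 := by
    rw [div_mul_eq_mul_div, div_le_div_iff₀ (by positivity) (by norm_num)]
    nlinarith
  nlinarith

end Pool.Agent.EHP
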