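import Pool.Agent.EHP.Stmts6

/-!
# Linearisation of the complex cotangent
-/

open Finset
open scoped Real ComplexConjugate

namespace Pool.Agent.EHP

theorem m_COTL : Stmt_COTL := by
  intro E q hE hE1 hq
  have hD0 : E - 1 ≠ 0 := sub_ne_zero.2 hE1
  have hD : 0 < ‖E - 1‖ := norm_pos_iff.2 hD0
  have hD2 : ‖E - 1‖ ≤ 2 := by
    calc ‖E - 1‖ ≤ ‖E‖ + ‖(1 : ℂ)‖ := norm_sub_le _ _
      _ = 2 := by rw [hE, norm_one]; norm_num
  have hq1 : ‖q‖ ≤ 1 := by linarith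
  have h1 : ‖Complex.exp q - 1‖ ≤ 2 * ‖q‖ := Complex.norm_exp_sub_one_le hq1
  have h2 : ‖Complex.exp q - 1 - q‖ ≤ ‖q‖ ^ 2 := Complex.norm_exp_sub_one_sub_id_le hq1
  have hF : ‖E - 1‖ / 2 ≤ ‖E * Complex.exp q - 1‖ := by
    have e : E - 1 = (E * Complex.exp q - 1) - E * (Complex.exp q - 1) := by ring
    have h3 : ‖E - 1‖ ≤ ‖E * Complex.exp q - 1‖ + ‖E * (Complex.exp q - 1)‖ := by
      conv_lhs => rw [e]
      exact norm_sub_le _ _
    rw [norm_mul, hE, one_mul] at h3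
    linarith
  have hFpos : 0 < ‖E * Complex.exp q - 1‖ := by linarith
  have hF0 : E * Complex.exp q - 1 ≠ 0 := norm_pos_iff.1 hFpos
  have key : (E * Complex.exp q + 1) / (E * Complex.exp q - 1) -
      ((E + 1) / (E - 1) - 2 * E * q / (E - 1) ^ 2) =
      2 * E * (q * E * (Complex.exp q - 1) - (Complex.exp q - 1 - q) * (E - 1)) /
        ((E * Complex.exp q - 1) * (E - 1) ^ 2) := by
    field_simp
    ring
  rw [key, norm_div, norm_mul, norm_mul, norm_mul, norm_pow, hE]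
  have hnum : ‖q * E * (Complex.exp q - 1) - (Complex.exp q - 1 - q) * (E - 1)‖ ≤
      4 * ‖q‖ ^ 2 := by
    calc ‖q * E * (Complex.exp q - 1) - (Complex.exp q - 1 - q) * (E - 1)‖
        ≤ ‖q * E * (Complex.exp q - 1)‖ + ‖(Complex.exp q - 1 - q) * (E - 1)‖ := norm_sub_le _ _
      _ = ‖q‖ * ‖Complex.exp q - 1‖ + ‖Complex.exp q - 1 - q‖ * ‖E - 1‖ := by
        rw [norm_mul, norm_mul, norm_mul, hE, mul_one]
      _ ≤ ‖q‖ * (2 * ‖q‖) + ‖q‖ ^ 2 * 2 := by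
        refine add_le_add (mul_le_mul_of_nonneg_left h1 (norm_nonneg _)) ?_
        exact mul_le_mul h2 hD2 (norm_nonneg _) (by positivity)
      _ = 4 * ‖q‖ ^ 2 := by ring
  have h2n : ‖(2 : ℂ)‖ = 2 := by norm_num
  rw [h2n, div_le_div_iff₀ (by positivity) (by positivity)]
  have hA : ‖q‖ ^ 2 * (‖E - 1‖ / 2 * ‖E - 1‖ ^ 2) ≤
      ‖q‖ ^ 2 * (‖E * Complex.exp q - 1‖ * ‖E - 1‖ ^ 2) := by
    refine mul_le_mul_of_nonneg_left ?_ (by positivity)
    exact mul_le_mul_of_nonneg_right hF (by positivity)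
  have hB : ‖q * E * (Complex.exp q - 1) - (Complex.exp q - 1 - q) * (E - 1)‖ * ‖E - 1‖ ^ 3 ≤
      4 * ‖q‖ ^ 2 * ‖E - 1‖ ^ 3 := mul_le_mul_of_nonneg_right hnum (by positivity)
  nlinarith [hA, hB]

end Pool.Agent.EHP
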