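import Pool.Agent.EHP.Stmts2

/-!
# Module COTRE: real part of the squared complex cotangent
-/

open Finset
open scoped Real ComplexConjugate

namespace Pool.Agent.EHP

namespace MCOTRE

theorem cc_eq {n : ℕ} (c : Cfg n) (i j : ℤ) :
    cc c.z i j = Complex.cosh ((c.Y i j : ℂ) + (c.X i j : ℂ) * Complex.I) /
      Complex.sinh ((c.Y i j : ℂ) + (c.X i j : ℂ) * Complex.I) := by
  set w : ℂ := (c.Y i j : ℂ) + (c.X i j : ℂ) * Complex.I with hw
  set m : ℂ := (((c.ρ i + c.ρ j) / 2 : ℝ) : ℂ) + (((c.θ i + c.θ j) / 2 : ℝ) : ℂ) * Complex.I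
    with hm
  have hi : c.z i = Complex.exp m * Complex.exp w := by
    rw [← Complex.exp_add]
    unfold Cfg.z
    congr 1
    rw [hm, hw]
    unfold Cfg.X Cfg.Y
    push_cast
    ring
  have hj : c.z j = Complex.exp m * Complex.exp (-w) := by
    rw [← Complex.exp_add]
    unfold Cfg.z
    congr 1
    rw [hm, hw]
    unfold Cfg.X Cfg.Y
    push_cast
    ring
  have hm0 : Complex.exp m ≠ 0 := Complex.exp_ne_zero _
  unfold cc
  rw [hi, hj, ← mul_add, ← mul_sub, mul_div_mul_left _ _ hm0]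
  unfold Complex.cosh Complex.sinh
  rw [div_div_div_cancel_right₀ (two_ne_zero)]

theorem cosh_eq' (y x : ℝ) : Complex.cosh ((y : ℂ) + (x : ℂ) * Complex.I) =
    ((Real.cosh y * Real.cos x : ℝ) : ℂ) + ((Real.sinh y * Real.sin x : ℝ) : ℂ) * Complex.I := by
  rw [Complex.cosh_add, Complex.cosh_mul_I, Complex.sinh_mul_I]
  push_cast
  ring

theorem sinh_eq' (y x : ℝ) : Complex.sinh ((y : ℂ) + (x : ℂ) * Complex.I) =
    ((Real.sinh y * Real.cos x : ℝ) : ℂ) + ((Real.cosh y * Real.sin x : ℝ) : ℂ) * Complex.I := by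
  rw [Complex.sinh_add, Complex.cosh_mul_I, Complex.sinh_mul_I]
  push_cast
  ring

theorem quot_eq (y x : ℝ) (hx : Real.sin x ≠ 0) :
    Complex.cosh ((y : ℂ) + (x : ℂ) * Complex.I) / Complex.sinh ((y : ℂ) + (x : ℂ) * Complex.I) =
      (((Real.cosh y * Real.sinh y / (Real.sin x ^ 2 + Real.sinh y ^ 2) : ℝ)) : ℂ) -
      (((Real.sin x * Real.cos x / (Real.sin x ^ 2 + Real.sinh y ^ 2) : ℝ)) : ℂ) * Complex.I := by
  have hS : 0 < Real.sin x ^ 2 := by positivity
  have hN : 0 < Real.sin x ^ 2 + Real.sinh y ^ 2 := by positivity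
  have hN' : ((Real.sin x ^ 2 + Real.sinh y ^ 2 : ℝ) : ℂ) ≠ 0 := by exact_mod_cast hN.ne'
  have e1 := Real.sin_sq_add_cos_sq x
  have e2 := Real.cosh_sq y
  have hD : Complex.sinh ((y : ℂ) + (x : ℂ) * Complex.I) ≠ 0 := by
    rw [sinh_eq']
    intro h0
    have him := congrArg Complex.im h0
    simp only [Complex.add_im, Complex.ofReal_im, Complex.mul_im, Complex.ofReal_re, Complex.I_im,
      Complex.I_re, Complex.zero_im, mul_one, mul_zero, zero_add, add_zero] at him
    have := Real.cosh_pos y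
    rcases mul_eq_zero.1 him with h | h
    · exact this.ne' h
    · exact hx h
  rw [div_eq_iff hD, cosh_eq', sinh_eq']
  apply Complex.ext
  · simp only [Complex.add_re, Complex.sub_re, Complex.ofReal_re, Complex.mul_re, Complex.ofReal_im,
      Complex.I_re, Complex.I_im, Complex.add_im, Complex.sub_im, Complex.mul_im, mul_zero, mul_one,
      sub_zero, add_zero, zero_add, zero_sub]
    field_simp
    nlinarith [e1, e2]
  · simp only [Complex.add_re, Complex.sub_re, Complex.ofReal_re, Complex.mul_re, Complex.ofReal_im,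
      Complex.I_re, Complex.I_im, Complex.add_im, Complex.sub_im, Complex.mul_im, mul_zero, mul_one,
      sub_zero, add_zero, zero_add, zero_sub]
    field_simp
    linear_combination Real.sinh y * e1 - Real.sinh y * e2

end MCOTRE

theorem m_COTRE : Stmt_COTRE := by
  intro n c i j hX
  rw [MCOTRE.cc_eq, MCOTRE.quot_eq _ _ hX]
  set x := c.X i j
  set y := c.Y i j
  have hS : 0 < Real.sin x ^ 2 := by positivity
  have hN : 0 < Real.sin x ^ 2 + Real.sinh y ^ 2 := by positivity
  have e1 := Real.sin_sq_add_cos_sq x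
  have e2 := Real.cosh_sq y
  set S := Real.sin x ^ 2 with hSd
  set q := Real.sinh y ^ 2 with hqd
  have hq : 0 ≤ q := by positivity
  have hre : (-((((Real.cosh y * Real.sinh y / (S + q) : ℝ)) : ℂ) -
      (((Real.sin x * Real.cos x / (S + q) : ℝ)) : ℂ) * Complex.I) ^ 2).re =
      (S * (1 - S) - q * (1 + q)) / (S + q) ^ 2 := by
    simp only [Complex.neg_re, sq, Complex.mul_re, Complex.sub_re, Complex.sub_im,
      Complex.ofReal_re, Complex.ofReal_im, Complex.I_re, Complex.I_im, Complex.mul_im, mul_zero,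
      mul_one, sub_zero, add_zero, zero_sub]
    have hc : Real.cos x ^ 2 = 1 - S := by rw [hSd]; linarith
    have hch : Real.cosh y ^ 2 = 1 + q := by rw [hqd]; linarith
    have : -(Real.cosh y * Real.sinh y / (S + q) * (Real.cosh y * Real.sinh y / (S + q)) -
        -(Real.sin x * Real.cos x / (S + q)) * -(Real.sin x * Real.cos x / (S + q))) =
        (Real.sin x ^ 2 * Real.cos x ^ 2 - Real.sinh y ^ 2 * Real.cosh y ^ 2) /
          ((S + q) * (S + q)) := by
      field_simp
      ring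
    rw [this, hc, hch]
  rw [hre]
  have hcos : Real.cos x ^ 2 = 1 - S := by rw [hSd]; linarith
  have h4 : Real.sin x ^ 4 = S ^ 2 := by rw [hSd]; ring
  rw [hcos, h4]
  have hS1 : S ≤ 1 := by nlinarith [sq_nonneg (Real.cos x)]
  have key : (S * (1 - S) - q * (1 + q)) / (S + q) ^ 2 - ((1 - S) / S - 3 * q / S ^ 2) =
      (q * (S ^ 2 * (2 * S - 3) + 3 * (S + q) ^ 2 - S * q)) / (S ^ 2 * (S + q) ^ 2) := by
    field_simp
    ring
  have hpos : 0 ≤ (q * (S ^ 2 * (2 * S - 3) + 3 * (S + q) ^ 2 - S * q)) /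
      (S ^ 2 * (S + q) ^ 2) := by
    apply div_nonneg
    · apply mul_nonneg hq
      nlinarith [mul_nonneg hS.le hq, pow_pos hS 3, sq_nonneg q]
    · positivity
  linarith

end Pool.Agent.EHP
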