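import Pool.Agent.EHP.Stmts2

/-!
# The cross term
-/

open Finset
open scoped Real ComplexConjugate

namespace Pool.Agent.EHP
namespace MCROSSaux

theorem exp_sum_zero {n : ℕ} (hn : 2 ≤ n) :
    ∑ j ∈ range n, Complex.exp ((2 * π * ((j : ℤ) : ℝ) / n : ℝ) * Complex.I) = 0 := by
  have h := (Complex.isPrimitiveRoot_exp n (by omega)).geom_sum_eq_zero (by omega)
  rw [← h]
  apply Finset.sum_congr rfl
  intro j _
  rw [← Complex.exp_nat_mul]
  congr 1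
  push_cast
  ring

theorem z_eq {n : ℕ} (c : Cfg n) (j : ℤ) :
    c.z j = Complex.exp ((2 * π * (j : ℝ) / n : ℝ) * Complex.I) *
      Complex.exp ((c.ρ j : ℂ) + (c.φ j : ℂ) * Complex.I) := by
  unfold Cfg.z Cfg.φ
  rw [← Complex.exp_add]
  congr 1
  push_cast
  ring

theorem cent_norm {n : ℕ} (hn : 2 ≤ n) {ε : ℝ} (hε : ε ≤ 1 / 2) (c : Cfg n) (hc : Nice n ε c) :
    ‖∑ j ∈ range n, Complex.exp ((2 * π * ((j : ℤ) : ℝ) / n : ℝ) * Complex.I) *
      ((c.ρ j : ℂ) + (c.φ j : ℂ) * Complex.I)‖ ≤ ∑ j ∈ range n, (c.ρ j ^ 2 + c.φ j ^ 2) := by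
  have h1 : ∑ j ∈ range n, Complex.exp ((2 * π * ((j : ℤ) : ℝ) / n : ℝ) * Complex.I) *
      ((c.ρ j : ℂ) + (c.φ j : ℂ) * Complex.I) =
      -∑ j ∈ range n, Complex.exp ((2 * π * ((j : ℤ) : ℝ) / n : ℝ) * Complex.I) *
        (Complex.exp ((c.ρ j : ℂ) + (c.φ j : ℂ) * Complex.I) - 1 -
          ((c.ρ j : ℂ) + (c.φ j : ℂ) * Complex.I)) := by
    have h2 := hc.cent
    have h3 := exp_sum_zero hn
    simp only [z_eq] at h2
    have h4 : ∑ j ∈ range n, Complex.exp ((2 * π * ((j : ℤ) : ℝ) / n : ℝ) * Complex.I) *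
        (Complex.exp ((c.ρ j : ℂ) + (c.φ j : ℂ) * Complex.I) - 1 -
          ((c.ρ j : ℂ) + (c.φ j : ℂ) * Complex.I)) =
        ∑ j ∈ range n, Complex.exp ((2 * π * ((j : ℤ) : ℝ) / n : ℝ) * Complex.I) *
          Complex.exp ((c.ρ j : ℂ) + (c.φ j : ℂ) * Complex.I) -
        ∑ j ∈ range n, Complex.exp ((2 * π * ((j : ℤ) : ℝ) / n : ℝ) * Complex.I) -
        ∑ j ∈ range n, Complex.exp ((2 * π * ((j : ℤ) : ℝ) / n : ℝ) * Complex.I) *
          ((c.ρ j : ℂ) + (c.φ j : ℂ) * Complex.I) := by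
      rw [← Finset.sum_sub_distrib, ← Finset.sum_sub_distrib]
      apply Finset.sum_congr rfl
      intro j _
      ring
    rw [h4, h2, h3]
    ring
  rw [h1, norm_neg]
  refine (norm_sum_le _ _).trans (Finset.sum_le_sum fun j _ => ?_)
  rw [norm_mul, Complex.norm_exp_ofReal_mul_I, one_mul]
  have hr := hc.hρ j
  have hp := hc.hφ j
  have h5 : ‖(c.ρ j : ℂ) + (c.φ j : ℂ) * Complex.I‖ ≤ 1 := by
    refine (norm_add_le _ _).trans ?_
    rw [norm_mul, Complex.norm_I, mul_one, Complex.norm_real, Complex.norm_real,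
      Real.norm_eq_abs, Real.norm_eq_abs]
    linarith
  refine (Complex.norm_exp_sub_one_sub_id_le h5).trans (le_of_eq ?_)
  rw [← Complex.normSq_eq_norm_sq, Complex.normSq_add_mul_I]

theorem cent_bound {n : ℕ} (hn : 2 ≤ n) {ε : ℝ} (hε : ε ≤ 1 / 2) (c : Cfg n) (hc : Nice n ε c) :
    |∑ j ∈ range n, c.ρ j * Real.cos (2 * π * ((j : ℤ) : ℝ) / n) -
      ∑ j ∈ range n, c.φ j * Real.sin (2 * π * ((j : ℤ) : ℝ) / n)| ≤
      ∑ j ∈ range n, (c.ρ j ^ 2 + c.φ j ^ 2) ∧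
    |∑ j ∈ range n, c.ρ j * Real.sin (2 * π * ((j : ℤ) : ℝ) / n) +
      ∑ j ∈ range n, c.φ j * Real.cos (2 * π * ((j : ℤ) : ℝ) / n)| ≤
      ∑ j ∈ range n, (c.ρ j ^ 2 + c.φ j ^ 2) := by
  have h := cent_norm hn hε c hc
  constructor
  · refine le_trans (le_of_eq ?_) ((Complex.abs_re_le_norm _).trans h)
    congr 1
    rw [Complex.re_sum, ← Finset.sum_sub_distrib]
    apply Finset.sum_congr rfl
    intro j _
    rw [Complex.mul_re, Complex.exp_ofReal_mul_I_re, Complex.exp_ofReal_mul_I_im]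
    simp
    ring
  · refine le_trans (le_of_eq ?_) ((Complex.abs_im_le_norm _).trans h)
    congr 1
    rw [Complex.im_sum, ← Finset.sum_add_distrib]
    apply Finset.sum_congr rfl
    intro j _
    rw [Complex.mul_im, Complex.exp_ofReal_mul_I_re, Complex.exp_ofReal_mul_I_im]
    simp
    ring

/-- The real form of the first mode. -/
theorem mode_eq {n : ℕ} (hn : 1 ≤ n) (f : ℤ → ℝ) (j : ℤ) :
    2 * (dr n f 1 * Complex.exp ((2 * π * j / n : ℝ) * Complex.I)).re =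
      2 * ((∑ i ∈ range n, f i * Real.cos (2 * π * ((i : ℤ) : ℝ) / n)) / n *
          Real.cos (2 * π * (j : ℝ) / n) +
        (∑ i ∈ range n, f i * Real.sin (2 * π * ((i : ℤ) : ℝ) / n)) / n *
          Real.sin (2 * π * (j : ℝ) / n)) := by
  have hn0 : (n : ℝ) ≠ 0 := by positivity
  have h1 : (dr n f 1).re = (∑ i ∈ range n, f i * Real.cos (2 * π * ((i : ℤ) : ℝ) / n)) / n := by
    unfold dr dft
    rw [Complex.div_natCast_re, Complex.re_sum]
    congr 1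
    apply Finset.sum_congr rfl
    intro i _
    rw [Complex.re_ofReal_mul]
    rw [show (-((2 * π * ((1 : ℤ) : ℝ) * (i : ℝ) / n : ℝ) : ℂ)) * Complex.I =
        ((-(2 * π * ((i : ℤ) : ℝ) / n) : ℝ) : ℂ) * Complex.I by push_cast; ring,
      Complex.exp_ofReal_mul_I_re, Real.cos_neg]
  have h2 : (dr n f 1).im = -((∑ i ∈ range n, f i * Real.sin (2 * π * ((i : ℤ) : ℝ) / n)) / n) := by
    unfold dr dft
    rw [Complex.div_natCast_im, Complex.im_sum, ← neg_div, ← Finset.sum_neg_distrib]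
    congr 1
    apply Finset.sum_congr rfl
    intro i _
    rw [Complex.im_ofReal_mul]
    rw [show (-((2 * π * ((1 : ℤ) : ℝ) * (i : ℝ) / n : ℝ) : ℂ)) * Complex.I =
        ((-(2 * π * ((i : ℤ) : ℝ) / n) : ℝ) : ℂ) * Complex.I by push_cast; ring,
      Complex.exp_ofReal_mul_I_im, Real.sin_neg]
    ring
  rw [Complex.mul_re, h1, h2, Complex.exp_ofReal_mul_I_re, Complex.exp_ofReal_mul_I_im]
  ring

/-- The cubic identity and its consequence. -/
theorem quad_bound {n : ℕ} (hn : 1 ≤ n) (ψ e : ℤ → ℝ) (h η : ℝ) (hh : 0 < h) (hη : 0 ≤ η)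
    (hψ : ∀ j, ψ (j + n) = ψ j) (g : ℤ → ℝ) (hg : ∀ j, 0 < g j)
    (hge : ∀ j, g j = h + (ψ (j + 1) - ψ j) + e j) (he : ∀ j, |e j| ≤ η * h) :
    ∑ j ∈ range n, g j * ((ψ j + ψ (j + 1)) / 2) ^ 2 ≤ h * (1 + η) * ∑ j ∈ range n, ψ j ^ 2 := by
  have hδ : ∀ j, -(h * (1 + η)) ≤ ψ (j + 1) - ψ j := by
    intro j
    have h1 := hg j
    have h2 := hge j
    have h3 := (abs_le.1 (he j)).2
    nlinarith
  have s3 : ∑ j ∈ range n, ψ ((j : ℤ) + 1) ^ 3 = ∑ j ∈ range n, ψ (j : ℤ) ^ 3 :=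
    sum_shift (f := fun j => ψ j ^ 3) (fun j => by simp only [hψ]) 1
  have s2 : ∑ j ∈ range n, ψ ((j : ℤ) + 1) ^ 2 = ∑ j ∈ range n, ψ (j : ℤ) ^ 2 :=
    sum_shift (f := fun j => ψ j ^ 2) (fun j => by simp only [hψ]) 1
  set P := ∑ j ∈ range n, ψ (j : ℤ) ^ 2 with hP
  set Q := ∑ j ∈ range n, ((ψ (j : ℤ) + ψ ((j : ℤ) + 1)) / 2) ^ 2 with hQ
  set D := ∑ j ∈ range n, (ψ ((j : ℤ) + 1) - ψ (j : ℤ)) ^ 2 with hD
  have hPQ : P - Q = D / 4 := by
    have : Q = (P + P) / 2 - D / 4 := by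
      have h0 : Q = (∑ j ∈ range n, ψ ((j : ℤ) + 1) ^ 2 + ∑ j ∈ range n, ψ (j : ℤ) ^ 2) / 2 -
          D / 4 := by
        rw [hQ, hD, ← Finset.sum_add_distrib, Finset.sum_div, Finset.sum_div,
          ← Finset.sum_sub_distrib]
        apply Finset.sum_congr rfl
        intro j _
        ring
      rw [h0, s2]
    linarith
  have hD0 : 0 ≤ D := Finset.sum_nonneg fun j _ => sq_nonneg _
  have hQ0 : 0 ≤ Q := Finset.sum_nonneg fun j _ => sq_nonneg _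
  -- the middle sum
  have hmid : ∑ j ∈ range n, (ψ ((j : ℤ) + 1) - ψ (j : ℤ)) *
      ((ψ (j : ℤ) + ψ ((j : ℤ) + 1)) / 2) ^ 2 ≤ h * (1 + η) / 12 * D := by
    have e1 : ∑ j ∈ range n, (ψ ((j : ℤ) + 1) - ψ (j : ℤ)) *
        ((ψ (j : ℤ) + ψ ((j : ℤ) + 1)) / 2) ^ 2 =
        (∑ j ∈ range n, ψ ((j : ℤ) + 1) ^ 3 - ∑ j ∈ range n, ψ (j : ℤ) ^ 3) / 3 -
        ∑ j ∈ range n, (ψ ((j : ℤ) + 1) - ψ (j : ℤ)) ^ 3 / 12 := by
      rw [← Finset.sum_sub_distrib, Finset.sum_div, ← Finset.sum_sub_distrib]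
      apply Finset.sum_congr rfl
      intro j _
      ring
    rw [e1, s3, sub_self, zero_div, zero_sub, ← Finset.sum_neg_distrib, hD, Finset.mul_sum]
    apply Finset.sum_le_sum
    intro j _
    have h1 := hδ j
    have h2 : 0 ≤ (ψ ((j : ℤ) + 1) - ψ (j : ℤ)) ^ 2 := sq_nonneg _
    have h3 : 0 ≤ (h * (1 + η) + (ψ ((j : ℤ) + 1) - ψ (j : ℤ))) *
        (ψ ((j : ℤ) + 1) - ψ (j : ℤ)) ^ 2 := mul_nonneg (by linarith) h2
    nlinarith
  have hlast : ∑ j ∈ range n, e (j : ℤ) * ((ψ (j : ℤ) + ψ ((j : ℤ) + 1)) / 2) ^ 2 ≤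
      η * h * Q := by
    rw [hQ, Finset.mul_sum]
    apply Finset.sum_le_sum
    intro j _
    exact mul_le_mul_of_nonneg_right ((le_abs_self _).trans (he j)) (sq_nonneg _)
  have htot : ∑ j ∈ range n, g (j : ℤ) * ((ψ (j : ℤ) + ψ ((j : ℤ) + 1)) / 2) ^ 2 =
      h * Q + ∑ j ∈ range n, (ψ ((j : ℤ) + 1) - ψ (j : ℤ)) *
      ((ψ (j : ℤ) + ψ ((j : ℤ) + 1)) / 2) ^ 2 +
      ∑ j ∈ range n, e (j : ℤ) * ((ψ (j : ℤ) + ψ ((j : ℤ) + 1)) / 2) ^ 2 := by
    rw [hQ, Finset.mul_sum, ← Finset.sum_add_distrib, ← Finset.sum_add_distrib]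
    apply Finset.sum_congr rfl
    intro j _
    rw [hge]
    ring
  rw [htot]
  have h5 : 0 ≤ h * (1 + η) * D := by positivity
  have hP' : P = Q + D / 4 := by linarith
  rw [hP']
  have e9 : h * (1 + η) * (Q + D / 4) = h * Q + η * h * Q + h * (1 + η) * D / 4 := by ring
  rw [e9]
  have e10 : h * (1 + η) / 12 * D = h * (1 + η) * D / 12 := by ring
  rw [e10] at hmid
  linarith

theorem mode_sum {n : ℕ} (hn : 1 ≤ n) (ρ : ℤ → ℝ) (hρ : ∀ j, ρ (j + n) = ρ j) (A B : ℝ) :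
    ∑ j ∈ range n, ((2 * (A * Real.cos (2 * π * ((j : ℤ) : ℝ) / n) +
        B * Real.sin (2 * π * ((j : ℤ) : ℝ) / n)) +
      2 * (A * Real.cos (2 * π * (((j : ℤ) + 1 : ℤ) : ℝ) / n) +
        B * Real.sin (2 * π * (((j : ℤ) + 1 : ℤ) : ℝ) / n))) / 2) * (ρ ((j : ℤ) + 1) - ρ (j : ℤ)) =
      2 * Real.sin (2 * π / n) * (A * ∑ j ∈ range n, ρ j * Real.sin (2 * π * ((j : ℤ) : ℝ) / n) -
        B * ∑ j ∈ range n, ρ j * Real.cos (2 * π * ((j : ℤ) : ℝ) / n)) := by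
  have hn0 : (n : ℝ) ≠ 0 := by positivity
  set p : ℤ → ℝ := fun j => 2 * (A * Real.cos (2 * π * (j : ℝ) / n) +
    B * Real.sin (2 * π * (j : ℝ) / n)) with hp
  have hper : ∀ j, p (j + n) = p j := by
    intro j
    have e : 2 * π * ((j + n : ℤ) : ℝ) / n = 2 * π * (j : ℝ) / n + 2 * π := by
      push_cast; field_simp
    simp only [hp, e, Real.cos_add_two_pi, Real.sin_add_two_pi]
  have s1 : ∑ j ∈ range n, p ((j : ℤ) + 1) * ρ ((j : ℤ) + 1) = ∑ j ∈ range n, p (j : ℤ) * ρ (j : ℤ) :=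
    sum_shift (f := fun j => p j * ρ j) (fun j => by simp only [hper, hρ]) 1
  have s2 : ∑ j ∈ range n, p (((j : ℤ) + 1) - 1) * ρ ((j : ℤ) + 1) =
      ∑ j ∈ range n, p ((j : ℤ) - 1) * ρ (j : ℤ) :=
    sum_shift (f := fun j => p (j - 1) * ρ j) (fun j => by
      have : j + (n : ℤ) - 1 = (j - 1) + n := by ring
      simp only [this, hper, hρ]) 1
  have e1 : ∑ j ∈ range n, ((p (j : ℤ) + p ((j : ℤ) + 1)) / 2) * (ρ ((j : ℤ) + 1) - ρ (j : ℤ)) =
      (∑ j ∈ range n, p (((j : ℤ) + 1) - 1) * ρ ((j : ℤ) + 1) +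
        ∑ j ∈ range n, p ((j : ℤ) + 1) * ρ ((j : ℤ) + 1) - ∑ j ∈ range n, p (j : ℤ) * ρ (j : ℤ) -
        ∑ j ∈ range n, p ((j : ℤ) + 1) * ρ (j : ℤ)) / 2 := by
    rw [← Finset.sum_add_distrib, ← Finset.sum_sub_distrib, ← Finset.sum_sub_distrib,
      Finset.sum_div]
    apply Finset.sum_congr rfl
    intro j _
    rw [add_sub_cancel_right]
    ring
  have e2 : ∑ j ∈ range n, ((p (j : ℤ) + p ((j : ℤ) + 1)) / 2) * (ρ ((j : ℤ) + 1) - ρ (j : ℤ)) =
      ∑ j ∈ range n, (p ((j : ℤ) - 1) - p ((j : ℤ) + 1)) / 2 * ρ (j : ℤ) := by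
    rw [e1, s2, s1, add_sub_cancel_right, ← Finset.sum_sub_distrib, Finset.sum_div]
    apply Finset.sum_congr rfl
    intro j _
    ring
  change ∑ j ∈ range n, ((p (j : ℤ) + p ((j : ℤ) + 1)) / 2) * (ρ ((j : ℤ) + 1) - ρ (j : ℤ)) = _
  rw [e2, Finset.mul_sum, Finset.mul_sum, ← Finset.sum_sub_distrib, Finset.mul_sum]
  apply Finset.sum_congr rfl
  intro j _
  have a1 : 2 * π * (((j : ℤ) - 1 : ℤ) : ℝ) / n = 2 * π * ((j : ℤ) : ℝ) / n - 2 * π / n := by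
    push_cast; ring
  have a2 : 2 * π * (((j : ℤ) + 1 : ℤ) : ℝ) / n = 2 * π * ((j : ℤ) : ℝ) / n + 2 * π / n := by
    push_cast; ring
  simp only [hp, a1, a2, Real.cos_sub, Real.cos_add, Real.sin_sub, Real.sin_add]
  ring

theorem mode_diff (n : ℕ) (hn : 1 ≤ n) (A B ε : ℝ) (hA : |A| ≤ ε) (hB : |B| ≤ ε) (j : ℤ) :
    |2 * (A * Real.cos (2 * π * ((j + 1 : ℤ) : ℝ) / n) +
        B * Real.sin (2 * π * ((j + 1 : ℤ) : ℝ) / n)) -
      2 * (A * Real.cos (2 * π * (j : ℝ) / n) + B * Real.sin (2 * π * (j : ℝ) / n))| ≤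
      (4 * ε) * (2 * π / n) := by
  have hh : 0 ≤ 2 * π / n := by positivity
  have a2 : 2 * π * ((j + 1 : ℤ) : ℝ) / n = 2 * π * (j : ℝ) / n + 2 * π / n := by
    push_cast; ring
  have hc : |Real.cos (2 * π * ((j + 1 : ℤ) : ℝ) / n) - Real.cos (2 * π * (j : ℝ) / n)| ≤
      2 * π / n := by
    have h1 := Real.abs_cos_sub_cos_le (2 * π * ((j + 1 : ℤ) : ℝ) / n) (2 * π * (j : ℝ) / n)
    rw [a2, add_sub_cancel_left, abs_of_nonneg hh] at h1
    rw [a2]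
    exact h1
  have hs : |Real.sin (2 * π * ((j + 1 : ℤ) : ℝ) / n) - Real.sin (2 * π * (j : ℝ) / n)| ≤
      2 * π / n := by
    have h1 := Real.abs_sin_sub_sin_le (2 * π * ((j + 1 : ℤ) : ℝ) / n) (2 * π * (j : ℝ) / n)
    rw [a2, add_sub_cancel_left, abs_of_nonneg hh] at h1
    rw [a2]
    exact h1
  have e : 2 * (A * Real.cos (2 * π * ((j + 1 : ℤ) : ℝ) / n) +
        B * Real.sin (2 * π * ((j + 1 : ℤ) : ℝ) / n)) -
      2 * (A * Real.cos (2 * π * (j : ℝ) / n) + B * Real.sin (2 * π * (j : ℝ) / n)) =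
      2 * (A * (Real.cos (2 * π * ((j + 1 : ℤ) : ℝ) / n) - Real.cos (2 * π * (j : ℝ) / n)) +
        B * (Real.sin (2 * π * ((j + 1 : ℤ) : ℝ) / n) - Real.sin (2 * π * (j : ℝ) / n))) := by
    ring
  rw [e, abs_mul, abs_two]
  have hε : 0 ≤ ε := (abs_nonneg _).trans hA
  have h3 : |A * (Real.cos (2 * π * ((j + 1 : ℤ) : ℝ) / n) - Real.cos (2 * π * (j : ℝ) / n))| ≤
      ε * (2 * π / n) := by
    rw [abs_mul]; exact mul_le_mul hA hc (abs_nonneg _) hε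
  have h4 : |B * (Real.sin (2 * π * ((j + 1 : ℤ) : ℝ) / n) - Real.sin (2 * π * (j : ℝ) / n))| ≤
      ε * (2 * π / n) := by
    rw [abs_mul]; exact mul_le_mul hB hs (abs_nonneg _) hε
  have h5 := abs_add_le
    (A * (Real.cos (2 * π * ((j + 1 : ℤ) : ℝ) / n) - Real.cos (2 * π * (j : ℝ) / n)))
    (B * (Real.sin (2 * π * ((j + 1 : ℤ) : ℝ) / n) - Real.sin (2 * π * (j : ℝ) / n)))
  linarith

end MCROSSaux

open MCROSSaux

theorem m_CROSS : Stmt_CROSS := by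
  intro κ hκ
  refine ⟨min (κ / 32) (1 / 4), by positivity, 2, ?_⟩
  intro n hn c hc
  set ε := min (κ / 32) (1 / 4) with hεd
  have hε0 : 0 < ε := by positivity
  have hε1 : ε ≤ κ / 32 := min_le_left _ _
  have hε2 : ε ≤ 1 / 4 := min_le_right _ _
  have hn1 : 1 ≤ n := by omega
  have hnR : (2 : ℝ) ≤ n := by exact_mod_cast hn
  have hn0 : (0 : ℝ) < n := by linarith
  have hφper := c.φ_add (by omega : 0 < n)
  set SC := ∑ i ∈ range n, c.φ i * Real.cos (2 * π * ((i : ℤ) : ℝ) / n) with hSC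
  set SS := ∑ i ∈ range n, c.φ i * Real.sin (2 * π * ((i : ℤ) : ℝ) / n) with hSS
  set RC := ∑ i ∈ range n, c.ρ i * Real.cos (2 * π * ((i : ℤ) : ℝ) / n) with hRC
  set RS := ∑ i ∈ range n, c.ρ i * Real.sin (2 * π * ((i : ℤ) : ℝ) / n) with hRS
  set T := ∑ j ∈ range n, (c.ρ j ^ 2 + c.φ j ^ 2) with hT
  have hT0 : 0 ≤ T := Finset.sum_nonneg fun j _ => by positivity
  obtain ⟨hc1, hc2⟩ := cent_bound hn (by linarith) c hc
  rw [← hRC, ← hSS, ← hT] at hc1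
  rw [← hRS, ← hSC, ← hT] at hc2
  set A := SC / n with hA
  set B := SS / n with hB
  have bnd : ∀ t : ℤ → ℝ, (∀ j, |t j| ≤ 1) → |(∑ i ∈ range n, c.φ i * t i) / n| ≤ ε := by
    intro t ht
    rw [abs_div, abs_of_pos hn0, div_le_iff₀ hn0]
    refine (Finset.abs_sum_le_sum_abs _ _).trans ?_
    have : ∀ i ∈ range n, |c.φ (i : ℤ) * t (i : ℤ)| ≤ ε := by
      intro i _
      rw [abs_mul]
      calc |c.φ (i : ℤ)| * |t (i : ℤ)| ≤ ε * 1 :=
            mul_le_mul (hc.hφ i) (ht i) (abs_nonneg _) hε0.le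
        _ = ε := mul_one _
    refine (Finset.sum_le_sum this).trans (le_of_eq ?_)
    rw [Finset.sum_const, card_range, nsmul_eq_mul, mul_comm]
  have hAε : |A| ≤ ε := bnd (fun i => Real.cos (2 * π * (i : ℝ) / n))
    (fun i => Real.abs_cos_le_one _)
  have hBε : |B| ≤ ε := bnd (fun i => Real.sin (2 * π * (i : ℝ) / n))
    (fun i => Real.abs_sin_le_one _)
  set p : ℤ → ℝ := fun j => 2 * (A * Real.cos (2 * π * (j : ℝ) / n) +
    B * Real.sin (2 * π * (j : ℝ) / n)) with hp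
  have hψ : ∀ j, ψψ c j = c.φ j - p j := by
    intro j
    unfold ψψ
    rw [mode_eq hn1 c.φ j]
  have hpper : ∀ j, p (j + n) = p j := by
    intro j
    have e : 2 * π * ((j + n : ℤ) : ℝ) / n = 2 * π * (j : ℝ) / n + 2 * π := by
      push_cast; field_simp
    simp only [hp, e, Real.cos_add_two_pi, Real.sin_add_two_pi]
  -- first mode
  have hmode : ∑ j ∈ range n, ((p (j : ℤ) + p ((j : ℤ) + 1)) / 2) * c.Δ (j : ℤ) ≤
      8 * π * ε * (T / n) := by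
    have h1 : ∑ j ∈ range n, ((p (j : ℤ) + p ((j : ℤ) + 1)) / 2) * c.Δ (j : ℤ) =
        2 * Real.sin (2 * π / n) * (A * RS - B * RC) := mode_sum hn1 c.ρ c.ρ_add A B
    rw [h1]
    have hs0 : 0 ≤ Real.sin (2 * π / n) := by
      apply Real.sin_nonneg_of_nonneg_of_le_pi (by positivity)
      rw [div_le_iff₀ hn0]
      nlinarith [Real.pi_pos]
    have hs1 : Real.sin (2 * π / n) ≤ 2 * π / n := Real.sin_le (by positivity)
    have hAn : SC = A * n := by rw [hA]; field_simp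
    have hBn : SS = B * n := by rw [hB]; field_simp
    have h2 : A * RS - B * RC ≤ 2 * ε * T := by
      have e1 : A * RS - B * RC = A * (RS + SC) - B * (RC - SS) - (A ^ 2 + B ^ 2) * n := by
        rw [hAn, hBn]; ring
      have e2 : A * (RS + SC) ≤ ε * T := by
        refine (le_abs_self _).trans ?_
        rw [abs_mul]
        exact mul_le_mul hAε hc2 (abs_nonneg _) hε0.le
      have e3 : -(B * (RC - SS)) ≤ ε * T := by
        refine (neg_le_abs _).trans ?_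
        rw [abs_mul]
        exact mul_le_mul hBε hc1 (abs_nonneg _) hε0.le
      have e4 : 0 ≤ (A ^ 2 + B ^ 2) * n := by positivity
      rw [e1]; linarith
    have h3 : 2 * Real.sin (2 * π / n) * (A * RS - B * RC) ≤
        2 * Real.sin (2 * π / n) * (2 * ε * T) :=
      mul_le_mul_of_nonneg_left h2 (by positivity)
    have h4 : 2 * Real.sin (2 * π / n) * (2 * ε * T) ≤ 2 * (2 * π / n) * (2 * ε * T) := by
      apply mul_le_mul_of_nonneg_right _ (by positivity)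
      linarith
    refine (h3.trans h4).trans (le_of_eq ?_)
    field_simp
    ring
  -- the rest
  have hquad : ∑ j ∈ range n, c.g j * ((ψψ c j + ψψ c (j + 1)) / 2) ^ 2 ≤
      2 * π / n * (1 + 4 * ε) * ∑ j ∈ range n, ψψ c j ^ 2 := by
    apply quad_bound hn1 (ψψ c) (fun j => p (j + 1) - p j) (2 * π / n) (4 * ε) (by positivity)
      (by positivity)
    · intro j
      rw [hψ, hψ, hφper, hpper]
    · exact c.g_pos
    · intro j
      rw [hψ, hψ]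
      unfold Cfg.g Cfg.φ
      push_cast
      field_simp
      ring
    · intro j
      exact mode_diff n hn1 A B ε hAε hBε j
  have hCS : ∑ j ∈ range n, ((ψψ c j + ψψ c (j + 1)) / 2) * c.Δ j ≤
      (1 + κ) * Real.sqrt (c.S * (2 * π * mn n (fun j => ψψ c j ^ 2))) := by
    have h1 := Finset.sum_mul_sq_le_sq_mul_sq (range n)
      (fun j : ℕ => Real.sqrt (c.g j) * ((ψψ c j + ψψ c (j + 1)) / 2))
      (fun j : ℕ => c.Δ j / Real.sqrt (c.g j))
    have e1 : ∑ j ∈ range n, Real.sqrt (c.g j) * ((ψψ c j + ψψ c (j + 1)) / 2) *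
        (c.Δ j / Real.sqrt (c.g j)) = ∑ j ∈ range n, ((ψψ c j + ψψ c (j + 1)) / 2) * c.Δ j := by
      apply Finset.sum_congr rfl
      intro j _
      have : 0 < Real.sqrt (c.g j) := Real.sqrt_pos.2 (c.g_pos j)
      field_simp
    have e2 : ∑ j ∈ range n, (Real.sqrt (c.g j) * ((ψψ c j + ψψ c (j + 1)) / 2)) ^ 2 =
        ∑ j ∈ range n, c.g j * ((ψψ c j + ψψ c (j + 1)) / 2) ^ 2 := by
      apply Finset.sum_congr rfl
      intro j _
      rw [mul_pow, Real.sq_sqrt (c.g_pos j).le]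
    have e3 : ∑ j ∈ range n, (c.Δ j / Real.sqrt (c.g j)) ^ 2 = c.S := by
      unfold Cfg.S
      apply Finset.sum_congr rfl
      intro j _
      rw [div_pow, Real.sq_sqrt (c.g_pos j).le]
    rw [e1, e2, e3] at h1
    have hS0 : 0 ≤ c.S := by
      unfold Cfg.S
      exact Finset.sum_nonneg fun j _ => div_nonneg (sq_nonneg _) (c.g_pos j).le
    have hm0 : 0 ≤ mn n (fun j => ψψ c j ^ 2) := by
      unfold mn
      exact div_nonneg (Finset.sum_nonneg fun j _ => sq_nonneg _) hn0.le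
    have e4 : 2 * π / n * (1 + 4 * ε) * ∑ j ∈ range n, ψψ c j ^ 2 =
        (1 + 4 * ε) * (2 * π * mn n (fun j => ψψ c j ^ 2)) := by
      unfold mn
      field_simp
    rw [e4] at hquad
    have h2 : (∑ j ∈ range n, ((ψψ c j + ψψ c (j + 1)) / 2) * c.Δ j) ^ 2 ≤
        ((1 + κ) * Real.sqrt (c.S * (2 * π * mn n (fun j => ψψ c j ^ 2)))) ^ 2 := by
      rw [mul_pow, Real.sq_sqrt (by positivity)]
      refine h1.trans ((mul_le_mul_of_nonneg_right hquad hS0).trans ?_)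
      have h3 : 1 + 4 * ε ≤ (1 + κ) ^ 2 := by nlinarith
      have h4 : 0 ≤ c.S * (2 * π * mn n (fun j => ψψ c j ^ 2)) := by positivity
      nlinarith
    exact le_of_sq_le_sq h2 (by positivity)
  have hsplit : ∑ j ∈ range n, c.φm (j : ℤ) * c.Δ (j : ℤ) =
      ∑ j ∈ range n, ((ψψ c j + ψψ c (j + 1)) / 2) * c.Δ j +
      ∑ j ∈ range n, ((p (j : ℤ) + p ((j : ℤ) + 1)) / 2) * c.Δ (j : ℤ) := by
    rw [← Finset.sum_add_distrib]
    apply Finset.sum_congr rfl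
    intro j _
    rw [hψ, hψ]
    unfold Cfg.φm
    ring
  have hlast : 8 * π * ε * (T / n) ≤ κ * (mn n (fun j => c.ρ j ^ 2) + mn n (fun j => c.φ j ^ 2)) := by
    have e1 : mn n (fun j => c.ρ j ^ 2) + mn n (fun j => c.φ j ^ 2) = T / n := by
      unfold mn
      rw [← add_div, hT, ← Finset.sum_add_distrib]
    rw [e1]
    apply mul_le_mul_of_nonneg_right _ (by positivity)
    have : π ≤ 4 := Real.pi_le_four
    nlinarith
  rw [hsplit]
  linarith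

end Pool.Agent.EHP
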