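import Pool.Agent.EHP.Stmts4

/-!
# The kernel sum: `Stmt_CSCSUM`
-/

open Finset
open scoped Real ComplexConjugate

namespace Pool.Agent.EHP

namespace M_CSCSUM

theorem sum_cos {n k : ℕ} (h0 : 0 < k) (h1 : k < n) :
    ∑ d ∈ range n, Real.cos (2 * π * k * d / n) = 0 := by
  have hn : (n : ℂ) ≠ 0 := by
    have : n ≠ 0 := by omega
    exact_mod_cast this
  obtain ⟨ζ, hζ⟩ : ∃ ζ : ℂ, ζ = Complex.exp (2 * π * k / n * Complex.I) := ⟨_, rfl⟩
  have hne : ζ ≠ 1 := by
    rw [hζ, Ne, Complex.exp_eq_one_iff]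
    rintro ⟨m, hm⟩
    have h2 : (k : ℂ) = m * n := by
      have h3 : (2 * π * Complex.I : ℂ) ≠ 0 := by
        have := Real.pi_ne_zero
        simp [Complex.I_ne_zero, this]
      field_simp at hm
      apply mul_left_cancel₀ h3
      linear_combination (2 * π * Complex.I : ℂ) * hm
    have h4 : (k : ℤ) = m * n := by exact_mod_cast h2
    have h5 : (n : ℤ) ∣ k := ⟨m, by rw [h4]; ring⟩
    have h6 := Int.le_of_dvd (by omega) h5
    omega
  have hpow : ζ ^ n = 1 := by
    rw [hζ, ← Complex.exp_nat_mul]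
    have : (n : ℂ) * (2 * π * k / n * Complex.I) = k * (2 * π * Complex.I) := by
      field_simp
    rw [this]
    exact Complex.exp_nat_mul_two_pi_mul_I k
  have hsum : ∑ d ∈ range n, ζ ^ d = 0 := by
    have := geom_sum_mul ζ n
    rw [hpow, sub_self] at this
    exact (mul_eq_zero.1 this).resolve_right (sub_ne_zero.2 hne)
  have hre := congrArg Complex.re hsum
  rw [Complex.re_sum, Complex.zero_re] at hre
  rw [← hre]
  apply Finset.sum_congr rfl
  intro d _
  rw [hζ, ← Complex.exp_nat_mul]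
  have : (d : ℂ) * (2 * π * k / n * Complex.I) = ((2 * π * k * d / n : ℝ) : ℂ) * Complex.I := by
    push_cast
    ring
  rw [this, Complex.exp_ofReal_mul_I_re]

theorem sum_cos' {n k : ℕ} (h0 : 0 < k) (h1 : k < n) :
    ∑ d ∈ Ico 1 n, Real.cos (2 * π * k * d / n) = -1 := by
  have h := sum_cos h0 h1
  rw [Finset.range_eq_Ico, Finset.sum_eq_sum_Ico_succ_bot (by omega)] at h
  simp only [Nat.cast_zero, mul_zero, zero_div, Real.cos_zero, zero_add] at h
  linarith

theorem second_diff {n k : ℕ} (h0 : 0 < k) (h1 : k < n) :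
    ∑ d ∈ Ico 1 n, (1 - Real.cos (2 * π * ((k + 1 : ℕ) : ℝ) * d / n)) / Real.sin (π * d / n) ^ 2 +
      ∑ d ∈ Ico 1 n, (1 - Real.cos (2 * π * ((k - 1 : ℕ) : ℝ) * d / n)) /
        Real.sin (π * d / n) ^ 2 =
      2 * ∑ d ∈ Ico 1 n, (1 - Real.cos (2 * π * k * d / n)) / Real.sin (π * d / n) ^ 2 - 4 := by
  have h := sum_cos' h0 h1
  have e : ∑ d ∈ Ico 1 n, 4 * Real.cos (2 * π * k * d / n) = -4 := by
    rw [← Finset.mul_sum, h]; norm_num
  rw [← Finset.sum_add_distrib, Finset.mul_sum, sub_eq_add_neg, ← e, ← Finset.sum_add_distrib]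
  apply Finset.sum_congr rfl
  intro d hd
  obtain ⟨hd1, hd2⟩ := Finset.mem_Ico.1 hd
  have hn0 : (0 : ℝ) < n := by
    have : 0 < n := by omega
    exact_mod_cast this
  have hd1' : (0 : ℝ) < d := by exact_mod_cast hd1
  have hd2' : (d : ℝ) < n := by exact_mod_cast hd2
  have hs : 0 < Real.sin (π * d / n) := by
    apply Real.sin_pos_of_pos_of_lt_pi
    · have := Real.pi_pos
      positivity
    · rw [div_lt_iff₀ hn0]
      exact mul_lt_mul_of_pos_left hd2' Real.pi_pos
  have e1 : 2 * π * ((k + 1 : ℕ) : ℝ) * d / n = 2 * π * k * d / n + 2 * (π * d / n) := by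
    push_cast
    ring
  have e2 : 2 * π * ((k - 1 : ℕ) : ℝ) * d / n = 2 * π * k * d / n - 2 * (π * d / n) := by
    rw [Nat.cast_sub (by omega)]
    push_cast
    ring
  rw [e1, e2, Real.cos_add, Real.cos_sub, Real.cos_two_mul]
  have h3 := Real.sin_sq_add_cos_sq (π * d / n)
  field_simp
  linear_combination (-4 * Real.cos (2 * π * k * d / n)) * h3

end M_CSCSUM

open M_CSCSUM in
theorem m_CSCSUM : Stmt_CSCSUM := by
  intro n k hn hk
  have hn0 : (0 : ℝ) < n := by exact_mod_cast hn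
  obtain ⟨f, hf⟩ : ∃ f : ℕ → ℝ, ∀ k, f k = ∑ d ∈ Ico 1 n, (1 - Real.cos (2 * π * k * d / n)) /
      Real.sin (π * d / n) ^ 2 := ⟨_, fun _ => rfl⟩
  rw [← hf]
  have f0 : f 0 = 0 := by
    rw [hf]
    apply Finset.sum_eq_zero
    intro d _
    simp
  have fn : f n = 0 := by
    rw [hf]
    apply Finset.sum_eq_zero
    intro d _
    have : 2 * π * (n : ℝ) * d / n = d * (2 * π) := by field_simp
    rw [this, Real.cos_nat_mul_two_pi]
    simp
  have hrec : ∀ k : ℕ, k + 1 < n → f (k + 2) = 2 * f (k + 1) - f k - 4 := by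
    intro k hk
    have := second_diff (n := n) (k := k + 1) (by omega) hk
    rw [← hf, ← hf, ← hf] at this
    simp only [Nat.add_sub_cancel] at this
    linarith
  have hlin : ∀ k : ℕ, k ≤ n → f k = k * (f 1 + 2) - 2 * k ^ 2 ∧
      (k + 1 ≤ n → f (k + 1) = ((k + 1 : ℕ) : ℝ) * (f 1 + 2) - 2 * ((k + 1 : ℕ) : ℝ) ^ 2) := by
    intro k
    induction k with
    | zero =>
      intro _
      refine ⟨by rw [f0]; simp, fun _ => ?_⟩
      push_cast
      ring
    | succ k ih =>
      intro hk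
      obtain ⟨i1, i2⟩ := ih (by omega)
      refine ⟨i2 hk, fun hk2 => ?_⟩
      have h1 := hrec k (by omega)
      have h2 := i2 hk
      have e : f (k + 1 + 1) = f (k + 2) := rfl
      rw [e, h1, h2, i1]
      push_cast
      ring
  have hn1 := (hlin n le_rfl).1
  rw [fn] at hn1
  have h1 : f 1 + 2 = 2 * n := by
    have h2 : (n : ℝ) * (f 1 + 2) = n * (2 * n) := by linarith
    exact mul_left_cancel₀ hn0.ne' h2
  rw [(hlin k hk).1, h1]
  ring

end Pool.Agent.EHP
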