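import Pool.Agent.EHP.Stmts2

/-!
# The cubic term
-/

open Finset
open scoped Real ComplexConjugate

namespace Pool.Agent.EHP

theorem cube_nice_mono {n : ℕ} {ε ε' : ℝ} {c : Cfg n} (h : Nice n ε c) (hε : ε ≤ ε') :
    Nice n ε' c where
  opt := h.opt
  cent := h.cent
  rot := h.rot
  hρ := fun j => (h.hρ j).trans hε
  hφ := fun j => (h.hφ j).trans hε
  slope := fun i j => (h.slope i j).trans (mul_le_mul_of_nonneg_right hε (abs_nonneg _))

theorem cube_y_le {n : ℕ} {ε : ℝ} {c : Cfg n} (hn : 0 < n) (h : Nice n ε c) (j : ℤ) :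
    c.y j ≤ n * ε / π := by
  have hn' : (0 : ℝ) < n := by exact_mod_cast hn
  have hpi := Real.pi_pos
  have h1 := (abs_le.1 (h.hφ j)).1
  have h2 := (abs_le.1 (h.hφ (j + 1))).2
  have hg : c.g j = c.φ (j + 1) - c.φ j + 2 * π / n := by
    unfold Cfg.g Cfg.φ
    push_cast
    field_simp
    ring
  have hy : c.y j = (c.φ (j + 1) - c.φ j) * n / (2 * π) := by
    unfold Cfg.y
    rw [hg]
    field_simp
    ring
  rw [hy, div_le_div_iff₀ (by positivity) hpi]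
  have h3 : c.φ (j + 1) - c.φ j ≤ 2 * ε := by linarith
  have h4 : (c.φ (j + 1) - c.φ j) * (n * π) ≤ 2 * ε * (n * π) :=
    mul_le_mul_of_nonneg_right h3 (by positivity)
  nlinarith [h4]

theorem m_CUBE : Stmt_BIGGAP → Stmt_CUBE := by
  rintro ⟨ε₀, hε₀, n₀, hB⟩
  refine ⟨216 * π ^ 3, fun κ hκ => ?_⟩
  have hpi := Real.pi_pos
  refine ⟨min ε₀ (κ / (1080 * π ^ 2)), lt_min hε₀ (by positivity), max n₀ 1, ?_⟩
  intro n hn c hc
  have hn0 : n₀ ≤ n := (le_max_left _ _).trans hn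
  have hn1 : 0 < n := lt_of_lt_of_le Nat.one_pos ((le_max_right _ _).trans hn)
  have hn' : (0 : ℝ) < n := by exact_mod_cast hn1
  have hc0 := cube_nice_mono hc (min_le_left _ _)
  have hb := hB n hn0 c hc0
  set ε := min ε₀ (κ / (1080 * π ^ 2)) with hεdef
  have hεpos : 0 < ε := lt_min hε₀ (by positivity)
  have hεle : ε ≤ κ / (1080 * π ^ 2) := min_le_right _ _
  set Q := ∑ j ∈ range n, (if 2 ≤ c.y (j : ℤ) then c.y (j : ℤ) ^ 2 else 0) with hQ
  have hQ0 : 0 ≤ Q := by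
    apply Finset.sum_nonneg
    intro j _
    split_ifs
    · positivity
    · exact le_rfl
  have hE : 0 ≤ Eφ c := by linarith
  have hterm : ∀ j ∈ range n, (1 + c.y (j : ℤ)) ^ 3 ≤
      27 + 27 / 8 * (n * ε / π) * (if 2 ≤ c.y (j : ℤ) then c.y (j : ℤ) ^ 2 else 0) := by
    intro j _
    have h1 := c.y_gt hn1 (j : ℤ)
    have h2 := cube_y_le hn1 hc (j : ℤ)
    set y := c.y (j : ℤ)
    split_ifs with hy
    · have h3 : (1 + y) ^ 3 ≤ (3 / 2 * y) ^ 3 :=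
        pow_le_pow_left₀ (by linarith) (by linarith) 3
      have h4 : y ^ 2 * y ≤ y ^ 2 * (n * ε / π) := mul_le_mul_of_nonneg_left h2 (by positivity)
      nlinarith [h3, h4]
    · have hy' : y < 2 := lt_of_not_ge hy
      have h3 : (1 + y) ^ 3 ≤ 3 ^ 3 := pow_le_pow_left₀ (by linarith) (by linarith) 3
      have : (3 : ℝ) ^ 3 = 27 := by norm_num
      linarith
  have hsum := Finset.sum_le_sum hterm
  rw [Finset.sum_add_distrib, ← Finset.mul_sum, ← hQ] at hsum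
  simp only [Finset.sum_const, Finset.card_range, nsmul_eq_mul] at hsum
  have hg3 : (n : ℝ) ^ 2 * ∑ j ∈ range n, c.g (j : ℤ) ^ 3 =
      8 * π ^ 3 / n * ∑ j ∈ range n, (1 + c.y (j : ℤ)) ^ 3 := by
    rw [Finset.mul_sum, Finset.mul_sum]
    apply Finset.sum_congr rfl
    intro j _
    rw [c.g_eq hn1 (j : ℤ)]
    field_simp
    ring
  rw [hg3]
  have h5 : 8 * π ^ 3 / n * ∑ j ∈ range n, (1 + c.y (j : ℤ)) ^ 3 ≤
      8 * π ^ 3 / n * (n * 27 + 27 / 8 * (n * ε / π) * Q) :=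
    mul_le_mul_of_nonneg_left hsum (by positivity)
  have h6 : 8 * π ^ 3 / n * (n * 27 + 27 / 8 * (n * ε / π) * Q) =
      216 * π ^ 3 + 27 * π ^ 2 * ε * Q := by
    field_simp
    ring
  have h7 : 27 * π ^ 2 * ε * Q ≤ 27 * π ^ 2 * ε * (40 * Eφ c) :=
    mul_le_mul_of_nonneg_left hb (by positivity)
  have h8 : ε * (1080 * π ^ 2) ≤ κ := by
    rwa [le_div_iff₀ (by positivity)] at hεle
  have h9 : ε * (1080 * π ^ 2) * Eφ c ≤ κ * Eφ c := mul_le_mul_of_nonneg_right h8 hE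
  calc 8 * π ^ 3 / n * ∑ j ∈ range n, (1 + c.y (j : ℤ)) ^ 3
      ≤ 216 * π ^ 3 + 27 * π ^ 2 * ε * Q := by rw [← h6]; exact h5
    _ ≤ 216 * π ^ 3 + 27 * π ^ 2 * ε * (40 * Eφ c) := by linarith
    _ = 216 * π ^ 3 + ε * (1080 * π ^ 2) * Eφ c := by ring
    _ ≤ 216 * π ^ 3 + κ * Eφ c := by linarith

end Pool.Agent.EHP
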