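import Pool.Agent.EHP.Stmts1

/-!
# Module CUT: the diameter graph of a maximizer is connected
-/

set_option autoImplicit false

open Finset Filter Topology
open scoped Real ComplexConjugate

namespace Pool.Agent.EHP

namespace MCUT

variable {n : ℕ} {z : ℤ → ℂ} {C : Set ℤ}

open Classical in
/-- The family with `C` translated by `τ`. -/
noncomputable def wt (z : ℤ → ℂ) (C : Set ℤ) (τ : ℂ) (j : ℤ) : ℂ :=
  if j ∈ C then z j + τ else z j

open Classical in
/-- The terms of the mixed pairs. -/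
noncomputable def Fm (z : ℤ → ℂ) (C : Set ℤ) (τ : ℂ) (i j : ℤ) : ℝ :=
  if i ∈ C ∧ j ∉ C then Real.log ‖z i - z j + τ‖ else 0

open Classical in
/-- The terms of the other pairs. -/
noncomputable def Fs (z : ℤ → ℂ) (C : Set ℤ) (i j : ℤ) : ℝ :=
  if (i ∈ C ↔ j ∈ C) then Real.log ‖z i - z j‖ else 0

open Classical in
/-- The polynomial. -/
noncomputable def Pl (n : ℕ) (z : ℤ → ℂ) (C : Set ℤ) : Polynomial ℂ :=
  ∏ j ∈ range n, ∏ d ∈ Ico 1 n,
    if (j : ℤ) ∈ C ∧ (j : ℤ) + (d : ℤ) ∉ C then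
      Polynomial.X + Polynomial.C (z (j : ℤ) - z ((j : ℤ) + (d : ℤ))) else 1

theorem perz (hp : Pts n z) : ∀ j, z (j + n) = z j := hp.per

theorem perC (hC : PerSet n C) : ∀ j : ℤ, (j + (n : ℤ) ∈ C) = (j ∈ C) := fun j => propext (hC j)

theorem mem_mod (hC : PerSet n C) (j : ℤ) : j % n ∈ C ↔ j ∈ C := by
  have h := per_mod (f := fun i => (i ∈ C)) (perC hC) j
  exact iff_of_eq h

open Classical in
theorem term (τ : ℂ) (i j : ℤ) : Real.log ‖wt z C τ i - wt z C τ j‖ =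
    Fs z C i j + (Fm z C τ i j + Fm z C τ j i) := by
  unfold wt Fs Fm
  by_cases hi : i ∈ C <;> by_cases hj : j ∈ C
  · simp [hi, hj]
  · have e : z i + τ - z j = z i - z j + τ := by ring
    simp [hi, hj, e]
  · have e : ‖z i - (z j + τ)‖ = ‖z j - z i + τ‖ := by
      rw [← norm_neg]
      congr 1
      ring
    simp [hi, hj, e]
  · simp [hi, hj]

theorem Fm_add_left (hp : Pts n z) (hC : PerSet n C) (τ : ℂ) (i j : ℤ) :
    Fm z C τ (i + n) j = Fm z C τ i j := by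
  unfold Fm
  rw [hp.per, perC hC]

theorem Fm_add_right (hp : Pts n z) (hC : PerSet n C) (τ : ℂ) (i j : ℤ) :
    Fm z C τ i (j + n) = Fm z C τ i j := by
  unfold Fm
  rw [hp.per, perC hC]

theorem FL_wt (hp : Pts n z) (hC : PerSet n C) (τ : ℂ) : FL n (wt z C τ) =
    (∑ j ∈ range n, ∑ d ∈ Ico 1 n, Fs z C ((j : ℤ) + (d : ℤ)) (j : ℤ)) +
      2 * ∑ j ∈ range n, ∑ d ∈ Ico 1 n, Fm z C τ (j : ℤ) ((j : ℤ) + (d : ℤ)) := by
  unfold FL
  simp only [term, sum_add_distrib]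
  rw [sum_swap (F := Fm z C τ) (Fm_add_left hp hC τ) (Fm_add_right hp hC τ)]
  ring

open Classical in
theorem eval_Pl (τ : ℂ) : (Pl n z C).eval τ = ∏ j ∈ range n, ∏ d ∈ Ico 1 n,
    if (j : ℤ) ∈ C ∧ (j : ℤ) + (d : ℤ) ∉ C then z (j : ℤ) - z ((j : ℤ) + (d : ℤ)) + τ else 1 := by
  unfold Pl
  rw [Polynomial.eval_prod]
  refine prod_congr rfl fun j _ => ?_
  rw [Polynomial.eval_prod]
  refine prod_congr rfl fun d _ => ?_
  split_ifs
  · rw [Polynomial.eval_add, Polynomial.eval_X, Polynomial.eval_C, add_comm]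
  · rw [Polynomial.eval_one]

open Classical in
theorem eval_ne (τ : ℂ) (h : ∀ a ∈ C, ∀ b ∉ C, z a - z b + τ ≠ 0) :
    (Pl n z C).eval τ ≠ 0 := by
  rw [eval_Pl]
  refine prod_ne_zero_iff.2 fun j _ => prod_ne_zero_iff.2 fun d _ => ?_
  split_ifs with hc
  · exact h _ hc.1 _ hc.2
  · exact one_ne_zero

open Classical in
theorem log_Pl (τ : ℂ) (h : ∀ a ∈ C, ∀ b ∉ C, z a - z b + τ ≠ 0) :
    Real.log ‖(Pl n z C).eval τ‖ =
      ∑ j ∈ range n, ∑ d ∈ Ico 1 n, Fm z C τ (j : ℤ) ((j : ℤ) + (d : ℤ)) := by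
  rw [eval_Pl, norm_prod, Real.log_prod]
  · refine sum_congr rfl fun j _ => ?_
    rw [norm_prod, Real.log_prod]
    · refine sum_congr rfl fun d _ => ?_
      unfold Fm
      split_ifs
      · rfl
      · rw [norm_one, Real.log_one]
    · intro d _
      rw [norm_ne_zero_iff]
      split_ifs with hc
      · exact h _ hc.1 _ hc.2
      · exact one_ne_zero
  · intro j _
    rw [norm_ne_zero_iff]
    refine prod_ne_zero_iff.2 fun d _ => ?_
    split_ifs with hc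
    · exact h _ hc.1 _ hc.2
    · exact one_ne_zero

theorem wt_pts (hp : Pts n z) (hC : PerSet n C) (τ : ℂ) (h : ∀ a ∈ C, ∀ b ∉ C, z a - z b + τ ≠ 0) :
    Pts n (wt z C τ) := by
  classical
  refine ⟨fun j => ?_, fun i j hij => ?_⟩
  · unfold wt
    rw [hp.per, perC hC]
  · unfold wt at hij
    by_cases hi : i ∈ C <;> by_cases hj : j ∈ C
    · rw [if_pos hi, if_pos hj] at hij
      exact hp.inj i j (add_right_cancel hij)
    · rw [if_pos hi, if_neg hj] at hij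
      exact absurd (by rw [← hij]; ring) (h i hi j hj)
    · rw [if_neg hi, if_pos hj] at hij
      exact absurd (by rw [hij]; ring) (h j hj i hi)
    · rw [if_neg hi, if_neg hj] at hij
      exact hp.inj i j hij

theorem wt_adm (ha : ∀ i j : ℤ, ‖z i - z j‖ ≤ 2) (τ : ℂ)
    (h : ∀ a ∈ C, ∀ b ∉ C, ‖z a - z b + τ‖ ≤ 2) :
    ∀ i j : ℤ, ‖wt z C τ i - wt z C τ j‖ ≤ 2 := by
  classical
  intro i j
  unfold wt
  by_cases hi : i ∈ C <;> by_cases hj : j ∈ C
  · rw [if_pos hi, if_pos hj, add_sub_add_right_eq_sub]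
    exact ha i j
  · rw [if_pos hi, if_neg hj]
    have e : z i + τ - z j = z i - z j + τ := by ring
    rw [e]
    exact h i hi j hj
  · rw [if_neg hi, if_pos hj]
    have e : ‖z i - (z j + τ)‖ = ‖z j - z i + τ‖ := by
      rw [← norm_neg]
      congr 1
      ring
    rw [e]
    exact h j hj i hi
  · rw [if_neg hi, if_neg hj]
    exact ha i j

/-- Small translations are admissible. -/
theorem small (hn : 1 ≤ n) (hp : Pts n z) (hC : PerSet n C)
    (hlt : ∀ a ∈ C, ∀ b ∉ C, ‖z a - z b‖ < 2) :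
    ∀ᶠ τ in 𝓝 (0 : ℂ), ∀ a ∈ C, ∀ b ∉ C, z a - z b + τ ≠ 0 ∧ ‖z a - z b + τ‖ ≤ 2 := by
  classical
  have h1 : ∀ᶠ τ in 𝓝 (0 : ℂ), ∀ a ∈ range n, ∀ b ∈ range n, (a : ℤ) ∈ C → (b : ℤ) ∉ C →
      z a - z b + τ ≠ 0 ∧ ‖z a - z b + τ‖ ≤ 2 := by
    rw [eventually_all_finset]
    intro a _
    rw [eventually_all_finset]
    intro b _
    by_cases hac : (a : ℤ) ∈ C
    · by_cases hbc : (b : ℤ) ∈ C
      · exact Eventually.of_forall fun τ _ h => absurd hbc h
      · have hne : z a - z b + 0 ≠ 0 := by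
          rw [add_zero, sub_ne_zero]
          intro he
          obtain ⟨m, hm⟩ := hp.inj _ _ he
          have h2 := per_dvd (f := fun i => (i ∈ C)) (perC hC) (i := (a : ℤ)) (j := (b : ℤ)) ⟨m, hm⟩
          exact hbc (h2 ▸ hac)
        have hlt' : ‖z a - z b + 0‖ < 2 := by
          rw [add_zero]
          exact hlt _ hac _ hbc
        have hc : ContinuousAt (fun τ : ℂ => z a - z b + τ) 0 := by fun_prop
        have hc' : ContinuousAt (fun τ : ℂ => ‖z a - z b + τ‖) 0 := by fun_prop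
        filter_upwards [hc.eventually_ne hne, hc'.eventually_lt continuousAt_const hlt']
          with τ h3 h4 _ _
        exact ⟨h3, h4.le⟩
    · exact Eventually.of_forall fun τ h => absurd h hac
  filter_upwards [h1] with τ hτ a ha b hb
  have hn' : (0 : ℤ) < n := by exact_mod_cast hn
  have key : ∀ i : ℤ, ∃ k ∈ range n, ((k : ℤ) ∈ C ↔ i ∈ C) ∧ z k = z i := by
    intro i
    have h2 := Int.emod_nonneg i hn'.ne'
    have h3 := Int.emod_lt_of_pos i hn'
    refine ⟨(i % n).toNat, ?_, ?_, ?_⟩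
    · rw [mem_range]
      omega
    · rw [Int.toNat_of_nonneg h2]
      exact mem_mod hC i
    · rw [Int.toNat_of_nonneg h2]
      exact per_mod hp.per i
  obtain ⟨k, hk, hkC, hkz⟩ := key a
  obtain ⟨l, hl, hlC, hlz⟩ := key b
  have h4 := hτ k hk l hl (hkC.2 ha) (fun h => hb (hlC.1 h))
  rw [hkz, hlz] at h4
  exact h4

end MCUT

open MCUT in
theorem m_CUT : Stmt_CUT := by
  classical
  intro n z hn ho C hC ⟨a₀, ha₀⟩ ⟨b₀, hb₀⟩
  by_contra hcon
  push Not at hcon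
  have hlt : ∀ a ∈ C, ∀ b ∉ C, ‖z a - z b‖ < 2 := fun a ha b hb =>
    lt_of_le_of_ne (ho.adm a b) (hcon a ha b hb)
  have hev := small hn ho.pts hC hlt
  have h0 := hev.self_of_nhds
  have hz0 : wt z C 0 = z := by
    funext j
    unfold wt
    split_ifs
    · rw [add_zero]
    · rfl
  have hmax : IsLocalMax (norm ∘ fun τ => (Pl n z C).eval τ) 0 := by
    filter_upwards [hev] with τ hτ
    have h1 : ∀ a ∈ C, ∀ b ∉ C, z a - z b + τ ≠ 0 := fun a ha b hb => (hτ a ha b hb).1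
    have h1' : ∀ a ∈ C, ∀ b ∉ C, z a - z b + 0 ≠ 0 := fun a ha b hb => (h0 a ha b hb).1
    have h2 := ho.max (wt z C τ) (wt_pts ho.pts hC τ h1)
      (wt_adm ho.adm τ fun a ha b hb => (hτ a ha b hb).2)
    have h3 := FL_wt ho.pts hC (0 : ℂ)
    rw [hz0] at h3
    rw [FL_wt ho.pts hC τ, h3, ← log_Pl τ h1, ← log_Pl 0 h1'] at h2
    have h4 : Real.log ‖(Pl n z C).eval τ‖ ≤ Real.log ‖(Pl n z C).eval 0‖ := by linarith
    have h5 : 0 < ‖(Pl n z C).eval τ‖ := norm_pos_iff.2 (eval_ne τ h1)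
    have h6 : 0 < ‖(Pl n z C).eval 0‖ := norm_pos_iff.2 (eval_ne 0 h1')
    exact (Real.log_le_log_iff h5 h6).1 h4
  have hconst := Complex.eventually_eq_of_isLocalMax_norm
    (f := fun τ => (Pl n z C).eval τ) (c := 0)
    (Eventually.of_forall fun τ => (Pl n z C).differentiable.differentiableAt) hmax
  have hinf : Set.Infinite {τ : ℂ | (Pl n z C).eval τ =
      (Polynomial.C ((Pl n z C).eval 0)).eval τ} := by
    refine infinite_of_mem_nhds (0 : ℂ) ?_
    filter_upwards [hconst] with τ hτ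
    have h8 : (Pl n z C).eval τ = (Polynomial.C ((Pl n z C).eval 0)).eval τ := by
      rw [Polynomial.eval_C]
      exact hτ
    exact h8
  have heq := Polynomial.eq_of_infinite_eval_eq _ _ hinf
  have hn' : (0 : ℤ) < n := by exact_mod_cast hn
  have h2 := Int.emod_nonneg a₀ hn'.ne'
  have h3 := Int.emod_lt_of_pos a₀ hn'
  have h4 := Int.emod_nonneg (b₀ - a₀) hn'.ne'
  have h5 := Int.emod_lt_of_pos (b₀ - a₀) hn'
  have hj : (((a₀ % n).toNat : ℕ) : ℤ) = a₀ % n := Int.toNat_of_nonneg h2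
  have hd : ((((b₀ - a₀) % n).toNat : ℕ) : ℤ) = (b₀ - a₀) % n := Int.toNat_of_nonneg h4
  have hjC : a₀ % n ∈ C := (mem_mod hC a₀).2 ha₀
  have hdC : a₀ % n + (b₀ - a₀) % n ∉ C := by
    rw [← mem_mod hC, ← Int.add_emod, add_sub_cancel, mem_mod hC]
    exact hb₀
  have hd0 : (b₀ - a₀) % n ≠ 0 := by
    intro he
    rw [he, add_zero] at hdC
    exact hdC hjC
  have hroot : (Pl n z C).eval (-(z (a₀ % n) - z (a₀ % n + (b₀ - a₀) % n))) = 0 := by
    rw [eval_Pl]
    refine prod_eq_zero (i := (a₀ % n).toNat) (mem_range.2 (by omega)) ?_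
    refine prod_eq_zero (i := ((b₀ - a₀) % n).toNat) (mem_Ico.2 ⟨by omega, by omega⟩) ?_
    rw [hj, hd, if_pos ⟨hjC, hdC⟩]
    ring
  rw [heq, Polynomial.eval_C] at hroot
  exact eval_ne 0 (fun a ha b hb => (h0 a ha b hb).1) hroot

end Pool.Agent.EHP
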