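import Pool.Agent.EHP.Stmts2

/-!
# Module EHP_D2LB
-/

open Finset
open scoped Real

namespace Pool.Agent.EHP

namespace D2LBaux

/-- Tangent inequality on `(0, π)`. -/
theorem tangent {F F' F'' : ℝ → ℝ} (h1 : ∀ x, 0 < x → x < π → HasDerivAt F (F' x) x)
    (h2 : ∀ x, 0 < x → x < π → HasDerivAt F' (F'' x) x)
    (h3 : ∀ x, 0 < x → x < π → 0 ≤ F'' x) {a X : ℝ} (ha : 0 < a) (ha' : a < π) (hX : 0 < X)
    (hX' : X < π) : F a + F' a * (X - a) ≤ F X := by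
  have mono : ∀ u v, 0 < u → u < v → v < π → F' u ≤ F' v := by
    intro u v hu huv hv
    obtain ⟨c, hc, hc'⟩ := exists_hasDerivAt_eq_slope F' F'' huv
      (fun x hx => (h2 x (lt_of_lt_of_le hu hx.1) (lt_of_le_of_lt hx.2 hv)).continuousAt.continuousWithinAt)
      (fun x hx => h2 x (hu.trans hx.1) (hx.2.trans hv))
    have h := h3 c (hu.trans hc.1) (hc.2.trans hv)
    rw [hc'] at h
    have hp : 0 < v - u := sub_pos.2 huv
    have := (div_nonneg_iff.1 h)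
    rcases this with h | h
    · linarith [h.1]
    · linarith [h.2]
  rcases lt_trichotomy a X with h | h | h
  · obtain ⟨c, hc, hc'⟩ := exists_hasDerivAt_eq_slope F F' h
      (fun x hx => (h1 x (lt_of_lt_of_le ha hx.1) (lt_of_le_of_lt hx.2 hX')).continuousAt.continuousWithinAt)
      (fun x hx => h1 x (ha.trans hx.1) (hx.2.trans hX'))
    have hp : 0 < X - a := sub_pos.2 h
    have hm := mono a c ha hc.1 (hc.2.trans hX')
    rw [hc', le_div_iff₀ hp] at hm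
    linarith
  · subst h; simp
  · obtain ⟨c, hc, hc'⟩ := exists_hasDerivAt_eq_slope F F' h
      (fun x hx => (h1 x (lt_of_lt_of_le hX hx.1) (lt_of_le_of_lt hx.2 ha')).continuousAt.continuousWithinAt)
      (fun x hx => h1 x (hX.trans hx.1) (hx.2.trans ha'))
    have hp : 0 < a - X := sub_pos.2 h
    have hm := mono c a (hX.trans hc.1) hc.2 ha'
    rw [hc', div_le_iff₀ hp] at hm
    linarith

theorem hd1 (x : ℝ) (hs : Real.sin x ≠ 0) (hx : x ≠ 0) :
    HasDerivAt (fun x : ℝ => Real.cos x ^ 2 / Real.sin x ^ 2 - 1 / 3 * (x ^ 2)⁻¹)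
      (-(2 * (Real.cos x / Real.sin x ^ 3)) + 2 / 3 * (x ^ 3)⁻¹) x := by
  have h := ((Real.hasDerivAt_cos x).pow 2).div ((Real.hasDerivAt_sin x).pow 2) (pow_ne_zero 2 hs)
  have h2 := ((hasDerivAt_id x).pow 2).inv (pow_ne_zero 2 hx)
  have h3 := h.sub (h2.const_mul (1 / 3))
  refine HasDerivAt.congr_deriv h3 ?_
  simp only [id, Nat.cast_ofNat, Pi.pow_apply, Nat.reduceSub, pow_one]
  have e1 : (2 * Real.cos x * -Real.sin x * Real.sin x ^ 2 -
      Real.cos x ^ 2 * (2 * Real.sin x * Real.cos x)) / (Real.sin x ^ 2) ^ 2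
      = -(2 * (Real.cos x / Real.sin x ^ 3)) := by
    field_simp
    have := Real.sin_sq_add_cos_sq x
    linear_combination (-Real.cos x) * this
  rw [e1]
  field_simp
  ring

theorem hd2 (x : ℝ) (hs : Real.sin x ≠ 0) (hx : x ≠ 0) :
    HasDerivAt (fun x : ℝ => -(2 * (Real.cos x / Real.sin x ^ 3)) + 2 / 3 * (x ^ 3)⁻¹)
      ((2 + 4 * Real.cos x ^ 2) / Real.sin x ^ 4 - 2 / x ^ 4) x := by
  have h := (Real.hasDerivAt_cos x).div ((Real.hasDerivAt_sin x).pow 3) (pow_ne_zero 3 hs)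
  have h2 := ((hasDerivAt_id x).pow 3).inv (pow_ne_zero 3 hx)
  have h3 := (h.const_mul 2).neg.add (h2.const_mul (2 / 3))
  refine HasDerivAt.congr_deriv h3 ?_
  simp only [id, Nat.cast_ofNat, Pi.pow_apply, Nat.reduceSub]
  have e1 : (-Real.sin x * Real.sin x ^ 3 -
      Real.cos x * (3 * Real.sin x ^ 2 * Real.cos x)) / (Real.sin x ^ 3) ^ 2
      = -((1 + 2 * Real.cos x ^ 2) / Real.sin x ^ 4) := by
    field_simp
    have := Real.sin_sq_add_cos_sq x
    linear_combination (-1) * this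
  rw [e1]
  field_simp
  ring

theorem main {a X : ℝ} (ha : 0 < a) (ha' : a < π) (hX : 0 < X) (hX' : X < π) :
    1 / 3 * ((X ^ 2)⁻¹ - (a ^ 2)⁻¹ + 2 * (a ^ 3)⁻¹ * (X - a)) ≤ D2 a X := by
  have h := tangent (F := fun x : ℝ => Real.cos x ^ 2 / Real.sin x ^ 2 - 1 / 3 * (x ^ 2)⁻¹)
    (F' := fun x : ℝ => -(2 * (Real.cos x / Real.sin x ^ 3)) + 2 / 3 * (x ^ 3)⁻¹)
    (F'' := fun x : ℝ => (2 + 4 * Real.cos x ^ 2) / Real.sin x ^ 4 - 2 / x ^ 4)
    (fun x h0 h1 => hd1 x (Real.sin_pos_of_pos_of_lt_pi h0 h1).ne' h0.ne')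
    (fun x h0 h1 => hd2 x (Real.sin_pos_of_pos_of_lt_pi h0 h1).ne' h0.ne')
    (fun x h0 h1 => by
      have hs := Real.sin_pos_of_pos_of_lt_pi h0 h1
      have hle : Real.sin x ≤ x := Real.sin_le h0.le
      have h4 : Real.sin x ^ 4 ≤ x ^ 4 := pow_le_pow_left₀ hs.le hle 4
      have h5 : 2 / x ^ 4 ≤ 2 / Real.sin x ^ 4 := by
        apply div_le_div_of_nonneg_left (by norm_num) (by positivity) h4
      have h6 : 2 / Real.sin x ^ 4 ≤ (2 + 4 * Real.cos x ^ 2) / Real.sin x ^ 4 := by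
        apply div_le_div_of_nonneg_right _ (by positivity)
        nlinarith [sq_nonneg (Real.cos x)]
      linarith) ha ha' hX hX'
  have e : D2 a X = Real.cos X ^ 2 / Real.sin X ^ 2 - Real.cos a ^ 2 / Real.sin a ^ 2 +
      2 * (Real.cos a / Real.sin a ^ 3) * (X - a) := by
    unfold D2; ring
  rw [e]
  linarith

theorem part1 {a X : ℝ} (ha : 0 < a) (ha' : a < π) (hX : 0 < X) (hX' : X < π) :
    0 ≤ D2 a X := by
  refine le_trans ?_ (main ha ha' hX hX')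
  have e : (X ^ 2)⁻¹ - (a ^ 2)⁻¹ + 2 * (a ^ 3)⁻¹ * (X - a) =
      (X - a) ^ 2 * (2 * X + a) / (X ^ 2 * a ^ 3) := by
    field_simp
    ring
  rw [e]
  positivity

theorem part3 {a y : ℝ} (ha : 0 < a) (ha' : a < π) (hy : -1 < y) (hX' : a * (1 + y) < π) :
    5 / (12 * a ^ 2) * min (y ^ 2) |y| ≤ D2 a (a * (1 + y)) := by
  have hy1 : 0 < 1 + y := by linarith
  refine le_trans ?_ (main ha ha' (mul_pos ha hy1) hX')
  have e : 1 / 3 * (((a * (1 + y)) ^ 2)⁻¹ - (a ^ 2)⁻¹ + 2 * (a ^ 3)⁻¹ * (a * (1 + y) - a)) =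
      5 / (12 * a ^ 2) * (4 / 5 * (y ^ 2 * (3 + 2 * y) / (1 + y) ^ 2)) := by
    field_simp
    ring
  rw [e]
  apply mul_le_mul_of_nonneg_left _ (by positivity)
  have hsq : 0 < (1 + y) ^ 2 := by positivity
  rw [← mul_div_assoc, le_div_iff₀ hsq]
  rcases le_total y 1 with h | h
  · have h1 : min (y ^ 2) |y| ≤ y ^ 2 := min_le_left _ _
    refine le_trans (mul_le_mul_of_nonneg_right h1 hsq.le) ?_
    have h2 : 0 ≤ y ^ 2 * ((1 - y) * (7 + 5 * y)) := by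
      apply mul_nonneg (sq_nonneg y)
      apply mul_nonneg <;> linarith
    nlinarith [h2]
  · have h1 : min (y ^ 2) |y| ≤ y := (min_le_right _ _).trans (abs_of_nonneg (by linarith)).le
    refine le_trans (mul_le_mul_of_nonneg_right h1 hsq.le) ?_
    have h2 : 0 ≤ y * ((y - 1) * (3 * y + 5)) := by
      apply mul_nonneg (by linarith)
      apply mul_nonneg <;> linarith
    nlinarith [h2]

theorem part2 {a X : ℝ} (ha : 0 < a) (ha' : a ≤ π / 2) (hX : 0 < X) (hX' : X ≤ a / 2) :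
    1 / (4 * Real.sin X ^ 2) ≤ D2 a X := by
  have hpi := Real.pi_pos
  have h0 := part1 (a := a / 2) (X := X) (by linarith) (by linarith) hX (by linarith)
  have hsX : 0 < Real.sin X := Real.sin_pos_of_pos_of_lt_pi hX (by linarith)
  have hJ := Real.mul_le_sin ha.le ha'
  set s := Real.sin (a / 2) with hs
  set c := Real.cos (a / 2) with hc
  have hs0 : 0 < s := Real.sin_pos_of_pos_of_lt_pi (by linarith) (by linarith)
  have hc0 : 0 < c := Real.cos_pos_of_mem_Ioo ⟨by linarith, by linarith⟩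
  have hsc : s ^ 2 + c ^ 2 = 1 := Real.sin_sq_add_cos_sq _
  have esin : Real.sin a = 2 * s * c := by
    have : a = 2 * (a / 2) := by ring
    rw [this, Real.sin_two_mul]
  have ecos : Real.cos a = 2 * c ^ 2 - 1 := by
    have : a = 2 * (a / 2) := by ring
    rw [this, Real.cos_two_mul]
  have hca : 0 ≤ Real.cos a := Real.cos_nonneg_of_mem_Icc ⟨by linarith, by linarith⟩
  have eX : Real.cos X ^ 2 / Real.sin X ^ 2 = 1 / Real.sin X ^ 2 - 1 := by
    have := Real.sin_sq_add_cos_sq X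
    field_simp
    linarith
  unfold D2 at h0 ⊢
  rw [← hs, ← hc] at h0
  rw [eX] at h0 ⊢
  rw [esin, ecos]
  -- the value at `a / 2`
  have ha2 : a ≤ π * (s * c) := by
    rw [esin, div_mul_eq_mul_div, div_le_iff₀ hpi] at hJ
    linarith
  have eq4 : 1 / (4 * Real.sin X ^ 2) = 1 / 4 * (1 / Real.sin X ^ 2) := by
    field_simp
  rw [eq4]
  have ecs : c ^ 2 / s ^ 2 = 1 / s ^ 2 - 1 := by
    field_simp
    linarith
  have hP : 0 ≤ 2 * c ^ 2 - 1 := by rw [← ecos]; exact hca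
  -- key 1
  have k1 : (2 * c ^ 2 - 1) ^ 2 / (2 * s * c) ^ 2 + a * (2 * c ^ 2 - 1) / (2 * s * c) ^ 3 ≤
      3 / 4 * (1 / s ^ 2) - 1 := by
    have h1 : a * (2 * c ^ 2 - 1) / (2 * s * c) ^ 3 ≤
        π * (s * c) * (2 * c ^ 2 - 1) / (2 * s * c) ^ 3 := by
      apply div_le_div_of_nonneg_right _ (by positivity)
      exact mul_le_mul_of_nonneg_right ha2 hP
    refine le_trans (add_le_add le_rfl h1) ?_
    have h2 : (2 * c ^ 2 - 1) ^ 2 / (2 * s * c) ^ 2 +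
        π * (s * c) * (2 * c ^ 2 - 1) / (2 * s * c) ^ 3 =
        (2 * (2 * c ^ 2 - 1) ^ 2 + π * (2 * c ^ 2 - 1)) / (8 * s ^ 2 * c ^ 2) := by
      field_simp
      ring
    have h3 : 3 / 4 * (1 / s ^ 2) - 1 = (6 * c ^ 2 - 8 * s ^ 2 * c ^ 2) / (8 * s ^ 2 * c ^ 2) := by
      field_simp
      try ring
    rw [h2, h3]
    apply div_le_div_of_nonneg_right _ (by positivity)
    have hs2 : s ^ 2 = 1 - c ^ 2 := by linarith
    rw [hs2]
    have hpi4 : π ≤ 4 := Real.pi_le_four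
    have hpi3 : 3 < π := Real.pi_gt_three
    have hc1 : c ^ 2 ≤ 1 := by nlinarith [sq_nonneg s]
    nlinarith [mul_nonneg (sub_nonneg.2 hpi3.le) (sub_nonneg.2 hc1)]
  -- key 2
  have k2 : (2 * c ^ 2 - 1) / (2 * s * c) ^ 3 ≤ 3 / 4 * (c / s ^ 3) := by
    have h2 : (2 * c ^ 2 - 1) / (2 * s * c) ^ 3 = (2 * c ^ 2 - 1) / (8 * s ^ 3 * c ^ 3) := by
      congr 1; ring
    have h3 : 3 / 4 * (c / s ^ 3) = (6 * c ^ 4) / (8 * s ^ 3 * c ^ 3) := by
      field_simp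
      try ring
    rw [h2, h3]
    apply div_le_div_of_nonneg_right _ (by positivity)
    nlinarith [sq_nonneg (c ^ 2 - 1 / 2), sq_nonneg (c ^ 2)]
  have k3 : 0 ≤ (a / 2 - X) * (3 / 4 * (c / s ^ 3) - (2 * c ^ 2 - 1) / (2 * s * c) ^ 3) :=
    mul_nonneg (by linarith) (by linarith)
  rw [ecs] at h0
  have e5 : 2 * (X - a / 2) * c / s ^ 3 = 2 * (X - a / 2) * (c / s ^ 3) := by ring
  have e6 : 2 * (X - a) * (2 * c ^ 2 - 1) / (2 * s * c) ^ 3 =
      2 * (X - a) * ((2 * c ^ 2 - 1) / (2 * s * c) ^ 3) := by ring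
  have e7 : a * (2 * c ^ 2 - 1) / (2 * s * c) ^ 3 = a * ((2 * c ^ 2 - 1) / (2 * s * c) ^ 3) := by
    ring
  rw [e5] at h0
  rw [e6]
  rw [e7] at k1
  nlinarith [k1, k3, h0]

end D2LBaux

open D2LBaux in
/-- Module EHP_D2LB. -/
theorem m_D2LB : Stmt_D2LB :=
  ⟨fun _ _ ha ha' hX hX' => part1 ha ha' hX hX', fun _ _ ha ha' hX hX' => part2 ha ha' hX hX',
    fun _ _ ha ha' hy hX' => part3 ha ha' hy hX'⟩

end Pool.Agent.EHP
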