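import Pool.Agent.EHP.Stmts1

open Finset
open scoped Real ComplexConjugate

namespace Pool.Agent.EHP

theorem m_DDLB : Stmt_DDLB := by
  intro a X ha hap hX hXp
  have hsa : 0 < Real.sin a := Real.sin_pos_of_pos_of_lt_pi ha hap
  have hg : ∀ x ∈ Set.Ioo (0 : ℝ) π, HasDerivAt
      (fun x : ℝ => Real.cos a / Real.sin a - Real.cos x / Real.sin x - (x - a))
      (1 / Real.sin x ^ 2 - 1) x := by
    intro x hx
    have hs : 0 < Real.sin x := Real.sin_pos_of_pos_of_lt_pi hx.1 hx.2
    have h1 := (Real.hasDerivAt_cos x).div (Real.hasDerivAt_sin x) hs.ne'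
    have h2 := (h1.const_sub (Real.cos a / Real.sin a)).sub ((hasDerivAt_id x).sub_const a)
    have h3 := Real.sin_sq_add_cos_sq x
    have h4 : -Real.sin x * Real.sin x - Real.cos x * Real.cos x = -1 := by nlinarith
    have h5 : -((-Real.sin x * Real.sin x - Real.cos x * Real.cos x) / Real.sin x ^ 2) - 1 =
        1 / Real.sin x ^ 2 - 1 := by
      rw [h4]
      ring
    rw [← h5]
    exact h2
  have hgm : MonotoneOn
      (fun x : ℝ => Real.cos a / Real.sin a - Real.cos x / Real.sin x - (x - a))
      (Set.Ioo (0 : ℝ) π) := by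
    refine monotoneOn_of_deriv_nonneg (convex_Ioo _ _)
      (fun x hx => (hg x hx).continuousAt.continuousWithinAt) ?_ ?_
    · intro x hx
      rw [interior_Ioo] at hx
      exact (hg x hx).differentiableAt.differentiableWithinAt
    · intro x hx
      rw [interior_Ioo] at hx
      rw [(hg x hx).deriv]
      have hs : 0 < Real.sin x := Real.sin_pos_of_pos_of_lt_pi hx.1 hx.2
      have h1 : Real.sin x ^ 2 ≤ 1 := by
        nlinarith [Real.sin_sq_add_cos_sq x, sq_nonneg (Real.cos x)]
      have h2 : 1 ≤ 1 / Real.sin x ^ 2 := by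
        rw [le_div_iff₀ (by positivity)]
        linarith
      linarith
  have hf : ∀ x ∈ Set.Ioo (0 : ℝ) π, HasDerivAt (fun x : ℝ => DD a x - (x - a) ^ 2 / 2)
      (Real.cos a / Real.sin a - Real.cos x / Real.sin x - (x - a)) x := by
    intro x hx
    have hs : 0 < Real.sin x := Real.sin_pos_of_pos_of_lt_pi hx.1 hx.2
    have h0 : HasDerivAt (fun x : ℝ => Real.sin x / Real.sin a) (Real.cos x / Real.sin a) x :=
      (Real.hasDerivAt_sin x).div_const _
    have h1 := (h0.log (div_pos hs hsa).ne').neg
    have h2 := ((hasDerivAt_id x).sub_const a).mul_const (Real.cos a / Real.sin a)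
    have h3 := ((((hasDerivAt_id x).sub_const a).pow 2)).div_const 2
    have h4 := (h1.add h2).sub h3
    have h5 : -(Real.cos x / Real.sin a / (Real.sin x / Real.sin a)) +
        1 * (Real.cos a / Real.sin a) - ((2 : ℕ) : ℝ) * (id x - a) ^ (2 - 1) * 1 / 2 =
        Real.cos a / Real.sin a - Real.cos x / Real.sin x - (x - a) := by
      rw [div_div_div_cancel_right₀ hsa.ne']
      simp only [id]
      push_cast
      ring
    rw [← h5]
    exact h4
  have hfa : DD a a - (a - a) ^ 2 / 2 = 0 := by
    simp [DD, div_self hsa.ne']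
  have hga : Real.cos a / Real.sin a - Real.cos a / Real.sin a - (a - a) = 0 := by ring
  rcases le_total a X with h | h
  · have hm : MonotoneOn (fun x : ℝ => DD a x - (x - a) ^ 2 / 2) (Set.Icc a X) := by
      have hsub : Set.Icc a X ⊆ Set.Ioo (0 : ℝ) π := fun x hx =>
        ⟨lt_of_lt_of_le ha hx.1, lt_of_le_of_lt hx.2 hXp⟩
      refine monotoneOn_of_deriv_nonneg (convex_Icc _ _)
        (fun x hx => (hf x (hsub hx)).continuousAt.continuousWithinAt) ?_ ?_
      · intro x hx
        exact (hf x (hsub (interior_subset hx))).differentiableAt.differentiableWithinAt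
      · intro x hx
        have hx' := interior_subset hx
        rw [(hf x (hsub hx')).deriv]
        have := hgm ⟨ha, hap⟩ (hsub hx') hx'.1
        simp only at this
        linarith
    have := hm (Set.left_mem_Icc.2 h) (Set.right_mem_Icc.2 h) h
    simp only at this
    linarith
  · have hm : AntitoneOn (fun x : ℝ => DD a x - (x - a) ^ 2 / 2) (Set.Icc X a) := by
      have hsub : Set.Icc X a ⊆ Set.Ioo (0 : ℝ) π := fun x hx =>
        ⟨lt_of_lt_of_le hX hx.1, lt_of_le_of_lt hx.2 hap⟩
      refine antitoneOn_of_deriv_nonpos (convex_Icc _ _)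
        (fun x hx => (hf x (hsub hx)).continuousAt.continuousWithinAt) ?_ ?_
      · intro x hx
        exact (hf x (hsub (interior_subset hx))).differentiableAt.differentiableWithinAt
      · intro x hx
        have hx' := interior_subset hx
        rw [(hf x (hsub hx')).deriv]
        have := hgm (hsub hx') ⟨ha, hap⟩ hx'.2
        simp only at this
        linarith
    have := hm (Set.left_mem_Icc.2 h) (Set.right_mem_Icc.2 h) h
    simp only at this
    linarith

end Pool.Agent.EHP
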