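import Pool.Agent.EHP.Stmts4

/-!
# The perimeter of a configuration with a pivot function
-/

open Finset
open scoped Real ComplexConjugate

namespace Pool.Agent.EHP

/-- The direction of a tight chord. -/
noncomputable def dlA {n : ℕ} (c : Cfg n) (v l : ℤ) : ℝ :=
  c.θ v + Complex.arg ((c.z v - c.z l) / c.z v)

theorem dl_prim (δ : ℤ → ℝ) : ∃ P : ℤ → ℝ, ∀ m, P (m + 1) = P m + δ m := by
  refine ⟨fun m => ∑ j ∈ Finset.Ico 0 m, δ j - ∑ j ∈ Finset.Ico m 0, δ j, ?_⟩
  intro m
  simp only
  rcases le_or_gt 0 m with h | h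
  · have e1 : Finset.Ico m (0 : ℤ) = ∅ := Finset.Ico_eq_empty (by omega)
    have e2 : Finset.Ico (m + 1) (0 : ℤ) = ∅ := Finset.Ico_eq_empty (by omega)
    have e3 : Finset.Ico (0 : ℤ) (m + 1) = insert m (Finset.Ico 0 m) := by
      ext x; simp only [Finset.mem_Ico, Finset.mem_insert]; omega
    rw [e1, e2, e3, Finset.sum_insert (by simp)]
    simp only [Finset.sum_empty]
    ring
  · have e1 : Finset.Ico (0 : ℤ) m = ∅ := Finset.Ico_eq_empty (by omega)
    have e2 : Finset.Ico (0 : ℤ) (m + 1) = ∅ := Finset.Ico_eq_empty (by omega)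
    have e3 : Finset.Ico m (0 : ℤ) = insert m (Finset.Ico (m + 1) 0) := by
      ext x; simp only [Finset.mem_Ico, Finset.mem_insert]; omega
    rw [e1, e2, e3, Finset.sum_insert (by simp)]
    simp only [Finset.sum_empty]
    ring

theorem dl_arg {w : ℂ} (h1 : 0 < w.re) (h2 : |w.im| ≤ 0.2 * w.re) : |w.arg| ≤ 0.32 := by
  have hw : 0 < ‖w‖ := lt_of_lt_of_le h1 (Complex.re_le_norm w)
  have h3 : |w.arg| ≤ π / 2 := (Complex.abs_arg_lt_pi_div_two_iff.2 (Or.inl h1)).le
  have h4 := Real.mul_abs_le_abs_sin h3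
  have hw0 : w ≠ 0 := norm_pos_iff.1 hw
  rw [Complex.sin_arg, abs_div, abs_of_pos hw] at h4
  have h5 : |w.im| / ‖w‖ ≤ 0.2 := by
    rw [div_le_iff₀ hw]
    have := Complex.re_le_norm w
    linarith
  have hπ := Real.pi_pos
  have h6 : 2 / π * |w.arg| = 2 * |w.arg| / π := by ring
  rw [h6] at h4
  have h7 : 2 * |w.arg| / π ≤ 0.2 := le_trans h4 h5
  rw [div_le_iff₀ hπ] at h7
  have := Real.pi_lt_d2
  linarith

theorem dl_key {A A' : ℝ} {a b : ℂ} (ha : a = 2 * Complex.exp (A * Complex.I))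
    (hb : b = 2 * Complex.exp (A' * Complex.I)) (h1 : |A' - A| ≤ 1)
    (h2 : 0 < (conj a * b).im) : A' - A = 2 * Real.arcsin (‖b - a‖ / 4) := by
  have hπ := Real.pi_gt_three
  have e1 : conj a * b = ((4 : ℝ) : ℂ) * Complex.exp (((A' - A : ℝ) : ℂ) * Complex.I) := by
    rw [ha, hb, map_mul, ← Complex.exp_conj]
    have e2 : conj ((A : ℂ) * Complex.I) = -((A : ℂ) * Complex.I) := by
      rw [map_mul, Complex.conj_ofReal, Complex.conj_I]; ring
    have e3 : conj (2 : ℂ) = 2 := map_ofNat _ 2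
    rw [e2, e3]
    have e4 : (2 : ℂ) * Complex.exp (-((A : ℂ) * Complex.I)) * (2 * Complex.exp ((A' : ℂ) * Complex.I))
        = 4 * (Complex.exp (-((A : ℂ) * Complex.I)) * Complex.exp ((A' : ℂ) * Complex.I)) := by ring
    rw [e4, ← Complex.exp_add]
    have e5 : -((A : ℂ) * Complex.I) + (A' : ℂ) * Complex.I = ((A' - A : ℝ) : ℂ) * Complex.I := by
      push_cast; ring
    rw [e5]
    norm_num
  have e5 : (conj a * b).im = 4 * Real.sin (A' - A) := by
    rw [e1, Complex.im_ofReal_mul, Complex.exp_ofReal_mul_I_im]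
  rw [e5] at h2
  have h1' := abs_le.1 h1
  have hpos : 0 < A' - A := by
    by_contra h
    push Not at h
    have : Real.sin (A' - A) ≤ 0 := Real.sin_nonpos_of_nonpos_of_neg_pi_le h (by linarith)
    linarith
  have e6 : ‖b - a‖ = 4 * Real.sin ((A' - A) / 2) := by
    have e7 : b - a = a * (Complex.exp (Complex.I * ((A' - A : ℝ) : ℂ)) - 1) := by
      rw [ha, hb, mul_sub, mul_one, mul_assoc, ← Complex.exp_add]
      congr 3
      push_cast
      ring
    have e8 : ‖a‖ = 2 := by
      rw [ha, norm_mul, Complex.norm_exp_ofReal_mul_I]; simp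
    rw [e7, norm_mul, e8, Complex.norm_exp_I_mul_ofReal_sub_one, Real.norm_eq_abs, abs_mul,
      abs_two, abs_of_nonneg]
    · ring
    · exact Real.sin_nonneg_of_nonneg_of_le_pi (by linarith) (by linarith)
  rw [e6, mul_div_cancel_left₀ _ (by norm_num : (4 : ℝ) ≠ 0),
    Real.arcsin_sin (by linarith) (by linarith)]
  ring

theorem dl_dir {n : ℕ} (c : Cfg n) {v l : ℤ} (h : ‖c.z v - c.z l‖ = 2) :
    c.z v - c.z l = 2 * Complex.exp (dlA c v l * Complex.I) := by
  have hz := c.z_ne v
  have e1 : c.z v - c.z l = c.z v * ((c.z v - c.z l) / c.z v) := by field_simp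
  have e2 : c.z v = (‖c.z v‖ : ℂ) * Complex.exp (c.θ v * Complex.I) := by
    rw [c.norm_z]
    unfold Cfg.z
    rw [Complex.exp_add, Complex.ofReal_exp]
  have e3 := Complex.norm_mul_exp_arg_mul_I ((c.z v - c.z l) / c.z v)
  have e4 : ‖c.z v‖ * ‖(c.z v - c.z l) / c.z v‖ = 2 := by
    rw [← norm_mul, ← e1, h]
  calc c.z v - c.z l = c.z v * ((c.z v - c.z l) / c.z v) := e1
    _ = ((‖c.z v‖ : ℂ) * Complex.exp (c.θ v * Complex.I)) *
        ((‖(c.z v - c.z l) / c.z v‖ : ℂ) *
          Complex.exp (Complex.arg ((c.z v - c.z l) / c.z v) * Complex.I)) := by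
        rw [e3]; rw [← e2]
    _ = ((‖c.z v‖ * ‖(c.z v - c.z l) / c.z v‖ : ℝ) : ℂ) *
        (Complex.exp (c.θ v * Complex.I) *
          Complex.exp (Complex.arg ((c.z v - c.z l) / c.z v) * Complex.I)) := by
        push_cast; ring
    _ = 2 * Complex.exp (dlA c v l * Complex.I) := by
        rw [e4, ← Complex.exp_add]
        unfold dlA
        push_cast
        congr 2
        ring

theorem dlA_add {n : ℕ} (c : Cfg n) (v l : ℤ) : dlA c (v + n) (l + n) = dlA c v l + 2 * π := by
  unfold dlA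
  rw [c.θ_add, c.z_add, c.z_add]
  ring

theorem dl_jensen {n : ℕ} (hn : 1 ≤ n) {δ : ℕ → ℝ} (h0 : ∀ j ∈ range n, 0 ≤ δ j)
    (h1 : ∀ j ∈ range n, δ j ≤ π) (hs : ∑ j ∈ range n, δ j = π) :
    ∑ j ∈ range n, 4 * Real.sin (δ j / 2) ≤ 4 * n * Real.sin (π / (2 * n)) := by
  have hnpos : (0 : ℝ) < n := by exact_mod_cast hn
  have h := strictConcaveOn_sin_Icc.concaveOn.le_map_sum (t := range n) (w := fun _ => 1 / (n : ℝ))
    (p := fun j => δ j / 2) (fun i _ => by positivity)
    (by rw [Finset.sum_const, Finset.card_range, nsmul_eq_mul]; field_simp)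
    (fun i hi => by
      have a1 := h0 i hi
      have a2 := h1 i hi
      have := Real.pi_pos
      exact ⟨by linarith, by linarith⟩)
  simp only [smul_eq_mul] at h
  rw [← Finset.mul_sum, ← Finset.mul_sum, ← Finset.sum_div, hs] at h
  have e : 1 / (n : ℝ) * (π / 2) = π / (2 * n) := by field_simp
  rw [e] at h
  rw [← Finset.mul_sum]
  have h2 : ∑ j ∈ range n, Real.sin (δ j / 2) ≤ n * Real.sin (π / (2 * n)) := by
    rw [one_div, inv_mul_le_iff₀ hnpos] at h
    exact h
  linarith

theorem m_DELTA : Stmt_RNICE → Stmt_ORIENT → Stmt_TAN → Stmt_PIVINV → Stmt_DELTA := by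
  intro hRNICE hORIENT hTAN _ K
  obtain ⟨εT, hεT, nT, hTAN⟩ := hTAN
  obtain ⟨ε, hεdef⟩ : ∃ ε, ε = min εT (1 / 20) := ⟨_, rfl⟩
  have hε0 : 0 < ε := by rw [hεdef]; exact lt_min hεT (by norm_num)
  have hε1 : ε ≤ 1 / 20 := by rw [hεdef]; exact min_le_right _ _
  have hε2 : ε ≤ εT := by rw [hεdef]; exact min_le_left _ _
  obtain ⟨nR, hRNICE⟩ := hRNICE K ε hε0
  refine ⟨nT + nR + 200, ?_⟩
  intro n hn c hc L hL
  have hnice := hRNICE n (by omega) c hc
  have hniceT : Nice n εT c := by
    refine ⟨hnice.opt, hnice.cent, hnice.rot, fun j => (hnice.hρ j).trans hε2,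
      fun j => (hnice.hφ j).trans hε2, fun i j => (hnice.slope i j).trans ?_⟩
    exact mul_le_mul_of_nonneg_right hε2 (abs_nonneg _)
  have hT := hTAN n (by omega) c hniceT
  have hO := hORIENT n ε c (by omega) (by linarith) hnice
  have hn200 : (200 : ℝ) ≤ n := by exact_mod_cast (by omega : 200 ≤ n)
  have hnpos : (0 : ℝ) < n := by linarith
  have hπ := Real.pi_pos
  have hπ2 := Real.pi_lt_d2
  -- gaps and slopes
  have hg : ∀ j, c.g j ≤ 0.14 := by
    intro j
    have e1 : c.g j = 2 * π / n + (c.φ (j + 1) - c.φ j) := by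
      unfold Cfg.g Cfg.φ
      push_cast
      field_simp
      ring
    have h1 := abs_le.1 (hnice.hφ (j + 1))
    have h2 := abs_le.1 (hnice.hφ j)
    have h3 : 2 * π / n ≤ 0.04 := by
      rw [div_le_iff₀ hnpos]
      linarith
    rw [e1]; linarith [h1.2, h2.1]
  have hs : ∀ j, |c.s j| ≤ 0.05 := by
    intro j
    have h := hnice.slope (j + 1) j
    have hgj := c.g_pos j
    have e1 : |c.θ (j + 1) - c.θ j| = c.g j := abs_of_pos hgj
    rw [e1] at h
    unfold Cfg.s Cfg.Δ
    rw [abs_div, abs_of_pos hgj, div_le_iff₀ hgj]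
    refine h.trans ?_
    exact mul_le_mul_of_nonneg_right (by linarith) hgj.le
  have hA : ∀ v l, ‖c.z v - c.z l‖ = 2 → |dlA c v l - c.θ v| ≤ 0.32 := by
    intro v l h
    obtain ⟨t1, t2, t3⟩ := hT v l h
    unfold dlA
    rw [add_sub_cancel_left]
    apply dl_arg t1
    have a1 := abs_le.1 (hs v)
    have a2 := abs_le.1 (hs (v - 1))
    have a3 := hg v
    have a4 := hg (v - 1)
    rw [abs_le]
    constructor
    · nlinarith
    · nlinarith
  -- the angles of the sides
  obtain ⟨δ, hδ⟩ : ∃ δ : ℤ → ℝ, ∀ j, δ j = 2 * Real.arcsin (‖c.z (j + 1) - c.z j‖ / 4) :=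
    ⟨_, fun _ => rfl⟩
  have hδper : ∀ j, δ (j + n) = δ j := by
    intro j
    rw [hδ, hδ]
    have : j + (n : ℤ) + 1 = (j + 1) + n := by ring
    rw [this, c.z_add, c.z_add]
  obtain ⟨P, hP⟩ := dl_prim δ
  have htight := hL.piv.tight
  -- pivot of the side
  have hU1 : ∀ j, dlA c (j + 1) (L j) - dlA c j (L j) = δ j := by
    intro j
    have hlt := hL.lt2 j
    have hlt' := hL.lt2 (j + 1)
    have hmono := hL.piv.mono
    have t1 : ‖c.z j - c.z (L j)‖ = 2 := by
      rw [htight j (L j) (by omega) (by omega)]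
      exact ⟨hmono (by omega), le_rfl⟩
    have t2 : ‖c.z (j + 1) - c.z (L j)‖ = 2 := by
      rw [htight (j + 1) (L j) (by omega) (by omega)]
      rw [add_sub_cancel_right]
      exact ⟨le_rfl, hmono (by omega)⟩
    have h1 := abs_le.1 (hA _ _ t1)
    have h2 := abs_le.1 (hA _ _ t2)
    have hgj := hg j
    have hgp := c.g_pos j
    unfold Cfg.g at hgj hgp
    have ho := hO j (j + 1) (L j) (by omega) (by omega) (by omega)
    have key := dl_key (dl_dir c t1) (dl_dir c t2) (by rw [abs_le]; constructor <;> linarith)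
      (by
        have e : (conj (c.z j - c.z (L j)) * (c.z (j + 1) - c.z (L j))).im =
            (conj (c.z (j + 1) - c.z j) * (c.z (L j) - c.z j)).im := by
          simp only [map_sub, Complex.mul_im, Complex.sub_re, Complex.sub_im, Complex.conj_re,
            Complex.conj_im]
          ring
        rw [e]; exact ho)
    rw [key, hδ]
    congr 4
    ring
  have hU2 : ∀ v l, L (v - 1) ≤ l → l < L v → dlA c v (l + 1) - dlA c v l = δ l := by
    intro v l h1 h2
    have hlt := hL.lt2 v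
    have hlt' := hL.lt2 (v - 1)
    have hvl : v < l := by
      have := (hL.lt2 (v - 1)).1
      omega
    have t1 : ‖c.z v - c.z l‖ = 2 := by
      rw [htight v l hvl (by omega)]
      exact ⟨h1, h2.le⟩
    have t2 : ‖c.z v - c.z (l + 1)‖ = 2 := by
      rw [htight v (l + 1) (by omega) (by omega)]
      exact ⟨by omega, by omega⟩
    have h3 := abs_le.1 (hA _ _ t1)
    have h4 := abs_le.1 (hA _ _ t2)
    have ho := hO v l (l + 1) (by omega) (by omega) (by omega)
    have key := dl_key (dl_dir c t1) (dl_dir c t2) (by rw [abs_le]; constructor <;> linarith)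
      (by
        have e : (conj (c.z v - c.z l) * (c.z v - c.z (l + 1))).im =
            (conj (c.z l - c.z v) * (c.z (l + 1) - c.z v)).im := by
          simp only [map_sub, Complex.mul_im, Complex.sub_re, Complex.sub_im, Complex.conj_re,
            Complex.conj_im]
          ring
        rw [e]; exact ho)
    rw [key, hδ]
    congr 2
    have : c.z v - c.z (l + 1) - (c.z v - c.z l) = -(c.z (l + 1) - c.z l) := by ring
    rw [this, norm_neg]
  -- the intervals
  have hI : ∀ v, dlA c v (L v) - P (L v) = dlA c v (L (v - 1)) - P (L (v - 1)) := by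
    intro v
    have hle : L (v - 1) ≤ L v := hL.piv.mono (by omega)
    have : ∀ m : ℕ, L (v - 1) + m ≤ L v →
        dlA c v (L (v - 1) + m) - P (L (v - 1) + m) = dlA c v (L (v - 1)) - P (L (v - 1)) := by
      intro m
      induction m with
      | zero => intro _; simp
      | succ k ih =>
        intro hk
        push_cast at hk ⊢
        have h1 := ih (by omega)
        have h2 := hU2 v (L (v - 1) + k) (by omega) (by omega)
        have h3 := hP (L (v - 1) + k)
        rw [← add_assoc, h3]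
        linarith
    have h := this (L v - L (v - 1)).toNat (by rw [Int.toNat_of_nonneg (by omega)]; omega)
    rw [Int.toNat_of_nonneg (by omega)] at h
    have e : L (v - 1) + (L v - L (v - 1)) = L v := by ring
    rwa [e] at h
  have hstep : ∀ v, dlA c (v + 1) (L (v + 1)) - P (L (v + 1)) - P (v + 1) =
      dlA c v (L v) - P (L v) - P v := by
    intro v
    have h1 := hI (v + 1)
    rw [add_sub_cancel_right] at h1
    have h2 := hU1 v
    have h3 := hP v
    linarith
  have hconst : ∀ m : ℕ, dlA c m (L m) - P (L m) - P m = dlA c 0 (L 0) - P (L 0) - P 0 := by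
    intro m
    induction m with
    | zero => simp
    | succ k ih =>
      push_cast
      rw [hstep, ih]
  have hPper : ∀ m : ℤ, P (m + n) - P m = P n - P 0 := by
    intro m
    have hst : ∀ m : ℤ, P (m + 1 + n) - P (m + 1) = P (m + n) - P m := by
      intro m
      have e : m + 1 + (n : ℤ) = (m + n) + 1 := by ring
      rw [e, hP, hP, hδper]; ring
    induction m using Int.induction_on with
    | zero => simp
    | succ i ih => rw [hst, ih]
    | pred i ih =>
      have := hst (-(i : ℤ) - 1)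
      rw [sub_add_cancel] at this
      rw [← this, ih]
  have hPsum : P n - P 0 = ∑ j ∈ range n, δ (j : ℤ) := by
    have h := Finset.sum_range_sub (fun j : ℕ => P (j : ℤ)) n
    rw [Nat.cast_zero] at h
    rw [← h]
    apply Finset.sum_congr rfl
    intro j _
    push_cast
    rw [hP]; ring
  have htot : ∑ j ∈ range n, δ (j : ℤ) = π := by
    have h1 := hconst n
    have h2 := hL.piv.add 0
    rw [zero_add] at h2
    have h3 := dlA_add c 0 (L 0)
    rw [zero_add] at h3
    rw [h2, h3] at h1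
    have h4 := hPper (L 0)
    rw [← hPsum]
    linarith
  -- conclusion
  have hle2 : ∀ j : ℤ, ‖c.z (j + 1) - c.z j‖ ≤ 2 := fun j => hc.opt.adm _ _
  have hδ0 : ∀ j : ℤ, 0 ≤ δ j := by
    intro j
    rw [hδ]
    have : 0 ≤ Real.arcsin (‖c.z (j + 1) - c.z j‖ / 4) := Real.arcsin_nonneg.2 (by positivity)
    linarith
  have hδπ : ∀ j : ℤ, δ j ≤ π := by
    intro j
    rw [hδ]
    have := Real.arcsin_le_pi_div_two (‖c.z (j + 1) - c.z j‖ / 4)
    linarith
  have hsin : ∀ j : ℤ, ‖c.z (j + 1) - c.z j‖ = 4 * Real.sin (δ j / 2) := by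
    intro j
    rw [hδ, mul_div_cancel_left₀ _ (by norm_num : (2 : ℝ) ≠ 0), Real.sin_arcsin]
    · ring
    · have := norm_nonneg (c.z (j + 1) - c.z j)
      linarith
    · have := hle2 j
      linarith
  have hJ := dl_jensen (n := n) (by omega) (δ := fun j => δ (j : ℤ)) (fun j _ => hδ0 j)
    (fun j _ => hδπ j) htot
  refine le_trans (le_of_eq ?_) hJ
  apply Finset.sum_congr rfl
  intro j _
  exact hsin j

end Pool.Agent.EHP
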