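import Pool.Agent.EHP.Stmts4

open Finset
open scoped Real ComplexConjugate

namespace Pool.Agent.EHP

theorem DFTS_exp_int (m : ℤ) : Complex.exp (-(2 * π * m : ℝ) * Complex.I) = 1 := by
  have h := Complex.exp_int_mul_two_pi_mul_I (-m)
  rw [← h]
  congr 1
  push_cast
  ring

theorem m_DFTS : Stmt_DFTS := by
  intro n f hn hf k a
  have hn0 : (n : ℝ) ≠ 0 := by
    have : (1 : ℝ) ≤ n := by exact_mod_cast hn
    positivity
  refine ⟨?_, ?_, ?_⟩
  · -- shift
    have hg : ∀ j : ℤ, (f (j + n) : ℂ) * Complex.exp (-(2 * π * k * (j + n : ℤ) / n : ℝ) * Complex.I)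
        = (f j : ℂ) * Complex.exp (-(2 * π * k * j / n : ℝ) * Complex.I) := by
      intro j
      rw [hf]
      congr 1
      have e : (-(2 * π * k * (j + n : ℤ) / n : ℝ) : ℂ) * Complex.I =
          -(2 * π * k * j / n : ℝ) * Complex.I + -(2 * π * k : ℝ) * Complex.I := by
        have : (2 * π * k * (j + n : ℤ) / n : ℝ) = 2 * π * k * j / n + 2 * π * k := by
          push_cast
          field_simp
        rw [this]
        push_cast
        ring
      rw [e, Complex.exp_add, DFTS_exp_int, mul_one]
    have hs := sum_shift (n := n)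
      (f := fun j : ℤ => (f j : ℂ) * Complex.exp (-(2 * π * k * j / n : ℝ) * Complex.I)) hg a
    simp only [dr, dft]
    rw [← mul_div_assoc]
    congr 1
    have hs' : ∑ j ∈ range n, (f (j : ℤ) : ℂ) * Complex.exp (-(2 * π * k * j / n : ℝ) * Complex.I) =
        ∑ j ∈ range n, (f ((j : ℤ) + a) : ℂ) *
          Complex.exp (-(2 * π * k * ((j : ℤ) + a : ℤ) / n : ℝ) * Complex.I) := by
      rw [hs]
      refine Finset.sum_congr rfl fun j _ => ?_
      norm_cast
    rw [hs', Finset.mul_sum]
    refine Finset.sum_congr rfl fun j _ => ?_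
    have e : Complex.exp (-(2 * π * k * j / n : ℝ) * Complex.I) =
        Complex.exp ((2 * π * k * a / n : ℝ) * Complex.I) *
          Complex.exp (-(2 * π * k * ((j : ℤ) + a : ℤ) / n : ℝ) * Complex.I) := by
      rw [← Complex.exp_add]
      congr 1
      push_cast
      ring
    rw [e]
    ring
  · simp only [dr, dft]
    rw [map_div₀, map_sum, Complex.conj_natCast]
    congr 1
    refine Finset.sum_congr rfl fun j _ => ?_
    rw [map_mul, Complex.conj_ofReal, ← Complex.exp_conj]
    congr 2
    rw [map_mul, map_neg, Complex.conj_ofReal, Complex.conj_I]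
    push_cast
    ring
  · simp only [dr, dft]
    congr 1
    refine Finset.sum_congr rfl fun j _ => ?_
    congr 1
    have e : (-(2 * π * (k + n : ℤ) * j / n : ℝ) : ℂ) * Complex.I =
        -(2 * π * k * j / n : ℝ) * Complex.I + -(2 * π * (j : ℤ) : ℝ) * Complex.I := by
      have : (2 * π * (k + n : ℤ) * j / n : ℝ) = 2 * π * k * j / n + 2 * π * (j : ℤ) := by
        push_cast
        field_simp
      rw [this]
      push_cast
      ring
    rw [e, Complex.exp_add, DFTS_exp_int, mul_one]

end Pool.Agent.EHP
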