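import Pool.Agent.EHP.Stmts4

/-!
# Parseval
-/

open Finset
open scoped Real ComplexConjugate

namespace Pool.Agent.EHP

/-- Orthogonality of the characters. -/
theorem pars_orth {n : ℕ} (hn : 0 < n) (m : ℤ) (hm : ¬ (n : ℤ) ∣ m) :
    ∑ t ∈ range n, Complex.exp ((2 * π * ((t : ℤ) : ℝ) * m / n : ℝ) * Complex.I) = 0 := by
  have hn' : (n : ℂ) ≠ 0 := by exact_mod_cast hn.ne'
  set ζ : ℂ := Complex.exp ((2 * π * m / n : ℝ) * Complex.I) with hζ
  have h1 : ∀ t ∈ range n, Complex.exp ((2 * π * ((t : ℤ) : ℝ) * m / n : ℝ) * Complex.I) =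
      ζ ^ t := by
    intro t _
    rw [hζ, ← Complex.exp_nat_mul]
    congr 1
    push_cast
    ring
  rw [Finset.sum_congr rfl h1]
  have hpow : ζ ^ n = 1 := by
    rw [hζ, ← Complex.exp_nat_mul, Complex.exp_eq_one_iff]
    refine ⟨m, ?_⟩
    push_cast
    field_simp
  have hne : ζ ≠ 1 := by
    intro h
    rw [hζ, Complex.exp_eq_one_iff] at h
    obtain ⟨k, hk⟩ := h
    apply hm
    refine ⟨k, ?_⟩
    have hpi : (π : ℂ) ≠ 0 := by exact_mod_cast Real.pi_ne_zero
    have h2 : (m : ℂ) = (n : ℂ) * k := by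
      push_cast at hk
      field_simp at hk
      have h3 : (2 * π * Complex.I) * ((m : ℂ)) = (2 * π * Complex.I) * ((n : ℂ) * k) := by
        linear_combination (2 * π * Complex.I) * hk
      exact mul_left_cancel₀ (by
        simp [hpi, Complex.I_ne_zero]) h3
    exact_mod_cast h2
  have h3 := mul_geom_sum ζ n
  rw [hpow, sub_self] at h3
  exact (mul_eq_zero.1 h3).resolve_left (sub_ne_zero.2 hne)

theorem pars_per {n : ℕ} (hn : 0 < n) (m : ℤ) (k : ℤ) :
    Complex.exp ((2 * π * ((k + n : ℤ) : ℝ) * m / n : ℝ) * Complex.I) =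
      Complex.exp ((2 * π * (k : ℝ) * m / n : ℝ) * Complex.I) := by
  have hn' : (n : ℂ) ≠ 0 := by exact_mod_cast hn.ne'
  have : ((2 * π * ((k + n : ℤ) : ℝ) * m / n : ℝ) : ℂ) * Complex.I =
      ((2 * π * (k : ℝ) * m / n : ℝ) : ℂ) * Complex.I + m * (2 * π * Complex.I) := by
    push_cast
    field_simp
  rw [this, Complex.exp_add, Complex.exp_int_mul_two_pi_mul_I, mul_one]

/-- Parseval, for a system of representatives `K`. -/
theorem pars_main {n : ℕ} (hn : 0 < n) (K : Finset ℤ)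
    (hK : ∀ G : ℤ → ℂ, (∀ k, G (k + n) = G k) → ∑ k ∈ K, G k = ∑ t ∈ range n, G (t : ℤ))
    (f g : ℤ → ℝ) :
    ∑ k ∈ K, dr n f k * conj (dr n g k) = ((mn n (fun j => f j * g j) : ℝ) : ℂ) := by
  have hn' : (n : ℂ) ≠ 0 := by exact_mod_cast hn.ne'
  have h1 : ∀ k : ℤ, dr n f k * conj (dr n g k) =
      (∑ i ∈ range n, ∑ j ∈ range n, (f (i : ℤ) : ℂ) * (g (j : ℤ) : ℂ) *
        Complex.exp ((2 * π * (k : ℝ) * (((j : ℤ) - (i : ℤ) : ℤ) : ℝ) / n : ℝ) * Complex.I)) /
        (n : ℂ) ^ 2 := by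
    intro k
    unfold dr dft
    rw [map_div₀, map_sum, Complex.conj_natCast, div_mul_div_comm, Finset.sum_mul_sum, ← sq]
    congr 1
    apply Finset.sum_congr rfl
    intro i _
    apply Finset.sum_congr rfl
    intro j _
    rw [map_mul, Complex.conj_ofReal, ← Complex.exp_conj]
    have e1 : conj (-((2 * π * k * j / n : ℝ) : ℂ) * Complex.I) =
        ((2 * π * k * j / n : ℝ) : ℂ) * Complex.I := by
      rw [map_mul, map_neg, Complex.conj_ofReal, Complex.conj_I]; ring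
    rw [e1]
    have e2 : ((2 * π * (k : ℝ) * (((j : ℤ) - (i : ℤ) : ℤ) : ℝ) / n : ℝ) : ℂ) * Complex.I =
        -((2 * π * k * i / n : ℝ) : ℂ) * Complex.I + ((2 * π * k * j / n : ℝ) : ℂ) * Complex.I := by
      push_cast
      ring
    rw [e2, Complex.exp_add]
    ring
  rw [Finset.sum_congr rfl (fun k _ => h1 k), ← Finset.sum_div]
  have h2 : ∑ k ∈ K, ∑ i ∈ range n, ∑ j ∈ range n, (f (i : ℤ) : ℂ) * (g (j : ℤ) : ℂ) *
        Complex.exp ((2 * π * (k : ℝ) * (((j : ℤ) - (i : ℤ) : ℤ) : ℝ) / n : ℝ) * Complex.I) =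
      ∑ i ∈ range n, ∑ j ∈ range n, (f (i : ℤ) : ℂ) * (g (j : ℤ) : ℂ) *
        (if i = j then (n : ℂ) else 0) := by
    rw [Finset.sum_comm]
    apply Finset.sum_congr rfl
    intro i hi
    rw [Finset.sum_comm]
    apply Finset.sum_congr rfl
    intro j hj
    rw [← Finset.mul_sum]
    congr 1
    have h3 := hK (fun k => Complex.exp ((2 * π * (k : ℝ) * (((j : ℤ) - (i : ℤ) : ℤ) : ℝ) / n : ℝ) *
      Complex.I)) (fun k => pars_per hn _ k)
    rw [h3]
    by_cases hij : i = j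
    · subst hij
      simp
    · rw [if_neg hij]
      apply pars_orth hn
      intro hd
      have hi' := Finset.mem_range.1 hi
      have hj' := Finset.mem_range.1 hj
      obtain ⟨m, hm⟩ := hd
      have hm0 : m = 0 := by
        by_contra hne
        rcases lt_or_gt_of_ne hne with h2 | h2
        · have : (n : ℤ) * m ≤ -(n : ℤ) := by nlinarith
          omega
        · have : (n : ℤ) * m ≥ (n : ℤ) := by nlinarith
          omega
      rw [hm0] at hm
      omega
  rw [h2]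
  have h4 : ∀ i ∈ range n, ∑ j ∈ range n, (f (i : ℤ) : ℂ) * (g (j : ℤ) : ℂ) *
        (if i = j then (n : ℂ) else 0) = n * ((f (i : ℤ) : ℂ) * (g (i : ℤ) : ℂ)) := by
    intro i hi
    rw [Finset.sum_eq_single_of_mem i hi]
    · rw [if_pos rfl]; ring
    · intro j _ hj
      rw [if_neg (Ne.symm hj), mul_zero]
  rw [Finset.sum_congr rfl h4, ← Finset.mul_sum]
  unfold mn
  push_cast
  field_simp

/-- Fourier coefficients of a difference. -/
theorem pars_diff {n : ℕ} (hn : 0 < n) (f : ℤ → ℝ) (hf : ∀ j, f (j + n) = f j) (d k : ℤ) :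
    dr n (fun j => f (j + d) - f j) k =
      (Complex.exp ((2 * π * k * d / n : ℝ) * Complex.I) - 1) * dr n f k := by
  have hn' : (n : ℂ) ≠ 0 := by exact_mod_cast hn.ne'
  obtain ⟨G, hG⟩ : ∃ G : ℤ → ℂ, ∀ l, G l = (f l : ℂ) *
        Complex.exp (-((2 * π * k * (l : ℝ) / n : ℝ) : ℂ) * Complex.I) := ⟨_, fun _ => rfl⟩
  have hper : ∀ l : ℤ, G (l + n) = G l := by
    intro l
    rw [hG, hG, hf]
    congr 1
    have : -((2 * π * k * ((l + n : ℤ) : ℝ) / n : ℝ) : ℂ) * Complex.I =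
        -((2 * π * k * (l : ℝ) / n : ℝ) : ℂ) * Complex.I + ((-k : ℤ) : ℂ) * (2 * π * Complex.I) := by
      push_cast
      field_simp
      ring
    rw [this, Complex.exp_add, Complex.exp_int_mul_two_pi_mul_I, mul_one]
  have h0 : dr n f k = (∑ j ∈ range n, G (j : ℤ)) / n := by
    unfold dr dft
    congr 1
    apply Finset.sum_congr rfl
    intro j _
    rw [hG]
    norm_cast
  have h1 : dr n (fun j => f (j + d) - f j) k = (∑ j ∈ range n,
      (Complex.exp ((2 * π * k * d / n : ℝ) * Complex.I) * G ((j : ℤ) + d) - G (j : ℤ))) / n := by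
    unfold dr dft
    congr 1
    apply Finset.sum_congr rfl
    intro j _
    rw [hG, hG]
    have e : -((2 * π * k * j / n : ℝ) : ℂ) * Complex.I = ((2 * π * k * d / n : ℝ) : ℂ) * Complex.I +
        -((2 * π * k * (((j : ℤ) + d : ℤ) : ℝ) / n : ℝ) : ℂ) * Complex.I := by
      push_cast
      ring
    have e2 : -((2 * π * k * (((j : ℤ) : ℤ) : ℝ) / n : ℝ) : ℂ) * Complex.I =
        -((2 * π * k * j / n : ℝ) : ℂ) * Complex.I := by
      push_cast
      ring
    rw [e2]
    show ((f ((j : ℤ) + d) - f (j : ℤ) : ℝ) : ℂ) * _ = _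
    rw [Complex.ofReal_sub, sub_mul]
    congr 1
    rw [e, Complex.exp_add]
    ring
  rw [h0, h1, Finset.sum_sub_distrib, ← Finset.mul_sum, sum_shift hper d]
  ring

theorem m_PARS : Stmt_CSCSUM → Stmt_PARS := by
  intro hC N f g hN hf hg
  set n : ℕ := 2 * N with hnN
  have hn : 0 < n := by omega
  have hnR : (0 : ℝ) < n := by exact_mod_cast hn
  have hK : ∀ G : ℤ → ℂ, (∀ k, G (k + n) = G k) →
      ∑ k ∈ Finset.Ioc (-(N : ℤ)) N, G k = ∑ t ∈ range n, G (t : ℤ) := by
    intro G hG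
    rw [← sum_shift hG (-(N : ℤ) + 1)]
    apply Finset.sum_nbij' (fun k : ℤ => (k + (N : ℤ) - 1).toNat)
      (fun t : ℕ => (t : ℤ) + (-(N : ℤ) + 1))
    · intro k hk
      simp only [Finset.mem_Ioc, Finset.mem_range] at *
      omega
    · intro t ht
      simp only [Finset.mem_Ioc, Finset.mem_range] at *
      omega
    · intro k hk
      simp only [Finset.mem_Ioc] at hk
      omega
    · intro t ht
      simp only [Finset.mem_range] at ht
      omega
    · intro k hk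
      simp only [Finset.mem_Ioc] at hk
      congr 1
      omega
  have hP : ∀ f g : ℤ → ℝ, mn n (fun j => f j * g j) =
      ∑ k ∈ Finset.Ioc (-(N : ℤ)) N, (dr n f k * conj (dr n g k)).re := by
    intro f g
    have h := pars_main hn _ hK f g
    have h2 := congrArg Complex.re h
    rw [Complex.re_sum, Complex.ofReal_re] at h2
    exact h2.symm
  refine ⟨hP f g, ?_⟩
  -- the quadratic form
  have hD : ∀ d : ℕ, ∑ j ∈ range n, (f ((j : ℤ) + (d : ℤ)) - f (j : ℤ)) ^ 2 =
      2 * n * ∑ k ∈ Finset.Ioc (-(N : ℤ)) N, (1 - Real.cos (2 * π * k * d / n)) *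
        ‖dr n f k‖ ^ 2 := by
    intro d
    have h1 := hP (fun j => f (j + d) - f j) (fun j => f (j + d) - f j)
    unfold mn at h1
    rw [div_eq_iff hnR.ne'] at h1
    have h2 : ∑ j ∈ range n, (f ((j : ℤ) + (d : ℤ)) - f (j : ℤ)) ^ 2 =
        ∑ j ∈ range n, (f ((j : ℤ) + (d : ℤ)) - f (j : ℤ)) * (f ((j : ℤ) + (d : ℤ)) - f (j : ℤ)) := by
      apply Finset.sum_congr rfl
      intro j _
      ring
    rw [h2, h1, Finset.sum_mul, Finset.mul_sum]
    apply Finset.sum_congr rfl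
    intro k _
    rw [pars_diff hn f hf, Complex.mul_conj, Complex.ofReal_re, Complex.normSq_mul,
      Complex.normSq_eq_norm_sq (dr n f k), Complex.normSq_apply]
    have e1 : (Complex.exp (((2 * π * k * ((d : ℤ) : ℝ) / n : ℝ) : ℂ) * Complex.I) - 1).re =
        Real.cos (2 * π * k * d / n) - 1 := by
      rw [Complex.sub_re, Complex.one_re, Complex.exp_ofReal_mul_I_re]
      norm_cast
    have e2 : (Complex.exp (((2 * π * k * ((d : ℤ) : ℝ) / n : ℝ) : ℂ) * Complex.I) - 1).im =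
        Real.sin (2 * π * k * d / n) := by
      rw [Complex.sub_im, Complex.one_im, Complex.exp_ofReal_mul_I_im, sub_zero]
      norm_cast
    rw [e1, e2]
    have := Real.sin_sq_add_cos_sq (2 * π * k * d / n)
    linear_combination (‖dr n f k‖ ^ 2 * n) * this
  unfold QK
  rw [Finset.sum_comm]
  have h3 : ∀ d ∈ Ico 1 n, ∑ j ∈ range n, (f ((j : ℤ) + (d : ℤ)) - f (j : ℤ)) ^ 2 /
      Real.sin (π * d / n) ^ 2 = ∑ k ∈ Finset.Ioc (-(N : ℤ)) N,
        2 * n * ‖dr n f k‖ ^ 2 * ((1 - Real.cos (2 * π * k * d / n)) /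
        Real.sin (π * d / n) ^ 2) := by
    intro d _
    rw [← Finset.sum_div, hD, Finset.mul_sum, Finset.sum_div]
    apply Finset.sum_congr rfl
    intro k _
    ring
  rw [Finset.sum_congr rfl h3, Finset.sum_comm]
  have h4 : ∀ k ∈ Finset.Ioc (-(N : ℤ)) N, ∑ d ∈ Ico 1 n,
        2 * n * ‖dr n f k‖ ^ 2 * ((1 - Real.cos (2 * π * k * d / n)) /
        Real.sin (π * d / n) ^ 2) = 8 * (n : ℝ) ^ 2 * (1 / 2 * (kap n k * ‖dr n f k‖ ^ 2)) := by
    intro k hk
    rw [← Finset.mul_sum]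
    have hk' := Finset.mem_Ioc.1 hk
    have hkn : k.natAbs ≤ n := by omega
    have h5 := hC n k.natAbs hn hkn
    have habs : ((k.natAbs : ℕ) : ℝ) = |(k : ℝ)| := by
      rw [Nat.cast_natAbs, Int.cast_abs]
    have h6 : ∑ d ∈ Ico 1 n, (1 - Real.cos (2 * π * k * d / n)) / Real.sin (π * d / n) ^ 2 =
        ∑ d ∈ Ico 1 n, (1 - Real.cos (2 * π * (k.natAbs : ℕ) * d / n)) /
          Real.sin (π * d / n) ^ 2 := by
      apply Finset.sum_congr rfl
      intro d _
      congr 2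
      rw [habs]
      rcases abs_choice (k : ℝ) with h | h
      · rw [h]
      · rw [h]
        have : 2 * π * -(k : ℝ) * d / n = -(2 * π * k * d / n) := by ring
        rw [this, Real.cos_neg]
    rw [h6, h5, habs]
    unfold kap
    field_simp
    ring
  rw [Finset.sum_congr rfl h4, ← Finset.mul_sum, ← Finset.mul_sum]
  field_simp

end Pool.Agent.EHP
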