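import Pool.Agent.EHP.Stmts6
import Pool.Agent.EHP.MPARS

/-!
# Fourier inversion
-/

open Finset
open scoped Real ComplexConjugate

namespace Pool.Agent.EHP

/-- The sum of a character over a period. -/
theorem dinv_orth {n : ℕ} (hn : 0 < n) (K : Finset ℤ)
    (hK : ∀ G : ℤ → ℂ, (∀ k, G (k + n) = G k) → ∑ k ∈ K, G k = ∑ t ∈ range n, G (t : ℤ)) (m : ℤ) :
    ∑ k ∈ K, Complex.exp ((2 * π * (k : ℝ) * m / n : ℝ) * Complex.I) =
      if (n : ℤ) ∣ m then (n : ℂ) else 0 := by
  rw [hK (fun k => Complex.exp ((2 * π * (k : ℝ) * m / n : ℝ) * Complex.I))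
    (fun k => pars_per hn m k)]
  by_cases hm : (n : ℤ) ∣ m
  · rw [if_pos hm]
    obtain ⟨t, ht⟩ := hm
    have hn' : (n : ℂ) ≠ 0 := by exact_mod_cast hn.ne'
    have h1 : ∀ j ∈ range n,
        Complex.exp ((2 * π * ((j : ℤ) : ℝ) * m / n : ℝ) * Complex.I) = 1 := by
      intro j _
      rw [Complex.exp_eq_one_iff]
      refine ⟨j * t, ?_⟩
      rw [ht]
      push_cast
      field_simp
    rw [Finset.sum_congr rfl h1]
    simp
  · rw [if_neg hm]
    exact pars_orth hn m hm

theorem m_DINV : Stmt_DINV := by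
  intro N f hN hf a
  obtain ⟨n, hnN⟩ : ∃ n : ℕ, n = 2 * N := ⟨_, rfl⟩
  rw [← hnN] at hf ⊢
  have hn : 0 < n := by omega
  have hn' : (n : ℂ) ≠ 0 := by exact_mod_cast hn.ne'
  have hK : ∀ G : ℤ → ℂ, (∀ k, G (k + n) = G k) →
      ∑ k ∈ Finset.Ioc (-(N : ℤ)) N, G k = ∑ t ∈ range n, G (t : ℤ) := by
    intro G hG
    rw [← sum_shift hG (-(N : ℤ) + 1)]
    apply Finset.sum_nbij' (fun k : ℤ => (k + (N : ℤ) - 1).toNat)
      (fun t : ℕ => (t : ℤ) + (-(N : ℤ) + 1))
    · intro k hk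
      simp only [Finset.mem_Ioc, Finset.mem_range] at *
      omega
    · intro t ht
      simp only [Finset.mem_Ioc, Finset.mem_range] at *
      omega
    · intro k hk
      simp only [Finset.mem_Ioc] at hk
      omega
    · intro t ht
      simp only [Finset.mem_range] at ht
      omega
    · intro k hk
      simp only [Finset.mem_Ioc] at hk
      congr 1
      omega
  have h1 : ∀ k : ℤ, dft n f k * om n k a =
      (∑ j ∈ range n, f (j : ℤ) *
        Complex.exp ((2 * π * (k : ℝ) * ((a - (j : ℤ) : ℤ) : ℝ) / n : ℝ) * Complex.I)) / n := by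
    intro k
    unfold dft om
    rw [div_mul_eq_mul_div, Finset.sum_mul]
    congr 1
    refine Finset.sum_congr rfl fun j _ => ?_
    rw [mul_assoc, ← Complex.exp_add]
    congr 2
    push_cast
    ring
  rw [Finset.sum_congr rfl (fun k _ => h1 k), ← Finset.sum_div, Finset.sum_comm]
  have h2 : ∀ j ∈ range n, ∑ k ∈ Finset.Ioc (-(N : ℤ)) N, f (j : ℤ) *
      Complex.exp ((2 * π * (k : ℝ) * ((a - (j : ℤ) : ℤ) : ℝ) / n : ℝ) * Complex.I) =
      f (j : ℤ) * if (n : ℤ) ∣ a - (j : ℤ) then (n : ℂ) else 0 := by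
    intro j _
    rw [← Finset.mul_sum, dinv_orth hn _ hK]
  rw [Finset.sum_congr rfl h2]
  have hpos : 0 ≤ a % n := Int.emod_nonneg _ (by omega)
  have hlt : a % n < n := Int.emod_lt_of_pos _ (by omega)
  have hj0 : ((a % n).toNat : ℤ) = a % n := Int.toNat_of_nonneg hpos
  have hmem : (a % n).toNat ∈ range n := by
    rw [Finset.mem_range]
    omega
  rw [Finset.sum_eq_single_of_mem _ hmem]
  · rw [hj0, per_mod hf, if_pos (Int.dvd_self_sub_emod), mul_div_assoc, div_self hn', mul_one]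
  · intro j hj hne
    rw [if_neg, mul_zero]
    intro hd
    apply hne
    have hj' := Finset.mem_range.1 hj
    have h3 : (j : ℤ) % n = a % n := Int.modEq_iff_dvd.2 hd
    rw [Int.emod_eq_of_lt (by omega) (by omega)] at h3
    omega

end Pool.Agent.EHP
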