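import Pool.Agent.EHP.Stmts4

/-!
# Consequences in the mean of the slope relation
-/

open Finset
open scoped Real ComplexConjugate

namespace Pool.Agent.EHP

namespace MDRREL

theorem mn_bd {n : ℕ} (hn : (0 : ℝ) < n) (c : Cfg n) {K₁ : ℝ}
    (hs : ∑ j ∈ range n, c.s (j : ℤ) ^ 2 ≤ K₁ / n) {f : ℤ → ℝ} {a b : ℝ} (hb : 0 ≤ b)
    (h : ∀ j, f j ≤ a + b * (n * c.s j) ^ 2) : mn n f ≤ a + b * K₁ := by
  unfold mn
  rw [div_le_iff₀ hn]
  have h1 : ∑ j ∈ range n, f (j : ℤ) ≤ ∑ j ∈ range n, (a + b * (n * c.s (j : ℤ)) ^ 2) :=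
    Finset.sum_le_sum fun (j : ℕ) _ => h (j : ℤ)
  refine h1.trans ?_
  have h2 : ∑ j ∈ range n, (a + b * (n * c.s (j : ℤ)) ^ 2) =
      n * a + b * n ^ 2 * ∑ j ∈ range n, c.s (j : ℤ) ^ 2 := by
    rw [Finset.sum_add_distrib, Finset.sum_const, Finset.card_range, nsmul_eq_mul,
      Finset.mul_sum]
    congr 1
    refine Finset.sum_congr rfl fun j _ => ?_
    ring
  rw [h2]
  have h3 : b * n ^ 2 * ∑ j ∈ range n, c.s (j : ℤ) ^ 2 ≤ b * n ^ 2 * (K₁ / n) :=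
    mul_le_mul_of_nonneg_left hs (by positivity)
  have h4 : b * n ^ 2 * (K₁ / n) = b * K₁ * n := by
    field_simp
  rw [h4] at h3
  linarith

theorem core (n N : ℕ) (c : Cfg n) (L : ℤ → ℤ) {K₁ Cs C₁ : ℝ} (hK : 1 ≤ K₁) (hC₁ : 0 < C₁)
    (hn : 0 < n) (hn1 : 3 * C₁ ≤ n) (hs : ∑ j ∈ range n, c.s (j : ℤ) ^ 2 ≤ K₁ / n)
    (hφ : ∀ j, |c.φ j| ≤ K₁ / n) (hy : ∀ j, |c.y j| ≤ Cs / Real.sqrt n) (hCs : 0 < Cs)
    (hy1 : ∀ j, |c.y j| ≤ 1)
    (hsl : ∀ j, ((n : ℝ) * c.s j - π * (pp N L j - uu N c j)) ^ 2 ≤ C₁ * (1 + |pp N L j|) / n) :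
    mn n (fun j => pp N L j ^ 2) ≤ 2 + 3 * π ^ 2 * K₁ ^ 2 + 3 * K₁ ∧
      mn n (fun j => c.DR j ^ 2) ≤ 4 * K₁ ∧ (∀ j, |uu N c j| ≤ K₁) ∧
      mn n (fun j => (c.DR j - π * (pp N L j - uu N c j)) ^ 2) ≤
        (2 * C₁ * (4 + 3 * π ^ 2 * K₁ ^ 2) + (6 * C₁ + 2 * Cs ^ 2) * K₁) / n := by
  have hnR : (0 : ℝ) < n := by exact_mod_cast hn
  have hpi := Real.pi_gt_three
  have hpi0 := Real.pi_pos
  have hDR : ∀ j, c.DR j = n * c.s j * (1 + c.y j) := by
    intro j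
    have hg := c.g_pos j
    have h1 : c.Δ j = c.s j * c.g j := by
      unfold Cfg.s
      rw [div_mul_cancel₀ _ hg.ne']
    have h2 : c.R (j + 1) - c.R j = n * c.Δ j := by
      unfold Cfg.R Cfg.Δ
      ring
    unfold Cfg.DR
    rw [h2, h1, c.g_eq hn]
    field_simp
  have hu : ∀ j, |uu N c j| ≤ K₁ := by
    intro j
    have h1 : ∀ i, |c.Φ i| ≤ K₁ := by
      intro i
      unfold Cfg.Φ
      rw [abs_mul, abs_of_pos hnR]
      have := mul_le_mul_of_nonneg_left (hφ i) hnR.le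
      rwa [mul_div_cancel₀ _ hnR.ne'] at this
    unfold uu
    rw [abs_div, abs_neg, abs_of_pos (by positivity : (0 : ℝ) < 2 * π), div_le_iff₀ (by positivity)]
    have h2 := abs_sub (c.Φ j) (c.Φ (j + N))
    have h3 := h1 j
    have h4 := h1 (j + N)
    nlinarith
  have hp : ∀ j, pp N L j ^ 2 ≤ (2 + 3 * π ^ 2 * K₁ ^ 2) + 3 * (n * c.s j) ^ 2 := by
    intro j
    have h1 := hsl j
    have h2 : C₁ * (1 + |pp N L j|) / n ≤ (1 + |pp N L j|) / 3 := by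
      rw [div_le_div_iff₀ hnR (by norm_num)]
      have := abs_nonneg (pp N L j)
      nlinarith
    have h3 := sq_abs (pp N L j)
    have h4 : uu N c j ^ 2 ≤ K₁ ^ 2 := by
      rw [← sq_abs]
      exact pow_le_pow_left₀ (abs_nonneg _) (hu j) 2
    have h5 : π ^ 2 * uu N c j ^ 2 ≤ π ^ 2 * K₁ ^ 2 := mul_le_mul_of_nonneg_left h4 (by positivity)
    have h6 : (π * pp N L j) ^ 2 ≤ 3 * ((n * c.s j - π * (pp N L j - uu N c j)) ^ 2 +
        (n * c.s j) ^ 2 + (π * uu N c j) ^ 2) := by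
      have e : π * pp N L j = -(n * c.s j - π * (pp N L j - uu N c j)) + n * c.s j +
        π * uu N c j := by ring
      have key : ∀ a b d : ℝ, (-a + b + d) ^ 2 ≤ 3 * (a ^ 2 + b ^ 2 + d ^ 2) := by
        intro a b d
        nlinarith [sq_nonneg (a + b), sq_nonneg (a + d), sq_nonneg (b - d)]
      rw [e]
      exact key _ _ _
    have h7 : 9 * pp N L j ^ 2 ≤ (π * pp N L j) ^ 2 := by
      have : (3 : ℝ) ^ 2 ≤ π ^ 2 := pow_le_pow_left₀ (by norm_num) hpi.le 2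
      have h8 := mul_le_mul_of_nonneg_right this (sq_nonneg (pp N L j))
      rw [mul_pow]
      linarith
    have h9 : |pp N L j| ≤ 1 + pp N L j ^ 2 := by
      rw [← h3]
      nlinarith [sq_nonneg (|pp N L j| - 1)]
    rw [mul_pow π (uu N c j)] at h6
    have h10 := sq_nonneg (n * c.s j)
    have h11 : 0 ≤ π ^ 2 * K₁ ^ 2 := by positivity
    have h12 := sq_nonneg (pp N L j)
    linarith
  have hp' : ∀ j, |pp N L j| ≤ 1 + pp N L j ^ 2 := by
    intro j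
    have h3 := sq_abs (pp N L j)
    rw [← h3]
    nlinarith [sq_nonneg (|pp N L j| - 1)]
  refine ⟨?_, ?_, hu, ?_⟩
  · exact mn_bd hnR c hs (by norm_num) hp
  · have := mn_bd hnR c hs (f := fun j => c.DR j ^ 2) (a := 0) (b := 4) (by norm_num) (fun j => by
      rw [hDR, mul_pow, zero_add]
      have h1 := abs_le.1 (hy1 j)
      have h2 : (1 + c.y j) ^ 2 ≤ 4 := by nlinarith
      have h3 := mul_le_mul_of_nonneg_left h2 (sq_nonneg (n * c.s j))
      linarith)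
    linarith
  · have := mn_bd hnR c hs (f := fun j => (c.DR j - π * (pp N L j - uu N c j)) ^ 2)
      (a := 2 * C₁ * (4 + 3 * π ^ 2 * K₁ ^ 2) / n) (b := (6 * C₁ + 2 * Cs ^ 2) / n)
      (by positivity) (fun j => by
        have e : c.DR j - π * (pp N L j - uu N c j) =
          (n * c.s j - π * (pp N L j - uu N c j)) + n * c.s j * c.y j := by
          rw [hDR]
          ring
        have h1 : c.y j ^ 2 ≤ Cs ^ 2 / n := by
          have h2 := pow_le_pow_left₀ (abs_nonneg _) (hy j) 2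
          rwa [sq_abs, div_pow, Real.sq_sqrt hnR.le] at h2
        have h2 := mul_le_mul_of_nonneg_left h1 (sq_nonneg (n * c.s j))
        have h3 : C₁ * (1 + |pp N L j|) / n ≤
            C₁ * (4 + 3 * π ^ 2 * K₁ ^ 2 + 3 * (n * c.s j) ^ 2) / n := by
          refine div_le_div_of_nonneg_right (mul_le_mul_of_nonneg_left ?_ hC₁.le) hnR.le
          have := hp j
          have := hp' j
          linarith
        have h4 := hsl j
        have key : ∀ a b : ℝ, (a + b) ^ 2 ≤ 2 * a ^ 2 + 2 * b ^ 2 := by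
          intro a b
          nlinarith [sq_nonneg (a - b)]
        rw [e]
        refine (key _ _).trans ?_
        have e2 : 2 * C₁ * (4 + 3 * π ^ 2 * K₁ ^ 2) / n + (6 * C₁ + 2 * Cs ^ 2) / n *
            (n * c.s j) ^ 2 = 2 * (C₁ * (4 + 3 * π ^ 2 * K₁ ^ 2 + 3 * (n * c.s j) ^ 2) / n) +
            2 * ((n * c.s j) ^ 2 * (Cs ^ 2 / n)) := by
          ring
        rw [e2, mul_pow (n * c.s j) (c.y j)]
        linarith)
    refine this.trans (le_of_eq ?_)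
    ring

end MDRREL

open MDRREL in
theorem m_DRREL : Stmt_SLREL → Stmt_HOLD → Stmt_DRREL := by
  intro hSL hHOLD K
  obtain ⟨C₁, n₁, hC₁, hsl⟩ := hSL K
  obtain ⟨Cs, n₂, hCs, hhold⟩ := hHOLD K
  set K₁ : ℝ := |K| + 1 with hK₁
  have hK1 : 1 ≤ K₁ := by have := abs_nonneg K; linarith
  have hKK : K ≤ K₁ := by have := le_abs_self K; linarith
  have hpi := Real.pi_pos
  set B : ℝ := 2 * C₁ * (4 + 3 * π ^ 2 * K₁ ^ 2) + (6 * C₁ + 2 * Cs ^ 2) * K₁ with hB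
  have hB0 : 0 < B := by positivity
  refine ⟨2 + 3 * π ^ 2 * K₁ ^ 2 + 4 * K₁ + B, max (max n₁ n₂) (max 1 (max ⌈3 * C₁⌉₊ ⌈Cs ^ 2⌉₊)),
    by positivity, fun N hn c hc L hL => ?_⟩
  have hn1 : n₁ ≤ 2 * N := (le_max_left _ _).trans ((le_max_left _ _).trans hn)
  have hn2 : n₂ ≤ 2 * N := (le_max_right _ _).trans ((le_max_left _ _).trans hn)
  have hn3 : 1 ≤ 2 * N := (le_max_left _ _).trans ((le_max_right _ _).trans hn)
  have hn4 : ⌈3 * C₁⌉₊ ≤ 2 * N :=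
    (le_max_left _ _).trans ((le_max_right _ _).trans ((le_max_right _ _).trans hn))
  have hn5 : ⌈Cs ^ 2⌉₊ ≤ 2 * N :=
    (le_max_right _ _).trans ((le_max_right _ _).trans ((le_max_right _ _).trans hn))
  have hn4' : 3 * C₁ ≤ ((2 * N : ℕ) : ℝ) := (Nat.le_ceil _).trans (by exact_mod_cast hn4)
  have hn5' : Cs ^ 2 ≤ ((2 * N : ℕ) : ℝ) := (Nat.le_ceil _).trans (by exact_mod_cast hn5)
  have hnR : (0 : ℝ) < ((2 * N : ℕ) : ℝ) := by exact_mod_cast hn3
  obtain ⟨hys, -⟩ := hhold (2 * N) hn2 c hc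
  have h := core (2 * N) N c L hK1 hC₁ hn3 hn4'
    (hc.hs.trans (div_le_div_of_nonneg_right hKK hnR.le))
    (fun j => (hc.hφ j).trans (div_le_div_of_nonneg_right hKK hnR.le))
    (fun j => (hys j).1) hCs
    (fun j => (hys j).1.trans (by
      rw [div_le_one (Real.sqrt_pos.2 hnR)]
      exact Real.le_sqrt_of_sq_le hn5'))
    (fun j => (hsl N hn1 c hc L hL j).1)
  obtain ⟨h1, h2, h3, h4⟩ := h
  have hq : 0 ≤ 3 * π ^ 2 * K₁ ^ 2 := by positivity
  refine ⟨h1.trans (by linarith), h2.trans (by linarith), fun j => (h3 j).trans (by linarith),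
    h4.trans (div_le_div_of_nonneg_right (by linarith) hnR.le)⟩

end Pool.Agent.EHP
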