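import Pool.Agent.EHP.Stmts5

/-!
# Module EHP_DSTI
-/

open Finset Filter Topology MeasureTheory
open scoped Real Interval

namespace Pool.Agent.EHP

namespace DSTIaux

theorem S_all {x : ℝ} (hx : x ∈ Set.Icc (0 : ℝ) 1) :
    HasSum (fun n : ℕ => 1 / (n : ℝ) ^ 2 * Real.cos (2 * π * n * x)) (π ^ 2 * (x ^ 2 - x + 1 / 6)) := by
  have h := hasSum_one_div_nat_pow_mul_cos one_ne_zero hx
  have e : ((-1 : ℝ) ^ (1 + 1) * (2 * π) ^ (2 * 1) / 2 / (Nat.factorial (2 * 1) : ℕ) *
        (Polynomial.map (algebraMap ℚ ℝ) (Polynomial.bernoulli (2 * 1))).eval x) =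
      π ^ 2 * (x ^ 2 - x + 1 / 6) := by
    have h2 := bernoulliFun_two x
    unfold bernoulliFun at h2
    have h3 : ((Nat.factorial 2 : ℕ) : ℝ) = 2 := by norm_num [Nat.factorial]
    rw [mul_one, h2, h3]
    ring
  rw [e] at h
  simpa only [mul_one] using h

theorem S_odd {x y : ℝ} (hx : x ∈ Set.Icc (0 : ℝ) 1) (hy : y ∈ Set.Icc (0 : ℝ) 1)
    (hxy : y = 2 * x ∨ y = 2 * x - 1) :
    HasSum (fun l : ℕ => 1 / (2 * (l : ℝ) + 1) ^ 2 * Real.cos (2 * π * (2 * l + 1) * x))
      (π ^ 2 * (x ^ 2 - x + 1 / 6) - 1 / 4 * (π ^ 2 * (y ^ 2 - y + 1 / 6))) := by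
  have h1 := S_all hx
  have h2 := (S_all hy).mul_left (1 / 4)
  have he : HasSum (fun k : ℕ => (fun n : ℕ => 1 / (n : ℝ) ^ 2 * Real.cos (2 * π * n * x)) (2 * k))
      (1 / 4 * (π ^ 2 * (y ^ 2 - y + 1 / 6))) := by
    refine h2.congr_fun ?_
    intro k
    have hc : Real.cos (2 * π * ((2 * k : ℕ) : ℝ) * x) = Real.cos (2 * π * k * y) := by
      rcases hxy with rfl | rfl
      · congr 1; push_cast; ring
      · have e : 2 * π * ((2 * k : ℕ) : ℝ) * x = 2 * π * k * (2 * x - 1) + k * (2 * π) := by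
          push_cast; ring
        rw [e, Real.cos_add_nat_mul_two_pi]
    simp only [hc]
    push_cast
    ring
  have hso : Summable (fun k : ℕ =>
      (fun n : ℕ => 1 / (n : ℝ) ^ 2 * Real.cos (2 * π * n * x)) (2 * k + 1)) :=
    h1.summable.comp_injective (fun a b h => by
      have h' : 2 * a + 1 = 2 * b + 1 := h
      omega)
  have h3 := HasSum.even_add_odd
    (f := fun n : ℕ => 1 / (n : ℝ) ^ 2 * Real.cos (2 * π * n * x)) he hso.hasSum
  have h4 := h1.unique h3
  have h5 := hso.hasSum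
  have h6 : (∑' k : ℕ, (fun n : ℕ => 1 / (n : ℝ) ^ 2 * Real.cos (2 * π * n * x)) (2 * k + 1)) =
      π ^ 2 * (x ^ 2 - x + 1 / 6) - 1 / 4 * (π ^ 2 * (y ^ 2 - y + 1 / 6)) := by linarith
  rw [h6] at h5
  refine h5.congr_fun ?_
  intro l
  push_cast
  ring_nf

theorem Dst_sum {t : ℝ} (h0 : 0 ≤ t) (h1 : t ≤ π / 2) :
    HasSum (fun l : ℕ => 4 / π ^ 2 * (1 / (2 * (l : ℝ) + 1) ^ 2 * Real.cos ((6 * l + 3) * t)))
      (1 / 2 - Dst t) := by
  have hpi := Real.pi_pos
  set x : ℝ := 3 * t / (2 * π) with hx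
  have hx0 : 0 ≤ x := by positivity
  have hx1 : x ≤ 3 / 4 := by
    rw [hx, div_le_div_iff₀ (by positivity) (by norm_num)]
    linarith
  have hc : ∀ l : ℕ, 2 * π * (2 * (l : ℝ) + 1) * x = (6 * l + 3) * t := by
    intro l
    rw [hx]
    field_simp
    ring
  unfold Dst
  split_ifs with h
  · have hx2 : 2 * x ≤ 1 := by
      have : 2 * x = 3 * t / π := by rw [hx]; field_simp
      rw [this, div_le_one hpi]
      linarith
    have h2 := (S_odd (x := x) (y := 2 * x) ⟨hx0, by linarith⟩ ⟨by linarith, hx2⟩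
      (Or.inl rfl)).mul_left (4 / π ^ 2)
    have e : 4 / π ^ 2 * (π ^ 2 * (x ^ 2 - x + 1 / 6) -
        1 / 4 * (π ^ 2 * ((2 * x) ^ 2 - 2 * x + 1 / 6))) = 1 / 2 - 3 * t / π := by
      rw [hx]
      field_simp
      ring
    rw [e] at h2
    simpa only [hc] using h2
  · have hx2 : 1 ≤ 2 * x := by
      have : 2 * x = 3 * t / π := by rw [hx]; field_simp
      rw [this, one_le_div hpi]
      linarith
    have h2 := (S_odd (x := x) (y := 2 * x - 1) ⟨hx0, by linarith⟩ ⟨by linarith, by linarith⟩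
      (Or.inr rfl)).mul_left (4 / π ^ 2)
    have e : 4 / π ^ 2 * (π ^ 2 * (x ^ 2 - x + 1 / 6) -
        1 / 4 * (π ^ 2 * ((2 * x - 1) ^ 2 - (2 * x - 1) + 1 / 6))) = 1 / 2 - (2 - 3 * t / π) := by
      rw [hx]
      field_simp
      ring
    rw [e] at h2
    simpa only [hc] using h2

theorem icos (m : ℕ) (hm : 1 ≤ m) : ∫ t in (0 : ℝ)..(π / 2), Real.cos (6 * m * t) = 0 := by
  have hm' : (6 * (m : ℝ)) ≠ 0 := by
    have : (1 : ℝ) ≤ m := by exact_mod_cast hm
    positivity
  rw [intervalIntegral.integral_comp_mul_left (fun t => Real.cos t) hm', integral_cos]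
  have e : 6 * (m : ℝ) * (π / 2) = ((3 * m : ℕ) : ℝ) * π := by push_cast; ring
  rw [e, Real.sin_nat_mul_pi]
  simp

theorem icc (l : ℕ) : ∫ t in (0 : ℝ)..(π / 2), Real.cos (3 * t) * Real.cos ((6 * l + 3) * t) =
    if l = 0 then π / 4 else 0 := by
  have e : ∀ t : ℝ, Real.cos (3 * t) * Real.cos ((6 * l + 3) * t) =
      1 / 2 * Real.cos (6 * l * t) + 1 / 2 * Real.cos (6 * (l + 1 : ℕ) * t) := by
    intro t
    have h1 : 6 * (l : ℝ) * t = (6 * l + 3) * t - 3 * t := by ring
    have h2 : 6 * ((l + 1 : ℕ) : ℝ) * t = (6 * l + 3) * t + 3 * t := by push_cast; ring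
    rw [h1, h2, Real.cos_sub, Real.cos_add]
    ring
  simp only [e]
  rw [intervalIntegral.integral_add (by apply Continuous.intervalIntegrable; fun_prop)
    (by apply Continuous.intervalIntegrable; fun_prop), intervalIntegral.integral_const_mul,
    intervalIntegral.integral_const_mul, icos (l + 1) (by omega)]
  split_ifs with h
  · subst h
    simp
    ring
  · rw [icos l (by omega)]
    simp

theorem sum_sq : Summable (fun l : ℕ => 1 / (2 * (l : ℝ) + 1) ^ 2) := by
  have h : Summable (fun l : ℕ => 1 / (((l + 1 : ℕ) : ℝ)) ^ 2) :=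
    (summable_nat_add_iff 1).2 (Real.summable_one_div_nat_pow.2 one_lt_two)
  refine Summable.of_nonneg_of_le (fun l => by positivity) (fun l => ?_) h
  apply one_div_le_one_div_of_le (by positivity)
  push_cast
  have hl : (0 : ℝ) ≤ l := Nat.cast_nonneg l
  exact pow_le_pow_left₀ (by linarith) (by linarith) 2

theorem summable_f :
    Summable (fun l : ℕ => 1 / ((2 * (l : ℝ) + 1) ^ 2 * (3 * (2 * l + 1) + 1))) := by
  refine Summable.of_nonneg_of_le (fun l => by positivity) (fun l => ?_) sum_sq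
  apply one_div_le_one_div_of_le (by positivity)
  have hl : (0 : ℝ) ≤ l := Nat.cast_nonneg l
  nlinarith [sq_nonneg (2 * (l : ℝ) + 1)]

end DSTIaux

open DSTIaux in
/-- Module EHP_DSTI. -/
theorem m_DSTI : Stmt_WINT → Stmt_DSTI := by
  intro hW
  obtain ⟨hint, -, hk⟩ := hW
  have hpi := Real.pi_pos
  have hWk : IntervalIntegrable Wk volume 0 (π / 2) := by
    have e : Wk = fun t => W0 t - 2 * (1 / 500) * Real.cos (3 * t) := rfl
    rw [e]
    refine hint.sub ?_
    apply Continuous.intervalIntegrable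
    fun_prop
  have hIoc : Ι (0 : ℝ) (π / 2) = Set.Ioc 0 (π / 2) := Set.uIoc_of_le (by positivity)
  have hmain := intervalIntegral.hasSum_integral_of_dominated_convergence
    (μ := volume) (a := 0) (b := π / 2)
    (F := fun (l : ℕ) t => Wk t * (4 / π ^ 2 * (1 / (2 * (l : ℝ) + 1) ^ 2 *
      Real.cos ((6 * l + 3) * t))))
    (f := fun t => Wk t * (1 / 2 - Dst t))
    (fun (l : ℕ) t => |Wk t| * (4 / π ^ 2 * (1 / (2 * (l : ℝ) + 1) ^ 2))) ?_ ?_ ?_ ?_ ?_
  · have hterm : ∀ l : ℕ, ∫ t in (0 : ℝ)..(π / 2), Wk t * (4 / π ^ 2 * (1 / (2 * (l : ℝ) + 1) ^ 2 *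
        Real.cos ((6 * l + 3) * t))) =
        2 / π * (1 / ((2 * (l : ℝ) + 1) ^ 2 * (3 * (2 * l + 1) + 1))) -
          (if l = 0 then 2 / π * (1 / 500) else 0) := by
      intro l
      have h1 := hk (6 * l + 3) (by omega) (by omega)
      have h2 := icc l
      have e : ∀ t : ℝ, Wk t * (4 / π ^ 2 * (1 / (2 * (l : ℝ) + 1) ^ 2 *
          Real.cos ((6 * l + 3) * t))) =
          4 / π ^ 2 * (1 / (2 * (l : ℝ) + 1) ^ 2) * (W0 t * Real.cos (((6 * l + 3 : ℕ) : ℝ) * t)) -
          4 / π ^ 2 * (1 / (2 * (l : ℝ) + 1) ^ 2) * (2 * (1 / 500)) *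
            (Real.cos (3 * t) * Real.cos ((6 * l + 3) * t)) := by
        intro t
        unfold Wk
        push_cast
        ring
      simp only [e]
      rw [intervalIntegral.integral_sub, intervalIntegral.integral_const_mul,
        intervalIntegral.integral_const_mul, h1, h2]
      · have hl : (3 * (2 * (l : ℝ) + 1) + 1) ≠ 0 := by positivity
        have hl2 : (2 * (l : ℝ) + 1) ≠ 0 := by positivity
        have hl3 : (2 * (((6 * l + 3 : ℕ) : ℝ) + 1)) = 2 * (3 * (2 * l + 1) + 1) := by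
          push_cast; ring
        rw [hl3]
        split_ifs with h
        · subst h
          simp
          field_simp
          ring
        · field_simp
          ring
      · apply IntervalIntegrable.const_mul
        exact hint.mul_continuousOn (by fun_prop)
      · apply Continuous.intervalIntegrable
        fun_prop
    simp only [hterm] at hmain
    have h3 : HasSum (fun l : ℕ => 2 / π * (1 / ((2 * (l : ℝ) + 1) ^ 2 * (3 * (2 * l + 1) + 1))) -
          (if l = 0 then 2 / π * (1 / 500) else 0)) (2 / π * cstar - 2 / π * (1 / 500)) := by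
      refine (summable_f.hasSum.mul_left (2 / π)).sub ?_
      exact hasSum_ite_eq 0 _
    have h4 := hmain.unique h3
    unfold Stmt_DSTI
    rw [h4]
    field_simp
  · intro l
    have := (hWk.mul_continuousOn (g := fun t => (4 / π ^ 2 * (1 / (2 * (l : ℝ) + 1) ^ 2 *
      Real.cos ((6 * l + 3) * t)))) (by fun_prop)).def'.aestronglyMeasurable
    exact this
  · intro l
    refine Eventually.of_forall (fun t _ => ?_)
    rw [norm_mul, Real.norm_eq_abs]
    apply mul_le_mul_of_nonneg_left _ (abs_nonneg _)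
    rw [norm_mul, norm_mul, Real.norm_of_nonneg (by positivity), Real.norm_of_nonneg (by positivity)]
    apply mul_le_mul_of_nonneg_left _ (by positivity)
    exact mul_le_of_le_one_right (by positivity) (Real.abs_cos_le_one _)
  · refine Eventually.of_forall (fun t _ => ?_)
    exact (sum_sq.mul_left _).mul_left _
  · have e : (fun t => ∑' l : ℕ, |Wk t| * (4 / π ^ 2 * (1 / (2 * (l : ℝ) + 1) ^ 2))) =
        fun t => |Wk t| * (∑' l : ℕ, 4 / π ^ 2 * (1 / (2 * (l : ℝ) + 1) ^ 2)) := by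
      funext t
      rw [tsum_mul_left]
    rw [e]
    exact hWk.abs.mul_const _
  · refine Eventually.of_forall (fun t ht => ?_)
    rw [hIoc] at ht
    exact (Dst_sum ht.1.le ht.2).mul_left _

end Pool.Agent.EHP
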