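import Pool.Agent.EHP.Stmts5

/-!
# Numerical bounds for the coefficient `e4`
-/

open Finset
open scoped Real ComplexConjugate

namespace Pool.Agent.EHP

namespace ME4

/-- Product of two intervals. -/
theorem mulb {a b a1 a2 b1 b2 : ℝ} (ha0 : 0 ≤ a1) (ha1 : a1 ≤ a) (ha2 : a ≤ a2) (hb0 : 0 ≤ b1)
    (hb1 : b1 ≤ b) (hb2 : b ≤ b2) : a1 * b1 ≤ a * b ∧ a * b ≤ a2 * b2 :=
  ⟨mul_le_mul ha1 hb1 hb0 (ha0.trans ha1), mul_le_mul ha2 hb2 (hb0.trans hb1) (by linarith)⟩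

end ME4

open ME4 in
theorem m_E4 : Stmt_E4 := by
  have hp1 := Real.pi_gt_d6
  have hp2 := Real.pi_lt_d6
  have hl1 := Real.log_three_gt_d9
  have hl2 := Real.log_three_lt_d9
  have hd1 := Real.log_two_gt_d9
  have hd2 := Real.log_two_lt_d9
  have hpi := Real.pi_pos
  have hs1 : (1.73205 : ℝ) ≤ Real.sqrt 3 := Real.le_sqrt_of_sq_le (by norm_num)
  have hs2 : Real.sqrt 3 ≤ 1.732051 := by
    rw [Real.sqrt_le_left (by norm_num)]
    norm_num
  have hss : Real.sqrt 3 ^ 2 = 3 := Real.sq_sqrt (by norm_num)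
  have hs0 : 0 < Real.sqrt 3 := by linarith
  obtain ⟨q, hq⟩ : ∃ q : ℝ, q = 1 / π := ⟨_, rfl⟩
  have hpq : π * q = 1 := by rw [hq]; field_simp
  have hq1 : (0.318309 : ℝ) ≤ q := by
    rw [hq, le_div_iff₀ hpi]
    linarith
  have hq2 : q ≤ 0.31831 := by
    rw [hq, div_le_iff₀ hpi]
    linarith
  have h1 : 1 / (2 * Real.sqrt 3) = Real.sqrt 3 / 6 := by
    rw [div_eq_div_iff (by positivity) (by norm_num)]
    linarith
  have h2 : 6 / π ^ 2 = 6 * q ^ 2 := by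
    rw [hq]
    ring
  have key : e4 = 15 / 8 * (π * Real.sqrt 3 * Real.log 3 / 144 - π * Real.sqrt 3 / 216 + π * π / 432 -
      Real.log 3 / 8 + π * Real.sqrt 3 / 24 - 1 / 4 + 1 / 500 + Real.sqrt 3 * Real.log 3 * q / 4 +
      1 / 12 - Real.sqrt 3 * q / 2 + (9 * Real.log 3 - 12 * Real.log 2 - 1 / 125) * (q * q)) := by
    unfold e4 W1P al I0
    rw [h1, h2]
    linear_combination (15 / 8) * (Real.sqrt 3 * Real.log 3 * q / 4 + π * q / 12 + 1 / 12 -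
      Real.sqrt 3 * q / 2) * hpq
  have a1 := mulb (by norm_num) hp1.le hp2.le (by norm_num) hs1 hs2
  have a2 := mulb (a := π * Real.sqrt 3) (b := Real.log 3) (by norm_num) a1.1 a1.2 (by norm_num)
    hl1.le hl2.le
  have a3 := mulb (by norm_num) hp1.le hp2.le (by norm_num) hp1.le hp2.le
  have a4 := mulb (by norm_num) hs1 hs2 (by norm_num) hl1.le hl2.le
  have a5 := mulb (a := Real.sqrt 3 * Real.log 3) (b := q) (by norm_num) a4.1 a4.2 (by norm_num)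
    hq1 hq2
  have a6 := mulb (by norm_num) hs1 hs2 (by norm_num) hq1 hq2
  have a7 := mulb (by norm_num) hq1 hq2 (by norm_num) hq1 hq2
  have e1 : (1.5617 : ℝ) ≤ 9 * Real.log 3 - 12 * Real.log 2 - 1 / 125 := by norm_num at *; linarith
  have e2 : 9 * Real.log 3 - 12 * Real.log 2 - 1 / 125 ≤ 1.5618 := by norm_num at *; linarith
  have a8 := mulb (b := q * q) (by norm_num) e1 e2 (by norm_num) a7.1 a7.2
  unfold Stmt_E4
  rw [key]
  constructor
  · obtain ⟨a11, a12⟩ := a1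
    obtain ⟨a21, a22⟩ := a2
    obtain ⟨a31, a32⟩ := a3
    obtain ⟨a51, a52⟩ := a5
    obtain ⟨a61, a62⟩ := a6
    obtain ⟨a81, a82⟩ := a8
    norm_num at *
    linarith
  · obtain ⟨a11, a12⟩ := a1
    obtain ⟨a21, a22⟩ := a2
    obtain ⟨a31, a32⟩ := a3
    obtain ⟨a51, a52⟩ := a5
    obtain ⟨a61, a62⟩ := a6
    obtain ⟨a81, a82⟩ := a8
    norm_num at *
    linarith

end Pool.Agent.EHP
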