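import Pool.Agent.EHP.Stmts4

/-!
# Contribution of the high modes
-/

open Finset
open scoped Real ComplexConjugate

namespace Pool.Agent.EHP

namespace MEHI

theorem pars1 (hP : Stmt_PARS) {n N : ℕ} (hnN : n = 2 * N) (hN : 1 ≤ N) {f : ℤ → ℝ}
    (hf : ∀ j, f (j + n) = f j) :
    mn n (fun j => f j ^ 2) = ∑ k ∈ Finset.Ioc (-(N : ℤ)) N, ‖dr n f k‖ ^ 2 := by
  subst hnN
  have h := (hP N f f hN hf hf).1
  have e : (fun j => f j ^ 2) = fun j => f j * f j := by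
    funext j
    ring
  rw [e, h]
  refine Finset.sum_congr rfl fun k _ => ?_
  rw [Complex.mul_conj, Complex.ofReal_re, Complex.normSq_eq_norm_sq]

theorem pars_le (hP : Stmt_PARS) {n N : ℕ} (hnN : n = 2 * N) (hN : 1 ≤ N) {f : ℤ → ℝ}
    (hf : ∀ j, f (j + n) = f j) {s : Finset ℤ} (hs : s ⊆ Finset.Ioc (-(N : ℤ)) N) {B : ℝ}
    (hB : mn n (fun j => f j ^ 2) ≤ B) : ∑ k ∈ s, ‖dr n f k‖ ^ 2 ≤ B := by
  rw [pars1 hP hnN hN hf] at hB
  exact (Finset.sum_le_sum_of_subset_of_nonneg hs fun _ _ _ => sq_nonneg _).trans hB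

theorem dr_lin (n : ℕ) (a b d : ℤ → ℝ) (t : ℝ) (k : ℤ) :
    dr n (fun j => a j - t * (b j - d j)) k = dr n a k - t * (dr n b k - dr n d k) := by
  unfold dr dft
  rw [← sub_div, ← Finset.sum_sub_distrib, ← mul_div_assoc, ← sub_div, Finset.mul_sum,
    ← Finset.sum_sub_distrib]
  congr 1
  refine Finset.sum_congr rfl fun j _ => ?_
  push_cast
  ring

theorem Φ_add {n : ℕ} (hn : 0 < n) (c : Cfg n) (j : ℤ) : c.Φ (j + n) = c.Φ j := by
  unfold Cfg.Φ
  rw [c.φ_add hn]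

theorem DR_add {n : ℕ} (c : Cfg n) (j : ℤ) : c.DR (j + n) = c.DR j := by
  unfold Cfg.DR Cfg.R
  have e : j + (n : ℤ) + 1 = (j + 1) + n := by ring
  rw [e, c.ρ_add, c.ρ_add]

theorem uu_add {n N : ℕ} (hn : 0 < n) (c : Cfg n) (j : ℤ) : uu N c (j + n) = uu N c j := by
  unfold uu
  have e : j + (n : ℤ) + N = (j + N) + n := by ring
  rw [e, Φ_add hn, Φ_add hn]

theorem pp_add {n N : ℕ} {L : ℤ → ℤ} (hL : ∀ v, L (v + n) = L v + n) (j : ℤ) :
    pp N L (j + n) = pp N L j := by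
  unfold pp
  rw [hL]
  congr 2
  ring

/-- The coefficients of `u`. -/
theorem uhat (hD : Stmt_DFTS) {n N : ℕ} (hn : 1 ≤ n) (c : Cfg n) (k : ℤ) :
    ‖dr n (uu N c) k‖ ≤ ‖dr n c.Φ k‖ / π := by
  have hpi := Real.pi_pos
  have h := (hD n c.Φ hn (Φ_add hn c) k N).1
  have e1 : dr n (uu N c) k = (-(1 / (2 * π)) : ℝ) * (dr n c.Φ k - dr n (fun j => c.Φ (j + N)) k) := by
    unfold dr dft
    rw [← sub_div, ← Finset.sum_sub_distrib, ← mul_div_assoc, Finset.mul_sum]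
    congr 1
    refine Finset.sum_congr rfl fun j _ => ?_
    unfold uu
    push_cast
    ring
  rw [e1, h, norm_mul, Complex.norm_real, Real.norm_eq_abs, abs_neg, abs_of_pos (by positivity)]
  have h2 : ‖dr n c.Φ k - Complex.exp ((2 * π * k * ((N : ℤ) : ℝ) / n : ℝ) * Complex.I) *
      dr n c.Φ k‖ ≤ 2 * ‖dr n c.Φ k‖ := by
    refine (norm_sub_le _ _).trans (le_of_eq ?_)
    rw [norm_mul, Complex.norm_exp_ofReal_mul_I]
    ring
  have h3 := mul_le_mul_of_nonneg_left h2 (show 0 ≤ 1 / (2 * π) by positivity)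
  refine h3.trans (le_of_eq ?_)
  field_simp

/-- The coefficients of `Φ`. -/
theorem phat (hD : Stmt_DFTS) {n : ℕ} (hn : 1 ≤ n) (c : Cfg n) {k : ℤ} (hk : 2 * |(k : ℝ)| ≤ n) :
    2 * |(k : ℝ)| * ‖dr n c.Φ k‖ ≤ π * n * ‖dr n c.y k‖ := by
  have hpi := Real.pi_pos
  have hnR : (0 : ℝ) < n := by exact_mod_cast hn
  have h := (hD n c.Φ hn (Φ_add hn c) k 1).1
  have hy : ∀ j, c.Φ (j + 1) - c.Φ j = 2 * π * c.y j := by
    intro j
    unfold Cfg.Φ Cfg.φ Cfg.y Cfg.g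
    push_cast
    field_simp
    ring
  have e1 : (2 * π : ℝ) * dr n c.y k = dr n (fun j => c.Φ (j + 1)) k - dr n c.Φ k := by
    unfold dr dft
    rw [← sub_div, ← Finset.sum_sub_distrib, ← mul_div_assoc, Finset.mul_sum]
    congr 1
    refine Finset.sum_congr rfl fun j _ => ?_
    rw [← sub_mul, ← Complex.ofReal_sub, hy]
    push_cast
    ring
  rw [h] at e1
  have e2 : Complex.exp ((2 * π * k * ((1 : ℤ) : ℝ) / n : ℝ) * Complex.I) * dr n c.Φ k -
      dr n c.Φ k = (Complex.exp ((2 * π * k / n : ℝ) * Complex.I) - 1) * dr n c.Φ k := by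
    rw [Int.cast_one, mul_one]
    ring
  rw [e2] at e1
  have e3 := congrArg norm e1
  rw [norm_mul, norm_mul, Complex.norm_real, Real.norm_eq_abs,
    abs_of_pos (show 0 < 2 * π by positivity)] at e3
  have e4 : 4 * |(k : ℝ)| / n ≤ ‖Complex.exp ((2 * π * k / n : ℝ) * Complex.I) - 1‖ := by
    have h1 : ‖Complex.exp ((2 * π * k / n : ℝ) * Complex.I) - 1‖ =
        2 * |Real.sin (π * k / n)| := by
      have h2 : ‖Complex.exp ((2 * π * k / n : ℝ) * Complex.I) - 1‖ ^ 2 =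
          (2 * |Real.sin (π * k / n)|) ^ 2 := by
        rw [← Complex.normSq_eq_norm_sq, Complex.exp_mul_I, ← Complex.ofReal_cos,
          ← Complex.ofReal_sin, Complex.normSq_apply]
        simp only [Complex.sub_re, Complex.add_re, Complex.ofReal_re, Complex.mul_re,
          Complex.I_re, mul_zero, Complex.ofReal_im, Complex.I_im, mul_one, sub_self, add_zero,
          Complex.one_re, Complex.sub_im, Complex.add_im, Complex.mul_im, zero_add,
          Complex.one_im, sub_zero]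
        have h3 : (2 * π * k / n : ℝ) = 2 * (π * k / n) := by ring
        rw [h3, Real.cos_two_mul', Real.sin_two_mul, mul_pow, sq_abs]
        have h4 := Real.sin_sq_add_cos_sq (π * k / n)
        have h5 : Real.cos (π * k / n) ^ 2 = 1 - Real.sin (π * k / n) ^ 2 := by linarith
        ring_nf
        simp only [show Real.cos (π * k * (n : ℝ)⁻¹) ^ 4 = (Real.cos (π * k * (n : ℝ)⁻¹) ^ 2) ^ 2 by ring]
        have h6 : Real.cos (π * k * (n : ℝ)⁻¹) ^ 2 = 1 - Real.sin (π * k * (n : ℝ)⁻¹) ^ 2 := by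
          rw [← div_eq_mul_inv]
          exact h5
        rw [h6]
        ring
      exact (pow_left_inj₀ (norm_nonneg _) (by positivity) two_ne_zero).1 h2
    rw [h1]
    have h5 : |Real.sin (π * k / n)| = Real.sin (π * |(k : ℝ)| / n) := by
      have h6 : 0 ≤ Real.sin (π * |(k : ℝ)| / n) := by
        apply Real.sin_nonneg_of_nonneg_of_le_pi (by positivity)
        rw [div_le_iff₀ hnR]
        nlinarith [abs_nonneg (k : ℝ)]
      rcases abs_cases (k : ℝ) with ⟨h7, _⟩ | ⟨h7, _⟩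
      · rw [h7] at h6 ⊢
        exact abs_of_nonneg h6
      · rw [h7] at h6 ⊢
        have h8 : π * -(k : ℝ) / n = -(π * k / n) := by ring
        rw [h8, Real.sin_neg] at h6 ⊢
        exact abs_of_nonpos (by linarith)
    rw [h5]
    have h6 := Real.mul_le_sin (x := π * |(k : ℝ)| / n) (by positivity) (by
      rw [div_le_div_iff₀ hnR (by norm_num)]
      nlinarith [abs_nonneg (k : ℝ)])
    have h7 : 2 / π * (π * |(k : ℝ)| / n) = 2 * |(k : ℝ)| / n := by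
      field_simp
    rw [h7] at h6
    have h8 : 4 * |(k : ℝ)| / n = 2 * (2 * |(k : ℝ)| / n) := by ring
    rw [h8]
    linarith
  have h9 := mul_le_mul_of_nonneg_right e4 (norm_nonneg (dr n c.Φ k))
  rw [← e3, div_mul_eq_mul_div, div_le_iff₀ hnR] at h9
  linarith

theorem core (hP : Stmt_PARS) (hD : Stmt_DFTS) {n N M : ℕ} (hnN : n = 2 * N) (hN : 1 ≤ N)
    (c : Cfg n) {L : ℤ → ℤ} (hL : ∀ v, L (v + n) = L v + n) {K₁ C₁ C₂ : ℝ} (hK1 : 1 ≤ K₁)
    (hC₁ : 0 < C₁) (hC₂ : C₂ = π ^ 2 * K₁ / 2 + 2 * C₁) (hM5 : 5 ≤ M)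
    (hy : ∑ j ∈ range n, c.y (j : ℤ) ^ 2 ≤ K₁ / n)
    (d2 : mn n (fun j => c.DR j ^ 2) ≤ C₁)
    (d4 : mn n (fun j => (c.DR j - π * (pp N L j - uu N c j)) ^ 2) ≤ C₁ / n)
    (hmode : ∀ k : ℤ, k ≠ 0 → |k| ≤ N →
      EM c k ≤ -(1 / 2) * (1 - 5 / |(k : ℝ)|) * ‖dr n c.DR k‖ ^ 2) :
    ∑ k ∈ (Finset.Ioc (-(N : ℤ)) N).filter (fun k => (M : ℤ) < |k|), EM c k ≤
        -(π ^ 2 / 2) * ∑ k ∈ (Finset.Ioc (-(N : ℤ)) N).filter (fun k => (M : ℤ) < |k|),
          ‖dr n (pp N L) k‖ ^ 2 + (3 * C₁ + 2 * C₂) / M + (3 * C₁ + 2 * C₂) / Real.sqrt n := by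
  have hpi := Real.pi_pos
  have hn0 : 0 < n := by omega
  have hnR : (0 : ℝ) < n := by exact_mod_cast hn0
  have hMR : (5 : ℝ) ≤ M := by exact_mod_cast hM5
  have hMR0 : (0 : ℝ) < M := by linarith
  have hC₂0 : 0 < C₂ := by rw [hC₂]; positivity
  set s := (Finset.Ioc (-(N : ℤ)) N).filter (fun k => (M : ℤ) < |k|) with hs
  have hss : s ⊆ Finset.Ioc (-(N : ℤ)) N := Finset.filter_subset _ _
  have hk : ∀ k ∈ s, k ≠ 0 ∧ |k| ≤ N ∧ (M : ℝ) < |(k : ℝ)| := by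
    intro k hk
    rw [hs, Finset.mem_filter, Finset.mem_Ioc] at hk
    obtain ⟨⟨h1, h2⟩, h3⟩ := hk
    refine ⟨?_, abs_le.2 ⟨h1.le, h2⟩, ?_⟩
    · rintro rfl
      rw [abs_zero] at h3
      omega
    · exact_mod_cast h3
  have hsq : 0 < Real.sqrt n := Real.sqrt_pos.2 hnR
  set δ : ℝ := 1 / M + 1 / Real.sqrt n with hδ
  have hδ0 : 0 < δ := by positivity
  have hδ2 : δ ≤ 2 := by
    have h1 : 1 / (M : ℝ) ≤ 1 := by rw [div_le_one hMR0]; linarith
    have h2 : 1 / Real.sqrt n ≤ 1 := by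
      rw [div_le_one hsq]
      exact Real.one_le_sqrt.2 (by exact_mod_cast hn0)
    linarith
  -- the error vectors
  set E : ℤ → ℝ := fun j => c.DR j - π * (pp N L j - uu N c j) with hE
  have hEadd : ∀ j, E (j + n) = E j := by
    intro j
    simp only [hE]
    rw [DR_add, pp_add hL, uu_add hn0]
  have hEk : ∀ k, dr n E k = dr n c.DR k - π * (dr n (pp N L) k - dr n (uu N c) k) :=
    fun k => dr_lin n c.DR (pp N L) (uu N c) π k
  have sE : ∑ k ∈ s, ‖dr n E k‖ ^ 2 ≤ C₁ / n := pars_le hP hnN hN hEadd hss d4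
  have sV : ∑ k ∈ s, ‖dr n c.DR k‖ ^ 2 ≤ C₁ := pars_le hP hnN hN (DR_add c) hss d2
  have sy : ∑ k ∈ s, ‖dr n c.y k‖ ^ 2 ≤ K₁ / n ^ 2 := by
    refine pars_le hP hnN hN c.y_add hss ?_
    unfold mn
    rw [div_le_iff₀ hnR]
    refine hy.trans (le_of_eq ?_)
    field_simp
  have su : ∑ k ∈ s, ‖dr n (uu N c) k‖ ^ 2 ≤ K₁ / (4 * M ^ 2) := by
    have h1 : ∀ k ∈ s, ‖dr n (uu N c) k‖ ^ 2 ≤ n ^ 2 / (4 * M ^ 2) * ‖dr n c.y k‖ ^ 2 := by
      intro k hks
      obtain ⟨h1, h2, h3⟩ := hk k hks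
      have h4 : 2 * |(k : ℝ)| ≤ n := by
        have : (|k| : ℝ) ≤ (N : ℝ) := by exact_mod_cast h2
        rw [hnN]
        push_cast
        linarith
      have h5 := phat hD hn0 c h4
      have h6 := uhat hD (N := N) hn0 c k
      have h7 : ‖dr n (uu N c) k‖ ≤ n / (2 * M) * ‖dr n c.y k‖ := by
        refine h6.trans ?_
        rw [div_le_iff₀ hpi]
        have h8 : 2 * M * ‖dr n c.Φ k‖ ≤ π * n * ‖dr n c.y k‖ :=
          le_trans (mul_le_mul_of_nonneg_right (by linarith) (norm_nonneg _)) h5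
        have h9 : n / (2 * M) * ‖dr n c.y k‖ * π = (π * n * ‖dr n c.y k‖) / (2 * M) := by ring
        rw [h9, le_div_iff₀ (by positivity)]
        linarith
      have h8 := pow_le_pow_left₀ (norm_nonneg _) h7 2
      refine h8.trans (le_of_eq ?_)
      ring
    refine (Finset.sum_le_sum h1).trans ?_
    rw [← Finset.mul_sum]
    refine (mul_le_mul_of_nonneg_left sy (by positivity)).trans (le_of_eq ?_)
    field_simp
  have sw : ∑ k ∈ s, ‖(π : ℂ) * dr n (uu N c) k - dr n E k‖ ^ 2 ≤ C₂ * δ ^ 2 := by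
    have h1 : ∀ k ∈ s, ‖(π : ℂ) * dr n (uu N c) k - dr n E k‖ ^ 2 ≤
        2 * π ^ 2 * ‖dr n (uu N c) k‖ ^ 2 + 2 * ‖dr n E k‖ ^ 2 := by
      intro k _
      have h2 := norm_sub_le ((π : ℂ) * dr n (uu N c) k) (dr n E k)
      rw [norm_mul, Complex.norm_real, Real.norm_eq_abs, abs_of_pos hpi] at h2
      have h3 := pow_le_pow_left₀ (norm_nonneg _) h2 2
      nlinarith [sq_nonneg (π * ‖dr n (uu N c) k‖ - ‖dr n E k‖)]
    refine (Finset.sum_le_sum h1).trans ?_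
    rw [Finset.sum_add_distrib, ← Finset.mul_sum, ← Finset.mul_sum]
    have h2 := mul_le_mul_of_nonneg_left su (show 0 ≤ 2 * π ^ 2 by positivity)
    have h3 : 2 * π ^ 2 * (K₁ / (4 * M ^ 2)) = π ^ 2 * K₁ / 2 * (1 / M ^ 2) := by
      field_simp
      ring
    have h4 : 1 / (M : ℝ) ^ 2 ≤ δ ^ 2 := by
      have h5 : 1 / (M : ℝ) ≤ δ := by rw [hδ]; linarith [show 0 < 1 / Real.sqrt n by positivity]
      have := pow_le_pow_left₀ (by positivity) h5 2
      rwa [div_pow, one_pow] at this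
    have h5 : 1 / (n : ℝ) ≤ δ ^ 2 := by
      have h5 : 1 / Real.sqrt n ≤ δ := by rw [hδ]; linarith [show 0 < 1 / (M : ℝ) by positivity]
      have := pow_le_pow_left₀ (by positivity) h5 2
      rwa [div_pow, one_pow, Real.sq_sqrt hnR.le] at this
    have h6 := mul_le_mul_of_nonneg_left h4 (show 0 ≤ π ^ 2 * K₁ / 2 by positivity)
    have h7 := mul_le_mul_of_nonneg_left h5 (show 0 ≤ 2 * C₁ by positivity)
    have h8 : C₁ / n = C₁ * (1 / n) := by ring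
    rw [h3] at h2
    rw [h8] at sE
    rw [hC₂]
    linarith
  -- comparison of p and V
  have hp : π ^ 2 * ∑ k ∈ s, ‖dr n (pp N L) k‖ ^ 2 ≤
      ∑ k ∈ s, ‖dr n c.DR k‖ ^ 2 + δ * (C₁ + 3 * C₂) := by
    have h1 : ∀ k ∈ s, π ^ 2 * ‖dr n (pp N L) k‖ ^ 2 ≤ (1 + δ) * ‖dr n c.DR k‖ ^ 2 +
        (1 + 1 / δ) * ‖(π : ℂ) * dr n (uu N c) k - dr n E k‖ ^ 2 := by
      intro k _
      have h2 : (π : ℂ) * dr n (pp N L) k = dr n c.DR k +
          ((π : ℂ) * dr n (uu N c) k - dr n E k) := by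
        rw [hEk]
        ring
      have h3 := norm_add_le (dr n c.DR k) ((π : ℂ) * dr n (uu N c) k - dr n E k)
      rw [← h2, norm_mul, Complex.norm_real, Real.norm_eq_abs, abs_of_pos hpi] at h3
      have h4 := pow_le_pow_left₀ (by positivity) h3 2
      set v := ‖dr n c.DR k‖
      set w := ‖(π : ℂ) * dr n (uu N c) k - dr n E k‖
      have h5 : (v + w) ^ 2 ≤ (1 + δ) * v ^ 2 + (1 + 1 / δ) * w ^ 2 := by
        have h6 : (1 + δ) * v ^ 2 + (1 + 1 / δ) * w ^ 2 - (v + w) ^ 2 =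
            δ * (v - w / δ) ^ 2 := by
          field_simp
          ring
        have h7 : 0 ≤ δ * (v - w / δ) ^ 2 := by positivity
        linarith
      rw [mul_pow] at h4
      exact h4.trans h5
    rw [Finset.mul_sum]
    refine (Finset.sum_le_sum h1).trans ?_
    rw [Finset.sum_add_distrib, ← Finset.mul_sum, ← Finset.mul_sum]
    have h2 := mul_le_mul_of_nonneg_left sV hδ0.le
    have h3 := mul_le_mul_of_nonneg_left sw (show 0 ≤ 1 + 1 / δ by positivity)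
    have h4 : (1 + 1 / δ) * (C₂ * δ ^ 2) = C₂ * (δ * δ) + C₂ * δ := by
      field_simp
    have h5 : δ * δ ≤ 2 * δ := mul_le_mul_of_nonneg_right hδ2 hδ0.le
    have h6 := mul_le_mul_of_nonneg_left h5 hC₂0.le
    rw [h4] at h3
    linarith
  have hEM : ∑ k ∈ s, EM c k ≤ -(1 / 2) * ∑ k ∈ s, ‖dr n c.DR k‖ ^ 2 + 5 / (2 * M) * C₁ := by
    have h1 : ∀ k ∈ s, EM c k ≤ -(1 / 2) * ‖dr n c.DR k‖ ^ 2 + 5 / (2 * M) * ‖dr n c.DR k‖ ^ 2 := by
      intro k hks
      obtain ⟨h1, h2, h3⟩ := hk k hks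
      refine (hmode k h1 h2).trans ?_
      have h4 : 5 / |(k : ℝ)| ≤ 5 / M := div_le_div_of_nonneg_left (by norm_num) hMR0 h3.le
      have h5 := mul_le_mul_of_nonneg_right h4 (sq_nonneg ‖dr n c.DR k‖)
      have h6 : 5 / (2 * (M : ℝ)) = 5 / M / 2 := by
        rw [mul_comm, div_div]
      rw [h6]
      linarith
    refine (Finset.sum_le_sum h1).trans ?_
    rw [Finset.sum_add_distrib, ← Finset.mul_sum, ← Finset.mul_sum]
    have h2 := mul_le_mul_of_nonneg_left sV (show 0 ≤ 5 / (2 * (M : ℝ)) by positivity)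
    linarith
  have h1 : (3 * C₁ + 2 * C₂) / M + (3 * C₁ + 2 * C₂) / Real.sqrt n = δ * (3 * C₁ + 2 * C₂) := by
    rw [hδ]
    ring
  rw [add_assoc, h1]
  have h2 : 5 / (2 * (M : ℝ)) * C₁ ≤ 5 / 2 * (δ * C₁) := by
    have h3 : 1 / (M : ℝ) ≤ δ := by rw [hδ]; linarith [show 0 < 1 / Real.sqrt n by positivity]
    have h4 := mul_le_mul_of_nonneg_right h3 hC₁.le
    have h5 : 5 / (2 * (M : ℝ)) * C₁ = 5 / 2 * (1 / M * C₁) := by
      field_simp
    rw [h5]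
    linarith
  have h3 : 0 ≤ δ * C₂ := by positivity
  linarith

end MEHI

open MEHI in
theorem m_EHI : Stmt_DRREL → Stmt_PARS → Stmt_MODEHI → Stmt_DFTS → Stmt_EHI := by
  intro hDR hP hM hD K
  obtain ⟨C₁, n₁, hC₁, hdr⟩ := hDR K
  set K₁ : ℝ := |K| + 1 with hK₁
  have hK1 : 1 ≤ K₁ := by have := abs_nonneg K; linarith
  have hKK : K ≤ K₁ := by have := le_abs_self K; linarith
  have hpi := Real.pi_pos
  set C₂ : ℝ := π ^ 2 * K₁ / 2 + 2 * C₁ with hC₂
  have hC₂0 : 0 < C₂ := by positivity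
  refine ⟨3 * C₁ + 2 * C₂, max n₁ 1, by positivity, fun N hn c hc L hL M hM5 hMN => ?_⟩
  have hn1 : n₁ ≤ 2 * N := (le_max_left _ _).trans hn
  have hN : 1 ≤ N := by omega
  obtain ⟨-, d2, -, d4⟩ := hdr N hn1 c hc L hL
  exact core hP hD rfl hN c hL.piv.add hK1 hC₁ hC₂ hM5
    (hc.hy.trans (div_le_div_of_nonneg_right hKK (Nat.cast_nonneg _))) d2 d4 (hM N c hN)

end Pool.Agent.EHP
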