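import Pool.Agent.EHP.Stmts4

/-!
# Contribution of a low mode: `Stmt_ELO`
-/

open Finset
open scoped Real ComplexConjugate

namespace Pool.Agent.EHP

namespace M_ELO

theorem dr_sq_le {n : ℕ} (hn : 1 ≤ n) (f : ℤ → ℝ) (k : ℤ) :
    ‖dr n f k‖ ^ 2 ≤ mn n (fun j => f j ^ 2) := by
  have hn0 : (0 : ℝ) < n := by exact_mod_cast hn
  have h1 : ‖dr n f k‖ ≤ (∑ j ∈ range n, |f (j : ℤ)|) / n := by
    unfold dr dft
    rw [norm_div, Complex.norm_natCast]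
    gcongr
    refine (norm_sum_le _ _).trans (le_of_eq ?_)
    apply Finset.sum_congr rfl
    intro j _
    rw [norm_mul]
    have : ‖Complex.exp (-((2 * π * (k : ℝ) * (j : ℝ) / (n : ℝ) : ℝ) : ℂ) * Complex.I)‖ = 1 := by
      rw [← Complex.ofReal_neg]
      exact Complex.norm_exp_ofReal_mul_I _
    simp only [Complex.norm_real, Real.norm_eq_abs]
    rw [this, mul_one]
  have h2 : (∑ j ∈ range n, |f (j : ℤ)|) ^ 2 ≤ n * ∑ j ∈ range n, f (j : ℤ) ^ 2 := by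
    have := sq_sum_le_card_mul_sum_sq (s := range n) (f := fun j : ℕ => |f (j : ℤ)|)
    rw [Finset.card_range] at this
    simpa only [sq_abs] using this
  calc ‖dr n f k‖ ^ 2 ≤ ((∑ j ∈ range n, |f (j : ℤ)|) / n) ^ 2 :=
        pow_le_pow_left₀ (norm_nonneg _) h1 2
    _ = (∑ j ∈ range n, |f (j : ℤ)|) ^ 2 / n ^ 2 := by rw [div_pow]
    _ ≤ (n * ∑ j ∈ range n, f (j : ℤ) ^ 2) / n ^ 2 := by gcongr
    _ = mn n (fun j => f j ^ 2) := by
        unfold mn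
        field_simp

theorem mn_mono {n : ℕ} {f g : ℤ → ℝ} (h : ∀ j, f j ≤ g j) : mn n f ≤ mn n g := by
  unfold mn
  gcongr with j _
  exact h _

theorem mn_const {n : ℕ} (hn : 1 ≤ n) (a : ℝ) : mn n (fun _ => a) = a := by
  unfold mn
  have : (0 : ℝ) < n := by exact_mod_cast hn
  rw [Finset.sum_const, Finset.card_range, nsmul_eq_mul]
  field_simp

theorem mn_sq_le {n : ℕ} (hn : 1 ≤ n) {f : ℤ → ℝ} {a : ℝ} (h : ∀ j, |f j| ≤ a) :
    mn n (fun j => f j ^ 2) ≤ a ^ 2 := by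
  calc mn n (fun j => f j ^ 2) ≤ mn n (fun _ => a ^ 2) := mn_mono fun j => by
        rw [← sq_abs]
        exact pow_le_pow_left₀ (abs_nonneg _) (h j) 2
    _ = a ^ 2 := mn_const hn _

theorem dr_lin (n : ℕ) (f g : ℤ → ℝ) (a b : ℝ) (k : ℤ) :
    dr n (fun j => a * f j + b * g j) k = a * dr n f k + b * dr n g k := by
  unfold dr dft
  rw [← mul_div_assoc, ← mul_div_assoc, ← add_div, Finset.mul_sum, Finset.mul_sum,
    ← Finset.sum_add_distrib]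
  congr 1
  apply Finset.sum_congr rfl
  intro j _
  push_cast
  ring

/-- symmetry of the energies of the modes -/
theorem EM_neg (hD : Stmt_DFTS) {n : ℕ} (hn : 1 ≤ n) (c : Cfg n) (k : ℤ) :
    EM c (-k) = EM c k := by
  have hΦper : ∀ j, c.Φ (j + n) = c.Φ j := fun j => by
    unfold Cfg.Φ
    rw [c.φ_add (by omega)]
  have hRper : ∀ j, c.R (j + n) = c.R j := fun j => by
    unfold Cfg.R
    rw [c.ρ_add]
  have hDRper : ∀ j, c.DR (j + n) = c.DR j := fun j => by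
    unfold Cfg.DR
    have : j + (n : ℤ) + 1 = (j + 1) + n := by ring
    rw [this, hRper, hRper]
  have e1 := (hD n c.Φ hn hΦper k 0).2.1
  have e2 := (hD n c.R hn hRper k 0).2.1
  have e3 := (hD n c.DR hn hDRper k 0).2.1
  have e4 : kap n (-k) = kap n k := by
    unfold kap
    push_cast
    rw [abs_neg]
  have e5 : (1 + Complex.exp ((2 * π * ((-k : ℤ) : ℝ) / n : ℝ) * Complex.I)) / 2 =
      conj ((1 + Complex.exp ((2 * π * k / n : ℝ) * Complex.I)) / 2) := by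
    rw [map_div₀, map_add, map_one, ← Complex.exp_conj, map_mul, Complex.conj_I,
      Complex.conj_ofReal]
    have : conj (2 : ℂ) = 2 := Complex.conj_ofNat 2
    rw [this]
    congr 3
    push_cast
    ring
  unfold EM
  rw [e1, e2, e3, e4, e5, ← map_mul, ← map_mul, Complex.conj_re, Complex.norm_conj,
    Complex.norm_conj, Complex.norm_conj]

theorem dr_DR_zero {n : ℕ} (c : Cfg n) : dr n c.DR 0 = 0 := by
  have hRper : ∀ j, c.R (j + n) = c.R j := fun j => by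
    unfold Cfg.R
    rw [c.ρ_add]
  have h : ∑ j ∈ range n, c.DR (j : ℤ) = 0 := by
    unfold Cfg.DR
    rw [← Finset.mul_sum, Finset.sum_sub_distrib, sum_shift hRper 1, sub_self, mul_zero]
  unfold dr dft
  have e : ∑ j ∈ range n, (c.DR (j : ℤ) : ℂ) *
      Complex.exp (-((2 * π * ((0 : ℤ) : ℝ) * (j : ℝ) / (n : ℝ) : ℝ) : ℂ) * Complex.I) =
      ((∑ j ∈ range n, c.DR (j : ℤ) : ℝ) : ℂ) := by
    push_cast
    apply Finset.sum_congr rfl
    intro j _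
    simp
  rw [e, h]
  simp

/-- for odd `k` the coefficient of `u` is that of `-Φ / π` -/
theorem dr_uu (hD : Stmt_DFTS) {N : ℕ} (hN : 1 ≤ N) (c : Cfg (2 * N)) (k : ℤ) (hk : Odd k) :
    dr (2 * N) c.Φ k = -(π : ℂ) * dr (2 * N) (uu N c) k := by
  have hΦper : ∀ j, c.Φ (j + (2 * N : ℕ)) = c.Φ j := fun j => by
    unfold Cfg.Φ
    rw [c.φ_add (by omega)]
  have e1 := (hD (2 * N) c.Φ (by omega) hΦper k N).1
  have hexp : Complex.exp ((2 * π * (k : ℝ) * ((N : ℤ) : ℝ) / ((2 * N : ℕ) : ℝ) : ℝ) * Complex.I) =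
      -1 := by
    have hN0 : (N : ℝ) ≠ 0 := by
      have : N ≠ 0 := by omega
      exact_mod_cast this
    have e2 : (2 * π * (k : ℝ) * ((N : ℤ) : ℝ) / ((2 * N : ℕ) : ℝ) : ℝ) = π * k := by
      push_cast
      field_simp
    rw [e2]
    obtain ⟨m, hm⟩ := hk
    rw [hm]
    have e3 : ((π * ((2 * m + 1 : ℤ) : ℝ) : ℝ) : ℂ) * Complex.I =
        m * (2 * π * Complex.I) + π * Complex.I := by
      push_cast
      ring
    rw [e3, Complex.exp_add, Complex.exp_int_mul_two_pi_mul_I, Complex.exp_pi_mul_I, one_mul]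
  rw [hexp] at e1
  have e4 : dr (2 * N) (uu N c) k = dr (2 * N) (fun j => (-(1 / (2 * π))) * c.Φ j +
      (1 / (2 * π)) * (fun i => c.Φ (i + N)) j) k := by
    congr 1
    funext j
    unfold uu
    ring
  rw [e4, dr_lin, e1]
  have hπ : (π : ℂ) ≠ 0 := by exact_mod_cast Real.pi_ne_zero
  push_cast
  field_simp
  ring

theorem norm_add_sq_ge (V e : ℂ) : ‖V‖ ^ 2 - 2 * (‖V‖ * ‖e‖) ≤ ‖V + e‖ ^ 2 := by
  have h1 := norm_sub_norm_le V (-e)
  rw [sub_neg_eq_add, norm_neg] at h1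
  have h2 := norm_nonneg V
  have h3 := norm_nonneg e
  have h4 := norm_nonneg (V + e)
  rcases le_total ‖V‖ ‖e‖ with h | h
  · nlinarith
  · have h5 : (‖V‖ - ‖e‖) ^ 2 ≤ ‖V + e‖ ^ 2 := pow_le_pow_left₀ (by linarith) h1 2
    nlinarith

/-- replacing `V` by an approximation -/
theorem replace {k : ℝ} (hk : 1 ≤ k) (F V e : ℂ) :
    (F * conj (V + e)).re - 1 / 2 * (1 + 1 / k ^ 2 - 1 / k) * ‖V + e‖ ^ 2 - 1 / 2 * k * ‖F‖ ^ 2 ≤
      ((F * conj V).re - 1 / 2 * (1 + 1 / k ^ 2 - 1 / k) * ‖V‖ ^ 2 - 1 / 2 * k * ‖F‖ ^ 2) +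
        (‖F‖ + ‖V‖) * ‖e‖ := by
  have h1 : (F * conj (V + e)).re ≤ (F * conj V).re + ‖F‖ * ‖e‖ := by
    rw [map_add, mul_add, Complex.add_re]
    have : (F * conj e).re ≤ ‖F‖ * ‖e‖ := by
      refine (Complex.re_le_norm _).trans ?_
      rw [norm_mul, Complex.norm_conj]
    linarith
  have h2 := norm_add_sq_ge V e
  have hk0 : 0 < k := by linarith
  have ha0 : 0 ≤ 1 + 1 / k ^ 2 - 1 / k := by
    have h3 : 1 / k ≤ 1 := by rw [div_le_one hk0]; exact hk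
    have h4 : 0 ≤ 1 / k ^ 2 := by positivity
    linarith
  have ha1 : 1 + 1 / k ^ 2 - 1 / k ≤ 1 := by
    have h3 : 1 / k ^ 2 ≤ 1 / k := by
      apply one_div_le_one_div_of_le hk0
      nlinarith
    linarith
  obtain ⟨a, ha⟩ : ∃ a : ℝ, a = 1 + 1 / k ^ 2 - 1 / k := ⟨_, rfl⟩
  rw [← ha] at ha0 ha1 ⊢
  have h3 : a * (‖V‖ ^ 2 - 2 * (‖V‖ * ‖e‖)) ≤ a * ‖V + e‖ ^ 2 :=
    mul_le_mul_of_nonneg_left h2 ha0
  have h4 : a * (‖V‖ * ‖e‖) ≤ 1 * (‖V‖ * ‖e‖) := mul_le_mul_of_nonneg_right ha1 (by positivity)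
  linarith

end M_ELO

open M_ELO in
theorem m_ELO : Stmt_DRREL → Stmt_MODELO → Stmt_MODEALG → Stmt_DFTS → Stmt_EVENSM → Stmt_PARS →
    Stmt_ELO := by
  intro hDR hML hMA hD hEV _ K k ε hε
  obtain ⟨C, n₁, hC, h1⟩ := hDR K
  obtain ⟨C₂, n₂, hC₂, h2⟩ := hEV K
  obtain ⟨hA1, hA2, hA3⟩ := hMA
  -- it suffices to treat `σ = 1`
  suffices hmain : ∃ n₀ : ℕ, ∀ N : ℕ, n₀ ≤ 2 * N → ∀ c : Cfg (2 * N),
      Reg (2 * N) K c → ∀ L : ℤ → ℤ, Piw (2 * N) c L →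
      EM c k ≤ -(π ^ 2 / 2) * ‖dr (2 * N) (pp N L) k‖ ^ 2 +
        (if k % 2 = 1 ∧ 3 ≤ k then π ^ 2 / 2 * (‖dr (2 * N) (pp N L) k‖ ^ 2 / (k + 1)) -
          8 * ‖dr (2 * N) (uu N c) k + dr (2 * N) (pp N L) k / (((k : ℝ) ^ 2 - 1 : ℝ) : ℂ)‖ ^ 2
          else 0) + ε by
    obtain ⟨n₀, hn₀⟩ := hmain
    refine ⟨n₀ + 1, ?_⟩
    intro N hN c hc L hL σ hσ
    have h3 := hn₀ N (by omega) c hc L hL
    rcases hσ with rfl | rfl
    · rw [one_mul]; exact h3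
    · rw [neg_one_mul, EM_neg hD (by omega)]; exact h3
  have hbound : ∀ N : ℕ, n₁ ≤ 2 * N → 1 ≤ N → ∀ c : Cfg (2 * N), Reg (2 * N) K c →
      ∀ L : ℤ → ℤ, Piw (2 * N) c L → ∀ k : ℤ,
      ‖dr (2 * N) c.DR k‖ ^ 2 ≤ C ∧ ‖dr (2 * N) c.Φ k‖ ^ 2 ≤ K ^ 2 ∧
      ∃ e : ℂ, dr (2 * N) c.DR k =
        (π : ℂ) * (dr (2 * N) (pp N L) k - dr (2 * N) (uu N c) k) + e ∧
        ‖e‖ ^ 2 ≤ C / (2 * N : ℕ) := by
    intro N hN hN1 c hc L hL k
    obtain ⟨-, g2, -, g4⟩ := h1 N hN c hc L hL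
    have hn1 : 1 ≤ 2 * N := by omega
    have hx0 : (0 : ℝ) < ((2 * N : ℕ) : ℝ) := by exact_mod_cast hn1
    refine ⟨(dr_sq_le hn1 _ _).trans g2, ?_, ?_⟩
    · refine (dr_sq_le hn1 _ _).trans (mn_sq_le hn1 fun j => ?_)
      have := hc.hφ j
      unfold Cfg.Φ
      rw [abs_mul, abs_of_pos hx0]
      calc ((2 * N : ℕ) : ℝ) * |c.φ j| ≤ ((2 * N : ℕ) : ℝ) * (K / ((2 * N : ℕ) : ℝ)) := by gcongr
        _ = K := by field_simp
    · refine ⟨dr (2 * N) (fun j => c.DR j - π * (pp N L j - uu N c j)) k, ?_, ?_⟩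
      · have e1 : (fun j => c.DR j - π * (pp N L j - uu N c j)) =
            fun j => 1 * c.DR j + (-π) * (fun i => 1 * pp N L i + (-1) * uu N c i) j := by
          funext j
          ring
        rw [e1, dr_lin, dr_lin]
        push_cast
        ring
      · exact (dr_sq_le hn1 _ _).trans g4
  rcases Nat.even_or_odd k with hk | hk
  · -- even modes
    obtain ⟨m, hm⟩ := hk
    have hif : ¬ (k % 2 = 1 ∧ 3 ≤ k) := by omega
    obtain ⟨n₃, hn₃⟩ : ∃ n₃ : ℕ, 2 * ((π ^ 2 / 2) * (C₂ * (1 + (m : ℝ))) ^ 2) / ε + 1 < n₃ :=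
      exists_nat_gt _
    have hpk : ∀ N : ℕ, n₂ + n₃ ≤ 2 * N → 1 ≤ N → ∀ c : Cfg (2 * N), Reg (2 * N) K c →
        ∀ L : ℤ → ℤ, Piw (2 * N) c L →
        (π ^ 2 / 2) * ‖dr (2 * N) (pp N L) (k : ℤ)‖ ^ 2 ≤ ε / 2 := by
      intro N hN hN1 c hc L hL
      have g1 := h2 N (by omega) c hc L hL m
      have e1 : (2 * (m : ℤ)) = (k : ℤ) := by omega
      rw [e1] at g1
      have hx : (n₃ : ℝ) ≤ ((2 * N : ℕ) : ℝ) := by
        have : n₃ ≤ 2 * N := by omega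
        exact_mod_cast this
      obtain ⟨x, hxd⟩ : ∃ x : ℝ, x = ((2 * N : ℕ) : ℝ) := ⟨_, rfl⟩
      rw [← hxd] at g1 hx
      have hA : 0 ≤ 2 * ((π ^ 2 / 2) * (C₂ * (1 + (m : ℝ))) ^ 2) / ε := by positivity
      have hx1 : 1 ≤ x := by linarith
      have hx0 : 0 < x := by linarith
      have habs : |((m : ℤ) : ℝ)| = (m : ℝ) := by simp
      rw [habs] at g1
      have g2 := pow_le_pow_left₀ (norm_nonneg _) g1 2
      have g3 : (π ^ 2 / 2) * ‖dr (2 * N) (pp N L) (k : ℤ)‖ ^ 2 ≤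
          (π ^ 2 / 2) * (C₂ * (1 + (m : ℝ)) / x) ^ 2 := by gcongr
      have g4 : (π ^ 2 / 2) * (C₂ * (1 + (m : ℝ)) / x) ^ 2 ≤
          (π ^ 2 / 2) * (C₂ * (1 + (m : ℝ))) ^ 2 / x := by
        rw [div_pow, ← mul_div_assoc]
        apply div_le_div_of_nonneg_left (by positivity) hx0
        nlinarith
      have g5 : (π ^ 2 / 2) * (C₂ * (1 + (m : ℝ))) ^ 2 / x ≤ ε / 2 := by
        rw [div_le_iff₀ hx0]
        have g6 : 2 * ((π ^ 2 / 2) * (C₂ * (1 + (m : ℝ))) ^ 2) / ε < x := by linarith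
        rw [div_lt_iff₀ hε] at g6
        linarith
      linarith
    rcases Nat.eq_zero_or_pos k with hk0 | hk0
    · -- `k = 0`
      subst hk0
      refine ⟨n₁ + n₂ + n₃ + 2, ?_⟩
      intro N hN c hc L hL
      rw [if_neg hif]
      have g1 := hpk N (by omega) (by omega) c hc L hL
      have e1 : EM c ((0 : ℕ) : ℤ) = -(1 / 2) * ‖dr (2 * N) c.R 0‖ ^ 2 := by
        unfold EM
        have : kap (2 * N) ((0 : ℕ) : ℤ) = 0 := by unfold kap; simp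
        rw [this]
        have h0 : dr (2 * N) c.DR ((0 : ℕ) : ℤ) = 0 := dr_DR_zero c
        rw [h0]
        simp
      rw [e1]
      have g2 : 0 ≤ ‖dr (2 * N) c.R 0‖ ^ 2 := by positivity
      linarith
    · -- `k ≥ 2`
      have hkz : (k : ℤ) ≠ 0 := by omega
      have hk1 : (1 : ℝ) ≤ k := by exact_mod_cast hk0
      obtain ⟨n₄, hn₄⟩ := hML k (ε / (2 * (C + K ^ 2))) hkz (by positivity)
      refine ⟨n₁ + n₂ + n₃ + n₄ + 2, ?_⟩
      intro N hN c hc L hL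
      rw [if_neg hif]
      have g1 := hpk N (by omega) (by omega) c hc L hL
      obtain ⟨b1, b2, -⟩ := hbound N (by omega) (by omega) c hc L hL k
      have g2 := hn₄ (2 * N) (by omega) c
      have habs : |((k : ℤ) : ℝ)| = (k : ℝ) := by simp
      have hcast : ((k : ℤ) : ℝ) = (k : ℝ) := by simp
      rw [habs, hcast] at g2
      have g3 := hA1 (k : ℝ) (dr (2 * N) c.Φ k) (dr (2 * N) c.DR k) hk1
      have g4 : ε / (2 * (C + K ^ 2)) * (‖dr (2 * N) c.DR k‖ ^ 2 + ‖dr (2 * N) c.Φ k‖ ^ 2) ≤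
          ε / 2 := by
        calc ε / (2 * (C + K ^ 2)) * (‖dr (2 * N) c.DR k‖ ^ 2 + ‖dr (2 * N) c.Φ k‖ ^ 2) ≤
            ε / (2 * (C + K ^ 2)) * (C + K ^ 2) := by gcongr
          _ = ε / 2 := by field_simp
      have g5 : 0 ≤ 1 / 2 * (1 - 1 / (k : ℝ)) ^ 2 * ‖dr (2 * N) c.DR k‖ ^ 2 := by positivity
      linarith
  · -- odd modes
    have hk1 : 1 ≤ k := by
      obtain ⟨m, hm⟩ := hk
      omega
    have hkz : (k : ℤ) ≠ 0 := by omega
    have hk1' : (1 : ℝ) ≤ k := by exact_mod_cast hk1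
    have hkodd : Odd (k : ℤ) := by exact_mod_cast hk
    obtain ⟨B, hB⟩ : ∃ B : ℝ, B = |K| + (Real.sqrt C + 1) := ⟨_, rfl⟩
    have hB0 : 0 < B := by rw [hB]; positivity
    obtain ⟨n₃, hn₃⟩ : ∃ n₃ : ℕ, C + (2 * B / ε) ^ 2 * C + 1 < n₃ := exists_nat_gt _
    obtain ⟨n₄, hn₄⟩ := hML k (ε / (2 * (C + K ^ 2))) hkz (by positivity)
    refine ⟨n₁ + n₃ + n₄ + 2, ?_⟩
    intro N hN c hc L hL
    obtain ⟨b1, b2, e, b3, b4⟩ := hbound N (by omega) (by omega) c hc L hL k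
    have g2 := hn₄ (2 * N) (by omega) c
    have habs : |((k : ℤ) : ℝ)| = (k : ℝ) := by simp
    have hcast : ((k : ℤ) : ℝ) = (k : ℝ) := by simp
    rw [habs, hcast] at g2
    have g4 : ε / (2 * (C + K ^ 2)) * (‖dr (2 * N) c.DR k‖ ^ 2 + ‖dr (2 * N) c.Φ k‖ ^ 2) ≤
        ε / 2 := by
      calc ε / (2 * (C + K ^ 2)) * (‖dr (2 * N) c.DR k‖ ^ 2 + ‖dr (2 * N) c.Φ k‖ ^ 2) ≤
          ε / (2 * (C + K ^ 2)) * (C + K ^ 2) := by gcongr
        _ = ε / 2 := by field_simp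
    have hu := dr_uu hD (by omega : 1 ≤ N) c k hkodd
    -- size of the error
    have hx : (n₃ : ℝ) ≤ ((2 * N : ℕ) : ℝ) := by
      have : n₃ ≤ 2 * N := by omega
      exact_mod_cast this
    obtain ⟨x, hxd⟩ : ∃ x : ℝ, x = ((2 * N : ℕ) : ℝ) := ⟨_, rfl⟩
    rw [← hxd] at b4 hx
    have hA : 0 ≤ (2 * B / ε) ^ 2 * C := by positivity
    have hx1 : 1 ≤ x := by linarith
    have hx0 : 0 < x := by linarith
    have he1 : ‖e‖ ≤ 1 := by
      have : ‖e‖ ^ 2 ≤ 1 ^ 2 := by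
        refine b4.trans ?_
        rw [one_pow, div_le_one hx0]
        linarith
      exact (pow_le_pow_iff_left₀ (norm_nonneg _) one_pos.le (by norm_num)).1 this
    have he2 : ‖e‖ ≤ ε / (2 * B) := by
      have : ‖e‖ ^ 2 ≤ (ε / (2 * B)) ^ 2 := by
        refine b4.trans ?_
        rw [div_le_iff₀ hx0]
        have q1 : (2 * B / ε) ^ 2 * C ≤ x := by linarith
        calc C = (ε / (2 * B)) ^ 2 * ((2 * B / ε) ^ 2 * C) := by field_simp
          _ ≤ (ε / (2 * B)) ^ 2 * x := by gcongr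
      exact (pow_le_pow_iff_left₀ (norm_nonneg _) (by positivity) (by norm_num)).1 this
    have hF : ‖dr (2 * N) c.Φ k‖ ≤ |K| := by
      rw [← sq_abs K] at b2
      exact (pow_le_pow_iff_left₀ (norm_nonneg _) (abs_nonneg _) (by norm_num)).1 b2
    have hV : ‖dr (2 * N) c.DR k‖ ≤ Real.sqrt C := Real.le_sqrt_of_sq_le b1
    have hV0 : ‖(π : ℂ) * (dr (2 * N) (pp N L) k - dr (2 * N) (uu N c) k)‖ ≤ Real.sqrt C + 1 := by
      have e1 : (π : ℂ) * (dr (2 * N) (pp N L) k - dr (2 * N) (uu N c) k) =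
          dr (2 * N) c.DR k - e := by rw [b3]; ring
      rw [e1]
      exact (norm_sub_le _ _).trans (add_le_add hV he1)
    have g5 := replace hk1' (dr (2 * N) c.Φ k)
      ((π : ℂ) * (dr (2 * N) (pp N L) k - dr (2 * N) (uu N c) k)) e
    rw [← b3] at g5
    have g6 : (‖dr (2 * N) c.Φ k‖ +
        ‖(π : ℂ) * (dr (2 * N) (pp N L) k - dr (2 * N) (uu N c) k)‖) * ‖e‖ ≤ ε / 2 := by
      calc _ ≤ B * (ε / (2 * B)) := by
            apply mul_le_mul _ he2 (norm_nonneg _) hB0.le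
            rw [hB]
            exact add_le_add hF hV0
        _ = ε / 2 := by field_simp
    rw [hu] at g5 g2 g4 g6
    by_cases hk3 : 3 ≤ k
    · have hif : k % 2 = 1 ∧ 3 ≤ k := ⟨Nat.odd_iff.1 hk, hk3⟩
      rw [if_pos hif]
      have hk3' : (3 : ℝ) ≤ k := by exact_mod_cast hk3
      have g7 := hA2 (k : ℝ) (dr (2 * N) (pp N L) k) (dr (2 * N) (uu N c) k) (by linarith)
      obtain ⟨P, hP⟩ : ∃ P : ℝ, P = ‖dr (2 * N) (pp N L) (k : ℤ)‖ ^ 2 := ⟨_, rfl⟩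
      obtain ⟨Q, hQ⟩ : ∃ Q : ℝ, Q = ‖dr (2 * N) (uu N c) (k : ℤ) +
        dr (2 * N) (pp N L) (k : ℤ) / (((k : ℝ) ^ 2 - 1 : ℝ) : ℂ)‖ ^ 2 := ⟨_, rfl⟩
      have hQ0 : 0 ≤ Q := by rw [hQ]; positivity
      rw [← hP, ← hQ] at g7 ⊢
      have g8 : 8 ≤ π ^ 2 / 2 * (((k : ℝ) - 1) ^ 2 * (k + 1) / (k : ℝ) ^ 2) := by
        have q1 : (16 : ℝ) / 9 ≤ ((k : ℝ) - 1) ^ 2 * (k + 1) / (k : ℝ) ^ 2 := by
          rw [le_div_iff₀ (by positivity)]
          nlinarith [sq_nonneg ((k : ℝ) - 3), mul_nonneg (sub_nonneg.2 hk3') (sq_nonneg (k : ℝ)),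
            mul_nonneg (sub_nonneg.2 hk3') (sub_nonneg.2 hk3')]
        have q2 : (9 : ℝ) / 2 ≤ π ^ 2 / 2 := by nlinarith [Real.pi_gt_three]
        calc (8 : ℝ) = 9 / 2 * (16 / 9) := by norm_num
          _ ≤ _ := by gcongr
      have g9 : 8 * Q ≤ π ^ 2 / 2 * (((k : ℝ) - 1) ^ 2 * (k + 1) / (k : ℝ) ^ 2) * Q :=
        mul_le_mul_of_nonneg_right g8 hQ0
      have g10 : -(π ^ 2 / 2) * (P * (1 - 1 / ((k : ℝ) + 1)) +
          ((k : ℝ) - 1) ^ 2 * (k + 1) / (k : ℝ) ^ 2 * Q) =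
          -(π ^ 2 / 2) * P + π ^ 2 / 2 * (P / (k + 1)) -
          π ^ 2 / 2 * (((k : ℝ) - 1) ^ 2 * (k + 1) / (k : ℝ) ^ 2) * Q := by
        ring
      linarith
    · have hif : ¬ (k % 2 = 1 ∧ 3 ≤ k) := fun h => hk3 h.2
      rw [if_neg hif]
      have hk1e : k = 1 := by
        obtain ⟨m, hm⟩ := hk
        omega
      have g7 := hA3 (dr (2 * N) (pp N L) k) (dr (2 * N) (uu N c) k)
      have hkr : (k : ℝ) = 1 := by rw [hk1e]; norm_num
      have e0 : (1 : ℝ) / 2 * (1 + 1 / (1 : ℝ) ^ 2 - 1 / 1) = 1 / 2 := by norm_num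
      have e00 : (1 : ℝ) / 2 * 1 = 1 / 2 := by norm_num
      rw [hkr, e0, e00] at g2 g5
      linarith

end Pool.Agent.EHP
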