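import Pool.Agent.EHP.Stmts2

/-!
# Lower bound of the angular energy: `Stmt_ELOW`
-/

open Finset
open scoped Real ComplexConjugate

namespace Pool.Agent.EHP

namespace M_ELOW

/-- half of the angle differences lie in `(0, π)` -/
theorem X_mem {n : ℕ} (c : Cfg n) (j : ℤ) {d : ℕ} (hd : d ∈ Ico 1 n) :
    0 < c.X (j + (d : ℤ)) j ∧ c.X (j + (d : ℤ)) j < π := by
  obtain ⟨h1, h2⟩ := Finset.mem_Ico.1 hd
  have h3 : c.θ j < c.θ (j + (d : ℤ)) := c.mono (by omega)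
  have h4 : c.θ (j + (d : ℤ)) < c.θ (j + n) := c.mono (by omega)
  rw [c.θ_add] at h4
  unfold Cfg.X
  constructor <;> linarith

theorem a_mem {n d : ℕ} (hd : d ∈ Ico 1 n) : 0 < π * d / n ∧ π * d / n < π := by
  obtain ⟨h1, h2⟩ := Finset.mem_Ico.1 hd
  have h1' : (0 : ℝ) < d := by exact_mod_cast h1
  have h2' : (d : ℝ) < (n : ℝ) := by exact_mod_cast h2
  have hn : (0 : ℝ) < n := h1'.trans h2'
  constructor
  · have := Real.pi_pos
    positivity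
  · rw [div_lt_iff₀ hn]
    exact mul_lt_mul_of_pos_left h2' Real.pi_pos

/-- the normalised central binomial coefficient -/
noncomputable def cb (M : ℕ) : ℝ := (Nat.centralBinom M : ℝ) / 4 ^ M

theorem cb_nonneg (M : ℕ) : 0 ≤ cb M := by unfold cb; positivity

theorem cb_succ (M : ℕ) : cb (M + 1) * (2 * M + 2) = cb M * (2 * M + 1) := by
  have h := Nat.succ_mul_centralBinom_succ M
  have h' : ((M : ℝ) + 1) * (Nat.centralBinom (M + 1) : ℝ) =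
      2 * (2 * M + 1) * (Nat.centralBinom M : ℝ) := by exact_mod_cast h
  unfold cb
  rw [pow_succ]
  field_simp
  linear_combination 2 * h'

theorem cb_sq (M : ℕ) : cb M ^ 2 * (2 * M + 1) ≤ 1 := by
  induction M with
  | zero => simp [cb]
  | succ M ih =>
    have h := cb_succ M
    have hM : (0 : ℝ) < 2 * M + 2 := by positivity
    have e : cb (M + 1) = cb M * (2 * M + 1) / (2 * M + 2) := by
      rw [eq_div_iff hM.ne', h]
    rw [e]
    push_cast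
    have e2 : (cb M * (2 * M + 1) / (2 * M + 2)) ^ 2 * (2 * ((M : ℝ) + 1) + 1) =
        (cb M ^ 2 * (2 * M + 1)) * ((2 * M + 1) * (2 * M + 3) / (2 * M + 2) ^ 2) := by
      field_simp
      ring
    rw [e2]
    have h1 : (2 * (M : ℝ) + 1) * (2 * M + 3) / (2 * M + 2) ^ 2 ≤ 1 := by
      rw [div_le_one (by positivity)]
      nlinarith
    have h0 : 0 ≤ cb M ^ 2 * (2 * M + 1) := by positivity
    have h2 : 0 ≤ (2 * (M : ℝ) + 1) * (2 * M + 3) / (2 * M + 2) ^ 2 := by positivity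
    calc _ ≤ 1 * 1 := mul_le_mul ih h1 h2 (by norm_num)
      _ = 1 := by norm_num

theorem cb_small {δ : ℝ} (hδ : 0 < δ) {M : ℕ} (hM : 1 / δ ^ 2 ≤ M) : cb M ≤ δ := by
  have h := cb_sq M
  by_contra h1
  rw [not_le] at h1
  have h2 : δ ^ 2 < cb M ^ 2 := pow_lt_pow_left₀ h1 hδ.le (by norm_num)
  have h3 : 1 ≤ δ ^ 2 * M := by
    rw [div_le_iff₀ (by positivity)] at hM
    linarith
  have h4 : δ ^ 2 * (2 * M + 1) < cb M ^ 2 * (2 * M + 1) := by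
    apply mul_lt_mul_of_pos_right h2
    positivity
  have h5 : δ ^ 2 * (2 * M + 1) = 2 * (δ ^ 2 * M) + δ ^ 2 := by ring
  have h6 : 0 < δ ^ 2 := by positivity
  linarith

/-- the character -/
noncomputable def ch (n : ℕ) (j : ℤ) : ℂ := Complex.exp ((2 * π * j / n : ℝ) * Complex.I)

theorem dr_one (n : ℕ) (f : ℤ → ℝ) :
    dr n f 1 = (∑ j ∈ range n, (f (j : ℤ) : ℂ) * conj (ch n (j : ℤ))) / n := by
  unfold dr dft ch
  congr 1
  apply Finset.sum_congr rfl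
  intro j _
  rw [← Complex.exp_conj, map_mul, Complex.conj_I, Complex.conj_ofReal]
  congr 2
  push_cast
  ring

theorem sum_ch_sq {n : ℕ} (hn : 3 ≤ n) : ∑ j ∈ range n, ch n (j : ℤ) ^ 2 = 0 := by
  have hn0 : (n : ℂ) ≠ 0 := by
    have : n ≠ 0 := by omega
    exact_mod_cast this
  obtain ⟨ζ, hζ⟩ : ∃ ζ : ℂ, ζ = Complex.exp (4 * π / n * Complex.I) := ⟨_, rfl⟩
  have hne : ζ ≠ 1 := by
    rw [hζ, Ne, Complex.exp_eq_one_iff]
    rintro ⟨m, hm⟩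
    have h2 : (2 : ℂ) = m * n := by
      have h3 : (2 * π * Complex.I : ℂ) ≠ 0 := by
        have := Real.pi_ne_zero
        simp [Complex.I_ne_zero, this]
      have h4 : (2 * π * Complex.I : ℂ) * 2 = (2 * π * Complex.I : ℂ) * (m * n) := by
        have h5 : 4 * (π : ℂ) / n * Complex.I * n = 4 * π * Complex.I := by field_simp
        calc (2 * π * Complex.I : ℂ) * 2 = 4 * π * Complex.I := by ring
          _ = 4 * (π : ℂ) / n * Complex.I * n := h5.symm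
          _ = (m * (2 * π * Complex.I)) * n := by rw [hm]
          _ = _ := by ring
      exact mul_left_cancel₀ h3 h4
    have h4 : (2 : ℤ) = m * n := by exact_mod_cast h2
    have h5 : (n : ℤ) ∣ 2 := ⟨m, by rw [h4]; ring⟩
    have h6 := Int.le_of_dvd (by omega) h5
    omega
  have hpow : ζ ^ n = 1 := by
    rw [hζ, ← Complex.exp_nat_mul]
    have : (n : ℂ) * (4 * π / n * Complex.I) = (2 : ℕ) * (2 * π * Complex.I) := by
      push_cast
      field_simp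
      ring
    rw [this]
    exact Complex.exp_nat_mul_two_pi_mul_I 2
  have hsum : ∑ d ∈ range n, ζ ^ d = 0 := by
    have := geom_sum_mul ζ n
    rw [hpow, sub_self] at this
    exact (mul_eq_zero.1 this).resolve_right (sub_ne_zero.2 hne)
  rw [← hsum]
  apply Finset.sum_congr rfl
  intro j _
  rw [hζ]
  unfold ch
  rw [← Complex.exp_nat_mul, ← Complex.exp_nat_mul]
  congr 1
  push_cast
  ring

theorem norm_ch (n : ℕ) (j : ℤ) : ‖ch n j‖ = 1 := Complex.norm_exp_ofReal_mul_I _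

theorem split_first {n : ℕ} (hn : 3 ≤ n) (c : Cfg n) :
    mn n (fun j => c.φ j ^ 2) = mn n (fun j => ψψ c j ^ 2) + 2 * ‖dr n c.φ 1‖ ^ 2 := by
  have hn0 : (0 : ℝ) < n := by
    have : 0 < n := by omega
    exact_mod_cast this
  obtain ⟨q, hq⟩ : ∃ q : ℂ, q = dr n c.φ 1 := ⟨_, rfl⟩
  have h1 : ∀ j : ℤ, ψψ c j = c.φ j - 2 * (q * ch n j).re := by
    intro j
    unfold ψψ ch
    rw [hq]
  have hcross : ∑ j ∈ range n, c.φ (j : ℤ) * (q * ch n (j : ℤ)).re = n * ‖q‖ ^ 2 := by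
    have e1 : ∑ j ∈ range n, c.φ (j : ℤ) * (q * ch n (j : ℤ)).re =
        (q * conj (n * dr n c.φ 1)).re := by
      rw [dr_one]
      have hnc : (n : ℂ) ≠ 0 := by exact_mod_cast hn0.ne'
      rw [mul_div_cancel₀ _ hnc, map_sum, Finset.mul_sum, Complex.re_sum]
      apply Finset.sum_congr rfl
      intro j _
      rw [map_mul, Complex.conj_conj, Complex.conj_ofReal]
      have : q * ((c.φ (j : ℤ) : ℂ) * ch n (j : ℤ)) = (c.φ (j : ℤ) : ℂ) * (q * ch n (j : ℤ)) := by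
        ring
      rw [this, Complex.re_ofReal_mul]
    rw [e1, ← hq, map_mul, Complex.conj_natCast]
    have : q * ((n : ℂ) * conj q) = (n : ℂ) * (q * conj q) := by ring
    rw [this, Complex.mul_conj, Complex.normSq_eq_norm_sq]
    rw [← Complex.ofReal_natCast, ← Complex.ofReal_mul, Complex.ofReal_re]
  have hsq : ∑ j ∈ range n, (q * ch n (j : ℤ)).re ^ 2 = n * ‖q‖ ^ 2 / 2 := by
    have e1 : ∀ w : ℂ, w.re ^ 2 = (‖w‖ ^ 2 + (w ^ 2).re) / 2 := by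
      intro w
      rw [← Complex.normSq_eq_norm_sq, Complex.normSq_apply, sq w, Complex.mul_re]
      ring
    have e2 : ∀ j ∈ range n, (q * ch n (j : ℤ)).re ^ 2 =
        ‖q‖ ^ 2 / 2 + (q ^ 2 * ch n (j : ℤ) ^ 2).re / 2 := by
      intro j _
      rw [e1, norm_mul, norm_ch, mul_one, mul_pow]
      ring
    have e3 : ∑ j ∈ range n, (q ^ 2 * ch n (j : ℤ) ^ 2).re / 2 = 0 := by
      rw [← Finset.sum_div, ← Complex.re_sum, ← Finset.mul_sum, sum_ch_sq hn, mul_zero,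
        Complex.zero_re, zero_div]
    rw [Finset.sum_congr rfl e2, Finset.sum_add_distrib, e3,
      add_zero, Finset.sum_const, Finset.card_range, nsmul_eq_mul]
    ring
  have h2 : ∑ j ∈ range n, ψψ c (j : ℤ) ^ 2 = ∑ j ∈ range n, c.φ (j : ℤ) ^ 2 -
      2 * (n * ‖q‖ ^ 2) := by
    have e1 : ∀ j ∈ range n, ψψ c (j : ℤ) ^ 2 = c.φ (j : ℤ) ^ 2 -
        4 * (c.φ (j : ℤ) * (q * ch n (j : ℤ)).re) + 4 * (q * ch n (j : ℤ)).re ^ 2 := by
      intro j _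
      rw [h1]
      ring
    rw [Finset.sum_congr rfl e1, Finset.sum_add_distrib, Finset.sum_sub_distrib,
      ← Finset.mul_sum, ← Finset.mul_sum, hcross, hsq]
    ring
  unfold mn
  rw [h2, ← hq]
  field_simp
  ring

end M_ELOW

open M_ELOW in
theorem m_ELOW : Stmt_KERN → Stmt_SPEC → Stmt_ELOW := by
  intro hK hSP κ hκ
  obtain ⟨M, hM⟩ : ∃ M : ℕ, 1 / (κ / 4) ^ 2 + 3 < M := exists_nat_gt _
  have hp : 0 ≤ 1 / (κ / 4) ^ 2 := by positivity
  have hM3 : 3 ≤ M := by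
    have : (3 : ℝ) < M := by linarith
    have : 3 < M := by exact_mod_cast this
    omega
  have hM0 : (0 : ℝ) < M := by
    have : 0 < M := by omega
    exact_mod_cast this
  have hc1 : cb M ≤ κ / 4 := cb_small (by positivity) (by linarith)
  have hc2 : cb (M + 1) ≤ κ / 4 := cb_small (by positivity) (by push_cast; linarith)
  refine ⟨κ / (2 * (M : ℝ) ^ 2), by positivity, 4 * M + 5, ?_⟩
  intro n hn c hc
  have hn3 : 3 ≤ n := by omega
  have hn0 : (0 : ℝ) < n := by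
    have : 0 < n := by omega
    exact_mod_cast this
  have hsplit := split_first hn3 c
  refine ⟨?_, hsplit⟩
  obtain ⟨ε, hε⟩ : ∃ ε : ℝ, ε = κ / (2 * (M : ℝ) ^ 2) := ⟨_, rfl⟩
  have hMε : (M : ℝ) ^ 2 * ε = κ / 2 := by rw [hε]; field_simp
  have hφ : ∀ j, |c.φ j| ≤ ε := fun j => by rw [hε]; exact hc.hφ j
  have hφper : ∀ j, c.φ (j + n) = c.φ j := fun j => c.φ_add (by omega) j
  have hspec := hSP M n c.φ hM3 (by omega) hφper hc.rot
  -- termwise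
  have hterm : ∀ j ∈ range n, ∀ d ∈ Ico 1 n,
      1 / 8 * ((c.φ ((j : ℤ) + (d : ℤ)) - c.φ (j : ℤ)) ^ 2 *
        ∑ r ∈ range M, Real.cos (π * d / n) ^ (2 * r)) -
      κ / 16 * (c.φ ((j : ℤ) + (d : ℤ)) - c.φ (j : ℤ)) ^ 2 ≤
      DD (π * d / n) (c.X ((j : ℤ) + (d : ℤ)) (j : ℤ)) := by
    intro j _ d hd
    have h1 := hK M _ _ (a_mem hd).1 (a_mem hd).2 (X_mem c j hd).1 (X_mem c j hd).2
    have h2 : c.X ((j : ℤ) + (d : ℤ)) (j : ℤ) - π * d / n =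
        (c.φ ((j : ℤ) + (d : ℤ)) - c.φ (j : ℤ)) / 2 := by
      unfold Cfg.X Cfg.φ
      push_cast
      field_simp
      ring
    rw [h2] at h1
    refine le_trans ?_ h1
    obtain ⟨D, hD⟩ : ∃ D : ℝ, D = c.φ ((j : ℤ) + (d : ℤ)) - c.φ (j : ℤ) := ⟨_, rfl⟩
    rw [← hD]
    have h3 : |D / 2| ≤ ε := by
      rw [abs_div, abs_of_pos (by norm_num : (0 : ℝ) < 2), hD]
      have := abs_sub (c.φ ((j : ℤ) + (d : ℤ))) (c.φ (j : ℤ))
      linarith [hφ ((j : ℤ) + (d : ℤ)), hφ (j : ℤ)]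
    have h4 : (M : ℝ) ^ 2 * |D / 2| ≤ κ / 2 := by
      rw [← hMε]
      gcongr
    have h5 : (D / 2) ^ 2 / 2 * (∑ r ∈ range M, Real.cos (π * d / n) ^ (2 * r) - κ / 2) ≤
        (D / 2) ^ 2 / 2 * (∑ r ∈ range M, Real.cos (π * d / n) ^ (2 * r) -
          (M : ℝ) ^ 2 * |D / 2|) := by
      apply mul_le_mul_of_nonneg_left _ (by positivity)
      linarith
    refine le_trans (le_of_eq ?_) h5
    ring
  have hsum : 1 / 8 * ∑ j ∈ range n, ∑ d ∈ Ico 1 n, (c.φ ((j : ℤ) + (d : ℤ)) - c.φ (j : ℤ)) ^ 2 *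
        ∑ r ∈ range M, Real.cos (π * d / n) ^ (2 * r) -
      κ / 16 * ∑ j ∈ range n, ∑ d ∈ Ico 1 n, (c.φ ((j : ℤ) + (d : ℤ)) - c.φ (j : ℤ)) ^ 2 ≤
      Eφ c := by
    unfold Eφ
    rw [Finset.mul_sum, Finset.mul_sum, ← Finset.sum_sub_distrib]
    apply Finset.sum_le_sum
    intro j hj
    rw [Finset.mul_sum, Finset.mul_sum, ← Finset.sum_sub_distrib]
    exact Finset.sum_le_sum fun d hd => hterm j hj d hd
  have hsq : ∑ j ∈ range n, ∑ d ∈ Ico 1 n, (c.φ ((j : ℤ) + (d : ℤ)) - c.φ (j : ℤ)) ^ 2 ≤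
      4 * (n : ℝ) ^ 2 * mn n (fun j => c.φ j ^ 2) := by
    have h1 : ∑ j ∈ range n, ∑ d ∈ Ico 1 n, (c.φ ((j : ℤ) + (d : ℤ)) - c.φ (j : ℤ)) ^ 2 ≤
        ∑ j ∈ range n, ∑ d ∈ Ico 1 n, (2 * c.φ ((j : ℤ) + (d : ℤ)) ^ 2 + 2 * c.φ (j : ℤ) ^ 2) := by
      apply Finset.sum_le_sum
      intro j _
      apply Finset.sum_le_sum
      intro d _
      nlinarith [sq_nonneg (c.φ ((j : ℤ) + (d : ℤ)) + c.φ (j : ℤ))]
    have h2 := sum_snd (n := n) (f := fun j => 2 * c.φ j ^ 2) (fun j => by rw [hφper])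
    have h3 := sum_fst (n := n) (fun j => 2 * c.φ j ^ 2)
    have h4 : ∑ j ∈ range n, ∑ d ∈ Ico 1 n,
        (2 * c.φ ((j : ℤ) + (d : ℤ)) ^ 2 + 2 * c.φ (j : ℤ) ^ 2) =
        (n - 1) • ∑ j ∈ range n, 2 * c.φ (j : ℤ) ^ 2 +
          (n - 1) • ∑ j ∈ range n, 2 * c.φ (j : ℤ) ^ 2 := by
      calc _ = ∑ j ∈ range n, ∑ d ∈ Ico 1 n, 2 * c.φ ((j : ℤ) + (d : ℤ)) ^ 2 +
            ∑ j ∈ range n, ∑ _d ∈ Ico 1 n, 2 * c.φ (j : ℤ) ^ 2 := by
            rw [← Finset.sum_add_distrib]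
            apply Finset.sum_congr rfl
            intro j _
            rw [← Finset.sum_add_distrib]
        _ = _ := by rw [h2, h3]
    refine h1.trans ?_
    rw [h4, ← Finset.mul_sum, nsmul_eq_mul, Nat.cast_sub (by omega)]
    unfold mn
    have h5 : 0 ≤ ∑ j ∈ range n, c.φ (j : ℤ) ^ 2 := by positivity
    have h6 : 4 * (n : ℝ) ^ 2 * ((∑ j ∈ range n, c.φ (j : ℤ) ^ 2) / n) =
        4 * n * ∑ j ∈ range n, c.φ (j : ℤ) ^ 2 := by field_simp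
    rw [h6]
    push_cast
    nlinarith
  obtain ⟨q, hq⟩ : ∃ q : ℝ, q = ‖dr n c.φ 1‖ ^ 2 := ⟨_, rfl⟩
  obtain ⟨P, hP⟩ : ∃ P : ℝ, P = mn n (fun j => ψψ c j ^ 2) := ⟨_, rfl⟩
  have hq0 : 0 ≤ q := by rw [hq]; positivity
  have hP0 : 0 ≤ P := by
    rw [hP]
    unfold mn
    positivity
  rw [← hq, ← hP] at hsplit ⊢
  rw [hsplit] at hsq hspec
  rw [← hq] at hspec
  have hcb1 : 2 * (Nat.centralBinom M : ℝ) / 4 ^ M = 2 * cb M := by unfold cb; ring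
  have hcb2 : 8 * (Nat.centralBinom (M + 1) : ℝ) / 4 ^ (M + 1) = 8 * cb (M + 1) := by
    unfold cb; ring
  rw [hcb1, hcb2, add_sub_cancel_right] at hspec
  have hn2 : (0 : ℝ) ≤ (n : ℝ) ^ 2 := by positivity
  have k1 : 0 ≤ (n : ℝ) ^ 2 * ((κ / 4 - cb M) * q) :=
    mul_nonneg hn2 (mul_nonneg (by linarith) hq0)
  have k2 : 0 ≤ (n : ℝ) ^ 2 * ((κ / 4 - cb (M + 1)) * P) :=
    mul_nonneg hn2 (mul_nonneg (by linarith) hP0)
  have k3 : 0 ≤ (n : ℝ) ^ 2 * (κ * q) := by positivity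
  have k4 : 0 ≤ (n : ℝ) ^ 2 * (κ * P) := by positivity
  have k5 : κ / 16 * ∑ j ∈ range n, ∑ d ∈ Ico 1 n, (c.φ ((j : ℤ) + (d : ℤ)) - c.φ (j : ℤ)) ^ 2 ≤
      κ / 16 * (4 * (n : ℝ) ^ 2 * (P + 2 * q)) := mul_le_mul_of_nonneg_left hsq (by positivity)
  have e1 : 1 / 8 * (2 * (n : ℝ) ^ 2 * ((2 - 2 * cb M) * (2 * q) + (4 - 8 * cb (M + 1)) * P)) -
      κ / 16 * (4 * (n : ℝ) ^ 2 * (P + 2 * q)) - (1 - κ) * (n : ℝ) ^ 2 * (P + q) =
      (n : ℝ) ^ 2 * ((κ / 4 - cb M) * q) + 2 * ((n : ℝ) ^ 2 * ((κ / 4 - cb (M + 1)) * P)) +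
        1 / 4 * ((n : ℝ) ^ 2 * (κ * q)) + 1 / 4 * ((n : ℝ) ^ 2 * (κ * P)) := by
    ring
  linarith

end Pool.Agent.EHP
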