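import Pool.Agent.EHP.Stmts4

/-!
# The two energies for regular configurations
-/

open Finset
open scoped Real ComplexConjugate

namespace Pool.Agent.EHP

/-- Comparison of `D` with a parabola. -/
theorem ep_DD {a X k : ℝ} (ha : 0 < a) (hap : a < π) (hX : 0 < X) (hXp : X < π)
    (hk : ∀ t ∈ Set.uIcc a X, k ≤ 1 / Real.sin t ^ 2) : k * ((X - a) ^ 2 / 2) ≤ DD a X := by
  have hsa : 0 < Real.sin a := Real.sin_pos_of_pos_of_lt_pi ha hap
  have hsub : Set.uIcc a X ⊆ Set.Ioo (0 : ℝ) π := by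
    intro x hx
    rw [Set.mem_uIcc] at hx
    rcases hx with hx | hx
    · exact ⟨by linarith [hx.1], by linarith [hx.2]⟩
    · exact ⟨by linarith [hx.1], by linarith [hx.2]⟩
  have hg : ∀ x ∈ Set.uIcc a X, HasDerivAt
      (fun x : ℝ => Real.cos a / Real.sin a - Real.cos x / Real.sin x - k * (x - a))
      (1 / Real.sin x ^ 2 - k) x := by
    intro x hx'
    have hx := hsub hx'
    have hs : 0 < Real.sin x := Real.sin_pos_of_pos_of_lt_pi hx.1 hx.2
    have h1 := (Real.hasDerivAt_cos x).div (Real.hasDerivAt_sin x) hs.ne'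
    have h2 := (h1.const_sub (Real.cos a / Real.sin a)).sub
      (((hasDerivAt_id x).sub_const a).const_mul k)
    have h3 := Real.sin_sq_add_cos_sq x
    have h4 : -Real.sin x * Real.sin x - Real.cos x * Real.cos x = -1 := by nlinarith
    have h5 : -((-Real.sin x * Real.sin x - Real.cos x * Real.cos x) / Real.sin x ^ 2) - k * 1 =
        1 / Real.sin x ^ 2 - k := by
      rw [h4]
      ring
    rw [← h5]
    exact h2
  have hgm : MonotoneOn
      (fun x : ℝ => Real.cos a / Real.sin a - Real.cos x / Real.sin x - k * (x - a))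
      (Set.uIcc a X) := by
    refine monotoneOn_of_deriv_nonneg (convex_uIcc _ _)
      (fun x hx => (hg x hx).continuousAt.continuousWithinAt) ?_ ?_
    · intro x hx
      exact (hg x (interior_subset hx)).differentiableAt.differentiableWithinAt
    · intro x hx
      have hx' := interior_subset hx
      rw [(hg x hx').deriv]
      have := hk x hx'
      linarith
  have hf : ∀ x ∈ Set.uIcc a X, HasDerivAt (fun x : ℝ => DD a x - k * ((x - a) ^ 2 / 2))
      (Real.cos a / Real.sin a - Real.cos x / Real.sin x - k * (x - a)) x := by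
    intro x hx'
    have hx := hsub hx'
    have hs : 0 < Real.sin x := Real.sin_pos_of_pos_of_lt_pi hx.1 hx.2
    have h0 : HasDerivAt (fun x : ℝ => Real.sin x / Real.sin a) (Real.cos x / Real.sin a) x :=
      (Real.hasDerivAt_sin x).div_const _
    have h1 := (h0.log (div_pos hs hsa).ne').neg
    have h2 := ((hasDerivAt_id x).sub_const a).mul_const (Real.cos a / Real.sin a)
    have h3 := (((((hasDerivAt_id x).sub_const a).pow 2)).div_const 2).const_mul k
    have h4 := (h1.add h2).sub h3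
    have h5 : -(Real.cos x / Real.sin a / (Real.sin x / Real.sin a)) +
        1 * (Real.cos a / Real.sin a) - k * (((2 : ℕ) : ℝ) * (id x - a) ^ (2 - 1) * 1 / 2) =
        Real.cos a / Real.sin a - Real.cos x / Real.sin x - k * (x - a) := by
      rw [div_div_div_cancel_right₀ hsa.ne']
      simp only [id]
      push_cast
      ring
    rw [← h5]
    exact h4
  have hfa : DD a a - k * ((a - a) ^ 2 / 2) = 0 := by
    simp [DD, div_self hsa.ne']
  rcases le_total a X with h | h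
  · rw [Set.uIcc_of_le h] at hf hgm
    have hm : MonotoneOn (fun x : ℝ => DD a x - k * ((x - a) ^ 2 / 2)) (Set.Icc a X) := by
      refine monotoneOn_of_deriv_nonneg (convex_Icc _ _)
        (fun x hx => (hf x hx).continuousAt.continuousWithinAt) ?_ ?_
      · intro x hx
        exact (hf x (interior_subset hx)).differentiableAt.differentiableWithinAt
      · intro x hx
        have hx' := interior_subset hx
        rw [(hf x hx').deriv]
        have := hgm (Set.left_mem_Icc.2 h) hx' hx'.1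
        simp only at this
        linarith
    have := hm (Set.left_mem_Icc.2 h) (Set.right_mem_Icc.2 h) h
    simp only at this
    linarith
  · rw [Set.uIcc_of_ge h] at hf hgm
    have hm : AntitoneOn (fun x : ℝ => DD a x - k * ((x - a) ^ 2 / 2)) (Set.Icc X a) := by
      refine antitoneOn_of_deriv_nonpos (convex_Icc _ _)
        (fun x hx => (hf x hx).continuousAt.continuousWithinAt) ?_ ?_
      · intro x hx
        exact (hf x (interior_subset hx)).differentiableAt.differentiableWithinAt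
      · intro x hx
        have hx' := interior_subset hx
        rw [(hf x hx').deriv]
        have := hgm hx' (Set.right_mem_Icc.2 h) hx'.2
        simp only at this
        linarith
    have := hm (Set.left_mem_Icc.2 h) (Set.right_mem_Icc.2 h) h
    simp only at this
    linarith

theorem ep_E {a X η : ℝ} (ha : 0 < a) (hap : a < π) (hX : 0 < X) (hXp : X < π) (h0 : 0 ≤ η)
    (h1 : η ≤ 1 / 8) (hx : |X - a| ≤ η * Real.sin a) :
    (1 - 2 * η) * ((X - a) ^ 2 / (2 * Real.sin a ^ 2)) ≤ DD a X := by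
  have hsa : 0 < Real.sin a := Real.sin_pos_of_pos_of_lt_pi ha hap
  have h := ep_DD (k := (1 - 2 * η) / Real.sin a ^ 2) ha hap hX hXp (by
    intro t ht
    have htp : t ∈ Set.Ioo (0 : ℝ) π := by
      rw [Set.mem_uIcc] at ht
      rcases ht with ht | ht
      · exact ⟨by linarith [ht.1], by linarith [ht.2]⟩
      · exact ⟨by linarith [ht.1], by linarith [ht.2]⟩
    have hst : 0 < Real.sin t := Real.sin_pos_of_pos_of_lt_pi htp.1 htp.2
    have hta : |t - a| ≤ |X - a| := by
      rw [Set.mem_uIcc] at ht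
      rcases ht with ht | ht
      · rw [abs_of_nonneg (by linarith [ht.1]), abs_of_nonneg (by linarith [ht.1, ht.2])]
        linarith [ht.2]
      · rw [abs_of_nonpos (by linarith [ht.2]), abs_of_nonpos (by linarith [ht.1, ht.2])]
        linarith [ht.1]
    have h2 := Real.abs_sin_sub_sin_le t a
    have h3 : Real.sin t ≤ (1 + η) * Real.sin a := by
      have := le_abs_self (Real.sin t - Real.sin a)
      linarith
    rw [div_le_div_iff₀ (by positivity) (by positivity)]
    have h4 : Real.sin t ^ 2 ≤ ((1 + η) * Real.sin a) ^ 2 := pow_le_pow_left₀ hst.le h3 2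
    have h5 : (1 - 2 * η) * Real.sin t ^ 2 ≤ (1 - 2 * η) * ((1 + η) * Real.sin a) ^ 2 :=
      mul_le_mul_of_nonneg_left h4 (by linarith)
    have h6 : (1 - 2 * η) * (1 + η) ^ 2 ≤ 1 := by nlinarith [mul_nonneg h0 h0]
    have h7 : (1 - 2 * η) * (1 + η) ^ 2 * Real.sin a ^ 2 ≤ 1 * Real.sin a ^ 2 :=
      mul_le_mul_of_nonneg_right h6 (by positivity)
    nlinarith)
  have e : (1 - 2 * η) / Real.sin a ^ 2 * ((X - a) ^ 2 / 2) =
      (1 - 2 * η) * ((X - a) ^ 2 / (2 * Real.sin a ^ 2)) := by field_simp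
  rwa [e] at h

theorem ep_T {a X Y η : ℝ} (ha : 0 < a) (hap : a < π) (h0 : 0 ≤ η)
    (h1 : η ≤ 1 / 8) (hx : |X - a| ≤ η * Real.sin a) (hy : |Y| ≤ η * Real.sin a) :
    1 / 2 * Real.log (1 + Real.sinh Y ^ 2 / Real.sin X ^ 2) ≤
      (1 + 4 * η) * (Y ^ 2 / (2 * Real.sin a ^ 2)) := by
  have hsa : 0 < Real.sin a := Real.sin_pos_of_pos_of_lt_pi ha hap
  have hsa1 := Real.sin_le_one a
  have h2 := Real.abs_sin_sub_sin_le X a
  have hsX : (1 - η) * Real.sin a ≤ Real.sin X := by
    have := (abs_le.1 (h2.trans hx)).1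
    linarith
  have hsX0 : 0 < Real.sin X := by
    have : 0 < (1 - η) * Real.sin a := mul_pos (by linarith) hsa
    linarith
  have hYη : |Y| ≤ η := by nlinarith
  have hY2 : Y ^ 2 ≤ η ^ 2 := by
    rw [← sq_abs Y]; exact pow_le_pow_left₀ (abs_nonneg _) hYη 2
  have hsinh : Real.sinh Y ^ 2 ≤ Y ^ 2 * (1 + 2 * η ^ 2) := by
    have h3 : Real.sinh Y ^ 2 = (Real.cosh (2 * Y) - 1) / 2 := by
      rw [Real.cosh_two_mul]
      have := Real.cosh_sq Y
      linarith
    have h4 := Real.cosh_le_exp_half_sq (2 * Y)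
    have e : (2 * Y) ^ 2 / 2 = 2 * Y ^ 2 := by ring
    rw [e] at h4
    have hz : |2 * Y ^ 2| ≤ 1 := by
      rw [abs_of_nonneg (by positivity)]
      nlinarith
    have h5 := (abs_le.1 (Real.abs_exp_sub_one_sub_id_le hz)).2
    rw [h3]
    have h6 : Y ^ 2 * Y ^ 2 ≤ Y ^ 2 * η ^ 2 := mul_le_mul_of_nonneg_left hY2 (sq_nonneg _)
    nlinarith
  have hu : Real.sinh Y ^ 2 / Real.sin X ^ 2 ≤ (1 + 4 * η) * (Y ^ 2 / Real.sin a ^ 2) := by
    rw [div_le_iff₀ (by positivity)]
    have h7 : ((1 - η) * Real.sin a) ^ 2 ≤ Real.sin X ^ 2 :=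
      pow_le_pow_left₀ (mul_nonneg (by linarith) hsa.le) hsX 2
    have h8 : 1 + 2 * η ^ 2 ≤ (1 + 4 * η) * (1 - η) ^ 2 := by
      have : 0 ≤ η * (2 - 9 * η + 4 * η ^ 2) := by
        apply mul_nonneg h0
        nlinarith
      nlinarith
    calc Real.sinh Y ^ 2 ≤ Y ^ 2 * (1 + 2 * η ^ 2) := hsinh
      _ ≤ Y ^ 2 * ((1 + 4 * η) * (1 - η) ^ 2) := mul_le_mul_of_nonneg_left h8 (sq_nonneg _)
      _ = (1 + 4 * η) * (Y ^ 2 / Real.sin a ^ 2) * ((1 - η) * Real.sin a) ^ 2 := by
          field_simp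
      _ ≤ (1 + 4 * η) * (Y ^ 2 / Real.sin a ^ 2) * Real.sin X ^ 2 := by
          apply mul_le_mul_of_nonneg_left h7
          positivity
  have hlog : Real.log (1 + Real.sinh Y ^ 2 / Real.sin X ^ 2) ≤
      Real.sinh Y ^ 2 / Real.sin X ^ 2 := by
    have h9 : 0 < 1 + Real.sinh Y ^ 2 / Real.sin X ^ 2 := by positivity
    have := Real.log_le_sub_one_of_pos h9
    linarith
  have e2 : (1 + 4 * η) * (Y ^ 2 / (2 * Real.sin a ^ 2)) =
      1 / 2 * ((1 + 4 * η) * (Y ^ 2 / Real.sin a ^ 2)) := by field_simp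
  rw [e2]
  linarith

/-- Differences over the distance `d` in the mean. -/
theorem ep_diff {n : ℕ} {f : ℤ → ℝ} (hf : ∀ j, f (j + n) = f j) (d : ℕ) :
    ∑ j ∈ range n, (f ((j : ℤ) + (d : ℤ)) - f (j : ℤ)) ^ 2 ≤
      (d : ℝ) ^ 2 * ∑ j ∈ range n, (f ((j : ℤ) + 1) - f (j : ℤ)) ^ 2 := by
  have h1 : ∀ j ∈ range n, (f ((j : ℤ) + (d : ℤ)) - f (j : ℤ)) ^ 2 ≤
      (d : ℝ) * ∑ l ∈ range d, (f (((j : ℤ) + (l : ℤ)) + 1) - f ((j : ℤ) + (l : ℤ))) ^ 2 := by
    intro j _
    have e : f ((j : ℤ) + (d : ℤ)) - f (j : ℤ) =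
        ∑ l ∈ range d, (f (((j : ℤ) + (l : ℤ)) + 1) - f ((j : ℤ) + (l : ℤ))) := by
      have := Finset.sum_range_sub (fun l : ℕ => f ((j : ℤ) + (l : ℤ))) d
      simp only [Nat.cast_zero, add_zero] at this
      rw [← this]
      apply Finset.sum_congr rfl
      intro l _
      push_cast
      rw [add_assoc]
    rw [e]
    have := sq_sum_le_card_mul_sum_sq (s := range d)
      (f := fun l : ℕ => f (((j : ℤ) + (l : ℤ)) + 1) - f ((j : ℤ) + (l : ℤ)))
    rwa [Finset.card_range] at this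
  refine (Finset.sum_le_sum h1).trans ?_
  rw [← Finset.mul_sum, Finset.sum_comm]
  have h2 : ∀ l ∈ range d,
      ∑ j ∈ range n, (f (((j : ℤ) + (l : ℤ)) + 1) - f ((j : ℤ) + (l : ℤ))) ^ 2 =
      ∑ j ∈ range n, (f ((j : ℤ) + 1) - f (j : ℤ)) ^ 2 := by
    intro l _
    exact sum_shift (n := n) (f := fun j => (f (j + 1) - f j) ^ 2) (fun j => by
      have : j + (n : ℤ) + 1 = (j + 1) + n := by ring
      rw [this, hf, hf]) (l : ℤ)
  rw [Finset.sum_congr rfl h2, Finset.sum_const, Finset.card_range, nsmul_eq_mul]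
  apply le_of_eq
  ring

theorem ep_jordan {X t : ℝ} (h0 : 0 ≤ X) (h1 : X ≤ π) (h2 : t ≤ X) (h3 : t ≤ π - X) :
    2 / π * t ≤ Real.sin X := by
  have hp : 0 ≤ 2 / π := by positivity
  rcases le_total X (π / 2) with h | h
  · exact le_trans (mul_le_mul_of_nonneg_left h2 hp) (Real.mul_le_sin h0 h)
  · rw [← Real.sin_pi_sub]
    exact le_trans (mul_le_mul_of_nonneg_left h3 hp)
      (Real.mul_le_sin (by linarith) (by linarith))

theorem ep_QK {n : ℕ} (hn : 1 ≤ n) {f : ℤ → ℝ} (hf : ∀ j, f (j + n) = f j) {D : ℝ}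
    (hD : ∑ j ∈ range n, (f ((j : ℤ) + 1) - f (j : ℤ)) ^ 2 ≤ D / n) (hD0 : 0 ≤ D) :
    QK n f ≤ D / 32 := by
  have hnpos : (0 : ℝ) < n := by exact_mod_cast hn
  have hπ := Real.pi_pos
  unfold QK
  rw [div_le_iff₀ (by positivity), Finset.sum_comm]
  have h1 : ∀ d ∈ Ico 1 n, ∑ j ∈ range n,
      (f ((j : ℤ) + (d : ℤ)) - f (j : ℤ)) ^ 2 / Real.sin (π * d / n) ^ 2 ≤ n * D / 4 := by
    intro d hd
    rw [Finset.mem_Ico] at hd
    have hd1 : (1 : ℝ) ≤ d := by exact_mod_cast hd.1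
    have hdn : (d : ℝ) < n := by exact_mod_cast hd.2
    rw [← Finset.sum_div]
    have ha0 : 0 ≤ π * d / n := by positivity
    have haπ : π * d / n ≤ π := by
      rw [div_le_iff₀ hnpos]
      exact mul_le_mul_of_nonneg_left hdn.le hπ.le
    -- the smaller of the two distances
    obtain ⟨m, hm0, hm1, hm2, hm3⟩ : ∃ m : ℕ, 1 ≤ m ∧ π * m / n ≤ π * d / n ∧
        π * m / n ≤ π - π * d / n ∧
        ∑ j ∈ range n, (f ((j : ℤ) + (d : ℤ)) - f (j : ℤ)) ^ 2 ≤
          (m : ℝ) ^ 2 * ∑ j ∈ range n, (f ((j : ℤ) + 1) - f (j : ℤ)) ^ 2 := by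
      rcases le_total (2 * d) n with h | h
      · refine ⟨d, hd.1, le_rfl, ?_, ep_diff hf d⟩
        have h' : 2 * (d : ℝ) ≤ n := by exact_mod_cast h
        have : π * d / n + π * d / n ≤ π := by
          rw [← add_div, div_le_iff₀ hnpos]
          nlinarith
        linarith
      · refine ⟨n - d, by omega, ?_, ?_, ?_⟩
        · have h' : (n : ℝ) ≤ 2 * d := by exact_mod_cast h
          rw [Nat.cast_sub hd.2.le]
          apply div_le_div_of_nonneg_right _ hnpos.le
          nlinarith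
        · rw [Nat.cast_sub hd.2.le]
          apply le_of_eq
          field_simp
        · refine le_trans (le_of_eq ?_) (ep_diff hf (n - d))
          have h3 := sum_shift (n := n) (f := fun j => (f (j + ((n - d : ℕ) : ℤ)) - f j) ^ 2)
            (fun j => by
              have : j + (n : ℤ) + ((n - d : ℕ) : ℤ) = (j + ((n - d : ℕ) : ℤ)) + n := by ring
              rw [this, hf, hf]) (d : ℤ)
          rw [← h3]
          apply Finset.sum_congr rfl
          intro j _
          have e : (j : ℤ) + (d : ℤ) + ((n - d : ℕ) : ℤ) = (j : ℤ) + n := by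
            rw [Nat.cast_sub hd.2.le]; ring
          rw [e, hf]
          ring
    have hsin := ep_jordan ha0 haπ hm1 hm2
    have hsin' : 2 * (m : ℝ) / n ≤ Real.sin (π * d / n) := by
      have e : 2 / π * (π * m / n) = 2 * (m : ℝ) / n := by field_simp
      rwa [e] at hsin
    have hmpos : (0 : ℝ) < m := by exact_mod_cast hm0
    have hspos : 0 < Real.sin (π * d / n) := lt_of_lt_of_le (by positivity) hsin'
    rw [div_le_iff₀ (by positivity)]
    have h4 : (2 * (m : ℝ) / n) ^ 2 ≤ Real.sin (π * d / n) ^ 2 :=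
      pow_le_pow_left₀ (by positivity) hsin' 2
    calc ∑ j ∈ range n, (f ((j : ℤ) + (d : ℤ)) - f (j : ℤ)) ^ 2
        ≤ (m : ℝ) ^ 2 * ∑ j ∈ range n, (f ((j : ℤ) + 1) - f (j : ℤ)) ^ 2 := hm3
      _ ≤ (m : ℝ) ^ 2 * (D / n) := mul_le_mul_of_nonneg_left hD (by positivity)
      _ = n * D / 4 * (2 * (m : ℝ) / n) ^ 2 := by field_simp; norm_num
      _ ≤ n * D / 4 * Real.sin (π * d / n) ^ 2 := mul_le_mul_of_nonneg_left h4 (by positivity)
  refine (Finset.sum_le_sum h1).trans ?_
  rw [Finset.sum_const, Nat.card_Ico, nsmul_eq_mul]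
  have h5 : ((n - 1 : ℕ) : ℝ) ≤ n := by exact_mod_cast Nat.sub_le n 1
  have h6 : ((n - 1 : ℕ) : ℝ) * (n * D / 4) ≤ n * (n * D / 4) :=
    mul_le_mul_of_nonneg_right h5 (by positivity)
  refine h6.trans (le_of_eq ?_)
  ring

theorem ep_small {n : ℕ} (hn : 1 ≤ n) {F : ℤ → ℝ} (hF : ∀ j, F (j + n) = F j) {C : ℝ}
    (hC : 0 < C) (h : ∀ (j : ℤ) (m : ℕ), m ≤ n → |F (j + m) - F j| ≤ C * Real.sqrt (m / n))
    (j : ℤ) (d : ℕ) (hd1 : 1 ≤ d) (hdn : d < n) :
    |(F (j + d) - F j) / (2 * n)| ≤ C / (4 * Real.sqrt n) * Real.sin (π * d / n) := by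
  have hnpos : (0 : ℝ) < n := by exact_mod_cast hn
  have hπ := Real.pi_pos
  obtain ⟨r, hr⟩ : ∃ r, r = Real.sqrt n := ⟨_, rfl⟩
  have hr0 : 0 < r := by rw [hr]; exact Real.sqrt_pos.2 hnpos
  have hrr : r * r = n := by rw [hr]; exact Real.mul_self_sqrt hnpos.le
  have hsq : ∀ m : ℕ, 1 ≤ m → Real.sqrt (m / n) ≤ m / r := by
    intro m hm
    have hm' : (1 : ℝ) ≤ m := by exact_mod_cast hm
    rw [Real.sqrt_div (by positivity), hr]
    apply div_le_div_of_nonneg_right _ (Real.sqrt_nonneg _)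
    rw [Real.sqrt_le_iff]
    constructor
    · positivity
    · nlinarith
  obtain ⟨u, hu⟩ : ∃ u, u = |F (j + d) - F j| := ⟨_, rfl⟩
  have hu0 : 0 ≤ u := by rw [hu]; exact abs_nonneg _
  have h1 : u ≤ C * (d / r) := by
    rw [hu]
    exact (h j d hdn.le).trans (mul_le_mul_of_nonneg_left (hsq d hd1) hC.le)
  have h2 : u ≤ C * ((n - d) / r) := by
    have h3 := h (j + d) (n - d) (Nat.sub_le _ _)
    have e : j + (d : ℤ) + ((n - d : ℕ) : ℤ) = j + n := by
      rw [Nat.cast_sub hdn.le]; ring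
    rw [e, hF, abs_sub_comm, ← hu] at h3
    refine h3.trans (mul_le_mul_of_nonneg_left ?_ hC.le)
    have := hsq (n - d) (by omega)
    rw [Nat.cast_sub hdn.le] at this
    rw [Nat.cast_sub hdn.le]
    exact this
  have h1' : u * r ≤ C * d := by
    rw [mul_div_assoc', le_div_iff₀ hr0] at h1
    exact h1
  have h2' : u * r ≤ C * (n - d) := by
    rw [mul_div_assoc', le_div_iff₀ hr0] at h2
    exact h2
  have hdn' : (d : ℝ) ≤ n := by exact_mod_cast hdn.le
  have ha0 : 0 ≤ π * d / n := by positivity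
  have haπ : π * d / n ≤ π := by
    rw [div_le_iff₀ hnpos]
    exact mul_le_mul_of_nonneg_left hdn' hπ.le
  have t1 : u * π / (C * r) ≤ π * d / n := by
    rw [← hrr, div_le_div_iff₀ (by positivity) (by positivity)]
    have := mul_le_mul_of_nonneg_left h1' (by positivity : 0 ≤ π * r)
    nlinarith
  have t2 : u * π / (C * r) ≤ π - π * d / n := by
    have e : π - π * d / n = π * (n - d) / n := by field_simp
    rw [e, div_le_div_iff₀ (by positivity) hnpos]
    have := mul_le_mul_of_nonneg_left h2' (by positivity : 0 ≤ π * r)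
    have e2 : u * π * (n : ℝ) = π * r * (u * r) := by rw [← hrr]; ring
    rw [e2]
    nlinarith
  have h4 := ep_jordan ha0 haπ t1 t2
  have e3 : 2 / π * (u * π / (C * r)) = 2 * u / (C * r) := by field_simp
  rw [e3, div_le_iff₀ (by positivity)] at h4
  rw [abs_div, ← hu, ← hr, abs_of_pos (by positivity : (0 : ℝ) < 2 * n), div_le_iff₀ (by positivity)]
  have e4 : C / (4 * r) * Real.sin (π * d / n) * (2 * n) =
      Real.sin (π * d / n) * (C * r) / 2 := by
    rw [← hrr]; field_simp; ring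
  rw [e4]
  linarith

theorem m_EPSEX : Stmt_HOLD → Stmt_EPSEX := by
  intro hHOLD K
  obtain ⟨C, nH, hC, hHOLD⟩ := hHOLD K
  refine ⟨5 * |K| + C * (5 * |K|) + 1, nH + ⌈4 * C ^ 2⌉₊ + ⌈|K|⌉₊ + 1, by positivity, ?_⟩
  intro n hn c hc
  have hn1 : 1 ≤ n := by omega
  have hnpos : (0 : ℝ) < n := by exact_mod_cast hn1
  have hπ := Real.pi_pos
  have hπ10 : π ^ 2 ≤ 10 := by
    have := Real.pi_lt_d4
    nlinarith
  have hK0 : 0 ≤ K := by
    have h := le_trans (abs_nonneg _) (hc.hρ 0)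
    by_contra hlt
    push Not at hlt
    have := div_neg_of_neg_of_pos hlt hnpos
    linarith
  rw [abs_of_nonneg hK0] at hn ⊢
  have hKn : K / n ≤ 1 := by
    rw [div_le_one hnpos]
    exact le_trans (Nat.le_ceil _) (by exact_mod_cast (by omega))
  obtain ⟨-, hH⟩ := hHOLD n (by omega) c hc
  obtain ⟨r, hr⟩ : ∃ r, r = Real.sqrt n := ⟨_, rfl⟩
  have hr0 : 0 < r := by rw [hr]; exact Real.sqrt_pos.2 hnpos
  have hrr : r * r = n := by rw [hr]; exact Real.mul_self_sqrt hnpos.le
  have hrC : 2 * C ≤ r := by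
    rw [hr]
    apply Real.le_sqrt_of_sq_le
    have : 4 * C ^ 2 ≤ n := le_trans (Nat.le_ceil _) (by exact_mod_cast (by omega))
    nlinarith
  obtain ⟨η, hη⟩ : ∃ η, η = C / (4 * r) := ⟨_, rfl⟩
  have hη0 : 0 ≤ η := by rw [hη]; positivity
  have hη1 : η ≤ 1 / 8 := by
    rw [hη, div_le_iff₀ (by positivity)]
    linarith
  have hΦp : ∀ j, c.Φ (j + n) = c.Φ j := by
    intro j; unfold Cfg.Φ; rw [c.φ_add hn1]
  have hRp : ∀ j, c.R (j + n) = c.R j := by
    intro j; unfold Cfg.R; rw [c.ρ_add]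
  -- small increments
  have hxs : ∀ (j : ℤ) (d : ℕ), 1 ≤ d → d < n →
      |(c.Φ (j + d) - c.Φ j) / (2 * n)| ≤ η * Real.sin (π * d / n) := by
    intro j d h1 h2
    rw [hη, hr]
    exact ep_small hn1 hΦp hC (fun j m hm => (hH j m hm).2) j d h1 h2
  have hys : ∀ (j : ℤ) (d : ℕ), 1 ≤ d → d < n →
      |(c.R (j + d) - c.R j) / (2 * n)| ≤ η * Real.sin (π * d / n) := by
    intro j d h1 h2
    rw [hη, hr]
    exact ep_small hn1 hRp hC (fun j m hm => (hH j m hm).1) j d h1 h2
  have hX : ∀ (j : ℤ) (d : ℕ), c.X (j + d) j - π * d / n = (c.Φ (j + d) - c.Φ j) / (2 * n) := by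
    intro j d
    unfold Cfg.X Cfg.Φ Cfg.φ
    push_cast
    field_simp
    ring
  have hY : ∀ (j : ℤ) (d : ℕ), c.Y (j + d) j = (c.R (j + d) - c.R j) / (2 * n) := by
    intro j d
    unfold Cfg.Y Cfg.R
    field_simp
  have hQ : ∀ f : ℤ → ℝ, QK n f = ∑ j ∈ range n, ∑ d ∈ Ico 1 n,
      ((f ((j : ℤ) + (d : ℤ)) - f (j : ℤ)) / (2 * n)) ^ 2 / (2 * Real.sin (π * d / n) ^ 2) := by
    intro f
    unfold QK
    rw [Finset.sum_div]
    apply Finset.sum_congr rfl
    intro j _
    rw [Finset.sum_div]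
    apply Finset.sum_congr rfl
    intro d _
    rw [div_pow, div_div, div_div]
    congr 1
    ring
  have hrange : ∀ d ∈ Ico 1 n, 0 < π * (d : ℝ) / n ∧ π * (d : ℝ) / n < π := by
    intro d hd
    rw [Finset.mem_Ico] at hd
    have hd1 : (0 : ℝ) < d := by exact_mod_cast hd.1
    have hd2 : (d : ℝ) < n := by exact_mod_cast hd.2
    refine ⟨by positivity, ?_⟩
    rw [div_lt_iff₀ hnpos]
    exact mul_lt_mul_of_pos_left hd2 hπ
  have hE : (1 - 2 * η) * QK n c.Φ ≤ Eφ c := by
    rw [hQ, Finset.mul_sum]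
    unfold Eφ
    apply Finset.sum_le_sum
    intro j _
    rw [Finset.mul_sum]
    apply Finset.sum_le_sum
    intro d hd
    obtain ⟨ha, hap⟩ := hrange d hd
    rw [Finset.mem_Ico] at hd
    have hX0 : 0 < c.X ((j : ℤ) + d) j := by
      unfold Cfg.X
      have := c.mono (show (j : ℤ) < (j : ℤ) + d by omega)
      linarith
    have hXπ : c.X ((j : ℤ) + d) j < π := by
      unfold Cfg.X
      have h1 := c.mono (show (j : ℤ) + d < (j : ℤ) + n by omega)
      rw [c.θ_add] at h1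
      linarith
    have h := ep_E ha hap hX0 hXπ hη0 hη1 (by rw [hX]; exact hxs j d hd.1 hd.2)
    rw [hX] at h
    exact h
  have hT : TT c ≤ (1 + 4 * η) * QK n c.R := by
    rw [hQ, Finset.mul_sum]
    unfold TT
    rw [Finset.sum_div]
    apply Finset.sum_le_sum
    intro j _
    rw [Finset.mul_sum, Finset.sum_div]
    apply Finset.sum_le_sum
    intro d hd
    obtain ⟨ha, hap⟩ := hrange d hd
    rw [Finset.mem_Ico] at hd
    have h := ep_T (X := c.X ((j : ℤ) + d) j) (Y := c.Y ((j : ℤ) + d) j) ha hap hη0 hη1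
      (by rw [hX]; exact hxs j d hd.1 hd.2) (by rw [hY]; exact hys j d hd.1 hd.2)
    rw [← hY]
    refine le_trans (le_of_eq ?_) h
    ring
  -- boundedness
  have hQΦ : QK n c.Φ ≤ 5 * K := by
    have h := ep_QK hn1 hΦp (D := 160 * K) (by
      have e : ∀ j : ℤ, (c.Φ (j + 1) - c.Φ j) ^ 2 = 4 * π ^ 2 * c.y j ^ 2 := by
        intro j
        have e1 : c.Φ (j + 1) - c.Φ j = 2 * π * c.y j := by
          unfold Cfg.Φ Cfg.φ Cfg.y Cfg.g
          push_cast
          field_simp
          ring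
        rw [e1]; ring
      simp only [e]
      rw [← Finset.mul_sum]
      have h1 := hc.hy
      have h2 : 0 ≤ ∑ j ∈ range n, c.y (j : ℤ) ^ 2 := Finset.sum_nonneg fun _ _ => sq_nonneg _
      have h3 : 160 * K / n = 160 * (K / n) := by ring
      rw [h3]
      have h4 : 4 * π ^ 2 * ∑ j ∈ range n, c.y (j : ℤ) ^ 2 ≤
          160 * ∑ j ∈ range n, c.y (j : ℤ) ^ 2 :=
        mul_le_mul_of_nonneg_right (by linarith) h2
      linarith) (by positivity)
    linarith
  have hy1 : ∀ j ∈ range n, c.y (j : ℤ) ≤ 1 := by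
    intro j hj
    have h := Finset.single_le_sum (f := fun j : ℕ => c.y (j : ℤ) ^ 2)
      (fun i _ => sq_nonneg _) hj
    have h' : c.y (j : ℤ) ^ 2 ≤ K / n := le_trans h hc.hy
    nlinarith
  have hQR : QK n c.R ≤ 5 * K := by
    have h := ep_QK hn1 hRp (D := 160 * K) (by
      have e : ∀ j ∈ range n, (c.R ((j : ℤ) + 1) - c.R (j : ℤ)) ^ 2 ≤ 160 * c.s (j : ℤ) ^ 2 := by
        intro j hj
        have hg := c.g_pos (j : ℤ)
        have e1 : c.R ((j : ℤ) + 1) - c.R (j : ℤ) = n * c.g (j : ℤ) * c.s (j : ℤ) := by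
          unfold Cfg.R Cfg.s Cfg.Δ
          field_simp
        have hgn : n * c.g (j : ℤ) ≤ 4 * π := by
          rw [c.g_eq hn1]
          have e2 : (n : ℝ) * (2 * π / n * (1 + c.y (j : ℤ))) = 2 * π * (1 + c.y (j : ℤ)) := by
            field_simp
          rw [e2]
          have := hy1 j hj
          nlinarith
        have hgn0 : 0 ≤ n * c.g (j : ℤ) := by positivity
        have h5 : (n * c.g (j : ℤ)) ^ 2 ≤ 160 := by
          have := pow_le_pow_left₀ hgn0 hgn 2
          nlinarith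
        rw [e1, mul_pow]
        exact mul_le_mul_of_nonneg_right h5 (sq_nonneg _)
      refine (Finset.sum_le_sum e).trans ?_
      rw [← Finset.mul_sum]
      have h1 := hc.hs
      have h3 : 160 * K / n = 160 * (K / n) := by ring
      rw [h3]
      linarith) (by positivity)
    linarith
  have hQΦ0 : 0 ≤ QK n c.Φ := by
    unfold QK
    apply div_nonneg _ (by positivity)
    exact Finset.sum_nonneg fun _ _ => Finset.sum_nonneg fun _ _ => by positivity
  have hQR0 : 0 ≤ QK n c.R := by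
    unfold QK
    apply div_nonneg _ (by positivity)
    exact Finset.sum_nonneg fun _ _ => Finset.sum_nonneg fun _ _ => by positivity
  have h4η : 4 * η = C / r := by rw [hη]; field_simp
  have hprod : ∀ q : ℝ, 0 ≤ q → q ≤ 5 * K → 4 * η * q ≤ (5 * K + C * (5 * K) + 1) / r := by
    intro q hq0 hq
    rw [h4η, div_mul_eq_mul_div]
    apply div_le_div_of_nonneg_right _ hr0.le
    have := mul_le_mul_of_nonneg_left hq hC.le
    linarith
  rw [← hr]
  refine ⟨?_, ?_, ?_, ?_⟩
  · have h1 := hprod _ hQΦ0 hQΦ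
    have h2 : 0 ≤ η * QK n c.Φ := mul_nonneg hη0 hQΦ0
    linarith
  · have h1 := hprod _ hQR0 hQR
    linarith
  · have : 0 ≤ C * (5 * K) := by positivity
    linarith
  · have : 0 ≤ C * (5 * K) := by positivity
    linarith

end Pool.Agent.EHP
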