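import Pool.Agent.EHP.Stmts4

/-!
# The energy as a sum over the modes: `Stmt_ESUM`
-/

open Finset
open scoped Real ComplexConjugate

namespace Pool.Agent.EHP

namespace M_ESUM

theorem dr_add_half (n : ℕ) (f g : ℤ → ℝ) (k : ℤ) :
    dr n (fun j => (f j + g j) / 2) k = (dr n f k + dr n g k) / 2 := by
  unfold dr dft
  rw [← add_div, div_right_comm, ← Finset.sum_add_distrib]
  congr 1
  rw [Finset.sum_div]
  apply Finset.sum_congr rfl
  intro j _
  push_cast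
  ring

theorem mn_mono {n : ℕ} {f g : ℤ → ℝ} (h : ∀ j, f j ≤ g j) : mn n f ≤ mn n g := by
  unfold mn
  gcongr with j _
  exact h _

theorem mn_const {n : ℕ} (hn : 1 ≤ n) (a : ℝ) : mn n (fun _ => a) = a := by
  unfold mn
  have : (0 : ℝ) < n := by exact_mod_cast hn
  rw [Finset.sum_const, Finset.card_range, nsmul_eq_mul]
  field_simp

theorem mn_sq_le {n : ℕ} (hn : 1 ≤ n) {f : ℤ → ℝ} {a : ℝ} (h : ∀ j, |f j| ≤ a) :
    mn n (fun j => f j ^ 2) ≤ a ^ 2 := by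
  calc mn n (fun j => f j ^ 2) ≤ mn n (fun _ => a ^ 2) := mn_mono fun j => by
        rw [← sq_abs]
        exact pow_le_pow_left₀ (abs_nonneg _) (h j) 2
    _ = a ^ 2 := mn_const hn _

theorem mn_mul_ge {n : ℕ} (f g : ℤ → ℝ) :
    -(1 / 2 * mn n (fun j => f j ^ 2) + 1 / 2 * mn n (fun j => g j ^ 2)) ≤
      mn n (fun j => f j * g j) := by
  have e : mn n (fun j => f j * g j) +
      (1 / 2 * mn n (fun j => f j ^ 2) + 1 / 2 * mn n (fun j => g j ^ 2)) =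
      mn n (fun j => (f j + g j) ^ 2 / 2) := by
    unfold mn
    rw [mul_div_assoc', mul_div_assoc', ← add_div, ← add_div, Finset.mul_sum, Finset.mul_sum,
      ← Finset.sum_add_distrib, ← Finset.sum_add_distrib]
    congr 1
    apply Finset.sum_congr rfl
    intro j _
    ring
  have h : 0 ≤ mn n (fun j => (f j + g j) ^ 2 / 2) := by
    unfold mn
    positivity
  linarith

end M_ESUM

open M_ESUM in
theorem m_ESUM : Stmt_IDEN → Stmt_RHOEX → Stmt_EPSEX → Stmt_PARS → Stmt_DFTS → Stmt_DRREL →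
    Stmt_ESUM := by
  intro hIDEN hRHO hEPS hPARS hDFTS hDR K
  obtain ⟨C₁, n₁, hC₁, h1⟩ := hRHO K
  obtain ⟨C₂, n₂, hC₂, h2⟩ := hEPS K
  obtain ⟨C₃, n₃, hC₃, h3⟩ := hDR K
  refine ⟨C₁ + 2 * C₂ + (K ^ 2 + C₃), n₁ + n₂ + n₃ + 1, by positivity, ?_⟩
  intro N hN c hc L hL
  have hn1 : 1 ≤ 2 * N := by omega
  have hN1 : 1 ≤ N := by omega
  have a1 := h1 (2 * N) (by omega) c hc L hL
  obtain ⟨a2, a3, -, -⟩ := h2 (2 * N) (by omega) c hc
  obtain ⟨-, a4, -, -⟩ := h3 N (by omega) c hc L hL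
  have a5 := hIDEN (2 * N) c hn1
  obtain ⟨x, hx⟩ : ∃ x : ℝ, x = ((2 * N : ℕ) : ℝ) := ⟨_, rfl⟩
  have hx1 : 1 ≤ x := by rw [hx]; exact_mod_cast hn1
  have hx0 : 0 < x := by linarith
  have hsx : 0 < Real.sqrt x := Real.sqrt_pos.2 hx0
  have hsx1 : Real.sqrt x ≤ x := by
    rw [Real.sqrt_le_left hx0.le]
    nlinarith
  have hΦper : ∀ j, c.Φ (j + (2 * N : ℕ)) = c.Φ j := fun j => by
    unfold Cfg.Φ
    rw [c.φ_add (by omega)]
  have hRper : ∀ j, c.R (j + (2 * N : ℕ)) = c.R j := fun j => by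
    unfold Cfg.R
    rw [c.ρ_add]
  have hDRper : ∀ j, c.DR (j + (2 * N : ℕ)) = c.DR j := fun j => by
    unfold Cfg.DR
    have : j + ((2 * N : ℕ) : ℤ) + 1 = (j + 1) + ((2 * N : ℕ) : ℤ) := by ring
    rw [this, hRper, hRper]
  have hΦmper : ∀ j, (c.Φ (j + (2 * N : ℕ)) + c.Φ (j + (2 * N : ℕ) + 1)) / 2 =
      (c.Φ j + c.Φ (j + 1)) / 2 := fun j => by
    have : j + ((2 * N : ℕ) : ℤ) + 1 = (j + 1) + ((2 * N : ℕ) : ℤ) := by ring
    rw [this, hΦper, hΦper]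
  have hΦb : ∀ j, |c.Φ j| ≤ K := fun j => by
    have := hc.hφ j
    rw [← hx] at this
    unfold Cfg.Φ
    rw [← hx, abs_mul, abs_of_pos hx0]
    calc x * |c.φ j| ≤ x * (K / x) := by gcongr
      _ = K := by field_simp
  have hRb : ∀ j, |c.R j| ≤ K := fun j => by
    have := hc.hρ j
    rw [← hx] at this
    unfold Cfg.R
    rw [← hx, abs_mul, abs_of_pos hx0]
    calc x * |c.ρ j| ≤ x * (K / x) := by gcongr
      _ = K := by field_simp
  have hΦmb : ∀ j, |(c.Φ j + c.Φ (j + 1)) / 2| ≤ K := fun j => by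
    rw [abs_div, abs_of_pos (by norm_num : (0 : ℝ) < 2)]
    have := abs_add_le (c.Φ j) (c.Φ (j + 1))
    linarith [hΦb j, hΦb (j + 1)]
  -- Parseval
  have p1 := (hPARS N (fun j => (c.Φ j + c.Φ (j + 1)) / 2) c.DR hN1 hΦmper hDRper).1
  have p2 := (hPARS N c.DR c.DR hN1 hDRper hDRper).1
  have p3 := (hPARS N c.R c.R hN1 hRper hRper).1
  have p4 := (hPARS N c.Φ c.Φ hN1 hΦper hΦper).2
  have p5 := (hPARS N c.R c.R hN1 hRper hRper).2
  have hsqDR : mn (2 * N) (fun j => c.DR j ^ 2) = mn (2 * N) (fun j => c.DR j * c.DR j) := by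
    unfold mn
    congr 1
    apply Finset.sum_congr rfl
    intro j _
    ring
  have hsqR : mn (2 * N) (fun j => c.R j ^ 2) = mn (2 * N) (fun j => c.R j * c.R j) := by
    unfold mn
    congr 1
    apply Finset.sum_congr rfl
    intro j _
    ring
  have hnorm : ∀ w : ℂ, (w * conj w).re = ‖w‖ ^ 2 := fun w => by
    rw [Complex.mul_conj, Complex.ofReal_re, Complex.normSq_eq_norm_sq]
  have hshift : ∀ k : ℤ, dr (2 * N) (fun j => (c.Φ j + c.Φ (j + 1)) / 2) k =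
      (1 + Complex.exp ((2 * π * k / (2 * N : ℕ) : ℝ) * Complex.I)) / 2 * dr (2 * N) c.Φ k := by
    intro k
    rw [dr_add_half, (hDFTS (2 * N) c.Φ hn1 hΦper k 1).1]
    have e : (2 * π * (k : ℝ) * ((1 : ℤ) : ℝ) / ((2 * N : ℕ) : ℝ) : ℝ) =
        2 * π * k / ((2 * N : ℕ) : ℝ) := by
      push_cast
      ring
    rw [e]
    ring
  have hEM : ∑ k ∈ Finset.Ioc (-(N : ℤ)) N, EM c k =
      mn (2 * N) (fun j => (c.Φ j + c.Φ (j + 1)) / 2 * c.DR j) -
        1 / 2 * mn (2 * N) (fun j => c.DR j ^ 2) - 1 / 2 * mn (2 * N) (fun j => c.R j ^ 2) -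
        QK (2 * N) c.Φ + QK (2 * N) c.R := by
    rw [hsqDR, hsqR, p1, p2, p3, p4, p5, Finset.mul_sum, Finset.mul_sum, Finset.mul_sum,
      Finset.mul_sum, ← Finset.sum_sub_distrib, ← Finset.sum_sub_distrib,
      ← Finset.sum_sub_distrib, ← Finset.sum_add_distrib]
    apply Finset.sum_congr rfl
    intro k _
    rw [hshift, hnorm, hnorm]
    unfold EM
    ring
  -- the factor `1 - 1/n`
  obtain ⟨T, hT⟩ : ∃ T : ℝ, T = π ^ 2 / 8 +
      mn (2 * N) (fun j => (c.Φ j + c.Φ (j + 1)) / 2 * c.DR j) -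
      1 / 2 * mn (2 * N) (fun j => c.DR j ^ 2) - 1 / 2 * mn (2 * N) (fun j => c.R j ^ 2) +
      C₁ / Real.sqrt x := ⟨_, rfl⟩
  have hTlow : -(K ^ 2 + C₃) ≤ T := by
    have b1 := mn_mul_ge (n := 2 * N) (fun j => (c.Φ j + c.Φ (j + 1)) / 2) c.DR
    have b2 := mn_sq_le (n := 2 * N) hn1 hΦmb
    have b3 := mn_sq_le (n := 2 * N) hn1 hRb
    have b4 : 0 ≤ C₁ / Real.sqrt x := by positivity
    have b5 : 0 ≤ π ^ 2 / 8 := by positivity
    rw [hT]
    linarith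
  rw [← hx] at a1 a2 a3 a5 ⊢
  rw [← hT] at a1
  have hρ : (x - 1) * ∑ j ∈ range (2 * N), c.ρ (j : ℤ) ≤ T + (K ^ 2 + C₃) / Real.sqrt x := by
    have e : (x - 1) * ∑ j ∈ range (2 * N), c.ρ (j : ℤ) =
        (1 - 1 / x) * (x * ∑ j ∈ range (2 * N), c.ρ (j : ℤ)) := by
      field_simp
    have hf : 0 ≤ 1 - 1 / x := by
      rw [sub_nonneg, div_le_one hx0]
      exact hx1
    have c1 := mul_le_mul_of_nonneg_left a1 hf
    have c2 : (1 - 1 / x) * T = T - T / x := by ring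
    have c3 : -T / x ≤ (K ^ 2 + C₃) / Real.sqrt x := by
      calc -T / x ≤ (K ^ 2 + C₃) / x := by
            gcongr
            linarith
        _ ≤ (K ^ 2 + C₃) / Real.sqrt x := by
            gcongr
    rw [e]
    have c4 : -T / x = -(T / x) := by ring
    linarith
  have hfin : (C₁ + 2 * C₂ + (K ^ 2 + C₃)) / Real.sqrt x =
      C₁ / Real.sqrt x + 2 * (C₂ / Real.sqrt x) + (K ^ 2 + C₃) / Real.sqrt x := by ring
  rw [hfin, hEM, a5]
  linarith

end Pool.Agent.EHP
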