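import Pool.Agent.EHP.Stmts2

/-!
# The quadratic error term (`ETA`)
-/

open Finset
open scoped Real ComplexConjugate

namespace Pool.Agent.EHP

namespace META

variable {n : ℕ}

theorem X_pos (c : Cfg n) {d : ℕ} (hd : 1 ≤ d) (j : ℤ) : 0 < c.X (j + (d : ℤ)) j := by
  unfold Cfg.X
  have : c.θ j < c.θ (j + (d : ℤ)) := c.mono (by omega)
  linarith

theorem X_lt (c : Cfg n) {d : ℕ} (hd : d < n) (j : ℤ) : c.X (j + (d : ℤ)) j < π := by
  unfold Cfg.X
  have h1 : c.θ (j + (d : ℤ)) < c.θ (j + (n : ℤ)) := c.mono (by omega)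
  rw [c.θ_add] at h1
  linarith

theorem X_sub (c : Cfg n) (hn : 0 < n) (d : ℕ) (j : ℤ) :
    c.X (j + (d : ℤ)) j - π * d / n = (c.φ (j + (d : ℤ)) - c.φ j) / 2 := by
  unfold Cfg.X Cfg.φ
  have : (n : ℝ) ≠ 0 := by positivity
  push_cast
  field_simp
  ring

theorem sum_Δ (c : Cfg n) (j : ℤ) (d : ℕ) :
    ∑ l ∈ range d, c.Δ (j + (l : ℤ)) = c.ρ (j + (d : ℤ)) - c.ρ j := by
  induction d with
  | zero => simp
  | succ k ih =>
    rw [Finset.sum_range_succ, ih]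
    unfold Cfg.Δ
    push_cast
    rw [show j + (k : ℤ) + 1 = j + ((k : ℤ) + 1) by ring]
    ring

theorem sum_gg (c : Cfg n) (j : ℤ) (d : ℕ) :
    ∑ l ∈ range d, c.g (j + (l : ℤ)) = 2 * c.X (j + (d : ℤ)) j := by
  induction d with
  | zero => simp [Cfg.X]
  | succ k ih =>
    rw [Finset.sum_range_succ, ih]
    unfold Cfg.g Cfg.X
    push_cast
    rw [show j + (k : ℤ) + 1 = j + ((k : ℤ) + 1) by ring]
    ring

/-- The local part of `S`. -/
noncomputable def SS (c : Cfg n) (d : ℕ) (j : ℤ) : ℝ :=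
  ∑ l ∈ range d, c.Δ (j + (l : ℤ)) ^ 2 / c.g (j + (l : ℤ))

theorem SS_nonneg (c : Cfg n) (d : ℕ) (j : ℤ) : 0 ≤ SS c d j :=
  Finset.sum_nonneg fun l _ => div_nonneg (sq_nonneg _) (c.g_pos _).le

theorem Y_sq_le (c : Cfg n) (d : ℕ) (j : ℤ) :
    c.Y (j + (d : ℤ)) j ^ 2 ≤ c.X (j + (d : ℤ)) j * SS c d j / 2 := by
  have h := Finset.sum_sq_le_sum_mul_sum_of_sq_le_mul (range d)
    (r := fun l : ℕ => c.Δ (j + (l : ℤ))) (f := fun l : ℕ => c.g (j + (l : ℤ)))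
    (g := fun l : ℕ => c.Δ (j + (l : ℤ)) ^ 2 / c.g (j + (l : ℤ)))
    (fun _ _ => (c.g_pos _).le) (fun _ _ => div_nonneg (sq_nonneg _) (c.g_pos _).le)
    (fun l _ => by
      have := (c.g_pos (j + (l : ℤ))).ne'
      apply le_of_eq
      field_simp)
  rw [sum_Δ, sum_gg] at h
  unfold SS Cfg.Y
  nlinarith [h]

theorem sum_SS (c : Cfg n) (d : ℕ) : ∑ j ∈ range n, SS c d (j : ℤ) = d * c.S := by
  unfold SS Cfg.S
  rw [Finset.sum_comm]
  have : ∀ l ∈ range d, ∑ j ∈ range n, c.Δ ((j : ℤ) + (l : ℤ)) ^ 2 / c.g ((j : ℤ) + (l : ℤ)) =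
      ∑ j ∈ range n, c.Δ (j : ℤ) ^ 2 / c.g (j : ℤ) := by
    intro l _
    exact sum_shift (n := n) (f := fun j => c.Δ j ^ 2 / c.g j)
      (fun j => by simp only [c.Δ_add, c.g_add]) (l : ℤ)
  rw [Finset.sum_congr rfl this]
  simp

theorem sinh_sq_le {y : ℝ} (hy : |y| ≤ 1) : Real.sinh y ^ 2 ≤ 4 * y ^ 2 := by
  have key : ∀ t : ℝ, 0 ≤ t → t ≤ 1 → Real.sinh t ≤ 2 * t := by
    intro t h0 h1
    rw [Real.sinh_eq]
    have h2 : Real.exp t ≤ 1 + 2 * t := by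
      have := Real.exp_bound' h0 h1 (n := 2) (by norm_num)
      simp [Finset.sum_range_succ, Nat.factorial] at this
      nlinarith [this, mul_nonneg h0 (sub_nonneg.2 h1)]
    have h3 : 1 - t ≤ Real.exp (-t) := by
      have := Real.add_one_le_exp (-t)
      linarith
    linarith
  have h1 : |Real.sinh y| ≤ 2 * |y| := by
    rw [Real.abs_sinh]
    exact key _ (abs_nonneg _) hy
  have h2 := abs_nonneg (Real.sinh y)
  rw [← sq_abs (Real.sinh y), ← sq_abs y]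
  nlinarith

theorem sin_ge {x : ℝ} (h0 : 0 < x) (h2 : x ≤ 2) : x / 3 ≤ Real.sin x := by
  have hpi := Real.pi_gt_three
  have hpi4 := Real.pi_lt_four
  have hpi' := Real.pi_lt_d2
  rcases le_total x (π / 2) with h | h
  · have := Real.mul_le_sin h0.le h
    have e : (1 : ℝ) / 3 ≤ 2 / π := by
      rw [div_le_div_iff₀ (by norm_num) (by linarith)]; linarith
    nlinarith
  · have := Real.mul_le_sin (x := π - x) (by linarith) (by linarith)
    rw [Real.sin_pi_sub] at this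
    have e : 2 / 3 ≤ 2 / π * (π - x) := by
      rw [div_mul_eq_mul_div, div_le_div_iff₀ (by norm_num) (by linarith)]
      nlinarith
    linarith

theorem D2_refl (a X : ℝ) : D2 (π - a) (π - X) = D2 a X := by
  unfold D2
  rw [Real.sin_pi_sub, Real.sin_pi_sub, Real.cos_pi_sub, Real.cos_pi_sub]
  ring

/-- The bound for one pair at index distance `d ≤ n / 2`. -/
theorem pair_le (hD : Stmt_D2LB) (c : Cfg n) {ε : ℝ} (h : Nice n ε c) (hε0 : 0 < ε)
    (hε : ε ≤ 1 / 16) {d : ℕ} (hd : 1 ≤ d) (hdn : 2 * d ≤ n) (j : ℤ) :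
    3 * (Real.sinh (c.Y (j + (d : ℤ)) j) ^ 2 / Real.sin (c.X (j + (d : ℤ)) j) ^ 4) ≤
      1 / 2 * D2 (π * d / n) (c.X (j + (d : ℤ)) j) + 3888 * (n / d : ℝ) ^ 3 * SS c d j := by
  have hn : 0 < n := by omega
  have hnR : (0 : ℝ) < n := by exact_mod_cast hn
  have hdR : (0 : ℝ) < d := by exact_mod_cast hd
  have hdnR : 2 * (d : ℝ) ≤ n := by exact_mod_cast hdn
  have hpi := Real.pi_gt_three
  have hpi' := Real.pi_lt_d2
  set X := c.X (j + (d : ℤ)) j with hX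
  set Y := c.Y (j + (d : ℤ)) j with hY
  set a := π * d / n with ha
  have hX0 : 0 < X := X_pos c hd j
  have hXpi : X < π := X_lt c (by omega) j
  have ha0 : 0 < a := by positivity
  have ha2 : a ≤ π / 2 := by
    rw [ha, div_le_div_iff₀ hnR (by norm_num)]
    nlinarith
  have hXa : |X - a| ≤ ε := by
    rw [hX, ha, X_sub c hn, abs_div, abs_of_pos (by norm_num : (0 : ℝ) < 2)]
    have h1 := h.hφ (j + (d : ℤ))
    have h2 := h.hφ j
    have h3 := abs_sub (c.φ (j + (d : ℤ))) (c.φ j)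
    linarith
  have hYX : |Y| ≤ ε * X := by
    have h1 := h.slope (j + (d : ℤ)) j
    have e1 : |c.θ (j + (d : ℤ)) - c.θ j| = 2 * X := by
      have : c.θ (j + (d : ℤ)) - c.θ j = 2 * X := by rw [hX]; unfold Cfg.X; ring
      rw [this, abs_of_pos (by linarith)]
    have e2 : |c.ρ (j + (d : ℤ)) - c.ρ j| = 2 * |Y| := by
      have : c.ρ (j + (d : ℤ)) - c.ρ j = 2 * Y := by rw [hY]; unfold Cfg.Y; ring
      rw [this, abs_mul, abs_of_pos (by norm_num : (0 : ℝ) < 2)]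
    rw [e1, e2] at h1
    linarith
  have hX2 : X ≤ 2 := by
    have := (abs_le.1 hXa).2
    linarith
  have hY1 : |Y| ≤ 1 := by nlinarith
  have hsh := sinh_sq_le hY1
  have hsin := sin_ge hX0 hX2
  have hsin0 : 0 < Real.sin X := Real.sin_pos_of_pos_of_lt_pi hX0 hXpi
  have hSS := SS_nonneg c d j
  have hpos : 0 ≤ 3888 * (n / d : ℝ) ^ 3 * SS c d j := by positivity
  have hD0 : 0 ≤ D2 a X := hD.1 a X ha0 (by linarith) hX0 hXpi
  rcases le_total X (a / 2) with hc | hc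
  · have h1 := hD.2.1 a X ha0 ha2 hX0 hc
    have hX1 : X ≤ 1 := by linarith
    have hs2 : X * (2 / π) ≤ Real.sin X := by
      have := Real.mul_le_sin hX0.le (by linarith)
      linarith
    have hs3 : X ≤ 8 / 5 * Real.sin X := by
      have e : (5 : ℝ) / 8 ≤ 2 / π := by
        rw [div_le_div_iff₀ (by norm_num) (by linarith)]; linarith
      nlinarith
    have h4 : Real.sinh Y ^ 2 ≤ 4 * (64 / 25) * ε ^ 2 * Real.sin X ^ 2 := by
      have e1 : Y ^ 2 ≤ (ε * X) ^ 2 := by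
        rw [← sq_abs Y]
        exact pow_le_pow_left₀ (abs_nonneg _) hYX 2
      have e2 : X ^ 2 ≤ 64 / 25 * Real.sin X ^ 2 := by nlinarith
      nlinarith [mul_le_mul_of_nonneg_left e2 (sq_nonneg ε)]
    have h5 : ε ^ 2 ≤ 1 / 256 := by nlinarith
    have h6 : Real.sinh Y ^ 2 ≤ 1 / 24 * Real.sin X ^ 2 := by
      nlinarith [mul_le_mul_of_nonneg_right h5 (sq_nonneg (Real.sin X))]
    have h7 : 3 * (Real.sinh Y ^ 2 / Real.sin X ^ 4) ≤ 1 / 2 * (1 / (4 * Real.sin X ^ 2)) := by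
      rw [show 3 * (Real.sinh Y ^ 2 / Real.sin X ^ 4) = 3 * Real.sinh Y ^ 2 / Real.sin X ^ 4 by ring,
        show 1 / 2 * (1 / (4 * Real.sin X ^ 2)) = (1 / 8 * Real.sin X ^ 2) / Real.sin X ^ 4 by
          field_simp; norm_num]
      apply div_le_div_of_nonneg_right _ (by positivity)
      nlinarith
    linarith
  · have h1 := Y_sq_le c d j
    rw [← hX, ← hY] at h1
    have h2 : Real.sinh Y ^ 2 ≤ 2 * (X * SS c d j) := by linarith
    have h3 : (X / 3) ^ 4 ≤ Real.sin X ^ 4 := pow_le_pow_left₀ (by positivity) hsin 4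
    have h4 : 3 * (Real.sinh Y ^ 2 / Real.sin X ^ 4) ≤ 3 * (2 * (X * SS c d j) / (X / 3) ^ 4) := by
      apply mul_le_mul_of_nonneg_left _ (by norm_num)
      apply div_le_div₀ (by positivity) h2 (by positivity) h3
    have h5 : 3 * (2 * (X * SS c d j) / (X / 3) ^ 4) = 486 * (SS c d j / X ^ 3) := by
      field_simp
      ring
    have h6 : (d : ℝ) / n / 2 ≤ X := by
      have : (d : ℝ) / n ≤ a := by
        rw [ha, mul_div_assoc]
        have : 0 < (d : ℝ) / n := by positivity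
        nlinarith
      linarith
    have h7 : ((d : ℝ) / n / 2) ^ 3 ≤ X ^ 3 := pow_le_pow_left₀ (by positivity) h6 3
    have h8 : SS c d j / X ^ 3 ≤ SS c d j / ((d : ℝ) / n / 2) ^ 3 :=
      div_le_div_of_nonneg_left hSS (by positivity) h7
    have h9 : SS c d j / ((d : ℝ) / n / 2) ^ 3 = 8 * (n / d : ℝ) ^ 3 * SS c d j := by
      field_simp
      norm_num
    rw [h5] at h4
    rw [h9] at h8
    linarith

/-- Sum over `j`, index distance `d ≤ n / 2`. -/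
theorem sum_le (hD : Stmt_D2LB) (c : Cfg n) {ε : ℝ} (h : Nice n ε c) (hε0 : 0 < ε)
    (hε : ε ≤ 1 / 16) {d : ℕ} (hd : 1 ≤ d) (hdn : 2 * d ≤ n) :
    3 * ∑ j ∈ range n, Real.sinh (c.Y ((j : ℤ) + (d : ℤ)) (j : ℤ)) ^ 2 /
        Real.sin (c.X ((j : ℤ) + (d : ℤ)) (j : ℤ)) ^ 4 ≤
      1 / 2 * ∑ j ∈ range n, D2 (π * d / n) (c.X ((j : ℤ) + (d : ℤ)) (j : ℤ)) +
        3888 * (n : ℝ) ^ 3 * c.S * (((d : ℝ) ^ 2)⁻¹) := by
  have hdR : (0 : ℝ) < d := by exact_mod_cast hd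
  have h1 := Finset.sum_le_sum fun j (_ : j ∈ range n) => pair_le hD c h hε0 hε hd hdn (j : ℤ)
  rw [← Finset.mul_sum, Finset.sum_add_distrib, ← Finset.mul_sum, ← Finset.mul_sum, sum_SS] at h1
  have e : 3888 * (n / d : ℝ) ^ 3 * (d * c.S) = 3888 * (n : ℝ) ^ 3 * c.S * (((d : ℝ) ^ 2)⁻¹) := by
    field_simp
  rw [e] at h1
  exact h1

/-- Symmetry `d ↦ n - d` for sums of functions of pairs. -/
theorem sum_symm {F : ℤ → ℤ → ℝ} (hF : ∀ i j, F (i + n) (j + n) = F i j) {d d' : ℕ}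
    (hd : d + d' = n) :
    ∑ j ∈ range n, F ((j : ℤ) + (d' : ℤ)) (j : ℤ) =
      ∑ j ∈ range n, F ((j : ℤ) + (n : ℤ)) ((j : ℤ) + (d : ℤ)) := by
  have := sum_shift (n := n) (f := fun j => F (j + (d' : ℤ)) j) (fun j => by
    have : j + (n : ℤ) + (d' : ℤ) = (j + d') + n := by ring
    simp only [this, hF]) (d : ℤ)
  rw [← this]
  apply Finset.sum_congr rfl
  intro j _
  have e : (j : ℤ) + (d : ℤ) + (d' : ℤ) = (j : ℤ) + (n : ℤ) := by omega
  simp only [e]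

theorem X_refl (c : Cfg n) (j : ℤ) (d : ℕ) :
    c.X (j + (n : ℤ)) (j + (d : ℤ)) = π - c.X (j + (d : ℤ)) j := by
  unfold Cfg.X
  rw [c.θ_add]
  ring

theorem Y_refl (c : Cfg n) (j : ℤ) (d : ℕ) :
    c.Y (j + (n : ℤ)) (j + (d : ℤ)) = -c.Y (j + (d : ℤ)) j := by
  unfold Cfg.Y
  rw [c.ρ_add]
  ring

theorem sum_le' (hD : Stmt_D2LB) (c : Cfg n) {ε : ℝ} (h : Nice n ε c) (hε0 : 0 < ε)
    (hε : ε ≤ 1 / 16) (hS : 0 ≤ c.S) {d : ℕ} (hd : 1 ≤ d) (hdn : d < n) :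
    3 * ∑ j ∈ range n, Real.sinh (c.Y ((j : ℤ) + (d : ℤ)) (j : ℤ)) ^ 2 /
        Real.sin (c.X ((j : ℤ) + (d : ℤ)) (j : ℤ)) ^ 4 ≤
      1 / 2 * ∑ j ∈ range n, D2 (π * d / n) (c.X ((j : ℤ) + (d : ℤ)) (j : ℤ)) +
        3888 * (n : ℝ) ^ 3 * c.S * (((d : ℝ) ^ 2)⁻¹ + (((n - d : ℕ) : ℝ) ^ 2)⁻¹) := by
  have hp : 0 ≤ 3888 * (n : ℝ) ^ 3 * c.S := by positivity
  have hn : 0 < n := by omega
  have hnR : (n : ℝ) ≠ 0 := by positivity
  rcases le_total (2 * d) n with h2 | h2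
  · have h1 := sum_le hD c h hε0 hε hd h2
    have : 0 ≤ 3888 * (n : ℝ) ^ 3 * c.S * (((n - d : ℕ) : ℝ) ^ 2)⁻¹ := by positivity
    linarith
  · obtain ⟨d', hd'⟩ : ∃ d', d + d' = n := ⟨n - d, by omega⟩
    have e0 : n - d = d' := by omega
    rw [e0]
    have h1 := sum_le hD c h hε0 hε (d := d') (by omega) (by omega)
    have e1 : ∑ j ∈ range n, Real.sinh (c.Y ((j : ℤ) + (d' : ℤ)) (j : ℤ)) ^ 2 /
        Real.sin (c.X ((j : ℤ) + (d' : ℤ)) (j : ℤ)) ^ 4 =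
        ∑ j ∈ range n, Real.sinh (c.Y ((j : ℤ) + (d : ℤ)) (j : ℤ)) ^ 2 /
        Real.sin (c.X ((j : ℤ) + (d : ℤ)) (j : ℤ)) ^ 4 := by
      rw [sum_symm (n := n) (F := fun i j => Real.sinh (c.Y i j) ^ 2 / Real.sin (c.X i j) ^ 4)
        (fun i j => by
          have e1 : c.Y (i + n) (j + n) = c.Y i j := by unfold Cfg.Y; rw [c.ρ_add, c.ρ_add]
          have e2 : c.X (i + n) (j + n) = c.X i j := by
            unfold Cfg.X; rw [c.θ_add, c.θ_add]; ring
          simp only [e1, e2]) hd']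
      apply Finset.sum_congr rfl
      intro j _
      simp only [X_refl, Y_refl, Real.sin_pi_sub, Real.sinh_neg, neg_sq]
    have e2 : ∑ j ∈ range n, D2 (π * d' / n) (c.X ((j : ℤ) + (d' : ℤ)) (j : ℤ)) =
        ∑ j ∈ range n, D2 (π * d / n) (c.X ((j : ℤ) + (d : ℤ)) (j : ℤ)) := by
      rw [sum_symm (n := n) (F := fun i j => D2 (π * d' / n) (c.X i j))
        (fun i j => by
          have e2 : c.X (i + n) (j + n) = c.X i j := by
            unfold Cfg.X; rw [c.θ_add, c.θ_add]; ring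
          simp only [e2]) hd']
      apply Finset.sum_congr rfl
      intro j _
      have e3 : π * d' / n = π - π * d / n := by
        have : (d' : ℝ) = n - d := by
          have : ((d + d' : ℕ) : ℝ) = n := by rw [hd']
          push_cast at this
          linarith
        rw [this]
        field_simp
      simp only [X_refl]
      rw [e3, D2_refl]
    rw [e1, e2] at h1
    have : 0 ≤ 3888 * (n : ℝ) ^ 3 * c.S * ((d : ℝ) ^ 2)⁻¹ := by positivity
    linarith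

theorem sum_inv (n : ℕ) : ∑ d ∈ Ico 1 n, ((d : ℝ) ^ 2)⁻¹ ≤ 2 := by
  have h := sum_Ioo_inv_sq_le (α := ℝ) 0 n
  have e : Ioo 0 n = Ico 1 n := by ext d; simp [Finset.mem_Ioo, Finset.mem_Ico]; omega
  rw [e] at h
  simpa using h

theorem sum_inv' (n : ℕ) : ∑ d ∈ Ico 1 n, (((n - d : ℕ) : ℝ) ^ 2)⁻¹ ≤ 2 := by
  refine le_trans (le_of_eq ?_) (sum_inv n)
  apply Finset.sum_nbij' (fun d => n - d) (fun d => n - d)
  · intro d hd; simp only [Finset.mem_Ico] at *; omega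
  · intro d hd; simp only [Finset.mem_Ico] at *; omega
  · intro d hd; simp only [Finset.mem_Ico] at *; omega
  · intro d hd; simp only [Finset.mem_Ico] at *; omega
  · intro d _; rfl

end META

open META in
theorem m_ETA : Stmt_APRI → Stmt_D2LB → Stmt_ETA := by
  intro hA hD
  obtain ⟨K, ε, hε, n₀, hA⟩ := hA
  refine ⟨15552 * K, min ε (1 / 16), lt_min hε (by norm_num), max n₀ 1, ?_⟩
  intro n hn c hc
  have hn1 : 1 ≤ n := le_trans (le_max_right _ _) hn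
  have hnR : (0 : ℝ) < n := by exact_mod_cast hn1
  have hc' : Nice n ε c := by
    refine ⟨hc.opt, hc.cent, hc.rot, fun j => (hc.hρ j).trans (min_le_left _ _),
      fun j => (hc.hφ j).trans (min_le_left _ _), fun i j => (hc.slope i j).trans ?_⟩
    exact mul_le_mul_of_nonneg_right (min_le_left _ _) (abs_nonneg _)
  have hK := (hA n (le_trans (le_max_left _ _) hn) c hc').1
  have hS : 0 ≤ c.S := Finset.sum_nonneg fun j _ => div_nonneg (sq_nonneg _) (c.g_pos _).le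
  have hm1 : 0 ≤ mn n (fun j => c.ρ j ^ 2) :=
    div_nonneg (Finset.sum_nonneg fun j _ => sq_nonneg _) hnR.le
  have hm2 : 0 ≤ mn n (fun j => c.φ j ^ 2) :=
    div_nonneg (Finset.sum_nonneg fun j _ => sq_nonneg _) hnR.le
  have hSK : (n : ℝ) ^ 2 * c.S ≤ K := by
    refine le_trans ?_ hK
    apply mul_le_mul_of_nonneg_left _ (by positivity)
    linarith
  have hmain := Finset.sum_le_sum fun d (hd : d ∈ Ico 1 n) =>
    sum_le' hD c hc (lt_min hε (by norm_num)) (min_le_right _ _) hS (Finset.mem_Ico.1 hd).1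
      (Finset.mem_Ico.1 hd).2
  rw [← Finset.mul_sum, Finset.sum_add_distrib, ← Finset.mul_sum, ← Finset.mul_sum,
    Finset.sum_add_distrib, Finset.sum_comm (s := Ico 1 n), Finset.sum_comm (s := Ico 1 n)] at hmain
  have h1 := sum_inv n
  have h2 := sum_inv' n
  have h3 : 3888 * (n : ℝ) ^ 3 * c.S * (∑ d ∈ Ico 1 n, ((d : ℝ) ^ 2)⁻¹ +
      ∑ d ∈ Ico 1 n, (((n - d : ℕ) : ℝ) ^ 2)⁻¹) ≤ 3888 * (n : ℝ) ^ 3 * c.S * 4 := by
    apply mul_le_mul_of_nonneg_left _ (by positivity)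
    linarith
  have h4 : 3888 * (n : ℝ) ^ 3 * c.S * 4 ≤ 15552 * K * n := by
    have : (n : ℝ) ^ 3 * c.S ≤ K * n := by
      have := mul_le_mul_of_nonneg_right hSK hnR.le
      nlinarith
    linarith
  linarith

end Pool.Agent.EHP
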