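import Pool.Agent.EHP.Stmts4

/-!
# Even modes of `p` are small
-/

open Finset
open scoped Real ComplexConjugate

namespace Pool.Agent.EHP

theorem ev_split {M : Type*} [AddCommMonoid M] (N : ℕ) (f : ℤ → M) :
    ∑ j ∈ range (2 * N), f (j : ℤ) = ∑ j ∈ range N, (f (j : ℤ) + f ((j : ℤ) + N)) := by
  rw [two_mul, Finset.sum_range_add, Finset.sum_add_distrib]
  congr 1
  apply Finset.sum_congr rfl
  intro j _
  push_cast
  rw [add_comm]

theorem ev_abel (S χ : ℕ → ℂ) (h0 : S 0 = 0) (N : ℕ) :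
    ∑ i ∈ range N, (S (i + 1) - S i) * χ i =
      S N * χ N - ∑ i ∈ range N, S (i + 1) * (χ (i + 1) - χ i) := by
  induction N with
  | zero => simp [h0]
  | succ m ih =>
    rw [Finset.sum_range_succ, Finset.sum_range_succ, ih]
    ring

theorem m_EVENSM : Stmt_ANTIP → Stmt_DRREL → Stmt_EVENSM := by
  intro hANTIP hDRREL K
  obtain ⟨C, nD, hC, hDRREL⟩ := hDRREL K
  refine ⟨260 * C, nD + 2, by positivity, ?_⟩
  intro N hN c hc L hL k
  have hN1 : 1 ≤ N := by omega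
  have hNpos : (0 : ℝ) < N := by exact_mod_cast hN1
  have hπ := Real.pi_pos
  obtain ⟨hmn, -, -, -⟩ := hDRREL N (by omega) c hc L hL
  have hA := hANTIP N c L hL
  obtain ⟨p, hp⟩ : ∃ p, p = pp N L := ⟨_, rfl⟩
  rw [← hp] at hmn
  simp only [← hp] at hA
  rw [← hp]
  have hpper : ∀ j, p (j + N + N) = p j := by
    intro j
    have h := hL.piv.add j
    have e : j + (N : ℤ) + N = j + ((2 * N : ℕ) : ℤ) := by push_cast; ring
    rw [hp, e]
    unfold pp
    rw [h]
    push_cast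
    ring
  -- total
  have hT : ∑ j ∈ range (2 * N), p (j : ℤ) ^ 2 ≤ 2 * N * C := by
    unfold mn at hmn
    rw [div_le_iff₀ (by push_cast; positivity)] at hmn
    push_cast at hmn
    linarith
  have hT2 : ∑ j ∈ range N, (p (j : ℤ) ^ 2 + p ((j : ℤ) + N) ^ 2) ≤ 2 * N * C := by
    rw [← ev_split N (fun j => p j ^ 2)]
    exact hT
  obtain ⟨a, -, ha⟩ := Finset.exists_le_of_sum_le (s := range N)
    (f := fun j : ℕ => p (j : ℤ) ^ 2 + p ((j : ℤ) + N) ^ 2) (g := fun _ => 2 * C)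
    ⟨0, Finset.mem_range.2 hN1⟩ (by
      rw [Finset.sum_const, Finset.card_range, nsmul_eq_mul]
      linarith)
  -- sums over initial segments
  obtain ⟨S, hS⟩ : ∃ S : ℕ → ℝ, ∀ m, S m = ∑ j ∈ Finset.Ico (a : ℤ) (a + m), (p j + p (j + N)) :=
    ⟨_, fun _ => rfl⟩
  have hS0 : S 0 = 0 := by rw [hS]; simp
  have hSs : ∀ m, S (m + 1) - S m = p (a + m) + p (a + m + N) := by
    intro m
    have e : Finset.Ico (a : ℤ) (a + ((m + 1 : ℕ) : ℤ)) =
        insert ((a : ℤ) + m) (Finset.Ico (a : ℤ) (a + m)) := by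
      ext x
      simp only [Finset.mem_Ico, Finset.mem_insert]
      push_cast
      omega
    rw [hS, hS, e, Finset.sum_insert (by simp)]
    ring
  have hSb : ∀ m, |S m| ≤ 20 * C + 10 * (p (a + m) ^ 2 + p (a + m + N) ^ 2) := by
    intro m
    rw [hS]
    have h := hA a (a + m) (by omega)
    refine h.trans ?_
    linarith
  -- the character
  obtain ⟨χ, hχ⟩ : ∃ χ : ℤ → ℂ, ∀ j, χ j =
      Complex.exp (-(2 * π * ((2 * k : ℤ) : ℝ) * j / ((2 * N : ℕ) : ℝ) : ℝ) * Complex.I) :=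
    ⟨_, fun _ => rfl⟩
  have hχ1 : ∀ j, ‖χ j‖ = 1 := by
    intro j
    rw [hχ, ← Complex.ofReal_neg]
    exact Complex.norm_exp_ofReal_mul_I _
  have hχN : ∀ j, χ (j + N) = χ j := by
    intro j
    rw [hχ, hχ, Complex.exp_eq_exp_iff_exists_int]
    refine ⟨-k, ?_⟩
    push_cast
    have : (N : ℂ) ≠ 0 := by exact_mod_cast hNpos.ne'
    field_simp
    ring
  have hχd : ∀ j, ‖χ (j + 1) - χ j‖ ≤ 2 * π * |(k : ℝ)| / N := by
    intro j
    have e : χ (j + 1) - χ j = χ j *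
        (Complex.exp (Complex.I * ((-(2 * π * k / N) : ℝ) : ℂ)) - 1) := by
      rw [hχ, hχ, mul_sub, mul_one, ← Complex.exp_add]
      congr 2
      push_cast
      have : (N : ℂ) ≠ 0 := by exact_mod_cast hNpos.ne'
      field_simp
      ring
    rw [e, norm_mul, hχ1, one_mul]
    refine Real.norm_exp_I_mul_ofReal_sub_one_le.trans ?_
    rw [Real.norm_eq_abs, abs_neg, abs_div, abs_mul, abs_mul, abs_two, abs_of_pos hπ,
      abs_of_pos hNpos]
  -- the coefficient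
  have hsum : ∑ j ∈ range (2 * N), (p (j : ℤ) : ℂ) * χ (j : ℤ) =
      ∑ i ∈ range N, (((S (i + 1) : ℝ) : ℂ) - ((S i : ℝ) : ℂ)) * χ ((a : ℤ) + i) := by
    rw [ev_split N (fun j => (p j : ℂ) * χ j)]
    have h1 : ∀ j ∈ range N, (p (j : ℤ) : ℂ) * χ (j : ℤ) +
        (p ((j : ℤ) + N) : ℂ) * χ ((j : ℤ) + N) =
        ((p (j : ℤ) : ℂ) + (p ((j : ℤ) + N) : ℂ)) * χ (j : ℤ) := by
      intro j _
      rw [hχN]; ring
    rw [Finset.sum_congr rfl h1]
    have h2 := sum_shift (n := N) (f := fun j => ((p j : ℂ) + (p (j + N) : ℂ)) * χ j) (fun j => by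
      rw [hpper, hχN]; ring) (a : ℤ)
    rw [← h2]
    apply Finset.sum_congr rfl
    intro i _
    have h3 := hSs i
    have e : (i : ℤ) + (a : ℤ) = (a : ℤ) + i := add_comm _ _
    rw [e, ← Complex.ofReal_sub, h3]
    push_cast
    ring
  have hab := ev_abel (fun i => ((S i : ℝ) : ℂ)) (fun i => χ ((a : ℤ) + i)) (by simp [hS0]) N
  have hSN : |S N| ≤ 40 * C := by
    have h := hSb N
    have e1 : p ((a : ℤ) + N + N) = p a := hpper a
    rw [e1] at h
    linarith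
  have hsumS : ∑ i ∈ range N, |S (i + 1)| ≤ 40 * C * N := by
    have h1 : ∑ i ∈ range N, |S (i + 1)| ≤ ∑ i ∈ range N,
        (20 * C + 10 * (p ((i : ℤ) + (a + 1)) ^ 2 + p ((i : ℤ) + (a + 1) + N) ^ 2)) := by
      apply Finset.sum_le_sum
      intro i _
      have h := hSb (i + 1)
      have e : (a : ℤ) + ((i + 1 : ℕ) : ℤ) = (i : ℤ) + (a + 1) := by push_cast; ring
      rw [e] at h
      exact h
    refine h1.trans ?_
    rw [Finset.sum_add_distrib, Finset.sum_const, Finset.card_range, nsmul_eq_mul,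
      ← Finset.mul_sum]
    have h2 := sum_shift (n := N) (f := fun j => p j ^ 2 + p (j + N) ^ 2) (fun j => by
      rw [hpper]; ring) ((a : ℤ) + 1)
    rw [h2]
    linarith
  have hbound : ‖∑ j ∈ range (2 * N), (p (j : ℤ) : ℂ) * χ (j : ℤ)‖ ≤
      40 * C + 2 * π * |(k : ℝ)| / N * (40 * C * N) := by
    rw [hsum]
    have e : ∀ i ∈ range N, (((S (i + 1) : ℝ) : ℂ) - ((S i : ℝ) : ℂ)) * χ ((a : ℤ) + i) =
        ((fun i => ((S i : ℝ) : ℂ)) (i + 1) - (fun i => ((S i : ℝ) : ℂ)) i) *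
          (fun i : ℕ => χ ((a : ℤ) + i)) i := fun i _ => rfl
    rw [Finset.sum_congr rfl e, hab]
    refine (norm_sub_le _ _).trans ?_
    have h1 : ‖((S N : ℝ) : ℂ) * χ ((a : ℤ) + N)‖ ≤ 40 * C := by
      rw [norm_mul, hχ1, mul_one, Complex.norm_real, Real.norm_eq_abs]
      exact hSN
    have h2 : ‖∑ i ∈ range N, ((S (i + 1) : ℝ) : ℂ) *
        (χ ((a : ℤ) + ((i + 1 : ℕ) : ℤ)) - χ ((a : ℤ) + i))‖ ≤
        2 * π * |(k : ℝ)| / N * (40 * C * N) := by
      refine (norm_sum_le _ _).trans ?_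
      have h3 : ∀ i ∈ range N, ‖((S (i + 1) : ℝ) : ℂ) *
          (χ ((a : ℤ) + ((i + 1 : ℕ) : ℤ)) - χ ((a : ℤ) + i))‖ ≤
          2 * π * |(k : ℝ)| / N * |S (i + 1)| := by
        intro i _
        rw [norm_mul, Complex.norm_real, Real.norm_eq_abs, mul_comm]
        apply mul_le_mul_of_nonneg_right _ (abs_nonneg _)
        have := hχd ((a : ℤ) + i)
        have e2 : (a : ℤ) + ((i + 1 : ℕ) : ℤ) = (a : ℤ) + i + 1 := by push_cast; ring
        rw [e2]
        exact this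
      refine (Finset.sum_le_sum h3).trans ?_
      rw [← Finset.mul_sum]
      apply mul_le_mul_of_nonneg_left hsumS
      positivity
    exact add_le_add h1 h2
  have hdr : dr (2 * N) p (2 * k) =
      (∑ j ∈ range (2 * N), (p (j : ℤ) : ℂ) * χ (j : ℤ)) / ((2 * N : ℕ) : ℂ) := by
    unfold dr dft
    congr 1
    apply Finset.sum_congr rfl
    intro j _
    rw [hχ]
    push_cast
    rfl
  rw [hdr, norm_div, Complex.norm_natCast]
  apply div_le_div_of_nonneg_right _ (by positivity)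
  refine hbound.trans ?_
  have e : 2 * π * |(k : ℝ)| / N * (40 * C * N) = 80 * π * C * |(k : ℝ)| := by
    field_simp
    ring
  rw [e]
  have h4 := Real.pi_lt_d2
  have h5 : 0 ≤ C * |(k : ℝ)| := by positivity
  nlinarith

end Pool.Agent.EHP
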