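import Pool.Agent.EHP.Stmts6

/-!
# Module EHP_EXM: maximizers exist (MP_fd5ac7_co)
-/

open Finset
open scoped Real ComplexConjugate Interval

namespace Pool.Agent.EHP

theorem m_EXM : Stmt_EXM := by
  intro n
  rcases n with _ | n
  · refine ⟨fun i => i.elim0, fun i => i.elim0, fun w _ => le_of_eq ?_⟩
    congr 1
    exact Subsingleton.elim _ _
  · set K : Set (Fin (n + 1) → ℂ) := {z | z 0 = 0 ∧ Adm z} with hK
    have hcl : IsClosed K := by
      have h1 : K = {z | z 0 = 0} ∩ ⋂ i, ⋂ j, {z : Fin (n + 1) → ℂ | ‖z i - z j‖ ≤ 2} := by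
        ext z
        simp only [hK, Adm, Set.mem_inter_iff, Set.mem_iInter, Set.mem_ofPred_eq]
      rw [h1]
      refine (isClosed_eq (continuous_apply 0) continuous_const).inter
        (isClosed_iInter fun i => isClosed_iInter fun j => isClosed_le ?_ continuous_const)
      exact ((continuous_apply i).sub (continuous_apply j)).norm
    have hKc : IsCompact K := by
      refine IsCompact.of_isClosed_subset (isCompact_closedBall (0 : Fin (n + 1) → ℂ) 2) hcl ?_
      rintro z ⟨h0, h1⟩
      rw [mem_closedBall_zero_iff, pi_norm_le_iff_of_nonneg (by norm_num)]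
      intro i
      have := h1 i 0
      rwa [h0, sub_zero] at this
    have hPD : Continuous fun z : Fin (n + 1) → ℂ => PD z := by
      unfold PD
      exact continuous_finsetProd _ fun i _ => continuous_finsetProd _ fun j _ =>
        ((continuous_apply i).sub (continuous_apply j)).norm
    have hne : K.Nonempty := ⟨fun _ => 0, rfl, fun i j => by simp⟩
    obtain ⟨z, hz, hmax⟩ := hKc.exists_isMaxOn hne hPD.continuousOn
    refine ⟨z, hz.2, fun w hw => ?_⟩
    have h1 : (fun i => w i - w 0) ∈ K := by
      refine ⟨sub_self _, fun i j => ?_⟩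
      have := hw i j
      rwa [sub_sub_sub_cancel_right]
    have h2 : PD (fun i => w i - w 0) = PD w := by
      unfold PD
      refine Finset.prod_congr rfl fun i _ => Finset.prod_congr rfl fun j _ => ?_
      rw [sub_sub_sub_cancel_right]
    rw [← h2]
    exact hmax h1

end Pool.Agent.EHP
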