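import Pool.Agent.EHP.Stmts6

/-!
# FARC: sums of characters over nearly antipodal arcs
-/

open Finset
open scoped Real ComplexConjugate

namespace Pool.Agent.EHP

namespace FARC

theorem om_zpow (n : ℕ) (k a : ℤ) : om n k a = om n k 1 ^ a := by
  unfold om
  rw [← Complex.exp_int_mul]
  congr 1
  push_cast
  ring

theorem om_norm (n : ℕ) (k a : ℤ) : ‖om n k a‖ = 1 := by
  unfold om
  exact Complex.norm_exp_ofReal_mul_I _

theorem zn {z : ℂ} (hz : ‖z‖ = 1) (a : ℤ) : ‖z ^ a‖ = 1 := by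
  rw [norm_zpow, hz, one_zpow]

theorem z0 {z : ℂ} (hz : ‖z‖ = 1) : z ≠ 0 := by
  intro h
  rw [h, norm_zero] at hz
  exact zero_ne_one hz

theorem geo {z : ℂ} (hz : ‖z‖ = 1) {a b : ℤ} (h : a ≤ b) :
    (∑ j ∈ Ioc a b, z ^ j) * (z - 1) = z * (z ^ b - z ^ a) := by
  have h0 := z0 hz
  induction b, h using Int.leInduction with
  | base => simp
  | succ b hb ih =>
    have e : Ioc a (b + 1) = insert (b + 1) (Ioc a b) := by
      ext x
      simp only [mem_Ioc, mem_insert]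
      omega
    rw [e, sum_insert (by simp), add_mul, ih, zpow_add_one₀ h0]
    ring

theorem pow_sub {z : ℂ} (hz : ‖z‖ = 1) (p : ℕ) : ‖z ^ p - 1‖ ≤ p * ‖z - 1‖ := by
  induction p with
  | zero => simp
  | succ p ih =>
    have e : z ^ (p + 1) - 1 = z * (z ^ p - 1) + (z - 1) := by ring
    rw [e]
    refine (norm_add_le _ _).trans ?_
    rw [norm_mul, hz, one_mul]
    push_cast
    linarith

theorem zpow_sub' {z : ℂ} (hz : ‖z‖ = 1) (m : ℤ) : ‖z ^ m - 1‖ ≤ |(m : ℝ)| * ‖z - 1‖ := by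
  obtain ⟨p, rfl | rfl⟩ := Int.eq_nat_or_neg m
  · simpa using pow_sub hz p
  · have h1 := pow_sub hz p
    have h0 : z ^ p ≠ 0 := pow_ne_zero _ (z0 hz)
    have e : z ^ (-(p : ℤ)) - 1 = -(z ^ p)⁻¹ * (z ^ p - 1) := by
      rw [zpow_neg, zpow_natCast]
      field_simp
      ring
    rw [e, norm_mul, norm_neg, norm_inv, norm_pow, hz, one_pow, inv_one, one_mul]
    simpa using h1

theorem sq_nat {z : ℂ} (hz : ‖z‖ = 1) (p : ℕ) : ‖z * (1 - z ^ p) - p * (1 - z)‖ ≤ (p : ℝ) ^ 2 * ‖z - 1‖ ^ 2 := by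
  induction p with
  | zero => simp
  | succ p ih =>
    have e : z * (1 - z ^ (p + 1)) - ((p + 1 : ℕ) : ℂ) * (1 - z) =
        (z * (1 - z ^ p) - p * (1 - z)) - (z - 1) * (z ^ (p + 1) - 1) := by
      push_cast
      ring
    rw [e]
    refine (norm_sub_le _ _).trans ?_
    rw [norm_mul]
    have h1 := pow_sub hz (p + 1)
    have h2 := norm_nonneg (z - 1)
    have h3 := mul_le_mul_of_nonneg_left h1 h2
    push_cast at h3 ⊢
    nlinarith [sq_nonneg ‖z - 1‖, mul_nonneg (Nat.cast_nonneg (α := ℝ) p) (sq_nonneg ‖z - 1‖)]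

theorem sq_neg {z : ℂ} (hz : ‖z‖ = 1) (p : ℕ) :
    ‖z * (1 - z ^ (-(p : ℤ))) + p * (1 - z)‖ ≤ (p : ℝ) ^ 2 * ‖z - 1‖ ^ 2 := by
  have h0 := z0 hz
  induction p with
  | zero => simp
  | succ p ih =>
    have e0 : z ^ (-((p + 1 : ℕ) : ℤ)) = z ^ (-(p : ℤ)) * z⁻¹ := by
      rw [← zpow_neg_one, ← zpow_add₀ h0]
      congr 1
      push_cast
      ring
    have e : z * (1 - z ^ (-((p + 1 : ℕ) : ℤ))) + ((p + 1 : ℕ) : ℂ) * (1 - z) =
        (z * (1 - z ^ (-(p : ℤ))) + p * (1 - z)) + (z - 1) * (z ^ (-(p : ℤ)) - 1) := by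
      rw [e0]
      push_cast
      field_simp
      ring
    rw [e]
    refine (norm_add_le _ _).trans ?_
    rw [norm_mul]
    have h1 := zpow_sub' hz (-(p : ℤ))
    have h2 := norm_nonneg (z - 1)
    have h3 := mul_le_mul_of_nonneg_left h1 h2
    have h4 : |((-(p : ℤ) : ℤ) : ℝ)| = p := by simp
    rw [h4] at h3
    push_cast at h3 ⊢
    nlinarith [sq_nonneg ‖z - 1‖, mul_nonneg (Nat.cast_nonneg (α := ℝ) p) (sq_nonneg ‖z - 1‖)]

theorem sq_int {z : ℂ} (hz : ‖z‖ = 1) (m : ℤ) : ‖z * (1 - z ^ m) - m * (1 - z)‖ ≤ (m : ℝ) ^ 2 * ‖z - 1‖ ^ 2 := by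
  obtain ⟨p, rfl | rfl⟩ := Int.eq_nat_or_neg m
  · simpa using sq_nat hz p
  · have := sq_neg hz p
    have e : z * (1 - z ^ (-(p : ℤ))) - ((-(p : ℤ) : ℤ) : ℂ) * (1 - z) =
        z * (1 - z ^ (-(p : ℤ))) + p * (1 - z) := by
      push_cast
      ring
    rw [e]
    simpa using this

theorem om_ne {N : ℕ} (hN : 1 ≤ N) {κ : ℤ} (h0 : κ ≠ 0) (h : |κ| ≤ N) : om (2 * N) κ 1 ≠ 1 := by
  intro h1
  unfold om at h1
  rw [Complex.exp_eq_one_iff] at h1
  obtain ⟨t, ht⟩ := h1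
  have hN0 : (N : ℂ) ≠ 0 := by
    have : N ≠ 0 := by omega
    exact_mod_cast this
  have hpi : (π : ℂ) ≠ 0 := by exact_mod_cast Real.pi_ne_zero
  have e : (κ : ℂ) = 2 * N * t := by
    push_cast at ht
    field_simp at ht
    linear_combination ht
  have e2 : κ = 2 * N * t := by exact_mod_cast e
  have e3 : t ≠ 0 := by
    rintro rfl
    apply h0
    rw [e2]
    simp
  have e4 : 1 ≤ |t| := Int.one_le_abs e3
  have e5 : |κ| = 2 * N * |t| := by
    rw [e2, abs_mul, abs_of_nonneg (by positivity : (0 : ℤ) ≤ 2 * (N : ℤ))]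
  have hN' : (1 : ℤ) ≤ N := by exact_mod_cast hN
  nlinarith

theorem om_N {N : ℕ} (hN : 1 ≤ N) (κ : ℤ) : om (2 * N) κ 1 ^ (N : ℤ) = if κ % 2 = 0 then 1 else -1 := by
  rw [← om_zpow]
  unfold om
  have hN0 : (N : ℂ) ≠ 0 := by
    have : N ≠ 0 := by omega
    exact_mod_cast this
  have e1 : ((2 * π * κ * ((N : ℤ) : ℝ) / (2 * N : ℕ) : ℝ) : ℂ) * Complex.I = (κ : ℂ) * (π * Complex.I) := by
    push_cast
    field_simp
  rw [e1, Complex.exp_int_mul, Complex.exp_pi_mul_I]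
  split_ifs with h
  · exact Even.neg_one_zpow (Int.even_iff.2 h)
  · exact Odd.neg_one_zpow (Int.odd_iff.2 (by omega))

theorem as_eq {n : ℕ} {κ : ℤ} (h1 : om n κ 1 ≠ 1) {a b p q : ℤ} (hab : a ≤ b) (hpq : p ≤ q) :
    AS n κ a b p q = (om n κ 1 ^ b - om n κ 1 ^ a + (om n κ 1 ^ q - om n κ 1 ^ p)) *
      (om n κ 1 / (om n κ 1 - 1)) := by
  have hz := om_norm n κ 1
  have h2 : om n κ 1 - 1 ≠ 0 := sub_ne_zero.2 h1
  unfold AS
  have e1 : ∀ c d : ℤ, ∑ j ∈ Ioc c d, om n κ j = ∑ j ∈ Ioc c d, om n κ 1 ^ j :=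
    fun c d => sum_congr rfl fun j _ => om_zpow n κ j
  rw [e1, e1]
  have g1 := geo hz hab
  have g2 := geo hz hpq
  rw [← mul_div_assoc, eq_div_iff h2, add_mul, g1, g2]
  ring

end FARC

open FARC in
theorem m_FARC : Stmt_FARC := by
  intro N v v' m m' hN hv hm
  have key : ∀ κ : ℤ, om (2 * N) κ 1 ≠ 1 → ∀ x : ℤ,
      ‖(om (2 * N) κ 1 ^ x - 1) * (om (2 * N) κ 1 / (om (2 * N) κ 1 - 1))‖ ≤ |(x : ℝ)| := by
    intro κ hκ x
    have hz := om_norm (2 * N) κ 1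
    have h2 : 0 < ‖om (2 * N) κ 1 - 1‖ := norm_pos_iff.2 (sub_ne_zero.2 hκ)
    rw [norm_mul, norm_div, hz, mul_one_div, div_le_iff₀ h2]
    exact zpow_sub' hz x
  have gen : ∀ (κ : ℤ) (X Y : ℂ), om (2 * N) κ 1 ≠ 1 → ‖X‖ = 1 → ‖Y‖ = 1 →
      ‖X * ((om (2 * N) κ 1 ^ m' - 1) * (om (2 * N) κ 1 / (om (2 * N) κ 1 - 1))) -
        Y * ((om (2 * N) κ 1 ^ m - 1) * (om (2 * N) κ 1 / (om (2 * N) κ 1 - 1)))‖ ≤
        2 * (|(m : ℝ)| + |(m' : ℝ)|) := by
    intro κ X Y hκ hX hY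
    refine (norm_sub_le _ _).trans ?_
    rw [norm_mul X, norm_mul Y, hX, hY, one_mul, one_mul]
    have h1 := key κ hκ m
    have h2 := key κ hκ m'
    have h3 := abs_nonneg (m : ℝ)
    have h4 := abs_nonneg (m' : ℝ)
    linarith
  refine ⟨fun k hk hk1 hkN => ?_, fun k hk hkN => ?_, ?_⟩
  · have hne : om (2 * N) (k - 1) 1 ≠ 1 := om_ne hN (by omega) hkN
    have hz := om_norm (2 * N) (k - 1) 1
    have h0 := z0 hz
    have hNN := om_N hN (k - 1)
    rw [if_pos (by omega)] at hNN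
    rw [as_eq hne hv hm, om_zpow _ _ v, om_zpow _ _ v']
    have e := gen (k - 1) (om (2 * N) (k - 1) 1 ^ v') (om (2 * N) (k - 1) 1 ^ v) hne (zn hz _) (zn hz _)
    refine le_of_eq_of_le (congrArg _ ?_) e
    rw [zpow_add₀ h0, zpow_add₀ h0, zpow_add₀ h0, zpow_add₀ h0, hNN]
    ring
  · have hne : om (2 * N) (k - 1) 1 ≠ 1 := om_ne hN (by omega) hkN
    have hz := om_norm (2 * N) (k - 1) 1
    have h0 := z0 hz
    have hNN := om_N hN (k - 1)
    rw [if_neg (by omega)] at hNN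
    rw [as_eq hne hv hm]
    have e := gen (k - 1) (-(om (2 * N) (k - 1) 1 ^ v')) (-(om (2 * N) (k - 1) 1 ^ v)) hne
      (by rw [norm_neg]; exact zn hz _) (by rw [norm_neg]; exact zn hz _)
    refine le_of_eq_of_le (congrArg _ ?_) e
    rw [zpow_add₀ h0, zpow_add₀ h0, zpow_add₀ h0, zpow_add₀ h0, hNN]
    ring
  · have hne : om (2 * N) (-1) 1 ≠ 1 := om_ne hN (by omega) (by
      have : (1 : ℤ) ≤ N := by exact_mod_cast hN
      simpa using this)
    have hz := om_norm (2 * N) (-1) 1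
    have h0 := z0 hz
    have hNN := om_N hN (-1)
    rw [if_neg (by decide)] at hNN
    rw [as_eq hne hv hm, om_zpow _ _ v, om_zpow _ _ v']
    set z := om (2 * N) (-1) 1 with hzd
    have h1 : z - 1 ≠ 0 := sub_ne_zero.2 hne
    have h1' : 1 - z ≠ 0 := sub_ne_zero.2 (Ne.symm hne)
    have hh : ‖z - 1‖ ≤ 2 * π / (2 * N : ℕ) := by
      have e : z = Complex.exp (((-(2 * π / (2 * N : ℕ)) : ℝ) : ℂ) * Complex.I) := by
        rw [hzd]
        unfold om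
        congr 2
        push_cast
        ring
      rw [e]
      have := Real.norm_exp_I_mul_ofReal_sub_one_le (x := -(2 * π / (2 * N : ℕ)))
      rw [mul_comm]
      refine this.trans ?_
      rw [Real.norm_eq_abs, abs_neg, abs_of_nonneg (by positivity)]
    have hpos : 0 < ‖z - 1‖ := norm_pos_iff.2 h1
    have key2 : ∀ x : ℤ, ‖z * (1 - z ^ x) / (1 - z) - x‖ ≤ 2 * π / (2 * N : ℕ) * (x : ℝ) ^ 2 := by
      intro x
      have e : z * (1 - z ^ x) / (1 - z) - x = (z * (1 - z ^ x) - x * (1 - z)) / (1 - z) := by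
        field_simp
      rw [e, norm_div, norm_sub_rev 1 z, div_le_iff₀ hpos]
      calc _ ≤ (x : ℝ) ^ 2 * ‖z - 1‖ ^ 2 := sq_int hz x
        _ = ‖z - 1‖ * (x : ℝ) ^ 2 * ‖z - 1‖ := by ring
        _ ≤ 2 * π / (2 * N : ℕ) * (x : ℝ) ^ 2 * ‖z - 1‖ := by gcongr
    have e : (z ^ v' - z ^ v + (z ^ (v' + N + m') - z ^ (v + N + m))) * (z / (z - 1)) -
        (m * z ^ v - m' * z ^ v') =
        z ^ v * (z * (1 - z ^ m) / (1 - z) - m) - z ^ v' * (z * (1 - z ^ m') / (1 - z) - m') := by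
      rw [zpow_add₀ h0, zpow_add₀ h0, zpow_add₀ h0, zpow_add₀ h0, hNN]
      field_simp
      ring
    rw [e]
    refine (norm_sub_le _ _).trans ?_
    rw [norm_mul, norm_mul, zn hz, zn hz, one_mul, one_mul]
    have h3 := key2 m
    have h4 := key2 m'
    linarith

end Pool.Agent.EHP
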