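import Pool.Agent.EHP.Stmts2

open Finset
open scoped Real ComplexConjugate

namespace Pool.Agent.EHP

theorem m_FBH : Stmt_FBH := by
  intro n z hn hz v
  unfold fb HH
  rw [Finset.mul_sum, Finset.mul_sum]
  have key : ∀ d ∈ Ico 1 n, z v * (1 / (z v - z (v + (d : ℤ)))) =
      1 / 2 + 1 / 2 * cc z v (v + (d : ℤ)) := by
    intro d hd
    have hd' := Finset.mem_Ico.1 hd
    have hne : z v - z (v + (d : ℤ)) ≠ 0 := by
      intro h
      have h1 := hz.inj _ _ (sub_eq_zero.1 h)
      have h2 : (n : ℤ) ∣ (d : ℤ) := by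
        have : v - (v + (d : ℤ)) = -(d : ℤ) := by ring
        rw [this] at h1
        exact (dvd_neg.1 h1)
      have h3 : n ∣ d := by exact_mod_cast h2
      have := Nat.le_of_dvd (by omega) h3
      omega
    unfold cc
    field_simp
    ring
  rw [Finset.sum_congr rfl key, Finset.sum_add_distrib, Finset.sum_const, Nat.card_Ico]
  rw [nsmul_eq_mul, Nat.cast_sub hn]
  push_cast
  ring

end Pool.Agent.EHP
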