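import Pool.Agent.EHP.Stmts6

/-!
# The linearised forces
-/

open Finset
open scoped Real ComplexConjugate

namespace Pool.Agent.EHP

namespace M_FBLIN

theorem om_add (n : ℕ) (k a b : ℤ) : om n k (a + b) = om n k a * om n k b := by
  unfold om
  rw [← Complex.exp_add]
  congr 1
  push_cast
  ring

theorem om_zero (n : ℕ) (k : ℤ) : om n k 0 = 1 := by
  unfold om
  simp

theorem norm_om (n : ℕ) (k a : ℤ) : ‖om n k a‖ = 1 := by
  unfold om
  rw [Complex.norm_exp_ofReal_mul_I]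

theorem om_neg (n : ℕ) (k a : ℤ) : om n k (-a) * om n k a = 1 := by
  rw [← om_add, neg_add_cancel, om_zero]

theorem om_n {n : ℕ} (hn : 0 < n) (k : ℤ) : om n k n = 1 := by
  have hn0 : (n : ℝ) ≠ 0 := by positivity
  unfold om
  rw [← Complex.exp_int_mul_two_pi_mul_I k]
  congr 1
  have h : (2 * π * k * ((n : ℕ) : ℤ) / n : ℝ) = k * (2 * π) := by
    push_cast
    field_simp
  rw [h]
  push_cast
  ring

theorem om_cos (n : ℕ) (k a : ℤ) : om n k a + om n k (-a) = 2 * Complex.cos (2 * π * k * a / n) := by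
  unfold om
  rw [Complex.two_cos]
  congr 1 <;> congr 1 <;> push_cast <;> ring

theorem reflect {M : Type*} [AddCommMonoid M] (n : ℕ) (f : ℕ → M) :
    ∑ d ∈ Ico 1 n, f (n - d) = ∑ d ∈ Ico 1 n, f d := by
  refine Finset.sum_nbij' (fun d => n - d) (fun d => n - d) ?_ ?_ ?_ ?_ ?_
  · intro d hd; simp only [Finset.mem_Ico] at *; omega
  · intro d hd; simp only [Finset.mem_Ico] at *; omega
  · intro d hd; simp only [Finset.mem_Ico] at *; omega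
  · intro d hd; simp only [Finset.mem_Ico] at *; omega
  · intro d _; rfl

theorem sin_reflect {n d : ℕ} (hn : 0 < n) (hd : d ≤ n) :
    Real.sin (π * ((n - d : ℕ) : ℝ) / n) = Real.sin (π * d / n) := by
  have hn0 : (n : ℝ) ≠ 0 := by positivity
  rw [Nat.cast_sub hd]
  have h : π * ((n : ℝ) - d) / n = π - π * d / n := by
    field_simp
  rw [h, Real.sin_pi_sub]

theorem sin_pos {n d : ℕ} (h1 : 1 ≤ d) (h2 : d < n) : 0 < Real.sin (π * d / n) := by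
  have hn0 : (0 : ℝ) < n := by exact_mod_cast (by omega : 0 < n)
  have hd0 : (0 : ℝ) < d := by exact_mod_cast h1
  apply Real.sin_pos_of_pos_of_lt_pi
  · positivity
  · rw [div_lt_iff₀ hn0]
    have : (d : ℝ) < n := by exact_mod_cast h2
    nlinarith [Real.pi_pos]

/-- distance from the multiples of `n` -/
def dm (n d : ℕ) : ℕ := min d (n - d)

theorem sin_lb {n d : ℕ} (h1 : 1 ≤ d) (h2 : d < n) : 2 * (dm n d : ℝ) / n ≤ Real.sin (π * d / n) := by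
  have hn0 : (0 : ℝ) < n := by exact_mod_cast (by omega : 0 < n)
  have key : ∀ e : ℕ, 2 * e ≤ n → 2 * (e : ℝ) / n ≤ Real.sin (π * e / n) := by
    intro e he
    have he' : 2 * (e : ℝ) ≤ n := by exact_mod_cast he
    have h3 := Real.mul_le_sin (x := π * e / n) (by positivity) (by
      rw [div_le_div_iff₀ hn0 (by norm_num)]
      nlinarith [Real.pi_pos])
    refine le_trans (le_of_eq ?_) h3
    have := Real.pi_ne_zero
    field_simp
  unfold dm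
  rcases le_total (2 * d) n with h | h
  · rw [min_eq_left (by omega)]
    exact key d h
  · rw [min_eq_right (by omega), ← sin_reflect (by omega) h2.le]
    exact key (n - d) (by omega)

theorem E_sub {n d : ℕ} : om n 1 (-(d : ℤ)) - 1 =
    Complex.exp (-((π * d / n : ℝ) : ℂ) * Complex.I) *
      (-2 * Complex.I * ((Real.sin (π * d / n) : ℝ) : ℂ)) ∧
    om n 1 (-(d : ℤ)) = Complex.exp (-((π * d / n : ℝ) : ℂ) * Complex.I) ^ 2 := by
  set x : ℂ := ((π * d / n : ℝ) : ℂ) with hx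
  have h1 : om n 1 (-(d : ℤ)) = Complex.exp (-x * Complex.I) ^ 2 := by
    unfold om
    rw [← Complex.exp_nat_mul]
    congr 1
    rw [hx]
    push_cast
    ring
  refine ⟨?_, h1⟩
  have h2 : ((Real.sin (π * d / n) : ℝ) : ℂ) =
      (Complex.exp (-x * Complex.I) - Complex.exp (x * Complex.I)) * Complex.I / 2 := by
    rw [Complex.ofReal_sin, Complex.sin]
  have h3 : Complex.exp (-x * Complex.I) * Complex.exp (x * Complex.I) = 1 := by
    rw [← Complex.exp_add]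
    have : -x * Complex.I + x * Complex.I = 0 := by ring
    rw [this, Complex.exp_zero]
  rw [h1, h2]
  linear_combination h3 + (Complex.exp (-x * Complex.I) * (Complex.exp (-x * Complex.I) -
    Complex.exp (x * Complex.I))) * Complex.I_mul_I

theorem E_norm {n d : ℕ} (h1 : 1 ≤ d) (h2 : d < n) :
    ‖om n 1 (-(d : ℤ)) - 1‖ = 2 * Real.sin (π * d / n) := by
  rw [E_sub.1, norm_mul, norm_mul, norm_mul, Complex.norm_I, Complex.norm_real,
    Real.norm_of_nonneg (sin_pos h1 h2).le]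
  have : ‖Complex.exp (-((π * d / n : ℝ) : ℂ) * Complex.I)‖ = 1 := by
    have := Complex.norm_exp_ofReal_mul_I (-(π * d / n : ℝ))
    rwa [Complex.ofReal_neg] at this
  rw [this]
  norm_num

theorem E_ne {n d : ℕ} (h1 : 1 ≤ d) (h2 : d < n) : om n 1 (-(d : ℤ)) ≠ 1 := by
  intro h
  have h3 := E_norm h1 h2
  rw [h, sub_self, norm_zero] at h3
  linarith [sin_pos h1 h2]

theorem E_sq {n d : ℕ} (h1 : 1 ≤ d) (h2 : d < n) (q : ℂ) :
    -(2 * om n 1 (-(d : ℤ)) * q / (om n 1 (-(d : ℤ)) - 1) ^ 2) =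
      q / (2 * ((Real.sin (π * d / n) : ℝ) : ℂ) ^ 2) := by
  obtain ⟨e1, e2⟩ := E_sub (n := n) (d := d)
  have hs : ((Real.sin (π * d / n) : ℝ) : ℂ) ≠ 0 := by
    exact_mod_cast (sin_pos h1 h2).ne'
  have he := Complex.exp_ne_zero (-((π * d / n : ℝ) : ℂ) * Complex.I)
  rw [e1, e2]
  generalize Complex.exp (-((π * d / n : ℝ) : ℂ) * Complex.I) = e at *
  generalize ((Real.sin (π * d / n) : ℝ) : ℂ) = s at *
  have h3 : (e * (-2 * Complex.I * s)) ^ 2 = -(4 * e ^ 2 * s ^ 2) := by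
    have := Complex.I_sq
    linear_combination (4 * e ^ 2 * s ^ 2) * this
  rw [h3]
  field_simp
  ring

/-- the cotangents cancel -/
theorem cot_sum {n : ℕ} : ∑ d ∈ Ico 1 n,
    (om n 1 (-(d : ℤ)) + 1) / (om n 1 (-(d : ℤ)) - 1) = 0 := by
  have h1 := reflect n (fun d : ℕ => (om n 1 (-(d : ℤ)) + 1) / (om n 1 (-(d : ℤ)) - 1))
  have h2 : ∑ d ∈ Ico 1 n, (om n 1 (-((n - d : ℕ) : ℤ)) + 1) / (om n 1 (-((n - d : ℕ) : ℤ)) - 1) =
      -∑ d ∈ Ico 1 n, (om n 1 (-(d : ℤ)) + 1) / (om n 1 (-(d : ℤ)) - 1) := by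
    rw [← Finset.sum_neg_distrib]
    refine Finset.sum_congr rfl fun d hd => ?_
    obtain ⟨g1, g2⟩ := Finset.mem_Ico.1 hd
    have hn : 0 < n := by omega
    have e1 : -((n - d : ℕ) : ℤ) = (d : ℤ) + -(n : ℤ) := by
      rw [Nat.cast_sub g2.le]
      ring
    have e2 : om n 1 (-(n : ℤ)) = 1 := by
      have := om_neg n 1 n
      rwa [om_n hn, mul_one] at this
    rw [e1, om_add, e2, mul_one]
    have e3 := om_neg n 1 (d : ℤ)
    have e4 : om n 1 (-(d : ℤ)) - 1 ≠ 0 := sub_ne_zero.2 (E_ne g1 g2)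
    have e5 : om n 1 (d : ℤ) - 1 ≠ 0 := by
      intro h
      apply e4
      rw [sub_eq_zero] at h
      rw [h, mul_one] at e3
      rw [e3, sub_self]
    rw [div_eq_iff e5, eq_comm, ← neg_div, div_mul_eq_mul_div, div_eq_iff e4]
    linear_combination (-2) * e3
  rw [h1] at h2
  have h3 : (2 : ℂ) * ∑ d ∈ Ico 1 n, (om n 1 (-(d : ℤ)) + 1) / (om n 1 (-(d : ℤ)) - 1) = 0 := by
    linear_combination h2
  exact (mul_eq_zero.1 h3).resolve_left two_ne_zero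

/-- the kernel sum -/
theorem ker_sum (hC : Stmt_CSCSUM) {n : ℕ} (hn : 1 ≤ n) {k : ℤ} (hk : k.natAbs ≤ n) :
    ∑ d ∈ Ico 1 n, (1 - om n k d) / ((Real.sin (π * d / n) : ℝ) : ℂ) ^ 2 =
      ((2 * n * kap n k : ℝ) : ℂ) := by
  set S := ∑ d ∈ Ico 1 n, (1 - om n k d) / ((Real.sin (π * d / n) : ℝ) : ℂ) ^ 2 with hS
  have h1 : S = ∑ d ∈ Ico 1 n, (1 - om n k (-(d : ℤ))) / ((Real.sin (π * d / n) : ℝ) : ℂ) ^ 2 := by
    rw [hS, ← reflect n (fun d : ℕ => (1 - om n k d) / ((Real.sin (π * d / n) : ℝ) : ℂ) ^ 2)]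
    refine Finset.sum_congr rfl fun d hd => ?_
    obtain ⟨g1, g2⟩ := Finset.mem_Ico.1 hd
    have e1 : ((n - d : ℕ) : ℤ) = (n : ℤ) + -(d : ℤ) := by
      rw [Nat.cast_sub g2.le]
      ring
    rw [sin_reflect (by omega) g2.le, e1, om_add, om_n (by omega), one_mul]
  have h2 : 2 * S = ∑ d ∈ Ico 1 n, 2 * (((1 - Real.cos (2 * π * k.natAbs * d / n)) /
      Real.sin (π * d / n) ^ 2 : ℝ) : ℂ) := by
    have e1 : 2 * S = S + S := by ring
    rw [e1]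
    conv_lhs => arg 2; rw [h1]
    rw [hS, ← Finset.sum_add_distrib]
    refine Finset.sum_congr rfl fun d _ => ?_
    have e2 := om_cos n k d
    have e3 : Complex.cos (2 * π * k * (d : ℤ) / n) =
        ((Real.cos (2 * π * k.natAbs * d / n) : ℝ) : ℂ) := by
      obtain ⟨m, h | h⟩ := Int.eq_nat_or_neg k
      · subst h
        rw [Int.natAbs_natCast]
        push_cast
        rfl
      · subst h
        rw [Int.natAbs_neg, Int.natAbs_natCast]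
        push_cast
        rw [← Complex.cos_neg]
        congr 1
        ring
    rw [e3] at e2
    rw [← add_div]
    push_cast
    push_cast at e2
    rw [← mul_div_assoc]
    congr 1
    linear_combination -e2
  rw [← Finset.mul_sum] at h2
  have h3 := mul_left_cancel₀ two_ne_zero h2
  rw [h3, ← Complex.ofReal_sum, hC n k.natAbs hn hk]
  congr 1
  have hn0 : (n : ℝ) ≠ 0 := by positivity
  unfold kap
  have h5 : ((k.natAbs : ℕ) : ℝ) = |(k : ℝ)| := by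
    rw [Nat.cast_natAbs, Int.cast_abs]
  rw [h5]
  field_simp

/-- `ζ = R + i Φ` -/
noncomputable def Zt {n : ℕ} (c : Cfg n) (j : ℤ) : ℂ := (c.R j : ℂ) + Complex.I * (c.Φ j : ℂ)

theorem R_add {n : ℕ} (c : Cfg n) (j : ℤ) : c.R (j + n) = c.R j := by
  unfold Cfg.R
  rw [c.ρ_add]

theorem Φ_add {n : ℕ} (c : Cfg n) (hn : 0 < n) (j : ℤ) : c.Φ (j + n) = c.Φ j := by
  unfold Cfg.Φ
  rw [c.φ_add hn]

theorem Zt_add {n : ℕ} (c : Cfg n) (hn : 0 < n) (j : ℤ) : Zt c (j + n) = Zt c j := by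
  unfold Zt
  rw [R_add, Φ_add c hn]

theorem z_eq {n : ℕ} (hn : 0 < n) (c : Cfg n) (j : ℤ) :
    c.z j = om n 1 j * Complex.exp (Zt c j / n) := by
  unfold Cfg.z om Zt Cfg.R Cfg.Φ Cfg.φ
  rw [← Complex.exp_add]
  congr 1
  have hn0 : (n : ℂ) ≠ 0 := by exact_mod_cast hn.ne'
  push_cast
  field_simp
  ring

theorem z_inv {n : ℕ} (hn : 0 < n) (c : Cfg n) (j : ℤ) :
    om n (-1) j * Complex.exp (-(Zt c j / n)) * c.z j = 1 := by
  rw [z_eq hn c j]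
  have h1 : om n (-1) j * om n 1 j = 1 := by
    have : om n (-1) j = om n 1 (-j) := by
      unfold om
      congr 1
      push_cast
      ring
    rw [this, om_neg]
  have h2 : Complex.exp (-(Zt c j / n)) * Complex.exp (Zt c j / n) = 1 := by
    rw [← Complex.exp_add, neg_add_cancel, Complex.exp_zero]
  linear_combination (Complex.exp (-(Zt c j / n)) * Complex.exp (Zt c j / n)) * h1 + h2

theorem cc_eq {n : ℕ} (hn : 0 < n) (c : Cfg n) (a : ℤ) (d : ℤ) :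
    cc c.z a (a + d) = (om n 1 (-d) * Complex.exp ((Zt c a - Zt c (a + d)) / n) + 1) /
      (om n 1 (-d) * Complex.exp ((Zt c a - Zt c (a + d)) / n) - 1) := by
  have h1 : c.z a = (om n 1 (-d) * Complex.exp ((Zt c a - Zt c (a + d)) / n)) * c.z (a + d) := by
    rw [z_eq hn c a, z_eq hn c (a + d)]
    have e1 : om n 1 (-d) * om n 1 (a + d) = om n 1 a := by
      rw [← om_add]
      congr 1
      ring
    have e2 : Complex.exp ((Zt c a - Zt c (a + d)) / n) * Complex.exp (Zt c (a + d) / n) =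
        Complex.exp (Zt c a / n) := by
      rw [← Complex.exp_add]
      congr 1
      ring
    rw [← e1, ← e2]
    ring
  unfold cc
  generalize hw : om n 1 (-d) * Complex.exp ((Zt c a - Zt c (a + d)) / n) = w at *
  rw [h1]
  have h2 := c.z_ne (a + d)
  have e1 : w * c.z (a + d) + c.z (a + d) = (w + 1) * c.z (a + d) := by ring
  have e2 : w * c.z (a + d) - c.z (a + d) = (w - 1) * c.z (a + d) := by ring
  rw [e1, e2, mul_div_mul_right _ _ h2]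

theorem Zt_diff {n : ℕ} (c : Cfg n) (i j : ℤ) :
    ‖Zt c i - Zt c j‖ ^ 2 = (c.R i - c.R j) ^ 2 + (c.Φ i - c.Φ j) ^ 2 := by
  have h : Zt c i - Zt c j = ((c.R i - c.R j : ℝ) : ℂ) + ((c.Φ i - c.Φ j : ℝ) : ℂ) * Complex.I := by
    unfold Zt
    push_cast
    ring
  rw [h, ← Complex.normSq_eq_norm_sq, Complex.normSq_add_mul_I]

theorem Zt_diff' {n : ℕ} (c : Cfg n) (i j : ℤ) :
    ‖Zt c i - Zt c j‖ ≤ |c.R i - c.R j| + |c.Φ i - c.Φ j| := by
  have h : Zt c i - Zt c j = ((c.R i - c.R j : ℝ) : ℂ) + ((c.Φ i - c.Φ j : ℝ) : ℂ) * Complex.I := by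
    unfold Zt
    push_cast
    ring
  rw [h]
  refine (norm_add_le _ _).trans ?_
  rw [norm_mul, Complex.norm_I, mul_one, Complex.norm_real, Complex.norm_real,
    Real.norm_eq_abs, Real.norm_eq_abs]

theorem Zt_norm {n : ℕ} (c : Cfg n) (j : ℤ) : ‖Zt c j‖ ≤ |c.R j| + |c.Φ j| := by
  unfold Zt
  refine (norm_add_le _ _).trans ?_
  rw [norm_mul, Complex.norm_I, one_mul, Complex.norm_real, Complex.norm_real,
    Real.norm_eq_abs, Real.norm_eq_abs]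

theorem dft_Zt {n : ℕ} (c : Cfg n) (k : ℤ) :
    dft n (Zt c) k = dr n c.R k + Complex.I * dr n c.Φ k := by
  unfold dr dft Zt
  rw [mul_div_assoc', ← add_div, Finset.mul_sum, ← Finset.sum_add_distrib]
  congr 1
  refine Finset.sum_congr rfl fun j _ => ?_
  ring

/-- the main part of `H_a` -/
noncomputable def Ma {n : ℕ} (c : Cfg n) (a : ℤ) : ℂ :=
  1 / 2 * ∑ d ∈ Ico 1 n, ((om n 1 (-(d : ℤ)) + 1) / (om n 1 (-(d : ℤ)) - 1) -
    2 * om n 1 (-(d : ℤ)) * ((Zt c a - Zt c (a + (d : ℤ))) / n) / (om n 1 (-(d : ℤ)) - 1) ^ 2)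

theorem Ma_eq (hD : Stmt_DINV) (hC : Stmt_CSCSUM) {N : ℕ} (hN : 1 ≤ N) (c : Cfg (2 * N)) (a : ℤ) :
    Ma c a = 1 / 2 * ∑ k ∈ Finset.Ioc (-(N : ℤ)) N, ((kap (2 * N) k : ℝ) : ℂ) *
      (dr (2 * N) c.R k + Complex.I * dr (2 * N) c.Φ k) * om (2 * N) k a := by
  unfold Ma
  congr 1
  rw [Finset.sum_sub_distrib, cot_sum, zero_sub, ← Finset.sum_neg_distrib]
  have hn : 0 < 2 * N := by omega
  have h1 : ∀ d ∈ Ico 1 (2 * N), -(2 * om (2 * N) 1 (-(d : ℤ)) *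
      ((Zt c a - Zt c (a + (d : ℤ))) / ((2 * N : ℕ) : ℂ)) / (om (2 * N) 1 (-(d : ℤ)) - 1) ^ 2) =
      ∑ k ∈ Finset.Ioc (-(N : ℤ)) N, dft (2 * N) (Zt c) k * om (2 * N) k a /
        (2 * ((2 * N : ℕ) : ℂ)) *
        ((1 - om (2 * N) k d) / ((Real.sin (π * d / (2 * N : ℕ)) : ℝ) : ℂ) ^ 2) := by
    intro d hd
    obtain ⟨g1, g2⟩ := Finset.mem_Ico.1 hd
    rw [E_sq g1 g2]
    have e1 := hD N (Zt c) hN (Zt_add c hn) a
    have e2 := hD N (Zt c) hN (Zt_add c hn) (a + d)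
    have e3 : Zt c a - Zt c (a + d) = ∑ k ∈ Finset.Ioc (-(N : ℤ)) N,
        dft (2 * N) (Zt c) k * om (2 * N) k a * (1 - om (2 * N) k d) := by
      rw [e2]
      conv_lhs => rw [e1]
      rw [← Finset.sum_sub_distrib]
      refine Finset.sum_congr rfl fun k _ => ?_
      rw [om_add]
      ring
    rw [e3, Finset.sum_div, Finset.sum_div]
    refine Finset.sum_congr rfl fun k _ => ?_
    have hs : ((Real.sin (π * d / (2 * N : ℕ)) : ℝ) : ℂ) ≠ 0 := by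
      exact_mod_cast (sin_pos g1 g2).ne'
    have hn0 : ((2 * N : ℕ) : ℂ) ≠ 0 := by exact_mod_cast hn.ne'
    field_simp
  rw [Finset.sum_congr rfl h1, Finset.sum_comm]
  refine Finset.sum_congr rfl fun k hk => ?_
  rw [← Finset.mul_sum, ker_sum hC (by omega : 1 ≤ 2 * N) (by
    have := Finset.mem_Ioc.1 hk
    omega), dft_Zt]
  have hN0 : (N : ℂ) ≠ 0 := by exact_mod_cast (by omega : N ≠ 0)
  push_cast
  field_simp

theorem E_lb {n d : ℕ} (h1 : 1 ≤ d) (h2 : d < n) :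
    4 * (dm n d : ℝ) / n ≤ ‖om n 1 (-(d : ℤ)) - 1‖ := by
  rw [E_norm h1 h2]
  have h := sin_lb h1 h2
  have e : 4 * (dm n d : ℝ) / n = 2 * (2 * (dm n d : ℝ) / n) := by ring
  rw [e]
  linarith

theorem dm_pos {n d : ℕ} (h1 : 1 ≤ d) (h2 : d < n) : 1 ≤ dm n d := by
  unfold dm
  omega

theorem diff_bd {n : ℕ} {C : ℝ} (c : Cfg n) (hn : 0 < n)
    (hH : ∀ (j : ℤ) (m : ℕ), m ≤ n → |c.R (j + m) - c.R j| ≤ C * Real.sqrt (m / n) ∧
      |c.Φ (j + m) - c.Φ j| ≤ C * Real.sqrt (m / n)) (a : ℤ) {d : ℕ} (h2 : d < n) :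
    ‖Zt c a - Zt c (a + (d : ℤ))‖ ≤ 2 * C * Real.sqrt ((dm n d : ℝ) / n) := by
  refine (Zt_diff' c _ _).trans ?_
  unfold dm
  rcases le_total d (n - d) with h | h
  · rw [min_eq_left h]
    obtain ⟨e1, e2⟩ := hH a d h2.le
    rw [abs_sub_comm] at e1 e2
    linarith
  · rw [min_eq_right h]
    obtain ⟨e1, e2⟩ := hH (a + d) (n - d) (Nat.sub_le _ _)
    have e3 : a + (d : ℤ) + ((n - d : ℕ) : ℤ) = a + n := by
      rw [Nat.cast_sub h2.le]
      ring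
    rw [e3, R_add] at e1
    rw [e3, Φ_add c hn] at e2
    linarith

theorem HH_Ma (hL : Stmt_COTL) {n : ℕ} {C : ℝ} (hC : 0 < C) (hn : 0 < n) (hn2 : 4 * C ^ 2 ≤ n)
    (c : Cfg n)
    (hH : ∀ (j : ℤ) (m : ℕ), m ≤ n → |c.R (j + m) - c.R j| ≤ C * Real.sqrt (m / n) ∧
      |c.Φ (j + m) - c.Φ j| ≤ C * Real.sqrt (m / n)) (a : ℤ) :
    ‖HH n c.z a - Ma c a‖ ≤
      n / 8 * ∑ d ∈ Ico 1 n, ‖Zt c (a + (d : ℤ)) - Zt c a‖ ^ 2 / (dm n d : ℝ) ^ 3 := by
  have hn0 : (0 : ℝ) < n := by exact_mod_cast hn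
  have key : ∀ d ∈ Ico 1 n, ‖cc c.z a (a + (d : ℤ)) -
      ((om n 1 (-(d : ℤ)) + 1) / (om n 1 (-(d : ℤ)) - 1) -
    2 * om n 1 (-(d : ℤ)) * ((Zt c a - Zt c (a + (d : ℤ))) / n) / (om n 1 (-(d : ℤ)) - 1) ^ 2)‖ ≤
      n / 4 * (‖Zt c (a + (d : ℤ)) - Zt c a‖ ^ 2 / (dm n d : ℝ) ^ 3) := by
    intro d hd
    obtain ⟨g1, g2⟩ := Finset.mem_Ico.1 hd
    have hd0 : (1 : ℝ) ≤ dm n d := by exact_mod_cast dm_pos g1 g2
    have hq : ‖(Zt c a - Zt c (a + (d : ℤ))) / (n : ℂ)‖ = ‖Zt c a - Zt c (a + (d : ℤ))‖ / n := by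
      rw [norm_div, Complex.norm_natCast]
    have h4 := E_lb g1 g2
    have h5 := diff_bd c hn hH a g2
    have h6 : 2 * C * Real.sqrt ((dm n d : ℝ) / n) ≤ dm n d := by
      have e1 : 0 ≤ 2 * C * Real.sqrt ((dm n d : ℝ) / n) := by positivity
      have e2 : (2 * C * Real.sqrt ((dm n d : ℝ) / n)) ^ 2 ≤ (dm n d : ℝ) ^ 2 := by
        rw [mul_pow, Real.sq_sqrt (by positivity)]
        have e3 : (2 * C) ^ 2 * ((dm n d : ℝ) / n) ≤ dm n d := by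
          rw [mul_div_assoc', div_le_iff₀ hn0]
          have := mul_le_mul_of_nonneg_left hn2 (by positivity : (0 : ℝ) ≤ dm n d)
          linarith
        refine e3.trans ?_
        nlinarith
      exact (pow_le_pow_iff_left₀ e1 (by positivity) (by norm_num)).1 e2
    have h7 : 4 * ‖(Zt c a - Zt c (a + (d : ℤ))) / (n : ℂ)‖ ≤ ‖om n 1 (-(d : ℤ)) - 1‖ := by
      rw [hq]
      refine le_trans ?_ h4
      rw [mul_div_assoc']
      apply div_le_div_of_nonneg_right _ hn0.le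
      linarith
    have h8 := hL (om n 1 (-(d : ℤ))) ((Zt c a - Zt c (a + (d : ℤ))) / n) (norm_om n 1 _)
      (E_ne g1 g2) h7
    rw [← cc_eq hn] at h8
    refine h8.trans ?_
    rw [hq, norm_sub_rev (Zt c (a + (d : ℤ)))]
    have h9 : (4 * (dm n d : ℝ) / n) ^ 3 ≤ ‖om n 1 (-(d : ℤ)) - 1‖ ^ 3 :=
      pow_le_pow_left₀ (by positivity) h4 3
    have h10 : 0 < (4 * (dm n d : ℝ) / n) ^ 3 := by positivity
    refine (div_le_div_of_nonneg_left (by positivity) h10 h9).trans (le_of_eq ?_)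
    have : (dm n d : ℝ) ≠ 0 := by positivity
    field_simp
    ring
  have h1 : HH n c.z a - Ma c a = 1 / 2 * ∑ d ∈ Ico 1 n, (cc c.z a (a + (d : ℤ)) -
      ((om n 1 (-(d : ℤ)) + 1) / (om n 1 (-(d : ℤ)) - 1) -
    2 * om n 1 (-(d : ℤ)) * ((Zt c a - Zt c (a + (d : ℤ))) / n) /
      (om n 1 (-(d : ℤ)) - 1) ^ 2)) := by
    unfold HH Ma
    rw [← mul_sub, ← Finset.sum_sub_distrib]
  rw [h1, norm_mul]
  have h2 := (norm_sum_le (Ico 1 n) _).trans (Finset.sum_le_sum key)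
  rw [← Finset.mul_sum] at h2
  have h3 : ‖(1 / 2 : ℂ)‖ = 1 / 2 := by
    norm_num
  rw [h3]
  linarith

theorem sum_diff {n : ℕ} {C : ℝ} (hn : 0 < n) (c : Cfg n)
    (hB : ∀ d : ℕ, ∑ j ∈ range n, ((c.R ((j : ℤ) + (d : ℤ)) - c.R (j : ℤ)) ^ 2 +
      (c.Φ ((j : ℤ) + (d : ℤ)) - c.Φ (j : ℤ)) ^ 2) ≤ C * (d : ℝ) ^ 2 / (n : ℕ)) {d : ℕ}
    (h2 : d < n) :
    ∑ j ∈ range n, ‖Zt c ((j : ℤ) + (d : ℤ)) - Zt c (j : ℤ)‖ ^ 2 ≤ C * (dm n d : ℝ) ^ 2 / n := by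
  have key : ∀ e : ℕ, ∑ j ∈ range n, ‖Zt c ((j : ℤ) + (e : ℤ)) - Zt c (j : ℤ)‖ ^ 2 ≤
      C * (e : ℝ) ^ 2 / n := by
    intro e
    refine le_trans (le_of_eq ?_) (hB e)
    exact Finset.sum_congr rfl fun j _ => Zt_diff c _ _
  unfold dm
  rcases le_total d (n - d) with h | h
  · rw [min_eq_left h]
    exact key d
  · rw [min_eq_right h]
    refine le_trans (le_of_eq ?_) (key (n - d))
    have h3 := sum_shift (n := n) (f := fun j : ℤ => ‖Zt c (j + ((n - d : ℕ) : ℤ)) - Zt c j‖ ^ 2)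
      (fun j => by
        have e1 : j + (n : ℤ) + ((n - d : ℕ) : ℤ) = (j + ((n - d : ℕ) : ℤ)) + n := by ring
        simp only [e1, Zt_add c hn]) (d : ℤ)
    rw [← h3]
    refine Finset.sum_congr rfl fun j _ => ?_
    have e3 : (j : ℤ) + (d : ℤ) + ((n - d : ℕ) : ℤ) = j + n := by
      rw [Nat.cast_sub h2.le]
      ring
    rw [e3, Zt_add c hn, norm_sub_rev]

theorem sum_dm {n : ℕ} : ∑ d ∈ Ico 1 n, 1 / (dm n d : ℝ) ≤ 2 * (1 + Real.log n) := by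
  have h1 : ∑ d ∈ Ico 1 n, 1 / (dm n d : ℝ) ≤ ∑ d ∈ Ico 1 n, (1 / (d : ℝ) + 1 / ((n - d : ℕ) : ℝ)) := by
    refine Finset.sum_le_sum fun d hd => ?_
    unfold dm
    rcases le_total d (n - d) with h | h
    · rw [min_eq_left h]
      have : (0 : ℝ) ≤ 1 / ((n - d : ℕ) : ℝ) := by positivity
      linarith
    · rw [min_eq_right h]
      have : (0 : ℝ) ≤ 1 / (d : ℝ) := by positivity
      linarith
  have h2 : ∑ d ∈ Ico 1 n, (1 / (d : ℝ)) ≤ 1 + Real.log n := by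
    refine le_trans ?_ (harmonic_le_one_add_log n)
    unfold harmonic
    push_cast
    rw [Finset.sum_Ico_eq_sum_range]
    refine le_trans (le_of_eq ?_) (Finset.sum_le_sum_of_subset_of_nonneg
      (Finset.range_subset_range.2 (Nat.sub_le n 1)) (fun i _ _ => by positivity))
    refine Finset.sum_congr rfl fun i _ => ?_
    push_cast
    rw [one_div, add_comm]
  rw [Finset.sum_add_distrib, reflect n (fun d : ℕ => 1 / (d : ℝ))] at h1
  linarith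

theorem sum_HH (hL : Stmt_COTL) {n : ℕ} {C C1 : ℝ} (hC : 0 < C) (hC1 : 0 < C1) (hn : 0 < n)
    (hn2 : 4 * C ^ 2 ≤ n) (c : Cfg n)
    (hH : ∀ (j : ℤ) (m : ℕ), m ≤ n → |c.R (j + m) - c.R j| ≤ C * Real.sqrt (m / n) ∧
      |c.Φ (j + m) - c.Φ j| ≤ C * Real.sqrt (m / n))
    (hB : ∀ d : ℕ, ∑ j ∈ range n, ((c.R ((j : ℤ) + (d : ℤ)) - c.R (j : ℤ)) ^ 2 +
      (c.Φ ((j : ℤ) + (d : ℤ)) - c.Φ (j : ℤ)) ^ 2) ≤ C1 * (d : ℝ) ^ 2 / (n : ℕ)) :
    ∑ a ∈ range n, ‖HH n c.z (a : ℤ) - Ma c (a : ℤ)‖ ≤ C1 / 4 * (1 + Real.log n) := by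
  have hn0 : (0 : ℝ) < n := by exact_mod_cast hn
  have h0 : ∑ a ∈ range n, ‖HH n c.z (a : ℤ) - Ma c (a : ℤ)‖ ≤ ∑ a ∈ range n,
      (n / 8 * ∑ d ∈ Ico 1 n, ‖Zt c ((a : ℤ) + (d : ℤ)) - Zt c (a : ℤ)‖ ^ 2 / (dm n d : ℝ) ^ 3) :=
    Finset.sum_le_sum fun a _ => HH_Ma hL hC hn hn2 c hH (a : ℤ)
  refine h0.trans ?_
  rw [← Finset.mul_sum, Finset.sum_comm]
  have h1 : ∑ d ∈ Ico 1 n, ∑ a ∈ range n, ‖Zt c ((a : ℤ) + (d : ℤ)) - Zt c (a : ℤ)‖ ^ 2 /
      (dm n d : ℝ) ^ 3 ≤ ∑ d ∈ Ico 1 n, C1 / n * (1 / (dm n d : ℝ)) := by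
    refine Finset.sum_le_sum fun d hd => ?_
    obtain ⟨g1, g2⟩ := Finset.mem_Ico.1 hd
    have hd0 : (1 : ℝ) ≤ dm n d := by exact_mod_cast dm_pos g1 g2
    have hd1 : (dm n d : ℝ) ≠ 0 := by positivity
    rw [← Finset.sum_div]
    refine (div_le_div_of_nonneg_right (sum_diff hn c hB g2) (by positivity)).trans (le_of_eq ?_)
    field_simp
  rw [← Finset.mul_sum] at h1
  have h2 := mul_le_mul_of_nonneg_left (sum_dm (n := n)) (by positivity : 0 ≤ C1 / n)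
  have h3 := mul_le_mul_of_nonneg_left (h1.trans h2) (by positivity : 0 ≤ (n : ℝ) / 8)
  refine h3.trans (le_of_eq ?_)
  field_simp
  ring

/-- one point -/
theorem point (hF : Stmt_FBH) (hD : Stmt_DINV) (hCS : Stmt_CSCSUM) {N : ℕ} (hN : 1 ≤ N) {K : ℝ}
    (hK : 0 ≤ K) (c : Cfg (2 * N)) (hP : Pts (2 * N) c.z) (hn2 : 2 * K ≤ (2 * N : ℕ)) (a : ℤ)
    (hR : |c.R a| ≤ K) (hΦ : |c.Φ a| ≤ K) :
    ‖fb (2 * N) c.z a - fl N c a‖ ≤ 2 * K ^ 2 / (2 * N : ℕ) +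
      2 * K / (2 * N : ℕ) * (1 + ‖HH (2 * N) c.z a‖ ^ 2) + ‖HH (2 * N) c.z a - Ma c a‖ := by
  have hn : 0 < 2 * N := by omega
  have hn0 : (0 : ℝ) < (2 * N : ℕ) := by exact_mod_cast hn
  have hnc : ((2 * N : ℕ) : ℂ) ≠ 0 := by exact_mod_cast hn.ne'
  set x : ℂ := Zt c a / ((2 * N : ℕ) : ℂ) with hx
  have hxn : ‖x‖ ≤ 2 * K / (2 * N : ℕ) := by
    rw [hx, norm_div, Complex.norm_natCast]
    apply div_le_div_of_nonneg_right _ hn0.le
    linarith [Zt_norm c a]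
  have hx1 : ‖-x‖ ≤ 1 := by
    rw [norm_neg]
    refine hxn.trans ?_
    rw [div_le_one hn0]
    exact hn2
  have h1 : fb (2 * N) c.z a = om (2 * N) (-1) a * Complex.exp (-x) *
      (((((2 * N : ℕ) : ℂ)) - 1) / 2 + HH (2 * N) c.z a) := by
    rw [← hF (2 * N) c.z hn hP a]
    have := z_inv hn c a
    linear_combination (-fb (2 * N) c.z a) * this
  have h2 : fl N c a = om (2 * N) (-1) a * ((((2 * N : ℕ) : ℂ) - 1) / 2 + Ma c a -
      (((2 * N : ℕ) : ℂ) - 1) / 2 * x) := by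
    unfold fl
    rw [Ma_eq hD hCS hN]
    have e1 := hD N (Zt c) hN (Zt_add c hn) a
    have e2 : ∑ k ∈ Finset.Ioc (-(N : ℤ)) N, ((kap (2 * N) k - 1 + 1 / (2 * N : ℕ) : ℝ) : ℂ) *
      (dr (2 * N) c.R k + Complex.I * dr (2 * N) c.Φ k) * om (2 * N) k a =
      ∑ k ∈ Finset.Ioc (-(N : ℤ)) N, ((kap (2 * N) k : ℝ) : ℂ) *
      (dr (2 * N) c.R k + Complex.I * dr (2 * N) c.Φ k) * om (2 * N) k a -
      (1 - 1 / ((2 * N : ℕ) : ℂ)) * Zt c a := by
      rw [e1, Finset.mul_sum, ← Finset.sum_sub_distrib]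
      refine Finset.sum_congr rfl fun k _ => ?_
      rw [dft_Zt]
      push_cast
      ring
    rw [e2]
    congr 1
    rw [hx]
    field_simp
    ring
  have h3 : fb (2 * N) c.z a - fl N c a = om (2 * N) (-1) a *
      ((((2 * N : ℕ) : ℂ) - 1) / 2 * (Complex.exp (-x) - 1 - -x) +
        HH (2 * N) c.z a * (Complex.exp (-x) - 1) + (HH (2 * N) c.z a - Ma c a)) := by
    rw [h1, h2]
    ring
  rw [h3, norm_mul, norm_om, one_mul]
  refine (norm_add_le _ _).trans (add_le_add ((norm_add_le _ _).trans (add_le_add ?_ ?_)) le_rfl)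
  · rw [norm_mul]
    have e1 : ‖(((2 * N : ℕ) : ℂ) - 1) / 2‖ ≤ (2 * N : ℕ) / 2 := by
      rw [norm_div]
      have e2 : ((2 * N : ℕ) : ℂ) - 1 = ((((2 * N : ℕ) : ℝ) - 1 : ℝ) : ℂ) := by
        push_cast
        ring
      have e3 : (1 : ℝ) ≤ (2 * N : ℕ) := by exact_mod_cast hn
      rw [e2, Complex.norm_real, Real.norm_of_nonneg (by linarith)]
      have e4 : ‖(2 : ℂ)‖ = 2 := by norm_num
      rw [e4]
      linarith
    have e2 := Complex.norm_exp_sub_one_sub_id_le hx1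
    have e3 : ‖-x‖ ^ 2 ≤ (2 * K / (2 * N : ℕ)) ^ 2 := by
      rw [norm_neg]
      exact pow_le_pow_left₀ (norm_nonneg _) hxn 2
    refine (mul_le_mul e1 (e2.trans e3) (norm_nonneg _) (by positivity)).trans (le_of_eq ?_)
    field_simp
  · rw [norm_mul]
    have e2 := Complex.norm_exp_sub_one_le hx1
    rw [norm_neg] at e2
    have e3 : ‖Complex.exp (-x) - 1‖ ≤ 2 * (2 * K / (2 * N : ℕ)) := by linarith
    have e4 : ‖HH (2 * N) c.z a‖ ≤ (1 + ‖HH (2 * N) c.z a‖ ^ 2) / 2 := by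
      nlinarith [sq_nonneg (‖HH (2 * N) c.z a‖ - 1)]
    refine (mul_le_mul e4 e3 (norm_nonneg _) (by positivity)).trans (le_of_eq ?_)
    ring

end M_FBLIN

open M_FBLIN in
theorem m_FBLIN : Stmt_FBH → Stmt_HOLD → Stmt_H1B → Stmt_DINV → Stmt_CSCSUM → Stmt_COTL →
    Stmt_FBLIN := by
  intro hF hHo hB hD hCS hL K
  obtain ⟨C, n1, hC, hHo⟩ := hHo K
  obtain ⟨C1, n2, hC1, hB⟩ := hB K
  refine ⟨4 * K ^ 2 + 2 * |K| + C1 + 1, max (max n1 n2) (max (max 3 ⌈4 * C ^ 2⌉₊) ⌈2 * K⌉₊),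
    by positivity, fun N hN c hc => ?_⟩
  have g1 : n1 ≤ 2 * N := le_trans (by simp) hN
  have g2 : n2 ≤ 2 * N := le_trans (by simp) hN
  have g3 : 3 ≤ 2 * N := le_trans (by simp) hN
  have g4 : ⌈4 * C ^ 2⌉₊ ≤ 2 * N := le_trans (by simp) hN
  have g5 : ⌈2 * K⌉₊ ≤ 2 * N := le_trans (by simp) hN
  have hn : 0 < 2 * N := by omega
  have hn0 : (0 : ℝ) < (2 * N : ℕ) := by exact_mod_cast hn
  have g4' : 4 * C ^ 2 ≤ (2 * N : ℕ) := Nat.ceil_le.1 g4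
  have g5' : 2 * K ≤ (2 * N : ℕ) := Nat.ceil_le.1 g5
  have hK : 0 ≤ K := by
    have := (abs_nonneg _).trans (hc.hρ 0)
    by_contra h
    push Not at h
    have := div_neg_of_neg_of_pos h hn0
    linarith
  have hR : ∀ a, |c.R a| ≤ K := by
    intro a
    unfold Cfg.R
    rw [abs_mul, abs_of_pos hn0]
    have := mul_le_mul_of_nonneg_left (hc.hρ a) hn0.le
    rwa [mul_div_cancel₀ _ hn0.ne'] at this
  have hΦ : ∀ a, |c.Φ a| ≤ K := by
    intro a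
    unfold Cfg.Φ
    rw [abs_mul, abs_of_pos hn0]
    have := mul_le_mul_of_nonneg_left (hc.hφ a) hn0.le
    rwa [mul_div_cancel₀ _ hn0.ne'] at this
  have h1 := sum_HH hL hC hC1 hn g4' c (hHo (2 * N) g1 c hc).2 (hB N g2 c hc).1
  have h2 : ∑ a ∈ range (2 * N), ‖fb (2 * N) c.z (a : ℤ) - fl N c (a : ℤ)‖ ≤
      ∑ a ∈ range (2 * N), (2 * K ^ 2 / (2 * N : ℕ) +
      2 * K / (2 * N : ℕ) * (1 + ‖HH (2 * N) c.z (a : ℤ)‖ ^ 2) +
        ‖HH (2 * N) c.z (a : ℤ) - Ma c (a : ℤ)‖) :=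
    Finset.sum_le_sum fun a _ => point hF hD hCS (by omega) hK c hc.opt.pts g5' a (hR a) (hΦ a)
  refine h2.trans ?_
  rw [Finset.sum_add_distrib, Finset.sum_add_distrib, ← Finset.mul_sum, Finset.sum_add_distrib,
    Finset.sum_const, Finset.sum_const, Finset.card_range, nsmul_eq_mul, nsmul_eq_mul, mul_one]
  have h3 : (2 * K / (2 * N : ℕ)) * ((2 * N : ℕ) + ∑ a ∈ range (2 * N), ‖HH (2 * N) c.z (a : ℤ)‖ ^ 2)
      ≤ 2 * K * (1 + K) := by
    have := mul_le_mul_of_nonneg_left (add_le_add (le_refl ((2 * N : ℕ) : ℝ)) hc.hH)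
      (by positivity : 0 ≤ 2 * K / (2 * N : ℕ))
    refine this.trans (le_of_eq ?_)
    field_simp
  have h4 : ((2 * N : ℕ) : ℝ) * (2 * K ^ 2 / (2 * N : ℕ)) = 2 * K ^ 2 := by
    field_simp
  rw [h4]
  have h5 : 1 ≤ Real.log (2 * N : ℕ) := by
    rw [Real.le_log_iff_exp_le hn0]
    have e1 : (3 : ℝ) ≤ (2 * N : ℕ) := by exact_mod_cast g3
    have := Real.exp_one_lt_d9
    linarith
  have h6 : |K| = K := abs_of_nonneg hK
  rw [h6]
  have h7 : (4 * K ^ 2 + 2 * K + C1 + 1) * 1 ≤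
      (4 * K ^ 2 + 2 * K + C1 + 1) * Real.log (2 * N : ℕ) := by
    exact mul_le_mul_of_nonneg_left h5 (by positivity)
  have h8 : 0 ≤ (4 * K ^ 2 + 2 * K + C1 / 2 + 1) * (Real.log (2 * N : ℕ) - 1) :=
    mul_nonneg (by positivity) (by linarith)
  have h9 : C1 / 4 * (1 + Real.log (2 * N : ℕ)) ≤ C1 / 2 * Real.log (2 * N : ℕ) := by
    nlinarith
  nlinarith

end Pool.Agent.EHP
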