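import Pool.Agent.EHP.Stmts6
import Pool.Agent.EHP.Base

/-!
# FCARC: force on two disjoint arcs
-/

open Finset

namespace Pool.Agent.EHP

namespace FCARC

theorem fb_add {n : ℕ} {z : ℤ → ℂ} (hz : ∀ j, z (j + n) = z j) (j : ℤ) :
    fb n z (j + n) = fb n z j := by
  unfold fb
  refine Finset.sum_congr rfl fun d _ => ?_
  have h : j + (n : ℤ) + (d : ℤ) = (j + d) + n := by ring
  rw [h, hz, hz]

theorem sum_Ioc {M : Type*} [AddCommGroup M] {n : ℕ} {f : ℤ → M} (hf : ∀ j, f (j + n) = f j)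
    (a : ℤ) : ∑ j ∈ range n, f (j : ℤ) = ∑ j ∈ Finset.Ioc a (a + n), f j := by
  rw [← sum_shift hf (a + 1)]
  refine Finset.sum_nbij (fun j : ℕ => (j : ℤ) + (a + 1)) ?_ ?_ ?_ (fun _ _ => rfl)
  · intro j hj
    rw [Finset.mem_range] at hj
    rw [Finset.mem_Ioc]
    constructor <;> omega
  · intro i _ j _ hij
    simp only at hij
    omega
  · intro j hj
    rw [Finset.coe_Ioc, Set.mem_Ioc] at hj
    refine ⟨(j - (a + 1)).toNat, ?_, ?_⟩
    · rw [Finset.coe_range, Set.mem_Iio]
      omega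
    · simp only
      rw [Int.toNat_of_nonneg (by omega)]
      ring

theorem mem_arc2 {n : ℕ} {a b p q j : ℤ} (hab : a ≤ b) (hbp : b ≤ p) (hpq : p ≤ q)
    (hqa : q ≤ a + n) (h1 : a < j) (h2 : j ≤ a + n) :
    j ∈ arc2 n a b p q ↔ (a < j ∧ j ≤ b) ∨ (p < j ∧ j ≤ q) := by
  constructor
  · rintro ⟨k, hk⟩
    have hk' : a < j + k * n ∧ j + k * n ≤ a + n := by omega
    have hk0 : k = 0 := by
      by_contra hne
      rcases lt_or_gt_of_ne hne with h | h
      · have h3 : k * (n : ℤ) ≤ -1 * n := mul_le_mul_of_nonneg_right (by omega) (by omega)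
        omega
      · have h3 : 1 * (n : ℤ) ≤ k * n := mul_le_mul_of_nonneg_right (by omega) (by omega)
        omega
    rw [hk0] at hk
    simpa using hk
  · intro h
    exact ⟨0, by simpa using h⟩

end FCARC

open FCARC in
theorem m_FCARC : Stmt_FCSUM → Stmt_FCARC := by
  classical
  intro hF n z hn hz a b p q hab hbp hpq hqa
  have hP : PerSet n (arc2 n a b p q) := by
    intro j
    constructor
    · rintro ⟨k, hk⟩
      refine ⟨k + 1, ?_⟩
      have e : j + (n : ℤ) + k * n = j + (k + 1) * n := by ring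
      rwa [e] at hk
    · rintro ⟨k, hk⟩
      refine ⟨k - 1, ?_⟩
      have e : j + (n : ℤ) + (k - 1) * n = j + k * n := by ring
      rwa [e]
  refine ⟨hP, ?_⟩
  rw [hF n z hz _ hP]
  have hper : ∀ j : ℤ, (if j + (n : ℤ) ∈ arc2 n a b p q then fb n z (j + n) else 0) =
      if j ∈ arc2 n a b p q then fb n z j else 0 := by
    intro j
    rw [fb_add hz]
    simp only [hP j]
  have h1 := sum_Ioc (f := fun j : ℤ => if j ∈ arc2 n a b p q then fb n z j else 0) hper a
  refine Eq.trans ?_ (h1.trans ?_)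
  · refine Finset.sum_congr rfl fun j _ => ?_
    congr
  · rw [← Finset.sum_filter]
    have e : (Finset.Ioc a (a + n)).filter (fun j => j ∈ arc2 n a b p q) =
        Finset.Ioc a b ∪ Finset.Ioc p q := by
      ext j
      rw [Finset.mem_filter, Finset.mem_union, Finset.mem_Ioc, Finset.mem_Ioc, Finset.mem_Ioc]
      constructor
      · rintro ⟨⟨h2, h3⟩, h4⟩
        exact (mem_arc2 hab hbp hpq hqa h2 h3).1 h4
      · intro h2
        have h3 : a < j ∧ j ≤ a + n := by omega
        exact ⟨h3, (mem_arc2 hab hbp hpq hqa h3.1 h3.2).2 h2⟩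
    rw [e, Finset.sum_union]
    rw [Finset.disjoint_left]
    intro j h2 h3
    rw [Finset.mem_Ioc] at h2 h3
    omega

end Pool.Agent.EHP
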