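import Pool.Agent.EHP.Stmts1

open Finset

namespace Pool.Agent.EHP

theorem m_FCSUM : Stmt_FCSUM := by
  classical
  intro n z hz C hC
  have hsw := sum_swap (n := n)
    (F := fun i j => if i ∈ C ∧ j ∈ C then 1 / (z i - z j) else (0 : ℂ))
    (fun i j => by simp only [hC i, hz i]) (fun i j => by simp only [hC j, hz j])
  have hneg : ∑ a ∈ range n, ∑ d ∈ Ico 1 n,
      (if (a : ℤ) + (d : ℤ) ∈ C ∧ (a : ℤ) ∈ C then
        1 / (z ((a : ℤ) + (d : ℤ)) - z (a : ℤ)) else (0 : ℂ)) =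
      -∑ a ∈ range n, ∑ d ∈ Ico 1 n,
      (if (a : ℤ) ∈ C ∧ (a : ℤ) + (d : ℤ) ∈ C then
        1 / (z (a : ℤ) - z ((a : ℤ) + (d : ℤ))) else (0 : ℂ)) := by
    rw [← Finset.sum_neg_distrib]
    refine Finset.sum_congr rfl fun a _ => ?_
    rw [← Finset.sum_neg_distrib]
    refine Finset.sum_congr rfl fun d _ => ?_
    by_cases h1 : (a : ℤ) ∈ C <;> by_cases h2 : (a : ℤ) + (d : ℤ) ∈ C
    · rw [if_pos ⟨h2, h1⟩, if_pos ⟨h1, h2⟩, ← neg_sub (z (a : ℤ)), one_div, one_div, inv_neg]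
    · rw [if_neg (fun h => h2 h.1), if_neg (fun h => h2 h.2), neg_zero]
    · rw [if_neg (fun h => h1 h.2), if_neg (fun h => h1 h.1), neg_zero]
    · rw [if_neg (fun h => h2 h.1), if_neg (fun h => h2 h.2), neg_zero]
  rw [hneg] at hsw
  set S := ∑ a ∈ range n, ∑ d ∈ Ico 1 n,
      (if (a : ℤ) ∈ C ∧ (a : ℤ) + (d : ℤ) ∈ C then
        1 / (z (a : ℤ) - z ((a : ℤ) + (d : ℤ))) else (0 : ℂ)) with hS
  have hS0 : S = 0 := by
    have h2 : (2 : ℂ) * S = 0 := by linear_combination -hsw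
    simpa using h2
  have hsplit : (∑ a ∈ range n, if (a : ℤ) ∈ C then fb n z (a : ℤ) else 0) = FC n z C + S := by
    rw [hS, FC, ← Finset.sum_add_distrib]
    refine Finset.sum_congr rfl fun a _ => ?_
    rw [← Finset.sum_add_distrib]
    by_cases h1 : (a : ℤ) ∈ C
    · rw [if_pos h1, fb]
      refine Finset.sum_congr rfl fun d _ => ?_
      by_cases h2 : (a : ℤ) + (d : ℤ) ∈ C
      · rw [if_neg (fun h => h.2 h2), if_pos ⟨h1, h2⟩, zero_add]
      · rw [if_pos ⟨h1, h2⟩, if_neg (fun h => h2 h.2), add_zero]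
    · rw [if_neg h1]
      refine (Finset.sum_eq_zero fun d _ => ?_).symm
      rw [if_neg (fun h => h1 h.1), if_neg (fun h => h1 h.1), add_zero]
  rw [hsplit, hS0, add_zero]

end Pool.Agent.EHP
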