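import Pool.Agent.EHP.Stmts5

/-!
# Fejér means of the square wave
-/

open Finset
open scoped Real ComplexConjugate

namespace Pool.Agent.EHP

namespace FejAux

theorem split2 (f : ℕ → ℝ) (M : ℕ) :
    ∑ k ∈ range (2 * M), f k = ∑ i ∈ range M, f (2 * i) + ∑ i ∈ range M, f (2 * i + 1) := by
  induction M with
  | zero => simp
  | succ m ih =>
    have e : 2 * (m + 1) = 2 * m + 1 + 1 := by ring
    rw [e, Finset.sum_range_succ, Finset.sum_range_succ, ih, Finset.sum_range_succ,
      Finset.sum_range_succ]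
    ring

/-- The Fejér kernel as a sum of squares. -/
theorem kern (y : ℝ) (n : ℕ) :
    2 * ∑ k ∈ range n, ((n : ℝ) - k) * Real.cos (k * y) - n =
      (∑ j ∈ range n, Real.cos (j * y)) ^ 2 + (∑ j ∈ range n, Real.sin (j * y)) ^ 2 := by
  induction n with
  | zero => simp
  | succ n ih =>
    have h1 : ∑ k ∈ range (n + 1), (((n + 1 : ℕ) : ℝ) - k) * Real.cos (k * y) =
        ∑ k ∈ range n, ((n : ℝ) - k) * Real.cos (k * y) +
          ∑ k ∈ range (n + 1), Real.cos (k * y) := by
      rw [Finset.sum_range_succ, Finset.sum_range_succ _ n, ← add_assoc,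
        ← Finset.sum_add_distrib]
      congr 1
      · apply Finset.sum_congr rfl
        intro k _
        push_cast
        ring
      · push_cast
        ring
    have h2 : ∑ k ∈ range (n + 1), Real.cos (k * y) =
        Real.cos (n * y) * ∑ j ∈ range n, Real.cos (j * y) +
          Real.sin (n * y) * ∑ j ∈ range n, Real.sin (j * y) + 1 := by
      rw [Finset.sum_range_succ', Finset.mul_sum, Finset.mul_sum, ← Finset.sum_add_distrib]
      simp only [Nat.cast_zero, zero_mul, Real.cos_zero]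
      congr 1
      rw [← Finset.sum_range_reflect]
      apply Finset.sum_congr rfl
      intro j hj
      rw [Finset.mem_range] at hj
      rw [← Real.cos_sub]
      congr 1
      have : ((n - 1 - j + 1 : ℕ) : ℝ) = (n : ℝ) - j := by
        have e : n - 1 - j + 1 = n - j := by omega
        rw [e, Nat.cast_sub hj.le]
      rw [this]
      ring
    have h3 := Real.sin_sq_add_cos_sq (n * y)
    rw [h1, Finset.sum_range_succ (fun j : ℕ => Real.cos (j * y)),
      Finset.sum_range_succ (fun j : ℕ => Real.sin (j * y))]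
    rw [Finset.sum_range_succ (fun j : ℕ => Real.cos (j * y))] at h2
    push_cast
    nlinarith

/-- The terms of the antiderivative. -/
noncomputable def A (n k : ℕ) (y : ℝ) : ℝ :=
  if k = 0 then y else (1 - (k : ℝ) / n) * (Real.sin (k * y) / k)

theorem A_deriv (n k : ℕ) (y : ℝ) :
    HasDerivAt (A n k) ((1 - (k : ℝ) / n) * Real.cos (k * y)) y := by
  unfold A
  split_ifs with h
  · subst h
    have e : (1 - ((0 : ℕ) : ℝ) / n) * Real.cos (((0 : ℕ) : ℝ) * y) = 1 := by simp
    rw [e]
    exact hasDerivAt_id' y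
  · have hk : (k : ℝ) ≠ 0 := by exact_mod_cast h
    have h1 : HasDerivAt (fun y : ℝ => (k : ℝ) * y) ((k : ℝ) * 1) y :=
      (hasDerivAt_id y).const_mul (k : ℝ)
    have h2 := ((h1.sin).div_const (k : ℝ)).const_mul (1 - (k : ℝ) / n)
    have e : (1 - (k : ℝ) / n) * (Real.cos (k * y) * ((k : ℝ) * 1) / k) =
        (1 - (k : ℝ) / n) * Real.cos (k * y) := by
      field_simp
    rw [← e]
    exact h2

/-- The antiderivative of the Fejér kernel. -/
noncomputable def G (n : ℕ) (y : ℝ) : ℝ := 2 * ∑ k ∈ range n, A n k y - y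

theorem G_mono {n : ℕ} (hn : 1 ≤ n) : Monotone (G n) := by
  have hnpos : (0 : ℝ) < n := by exact_mod_cast hn
  have hd : ∀ y, HasDerivAt (G n)
      (2 * ∑ k ∈ range n, (1 - (k : ℝ) / n) * Real.cos (k * y) - 1) y := by
    intro y
    have h1 : HasDerivAt (fun y => ∑ k ∈ range n, A n k y)
        (∑ k ∈ range n, (1 - (k : ℝ) / n) * Real.cos (k * y)) y :=
      HasDerivAt.fun_sum fun k _ => A_deriv n k y
    exact (h1.const_mul 2).sub (hasDerivAt_id y)
  apply monotone_of_deriv_nonneg (fun y => (hd y).differentiableAt)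
  intro y
  rw [(hd y).deriv]
  have h := kern y n
  have e : n * (2 * ∑ k ∈ range n, (1 - (k : ℝ) / n) * Real.cos (k * y) - 1) =
      2 * ∑ k ∈ range n, ((n : ℝ) - k) * Real.cos (k * y) - n := by
    have e1 : ∑ k ∈ range n, ((n : ℝ) - k) * Real.cos (k * y) =
        n * ∑ k ∈ range n, (1 - (k : ℝ) / n) * Real.cos (k * y) := by
      rw [Finset.mul_sum]
      apply Finset.sum_congr rfl
      intro k _
      field_simp
    rw [e1]; ring
  have h2 : 0 ≤ n * (2 * ∑ k ∈ range n, (1 - (k : ℝ) / n) * Real.cos (k * y) - 1) := by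
    rw [e, h]; positivity
  exact nonneg_of_mul_nonneg_right h2 hnpos

theorem G_pi {n : ℕ} (hn : 1 ≤ n) (m : ℤ) : G n (m * π) = m * π := by
  unfold G
  have h : ∑ k ∈ range n, A n k (m * π) = m * π := by
    rw [Finset.sum_eq_single 0]
    · simp [A]
    · intro k _ hk
      unfold A
      rw [if_neg hk]
      have e : (k : ℝ) * (m * π) = ((k * m : ℤ) : ℝ) * π := by push_cast; ring
      rw [e, Real.sin_int_mul_pi]
      simp
    · intro h
      exact absurd (Finset.mem_range.2 hn) h
  rw [h]; ring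

theorem G_diff {M : ℕ} (hM : 1 ≤ M) (y : ℝ) :
    4 * ∑ i ∈ range M, (1 - (2 * i + 1 : ℝ) / (2 * M)) * Real.sin ((2 * i + 1) * y) / (2 * i + 1) =
      G (2 * M) y - G (2 * M) (y + π) + π := by
  unfold G
  have h : ∑ k ∈ range (2 * M), A (2 * M) k y - ∑ k ∈ range (2 * M), A (2 * M) k (y + π) =
      -π + 2 * ∑ i ∈ range M,
        (1 - (2 * i + 1 : ℝ) / (2 * M)) * Real.sin ((2 * i + 1) * y) / (2 * i + 1) := by
    rw [← Finset.sum_sub_distrib, split2, Finset.mul_sum]
    congr 1
    · rw [Finset.sum_eq_single 0]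
      · simp [A]
      · intro i _ hi
        have h0 : 2 * i ≠ 0 := by omega
        unfold A
        rw [if_neg h0, if_neg h0]
        have e : ((2 * i : ℕ) : ℝ) * (y + π) = ((2 * i : ℕ) : ℝ) * y + i * (2 * π) := by
          push_cast; ring
        rw [e, Real.sin_add_nat_mul_two_pi]
        ring
      · intro h
        exact absurd (Finset.mem_range.2 hM) h
    · apply Finset.sum_congr rfl
      intro i _
      have h0 : 2 * i + 1 ≠ 0 := by omega
      unfold A
      rw [if_neg h0, if_neg h0]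
      have e : ((2 * i + 1 : ℕ) : ℝ) * (y + π) =
          (((2 * i + 1 : ℕ) : ℝ) * y + π) + i * (2 * π) := by
        push_cast; ring
      rw [e, Real.sin_add_nat_mul_two_pi, Real.sin_add_pi]
      push_cast
      ring
  linarith

end FejAux

theorem m_FEJER : Stmt_FEJER := by
  intro M y hM
  have hπ := Real.pi_pos
  have hn : 1 ≤ 2 * M := by omega
  have hmono := FejAux.G_mono hn
  have hd := FejAux.G_diff hM y
  obtain ⟨S, hS⟩ : ∃ S, S = ∑ i ∈ range M,
    (1 - (2 * i + 1 : ℝ) / (2 * M)) * Real.sin ((2 * i + 1) * y) / (2 * i + 1) := ⟨_, rfl⟩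
  rw [← hS] at hd ⊢
  obtain ⟨m, hm⟩ : ∃ m : ℤ, m = ⌊y / π⌋ := ⟨_, rfl⟩
  have h1 : (m : ℝ) * π ≤ y := by
    rw [← le_div_iff₀ hπ, hm]; exact Int.floor_le _
  have h2 : y ≤ ((m + 1 : ℤ) : ℝ) * π := by
    rw [← div_le_iff₀ hπ, hm]; push_cast; exact (Int.lt_floor_add_one _).le
  have h3 : ((m + 1 : ℤ) : ℝ) * π ≤ y + π := by push_cast; linarith
  have h4 : y + π ≤ ((m + 2 : ℤ) : ℝ) * π := by push_cast at h2 ⊢; linarith
  have g1 := hmono h1
  have g2 := hmono h2
  have g3 := hmono h3
  have g4 := hmono h4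
  rw [FejAux.G_pi hn] at g1 g2 g3 g4
  push_cast at g1 g2 g3 g4
  have h5 : |S| ≤ π / 4 := by
    rw [abs_le]
    constructor <;> linarith
  rw [abs_mul, abs_of_pos (by positivity : (0 : ℝ) < 2 / π)]
  calc 2 / π * |S| ≤ 2 / π * (π / 4) := mul_le_mul_of_nonneg_left h5 (by positivity)
    _ = 1 / 2 := by field_simp; norm_num

end Pool.Agent.EHP
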