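import Pool.Agent.EHP.Stmts4

/-!
# Low modes converge
-/

open Finset
open scoped Real ComplexConjugate Topology

namespace Pool.Agent.EHP

namespace MMODELO

open Filter

theorem tend_inv : Tendsto (fun n : ℕ => (1 : ℝ) / n) atTop (𝓝 0) := tendsto_one_div_atTop_nhds_zero_nat

/-- The exponential. -/
noncomputable def ee (k : ℤ) (n : ℕ) : ℂ := Complex.exp ((2 * π * k / n : ℝ) * Complex.I)

/-- The factor of the difference. -/
noncomputable def zz (k : ℤ) (n : ℕ) : ℂ := ((n / (2 * π) : ℝ) : ℂ) * (ee k n - 1)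

theorem tend_ee (k : ℤ) : Tendsto (ee k) atTop (𝓝 1) := by
  have h1 : Tendsto (fun n : ℕ => (((2 * π * k * (1 / n) : ℝ) : ℂ)) * Complex.I) atTop
      (𝓝 (((2 * π * k * 0 : ℝ) : ℂ) * Complex.I)) :=
    ((Complex.continuous_ofReal.tendsto _).comp (tend_inv.const_mul _)).mul_const _
  have h2 := (Complex.continuous_exp.tendsto _).comp h1
  have e : Complex.exp (((2 * π * k * 0 : ℝ) : ℂ) * Complex.I) = 1 := by simp
  rw [e] at h2
  refine h2.congr fun n => ?_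
  unfold ee
  simp only [Function.comp]
  congr 3
  ring

theorem tend_zz (k : ℤ) : Tendsto (zz k) atTop (𝓝 (k * Complex.I)) := by
  have hd : HasDerivAt (fun t : ℝ => Complex.exp ((t : ℂ) * (2 * π * k * Complex.I)))
      (2 * π * k * Complex.I) 0 := by
    have h1 : HasDerivAt (fun t : ℝ => (t : ℂ) * (2 * π * k * Complex.I))
        (1 * (2 * π * k * Complex.I)) 0 :=
      (Complex.ofRealCLM.hasDerivAt (x := (0 : ℝ))).mul_const _
    have h2 := h1.cexp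
    simpa using h2
  have h3 := hd.tendsto_slope_zero_right
  have h4 : Tendsto (fun n : ℕ => (1 : ℝ) / n) atTop (𝓝[>] 0) := by
    refine tendsto_nhdsWithin_iff.2 ⟨tend_inv, ?_⟩
    filter_upwards [eventually_gt_atTop 0] with n hn
    have : (0 : ℝ) < n := by exact_mod_cast hn
    exact Set.mem_Ioi.2 (by positivity)
  have h5 := (h3.comp h4).const_mul (1 / (2 * π) : ℂ)
  have e : (1 / (2 * π) : ℂ) * (2 * π * k * Complex.I) = k * Complex.I := by
    have : (π : ℂ) ≠ 0 := by exact_mod_cast Real.pi_ne_zero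
    field_simp
  rw [e] at h5
  refine h5.congr fun n => ?_
  unfold zz ee
  simp only [Function.comp, zero_add, Complex.ofReal_zero, zero_mul, Complex.exp_zero,
    Complex.real_smul]
  have e2 : (((1 / (n : ℝ) : ℝ) : ℂ)) * (2 * π * k * Complex.I) =
      ((2 * π * k / n : ℝ) : ℂ) * Complex.I := by
    push_cast
    ring
  rw [e2]
  push_cast
  rw [one_div, one_div, inv_inv]
  ring

theorem tend_kap (k : ℤ) : Tendsto (fun n => kap n k) atTop (𝓝 |(k : ℝ)|) := by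
  have h1 : Tendsto (fun n : ℕ => |(k : ℝ)| * (1 - |(k : ℝ)| * (1 / n))) atTop
      (𝓝 (|(k : ℝ)| * (1 - |(k : ℝ)| * 0))) :=
    ((tend_inv.const_mul _).const_sub _).const_mul _
  rw [mul_zero, sub_zero, mul_one] at h1
  refine h1.congr fun n => ?_
  unfold kap
  rw [mul_one_div]

theorem tend_W (k : ℤ) : Tendsto (fun n => ‖zz k n‖ ^ 2) atTop (𝓝 ((k : ℝ) ^ 2)) := by
  have h1 := (tend_zz k).norm.pow 2
  have e : ‖(k : ℂ) * Complex.I‖ ^ 2 = (k : ℝ) ^ 2 := by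
    rw [norm_mul, Complex.norm_I, mul_one, ← Complex.ofReal_intCast, Complex.norm_real,
      Real.norm_eq_abs, sq_abs]
  rwa [e] at h1

theorem dr_DR (hD : Stmt_DFTS) {n : ℕ} (hn : 1 ≤ n) (c : Cfg n) (k : ℤ) :
    dr n c.DR k = zz k n * dr n c.R k := by
  have h := (hD n c.R hn (fun j => by unfold Cfg.R; rw [c.ρ_add]) k 1).1
  have e1 : dr n c.DR k = ((n / (2 * π) : ℝ) : ℂ) * (dr n (fun j => c.R (j + 1)) k -
      dr n c.R k) := by
    unfold dr dft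
    rw [← sub_div, ← Finset.sum_sub_distrib, ← mul_div_assoc, Finset.mul_sum]
    congr 1
    refine Finset.sum_congr rfl fun j _ => ?_
    unfold Cfg.DR
    push_cast
    ring
  rw [e1, h]
  unfold zz ee
  have e2 : (2 * π * k * ((1 : ℤ) : ℝ) / n : ℝ) = 2 * π * k / n := by
    rw [Int.cast_one, mul_one]
  rw [e2]
  ring

end MMODELO

open MMODELO Filter in
theorem m_MODELO : Stmt_DFTS → Stmt_MODELO := by
  intro hD k ε hk hε
  have hkR : (k : ℝ) ≠ 0 := by exact_mod_cast hk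
  have hk2 : (0 : ℝ) < (k : ℝ) ^ 2 := by positivity
  have t1 : Tendsto (fun n => ‖ee k n - 1‖ / 4 + abs (kap n k - |(k : ℝ)|) / 2) atTop (𝓝 0) := by
    have h1 := (((tend_ee k).sub_const 1).norm.div_const 4).add
      (((tend_kap k).sub_const |(k : ℝ)|).abs.div_const 2)
    simpa using h1
  have t2 : Tendsto (fun n => ‖ee k n - 1‖ / 4 +
      |(kap n k - 1) / ‖zz k n‖ ^ 2 - (|(k : ℝ)| - 1) / (k : ℝ) ^ 2| / 2) atTop (𝓝 0) := by
    have h0 := ((tend_kap k).sub_const 1).div (tend_W k) hk2.ne'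
    have h1 := (((tend_ee k).sub_const 1).norm.div_const 4).add
      ((h0.sub_const ((|(k : ℝ)| - 1) / (k : ℝ) ^ 2)).abs.div_const 2)
    simpa using h1
  have v1 := (t1.eventually (eventually_le_nhds hε)).and ((t2.eventually (eventually_le_nhds hε)).and
    (((tend_W k).eventually (lt_mem_nhds hk2)).and (eventually_ge_atTop 1)))
  obtain ⟨n₀, hn₀⟩ := eventually_atTop.1 v1
  refine ⟨n₀, fun n hn c => ?_⟩
  obtain ⟨a1, a2, a3, a4⟩ := hn₀ n hn
  have hV := dr_DR hD a4 c k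
  have hk1 : (0 : ℝ) < |(k : ℝ)| := abs_pos.2 hkR
  have hkk : (k : ℝ) ^ 2 = |(k : ℝ)| ^ 2 := (sq_abs _).symm
  unfold EM
  have he : Complex.exp ((2 * π * k / n : ℝ) * Complex.I) = ee k n := rfl
  rw [he]
  set F := dr n c.Φ k with hF
  set V := dr n c.DR k with hVV
  set Rh := dr n c.R k with hRh
  set W := ‖zz k n‖ ^ 2 with hW
  set e := ee k n with hee
  set κ := kap n k with hκ
  have hR2 : ‖Rh‖ ^ 2 = ‖V‖ ^ 2 / W := by
    rw [hV, norm_mul, mul_pow, mul_div_assoc, mul_comm, div_mul_cancel₀ _ a3.ne']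
  have h1 : ((1 + e) / 2 * F * conj V).re ≤ (F * conj V).re +
      ‖e - 1‖ / 4 * (‖F‖ ^ 2 + ‖V‖ ^ 2) := by
    have e1 : (1 + e) / 2 * F * conj V = F * conj V + (e - 1) / 2 * F * conj V := by ring
    rw [e1, Complex.add_re]
    have h2 := Complex.re_le_norm ((e - 1) / 2 * F * conj V)
    rw [norm_mul, norm_mul, norm_div, Complex.norm_conj, Complex.norm_ofNat] at h2
    have h3 : ‖F‖ * ‖V‖ ≤ (‖F‖ ^ 2 + ‖V‖ ^ 2) / 2 := by nlinarith [sq_nonneg (‖F‖ - ‖V‖)]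
    have h4 := mul_le_mul_of_nonneg_left h3 (show 0 ≤ ‖e - 1‖ / 2 by positivity)
    linarith
  have h5 : -(κ - |(k : ℝ)|) ≤ abs (κ - |(k : ℝ)|) := neg_le_abs _
  have h6 : (κ - 1) / W - (|(k : ℝ)| - 1) / (k : ℝ) ^ 2 ≤
      |(κ - 1) / W - (|(k : ℝ)| - 1) / (k : ℝ) ^ 2| := le_abs_self _
  have h7 : (|(k : ℝ)| - 1) / (k : ℝ) ^ 2 = 1 / |(k : ℝ)| - 1 / (k : ℝ) ^ 2 := by
    rw [hkk]
    field_simp
  rw [hR2]
  have hf : 0 ≤ ‖F‖ ^ 2 := sq_nonneg _
  have hv : 0 ≤ ‖V‖ ^ 2 := sq_nonneg _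
  have h8 : (‖e - 1‖ / 4 - (κ - |(k : ℝ)|) / 2) * ‖F‖ ^ 2 ≤ ε * ‖F‖ ^ 2 :=
    mul_le_mul_of_nonneg_right (by linarith) hf
  have h9 : (‖e - 1‖ / 4 + ((κ - 1) / W - (1 / |(k : ℝ)| - 1 / (k : ℝ) ^ 2)) / 2) * ‖V‖ ^ 2 ≤
      ε * ‖V‖ ^ 2 := by
    rw [h7] at h6 a2
    exact mul_le_mul_of_nonneg_right (by linarith) hv
  have h10 : (κ - 1) / W * ‖V‖ ^ 2 = κ * (‖V‖ ^ 2 / W) - ‖V‖ ^ 2 / W := by
    field_simp
  linarith

end Pool.Agent.EHP
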