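import Pool.Agent.EHP.Stmts6
import Pool.Agent.EHP.MMODELO
import Pool.Agent.EHP.MELO

/-!
# The coefficients of the modes: `Stmt_FMODE`
-/

open Finset
open scoped Real ComplexConjugate

namespace Pool.Agent.EHP

namespace M_FMODE

open MMODELO Filter Topology

theorem om_one (n : ℕ) (k : ℤ) : om n k 1 = ee k n := by
  unfold om ee
  rw [Int.cast_one, mul_one]

theorem ee_norm (n : ℕ) (k : ℤ) : ‖ee k n‖ = 1 := by
  unfold ee
  exact Complex.norm_exp_ofReal_mul_I _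

/-- lower bound of `|ω - 1|` -/
theorem low {n : ℕ} (hn : 1 ≤ n) (κ : ℤ) (m : ℝ) (h1 : m ≤ |(κ : ℝ)|) (h2 : |(κ : ℝ)| ≤ n - m)
    (h0 : 0 ≤ m) : 4 * m / n ≤ ‖ee κ n - 1‖ := by
  have hnR : (0 : ℝ) < n := by exact_mod_cast hn
  have hpi := Real.pi_pos
  have e1 : ‖ee κ n - 1‖ = 2 * |Real.sin (π * κ / n)| := by
    have h := Complex.norm_exp_I_mul_ofReal_sub_one (2 * π * κ / n)
    have e2 : ee κ n = Complex.exp (Complex.I * ((2 * π * κ / n : ℝ) : ℂ)) := by
      unfold ee; rw [mul_comm]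
    rw [e2, h, Real.norm_eq_abs, abs_mul, abs_of_pos (two_pos : (0 : ℝ) < 2)]
    congr 3
    ring
  have e3 : Real.sin (π * |(κ : ℝ)| / n) ≤ |Real.sin (π * κ / n)| := by
    rcases abs_cases (κ : ℝ) with ⟨h7, _⟩ | ⟨h7, _⟩
    · rw [h7]; exact le_abs_self _
    · rw [h7]
      have h8 : π * -(κ : ℝ) / n = -(π * κ / n) := by ring
      rw [h8, Real.sin_neg]
      exact neg_le_abs _
  have e4 : 2 * m / n ≤ Real.sin (π * |(κ : ℝ)| / n) := by
    have hx0 : 0 ≤ π * |(κ : ℝ)| / n := by positivity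
    rcases le_total (π * |(κ : ℝ)| / n) (π / 2) with h | h
    · have h3 := Real.mul_le_sin hx0 h
      have h4 : 2 / π * (π * |(κ : ℝ)| / n) = 2 * |(κ : ℝ)| / n := by field_simp
      rw [h4] at h3
      refine le_trans ?_ h3
      gcongr
    · have h5 : 0 ≤ π - π * |(κ : ℝ)| / n := by
        have : π * |(κ : ℝ)| / n ≤ π := by
          rw [div_le_iff₀ hnR]
          have : |(κ : ℝ)| ≤ n := by linarith
          nlinarith
        linarith
      have h3 := Real.mul_le_sin h5 (by linarith)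
      rw [Real.sin_pi_sub] at h3
      have h4 : 2 / π * (π - π * |(κ : ℝ)| / n) = 2 * (n - |(κ : ℝ)|) / n := by field_simp
      rw [h4] at h3
      refine le_trans ?_ h3
      gcongr
      linarith
  rw [e1]
  have e5 : 4 * m / n = 2 * (2 * m / n) := by ring
  rw [e5]
  linarith

theorem pst_le {k : ℤ} (hk : 3 ≤ |k|) : ‖pst k‖ ≤ 1 := by
  have hk' : (3 : ℝ) ≤ |(k : ℝ)| := by exact_mod_cast hk
  unfold pst
  split_ifs
  · rw [norm_div, norm_neg, norm_mul, norm_mul, Complex.norm_I, Complex.norm_real,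
      Complex.norm_intCast, Real.norm_eq_abs, abs_of_pos Real.pi_pos]
    rw [div_le_one (by positivity)]
    have h3 := Real.pi_gt_three
    simp
    nlinarith
  · simp

/-- the value of the limit -/
theorem lim_id (k κ p : ℂ) (hp : p ≠ 0) (hk : k ≠ 0) (hk1 : k - 1 ≠ 0) (hk2 : k ^ 2 - 1 ≠ 0)
    (hκ : κ + 1 ≠ 0) (h : κ ^ 2 = k ^ 2) :
    ((κ - 1) * (1 / (2 * p * ((k - 1) * Complex.I))) * (1 / (k * Complex.I))) * p -
      (-(Complex.I * p) * ((κ - 1) * (1 / (2 * p * ((k - 1) * Complex.I)))) -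
        p * ((κ - 1) * (1 / (2 * p * ((k - 1) * Complex.I))) * (1 / (k * Complex.I)))) /
        (k ^ 2 - 1) = -(1 / (2 * (κ + 1))) := by
  have hI : Complex.I * Complex.I = -1 := Complex.I_mul_I
  have hI0 : Complex.I ≠ 0 := Complex.I_ne_zero
  have e1 : (κ - 1) * (1 / (2 * p * ((k - 1) * Complex.I))) * (1 / (k * Complex.I)) =
      -((κ - 1) / (2 * p * k * (k - 1))) := by
    have : (κ - 1) * (1 / (2 * p * ((k - 1) * Complex.I))) * (1 / (k * Complex.I)) =
        (κ - 1) / (2 * p * k * (k - 1) * (Complex.I * Complex.I)) := by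
      field_simp
    rw [this, hI, mul_neg, mul_one, div_neg]
  have e2 : -(Complex.I * p) * ((κ - 1) * (1 / (2 * p * ((k - 1) * Complex.I)))) =
      -((κ - 1) / (2 * (k - 1))) := by
    field_simp
  rw [e1, e2]
  have e3 : (κ - 1) * (κ + 1) = k ^ 2 - 1 := by linear_combination h
  have e4 : -((κ - 1) / (2 * p * k * (k - 1))) * p - (-((κ - 1) / (2 * (k - 1))) -
      p * -((κ - 1) / (2 * p * k * (k - 1)))) / (k ^ 2 - 1) = -((κ - 1) / (2 * (k ^ 2 - 1))) := by
    field_simp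
    ring
  rw [e4]
  have hκ1 : κ - 1 ≠ 0 := by
    intro h0
    rw [h0, zero_mul] at e3
    exact hk2 e3.symm
  rw [← e3]
  field_simp

/-- the factor `a` -/
noncomputable def fa (k : ℤ) (n : ℕ) : ℂ := ((kap n k - 1 + 1 / n : ℝ) : ℂ)

/-- the factor `q` -/
noncomputable def fq (k : ℤ) (n : ℕ) : ℂ := ee (k - 1) n / (2 * π * zz (k - 1) n)

/-- `A` -/
noncomputable def fA (k : ℤ) (n : ℕ) : ℂ := fa k n * fq k n * (1 / zz k n)

/-- `B` -/
noncomputable def fB (k : ℤ) (n : ℕ) : ℂ := -(Complex.I * π) * (fa k n * fq k n)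

theorem tend_fa (k : ℤ) : Tendsto (fa k) atTop (𝓝 ((|(k : ℝ)| : ℝ) - 1 : ℂ)) := by
  have h1 : Tendsto (fun n : ℕ => kap n k - 1 + 1 / (n : ℝ)) atTop (𝓝 (|(k : ℝ)| - 1 + 0)) :=
    ((tend_kap k).sub_const 1).add tend_inv
  have h2 := (Complex.continuous_ofReal.tendsto _).comp h1
  have e : (((|(k : ℝ)| - 1 + 0 : ℝ)) : ℂ) = ((|(k : ℝ)| : ℝ) : ℂ) - 1 := by
    push_cast; ring
  rw [e] at h2
  exact h2

theorem tend_fq {k : ℤ} (hk : k - 1 ≠ 0) :
    Tendsto (fq k) atTop (𝓝 (1 / (2 * π * (((k : ℂ) - 1) * Complex.I)))) := by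
  have hpi : (π : ℂ) ≠ 0 := by exact_mod_cast Real.pi_ne_zero
  have h0 : (((k - 1 : ℤ) : ℂ)) ≠ 0 := by exact_mod_cast hk
  have h1 := (tend_ee (k - 1)).div ((tend_zz (k - 1)).const_mul (2 * π : ℂ))
    (mul_ne_zero (mul_ne_zero two_ne_zero hpi) (mul_ne_zero h0 Complex.I_ne_zero))
  have e : (((k - 1 : ℤ) : ℂ)) = (k : ℂ) - 1 := by push_cast; ring
  rw [e] at h1
  exact h1

theorem tend_fb {k : ℤ} (hk : k ≠ 0) :
    Tendsto (fun n => 1 / zz k n) atTop (𝓝 (1 / ((k : ℂ) * Complex.I))) := by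
  have h0 : ((k : ℂ)) ≠ 0 := by exact_mod_cast hk
  exact (tendsto_const_nhds (x := (1 : ℂ))).div (tend_zz k) (mul_ne_zero h0 Complex.I_ne_zero)

/-- the first part for one configuration, algebra -/
theorem bk_eq (hD : Stmt_DFTS) {N : ℕ} (hN : 1 ≤ N) (c : Cfg (2 * N)) {k : ℤ} (hodd : Odd k)
    (hz : zz k (2 * N) ≠ 0) (hz1 : zz (k - 1) (2 * N) ≠ 0) :
    bk N c k = (2 * N : ℕ) * (fA k (2 * N) * dr (2 * N) c.DR k +
      fB k (2 * N) * dr (2 * N) (uu N c) k) := by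
  have hn : (((2 * N : ℕ) : ℝ) : ℂ) ≠ 0 := by
    have : ((2 * N : ℕ) : ℝ) ≠ 0 := by
      have : 2 * N ≠ 0 := by omega
      exact_mod_cast this
    exact_mod_cast this
  have hpi : (π : ℂ) ≠ 0 := by exact_mod_cast Real.pi_ne_zero
  have h1 := dr_DR hD (by omega : 1 ≤ 2 * N) c k
  have h2 := M_ELO.dr_uu hD hN c k hodd
  have h3 : om (2 * N) (k - 1) 1 / (om (2 * N) (k - 1) 1 - 1) = (2 * N : ℕ) * fq k (2 * N) := by
    rw [om_one]
    unfold fq
    have h4 : 2 * π * zz (k - 1) (2 * N) = ((2 * N : ℕ) : ℂ) * (ee (k - 1) (2 * N) - 1) := by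
      unfold zz
      push_cast
      field_simp
    have h5 : ee (k - 1) (2 * N) - 1 ≠ 0 := by
      intro h0
      apply hz1
      unfold zz
      rw [h0, mul_zero]
    rw [h4]
    have hn' : ((2 * N : ℕ) : ℂ) ≠ 0 := by exact_mod_cast hn
    field_simp
  have h4 : ((kap (2 * N) k - 1 + 1 / (2 * N : ℕ) : ℝ) : ℂ) = fa k (2 * N) := rfl
  unfold bk
  rw [h3, h2, h4, h1]
  unfold fA fB
  field_simp

end M_FMODE

open M_FMODE MMODELO Filter Topology in
theorem m_FMODE : Stmt_DRREL → Stmt_DFTS → Stmt_FMODE := by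
  intro hDR hD
  refine ⟨?_, ?_⟩
  · intro K k ε hk2 hk3 hε
    obtain ⟨C, n₁, hC, h1⟩ := hDR K
    have hodd : Odd k := Int.odd_iff.2 hk2
    have hk3' : (3 : ℝ) ≤ |(k : ℝ)| := by exact_mod_cast hk3
    have hk0 : k ≠ 0 := by rintro rfl; simp at hk3
    have hk1 : k - 1 ≠ 0 := by
      intro h
      have : k = 1 := by omega
      rw [this] at hk3; norm_num at hk3
    have hkC : (k : ℂ) ≠ 0 := by exact_mod_cast hk0
    have hkC1 : (k : ℂ) - 1 ≠ 0 := by exact_mod_cast hk1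
    have hpiC : (π : ℂ) ≠ 0 := by exact_mod_cast Real.pi_ne_zero
    have hsqR : (k : ℝ) ^ 2 - 1 ≠ 0 := by
      have : (9 : ℝ) ≤ (k : ℝ) ^ 2 := by rw [← sq_abs]; nlinarith
      linarith
    have hsqC : (k : ℂ) ^ 2 - 1 ≠ 0 := by exact_mod_cast hsqR
    have hκC : ((|(k : ℝ)| : ℝ) : ℂ) + 1 ≠ 0 := by
      have : |(k : ℝ)| + 1 ≠ 0 := by linarith
      exact_mod_cast this
    have hκsq : ((|(k : ℝ)| : ℝ) : ℂ) ^ 2 = (k : ℂ) ^ 2 := by
      have := sq_abs (k : ℝ)
      exact_mod_cast this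
    have tA := ((tend_fa k).mul (tend_fq hk1)).mul (tend_fb hk0)
    have tB := ((tend_fa k).mul (tend_fq hk1)).const_mul (-(Complex.I * π))
    set A : ℂ := (((|(k : ℝ)| : ℝ) : ℂ) - 1) * (1 / (2 * π * (((k : ℂ) - 1) * Complex.I))) *
      (1 / ((k : ℂ) * Complex.I)) with hA
    set B : ℂ := -(Complex.I * π) * ((((|(k : ℝ)| : ℝ) : ℂ) - 1) *
      (1 / (2 * π * (((k : ℂ) - 1) * Complex.I)))) with hB
    have tA' : Tendsto (fA k) atTop (𝓝 A) := tA
    have tB' : Tendsto (fB k) atTop (𝓝 B) := tB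
    have hG := lim_id (k : ℂ) ((|(k : ℝ)| : ℝ) : ℂ) π hpiC hkC hkC1 hsqC hκC hκsq
    rw [← hA, ← hB] at hG
    have tBA : Tendsto (fun n => fB k n - π * fA k n) atTop (𝓝 (B - π * A)) :=
      tB'.sub (tA'.const_mul _)
    have tG : Tendsto (fun n => fA k n * π - (fB k n - π * fA k n) / ((k : ℂ) ^ 2 - 1)) atTop
        (𝓝 (-(1 / (2 * (((|(k : ℝ)| : ℝ) : ℂ) + 1))))) := by
      rw [← hG]
      exact (tA'.mul_const _).sub (tBA.div_const _)
    have tC : Tendsto (fun n : ℕ => (‖A‖ + 1) * Real.sqrt (C / (n : ℝ))) atTop (𝓝 0) := by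
      have h2 : Tendsto (fun n : ℕ => C / (n : ℝ)) atTop (𝓝 0) := tendsto_const_div_atTop_nhds_zero_nat C
      have h3 := ((Real.continuous_sqrt.tendsto 0).comp h2).const_mul (‖A‖ + 1)
      rw [Real.sqrt_zero, mul_zero] at h3
      exact h3
    have v1 : ∀ᶠ n in atTop, ‖fA k n‖ ≤ ‖A‖ + 1 :=
      tA'.norm.eventually (eventually_le_nhds (by linarith))
    have v2 : ∀ᶠ n in atTop, ‖fB k n - π * fA k n‖ ≤ ‖B - π * A‖ + 1 :=
      tBA.norm.eventually (eventually_le_nhds (by linarith))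
    have v3 : ∀ᶠ n in atTop, ‖fA k n * π - (fB k n - π * fA k n) / ((k : ℂ) ^ 2 - 1) -
        (-(1 / (2 * (((|(k : ℝ)| : ℝ) : ℂ) + 1))))‖ ≤ ε / 3 := by
      have h2 := (tG.sub_const (-(1 / (2 * (((|(k : ℝ)| : ℝ) : ℂ) + 1))))).norm
      rw [sub_self, norm_zero] at h2
      exact h2.eventually (eventually_le_nhds (by positivity))
    have v4 : ∀ᶠ n : ℕ in atTop, (‖A‖ + 1) * Real.sqrt (C / (n : ℝ)) ≤ ε / 3 :=
      tC.eventually (eventually_le_nhds (by positivity))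
    have v5 : ∀ᶠ n in atTop, zz k n ≠ 0 :=
      (tend_zz k).eventually (isOpen_ne.mem_nhds (mul_ne_zero hkC Complex.I_ne_zero))
    have v6 : ∀ᶠ n in atTop, zz (k - 1) n ≠ 0 := by
      refine (tend_zz (k - 1)).eventually (isOpen_ne.mem_nhds (mul_ne_zero ?_ Complex.I_ne_zero))
      exact_mod_cast hk1
    obtain ⟨n₀, hn₀⟩ := eventually_atTop.1 (v1.and (v2.and (v3.and (v4.and (v5.and v6)))))
    set D : ℝ := (‖A‖ + 1) * π + (‖B - π * A‖ + 1) with hDdef
    have hDpos : 0 < D := by positivity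
    refine ⟨k.natAbs, n₀ + n₁ + 2, ε / (3 * D), by positivity, ?_⟩
    intro N hN c hc L hL x₀ hMo
    obtain ⟨w1, w2, w3, w4, w5, w6⟩ := hn₀ (2 * N) (by omega)
    have hN1 : 1 ≤ N := by omega
    have hn1 : 1 ≤ 2 * N := by omega
    have hnR : (0 : ℝ) < ((2 * N : ℕ) : ℝ) := by exact_mod_cast hn1
    obtain ⟨-, -, -, g4⟩ := h1 N (by omega) c hc L hL
    have hkM : |k| ≤ ((k.natAbs : ℕ) : ℤ) := (Int.abs_eq_natAbs k).le
    have hp := hMo.hp k hkM hk2
    have hu := hMo.hu k hkM hk2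
    set P : ℂ := Complex.exp (-(k * x₀ : ℝ) * Complex.I) * pst k with hP
    have hPn : ‖P‖ ≤ 1 := by
      rw [hP, norm_mul, ← Complex.ofReal_neg, Complex.norm_exp_ofReal_mul_I, one_mul]
      exact pst_le hk3
    -- the error of `V`
    set e : ℂ := dr (2 * N) (fun j => c.DR j - π * (pp N L j - uu N c j)) k with he
    have hen : ‖e‖ ≤ Real.sqrt (C / ((2 * N : ℕ) : ℝ)) :=
      Real.le_sqrt_of_sq_le ((M_ELO.dr_sq_le hn1 _ _).trans g4)
    have hV : dr (2 * N) c.DR k =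
        (π : ℂ) * (dr (2 * N) (pp N L) k - dr (2 * N) (uu N c) k) + e := by
      have e1 : (fun j => c.DR j - π * (pp N L j - uu N c j)) =
          fun j => 1 * c.DR j + (-π) * (fun i => 1 * pp N L i + (-1) * uu N c i) j := by
        funext j
        ring
      rw [he, e1, M_ELO.dr_lin, M_ELO.dr_lin]
      push_cast
      ring
    set ph := dr (2 * N) (pp N L) k with hph
    set uh := dr (2 * N) (uu N c) k with huh
    have hsq : ((((k : ℝ) ^ 2 - 1 : ℝ)) : ℂ) = (k : ℂ) ^ 2 - 1 := by push_cast; ring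
    rw [hsq] at hu
    rw [bk_eq hD hN1 c hodd w5 w6, hV]
    have hcast : ((|(k : ℝ)| + 1 : ℝ) : ℂ) = ((|(k : ℝ)| : ℝ) : ℂ) + 1 := by push_cast; ring
    rw [hcast]
    have hmain : ((2 * N : ℕ) : ℂ) * (fA k (2 * N) * (π * (ph - uh) + e) + fB k (2 * N) * uh) +
        ((2 * N : ℕ) : ℂ) / 2 * (P / (((|(k : ℝ)| : ℝ) : ℂ) + 1)) =
        ((2 * N : ℕ) : ℂ) * ((fA k (2 * N) * π - (fB k (2 * N) - π * fA k (2 * N)) /
          ((k : ℂ) ^ 2 - 1) - (-(1 / (2 * (((|(k : ℝ)| : ℝ) : ℂ) + 1))))) * P +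
          (fA k (2 * N) * π * (ph - P) + (fB k (2 * N) - π * fA k (2 * N)) *
            (uh + P / ((k : ℂ) ^ 2 - 1)) + fA k (2 * N) * e)) := by
      field_simp
      ring
    rw [hmain, norm_mul, Complex.norm_natCast, mul_comm ε]
    refine mul_le_mul_of_nonneg_left ?_ hnR.le
    have b1 : ‖(fA k (2 * N) * π - (fB k (2 * N) - π * fA k (2 * N)) /
          ((k : ℂ) ^ 2 - 1) - (-(1 / (2 * (((|(k : ℝ)| : ℝ) : ℂ) + 1))))) * P‖ ≤ ε / 3 := by
      rw [norm_mul]
      calc _ ≤ ε / 3 * 1 := mul_le_mul w3 hPn (norm_nonneg _) (by positivity)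
        _ = ε / 3 := mul_one _
    have b2 : ‖fA k (2 * N) * π * (ph - P)‖ ≤ (‖A‖ + 1) * π * (ε / (3 * D)) := by
      rw [norm_mul, norm_mul, Complex.norm_real, Real.norm_eq_abs, abs_of_pos Real.pi_pos]
      exact mul_le_mul (mul_le_mul_of_nonneg_right w1 Real.pi_pos.le) hp (norm_nonneg _)
        (by positivity)
    have b3 : ‖(fB k (2 * N) - π * fA k (2 * N)) * (uh + P / ((k : ℂ) ^ 2 - 1))‖ ≤
        (‖B - π * A‖ + 1) * (ε / (3 * D)) := by
      rw [norm_mul]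
      exact mul_le_mul w2 hu (norm_nonneg _) (by positivity)
    have b4 : ‖fA k (2 * N) * e‖ ≤ ε / 3 := by
      rw [norm_mul]
      exact le_trans (mul_le_mul w1 hen (norm_nonneg _) (by positivity)) w4
    have b5 : (‖A‖ + 1) * π * (ε / (3 * D)) + (‖B - π * A‖ + 1) * (ε / (3 * D)) = ε / 3 := by
      rw [← add_mul, ← hDdef]
      field_simp
    refine (norm_add_le _ _).trans ?_
    refine (add_le_add b1 ((norm_add_le _ _).trans (add_le_add
      ((norm_add_le _ _).trans (add_le_add b2 b3)) b4))).trans ?_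
    linarith
  · intro N c hN
    have hn1 : 1 ≤ 2 * N := by omega
    have hnR : (0 : ℝ) < ((2 * N : ℕ) : ℝ) := by exact_mod_cast hn1
    have hk1 : kap (2 * N) 1 - 1 + 1 / (2 * N : ℕ) = 0 := by
      unfold kap
      rw [Int.cast_one, abs_one]
      ring
    have hkm : kap (2 * N) (-1) - 1 + 1 / (2 * N : ℕ) = 0 := by
      unfold kap
      rw [Int.cast_neg, Int.cast_one, abs_neg, abs_one]
      ring
    refine ⟨?_, hk1, ?_⟩
    · unfold bk
      rw [hkm]
      simp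
    · intro k hk3 hkN
      have hk3' : (3 : ℝ) ≤ |(k : ℝ)| := by exact_mod_cast hk3
      have hkN' : |(k : ℝ)| ≤ N := by exact_mod_cast hkN
      have hn2 : ((2 * N : ℕ) : ℝ) = 2 * N := by push_cast; ring
      set κ := |(k : ℝ)| with hκ
      have c1 : |(((k - 1 : ℤ)) : ℝ)| ≤ κ + 1 := by
        push_cast
        have := abs_sub (k : ℝ) 1
        rw [abs_one] at this
        exact this
      have c2 : κ - 1 ≤ |(((k - 1 : ℤ)) : ℝ)| := by
        push_cast
        have := abs_sub_abs_le_abs_sub (k : ℝ) 1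
        rw [abs_one] at this
        exact this
      have hlow := low hn1 (k - 1) (κ - 1) c2 (by rw [hn2]; linarith) (by linarith)
      have hkap0 : 0 ≤ kap (2 * N) k - 1 + 1 / (2 * N : ℕ) := by
        have e1 : kap (2 * N) k - 1 + 1 / (2 * N : ℕ) =
            (κ - 1) * (1 - (κ + 1) / (2 * N : ℕ)) := by
          unfold kap
          rw [← hκ]
          field_simp
          ring
        rw [e1]
        apply mul_nonneg (by linarith)
        rw [sub_nonneg, div_le_one hnR, hn2]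
        have : (1 : ℝ) ≤ N := by exact_mod_cast hN
        linarith
      have hkap1 : kap (2 * N) k - 1 + 1 / (2 * N : ℕ) ≤ κ - 1 := by
        have e1 : kap (2 * N) k - 1 + 1 / (2 * N : ℕ) =
            (κ - 1) - (κ - 1) * (κ + 1) / (2 * N : ℕ) := by
          unfold kap
          rw [← hκ]
          field_simp
          ring
        rw [e1]
        have : 0 ≤ (κ - 1) * (κ + 1) / (2 * N : ℕ) := by
          apply div_nonneg _ hnR.le
          nlinarith
        linarith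
      have hω : ‖om (2 * N) (k - 1) 1 / (om (2 * N) (k - 1) 1 - 1)‖ ≤
          ((2 * N : ℕ) : ℝ) / (4 * (κ - 1)) := by
        rw [om_one, norm_div, ee_norm]
        rw [div_le_div_iff₀ (lt_of_lt_of_le (by
          apply div_pos (by linarith) hnR) hlow) (by linarith)]
        rw [div_le_iff₀ hnR] at hlow
        linarith
      unfold bk
      rw [norm_mul, norm_mul, Complex.norm_real, Real.norm_eq_abs, abs_of_nonneg hkap0]
      set z := ‖dr (2 * N) c.R k + Complex.I * dr (2 * N) c.Φ k‖ with hz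
      have hz0 : 0 ≤ z := norm_nonneg _
      calc (kap (2 * N) k - 1 + 1 / (2 * N : ℕ)) * z *
            ‖om (2 * N) (k - 1) 1 / (om (2 * N) (k - 1) 1 - 1)‖
          ≤ (κ - 1) * z * (((2 * N : ℕ) : ℝ) / (4 * (κ - 1))) := by
            apply mul_le_mul (mul_le_mul_of_nonneg_right hkap1 hz0) hω (norm_nonneg _)
            apply mul_nonneg (by linarith) hz0
        _ = ((2 * N : ℕ) : ℝ) * z / 4 := by
            have : κ - 1 ≠ 0 := by linarith
            field_simp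
        _ ≤ ((2 * N : ℕ) : ℝ) * z := by
            have := mul_nonneg hnR.le hz0
            linarith

end Pool.Agent.EHP
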