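import Pool.Agent.EHP.Stmts6

/-!
# Module FORCE: the force on nearly antipodal arcs   (helper76)
-/


open Finset
open scoped Real ComplexConjugate

namespace Pool.Agent.EHP

namespace MFORCE

theorem om_add (n : ℕ) (k l a : ℤ) : om n (k + l) a = om n k a * om n l a := by
  unfold om
  rw [← Complex.exp_add]
  congr 1
  push_cast
  ring

theorem om_norm (n : ℕ) (k a : ℤ) : ‖om n k a‖ = 1 := by
  unfold om
  exact Complex.norm_exp_ofReal_mul_I _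

theorem om_per {n : ℕ} (hn : 0 < n) (k a : ℤ) : om n k (a + n) = om n k a := by
  unfold om
  have h0 : (n : ℂ) ≠ 0 := by exact_mod_cast hn.ne'
  have e : ((2 * π * k * ((a + n : ℤ) : ℝ) / n : ℝ) : ℂ) * Complex.I =
      ((2 * π * k * a / n : ℝ) : ℂ) * Complex.I + k * (2 * π * Complex.I) := by
    push_cast
    field_simp
  rw [e, Complex.exp_add, Complex.exp_int_mul_two_pi_mul_I, mul_one]

theorem om_exp (n : ℕ) (k v : ℤ) :
    om n (k - 1) v = om n (-1) v * Complex.exp ((k * (2 * π * v / n) : ℝ) * Complex.I) := by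
  have e : k - 1 = -1 + k := by ring
  rw [e, om_add]
  congr 1
  unfold om
  congr 2
  push_cast
  ring

/-- sum over a period of consecutive indices -/
theorem sum_Ioc_per {M : Type*} [AddCommGroup M] {n : ℕ} {f : ℤ → M} (hf : ∀ j, f (j + n) = f j)
    (a : ℤ) : ∑ j ∈ Ioc a (a + n), f j = ∑ j ∈ range n, f (j : ℤ) := by
  rw [← sum_shift hf (a + 1)]
  refine Finset.sum_nbij' (fun j => (j - (a + 1)).toNat) (fun i => (i : ℤ) + (a + 1)) ?_ ?_ ?_ ?_ ?_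
  · intro j hj
    rw [Finset.mem_Ioc] at hj
    rw [Finset.mem_range]
    omega
  · intro i hi
    rw [Finset.mem_range] at hi
    rw [Finset.mem_Ioc]
    omega
  · intro j hj
    rw [Finset.mem_Ioc] at hj
    show ((j - (a + 1)).toNat : ℤ) + (a + 1) = j
    omega
  · intro i hi
    show ((i : ℤ) + (a + 1) - (a + 1)).toNat = i
    omega
  · intro j hj
    rw [Finset.mem_Ioc] at hj
    congr 1
    omega

theorem sum_Ioc_le {n : ℕ} {f : ℤ → ℝ} (hf : ∀ j, f (j + n) = f j) (h0 : ∀ j, 0 ≤ f j)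
    {a b : ℤ} (hb : b ≤ a + n) : ∑ j ∈ Ioc a b, f j ≤ ∑ j ∈ range n, f (j : ℤ) := by
  rw [← sum_Ioc_per hf a]
  refine Finset.sum_le_sum_of_subset_of_nonneg ?_ fun j _ _ => h0 j
  exact Finset.Ioc_subset_Ioc_right hb

/-! ### weighted sums -/

theorem wsum_a {N : ℕ} {t : ℤ → ℝ} (ht : ∀ k, 0 ≤ t k) {D D' : ℝ}
    (hD : ∑ k ∈ Ioc (-(N : ℤ)) N, (k : ℝ) ^ 2 * t k ^ 2 ≤ D) (h0 : t 0 ≤ D') :
    ∑ k ∈ Ioc (-(N : ℤ)) N, (|(k : ℝ)| + 1) * t k ≤ 2 * (Real.sqrt (2 * N : ℕ) * Real.sqrt D) + D' := by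
  have h1 : ∑ k ∈ Ioc (-(N : ℤ)) N, |(k : ℝ)| * t k ≤ Real.sqrt (2 * N : ℕ) * Real.sqrt D := by
    rw [← Real.sqrt_mul (by positivity)]
    apply Real.le_sqrt_of_sq_le
    have h2 := sq_sum_le_card_mul_sum_sq (s := Ioc (-(N : ℤ)) N) (f := fun k : ℤ => |(k : ℝ)| * t k)
    have h3 : ((#(Ioc (-(N : ℤ)) N) : ℕ) : ℝ) = ((2 * N : ℕ) : ℝ) := by
      rw [Int.card_Ioc]
      congr 1
      omega
    rw [h3] at h2
    have h4 : ∑ k ∈ Ioc (-(N : ℤ)) N, (|(k : ℝ)| * t k) ^ 2 =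
        ∑ k ∈ Ioc (-(N : ℤ)) N, (k : ℝ) ^ 2 * t k ^ 2 := by
      refine Finset.sum_congr rfl fun k _ => ?_
      rw [mul_pow, sq_abs]
    rw [h4] at h2
    exact h2.trans (mul_le_mul_of_nonneg_left hD (by positivity))
  have h2 : ∀ k ∈ Ioc (-(N : ℤ)) N, (|(k : ℝ)| + 1) * t k ≤
      2 * (|(k : ℝ)| * t k) + (if k = 0 then t 0 else 0) := by
    intro k _
    by_cases hk : k = 0
    · rw [if_pos hk, hk]
      simp
    · rw [if_neg hk, add_zero]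
      have h3 : (1 : ℝ) ≤ |(k : ℝ)| := by
        have h4 : (1 : ℤ) ≤ |k| := Int.one_le_abs hk
        have h5 : ((1 : ℤ) : ℝ) ≤ ((|k| : ℤ) : ℝ) := by exact_mod_cast h4
        simpa using h5
      nlinarith [ht k, mul_nonneg (sub_nonneg.2 h3) (ht k)]
  refine (Finset.sum_le_sum h2).trans ?_
  rw [Finset.sum_add_distrib, ← Finset.mul_sum, Finset.sum_ite_eq']
  have h3 : (if (0 : ℤ) ∈ Ioc (-(N : ℤ)) N then t 0 else 0) ≤ D' := by
    split_ifs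
    · exact h0
    · exact (ht 0).trans h0
  linarith

theorem inv_sq_sum {N M : ℕ} (hM : 0 < M) :
    ∑ k ∈ (Ioc (-(N : ℤ)) N).filter (fun k => (M : ℤ) < |k|), ((k : ℝ) ^ 2)⁻¹ ≤ 2 / M := by
  classical
  by_cases hMN : M ≤ N
  · have hsub : (Ioc (-(N : ℤ)) N).filter (fun k => (M : ℤ) < |k|) ⊆
        (Ioc M N).image (fun j : ℕ => (j : ℤ)) ∪ (Ioc M N).image (fun j : ℕ => -(j : ℤ)) := by
      intro k hk
      rw [Finset.mem_filter, Finset.mem_Ioc] at hk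
      rw [Finset.mem_union, Finset.mem_image, Finset.mem_image]
      rcases le_or_gt 0 k with h | h
      · left
        refine ⟨k.toNat, ?_, by omega⟩
        rw [abs_of_nonneg h] at hk
        rw [Finset.mem_Ioc]
        omega
      · right
        refine ⟨(-k).toNat, ?_, by omega⟩
        rw [abs_of_neg h] at hk
        rw [Finset.mem_Ioc]
        omega
    have h1 : ∑ k ∈ (Ioc M N).image (fun j : ℕ => (j : ℤ)), ((k : ℝ) ^ 2)⁻¹ ≤ 1 / M := by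
      rw [Finset.sum_image (fun a _ b _ h => by exact_mod_cast h)]
      have h2 := sum_Ioc_inv_sq_le_sub (α := ℝ) hM.ne' hMN
      have h3 : (0 : ℝ) ≤ ((N : ℝ))⁻¹ := by positivity
      simp only [Int.cast_natCast]
      rw [one_div]
      linarith
    have h1' : ∑ k ∈ (Ioc M N).image (fun j : ℕ => -(j : ℤ)), ((k : ℝ) ^ 2)⁻¹ ≤ 1 / M := by
      rw [Finset.sum_image (fun a _ b _ h => by
        have h' : -(a : ℤ) = -(b : ℤ) := h
        omega)]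
      have h2 := sum_Ioc_inv_sq_le_sub (α := ℝ) hM.ne' hMN
      have h3 : (0 : ℝ) ≤ ((N : ℝ))⁻¹ := by positivity
      simp only [Int.cast_neg, Int.cast_natCast, neg_sq]
      rw [one_div]
      linarith
    calc ∑ k ∈ (Ioc (-(N : ℤ)) N).filter (fun k => (M : ℤ) < |k|), ((k : ℝ) ^ 2)⁻¹
        ≤ ∑ k ∈ (Ioc M N).image (fun j : ℕ => (j : ℤ)) ∪ (Ioc M N).image (fun j : ℕ => -(j : ℤ)),
            ((k : ℝ) ^ 2)⁻¹ := Finset.sum_le_sum_of_subset_of_nonneg hsub fun k _ _ => by positivity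
      _ ≤ ∑ k ∈ (Ioc M N).image (fun j : ℕ => (j : ℤ)) ∪ (Ioc M N).image (fun j : ℕ => -(j : ℤ)),
            ((k : ℝ) ^ 2)⁻¹ + ∑ k ∈ (Ioc M N).image (fun j : ℕ => (j : ℤ)) ∩
              (Ioc M N).image (fun j : ℕ => -(j : ℤ)), ((k : ℝ) ^ 2)⁻¹ :=
          le_add_of_nonneg_right (Finset.sum_nonneg fun k _ => by positivity)
      _ = _ := Finset.sum_union_inter
      _ ≤ 1 / M + 1 / M := add_le_add h1 h1'
      _ = 2 / M := by ring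
  · rw [Finset.sum_eq_zero]
    · positivity
    · intro k hk
      rw [Finset.mem_filter, Finset.mem_Ioc] at hk
      exfalso
      have h1 : |k| ≤ N := abs_le.2 ⟨by omega, hk.1.2⟩
      omega

theorem wsum_b {N M : ℕ} (hM : 0 < M) {t : ℤ → ℝ} {D : ℝ} 
    (hD : ∑ k ∈ Ioc (-(N : ℤ)) N, (k : ℝ) ^ 2 * t k ^ 2 ≤ D) :
    ∑ k ∈ (Ioc (-(N : ℤ)) N).filter (fun k => (M : ℤ) < |k|), t k ≤ Real.sqrt (2 / M * D) := by
  apply Real.le_sqrt_of_sq_le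
  have h1 := Finset.sum_mul_sq_le_sq_mul_sq ((Ioc (-(N : ℤ)) N).filter (fun k => (M : ℤ) < |k|))
    (fun k : ℤ => ((k : ℝ))⁻¹) (fun k : ℤ => (k : ℝ) * t k)
  have h2 : ∑ k ∈ (Ioc (-(N : ℤ)) N).filter (fun k => (M : ℤ) < |k|), ((k : ℝ))⁻¹ * ((k : ℝ) * t k) =
      ∑ k ∈ (Ioc (-(N : ℤ)) N).filter (fun k => (M : ℤ) < |k|), t k := by
    refine Finset.sum_congr rfl fun k hk => ?_
    rw [Finset.mem_filter] at hk
    have h3 : (k : ℝ) ≠ 0 := by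
      intro h
      have h4 : k = 0 := by exact_mod_cast h
      rw [h4, abs_zero] at hk
      omega
    field_simp
  rw [h2] at h1
  refine h1.trans ?_
  have h3 : ∑ k ∈ (Ioc (-(N : ℤ)) N).filter (fun k => (M : ℤ) < |k|), ((k : ℝ))⁻¹ ^ 2 ≤ 2 / M := by
    simp only [inv_pow]
    exact inv_sq_sum hM
  have h4 : ∑ k ∈ (Ioc (-(N : ℤ)) N).filter (fun k => (M : ℤ) < |k|), ((k : ℝ) * t k) ^ 2 ≤ D := by
    refine le_trans ?_ hD
    simp only [mul_pow]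
    exact Finset.sum_le_sum_of_subset_of_nonneg (Finset.filter_subset _ _) fun k _ _ => by positivity
  exact mul_le_mul h3 h4 (Finset.sum_nonneg fun k _ => sq_nonneg _) (by positivity)

/-! ### the linearised force on two arcs -/

/-- the factor of the mode `k` -/
noncomputable def cf (N : ℕ) (k : ℤ) : ℂ := ((kap (2 * N) k - 1 + 1 / (2 * N : ℕ) : ℝ) : ℂ)

/-- the Fourier coefficient of `ζ` -/
noncomputable def ze (N : ℕ) (c : Cfg (2 * N)) (k : ℤ) : ℂ :=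
  dr (2 * N) c.R k + Complex.I * dr (2 * N) c.Φ k

theorem bk_eq (N : ℕ) (c : Cfg (2 * N)) (k : ℤ) :
    bk N c k = cf N k * ze N c k * (om (2 * N) (k - 1) 1 / (om (2 * N) (k - 1) 1 - 1)) := rfl

theorem fl_eq (N : ℕ) (c : Cfg (2 * N)) (a : ℤ) :
    fl N c a = (((2 * N : ℕ) : ℂ) - 1) / 2 * om (2 * N) (-1) a +
      ∑ k ∈ Ioc (-(N : ℤ)) N, 1 / 2 * (cf N k * ze N c k * om (2 * N) (k - 1) a) := by
  unfold fl
  rw [mul_add]
  congr 1
  · ring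
  · rw [Finset.mul_sum, Finset.mul_sum]
    refine Finset.sum_congr rfl fun k _ => ?_
    have e : k - 1 = -1 + k := by ring
    rw [e, om_add]
    unfold cf ze
    ring

theorem fl_per {N : ℕ} (hN : 0 < N) (c : Cfg (2 * N)) (a : ℤ) :
    fl N c (a + (2 * N : ℕ)) = fl N c a := by
  rw [fl_eq, fl_eq]
  simp only [om_per (show 0 < 2 * N by omega)]

theorem fb_per {n : ℕ} {z : ℤ → ℂ} (hz : ∀ j, z (j + n) = z j) (v : ℤ) :
    fb n z (v + n) = fb n z v := by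
  unfold fb
  refine Finset.sum_congr rfl fun d _ => ?_
  have e : v + n + d = (v + d) + n := by ring
  rw [hz, e, hz]

theorem arcs (N : ℕ) (c : Cfg (2 * N)) (p q r s : ℤ) :
    ∑ a ∈ Ioc p q, fl N c a + ∑ a ∈ Ioc r s, fl N c a =
      (((2 * N : ℕ) : ℂ) - 1) / 2 * AS (2 * N) (-1) p q r s +
        ∑ k ∈ Ioc (-(N : ℤ)) N, 1 / 2 * (cf N k * ze N c k * AS (2 * N) (k - 1) p q r s) := by
  have h : ∀ a b : ℤ, ∑ j ∈ Ioc a b, fl N c j =
      (((2 * N : ℕ) : ℂ) - 1) / 2 * ∑ j ∈ Ioc a b, om (2 * N) (-1) j +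
        ∑ k ∈ Ioc (-(N : ℤ)) N, 1 / 2 * (cf N k * ze N c k * ∑ j ∈ Ioc a b, om (2 * N) (k - 1) j) := by
    intro a b
    simp only [fl_eq]
    rw [Finset.sum_add_distrib, ← Finset.mul_sum, Finset.sum_comm]
    congr 1
    refine Finset.sum_congr rfl fun k _ => ?_
    rw [Finset.mul_sum, Finset.mul_sum]
  rw [h, h]
  unfold AS
  have e : ∀ A B C D x : ℂ, x * A + B + (x * C + D) = x * (A + C) + (B + D) := by
    intros
    ring
  rw [e, ← Finset.sum_add_distrib]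
  congr 1
  refine Finset.sum_congr rfl fun k _ => ?_
  ring

theorem cf_le {N : ℕ} (hN : 0 < N) {k : ℤ} (hk : k ∈ Ioc (-(N : ℤ)) N) :
    ‖cf N k‖ ≤ |(k : ℝ)| + 1 := by
  rw [Finset.mem_Ioc] at hk
  unfold cf kap
  rw [Complex.norm_real, Real.norm_eq_abs]
  have hN' : (1 : ℝ) ≤ N := by exact_mod_cast hN
  have hk' : |(k : ℝ)| ≤ N := by
    rw [abs_le]
    have h1 : ((-(N : ℤ) : ℤ) : ℝ) ≤ k := by exact_mod_cast hk.1.le
    have h2 : (k : ℝ) ≤ ((N : ℤ) : ℝ) := by exact_mod_cast hk.2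
    push_cast at h1 h2
    exact ⟨h1, h2⟩
  have hk0 := abs_nonneg (k : ℝ)
  have hn : (((2 * N : ℕ) : ℝ)) = 2 * N := by push_cast; ring
  rw [hn]
  have h1 : 0 ≤ |(k : ℝ)| / (2 * N) := by positivity
  have h2 : |(k : ℝ)| / (2 * N) ≤ 1 := by
    rw [div_le_one (by positivity)]
    linarith
  have h3 : 0 ≤ 1 / (2 * (N : ℝ)) := by positivity
  have h4 : 1 / (2 * (N : ℝ)) ≤ 1 := by
    rw [div_le_one (by positivity)]
    linarith
  have h5 : 0 ≤ |(k : ℝ)| * (1 - |(k : ℝ)| / (2 * N)) := mul_nonneg hk0 (by linarith)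
  have h6 : |(k : ℝ)| * (1 - |(k : ℝ)| / (2 * N)) ≤ |(k : ℝ)| := by
    nlinarith [mul_nonneg hk0 h1]
  rw [abs_le]
  constructor <;> linarith

/-- a mode with its limit value -/
noncomputable def BB (N : ℕ) (c : Cfg (2 * N)) (v v' k : ℤ) : ℂ :=
  if k % 2 = 1 then bk N c k * (om (2 * N) (k - 1) v' - om (2 * N) (k - 1) v) else 0

theorem mode {N : ℕ} (hN : 0 < N) (c : Cfg (2 * N)) (hFA : Stmt_FARC)
    (h1 : kap (2 * N) 1 - 1 + 1 / (2 * N : ℕ) = 0) {v v' m m' : ℤ} (hv : v ≤ v')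
    (hm : v + N + m ≤ v' + N + m') {k : ℤ} (hk : k ∈ Ioc (-(N : ℤ)) N) :
    ‖1 / 2 * (cf N k * ze N c k * AS (2 * N) (k - 1) v v' (v + N + m) (v' + N + m')) -
      BB N c v v' k‖ ≤ (|(k : ℝ)| + 1) * ‖ze N c k‖ * (|(m : ℝ)| + |(m' : ℝ)|) := by
  obtain ⟨f1, f2, -⟩ := hFA N v v' m m' hN hv hm
  have hc := cf_le hN hk
  have hk2 := Finset.mem_Ioc.1 hk
  have hkN : |k - 1| ≤ N := abs_le.2 ⟨by omega, by omega⟩
  have hmm : 0 ≤ |(m : ℝ)| + |(m' : ℝ)| := by positivity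
  have key : ∀ X : ℂ, ‖X‖ ≤ 2 * (|(m : ℝ)| + |(m' : ℝ)|) → ‖1 / 2 * (cf N k * ze N c k * X)‖ ≤
      (|(k : ℝ)| + 1) * ‖ze N c k‖ * (|(m : ℝ)| + |(m' : ℝ)|) := by
    intro X hX
    rw [norm_mul, norm_mul, norm_mul]
    have e : ‖(1 / 2 : ℂ)‖ = 1 / 2 := by norm_num
    rw [e]
    calc 1 / 2 * (‖cf N k‖ * ‖ze N c k‖ * ‖X‖)
        ≤ 1 / 2 * ((|(k : ℝ)| + 1) * ‖ze N c k‖ * (2 * (|(m : ℝ)| + |(m' : ℝ)|))) := by gcongr
      _ = _ := by ring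
  by_cases hodd : k % 2 = 1
  · unfold BB
    rw [if_pos hodd]
    by_cases hk1 : k = 1
    · have h0 : cf N k = 0 := by
        unfold cf
        rw [hk1, h1, Complex.ofReal_zero]
      have h2 := key 0 (by rw [norm_zero]; positivity)
      rw [bk_eq, h0]
      simp only [zero_mul, mul_zero, sub_zero, norm_zero]
      positivity
    · have h2 := key _ (f1 k hodd hk1 hkN)
      refine le_trans (le_of_eq ?_) h2
      congr 1
      rw [bk_eq]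
      ring
  · have hev : k % 2 = 0 := by omega
    unfold BB
    rw [if_neg hodd, sub_zero]
    exact key _ (f2 k hev hkN)

/-- the coefficient of the limit -/
noncomputable def qq (x₀ : ℝ) (k : ℤ) : ℂ :=
  Complex.exp (-(k * x₀ : ℝ) * Complex.I) * pst k / ((|(k : ℝ)| + 1 : ℝ) : ℂ)

/-- the odd integers up to `M` in absolute value -/
noncomputable def FM (M : ℕ) : Finset ℤ := (Finset.Icc (-(M : ℤ)) M).filter (fun k => k % 2 = 1)

theorem card_FM (M : ℕ) : ((#(FM M) : ℕ) : ℝ) ≤ 2 * M + 1 := by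
  have h1 : #(FM M) ≤ #(Finset.Icc (-(M : ℤ)) M) := Finset.card_filter_le _ _
  rw [Int.card_Icc] at h1
  have h2 : #(FM M) ≤ 2 * M + 1 := by omega
  exact_mod_cast h2

theorem om_diff (n : ℕ) (k v v' : ℤ) : ‖om n k v' - om n k v‖ ≤ 2 := by
  refine (norm_sub_le _ _).trans ?_
  rw [om_norm, om_norm]
  norm_num

/-- the limit of the main part -/
theorem ks_part (hKS : Stmt_KSF) (n M : ℕ) (x₀ : ℝ) (v v' : ℤ) :
    ‖∑ k ∈ FM M, (n : ℂ) / 2 * qq x₀ k * (om n (k - 1) v' - om n (k - 1) v) -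
      (n : ℂ) / 2 * (om n (-1) v' * ((ks (2 * π * v' / n - x₀) : ℝ) : ℂ) -
        om n (-1) v * ((ks (2 * π * v / n - x₀) : ℝ) : ℂ))‖ ≤ n * (4 / ((M : ℝ) + 1)) := by
  have h := hKS.2.2 M
  have e : ∀ w : ℤ, ∑ k ∈ FM M, qq x₀ k * om n (k - 1) w = om n (-1) w *
      ∑ k ∈ FM M, qq x₀ k * Complex.exp ((k * (2 * π * w / n) : ℝ) * Complex.I) := by
    intro w
    rw [Finset.mul_sum]
    refine Finset.sum_congr rfl fun k _ => ?_
    rw [om_exp]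
    ring
  have e2 : ∑ k ∈ FM M, (n : ℂ) / 2 * qq x₀ k * (om n (k - 1) v' - om n (k - 1) v) =
      (n : ℂ) / 2 * (∑ k ∈ FM M, qq x₀ k * om n (k - 1) v' - ∑ k ∈ FM M, qq x₀ k * om n (k - 1) v) := by
    rw [← Finset.sum_sub_distrib, Finset.mul_sum]
    refine Finset.sum_congr rfl fun k _ => ?_
    ring
  rw [e2, e, e]
  have b : ∀ w : ℤ, ‖om n (-1) w * (∑ k ∈ FM M, qq x₀ k *
      Complex.exp ((k * (2 * π * w / n) : ℝ) * Complex.I) -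
        ((ks (2 * π * w / n - x₀) : ℝ) : ℂ))‖ ≤ 4 / ((M : ℝ) + 1) := by
    intro w
    rw [norm_mul, om_norm, one_mul]
    exact h (2 * π * w / n) x₀
  have e3 : ∀ a b s t s' t' : ℂ, (n : ℂ) / 2 * (a * s - b * t) - (n : ℂ) / 2 * (a * s' - b * t') =
      (n : ℂ) / 2 * (a * (s - s') - b * (t - t')) := by
    intros
    ring
  rw [e3, norm_mul]
  have hn : ‖(n : ℂ) / 2‖ = n / 2 := by
    rw [norm_div, Complex.norm_natCast]
    norm_num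
  rw [hn]
  calc (n : ℝ) / 2 * _ ≤ (n : ℝ) / 2 * (4 / ((M : ℝ) + 1) + 4 / ((M : ℝ) + 1)) := by
        refine mul_le_mul_of_nonneg_left ?_ (by positivity)
        exact (norm_sub_le _ _).trans (add_le_add (b v') (b v))
    _ = _ := by ring

theorem split {N M : ℕ} (hMN : M < N) (c : Cfg (2 * N)) (v v' : ℤ) :
    ∑ k ∈ Ioc (-(N : ℤ)) N, BB N c v v' k =
      ∑ k ∈ (Ioc (-(N : ℤ)) N).filter (fun k => (M : ℤ) < |k|), BB N c v v' k +
        ∑ k ∈ FM M, bk N c k * (om (2 * N) (k - 1) v' - om (2 * N) (k - 1) v) := by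
  rw [← Finset.sum_filter_add_sum_filter_not (Ioc (-(N : ℤ)) N) (fun k => (M : ℤ) < |k|)]
  congr 1
  unfold BB
  rw [← Finset.sum_filter]
  refine Finset.sum_congr ?_ fun k _ => rfl
  ext k
  unfold FM
  rw [Finset.mem_filter, Finset.mem_filter, Finset.mem_Ioc, Finset.mem_filter, Finset.mem_Icc,
    not_lt, abs_le]
  constructor
  · rintro ⟨⟨-, h⟩, h2⟩
    exact ⟨⟨by omega, by omega⟩, h2⟩
  · rintro ⟨h, h2⟩
    exact ⟨⟨⟨by omega, by omega⟩, by omega, by omega⟩, h2⟩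

theorem tail_le {N M : ℕ} (hM : 2 ≤ M) (c : Cfg (2 * N))
    (hb : ∀ k : ℤ, 3 ≤ |k| → |k| ≤ N → ‖bk N c k‖ ≤
      (2 * N : ℕ) * ‖dr (2 * N) c.R k + Complex.I * dr (2 * N) c.Φ k‖) {D : ℝ}
    (hD : ∑ k ∈ Ioc (-(N : ℤ)) N, (k : ℝ) ^ 2 * ‖ze N c k‖ ^ 2 ≤ D) (v v' : ℤ) :
    ‖∑ k ∈ (Ioc (-(N : ℤ)) N).filter (fun k => (M : ℤ) < |k|), BB N c v v' k‖ ≤
      (2 * N : ℕ) * (2 * Real.sqrt (2 / M * D)) := by
  have h1 : ∀ k ∈ (Ioc (-(N : ℤ)) N).filter (fun k => (M : ℤ) < |k|), ‖BB N c v v' k‖ ≤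
      (2 * N : ℕ) * 2 * ‖ze N c k‖ := by
    intro k hk
    rw [Finset.mem_filter, Finset.mem_Ioc] at hk
    unfold BB
    split_ifs with h
    · rw [norm_mul]
      have h2 := hb k (by omega) (abs_le.2 ⟨by omega, hk.1.2⟩)
      have h3 := om_diff (2 * N) (k - 1) v v'
      calc ‖bk N c k‖ * ‖om (2 * N) (k - 1) v' - om (2 * N) (k - 1) v‖
          ≤ ((2 * N : ℕ) * ‖ze N c k‖) * 2 := mul_le_mul h2 h3 (norm_nonneg _) (by positivity)
        _ = _ := by ring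
    · rw [norm_zero]
      positivity
  refine (norm_sum_le _ _).trans ((Finset.sum_le_sum h1).trans ?_)
  rw [← Finset.mul_sum, mul_assoc]
  have h2 := wsum_b (M := M) (t := fun k => ‖ze N c k‖) (by omega) hD
  exact mul_le_mul_of_nonneg_left (mul_le_mul_of_nonneg_left h2 (by norm_num)) (by positivity)

theorem Mo_mono {N M M₁ : ℕ} {δ δ₁ : ℝ} {c : Cfg (2 * N)} {L : ℤ → ℤ} {x₀ : ℝ}
    (h : Mo N M δ c L x₀) (hM : M₁ ≤ M) (hδ : δ ≤ δ₁) : Mo N M₁ δ₁ c L x₀ :=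
  ⟨h.mean.trans hδ,
    fun k hk ho => (h.hp k (hk.trans (by exact_mod_cast hM)) ho).trans hδ,
    fun k hk ho => (h.hu k (hk.trans (by exact_mod_cast hM)) ho).trans hδ⟩

theorem choose_modes (hFM : Stmt_FMODE) (K : ℝ) {ε : ℝ} (hε : 0 < ε) (S : Finset ℤ) :
    ∃ (M n₀ : ℕ) (δ : ℝ), 0 < δ ∧ ∀ k ∈ S, k % 2 = 1 → 3 ≤ |k| → ∀ N : ℕ, n₀ ≤ 2 * N →
      ∀ c : Cfg (2 * N), Reg (2 * N) K c → ∀ L : ℤ → ℤ, Piw (2 * N) c L →
      ∀ x₀ : ℝ, Mo N M δ c L x₀ →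
        ‖bk N c k + (2 * N : ℕ) / 2 * qq x₀ k‖ ≤ ε * (2 * N : ℕ) := by
  induction S using Finset.induction_on with
  | empty =>
    refine ⟨0, 0, 1, one_pos, fun k hk => ?_⟩
    simp at hk
  | insert a S _ ih =>
    obtain ⟨M₁, n₁, δ₁, hδ₁, h₁⟩ := ih
    by_cases ha : a % 2 = 1 ∧ 3 ≤ |a|
    · obtain ⟨M₂, n₂, δ₂, hδ₂, h₂⟩ := hFM.1 K a ε ha.1 ha.2 hε
      refine ⟨max M₁ M₂, max n₁ n₂, min δ₁ δ₂, lt_min hδ₁ hδ₂, ?_⟩
      intro k hk hk1 hk2 N hN c hc L hL x₀ hMo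
      rw [Finset.mem_insert] at hk
      rcases hk with rfl | hk
      · exact h₂ N ((le_max_right _ _).trans hN) c hc L hL x₀
          (Mo_mono hMo (le_max_right _ _) (min_le_right _ _))
      · exact h₁ k hk hk1 hk2 N ((le_max_left _ _).trans hN) c hc L hL x₀
          (Mo_mono hMo (le_max_left _ _) (min_le_left _ _))
    · refine ⟨M₁, n₁, δ₁, hδ₁, ?_⟩
      intro k hk hk1 hk2
      rw [Finset.mem_insert] at hk
      rcases hk with rfl | hk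
      · exact absurd ⟨hk1, hk2⟩ ha
      · exact h₁ k hk hk1 hk2

theorem qq_one (x₀ : ℝ) : qq x₀ 1 = 0 ∧ qq x₀ (-1) = 0 := by
  unfold qq pst
  constructor <;> norm_num

theorem fin_modes {N M : ℕ} {c : Cfg (2 * N)} {x₀ ε : ℝ} (hε : 0 ≤ ε)
    (h : ∀ k ∈ FM M, 3 ≤ |k| → ‖bk N c k + (2 * N : ℕ) / 2 * qq x₀ k‖ ≤ ε * (2 * N : ℕ))
    (hm : bk N c (-1) = 0) (hp : bk N c 1 = 0) (v v' : ℤ) :
    ‖∑ k ∈ FM M, bk N c k * (om (2 * N) (k - 1) v' - om (2 * N) (k - 1) v) +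
      ∑ k ∈ FM M, ((2 * N : ℕ) : ℂ) / 2 * qq x₀ k *
        (om (2 * N) (k - 1) v' - om (2 * N) (k - 1) v)‖ ≤
      (2 * M + 1) * (2 * ε * (2 * N : ℕ)) := by
  rw [← Finset.sum_add_distrib]
  have h1 : ∀ k ∈ FM M, ‖bk N c k * (om (2 * N) (k - 1) v' - om (2 * N) (k - 1) v) +
      ((2 * N : ℕ) : ℂ) / 2 * qq x₀ k * (om (2 * N) (k - 1) v' - om (2 * N) (k - 1) v)‖ ≤
      2 * ε * (2 * N : ℕ) := by
    intro k hk
    rw [← add_mul, norm_mul]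
    have h2 := om_diff (2 * N) (k - 1) v v'
    have h3 : ‖bk N c k + ((2 * N : ℕ) : ℂ) / 2 * qq x₀ k‖ ≤ ε * (2 * N : ℕ) := by
      by_cases h4 : 3 ≤ |k|
      · exact h k hk h4
      · have h5 : k % 2 = 1 := (Finset.mem_filter.1 hk).2
        have h6 : k = 1 ∨ k = -1 := by
          rw [not_le, abs_lt] at h4
          omega
        rcases h6 with rfl | rfl
        · rw [hp, (qq_one x₀).1, mul_zero, add_zero, norm_zero]
          positivity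
        · rw [hm, (qq_one x₀).2, mul_zero, add_zero, norm_zero]
          positivity
    calc _ ≤ (ε * (2 * N : ℕ)) * 2 := mul_le_mul h3 h2 (norm_nonneg _) (by positivity)
      _ = _ := by ring
  refine (norm_sum_le _ _).trans ((Finset.sum_le_sum h1).trans ?_)
  rw [Finset.sum_const, nsmul_eq_mul]
  exact mul_le_mul_of_nonneg_right (card_FM M) (by positivity)

theorem ze_le (N : ℕ) (c : Cfg (2 * N)) (k : ℤ) :
    ‖ze N c k‖ ≤ ‖dr (2 * N) c.R k‖ + ‖dr (2 * N) c.Φ k‖ := by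
  unfold ze
  refine (norm_add_le _ _).trans (le_of_eq ?_)
  rw [norm_mul, Complex.norm_I, one_mul]

theorem ze_sum {N : ℕ} {c : Cfg (2 * N)} {C : ℝ}
    (h : ∑ k ∈ Ioc (-(N : ℤ)) N,
      (k : ℝ) ^ 2 * (‖dr (2 * N) c.R k‖ ^ 2 + ‖dr (2 * N) c.Φ k‖ ^ 2) ≤ C) :
    ∑ k ∈ Ioc (-(N : ℤ)) N, (k : ℝ) ^ 2 * ‖ze N c k‖ ^ 2 ≤ 2 * C := by
  have h1 : ∀ k ∈ Ioc (-(N : ℤ)) N, (k : ℝ) ^ 2 * ‖ze N c k‖ ^ 2 ≤
      2 * ((k : ℝ) ^ 2 * (‖dr (2 * N) c.R k‖ ^ 2 + ‖dr (2 * N) c.Φ k‖ ^ 2)) := by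
    intro k _
    have h2 := ze_le N c k
    have h3 : ‖ze N c k‖ ^ 2 ≤ 2 * (‖dr (2 * N) c.R k‖ ^ 2 + ‖dr (2 * N) c.Φ k‖ ^ 2) := by
      calc ‖ze N c k‖ ^ 2 ≤ (‖dr (2 * N) c.R k‖ + ‖dr (2 * N) c.Φ k‖) ^ 2 :=
            pow_le_pow_left₀ (norm_nonneg _) h2 2
        _ ≤ _ := by nlinarith [sq_nonneg (‖dr (2 * N) c.R k‖ - ‖dr (2 * N) c.Φ k‖)]
    calc (k : ℝ) ^ 2 * ‖ze N c k‖ ^ 2 ≤
          (k : ℝ) ^ 2 * (2 * (‖dr (2 * N) c.R k‖ ^ 2 + ‖dr (2 * N) c.Φ k‖ ^ 2)) :=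
          mul_le_mul_of_nonneg_left h3 (sq_nonneg _)
      _ = _ := by ring
  refine (Finset.sum_le_sum h1).trans ?_
  rw [← Finset.mul_sum]
  linarith

/-- the term `k = 0` of the exponential sums -/
theorem first_term {n : ℕ} (hn : 1 ≤ n) {A X : ℂ} {m m' E : ℝ} (h : ‖A - X‖ ≤ 2 * π / n * E)
    (hX : ‖X‖ ≤ m + m') :
    ‖((n : ℂ) - 1) / 2 * A - (n : ℂ) / 2 * X‖ ≤ π * E + (m + m') / 2 := by
  have hn' : (1 : ℝ) ≤ n := by exact_mod_cast hn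
  have e : ((n : ℂ) - 1) / 2 * A - (n : ℂ) / 2 * X = ((n : ℂ) - 1) / 2 * (A - X) - 1 / 2 * X := by
    ring
  rw [e]
  refine (norm_sub_le _ _).trans ?_
  rw [norm_mul, norm_mul]
  have h1 : ‖((n : ℂ) - 1) / 2‖ ≤ (n : ℝ) / 2 := by
    have e2 : ((n : ℂ) - 1) / 2 = ((((n : ℝ) - 1) / 2 : ℝ) : ℂ) := by
      push_cast
      ring
    rw [e2, Complex.norm_real, Real.norm_eq_abs, abs_of_nonneg (by linarith)]
    linarith
  have h2 : ‖(1 / 2 : ℂ)‖ = 1 / 2 := by norm_num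
  rw [h2]
  have h3 : ‖((n : ℂ) - 1) / 2‖ * ‖A - X‖ ≤ (n : ℝ) / 2 * (2 * π / n * E) :=
    mul_le_mul h1 h (norm_nonneg _) (by positivity)
  have h4 : (n : ℝ) / 2 * (2 * π / n * E) = π * E := by
    field_simp
  rw [h4] at h3
  linarith

theorem choose_M {D ε : ℝ} (hD : 0 < D) (hε : 0 < ε) :
    ∃ M : ℕ, 2 ≤ M ∧ 2 * Real.sqrt (2 / M * D) ≤ ε / 4 ∧ 4 / ((M : ℝ) + 1) ≤ ε / 4 := by
  refine ⟨2 + ⌈16 / ε⌉₊ + ⌈128 * D / ε ^ 2⌉₊, by omega, ?_, ?_⟩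
  · have h1 := Nat.le_ceil (128 * D / ε ^ 2)
    have h2 : (0 : ℝ) ≤ (⌈16 / ε⌉₊ : ℝ) := Nat.cast_nonneg _
    have h3 : 128 * D / ε ^ 2 ≤ ((2 + ⌈16 / ε⌉₊ + ⌈128 * D / ε ^ 2⌉₊ : ℕ) : ℝ) := by
      push_cast
      linarith
    have h4 : 2 / ((2 + ⌈16 / ε⌉₊ + ⌈128 * D / ε ^ 2⌉₊ : ℕ) : ℝ) * D ≤ (ε / 8) ^ 2 := by
      have h5 : 0 < 128 * D / ε ^ 2 := by positivity
      have h6 : 2 / ((2 + ⌈16 / ε⌉₊ + ⌈128 * D / ε ^ 2⌉₊ : ℕ) : ℝ) ≤ 2 / (128 * D / ε ^ 2) :=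
        div_le_div_of_nonneg_left (by norm_num) h5 h3
      calc _ ≤ 2 / (128 * D / ε ^ 2) * D := mul_le_mul_of_nonneg_right h6 hD.le
        _ = (ε / 8) ^ 2 := by
            field_simp
            ring
    have h5 : Real.sqrt (2 / ((2 + ⌈16 / ε⌉₊ + ⌈128 * D / ε ^ 2⌉₊ : ℕ) : ℝ) * D) ≤ ε / 8 :=
      Real.sqrt_le_iff.2 ⟨by positivity, h4⟩
    linarith
  · have h1 := Nat.le_ceil (16 / ε)
    have h2 : (0 : ℝ) ≤ (⌈128 * D / ε ^ 2⌉₊ : ℝ) := Nat.cast_nonneg _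
    have h3 : 16 / ε ≤ ((2 + ⌈16 / ε⌉₊ + ⌈128 * D / ε ^ 2⌉₊ : ℕ) : ℝ) + 1 := by
      push_cast
      linarith
    have h5 : 0 < 16 / ε := by positivity
    calc _ ≤ 4 / (16 / ε) := div_le_div_of_nonneg_left (by norm_num) h5 h3
      _ = ε / 4 := by
          field_simp
          ring

theorem choose_log {C ε : ℝ} (hC : 0 < C) (hε : 0 < ε) :
    ∃ n₀ : ℕ, ∀ n : ℕ, n₀ ≤ n → 2 * (C * Real.log n) ≤ ε / 4 * n := by
  have h1 := Real.isLittleO_log_id_atTop.def (c := ε / (8 * C)) (by positivity)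
  have h2 := tendsto_natCast_atTop_atTop (R := ℝ) |>.eventually h1
  obtain ⟨n₀, h3⟩ := Filter.eventually_atTop.1 h2
  refine ⟨n₀, fun n hn => ?_⟩
  have h4 := h3 n hn
  simp only [id, Real.norm_eq_abs] at h4
  have h5 : |(n : ℝ)| = n := abs_of_nonneg (Nat.cast_nonneg n)
  rw [h5] at h4
  have h6 := (le_abs_self _).trans h4
  calc 2 * (C * Real.log n) ≤ 2 * (C * (ε / (8 * C) * n)) := by gcongr
    _ = ε / 4 * n := by
        field_simp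
        ring

end MFORCE

open MFORCE in
theorem m_FORCE : Stmt_FBLIN → Stmt_FARC → Stmt_FMODE → Stmt_KSF → Stmt_H1B → Stmt_SLREL →
    Stmt_FORCE := by
  intro hFB hFA hFMo hKS hH hSL K
  obtain ⟨C₁, n₁, hC₁, h₁⟩ := hFB K
  obtain ⟨C₂, n₂, hC₂, h₂⟩ := hH K
  obtain ⟨C₃, n₃, hC₃, h₃⟩ := hSL K
  refine ⟨4 * (C₃ + 1) + 1 + 2 * Real.sqrt (2 * C₂) + 2 * C₂, by positivity, ?_⟩
  intro ε hε
  obtain ⟨M', hM2, hMa, hMb⟩ := choose_M (D := 2 * C₂) (by positivity) hε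
  have hε' : 0 < ε / (8 * (2 * (M' : ℝ) + 1)) := by positivity
  obtain ⟨M, n₄, δ, hδ, h₄⟩ := choose_modes hFMo K hε' (FM M')
  obtain ⟨n₅, h₅⟩ := choose_log hC₁ hε
  refine ⟨M, max (max (max n₁ n₂) (max n₃ n₄)) (max n₅ (2 * M' + 2)), δ, hδ, ?_⟩
  intro N hN c hc L hL x₀ hMo v v' hv hv'
  have g1 : n₁ ≤ 2 * N := (le_max_left _ _).trans ((le_max_left _ _).trans ((le_max_left _ _).trans hN))
  have g2 : n₂ ≤ 2 * N := (le_max_right _ _).trans ((le_max_left _ _).trans ((le_max_left _ _).trans hN))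
  have g3 : n₃ ≤ 2 * N := (le_max_left _ _).trans ((le_max_right _ _).trans ((le_max_left _ _).trans hN))
  have g4 : n₄ ≤ 2 * N := (le_max_right _ _).trans ((le_max_right _ _).trans ((le_max_left _ _).trans hN))
  have g5 : n₅ ≤ 2 * N := (le_max_left _ _).trans ((le_max_right _ _).trans hN)
  have g6 : 2 * M' + 2 ≤ 2 * N := (le_max_right _ _).trans ((le_max_right _ _).trans hN)
  have hN0 : 0 < N := by omega
  have hMN : M' < N := by omega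
  -- the data
  set m : ℤ := mm N L v with hm
  set m' : ℤ := mm N L v' with hm'
  have hLv : L v = v + N + m := by
    rw [hm]
    unfold mm
    ring
  have hLv' : L v' = v' + N + m' := by
    rw [hm']
    unfold mm
    ring
  have hmono : v + N + m ≤ v' + N + m' := by
    rw [← hLv, ← hLv']
    exact hL.piv.mono hv.le
  have hR0 : (1 : ℝ) ≤ ((2 * N : ℕ) : ℝ) := by
    have : 1 ≤ 2 * N := by omega
    exact_mod_cast this
  have hsq : (1 : ℝ) ≤ Real.sqrt ((2 * N : ℕ) : ℝ) := Real.one_le_sqrt.2 hR0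
  have hmb : ∀ w : ℤ, |(mm N L w : ℝ)| ≤ (C₃ + 1) * Real.sqrt ((2 * N : ℕ) : ℝ) := by
    intro w
    have h6 := (h₃ N g3 c hc L hL w).2
    have e : (mm N L w : ℝ) = 1 / 2 - pp N L w := by
      unfold pp mm
      ring
    rw [e]
    have h7 : |1 / 2 - pp N L w| ≤ 1 / 2 + |pp N L w| := by
      refine (abs_sub _ _).trans ?_
      rw [abs_of_pos (by norm_num : (0 : ℝ) < 1 / 2)]
    nlinarith
  have hmm : 0 ≤ |(m : ℝ)| + |(m' : ℝ)| := by positivity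
  -- step 1
  have s1 : ‖(∑ a ∈ Finset.Ioc v v', fb (2 * N) c.z a + ∑ a ∈ Finset.Ioc (L v) (L v'), fb (2 * N) c.z a) -
      (∑ a ∈ Finset.Ioc v v', fl N c a + ∑ a ∈ Finset.Ioc (L v) (L v'), fl N c a)‖ ≤
      ε / 4 * (2 * N : ℕ) := by
    have hper : ∀ j : ℤ, ‖fb (2 * N) c.z (j + (2 * N : ℕ)) - fl N c (j + (2 * N : ℕ))‖ =
        ‖fb (2 * N) c.z j - fl N c j‖ := by
      intro j
      rw [fb_per c.z_add, fl_per hN0]
    have hq := h₁ N g1 c hc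
    have h6 : ∀ a b : ℤ, b ≤ a + (2 * N : ℕ) →
        ‖∑ j ∈ Finset.Ioc a b, (fb (2 * N) c.z j - fl N c j)‖ ≤ C₁ * Real.log (2 * N : ℕ) := by
      intro a b hab
      exact (norm_sum_le _ _).trans ((sum_Ioc_le hper (fun j => norm_nonneg _) hab).trans hq)
    have e : (∑ a ∈ Finset.Ioc v v', fb (2 * N) c.z a + ∑ a ∈ Finset.Ioc (L v) (L v'), fb (2 * N) c.z a) -
      (∑ a ∈ Finset.Ioc v v', fl N c a + ∑ a ∈ Finset.Ioc (L v) (L v'), fl N c a) =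
      ∑ j ∈ Finset.Ioc v v', (fb (2 * N) c.z j - fl N c j) +
        ∑ j ∈ Finset.Ioc (L v) (L v'), (fb (2 * N) c.z j - fl N c j) := by
      rw [Finset.sum_sub_distrib, Finset.sum_sub_distrib]
      ring
    rw [e]
    have h7 := h6 v v' (by push_cast; omega)
    have h8 := h6 (L v) (L v') (by
      rw [← hL.piv.add]
      exact hL.piv.mono (by push_cast; omega))
    have h9 := h₅ (2 * N) g5
    refine (norm_add_le _ _).trans ?_
    linarith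
  -- step 2
  have s2 := arcs N c v v' (L v) (L v')
  rw [hLv, hLv'] at s2
  have hf := hFA N v v' m m' hN0 hv.le hmono
  have s3 : ‖(((2 * N : ℕ) : ℂ) - 1) / 2 * AS (2 * N) (-1) v v' (v + N + m) (v' + N + m') -
      ((2 * N : ℕ) : ℂ) / 2 * ((m : ℂ) * om (2 * N) (-1) v - (m' : ℂ) * om (2 * N) (-1) v')‖ ≤
      (4 * (C₃ + 1) + 1) * Real.sqrt ((2 * N : ℕ) : ℝ) * (|(m : ℝ)| + |(m' : ℝ)|) := by
    have h6 : ‖(m : ℂ) * om (2 * N) (-1) v - (m' : ℂ) * om (2 * N) (-1) v'‖ ≤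
        |(m : ℝ)| + |(m' : ℝ)| := by
      refine (norm_sub_le _ _).trans ?_
      rw [norm_mul, norm_mul, om_norm, om_norm, mul_one, mul_one, Complex.norm_intCast,
        Complex.norm_intCast]
    have h7 := first_term (by omega : 1 ≤ 2 * N) hf.2.2 h6
    refine h7.trans ?_
    have b1 : (m : ℝ) ^ 2 ≤ (C₃ + 1) * Real.sqrt ((2 * N : ℕ) : ℝ) * |(m : ℝ)| := by
      rw [← sq_abs, sq]
      exact mul_le_mul_of_nonneg_right (hmb v) (abs_nonneg _)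
    have b2 : (m' : ℝ) ^ 2 ≤ (C₃ + 1) * Real.sqrt ((2 * N : ℕ) : ℝ) * |(m' : ℝ)| := by
      rw [← sq_abs, sq]
      exact mul_le_mul_of_nonneg_right (hmb v') (abs_nonneg _)
    have b3 : π * ((m : ℝ) ^ 2 + (m' : ℝ) ^ 2) ≤
        4 * ((C₃ + 1) * Real.sqrt ((2 * N : ℕ) : ℝ) * (|(m : ℝ)| + |(m' : ℝ)|)) := by
      have b4 : (m : ℝ) ^ 2 + (m' : ℝ) ^ 2 ≤
          (C₃ + 1) * Real.sqrt ((2 * N : ℕ) : ℝ) * (|(m : ℝ)| + |(m' : ℝ)|) := by
        linarith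
      exact mul_le_mul Real.pi_le_four b4 (by positivity) (by norm_num)
    have b4 : |(m : ℝ)| + |(m' : ℝ)| ≤ Real.sqrt ((2 * N : ℕ) : ℝ) * (|(m : ℝ)| + |(m' : ℝ)|) :=
      le_mul_of_one_le_left hmm hsq
    linarith
  -- step 3
  obtain ⟨-, q1, q2⟩ := h₂ N g2 c hc
  have hD := ze_sum q1
  have hze0 : ‖ze N c 0‖ ≤ 2 * C₂ := by
    have h6 := ze_le N c 0
    have h7 := q2 0
    linarith [h7.1, h7.2]
  obtain ⟨f1, f2, f3⟩ := hFMo.2 N c hN0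
  have s4 : ‖∑ k ∈ Ioc (-(N : ℤ)) N,
      1 / 2 * (cf N k * ze N c k * AS (2 * N) (k - 1) v v' (v + N + m) (v' + N + m')) -
      ∑ k ∈ Ioc (-(N : ℤ)) N, BB N c v v' k‖ ≤
      (2 * Real.sqrt (2 * C₂) + 2 * C₂) * Real.sqrt ((2 * N : ℕ) : ℝ) * (|(m : ℝ)| + |(m' : ℝ)|) := by
    rw [← Finset.sum_sub_distrib]
    refine (norm_sum_le _ _).trans ((Finset.sum_le_sum fun k hk =>
      mode hN0 c hFA f2 hv.le hmono hk).trans ?_)
    rw [← Finset.sum_mul]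
    refine mul_le_mul_of_nonneg_right ?_ hmm
    have h6 := wsum_a (t := fun k => ‖ze N c k‖) (fun k => norm_nonneg _) hD hze0
    refine h6.trans ?_
    have h7 : 2 * C₂ ≤ 2 * C₂ * Real.sqrt ((2 * N : ℕ) : ℝ) :=
      le_mul_of_one_le_right (by positivity) hsq
    linarith
  -- step 4
  have s5 := split hMN c v v'
  have s6 : ‖∑ k ∈ (Ioc (-(N : ℤ)) N).filter (fun k => (M' : ℤ) < |k|), BB N c v v' k‖ ≤
      ε / 4 * (2 * N : ℕ) := by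
    refine (tail_le hM2 c f3 hD v v').trans ?_
    rw [mul_comm]
    exact mul_le_mul_of_nonneg_right hMa (by positivity)
  have s7 : ‖∑ k ∈ FM M', bk N c k * (om (2 * N) (k - 1) v' - om (2 * N) (k - 1) v) +
      ∑ k ∈ FM M', ((2 * N : ℕ) : ℂ) / 2 * qq x₀ k *
        (om (2 * N) (k - 1) v' - om (2 * N) (k - 1) v)‖ ≤ ε / 4 * (2 * N : ℕ) := by
    have hp1 : bk N c 1 = 0 := by
      rw [bk_eq]
      unfold cf
      rw [f2, Complex.ofReal_zero, zero_mul, zero_mul]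
    have h6 := fin_modes hε'.le (fun k hk hk3 => h₄ k hk (Finset.mem_filter.1 hk).2 hk3 N g4 c hc L hL
      x₀ hMo) f1 hp1 v v'
    refine h6.trans (le_of_eq ?_)
    field_simp
    ring
  have s8 : ‖∑ k ∈ FM M', ((2 * N : ℕ) : ℂ) / 2 * qq x₀ k *
        (om (2 * N) (k - 1) v' - om (2 * N) (k - 1) v) -
      ((2 * N : ℕ) : ℂ) / 2 * (om (2 * N) (-1) v' * ((ks (2 * π * v' / (2 * N : ℕ) - x₀) : ℝ) : ℂ) -
        om (2 * N) (-1) v * ((ks (2 * π * v / (2 * N : ℕ) - x₀) : ℝ) : ℂ))‖ ≤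
      ε / 4 * (2 * N : ℕ) := by
    refine (ks_part hKS (2 * N) M' x₀ v v').trans ?_
    rw [mul_comm]
    exact mul_le_mul_of_nonneg_right hMb (by positivity)
  -- sum up
  rw [hLv, hLv'] at s1 ⊢
  generalize ∑ a ∈ Finset.Ioc v v', fb (2 * N) c.z a +
    ∑ a ∈ Finset.Ioc (v + N + m) (v' + N + m'), fb (2 * N) c.z a = X at s1 ⊢
  rw [s2] at s1
  rw [s5] at s4
  generalize (((2 * N : ℕ) : ℂ) - 1) / 2 * AS (2 * N) (-1) v v' (v + N + m) (v' + N + m') = P at s1 s3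
  generalize ∑ k ∈ Ioc (-(N : ℤ)) N,
      1 / 2 * (cf N k * ze N c k * AS (2 * N) (k - 1) v v' (v + N + m) (v' + N + m')) = Q at s1 s4
  generalize ∑ k ∈ (Ioc (-(N : ℤ)) N).filter (fun k => (M' : ℤ) < |k|), BB N c v v' k = R at s4 s6
  generalize ∑ k ∈ FM M', bk N c k * (om (2 * N) (k - 1) v' - om (2 * N) (k - 1) v) = S at s4 s7
  generalize ∑ k ∈ FM M', ((2 * N : ℕ) : ℂ) / 2 * qq x₀ k *
        (om (2 * N) (k - 1) v' - om (2 * N) (k - 1) v) = T at s7 s8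
  have e : X - ((2 * N : ℕ) : ℂ) / 2 *
      (om (2 * N) (-1) v * (((m : ℝ) + ks (2 * π * v / (2 * N : ℕ) - x₀) : ℝ) : ℂ) -
       om (2 * N) (-1) v' * (((m' : ℝ) + ks (2 * π * v' / (2 * N : ℕ) - x₀) : ℝ) : ℂ)) =
      (X - (P + Q)) + (P - ((2 * N : ℕ) : ℂ) / 2 *
        ((m : ℂ) * om (2 * N) (-1) v - (m' : ℂ) * om (2 * N) (-1) v')) + (Q - (R + S)) + R +
      (S + T) - (T - ((2 * N : ℕ) : ℂ) / 2 *
        (om (2 * N) (-1) v' * ((ks (2 * π * v' / (2 * N : ℕ) - x₀) : ℝ) : ℂ) -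
        om (2 * N) (-1) v * ((ks (2 * π * v / (2 * N : ℕ) - x₀) : ℝ) : ℂ))) := by
    rw [Complex.ofReal_add, Complex.ofReal_add, Complex.ofReal_intCast, Complex.ofReal_intCast]
    ring
  rw [e]
  refine (norm_sub_le _ _).trans ?_
  have t1 := norm_add_le ((X - (P + Q)) + (P - ((2 * N : ℕ) : ℂ) / 2 *
        ((m : ℂ) * om (2 * N) (-1) v - (m' : ℂ) * om (2 * N) (-1) v')) + (Q - (R + S)) + R) (S + T)
  have t2 := norm_add_le ((X - (P + Q)) + (P - ((2 * N : ℕ) : ℂ) / 2 *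
        ((m : ℂ) * om (2 * N) (-1) v - (m' : ℂ) * om (2 * N) (-1) v')) + (Q - (R + S))) R
  have t3 := norm_add_le ((X - (P + Q)) + (P - ((2 * N : ℕ) : ℂ) / 2 *
        ((m : ℂ) * om (2 * N) (-1) v - (m' : ℂ) * om (2 * N) (-1) v'))) (Q - (R + S))
  have t4 := norm_add_le (X - (P + Q)) (P - ((2 * N : ℕ) : ℂ) / 2 *
        ((m : ℂ) * om (2 * N) (-1) v - (m' : ℂ) * om (2 * N) (-1) v'))
  linarith

end Pool.Agent.EHP
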