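import Pool.Agent.EHP.Stmts5

/-!
# Module FUB: integration by parts with the primitives of `a` and `b`
-/

open scoped Real Interval

namespace Pool.Agent.EHP

theorem m_FUB : Stmt_WDER → Stmt_WPOS → Stmt_FUB := by
  intro hD hP a b ha hb
  obtain ⟨-, hwg, -⟩ := hD
  obtain ⟨-, hG0, -⟩ := hP
  have hpi := Real.pi_pos
  obtain ⟨c, hcd⟩ : ∃ c : ℝ, c = π / 3 := ⟨_, rfl⟩
  rw [← hcd] at hG0 ⊢
  have hc : 0 < c := by rw [hcd]; positivity
  have hmem : ∀ x ∈ Set.uIcc (0 : ℝ) c, -(π / 3) < x ∧ x < 2 * π / 3 := by
    intro x hx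
    rw [Set.uIcc_of_le hc.le, Set.mem_Icc] at hx
    constructor
    · linarith [hx.1]
    · rw [hcd] at hx
      linarith [hx.2]
  have hww : ContinuousOn ww (Set.uIcc 0 c) := fun x hx =>
    (hwg x (hmem x hx).1 (hmem x hx).2).1.continuousAt.continuousWithinAt
  have hGG : ContinuousOn GG (Set.uIcc 0 c) := fun x hx =>
    (hwg x (hmem x hx).1 (hmem x hx).2).2.continuousAt.continuousWithinAt
  have hB : ∀ x, HasDerivAt (fun x => ∫ s in (0 : ℝ)..x, b s) (b x) x := fun x =>
    (hb.integral_hasStrictDerivAt 0 x).hasDerivAt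
  have hA : ∀ x, HasDerivAt (fun x => ∫ y in (c - x)..c, a y) (a (c - x)) x := by
    intro x
    have h1 : HasDerivAt (fun u => ∫ y in c..u, a y) (a (c - x)) (c - x) :=
      (ha.integral_hasStrictDerivAt c (c - x)).hasDerivAt
    have h2 : HasDerivAt (fun x : ℝ => c - x) (-1) x := by
      simpa using (hasDerivAt_id x).const_sub c
    have h3 := (h1.comp x h2).neg
    have h4 : (fun x => ∫ y in (c - x)..c, a y) = -((fun u => ∫ y in c..u, a y) ∘ fun x => c - x) := by
      funext u
      simp only [Pi.neg_apply, Function.comp_apply]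
      rw [intervalIntegral.integral_symm]
    rw [h4]
    simpa using h3
  have hBc : Continuous fun x => ∫ s in (0 : ℝ)..x, b s :=
    continuous_iff_continuousAt.2 fun x => (hB x).continuousAt
  have hAc : Continuous fun x => ∫ y in (c - x)..c, a y :=
    continuous_iff_continuousAt.2 fun x => (hA x).continuousAt
  have hac : Continuous fun x => a (c - x) := ha.comp (continuous_const.sub continuous_id)
  -- integrability
  have i1 : IntervalIntegrable (fun x => ww x * (x * a x)) MeasureTheory.volume 0 c :=
    (hww.mul (continuous_id.mul ha).continuousOn).intervalIntegrable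
  have i2 : IntervalIntegrable (fun x => ww x * ∫ y in (c - x)..c, a y) MeasureTheory.volume 0 c :=
    (hww.mul hAc.continuousOn).intervalIntegrable
  have i3 : IntervalIntegrable (fun x => ww x * ∫ s in (0 : ℝ)..x, b s) MeasureTheory.volume 0 c :=
    (hww.mul hBc.continuousOn).intervalIntegrable
  have i4 : IntervalIntegrable (fun x => GG x * a (c - x)) MeasureTheory.volume 0 c :=
    (hGG.mul hac.continuousOn).intervalIntegrable
  have i5 : IntervalIntegrable (fun x => GG x * b x) MeasureTheory.volume 0 c :=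
    (hGG.mul hb.continuousOn).intervalIntegrable
  -- integration by parts, twice
  have e2 : ∫ x in (0 : ℝ)..c, ww x * ∫ y in (c - x)..c, a y = ∫ x in (0 : ℝ)..c, GG x * a (c - x) := by
    have h1 := intervalIntegral.integral_eq_sub_of_hasDerivAt
      (f := fun x => GG x * ∫ y in (c - x)..c, a y)
      (f' := fun x => GG x * a (c - x) - ww x * ∫ y in (c - x)..c, a y)
      (fun x hx => by
        refine ((hwg x (hmem x hx).1 (hmem x hx).2).2.mul (hA x)).congr_deriv ?_
        ring) (i4.sub i2)
    rw [intervalIntegral.integral_sub i4 i2] at h1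
    simp only [hG0, sub_zero, intervalIntegral.integral_same, mul_zero, zero_mul, sub_self] at h1
    linarith
  have e3 : ∫ x in (0 : ℝ)..c, ww x * ∫ s in (0 : ℝ)..x, b s = ∫ x in (0 : ℝ)..c, GG x * b x := by
    have h1 := intervalIntegral.integral_eq_sub_of_hasDerivAt
      (f := fun x => GG x * ∫ s in (0 : ℝ)..x, b s)
      (f' := fun x => GG x * b x - ww x * ∫ s in (0 : ℝ)..x, b s)
      (fun x hx => by
        refine ((hwg x (hmem x hx).1 (hmem x hx).2).2.mul (hB x)).congr_deriv ?_
        ring) (i5.sub i3)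
    rw [intervalIntegral.integral_sub i5 i3] at h1
    simp only [hG0, intervalIntegral.integral_same, mul_zero, zero_mul, sub_self] at h1
    linarith
  -- substitution
  have e4 : ∫ x in (0 : ℝ)..c, GG x * a (c - x) = ∫ y in (0 : ℝ)..c, a y * GG (c - y) := by
    have h1 := intervalIntegral.integral_comp_sub_left (a := 0) (b := c)
      (fun y => a y * GG (c - y)) c
    rw [sub_self, sub_zero] at h1
    rw [← h1]
    refine intervalIntegral.integral_congr fun x _ => ?_
    simp only [sub_sub_cancel]
    ring
  have i6 : IntervalIntegrable (fun y => a y * GG (c - y)) MeasureTheory.volume 0 c := by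
    have h1 : ContinuousOn (fun y => GG (c - y)) (Set.uIcc 0 c) := by
      refine hGG.comp (continuous_const.sub continuous_id).continuousOn ?_
      intro y hy
      rw [Set.uIcc_of_le hc.le, Set.mem_Icc] at hy ⊢
      constructor <;> linarith [hy.1, hy.2]
    exact (ha.continuousOn.mul h1).intervalIntegrable
  have i7 : IntervalIntegrable (fun y => a y * (y * ww y)) MeasureTheory.volume 0 c :=
    (ha.continuousOn.mul (continuousOn_id.mul hww)).intervalIntegrable
  have e5 : ∫ x in (0 : ℝ)..c, ww x * (x * a x + (∫ y in (c - x)..c, a y) + ∫ s in (0 : ℝ)..x, b s) =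
      (∫ x in (0 : ℝ)..c, ww x * (x * a x)) + (∫ x in (0 : ℝ)..c, ww x * ∫ y in (c - x)..c, a y) +
        ∫ x in (0 : ℝ)..c, ww x * ∫ s in (0 : ℝ)..x, b s := by
    rw [← intervalIntegral.integral_add i1 i2, ← intervalIntegral.integral_add (i1.add i2) i3]
    refine intervalIntegral.integral_congr fun x _ => ?_
    simp only [mul_add]
  have e6 : ∫ y in (0 : ℝ)..c, a y * (y * ww y + GG (c - y)) =
      (∫ x in (0 : ℝ)..c, ww x * (x * a x)) + ∫ y in (0 : ℝ)..c, a y * GG (c - y) := by
    rw [← intervalIntegral.integral_add i1 i6]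
    refine intervalIntegral.integral_congr fun x _ => ?_
    ring
  rw [e5, e6, e2, e3, e4]
  congr 1
  refine intervalIntegral.integral_congr fun x _ => ?_
  ring

end Pool.Agent.EHP
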