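import Pool.Agent.EHP.Stmts6

/-!
# The graph
-/

open Finset
open scoped Real ComplexConjugate

namespace Pool.Agent.EHP

namespace GRAPH

/-! ### Residues -/

/-- Residue class as an element of `Fin m`. -/
def fm (m : ℕ) (hm : 0 < m) (x : ℤ) : Fin m := ⟨(x % m).toNat, by
  have h1 := Int.emod_nonneg x (show (m : ℤ) ≠ 0 by omega)
  have h2 := Int.emod_lt_of_pos x (show (0 : ℤ) < m by omega)
  omega⟩

theorem fm_val (m : ℕ) (hm : 0 < m) (x : ℤ) : (((fm m hm x).val : ℕ) : ℤ) = x % m := by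
  unfold fm
  have h1 := Int.emod_nonneg x (show (m : ℤ) ≠ 0 by omega)
  show (((x % m).toNat : ℕ) : ℤ) = x % m
  exact Int.toNat_of_nonneg h1

theorem fm_eq (m : ℕ) (hm : 0 < m) (x y : ℤ) : fm m hm x = fm m hm y ↔ (m : ℤ) ∣ x - y := by
  constructor
  · intro h
    have h1 := congrArg (fun a : Fin m => ((a.val : ℕ) : ℤ)) h
    simp only [fm_val] at h1
    exact Int.ModEq.dvd (Int.ModEq.symm h1)
  · intro h
    apply Fin.ext
    have h1 : ((fm m hm x).val : ℤ) = ((fm m hm y).val : ℤ) := by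
      rw [fm_val, fm_val]
      exact Int.emod_eq_emod_iff_emod_sub_eq_zero.2 (Int.emod_eq_zero_of_dvd h)
    exact_mod_cast h1

theorem fm_sub (m : ℕ) (hm : 2 ≤ m) (x y : ℤ) :
    (fm m (by omega) x - fm m (by omega) y).val = 1 ↔ (m : ℤ) ∣ x - y - 1 := by
  have h0 : ((fm m (by omega) x - fm m (by omega) y).val : ℤ) = (x - y) % m := by
    rw [Fin.val_sub]
    have h1 := fm_val m (by omega) x
    have h2 := fm_val m (by omega) y
    have h3 := (fm m (by omega) y).isLt
    push_cast [Nat.cast_sub h3.le]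
    rw [h1, h2]
    have : (m : ℤ) - y % m + x % m = (x % m - y % m) + m := by ring
    rw [this, Int.add_emod_right, ← Int.sub_emod]
  constructor
  · intro h
    have h1 : (x - y) % m = 1 := by
      rw [← h0, h]; rfl
    have h2 := Int.emod_add_mul_ediv (x - y) m
    exact ⟨(x - y) / m, by linarith⟩
  · intro h
    have h1 : (x - y) % m = 1 := by
      obtain ⟨k, hk⟩ := h
      have : x - y = 1 + m * k := by linarith
      rw [this, Int.add_mul_emod_self_left]
      exact Int.emod_eq_of_lt (by norm_num) (by omega)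
    have h2 : ((fm m (by omega) x - fm m (by omega) y).val : ℤ) = ((1 : ℕ) : ℤ) := by
      rw [h0, h1]; rfl
    exact_mod_cast h2

/-! ### The sequence `V` -/

section
variable {N : ℕ} {L V : ℤ → ℤ} (h : Comb N L V)
include h

theorem V_le {i j : ℤ} (hij : i ≤ j) : V i + (j - i) ≤ V j := by
  obtain ⟨k, hk⟩ := Int.eq_ofNat_of_zero_le (show 0 ≤ j - i by omega)
  have key : ∀ k : ℕ, V i + k ≤ V (i + k) := by
    intro k
    induction k with
    | zero => simp
    | succ k ih =>
      have h1 := h.lt (i + k)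
      have h2 : i + ((k + 1 : ℕ) : ℤ) = i + k + 1 := by push_cast; ring
      rw [h2]
      push_cast
      linarith
  have := key k
  rw [← hk, add_sub_cancel] at this
  exact this

theorem V_lt_iff {i j : ℤ} : V i < V j ↔ i < j := by
  constructor
  · intro h1
    by_contra h2
    have := V_le h (not_lt.1 h2)
    linarith [not_lt.1 h2]
  · intro h1
    have := V_le h h1.le
    linarith

theorem V_inj {i j : ℤ} (h1 : V i = V j) : i = j := by
  rcases lt_trichotomy i j with h2 | h2 | h2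
  · exact absurd h1 ((V_lt_iff h).2 h2).ne
  · exact h2
  · exact absurd h1 ((V_lt_iff h).2 h2).ne'

theorem V_add (i t : ℤ) : V (i + 3 * t) = V i + N * t := by
  induction t using Int.induction_on with
  | zero => simp
  | succ k ih =>
    have h1 := h.add (i + 3 * k)
    have h2 : i + 3 * ((k : ℤ) + 1) = i + 3 * k + 3 := by ring
    rw [h2, h1, ih]; ring
  | pred k ih =>
    have h1 := h.add (i + 3 * (-(k : ℤ) - 1))
    have h2 : i + 3 * (-(k : ℤ) - 1) + 3 = i + 3 * -(k : ℤ) := by ring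
    rw [h2, ih] at h1
    linarith

theorem ex_j (v : ℤ) : ∃ j : ℤ, V (2 * j) < v ∧ v ≤ V (2 * j + 2) := by
  obtain ⟨j, hj1, hj2⟩ := Int.exists_greatest_of_bdd (P := fun j => V (2 * j) < v)
    ⟨max 0 (v - V 0), by
      intro z hz
      by_cases h1 : 0 ≤ z
      · have := V_le h (show (0 : ℤ) ≤ 2 * z by omega)
        have : z ≤ v - V 0 := by linarith
        exact le_max_of_le_right this
      · exact le_max_of_le_left (by omega)⟩
    ⟨min 0 (v - V 0 - 1), by
      have h0 : min 0 (v - V 0 - 1) ≤ 0 := min_le_left _ _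
      have h1 : min 0 (v - V 0 - 1) ≤ v - V 0 - 1 := min_le_right _ _
      have := V_le h (show 2 * min 0 (v - V 0 - 1) ≤ 0 by omega)
      linarith⟩
  refine ⟨j, hj1, ?_⟩
  by_contra h1
  have := hj2 (j + 1) (by
    have : 2 * (j + 1) = 2 * j + 2 := by ring
    show V (2 * (j + 1)) < v
    rw [this]
    exact not_le.1 h1)
  omega

/-- The index of the interval `(V (2 j), V (2 j + 2)]` which contains `v`. -/
noncomputable def jj (v : ℤ) : ℤ := Classical.choose (ex_j h v)

theorem jj_spec (v : ℤ) : V (2 * jj h v) < v ∧ v ≤ V (2 * jj h v + 2) :=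
  Classical.choose_spec (ex_j h v)

theorem jj_eq {v j : ℤ} (h1 : V (2 * j) < v) (h2 : v ≤ V (2 * j + 2)) : jj h v = j := by
  have h3 := jj_spec h v
  have h4 := (V_lt_iff h).1 (lt_of_lt_of_le h1 h3.2)
  have h5 := (V_lt_iff h).1 (lt_of_lt_of_le h3.1 h2)
  omega

/-- The numbering. -/
noncomputable def cn (v : ℤ) : ℤ := v - jj h v

theorem cn_eq {v j : ℤ} (h1 : V (2 * j) < v) (h2 : v ≤ V (2 * j + 2)) : cn h v = v - j := by
  unfold cn; rw [jj_eq h h1 h2]

theorem cn_add (v t : ℤ) : cn h (v + 2 * N * t) = cn h v + (2 * N - 3) * t := by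
  have h3 := jj_spec h v
  have e1 : V (2 * (jj h v + 3 * t)) = V (2 * jj h v) + 2 * N * t := by
    have := V_add h (2 * jj h v) (2 * t)
    have e : 2 * (jj h v + 3 * t) = 2 * jj h v + 3 * (2 * t) := by ring
    rw [e, this]; ring
  have e2 : V (2 * (jj h v + 3 * t) + 2) = V (2 * jj h v + 2) + 2 * N * t := by
    have := V_add h (2 * jj h v + 2) (2 * t)
    have e : 2 * (jj h v + 3 * t) + 2 = 2 * jj h v + 2 + 3 * (2 * t) := by ring
    rw [e, this]; ring
  rw [cn_eq h (v := v + 2 * N * t) (j := jj h v + 3 * t) (by rw [e1]; linarith [h3.1])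
    (by rw [e2]; linarith [h3.2])]
  unfold cn
  ring

omit h in
/-- Pendant vertices. -/
def pend (V : ℤ → ℤ) (v : ℤ) : Prop := ∃ j, v = V (2 * j)

theorem pend_add (v t : ℤ) : pend V (v + 2 * N * t) ↔ pend V v := by
  have key : ∀ v t : ℤ, pend V v → pend V (v + 2 * N * t) := by
    rintro v t ⟨j, rfl⟩
    refine ⟨j + 3 * t, ?_⟩
    have := V_add h (2 * j) (2 * t)
    have e : 2 * (j + 3 * t) = 2 * j + 3 * (2 * t) := by ring
    rw [e, this]; ring
  constructor
  · intro h1
    have := key _ (-t) h1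
    have e : v + 2 * N * t + 2 * N * -t = v := by ring
    rwa [e] at this
  · exact key v t

theorem cn_inj {v w : ℤ} (hv : ¬ pend V v) (hw : ¬ pend V w) (e : cn h v = cn h w) : v = w := by
  have key : ∀ v w : ℤ, ¬ pend V v → cn h v = cn h w → ¬ v < w := by
    intro v w hv e hlt
    have h1 := jj_spec h v
    have h2 := jj_spec h w
    unfold cn at e
    have h3 : v < V (2 * jj h v + 2) := by
      rcases lt_or_eq_of_le h1.2 with h4 | h4
      · exact h4
      · exact absurd ⟨jj h v + 1, h4.trans (congrArg V (by ring))⟩ hv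
    by_cases h4 : jj h w ≤ jj h v
    · omega
    · have h5 := V_le h (show 2 * jj h v + 2 ≤ 2 * jj h w by omega)
      omega
  rcases lt_trichotomy v w with h1 | h1 | h1
  · exact absurd h1 (key v w hv e)
  · exact h1
  · exact absurd h1 (key w v hw e.symm)

/-- Injectivity modulo the periods. -/
theorem cn_inj_mod (hN : 4 ≤ N) {v w : ℤ} (hv : ¬ pend V v) (hw : ¬ pend V w)
    (e : (((2 * N - 3 : ℕ) : ℤ)) ∣ 2 * cn h v - 2 * cn h w) : ((2 * N : ℕ) : ℤ) ∣ v - w := by
  have hm : (((2 * N - 3 : ℕ) : ℤ)) = 2 * N - 3 := by omega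
  rw [hm] at e
  have h1 : ((2 * N - 3 : ℤ)) ∣ cn h v - cn h w := by
    have e' : ((2 * N - 3 : ℤ)) ∣ 2 * (cn h v - cn h w) := by
      have : 2 * (cn h v - cn h w) = 2 * cn h v - 2 * cn h w := by ring
      rw [this]; exact e
    have hc : IsCoprime ((2 * N - 3 : ℤ)) 2 := ⟨-1, N - 1, by ring⟩
    exact hc.dvd_of_dvd_mul_left e'
  obtain ⟨t, ht⟩ := h1
  have h2 : cn h v = cn h (w + 2 * N * t) := by
    rw [cn_add]; linarith
  have h3 : ¬ pend V (w + 2 * N * t) := fun hp => hw ((pend_add h w t).1 hp)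
  have h4 := cn_inj h hv h3 h2
  exact ⟨t, by push_cast; linarith⟩

theorem cn_mod (hN : 4 ≤ N) {v w : ℤ} (e : ((2 * N : ℕ) : ℤ) ∣ v - w) :
    (((2 * N - 3 : ℕ) : ℤ)) ∣ 2 * cn h v - 2 * cn h w := by
  have hm : (((2 * N - 3 : ℕ) : ℤ)) = 2 * N - 3 := by omega
  rw [hm]
  obtain ⟨t, ht⟩ := e
  push_cast at ht
  have h1 : v = w + 2 * N * t := by linarith
  rw [h1, cn_add]
  exact ⟨2 * t, by ring⟩

theorem pend_mod {v w : ℤ} (e : ((2 * N : ℕ) : ℤ) ∣ v - w) : pend V v ↔ pend V w := by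
  obtain ⟨t, ht⟩ := e
  push_cast at ht
  have h1 : v = w + 2 * N * t := by linarith
  rw [h1]
  exact pend_add h w t

/-! ### The neighbours -/

theorem L_even {j v : ℤ} (h1 : V (2 * j) ≤ v) (h2 : v < V (2 * j + 1)) : L v = v + N := by
  have := h.val (2 * j) v h1 h2
  simpa using this

theorem L_odd {j v : ℤ} (h1 : V (2 * j + 1) ≤ v) (h2 : v < V (2 * j + 2)) : L v = v + N + 1 := by
  have e : (2 * j + 1 + 1 : ℤ) = 2 * j + 2 := by ring
  have := h.val (2 * j + 1) v h1 (by rw [e]; exact h2)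
  rw [this]
  rw [if_neg (by omega)]

/-- The partner of a pendant vertex. -/
theorem pend_partner {v l : ℤ} (hv : pend V v) (h1 : L (v - 1) ≤ l) (h2 : l ≤ L v) :
    l = v + N := by
  obtain ⟨j, rfl⟩ := hv
  have e1 : (2 * (j - 1) + 2 : ℤ) = 2 * j := by ring
  have e2 := V_lt_iff h (i := 2 * (j - 1) + 1) (j := 2 * j)
  have h3 := e2.2 (by omega)
  have h4 := L_odd h (j := j - 1) (v := V (2 * j) - 1) (by omega) (by rw [e1]; omega)
  have h5 := L_even h (j := j) (v := V (2 * j)) le_rfl ((V_lt_iff h).2 (by omega))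
  omega

theorem np_partner {v l : ℤ} (hv : ¬ pend V v) (h1 : L (v - 1) ≤ l) (h2 : l ≤ L v) :
    (pend V l ∧ l = v + N) ∨ (¬ pend V l ∧ (cn h l = cn h v + N - 1 ∨ cn h l = cn h v + N - 2)) := by
  have hs := jj_spec h v
  set j := jj h v with hj
  have hlt : v < V (2 * j + 2) := by
    rcases lt_or_eq_of_le hs.2 with h4 | h4
    · exact h4
    · exact absurd ⟨j + 1, h4.trans (congrArg V (by ring))⟩ hv
  have hc : cn h v = v - j := cn_eq h hs.1 hs.2
  have a1 : V (2 * j + 3) = V (2 * j) + N := h.add _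
  have a2 : V (2 * j + 4) = V (2 * j + 1) + N := by
    have := h.add (2 * j + 1)
    have e : (2 * j + 1 + 3 : ℤ) = 2 * j + 4 := by ring
    rwa [e] at this
  have a3 : V (2 * j + 5) = V (2 * j + 2) + N := by
    have := h.add (2 * j + 2)
    have e : (2 * j + 2 + 3 : ℤ) = 2 * j + 5 := by ring
    rwa [e] at this
  have o23 : V (2 * j + 2) < V (2 * j + 3) := (V_lt_iff h).2 (by omega)
  have o34 : V (2 * j + 3) < V (2 * j + 4) := (V_lt_iff h).2 (by omega)
  have o45 : V (2 * j + 4) < V (2 * j + 5) := (V_lt_iff h).2 (by omega)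
  have o56 : V (2 * j + 5) < V (2 * j + 6) := (V_lt_iff h).2 (by omega)
  -- not pendant strictly between two even values
  have npd : ∀ (i w : ℤ), V (2 * i) < w → w < V (2 * i + 2) → ¬ pend V w := by
    rintro i w h3 h4 ⟨k, rfl⟩
    have := (V_lt_iff h).1 h3
    have := (V_lt_iff h).1 h4
    omega
  have cA : ∀ w : ℤ, V (2 * j + 2) < w → w < V (2 * j + 4) → ¬ pend V w ∧ cn h w = w - (j + 1) := by
    intro w h3 h4
    have e1 : (2 * (j + 1) : ℤ) = 2 * j + 2 := by ring
    have e2 : (2 * (j + 1) + 2 : ℤ) = 2 * j + 4 := by ring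
    have h3' : V (2 * (j + 1)) < w := by rw [e1]; exact h3
    have h4' : w < V (2 * (j + 1) + 2) := by rw [e2]; exact h4
    exact ⟨npd (j + 1) w h3' h4', cn_eq h h3' h4'.le⟩
  have cB : ∀ w : ℤ, V (2 * j + 4) < w → w < V (2 * j + 6) → ¬ pend V w ∧ cn h w = w - (j + 2) := by
    intro w h3 h4
    have e1 : (2 * (j + 2) : ℤ) = 2 * j + 4 := by ring
    have e2 : (2 * (j + 2) + 2 : ℤ) = 2 * j + 6 := by ring
    have h3' : V (2 * (j + 2)) < w := by rw [e1]; exact h3
    have h4' : w < V (2 * (j + 2) + 2) := by rw [e2]; exact h4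
    exact ⟨npd (j + 2) w h3' h4', cn_eq h h3' h4'.le⟩
  rcases lt_trichotomy v (V (2 * j + 1)) with h3 | h3 | h3
  · -- first half
    have l1 := L_even h (j := j) (v := v) hs.1.le h3
    have l2 := L_even h (j := j) (v := v - 1) (by omega) (by omega)
    right
    have hl : l = v + N ∨ l = v + N - 1 := by omega
    rcases hl with rfl | rfl
    · obtain ⟨p1, p2⟩ := cA (v + N) (by omega) (by omega)
      exact ⟨p1, Or.inl (by omega)⟩
    · obtain ⟨p1, p2⟩ := cA (v + N - 1) (by omega) (by omega)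
      exact ⟨p1, Or.inr (by omega)⟩
  · -- the middle vertex
    have l1 := L_odd h (j := j) (v := v) h3.ge hlt
    have l2 := L_even h (j := j) (v := v - 1) (by omega) (by omega)
    have hl : l = v + N + 1 ∨ l = v + N ∨ l = v + N - 1 := by omega
    rcases hl with rfl | rfl | rfl
    · right
      obtain ⟨p1, p2⟩ := cB (v + N + 1) (by omega) (by omega)
      exact ⟨p1, Or.inl (by omega)⟩
    · left
      refine ⟨⟨j + 2, ?_⟩, rfl⟩
      have e1 : (2 * (j + 2) : ℤ) = 2 * j + 4 := by ring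
      rw [e1, a2, h3]
    · right
      obtain ⟨p1, p2⟩ := cA (v + N - 1) (by omega) (by omega)
      exact ⟨p1, Or.inr (by omega)⟩
  · -- second half
    have l1 := L_odd h (j := j) (v := v) h3.le hlt
    have l2 := L_odd h (j := j) (v := v - 1) (by omega) (by omega)
    right
    have hl : l = v + N + 1 ∨ l = v + N := by omega
    rcases hl with rfl | rfl
    · obtain ⟨p1, p2⟩ := cB (v + N + 1) (by omega) (by omega)
      exact ⟨p1, Or.inl (by omega)⟩
    · obtain ⟨p1, p2⟩ := cB (v + N) (by omega) (by omega)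
      exact ⟨p1, Or.inr (by omega)⟩

/-- The last partner of a vertex which is not pendant. -/
theorem np_last {v : ℤ} (hv : ¬ pend V v) : L (v - 1) ≤ L v ∧ ¬ pend V (L v) ∧
    cn h (L v) = cn h v + N - 1 ∧ v < L v ∧ (4 ≤ N → L v < v + 2 * N) := by
  have hs := jj_spec h v
  set j := jj h v with hj
  have hlt : v < V (2 * j + 2) := by
    rcases lt_or_eq_of_le hs.2 with h4 | h4
    · exact h4
    · exact absurd ⟨j + 1, h4.trans (congrArg V (by ring))⟩ hv
  have hc : cn h v = v - j := cn_eq h hs.1 hs.2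
  have hN0 : V (2 * j) < V (2 * j) + N := by
    have := h.add (2 * j)
    rw [← this]
    exact (V_lt_iff h).2 (by omega)
  have key : L (v - 1) ≤ L v ∧ (L v = v + N ∨ L v = v + N + 1) ∧ (L v = v + N → v < V (2 * j + 1)) := by
    rcases lt_trichotomy v (V (2 * j + 1)) with h3 | h3 | h3
    · have l1 := L_even h (j := j) (v := v) hs.1.le h3
      have l2 := L_even h (j := j) (v := v - 1) (by omega) (by omega)
      exact ⟨by omega, Or.inl l1, fun _ => h3⟩
    · have l1 := L_odd h (j := j) (v := v) h3.ge hlt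
      have l2 := L_even h (j := j) (v := v - 1) (by omega) (by omega)
      exact ⟨by omega, Or.inr l1, fun _ => by omega⟩
    · have l1 := L_odd h (j := j) (v := v) h3.le hlt
      have l2 := L_odd h (j := j) (v := v - 1) (by omega) (by omega)
      exact ⟨by omega, Or.inr l1, fun _ => by omega⟩
  obtain ⟨k1, k2, k3⟩ := key
  have hp := np_partner h hv k1 le_rfl
  have h2N : (4 ≤ N → L v < v + 2 * N) := by
    intro hN; omega
  refine ⟨k1, ?_, ?_, by omega, h2N⟩
  · rcases hp with ⟨hp1, hp2⟩ | ⟨hp1, _⟩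
    · -- `L v = v + N` is not pendant
      exfalso
      have h3 := k3 hp2
      obtain ⟨k, hk⟩ := hp1
      have a1 : V (2 * j + 3) = V (2 * j) + N := h.add _
      have a2 : V (2 * j + 4) = V (2 * j + 1) + N := by
        have := h.add (2 * j + 1)
        have e : (2 * j + 1 + 3 : ℤ) = 2 * j + 4 := by ring
        rwa [e] at this
      have b1 : V (2 * j + 3) < V (2 * k) := by rw [← hk, hp2]; omega
      have b2 : V (2 * k) < V (2 * j + 4) := by rw [← hk, hp2]; omega
      have := (V_lt_iff h).1 b1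
      have := (V_lt_iff h).1 b2
      omega
    · exact hp1
  · -- the value of `c`
    rcases k2 with k2 | k2
    · have h3 := k3 k2
      have a1 : V (2 * j + 3) = V (2 * j) + N := h.add _
      have a2 : V (2 * j + 4) = V (2 * j + 1) + N := by
        have := h.add (2 * j + 1)
        have e : (2 * j + 1 + 3 : ℤ) = 2 * j + 4 := by ring
        rwa [e] at this
      have o23 : V (2 * j + 2) < V (2 * j + 3) := (V_lt_iff h).2 (by omega)
      have e1 : (2 * (j + 1) : ℤ) = 2 * j + 2 := by ring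
      have e2 : (2 * (j + 1) + 2 : ℤ) = 2 * j + 4 := by ring
      rw [cn_eq h (v := L v) (j := j + 1) (by rw [e1, k2]; omega) (by rw [e2, k2]; omega)]
      omega
    · have h3 : V (2 * j + 1) ≤ v := by
        by_contra h4
        have l1 := L_even h (j := j) (v := v) hs.1.le (not_le.1 h4)
        omega
      have a2 : V (2 * j + 4) = V (2 * j + 1) + N := by
        have := h.add (2 * j + 1)
        have e : (2 * j + 1 + 3 : ℤ) = 2 * j + 4 := by ring
        rwa [e] at this
      have a3 : V (2 * j + 5) = V (2 * j + 2) + N := by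
        have := h.add (2 * j + 2)
        have e : (2 * j + 2 + 3 : ℤ) = 2 * j + 5 := by ring
        rwa [e] at this
      have o56 : V (2 * j + 5) < V (2 * j + 6) := (V_lt_iff h).2 (by omega)
      have e1 : (2 * (j + 2) : ℤ) = 2 * j + 4 := by ring
      have e2 : (2 * (j + 2) + 2 : ℤ) = 2 * j + 6 := by ring
      rw [cn_eq h (v := L v) (j := j + 2) (by rw [e1, k2]; omega) (by rw [e2, k2]; omega)]
      omega

end

/-! ### The map -/

section
variable {N : ℕ} {L V : ℤ → ℤ} (h : Comb N L V) (hN : 4 ≤ N)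
include h hN

open Classical in
/-- The isomorphism, on integers. -/
noncomputable def Fz (v : ℤ) : Fin (2 * N - 3) ⊕ Fin 3 :=
  if hv : pend V v then Sum.inr (fm 3 (by norm_num) (Classical.choose hv))
  else Sum.inl (fm (2 * N - 3) (by omega) (2 * cn h v))

theorem Fz_pend (j : ℤ) : Fz h hN (V (2 * j)) = Sum.inr (fm 3 (by norm_num) j) := by
  unfold Fz
  have hp : pend V (V (2 * j)) := ⟨j, rfl⟩
  rw [dif_pos hp]
  congr 2
  have h1 := Classical.choose_spec hp
  have h2 := V_inj h h1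
  omega

theorem Fz_np {v : ℤ} (hv : ¬ pend V v) :
    Fz h hN v = Sum.inl (fm (2 * N - 3) (by omega) (2 * cn h v)) := by
  unfold Fz; rw [dif_neg hv]

theorem Fz_mod {v w : ℤ} (e : ((2 * N : ℕ) : ℤ) ∣ v - w) : Fz h hN v = Fz h hN w := by
  by_cases hv : pend V v
  · obtain ⟨j, rfl⟩ := hv
    obtain ⟨t, ht⟩ := e
    push_cast at ht
    have h1 : w = V (2 * (j - 3 * t)) := by
      have := V_add h (2 * j) (2 * (-t))
      have e : 2 * (j - 3 * t) = 2 * j + 3 * (2 * (-t)) := by ring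
      rw [e, this]; linarith
    rw [h1, Fz_pend, Fz_pend]
    congr 1
    rw [fm_eq]
    exact ⟨t, by push_cast; ring⟩
  · have hw : ¬ pend V w := fun hp => hv ((pend_mod h e).2 hp)
    rw [Fz_np h hN hv, Fz_np h hN hw]
    congr 1
    rw [fm_eq]
    exact cn_mod h hN e

theorem Fz_inj {v w : ℤ} (e : Fz h hN v = Fz h hN w) : ((2 * N : ℕ) : ℤ) ∣ v - w := by
  by_cases hv : pend V v
  · by_cases hw : pend V w
    · obtain ⟨j, rfl⟩ := hv
      obtain ⟨k, rfl⟩ := hw
      rw [Fz_pend, Fz_pend] at e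
      have h1 := Sum.inr.inj e
      rw [fm_eq] at h1
      obtain ⟨t, ht⟩ := h1
      push_cast at ht
      have e2 := V_add h (2 * k) (2 * t)
      have e3 : 2 * k + 3 * (2 * t) = 2 * j := by linarith
      rw [e3] at e2
      exact ⟨t, by rw [e2]; push_cast; ring⟩
    · obtain ⟨j, rfl⟩ := hv
      rw [Fz_pend, Fz_np h hN hw] at e
      exact absurd e (by simp)
  · by_cases hw : pend V w
    · obtain ⟨j, rfl⟩ := hw
      rw [Fz_pend, Fz_np h hN hv] at e
      exact absurd e (by simp)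
    · rw [Fz_np h hN hv, Fz_np h hN hw] at e
      have h1 := Sum.inl.inj e
      rw [fm_eq] at h1
      exact cn_inj_mod h hN hv hw h1

/-- The points where the pendant edges are attached. -/
noncomputable def aa (k : Fin 3) : Fin (2 * N - 3) :=
  fm (2 * N - 3) (by omega) (2 * cn h (V (2 * ((k : ℕ) : ℤ)) + N))

omit hN in
theorem np_pend_add {j : ℤ} : ¬ pend V (V (2 * j) + N) := by
  rintro ⟨k, hk⟩
  rw [← h.add] at hk
  have := V_inj h hk
  omega

theorem Fz_attach (j : ℤ) : Fz h hN (V (2 * j) + N) = Sum.inl (aa h hN (fm 3 (by norm_num) j)) := by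
  rw [Fz_np h hN (np_pend_add h)]
  unfold aa
  congr 1
  rw [fm_eq]
  apply cn_mod h hN
  have h1 := fm_val 3 (by norm_num) j
  rw [h1]
  have h2 := Int.emod_add_mul_ediv j 3
  have h3 := V_add h (2 * (j % 3)) (2 * (j / 3))
  have h4 : 2 * (j % 3) + 3 * (2 * (j / 3)) = 2 * j := by linarith
  rw [h4] at h3
  push_cast
  rw [h3]
  exact ⟨j / 3, by ring⟩

/-- Adjacency of two integers, forward direction. -/
theorem adj_of {v l : ℤ} (h1 : L (v - 1) ≤ l) (h2 : l ≤ L v) :
    (cyclePlus3 (2 * N - 3) (aa h hN)).Adj (Fz h hN v) (Fz h hN l) := by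
  by_cases hv : pend V v
  · have hl := pend_partner h hv h1 h2
    obtain ⟨j, rfl⟩ := hv
    rw [hl, Fz_pend, Fz_attach]
    rfl
  · rcases np_partner h hv h1 h2 with ⟨hp, hl⟩ | ⟨hp, hl⟩
    · obtain ⟨j, rfl⟩ := hp
      have e : ((2 * N : ℕ) : ℤ) ∣ v - (V (2 * j) + N) := by
        rw [hl]; exact ⟨-1, by push_cast; ring⟩
      rw [Fz_mod h hN e, Fz_pend, Fz_attach]
      rfl
    · rw [Fz_np h hN hv, Fz_np h hN hp]
      show (SimpleGraph.cycleGraph (2 * N - 3)).Adj _ _
      have hm : (((2 * N - 3 : ℕ) : ℤ)) = 2 * N - 3 := by omega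
      rw [SimpleGraph.cycleGraph_adj', fm_sub _ (by omega), fm_sub _ (by omega), hm]
      rcases hl with hl | hl
      · right
        rw [hl]
        exact ⟨1, by ring⟩
      · left
        rw [hl]
        exact ⟨-1, by ring⟩

theorem of_adj_aux (G : SimpleGraph (Fin (2 * N)))
    (hG : ∀ i j : Fin (2 * N), G.Adj i j ↔ ∃ v l : ℤ, ((2 * N : ℕ) : ℤ) ∣ v - ((i : ℕ) : ℤ) ∧
      ((2 * N : ℕ) : ℤ) ∣ l - ((j : ℕ) : ℤ) ∧ v < l ∧ l < v + 2 * N ∧ L (v - 1) ≤ l ∧ l ≤ L v)
    (i j : Fin (2 * N)) (hi : ¬ pend V ((i : ℕ) : ℤ)) (hj : ¬ pend V ((j : ℕ) : ℤ))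
    (e : (((2 * N - 3 : ℕ) : ℤ)) ∣ 2 * cn h ((j : ℕ) : ℤ) - 2 * cn h ((i : ℕ) : ℤ) - 1) :
    G.Adj i j := by
  rw [hG]
  obtain ⟨n1, n2, n3, n4, n5⟩ := np_last h hi
  refine ⟨((i : ℕ) : ℤ), L ((i : ℕ) : ℤ), by simp, ?_, n4, n5 hN, n1, le_rfl⟩
  apply cn_inj_mod h hN n2 hj
  rw [n3]
  have hm : (((2 * N - 3 : ℕ) : ℤ)) = 2 * N - 3 := by omega
  rw [hm] at e ⊢
  obtain ⟨t, ht⟩ := e
  exact ⟨1 - t, by linarith⟩

theorem of_adj_pend (G : SimpleGraph (Fin (2 * N)))
    (hG : ∀ i j : Fin (2 * N), G.Adj i j ↔ ∃ v l : ℤ, ((2 * N : ℕ) : ℤ) ∣ v - ((i : ℕ) : ℤ) ∧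
      ((2 * N : ℕ) : ℤ) ∣ l - ((j : ℕ) : ℤ) ∧ v < l ∧ l < v + 2 * N ∧ L (v - 1) ≤ l ∧ l ≤ L v)
    (i j : Fin (2 * N)) (k : ℤ) (hi : ((i : ℕ) : ℤ) = V (2 * k))
    (e : Fz h hN ((j : ℕ) : ℤ) = Sum.inl (aa h hN (fm 3 (by norm_num) k))) :
    G.Adj i j := by
  rw [hG]
  have e1 : (2 * (k - 1) + 2 : ℤ) = 2 * k := by ring
  have h3 := (V_lt_iff h (i := 2 * (k - 1) + 1) (j := 2 * k)).2 (by omega)
  have h4 := L_odd h (j := k - 1) (v := V (2 * k) - 1) (by omega) (by rw [e1]; omega)
  have h5 := L_even h (j := k) (v := V (2 * k)) le_rfl ((V_lt_iff h).2 (by omega))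
  refine ⟨V (2 * k), V (2 * k) + N, ?_, ?_, by omega, by omega, by omega, by omega⟩
  · rw [hi, sub_self]; exact dvd_zero _
  · rw [← Fz_attach h hN k] at e
    exact Fz_inj h hN e.symm

theorem main (G : SimpleGraph (Fin (2 * N)))
    (hG : ∀ i j : Fin (2 * N), G.Adj i j ↔ ∃ v l : ℤ, ((2 * N : ℕ) : ℤ) ∣ v - ((i : ℕ) : ℤ) ∧
      ((2 * N : ℕ) : ℤ) ∣ l - ((j : ℕ) : ℤ) ∧ v < l ∧ l < v + 2 * N ∧ L (v - 1) ≤ l ∧ l ≤ L v) :
    ∃ a : Fin 3 → Fin (2 * N - 3), Nonempty (G ≃g cyclePlus3 (2 * N - 3) a) := by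
  refine ⟨aa h hN, ?_⟩
  let F : Fin (2 * N) → Fin (2 * N - 3) ⊕ Fin 3 := fun i => Fz h hN ((i : ℕ) : ℤ)
  have hinj : Function.Injective F := by
    intro i j e
    have h1 := Fz_inj h hN e
    obtain ⟨t, ht⟩ := h1
    have hi := i.isLt
    have hj := j.isLt
    apply Fin.ext
    have ht0 : t = 0 := by
      by_contra hne
      rcases lt_or_gt_of_ne hne with h2 | h2
      · have : ((2 * N : ℕ) : ℤ) * t ≤ -((2 * N : ℕ) : ℤ) := by nlinarith
        omega
      · have : ((2 * N : ℕ) : ℤ) * t ≥ ((2 * N : ℕ) : ℤ) := by nlinarith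
        omega
    rw [ht0] at ht
    omega
  have hbij : Function.Bijective F := by
    rw [Fintype.bijective_iff_injective_and_card]
    refine ⟨hinj, ?_⟩
    simp only [Fintype.card_fin, Fintype.card_sum]
    omega
  have hadj : ∀ i j : Fin (2 * N),
      (cyclePlus3 (2 * N - 3) (aa h hN)).Adj (F i) (F j) ↔ G.Adj i j := by
    intro i j
    constructor
    · intro e
      by_cases hi : pend V ((i : ℕ) : ℤ)
      · obtain ⟨k, hk⟩ := hi
        have e1 : F i = Sum.inr (fm 3 (by norm_num) k) := by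
          show Fz h hN ((i : ℕ) : ℤ) = _
          rw [hk, Fz_pend]
        rw [e1] at e
        by_cases hj : pend V ((j : ℕ) : ℤ)
        · obtain ⟨k', hk'⟩ := hj
          have e2 : F j = Sum.inr (fm 3 (by norm_num) k') := by
            show Fz h hN ((j : ℕ) : ℤ) = _
            rw [hk', Fz_pend]
          rw [e2] at e
          exact absurd e (fun h => h)
        · have e2 : F j = Sum.inl (fm (2 * N - 3) (by omega) (2 * cn h ((j : ℕ) : ℤ))) :=
            Fz_np h hN hj
          rw [e2] at e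
          have e3 : aa h hN (fm 3 (by norm_num) k) =
            fm (2 * N - 3) (by omega) (2 * cn h ((j : ℕ) : ℤ)) := e
          apply of_adj_pend h hN G hG i j k hk
          rw [e3]
          exact e2
      · have e1 : F i = Sum.inl (fm (2 * N - 3) (by omega) (2 * cn h ((i : ℕ) : ℤ))) :=
          Fz_np h hN hi
        rw [e1] at e
        by_cases hj : pend V ((j : ℕ) : ℤ)
        · obtain ⟨k, hk⟩ := hj
          have e2 : F j = Sum.inr (fm 3 (by norm_num) k) := by
            show Fz h hN ((j : ℕ) : ℤ) = _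
            rw [hk, Fz_pend]
          rw [e2] at e
          have e3 : aa h hN (fm 3 (by norm_num) k) =
            fm (2 * N - 3) (by omega) (2 * cn h ((i : ℕ) : ℤ)) := e
          apply SimpleGraph.Adj.symm
          apply of_adj_pend h hN G hG j i k hk
          rw [e3]
          exact e1
        · have e2 : F j = Sum.inl (fm (2 * N - 3) (by omega) (2 * cn h ((j : ℕ) : ℤ))) :=
            Fz_np h hN hj
          rw [e2] at e
          have e3 : (SimpleGraph.cycleGraph (2 * N - 3)).Adj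
            (fm (2 * N - 3) (by omega) (2 * cn h ((i : ℕ) : ℤ)))
            (fm (2 * N - 3) (by omega) (2 * cn h ((j : ℕ) : ℤ))) := e
          rw [SimpleGraph.cycleGraph_adj', fm_sub _ (by omega), fm_sub _ (by omega)] at e3
          rcases e3 with e3 | e3
          · exact (of_adj_aux h hN G hG j i hj hi e3).symm
          · exact of_adj_aux h hN G hG i j hi hj e3
    · intro e
      rw [hG] at e
      obtain ⟨v, l, hv, hl, _, _, h1, h2⟩ := e
      have h3 := adj_of h hN h1 h2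
      rw [Fz_mod h hN hv, Fz_mod h hN hl] at h3
      exact h3
  exact ⟨{ toEquiv := Equiv.ofBijective F hbij, map_rel_iff' := fun {i j} => hadj i j }⟩

end

end GRAPH

theorem m_GRAPH : Stmt_GRAPH := by
  intro N L V hN h G hG
  exact GRAPH.main h hN G hG

end Pool.Agent.EHP
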