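import Pool.Agent.EHP.Stmts2

/-!
# Comparison of the angular mean and the mean of the squared radial deviation
-/

open Finset
open scoped Real ComplexConjugate

namespace Pool.Agent.EHP

namespace GRHO

/-- the pointwise inequality -/
theorem pw (f e D D' r r' g g' : ℝ) (hf : |f| ≤ e) (hg : 0 < g) (hg1 : g ≤ 1) (hg' : 0 < g')
    (hg1' : g' ≤ 1) (hr : r' = r + (D + D') / 2) :
    f * (r' ^ 2 - r ^ 2) ≤ e * ((g * r ^ 2 + D ^ 2 / g) / 2 + (g' * r' ^ 2 + D' ^ 2 / g') / 2 +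
      (D ^ 2 / g + D' ^ 2 / g') / 4) := by
  have he : 0 ≤ e := (abs_nonneg f).trans hf
  have am : ∀ G R E : ℝ, 0 < G → |E * R| ≤ (G * R ^ 2 + E ^ 2 / G) / 2 := by
    intro G R E hG
    have h1 : 0 ≤ (G * R - E) ^ 2 / G := by positivity
    have h2 : 0 ≤ (G * R + E) ^ 2 / G := by positivity
    have e1 : (G * R - E) ^ 2 / G = G * R ^ 2 + E ^ 2 / G - 2 * (E * R) := by
      field_simp
      ring
    have e2 : (G * R + E) ^ 2 / G = G * R ^ 2 + E ^ 2 / G + 2 * (E * R) := by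
      field_simp
      ring
    rw [abs_le]
    constructor <;> linarith
  have sq : ∀ G E : ℝ, 0 < G → G ≤ 1 → E ^ 2 ≤ E ^ 2 / G := by
    intro G E hG hG1
    rw [le_div_iff₀ hG]
    nlinarith [sq_nonneg E]
  have h1 : r' ^ 2 - r ^ 2 = D * r + D' * r' + (D ^ 2 - D' ^ 2) / 4 := by
    rw [hr]
    ring
  have h2 : |r' ^ 2 - r ^ 2| ≤ (g * r ^ 2 + D ^ 2 / g) / 2 + (g' * r' ^ 2 + D' ^ 2 / g') / 2 +
      (D ^ 2 / g + D' ^ 2 / g') / 4 := by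
    rw [h1]
    have a1 := am g r D hg
    have a2 := am g' r' D' hg'
    have a3 := sq g D hg hg1
    have a4 := sq g' D' hg' hg1'
    have a5 : |(D ^ 2 - D' ^ 2) / 4| ≤ (D ^ 2 / g + D' ^ 2 / g') / 4 := by
      rw [abs_le]
      constructor <;> nlinarith [sq_nonneg D, sq_nonneg D']
    calc |D * r + D' * r' + (D ^ 2 - D' ^ 2) / 4| ≤ |D * r + D' * r'| + |(D ^ 2 - D' ^ 2) / 4| :=
          abs_add_le _ _
      _ ≤ |D * r| + |D' * r'| + |(D ^ 2 - D' ^ 2) / 4| := by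
          have := abs_add_le (D * r) (D' * r')
          linarith
      _ ≤ _ := by linarith
  calc f * (r' ^ 2 - r ^ 2) ≤ |f * (r' ^ 2 - r ^ 2)| := le_abs_self _
    _ = |f| * |r' ^ 2 - r ^ 2| := abs_mul _ _
    _ ≤ e * |r' ^ 2 - r ^ 2| := mul_le_mul_of_nonneg_right hf (abs_nonneg _)
    _ ≤ _ := mul_le_mul_of_nonneg_left h2 he

end GRHO

open GRHO in
theorem m_GRHO : Stmt_GRHO := by
  intro κ hκ
  refine ⟨min (κ / 3) (1 / 3), by positivity, ⌈2 * π / min (κ / 3) (1 / 3)⌉₊ + 1, ?_⟩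
  intro n hn c hN
  set ε : ℝ := min (κ / 3) (1 / 3) with hε
  have e0 : 0 < ε := by rw [hε]; positivity
  have e1 : ε ≤ κ / 3 := min_le_left _ _
  have e2 : ε ≤ 1 / 3 := min_le_right _ _
  have hn0 : 0 < n := by omega
  have hnp : (0 : ℝ) < n := by exact_mod_cast hn0
  have hh : 2 * π / n ≤ ε := by
    have h1 : 2 * π / ε ≤ n := by
      refine (Nat.le_ceil _).trans ?_
      exact_mod_cast (by omega : ⌈2 * π / ε⌉₊ ≤ n)
    rw [div_le_iff₀ e0] at h1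
    rw [div_le_iff₀ hnp]
    linarith
  have hh0 : 0 < 2 * π / n := by have := Real.pi_pos; positivity
  set h : ℝ := 2 * π / n with hhdef
  have hg : ∀ j, c.g j = h + (c.φ (j + 1) - c.φ j) := by
    intro j
    rw [hhdef]
    unfold Cfg.g Cfg.φ
    push_cast
    field_simp
    ring
  have hg1 : ∀ j, c.g j ≤ 1 := by
    intro j
    have h1 := abs_le.1 (hN.hφ (j + 1))
    have h2 := abs_le.1 (hN.hφ j)
    rw [hg j]
    linarith [h1.2, h2.1]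
  have hper : ∀ j, c.ρm (j + n) = c.ρm j := by
    intro j
    unfold Cfg.ρm
    have : j + (n : ℤ) + 1 = (j + 1) + n := by ring
    rw [this, c.ρ_add, c.ρ_add]
  have hm : ∀ j, c.ρm (j + 1) = c.ρm j + (c.Δ j + c.Δ (j + 1)) / 2 := by
    intro j
    unfold Cfg.ρm Cfg.Δ
    ring
  set A : ℝ := ∑ j ∈ range n, c.g (j : ℤ) * c.ρm (j : ℤ) ^ 2 with hA
  have hS0 : 0 ≤ c.S := by
    unfold Cfg.S
    apply Finset.sum_nonneg
    intro j _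
    have := c.g_pos j
    positivity
  -- shifted sums
  have s1 : ∑ j ∈ range n, c.φ ((j : ℤ) + 1) * c.ρm ((j : ℤ) + 1) ^ 2 =
      ∑ j ∈ range n, c.φ (j : ℤ) * c.ρm (j : ℤ) ^ 2 :=
    sum_shift (f := fun j => c.φ j * c.ρm j ^ 2) (fun j => by rw [c.φ_add hn0, hper]) 1
  have s2 : ∑ j ∈ range n, c.g ((j : ℤ) + 1) * c.ρm ((j : ℤ) + 1) ^ 2 = A :=
    sum_shift (f := fun j => c.g j * c.ρm j ^ 2) (fun j => by rw [c.g_add, hper]) 1
  have s3 : ∑ j ∈ range n, c.Δ ((j : ℤ) + 1) ^ 2 / c.g ((j : ℤ) + 1) = c.S :=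
    sum_shift (f := fun j => c.Δ j ^ 2 / c.g j) (fun j => by rw [c.g_add, c.Δ_add]) 1
  have s4 : ∑ j ∈ range n, c.ρ ((j : ℤ) + 1) ^ 2 = ∑ j ∈ range n, c.ρ (j : ℤ) ^ 2 :=
    sum_shift (f := fun j => c.ρ j ^ 2) (fun j => by rw [c.ρ_add]) 1
  have s5 : ∑ j ∈ range n, c.Δ (j : ℤ) ^ 2 / c.g (j : ℤ) = c.S := rfl
  -- the error term
  have k1 : ∑ j ∈ range n, c.φ ((j : ℤ) + 1) * (c.ρm ((j : ℤ) + 1) ^ 2 - c.ρm (j : ℤ) ^ 2) ≤
      ε * (A + 3 / 2 * c.S) := by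
    have k2 : ∀ j ∈ range n,
        c.φ ((j : ℤ) + 1) * (c.ρm ((j : ℤ) + 1) ^ 2 - c.ρm (j : ℤ) ^ 2) ≤
        ε * ((c.g (j : ℤ) * c.ρm (j : ℤ) ^ 2 + c.Δ (j : ℤ) ^ 2 / c.g (j : ℤ)) / 2 +
          (c.g ((j : ℤ) + 1) * c.ρm ((j : ℤ) + 1) ^ 2 +
            c.Δ ((j : ℤ) + 1) ^ 2 / c.g ((j : ℤ) + 1)) / 2 +
          (c.Δ (j : ℤ) ^ 2 / c.g (j : ℤ) + c.Δ ((j : ℤ) + 1) ^ 2 / c.g ((j : ℤ) + 1)) / 4) := by
      intro j _
      exact pw _ ε _ _ _ _ _ _ (hN.hφ _) (c.g_pos _) (hg1 _) (c.g_pos _) (hg1 _) (hm _)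
    refine (Finset.sum_le_sum k2).trans ?_
    rw [← Finset.mul_sum]
    apply le_of_eq
    congr 1
    rw [Finset.sum_add_distrib, Finset.sum_add_distrib, ← Finset.sum_div, ← Finset.sum_div,
      ← Finset.sum_div, Finset.sum_add_distrib, Finset.sum_add_distrib, Finset.sum_add_distrib,
      s2, s3, s5, ← hA]
    ring
  have k3 : ∑ j ∈ range n, c.φ ((j : ℤ) + 1) * (c.ρm ((j : ℤ) + 1) ^ 2 - c.ρm (j : ℤ) ^ 2) =
      -∑ j ∈ range n, (c.φ ((j : ℤ) + 1) - c.φ (j : ℤ)) * c.ρm (j : ℤ) ^ 2 := by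
    have e : ∀ j ∈ range n, c.φ ((j : ℤ) + 1) * (c.ρm ((j : ℤ) + 1) ^ 2 - c.ρm (j : ℤ) ^ 2) =
        (c.φ ((j : ℤ) + 1) * c.ρm ((j : ℤ) + 1) ^ 2 - c.φ (j : ℤ) * c.ρm (j : ℤ) ^ 2) -
          (c.φ ((j : ℤ) + 1) - c.φ (j : ℤ)) * c.ρm (j : ℤ) ^ 2 := by
      intro j _
      ring
    rw [Finset.sum_congr rfl e, Finset.sum_sub_distrib, Finset.sum_sub_distrib, s1]
    ring
  -- the main term
  have k4 : A = h * ∑ j ∈ range n, c.ρm (j : ℤ) ^ 2 +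
      ∑ j ∈ range n, (c.φ ((j : ℤ) + 1) - c.φ (j : ℤ)) * c.ρm (j : ℤ) ^ 2 := by
    rw [hA, Finset.mul_sum, ← Finset.sum_add_distrib]
    apply Finset.sum_congr rfl
    intro j _
    rw [hg]
    ring
  have k5 : ∑ j ∈ range n, c.ρm (j : ℤ) ^ 2 =
      ∑ j ∈ range n, c.ρ (j : ℤ) ^ 2 - (∑ j ∈ range n, c.Δ (j : ℤ) ^ 2) / 4 := by
    have e : ∀ j ∈ range n, c.ρm (j : ℤ) ^ 2 =
        (c.ρ (j : ℤ) ^ 2 + c.ρ ((j : ℤ) + 1) ^ 2) / 2 - c.Δ (j : ℤ) ^ 2 / 4 := by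
      intro j _
      unfold Cfg.ρm Cfg.Δ
      ring
    rw [Finset.sum_congr rfl e, Finset.sum_sub_distrib, ← Finset.sum_div, ← Finset.sum_div,
      Finset.sum_add_distrib, s4]
    ring
  have k6 : ∑ j ∈ range n, c.Δ (j : ℤ) ^ 2 ≤ c.S := by
    rw [← s5]
    apply Finset.sum_le_sum
    intro j _
    rw [le_div_iff₀ (c.g_pos _)]
    nlinarith [sq_nonneg (c.Δ (j : ℤ)), hg1 (j : ℤ)]
  have k7 : 2 * π * mn n (fun j => c.ρ j ^ 2) = h * ∑ j ∈ range n, c.ρ (j : ℤ) ^ 2 := by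
    rw [hhdef]
    unfold mn
    ring
  have hR0 : 0 ≤ ∑ j ∈ range n, c.ρ (j : ℤ) ^ 2 := Finset.sum_nonneg (fun j _ => sq_nonneg _)
  set B : ℝ := h * ∑ j ∈ range n, c.ρ (j : ℤ) ^ 2 with hB
  have hB0 : 0 ≤ B := by positivity
  rw [k3] at k1
  rw [k5] at k4
  have k8 : B - h * c.S / 4 - ε * (A + 3 / 2 * c.S) ≤ A := by
    have : h * (∑ j ∈ range n, c.ρ (j : ℤ) ^ 2 - (∑ j ∈ range n, c.Δ (j : ℤ) ^ 2) / 4) ≥
        B - h * c.S / 4 := by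
      rw [hB]
      nlinarith
    linarith
  have k9 : B - 2 * ε * c.S ≤ (1 + ε) * A := by
    have : h * c.S ≤ ε * c.S := mul_le_mul_of_nonneg_right hh hS0
    nlinarith
  have k10 : (1 - ε) * B - 3 * ε * c.S ≤ A := by
    by_contra hc
    rw [not_le] at hc
    have h1 : (1 + ε) * A < (1 + ε) * ((1 - ε) * B - 3 * ε * c.S) :=
      mul_lt_mul_of_pos_left hc (by linarith)
    have h2 : 0 ≤ ε * c.S := by positivity
    have h3 : 0 ≤ ε ^ 2 * B := by positivity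
    have h4 : 0 ≤ ε * (ε * c.S) := by positivity
    nlinarith
  have k11 : (1 - κ) * (2 * π) * mn n (fun j => c.ρ j ^ 2) = (1 - κ) * B := by
    rw [mul_assoc, k7]
  rw [k11]
  have h5 : 3 * ε * c.S ≤ κ * c.S := mul_le_mul_of_nonneg_right (by linarith) hS0
  have h6 : (1 - κ) * B ≤ (1 - ε) * B := mul_le_mul_of_nonneg_right (by linarith) hB0
  linarith

end Pool.Agent.EHP
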