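import Pool.Agent.EHP.Stmts6
import Pool.Agent.EHP.Base

/-!
# Module EHP_H1B
-/

open Finset
open scoped Real ComplexConjugate

namespace Pool.Agent.EHP

namespace H1Baux

/-- Differences of step `d` from differences of step `1`. -/
theorem diff_step {n : ℕ} {f : ℤ → ℝ} (hf : ∀ j, f (j + n) = f j) (d : ℕ) :
    ∑ j ∈ range n, (f ((j : ℤ) + (d : ℤ)) - f (j : ℤ)) ^ 2 ≤
      (d : ℝ) ^ 2 * ∑ j ∈ range n, (f ((j : ℤ) + 1) - f (j : ℤ)) ^ 2 := by
  have h1 : ∀ (j : ℤ) (d : ℕ), f (j + (d : ℤ)) - f j =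
      ∑ i ∈ range d, (f (j + (i : ℤ) + 1) - f (j + (i : ℤ))) := by
    intro j d
    induction d with
    | zero => simp
    | succ k ih =>
      rw [Finset.sum_range_succ, ← ih]
      push_cast
      rw [← add_assoc]
      ring
  have h2 : ∀ j ∈ range n, (f ((j : ℤ) + (d : ℤ)) - f (j : ℤ)) ^ 2 ≤
      (d : ℝ) * ∑ i ∈ range d, (f ((j : ℤ) + (i : ℤ) + 1) - f ((j : ℤ) + (i : ℤ))) ^ 2 := by
    intro j _
    rw [h1 j d]
    have := sq_sum_le_card_mul_sum_sq (s := range d)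
      (f := fun i : ℕ => f ((j : ℤ) + (i : ℤ) + 1) - f ((j : ℤ) + (i : ℤ)))
    simpa using this
  refine (Finset.sum_le_sum h2).trans ?_
  rw [← Finset.mul_sum, Finset.sum_comm]
  have h3 : ∀ i ∈ range d, ∑ j ∈ range n, (f ((j : ℤ) + (i : ℤ) + 1) - f ((j : ℤ) + (i : ℤ))) ^ 2 =
      ∑ j ∈ range n, (f ((j : ℤ) + 1) - f (j : ℤ)) ^ 2 := by
    intro i _
    have := sum_shift (n := n) (f := fun j : ℤ => (f (j + 1) - f j) ^ 2) (fun j => by
      have e : j + (n : ℤ) + 1 = (j + 1) + n := by ring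
      simp only [e, hf]) (i : ℤ)
    exact this
  rw [Finset.sum_congr rfl h3, Finset.sum_const, Finset.card_range, nsmul_eq_mul]
  rw [← mul_assoc, sq]

theorem dr_sub (n : ℕ) (f g : ℤ → ℝ) (k : ℤ) :
    dr n (fun j => f j - g j) k = dr n f k - dr n g k := by
  unfold dr dft
  rw [← sub_div, ← Finset.sum_sub_distrib]
  congr 1
  apply Finset.sum_congr rfl
  intro j _
  push_cast
  ring

theorem norm_dr_le {n : ℕ} (hn : 1 ≤ n) {f : ℤ → ℝ} {K : ℝ} (hf : ∀ j, |f j| ≤ K) (k : ℤ) :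
    ‖dr n f k‖ ≤ K := by
  have hn' : (0 : ℝ) < n := by exact_mod_cast hn
  unfold dr dft
  rw [norm_div, Complex.norm_natCast, div_le_iff₀ hn']
  refine (norm_sum_le _ _).trans ?_
  have h : ∀ j ∈ range n, ‖((f (j : ℤ) : ℝ) : ℂ) *
      Complex.exp (-(2 * π * k * ((j : ℤ) : ℝ) / n : ℝ) * Complex.I)‖ ≤ K := by
    intro j _
    rw [norm_mul, Complex.norm_real, Real.norm_eq_abs]
    have : ‖Complex.exp (-(2 * π * k * ((j : ℤ) : ℝ) / n : ℝ) * Complex.I)‖ = 1 := by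
      rw [← Complex.ofReal_neg, Complex.norm_exp_ofReal_mul_I]
    rw [this, mul_one]
    exact hf j
  refine (Finset.sum_le_sum h).trans ?_
  simp [mul_comm]

theorem low {n : ℕ} {k : ℤ} {N : ℕ} (hN : 1 ≤ N) (hn : n = 2 * N) (hk : |k| ≤ N) :
    4 * |(k : ℝ)| / n ≤ ‖Complex.exp ((2 * π * k * (1 : ℤ) / n : ℝ) * Complex.I) - 1‖ := by
  have hn' : (0 : ℝ) < n := by rw [hn]; exact_mod_cast (by omega : 0 < 2 * N)
  have hnN : (n : ℝ) = 2 * N := by rw [hn]; push_cast; ring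
  have hpi := Real.pi_pos
  rw [mul_comm _ Complex.I, Complex.norm_exp_I_mul_ofReal_sub_one]
  rw [norm_mul, Real.norm_of_nonneg (by norm_num : (0 : ℝ) ≤ 2), Real.norm_eq_abs]
  have e : 2 * π * (k : ℝ) * ((1 : ℤ) : ℝ) / n / 2 = π * k / n := by
    push_cast; ring
  rw [e]
  have hk' : |(k : ℝ)| ≤ N := by
    have : ((|k| : ℤ) : ℝ) ≤ ((N : ℤ) : ℝ) := by exact_mod_cast hk
    rwa [Int.cast_abs, Int.cast_natCast] at this
  have habs : |π * (k : ℝ) / n| = π * |(k : ℝ)| / n := by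
    rw [abs_div, abs_mul, abs_of_pos hpi, abs_of_pos hn']
  have h1 : |π * (k : ℝ) / n| ≤ π / 2 := by
    rw [habs, div_le_div_iff₀ hn' (by norm_num), hnN]
    nlinarith
  have h2 := Real.mul_abs_le_abs_sin h1
  rw [habs] at h2
  have h3 : 2 / π * (π * |(k : ℝ)| / n) = 2 * |(k : ℝ)| / n := by
    field_simp
  rw [h3] at h2
  have h4 : 4 * |(k : ℝ)| / n = 2 * (2 * |(k : ℝ)| / n) := by ring
  rw [h4]
  linarith

theorem four (hP : Stmt_PARS) (hD : Stmt_DFTS) {N : ℕ} (hN : 1 ≤ N) {f : ℤ → ℝ}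
    (hf : ∀ j, f (j + (2 * N : ℕ)) = f j) :
    ∑ k ∈ Finset.Ioc (-(N : ℤ)) N, (k : ℝ) ^ 2 * ‖dr (2 * N) f k‖ ^ 2 ≤
      ((2 * N : ℕ) : ℝ) / 16 * ∑ j ∈ range (2 * N), (f ((j : ℤ) + 1) - f (j : ℤ)) ^ 2 := by
  set n : ℝ := ((2 * N : ℕ) : ℝ) with hn
  have hn' : (0 : ℝ) < n := by rw [hn]; exact_mod_cast (by omega : 0 < 2 * N)
  have hg : ∀ j, f (j + (2 * N : ℕ) + 1) - f (j + (2 * N : ℕ)) = f (j + 1) - f j := by
    intro j
    have e : j + ((2 * N : ℕ) : ℤ) + 1 = (j + 1) + ((2 * N : ℕ) : ℤ) := by ring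
    rw [e, hf, hf]
  obtain ⟨h1, -⟩ := hP N (fun j => f (j + 1) - f j) (fun j => f (j + 1) - f j) hN hg hg
  have h2 : ∀ k : ℤ, dr (2 * N) (fun j => f (j + 1) - f j) k =
      (Complex.exp ((2 * π * k * (1 : ℤ) / (2 * N : ℕ) : ℝ) * Complex.I) - 1) * dr (2 * N) f k := by
    intro k
    rw [dr_sub, (hD (2 * N) f (by omega) hf k 1).1]
    ring
  have h3 : ∀ k ∈ Finset.Ioc (-(N : ℤ)) N, 16 / n ^ 2 * ((k : ℝ) ^ 2 * ‖dr (2 * N) f k‖ ^ 2) ≤
      (dr (2 * N) (fun j => f (j + 1) - f j) k *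
        conj (dr (2 * N) (fun j => f (j + 1) - f j) k)).re := by
    intro k hk
    have hk' := Finset.mem_Ioc.1 hk
    have hk2 : |k| ≤ N := abs_le.2 ⟨by omega, by omega⟩
    have h4 := low (n := 2 * N) (k := k) hN rfl hk2
    rw [Complex.mul_conj, Complex.ofReal_re, Complex.normSq_eq_norm_sq, h2, norm_mul, mul_pow]
    have h5 : (4 * |(k : ℝ)| / n) ^ 2 ≤
        ‖Complex.exp ((2 * π * k * (1 : ℤ) / (2 * N : ℕ) : ℝ) * Complex.I) - 1‖ ^ 2 :=
      pow_le_pow_left₀ (by positivity) h4 2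
    have h6 : (4 * |(k : ℝ)| / n) ^ 2 = 16 / n ^ 2 * (k : ℝ) ^ 2 := by
      rw [div_pow, mul_pow, sq_abs]; ring
    rw [h6] at h5
    have h7 := mul_le_mul_of_nonneg_right h5 (sq_nonneg ‖dr (2 * N) f k‖)
    linarith
  have h8 := Finset.sum_le_sum h3
  rw [← h1, ← Finset.mul_sum] at h8
  unfold mn at h8
  rw [← hn] at h8
  have h9 : ∑ j ∈ range (2 * N), (f ((j : ℤ) + 1) - f (j : ℤ)) * (f ((j : ℤ) + 1) - f (j : ℤ)) =
      ∑ j ∈ range (2 * N), (f ((j : ℤ) + 1) - f (j : ℤ)) ^ 2 := by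
    apply Finset.sum_congr rfl
    intro j _
    ring
  rw [h9] at h8
  set T := ∑ j ∈ range (2 * N), (f ((j : ℤ) + 1) - f (j : ℤ)) ^ 2
  set U := ∑ k ∈ Finset.Ioc (-(N : ℤ)) N, (k : ℝ) ^ 2 * ‖dr (2 * N) f k‖ ^ 2
  rw [le_div_iff₀ hn'] at h8
  have h10 : 16 / n ^ 2 * U * n = 16 / n * U := by
    field_simp
  rw [h10] at h8
  have h11 : U = n / 16 * (16 / n * U) := by
    field_simp
  rw [h11]
  exact mul_le_mul_of_nonneg_left h8 (by positivity)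

end H1Baux

open H1Baux in
/-- Module EHP_H1B. -/
theorem m_H1B : Stmt_HOLD → Stmt_PARS → Stmt_DFTS → Stmt_H1B := by
  intro hH hP hD K
  obtain ⟨C₁, n₁, hC₁, hH⟩ := hH K
  refine ⟨400 * |K| + 1, max (max n₁ 1) (⌈C₁ ^ 2⌉₊), by positivity, ?_⟩
  intro N hN c hc
  have hN1 : n₁ ≤ 2 * N := (le_max_left _ _).trans ((le_max_left _ _).trans hN)
  have hN2 : 1 ≤ 2 * N := (le_max_right _ _).trans ((le_max_left _ _).trans hN)
  have hN3 : ⌈C₁ ^ 2⌉₊ ≤ 2 * N := (le_max_right _ _).trans hN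
  have hN4 : 1 ≤ N := by omega
  set n : ℝ := ((2 * N : ℕ) : ℝ) with hn
  have hn' : (0 : ℝ) < n := by rw [hn]; exact_mod_cast (by omega : 0 < 2 * N)
  have hy1 : ∀ j, |c.y j| ≤ 1 := by
    intro j
    refine ((hH (2 * N) hN1 c hc).1 j).1.trans ?_
    rw [← hn]
    have h1 : C₁ ^ 2 ≤ n := (Nat.le_ceil _).trans (by rw [hn]; exact_mod_cast hN3)
    have h2 : C₁ ≤ Real.sqrt n := by
      rw [← Real.sqrt_sq hC₁.le]
      exact Real.sqrt_le_sqrt h1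
    rw [div_le_one (Real.sqrt_pos.2 hn')]
    exact h2
  have hK : 0 ≤ K := by
    have h1 := hc.hρ 0
    have h2 := (abs_nonneg _).trans h1
    by_contra h
    have := div_neg_of_neg_of_pos (not_le.1 h) hn'
    linarith
  have hRper : ∀ j, c.R (j + (2 * N : ℕ)) = c.R j := by
    intro j; unfold Cfg.R; rw [c.ρ_add]
  have hΦper : ∀ j, c.Φ (j + (2 * N : ℕ)) = c.Φ j := by
    intro j; unfold Cfg.Φ; rw [c.φ_add (by omega)]
  have hpi := Real.pi_pos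
  have hpi2 : π ^ 2 ≤ 10 := by
    have := Real.pi_lt_d2
    nlinarith
  have dΦ : ∀ j, c.Φ (j + 1) - c.Φ j = 2 * π * c.y j := by
    intro j
    have h := c.g_eq (by omega : 0 < 2 * N) j
    unfold Cfg.g at h
    unfold Cfg.Φ Cfg.φ
    rw [← hn] at h ⊢
    have e : n * (c.θ (j + 1) - 2 * π * ((j + 1 : ℤ) : ℝ) / n) - n * (c.θ j - 2 * π * (j : ℝ) / n) =
        n * (c.θ (j + 1) - c.θ j) - 2 * π := by
      push_cast
      field_simp
      ring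
    rw [e, h]
    field_simp
    ring
  have dR : ∀ j, (c.R (j + 1) - c.R j) ^ 2 ≤ 16 * π ^ 2 * c.s j ^ 2 := by
    intro j
    have hg := c.g_eq (by omega : 0 < 2 * N) j
    have hg0 := c.g_pos j
    rw [← hn] at hg
    have e : c.R (j + 1) - c.R j = n * c.g j * c.s j := by
      unfold Cfg.R Cfg.s Cfg.Δ
      rw [← hn]
      field_simp
    rw [e, mul_pow]
    apply mul_le_mul_of_nonneg_right _ (sq_nonneg _)
    have h1 : n * c.g j = 2 * π * (1 + c.y j) := by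
      rw [hg]; field_simp
    have h2 : n * c.g j ≤ 4 * π := by
      rw [h1]
      have := (abs_le.1 (hy1 j)).2
      nlinarith
    have h3 : 0 ≤ n * c.g j := by positivity
    calc (n * c.g j) ^ 2 ≤ (4 * π) ^ 2 := pow_le_pow_left₀ h3 h2 2
      _ = 16 * π ^ 2 := by ring
  have sΦ : ∑ j ∈ range (2 * N), (c.Φ ((j : ℤ) + 1) - c.Φ (j : ℤ)) ^ 2 ≤ 40 * K / n := by
    have e : ∀ j ∈ range (2 * N), (c.Φ ((j : ℤ) + 1) - c.Φ (j : ℤ)) ^ 2 =
        4 * π ^ 2 * c.y (j : ℤ) ^ 2 := by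
      intro j _; rw [dΦ]; ring
    rw [Finset.sum_congr rfl e, ← Finset.mul_sum]
    have h1 := hc.hy
    rw [← hn] at h1
    have h2 : 0 ≤ K / n := by positivity
    calc 4 * π ^ 2 * ∑ j ∈ range (2 * N), c.y (j : ℤ) ^ 2 ≤ 4 * π ^ 2 * (K / n) :=
          mul_le_mul_of_nonneg_left h1 (by positivity)
      _ ≤ 4 * 10 * (K / n) := mul_le_mul_of_nonneg_right (by linarith) h2
      _ = 40 * K / n := by ring
  have sR : ∑ j ∈ range (2 * N), (c.R ((j : ℤ) + 1) - c.R (j : ℤ)) ^ 2 ≤ 160 * K / n := by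
    have e : ∀ j ∈ range (2 * N), (c.R ((j : ℤ) + 1) - c.R (j : ℤ)) ^ 2 ≤
        16 * π ^ 2 * c.s (j : ℤ) ^ 2 := fun j _ => dR j
    refine (Finset.sum_le_sum e).trans ?_
    rw [← Finset.mul_sum]
    have h1 := hc.hs
    rw [← hn] at h1
    have h2 : 0 ≤ K / n := by positivity
    calc 16 * π ^ 2 * ∑ j ∈ range (2 * N), c.s (j : ℤ) ^ 2 ≤ 16 * π ^ 2 * (K / n) :=
          mul_le_mul_of_nonneg_left h1 (by positivity)
      _ ≤ 16 * 10 * (K / n) := mul_le_mul_of_nonneg_right (by linarith) h2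
      _ = 160 * K / n := by ring
  have hKa : |K| = K := abs_of_nonneg hK
  rw [hKa]
  refine ⟨?_, ?_, ?_⟩
  · intro d
    rw [Finset.sum_add_distrib]
    have h1 := diff_step hRper d
    have h2 := diff_step hΦper d
    have h3 : (d : ℝ) ^ 2 * ∑ j ∈ range (2 * N), (c.R ((j : ℤ) + 1) - c.R (j : ℤ)) ^ 2 ≤
        (d : ℝ) ^ 2 * (160 * K / n) := mul_le_mul_of_nonneg_left sR (sq_nonneg _)
    have h4 : (d : ℝ) ^ 2 * ∑ j ∈ range (2 * N), (c.Φ ((j : ℤ) + 1) - c.Φ (j : ℤ)) ^ 2 ≤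
        (d : ℝ) ^ 2 * (40 * K / n) := mul_le_mul_of_nonneg_left sΦ (sq_nonneg _)
    have h5 : (400 * K + 1) * (d : ℝ) ^ 2 / n = (d : ℝ) ^ 2 * (160 * K / n) +
        (d : ℝ) ^ 2 * (40 * K / n) + (200 * K + 1) * (d : ℝ) ^ 2 / n := by
      ring
    have h6 : 0 ≤ (200 * K + 1) * (d : ℝ) ^ 2 / n := by positivity
    rw [h5]
    linarith
  · have h1 := four hP hD hN4 hRper
    have h2 := four hP hD hN4 hΦper
    rw [← hn] at h1 h2
    have e : ∑ k ∈ Finset.Ioc (-(N : ℤ)) N,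
        (k : ℝ) ^ 2 * (‖dr (2 * N) c.R k‖ ^ 2 + ‖dr (2 * N) c.Φ k‖ ^ 2) =
        ∑ k ∈ Finset.Ioc (-(N : ℤ)) N, (k : ℝ) ^ 2 * ‖dr (2 * N) c.R k‖ ^ 2 +
        ∑ k ∈ Finset.Ioc (-(N : ℤ)) N, (k : ℝ) ^ 2 * ‖dr (2 * N) c.Φ k‖ ^ 2 := by
      rw [← Finset.sum_add_distrib]
      apply Finset.sum_congr rfl
      intro k _
      ring
    rw [e]
    have h3 := mul_le_mul_of_nonneg_left sR (by positivity : (0 : ℝ) ≤ n / 16)
    have h4 := mul_le_mul_of_nonneg_left sΦ (by positivity : (0 : ℝ) ≤ n / 16)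
    have h5 : n / 16 * (160 * K / n) = 10 * K := by field_simp; ring
    have h6 : n / 16 * (40 * K / n) = 5 / 2 * K := by field_simp; ring
    rw [h5] at h3
    rw [h6] at h4
    linarith
  · intro k
    have h1 : ∀ j, |c.R j| ≤ K := by
      intro j
      have := hc.hρ j
      unfold Cfg.R
      rw [← hn] at this ⊢
      rw [abs_mul, abs_of_pos hn']
      rw [le_div_iff₀ hn'] at this
      linarith
    have h2 : ∀ j, |c.Φ j| ≤ K := by
      intro j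
      have := hc.hφ j
      unfold Cfg.Φ
      rw [← hn] at this ⊢
      rw [abs_mul, abs_of_pos hn']
      rw [le_div_iff₀ hn'] at this
      linarith
    exact ⟨(norm_dr_le hN2 h1 k).trans (by linarith), (norm_dr_le hN2 h2 k).trans (by linarith)⟩

end Pool.Agent.EHP
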