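import Pool.Agent.EHP.Stmts6
import Pool.Agent.EHP.Base

/-!
# The pivot function takes only two values
-/

open Finset
open scoped Real ComplexConjugate

namespace Pool.Agent.EHP

theorem Mo.weaken {N M M' : ℕ} {δ δ' : ℝ} {c : Cfg (2 * N)} {L : ℤ → ℤ} {x₀ : ℝ}
    (h : Mo N M δ c L x₀) (hM : M' ≤ M) (hδ : δ ≤ δ') : Mo N M' δ' c L x₀ where
  mean := h.mean.trans hδ
  hp k hk h1 := (h.hp k (hk.trans (by exact_mod_cast hM)) h1).trans hδ
  hu k hk h1 := (h.hu k (hk.trans (by exact_mod_cast hM)) h1).trans hδ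

theorem half_sqw (x : ℝ) : sqw x = 1 / 2 ∨ sqw x = -(1 / 2) := by
  unfold sqw
  split_ifs
  · exact Or.inl rfl
  · exact Or.inr rfl

/-- Some index has `m = 0` or `m = 1`. -/
theorem half_exists {N M : ℕ} {δ : ℝ} {c : Cfg (2 * N)} {L : ℤ → ℤ} {x₀ : ℝ} (hN : 1 ≤ N)
    (h : Mo N M δ c L x₀) (hδ : δ < 1) : ∃ j : ℤ, L j = j + N ∨ L j = j + N + 1 := by
  have hn : (0 : ℝ) < ((2 * N : ℕ) : ℝ) := by exact_mod_cast (by omega : 0 < 2 * N)
  have h1 : ∃ j ∈ range (2 * N),
      |pp N L (j : ℤ) - sqw (2 * π * (j : ℤ) / (2 * N : ℕ) - x₀)| < 1 := by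
    by_contra hc
    push Not at hc
    have h2 := h.mean
    unfold mn at h2
    have h3 : ((2 * N : ℕ) : ℝ) ≤ ∑ j ∈ range (2 * N),
        |pp N L (j : ℤ) - sqw (2 * π * (j : ℤ) / (2 * N : ℕ) - x₀)| := by
      calc ((2 * N : ℕ) : ℝ) = ∑ j ∈ range (2 * N), (1 : ℝ) := by simp
        _ ≤ _ := Finset.sum_le_sum fun j hj => hc j hj
    have h4 : (1 : ℝ) ≤ δ := by
      refine le_trans ?_ h2
      rw [le_div_iff₀ hn, one_mul]
      exact h3
    linarith
  obtain ⟨j, -, hj⟩ := h1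
  refine ⟨j, ?_⟩
  unfold pp at hj
  rw [abs_lt] at hj
  rcases half_sqw (2 * π * ((j : ℤ) : ℝ) / (2 * N : ℕ) - x₀) with h2 | h2
  · rw [h2] at hj
    left
    have h5 : ((L (j : ℤ) - j - N : ℤ) : ℝ) < 1 := by linarith
    have h6 : (-1 : ℝ) < ((L (j : ℤ) - j - N : ℤ) : ℝ) := by linarith
    have h5' : L (j : ℤ) - j - N < 1 := by exact_mod_cast h5
    have h6' : -1 < L (j : ℤ) - j - N := by exact_mod_cast h6
    omega
  · rw [h2] at hj
    right
    have h5 : ((L (j : ℤ) - j - N : ℤ) : ℝ) < 2 := by linarith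
    have h6 : (0 : ℝ) < ((L (j : ℤ) - j - N : ℤ) : ℝ) := by linarith
    have h5' : L (j : ℤ) - j - N < 2 := by exact_mod_cast h5
    have h6' : 0 < L (j : ℤ) - j - N := by exact_mod_cast h6
    omega

/-- A combinatorial step. -/
theorem half_comb {n N : ℕ} {c : Cfg n} {L : ℤ → ℤ} (hn : n = 2 * N) (hN : 1 ≤ N) (hL : Piw n c L)
    (hP : ∀ v : ℤ, L (v - 1) = L v → L v = v + N) (j₀ : ℤ)
    (hj₀ : L j₀ = j₀ + N ∨ L j₀ = j₀ + N + 1) : ∀ v, L v = v + N ∨ L v = v + N + 1 := by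
  have hper : ∀ (v : ℤ) (k : ℕ), L (v + k * n) = L v + k * n := by
    intro v k
    induction k with
    | zero => simp
    | succ k ih =>
      have e : v + ((k + 1 : ℕ) : ℤ) * n = (v + k * n) + n := by push_cast; ring
      rw [e, hL.piv.add, ih]
      push_cast
      ring
  have step : ∀ w : ℤ, L (w - 1) - (w - 1) ≤ L w - w ∨ (L w = w + N ∧ L (w - 1) = w + N) := by
    intro w
    have h1 : L (w - 1) ≤ L w := hL.piv.mono (by omega)
    rcases h1.lt_or_eq with h2 | h2
    · left; omega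
    · right
      have h3 := hP w h2
      exact ⟨h3, by omega⟩
  have hA : ∀ k : ℕ, j₀ + k + N ≤ L (j₀ + k) := by
    intro k
    induction k with
    | zero => simp only [Nat.cast_zero, add_zero]; omega
    | succ k ih =>
      have h1 := step (j₀ + ((k + 1 : ℕ) : ℤ))
      have e : j₀ + ((k + 1 : ℕ) : ℤ) - 1 = j₀ + k := by push_cast; ring
      rw [e] at h1
      push_cast at h1 ⊢
      omega
  have hB : ∀ w : ℤ, w + N + 2 ≤ L w → ∀ k : ℕ, w + k + N + 2 ≤ L (w + k) := by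
    intro w hw k
    induction k with
    | zero => simp only [Nat.cast_zero, add_zero]; omega
    | succ k ih =>
      have h1 := step (w + ((k + 1 : ℕ) : ℤ))
      have e : w + ((k + 1 : ℕ) : ℤ) - 1 = w + k := by push_cast; ring
      rw [e] at h1
      push_cast at h1 ⊢
      omega
  intro v
  have hlow : v + N ≤ L v := by
    -- choose `k` with `j₀ ≤ v + k n`
    have h1 := hA (v + (j₀ - v).toNat * n - j₀).toNat
    have h2 := hper v (j₀ - v).toNat
    have h0 : (j₀ - v : ℤ) ≤ ((j₀ - v).toNat : ℤ) := Int.self_le_toNat _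
    have h00 : (0 : ℤ) ≤ ((j₀ - v).toNat : ℤ) := Int.natCast_nonneg _
    have hn1 : (1 : ℤ) ≤ n := by omega
    have h3 : j₀ ≤ v + (j₀ - v).toNat * n := by nlinarith
    have h4 : (((v + (j₀ - v).toNat * n - j₀).toNat : ℕ) : ℤ) = v + (j₀ - v).toNat * n - j₀ :=
      Int.toNat_of_nonneg (by omega)
    rw [h4] at h1
    have e : j₀ + (v + (j₀ - v).toNat * n - j₀) = v + ((j₀ - v).toNat : ℤ) * n := by ring
    rw [e, h2] at h1
    omega
  have hup : L v ≤ v + N + 1 := by
    by_contra hc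
    push Not at hc
    have h1 := hB v (by omega) (j₀ + (v - j₀).toNat * n - v).toNat
    have h2 := hper j₀ (v - j₀).toNat
    have h0 : (v - j₀ : ℤ) ≤ ((v - j₀).toNat : ℤ) := Int.self_le_toNat _
    have h00 : (0 : ℤ) ≤ ((v - j₀).toNat : ℤ) := Int.natCast_nonneg _
    have hn1 : (1 : ℤ) ≤ n := by omega
    have h3 : v ≤ j₀ + (v - j₀).toNat * n := by nlinarith
    have h4 : (((j₀ + (v - j₀).toNat * n - v).toNat : ℕ) : ℤ) = j₀ + (v - j₀).toNat * n - v :=
      Int.toNat_of_nonneg (by omega)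
    rw [h4] at h1
    have e : v + (j₀ + (v - j₀).toNat * n - v) = j₀ + ((v - j₀).toNat : ℤ) * n := by ring
    rw [e, h2] at h1
    omega
  omega

theorem m_HALF : Stmt_PEND → Stmt_SYM → Stmt_HALF := by
  intro hPEND hSYM K
  obtain ⟨M, n₀, δ, hδ, hP⟩ := hPEND K 1 one_pos
  refine ⟨M, max n₀ 2, min δ (1 / 2), lt_min hδ (by norm_num), ?_⟩
  intro N hN c hc L hL x₀ hMo
  have hN1 : 1 ≤ N := by
    have := le_trans (le_max_right n₀ 2) hN
    omega
  have hN0 : n₀ ≤ 2 * N := le_trans (le_max_left n₀ 2) hN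
  have hp : ∀ v : ℤ, L (v - 1) = L v → L v = v + N := fun v hv =>
    (hP N hN0 c hc L hL x₀ (hMo.weaken le_rfl (min_le_left _ _)) v hv).1
  obtain ⟨j₀, hj₀⟩ := half_exists hN1 (hMo.weaken le_rfl (min_le_right _ _)) (by norm_num)
  have key := half_comb rfl hN1 hL hp j₀ hj₀
  have hpp0 : ∀ v : ℤ, L v = v + N → pp N L v = 1 / 2 := by
    intro v hv
    unfold pp
    rw [hv]
    push_cast
    ring
  have hpp1 : ∀ v : ℤ, L v = v + N + 1 → pp N L v = -(1 / 2) := by
    intro v hv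
    unfold pp
    rw [hv]
    push_cast
    ring
  refine ⟨key, ?_, ?_⟩
  · intro v
    rcases key v with h | h
    · rw [hpp0 v h]; norm_num
    · rw [hpp1 v h]; norm_num
  · intro v
    have hs := hSYM (2 * N) c L hL v
    rcases key v with h | h
    · have h1 : L (v + N) = v + N + N + 1 := by
        have h2 := hs.2
        rw [h] at h2
        rcases key (v + N) with h3 | h3
        · push_cast at h2; omega
        · exact h3
      rw [hpp1 (v + N) h1, hpp0 v h]
    · have h1 : L (v + N) = v + N + N := by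
        have h2 := hs.1
        rw [h] at h2
        have e : v + N + 1 - 1 = v + (N : ℤ) := by ring
        rw [e] at h2
        rcases key (v + N) with h3 | h3
        · exact h3
        · push_cast at h2; omega
      rw [hpp0 (v + N) h1, hpp1 v h, neg_neg]

end Pool.Agent.EHP
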