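import Pool.Agent.EHP.Stmts4

/-!
# The energy in terms of `p` and `u`
-/

open Finset
open scoped Real ComplexConjugate

namespace Pool.Agent.EHP

namespace M_HFIN

theorem dr_neg (n : ℕ) (f : ℤ → ℝ) (k : ℤ) : dr n f (-k) = conj (dr n f k) := by
  unfold dr dft
  rw [map_div₀, map_sum, map_natCast]
  congr 1
  refine sum_congr rfl fun j _ => ?_
  rw [map_mul, Complex.conj_ofReal, ← Complex.exp_conj, map_mul, map_neg,
    Complex.conj_ofReal, Complex.conj_I]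
  congr 2
  push_cast
  ring

theorem norm_dr_neg (n : ℕ) (f : ℤ → ℝ) (k : ℤ) : ‖dr n f (-k)‖ = ‖dr n f k‖ := by
  rw [dr_neg, Complex.norm_conj]

theorem norm_dr_natAbs (n : ℕ) (f : ℤ → ℝ) (k : ℤ) : ‖dr n f (k.natAbs : ℤ)‖ = ‖dr n f k‖ := by
  rcases Int.natAbs_eq k with h | h
  · rw [← h]
  · conv_rhs => rw [h]
    rw [norm_dr_neg]

theorem pp_add {N : ℕ} {L : ℤ → ℤ} (h : ∀ v, L (v + (2 * N : ℕ)) = L v + (2 * N : ℕ)) (j : ℤ) :
    pp N L (j + (2 * N : ℕ)) = pp N L j := by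
  unfold pp
  rw [h]
  congr 2
  ring

theorem sum_Icc_even (g : ℕ → ℝ) (M : ℕ) : ∑ k ∈ Finset.Icc (-(M : ℤ)) M, g k.natAbs =
    2 * ∑ k ∈ range (M + 1), g k - g 0 := by
  induction M with
  | zero => simp; ring
  | succ M ih =>
    have h1 : Finset.Icc (-((M + 1 : ℕ) : ℤ)) ((M + 1 : ℕ) : ℤ) =
        insert (-((M + 1 : ℕ) : ℤ)) (insert ((M + 1 : ℕ) : ℤ) (Finset.Icc (-(M : ℤ)) M)) := by
      ext k
      simp only [Finset.mem_insert, Finset.mem_Icc]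
      omega
    rw [h1, Finset.sum_insert, Finset.sum_insert, ih, Finset.sum_range_succ _ (M + 1)]
    · have h2 : (-((M + 1 : ℕ) : ℤ)).natAbs = M + 1 := by omega
      have h3 : (((M + 1 : ℕ) : ℤ)).natAbs = M + 1 := by omega
      rw [h2, h3]
      ring
    · simp only [Finset.mem_Icc]
      omega
    · simp only [Finset.mem_insert, Finset.mem_Icc]
      omega

theorem filter_low {M N : ℕ} (h : M < N) :
    (Finset.Ioc (-(N : ℤ)) N).filter (fun k => ¬ (M : ℤ) < |k|) = Finset.Icc (-(M : ℤ)) M := by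
  ext k
  simp only [Finset.mem_filter, Finset.mem_Ioc, Finset.mem_Icc, not_lt, abs_le]
  omega

end M_HFIN

open M_HFIN in
theorem m_HFIN : Stmt_ESUM → Stmt_EHI → Stmt_ELO → Stmt_PARS → Stmt_HFIN := by
  intro hES hHI hLO hPA K
  obtain ⟨C1, n1, hC1, h1⟩ := hES K
  obtain ⟨C2, n2, hC2, h2⟩ := hHI K
  refine ⟨C2, hC2, fun M ε hM hε => ?_⟩
  have hε' : 0 < ε / (4 * M + 4) := by positivity
  choose n3 h3 using fun k : ℕ => hLO K k (ε / (4 * M + 4)) hε'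
  refine ⟨n1 + n2 + (range (M + 1)).sup n3 + 2 * M + 2 + ⌈(2 * (C1 + C2) / ε) ^ 2⌉₊,
    fun N hN c hR L hL => ?_⟩
  have hMN : M < N := by omega
  have hN1 : 1 ≤ N := by omega
  have e1 := h1 N (by omega) c hR L hL
  have e2 := h2 N (by omega) c hR L hL M hM hMN
  -- the error terms
  have e3 : C1 / Real.sqrt (2 * N : ℕ) + C2 / Real.sqrt (2 * N : ℕ) ≤ ε / 2 := by
    have g1 : (2 * (C1 + C2) / ε) ^ 2 ≤ ((2 * N : ℕ) : ℝ) := by
      refine (Nat.le_ceil _).trans ?_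
      exact_mod_cast (by omega : ⌈(2 * (C1 + C2) / ε) ^ 2⌉₊ ≤ 2 * N)
    have g2 : 2 * (C1 + C2) / ε ≤ Real.sqrt (2 * N : ℕ) := Real.le_sqrt_of_sq_le g1
    have g3 : 0 < Real.sqrt (2 * N : ℕ) := by
      apply Real.sqrt_pos.2
      exact_mod_cast (by omega : 0 < 2 * N)
    rw [← add_div, div_le_iff₀ g3]
    rw [div_le_iff₀ hε] at g2
    linarith
  -- the low modes
  set p : ℤ → ℝ := pp N L with hp
  set b : ℕ → ℝ := fun k => π ^ 2 / 2 * (‖dr (2 * N) p k‖ ^ 2 / (k + 1)) -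
    8 * ‖dr (2 * N) (uu N c) k + dr (2 * N) p k / (((k : ℝ) ^ 2 - 1 : ℝ) : ℂ)‖ ^ 2 with hb
  set B : ℕ → ℝ := fun k => if k % 2 = 1 ∧ 3 ≤ k then b k else 0 with hB
  have e4 : ∀ k ∈ Finset.Icc (-(M : ℤ)) M, EM c k ≤
      -(π ^ 2 / 2) * ‖dr (2 * N) p k‖ ^ 2 + B k.natAbs + ε / (4 * M + 4) := by
    intro k hk
    rw [Finset.mem_Icc] at hk
    have g1 : k.natAbs ∈ range (M + 1) := by
      rw [mem_range]
      omega
    have g2 : n3 k.natAbs ≤ (range (M + 1)).sup n3 := Finset.le_sup g1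
    have g3 : n3 k.natAbs ≤ 2 * N := by omega
    rw [← norm_dr_natAbs]
    rcases Int.natAbs_eq k with h | h
    · have g4 := h3 k.natAbs N g3 c hR L hL 1 (Or.inl rfl)
      have g5 : EM c (1 * (k.natAbs : ℤ)) = EM c k := by rw [one_mul, ← h]
      rw [g5] at g4
      exact g4
    · have g4 := h3 k.natAbs N g3 c hR L hL (-1) (Or.inr rfl)
      have g5 : EM c (-1 * (k.natAbs : ℤ)) = EM c k := by rw [neg_one_mul, ← h]
      rw [g5] at g4
      exact g4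
  have e5 : ∑ k ∈ Finset.Icc (-(M : ℤ)) M, EM c k ≤
      -(π ^ 2 / 2) * ∑ k ∈ Finset.Icc (-(M : ℤ)) M, ‖dr (2 * N) p k‖ ^ 2 +
        2 * ∑ k ∈ odds M, b k + ε / 2 := by
    refine (Finset.sum_le_sum e4).trans ?_
    rw [Finset.sum_add_distrib, Finset.sum_add_distrib, ← Finset.mul_sum, sum_Icc_even B M,
      Finset.sum_const, Int.card_Icc]
    have g1 : ∑ k ∈ range (M + 1), B k = ∑ k ∈ odds M, b k := by
      unfold odds
      rw [Finset.sum_filter]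
    have g2 : B 0 = 0 := by simp [hB]
    have g3 : ((M : ℤ) + 1 - -(M : ℤ)).toNat = 2 * M + 1 := by omega
    rw [g1, g2, g3, nsmul_eq_mul]
    have g4 : ((2 * M + 1 : ℕ) : ℝ) * (ε / (4 * M + 4)) ≤ ε / 2 := by
      rw [mul_div_assoc', div_le_div_iff₀ (by positivity) (by norm_num)]
      push_cast
      nlinarith
    linarith
  have e6 : 2 * ∑ k ∈ odds M, b k = π ^ 2 / 2 * QM (2 * N) M p - 8 * UM (2 * N) M (uu N c) p := by
    unfold QM UM
    simp only [hb]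
    rw [Finset.sum_sub_distrib, ← Finset.mul_sum, ← Finset.mul_sum]
    ring
  -- Parseval
  have e7 := (hPA N p p hN1 (pp_add hL.piv.add) (pp_add hL.piv.add)).1
  have e8 : mn (2 * N) (fun j => p j ^ 2) =
      ∑ k ∈ Finset.Ioc (-(N : ℤ)) N, ‖dr (2 * N) p k‖ ^ 2 := by
    have g1 : (fun j => p j ^ 2) = fun j => p j * p j := by
      funext j
      ring
    rw [g1, e7]
    refine Finset.sum_congr rfl fun k _ => ?_
    rw [Complex.mul_conj, Complex.normSq_eq_norm_sq, Complex.ofReal_re]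
  have e9 := Finset.sum_filter_add_sum_filter_not (Finset.Ioc (-(N : ℤ)) N)
    (fun k => (M : ℤ) < |k|) (fun k => ‖dr (2 * N) p k‖ ^ 2)
  have e10 := Finset.sum_filter_add_sum_filter_not (Finset.Ioc (-(N : ℤ)) N)
    (fun k => (M : ℤ) < |k|) (fun k => EM c k)
  rw [filter_low hMN] at e9 e10
  rw [e8, ← e9]
  rw [← e10] at e1
  have e11 : FL (2 * N) c.z - (2 * N : ℕ) * Real.log (2 * N : ℕ) ≤ π ^ 2 / 8 +
      (-(π ^ 2 / 2) * ∑ k ∈ (Finset.Ioc (-(N : ℤ)) N).filter (fun k => (M : ℤ) < |k|),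
          ‖dr (2 * N) p k‖ ^ 2 + C2 / M + C2 / Real.sqrt (2 * N : ℕ) +
        (-(π ^ 2 / 2) * ∑ k ∈ Finset.Icc (-(M : ℤ)) M, ‖dr (2 * N) p k‖ ^ 2 +
        (π ^ 2 / 2 * QM (2 * N) M p - 8 * UM (2 * N) M (uu N c) p) + ε / 2)) +
      C1 / Real.sqrt (2 * N : ℕ) := by
    rw [← e6]
    linarith
  refine e11.trans ?_
  linarith

end Pool.Agent.EHP
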