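import Pool.Agent.EHP.Stmts2

/-!
# Hölder bounds (helper70)
-/

open Finset
open scoped Real ComplexConjugate

namespace Pool.Agent.EHP

/-- A window of a periodic family of nonnegative numbers. -/
theorem hold_window {n : ℕ} {f : ℤ → ℝ} (hf : ∀ j, f (j + n) = f j) (h0 : ∀ j, 0 ≤ f j) {B : ℝ}
    (hB : ∑ j ∈ range n, f (j : ℤ) ≤ B) (j : ℤ) {m : ℕ} (hm : m ≤ n) :
    ∑ i ∈ range m, f (j + (i : ℤ)) ≤ B := by
  have h1 : ∑ i ∈ range m, f (j + (i : ℤ)) ≤ ∑ i ∈ range n, f (j + (i : ℤ)) :=
    sum_le_sum_of_subset_of_nonneg (range_mono hm) fun i _ _ => h0 _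
  have h2 := sum_shift hf j
  have h3 : ∑ i ∈ range n, f (j + (i : ℤ)) = ∑ i ∈ range n, f ((i : ℤ) + j) :=
    sum_congr rfl fun i _ => by rw [add_comm]
  rw [h3, h2] at h1
  exact h1.trans hB

/-- Cauchy-Schwarz for a window. -/
theorem hold_cs {n : ℕ} {f : ℤ → ℝ} (hf : ∀ j, f (j + n) = f j) {K : ℝ} (hK : 0 ≤ K)
    (hB : ∑ j ∈ range n, f (j : ℤ) ^ 2 ≤ K / n) (j : ℤ) {m : ℕ} (hm : m ≤ n) :
    ∑ i ∈ range m, |f (j + (i : ℤ))| ≤ Real.sqrt K * Real.sqrt (m / n) := by
  have h1 := hold_window (f := fun j => f j ^ 2) (fun j => by simp only [hf])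
    (fun j => sq_nonneg _) hB j hm
  have h2 := sq_sum_le_card_mul_sum_sq (s := range m) (f := fun i => |f (j + (i : ℤ))|)
  simp only [card_range, sq_abs] at h2
  have h3 : (∑ i ∈ range m, |f (j + (i : ℤ))|) ^ 2 ≤ K * (m / n) := by
    refine h2.trans ((mul_le_mul_of_nonneg_left h1 (Nat.cast_nonneg m)).trans (le_of_eq ?_))
    ring
  rw [← Real.sqrt_mul hK]
  exact (le_abs_self _).trans (Real.abs_le_sqrt h3)

/-- **HOLD.** -/
theorem m_HOLD : Stmt_HOLD := by
  intro K0
  set K : ℝ := |K0| with hKdef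
  have hK : 0 ≤ K := abs_nonneg _
  have hsK : 0 ≤ Real.sqrt K := Real.sqrt_nonneg _
  have hpi := Real.pi_pos
  have hpi3 := Real.pi_gt_three
  refine ⟨4 * π * Real.sqrt K + 1, max 1 ⌈K⌉₊, by positivity, fun n hn c hc => ?_⟩
  have hn1 : 1 ≤ n := (le_max_left _ _).trans hn
  have hn0 : 0 < n := hn1
  have hnR : (0 : ℝ) < n := by exact_mod_cast hn0
  have hKn : K ≤ n := (Nat.le_ceil K).trans (by exact_mod_cast (le_max_right _ _).trans hn)
  have hKK : K0 / n ≤ K / n := div_le_div_of_nonneg_right (le_abs_self K0) hnR.le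
  have hy := hc.hy.trans hKK
  have hs := hc.hs.trans hKK
  have csy := fun j m hm => hold_cs (m := m) c.y_add hK hy j hm
  have css := fun j m hm => hold_cs (m := m) c.s_add hK hs j hm
  have e1 : Real.sqrt K * Real.sqrt (((1 : ℕ) : ℝ) / n) = Real.sqrt K / Real.sqrt n := by
    rw [Nat.cast_one, Real.sqrt_div zero_le_one, Real.sqrt_one]
    ring
  have hsn : 0 < Real.sqrt n := Real.sqrt_pos.2 hnR
  have hC : Real.sqrt K ≤ 4 * π * Real.sqrt K + 1 := by nlinarith
  have ya : ∀ j, |c.y j| ≤ Real.sqrt K / Real.sqrt n := fun j => by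
    have := csy j 1 hn1
    rw [e1] at this
    simpa using this
  have sa : ∀ j, |c.s j| ≤ Real.sqrt K / Real.sqrt n := fun j => by
    have := css j 1 hn1
    rw [e1] at this
    simpa using this
  have h1 : Real.sqrt K / Real.sqrt n ≤ 1 := by
    rw [div_le_one hsn]
    exact Real.sqrt_le_sqrt hKn
  have hg : ∀ j, |c.g j| ≤ 4 * π / n := fun j => by
    rw [abs_of_pos (c.g_pos j), c.g_eq hn0]
    have := (abs_le.1 ((ya j).trans h1)).2
    have h2 : 0 < 2 * π / n := by positivity
    calc 2 * π / n * (1 + c.y j) ≤ 2 * π / n * 2 := by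
          apply mul_le_mul_of_nonneg_left _ h2.le
          linarith
      _ = 4 * π / n := by ring
  refine ⟨fun j => ⟨(ya j).trans ?_, (sa j).trans ?_⟩, fun j m hm => ⟨?_, ?_⟩⟩
  · exact div_le_div_of_nonneg_right hC hsn.le
  · exact div_le_div_of_nonneg_right hC hsn.le
  · have tel : c.R (j + m) - c.R j = n * ∑ i ∈ range m, c.Δ (j + (i : ℤ)) := by
      have : ∀ k : ℕ, c.ρ (j + k) - c.ρ j = ∑ i ∈ range k, c.Δ (j + (i : ℤ)) := by
        intro k
        induction k with
        | zero => simp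
        | succ k ih =>
          rw [sum_range_succ, ← ih]
          unfold Cfg.Δ
          have : j + ((k + 1 : ℕ) : ℤ) = j + k + 1 := by push_cast; ring
          rw [this]
          ring
      unfold Cfg.R
      rw [← this m]
      ring
    rw [tel, abs_mul, abs_of_pos hnR]
    have hΔ : ∀ i : ℤ, |c.Δ i| ≤ 4 * π / n * |c.s i| := fun i => by
      have : c.Δ i = c.g i * c.s i := by
        unfold Cfg.s
        rw [mul_div_cancel₀ _ (c.g_pos i).ne']
      rw [this, abs_mul]
      exact mul_le_mul_of_nonneg_right (hg i) (abs_nonneg _)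
    calc (n : ℝ) * |∑ i ∈ range m, c.Δ (j + (i : ℤ))|
        ≤ n * ∑ i ∈ range m, 4 * π / n * |c.s (j + (i : ℤ))| := by
          apply mul_le_mul_of_nonneg_left _ hnR.le
          exact (abs_sum_le_sum_abs _ _).trans (sum_le_sum fun i _ => hΔ _)
      _ = 4 * π * ∑ i ∈ range m, |c.s (j + (i : ℤ))| := by
          rw [← mul_sum]
          field_simp
      _ ≤ 4 * π * (Real.sqrt K * Real.sqrt (m / n)) := by
          apply mul_le_mul_of_nonneg_left (css j m hm) (by positivity)
      _ ≤ (4 * π * Real.sqrt K + 1) * Real.sqrt (m / n) := by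
          have := Real.sqrt_nonneg ((m : ℝ) / n)
          nlinarith
  · have tel : c.Φ (j + m) - c.Φ j = 2 * π * ∑ i ∈ range m, c.y (j + (i : ℤ)) := by
      have : ∀ k : ℕ, c.φ (j + k) - c.φ j = 2 * π / n * ∑ i ∈ range k, c.y (j + (i : ℤ)) := by
        intro k
        induction k with
        | zero => simp
        | succ k ih =>
          rw [sum_range_succ, mul_add, ← ih]
          unfold Cfg.φ Cfg.y Cfg.g
          have : j + ((k + 1 : ℕ) : ℤ) = j + k + 1 := by push_cast; ring
          rw [this]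
          push_cast
          field_simp
          ring
      unfold Cfg.Φ
      rw [← mul_sub, this m]
      field_simp
    rw [tel, abs_mul, abs_of_pos (by positivity : (0 : ℝ) < 2 * π)]
    calc 2 * π * |∑ i ∈ range m, c.y (j + (i : ℤ))|
        ≤ 2 * π * (Real.sqrt K * Real.sqrt (m / n)) := by
          apply mul_le_mul_of_nonneg_left _ (by positivity)
          exact (abs_sum_le_sum_abs _ _).trans (csy j m hm)
      _ ≤ (4 * π * Real.sqrt K + 1) * Real.sqrt (m / n) := by
          have h2 := Real.sqrt_nonneg ((m : ℝ) / n)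
          have h3 : 0 ≤ π * Real.sqrt K * Real.sqrt (m / n) := by positivity
          nlinarith

end Pool.Agent.EHP
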