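import Pool.Agent.EHP.Stmts5

/-!
# Module EHP_IBP
-/

open Finset Filter Topology MeasureTheory
open scoped Real Interval

namespace Pool.Agent.EHP

namespace IBPaux

/-- The primitive. -/
noncomputable def pA (a : ℝ → ℝ) (x : ℝ) : ℝ := ∫ y in (0 : ℝ)..x, a y

theorem hd_pA {a : ℝ → ℝ} (ha : Continuous a) (x : ℝ) : HasDerivAt (pA a) (a x) x :=
  (ha.integral_hasStrictDerivAt 0 x).hasDerivAt

theorem cont_pA {a : ℝ → ℝ} (ha : Continuous a) : Continuous (pA a) :=
  continuous_iff_continuousAt.2 (fun x => (hd_pA ha x).continuousAt)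

theorem sin_low {t : ℝ} (h0 : 0 < t) (h1 : t ≤ π / 3) : 0 < Real.sin t ∧ t ≤ 2 * Real.sin t := by
  have hpi := Real.pi_pos
  have h2 := Real.mul_le_sin h0.le (by linarith : t ≤ π / 2)
  have h3 : 1 / 2 * t ≤ 2 / π * t := by
    apply mul_le_mul_of_nonneg_right _ h0.le
    rw [div_le_div_iff₀ (by norm_num) hpi]
    have := Real.pi_le_four
    linarith
  constructor <;> linarith

/-- `A / sin` is bounded. -/
theorem bd_pA {a : ℝ → ℝ} (ha : Continuous a) : ∃ C : ℝ, 0 ≤ C ∧ ∀ t, 0 < t → t ≤ π / 3 →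
    |pA a t / Real.sin t| ≤ C := by
  obtain ⟨C, hC⟩ := (isCompact_Icc (a := (0 : ℝ)) (b := π / 3)).exists_bound_of_continuousOn
    ha.continuousOn
  have hpi := Real.pi_pos
  have hC0 : 0 ≤ C := (norm_nonneg _).trans (hC 0 ⟨le_rfl, by positivity⟩)
  refine ⟨2 * C, by positivity, ?_⟩
  intro t h0 h1
  obtain ⟨h2, h3⟩ := sin_low h0 h1
  have h4 : ‖∫ y in (0 : ℝ)..t, a y‖ ≤ C * |t - 0| := by
    apply intervalIntegral.norm_integral_le_of_norm_le_const
    intro x hx
    rw [Set.uIoc_of_le h0.le] at hx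
    exact hC x ⟨hx.1.le, hx.2.trans h1⟩
  rw [sub_zero, abs_of_pos h0, Real.norm_eq_abs] at h4
  unfold pA
  rw [abs_div, abs_of_pos h2, div_le_iff₀ h2]
  nlinarith

theorem int_pA {a : ℝ → ℝ} (ha : Continuous a) :
    IntervalIntegrable (fun t => pA a t / Real.sin t) volume 0 (π / 3) := by
  obtain ⟨C, hC0, hC⟩ := bd_pA ha
  have hpi := Real.pi_pos
  have h1 : IntervalIntegrable (fun _ : ℝ => C) volume 0 (π / 3) := intervalIntegrable_const
  refine h1.mono_fun' ?_ ?_
  · exact ((cont_pA ha).measurable.div Real.measurable_sin).aestronglyMeasurable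
  · rw [Set.uIoc_of_le (by positivity)]
    refine (ae_restrict_iff' measurableSet_Ioc).2 (Eventually.of_forall (fun t ht => ?_))
    exact hC t ht.1 ht.2

theorem int_ls : IntervalIntegrable (fun t => Real.log (2 * Real.sin t)) volume 0 (π / 3) := by
  have hpi := Real.pi_pos
  have h1 : IntervalIntegrable (fun t => Real.log 2 + (Real.log ∘ Real.sin) t) volume 0 (π / 3) :=
    intervalIntegrable_const.add intervalIntegrable_log_sin
  refine (intervalIntegrable_congr ?_).1 h1
  intro t ht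
  rw [Set.uIoc_of_le (by positivity)] at ht
  have h2 := (sin_low ht.1 ht.2).1
  simp only [Function.comp]
  rw [Real.log_mul (by norm_num) h2.ne']

/-- The continuous part of `rh`. -/
noncomputable def G0 (t : ℝ) : ℝ := -((π / 2 - t) * Real.sin t) + Real.cos t +
  2 * (1 / 500) * Real.cos (3 * t) - t * ww t - GG (π / 3 - t)

theorem rh_eq (t : ℝ) : rh t = Real.cos t * Real.log (2 * Real.sin t) + G0 t := by
  unfold rh G0 Wk W0
  ring

/-- The continuous part of `rh1`. -/
noncomputable def G1 (t : ℝ) : ℝ := -((π / 2 - t) * Real.cos t) - 6 * (1 / 500) * Real.sin (3 * t) -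
  Wk1 (π / 3 + t) - t * ww1 t

theorem rh1_eq (t : ℝ) : rh1 t = -(Real.sin t * Real.log (2 * Real.sin t)) +
    Real.cos t ^ 2 / Real.sin t + G1 t := by
  unfold rh1 G1
  unfold Wk1
  ring

theorem cont_ww (hW : Stmt_WDER) : ContinuousOn ww (Set.Icc 0 (π / 3)) := by
  have hpi := Real.pi_pos
  intro t ht
  exact (hW.2.1 t (by linarith [ht.1]) (by linarith [ht.2])).1.continuousAt.continuousWithinAt

theorem cont_GG (hW : Stmt_WDER) : ContinuousOn (fun t => GG (π / 3 - t)) (Set.Icc 0 (π / 3)) := by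
  have hpi := Real.pi_pos
  intro t ht
  have h := (hW.2.1 (π / 3 - t) (by linarith [ht.2]) (by linarith [ht.1])).2.continuousAt
  exact (ContinuousAt.comp (f := fun t : ℝ => π / 3 - t) h (by fun_prop)).continuousWithinAt

theorem cont_G0 (hW : Stmt_WDER) : ContinuousOn G0 (Set.Icc 0 (π / 3)) := by
  have h1 := cont_ww hW
  have h2 := cont_GG hW
  unfold G0
  refine ContinuousOn.sub (ContinuousOn.sub (by fun_prop) (continuousOn_id.mul h1)) h2

theorem cont_Wk1 (hW : Stmt_WDER) : ContinuousOn (fun t => Wk1 (π / 3 + t)) (Set.Icc 0 (π / 3)) := by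
  have hpi := Real.pi_pos
  intro t ht
  have h := (hW.1 (π / 3 + t) (by linarith [ht.1]) (by linarith [ht.2])).2.1.continuousAt
  exact (ContinuousAt.comp (f := fun t : ℝ => π / 3 + t) h (by fun_prop)).continuousWithinAt

theorem cont_Wk2 (hW : Stmt_WDER) : ContinuousOn (fun t => Wk2 (π / 3 + t)) (Set.Icc 0 (π / 3)) := by
  have hpi := Real.pi_pos
  intro t ht
  have h := (hW.1 (π / 3 + t) (by linarith [ht.1]) (by linarith [ht.2])).2.2.1.continuousAt
  exact (ContinuousAt.comp (f := fun t : ℝ => π / 3 + t) h (by fun_prop)).continuousWithinAt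

theorem cont_ww1 (hW : Stmt_WDER) : ContinuousOn ww1 (Set.Icc 0 (π / 3)) := by
  have h := cont_Wk2 hW
  unfold ww1
  refine ContinuousOn.sub (continuousOn_const.mul h) ?_
  fun_prop

theorem cont_G1 (hW : Stmt_WDER) : ContinuousOn G1 (Set.Icc 0 (π / 3)) := by
  have h1 := cont_ww1 hW
  have h2 := cont_Wk1 hW
  unfold G1
  refine ContinuousOn.sub (ContinuousOn.sub (by fun_prop) h2) (continuousOn_id.mul h1)

theorem int_rh (hW : Stmt_WDER) {a : ℝ → ℝ} (ha : Continuous a) :
    IntervalIntegrable (fun x => rh x * a x) volume 0 (π / 3) := by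
  have hpi := Real.pi_pos
  have hu : [[(0 : ℝ), π / 3]] = Set.Icc 0 (π / 3) := Set.uIcc_of_le (by positivity)
  have h1 : IntervalIntegrable rh volume 0 (π / 3) := by
    have e : rh = fun t => Real.cos t * Real.log (2 * Real.sin t) + G0 t := funext rh_eq
    rw [e]
    refine (int_ls.continuousOn_mul Real.continuous_cos.continuousOn).add ?_
    apply ContinuousOn.intervalIntegrable
    rw [hu]
    exact cont_G0 hW
  exact h1.mul_continuousOn ha.continuousOn

theorem int_rh1 (hW : Stmt_WDER) {a : ℝ → ℝ} (ha : Continuous a) :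
    IntervalIntegrable (fun x => rh1 x * pA a x) volume 0 (π / 3) := by
  have hpi := Real.pi_pos
  have hu : [[(0 : ℝ), π / 3]] = Set.Icc 0 (π / 3) := Set.uIcc_of_le (by positivity)
  have e : (fun x => rh1 x * pA a x) = fun x =>
      (-(Real.sin x * pA a x)) * Real.log (2 * Real.sin x) +
      Real.cos x ^ 2 * (pA a x / Real.sin x) + G1 x * pA a x := by
    funext x
    rw [rh1_eq]
    ring
  rw [e]
  have hc := cont_pA ha
  refine ((int_ls.continuousOn_mul ?_).add ((int_pA ha).continuousOn_mul ?_)).add ?_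
  · exact (Real.continuous_sin.mul hc).neg.continuousOn
  · exact (Real.continuous_cos.pow 2).continuousOn
  · apply ContinuousOn.intervalIntegrable
    rw [hu]
    exact (cont_G1 hW).mul hc.continuousOn

theorem lim0 (hW : Stmt_WDER) {a : ℝ → ℝ} (ha : Continuous a) :
    Tendsto (fun x => rh x * pA a x) (𝓝[>] 0) (𝓝 0) := by
  have hpi := Real.pi_pos
  obtain ⟨C, hC0, hC⟩ := bd_pA ha
  have hA0 : pA a 0 = 0 := by simp [pA]
  have hmem : Set.Ioc 0 (π / 3) ∈ 𝓝[>] (0 : ℝ) := Ioc_mem_nhdsGT (by positivity)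
  have hcA : Tendsto (pA a) (𝓝[>] 0) (𝓝 0) := by
    have := (cont_pA ha).tendsto 0
    rw [hA0] at this
    exact this.mono_left nhdsWithin_le_nhds
  have hG : Tendsto G0 (𝓝[>] 0) (𝓝 (G0 0)) := by
    have h1 : ContinuousWithinAt G0 (Set.Icc 0 (π / 3)) 0 := cont_G0 hW 0 ⟨le_rfl, by positivity⟩
    have h2 : 𝓝[>] (0 : ℝ) ≤ 𝓝[Set.Icc 0 (π / 3)] 0 := by
      rw [nhdsWithin_le_iff]
      exact mem_of_superset hmem Set.Ioc_subset_Icc_self
    exact h1.mono_left h2
  have hsl : Tendsto (fun x => C * |Real.sin x * Real.log (Real.sin x)|) (𝓝[>] 0) (𝓝 0) := by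
    have h1 : Continuous (fun x => C * |Real.sin x * Real.log (Real.sin x)|) :=
      continuous_const.mul (Real.continuous_mul_log.comp Real.continuous_sin).abs
    have h2 := h1.tendsto 0
    simp only [Real.sin_zero, zero_mul, abs_zero, mul_zero] at h2
    exact h2.mono_left nhdsWithin_le_nhds
  have hs2 : Tendsto (fun x => Real.log (Real.sin x) * pA a x) (𝓝[>] 0) (𝓝 0) := by
    refine squeeze_zero_norm' ?_ hsl
    filter_upwards [hmem] with x hx
    have h1 := (sin_low hx.1 hx.2).1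
    have e : Real.log (Real.sin x) * pA a x =
        (Real.sin x * Real.log (Real.sin x)) * (pA a x / Real.sin x) := by
      field_simp
    rw [e, norm_mul, Real.norm_eq_abs, Real.norm_eq_abs, mul_comm]
    exact mul_le_mul_of_nonneg_right (hC x hx.1 hx.2) (abs_nonneg _)
  have hcos : Tendsto Real.cos (𝓝[>] 0) (𝓝 1) := by
    have := Real.continuous_cos.tendsto 0
    rw [Real.cos_zero] at this
    exact this.mono_left nhdsWithin_le_nhds
  have hall : Tendsto (fun x => Real.cos x * (Real.log 2 * pA a x + Real.log (Real.sin x) * pA a x) +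
      G0 x * pA a x) (𝓝[>] 0) (𝓝 (1 * (Real.log 2 * 0 + 0) + G0 0 * 0)) :=
    (hcos.mul ((hcA.const_mul _).add hs2)).add (hG.mul hcA)
  simp only [mul_zero, add_zero, mul_one] at hall
  refine hall.congr' ?_
  filter_upwards [hmem] with x hx
  have h1 := (sin_low hx.1 hx.2).1
  rw [rh_eq, Real.log_mul (by norm_num) h1.ne']
  ring

end IBPaux

open IBPaux in
/-- Module EHP_IBP. -/
theorem m_IBP : Stmt_WDER → Stmt_WPOS → Stmt_IBP := by
  intro hW hP a ha
  have hpi := Real.pi_pos
  have h1 := int_rh hW ha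
  have h2 := int_rh1 hW ha
  refine ⟨h1, h2, ?_⟩
  have h3 : ∫ y in (0 : ℝ)..(π / 3), (rh1 y * pA a y + rh y * a y) = 0 - 0 := by
    refine intervalIntegral.integral_eq_sub_of_hasDerivAt_of_tendsto
      (f := fun x => rh x * pA a x) (by positivity) ?_ (h2.add h1) (lim0 hW ha) ?_
    · intro x hx
      exact (hW.2.2 x hx.1 (by linarith [hx.2])).mul (hd_pA ha x)
    · have h4 : ContinuousAt (fun x => rh x * pA a x) (π / 3) :=
        (hW.2.2 (π / 3) (by positivity) (by linarith)).continuousAt.mul (cont_pA ha).continuousAt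
      have h5 := h4.tendsto
      simp only [hP.2.2, zero_mul] at h5
      exact h5.mono_left nhdsWithin_le_nhds
  rw [intervalIntegral.integral_add h2 h1] at h3
  have h6 : ∫ x in (0 : ℝ)..(π / 3), (rh1 x * ∫ y in (0 : ℝ)..x, a y) =
    ∫ x in (0 : ℝ)..(π / 3), rh1 x * pA a x := rfl
  rw [h6]
  linarith

end Pool.Agent.EHP
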