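import Pool.Agent.EHP.Stmts3

/-!
# Many pairs across a junction
-/

open Finset
open scoped Real ComplexConjugate

namespace Pool.Agent.EHP

theorem junc_sum_ge {S : Finset ℤ} {F : ℤ → ℝ} (hF : ∀ a ∈ S, 0 ≤ F a) (M : ℕ) (e : ℕ → ℤ)
    (he : Function.Injective e) (hS : ∀ i < M, e i ∈ S) :
    ∑ i ∈ range M, F (e i) ≤ ∑ a ∈ S, F a := by
  rw [← Finset.sum_image (f := F) (g := e) (s := range M) (fun x _ y _ h => he h)]
  apply Finset.sum_le_sum_of_subset_of_nonneg
  · intro a ha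
    rw [Finset.mem_image] at ha
    obtain ⟨i, hi, rfl⟩ := ha
    exact hS i (Finset.mem_range.1 hi)
  · intro a ha _
    exact hF a ha

theorem junc_tele (i M : ℕ) :
    (1 : ℝ) / (i + 1) - 1 / (i + M + 1) ≤ ∑ j ∈ range M, 1 / ((i : ℝ) + j + 1) ^ 2 := by
  induction M with
  | zero => simp
  | succ k ih =>
    rw [Finset.sum_range_succ]
    have h : (1 : ℝ) / (i + k + 1) - 1 / (i + ((k + 1 : ℕ) : ℝ) + 1) ≤ 1 / ((i : ℝ) + k + 1) ^ 2 := by
      have hp : (0 : ℝ) < (i : ℝ) + k + 1 := by positivity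
      have e : (1 : ℝ) / (i + k + 1) - 1 / (i + ((k + 1 : ℕ) : ℝ) + 1)
          = 1 / (((i : ℝ) + k + 1) * ((i : ℝ) + k + 1 + 1)) := by
        push_cast
        field_simp
        ring
      rw [e]
      apply one_div_le_one_div_of_le (by positivity)
      nlinarith
    linarith

theorem junc_double (M : ℕ) :
    Real.log ((M : ℝ) + 1) - 1 ≤
      ∑ i ∈ range M, ∑ j ∈ range M, 1 / ((i : ℝ) + j + 1) ^ 2 := by
  rcases Nat.eq_zero_or_pos M with rfl | hM
  · simp
  have hM' : (0 : ℝ) < M := by exact_mod_cast hM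
  have h1 : ∑ i ∈ range M, ((1 : ℝ) / (i + 1) - 1 / M) ≤
      ∑ i ∈ range M, ∑ j ∈ range M, 1 / ((i : ℝ) + j + 1) ^ 2 := by
    apply Finset.sum_le_sum
    intro i _
    refine le_trans ?_ (junc_tele i M)
    have : (1 : ℝ) / (i + M + 1) ≤ 1 / M := by
      apply one_div_le_one_div_of_le hM'
      have : (0 : ℝ) ≤ i := by positivity
      linarith
    linarith
  refine le_trans ?_ h1
  rw [Finset.sum_sub_distrib, Finset.sum_const, Finset.card_range, nsmul_eq_mul,
    mul_one_div_cancel hM'.ne']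
  have h2 := log_add_one_le_harmonic M
  have h3 : ((harmonic M : ℚ) : ℝ) = ∑ i ∈ range M, (1 : ℝ) / (i + 1) := by
    unfold harmonic
    push_cast
    apply Finset.sum_congr rfl
    intro i _
    rw [one_div]
  rw [h3] at h2
  push_cast at h2
  linarith

theorem m_JUNC : Stmt_JUNC := by
  intro K
  refine ⟨1, max 1 (Nat.ceil K), one_pos, ?_⟩
  intro n hn c hc v₀ w₀ h1 h2
  have hn1 : 1 ≤ n := le_trans (le_max_left _ _) hn
  have hnK : K ≤ n := le_trans (Nat.le_ceil K) (by exact_mod_cast le_trans (le_max_right _ _) hn)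
  have hnpos : (0 : ℝ) < n := by exact_mod_cast hn1
  have hπ := Real.pi_pos
  have hy1 : ∀ j : ℤ, c.y j ≤ 1 := by
    have h0 : ∀ j : ℕ, j ∈ range n → c.y (j : ℤ) ≤ 1 := by
      intro j hj
      have h := Finset.single_le_sum (f := fun j : ℕ => c.y (j : ℤ) ^ 2)
        (fun i _ => sq_nonneg _) hj
      have h' : c.y (j : ℤ) ^ 2 ≤ K / n := le_trans h hc.hy
      have h'' : K / n ≤ 1 := by rw [div_le_one hnpos]; exact hnK
      nlinarith
    intro j
    rw [← per_mod c.y_add j]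
    have hm0 := Int.emod_nonneg j (show (n : ℤ) ≠ 0 by omega)
    have hm1 := Int.emod_lt_of_pos j (show (0 : ℤ) < n by omega)
    have := h0 (j % n).toNat (by rw [Finset.mem_range]; omega)
    rwa [Int.toNat_of_nonneg hm0] at this
  have hg : ∀ j : ℤ, c.g j ≤ 4 * π / n := by
    intro j
    rw [c.g_eq hn1]
    have h3 : 0 ≤ 2 * π / n := by positivity
    have h4 : 2 * π / n * (1 + c.y j) ≤ 2 * π / n * 2 := by
      apply mul_le_mul_of_nonneg_left _ h3
      linarith [hy1 j]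
    refine le_trans h4 (le_of_eq ?_)
    ring
  have hθ : ∀ (a : ℤ) (m : ℕ), c.θ (a + m) - c.θ a ≤ m * (4 * π / n) := by
    intro a m
    induction m with
    | zero => simp
    | succ k ih =>
      have e : a + ((k + 1 : ℕ) : ℤ) = (a + k) + 1 := by push_cast; ring
      rw [e]
      have := hg (a + k)
      unfold Cfg.g at this
      push_cast
      linarith
  set M : ℕ := n / 16 with hM
  -- pointwise bound
  have hpt : ∀ i < M, ∀ j < M, (n : ℝ) ^ 2 / 100 * (1 / ((i : ℝ) + j + 1) ^ 2) ≤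
      Real.cos (c.X (w₀ + 1 + (j : ℤ)) (w₀ - (i : ℤ))) ^ 2 /
        Real.sin (c.X (w₀ + 1 + (j : ℤ)) (w₀ - (i : ℤ))) ^ 2 := by
    intro i hi j hj
    have hθ' := hθ (w₀ - (i : ℤ)) (i + j + 1)
    have e1 : w₀ - (i : ℤ) + ((i + j + 1 : ℕ) : ℤ) = w₀ + 1 + (j : ℤ) := by push_cast; ring
    rw [e1] at hθ'
    have hX0 : 0 < c.X (w₀ + 1 + (j : ℤ)) (w₀ - (i : ℤ)) := by
      unfold Cfg.X
      have := c.mono (show w₀ - (i : ℤ) < w₀ + 1 + (j : ℤ) by omega)
      linarith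
    set X := c.X (w₀ + 1 + (j : ℤ)) (w₀ - (i : ℤ)) with hX
    set s : ℝ := (i : ℝ) + j + 1 with hs
    have hs0 : 0 < s := by rw [hs]; positivity
    have hXle : X ≤ s * (2 * π / n) := by
      have e2 : X = (c.θ (w₀ + 1 + (j : ℤ)) - c.θ (w₀ - (i : ℤ))) / 2 := by rw [hX]; rfl
      rw [e2]
      push_cast at hθ'
      rw [← hs] at hθ'
      have e3 : s * (4 * π / n) = 2 * (s * (2 * π / n)) := by ring
      linarith
    have hs8 : s ≤ n / 8 := by
      have h3 : i + j + 1 + 1 ≤ 2 * M := by omega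
      have h4 : 16 * M ≤ n := by omega
      have h5 : (8 : ℝ) * (i + j + 1) ≤ n := by
        have : 8 * (i + j + 1) ≤ n := by omega
        exact_mod_cast this
      rw [hs]; linarith
    have hX4 : X ≤ π / 4 := by
      refine le_trans hXle ?_
      have : s * (2 * π / n) ≤ n / 8 * (2 * π / n) := by
        apply mul_le_mul_of_nonneg_right hs8
        positivity
      refine le_trans this (le_of_eq ?_)
      field_simp
      norm_num
    have hsin : Real.sin X ≤ s * (2 * π / n) := le_trans (Real.sin_le hX0.le) hXle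
    have hsin0 : 0 < Real.sin X := Real.sin_pos_of_pos_of_lt_pi hX0 (by linarith)
    have hcos : (1 : ℝ) / 2 ≤ Real.cos X ^ 2 := by
      have h3 : Real.cos (π / 4) ≤ Real.cos X :=
        Real.cos_le_cos_of_nonneg_of_le_pi hX0.le (by linarith) hX4
      rw [Real.cos_pi_div_four] at h3
      have h4 : (0 : ℝ) ≤ Real.sqrt 2 / 2 := by positivity
      have h5 : (Real.sqrt 2 / 2) ^ 2 ≤ Real.cos X ^ 2 := pow_le_pow_left₀ h4 h3 2
      have h6 : (Real.sqrt 2 / 2) ^ 2 = 1 / 2 := by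
        rw [div_pow, Real.sq_sqrt (by norm_num)]; norm_num
      linarith
    rw [le_div_iff₀ (by positivity)]
    have h7 : Real.sin X ^ 2 ≤ (s * (2 * π / n)) ^ 2 := pow_le_pow_left₀ hsin0.le hsin 2
    have h8 : (n : ℝ) ^ 2 / 100 * (1 / s ^ 2) * Real.sin X ^ 2 ≤
        (n : ℝ) ^ 2 / 100 * (1 / s ^ 2) * (s * (2 * π / n)) ^ 2 := by
      apply mul_le_mul_of_nonneg_left h7
      positivity
    have h9 : (n : ℝ) ^ 2 / 100 * (1 / s ^ 2) * (s * (2 * π / n)) ^ 2 = 4 * π ^ 2 / 100 := by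
      field_simp
      ring
    have h10 : π ^ 2 ≤ 10 := by
      have := Real.pi_lt_d4
      nlinarith
    rw [h9] at h8
    linarith
  have hnn : ∀ a b : ℤ, 0 ≤ Real.cos (c.X b a) ^ 2 / Real.sin (c.X b a) ^ 2 := by
    intro a b; positivity
  have hA : ∑ i ∈ range M, ∑ b ∈ Finset.Ioc w₀ (v₀ + n),
      Real.cos (c.X b (w₀ - (i : ℤ))) ^ 2 / Real.sin (c.X b (w₀ - (i : ℤ))) ^ 2 ≤
      ∑ a ∈ Finset.Ioc v₀ w₀, ∑ b ∈ Finset.Ioc w₀ (v₀ + n),
        Real.cos (c.X b a) ^ 2 / Real.sin (c.X b a) ^ 2 := by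
    refine junc_sum_ge (F := fun a => ∑ b ∈ Finset.Ioc w₀ (v₀ + n),
        Real.cos (c.X b a) ^ 2 / Real.sin (c.X b a) ^ 2) ?_ M (fun i => w₀ - (i : ℤ)) ?_ ?_
    · intro a _
      exact Finset.sum_nonneg fun b _ => hnn a b
    · intro i j h
      simp only at h
      omega
    · intro i hi
      rw [Finset.mem_Ioc]
      constructor <;> omega
  have hB : ∀ i ∈ range M, ∑ j ∈ range M, (n : ℝ) ^ 2 / 100 * (1 / ((i : ℝ) + j + 1) ^ 2) ≤
      ∑ b ∈ Finset.Ioc w₀ (v₀ + n),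
      Real.cos (c.X b (w₀ - (i : ℤ))) ^ 2 / Real.sin (c.X b (w₀ - (i : ℤ))) ^ 2 := by
    intro i hi
    rw [Finset.mem_range] at hi
    refine le_trans (Finset.sum_le_sum fun j hj => hpt i hi j (Finset.mem_range.1 hj)) ?_
    refine junc_sum_ge (F := fun b => Real.cos (c.X b (w₀ - (i : ℤ))) ^ 2 /
      Real.sin (c.X b (w₀ - (i : ℤ))) ^ 2) ?_ M (fun j => w₀ + 1 + (j : ℤ)) ?_ ?_
    · intro b _
      exact hnn _ b
    · intro j k h
      simp only at h
      omega
    · intro j hj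
      rw [Finset.mem_Ioc]
      constructor <;> omega
  have hC : (n : ℝ) ^ 2 / 100 * (Real.log ((M : ℝ) + 1) - 1) ≤
      ∑ i ∈ range M, ∑ j ∈ range M, (n : ℝ) ^ 2 / 100 * (1 / ((i : ℝ) + j + 1) ^ 2) := by
    simp only [← Finset.mul_sum]
    apply mul_le_mul_of_nonneg_left (junc_double M)
    positivity
  have hD : Real.log n - 2.8 ≤ Real.log ((M : ℝ) + 1) := by
    have h3 : (n : ℝ) / 16 ≤ (M : ℝ) + 1 := by
      have : n ≤ 16 * (M + 1) := by omega
      have : (n : ℝ) ≤ 16 * ((M : ℝ) + 1) := by exact_mod_cast this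
      linarith
    have h4 : Real.log ((n : ℝ) / 16) ≤ Real.log ((M : ℝ) + 1) :=
      Real.log_le_log (by positivity) h3
    rw [Real.log_div hnpos.ne' (by norm_num)] at h4
    have h5 : Real.log 16 = 4 * Real.log 2 := by
      rw [show (16 : ℝ) = 2 ^ 4 by norm_num, Real.log_pow]; norm_num
    have := Real.log_two_lt_d9
    linarith
  have hlog : 0 ≤ Real.log n := Real.log_nonneg (by exact_mod_cast hn1)
  have hsq : (0 : ℝ) ≤ (n : ℝ) ^ 2 := by positivity
  have hfin : (n : ℝ) ^ 2 * Real.log n / 1000 - 1 * (n : ℝ) ^ 2 ≤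
      (n : ℝ) ^ 2 / 100 * (Real.log ((M : ℝ) + 1) - 1) := by
    have h6 : (n : ℝ) ^ 2 / 100 * (Real.log n - 2.8 - 1) ≤
        (n : ℝ) ^ 2 / 100 * (Real.log ((M : ℝ) + 1) - 1) := by
      apply mul_le_mul_of_nonneg_left _ (by positivity)
      linarith
    have h7 : 0 ≤ (n : ℝ) ^ 2 * Real.log n := mul_nonneg hsq hlog
    refine le_trans ?_ h6
    nlinarith
  exact le_trans hfin (le_trans hC (le_trans (Finset.sum_le_sum hB) hA))

end Pool.Agent.EHP
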