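import Pool.Agent.EHP.Stmts6

/-!
# Module K3: the force on a short symmetric set is negative   (helper76)
-/

open Finset
open scoped Real ComplexConjugate

namespace Pool.Agent.EHP

namespace MK3

theorem la_per {N : ℕ} {z : ℤ → ℂ} (hz : ∀ j, z (j + (2 * N : ℕ)) = z j) (j : ℤ) :
    la N z (j + (2 * N : ℕ)) = la N z j := by
  unfold la
  have e : j + (2 * N : ℕ) + N = (j + N) + (2 * N : ℕ) := by ring
  rw [e, hz, hz]

theorem zq_per {N : ℕ} {z : ℤ → ℂ} (hz : ∀ j, z (j + (2 * N : ℕ)) = z j) (j : ℤ) :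
    zq N z (j + (2 * N : ℕ)) = zq N z j := by
  unfold zq
  have e : j + (2 * N : ℕ) + N = (j + N) + (2 * N : ℕ) := by ring
  rw [e, hz]

theorem t1_per {N : ℕ} {z : ℤ → ℂ} (hz : ∀ j, z (j + (2 * N : ℕ)) = z j) (a b : ℤ) :
    t1 N z a (b + (2 * N : ℕ)) = t1 N z a b := by
  unfold t1
  rw [hz, la_per hz, zq_per hz]

theorem t1_swap (N : ℕ) (z : ℤ → ℂ) (a b : ℤ) : t1 N z a b = -t1 N z b a := by
  unfold t1
  have e : (z b - z a) * (zq N z b - zq N z a) = (z a - z b) * (zq N z a - zq N z b) := by ring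
  rw [e]
  ring

/-! ### sums -/

section Sums

variable {M : Type*} [AddCommMonoid M] (F : ℤ → M)

theorem sum_Ioo (v : ℤ) (l : ℕ) : ∑ a ∈ Ioo v (v + l), F a = ∑ s ∈ Ico 1 l, F (v + s) := by
  refine Finset.sum_nbij' (fun a => (a - v).toNat) (fun s => v + s) ?_ ?_ ?_ ?_ ?_
  · intro a ha
    rw [Finset.mem_Ioo] at ha
    rw [Finset.mem_Ico]
    omega
  · intro s hs
    rw [Finset.mem_Ico] at hs
    rw [Finset.mem_Ioo]
    omega
  · intro a ha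
    rw [Finset.mem_Ioo] at ha
    show v + ((a - v).toNat : ℤ) = a
    omega
  · intro s hs
    show (v + (s : ℤ) - v).toNat = s
    omega
  · intro a ha
    rw [Finset.mem_Ioo] at ha
    congr 1
    omega

theorem sum_Ioo' (v : ℤ) (l : ℕ) : ∑ a ∈ Ioo v (v + l), F a = ∑ s ∈ Ico 1 l, F (v + l - s) := by
  refine Finset.sum_nbij' (fun a => (v + l - a).toNat) (fun s => v + l - s) ?_ ?_ ?_ ?_ ?_
  · intro a ha
    rw [Finset.mem_Ioo] at ha
    rw [Finset.mem_Ico]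
    omega
  · intro s hs
    rw [Finset.mem_Ico] at hs
    rw [Finset.mem_Ioo]
    omega
  · intro a ha
    rw [Finset.mem_Ioo] at ha
    show v + l - ((v + l - a).toNat : ℤ) = a
    omega
  · intro s hs
    rw [Finset.mem_Ico] at hs
    show (v + l - (v + l - (s : ℤ))).toNat = s
    omega
  · intro a ha
    rw [Finset.mem_Ioo] at ha
    congr 1
    omega

theorem sum_Icc_right (x : ℤ) (T : ℕ) :
    ∑ b ∈ Icc x (x + T), F b = ∑ t ∈ range (T + 1), F (x + t) := by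
  refine Finset.sum_nbij' (fun a => (a - x).toNat) (fun s => x + s) ?_ ?_ ?_ ?_ ?_
  · intro a ha
    rw [Finset.mem_Icc] at ha
    rw [Finset.mem_range]
    omega
  · intro s hs
    rw [Finset.mem_range] at hs
    rw [Finset.mem_Icc]
    omega
  · intro a ha
    rw [Finset.mem_Icc] at ha
    show x + ((a - x).toNat : ℤ) = a
    omega
  · intro s hs
    show (x + (s : ℤ) - x).toNat = s
    omega
  · intro a ha
    rw [Finset.mem_Icc] at ha
    congr 1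
    omega

theorem sum_Icc_left (y : ℤ) (T : ℕ) :
    ∑ b ∈ Icc (y - T) y, F b = ∑ t ∈ range (T + 1), F (y - t) := by
  refine Finset.sum_nbij' (fun a => (y - a).toNat) (fun s => y - s) ?_ ?_ ?_ ?_ ?_
  · intro a ha
    rw [Finset.mem_Icc] at ha
    rw [Finset.mem_range]
    omega
  · intro s hs
    rw [Finset.mem_range] at hs
    rw [Finset.mem_Icc]
    omega
  · intro a ha
    rw [Finset.mem_Icc] at ha
    show y - ((y - a).toNat : ℤ) = a
    omega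
  · intro s hs
    show (y - (y - (s : ℤ))).toNat = s
    omega
  · intro a ha
    rw [Finset.mem_Icc] at ha
    congr 1
    omega

theorem split_right {x y z : ℤ} (h1 : x ≤ y + 1) (h2 : y ≤ z) :
    ∑ b ∈ Icc x z, F b = ∑ b ∈ Icc x y, F b + ∑ b ∈ Ioc y z, F b := by
  rw [← Finset.sum_union]
  · refine Finset.sum_congr ?_ fun _ _ => rfl
    ext b
    rw [Finset.mem_union, Finset.mem_Icc, Finset.mem_Icc, Finset.mem_Ioc]
    omega
  · rw [Finset.disjoint_left]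
    intro b hb hb'
    rw [Finset.mem_Icc] at hb
    rw [Finset.mem_Ioc] at hb'
    omega

theorem split_left {x y z : ℤ} (h1 : x ≤ y) (h2 : y ≤ z + 1) :
    ∑ b ∈ Icc x z, F b = ∑ b ∈ Icc y z, F b + ∑ b ∈ Ico x y, F b := by
  rw [← Finset.sum_union]
  · refine Finset.sum_congr ?_ fun _ _ => rfl
    ext b
    rw [Finset.mem_union, Finset.mem_Icc, Finset.mem_Icc, Finset.mem_Ico]
    omega
  · rw [Finset.disjoint_left]
    intro b hb hb'
    rw [Finset.mem_Icc] at hb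
    rw [Finset.mem_Ico] at hb'
    omega

theorem split_Ico {x y z : ℤ} (h1 : x ≤ y) (h2 : y ≤ z) :
    ∑ b ∈ Ico x z, F b = ∑ b ∈ Ico x y, F b + ∑ b ∈ Ico y z, F b := by
  rw [← Finset.sum_union]
  · refine Finset.sum_congr ?_ fun _ _ => rfl
    ext b
    rw [Finset.mem_union, Finset.mem_Ico, Finset.mem_Ico, Finset.mem_Ico]
    omega
  · rw [Finset.disjoint_left]
    intro b hb hb'
    rw [Finset.mem_Ico] at hb hb'
    omega

end Sums

theorem le_sum_Ico {F : ℤ → ℝ} {x : ℤ} {l : ℕ} {m : ℝ} (h : ∀ j, x ≤ j → j < x + l → m ≤ F j) :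
    l * m ≤ ∑ j ∈ Ico x (x + l), F j := by
  have h1 := Finset.card_nsmul_le_sum (Ico x (x + (l : ℤ))) F m fun j hj => by
    rw [Finset.mem_Ico] at hj
    exact h j hj.1 hj.2
  rw [Int.card_Ico] at h1
  have e : (x + (l : ℤ) - x).toNat = l := by omega
  rw [e, nsmul_eq_mul] at h1
  exact h1

theorem sum_Ico_le {F : ℤ → ℝ} {x : ℤ} {l : ℕ} {m : ℝ} (h : ∀ j, x ≤ j → j < x + l → F j ≤ m) :
    ∑ j ∈ Ico x (x + l), F j ≤ l * m := by
  have h1 := Finset.sum_le_card_nsmul (Ico x (x + (l : ℤ))) F m fun j hj => by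
    rw [Finset.mem_Ico] at hj
    exact h j hj.1 hj.2
  rw [Int.card_Ico] at h1
  have e : (x + (l : ℤ) - x).toNat = l := by omega
  rw [e, nsmul_eq_mul] at h1
  exact h1

theorem norm_sum_le_const {S : Finset ℤ} {F : ℤ → ℂ} {m : ℝ} {k : ℕ} (hS : #S ≤ k) (hm : 0 ≤ m)
    (h : ∀ j ∈ S, ‖F j‖ ≤ m) : ‖∑ j ∈ S, F j‖ ≤ k * m := by
  refine (norm_sum_le _ _).trans ((Finset.sum_le_card_nsmul S _ m h).trans ?_)
  rw [nsmul_eq_mul]
  exact mul_le_mul_of_nonneg_right (by exact_mod_cast hS) hm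

/-! ### near pairs -/

/-- the standing hypotheses of `K3` -/
structure Hyp (N : ℕ) (c : Cfg (2 * N)) (L : ℤ → ℤ) (v : ℤ) (l : ℕ) : Prop where
  hp : ∀ j, |pp N L j| = 1 / 2
  l2 : 2 ≤ l
  lN : 20 * l ≤ N
  left : ∀ j : ℤ, 10 * (v - j) ≤ N → j < v → pp N L j = -(1 / 2)
  right : ∀ j : ℤ, v + l ≤ j → 10 * (j - (v + l)) ≤ N → pp N L j = 1 / 2
  u : ∀ j : ℤ, 10 * (v - j) ≤ N → 10 * (j - (v + l)) ≤ N → |uu N c j| ≤ 1 / 10

/-- the conclusion of `K3NEAR` -/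
def NearB (N : ℕ) (c : Cfg (2 * N)) (L : ℤ → ℤ) (v : ℤ) (C : ℝ) : Prop :=
  ∀ a b : ℤ, a < b → 2 * (b - a) ≤ N →
      |(Complex.exp ((c.θ v : ℂ) * Complex.I) * t1 N c.z a b).re +
        (∑ j ∈ Finset.Ico a b, (pp N L j - uu N c j)) / ((b : ℝ) - a) ^ 2| ≤
      C * (1 / ((b : ℝ) - a) ^ 2 + ((b : ℝ) - a + |(a : ℝ) - v|) /
        (((b : ℝ) - a) * Real.sqrt ((b : ℝ) - a) * Real.sqrt (2 * N : ℕ)))

/-- the main term -/
noncomputable def mt (s t : ℕ) : ℝ := (3 / 5 * (s : ℝ) - 2 / 5 * t) / ((t : ℝ) + s) ^ 2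

/-- the error term -/
noncomputable def et (N l s t : ℕ) : ℝ := 1 / ((t : ℝ) + s) ^ 2 + ((t : ℝ) + s + 2 * l) /
      (((t : ℝ) + s) * Real.sqrt ((t : ℝ) + s) * Real.sqrt (2 * N : ℕ))

/-- the error term of `K3NEAR` -/
theorem err_le {N l s t : ℕ} (hs : 1 ≤ s) {C x : ℝ} (hC : 0 ≤ C) (hx : x ≤ 2 * l ∨ x ≤ t) :
    C * (1 / ((t : ℝ) + s) ^ 2 + ((t : ℝ) + s + x) /
      (((t : ℝ) + s) * Real.sqrt ((t : ℝ) + s) * Real.sqrt (2 * N : ℕ))) ≤ 2 * C * et N l s t := by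
  have hs' : (1 : ℝ) ≤ s := by exact_mod_cast hs
  have ht : (0 : ℝ) ≤ t := Nat.cast_nonneg t
  have hl : (0 : ℝ) ≤ l := Nat.cast_nonneg l
  have h1 : (t : ℝ) + s + x ≤ 2 * ((t : ℝ) + s + 2 * l) := by
    rcases hx with h | h <;> linarith
  have h2 : ((t : ℝ) + s + x) / (((t : ℝ) + s) * Real.sqrt ((t : ℝ) + s) * Real.sqrt (2 * N : ℕ)) ≤
      2 * (((t : ℝ) + s + 2 * l) /
        (((t : ℝ) + s) * Real.sqrt ((t : ℝ) + s) * Real.sqrt (2 * N : ℕ))) := by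
    rw [← mul_div_assoc]
    exact div_le_div_of_nonneg_right h1 (by positivity)
  have h3 : 0 ≤ 1 / ((t : ℝ) + s) ^ 2 := by positivity
  unfold et
  calc _ ≤ C * (2 * (1 / ((t : ℝ) + s) ^ 2) + 2 * (((t : ℝ) + s + 2 * l) /
        (((t : ℝ) + s) * Real.sqrt ((t : ℝ) + s) * Real.sqrt (2 * N : ℕ)))) := by
        refine mul_le_mul_of_nonneg_left ?_ hC
        linarith
    _ = _ := by ring

theorem near_right {N : ℕ} {c : Cfg (2 * N)} {L : ℤ → ℤ} {v : ℤ} {l : ℕ} {C : ℝ} (hC : 0 ≤ C)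
    (h : Hyp N c L v l) (hN : NearB N c L v C) {s t : ℕ} (hs : s ∈ Ico 1 l)
    (ht : t ∈ range (N / 10 + 1)) :
    (Complex.exp ((c.θ v : ℂ) * Complex.I) * t1 N c.z (v + l - s) (v + l + t)).re ≤
      mt s t + 2 * C * et N l s t := by
  rw [Finset.mem_Ico] at hs
  rw [Finset.mem_range] at ht
  have hl2 := h.l2
  have hlN := h.lN
  have h1 := hN (v + l - s) (v + l + t) (by omega) (by omega)
  have e1 : (((v + l + t : ℤ) : ℝ)) - ((v + l - s : ℤ) : ℝ) = (t : ℝ) + s := by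
    push_cast
    ring
  rw [e1] at h1
  have hs1 : (1 : ℝ) ≤ s := by exact_mod_cast hs.1
  have hsl : (s : ℝ) ≤ l := by exact_mod_cast hs.2.le
  have ht0 : (0 : ℝ) ≤ t := Nat.cast_nonneg t
  have e2 : |((v + l - s : ℤ) : ℝ) - v| ≤ 2 * l := by
    have e3 : ((v + l - s : ℤ) : ℝ) - v = l - s := by
      push_cast
      ring
    rw [e3, abs_of_nonneg (by linarith)]
    linarith
  have h2 := err_le (N := N) (l := l) (t := t) hs.1 hC (Or.inl e2)
  have h3 := (h1.trans h2)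
  rw [abs_le] at h3
  have h4 : -(3 / 5 * (s : ℝ)) + 2 / 5 * t ≤
      ∑ j ∈ Finset.Ico (v + l - s) (v + l + t), (pp N L j - uu N c j) := by
    rw [split_Ico _ (show v + l - s ≤ v + (l : ℤ) by omega) (show v + (l : ℤ) ≤ v + l + t by omega)]
    have e3 : v + (l : ℤ) = (v + l - s) + (s : ℤ) := by ring
    have h5 : (s : ℝ) * (-(3 / 5)) ≤ ∑ j ∈ Ico (v + l - s) (v + (l : ℤ)), (pp N L j - uu N c j) := by
      conv_rhs => rw [e3]
      rw [show v + l - s + (s : ℤ) - s = v + l - s by ring]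
      refine le_sum_Ico fun j hj1 hj2 => ?_
      have h6 := h.u j (by omega) (by omega)
      have h7 := h.hp j
      rw [abs_le] at h6
      have h8 : -(1 / 2) ≤ pp N L j := by
        rw [← h7]
        exact neg_abs_le _
      linarith [h6.2]
    have h6 : (t : ℝ) * (2 / 5) ≤ ∑ j ∈ Ico (v + (l : ℤ)) (v + l + t), (pp N L j - uu N c j) := by
      refine le_sum_Ico fun j hj1 hj2 => ?_
      have h7 := h.u j (by omega) (by omega)
      rw [abs_le] at h7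
      rw [h.right j hj1 (by omega)]
      linarith [h7.2]
    linarith
  have h5 : (-(3 / 5 * (s : ℝ)) + 2 / 5 * t) / ((t : ℝ) + s) ^ 2 ≤
      (∑ j ∈ Finset.Ico (v + l - s) (v + l + t), (pp N L j - uu N c j)) / ((t : ℝ) + s) ^ 2 :=
    div_le_div_of_nonneg_right h4 (by positivity)
  have h6 : mt s t = -((-(3 / 5 * (s : ℝ)) + 2 / 5 * t) / ((t : ℝ) + s) ^ 2) := by
    unfold mt
    ring
  rw [h6]
  linarith [h3.2]

theorem near_left {N : ℕ} {c : Cfg (2 * N)} {L : ℤ → ℤ} {v : ℤ} {l : ℕ} {C : ℝ} (hC : 0 ≤ C)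
    (h : Hyp N c L v l) (hN : NearB N c L v C) {s t : ℕ} (hs : s ∈ Ico 1 l)
    (ht : t ∈ range (N / 10 + 1)) :
    (Complex.exp ((c.θ v : ℂ) * Complex.I) * t1 N c.z (v + s) (v + (2 * N : ℕ) - t)).re ≤
      mt s t + 2 * C * et N l s t := by
  rw [Finset.mem_Ico] at hs
  rw [Finset.mem_range] at ht
  have hl2 := h.l2
  have hlN := h.lN
  have e0 : v + ((2 * N : ℕ) : ℤ) - t = (v - t) + (2 * N : ℕ) := by ring
  rw [e0, t1_per c.z_add, t1_swap]
  have h1 := hN (v - t) (v + s) (by omega) (by omega)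
  have e1 : (((v + s : ℤ) : ℝ)) - ((v - t : ℤ) : ℝ) = (t : ℝ) + s := by
    push_cast
    ring
  rw [e1] at h1
  have hs1 : (1 : ℝ) ≤ s := by exact_mod_cast hs.1
  have ht0 : (0 : ℝ) ≤ t := Nat.cast_nonneg t
  have e2 : |((v - t : ℤ) : ℝ) - v| ≤ t := by
    have e3 : ((v - t : ℤ) : ℝ) - v = -t := by
      push_cast
      ring
    rw [e3, abs_neg, abs_of_nonneg ht0]
  have h2 := err_le (N := N) (l := l) (t := t) hs.1 hC (Or.inr e2)
  have h3 := (h1.trans h2)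
  rw [abs_le] at h3
  have h4 : ∑ j ∈ Finset.Ico (v - t) (v + s), (pp N L j - uu N c j) ≤ 3 / 5 * (s : ℝ) - 2 / 5 * t := by
    rw [split_Ico _ (show v - t ≤ v by omega) (show v ≤ v + (s : ℤ) by omega)]
    have h5 : ∑ j ∈ Ico v (v + (s : ℤ)), (pp N L j - uu N c j) ≤ (s : ℝ) * (3 / 5) := by
      refine sum_Ico_le fun j hj1 hj2 => ?_
      have h6 := h.u j (by omega) (by omega)
      have h7 := h.hp j
      rw [abs_le] at h6
      have h8 : pp N L j ≤ 1 / 2 := by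
        rw [← h7]
        exact le_abs_self _
      linarith [h6.1]
    have h6 : ∑ j ∈ Ico (v - t) v, (pp N L j - uu N c j) ≤ (t : ℝ) * (-(2 / 5)) := by
      have e3 : ∑ j ∈ Ico (v - t) v, (pp N L j - uu N c j) =
          ∑ j ∈ Ico (v - t) ((v - t) + (t : ℤ)), (pp N L j - uu N c j) := by
        rw [show v - t + (t : ℤ) = v by ring]
      rw [e3]
      refine sum_Ico_le fun j hj1 hj2 => ?_
      have h7 := h.u j (by omega) (by omega)
      rw [abs_le] at h7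
      rw [h.left j (by omega) (by omega)]
      linarith [h7.1]
    linarith
  have h5 : (∑ j ∈ Finset.Ico (v - t) (v + s), (pp N L j - uu N c j)) / ((t : ℝ) + s) ^ 2 ≤ mt s t :=
    div_le_div_of_nonneg_right h4 (by positivity)
  rw [mul_neg, Complex.neg_re]
  linarith [h3.1]

/-! ### far pairs -/

/-- the conclusion of `K3B` -/
def FarB (N : ℕ) (c : Cfg (2 * N)) (C : ℝ) : Prop :=
    (∀ a : ℤ, ‖∑ d ∈ Finset.Ico 1 (2 * N), t2 N c.z a (a + (d : ℤ))‖ ≤ C) ∧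
    ∀ a b : ℤ, (N : ℤ) ≤ 12 * (b - a) → (N : ℤ) ≤ 12 * (a + 2 * N - b) →
      ‖t1 N c.z a b‖ ≤ C / (2 * N : ℕ) ∧ ‖t2 N c.z a b‖ ≤ C / (2 * N : ℕ)

theorem half {N : ℕ} (hN : 0 < N) (C : ℝ) : (N : ℝ) * (C / (2 * N : ℕ)) = C / 2 := by
  have h : (N : ℝ) ≠ 0 := by exact_mod_cast hN.ne'
  push_cast
  field_simp

theorem far_part {N : ℕ} {c : Cfg (2 * N)} {C : ℝ} (hC : 0 < C) (hF : FarB N c C) {v : ℤ} {l : ℕ}
    (hl : 20 * l ≤ N) {a : ℤ} (ha : a ∈ Ioo v (v + (l : ℤ))) :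
    ‖∑ b ∈ Ioc (v + (l : ℤ) + (N / 10 : ℕ)) (v + N), t1 N c.z a b +
      ∑ b ∈ Ico (v + (l : ℤ) + N) (v + 2 * N - (N / 10 : ℕ)), t1 N c.z a b +
      (∑ d ∈ Finset.Ico 1 (2 * N), t2 N c.z a (a + (d : ℤ)) -
        ∑ b ∈ Finset.Ioo v (v + (l : ℤ)), t2 N c.z a (b + N))‖ ≤ 3 * C := by
  rw [Finset.mem_Ioo] at ha
  have hN : 0 < N := by omega
  have hc0 : 0 ≤ C / (2 * N : ℕ) := by positivity
  have h1 : ‖∑ b ∈ Ioc (v + (l : ℤ) + (N / 10 : ℕ)) (v + N), t1 N c.z a b‖ ≤ C / 2 := by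
    rw [← half hN]
    refine norm_sum_le_const ?_ hc0 fun j hj => ?_
    · rw [Int.card_Ioc]
      omega
    · rw [Finset.mem_Ioc] at hj
      exact (hF.2 a j (by omega) (by omega)).1
  have h2 : ‖∑ b ∈ Ico (v + (l : ℤ) + N) (v + 2 * N - (N / 10 : ℕ)), t1 N c.z a b‖ ≤ C / 2 := by
    rw [← half hN]
    refine norm_sum_le_const ?_ hc0 fun j hj => ?_
    · rw [Int.card_Ico]
      omega
    · rw [Finset.mem_Ico] at hj
      exact (hF.2 a j (by omega) (by omega)).1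
  have h3 : ‖∑ b ∈ Finset.Ioo v (v + (l : ℤ)), t2 N c.z a (b + N)‖ ≤ C / 2 := by
    rw [← half hN]
    refine norm_sum_le_const ?_ hc0 fun j hj => ?_
    · rw [Int.card_Ioo]
      omega
    · rw [Finset.mem_Ioo] at hj
      exact (hF.2 a (j + N) (by omega) (by omega)).2
  have h4 := hF.1 a
  refine (norm_add_le _ _).trans ?_
  have h5 := norm_add_le (∑ b ∈ Ioc (v + (l : ℤ) + (N / 10 : ℕ)) (v + N), t1 N c.z a b)
    (∑ b ∈ Ico (v + (l : ℤ) + N) (v + 2 * N - (N / 10 : ℕ)), t1 N c.z a b)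
  have h6 := norm_sub_le (∑ d ∈ Finset.Ico 1 (2 * N), t2 N c.z a (a + (d : ℤ)))
    (∑ b ∈ Finset.Ioo v (v + (l : ℤ)), t2 N c.z a (b + N))
  linarith

theorem log_part {N l : ℕ} (hl : 2 ≤ l) (hlN : 20 * l ≤ N) :
    1 / 2 * Real.log (N / (10 * (l : ℝ))) - 1 ≤ 4 / 5 * Real.log (((N / 10 : ℕ) : ℝ) / l) := by
  have hl' : (2 : ℝ) ≤ l := by exact_mod_cast hl
  have hN' : 20 * (l : ℝ) ≤ N := by exact_mod_cast hlN
  have h1 : (N : ℝ) / 20 ≤ ((N / 10 : ℕ) : ℝ) := by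
    have h2 : N ≤ 20 * (N / 10) := by omega
    have h3 : (N : ℝ) ≤ 20 * ((N / 10 : ℕ) : ℝ) := by exact_mod_cast h2
    linarith
  have h2 : Real.log (N / (10 * (l : ℝ))) - 1 ≤ Real.log (((N / 10 : ℕ) : ℝ) / l) := by
    have e : (N : ℝ) / (10 * (l : ℝ)) = 2 * ((N : ℝ) / 20 / l) := by
      field_simp
      ring
    have hN0 : (0 : ℝ) < N := by linarith
    have hp : 0 < (N : ℝ) / 20 / l := by positivity
    rw [e, Real.log_mul (by norm_num) hp.ne']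
    have h3 : Real.log ((N : ℝ) / 20 / l) ≤ Real.log (((N / 10 : ℕ) : ℝ) / l) :=
      Real.log_le_log hp (div_le_div_of_nonneg_right h1 (by positivity))
    have h4 := Real.log_two_lt_d9
    linarith
  have h3 : 0 ≤ Real.log (N / (10 * (l : ℝ))) := by
    apply Real.log_nonneg
    rw [le_div_iff₀ (by positivity)]
    linarith
  linarith

theorem re_le {e x : ℂ} (he : ‖e‖ = 1) : (e * x).re ≤ ‖x‖ := by
  refine (Complex.re_le_norm _).trans (le_of_eq ?_)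
  rw [norm_mul, he, one_mul]

end MK3

open MK3 in
theorem m_K3 : Stmt_K3A → Stmt_K3B → Stmt_K3NEAR → Stmt_K3SUM → Stmt_K3 := by
  intro hA hB hNe hS K
  obtain ⟨C₁, n₁, hC₁, h₁⟩ := hB K
  obtain ⟨C₂, n₂, hC₂, h₂⟩ := hNe K
  obtain ⟨C₃, hC₃, h₃⟩ := hS
  refine ⟨1 + 2 * C₃ + 4 * C₂ * C₃ + 3 * C₁, max n₁ n₂, by positivity, ?_⟩
  intro N hN c hc L hL hp hpa v w hvw hwN hleft hright hu
  obtain ⟨l, hl⟩ := Int.eq_ofNat_of_zero_le (show 0 ≤ w - v by omega)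
  have hw : w = v + (l : ℤ) := by omega
  subst hw
  have hl2 : 2 ≤ l := by omega
  have hlN : 20 * l ≤ N := by omega
  have hN0 : 0 < N := by omega
  have hF : FarB N c C₁ := h₁ N ((le_max_left _ _).trans hN) c hc
  have hNB : NearB N c L v C₂ := fun a b hab hab2 =>
    h₂ N ((le_max_right _ _).trans hN) c hc L hL hp hpa v a b hab hab2
  have hyp : Hyp N c L v l := ⟨hp, hl2, hlN, hleft, hright, hu⟩
  set e : ℂ := Complex.exp ((c.θ v : ℂ) * Complex.I) with he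
  have he1 : ‖e‖ = 1 := Complex.norm_exp_ofReal_mul_I _
  have hKA := hA N c.z hN0 hc.opt.pts c.z_ne v (v + l) (by omega) (by omega)
  rw [hKA]
  -- split
  have hsp : ∑ a ∈ Finset.Ioo v (v + (l : ℤ)), (∑ b ∈ Finset.Icc (v + (l : ℤ)) (v + N), t1 N c.z a b +
        ∑ b ∈ Finset.Icc (v + (l : ℤ) + N) (v + 2 * N), t1 N c.z a b) +
      ∑ a ∈ Finset.Ioo v (v + (l : ℤ)), (∑ d ∈ Finset.Ico 1 (2 * N), t2 N c.z a (a + (d : ℤ)) -
        ∑ b ∈ Finset.Ioo v (v + (l : ℤ)), t2 N c.z a (b + N)) =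
      ∑ a ∈ Finset.Ioo v (v + (l : ℤ)), ∑ b ∈ Icc (v + (l : ℤ)) (v + (l : ℤ) + (N / 10 : ℕ)),
        t1 N c.z a b +
      ∑ a ∈ Finset.Ioo v (v + (l : ℤ)), ∑ b ∈ Icc (v + (2 * N : ℕ) - (N / 10 : ℕ)) (v + (2 * N : ℕ)),
        t1 N c.z a b +
      ∑ a ∈ Finset.Ioo v (v + (l : ℤ)),
        (∑ b ∈ Ioc (v + (l : ℤ) + (N / 10 : ℕ)) (v + N), t1 N c.z a b +
        ∑ b ∈ Ico (v + (l : ℤ) + N) (v + 2 * N - (N / 10 : ℕ)), t1 N c.z a b +
        (∑ d ∈ Finset.Ico 1 (2 * N), t2 N c.z a (a + (d : ℤ)) -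
          ∑ b ∈ Finset.Ioo v (v + (l : ℤ)), t2 N c.z a (b + N))) := by
    rw [← Finset.sum_add_distrib, ← Finset.sum_add_distrib, ← Finset.sum_add_distrib]
    refine Finset.sum_congr rfl fun a _ => ?_
    rw [split_right (fun b => t1 N c.z a b)
      (show v + (l : ℤ) ≤ v + (l : ℤ) + (N / 10 : ℕ) + 1 by omega)
      (show v + (l : ℤ) + (N / 10 : ℕ) ≤ v + N by omega),
      split_left (fun b => t1 N c.z a b)
      (show v + (l : ℤ) + N ≤ v + 2 * N - (N / 10 : ℕ) by omega)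
      (show v + 2 * N - (N / 10 : ℕ) ≤ v + 2 * (N : ℤ) + 1 by omega)]
    have e3 : v + ((2 * N : ℕ) : ℤ) = v + 2 * N := by push_cast; ring
    rw [e3]
    ring
  rw [hsp, mul_add, mul_add, Complex.add_re, Complex.add_re]
  obtain ⟨g1, g2⟩ := h₃ l (N / 10) (2 * N) hl2 (by omega) (by omega)
  have g1' : ∑ s ∈ Finset.Ico 1 l, ∑ t ∈ range (N / 10 + 1), mt s t ≤
      -((l : ℝ) - 1) * (2 / 5 * Real.log (((N / 10 : ℕ) : ℝ) / l) - C₃) := g1
  have g2' : ∑ s ∈ Finset.Ico 1 l, ∑ t ∈ range (N / 10 + 1), et N l s t ≤ C₃ * ((l : ℝ) - 1) := g2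
  have hnear : ∑ s ∈ Finset.Ico 1 l, ∑ t ∈ range (N / 10 + 1), (mt s t + 2 * C₂ * et N l s t) ≤
      -((l : ℝ) - 1) * (2 / 5 * Real.log (((N / 10 : ℕ) : ℝ) / l) - C₃) +
        2 * C₂ * (C₃ * ((l : ℝ) - 1)) := by
    simp only [Finset.sum_add_distrib, ← Finset.mul_sum]
    exact add_le_add g1' (mul_le_mul_of_nonneg_left g2' (by positivity))
  have b1 : (e * ∑ a ∈ Finset.Ioo v (v + (l : ℤ)),
      ∑ b ∈ Icc (v + (l : ℤ)) (v + (l : ℤ) + (N / 10 : ℕ)), t1 N c.z a b).re ≤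
      -((l : ℝ) - 1) * (2 / 5 * Real.log (((N / 10 : ℕ) : ℝ) / l) - C₃) +
        2 * C₂ * (C₃ * ((l : ℝ) - 1)) := by
    refine le_trans ?_ hnear
    rw [sum_Ioo', Finset.mul_sum, Complex.re_sum]
    refine Finset.sum_le_sum fun s hs => ?_
    rw [sum_Icc_right, Finset.mul_sum, Complex.re_sum]
    exact Finset.sum_le_sum fun t ht => near_right hC₂.le hyp hNB hs ht
  have b2 : (e * ∑ a ∈ Finset.Ioo v (v + (l : ℤ)),
      ∑ b ∈ Icc (v + (2 * N : ℕ) - (N / 10 : ℕ)) (v + (2 * N : ℕ)), t1 N c.z a b).re ≤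
      -((l : ℝ) - 1) * (2 / 5 * Real.log (((N / 10 : ℕ) : ℝ) / l) - C₃) +
        2 * C₂ * (C₃ * ((l : ℝ) - 1)) := by
    refine le_trans ?_ hnear
    rw [sum_Ioo, Finset.mul_sum, Complex.re_sum]
    refine Finset.sum_le_sum fun s hs => ?_
    rw [sum_Icc_left, Finset.mul_sum, Complex.re_sum]
    exact Finset.sum_le_sum fun t ht => near_left hC₂.le hyp hNB hs ht
  have b3 : (e * ∑ a ∈ Finset.Ioo v (v + (l : ℤ)),
        (∑ b ∈ Ioc (v + (l : ℤ) + (N / 10 : ℕ)) (v + N), t1 N c.z a b +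
        ∑ b ∈ Ico (v + (l : ℤ) + N) (v + 2 * N - (N / 10 : ℕ)), t1 N c.z a b +
        (∑ d ∈ Finset.Ico 1 (2 * N), t2 N c.z a (a + (d : ℤ)) -
          ∑ b ∈ Finset.Ioo v (v + (l : ℤ)), t2 N c.z a (b + N)))).re ≤ ((l : ℝ) - 1) * (3 * C₁) := by
    refine (re_le he1).trans ?_
    have h6 := norm_sum_le_const (S := Finset.Ioo v (v + (l : ℤ))) (k := l - 1) (m := 3 * C₁)
      (F := fun a => (∑ b ∈ Ioc (v + (l : ℤ) + (N / 10 : ℕ)) (v + N), t1 N c.z a b +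
        ∑ b ∈ Ico (v + (l : ℤ) + N) (v + 2 * N - (N / 10 : ℕ)), t1 N c.z a b +
        (∑ d ∈ Finset.Ico 1 (2 * N), t2 N c.z a (a + (d : ℤ)) -
          ∑ b ∈ Finset.Ioo v (v + (l : ℤ)), t2 N c.z a (b + N)))) (by
        rw [Int.card_Ioo]
        omega) (by positivity) fun a ha => far_part hC₁ hF hlN ha
    rw [Nat.cast_sub (by omega), Nat.cast_one] at h6
    exact h6
  have hlog := log_part hl2 hlN
  have hl1 : (0 : ℝ) ≤ (l : ℝ) - 1 := by
    have : (2 : ℝ) ≤ l := by exact_mod_cast hl2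
    linarith
  have e4 : (((v + (l : ℤ) : ℤ) : ℝ)) - v = l := by
    push_cast
    ring
  rw [e4]
  have h7 := mul_le_mul_of_nonneg_left hlog hl1
  nlinarith [h7, b1, b2, b3]

end Pool.Agent.EHP
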