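import Pool.Agent.EHP.Stmts6

/-!
# Algebra of the force on an antipodally symmetric set
-/

open Finset
open scoped Real ComplexConjugate

namespace Pool.Agent.EHP

namespace K3A

/-- The sum over a period, over any interval. -/
theorem per_Ioc {n : ℕ} {G : ℤ → ℂ} (hG : ∀ j, G (j + n) = G j) (v : ℤ) :
    ∑ j ∈ range n, G (j : ℤ) = ∑ j ∈ Finset.Ioc v (v + n), G j := by
  rw [← sum_shift hG (v + 1)]
  symm
  apply Finset.sum_nbij' (fun k : ℤ => (k - (v + 1)).toNat) (fun t : ℕ => (t : ℤ) + (v + 1))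
  · intro k hk
    simp only [Finset.mem_Ioc, Finset.mem_range] at *
    omega
  · intro t ht
    simp only [Finset.mem_Ioc, Finset.mem_range] at *
    omega
  · intro k hk
    simp only [Finset.mem_Ioc] at hk
    omega
  · intro t ht
    simp only [Finset.mem_range] at ht
    omega
  · intro k hk
    simp only [Finset.mem_Ioc] at hk
    congr 1
    omega

theorem split (f : ℤ → ℂ) {a b c : ℤ} (h1 : a ≤ b) (h2 : b ≤ c) :
    ∑ j ∈ Finset.Ioc a c, f j = ∑ j ∈ Finset.Ioc a b, f j + ∑ j ∈ Finset.Ioc b c, f j := by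
  rw [← Finset.Ioc_union_Ioc_eq_Ioc h1 h2, Finset.sum_union]
  exact Finset.Ioc_disjoint_Ioc_of_le le_rfl

theorem shift (f : ℤ → ℂ) (a b m : ℤ) :
    ∑ j ∈ Finset.Ioc (a + m) (b + m), f j = ∑ j ∈ Finset.Ioc a b, f (j + m) := by
  apply Finset.sum_nbij' (fun k : ℤ => k - m) (fun k : ℤ => k + m)
  · intro k hk; simp only [Finset.mem_Ioc] at *; omega
  · intro k hk; simp only [Finset.mem_Ioc] at *; omega
  · intro k _; ring
  · intro k _; ring
  · intro k _; congr 1; ring

/-- The sum over a period, split into the four arcs. -/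
theorem four (f : ℤ → ℂ) {N : ℕ} {v w : ℤ} (h1 : v < w) (h2 : w ≤ v + N) :
    ∑ j ∈ Finset.Ioc v (v + ((2 * N : ℕ) : ℤ)), f j =
      ∑ j ∈ Finset.Ioc v (w - 1), f j + ∑ j ∈ Finset.Ioc (w - 1) (v + N), f j +
      (∑ j ∈ Finset.Ioc v (w - 1), f (j + N) + ∑ j ∈ Finset.Ioc (w - 1) (v + N), f (j + N)) := by
  have e1 : ((2 * N : ℕ) : ℤ) = 2 * N := by push_cast; ring
  rw [e1, split f (a := v) (b := v + N) (c := v + 2 * N) (by omega) (by omega),
    split f (a := v) (b := w - 1) (c := v + N) (by omega) (by omega)]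
  have e2 : v + 2 * (N : ℤ) = (v + N) + N := by ring
  rw [e2, shift f v (v + N) N,
    split (fun j => f (j + N)) (a := v) (b := w - 1) (c := v + N) (by omega) (by omega)]

theorem four_per (f : ℤ → ℂ) {N : ℕ} {v w : ℤ} (h1 : v < w) (h2 : w ≤ v + N)
    (hf : ∀ j, f (j + ((2 * N : ℕ) : ℤ)) = f j) :
    ∑ j ∈ range (2 * N), f (j : ℤ) =
      ∑ j ∈ Finset.Ioc v (w - 1), f j + ∑ j ∈ Finset.Ioc (w - 1) (v + N), f j +
      (∑ j ∈ Finset.Ioc v (w - 1), f (j + N) + ∑ j ∈ Finset.Ioc (w - 1) (v + N), f (j + N)) := by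
  rw [per_Ioc hf v, four f h1 h2]

/-- A sum over all the others. -/
theorem others {n : ℕ} (hn : 0 < n) {f : ℤ → ℂ} (hf : ∀ j, f (j + n) = f j) (v : ℤ)
    (h0 : f v = 0) : ∑ d ∈ Ico 1 n, f (v + (d : ℤ)) = ∑ j ∈ range n, f (j : ℤ) := by
  have h1 := sum_shift hf v
  rw [← h1, Finset.range_eq_Ico, Finset.sum_eq_sum_Ico_succ_bot hn]
  have h2 : f (((0 : ℕ) : ℤ) + v) = 0 := by rw [Nat.cast_zero, zero_add, h0]
  rw [h2, zero_add]
  apply Finset.sum_congr rfl
  intro d _
  rw [add_comm]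

/-- Membership in the symmetric set. -/
theorem mem_arc {N : ℕ} {v w : ℤ} (h1 : v < w) (h2 : w ≤ v + N) {j : ℤ} (h3 : v < j)
    (h4 : j ≤ v + 2 * N) :
    j ∈ arc2 (2 * N) v (w - 1) (v + N) (w + N - 1) ↔
      (j ≤ w - 1 ∨ (v + N < j ∧ j ≤ w + N - 1)) := by
  constructor
  · rintro ⟨k, hk⟩
    push_cast at hk
    have hk0 : k = 0 := by
      by_contra hne
      rcases lt_or_gt_of_ne hne with h5 | h5
      · have : k * (2 * (N : ℤ)) ≤ -(2 * (N : ℤ)) := by nlinarith
        omega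
      · have : k * (2 * (N : ℤ)) ≥ (2 * (N : ℤ)) := by nlinarith
        omega
    rw [hk0] at hk
    simp only [zero_mul, add_zero] at hk
    omega
  · intro hj
    refine ⟨0, ?_⟩
    simp only [zero_mul, add_zero]
    omega

theorem arc_per (n : ℕ) (a b p q : ℤ) (j : ℤ) :
    j + n ∈ arc2 n a b p q ↔ j ∈ arc2 n a b p q := by
  constructor
  · rintro ⟨k, hk⟩
    refine ⟨k + 1, ?_⟩
    have : j + (k + 1) * (n : ℤ) = j + n + k * n := by ring
    rw [this]; exact hk
  · rintro ⟨k, hk⟩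
    refine ⟨k - 1, ?_⟩
    have : j + n + (k - 1) * (n : ℤ) = j + k * n := by ring
    rw [this]; exact hk

end K3A

open K3A in
theorem m_K3A : Stmt_K3A := by
  intro N z hN hz hz0 v w hvw hwv
  classical
  have hn : 0 < 2 * N := by omega
  set n : ℕ := 2 * N with hnN
  have hnZ : (n : ℤ) = 2 * N := by rw [hnN]; push_cast; ring
  set C := arc2 n v (w - 1) (v + N) (w + N - 1) with hC
  set F : ℤ → ℤ → ℂ := fun a b => 1 / (z a - z b) with hF
  have hzp : ∀ j, z (j + n) = z j := hz.per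
  have hCp : ∀ j, (j + (n : ℤ) ∈ C) = (j ∈ C) := fun j => propext (arc_per n _ _ _ _ j)
  -- arcs
  have inA : ∀ j ∈ Finset.Ioc v (w - 1), j ∈ C ∧ j + N ∈ C := by
    intro j hj
    have hj' := Finset.mem_Ioc.1 hj
    constructor
    · exact (mem_arc hvw hwv (by omega) (by omega)).2 (Or.inl hj'.2)
    · exact (mem_arc hvw hwv (by omega) (by omega)).2 (Or.inr (by omega))
  have inB : ∀ j ∈ Finset.Ioc (w - 1) (v + N), j ∉ C ∧ j + N ∉ C := by
    intro j hj
    have hj' := Finset.mem_Ioc.1 hj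
    constructor
    · intro h
      have := (mem_arc hvw hwv (by omega) (by omega)).1 h
      omega
    · intro h
      have := (mem_arc hvw hwv (by omega) (by omega)).1 h
      omega
  -- the inner sum
  have hg : ∀ a : ℤ, (∑ b ∈ range n, if (b : ℤ) ∉ C then F a b else 0) =
      ∑ b ∈ Finset.Ioc (w - 1) (v + N), F a b + ∑ b ∈ Finset.Ioc (w - 1) (v + N), F a (b + N) := by
    intro a
    rw [four_per (fun b => if b ∉ C then F a b else 0) hvw hwv (by
      intro j
      show (if j + (n : ℤ) ∉ C then F a (j + n) else 0) = if j ∉ C then F a j else 0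
      simp only [hCp, hF, hzp])]
    have e1 : ∑ j ∈ Finset.Ioc v (w - 1), (if j ∉ C then F a j else 0) = 0 := by
      apply Finset.sum_eq_zero
      intro j hj
      rw [if_neg (not_not.2 (inA j hj).1)]
    have e2 : ∑ j ∈ Finset.Ioc v (w - 1), (if j + (N : ℤ) ∉ C then F a (j + N) else 0) = 0 := by
      apply Finset.sum_eq_zero
      intro j hj
      rw [if_neg (not_not.2 (inA j hj).2)]
    have e3 : ∑ j ∈ Finset.Ioc (w - 1) (v + N), (if j ∉ C then F a j else 0) =
        ∑ b ∈ Finset.Ioc (w - 1) (v + N), F a b := by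
      apply Finset.sum_congr rfl
      intro j hj
      rw [if_pos (inB j hj).1]
    have e4 : ∑ j ∈ Finset.Ioc (w - 1) (v + N), (if j + (N : ℤ) ∉ C then F a (j + N) else 0) =
        ∑ b ∈ Finset.Ioc (w - 1) (v + N), F a (b + N) := by
      apply Finset.sum_congr rfl
      intro j hj
      rw [if_pos (inB j hj).2]
    rw [e1, e2, e3, e4, zero_add, zero_add]
  have hFC : FC n z C = ∑ a ∈ Finset.Ioc v (w - 1),
      ((∑ b ∈ Finset.Ioc (w - 1) (v + N), F a b + ∑ b ∈ Finset.Ioc (w - 1) (v + N), F a (b + N)) +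
       (∑ b ∈ Finset.Ioc (w - 1) (v + N), F (a + N) b +
        ∑ b ∈ Finset.Ioc (w - 1) (v + N), F (a + N) (b + N))) := by
    unfold FC
    have e1 : ∀ a ∈ range n, (∑ d ∈ Ico 1 n,
        if (a : ℤ) ∈ C ∧ (a : ℤ) + (d : ℤ) ∉ C then 1 / (z (a : ℤ) - z ((a : ℤ) + (d : ℤ))) else 0) =
        (fun a : ℤ => if a ∈ C then (∑ b ∈ range n, if (b : ℤ) ∉ C then F a b else 0) else 0)
          (a : ℤ) := by
      intro a _
      have h1 := others hn (f := fun b => if (a : ℤ) ∈ C ∧ b ∉ C then F a b else 0) (by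
        intro j
        show (if (a : ℤ) ∈ C ∧ j + (n : ℤ) ∉ C then F a (j + n) else 0) =
          if (a : ℤ) ∈ C ∧ j ∉ C then F a j else 0
        simp only [hCp, hF, hzp]) (a : ℤ) (by
          show (if (a : ℤ) ∈ C ∧ (a : ℤ) ∉ C then F a a else 0) = 0
          rw [if_neg (fun h => h.2 h.1)])
      refine Eq.trans ?_ (h1.trans ?_)
      · apply Finset.sum_congr rfl
        intro d _
        rfl
      · show (∑ b ∈ range n, if (a : ℤ) ∈ C ∧ (b : ℤ) ∉ C then F a b else 0) =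
          if (a : ℤ) ∈ C then (∑ b ∈ range n, if (b : ℤ) ∉ C then F a b else 0) else 0
        by_cases ha : (a : ℤ) ∈ C
        · simp only [ha, true_and, if_true]
        · simp only [ha, false_and, if_false, Finset.sum_const_zero]
    rw [Finset.sum_congr rfl e1, four_per
      (fun a : ℤ => if a ∈ C then (∑ b ∈ range n, if (b : ℤ) ∉ C then F a b else 0) else 0)
      hvw hwv (by
      intro j
      show (if j + (n : ℤ) ∈ C then (∑ b ∈ range n, if (b : ℤ) ∉ C then F (j + n) b else 0) else 0) =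
        if j ∈ C then (∑ b ∈ range n, if (b : ℤ) ∉ C then F j b else 0) else 0
      simp only [hCp, hF, hzp])]
    have e2 : ∑ j ∈ Finset.Ioc (w - 1) (v + N),
        (if j ∈ C then (∑ b ∈ range n, if (b : ℤ) ∉ C then F j b else 0) else 0) = 0 := by
      apply Finset.sum_eq_zero
      intro j hj
      rw [if_neg (inB j hj).1]
    have e3 : ∑ j ∈ Finset.Ioc (w - 1) (v + N),
        (if j + (N : ℤ) ∈ C then (∑ b ∈ range n, if (b : ℤ) ∉ C then F (j + N) b else 0) else 0) =
          0 := by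
      apply Finset.sum_eq_zero
      intro j hj
      rw [if_neg (inB j hj).2]
    rw [e2, e3, add_zero, add_zero, ← Finset.sum_add_distrib]
    apply Finset.sum_congr rfl
    intro a ha
    rw [if_pos (inA a ha).1, if_pos (inA a ha).2, hg, hg]
  -- the sums with `a + N`
  have hswap : ∀ a : ℤ, ∑ b ∈ Finset.Ioc (w - 1) (v + N), F (a + N) b =
      ∑ b ∈ Finset.Ioc (w - 1) (v + N), F (a + N) (b + N + N) := by
    intro a
    apply Finset.sum_congr rfl
    intro b _
    have : b + (N : ℤ) + N = b + n := by rw [hnZ]; ring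
    simp only [hF]
    rw [this, hzp]
  -- the bracket
  have hbr : ∀ a b : ℤ, ¬ (n : ℤ) ∣ a - b → F a b + F (a + N) (b + N) = t1 N z a b + t2 N z a b := by
    intro a b hab
    have h1 : z a - z b ≠ 0 := fun h => hab (hz.inj a b (sub_eq_zero.1 h))
    have h2 : z (a + N) - z (b + N) ≠ 0 := fun h => by
      have := hz.inj (a + N) (b + N) (sub_eq_zero.1 h)
      apply hab
      have e : a + (N : ℤ) - (b + N) = a - b := by ring
      rwa [e] at this
    have h3 := hz0 a
    have h4 := hz0 b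
    simp only [hF]
    unfold t1 t2 la zq
    have h5 : -z (a + N) - -z (b + N) ≠ 0 := by
      intro h; apply h2; linear_combination -h
    field_simp
    ring
  have hnd : ∀ a ∈ Finset.Ioc v (w - 1), ∀ b ∈ Finset.Ioc (w - 1) (v + N),
      ¬ (n : ℤ) ∣ a - b ∧ ¬ (n : ℤ) ∣ a - (b + N) := by
    intro a ha b hb
    have ha' := Finset.mem_Ioc.1 ha
    have hb' := Finset.mem_Ioc.1 hb
    constructor
    · rintro ⟨k, hk⟩
      rw [hnZ] at hk
      rcases lt_trichotomy k 0 with h5 | h5 | h5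
      · have : 2 * (N : ℤ) * k ≤ -(2 * (N : ℤ)) := by nlinarith
        omega
      · rw [h5] at hk; omega
      · have : 2 * (N : ℤ) * k ≥ (2 * (N : ℤ)) := by nlinarith
        omega
    · rintro ⟨k, hk⟩
      rw [hnZ] at hk
      rcases lt_trichotomy k 0 with h5 | h5 | h5
      · have : 2 * (N : ℤ) * k ≤ -(2 * (N : ℤ)) := by nlinarith
        omega
      · rw [h5] at hk; omega
      · have : 2 * (N : ℤ) * k ≥ (2 * (N : ℤ)) := by nlinarith
        omega
  -- the sum in terms of `t1` and `t2`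
  have hFC2 : FC n z C = ∑ a ∈ Finset.Ioc v (w - 1),
      ((∑ b ∈ Finset.Ioc (w - 1) (v + N), t1 N z a b +
        ∑ b ∈ Finset.Ioc (w - 1) (v + N), t1 N z a (b + N)) +
       (∑ b ∈ Finset.Ioc (w - 1) (v + N), t2 N z a b +
        ∑ b ∈ Finset.Ioc (w - 1) (v + N), t2 N z a (b + N))) := by
    rw [hFC]
    apply Finset.sum_congr rfl
    intro a ha
    rw [hswap a]
    have e1 : ∑ b ∈ Finset.Ioc (w - 1) (v + N), F a b +
        ∑ b ∈ Finset.Ioc (w - 1) (v + N), F (a + N) (b + N) =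
        ∑ b ∈ Finset.Ioc (w - 1) (v + N), t1 N z a b +
        ∑ b ∈ Finset.Ioc (w - 1) (v + N), t2 N z a b := by
      rw [← Finset.sum_add_distrib, ← Finset.sum_add_distrib]
      apply Finset.sum_congr rfl
      intro b hb
      exact hbr a b (hnd a ha b hb).1
    have e2 : ∑ b ∈ Finset.Ioc (w - 1) (v + N), F a (b + N) +
        ∑ b ∈ Finset.Ioc (w - 1) (v + N), F (a + N) (b + N + N) =
        ∑ b ∈ Finset.Ioc (w - 1) (v + N), t1 N z a (b + N) +
        ∑ b ∈ Finset.Ioc (w - 1) (v + N), t2 N z a (b + N) := by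
      rw [← Finset.sum_add_distrib, ← Finset.sum_add_distrib]
      apply Finset.sum_congr rfl
      intro b hb
      exact hbr a (b + N) (hnd a ha b hb).2
    linear_combination e1 + e2
  -- the sums of `t2`
  have ht2per : ∀ a b : ℤ, t2 N z a (b + n) = t2 N z a b := by
    intro a b
    unfold t2 la zq
    have : b + (n : ℤ) + N = b + N + n := by ring
    rw [this, hzp, hzp]
  have ht2self : ∀ a : ℤ, t2 N z a a = 0 := by
    intro a; unfold t2; rw [sub_self, div_zero]
  have ht2anti : ∀ a b : ℤ, t2 N z b a = -t2 N z a b := by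
    intro a b
    unfold t2
    rw [← neg_sub (zq N z a) (zq N z b), div_neg, add_comm (la N z b)]
  have hall : ∀ a : ℤ, ∑ d ∈ Finset.Ico 1 n, t2 N z a (a + (d : ℤ)) =
      ∑ j ∈ Finset.Ioc v (w - 1), t2 N z a j + ∑ j ∈ Finset.Ioc (w - 1) (v + N), t2 N z a j +
      (∑ j ∈ Finset.Ioc v (w - 1), t2 N z a (j + N) +
        ∑ j ∈ Finset.Ioc (w - 1) (v + N), t2 N z a (j + N)) := by
    intro a
    rw [others hn (f := fun b => t2 N z a b) (fun b => ht2per a b) a (ht2self a),
      four_per (fun b => t2 N z a b) hvw hwv (fun b => ht2per a b)]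
  have hanti : ∑ a ∈ Finset.Ioc v (w - 1), ∑ b ∈ Finset.Ioc v (w - 1), t2 N z a b = 0 := by
    have h1 : ∑ a ∈ Finset.Ioc v (w - 1), ∑ b ∈ Finset.Ioc v (w - 1), t2 N z a b =
        -∑ a ∈ Finset.Ioc v (w - 1), ∑ b ∈ Finset.Ioc v (w - 1), t2 N z a b := by
      conv_lhs => rw [Finset.sum_comm]
      rw [← Finset.sum_neg_distrib]
      apply Finset.sum_congr rfl
      intro a _
      rw [← Finset.sum_neg_distrib]
      apply Finset.sum_congr rfl
      intro b _
      exact ht2anti a b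
    have h2 : (2 : ℂ) * ∑ a ∈ Finset.Ioc v (w - 1), ∑ b ∈ Finset.Ioc v (w - 1), t2 N z a b = 0 := by
      linear_combination h1
    exact (mul_eq_zero.1 h2).resolve_left (by norm_num)
  -- rewrite the index sets
  have i1 : Finset.Ioo v w = Finset.Ioc v (w - 1) := by
    ext j; simp only [Finset.mem_Ioo, Finset.mem_Ioc]; omega
  have i2 : Finset.Icc w (v + N) = Finset.Ioc (w - 1) (v + N) := by
    ext j; simp only [Finset.mem_Icc, Finset.mem_Ioc]; omega
  have i3 : Finset.Icc (w + N) (v + 2 * N) = Finset.Ioc (w - 1 + N) (v + N + N) := by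
    ext j; simp only [Finset.mem_Icc, Finset.mem_Ioc]; omega
  rw [hFC2, i1, i2, i3]
  have e5 : ∀ a : ℤ, ∑ b ∈ Finset.Ioc (w - 1 + N) (v + N + N), t1 N z a b =
      ∑ b ∈ Finset.Ioc (w - 1) (v + N), t1 N z a (b + N) := fun a => shift _ _ _ _
  simp only [e5, hall]
  rw [Finset.sum_add_distrib]
  congr 1
  have e6 : ∑ a ∈ Finset.Ioc v (w - 1), (∑ j ∈ Finset.Ioc v (w - 1), t2 N z a j +
      ∑ j ∈ Finset.Ioc (w - 1) (v + N), t2 N z a j +
      (∑ j ∈ Finset.Ioc v (w - 1), t2 N z a (j + N) +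
        ∑ j ∈ Finset.Ioc (w - 1) (v + N), t2 N z a (j + N)) -
      ∑ b ∈ Finset.Ioc v (w - 1), t2 N z a (b + N)) =
      ∑ a ∈ Finset.Ioc v (w - 1), ∑ j ∈ Finset.Ioc v (w - 1), t2 N z a j +
      ∑ a ∈ Finset.Ioc v (w - 1), (∑ j ∈ Finset.Ioc (w - 1) (v + N), t2 N z a j +
        ∑ j ∈ Finset.Ioc (w - 1) (v + N), t2 N z a (j + N)) := by
    rw [← Finset.sum_add_distrib]
    apply Finset.sum_congr rfl
    intro a _
    ring
  rw [e6, hanti, zero_add]

end Pool.Agent.EHP
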