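import Pool.Agent.EHP.Stmts6
import Pool.Agent.EHP.Base

/-!
# Bounded parts of the force: `Stmt_K3B` (helper12)
-/

open Finset
open scoped Real ComplexConjugate

namespace Pool.Agent.EHP

namespace MK3B

/-! ### distances from below -/

theorem gap {n : ℕ} (c : Cfg n) (hn : 0 < n) (hy : ∀ j, |c.y j| ≤ 1 / 2) (j : ℤ) (d : ℕ) :
    π / n * d ≤ c.θ (j + d) - c.θ j := by
  induction d with
  | zero => simp
  | succ d ih =>
    have h1 : c.θ (j + (d + 1 : ℕ)) - c.θ j = c.g (j + d) + (c.θ (j + d) - c.θ j) := by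
      unfold Cfg.g
      push_cast
      rw [add_assoc]
      ring
    have h2 : π / n ≤ c.g (j + d) := by
      rw [c.g_eq hn]
      have h3 := (abs_le.1 (hy (j + d))).1
      have h4 : (0 : ℝ) < 2 * π / n := by
        have : (0 : ℝ) < n := by exact_mod_cast hn
        positivity
      have h5 : π / n = 2 * π / n * (1 / 2) := by ring
      rw [h5]
      exact mul_le_mul_of_nonneg_left (by linarith) h4.le
    rw [h1]
    push_cast
    linarith

theorem low {n : ℕ} (c : Cfg n) (hn : 0 < n) (hy : ∀ j, |c.y j| ≤ 1 / 2)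
    (hρ : ∀ j, |c.ρ j| ≤ 1) (j : ℤ) (d : ℕ) (hd : d ≤ n) :
    ((min d (n - d) : ℕ) : ℝ) / (2 * n) ≤ ‖c.z (j + d) - c.z j‖ := by
  have hn0 : (0 : ℝ) < n := by exact_mod_cast hn
  have hpi := Real.pi_pos
  set m : ℝ := ((min d (n - d) : ℕ) : ℝ) with hm
  have hm0 : 0 ≤ m := Nat.cast_nonneg _
  have hmd : m ≤ d := by
    rw [hm]
    exact_mod_cast min_le_left _ _
  have hmn : m ≤ (n : ℝ) - d := by
    rw [hm, ← Nat.cast_sub hd]
    exact_mod_cast min_le_right _ _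
  have h1 := gap c hn hy j d
  have h2 := gap c hn hy (j + d) (n - d)
  have h3 : c.θ (j + d + ((n - d : ℕ) : ℤ)) = c.θ j + 2 * π := by
    rw [← c.θ_add j]
    congr 1
    push_cast [Nat.cast_sub hd]
    ring
  rw [h3] at h2
  have hX : c.X (j + d) j = (c.θ (j + d) - c.θ j) / 2 := rfl
  have hX1 : π / n * m ≤ 2 * c.X (j + d) j := by
    have : π / n * m ≤ π / n * d := mul_le_mul_of_nonneg_left hmd (by positivity)
    rw [hX]
    linarith
  have hX2 : π / n * m ≤ 2 * (π - c.X (j + d) j) := by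
    have : π / n * m ≤ π / n * ((n - d : ℕ) : ℝ) :=
      mul_le_mul_of_nonneg_left (by rw [Nat.cast_sub hd]; exact hmn) (by positivity)
    rw [hX]
    linarith
  have hnn : 0 ≤ π / n * m := by positivity
  have hs : m / n ≤ Real.sin (c.X (j + d) j) := by
    have e1 : m / n = 2 / π * (π / n * m / 2) := by field_simp
    rcases le_total (c.X (j + d) j) (π / 2) with h | h
    · have h4 := Real.mul_le_sin (x := c.X (j + d) j) (by linarith) h
      rw [e1]
      exact (mul_le_mul_of_nonneg_left (by linarith) (by positivity)).trans h4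
    · have h4 := Real.mul_le_sin (x := π - c.X (j + d) j) (by linarith) (by linarith)
      rw [Real.sin_pi_sub] at h4
      rw [e1]
      exact (mul_le_mul_of_nonneg_left (by linarith) (by positivity)).trans h4
  have h5 := c.dist_sq (j + d) j
  have h6 : (1 : ℝ) / 16 ≤ Real.exp (c.ρ (j + d) + c.ρ j) := by
    have a1 := (abs_le.1 (hρ (j + d))).1
    have a2 := (abs_le.1 (hρ j)).1
    have a3 : Real.exp (-2) ≤ Real.exp (c.ρ (j + d) + c.ρ j) := Real.exp_le_exp.2 (by linarith)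
    have a4 : Real.exp (-2) = (Real.exp 1)⁻¹ ^ 2 := by
      rw [← Real.exp_neg, ← Real.exp_nat_mul]
      norm_num
    have a5 := Real.exp_one_lt_d9
    have a6 : (1 : ℝ) / 4 ≤ (Real.exp 1)⁻¹ := by
      rw [one_div]
      exact inv_anti₀ (Real.exp_pos 1) (by linarith)
    have a7 : (1 / 4 : ℝ) ^ 2 ≤ (Real.exp 1)⁻¹ ^ 2 := pow_le_pow_left₀ (by norm_num) a6 2
    have a8 : (1 / 4 : ℝ) ^ 2 = 1 / 16 := by norm_num
    rw [a4] at a3
    linarith
  have h7 : (m / (2 * n)) ^ 2 ≤ ‖c.z (j + d) - c.z j‖ ^ 2 := by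
    rw [h5]
    have b1 : 0 ≤ m / n := by positivity
    have b2 : (m / n) ^ 2 ≤ Real.sin (c.X (j + d) j) ^ 2 := pow_le_pow_left₀ b1 hs 2
    have b3 : 0 ≤ Real.sinh (c.Y (j + d) j) ^ 2 := sq_nonneg _
    have b4 : (m / (2 * n)) ^ 2 = 4 * (1 / 16) * (m / n) ^ 2 := by
      field_simp
      ring
    rw [b4]
    exact mul_le_mul (by linarith) (by linarith) (sq_nonneg _) (by positivity)
  exact (pow_le_pow_iff_left₀ (by positivity) (norm_nonneg _) (by norm_num)).1 h7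

/-! ### the antipodal defect -/

/-- `z_{j+N} / z_j = - exp (nu j)` -/
noncomputable def nu {n : ℕ} (N : ℕ) (c : Cfg n) (j : ℤ) : ℂ :=
  ((c.ρ (j + N) - c.ρ j : ℝ) : ℂ) + ((c.φ (j + N) - c.φ j : ℝ) : ℂ) * Complex.I

theorem la_eq {N : ℕ} (hN : 1 ≤ N) (c : Cfg (2 * N)) (j : ℤ) :
    la N c.z j = 1 - Complex.exp (nu N c j) := by
  have hN0 : (0 : ℝ) < N := by exact_mod_cast hN
  have h1 : c.θ (j + N) - c.θ j = (c.φ (j + N) - c.φ j) + π := by
    unfold Cfg.φ
    push_cast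
    field_simp
    ring
  unfold la Cfg.z
  rw [← Complex.exp_sub]
  have h2 : ((c.ρ (j + N) : ℝ) : ℂ) + ((c.θ (j + N) : ℝ) : ℂ) * Complex.I -
      (((c.ρ j : ℝ) : ℂ) + ((c.θ j : ℝ) : ℂ) * Complex.I) = nu N c j + π * Complex.I := by
    unfold nu
    have h3 : ((c.θ (j + N) : ℝ) : ℂ) = (c.θ j : ℂ) + (((c.φ (j + N) - c.φ j : ℝ) : ℂ) + π) := by
      rw [← Complex.ofReal_add, ← Complex.ofReal_add]
      congr 1
      linarith
    rw [h3]
    push_cast
    ring
  rw [h2, Complex.exp_add, Complex.exp_pi_mul_I]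
  ring

theorem nu_norm {n N : ℕ} (c : Cfg n) {A : ℝ} (hρ : ∀ j, |c.ρ j| ≤ A) (hφ : ∀ j, |c.φ j| ≤ A)
    (j : ℤ) : ‖nu N c j‖ ≤ 4 * A := by
  unfold nu
  refine (norm_add_le _ _).trans ?_
  rw [norm_mul, Complex.norm_I, mul_one, Complex.norm_real, Complex.norm_real,
    Real.norm_eq_abs, Real.norm_eq_abs]
  have h1 := abs_sub (c.ρ (j + N)) (c.ρ j)
  have h2 := abs_sub (c.φ (j + N)) (c.φ j)
  have := hρ j
  have := hρ (j + N)
  have := hφ j
  have := hφ (j + N)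
  linarith

theorem la_norm {N : ℕ} (hN : 1 ≤ N) (c : Cfg (2 * N)) {A : ℝ} (hA : 4 * A ≤ 1)
    (hρ : ∀ j, |c.ρ j| ≤ A) (hφ : ∀ j, |c.φ j| ≤ A) (j : ℤ) : ‖la N c.z j‖ ≤ 8 * A := by
  rw [la_eq hN, norm_sub_rev]
  have h1 := nu_norm (N := N) c hρ hφ j
  have h2 := Complex.norm_exp_sub_one_le (h1.trans hA)
  linarith

theorem la_diff {N : ℕ} (hN : 1 ≤ N) (c : Cfg (2 * N)) {A B : ℝ} (hA : 8 * A ≤ 1)
    (hρ : ∀ j, |c.ρ j| ≤ A) (hφ : ∀ j, |c.φ j| ≤ A) (i j : ℤ)
    (h1 : |c.ρ i - c.ρ j| ≤ B) (h2 : |c.ρ (i + N) - c.ρ (j + N)| ≤ B)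
    (h3 : |c.φ i - c.φ j| ≤ B) (h4 : |c.φ (i + N) - c.φ (j + N)| ≤ B) :
    ‖la N c.z i - la N c.z j‖ ≤ 24 * B := by
  rw [la_eq hN, la_eq hN]
  have e1 : 1 - Complex.exp (nu N c i) - (1 - Complex.exp (nu N c j)) =
      -(Complex.exp (nu N c j) * (Complex.exp (nu N c i - nu N c j) - 1)) := by
    rw [mul_sub, ← Complex.exp_add]
    ring_nf
  have hi := nu_norm (N := N) c hρ hφ i
  have hj := nu_norm (N := N) c hρ hφ j
  have hd : ‖nu N c i - nu N c j‖ ≤ 1 := (norm_sub_le _ _).trans (by linarith)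
  have h5 := Complex.norm_exp_sub_one_le hd
  have h6 : ‖Complex.exp (nu N c j)‖ ≤ 3 := by
    have h61 : ‖Complex.exp (nu N c j)‖ ≤ Real.exp ‖nu N c j‖ := Complex.norm_exp_le_exp_norm _
    have h62 : Real.exp ‖nu N c j‖ ≤ Real.exp 1 := Real.exp_le_exp.2 (by
      have : 0 ≤ A := (abs_nonneg _).trans (hρ 0)
      linarith)
    have := Real.exp_one_lt_d9
    linarith
  have h7 : ‖nu N c i - nu N c j‖ ≤ 4 * B := by
    have e2 : nu N c i - nu N c j =
        (((c.ρ (i + N) - c.ρ (j + N)) - (c.ρ i - c.ρ j) : ℝ) : ℂ) +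
        (((c.φ (i + N) - c.φ (j + N)) - (c.φ i - c.φ j) : ℝ) : ℂ) * Complex.I := by
      unfold nu
      push_cast
      ring
    rw [e2]
    refine (norm_add_le _ _).trans ?_
    rw [norm_mul, Complex.norm_I, mul_one, Complex.norm_real, Complex.norm_real,
      Real.norm_eq_abs, Real.norm_eq_abs]
    have a1 := abs_sub (c.ρ (i + N) - c.ρ (j + N)) (c.ρ i - c.ρ j)
    have a2 := abs_sub (c.φ (i + N) - c.φ (j + N)) (c.φ i - c.φ j)
    linarith
  rw [e1, norm_neg, norm_mul]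
  calc ‖Complex.exp (nu N c j)‖ * ‖Complex.exp (nu N c i - nu N c j) - 1‖ ≤
      3 * (2 * (4 * B)) :=
        mul_le_mul h6 (h5.trans (by linarith)) (norm_nonneg _) (by norm_num)
    _ = 24 * B := by ring

/-! ### Hölder -/

theorem hold {n : ℕ} (f : ℤ → ℝ) (hf : ∀ j, f (j + n) = f j) {D : ℝ}
    (h : ∀ (j : ℤ) (m : ℕ), m ≤ n → |f (j + m) - f j| ≤ D * Real.sqrt (m / n)) (a : ℤ) (d : ℕ)
    (hd : d ≤ n) : |f (a + d) - f a| ≤ D * Real.sqrt (((min d (n - d) : ℕ) : ℝ) / n) := by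
  rcases le_total d (n - d) with h1 | h1
  · rw [min_eq_left h1]
    exact h a d hd
  · rw [min_eq_right h1]
    have h2 := h (a + d) (n - d) (Nat.sub_le _ _)
    have h3 : a + (d : ℤ) + ((n - d : ℕ) : ℤ) = a + n := by
      push_cast [Nat.cast_sub hd]
      ring
    rw [h3, hf, abs_sub_comm] at h2
    exact h2

theorem sum_inv_sqrt0 (n : ℕ) : ∑ d ∈ Ico 1 (n + 1), 1 / Real.sqrt d ≤ 2 * Real.sqrt n := by
  induction n with
  | zero => simp
  | succ n ih =>
    rw [Finset.sum_Ico_succ_top (by omega)]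
    have hn : (0 : ℝ) ≤ n := Nat.cast_nonneg n
    have h0 : 0 < Real.sqrt ((n : ℝ) + 1) := Real.sqrt_pos.2 (by linarith)
    have h2 : 1 / Real.sqrt ((n : ℝ) + 1) ≤ 2 * Real.sqrt ((n : ℝ) + 1) - 2 * Real.sqrt n := by
      have h4 := Real.sq_sqrt hn
      have h5 := Real.sq_sqrt (show (0 : ℝ) ≤ (n : ℝ) + 1 by linarith)
      have h6 := Real.sqrt_nonneg (n : ℝ)
      rw [div_le_iff₀ h0]
      nlinarith [sq_nonneg (Real.sqrt ((n : ℝ) + 1) - Real.sqrt n)]
    push_cast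
    linarith

theorem sum_inv_sqrt (n : ℕ) : ∑ d ∈ Ico 1 n, 1 / Real.sqrt d ≤ 2 * Real.sqrt n := by
  rcases Nat.eq_zero_or_pos n with h | h
  · subst h
    simp
  · obtain ⟨k, rfl⟩ : ∃ k, n = k + 1 := ⟨n - 1, by omega⟩
    refine (sum_inv_sqrt0 k).trans ?_
    have : Real.sqrt k ≤ Real.sqrt ((k + 1 : ℕ) : ℝ) := Real.sqrt_le_sqrt (by push_cast; linarith)
    linarith

/-- the sum over all `d`, with the distance modulo `n` -/
theorem sum_min (n : ℕ) : ∑ d ∈ Ico 1 n, 1 / Real.sqrt ((min d (n - d) : ℕ) : ℝ) ≤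
    4 * Real.sqrt n := by
  have h1 : ∀ d ∈ Ico 1 n, 1 / Real.sqrt ((min d (n - d) : ℕ) : ℝ) ≤
      1 / Real.sqrt d + 1 / Real.sqrt ((n - d : ℕ) : ℝ) := by
    intro d hd
    rcases le_total d (n - d) with h | h
    · rw [min_eq_left h]
      have : 0 ≤ 1 / Real.sqrt ((n - d : ℕ) : ℝ) := by positivity
      linarith
    · rw [min_eq_right h]
      have : 0 ≤ 1 / Real.sqrt (d : ℝ) := by positivity
      linarith
  refine (Finset.sum_le_sum h1).trans ?_
  rw [Finset.sum_add_distrib]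
  have h2 : ∑ d ∈ Ico 1 n, 1 / Real.sqrt ((n - d : ℕ) : ℝ) = ∑ d ∈ Ico 1 n, 1 / Real.sqrt d := by
    rcases Nat.eq_zero_or_pos n with h | h
    · subst h
      simp
    · have h3 := Finset.sum_Ico_reflect (fun d : ℕ => 1 / Real.sqrt (d : ℝ)) 1 (m := n) (n := n)
        (by omega)
      rw [h3]
      congr 1
      congr 1
      omega
  rw [h2]
  have := sum_inv_sqrt n
  linarith

theorem HH_bd {n : ℕ} (hn : 0 < n) (c : Cfg n) {K : ℝ}
    (hH : ∑ j ∈ range n, ‖HH n c.z (j : ℤ)‖ ^ 2 ≤ K * n) (v : ℤ) : ‖HH n c.z v‖ ^ 2 ≤ K * n := by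
  have hper : ∀ j, ‖HH n c.z (j + n)‖ ^ 2 = ‖HH n c.z j‖ ^ 2 := by
    intro j
    congr 2
    unfold HH cc
    congr 1
    refine Finset.sum_congr rfl fun d _ => ?_
    rw [c.z_add, show j + (n : ℤ) + (d : ℤ) = j + d + n by ring, c.z_add]
  have h1 := sum_shift (M := ℝ) (f := fun j => ‖HH n c.z j‖ ^ 2) hper v
  have h2 : ‖HH n c.z v‖ ^ 2 ≤ ∑ j ∈ range n, ‖HH n c.z ((j : ℤ) + v)‖ ^ 2 := by
    have h3 := Finset.single_le_sum (f := fun j : ℕ => ‖HH n c.z ((j : ℤ) + v)‖ ^ 2)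
      (fun j _ => sq_nonneg _) (Finset.mem_range.2 hn)
    simpa using h3
  rw [h1] at h2
  exact h2.trans hH

theorem zq_sub {N : ℕ} (z : ℤ → ℂ) (a b : ℤ) :
    zq N z a - zq N z b = -(z (a + N) - z (b + N)) := by
  unfold zq
  ring

/-- the first part of the sum -/
theorem t2_split (N : ℕ) (z : ℤ → ℂ) (a b : ℤ) : t2 N z a b =
    la N z a * (1 / (z (a + N) - z (b + N))) +
      (la N z a - la N z b) / (2 * (zq N z a - zq N z b)) := by
  unfold t2
  rw [zq_sub]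
  rcases eq_or_ne (z (a + N) - z (b + N)) 0 with h | h
  · rw [h]
    simp
  · field_simp
    ring

theorem z_up {n : ℕ} (c : Cfg n) (hρ : ∀ j, |c.ρ j| ≤ 1) (j : ℤ) : ‖c.z j‖ ≤ 3 := by
  rw [c.norm_z]
  have h1 := (abs_le.1 (hρ j)).2
  have h2 : Real.exp (c.ρ j) ≤ Real.exp 1 := Real.exp_le_exp.2 h1
  have := Real.exp_one_lt_d9
  linarith

theorem z_lo {n : ℕ} (c : Cfg n) (hρ : ∀ j, |c.ρ j| ≤ 1) (j : ℤ) : 1 / 3 ≤ ‖c.z j‖ := by
  rw [c.norm_z]
  have h1 := (abs_le.1 (hρ j)).1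
  have h2 : Real.exp (-1) ≤ Real.exp (c.ρ j) := Real.exp_le_exp.2 h1
  have h3 := Real.exp_one_lt_d9
  have h4 : (1 : ℝ) / 3 ≤ Real.exp (-1) := by
    rw [Real.exp_neg, one_div]
    exact inv_anti₀ (Real.exp_pos 1) (by linarith)
  linarith

end MK3B

open MK3B in
theorem m_K3B : Stmt_HOLD → Stmt_FBH → Stmt_K3B := by
  intro hHOLD hFBH K
  obtain ⟨C₀, n₀, hC₀, hH⟩ := hHOLD K
  refine ⟨111000 * |K| + 96 * C₀ + 1, max n₀ (⌈4 * C₀ ^ 2⌉₊ + ⌈16 * |K|⌉₊ + 2),
    by positivity, fun N hN c hc => ?_⟩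
  have hK0 : 0 ≤ |K| := abs_nonneg K
  have hN1 : n₀ ≤ 2 * N := (le_max_left _ _).trans hN
  have hN2 : ⌈4 * C₀ ^ 2⌉₊ + ⌈16 * |K|⌉₊ + 2 ≤ 2 * N := (le_max_right _ _).trans hN
  have hNp : 1 ≤ N := by omega
  obtain ⟨hy0, hR⟩ := hH (2 * N) hN1 c hc
  have hnp : 0 < 2 * N := by omega
  have hb1 : 4 * C₀ ^ 2 ≤ ((2 * N : ℕ) : ℝ) :=
    (Nat.le_ceil _).trans (Nat.cast_le.2 (by omega))
  have hb2 : 16 * |K| ≤ ((2 * N : ℕ) : ℝ) := (Nat.le_ceil _).trans (Nat.cast_le.2 (by omega))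
  have hn0 : (0 : ℝ) < ((2 * N : ℕ) : ℝ) := Nat.cast_pos.2 hnp
  have hn1 : (1 : ℝ) ≤ ((2 * N : ℕ) : ℝ) := by exact_mod_cast hnp
  have hcN : (((2 * N : ℕ) : ℂ)) = ((((2 * N : ℕ) : ℝ)) : ℂ) := by norm_cast
  have hper : ∀ j, c.R (j + (2 * N : ℕ)) = c.R j := by
    intro j
    unfold Cfg.R
    rw [c.ρ_add]
  have hperφ : ∀ j, c.Φ (j + (2 * N : ℕ)) = c.Φ j := by
    intro j
    unfold Cfg.Φ
    rw [c.φ_add hnp]
  have hsum := sum_min (2 * N)
  have hHb := HH_bd hnp c hc.hH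
  set n : ℝ := ((2 * N : ℕ) : ℝ) with hn
  have hsq : 0 < Real.sqrt n := Real.sqrt_pos.2 hn0
  have hy : ∀ j, |c.y j| ≤ 1 / 2 := by
    intro j
    refine (hy0 j).1.trans ?_
    rw [div_le_iff₀ hsq]
    have h1 : 2 * C₀ ≤ Real.sqrt n := Real.le_sqrt_of_sq_le (by nlinarith)
    linarith
  set A : ℝ := |K| / n with hA
  have hA0 : 0 ≤ A := by positivity
  have hA1 : 16 * A ≤ 1 := by
    rw [hA, ← mul_div_assoc, div_le_one hn0]
    exact hb2
  have hKA : K / n ≤ A := by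
    rw [hA]
    exact div_le_div_of_nonneg_right (le_abs_self K) hn0.le
  have hρA : ∀ j, |c.ρ j| ≤ A := fun j => (hc.hρ j).trans hKA
  have hφA : ∀ j, |c.φ j| ≤ A := fun j => (hc.hφ j).trans hKA
  have hρ1 : ∀ j, |c.ρ j| ≤ 1 := fun j => (hρA j).trans (by linarith)
  have hla : ∀ j, ‖la N c.z j‖ ≤ 8 * A := fun j => la_norm hNp c (by linarith) hρA hφA j
  have hlow : ∀ (j : ℤ) (d : ℕ), d ≤ 2 * N →
      ((min d (2 * N - d) : ℕ) : ℝ) / (2 * n) ≤ ‖c.z (j + d) - c.z j‖ :=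
    fun j d hd => low c hnp hy hρ1 j d hd
  have hdρ : ∀ (a : ℤ) (d : ℕ), d ≤ 2 * N →
      |c.ρ (a + d) - c.ρ a| ≤ C₀ * Real.sqrt (((min d (2 * N - d) : ℕ) : ℝ) / n) / n := by
    intro a d hd
    have h1 := hold c.R hper (fun j m hm => (hR j m hm).1) a d hd
    have h2 : c.R (a + d) - c.R a = n * (c.ρ (a + d) - c.ρ a) := by
      unfold Cfg.R
      ring
    rw [h2, abs_mul, abs_of_pos hn0] at h1
    rw [le_div_iff₀ hn0, mul_comm]
    exact h1
  have hdφ : ∀ (a : ℤ) (d : ℕ), d ≤ 2 * N →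
      |c.φ (a + d) - c.φ a| ≤ C₀ * Real.sqrt (((min d (2 * N - d) : ℕ) : ℝ) / n) / n := by
    intro a d hd
    have h1 := hold c.Φ hperφ (fun j m hm => (hR j m hm).2) a d hd
    have h2 : c.Φ (a + d) - c.Φ a = n * (c.φ (a + d) - c.φ a) := by
      unfold Cfg.Φ
      ring
    rw [h2, abs_mul, abs_of_pos hn0] at h1
    rw [le_div_iff₀ hn0, mul_comm]
    exact h1
  refine ⟨fun a => ?_, fun a b hab hba => ?_⟩
  · -- the sum
    have e1 : ∑ d ∈ Ico 1 (2 * N), t2 N c.z a (a + (d : ℤ)) =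
        la N c.z a * fb (2 * N) c.z (a + N) +
        ∑ d ∈ Ico 1 (2 * N), (la N c.z a - la N c.z (a + (d : ℤ))) /
          (2 * (zq N c.z a - zq N c.z (a + (d : ℤ)))) := by
      unfold fb
      rw [Finset.mul_sum, ← Finset.sum_add_distrib]
      refine Finset.sum_congr rfl fun d _ => ?_
      rw [t2_split, show a + (d : ℤ) + (N : ℤ) = a + N + d by ring]
    rw [e1]
    have h1 : ‖la N c.z a * fb (2 * N) c.z (a + N)‖ ≤ 40 * |K| := by
      have h2 := hFBH (2 * N) c.z hnp hc.opt.pts (a + N)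
      have h3 : ‖c.z (a + N)‖ * ‖fb (2 * N) c.z (a + N)‖ ≤ n / 2 + n := by
        rw [← norm_mul, h2]
        refine (norm_add_le _ _).trans ?_
        have h4 : ‖((((2 * N : ℕ) : ℂ)) - 1) / 2‖ ≤ n / 2 := by
          have h5 : ((((2 * N : ℕ) : ℂ)) - 1) / 2 = ((n - 1) / 2 : ℝ) := by
            rw [hcN]
            push_cast
            rfl
          rw [h5, Complex.norm_real, Real.norm_eq_abs, abs_of_nonneg]
          · linarith
          · linarith
        have h6 := hHb (a + N)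
        have h7 : ‖HH (2 * N) c.z (a + N)‖ ≤ n := by
          have h8 : K * n ≤ n ^ 2 := by
            have := le_abs_self K
            nlinarith
          exact (pow_le_pow_iff_left₀ (norm_nonneg _) hn0.le (by norm_num)).1 (h6.trans h8)
        linarith
      have h9 := z_lo c hρ1 (a + N)
      have h10 : ‖fb (2 * N) c.z (a + N)‖ ≤ 5 * n := by
        have h11 := norm_nonneg (fb (2 * N) c.z (a + N))
        nlinarith
      rw [norm_mul]
      calc ‖la N c.z a‖ * ‖fb (2 * N) c.z (a + N)‖ ≤ (8 * A) * (5 * n) :=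
            mul_le_mul (hla a) h10 (norm_nonneg _) (by positivity)
        _ = 40 * |K| := by
            rw [hA]
            field_simp
            ring
    have h2 : ‖∑ d ∈ Ico 1 (2 * N), (la N c.z a - la N c.z (a + (d : ℤ))) /
          (2 * (zq N c.z a - zq N c.z (a + (d : ℤ))))‖ ≤ 96 * C₀ := by
      refine (norm_sum_le _ _).trans ?_
      have h3 : ∀ d ∈ Ico 1 (2 * N), ‖(la N c.z a - la N c.z (a + (d : ℤ))) /
          (2 * (zq N c.z a - zq N c.z (a + (d : ℤ))))‖ ≤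
          24 * C₀ / Real.sqrt n * (1 / Real.sqrt ((min d (2 * N - d) : ℕ) : ℝ)) := by
        intro d hd
        rw [Finset.mem_Ico] at hd
        have hm1 : 1 ≤ min d (2 * N - d) := by
          rw [Nat.le_min]
          omega
        set m : ℝ := ((min d (2 * N - d) : ℕ) : ℝ) with hm
        have hm0 : 0 < m := by
          rw [hm]
          exact_mod_cast hm1
        have h4 : ‖la N c.z a - la N c.z (a + (d : ℤ))‖ ≤
            24 * (C₀ * Real.sqrt (m / n) / n) := by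
          rw [norm_sub_rev]
          refine la_diff hNp c (by linarith) hρA hφA _ _ (hdρ a d hd.2.le) ?_
            (hdφ a d hd.2.le) ?_
          · rw [show a + (d : ℤ) + (N : ℤ) = a + N + d by ring]
            exact hdρ (a + N) d hd.2.le
          · rw [show a + (d : ℤ) + (N : ℤ) = a + N + d by ring]
            exact hdφ (a + N) d hd.2.le
        have h5 : m / (2 * n) ≤ ‖zq N c.z a - zq N c.z (a + (d : ℤ))‖ := by
          rw [zq_sub, norm_neg, norm_sub_rev, show a + (d : ℤ) + (N : ℤ) = a + N + d by ring]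
          exact hlow (a + N) d hd.2.le
        rw [norm_div, norm_mul, Complex.norm_ofNat]
        have h6 : 0 < m / (2 * n) := by positivity
        rw [div_le_iff₀ (mul_pos two_pos (h6.trans_le h5))]
        refine h4.trans ?_
        have h7 : Real.sqrt (m / n) = Real.sqrt m / Real.sqrt n := Real.sqrt_div hm0.le _
        have h8 : Real.sqrt m * Real.sqrt m = m := Real.mul_self_sqrt hm0.le
        have h9 : 0 < Real.sqrt m := Real.sqrt_pos.2 hm0
        have h10 : 24 * (C₀ * Real.sqrt (m / n) / n) =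
            24 * C₀ / Real.sqrt n * (1 / Real.sqrt m) * (2 * (m / (2 * n))) := by
          rw [h7]
          field_simp
          nlinarith
        rw [h10]
        refine mul_le_mul_of_nonneg_left (by linarith) (by positivity)
      refine (Finset.sum_le_sum h3).trans ?_
      rw [← Finset.mul_sum]
      calc 24 * C₀ / Real.sqrt n * ∑ d ∈ Ico 1 (2 * N), 1 / Real.sqrt ((min d (2 * N - d) : ℕ) : ℝ) ≤
          24 * C₀ / Real.sqrt n * (4 * Real.sqrt n) :=
            mul_le_mul_of_nonneg_left hsum (by positivity)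
        _ = 96 * C₀ := by
            field_simp
            ring
    refine (norm_add_le _ _).trans ?_
    linarith
  · -- far pairs
    obtain ⟨d, hd⟩ : ∃ d : ℕ, b = a + d := ⟨(b - a).toNat, by omega⟩
    subst hd
    have hdn : d ≤ 2 * N := by omega
    have hm : (1 : ℝ) / 48 ≤ ((min d (2 * N - d) : ℕ) : ℝ) / (2 * n) := by
      rw [div_le_div_iff₀ (by norm_num) (by positivity)]
      have h1 : 2 * (2 * N) ≤ (min d (2 * N - d)) * 48 := by
        rcases le_total d (2 * N - d) with h | h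
        · rw [min_eq_left h]
          omega
        · rw [min_eq_right h]
          omega
      rw [one_mul, hn]
      exact_mod_cast h1
    have h1 : (1 : ℝ) / 48 ≤ ‖c.z a - c.z (a + d)‖ := by
      rw [norm_sub_rev]
      exact hm.trans (hlow a d hdn)
    have h2 : (1 : ℝ) / 48 ≤ ‖zq N c.z a - zq N c.z (a + (d : ℤ))‖ := by
      rw [zq_sub, norm_neg, norm_sub_rev, show a + (d : ℤ) + (N : ℤ) = a + N + d by ring]
      exact hm.trans (hlow (a + N) d hdn)
    have h3 : ‖la N c.z a - la N c.z (a + d)‖ ≤ 16 * A :=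
      (norm_sub_le _ _).trans (by linarith [hla a, hla (a + d)])
    have h4 : ‖la N c.z a + la N c.z (a + d)‖ ≤ 16 * A :=
      (norm_add_le _ _).trans (by linarith [hla a, hla (a + d)])
    have h5 : ‖c.z a + c.z (a + d)‖ ≤ 6 :=
      (norm_add_le _ _).trans (by linarith [z_up c hρ1 a, z_up c hρ1 (a + d)])
    have h6 : ‖(-(1 / 2) : ℂ)‖ = 1 / 2 := by
      rw [norm_neg]
      norm_num
    have hCA : (111000 * |K| + 96 * C₀ + 1) / n = 111000 * A + (96 * C₀ + 1) / n := by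
      rw [hA]
      field_simp
      ring
    have hCn : 0 ≤ (96 * C₀ + 1) / n := by positivity
    rw [hCA]
    constructor
    · unfold t1
      rw [norm_div, norm_mul, norm_mul, norm_mul, h6]
      have h7 : (1 : ℝ) / 48 * (1 / 48) ≤
          ‖c.z a - c.z (a + d)‖ * ‖zq N c.z a - zq N c.z (a + (d : ℤ))‖ :=
        mul_le_mul h1 h2 (by norm_num) (norm_nonneg _)
      rw [div_le_iff₀ (lt_of_lt_of_le (by norm_num) h7)]
      have h8 : 1 / 2 * ‖c.z a + c.z (a + d)‖ * ‖la N c.z a - la N c.z (a + d)‖ ≤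
          1 / 2 * 6 * (16 * A) :=
        mul_le_mul (mul_le_mul_of_nonneg_left h5 (by norm_num)) h3 (norm_nonneg _)
          (by norm_num)
      have h9 : (111000 * A + (96 * C₀ + 1) / n) * (1 / 48 * (1 / 48)) ≤
          (111000 * A + (96 * C₀ + 1) / n) *
            (‖c.z a - c.z (a + d)‖ * ‖zq N c.z a - zq N c.z (a + (d : ℤ))‖) :=
        mul_le_mul_of_nonneg_left h7 (by positivity)
      linarith
    · unfold t2
      rw [norm_div, norm_mul, h6]
      rw [div_le_iff₀ (lt_of_lt_of_le (by norm_num) h2)]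
      have h9 : (111000 * A + (96 * C₀ + 1) / n) * (1 / 48) ≤
          (111000 * A + (96 * C₀ + 1) / n) *
            ‖zq N c.z a - zq N c.z (a + (d : ℤ))‖ :=
        mul_le_mul_of_nonneg_left h2 (by positivity)
      linarith

end Pool.Agent.EHP
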