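import Pool.Agent.EHP.Stmts6

/-!
# Near pairs in the force on a symmetric set
-/

open Finset
open scoped Real ComplexConjugate

namespace Pool.Agent.EHP

namespace MK3NEAR

theorem exp2 (w : ℂ) : ‖Complex.exp w - 1 - w‖ ≤ ‖w‖ ^ 2 * Real.exp ‖w‖ := by
  have h := Complex.norm_exp_sub_sum_le_norm_mul_exp w 2
  have h1 : ∑ m ∈ Finset.range 2, w ^ m / (m.factorial : ℂ) = 1 + w := by
    simp [Finset.sum_range_succ]
  rw [h1] at h
  rwa [sub_sub]

theorem norm_q {x : ℝ} {η : ℂ} (hx : 0 < x) (h : ‖η‖ ≤ x / 100) :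
    99 / 100 * x ≤ ‖Complex.I * x + η‖ ∧ ‖Complex.I * x + η‖ ≤ 101 / 100 * x := by
  have h1 : ‖Complex.I * (x : ℂ)‖ = x := by
    rw [norm_mul, Complex.norm_I, one_mul, Complex.norm_real, Real.norm_of_nonneg hx.le]
  constructor
  · have := norm_sub_norm_le (Complex.I * (x : ℂ)) (-η)
    rw [norm_neg, sub_neg_eq_add, h1] at this
    linarith
  · have := norm_add_le (Complex.I * (x : ℂ)) η
    rw [h1] at this
    linarith

theorem low {x : ℝ} {η : ℂ} (hx : 0 < x) (hx2 : x ≤ 8 / 5) (h : ‖η‖ ≤ x / 100) :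
    x / 2 ≤ ‖1 - Complex.exp (Complex.I * x + η)‖ := by
  have h1 : ‖Complex.exp (Complex.I * x) - 1‖ = ‖2 * Real.sin (x / 2)‖ :=
    Complex.norm_exp_I_mul_ofReal_sub_one x
  have hpi := Real.pi_gt_d2
  have hpi2 := Real.pi_lt_d2
  have h2 : 2 / π * (x / 2) ≤ Real.sin (x / 2) := Real.mul_le_sin (by linarith) (by linarith)
  have h3 : (63 / 100 : ℝ) ≤ 2 / π := by
    rw [le_div_iff₀ Real.pi_pos]
    linarith
  have h4 : 63 / 100 * (x / 2) ≤ Real.sin (x / 2) :=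
    (mul_le_mul_of_nonneg_right h3 (by positivity)).trans h2
  have h5 : 63 / 100 * x ≤ ‖Complex.exp (Complex.I * x) - 1‖ := by
    rw [h1]
    refine le_trans ?_ (le_abs_self _)
    linarith
  have h6 : ‖Complex.exp η - 1‖ ≤ 2 * ‖η‖ := Complex.norm_exp_sub_one_le (by linarith)
  have h7 : ‖Complex.exp (Complex.I * x)‖ = 1 := by
    rw [mul_comm]; exact Complex.norm_exp_ofReal_mul_I x
  have h8 : Complex.exp (Complex.I * x) - 1 = -(1 - Complex.exp (Complex.I * x + η)) -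
      Complex.exp (Complex.I * x) * (Complex.exp η - 1) := by
    rw [Complex.exp_add]; ring
  have h9 := norm_sub_le (-(1 - Complex.exp (Complex.I * x + η)))
    (Complex.exp (Complex.I * x) * (Complex.exp η - 1))
  rw [← h8, norm_neg, norm_mul, h7, one_mul] at h9
  linarith

theorem rem {x : ℝ} {η : ℂ} (hx : 0 < x) (hx2 : x ≤ 8 / 5) (h : ‖η‖ ≤ x / 100) :
    ‖(1 - Complex.exp (Complex.I * x + η)) + (Complex.I * x + η)‖ ≤ 8 * x ^ 2 := by
  obtain ⟨_, h2⟩ := norm_q hx h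
  have h1 := exp2 (Complex.I * x + η)
  have h3 : (1 - Complex.exp (Complex.I * x + η)) + (Complex.I * x + η) =
      -(Complex.exp (Complex.I * x + η) - 1 - (Complex.I * x + η)) := by ring
  rw [h3, norm_neg]
  refine h1.trans ?_
  have h4 : Real.exp ‖Complex.I * x + η‖ ≤ Real.exp 2 := Real.exp_le_exp.2 (by linarith)
  have h5 : Real.exp 2 ≤ 7.5 := by
    have h6 := Real.exp_one_lt_d9
    have h7 : Real.exp 2 = Real.exp 1 * Real.exp 1 := by
      rw [← Real.exp_add]; norm_num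
    rw [h7]
    nlinarith [Real.exp_pos 1]
  have h8 : ‖Complex.I * x + η‖ ^ 2 ≤ (101 / 100 * x) ^ 2 :=
    pow_le_pow_left₀ (norm_nonneg _) h2 2
  calc ‖Complex.I * x + η‖ ^ 2 * Real.exp ‖Complex.I * x + η‖
      ≤ (101 / 100 * x) ^ 2 * 7.5 :=
        mul_le_mul h8 (h4.trans h5) (Real.exp_pos _).le (by positivity)
    _ ≤ 8 * x ^ 2 := by nlinarith [sq_nonneg x]

/-- The kernel estimate. -/
theorem ker {x : ℝ} {η η' : ℂ} (hx : 0 < x) (hx2 : x ≤ 8 / 5) (h : ‖η‖ ≤ x / 100)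
    (h' : ‖η'‖ ≤ x / 100) :
    ‖-(1 / 2) * (1 + Complex.exp (Complex.I * x + η)) /
      ((1 - Complex.exp (Complex.I * x + η)) * (1 - Complex.exp (Complex.I * x + η'))) -
      ((1 / x ^ 2 : ℝ) : ℂ)‖ ≤ 500 / x + 3 * (‖η‖ + ‖η'‖) / x ^ 3 := by
  obtain ⟨l1, u1⟩ := norm_q hx h
  obtain ⟨l2, u2⟩ := norm_q hx h'
  have lo1 := low hx hx2 h
  have lo2 := low hx hx2 h'
  have r1 := rem hx hx2 h
  have r2 := rem hx hx2 h'
  set q := Complex.I * x + η with hq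
  set q' := Complex.I * x + η' with hq'
  set u := 1 - Complex.exp q with hu
  set u' := 1 - Complex.exp q' with hu'
  have nu : 0 < ‖u‖ := by linarith
  have nu' : 0 < ‖u'‖ := by linarith
  have nq : 0 < ‖q‖ := by linarith
  have nq' : 0 < ‖q'‖ := by linarith
  have zu : u ≠ 0 := norm_pos_iff.1 nu
  have zu' : u' ≠ 0 := norm_pos_iff.1 nu'
  have zq : q ≠ 0 := norm_pos_iff.1 nq
  have zq' : q' ≠ 0 := norm_pos_iff.1 nq'
  have zx : (x : ℂ) ≠ 0 := by exact_mod_cast hx.ne'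
  have e1 : 1 + Complex.exp q = 2 - u := by rw [hu]; ring
  have key : -(1 / 2) * (1 + Complex.exp q) / (u * u') - ((1 / x ^ 2 : ℝ) : ℂ) =
      1 / (2 * u') + (u * u' - q * q') / (u * u' * (q * q')) -
        (Complex.I * x * (η + η') + η * η') / (x ^ 2 * (q * q')) := by
    have e2 : Complex.I * x * (η + η') + η * η' = x ^ 2 + q * q' := by
      rw [hq, hq']
      linear_combination (-(x : ℂ) ^ 2) * Complex.I_sq
    rw [e1, e2]
    push_cast
    field_simp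
    ring
  rw [key]
  have b1 : ‖1 / (2 * u')‖ ≤ 1 / x := by
    rw [norm_div, norm_one, norm_mul, Complex.norm_ofNat]
    exact one_div_le_one_div_of_le hx (by linarith)
  have hx0 : 0 ≤ x := hx.le
  have n1 : ‖u * u' - q * q'‖ ≤ 119 * x ^ 3 := by
    have e3 : u * u' - q * q' = (u + q) * (u' + q') - (u + q) * q' - q * (u' + q') := by ring
    rw [e3]
    have t1 : ‖(u + q) * (u' + q')‖ ≤ 8 * x ^ 2 * (8 * x ^ 2) := by
      rw [norm_mul]; exact mul_le_mul r1 r2 (norm_nonneg _) (by positivity)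
    have t2 : ‖(u + q) * q'‖ ≤ 8 * x ^ 2 * (101 / 100 * x) := by
      rw [norm_mul]; exact mul_le_mul r1 u2 (norm_nonneg _) (by positivity)
    have t3 : ‖q * (u' + q')‖ ≤ 101 / 100 * x * (8 * x ^ 2) := by
      rw [norm_mul]; exact mul_le_mul u1 r2 (norm_nonneg _) (by positivity)
    have t4 := norm_sub_le ((u + q) * (u' + q') - (u + q) * q') (q * (u' + q'))
    have t5 := norm_sub_le ((u + q) * (u' + q')) ((u + q) * q')
    have t6 : 64 * x ^ 4 ≤ 64 * (8 / 5) * x ^ 3 := by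
      have : x ^ 4 = x * x ^ 3 := by ring
      rw [this]
      nlinarith [pow_pos hx 3]
    nlinarith [pow_pos hx 3]
  have d1 : x / 2 * (x / 2) * (99 / 100 * x * (99 / 100 * x)) ≤ ‖u * u' * (q * q')‖ := by
    rw [norm_mul, norm_mul, norm_mul]
    exact mul_le_mul (mul_le_mul lo1 lo2 (by positivity) (norm_nonneg _))
      (mul_le_mul l1 l2 (by positivity) (norm_nonneg _)) (by positivity) (by positivity)
  have b2 : ‖(u * u' - q * q') / (u * u' * (q * q'))‖ ≤ 499 / x := by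
    rw [norm_div, div_le_div_iff₀ (lt_of_lt_of_le (by positivity) d1) hx]
    calc ‖u * u' - q * q'‖ * x ≤ 119 * x ^ 3 * x := mul_le_mul_of_nonneg_right n1 hx0
      _ ≤ 499 * (x / 2 * (x / 2) * (99 / 100 * x * (99 / 100 * x))) := by
        nlinarith [pow_pos hx 4]
      _ ≤ 499 * ‖u * u' * (q * q')‖ := by linarith
  have n2 : ‖Complex.I * x * (η + η') + η * η'‖ ≤ 2 * x * (‖η‖ + ‖η'‖) := by
    have t1 := norm_add_le (Complex.I * x * (η + η')) (η * η')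
    have t2 : ‖Complex.I * x * (η + η')‖ ≤ x * (‖η‖ + ‖η'‖) := by
      rw [norm_mul, norm_mul, Complex.norm_I, one_mul, Complex.norm_real,
        Real.norm_of_nonneg hx0]
      exact mul_le_mul_of_nonneg_left (norm_add_le _ _) hx0
    have t3 : ‖η * η'‖ ≤ x * ‖η'‖ := by
      rw [norm_mul]
      exact mul_le_mul_of_nonneg_right (by linarith) (norm_nonneg _)
    have t4 : 0 ≤ x * ‖η‖ := by positivity
    nlinarith
  have d2 : x ^ 2 * (99 / 100 * x * (99 / 100 * x)) ≤ ‖(x : ℂ) ^ 2 * (q * q')‖ := by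
    rw [norm_mul, norm_mul, norm_pow, Complex.norm_real, Real.norm_of_nonneg hx0]
    exact mul_le_mul_of_nonneg_left (mul_le_mul l1 l2 (by positivity) (norm_nonneg _))
      (by positivity)
  have b3 : ‖(Complex.I * x * (η + η') + η * η') / ((x : ℂ) ^ 2 * (q * q'))‖ ≤
      3 * (‖η‖ + ‖η'‖) / x ^ 3 := by
    rw [norm_div, div_le_div_iff₀ (lt_of_lt_of_le (by positivity) d2) (by positivity)]
    have hs : 0 ≤ ‖η‖ + ‖η'‖ := by positivity
    calc ‖Complex.I * x * (η + η') + η * η'‖ * x ^ 3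
        ≤ 2 * x * (‖η‖ + ‖η'‖) * x ^ 3 := mul_le_mul_of_nonneg_right n2 (by positivity)
      _ ≤ 3 * (‖η‖ + ‖η'‖) * (x ^ 2 * (99 / 100 * x * (99 / 100 * x))) := by
        nlinarith [mul_nonneg hs (pow_pos hx 4).le]
      _ ≤ 3 * (‖η‖ + ‖η'‖) * ‖(x : ℂ) ^ 2 * (q * q')‖ :=
        mul_le_mul_of_nonneg_left d2 (by positivity)
  have f1 := norm_sub_le (1 / (2 * u') + (u * u' - q * q') / (u * u' * (q * q')))
    ((Complex.I * x * (η + η') + η * η') / (x ^ 2 * (q * q')))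
  have f2 := norm_add_le (1 / (2 * u')) ((u * u' - q * q') / (u * u' * (q * q')))
  have f3 : 500 / x = 1 / x + 499 / x := by ring
  rw [f3]
  linarith

/-- Products. -/
theorem prod3 (A B D δ D₀ : ℂ) {α β γ b d e : ℝ} (hA : ‖A - 1‖ ≤ α) (hB : ‖B - δ‖ ≤ β)
    (hD : ‖D - D₀‖ ≤ γ) (hb : ‖B‖ ≤ b) (hd : ‖D‖ ≤ d) (he : ‖δ‖ ≤ e) :
    ‖A * B * D - δ * D₀‖ ≤ α * b * d + β * d + e * γ := by
  have e1 : A * B * D - δ * D₀ = (A - 1) * B * D + (B - δ) * D + δ * (D - D₀) := by ring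
  rw [e1]
  have hα : 0 ≤ α := (norm_nonneg _).trans hA
  have hβ : 0 ≤ β := (norm_nonneg _).trans hB
  have hb0 : 0 ≤ b := (norm_nonneg _).trans hb
  have he0 : 0 ≤ e := (norm_nonneg _).trans he
  have t1 : ‖(A - 1) * B * D‖ ≤ α * b * d := by
    rw [norm_mul, norm_mul]
    exact mul_le_mul (mul_le_mul hA hb (norm_nonneg _) hα) hd (norm_nonneg _) (by positivity)
  have t2 : ‖(B - δ) * D‖ ≤ β * d := by
    rw [norm_mul]; exact mul_le_mul hB hd (norm_nonneg _) hβ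
  have t3 : ‖δ * (D - D₀)‖ ≤ e * γ := by
    rw [norm_mul]; exact mul_le_mul he hD (norm_nonneg _) he0
  have f1 := norm_add_le ((A - 1) * B * D + (B - δ) * D) (δ * (D - D₀))
  have f2 := norm_add_le ((A - 1) * B * D) ((B - δ) * D)
  linarith

/-- Difference of exponentials. -/
theorem expdiff (ν ν' : ℂ) {κ : ℝ} (h : ‖ν‖ ≤ κ) (h' : ‖ν'‖ ≤ κ) (hκ : κ ≤ 1 / 4) :
    ‖(Complex.exp ν' - Complex.exp ν) - (ν' - ν)‖ ≤ 8 * κ * ‖ν' - ν‖ := by
  have e1 : (Complex.exp ν' - Complex.exp ν) - (ν' - ν) =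
      (Complex.exp ν - 1) * (ν' - ν) +
        Complex.exp ν * (Complex.exp (ν' - ν) - 1 - (ν' - ν)) := by
    have : Complex.exp ν' = Complex.exp ν * Complex.exp (ν' - ν) := by
      rw [← Complex.exp_add]; congr 1; ring
    rw [this]; ring
  have hκ0 : 0 ≤ κ := (norm_nonneg _).trans h
  have hd : ‖ν' - ν‖ ≤ 2 * κ := (norm_sub_le _ _).trans (by linarith)
  have t1 : ‖Complex.exp ν - 1‖ ≤ 2 * κ :=
    (Complex.norm_exp_sub_one_le (by linarith)).trans (by linarith)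
  have t2 : ‖Complex.exp (ν' - ν) - 1 - (ν' - ν)‖ ≤ ‖ν' - ν‖ ^ 2 :=
    Complex.norm_exp_sub_one_sub_id_le (by linarith)
  have t3 : ‖Complex.exp ν‖ ≤ 3 / 2 := by
    have := norm_add_le (Complex.exp ν - 1) 1
    rw [sub_add_cancel, norm_one] at this
    linarith
  rw [e1]
  refine (norm_add_le _ _).trans ?_
  rw [norm_mul, norm_mul]
  have s1 : ‖Complex.exp ν - 1‖ * ‖ν' - ν‖ ≤ 2 * κ * ‖ν' - ν‖ :=
    mul_le_mul_of_nonneg_right t1 (norm_nonneg _)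
  have s2 : ‖Complex.exp ν‖ * ‖Complex.exp (ν' - ν) - 1 - (ν' - ν)‖ ≤
      3 / 2 * (2 * κ * ‖ν' - ν‖) := by
    refine mul_le_mul t3 (t2.trans ?_) (norm_nonneg _) (by norm_num)
    rw [sq]
    exact mul_le_mul_of_nonneg_right hd (norm_nonneg _)
  nlinarith [mul_nonneg hκ0 (norm_nonneg (ν' - ν))]

/-- Distance of an exponential to `1`. -/
theorem expone (x y : ℝ) (hx : |x| ≤ 1) :
    ‖Complex.exp ((x : ℂ) + (y : ℂ) * Complex.I) - 1‖ ≤ 2 * |x| + 3 * |y| := by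
  have e1 : Complex.exp ((x : ℂ) + (y : ℂ) * Complex.I) - 1 =
      (Complex.exp (x : ℂ) - 1) + Complex.exp (x : ℂ) * (Complex.exp (Complex.I * y) - 1) := by
    rw [Complex.exp_add, mul_comm Complex.I]; ring
  have hn : ‖(x : ℂ)‖ = |x| := by rw [Complex.norm_real]; rfl
  have t1 : ‖Complex.exp (x : ℂ) - 1‖ ≤ 2 * |x| := by
    rw [← hn]; exact Complex.norm_exp_sub_one_le (by rw [hn]; exact hx)
  have t2 : ‖Complex.exp (x : ℂ)‖ ≤ 3 := by
    have := norm_add_le (Complex.exp (x : ℂ) - 1) 1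
    rw [sub_add_cancel, norm_one] at this
    linarith
  have t3 : ‖Complex.exp (Complex.I * y) - 1‖ ≤ |y| :=
    Real.norm_exp_I_mul_ofReal_sub_one_le
  rw [e1]
  refine (norm_add_le _ _).trans ?_
  rw [norm_mul]
  have := mul_le_mul t2 t3 (norm_nonneg _) (by norm_num)
  linarith


/-- The factorisation of `t1`. -/
theorem t1_eq {N : ℕ} (hN : 0 < N) (c : Cfg (2 * N)) (v a b : ℤ) :
    Complex.exp ((c.θ v : ℂ) * Complex.I) * t1 N c.z a b =
      Complex.exp (((-c.ρ (a + N) : ℝ) : ℂ) +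
        ((2 * π * (v - a) / (2 * N : ℕ) + (c.φ v - c.φ (a + N)) : ℝ) : ℂ) * Complex.I) *
      (la N c.z a - la N c.z b) *
      (-(1 / 2) * (1 + Complex.exp (Complex.I * ((2 * π * (b - a) / (2 * N : ℕ) : ℝ) : ℂ) +
          (((c.ρ b - c.ρ a : ℝ) : ℂ) + ((c.φ b - c.φ a : ℝ) : ℂ) * Complex.I))) /
        ((1 - Complex.exp (Complex.I * ((2 * π * (b - a) / (2 * N : ℕ) : ℝ) : ℂ) +
          (((c.ρ b - c.ρ a : ℝ) : ℂ) + ((c.φ b - c.φ a : ℝ) : ℂ) * Complex.I))) *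
        (1 - Complex.exp (Complex.I * ((2 * π * (b - a) / (2 * N : ℕ) : ℝ) : ℂ) +
          (((c.ρ (b + N) - c.ρ (a + N) : ℝ) : ℂ) +
            ((c.φ (b + N) - c.φ (a + N) : ℝ) : ℂ) * Complex.I))))) := by
  have hn : ((2 * N : ℕ) : ℝ) ≠ 0 := by positivity
  have hz : ∀ i j : ℤ, c.z j = c.z i *
      Complex.exp (Complex.I * ((2 * π * (j - i) / (2 * N : ℕ) : ℝ) : ℂ) +
        (((c.ρ j - c.ρ i : ℝ) : ℂ) + ((c.φ j - c.φ i : ℝ) : ℂ) * Complex.I)) := by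
    intro i j
    unfold Cfg.z Cfg.φ
    rw [← Complex.exp_add]
    congr 1
    have : (2 * π * (j - i) / (2 * N : ℕ) : ℝ) =
        2 * π * j / (2 * N : ℕ) - 2 * π * i / (2 * N : ℕ) := by ring
    rw [this]
    push_cast
    ring
  have h1 := hz a b
  have h2 := hz (a + N) (b + N)
  have e0 : (((b + N : ℤ) : ℝ) - ((a + N : ℤ) : ℝ)) = (b : ℝ) - a := by push_cast; ring
  rw [e0] at h2
  set E := Complex.exp (Complex.I * ((2 * π * (b - a) / (2 * N : ℕ) : ℝ) : ℂ) +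
          (((c.ρ b - c.ρ a : ℝ) : ℂ) + ((c.φ b - c.φ a : ℝ) : ℂ) * Complex.I)) with hE
  set E' := Complex.exp (Complex.I * ((2 * π * (b - a) / (2 * N : ℕ) : ℝ) : ℂ) +
          (((c.ρ (b + N) - c.ρ (a + N) : ℝ) : ℂ) +
            ((c.φ (b + N) - c.φ (a + N) : ℝ) : ℂ) * Complex.I)) with hE'
  have h3 : Complex.exp ((c.θ v : ℂ) * Complex.I) = -c.z (a + N) *
      Complex.exp (((-c.ρ (a + N) : ℝ) : ℂ) +
        ((2 * π * (v - a) / (2 * N : ℕ) + (c.φ v - c.φ (a + N)) : ℝ) : ℂ) * Complex.I) := by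
    have e1 : -c.z (a + N) = Complex.exp (((c.ρ (a + N) : ℂ) + (c.θ (a + N) : ℂ) * Complex.I) +
        -(π * Complex.I)) := by
      rw [Complex.exp_add, Complex.exp_neg, Complex.exp_pi_mul_I]
      unfold Cfg.z
      ring
    rw [e1, ← Complex.exp_add]
    congr 1
    have e2 : (2 * π * (v - a) / (2 * N : ℕ) + (c.φ v - c.φ (a + N)) : ℝ) =
        c.θ v - c.θ (a + N) + π := by
      unfold Cfg.φ
      push_cast at hn ⊢
      field_simp
      ring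
    rw [e2]
    push_cast
    ring
  rw [h3]
  set A := Complex.exp (((-c.ρ (a + N) : ℝ) : ℂ) +
        ((2 * π * (v - a) / (2 * N : ℕ) + (c.φ v - c.φ (a + N)) : ℝ) : ℂ) * Complex.I) with hA
  unfold t1 zq
  rw [h1, h2]
  have hza : c.z a ≠ 0 := c.z_ne a
  have hzN : c.z (a + N) ≠ 0 := c.z_ne _
  by_cases hEE : 1 - E = 0
  · have e3 : c.z a - c.z a * E = c.z a * (1 - E) := by ring
    rw [e3, hEE]
    simp
  · by_cases hEE' : 1 - E' = 0
    · have e3 : -c.z (a + N) - -(c.z (a + N) * E') = -c.z (a + N) * (1 - E') := by ring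
      rw [e3, hEE']
      simp
    · have e3 : c.z a - c.z a * E = c.z a * (1 - E) := by ring
      have e4 : -c.z (a + N) - -(c.z (a + N) * E') = -c.z (a + N) * (1 - E') := by ring
      rw [e3, e4]
      field_simp

/-- The formula for `λ`. -/
theorem la_eq {N : ℕ} (hN : 0 < N) (c : Cfg (2 * N)) (j : ℤ) :
    la N c.z j = 1 - Complex.exp (((c.ρ (j + N) - c.ρ j : ℝ) : ℂ) +
      ((c.φ (j + N) - c.φ j : ℝ) : ℂ) * Complex.I) := by
  have hn : ((2 * N : ℕ) : ℝ) ≠ 0 := by positivity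
  have e1 : c.z (j + N) = -(c.z j * Complex.exp (((c.ρ (j + N) - c.ρ j : ℝ) : ℂ) +
      ((c.φ (j + N) - c.φ j : ℝ) : ℂ) * Complex.I)) := by
    have e2 : ∀ w : ℂ, -w = w * Complex.exp (π * Complex.I) := by
      intro w; rw [Complex.exp_pi_mul_I]; ring
    rw [e2]
    unfold Cfg.z
    rw [← Complex.exp_add, ← Complex.exp_add]
    congr 1
    have e3 : c.φ (j + N) - c.φ j = c.θ (j + N) - c.θ j - π := by
      unfold Cfg.φ
      push_cast at hn ⊢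
      field_simp
      ring
    rw [e3]
    push_cast
    ring
  unfold la
  rw [e1]
  have := c.z_ne j
  field_simp
  ring

/-- Telescoping. -/
theorem tele (f : ℤ → ℝ) {a b : ℤ} (h : a ≤ b) :
    ∑ j ∈ Finset.Ico a b, (f (j + 1) - f j) = f b - f a := by
  obtain ⟨m, rfl⟩ := Int.le.dest h
  clear h
  induction m with
  | zero => simp
  | succ k ih =>
    have e1 : a + ((k + 1 : ℕ) : ℤ) = (a + k) + 1 := by push_cast; ring
    have e2 : Finset.Ico a (a + k + 1) = insert (a + (k : ℤ)) (Finset.Ico a (a + k)) := by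
      ext x
      simp only [Finset.mem_Ico, Finset.mem_insert]
      omega
    rw [e1, e2, Finset.sum_insert (by simp), ih]
    ring


/-- The slope sums. -/
theorem main_term {N : ℕ} (hN : 0 < N) (c : Cfg (2 * N)) (L : ℤ → ℤ) {T m : ℝ} (hT : 1 ≤ T)
    (hm : 100 * T ≤ m) (hmm : m ^ 2 = ((2 * N : ℕ) : ℝ))
    (hφ : ∀ j, |c.φ j| ≤ T / m ^ 2) (hy : ∀ j, |c.y j| ≤ T / m)
    (hs : ∀ j, |m ^ 2 * c.s j - π * (pp N L j - uu N c j)| ≤ 2 * T / m)
    (hp : ∀ j, |pp N L j| = 1 / 2) (hpN : ∀ j, pp N L (j + N) = -pp N L j)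
    {a b : ℤ} (hab : a < b) :
    |((c.ρ (b + N) - c.ρ b) - (c.ρ (a + N) - c.ρ a)) * (1 / (2 * π * (b - a) / m ^ 2) ^ 2) +
      (∑ j ∈ Finset.Ico a b, (pp N L j - uu N c j)) / ((b : ℝ) - a) ^ 2| ≤
      4 * T ^ 2 / (m * ((b : ℝ) - a)) := by
  have hm0 : 0 < m := by linarith
  have hpi := Real.pi_gt_d2
  have hpi2 := Real.pi_lt_d2
  have hpi0 := Real.pi_pos
  have hd : 0 < (b : ℝ) - a := by
    have : (a : ℝ) < b := by exact_mod_cast hab
    linarith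
  -- `u` is antiperiodic
  have huN : ∀ j, uu N c (j + N) = -uu N c j := by
    intro j
    have e1 : c.Φ (j + N + N) = c.Φ j := by
      have e2 : j + (N : ℤ) + N = j + ((2 * N : ℕ) : ℤ) := by push_cast; ring
      unfold Cfg.Φ
      rw [e2, c.φ_add (by omega)]
    unfold uu
    rw [e1]
    ring
  have hu : ∀ j, |uu N c j| ≤ T / 3 := by
    intro j
    have h1 : ∀ i, |c.Φ i| ≤ T := by
      intro i
      unfold Cfg.Φ
      rw [abs_mul, ← hmm, abs_of_pos (by positivity)]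
      have := mul_le_mul_of_nonneg_left (hφ i) (by positivity : 0 ≤ m ^ 2)
      rwa [mul_div_cancel₀ _ (by positivity)] at this
    unfold uu
    rw [abs_div, abs_neg, abs_of_pos (by positivity : (0 : ℝ) < 2 * π), div_le_iff₀ (by positivity)]
    have h2 := abs_sub (c.Φ j) (c.Φ (j + N))
    have h3 := h1 j
    have h4 := h1 (j + N)
    nlinarith
  have hpu : ∀ j, |π * (pp N L j - uu N c j)| ≤ 3 * T := by
    intro j
    rw [abs_mul, abs_of_pos hpi0]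
    have h1 := abs_sub (pp N L j) (uu N c j)
    rw [hp j] at h1
    have h2 := hu j
    have h3 : |pp N L j - uu N c j| ≤ 5 / 6 * T := by linarith
    have h4 := mul_le_mul hpi2.le h3 (abs_nonneg _) (by norm_num)
    linarith
  have hns : ∀ j, |m ^ 2 * c.s j| ≤ 4 * T := by
    intro j
    have h1 := abs_add_le (m ^ 2 * c.s j - π * (pp N L j - uu N c j)) (π * (pp N L j - uu N c j))
    rw [sub_add_cancel] at h1
    have h2 := hs j
    have h3 := hpu j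
    have h4 : 2 * T / m ≤ 1 := by
      rw [div_le_one hm0]; linarith
    linarith
  -- the errors
  set e : ℤ → ℝ := fun j => m ^ 2 * (c.s j * (1 + c.y j) - c.s (j + N) * (1 + c.y (j + N))) -
    2 * π * (pp N L j - uu N c j) with he
  have heb : ∀ j, |e j| ≤ 12 * T ^ 2 / m := by
    intro j
    have h1 : e j = (m ^ 2 * c.s j - π * (pp N L j - uu N c j)) -
        (m ^ 2 * c.s (j + N) - π * (pp N L (j + N) - uu N c (j + N))) +
        (m ^ 2 * c.s j) * c.y j - (m ^ 2 * c.s (j + N)) * c.y (j + N) := by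
      rw [hpN, huN, he]; ring
    have h2 : ∀ i, |(m ^ 2 * c.s i) * c.y i| ≤ 4 * T ^ 2 / m := by
      intro i
      rw [abs_mul]
      have := mul_le_mul (hns i) (hy i) (abs_nonneg _) (by positivity)
      refine this.trans_eq ?_
      ring
    have h3 := abs_sub ((m ^ 2 * c.s j - π * (pp N L j - uu N c j)) -
        (m ^ 2 * c.s (j + N) - π * (pp N L (j + N) - uu N c (j + N))) +
        (m ^ 2 * c.s j) * c.y j) ((m ^ 2 * c.s (j + N)) * c.y (j + N))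
    have h4 := abs_add_le ((m ^ 2 * c.s j - π * (pp N L j - uu N c j)) -
        (m ^ 2 * c.s (j + N) - π * (pp N L (j + N) - uu N c (j + N)))) ((m ^ 2 * c.s j) * c.y j)
    have h5 := abs_sub (m ^ 2 * c.s j - π * (pp N L j - uu N c j))
        (m ^ 2 * c.s (j + N) - π * (pp N L (j + N) - uu N c (j + N)))
    have h6 := hs j
    have h7 := hs (j + N)
    have h8 := h2 j
    have h9 := h2 (j + N)
    have h10 : 2 * T / m ≤ 2 * T ^ 2 / m := by
      apply div_le_div_of_nonneg_right _ hm0.le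
      nlinarith
    have h11 : 12 * T ^ 2 / m = 2 * T ^ 2 / m + 2 * T ^ 2 / m + 4 * T ^ 2 / m + 4 * T ^ 2 / m := by
      ring
    rw [h1, h11]
    linarith
  -- telescoping
  have hΔ : ∀ j, c.ρ (j + 1) - c.ρ j = 2 * π / m ^ 2 * (c.s j * (1 + c.y j)) := by
    intro j
    have hg := c.g_pos j
    have h1 : c.Δ j = c.s j * c.g j := by
      unfold Cfg.s
      rw [div_mul_cancel₀ _ hg.ne']
    have h2 : c.ρ (j + 1) - c.ρ j = c.Δ j := rfl
    rw [h2, h1, c.g_eq (by omega), ← hmm]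
    ring
  have t1 : c.ρ b - c.ρ a = ∑ j ∈ Finset.Ico a b, 2 * π / m ^ 2 * (c.s j * (1 + c.y j)) := by
    rw [← tele c.ρ hab.le]
    exact Finset.sum_congr rfl fun j _ => hΔ j
  have t2 : c.ρ (b + N) - c.ρ (a + N) =
      ∑ j ∈ Finset.Ico a b, 2 * π / m ^ 2 * (c.s (j + N) * (1 + c.y (j + N))) := by
    rw [← tele (fun j => c.ρ (j + N)) hab.le]
    refine Finset.sum_congr rfl fun j _ => ?_
    rw [← hΔ]
    have : j + 1 + (N : ℤ) = j + N + 1 := by ring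
    rw [this]
  have t3 : (c.ρ (b + N) - c.ρ b) - (c.ρ (a + N) - c.ρ a) =
      -(2 * π / m ^ 4) * (2 * π * ∑ j ∈ Finset.Ico a b, (pp N L j - uu N c j) +
        ∑ j ∈ Finset.Ico a b, e j) := by
    have e1 : (c.ρ (b + N) - c.ρ b) - (c.ρ (a + N) - c.ρ a) =
        (c.ρ (b + N) - c.ρ (a + N)) - (c.ρ b - c.ρ a) := by ring
    rw [e1, t1, t2, ← Finset.sum_sub_distrib, Finset.mul_sum, ← Finset.sum_add_distrib,
      Finset.mul_sum]
    refine Finset.sum_congr rfl fun j _ => ?_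
    rw [he]
    field_simp
    ring
  have t4 : |∑ j ∈ Finset.Ico a b, e j| ≤ ((b : ℝ) - a) * (12 * T ^ 2 / m) := by
    refine (Finset.abs_sum_le_sum_abs _ _).trans ?_
    refine (Finset.sum_le_sum fun j _ => heb j).trans_eq ?_
    rw [Finset.sum_const, Int.card_Ico, nsmul_eq_mul]
    congr 1
    have : ((b - a).toNat : ℤ) = b - a := Int.toNat_of_nonneg (by omega)
    calc (((b - a).toNat : ℕ) : ℝ) = (((b - a).toNat : ℤ) : ℝ) := by push_cast; rfl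
      _ = ((b - a : ℤ) : ℝ) := by rw [this]
      _ = (b : ℝ) - a := by push_cast; ring
  have t5 : ((c.ρ (b + N) - c.ρ b) - (c.ρ (a + N) - c.ρ a)) * (1 / (2 * π * (b - a) / m ^ 2) ^ 2) +
      (∑ j ∈ Finset.Ico a b, (pp N L j - uu N c j)) / ((b : ℝ) - a) ^ 2 =
      -(∑ j ∈ Finset.Ico a b, e j) / (2 * π * ((b : ℝ) - a) ^ 2) := by
    rw [t3]
    field_simp
    ring
  rw [t5, abs_div, abs_neg, abs_of_pos (by positivity : (0 : ℝ) < 2 * π * ((b : ℝ) - a) ^ 2),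
    div_le_div_iff₀ (by positivity) (by positivity)]
  calc |∑ j ∈ Finset.Ico a b, e j| * (m * ((b : ℝ) - a))
      ≤ ((b : ℝ) - a) * (12 * T ^ 2 / m) * (m * ((b : ℝ) - a)) :=
        mul_le_mul_of_nonneg_right t4 (by positivity)
    _ = 12 * T ^ 2 * ((b : ℝ) - a) ^ 2 := by field_simp
    _ ≤ 4 * T ^ 2 * (2 * π * ((b : ℝ) - a) ^ 2) := by
        have h1 : 0 < T ^ 2 * ((b : ℝ) - a) ^ 2 := by positivity
        nlinarith


theorem norm_ri (x y : ℝ) : ‖((x : ℝ) : ℂ) + ((y : ℝ) : ℂ) * Complex.I‖ ≤ |x| + |y| := by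
  refine (norm_add_le _ _).trans ?_
  rw [norm_mul, Complex.norm_I, mul_one, Complex.norm_real, Complex.norm_real]
  exact le_refl _

/-- Real inequality 1. -/
theorem real1 {T m r : ℝ} (hT : 1 ≤ T) (hm : 100 * T ≤ m) (hr1 : 1 ≤ r)
    (hrm : 4 * r ^ 2 ≤ m ^ 2) : 0 < 2 * π * r ^ 2 / m ^ 2 ∧ 2 * π * r ^ 2 / m ^ 2 ≤ 8 / 5 ∧
      2 * (T * r / m ^ 3) ≤ 2 * π * r ^ 2 / m ^ 2 / 100 := by
  have hm0 : 0 < m := by linarith
  have hr0 : 0 < r := by linarith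
  have hpi := Real.pi_gt_d2
  have hpi2 := Real.pi_lt_d2
  have hpi0 := Real.pi_pos
  refine ⟨by positivity, ?_, ?_⟩
  · rw [div_le_iff₀ (by positivity)]
    nlinarith [pow_pos hr0 2]
  · have hTm : T / m ≤ 1 / 100 := by
      rw [div_le_div_iff₀ hm0 (by norm_num)]; linarith
    have e1 : 2 * (T * r / m ^ 3) = 2 * (T / m) * (r / m ^ 2) := by field_simp
    have e2 : 2 * π * r ^ 2 / m ^ 2 / 100 = (2 * π * r / 100) * (r / m ^ 2) := by field_simp
    rw [e1, e2]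
    refine mul_le_mul_of_nonneg_right ?_ (by positivity)
    nlinarith

/-- Real inequality 2. -/
theorem real2 {T m r x y y' : ℝ} (hT : 1 ≤ T) (hm : 100 * T ≤ m) (hr1 : 1 ≤ r)
    (hx : x = 2 * π * r ^ 2 / m ^ 2) (h2 : y ≤ 2 * (T * r / m ^ 3))
    (h3 : y' ≤ 2 * (T * r / m ^ 3)) :
    500 / x + 3 * (y + y') / x ^ 3 ≤ 80 * m ^ 2 / r ^ 2 + T * m ^ 3 / r ^ 5 := by
  have hm0 : 0 < m := by linarith
  have hr0 : 0 < r := by linarith
  have hpi := Real.pi_gt_d2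
  have hpi2 := Real.pi_lt_d2
  have hpi0 := Real.pi_pos
  have hx0 : 0 < x := by rw [hx]; positivity
  have h1 : 500 / x ≤ 80 * m ^ 2 / r ^ 2 := by
    rw [div_le_div_iff₀ hx0 (by positivity), hx]
    have e1 : 80 * m ^ 2 * (2 * π * r ^ 2 / m ^ 2) = 160 * π * r ^ 2 := by field_simp; ring
    rw [e1]
    nlinarith [pow_pos hr0 2]
  have h4 : 3 * (y + y') / x ^ 3 ≤ 12 * (T * r / m ^ 3) / x ^ 3 := by
    apply div_le_div_of_nonneg_right _ (by positivity)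
    linarith
  have h5 : 12 * (T * r / m ^ 3) / x ^ 3 ≤ T * m ^ 3 / r ^ 5 := by
    have e1 : 12 * (T * r / m ^ 3) / x ^ 3 = 12 / (8 * π ^ 3) * (T * m ^ 3 / r ^ 5) := by
      rw [hx]
      field_simp
      norm_num
    rw [e1]
    have h6 : 12 / (8 * π ^ 3) ≤ 1 := by
      rw [div_le_one (by positivity)]
      have : (3 : ℝ) ^ 3 ≤ π ^ 3 := pow_le_pow_left₀ (by norm_num) (by linarith) 3
      linarith
    have h7 : 0 ≤ T * m ^ 3 / r ^ 5 := by positivity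
    nlinarith
  linarith

/-- Real inequality 3. -/
theorem real3 {T m r x y : ℝ} (hT : 1 ≤ T) (hm : 100 * T ≤ m) (hr1 : 1 ≤ r)
    (hrm : 4 * r ^ 2 ≤ m ^ 2) (hx : x = 2 * π * r ^ 2 / m ^ 2)
    (h1 : y ≤ 80 * m ^ 2 / r ^ 2 + T * m ^ 3 / r ^ 5 + 1 / x ^ 2) : y ≤ 21 * m ^ 4 / r ^ 4 := by
  have hm0 : 0 < m := by linarith
  have hr0 : 0 < r := by linarith
  have hpi := Real.pi_gt_d2
  have hpi2 := Real.pi_lt_d2
  have hpi0 := Real.pi_pos
  have h2 : 1 / x ^ 2 ≤ m ^ 4 / (36 * r ^ 4) := by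
    have hx0 : 0 < x := by rw [hx]; positivity
    rw [div_le_div_iff₀ (by positivity) (by positivity), hx]
    have e1 : m ^ 4 * (2 * π * r ^ 2 / m ^ 2) ^ 2 = (4 * π ^ 2) * r ^ 4 := by
      field_simp; ring
    rw [e1]
    have h3 : (3 : ℝ) ^ 2 ≤ π ^ 2 := pow_le_pow_left₀ (by norm_num) (by linarith) 2
    nlinarith [pow_pos hr0 4]
  have h3 : 80 * m ^ 2 / r ^ 2 ≤ 20 * (m ^ 4 / r ^ 4) := by
    have e1 : 80 * m ^ 2 / r ^ 2 = 80 * (r ^ 2 * m ^ 2) / r ^ 4 := by field_simp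
    have e2 : 20 * (m ^ 4 / r ^ 4) = 20 * m ^ 4 / r ^ 4 := by ring
    rw [e1, e2]
    apply div_le_div_of_nonneg_right _ (by positivity)
    have : m ^ 4 = m ^ 2 * m ^ 2 := by ring
    rw [this]
    nlinarith [pow_pos hm0 2]
  have h4 : T * m ^ 3 / r ^ 5 ≤ 1 / 100 * (m ^ 4 / r ^ 4) := by
    rw [div_le_iff₀ (by positivity)]
    have e1 : 1 / 100 * (m ^ 4 / r ^ 4) * r ^ 5 = (1 / 100 * m * r) * m ^ 3 := by
      field_simp
    rw [e1]
    apply mul_le_mul_of_nonneg_right _ (by positivity)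
    nlinarith
  have h5 : m ^ 4 / (36 * r ^ 4) = 1 / 36 * (m ^ 4 / r ^ 4) := by field_simp
  have h6 : 21 * m ^ 4 / r ^ 4 = 21 * (m ^ 4 / r ^ 4) := by ring
  have h7 : 0 < m ^ 4 / r ^ 4 := by positivity
  rw [h6]
  rw [h5] at h2
  linarith

/-- Real inequality 4. -/
theorem real4 {T m r w : ℝ} (hT : 1 ≤ T) (hm : 100 * T ≤ m) (hr1 : 1 ≤ r) (hw0 : 0 ≤ w) :
    20 * T * (1 + w) / m ^ 2 * (6 * T * r / m ^ 3) * (21 * m ^ 4 / r ^ 4) +
      128 * T ^ 2 * r / m ^ 5 * (21 * m ^ 4 / r ^ 4) +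
      4 * T * r / m ^ 3 * (80 * m ^ 2 / r ^ 2 + T * m ^ 3 / r ^ 5) +
      4 * T ^ 2 / (m * r ^ 2) ≤
    6000 * T ^ 2 * (1 / (r ^ 2) ^ 2 + (r ^ 2 + w) / (r ^ 2 * r * m)) := by
  have hm0 : 0 < m := by linarith
  have hr0 : 0 < r := by linarith
  have hT0 : 0 < T := by linarith
  set X := 1 / (m * r ^ 3) with hX
  have hX0 : 0 < X := by positivity
  set Y := 1 / r ^ 4 with hY
  have hY0 : 0 < Y := by positivity
  have f1 : 20 * T * (1 + w) / m ^ 2 * (6 * T * r / m ^ 3) * (21 * m ^ 4 / r ^ 4) =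
      2520 * T ^ 2 * (1 + w) * X := by rw [hX]; field_simp; ring
  have f2 : 128 * T ^ 2 * r / m ^ 5 * (21 * m ^ 4 / r ^ 4) = 2688 * T ^ 2 * X := by
    rw [hX]; field_simp; ring
  have f3 : 4 * T * r / m ^ 3 * (80 * m ^ 2 / r ^ 2 + T * m ^ 3 / r ^ 5) =
      320 * T * r ^ 2 * X + 4 * T ^ 2 * Y := by rw [hX, hY]; field_simp; ring
  have f4 : 4 * T ^ 2 / (m * r ^ 2) = 4 * T ^ 2 * r * X := by rw [hX]; field_simp
  have f5 : 6000 * T ^ 2 * (1 / (r ^ 2) ^ 2 + (r ^ 2 + w) / (r ^ 2 * r * m)) =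
      6000 * T ^ 2 * Y + 6000 * T ^ 2 * (r ^ 2 + w) * X := by rw [hX, hY]; field_simp
  rw [f1, f2, f3, f4, f5]
  have g0 : 0 < T ^ 2 := by positivity
  have hr2 : r ≤ r ^ 2 := by nlinarith
  have hr3 : 1 ≤ r ^ 2 := by nlinarith
  have hTT : T ≤ T ^ 2 := by nlinarith
  have g1 : 2520 * T ^ 2 * (1 + w) + 2688 * T ^ 2 + 320 * T * r ^ 2 + 4 * T ^ 2 * r ≤
      6000 * T ^ 2 * (r ^ 2 + w) := by
    have k1 : T ^ 2 * (1 + w) ≤ T ^ 2 * (r ^ 2 + w) :=
      mul_le_mul_of_nonneg_left (by linarith) g0.le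
    have k2 : T ^ 2 ≤ T ^ 2 * (r ^ 2 + w) := by nlinarith
    have k3 : T * r ^ 2 ≤ T ^ 2 * (r ^ 2 + w) := by
      have := mul_le_mul_of_nonneg_right hTT (by positivity : 0 ≤ r ^ 2)
      nlinarith
    have k4 : T ^ 2 * r ≤ T ^ 2 * (r ^ 2 + w) :=
      mul_le_mul_of_nonneg_left (by linarith) g0.le
    nlinarith
  have g2 := mul_le_mul_of_nonneg_right g1 hX0.le
  have g3 : 4 * T ^ 2 * Y ≤ 6000 * T ^ 2 * Y := by nlinarith [mul_pos g0 hY0]
  linarith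

/-- Real inequality 5. -/
theorem real5 {T m r : ℝ} (hT : 1 ≤ T) (hm : 100 * T ≤ m) (hr1 : 1 ≤ r) :
    4 * T / m ^ 2 ≤ 1 / 4 ∧ T / m ^ 2 ≤ 1 ∧
    8 * (4 * T / m ^ 2) * (4 * T * r / m ^ 3) = 128 * T ^ 2 * r / m ^ 5 ∧
    128 * T ^ 2 * r / m ^ 5 + 4 * T * r / m ^ 3 ≤ 6 * T * r / m ^ 3 := by
  have hm0 : 0 < m := by linarith
  have hr0 : 0 < r := by linarith
  have hT0 : 0 < T := by linarith
  have hm1 : 100 ≤ m := by linarith
  refine ⟨?_, ?_, ?_, ?_⟩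
  · rw [div_le_div_iff₀ (by positivity) (by norm_num)]
    nlinarith
  · rw [div_le_one (by positivity)]; nlinarith
  · field_simp
    ring
  · have h2 : 128 * T ^ 2 * r / m ^ 5 ≤ 2 * T * r / m ^ 3 := by
      rw [div_le_div_iff₀ (by positivity) (by positivity)]
      have h3 : 128 * T ≤ 2 * m ^ 2 := by nlinarith
      have h4 : 0 < T * r * m ^ 3 := by positivity
      calc 128 * T ^ 2 * r * m ^ 3 = 128 * T * (T * r * m ^ 3) := by ring
        _ ≤ 2 * m ^ 2 * (T * r * m ^ 3) := mul_le_mul_of_nonneg_right h3 h4.le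
        _ = 2 * T * r * m ^ 5 := by ring
    have h5 : 6 * T * r / m ^ 3 = 2 * T * r / m ^ 3 + 4 * T * r / m ^ 3 := by ring
    rw [h5]
    linarith

/-- The phase. -/
theorem phase {n m T x y z w p : ℝ} (hn : n = m ^ 2) (hT : 1 ≤ T) (hm : 100 * T ≤ m)
    (hx : |x| ≤ T / m ^ 2) (hy : |y| ≤ T / m ^ 2) (hz : |z| ≤ T / m ^ 2) (hw : |p| = w) :
    ‖Complex.exp (((-x : ℝ) : ℂ) + ((2 * π * p / n + (y - z) : ℝ) : ℂ) * Complex.I) - 1‖ ≤
      20 * T * (1 + w) / m ^ 2 := by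
  have hm0 : 0 < m := by linarith
  have hT0 : 0 < T := by linarith
  have hpi2 := Real.pi_lt_d2
  have hpi0 := Real.pi_pos
  have hT1 : T / m ^ 2 ≤ 1 := (real5 (r := 1) hT hm le_rfl).2.1
  have h0 : |-x| ≤ 1 := by
    rw [abs_neg]; exact hx.trans hT1
  refine (expone _ _ h0).trans ?_
  rw [abs_neg]
  have h1 := abs_add_le (2 * π * p / n) (y - z)
  have h2 := abs_sub y z
  have hw0 : 0 ≤ w := by rw [← hw]; exact abs_nonneg _
  have h6 : |2 * π * p / n| ≤ 19 / 3 * w / m ^ 2 := by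
    rw [hn, abs_div, abs_mul, abs_of_pos (by positivity : 0 < 2 * π),
      abs_of_pos (by positivity : 0 < m ^ 2), hw]
    apply div_le_div_of_nonneg_right _ (by positivity)
    exact mul_le_mul_of_nonneg_right (by linarith) hw0
  have h7 : 20 * T * (1 + w) / m ^ 2 = 20 * (T / m ^ 2) + 20 * T * w / m ^ 2 := by ring
  have h8 : 19 * w / m ^ 2 ≤ 20 * T * w / m ^ 2 := by
    apply div_le_div_of_nonneg_right _ (by positivity)
    exact mul_le_mul_of_nonneg_right (by linarith) hw0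
  have h9 : 19 * w / m ^ 2 = 3 * (19 / 3 * w / m ^ 2) := by ring
  have h10 : 0 < T / m ^ 2 := by positivity
  rw [h7]
  linarith

theorem core {N : ℕ} (hN : 0 < N) (c : Cfg (2 * N)) (L : ℤ → ℤ) {T m : ℝ} (hT : 1 ≤ T)
    (hm : 100 * T ≤ m) (hmm : m ^ 2 = ((2 * N : ℕ) : ℝ))
    (hρ : ∀ j, |c.ρ j| ≤ T / m ^ 2)
    (hφ : ∀ j, |c.φ j| ≤ T / m ^ 2) (hy : ∀ j, |c.y j| ≤ T / m)
    (hs : ∀ j, |m ^ 2 * c.s j - π * (pp N L j - uu N c j)| ≤ 2 * T / m)
    (hp : ∀ j, |pp N L j| = 1 / 2) (hpN : ∀ j, pp N L (j + N) = -pp N L j)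
    (hR : ∀ (j : ℤ) (d : ℕ), d ≤ 2 * N → |c.R (j + d) - c.R j| ≤ T * (Real.sqrt d / m) ∧
      |c.Φ (j + d) - c.Φ j| ≤ T * (Real.sqrt d / m))
    (v a : ℤ) (d : ℕ) (hd1 : 1 ≤ d) (hdN : 2 * d ≤ N) {r : ℝ} (hr1 : 1 ≤ r) (hr : r ^ 2 = d) :
    |(Complex.exp ((c.θ v : ℂ) * Complex.I) * t1 N c.z a (a + d)).re +
        (∑ j ∈ Finset.Ico a (a + d), (pp N L j - uu N c j)) / (r ^ 2) ^ 2| ≤
      6000 * T ^ 2 * (1 / (r ^ 2) ^ 2 + (r ^ 2 + |(a : ℝ) - v|) / (r ^ 2 * r * m)) := by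
  have hm0 : 0 < m := by linarith
  have hr0 : 0 < r := by linarith
  have hsq : Real.sqrt d = r := by
    rw [← hr]; exact Real.sqrt_sq hr0.le
  have hrm : 4 * r ^ 2 ≤ m ^ 2 := by
    rw [hr, hmm]
    have : 4 * d ≤ 2 * N := by omega
    exact_mod_cast this
  have hba : (((a + (d : ℤ)) : ℤ) : ℝ) - a = r ^ 2 := by rw [hr]; push_cast; ring
  -- differences
  have hdρ : ∀ i : ℤ, |c.ρ (i + d) - c.ρ i| ≤ T * r / m ^ 3 ∧
      |c.φ (i + d) - c.φ i| ≤ T * r / m ^ 3 := by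
    intro i
    obtain ⟨h1, h2⟩ := hR i d (by omega)
    rw [hsq] at h1 h2
    have e1 : c.R (i + d) - c.R i = m ^ 2 * (c.ρ (i + d) - c.ρ i) := by
      unfold Cfg.R; rw [hmm]; ring
    have e2 : c.Φ (i + d) - c.Φ i = m ^ 2 * (c.φ (i + d) - c.φ i) := by
      unfold Cfg.Φ; rw [hmm]; ring
    rw [e1, abs_mul, abs_of_pos (by positivity)] at h1
    rw [e2, abs_mul, abs_of_pos (by positivity)] at h2
    constructor
    · rw [le_div_iff₀ (by positivity)]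
      have e3 : |c.ρ (i + d) - c.ρ i| * m ^ 3 = m ^ 2 * |c.ρ (i + d) - c.ρ i| * m := by ring
      rw [e3]
      have e4 : T * r = T * (r / m) * m := by field_simp
      rw [e4]
      exact mul_le_mul_of_nonneg_right h1 hm0.le
    · rw [le_div_iff₀ (by positivity)]
      have e3 : |c.φ (i + d) - c.φ i| * m ^ 3 = m ^ 2 * |c.φ (i + d) - c.φ i| * m := by ring
      rw [e3]
      have e4 : T * r = T * (r / m) * m := by field_simp
      rw [e4]
      exact mul_le_mul_of_nonneg_right h2 hm0.le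
  obtain ⟨hx0, hx2, hTr⟩ := real1 hT hm hr1 hrm
  obtain ⟨hκ, hT1, hb1, hb2⟩ := real5 hT hm hr1
  have hmain := main_term hN c L hT hm hmm hφ hy hs hp hpN (a := a) (b := a + d)
    (by omega)
  rw [hba] at hmain
  obtain ⟨x, hx⟩ : ∃ x : ℝ, x = 2 * π * r ^ 2 / m ^ 2 := ⟨_, rfl⟩
  rw [← hx] at hx0 hx2 hTr hmain
  -- the vectors `η`
  have hη : ∀ i : ℤ, ‖((c.ρ (i + d) - c.ρ i : ℝ) : ℂ) +
      ((c.φ (i + d) - c.φ i : ℝ) : ℂ) * Complex.I‖ ≤ 2 * (T * r / m ^ 3) := by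
    intro i
    obtain ⟨h1, h2⟩ := hdρ i
    exact (norm_ri _ _).trans (by linarith)
  have haN : a + (d : ℤ) + N = a + N + d := by ring
  have ht := t1_eq hN c v a (a + d)
  have e0 : (2 * π * (((a + d : ℤ) : ℝ) - a) / (2 * N : ℕ) : ℝ) = x := by
    rw [hba, ← hmm, hx]
  rw [e0] at ht
  have hη1 := hη a
  have hη2 := hη (a + N)
  rw [← haN] at hη2
  -- the phase
  have hα := phase (n := ((2 * N : ℕ) : ℝ)) (p := (v : ℝ) - a) (w := |(a : ℝ) - v|) hmm.symm hT hm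
    (hρ (a + N)) (hφ v) (hφ (a + N)) (abs_sub_comm _ _)
  -- `λ`
  have hla : la N c.z a - la N c.z (a + d) =
      Complex.exp (((c.ρ (a + d + N) - c.ρ (a + d) : ℝ) : ℂ) +
        ((c.φ (a + d + N) - c.φ (a + d) : ℝ) : ℂ) * Complex.I) -
      Complex.exp (((c.ρ (a + N) - c.ρ a : ℝ) : ℂ) +
        ((c.φ (a + N) - c.φ a : ℝ) : ℂ) * Complex.I) := by
    rw [la_eq hN, la_eq hN]
    ring
  have hνb : ∀ j, ‖((c.ρ (j + N) - c.ρ j : ℝ) : ℂ) +
      ((c.φ (j + N) - c.φ j : ℝ) : ℂ) * Complex.I‖ ≤ 4 * T / m ^ 2 := by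
    intro j
    refine (norm_ri _ _).trans ?_
    have h1 := abs_sub (c.ρ (j + N)) (c.ρ j)
    have h2 := abs_sub (c.φ (j + N)) (c.φ j)
    have h3 := hρ (j + N)
    have h4 := hρ j
    have h5 := hφ (j + N)
    have h6 := hφ j
    have h7 : 4 * T / m ^ 2 = T / m ^ 2 + T / m ^ 2 + T / m ^ 2 + T / m ^ 2 := by ring
    linarith
  have e1 : (((c.ρ (a + d + N) - c.ρ (a + d) : ℝ) : ℂ) +
        ((c.φ (a + d + N) - c.φ (a + d) : ℝ) : ℂ) * Complex.I) -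
      (((c.ρ (a + N) - c.ρ a : ℝ) : ℂ) + ((c.φ (a + N) - c.φ a : ℝ) : ℂ) * Complex.I) =
      (((c.ρ (a + d + N) - c.ρ (a + N) : ℝ) : ℂ) +
        ((c.φ (a + d + N) - c.φ (a + N) : ℝ) : ℂ) * Complex.I) -
        (((c.ρ (a + d) - c.ρ a : ℝ) : ℂ) + ((c.φ (a + d) - c.φ a : ℝ) : ℂ) * Complex.I) := by
    push_cast
    ring
  have hν1 := hνb a
  have hν2 := hνb (a + d)
  have hre : ((((c.ρ (a + d + N) - c.ρ (a + d) : ℝ) : ℂ) +
        ((c.φ (a + d + N) - c.φ (a + d) : ℝ) : ℂ) * Complex.I) -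
      (((c.ρ (a + N) - c.ρ a : ℝ) : ℂ) + ((c.φ (a + N) - c.φ a : ℝ) : ℂ) * Complex.I)).re =
      (c.ρ (a + d + N) - c.ρ (a + d)) - (c.ρ (a + N) - c.ρ a) := by
    simp
  generalize ((c.ρ (a + d + N) - c.ρ (a + d)) - (c.ρ (a + N) - c.ρ a)) = reδ at hmain hre
  generalize (((c.ρ (a + d + N) - c.ρ (a + d) : ℝ) : ℂ) +
        ((c.φ (a + d + N) - c.φ (a + d) : ℝ) : ℂ) * Complex.I) = ν₂ at hla hν2 e1 hre
  generalize (((c.ρ (a + N) - c.ρ a : ℝ) : ℂ) +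
        ((c.φ (a + N) - c.φ a : ℝ) : ℂ) * Complex.I) = ν₁ at hla hν1 e1 hre
  generalize (((c.ρ (a + d + N) - c.ρ (a + N) : ℝ) : ℂ) +
        ((c.φ (a + d + N) - c.φ (a + N) : ℝ) : ℂ) * Complex.I) = η₂ at hη2 e1 ht
  generalize (((c.ρ (a + d) - c.ρ a : ℝ) : ℂ) +
        ((c.φ (a + d) - c.φ a : ℝ) : ℂ) * Complex.I) = η₁ at hη1 e1 ht
  generalize Complex.exp (((-c.ρ (a + N) : ℝ) : ℂ) +
        ((2 * π * (v - a) / (2 * N : ℕ) + (c.φ v - c.φ (a + N)) : ℝ) : ℂ) * Complex.I) = A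
        at hα ht
  generalize (∑ j ∈ Finset.Ico a (a + d), (pp N L j - uu N c j)) / (r ^ 2) ^ 2 = S at hmain ⊢
  generalize Complex.exp ((c.θ v : ℂ) * Complex.I) * t1 N c.z a (a + d) = t at ht ⊢
  have hw0 : 0 ≤ |(a : ℝ) - v| := abs_nonneg _
  generalize |(a : ℝ) - v| = w at hα hw0 ⊢
  generalize la N c.z a - la N c.z (a + d) = B at hla ht
  clear hdρ hη hνb hR hs hp hpN hy hφ hρ
  have hker := ker hx0 hx2 (hη1.trans hTr) (hη2.trans hTr)
  have hγ := real2 hT hm hr1 hx hη1 hη2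
  generalize -(1 / 2) * (1 + Complex.exp (Complex.I * x + η₁)) /
      ((1 - Complex.exp (Complex.I * x + η₁)) * (1 - Complex.exp (Complex.I * x + η₂))) = D
      at hker ht
  have hker2 := hker.trans hγ
  have hDb : ‖D‖ ≤ 21 * m ^ 4 / r ^ 4 := by
    have h1 := norm_add_le (D - ((1 / x ^ 2 : ℝ) : ℂ)) ((1 / x ^ 2 : ℝ) : ℂ)
    rw [sub_add_cancel] at h1
    have h2 : ‖((1 / x ^ 2 : ℝ) : ℂ)‖ = 1 / x ^ 2 := by
      rw [Complex.norm_real, Real.norm_of_nonneg (by positivity)]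
    rw [h2] at h1
    exact real3 hT hm hr1 hrm hx (h1.trans (add_le_add_left hker2 _))
  have hδ : ‖ν₂ - ν₁‖ ≤ 4 * T * r / m ^ 3 := by
    rw [e1]
    refine (norm_sub_le _ _).trans ?_
    have e2 : 4 * T * r / m ^ 3 = 2 * (T * r / m ^ 3) + 2 * (T * r / m ^ 3) := by ring
    rw [e2]
    linarith
  have hB := expdiff ν₁ ν₂ hν1 hν2 hκ
  rw [← hla] at hB
  have hβ : ‖B - (ν₂ - ν₁)‖ ≤ 128 * T ^ 2 * r / m ^ 5 := by
    refine hB.trans ?_
    rw [← hb1]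
    exact mul_le_mul_of_nonneg_left hδ (by positivity)
  have hBb : ‖B‖ ≤ 6 * T * r / m ^ 3 := by
    have h1 := norm_add_le (B - (ν₂ - ν₁)) (ν₂ - ν₁)
    rw [sub_add_cancel] at h1
    linarith
  have hprod := prod3 _ _ _ _ _ hα hβ hker2 hBb hDb hδ
  rw [← ht] at hprod
  -- real parts
  have h1 := (Complex.abs_re_le_norm (t - (ν₂ - ν₁) * ((1 / x ^ 2 : ℝ) : ℂ))).trans hprod
  rw [Complex.sub_re, Complex.re_mul_ofReal, hre] at h1
  have h2 := abs_add_le (t.re - reδ * (1 / x ^ 2)) (reδ * (1 / x ^ 2) + S)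
  have e3 : t.re - reδ * (1 / x ^ 2) + (reδ * (1 / x ^ 2) + S) = t.re + S := by ring
  rw [e3] at h2
  exact h2.trans ((add_le_add h1 hmain).trans (real4 hT hm hr1 hw0))

end MK3NEAR

theorem m_K3NEAR : Stmt_HOLD → Stmt_SLREL → Stmt_K3NEAR := by
  intro hH hSL K
  obtain ⟨C₀, n₁, hC₀, H₁⟩ := hH K
  obtain ⟨C₁, n₂, hC₁, H₂⟩ := hSL K
  set T : ℝ := |K| + C₀ + C₁ + 1 with hTd
  have hK0 := abs_nonneg K
  have hT : 1 ≤ T := by linarith
  refine ⟨6000 * T ^ 2, n₁ + n₂ + ⌈(100 * T) ^ 2⌉₊ + 1, by positivity, ?_⟩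
  intro N hN c hreg L hL hp hpN v a b hab hbN
  have hN0 : 0 < N := by omega
  have hnR : (0 : ℝ) < ((2 * N : ℕ) : ℝ) := by positivity
  set m : ℝ := Real.sqrt ((2 * N : ℕ) : ℝ) with hmd
  have hmm : m ^ 2 = ((2 * N : ℕ) : ℝ) := Real.sq_sqrt hnR.le
  have hm : 100 * T ≤ m := by
    rw [hmd]
    apply Real.le_sqrt_of_sq_le
    have h1 : (100 * T) ^ 2 ≤ (⌈(100 * T) ^ 2⌉₊ : ℝ) := Nat.le_ceil _
    have h2 : ((⌈(100 * T) ^ 2⌉₊ : ℕ) : ℝ) ≤ ((2 * N : ℕ) : ℝ) := by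
      exact_mod_cast (by omega : ⌈(100 * T) ^ 2⌉₊ ≤ 2 * N)
    linarith
  have hm0 : 0 < m := by linarith
  obtain ⟨h1, h2⟩ := H₁ (2 * N) (by omega) c hreg
  have h3 := H₂ N (by omega) c hreg L hL
  have hKT : K ≤ T := by
    have := le_abs_self K
    linarith
  obtain ⟨d, rfl⟩ : ∃ d : ℕ, b = a + d := ⟨(b - a).toNat, by
    rw [Int.toNat_of_nonneg (by omega)]; ring⟩
  have hd1 : 1 ≤ d := by omega
  have hdN : 2 * d ≤ N := by omega
  have hdR : (1 : ℝ) ≤ (d : ℝ) := by exact_mod_cast hd1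
  have hsq : Real.sqrt (d : ℝ) ^ 2 = d := Real.sq_sqrt (by positivity)
  have hr1 : 1 ≤ Real.sqrt (d : ℝ) := by
    rw [Real.one_le_sqrt]; exact hdR
  have hc := MK3NEAR.core hN0 c L hT hm hmm
    (fun j => by
      rw [hmm]; exact (hreg.hρ j).trans (div_le_div_of_nonneg_right hKT hnR.le))
    (fun j => by
      rw [hmm]; exact (hreg.hφ j).trans (div_le_div_of_nonneg_right hKT hnR.le))
    (fun j => ((h1 j).1).trans (div_le_div_of_nonneg_right (by linarith) hm0.le))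
    (fun j => by
      have h4 := (h3 j).1
      rw [hp j, ← hmm] at h4
      apply abs_le_of_sq_le_sq _ (by positivity)
      refine h4.trans ?_
      rw [div_pow]
      apply div_le_div_of_nonneg_right _ (by positivity)
      nlinarith)
    hp hpN
    (fun j e he => by
      obtain ⟨h5, h6⟩ := h2 j e he
      have e1 : Real.sqrt ((e : ℝ) / ((2 * N : ℕ) : ℝ)) = Real.sqrt e / m := by
        rw [Real.sqrt_div (by positivity)]
      rw [e1] at h5 h6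
      have h7 : C₀ * (Real.sqrt e / m) ≤ T * (Real.sqrt e / m) :=
        mul_le_mul_of_nonneg_right (by linarith) (by positivity)
      exact ⟨h5.trans h7, h6.trans h7⟩)
    v a d hd1 hdN hr1 hsq
  have hba : (((a + (d : ℤ)) : ℤ) : ℝ) - a = Real.sqrt (d : ℝ) ^ 2 := by
    rw [hsq]; push_cast; ring
  have hba2 : (((a + (d : ℤ)) : ℤ) : ℝ) - a = d := by
    push_cast; ring
  have hsr : Real.sqrt ((((a + (d : ℤ)) : ℤ) : ℝ) - a) = Real.sqrt (d : ℝ) := by rw [hba2]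
  rw [hsr, hba]
  exact hc

end Pool.Agent.EHP
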