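import Pool.Agent.EHP.Stmts6

/-!
# Module EHP_K3SUM: elementary sums (MP_fd5ac7_co)
-/

open Finset
open scoped Real ComplexConjugate

namespace Pool.Agent.EHP

namespace K3Sum

lemma sq_sum (s : ℕ) (hs : 1 ≤ s) (m : ℕ) :
    ∑ t ∈ range m, 1 / ((t : ℝ) + s) ^ 2 ≤ 2 * (1 / (s : ℝ) - 1 / ((m : ℝ) + s)) := by
  have hs' : (1 : ℝ) ≤ s := by exact_mod_cast hs
  induction m with
  | zero => simp
  | succ m ih =>
    rw [sum_range_succ]
    have hx : (1 : ℝ) ≤ (m : ℝ) + s := by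
      have : (0 : ℝ) ≤ m := Nat.cast_nonneg m
      linarith
    have key : 1 / ((m : ℝ) + s) ^ 2 ≤ 2 * (1 / ((m : ℝ) + s) - 1 / (((m + 1 : ℕ) : ℝ) + s)) := by
      push_cast
      set x : ℝ := (m : ℝ) + s with hxd
      have e : (m : ℝ) + 1 + s = x + 1 := by rw [hxd]; ring
      rw [e]
      have hx0 : 0 < x := by linarith
      have e2 : 2 * (1 / x - 1 / (x + 1)) = 2 / (x * (x + 1)) := by
        field_simp
        ring
      rw [e2, div_le_div_iff₀ (by positivity) (by positivity)]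
      nlinarith
    linarith

lemma log_sum (s : ℕ) (hs : 1 ≤ s) (m : ℕ) :
    Real.log (((m : ℝ) + s) / s) ≤ ∑ t ∈ range m, 1 / ((t : ℝ) + s) := by
  have hs' : (1 : ℝ) ≤ s := by exact_mod_cast hs
  induction m with
  | zero => simp
  | succ m ih =>
    rw [sum_range_succ]
    have hx : (1 : ℝ) ≤ (m : ℝ) + s := by
      have : (0 : ℝ) ≤ m := Nat.cast_nonneg m
      linarith
    have hx0 : 0 < (m : ℝ) + s := by linarith
    have hs0 : 0 < (s : ℝ) := by linarith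
    have e : (((m + 1 : ℕ) : ℝ) + s) / s = (((m : ℝ) + s) / s) * (1 + 1 / ((m : ℝ) + s)) := by
      push_cast
      field_simp
      ring
    rw [e, Real.log_mul (by positivity) (by positivity)]
    have h1 : Real.log (1 + 1 / ((m : ℝ) + s)) ≤ 1 / ((m : ℝ) + s) := by
      have := Real.log_le_sub_one_of_pos (show (0 : ℝ) < 1 + 1 / ((m : ℝ) + s) by positivity)
      linarith
    linarith

lemma sqrt_sum (s : ℕ) (hs : 1 ≤ s) (m : ℕ) :
    ∑ t ∈ range m, 1 / Real.sqrt ((t : ℝ) + s) ≤ 2 * Real.sqrt ((m : ℝ) + s - 1) := by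
  have hs' : (1 : ℝ) ≤ s := by exact_mod_cast hs
  induction m with
  | zero => simp
  | succ m ih =>
    rw [sum_range_succ]
    have hx : (1 : ℝ) ≤ (m : ℝ) + s := by
      have : (0 : ℝ) ≤ m := Nat.cast_nonneg m
      linarith
    have key : 1 / Real.sqrt ((m : ℝ) + s) ≤
        2 * Real.sqrt (((m + 1 : ℕ) : ℝ) + s - 1) - 2 * Real.sqrt ((m : ℝ) + s - 1) := by
      push_cast
      set x : ℝ := (m : ℝ) + s with hxd
      have e : (m : ℝ) + 1 + s - 1 = x := by rw [hxd]; ring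
      rw [e]
      have hx0 : 0 < x := by linarith
      have ha : 0 < Real.sqrt x := Real.sqrt_pos.mpr hx0
      have hb : Real.sqrt (x - 1) ≤ Real.sqrt x := Real.sqrt_le_sqrt (by linarith)
      have hb0 : 0 ≤ Real.sqrt (x - 1) := Real.sqrt_nonneg _
      have ha2 : Real.sqrt x ^ 2 = x := Real.sq_sqrt hx0.le
      have hb2 : Real.sqrt (x - 1) ^ 2 = x - 1 := Real.sq_sqrt (by linarith)
      rw [div_le_iff₀ ha]
      nlinarith [mul_nonneg (sub_nonneg.mpr hb) (sub_nonneg.mpr hb)]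
    linarith

lemma threehalf_sum (s : ℕ) (hs : 1 ≤ s) (m : ℕ) :
    ∑ t ∈ range m, 1 / (((t : ℝ) + s) * Real.sqrt ((t : ℝ) + s)) ≤
      4 * (1 / Real.sqrt (s : ℝ) - 1 / Real.sqrt ((m : ℝ) + s)) := by
  have hs' : (1 : ℝ) ≤ s := by exact_mod_cast hs
  induction m with
  | zero => simp
  | succ m ih =>
    rw [sum_range_succ]
    have hx : (1 : ℝ) ≤ (m : ℝ) + s := by
      have : (0 : ℝ) ≤ m := Nat.cast_nonneg m
      linarith
    have key : 1 / (((m : ℝ) + s) * Real.sqrt ((m : ℝ) + s)) ≤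
        4 * (1 / Real.sqrt ((m : ℝ) + s) - 1 / Real.sqrt (((m + 1 : ℕ) : ℝ) + s)) := by
      push_cast
      set x : ℝ := (m : ℝ) + s with hxd
      have e : (m : ℝ) + 1 + s = x + 1 := by rw [hxd]; ring
      rw [e]
      have hx0 : 0 < x := by linarith
      have ha : 0 < Real.sqrt x := Real.sqrt_pos.mpr hx0
      have hb : Real.sqrt x < Real.sqrt (x + 1) := Real.sqrt_lt_sqrt hx0.le (by linarith)
      have hb0 : 0 < Real.sqrt (x + 1) := lt_trans ha hb
      have ha2 : Real.sqrt x ^ 2 = x := Real.sq_sqrt hx0.le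
      have hb2 : Real.sqrt (x + 1) ^ 2 = x + 1 := Real.sq_sqrt (by linarith)
      have hc : Real.sqrt (x + 1) ≤ 3 / 2 * Real.sqrt x := by
        rw [show (3 / 2 : ℝ) * Real.sqrt x = Real.sqrt (9 / 4 * x) by
          rw [Real.sqrt_mul (by norm_num)]
          congr 1
          rw [show (9 / 4 : ℝ) = (3 / 2) ^ 2 by norm_num, Real.sqrt_sq (by norm_num)]]
        exact Real.sqrt_le_sqrt (by linarith)
      set u := Real.sqrt x with hu
      set v := Real.sqrt (x + 1) with hv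
      have e1 : 4 * (1 / u - 1 / v) = 4 * (v - u) / (u * v) := by
        field_simp
      have hd : (v - u) * (v + u) = 1 := by nlinarith
      rw [e1, div_le_div_iff₀ (by positivity) (by positivity)]
      -- u v ≤ 4 (v - u) x u, with x = u^2
      have h2 : v * (v + u) ≤ 4 * u ^ 2 := by nlinarith
      have h3 : v ≤ 4 * (v - u) * u ^ 2 := by
        have hvu : 0 < v - u := by linarith
        calc v = (v - u) * (v * (v + u)) := by
              calc v = v * 1 := by ring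
                _ = v * ((v - u) * (v + u)) := by rw [hd]
                _ = _ := by ring
          _ ≤ (v - u) * (4 * u ^ 2) := mul_le_mul_of_nonneg_left h2 hvu.le
          _ = _ := by ring
      rw [← ha2]
      nlinarith [mul_le_mul_of_nonneg_left h3 ha.le]
    linarith

lemma first (w T : ℕ) (hw : 2 ≤ w) (hT : w ≤ T) (s : ℕ) (hs : s ∈ Finset.Ico 1 w) :
    ∑ t ∈ range (T + 1), (3 / 5 * (s : ℝ) - 2 / 5 * t) / ((t : ℝ) + s) ^ 2 ≤
      2 - 2 / 5 * Real.log ((T : ℝ) / w) := by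
  rw [Finset.mem_Ico] at hs
  obtain ⟨hs1, hs2⟩ := hs
  have hs' : (1 : ℝ) ≤ s := by exact_mod_cast hs1
  have hsw : (s : ℝ) ≤ w := by exact_mod_cast hs2.le
  have hw' : (2 : ℝ) ≤ w := by exact_mod_cast hw
  have hT' : (w : ℝ) ≤ T := by exact_mod_cast hT
  have e : ∀ t ∈ range (T + 1), (3 / 5 * (s : ℝ) - 2 / 5 * t) / ((t : ℝ) + s) ^ 2 =
      s * (1 / ((t : ℝ) + s) ^ 2) - 2 / 5 * (1 / ((t : ℝ) + s)) := by
    intro t _
    have : (0 : ℝ) ≤ t := Nat.cast_nonneg t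
    have hp : 0 < (t : ℝ) + s := by linarith
    field_simp
    ring
  rw [sum_congr rfl e, sum_sub_distrib, ← mul_sum, ← mul_sum]
  have h1 := sq_sum s hs1 (T + 1)
  have h2 := log_sum s hs1 (T + 1)
  have h3 : (s : ℝ) * ∑ t ∈ range (T + 1), 1 / ((t : ℝ) + s) ^ 2 ≤ 2 := by
    calc (s : ℝ) * ∑ t ∈ range (T + 1), 1 / ((t : ℝ) + s) ^ 2
        ≤ s * (2 * (1 / (s : ℝ) - 1 / (((T + 1 : ℕ) : ℝ) + s))) :=
          mul_le_mul_of_nonneg_left h1 (by linarith)
      _ ≤ s * (2 * (1 / (s : ℝ))) := by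
          apply mul_le_mul_of_nonneg_left _ (by linarith)
          have : (0 : ℝ) ≤ 1 / (((T + 1 : ℕ) : ℝ) + s) := by positivity
          linarith
      _ = 2 := by field_simp
  have h4 : Real.log ((T : ℝ) / w) ≤ Real.log ((((T + 1 : ℕ) : ℝ) + s) / s) := by
    have hw0 : (0 : ℝ) < w := by linarith
    have hT0 : (0 : ℝ) < T := by linarith
    apply Real.log_le_log (div_pos hT0 hw0)
    push_cast
    rw [div_le_div_iff₀ (by linarith) (by linarith)]
    nlinarith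
  linarith

lemma second (w T n : ℕ) (hw : 2 ≤ w) (hn : T + w ≤ n) (s : ℕ) (hs : s ∈ Finset.Ico 1 w) :
    ∑ t ∈ range (T + 1), (1 / ((t : ℝ) + s) ^ 2 + ((t : ℝ) + s + 2 * w) /
      (((t : ℝ) + s) * Real.sqrt ((t : ℝ) + s) * Real.sqrt n)) ≤
      4 + 8 * w / Real.sqrt n * (1 / Real.sqrt s) := by
  rw [Finset.mem_Ico] at hs
  obtain ⟨hs1, hs2⟩ := hs
  have hs' : (1 : ℝ) ≤ s := by exact_mod_cast hs1
  have hsw : (s : ℝ) ≤ w := by exact_mod_cast hs2.le
  have hw' : (2 : ℝ) ≤ w := by exact_mod_cast hw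
  have hn' : (T : ℝ) + w ≤ n := by exact_mod_cast hn
  have hT0 : (0 : ℝ) ≤ T := Nat.cast_nonneg T
  have hn0 : (0 : ℝ) < n := by linarith
  have hq : 0 < Real.sqrt n := Real.sqrt_pos.mpr hn0
  have e : ∀ t ∈ range (T + 1), (1 / ((t : ℝ) + s) ^ 2 + ((t : ℝ) + s + 2 * w) /
      (((t : ℝ) + s) * Real.sqrt ((t : ℝ) + s) * Real.sqrt n)) =
      1 / ((t : ℝ) + s) ^ 2 + 1 / Real.sqrt n * (1 / Real.sqrt ((t : ℝ) + s)) +
      2 * w / Real.sqrt n * (1 / (((t : ℝ) + s) * Real.sqrt ((t : ℝ) + s))) := by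
    intro t _
    have : (0 : ℝ) ≤ t := Nat.cast_nonneg t
    have hp : 0 < (t : ℝ) + s := by linarith
    have hp2 : 0 < Real.sqrt ((t : ℝ) + s) := Real.sqrt_pos.mpr hp
    field_simp
    ring
  rw [sum_congr rfl e, sum_add_distrib, sum_add_distrib, ← mul_sum, ← mul_sum]
  have h1 := sq_sum s hs1 (T + 1)
  have h2 := sqrt_sum s hs1 (T + 1)
  have h3 := threehalf_sum s hs1 (T + 1)
  have k1 : ∑ t ∈ range (T + 1), 1 / ((t : ℝ) + s) ^ 2 ≤ 2 := by
    have a1 : (0 : ℝ) ≤ 1 / (((T + 1 : ℕ) : ℝ) + s) := by positivity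
    have a2 : 1 / (s : ℝ) ≤ 1 := by
      rw [div_le_one (by linarith)]; exact hs'
    linarith
  have k2 : 1 / Real.sqrt n * ∑ t ∈ range (T + 1), 1 / Real.sqrt ((t : ℝ) + s) ≤ 2 := by
    have b1 : Real.sqrt (((T + 1 : ℕ) : ℝ) + s - 1) ≤ Real.sqrt n := by
      apply Real.sqrt_le_sqrt
      push_cast
      linarith
    calc 1 / Real.sqrt n * ∑ t ∈ range (T + 1), 1 / Real.sqrt ((t : ℝ) + s)
        ≤ 1 / Real.sqrt n * (2 * Real.sqrt n) := by
          apply mul_le_mul_of_nonneg_left _ (by positivity)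
          linarith
      _ = 2 := by field_simp
  have k3 : 2 * w / Real.sqrt n * ∑ t ∈ range (T + 1), 1 / (((t : ℝ) + s) * Real.sqrt ((t : ℝ) + s)) ≤
      8 * w / Real.sqrt n * (1 / Real.sqrt s) := by
    have c1 : (0 : ℝ) ≤ 1 / Real.sqrt (((T + 1 : ℕ) : ℝ) + s) := by positivity
    calc 2 * w / Real.sqrt n * ∑ t ∈ range (T + 1), 1 / (((t : ℝ) + s) * Real.sqrt ((t : ℝ) + s))
        ≤ 2 * w / Real.sqrt n * (4 * (1 / Real.sqrt s)) := by
          apply mul_le_mul_of_nonneg_left _ (by positivity)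
          linarith
      _ = _ := by ring
  linarith

end K3Sum

open K3Sum in
theorem m_K3SUM : Stmt_K3SUM := by
  refine ⟨40, by norm_num, ?_⟩
  intro w T n hw hT hn
  have hw' : (2 : ℝ) ≤ w := by exact_mod_cast hw
  have hcard : ((Finset.Ico 1 w).card : ℝ) = (w : ℝ) - 1 := by
    rw [Nat.card_Ico]
    push_cast [Nat.cast_sub (show 1 ≤ w by omega)]
    ring
  constructor
  · calc ∑ s ∈ Finset.Ico 1 w, ∑ t ∈ range (T + 1), (3 / 5 * (s : ℝ) - 2 / 5 * t) / ((t : ℝ) + s) ^ 2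
        ≤ ∑ s ∈ Finset.Ico 1 w, (2 - 2 / 5 * Real.log ((T : ℝ) / w)) :=
          sum_le_sum fun s hs => first w T hw hT s hs
      _ = ((w : ℝ) - 1) * (2 - 2 / 5 * Real.log ((T : ℝ) / w)) := by
          rw [sum_const, nsmul_eq_mul, hcard]
      _ ≤ _ := by nlinarith
  · have hn' : (T : ℝ) + w ≤ n := by exact_mod_cast hn
    have hT0 : (0 : ℝ) ≤ T := Nat.cast_nonneg T
    have hn0 : (0 : ℝ) < n := by linarith
    have hq : 0 < Real.sqrt n := Real.sqrt_pos.mpr hn0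
    have h5 : ∑ s ∈ Finset.Ico 1 w, 1 / Real.sqrt (s : ℝ) ≤ 2 * Real.sqrt n := by
      rw [Finset.sum_Ico_eq_sum_range]
      have h6 := sqrt_sum 1 le_rfl (w - 1)
      have e6 : ∀ t ∈ range (w - 1), 1 / Real.sqrt ((1 + t : ℕ) : ℝ) =
          1 / Real.sqrt ((t : ℝ) + ((1 : ℕ) : ℝ)) := by
        intro t _
        push_cast
        rw [add_comm]
      rw [sum_congr rfl e6]
      refine h6.trans ?_
      apply mul_le_mul_of_nonneg_left _ (by norm_num)
      apply Real.sqrt_le_sqrt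
      rw [Nat.cast_sub (show 1 ≤ w by omega)]
      push_cast
      linarith
    calc ∑ s ∈ Finset.Ico 1 w, ∑ t ∈ range (T + 1), (1 / ((t : ℝ) + s) ^ 2 + ((t : ℝ) + s + 2 * w) /
          (((t : ℝ) + s) * Real.sqrt ((t : ℝ) + s) * Real.sqrt n))
        ≤ ∑ s ∈ Finset.Ico 1 w, (4 + 8 * w / Real.sqrt n * (1 / Real.sqrt s)) :=
          sum_le_sum fun s hs => second w T n hw hn s hs
      _ = ((w : ℝ) - 1) * 4 + 8 * w / Real.sqrt n * ∑ s ∈ Finset.Ico 1 w, 1 / Real.sqrt (s : ℝ) := by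
          rw [sum_add_distrib, sum_const, nsmul_eq_mul, hcard, ← mul_sum]
      _ ≤ ((w : ℝ) - 1) * 4 + 8 * w / Real.sqrt n * (2 * Real.sqrt n) := by
          have := mul_le_mul_of_nonneg_left h5 (show (0 : ℝ) ≤ 8 * w / Real.sqrt n by positivity)
          linarith
      _ = ((w : ℝ) - 1) * 4 + 16 * w := by
          field_simp
          ring
      _ ≤ 40 * ((w : ℝ) - 1) := by linarith

end Pool.Agent.EHP
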