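import Pool.Agent.EHP.Stmts5

/-!
# Module EHP_KD: properties of the distance function (MP_fd5ac7_co)
-/

open Finset
open scoped Real ComplexConjugate Interval

namespace Pool.Agent.EHP

namespace KD

open MeasureTheory

variable (N : ℕ) (p : ℤ → ℝ)

theorem meas : Measurable (PN N p) := by
  unfold PN
  exact (measurable_of_countable p).comp
    (Int.measurable_floor.comp ((measurable_id.mul_const _).div_const _))

theorem anti (hN : 1 ≤ N) (hp : ∀ j, p (j + N) = -p j) (x : ℝ) : PN N p (x + π) = -PN N p x := by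
  unfold PN
  have h1 : (x + π) * N / π = x * N / π + (N : ℝ) := by
    have := Real.pi_ne_zero
    field_simp
  rw [h1, Int.floor_add_natCast, hp]

theorem per (hN : 1 ≤ N) (hp : ∀ j, p (j + N) = -p j) : Function.Periodic (PN N p) (2 * π) := by
  intro x
  rw [two_mul, ← add_assoc, anti N p hN hp, anti N p hN hp, neg_neg]

theorem bd (hb : ∀ j, |p j| ≤ 1 / 2) (x : ℝ) : |PN N p x| ≤ 1 / 2 := hb _

/-- the step function is continuous at the points which are not multiples of `π / N` -/
theorem contAt (y : ℝ) (hy : ∀ k : ℤ, y * N / π ≠ k) : ContinuousAt (PN N p) y := by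
  have h1 : ContinuousAt (fun x : ℝ => x * N / π) y := by fun_prop
  have h2 : (⌊y * N / π⌋ : ℝ) < y * N / π := lt_of_le_of_ne (Int.floor_le _) (hy _).symm
  have h3 : y * N / π < ⌊y * N / π⌋ + 1 := Int.lt_floor_add_one _
  have h4 := h1.eventually (Ioo_mem_nhds h2 h3)
  refine ContinuousAt.congr (f := fun _ => PN N p y) continuousAt_const ?_
  filter_upwards [h4] with x hx
  unfold PN
  rw [Int.floor_eq_iff.2 ⟨hx.1.le, hx.2⟩]

theorem ae_cont (hN : 1 ≤ N) (t : ℝ) :
    ∀ᵐ x : ℝ, ContinuousAt (fun s => PN N p x * PN N p (x + s)) t := by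
  have hc : (Set.range fun k : ℤ => (k : ℝ) * π / N - t).Countable := Set.countable_range _
  filter_upwards [hc.ae_notMem volume] with x hx
  have h1 : ContinuousAt (PN N p) (x + t) := by
    refine contAt N p _ fun k hk => hx ⟨k, ?_⟩
    have hN' : (N : ℝ) ≠ 0 := by positivity
    have := Real.pi_ne_zero
    simp only
    rw [← hk]
    field_simp
    ring
  exact continuousAt_const.mul (h1.comp (f := fun s => x + s) (by fun_prop))

theorem int_ab (hb : ∀ j, |p j| ≤ 1 / 2) (s t : ℝ) :
    IntervalIntegrable (fun x => PN N p (x + s) * PN N p (x + t)) volume 0 (2 * π) := by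
  rw [intervalIntegrable_iff]
  have hf : IsFiniteMeasure (volume.restrict (Set.uIoc 0 (2 * π))) :=
    isFiniteMeasure_restrict.2 (by rw [Set.uIoc]; simp)
  refine Integrable.of_bound (((meas N p).comp (measurable_id.add_const s)).mul
    ((meas N p).comp (measurable_id.add_const t))).aestronglyMeasurable (1 / 2 * (1 / 2))
    (Filter.Eventually.of_forall fun x => ?_)
  simp only [norm_mul, Real.norm_eq_abs]
  exact mul_le_mul (bd N p hb _) (bd N p hb _) (abs_nonneg _) (by norm_num)

/-- shift -/
theorem shift (hN : 1 ≤ N) (hp : ∀ j, p (j + N) = -p j) (s t : ℝ) :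
    ∫ x in (0 : ℝ)..(2 * π), PN N p (x + s) * PN N p (x + t) =
      ∫ x in (0 : ℝ)..(2 * π), PN N p x * PN N p (x + (t - s)) := by
  have h1 : ∫ x in (0 : ℝ)..(2 * π), PN N p (x + s) * PN N p (x + t) =
      ∫ x in (0 + s)..(2 * π + s), PN N p x * PN N p (x + (t - s)) := by
    rw [← intervalIntegral.integral_comp_add_right (fun x => PN N p x * PN N p (x + (t - s)))]
    refine intervalIntegral.integral_congr fun x _ => ?_
    have e : x + s + (t - s) = x + t := by ring
    simp only [e]
  have hper : Function.Periodic (fun x => PN N p x * PN N p (x + (t - s))) (2 * π) := by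
    intro x
    simp only
    rw [per N p hN hp x, show x + 2 * π + (t - s) = x + (t - s) + 2 * π by ring, per N p hN hp]
  have h2 := hper.intervalIntegral_add_eq (0 + s) 0
  rw [h1, show 2 * π + s = 0 + s + 2 * π by ring, h2, zero_add]

theorem r_eq (hN : 1 ≤ N) (hp : ∀ j, p (j + N) = -p j) (s t : ℝ) :
    ∫ x in (0 : ℝ)..(2 * π), PN N p (x + s) * PN N p (x + t) = 2 * π * rN N p (t - s) := by
  rw [shift N p hN hp]
  unfold rN
  have := Real.pi_ne_zero
  field_simp

theorem alg {x y z : ℝ} (hx : |x| ≤ 1 / 2) (hy : |y| ≤ 1 / 2) (hz : |z| ≤ 1 / 2) :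
    x * y + y * z - x * z ≤ 1 / 4 ∧ -(1 / 4) ≤ x * y + y * z + x * z := by
  obtain ⟨x1, x2⟩ := abs_le.1 hx
  obtain ⟨y1, y2⟩ := abs_le.1 hy
  obtain ⟨z1, z2⟩ := abs_le.1 hz
  have a1 : 0 ≤ (1 / 2 - x) * (1 / 2 - z) := mul_nonneg (by linarith) (by linarith)
  have a2 : 0 ≤ (1 / 2 + x) * (1 / 2 + z) := mul_nonneg (by linarith) (by linarith)
  rcases le_total 0 (x + z) with h | h
  · have b1 : y * (x + z) ≤ 1 / 2 * (x + z) := mul_le_mul_of_nonneg_right y2 h
    have b2 : -(1 / 2) * (x + z) ≤ y * (x + z) := mul_le_mul_of_nonneg_right y1 h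
    constructor <;> nlinarith
  · have b1 : y * (x + z) ≤ -(1 / 2) * (x + z) := mul_le_mul_of_nonpos_right y1 h
    have b2 : 1 / 2 * (x + z) ≤ y * (x + z) := mul_le_mul_of_nonpos_right y2 h
    constructor <;> nlinarith

theorem r_cont (hN : 1 ≤ N) (hb : ∀ j, |p j| ≤ 1 / 2) : Continuous (rN N p) := by
  unfold rN
  refine Continuous.div_const ?_ _
  rw [continuous_iff_continuousAt]
  intro t
  refine intervalIntegral.continuousAt_of_dominated_interval (bound := fun _ => 1 / 2 * (1 / 2))
    (Filter.Eventually.of_forall fun s => ?_) (Filter.Eventually.of_forall fun s =>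
      Filter.Eventually.of_forall fun x _ => ?_) ?_ ?_
  · exact ((meas N p).mul ((meas N p).comp (measurable_id.add_const s))).aestronglyMeasurable
  · rw [norm_mul, Real.norm_eq_abs, Real.norm_eq_abs]
    exact mul_le_mul (bd N p hb _) (bd N p hb _) (abs_nonneg _) (by norm_num)
  · exact intervalIntegrable_const
  · filter_upwards [ae_cont N p hN t] with x hx _
    exact hx

theorem r_int (hN : 1 ≤ N) (hp : ∀ j, p (j + N) = -p j) (hb : ∀ j, |p j| ≤ 1 / 2) (s t : ℝ) :
    rN N p s + rN N p t - rN N p (s + t) ≤ 1 / 4 ∧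
      -(1 / 4) ≤ rN N p s + rN N p t + rN N p (s + t) := by
  have hpi := Real.pi_pos
  have e1 := r_eq N p hN hp 0 s
  have e2 := r_eq N p hN hp s (s + t)
  have e3 := r_eq N p hN hp 0 (s + t)
  rw [sub_zero] at e1 e3
  rw [add_sub_cancel_left] at e2
  have i1 := int_ab N p hb 0 s
  have i2 := int_ab N p hb s (s + t)
  have i3 := int_ab N p hb 0 (s + t)
  have a1 : ∀ x : ℝ, _ := fun x => alg (bd N p hb (x + 0)) (bd N p hb (x + s)) (bd N p hb (x + (s + t)))
  constructor
  · have h1 : ∫ x in (0 : ℝ)..(2 * π), (PN N p (x + 0) * PN N p (x + s) +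
        PN N p (x + s) * PN N p (x + (s + t)) - PN N p (x + 0) * PN N p (x + (s + t))) ≤
        ∫ _x in (0 : ℝ)..(2 * π), (1 / 4 : ℝ) :=
      intervalIntegral.integral_mono_on (by linarith) ((i1.add i2).sub i3)
        intervalIntegrable_const fun x _ => (a1 x).1
    rw [intervalIntegral.integral_sub (i1.add i2) i3, intervalIntegral.integral_add i1 i2, e1, e2,
      e3, intervalIntegral.integral_const, smul_eq_mul] at h1
    nlinarith
  · have h1 : ∫ _x in (0 : ℝ)..(2 * π), (-(1 / 4) : ℝ) ≤
        ∫ x in (0 : ℝ)..(2 * π), (PN N p (x + 0) * PN N p (x + s) +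
        PN N p (x + s) * PN N p (x + (s + t)) + PN N p (x + 0) * PN N p (x + (s + t))) :=
      intervalIntegral.integral_mono_on (by linarith) intervalIntegrable_const
        ((i1.add i2).add i3) fun x _ => (a1 x).2
    rw [intervalIntegral.integral_add (i1.add i2) i3, intervalIntegral.integral_add i1 i2, e1, e2,
      e3, intervalIntegral.integral_const, smul_eq_mul] at h1
    nlinarith

theorem r_le (hb : ∀ j, |p j| ≤ 1 / 2) (t : ℝ) : rN N p t ≤ 1 / 4 := by
  have hpi := Real.pi_pos
  unfold rN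
  rw [div_le_iff₀ (by positivity)]
  have h1 : ∫ x in (0 : ℝ)..(2 * π), PN N p x * PN N p (x + t) ≤
      ∫ _x in (0 : ℝ)..(2 * π), (1 / 4 : ℝ) := by
    refine intervalIntegral.integral_mono_on (by linarith) ?_ intervalIntegrable_const fun x _ => ?_
    · have := int_ab N p hb 0 t
      simpa only [add_zero] using this
    · have h2 : |PN N p x * PN N p (x + t)| ≤ 1 / 2 * (1 / 2) := by
        rw [abs_mul]
        exact mul_le_mul (bd N p hb _) (bd N p hb _) (abs_nonneg _) (by norm_num)
      have h3 := (abs_le.1 h2).2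
      linarith
  rw [intervalIntegral.integral_const, smul_eq_mul] at h1
  linarith

theorem r_even (hN : 1 ≤ N) (hp : ∀ j, p (j + N) = -p j) (t : ℝ) : rN N p (-t) = rN N p t := by
  have hpi := Real.pi_pos
  have e1 := r_eq N p hN hp 0 t
  have e2 := r_eq N p hN hp t 0
  rw [sub_zero] at e1
  rw [zero_sub] at e2
  have e3 : ∫ x in (0 : ℝ)..(2 * π), PN N p (x + 0) * PN N p (x + t) =
      ∫ x in (0 : ℝ)..(2 * π), PN N p (x + t) * PN N p (x + 0) :=
    intervalIntegral.integral_congr fun x _ => mul_comm _ _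
  rw [e1, e2] at e3
  exact (mul_left_cancel₀ (by positivity) e3).symm

theorem r_refl (hN : 1 ≤ N) (hp : ∀ j, p (j + N) = -p j) (t : ℝ) :
    rN N p (π - t) = -rN N p t := by
  rw [← r_even N p hN hp t]
  unfold rN
  rw [← neg_div, ← intervalIntegral.integral_neg]
  congr 1
  refine intervalIntegral.integral_congr fun x _ => ?_
  have e : x + (π - t) = x + -t + π := by ring
  simp only [e, anti N p hN hp, mul_neg]

end KD

open KD in
theorem m_KD : Stmt_KD := by
  intro N p hN hp hb
  refine ⟨⟨?_, fun t => ?_, fun s t _ _ _ => ?_, fun s t _ _ _ => ?_, fun t _ _ => ?_⟩, fun t => ?_⟩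
  · unfold DN
    exact continuous_const.sub (continuous_const.mul (r_cont N p hN hb))
  · have := r_le N p hb t
    unfold DN
    linarith
  · have := (r_int N p hN hp hb s t).1
    unfold DN
    linarith
  · have := (r_int N p hN hp hb s t).2
    unfold DN
    linarith
  · have := r_refl N p hN hp t
    unfold DN
    linarith
  · unfold DN
    ring

end Pool.Agent.EHP
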