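import Pool.Agent.EHP.Stmts2

/-!
# Lower bound of `D` by a polynomial kernel (KERN)
-/

open Finset
open scoped Real ComplexConjugate

namespace Pool.Agent.EHP

namespace KernAux

/-- The geometric sum of `cos²` is at most `1 / sin²`. -/
theorem geom_le (M : ℕ) {t : ℝ} (hs : 0 < Real.sin t) :
    ∑ r ∈ range M, Real.cos t ^ (2 * r) ≤ 1 / Real.sin t ^ 2 := by
  have h0 : 0 < Real.sin t ^ 2 := by positivity
  rw [le_div_iff₀ h0]
  have h1 : Real.sin t ^ 2 = 1 - Real.cos t ^ 2 := by
    have := Real.sin_sq_add_cos_sq t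
    linarith
  rw [h1]
  have h2 : ∀ m : ℕ, (∑ r ∈ range m, Real.cos t ^ (2 * r)) * (1 - Real.cos t ^ 2) =
      1 - Real.cos t ^ (2 * m) := by
    intro m
    induction m with
    | zero => simp
    | succ k ih =>
      rw [Finset.sum_range_succ, add_mul, ih]
      ring
  rw [h2 M]
  have h3 : 0 ≤ Real.cos t ^ (2 * M) := by
    rw [pow_mul]
    positivity
  linarith

/-- Lipschitz bound of the kernel. -/
theorem kern_lip (M : ℕ) (a t : ℝ) (hat : a ≤ t) :
    ∑ r ∈ range M, Real.cos a ^ (2 * r) - (M : ℝ) ^ 2 * (t - a) ≤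
      ∑ r ∈ range M, Real.cos t ^ (2 * r) := by
  have h1 : ∀ r : ℕ, Real.cos a ^ (2 * r) - Real.cos t ^ (2 * r) ≤ 2 * r * (t - a) := by
    intro r
    have h2 := abs_pow_sub_pow_le (Real.cos a) (Real.cos t) (2 * r)
    have h3 : max |Real.cos a| |Real.cos t| ^ (2 * r - 1) ≤ 1 := by
      apply pow_le_one₀
      · exact le_max_of_le_left (abs_nonneg _)
      · exact max_le (Real.abs_cos_le_one a) (Real.abs_cos_le_one t)
    have h4 : |Real.cos a - Real.cos t| ≤ t - a := by
      have := Real.abs_cos_sub_cos_le a t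
      rw [abs_sub_comm a t, abs_of_nonneg (sub_nonneg.2 hat)] at this
      exact this
    have h5 := le_abs_self (Real.cos a ^ (2 * r) - Real.cos t ^ (2 * r))
    have h6 : |Real.cos a - Real.cos t| * ((2 * r : ℕ) : ℝ) *
        max |Real.cos a| |Real.cos t| ^ (2 * r - 1) ≤ (t - a) * ((2 * r : ℕ) : ℝ) * 1 := by
      apply mul_le_mul
      · exact mul_le_mul_of_nonneg_right h4 (by positivity)
      · exact h3
      · exact pow_nonneg (le_max_of_le_left (abs_nonneg _)) _
      · exact mul_nonneg (sub_nonneg.2 hat) (by positivity)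
    have h7 : (t - a) * ((2 * r : ℕ) : ℝ) * 1 = 2 * r * (t - a) := by
      push_cast
      ring
    linarith
  have h2 : ∀ m : ℕ, ∑ r ∈ range m, Real.cos a ^ (2 * r) - (m : ℝ) ^ 2 * (t - a) ≤
      ∑ r ∈ range m, Real.cos t ^ (2 * r) := by
    intro m
    induction m with
    | zero => simp
    | succ k ih =>
      rw [Finset.sum_range_succ, Finset.sum_range_succ]
      have h3 := h1 k
      have h4 := sub_nonneg.2 hat
      push_cast
      nlinarith
  exact h2 M

/-- The case `a ≤ X`. -/
theorem kern_right (M : ℕ) (a X : ℝ) (ha : 0 < a) (hap : a < π) (haX : a ≤ X) (hXp : X < π) :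
    (X - a) ^ 2 / 2 * (∑ r ∈ range M, Real.cos a ^ (2 * r) - (M : ℝ) ^ 2 * (X - a)) ≤
      DD a X := by
  set S : ℝ := ∑ r ∈ range M, Real.cos a ^ (2 * r) with hS
  have hsa : 0 < Real.sin a := Real.sin_pos_of_pos_of_lt_pi ha hap
  have hsin : ∀ x ∈ Set.Icc a X, 0 < Real.sin x := fun x hx =>
    Real.sin_pos_of_pos_of_lt_pi (lt_of_lt_of_le ha hx.1) (lt_of_le_of_lt hx.2 hXp)
  have hg : ∀ x ∈ Set.Icc a X, HasDerivAt
      (fun x : ℝ => Real.cos a / Real.sin a - Real.cos x / Real.sin x -
        (S * (x - a) - 3 / 2 * (M : ℝ) ^ 2 * (x - a) ^ 2))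
      (1 / Real.sin x ^ 2 - (S - 3 * (M : ℝ) ^ 2 * (x - a))) x := by
    intro x hx
    have hs := hsin x hx
    have h1 := (Real.hasDerivAt_cos x).div (Real.hasDerivAt_sin x) hs.ne'
    have h2 := (((hasDerivAt_id x).sub_const a).const_mul S).sub
      ((((hasDerivAt_id x).sub_const a).pow 2).const_mul (3 / 2 * (M : ℝ) ^ 2))
    have h3 := (h1.const_sub (Real.cos a / Real.sin a)).sub h2
    have h4 : -Real.sin x * Real.sin x - Real.cos x * Real.cos x = -1 := by
      nlinarith [Real.sin_sq_add_cos_sq x]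
    have h5 : -((-Real.sin x * Real.sin x - Real.cos x * Real.cos x) / Real.sin x ^ 2) -
        (S * 1 - 3 / 2 * (M : ℝ) ^ 2 * (((2 : ℕ) : ℝ) * (id x - a) ^ (2 - 1) * 1)) =
        1 / Real.sin x ^ 2 - (S - 3 * (M : ℝ) ^ 2 * (x - a)) := by
      rw [h4]
      simp only [id]
      push_cast
      ring
    rw [← h5]
    exact h3
  have hgm : MonotoneOn
      (fun x : ℝ => Real.cos a / Real.sin a - Real.cos x / Real.sin x -
        (S * (x - a) - 3 / 2 * (M : ℝ) ^ 2 * (x - a) ^ 2)) (Set.Icc a X) := by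
    refine monotoneOn_of_deriv_nonneg (convex_Icc _ _)
      (fun x hx => (hg x hx).continuousAt.continuousWithinAt) ?_ ?_
    · intro x hx
      have hx' := interior_subset hx
      exact (hg x hx').differentiableAt.differentiableWithinAt
    · intro x hx
      have hx' := interior_subset hx
      rw [(hg x hx').deriv]
      have h1 := geom_le M (hsin x hx')
      have h2 := kern_lip M a x hx'.1
      have h3 : 0 ≤ (M : ℝ) ^ 2 * (x - a) := mul_nonneg (sq_nonneg _) (sub_nonneg.2 hx'.1)
      rw [← hS] at h2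
      nlinarith
  have hf : ∀ x ∈ Set.Icc a X, HasDerivAt
      (fun x : ℝ => DD a x - (x - a) ^ 2 / 2 * (S - (M : ℝ) ^ 2 * (x - a)))
      (Real.cos a / Real.sin a - Real.cos x / Real.sin x -
        (S * (x - a) - 3 / 2 * (M : ℝ) ^ 2 * (x - a) ^ 2)) x := by
    intro x hx
    have hs := hsin x hx
    have h0 : HasDerivAt (fun x : ℝ => Real.sin x / Real.sin a) (Real.cos x / Real.sin a) x :=
      (Real.hasDerivAt_sin x).div_const _
    have h1 := (h0.log (div_pos hs hsa).ne').neg
    have h2 := ((hasDerivAt_id x).sub_const a).mul_const (Real.cos a / Real.sin a)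
    have h3 := (((((hasDerivAt_id x).sub_const a).pow 2)).div_const 2).mul
      ((((hasDerivAt_id x).sub_const a).const_mul ((M : ℝ) ^ 2)).const_sub S)
    have h4 := (h1.add h2).sub h3
    have h5 : -(Real.cos x / Real.sin a / (Real.sin x / Real.sin a)) +
        1 * (Real.cos a / Real.sin a) - (((2 : ℕ) : ℝ) * (id x - a) ^ (2 - 1) * 1 / 2 *
          (S - (M : ℝ) ^ 2 * (id x - a)) + (id x - a) ^ 2 / 2 * -((M : ℝ) ^ 2 * 1)) =
        Real.cos a / Real.sin a - Real.cos x / Real.sin x -
        (S * (x - a) - 3 / 2 * (M : ℝ) ^ 2 * (x - a) ^ 2) := by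
      rw [div_div_div_cancel_right₀ hsa.ne']
      simp only [id]
      push_cast
      ring
    rw [← h5]
    exact h4
  have hfm : MonotoneOn (fun x : ℝ => DD a x - (x - a) ^ 2 / 2 * (S - (M : ℝ) ^ 2 * (x - a)))
      (Set.Icc a X) := by
    refine monotoneOn_of_deriv_nonneg (convex_Icc _ _)
      (fun x hx => (hf x hx).continuousAt.continuousWithinAt) ?_ ?_
    · intro x hx
      exact (hf x (interior_subset hx)).differentiableAt.differentiableWithinAt
    · intro x hx
      have hx' := interior_subset hx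
      rw [(hf x hx').deriv]
      have h1 := hgm (Set.left_mem_Icc.2 haX) hx' hx'.1
      simp only [sub_self, mul_zero, ne_eq, OfNat.ofNat_ne_zero, not_false_eq_true, zero_pow]
        at h1
      exact h1
  have h1 := hfm (Set.left_mem_Icc.2 haX) (Set.right_mem_Icc.2 haX) haX
  have h2 : DD a a = 0 := by
    unfold DD
    rw [div_self hsa.ne']
    simp
  simp only [sub_self, ne_eq, OfNat.ofNat_ne_zero, not_false_eq_true, zero_pow, zero_div,
    zero_mul, h2] at h1
  linarith

/-- Reflection. -/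
theorem DD_refl (a X : ℝ) : DD (π - a) (π - X) = DD a X := by
  unfold DD
  rw [Real.sin_pi_sub, Real.sin_pi_sub, Real.cos_pi_sub]
  ring

end KernAux

open KernAux

theorem m_KERN : Stmt_KERN := by
  intro M a X ha hap hX hXp
  rcases le_total a X with h | h
  · rw [abs_of_nonneg (sub_nonneg.2 h)]
    exact kern_right M a X ha hap h hXp
  · have h1 := kern_right M (π - a) (π - X) (by linarith) (by linarith) (by linarith) (by linarith)
    rw [DD_refl] at h1
    have h2 : ∀ r : ℕ, Real.cos (π - a) ^ (2 * r) = Real.cos a ^ (2 * r) := by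
      intro r
      rw [Real.cos_pi_sub, pow_mul, pow_mul, neg_sq]
    simp only [h2] at h1
    rw [abs_of_nonpos (sub_nonpos.2 h)]
    have h3 : π - X - (π - a) = -(X - a) := by ring
    rw [h3, neg_sq] at h1
    exact h1

end Pool.Agent.EHP
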