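import Pool.Agent.EHP.Stmts5

/-!
# Module EHP_KLINK: from sequences to distance functions (MP_fd5ac7_co)
-/

open Finset
open scoped Real ComplexConjugate Interval

namespace Pool.Agent.EHP

namespace KLINK

open MeasureTheory

/-- the coefficient -/
noncomputable def ckl (N : ℕ) (p : ℤ → ℝ) (k : ℕ) : ℝ :=
  ‖dr (2 * N) p k‖ ^ 2 * (Real.sin (π * k / (2 * N : ℕ)) / (π * k / (2 * N : ℕ))) ^ 2

theorem ckl_nn (N : ℕ) (p : ℤ → ℝ) (k : ℕ) : 0 ≤ ckl N p k := by
  unfold ckl
  positivity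

theorem ckl_odd (N : ℕ) (p : ℤ → ℝ) (i : ℕ) : ckl N p (2 * i + 1) = ‖dr (2 * N) p (2 * i + 1)‖ ^ 2 *
      (Real.sin (π * (2 * i + 1) / (2 * N : ℕ)) / (π * (2 * i + 1) / (2 * N : ℕ))) ^ 2 := by
  unfold ckl
  push_cast
  rfl

theorem int_cos (j : ℤ) (hj : j ≠ 0) : ∫ t in (0 : ℝ)..(π / 2), Real.cos (2 * j * t) = 0 := by
  have hj' : (2 * (j : ℝ)) ≠ 0 := by
    have : (j : ℝ) ≠ 0 := by exact_mod_cast hj
    positivity
  rw [intervalIntegral.integral_comp_mul_left (fun t => Real.cos t) hj', integral_cos]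
  have h1 : 2 * (j : ℝ) * (π / 2) = j * π := by ring
  rw [h1, Real.sin_int_mul_pi]
  simp

theorem int_cc (i : ℕ) : ∫ t in (0 : ℝ)..(π / 2), Real.cos (3 * t) * Real.cos ((2 * i + 1) * t) =
    if i = 1 then π / 4 else 0 := by
  have h1 : ∀ t : ℝ, Real.cos (3 * t) * Real.cos ((2 * i + 1) * t) =
      1 / 2 * Real.cos (2 * ((i + 2 : ℤ) : ℝ) * t) + 1 / 2 * Real.cos (2 * ((i - 1 : ℤ) : ℝ) * t) := by
    intro t
    have e1 : (2 * ((i + 2 : ℤ) : ℝ) * t) = (2 * i + 1) * t + 3 * t := by push_cast; ring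
    have e2 : (2 * ((i - 1 : ℤ) : ℝ) * t) = (2 * i + 1) * t - 3 * t := by push_cast; ring
    rw [e1, e2, Real.cos_add, Real.cos_sub]
    ring
  simp only [h1]
  rw [intervalIntegral.integral_add (by apply Continuous.intervalIntegrable; fun_prop)
    (by apply Continuous.intervalIntegrable; fun_prop), intervalIntegral.integral_const_mul,
    intervalIntegral.integral_const_mul, int_cos (i + 2 : ℤ) (by positivity)]
  split_ifs with h
  · subst h
    simp
    ring
  · rw [int_cos (i - 1 : ℤ) (by omega)]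
    ring

/-- the integral of one term -/
theorem int_term (hW : Stmt_WINT) (i : ℕ) :
    ∫ t in (0 : ℝ)..(π / 2), Wk t * Real.cos ((2 * i + 1) * t) =
      (if i = 0 then 0 else π / (2 * ((2 * i + 1 : ℕ) + 1))) - if i = 1 then 2 * (1 / 500) * (π / 4) else 0 := by
  have h1 : ∀ t, Wk t * Real.cos ((2 * i + 1) * t) = W0 t * Real.cos ((2 * i + 1) * t) -
      2 * (1 / 500) * (Real.cos (3 * t) * Real.cos ((2 * i + 1) * t)) := by
    intro t
    unfold Wk
    ring
  simp only [h1]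
  have hc : ContinuousOn (fun t : ℝ => Real.cos ((2 * i + 1) * t)) (Set.uIcc 0 (π / 2)) := by fun_prop
  rw [intervalIntegral.integral_sub (hW.1.mul_continuousOn hc)
    (by apply Continuous.intervalIntegrable; fun_prop), intervalIntegral.integral_const_mul, int_cc]
  congr 1
  · split_ifs with h
    · subst h
      simpa using hW.2.1
    · have := hW.2.2 (2 * i + 1) (by omega) (by omega)
      push_cast at this ⊢
      exact this
  · split_ifs <;> ring

theorem main (hR : Stmt_KR) (hW : Stmt_WINT) (N : ℕ) (p : ℤ → ℝ) (hN : 1 ≤ N)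
    (hp : ∀ j, p (j + N) = -p j) (hb : ∀ j, |p j| ≤ 1 / 2) :
    HasSum (fun i : ℕ => 4 * ckl N p (2 * i + 1) * ((if i = 0 then 0 else π / (2 * ((2 * i + 1 : ℕ) + 1))) -
      if i = 1 then 2 * (1 / 500) * (π / 4) else 0))
      (∫ t in (0 : ℝ)..(π / 2), Wk t * (1 / 2 - DN N p t)) := by
  obtain ⟨hs, hr⟩ := hR N p hN hp hb
  simp only [← ckl_odd] at hs hr
  have hWk : IntervalIntegrable Wk volume 0 (π / 2) := by
    have : Wk = fun t => W0 t - 2 * (1 / 500) * Real.cos (3 * t) := by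
      funext t
      rfl
    rw [this]
    exact hW.1.sub (by apply Continuous.intervalIntegrable; fun_prop)
  have key : HasSum (fun i : ℕ => ∫ t in (0 : ℝ)..(π / 2), Wk t * (4 * ckl N p (2 * i + 1) * Real.cos ((2 * i + 1) * t)))
      (∫ t in (0 : ℝ)..(π / 2), Wk t * (1 / 2 - DN N p t)) := by
    refine intervalIntegral.hasSum_integral_of_dominated_convergence
      (fun i t => |Wk t| * (4 * ckl N p (2 * i + 1))) ?_ ?_ ?_ ?_ ?_
    · intro i
      refine (intervalIntegrable_iff.1 hWk).aestronglyMeasurable.mul ?_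
      exact Continuous.aestronglyMeasurable (by fun_prop)
    · intro i
      refine Filter.Eventually.of_forall fun t _ => ?_
      rw [Real.norm_eq_abs, abs_mul]
      refine mul_le_mul_of_nonneg_left ?_ (abs_nonneg _)
      rw [abs_mul, abs_of_nonneg (mul_nonneg (by norm_num) (ckl_nn _ _ _) : (0 : ℝ) ≤ 4 * ckl N p (2 * i + 1))]
      exact mul_le_of_le_one_right (mul_nonneg (by norm_num) (ckl_nn _ _ _)) (Real.abs_cos_le_one _)
    · refine Filter.Eventually.of_forall fun t _ => ?_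
      exact (hs.mul_left 4).mul_left _
    · have : (fun t => ∑' i : ℕ, |Wk t| * (4 * ckl N p (2 * i + 1))) =
          fun t => |Wk t| * ∑' i : ℕ, (4 * ckl N p (2 * i + 1)) := by
        funext t
        exact tsum_mul_left
      rw [this]
      exact hWk.abs.mul_const _
    · refine Filter.Eventually.of_forall fun t _ => ?_
      have h1 : Summable fun i : ℕ => ckl N p (2 * i + 1) * Real.cos ((2 * i + 1) * t) := by
        refine Summable.of_norm_bounded hs fun i => ?_
        rw [norm_mul, Real.norm_of_nonneg (ckl_nn _ _ _), Real.norm_eq_abs]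
        exact mul_le_of_le_one_right (ckl_nn _ _ _) (Real.abs_cos_le_one _)
      have h2 : HasSum (fun i : ℕ => Wk t * (4 * ckl N p (2 * i + 1) * Real.cos ((2 * i + 1) * t)))
          (Wk t * (4 * ∑' i : ℕ, ckl N p (2 * i + 1) * Real.cos ((2 * i + 1) * t))) := by
        have := (h1.hasSum.mul_left 4).mul_left (Wk t)
        simpa only [mul_assoc] using this
      have h3 : Wk t * (4 * ∑' i : ℕ, ckl N p (2 * i + 1) * Real.cos ((2 * i + 1) * t)) =
          Wk t * (1 / 2 - DN N p t) := by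
        unfold DN
        rw [hr t]
        ring
      rw [← h3]
      exact h2
  have h2 : ∀ i : ℕ, ∫ t in (0 : ℝ)..(π / 2), Wk t * (4 * ckl N p (2 * i + 1) * Real.cos ((2 * i + 1) * t)) =
      4 * ckl N p (2 * i + 1) * ((if i = 0 then 0 else π / (2 * ((2 * i + 1 : ℕ) + 1))) -
      if i = 1 then 2 * (1 / 500) * (π / 4) else 0) := by
    intro i
    rw [← int_term hW i, ← intervalIntegral.integral_const_mul]
    congr 1
    funext t
    ring
  simp only [h2] at key
  exact key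

end KLINK

open KLINK in
theorem m_KLINK : Stmt_KD → Stmt_KR → Stmt_WINT → Stmt_KLINK := by
  intro _ hR hW N M p hN _ hp hb
  have h1 := main hR hW N p hN hp hb
  set S := ∫ t in (0 : ℝ)..(π / 2), Wk t * (1 / 2 - DN N p t) with hS
  have h2 : HasSum (fun i : ℕ => if i = 1 then 4 * ckl N p 3 * (2 * (1 / 500) * (π / 4)) else 0)
      (4 * ckl N p 3 * (2 * (1 / 500) * (π / 4))) := hasSum_ite_eq 1 _
  have h3 := h1.add h2
  have h4 : (fun i : ℕ => 4 * ckl N p (2 * i + 1) * ((if i = 0 then 0 else π / (2 * ((2 * i + 1 : ℕ) + 1))) -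
      if i = 1 then 2 * (1 / 500) * (π / 4) else 0) +
      if i = 1 then 4 * ckl N p 3 * (2 * (1 / 500) * (π / 4)) else 0) =
      fun i : ℕ => 4 * ckl N p (2 * i + 1) * (if i = 0 then 0 else π / (2 * ((2 * i + 1 : ℕ) + 1))) := by
    funext i
    by_cases h : i = 1
    · subst h
      simp only [if_true]
      ring
    · simp only [if_neg h]
      ring
  have h3' : HasSum (fun i : ℕ => 4 * ckl N p (2 * i + 1) * (if i = 0 then 0 else π / (2 * ((2 * i + 1 : ℕ) + 1))))
      (S + 4 * ckl N p 3 * (2 * (1 / 500) * (π / 4))) := by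
    rw [← h4]
    exact h3
  have hnn : ∀ i : ℕ, 0 ≤ 4 * ckl N p (2 * i + 1) * (if i = 0 then 0 else π / (2 * ((2 * i + 1 : ℕ) + 1))) := by
    intro i
    refine mul_nonneg (mul_nonneg (by norm_num) (ckl_nn _ _ _)) ?_
    split_ifs
    · exact le_rfl
    · positivity
  have h5 := sum_le_hasSum ((odds M).image fun k => k / 2) (fun i _ => hnn i) h3'
  rw [Finset.sum_image] at h5
  · have h6 : ∀ k ∈ odds M, 4 * ckl N p (2 * (k / 2) + 1) *
        (if k / 2 = 0 then 0 else π / (2 * ((2 * (k / 2) + 1 : ℕ) + 1))) =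
        2 * π * (ckl N p k / ((k : ℝ) + 1)) := by
      intro k hk
      unfold odds at hk
      rw [Finset.mem_filter] at hk
      have e1 : 2 * (k / 2) + 1 = k := by omega
      have e2 : k / 2 ≠ 0 := by omega
      rw [e1, if_neg e2]
      have : (k : ℝ) + 1 ≠ 0 := by positivity
      field_simp
      ring
    rw [Finset.sum_congr rfl h6, ← Finset.mul_sum] at h5
    have e3 : (3 : ℤ) = ((3 : ℕ) : ℤ) := rfl
    have h7 : 2 * ∑ k ∈ odds M, ‖dr (2 * N) p k‖ ^ 2 *
        (Real.sin (π * k / (2 * N : ℕ)) / (π * k / (2 * N : ℕ))) ^ 2 / ((k : ℝ) + 1) -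
        2 * (1 / 500) * ‖dr (2 * N) p 3‖ ^ 2 *
        (Real.sin (π * 3 / (2 * N : ℕ)) / (π * 3 / (2 * N : ℕ))) ^ 2 =
        1 / π * (2 * π * ∑ k ∈ odds M, ckl N p k / ((k : ℝ) + 1) - 4 * ckl N p 3 * (2 * (1 / 500) * (π / 4))) := by
      have e4 : ckl N p 3 = ‖dr (2 * N) p 3‖ ^ 2 *
        (Real.sin (π * 3 / (2 * N : ℕ)) / (π * 3 / (2 * N : ℕ))) ^ 2 := by
        unfold ckl
        norm_num
      have e5 : ∑ k ∈ odds M, ‖dr (2 * N) p k‖ ^ 2 *
        (Real.sin (π * k / (2 * N : ℕ)) / (π * k / (2 * N : ℕ))) ^ 2 / ((k : ℝ) + 1) =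
          ∑ k ∈ odds M, ckl N p k / ((k : ℝ) + 1) := rfl
      rw [e5, e4]
      have := Real.pi_ne_zero
      generalize ‖dr (2 * N) p 3‖ ^ 2 = A
      generalize (Real.sin (π * 3 / (2 * N : ℕ)) / (π * 3 / (2 * N : ℕ))) ^ 2 = B
      generalize ∑ k ∈ odds M, ckl N p k / ((k : ℝ) + 1) = Z
      field_simp
    rw [h7]
    refine mul_le_mul_of_nonneg_left ?_ (by positivity)
    linarith
  · intro k hk k' hk' h
    unfold odds at hk hk'
    rw [Finset.mem_coe, Finset.mem_filter] at hk hk'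
    have h' : k / 2 = k' / 2 := h
    omega

end Pool.Agent.EHP
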