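import Pool.Agent.EHP.Stmts5

/-!
# Module EHP_KR: Fourier series of the autocorrelation of the step function
-/

open Finset MeasureTheory
open scoped Real ComplexConjugate Interval

namespace Pool.Agent.EHP

namespace M_KR

variable {N : ℕ} {p : ℤ → ℝ}

theorem meas_PN (N : ℕ) (p : ℤ → ℝ) : Measurable (PN N p) := by
  unfold PN
  have h1 : Measurable (fun x : ℝ => ⌊x * N / π⌋) := by
    exact Int.measurable_floor.comp (by fun_prop)
  exact (measurable_of_countable p).comp h1

theorem PN_pi (ha : ∀ j, p (j + N) = -p j) (x : ℝ) :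
    PN N p (x + π) = - PN N p x := by
  unfold PN
  have hp := Real.pi_ne_zero
  have : (x + π) * N / π = x * N / π + ((N : ℤ) : ℝ) := by
    field_simp
    push_cast
    ring
  rw [this, Int.floor_add_intCast, ha]

theorem PN_per (ha : ∀ j, p (j + N) = -p j) : Function.Periodic (PN N p) (2 * π) := by
  intro x
  have : x + 2 * π = (x + π) + π := by ring
  rw [this, PN_pi ha, PN_pi ha, neg_neg]

theorem PN_bd (hb : ∀ j, |p j| ≤ 1 / 2) (x : ℝ) : |PN N p x| ≤ 1 / 2 := hb _

/-- the exponentials -/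
noncomputable def ek (k : ℤ) (x : ℝ) : ℂ := Complex.exp (((-(k * x) : ℝ) : ℂ) * Complex.I)

theorem norm_ek (k : ℤ) (x : ℝ) : ‖ek k x‖ = 1 := by
  unfold ek
  exact Complex.norm_exp_ofReal_mul_I _

theorem ek_add (k : ℤ) (x y : ℝ) : ek k (x + y) = ek k x * ek k y := by
  unfold ek
  rw [← Complex.exp_add]
  congr 1
  push_cast
  ring

theorem ek_two_pi (k : ℤ) : ek k (2 * π) = 1 := by
  unfold ek
  rw [Complex.exp_eq_one_iff]
  refine ⟨-k, ?_⟩
  push_cast
  ring

theorem ek_pi_even (k : ℤ) : ek (2 * k) π = 1 := by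
  rw [← ek_two_pi k]
  unfold ek
  congr 2
  push_cast
  ring

theorem cont_ek (k : ℤ) : Continuous (ek k) := by
  unfold ek
  fun_prop

/-- the Fourier coefficients -/
noncomputable def ac (N : ℕ) (p : ℤ → ℝ) (k : ℤ) : ℂ :=
  (1 / (2 * π) : ℝ) • ∫ x in (0 : ℝ)..(2 * π), ek k x * (PN N p x : ℂ)

theorem intble (hb : ∀ j, |p j| ≤ 1 / 2) (k : ℤ) (t a b : ℝ) :
    IntervalIntegrable (fun x => ek k x * (PN N p (x + t) : ℂ)) volume a b := by
  rw [intervalIntegrable_iff]
  refine Measure.integrableOn_of_bounded (M := 1 / 2) (by simp) ?_ ?_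
  · have h1 : Measurable (fun x : ℝ => PN N p (x + t)) :=
      (meas_PN N p).comp (measurable_id.add_const t)
    exact ((cont_ek k).measurable.mul (Complex.measurable_ofReal.comp h1)).aestronglyMeasurable
  · refine Filter.Eventually.of_forall (fun x => ?_)
    rw [norm_mul, norm_ek, one_mul, Complex.norm_real]
    exact PN_bd hb _

/-- the coefficients of a translate -/
theorem int_trans (ha : ∀ j, p (j + N) = -p j) (k : ℤ) (t : ℝ) :
    ∫ x in (0 : ℝ)..(2 * π), ek k x * (PN N p (x + t) : ℂ) =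
      ek k (-t) * ∫ x in (0 : ℝ)..(2 * π), ek k x * (PN N p x : ℂ) := by
  have h1 : ∀ x : ℝ, ek k x * (PN N p (x + t) : ℂ) =
      (fun y => ek k (-t) * (ek k y * (PN N p y : ℂ))) (x + t) := by
    intro x
    show _ = ek k (-t) * (ek k (x + t) * (PN N p (x + t) : ℂ))
    have : ek k x = ek k (-t) * ek k (x + t) := by
      rw [← ek_add]
      congr 1
      ring
    rw [this]
    ring
  simp_rw [h1]
  rw [intervalIntegral.integral_comp_add_right (fun y => ek k (-t) * (ek k y * (PN N p y : ℂ))) t]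
  rw [intervalIntegral.integral_const_mul]
  congr 1
  have hper : Function.Periodic (fun y => ek k y * (PN N p y : ℂ)) (2 * π) := by
    intro y
    show ek k (y + 2 * π) * (PN N p (y + 2 * π) : ℂ) = _
    rw [PN_per ha, ek_add, ek_two_pi, mul_one]
  have := hper.intervalIntegral_add_eq t 0
  rw [zero_add] at this
  rw [← this, zero_add, add_comm (2 * π) t]

theorem ac_even (ha : ∀ j, p (j + N) = -p j) (k : ℤ) : ac N p (2 * k) = 0 := by
  have h := int_trans ha (2 * k) (-π)
  rw [neg_neg, ek_pi_even, one_mul] at h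
  have h2 : ∀ x : ℝ, ek (2 * k) x * (PN N p (x + -π) : ℂ) = -(ek (2 * k) x * (PN N p x : ℂ)) := by
    intro x
    have := PN_pi ha (x + -π)
    rw [neg_add_cancel_right] at this
    rw [this]
    push_cast
    ring
  simp_rw [h2] at h
  rw [intervalIntegral.integral_neg] at h
  have h3 : ∫ x in (0 : ℝ)..(2 * π), ek (2 * k) x * (PN N p x : ℂ) = 0 := by
    have : (2 : ℂ) * ∫ x in (0 : ℝ)..(2 * π), ek (2 * k) x * (PN N p x : ℂ) = 0 := by
      linear_combination -h
    simpa using this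
  unfold ac
  rw [h3, smul_zero]

theorem ac_neg (k : ℤ) : ac N p (-k) = conj (ac N p k) := by
  unfold ac
  rw [Complex.real_smul, Complex.real_smul, map_mul, Complex.conj_ofReal]
  congr 1
  rw [intervalIntegral.integral_of_le (by positivity), intervalIntegral.integral_of_le (by positivity),
    ← integral_conj]
  refine integral_congr_ae (Filter.Eventually.of_forall (fun x => ?_))
  show ek (-k) x * (PN N p x : ℂ) = conj (ek k x * (PN N p x : ℂ))
  rw [map_mul, Complex.conj_ofReal]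
  congr 1
  unfold ek
  rw [← Complex.exp_conj, map_mul, Complex.conj_ofReal, Complex.conj_I]
  congr 1
  push_cast
  ring

theorem piece (hN : 1 ≤ N) (k : ℤ) (hk : k ≠ 0) (j : ℕ) :
    ∫ x in (j * (π / N) : ℝ)..((j + 1 : ℕ) * (π / N) : ℝ), ek k x * (PN N p x : ℂ) =
      (ek k (π / N) - 1) / (-(k * Complex.I)) * ((p j : ℂ) * ek k (j * (π / N))) := by
  have hp := Real.pi_pos
  have hN' : (0 : ℝ) < N := by exact_mod_cast hN
  have hle : (j * (π / N) : ℝ) ≤ ((j + 1 : ℕ) * (π / N) : ℝ) := by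
    apply mul_le_mul_of_nonneg_right _ (by positivity)
    push_cast
    linarith
  have h1 : ∫ x in (j * (π / N) : ℝ)..((j + 1 : ℕ) * (π / N) : ℝ), ek k x * (PN N p x : ℂ) =
      ∫ x in (j * (π / N) : ℝ)..((j + 1 : ℕ) * (π / N) : ℝ),
        Complex.exp ((-(k * Complex.I)) * x) * (p j : ℂ) := by
    refine intervalIntegral.integral_congr_Ioo_of_le hle (fun x hx => ?_)
    have h2 : ⌊x * N / π⌋ = (j : ℤ) := by
      rw [Int.floor_eq_iff]
      obtain ⟨hx1, hx2⟩ := hx
      constructor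
      · rw [le_div_iff₀ hp]
        have := mul_lt_mul_of_pos_right hx1 hN'
        have h3 : (j * (π / N) : ℝ) * N = j * π := by
          field_simp
        push_cast
        linarith
      · rw [div_lt_iff₀ hp]
        have := mul_lt_mul_of_pos_right hx2 hN'
        have h3 : ((j + 1 : ℕ) * (π / N) : ℝ) * N = (j + 1) * π := by
          push_cast
          field_simp
        push_cast
        linarith
    show ek k x * (PN N p x : ℂ) = _
    unfold PN
    rw [h2]
    congr 1
    unfold ek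
    congr 1
    push_cast
    ring
  have hc : (-(k * Complex.I) : ℂ) ≠ 0 := by
    simp [hk]
  rw [h1, intervalIntegral.integral_mul_const, integral_exp_mul_complex hc]
  have h4 : ∀ y : ℝ, Complex.exp (-(k * Complex.I) * (y : ℂ)) = ek k y := by
    intro y
    unfold ek
    congr 1
    push_cast
    ring
  rw [h4, h4]
  have h5 : ((j + 1 : ℕ) * (π / N) : ℝ) = j * (π / N) + π / N := by
    push_cast
    ring
  rw [h5, ek_add]
  field_simp

theorem ac_eq (hN : 1 ≤ N) (hb : ∀ j, |p j| ≤ 1 / 2) (k : ℤ) (hk : k ≠ 0) :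
    ac N p k = ((N / π : ℝ) : ℂ) * ((ek k (π / N) - 1) / (-(k * Complex.I))) * dr (2 * N) p k := by
  have hp := Real.pi_pos
  have hN' : (0 : ℝ) < N := by exact_mod_cast hN
  have h1 := intervalIntegral.sum_integral_adjacent_intervals (μ := volume)
    (f := fun x => ek k x * (PN N p x : ℂ))
    (a := fun j : ℕ => (j * (π / N) : ℝ)) (n := 2 * N) (fun j _ => by
      have := intble (N := N) hb k 0 (j * (π / N)) ((j + 1 : ℕ) * (π / N))
      simpa using this)
  have h2 : (((2 * N : ℕ) : ℝ) * (π / N) : ℝ) = 2 * π := by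
    push_cast
    field_simp
  have h3 : (((0 : ℕ) : ℝ) * (π / N) : ℝ) = 0 := by simp
  simp only [h2, h3] at h1
  unfold ac
  rw [← h1]
  simp_rw [piece hN k hk]
  rw [← Finset.mul_sum, Complex.real_smul]
  have h4 : dr (2 * N) p k = (∑ j ∈ range (2 * N), (p j : ℂ) * ek k (j * (π / N))) / (2 * N) := by
    unfold dr dft
    push_cast
    congr 1
    refine Finset.sum_congr rfl (fun j _ => ?_)
    congr 1
    unfold ek
    congr 1
    push_cast
    have : (N : ℂ) ≠ 0 := by exact_mod_cast hN'.ne'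
    field_simp
  rw [h4]
  have : (N : ℂ) ≠ 0 := by exact_mod_cast hN'.ne'
  have : (π : ℂ) ≠ 0 := by exact_mod_cast hp.ne'
  push_cast
  field_simp

theorem norm_ac (hN : 1 ≤ N) (hb : ∀ j, |p j| ≤ 1 / 2) (k : ℤ) (hk : k ≠ 0) :
    ‖ac N p k‖ ^ 2 = ‖dr (2 * N) p k‖ ^ 2 *
      (Real.sin (π * k / (2 * N : ℕ)) / (π * k / (2 * N : ℕ))) ^ 2 := by
  have hp := Real.pi_pos
  have hN' : (0 : ℝ) < N := by exact_mod_cast hN
  have hk' : (k : ℝ) ≠ 0 := by exact_mod_cast hk
  rw [ac_eq hN hb k hk, norm_mul, norm_mul, norm_div, norm_neg, norm_mul, Complex.norm_I, mul_one,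
    Complex.norm_real, Complex.norm_intCast]
  have h1 : ek k (π / N) = Complex.exp (Complex.I * ((-(k * (π / N)) : ℝ) : ℂ)) := by
    unfold ek
    rw [mul_comm]
  rw [h1, Complex.norm_exp_I_mul_ofReal_sub_one]
  rw [mul_pow, mul_pow, div_pow, Real.norm_eq_abs, Real.norm_eq_abs, sq_abs, sq_abs, sq_abs]
  have h2 : (-(k * (π / N)) / 2 : ℝ) = -(π * k / (2 * N : ℕ)) := by
    push_cast
    field_simp
  rw [h2, Real.sin_neg]
  push_cast
  field_simp

/-- Parseval for a combination of `P` and its translate -/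
theorem parseval (ha : ∀ j, p (j + N) = -p j) (hb : ∀ j, |p j| ≤ 1 / 2) (t σ : ℝ) :
    HasSum (fun k : ℤ => ‖(1 + σ * ek k (-t)) * ac N p k‖ ^ 2)
      ((2 * π)⁻¹ * ∫ x in (0 : ℝ)..(2 * π), (PN N p x + σ * PN N p (x + t)) ^ 2) := by
  have hp := Real.pi_pos
  have hab : (0 : ℝ) < 2 * π := by positivity
  have hm : Measurable (fun x : ℝ => PN N p x + σ * PN N p (x + t)) :=
    (meas_PN N p).add (((meas_PN N p).comp (measurable_id.add_const t)).const_mul σ)
  have hL2 : MemLp (fun x : ℝ => ((PN N p x + σ * PN N p (x + t) : ℝ) : ℂ)) 2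
      (volume.restrict (Set.Ioc 0 (2 * π))) := by
    refine MemLp.of_bound (Complex.measurable_ofReal.comp hm).aestronglyMeasurable
      (1 / 2 + |σ| * (1 / 2)) (Filter.Eventually.of_forall (fun x => ?_))
    rw [Complex.norm_real, Real.norm_eq_abs]
    refine (abs_add_le _ _).trans ?_
    rw [abs_mul]
    gcongr
    · exact PN_bd hb _
    · exact PN_bd hb _
  have h := hasSum_sq_fourierCoeffOn hab hL2
  have h1 : ∀ k : ℤ, fourierCoeffOn hab (fun x : ℝ => ((PN N p x + σ * PN N p (x + t) : ℝ) : ℂ)) k =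
      (1 + σ * ek k (-t)) * ac N p k := by
    intro k
    rw [fourierCoeffOn_eq_integral]
    have h2 : ∀ x : ℝ, (fourier (-k) (x : AddCircle (2 * π - 0)) : ℂ) = ek k x := by
      intro x
      rw [fourier_coe_apply]
      unfold ek
      congr 1
      have : (π : ℂ) ≠ 0 := by exact_mod_cast hp.ne'
      push_cast
      rw [sub_zero]
      field_simp
    have h3 : ∀ x : ℝ, (fourier (-k) (x : AddCircle (2 * π - 0)) : ℂ) •
        ((PN N p x + σ * PN N p (x + t) : ℝ) : ℂ) =
        ek k x * (PN N p x : ℂ) + σ * (ek k x * (PN N p (x + t) : ℂ)) := by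
      intro x
      rw [h2, smul_eq_mul]
      push_cast
      ring
    simp_rw [h3]
    rw [intervalIntegral.integral_add, intervalIntegral.integral_const_mul, int_trans ha]
    · unfold ac
      rw [sub_zero, Complex.real_smul, Complex.real_smul]
      ring
    · have := intble (N := N) hb k 0 0 (2 * π)
      simpa using this
    · exact (intble (N := N) hb k t 0 (2 * π)).const_mul _
  simp_rw [h1] at h
  convert h using 1
  rw [sub_zero, smul_eq_mul]
  congr 1
  refine intervalIntegral.integral_congr (fun x _ => ?_)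
  show (PN N p x + σ * PN N p (x + t)) ^ 2 = ‖((PN N p x + σ * PN N p (x + t) : ℝ) : ℂ)‖ ^ 2
  rw [Complex.norm_real, Real.norm_eq_abs, sq_abs]

theorem norm_comb (k : ℤ) (t : ℝ) (a : ℂ) :
    ‖(1 + (1 : ℝ) * ek k (-t)) * a‖ ^ 2 - ‖(1 + ((-1 : ℝ) : ℂ) * ek k (-t)) * a‖ ^ 2 =
      4 * (‖a‖ ^ 2 * Real.cos (k * t)) := by
  have h1 : ek k (-t) = Complex.exp (((k * t : ℝ) : ℂ) * Complex.I) := by
    unfold ek
    congr 2
    push_cast
    ring
  rw [h1, norm_mul, norm_mul, mul_pow, mul_pow, ← sub_mul]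
  have h2 : ‖1 + ((1 : ℝ) : ℂ) * Complex.exp (((k * t : ℝ) : ℂ) * Complex.I)‖ ^ 2 -
      ‖1 + ((-1 : ℝ) : ℂ) * Complex.exp (((k * t : ℝ) : ℂ) * Complex.I)‖ ^ 2 =
      4 * Real.cos (k * t) := by
    rw [← Complex.normSq_eq_norm_sq, ← Complex.normSq_eq_norm_sq, Complex.normSq_apply,
      Complex.normSq_apply]
    simp only [Complex.add_re, Complex.add_im, Complex.one_re, Complex.one_im, Complex.re_ofReal_mul,
      Complex.im_ofReal_mul, Complex.exp_ofReal_mul_I_re, Complex.exp_ofReal_mul_I_im]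
    ring
  rw [h2]
  ring

/-- the full series -/
theorem full (ha : ∀ j, p (j + N) = -p j) (hb : ∀ j, |p j| ≤ 1 / 2) (t : ℝ) :
    HasSum (fun k : ℤ => ‖ac N p k‖ ^ 2 * Real.cos (k * t)) (rN N p t) := by
  have hp := Real.pi_pos
  have h1 := (parseval ha hb t 1).sub (parseval ha hb t (-1))
  simp_rw [norm_comb] at h1
  have h2 : (2 * π)⁻¹ * (∫ x in (0 : ℝ)..(2 * π), (PN N p x + 1 * PN N p (x + t)) ^ 2) -
      (2 * π)⁻¹ * (∫ x in (0 : ℝ)..(2 * π), (PN N p x + -1 * PN N p (x + t)) ^ 2) =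
      4 * rN N p t := by
    rw [← mul_sub, ← intervalIntegral.integral_sub]
    · have h3 : ∀ x : ℝ, (PN N p x + 1 * PN N p (x + t)) ^ 2 -
          (PN N p x + -1 * PN N p (x + t)) ^ 2 = 4 * (PN N p x * PN N p (x + t)) := by
        intro x
        ring
      simp_rw [h3]
      rw [intervalIntegral.integral_const_mul]
      unfold rN
      field_simp
    all_goals
      rw [intervalIntegrable_iff]
      refine Measure.integrableOn_of_bounded (M := 1)
        (by rw [Set.uIoc_of_le (by positivity)]; exact measure_Ioc_lt_top.ne) ?_ ?_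
      · have h1 : Measurable (fun x : ℝ => PN N p (x + t)) :=
          (meas_PN N p).comp (measurable_id.add_const t)
        exact (((meas_PN N p).add (h1.const_mul _)).pow_const 2).aestronglyMeasurable
      · refine Filter.Eventually.of_forall (fun x => ?_)
        rw [Real.norm_eq_abs, abs_pow]
        have h5 := PN_bd (N := N) hb x
        have h6 := PN_bd (N := N) hb (x + t)
        rw [abs_le] at h5 h6
        refine pow_le_one₀ (abs_nonneg _) ?_
        rw [abs_le]
        constructor <;> linarith [h5.1, h5.2, h6.1, h6.2]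
  rw [h2] at h1
  have h3 := h1.mul_left (1 / 4)
  have h4 : (fun k : ℤ => ‖ac N p k‖ ^ 2 * Real.cos (k * t)) =
      fun k : ℤ => 1 / 4 * (4 * (‖ac N p k‖ ^ 2 * Real.cos (k * t))) := by
    funext k
    ring
  have h5 : rN N p t = 1 / 4 * (4 * rN N p t) := by ring
  rw [h4, h5]
  exact h3

/-- the odd part of the series -/
theorem odd_sum (ha : ∀ j, p (j + N) = -p j) (hb : ∀ j, |p j| ≤ 1 / 2) (t : ℝ) :
    HasSum (fun i : ℕ => 2 * (‖ac N p (2 * i + 1)‖ ^ 2 * Real.cos ((2 * i + 1) * t)))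
      (rN N p t) := by
  have h1 := (full ha hb t).nat_add_neg
  have h0 : ac N p ((0 : ℤ)) = 0 := by
    have := ac_even ha (0 : ℤ)
    simpa using this
  rw [h0] at h1
  simp only [norm_zero, ne_eq, OfNat.ofNat_ne_zero, not_false_eq_true, zero_pow, zero_mul,
    add_zero] at h1
  have h2 : ∀ n : ℕ, ‖ac N p (n : ℤ)‖ ^ 2 * Real.cos (((n : ℤ) : ℝ) * t) +
      ‖ac N p (-(n : ℤ))‖ ^ 2 * Real.cos (((-(n : ℤ) : ℤ) : ℝ) * t) =
      2 * (‖ac N p (n : ℤ)‖ ^ 2 * Real.cos (n * t)) := by
    intro n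
    rw [ac_neg, RCLike.norm_conj]
    push_cast
    rw [neg_mul, Real.cos_neg]
    ring
  simp_rw [h2] at h1
  have hinj : Function.Injective (fun i : ℕ => 2 * i + 1) := by
    intro a b h
    simp only at h
    omega
  have h3 := (hinj.hasSum_iff (f := fun n : ℕ => 2 * (‖ac N p (n : ℤ)‖ ^ 2 * Real.cos (n * t)))
    (a := rN N p t) (by
      intro n hn
      have : Even n := by
        rw [← Nat.not_odd_iff_even]
        rintro ⟨m, hm⟩
        exact hn ⟨m, hm.symm⟩
      obtain ⟨m, hm⟩ := this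
      have h4 : ((n : ℕ) : ℤ) = 2 * (m : ℤ) := by omega
      show 2 * (‖ac N p (n : ℤ)‖ ^ 2 * Real.cos (n * t)) = 0
      rw [h4, ac_even ha]
      simp)).mpr h1
  convert h3 using 1
  funext i
  simp only [Function.comp]
  push_cast
  rfl

end M_KR

open M_KR in
/-- Module KR. -/
theorem m_KR : Stmt_KR := by
  intro N p hN ha hb
  have hc : ∀ i : ℕ, ‖ac N p (2 * i + 1)‖ ^ 2 = ‖dr (2 * N) p (2 * i + 1)‖ ^ 2 *
      (Real.sin (π * (2 * i + 1) / (2 * N : ℕ)) / (π * (2 * i + 1) / (2 * N : ℕ))) ^ 2 := by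
    intro i
    have := norm_ac hN hb (2 * i + 1) (by omega)
    rw [this]
    push_cast
    rfl
  constructor
  · have h0 := (odd_sum ha hb 0).summable
    simp_rw [mul_zero, Real.cos_zero, mul_one] at h0
    have h1 := h0.mul_left (1 / 2)
    refine h1.congr (fun i => ?_)
    rw [← hc]
    ring
  · intro t
    have h1 := (odd_sum ha hb t).tsum_eq
    rw [← h1, tsum_mul_left]
    congr 1
    refine tsum_congr (fun i => ?_)
    rw [hc]

end Pool.Agent.EHP
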