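import Pool.Agent.EHP.Stmts6

/-!
# `KSF`: facts on the function `ks`
-/

open Finset
open scoped Real ComplexConjugate

namespace Pool.Agent.EHP

namespace KSF

/-- the coefficients `1/((2l+1)(6l+4))` -/
noncomputable def c (l : ℕ) : ℝ := 1 / ((2 * (l : ℝ) + 1) * (6 * l + 4))

lemma c_pos (l : ℕ) : 0 < c l := by unfold c; positivity

lemma c_anti (l : ℕ) : c (l + 1) ≤ c l := by
  unfold c
  refine one_div_le_one_div_of_le (by positivity) ?_
  push_cast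
  have : (0 : ℝ) ≤ l := Nat.cast_nonneg l
  nlinarith

lemma c_le (l : ℕ) (hl : 1 ≤ l) : c l ≤ 1 / 12 * (1 / (l : ℝ) - 1 / ((l : ℝ) + 1)) := by
  have h : (1 : ℝ) ≤ l := by exact_mod_cast hl
  have h1 : 1 / 12 * (1 / (l : ℝ) - 1 / ((l : ℝ) + 1)) = 1 / (12 * l * (l + 1)) := by
    field_simp
    ring
  rw [h1]
  unfold c
  refine one_div_le_one_div_of_le (by positivity) ?_
  nlinarith

lemma sum_tail_le (m : ℕ) (hm : 1 ≤ m) (n : ℕ) :
    ∑ i ∈ range n, c (i + m) ≤ 1 / 12 * (1 / (m : ℝ) - 1 / ((m : ℝ) + n)) := by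
  induction n with
  | zero => simp
  | succ n ih =>
    rw [sum_range_succ]
    have h := c_le (n + m) (by omega)
    push_cast at h ⊢
    have e1 : (n : ℝ) + m = m + n := by ring
    rw [e1] at h
    have e2 : (m : ℝ) + (n + 1) = m + n + 1 := by ring
    rw [e2]
    linarith

lemma sum_tail_le' (m : ℕ) (hm : 1 ≤ m) (n : ℕ) :
    ∑ i ∈ range n, c (i + m) ≤ 1 / (12 * (m : ℝ)) := by
  refine (sum_tail_le m hm n).trans ?_
  have h : (1 : ℝ) ≤ m := by exact_mod_cast hm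
  have h2 : 0 ≤ 1 / ((m : ℝ) + n) := by positivity
  have h3 : 1 / (12 * (m : ℝ)) = 1 / 12 * (1 / (m : ℝ)) := by
    field_simp
  rw [h3]
  linarith

lemma summable_c_add (m : ℕ) (hm : 1 ≤ m) : Summable fun i => c (i + m) :=
  summable_of_sum_range_le (fun _ => (c_pos _).le) (sum_tail_le' m hm)

lemma summable_c : Summable c := (summable_nat_add_iff 1).1 (summable_c_add 1 le_rfl)

lemma tsum_tail_le (m : ℕ) (hm : 1 ≤ m) : ∑' i, c (i + m) ≤ 1 / (12 * (m : ℝ)) :=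
  Real.tsum_le_of_sum_range_le (fun _ => (c_pos _).le) (sum_tail_le' m hm)

lemma tsum_le : ∑' i, c i ≤ 1 / 3 := by
  rw [summable_c.tsum_eq_zero_add]
  have h := tsum_tail_le 1 le_rfl
  have h0 : c 0 = 1 / 4 := by unfold c; norm_num
  rw [h0]
  norm_num at h ⊢
  linarith

/-- the terms of the series -/
noncomputable def t (x : ℝ) (l : ℕ) : ℝ := Real.sin ((6 * l + 3) * x) / ((2 * l + 1) * (6 * l + 4))

lemma t_eq (x : ℝ) (l : ℕ) : t x l = c l * Real.sin ((6 * l + 3) * x) := by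
  unfold t c
  rw [div_eq_mul_one_div, mul_comm]

lemma norm_t_le (x : ℝ) (l : ℕ) : ‖t x l‖ ≤ c l := by
  rw [t_eq, norm_mul, Real.norm_of_nonneg (c_pos l).le]
  calc c l * ‖Real.sin ((6 * l + 3) * x)‖ ≤ c l * 1 :=
        mul_le_mul_of_nonneg_left (Real.abs_sin_le_one _) (c_pos l).le
    _ = c l := mul_one _

lemma summable_t (x : ℝ) : Summable (t x) :=
  Summable.of_norm_bounded summable_c (norm_t_le x)

lemma ks_eq (x : ℝ) : ks x = 2 / π * ∑' l, t x l := rfl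

lemma two_div_pi_le : 2 / π ≤ 2 / 3 :=
  div_le_div_of_nonneg_left (by norm_num) (by norm_num) Real.pi_gt_three.le

lemma ks_le (x : ℝ) : |ks x| ≤ 1 / 4 := by
  have h1 : |∑' l, t x l| ≤ 1 / 3 :=
    (tsum_of_norm_bounded summable_c.hasSum (norm_t_le x)).trans tsum_le
  rw [ks_eq, abs_mul, abs_of_nonneg (by positivity : (0 : ℝ) ≤ 2 / π)]
  calc 2 / π * |∑' l, t x l| ≤ 2 / 3 * (1 / 3) :=
        mul_le_mul two_div_pi_le h1 (abs_nonneg _) (by norm_num)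
    _ ≤ 1 / 4 := by norm_num

/-! ### The lower bound -/

lemma sin_mul (y : ℝ) (l : ℕ) : Real.sin y * Real.sin ((2 * l + 1) * y) =
    Real.sin (((l : ℝ) + 1) * y) ^ 2 - Real.sin ((l : ℝ) * y) ^ 2 := by
  have e1 : ((l : ℝ) + 1) * y = l * y + y := by ring
  have e2 : (2 * (l : ℝ) + 1) * y = l * y + (l * y + y) := by ring
  rw [e1, e2, Real.sin_add (l * y) (l * y + y), Real.sin_add (l * y) y, Real.cos_add (l * y) y]
  have h1 := Real.sin_sq_add_cos_sq (l * y)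
  have h2 := Real.sin_sq_add_cos_sq y
  have hc : Real.cos (l * y) ^ 2 = 1 - Real.sin (l * y) ^ 2 := by linarith
  have hcy : Real.cos y ^ 2 = 1 - Real.sin y ^ 2 := by linarith
  ring_nf
  rw [hc, hcy]
  ring

lemma partial_ge (y : ℝ) (n : ℕ) (hn : 1 ≤ n) :
    (c 0 - c 1) * Real.sin y ^ 2 + c n * Real.sin (((n : ℝ) + 1) * y) ^ 2 ≤
      ∑ l ∈ range (n + 1), c l * (Real.sin y * Real.sin ((2 * l + 1) * y)) := by
  induction n, hn using Nat.le_induction with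
  | base =>
    rw [sum_range_succ, sum_range_one, sin_mul, sin_mul]
    simp only [Nat.cast_zero, Nat.cast_one, zero_add, one_mul, zero_mul, Real.sin_zero]
    apply le_of_eq
    ring
  | succ n hn ih =>
    rw [sum_range_succ, sin_mul y (n + 1)]
    have h1 := c_anti n
    have h2 : 0 ≤ Real.sin (((n : ℝ) + 1) * y) ^ 2 := sq_nonneg _
    push_cast
    nlinarith [mul_le_mul_of_nonneg_right h1 h2]

lemma c01 : c 0 - c 1 = 13 / 60 := by
  unfold c; norm_num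

lemma sin_mul_tsum_ge (x : ℝ) :
    13 / 60 * Real.sin (3 * x) ^ 2 ≤ Real.sin (3 * x) * ∑' l, t x l := by
  have hs : HasSum (fun l => Real.sin (3 * x) * t x l) (Real.sin (3 * x) * ∑' l, t x l) :=
    (summable_t x).hasSum.mul_left _
  have h1 := (hs.tendsto_sum_nat).comp (Filter.tendsto_add_atTop_nat 1)
  refine ge_of_tendsto h1 ?_
  filter_upwards [Filter.eventually_ge_atTop 1] with n hn
  have h2 := partial_ge (3 * x) n hn
  rw [c01] at h2
  have h3 : 0 ≤ c n * Real.sin (((n : ℝ) + 1) * (3 * x)) ^ 2 :=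
    mul_nonneg (c_pos n).le (sq_nonneg _)
  simp only [Function.comp]
  refine (by linarith : 13 / 60 * Real.sin (3 * x) ^ 2 ≤ _).trans (h2.trans (le_of_eq ?_))
  refine sum_congr rfl fun l _ => ?_
  rw [t_eq]
  have : (2 * (l : ℝ) + 1) * (3 * x) = (6 * l + 3) * x := by ring
  rw [this]
  ring

lemma le_ks (x : ℝ) : 1 / 10 * |Real.sin (3 * x)| ≤ |ks x| := by
  by_cases h0 : Real.sin (3 * x) = 0
  · rw [h0]; simp
  have h1 := sin_mul_tsum_ge x
  have h2 : 0 < |Real.sin (3 * x)| := abs_pos.2 h0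
  have h3 : 13 / 60 * |Real.sin (3 * x)| ≤ |∑' l, t x l| := by
    have h4 : 13 / 60 * |Real.sin (3 * x)| ^ 2 ≤ |Real.sin (3 * x)| * |∑' l, t x l| := by
      rw [sq_abs, ← abs_mul]
      exact h1.trans (le_abs_self _)
    by_contra h5
    push Not at h5
    nlinarith
  rw [ks_eq, abs_mul, abs_of_nonneg (by positivity : (0 : ℝ) ≤ 2 / π)]
  have h6 : (1 : ℝ) / 10 * (60 / 13) ≤ 2 / π := by
    rw [le_div_iff₀ Real.pi_pos]
    have := Real.pi_lt_four
    linarith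
  calc 1 / 10 * |Real.sin (3 * x)| = 1 / 10 * (60 / 13) * (13 / 60 * |Real.sin (3 * x)|) := by ring
    _ ≤ 2 / π * |∑' l, t x l| := mul_le_mul h6 h3 (by positivity) (by positivity)

/-! ### The sum over `k` -/

lemma sum_Icc_succ (f : ℤ → ℂ) (M : ℕ) :
    ∑ k ∈ Finset.Icc (-((M + 1 : ℕ) : ℤ)) ((M + 1 : ℕ) : ℤ), f k =
      ∑ k ∈ Finset.Icc (-(M : ℤ)) M, f k + (f ((M + 1 : ℕ) : ℤ) + f (-((M + 1 : ℕ) : ℤ))) := by
  have h : Finset.Icc (-((M + 1 : ℕ) : ℤ)) ((M + 1 : ℕ) : ℤ) =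
      insert ((M + 1 : ℕ) : ℤ) (insert (-((M + 1 : ℕ) : ℤ)) (Finset.Icc (-(M : ℤ)) M)) := by
    ext k
    simp only [Finset.mem_Icc, Finset.mem_insert]
    push_cast
    omega
  rw [h, sum_insert, sum_insert]
  · ring
  · simp only [Finset.mem_Icc]; push_cast; omega
  · simp only [Finset.mem_insert, Finset.mem_Icc]; push_cast; omega

/-- the term for `k` -/
noncomputable def F (x x₀ : ℝ) (k : ℤ) : ℂ :=
  Complex.exp (-(k * x₀ : ℝ) * Complex.I) * pst k / ((|(k : ℝ)| + 1 : ℝ) : ℂ) *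
    Complex.exp ((k * x : ℝ) * Complex.I)

lemma F_zero (x x₀ : ℝ) (k : ℤ) (hk : k % 6 ≠ 3) : F x x₀ k = 0 := by
  unfold F pst
  rw [if_neg hk]
  simp

lemma F_pair (x x₀ : ℝ) (l : ℕ) :
    F x x₀ ((6 * l + 3 : ℕ) : ℤ) + F x x₀ (-((6 * l + 3 : ℕ) : ℤ)) =
      ((2 / π * t (x - x₀) l : ℝ) : ℂ) := by
  have hp : (π : ℂ) ≠ 0 := by exact_mod_cast Real.pi_ne_zero
  have h1 : ∀ s : ℝ, Complex.exp (-(s * x₀ : ℝ) * Complex.I) * Complex.exp ((s * x : ℝ) * Complex.I)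
      = Complex.cos ((s * (x - x₀) : ℝ) : ℂ) + Complex.sin ((s * (x - x₀) : ℝ) : ℂ) * Complex.I := by
    intro s
    rw [← Complex.exp_add, ← Complex.exp_mul_I]
    congr 1
    push_cast
    ring
  have hk : ((l : ℂ) * 6 + 3) ≠ 0 := by
    have : ((6 * l + 3 : ℕ) : ℂ) ≠ 0 := by
      rw [Nat.cast_ne_zero]; omega
    intro h
    apply this
    push_cast
    rw [← h]; ring
  have ha : |(((6 * l + 3 : ℕ) : ℤ) : ℝ)| = 6 * l + 3 := by
    push_cast
    rw [abs_of_nonneg (by positivity)]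
  have hb : |((-((6 * l + 3 : ℕ) : ℤ) : ℤ) : ℝ)| = 6 * l + 3 := by
    push_cast
    rw [abs_neg, abs_of_nonneg (by positivity)]
  unfold F pst
  rw [if_pos (by omega), if_pos (by omega), ha, hb]
  have e1 := h1 (((6 * l + 3 : ℕ) : ℤ) : ℝ)
  have e2 := h1 ((-((6 * l + 3 : ℕ) : ℤ) : ℤ) : ℝ)
  have e3 : (((-((6 * l + 3 : ℕ) : ℤ) : ℤ) : ℝ) * (x - x₀)) =
      -((((6 * l + 3 : ℕ) : ℤ) : ℝ) * (x - x₀)) := by push_cast; ring
  rw [e3] at e2
  rw [Complex.ofReal_neg, Complex.cos_neg, Complex.sin_neg] at e2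
  have e4 : t (x - x₀) l = Real.sin ((((6 * l + 3 : ℕ) : ℤ) : ℝ) * (x - x₀)) /
      ((2 * l + 1) * (6 * l + 4)) := by
    unfold t
    push_cast
    rfl
  rw [e4]
  generalize (((6 * l + 3 : ℕ) : ℤ) : ℝ) * (x - x₀) = θ at e1 e2 ⊢
  have hd : ((2 * (l : ℂ) + 1)) ≠ 0 := by
    have : ((2 * l + 1 : ℕ) : ℂ) ≠ 0 := by
      rw [Nat.cast_ne_zero]; omega
    intro h
    apply this
    push_cast
    exact h
  have he : ((6 * (l : ℂ) + 4)) ≠ 0 := by
    have : ((6 * l + 4 : ℕ) : ℂ) ≠ 0 := by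
      rw [Nat.cast_ne_zero]; omega
    intro h
    apply this
    push_cast
    exact h
  have hc : ((((6 * (l : ℝ) + 3 : ℝ)) + 1 : ℝ) : ℂ) = 6 * (l : ℂ) + 4 := by
    push_cast; ring
  rw [hc]
  have hg : ((((6 * l + 3 : ℕ) : ℤ) : ℤ) : ℂ) = 3 * (2 * (l : ℂ) + 1) := by
    push_cast; ring
  have hg' : (((-((6 * l + 3 : ℕ) : ℤ)) : ℤ) : ℂ) = -(3 * (2 * (l : ℂ) + 1)) := by
    push_cast; ring
  rw [hg, hg']
  have f1 : ∀ A B P Q : ℂ, A * P / Q * B = (A * B) * P / Q := fun A B P Q => by ring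
  rw [f1, f1, e1, e2]
  have h3 : (3 : ℂ) ≠ 0 := by norm_num
  push_cast
  field_simp
  ring_nf
  simp only [Complex.I_sq]
  ring

lemma sum_eq (x x₀ : ℝ) (M : ℕ) :
    ∑ k ∈ (Finset.Icc (-(M : ℤ)) M).filter (fun k => k % 2 = 1), F x x₀ k =
      ((2 / π * ∑ l ∈ range ((M + 3) / 6), t (x - x₀) l : ℝ) : ℂ) := by
  rw [sum_filter]
  induction M with
  | zero => simp
  | succ M ih =>
    rw [sum_Icc_succ, ih]
    by_cases h : (M + 1) % 6 = 3
    · obtain ⟨l, hl⟩ : ∃ l, M + 1 = 6 * l + 3 := ⟨(M + 1) / 6, by omega⟩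
      have h1 : (M + 1 + 3) / 6 = l + 1 := by omega
      have h2 : (M + 3) / 6 = l := by omega
      rw [h1, h2, hl, if_pos (by omega), if_pos (by omega), F_pair, sum_range_succ]
      push_cast
      ring
    · have h1 : (M + 1 + 3) / 6 = (M + 3) / 6 := by omega
      rw [h1]
      have h2 : F x x₀ ((M + 1 : ℕ) : ℤ) = 0 := F_zero _ _ _ (by omega)
      have h3 : F x x₀ (-((M + 1 : ℕ) : ℤ)) = 0 := F_zero _ _ _ (by omega)
      rw [h2, h3]
      simp

lemma main (M : ℕ) (x x₀ : ℝ) :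
    ‖∑ k ∈ (Finset.Icc (-(M : ℤ)) M).filter (fun k => k % 2 = 1), F x x₀ k -
      (ks (x - x₀) : ℂ)‖ ≤ 4 / ((M : ℝ) + 1) := by
  rw [sum_eq, ← Complex.ofReal_sub, Complex.norm_real, Real.norm_eq_abs]
  rcases Nat.eq_zero_or_pos ((M + 3) / 6) with h | h
  · rw [h, range_zero, sum_empty, mul_zero, zero_sub, abs_neg]
    refine (ks_le _).trans ?_
    have hM : (M : ℝ) ≤ 2 := by
      have : M ≤ 2 := by omega
      exact_mod_cast this
    rw [le_div_iff₀ (by positivity)]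
    linarith
  · set n := (M + 3) / 6 with hn
    have h1 : ∑' l, t (x - x₀) l = ∑ l ∈ range n, t (x - x₀) l + ∑' l, t (x - x₀) (l + n) :=
      ((summable_t (x - x₀)).sum_add_tsum_nat_add n).symm
    rw [ks_eq, h1, mul_add, sub_add_cancel_left, abs_neg, abs_mul,
      abs_of_nonneg (by positivity : (0 : ℝ) ≤ 2 / π)]
    have h2 : |∑' l, t (x - x₀) (l + n)| ≤ 1 / (12 * (n : ℝ)) :=
      (tsum_of_norm_bounded (summable_c_add n h).hasSum
        (fun l => norm_t_le (x - x₀) (l + n))).trans (tsum_tail_le n h)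
    have hn1 : (1 : ℝ) ≤ n := by exact_mod_cast h
    have hM : (M : ℝ) ≤ 6 * n + 2 := by
      have : M ≤ 6 * n + 2 := by omega
      exact_mod_cast this
    calc 2 / π * |∑' l, t (x - x₀) (l + n)| ≤ 2 / 3 * (1 / (12 * (n : ℝ))) :=
          mul_le_mul two_div_pi_le h2 (abs_nonneg _) (by norm_num)
      _ = 1 / (18 * (n : ℝ)) := by
          field_simp
          norm_num
      _ ≤ 4 / ((M : ℝ) + 1) := by
          rw [div_le_div_iff₀ (by positivity) (by positivity)]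
          linarith

end KSF

theorem m_KSF : Stmt_KSF :=
  ⟨KSF.ks_le, KSF.le_ks, fun M x x₀ => KSF.main M x x₀⟩

end Pool.Agent.EHP
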