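import Pool.Agent.EHP.Stmts2

/-!
# Upper bound for the weighted mean of `ρ` from the perimeter (helper50)
-/

open Finset
open scoped Real ComplexConjugate

namespace Pool.Agent.EHP

namespace MLEN

/-- Lower bound of the sine part. -/
theorem sin_part {κ g : ℝ} (hκ1 : κ ≤ 1) (hg : 0 < g) (hg1 : g ≤ κ / 10) :
    g ^ 2 * (1 - g ^ 2 / 12 * (1 + κ / 64)) ≤ 4 * Real.sin (g / 2) ^ 2 := by
  set x : ℝ := g / 2 with hx
  have hx0 : 0 < x := by positivity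
  have hx1 : x ≤ κ / 20 := by rw [hx]; linarith
  have hx2 : x ≤ 1 / 20 := by linarith
  have hgx : g = 2 * x := by rw [hx]; ring
  have hb := Real.sin_bound (x := x) (by rw [abs_of_pos hx0]; linarith)
  rw [abs_of_pos hx0] at hb
  have h1 := (abs_le.1 hb).1
  have h2 : x * (1 - (x ^ 2 / 6 + 5 / 96 * x ^ 3)) ≤ Real.sin x := by
    have h21 : 0 ≤ x ^ 4 * (5 / 96 - x / 100) := mul_nonneg (by positivity) (by linarith)
    have h22 : x * (1 - (x ^ 2 / 6 + 5 / 96 * x ^ 3)) =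
        x - x ^ 3 / 6 - x ^ 5 / 100 - x ^ 4 * (5 / 96 - x / 100) := by ring
    linarith
  have h3 : x ^ 2 / 6 + 5 / 96 * x ^ 3 ≤ 1 := by
    have : x ^ 2 ≤ 1 := by nlinarith
    have : x ^ 3 ≤ 1 := by nlinarith
    linarith
  have h4 : 0 ≤ x * (1 - (x ^ 2 / 6 + 5 / 96 * x ^ 3)) := mul_nonneg hx0.le (by linarith)
  have h5 : (x * (1 - (x ^ 2 / 6 + 5 / 96 * x ^ 3))) ^ 2 ≤ Real.sin x ^ 2 :=
    pow_le_pow_left₀ h4 h2 2
  have h6 : x ^ 2 * (1 - 2 * (x ^ 2 / 6 + 5 / 96 * x ^ 3)) ≤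
      (x * (1 - (x ^ 2 / 6 + 5 / 96 * x ^ 3))) ^ 2 := by
    have : (x * (1 - (x ^ 2 / 6 + 5 / 96 * x ^ 3))) ^ 2 -
        x ^ 2 * (1 - 2 * (x ^ 2 / 6 + 5 / 96 * x ^ 3)) =
        (x * (x ^ 2 / 6 + 5 / 96 * x ^ 3)) ^ 2 := by ring
    have := sq_nonneg (x * (x ^ 2 / 6 + 5 / 96 * x ^ 3))
    linarith
  have h7 : g ^ 2 * (1 - g ^ 2 / 12 * (1 + κ / 64)) ≤
      4 * (x ^ 2 * (1 - 2 * (x ^ 2 / 6 + 5 / 96 * x ^ 3))) := by
    rw [hgx]
    have h8 : 4 * (x ^ 2 * (1 - 2 * (x ^ 2 / 6 + 5 / 96 * x ^ 3))) -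
        (2 * x) ^ 2 * (1 - (2 * x) ^ 2 / 12 * (1 + κ / 64)) =
        4 * x ^ 4 * (κ / 192 - 5 / 48 * x) := by ring
    have h9 : 0 ≤ 4 * x ^ 4 * (κ / 192 - 5 / 48 * x) :=
      mul_nonneg (by positivity) (by linarith)
    linarith
  linarith

/-- Lower bound of the sinh part. -/
theorem sinh_part (y : ℝ) : y ^ 2 ≤ Real.sinh y ^ 2 := by
  rw [← sq_abs y, ← sq_abs (Real.sinh y), Real.abs_sinh]
  exact pow_le_pow_left₀ (abs_nonneg y) (Real.self_le_sinh_iff.2 (abs_nonneg y)) 2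

/-- Lower bound of the root. -/
theorem sqrt_part {t : ℝ} (h1 : -1 ≤ t) (h2 : t ≤ 1) : 1 + t / 2 - t ^ 2 / 2 ≤ √(1 + t) := by
  apply Real.le_sqrt_of_sq_le
  have : 1 + t - (1 + t / 2 - t ^ 2 / 2) ^ 2 = t ^ 2 * ((1 + t) * (3 - t)) / 4 := by ring
  have : 0 ≤ t ^ 2 * ((1 + t) * (3 - t)) / 4 := by
    have : 0 ≤ (1 + t) * (3 - t) := mul_nonneg (by linarith) (by linarith)
    positivity
  linarith

theorem aux {κ g s r : ℝ} (hκ : 0 < κ) (hκ1 : κ ≤ 1) (hg : 0 < g) (hg1 : g ≤ κ / 10)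
    (hs : |s| ≤ κ / 10) (hr : |r| ≤ κ / 10) :
    g + g * r + (1 - κ) / 2 * (g * r ^ 2 + g * s ^ 2) - (1 + κ) / 24 * g ^ 3 ≤
      Real.exp r * √(4 * Real.sin (g / 2) ^ 2 + 4 * Real.sinh (s * g / 2) ^ 2) := by
  have hsin := sin_part hκ1 hg hg1
  have hsinh : s ^ 2 * g ^ 2 ≤ 4 * Real.sinh (s * g / 2) ^ 2 := by
    have := sinh_part (s * g / 2)
    nlinarith
  set u : ℝ := s ^ 2 with hu
  set v : ℝ := g ^ 2 with hv
  have hu0 : 0 ≤ u := sq_nonneg s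
  have hv0 : 0 ≤ v := sq_nonneg g
  have hu1 : u ≤ κ / 100 := by
    rw [hu, ← sq_abs]
    have := abs_nonneg s
    nlinarith
  have hv1 : v ≤ κ / 100 := by
    rw [hv]
    nlinarith
  set t : ℝ := u - v / 12 * (1 + κ / 64) with ht
  have hκ2 : κ * κ ≤ κ := by nlinarith
  have hvκ : 0 ≤ v * κ := by positivity
  have hvκ1 : v * κ ≤ v := by nlinarith
  have ht1 : -1 ≤ t := by rw [ht]; nlinarith
  have ht2 : t ≤ 1 := by rw [ht]; nlinarith
  have hA : g ^ 2 * (1 + t) ≤ 4 * Real.sin (g / 2) ^ 2 + 4 * Real.sinh (s * g / 2) ^ 2 := by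
    have : g ^ 2 * (1 + t) = v * (1 - v / 12 * (1 + κ / 64)) + u * v := by
      rw [ht, hv]; ring
    rw [this]
    linarith
  have hsq : g * √(1 + t) ≤
      √(4 * Real.sin (g / 2) ^ 2 + 4 * Real.sinh (s * g / 2) ^ 2) := by
    have h1 : g * √(1 + t) = √(g ^ 2 * (1 + t)) := by
      rw [Real.sqrt_mul (sq_nonneg g), Real.sqrt_sq hg.le]
    rw [h1]
    exact Real.sqrt_le_sqrt hA
  have hroot := sqrt_part ht1 ht2
  set b : ℝ := u / 2 * (1 - κ / 10) - v / 24 * (1 + κ / 10) with hb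
  have hB : 1 + b ≤ √(1 + t) := by
    refine le_trans ?_ hroot
    -- `t² ≤ u² + w²` with `w = v / 12 * (1 + κ / 64)`
    set w : ℝ := v / 12 * (1 + κ / 64) with hw
    have hw0 : 0 ≤ w := by positivity
    have hw1 : w ≤ v / 10 := by rw [hw]; linarith
    have h1 : t ^ 2 ≤ u ^ 2 + w ^ 2 := by
      rw [ht]
      nlinarith [mul_nonneg hu0 hw0]
    have h2 : u ^ 2 ≤ u * (κ / 100) := by nlinarith
    have h3 : w ^ 2 ≤ v / 10 * (κ / 1000) := by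
      have : w ≤ κ / 1000 := by linarith
      nlinarith
    have h4 : w = v / 12 + v * κ / 768 := by rw [hw]; ring
    have h5 : t = u - w := by rw [ht]
    rw [hb]
    have h6 : 0 ≤ u * κ := by positivity
    nlinarith
  -- the exponential
  have hr0 := abs_nonneg r
  have hr1 : |r| ≤ 1 := by linarith
  have hE := Real.exp_bound hr1 (n := 3) (by norm_num)
  have hsum : ∑ m ∈ range 3, r ^ m / (m.factorial : ℝ) = 1 + r + r ^ 2 / 2 := by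
    simp [Finset.sum_range_succ, Nat.factorial]
  rw [hsum] at hE
  have hE1 := (abs_le.1 hE).1
  have hE2 : 1 + r + r ^ 2 / 2 * (1 - κ / 10) ≤ Real.exp r := by
    have h1 : |r| ^ 3 * (((3 : ℕ).succ : ℝ) / (((3 : ℕ).factorial : ℝ) * (3 : ℕ))) ≤
        r ^ 2 / 2 * (κ / 10) := by
      have h2 : (((3 : ℕ).succ : ℝ) / (((3 : ℕ).factorial : ℝ) * (3 : ℕ))) = 2 / 9 := by
        norm_num [Nat.factorial]
      rw [h2]
      have h3 : |r| ^ 3 = r ^ 2 * |r| := by rw [← sq_abs r]; ring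
      rw [h3]
      nlinarith [sq_nonneg r]
    linarith
  have hE3 := Real.abs_exp_sub_one_le hr1
  have hE4 : 1 - κ / 5 ≤ Real.exp r := by
    have := (abs_le.1 hE3).1
    linarith
  have hE5 : Real.exp r ≤ 1 + κ / 5 := by
    have := (abs_le.1 hE3).2
    linarith
  have hE0 := Real.exp_pos r
  have hfin : 1 + r + (1 - κ) / 2 * (r ^ 2 + u) - (1 + κ) / 24 * v ≤ Real.exp r * (1 + b) := by
    have h1 : (1 - κ) / 2 * u ≤ Real.exp r * (u / 2 * (1 - κ / 10)) := by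
      have h2 : (1 - κ / 5) * (u / 2 * (1 - κ / 10)) ≤ Real.exp r * (u / 2 * (1 - κ / 10)) :=
        mul_le_mul_of_nonneg_right hE4 (mul_nonneg (by positivity) (by linarith))
      have h3 : (1 - κ) / 2 * u ≤ (1 - κ / 5) * (u / 2 * (1 - κ / 10)) := by
        have : (1 - κ / 5) * (u / 2 * (1 - κ / 10)) - (1 - κ) / 2 * u =
            u / 2 * (7 / 10 * κ + κ ^ 2 / 50) := by ring
        have : 0 ≤ u / 2 * (7 / 10 * κ + κ ^ 2 / 50) := by positivity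
        linarith
      linarith
    have h4 : Real.exp r * (v / 24 * (1 + κ / 10)) ≤ (1 + κ) / 24 * v := by
      have h5 : Real.exp r * (v / 24 * (1 + κ / 10)) ≤ (1 + κ / 5) * (v / 24 * (1 + κ / 10)) :=
        mul_le_mul_of_nonneg_right hE5 (by positivity)
      have h6 : (1 + κ / 5) * (v / 24 * (1 + κ / 10)) ≤ (1 + κ) / 24 * v := by
        have : (1 + κ) / 24 * v - (1 + κ / 5) * (v / 24 * (1 + κ / 10)) =
            v / 24 * (κ * (7 / 10 - κ / 50)) := by ring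
        have : 0 ≤ v / 24 * (κ * (7 / 10 - κ / 50)) :=
          mul_nonneg (by positivity) (mul_nonneg hκ.le (by linarith))
        linarith
      linarith
    have h7 : Real.exp r * (1 + b) = Real.exp r + Real.exp r * (u / 2 * (1 - κ / 10)) -
        Real.exp r * (v / 24 * (1 + κ / 10)) := by rw [hb]; ring
    rw [h7]
    have h8 : 0 ≤ r ^ 2 * κ := by positivity
    nlinarith
  have hall : g * (1 + r + (1 - κ) / 2 * (r ^ 2 + u) - (1 + κ) / 24 * v) ≤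
      g * (Real.exp r * (1 + b)) := mul_le_mul_of_nonneg_left hfin hg.le
  have hlhs : g + g * r + (1 - κ) / 2 * (g * r ^ 2 + g * u) - (1 + κ) / 24 * g ^ 3 =
      g * (1 + r + (1 - κ) / 2 * (r ^ 2 + u) - (1 + κ) / 24 * v) := by rw [hv]; ring
  rw [hlhs]
  calc g * (1 + r + (1 - κ) / 2 * (r ^ 2 + u) - (1 + κ) / 24 * v)
      ≤ g * (Real.exp r * (1 + b)) := hall
    _ = Real.exp r * (g * (1 + b)) := by ring
    _ ≤ Real.exp r * (g * √(1 + t)) :=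
        mul_le_mul_of_nonneg_left (mul_le_mul_of_nonneg_left hB hg.le) hE0.le
    _ ≤ _ := mul_le_mul_of_nonneg_left hsq hE0.le

/-- The length of a side. -/
theorem len {n : ℕ} (c : Cfg n) (j : ℤ) : ‖c.z (j + 1) - c.z j‖ =
    Real.exp (c.ρm j) * √(4 * Real.sin (c.g j / 2) ^ 2 + 4 * Real.sinh (c.s j * c.g j / 2) ^ 2) := by
  have h := c.dist_sq (j + 1) j
  have h1 : c.X (j + 1) j = c.g j / 2 := rfl
  have h2 : c.Y (j + 1) j = c.s j * c.g j / 2 := by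
    unfold Cfg.Y Cfg.s Cfg.Δ
    rw [div_mul_cancel₀ _ (c.g_pos j).ne']
  have h3 : c.ρ (j + 1) + c.ρ j = c.ρm j + c.ρm j := by unfold Cfg.ρm; ring
  rw [h1, h2, h3, Real.exp_add] at h
  have h4 : 0 ≤ 4 * Real.sin (c.g j / 2) ^ 2 + 4 * Real.sinh (c.s j * c.g j / 2) ^ 2 := by
    positivity
  have h5 : (Real.exp (c.ρm j) *
      √(4 * Real.sin (c.g j / 2) ^ 2 + 4 * Real.sinh (c.s j * c.g j / 2) ^ 2)) ^ 2 =
      ‖c.z (j + 1) - c.z j‖ ^ 2 := by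
    rw [mul_pow, Real.sq_sqrt h4, h]
    ring
  have h6 : 0 ≤ Real.exp (c.ρm j) *
      √(4 * Real.sin (c.g j / 2) ^ 2 + 4 * Real.sinh (c.s j * c.g j / 2) ^ 2) :=
    mul_nonneg (Real.exp_pos _).le (Real.sqrt_nonneg _)
  exact ((pow_left_inj₀ h6 (norm_nonneg _) two_ne_zero).1 h5).symm

/-- The theorem for `κ ≤ 1`. -/
theorem main (hP : Stmt_PER2) {κ : ℝ} (hκ : 0 < κ) (hκ1 : κ ≤ 1) :
    ∃ ε : ℝ, 0 < ε ∧ ∃ n₀ : ℕ, ∀ n ≥ n₀, ∀ c : Cfg n, Nice n ε c →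
    ∑ j ∈ range n, c.g (j : ℤ) * c.ρm (j : ℤ) ≤
      (1 + κ) / 24 * ∑ j ∈ range n, c.g (j : ℤ) ^ 3 -
      (1 - κ) / 2 * (∑ j ∈ range n, c.g (j : ℤ) * c.ρm (j : ℤ) ^ 2 + c.S) := by
  refine ⟨κ / 100, by positivity, max 4 (⌈200 * π / κ⌉₊ + 1), ?_⟩
  intro n hn c hN
  have hn4 : 4 ≤ n := le_trans (le_max_left _ _) hn
  have hnK : ⌈200 * π / κ⌉₊ + 1 ≤ n := le_trans (le_max_right _ _) hn
  have hnpos : (0 : ℝ) < n := by
    have : 0 < n := by omega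
    exact_mod_cast this
  have hnb : 200 * π / κ ≤ n := by
    have h1 := Nat.le_ceil (200 * π / κ)
    have h2 : ((⌈200 * π / κ⌉₊ + 1 : ℕ) : ℝ) ≤ n := by exact_mod_cast hnK
    push_cast at h2
    linarith
  have h2pi : 2 * π / n ≤ κ / 100 := by
    rw [div_le_iff₀ hκ] at hnb
    rw [div_le_iff₀ hnpos]
    linarith
  have hper := hP n (κ / 100) c hn4 (by linarith) hN
  have hgφ : ∀ j, c.g j = c.φ (j + 1) - c.φ j + 2 * π / n := by
    intro j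
    unfold Cfg.g Cfg.φ
    push_cast
    field_simp
    ring
  have hg1 : ∀ j, c.g j ≤ κ / 10 := by
    intro j
    have h1 := abs_le.1 (hN.hφ (j + 1))
    have h2 := abs_le.1 (hN.hφ j)
    rw [hgφ j]
    linarith [h1.1, h1.2, h2.1, h2.2]
  have hs1 : ∀ j, |c.s j| ≤ κ / 10 := by
    intro j
    have h1 := hN.slope (j + 1) j
    have hg := c.g_pos j
    have h2 : |c.θ (j + 1) - c.θ j| = c.g j := abs_of_pos hg
    rw [h2] at h1
    unfold Cfg.s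
    rw [abs_div, abs_of_pos hg, div_le_iff₀ hg]
    have : |c.Δ j| = |c.ρ (j + 1) - c.ρ j| := rfl
    rw [this]
    nlinarith
  have hr1 : ∀ j, |c.ρm j| ≤ κ / 10 := by
    intro j
    have h1 := abs_le.1 (hN.hρ (j + 1))
    have h2 := abs_le.1 (hN.hρ j)
    rw [abs_le]
    unfold Cfg.ρm
    constructor <;> linarith [h1.1, h1.2, h2.1, h2.2]
  have hkey : ∀ j : ℤ, c.g j + c.g j * c.ρm j + (1 - κ) / 2 * (c.g j * c.ρm j ^ 2 +
      c.Δ j ^ 2 / c.g j) - (1 + κ) / 24 * c.g j ^ 3 ≤ ‖c.z (j + 1) - c.z j‖ := by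
    intro j
    rw [len]
    have h := aux hκ hκ1 (c.g_pos j) (hg1 j) (hs1 j) (hr1 j)
    have h2 : c.Δ j ^ 2 / c.g j = c.g j * c.s j ^ 2 := by
      unfold Cfg.s
      have := (c.g_pos j).ne'
      field_simp
    rw [h2]
    exact h
  have hsum : ∑ j ∈ range n, (c.g (j : ℤ) + c.g (j : ℤ) * c.ρm (j : ℤ) +
      (1 - κ) / 2 * (c.g (j : ℤ) * c.ρm (j : ℤ) ^ 2 + c.Δ (j : ℤ) ^ 2 / c.g (j : ℤ)) -
      (1 + κ) / 24 * c.g (j : ℤ) ^ 3) ≤ 2 * π :=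
    le_trans (Finset.sum_le_sum fun j _ => hkey (j : ℤ)) hper
  rw [Finset.sum_sub_distrib, Finset.sum_add_distrib, Finset.sum_add_distrib, ← Finset.mul_sum,
    ← Finset.mul_sum, Finset.sum_add_distrib, c.sum_g] at hsum
  have hS : c.S = ∑ j ∈ range n, c.Δ (j : ℤ) ^ 2 / c.g (j : ℤ) := rfl
  rw [hS]
  linarith

end MLEN

theorem m_LEN : Stmt_PER2 → Stmt_LEN := by
  intro hP κ hκ
  obtain ⟨ε, hε, n₀, h⟩ := MLEN.main hP (κ := min κ 1) (lt_min hκ one_pos) (min_le_right _ _)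
  refine ⟨ε, hε, n₀, fun n hn c hN => le_trans (h n hn c hN) ?_⟩
  have h1 : min κ 1 ≤ κ := min_le_left _ _
  have h2 : 0 ≤ ∑ j ∈ range n, c.g (j : ℤ) ^ 3 :=
    Finset.sum_nonneg fun j _ => pow_nonneg (c.g_pos _).le 3
  have h3 : 0 ≤ ∑ j ∈ range n, c.g (j : ℤ) * c.ρm (j : ℤ) ^ 2 :=
    Finset.sum_nonneg fun j _ => mul_nonneg (c.g_pos _).le (sq_nonneg _)
  have h4 : 0 ≤ c.S :=
    Finset.sum_nonneg fun j _ => div_nonneg (sq_nonneg _) (c.g_pos _).le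
  have h5 : (1 + min κ 1) / 24 * ∑ j ∈ range n, c.g (j : ℤ) ^ 3 ≤
      (1 + κ) / 24 * ∑ j ∈ range n, c.g (j : ℤ) ^ 3 :=
    mul_le_mul_of_nonneg_right (by linarith) h2
  have h6 : (1 - κ) / 2 * (∑ j ∈ range n, c.g (j : ℤ) * c.ρm (j : ℤ) ^ 2 + c.S) ≤
      (1 - min κ 1) / 2 * (∑ j ∈ range n, c.g (j : ℤ) * c.ρm (j : ℤ) ^ 2 + c.S) :=
    mul_le_mul_of_nonneg_right (by linarith) (add_nonneg h3 h4)
  linarith

end Pool.Agent.EHP
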