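import Pool.Agent.EHP.Stmts1

/-!
# The one dimensional inequality
-/

open Finset
open scoped Real ComplexConjugate

namespace Pool.Agent.EHP

namespace MLINE

/-- `1 - q e^{iα}`. -/
noncomputable def E (q α : ℝ) : ℂ := 1 - (q : ℂ) * Complex.exp ((α : ℂ) * Complex.I)

theorem norm_sq_E (q α : ℝ) : ‖E q α‖ ^ 2 = (1 - q) ^ 2 + q * (2 - 2 * Real.cos α) := by
  rw [← Complex.normSq_eq_norm_sq, Complex.normSq_apply]
  have hre : (E q α).re = 1 - q * Real.cos α := by
    unfold E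
    simp [Complex.exp_ofReal_mul_I_re]
  have him : (E q α).im = - (q * Real.sin α) := by
    unfold E
    simp [Complex.exp_ofReal_mul_I_im]
  rw [hre, him]
  have h1 : Real.sin α ^ 2 = 1 - Real.cos α ^ 2 := by
    have := Real.sin_sq_add_cos_sq α
    linarith
  have h2 : (1 - q * Real.cos α) * (1 - q * Real.cos α) + -(q * Real.sin α) * -(q * Real.sin α)
      = (1 - q * Real.cos α) ^ 2 + q ^ 2 * Real.sin α ^ 2 := by ring
  rw [h2, h1]
  ring

theorem norm_E_pos {q : ℝ} (hq0 : 0 < q) (hq1 : q < 1) (α : ℝ) : 0 < ‖E q α‖ := by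
  have h := norm_sq_E q α
  have hc := Real.cos_le_one α
  have h1 : 0 < ‖E q α‖ ^ 2 := by
    rw [h]
    have : 0 < (1 - q) ^ 2 := by
      have : 0 < 1 - q := by linarith
      positivity
    have : 0 ≤ q * (2 - 2 * Real.cos α) := mul_nonneg hq0.le (by linarith)
    linarith
  have h0 := norm_nonneg (E q α)
  rcases h0.lt_or_eq with h2 | h2
  · exact h2
  · rw [← h2] at h1; norm_num at h1

theorem hasSum_E {q : ℝ} (hq0 : 0 < q) (hq1 : q < 1) (α : ℝ) :
    HasSum (fun k : ℕ => q ^ k / k * Real.cos (k * α)) (-Real.log ‖E q α‖) := by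
  have hz : ‖(q : ℂ) * Complex.exp ((α : ℂ) * Complex.I)‖ < 1 := by
    rw [norm_mul, Complex.norm_exp_ofReal_mul_I, mul_one, Complex.norm_real, Real.norm_eq_abs,
      abs_of_pos hq0]
    exact hq1
  have h := Complex.hasSum_taylorSeries_neg_log hz
  have h2 := Complex.hasSum_re h
  have e1 : (-Complex.log (1 - (q : ℂ) * Complex.exp ((α : ℂ) * Complex.I))).re
      = -Real.log ‖E q α‖ := by
    rw [Complex.neg_re, Complex.log_re]
    rfl
  rw [e1] at h2
  have e2 : (fun k : ℕ => q ^ k / k * Real.cos (k * α))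
      = fun k : ℕ => (((q : ℂ) * Complex.exp ((α : ℂ) * Complex.I)) ^ k / (k : ℂ)).re := by
    funext k
    have e3 : ((q : ℂ) * Complex.exp ((α : ℂ) * Complex.I)) ^ k / (k : ℂ)
        = ((q ^ k / k : ℝ) : ℂ) * Complex.exp (((k * α : ℝ) : ℂ) * Complex.I) := by
      rw [mul_pow, ← Complex.exp_nat_mul]
      push_cast
      rw [mul_assoc]
      ring
    rw [e3, Complex.re_ofReal_mul, Complex.exp_ofReal_mul_I_re]
  rw [e2]
  exact h2

theorem hasSum_q {q : ℝ} (hq0 : 0 < q) (hq1 : q < 1) :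
    HasSum (fun k : ℕ => q ^ k / k) (-Real.log (1 - q)) := by
  have h := hasSum_E hq0 hq1 0
  have e1 : ‖E q 0‖ = 1 - q := by
    have h1 := norm_sq_E q 0
    rw [Real.cos_zero] at h1
    have h2 : ‖E q 0‖ ^ 2 = (1 - q) ^ 2 := by rw [h1]; ring
    exact (sq_eq_sq₀ (norm_nonneg _) (by linarith)).1 h2
  rw [e1] at h
  simpa using h

/-- The bound for one pair. -/
theorem pair_le {q : ℝ} (hq0 : 0 < q) (hq1 : q < 1) (a b : ℝ)
    (hne : Real.cos a ≠ Real.cos b) :
    Real.log |2 * (Real.cos a - Real.cos b)| ≤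
      Real.log ‖E q (a - b)‖ + Real.log ‖E q (a + b)‖ - Real.log q := by
  have h1 := norm_sq_E q (a - b)
  have h2 := norm_sq_E q (a + b)
  have p1 := norm_E_pos hq0 hq1 (a - b)
  have p2 := norm_E_pos hq0 hq1 (a + b)
  have hpos : 0 < |2 * (Real.cos a - Real.cos b)| := by
    rw [abs_pos]
    exact mul_ne_zero two_ne_zero (sub_ne_zero.2 hne)
  have key : (q * |2 * (Real.cos a - Real.cos b)|) ^ 2 ≤ (‖E q (a - b)‖ * ‖E q (a + b)‖) ^ 2 := by
    rw [mul_pow, mul_pow, sq_abs, h1, h2]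
    have e : (2 * (Real.cos a - Real.cos b)) ^ 2
        = (2 - 2 * Real.cos (a - b)) * (2 - 2 * Real.cos (a + b)) := by
      rw [Real.cos_sub, Real.cos_add]
      have s1 := Real.sin_sq_add_cos_sq a
      have s2 := Real.sin_sq_add_cos_sq b
      have s3 : Real.sin a ^ 2 = 1 - Real.cos a ^ 2 := by linarith
      have s4 : Real.sin b ^ 2 = 1 - Real.cos b ^ 2 := by linarith
      have : (2 - 2 * (Real.cos a * Real.cos b + Real.sin a * Real.sin b)) *
          (2 - 2 * (Real.cos a * Real.cos b - Real.sin a * Real.sin b))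
          = 4 - 8 * Real.cos a * Real.cos b + 4 * (Real.cos a ^ 2 * Real.cos b ^ 2)
            - 4 * (Real.sin a ^ 2 * Real.sin b ^ 2) := by ring
      rw [this, s3, s4]
      ring
    rw [e]
    have u1 : 0 ≤ 2 - 2 * Real.cos (a - b) := by
      have := Real.cos_le_one (a - b); linarith
    have u2 : 0 ≤ 2 - 2 * Real.cos (a + b) := by
      have := Real.cos_le_one (a + b); linarith
    have v1 : q * (2 - 2 * Real.cos (a - b)) ≤ (1 - q) ^ 2 + q * (2 - 2 * Real.cos (a - b)) := by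
      have := sq_nonneg (1 - q); linarith
    have v2 : q * (2 - 2 * Real.cos (a + b)) ≤ (1 - q) ^ 2 + q * (2 - 2 * Real.cos (a + b)) := by
      have := sq_nonneg (1 - q); linarith
    have w1 : 0 ≤ q * (2 - 2 * Real.cos (a - b)) := mul_nonneg hq0.le u1
    have w2 : 0 ≤ q * (2 - 2 * Real.cos (a + b)) := mul_nonneg hq0.le u2
    calc q ^ 2 * ((2 - 2 * Real.cos (a - b)) * (2 - 2 * Real.cos (a + b)))
        = (q * (2 - 2 * Real.cos (a - b))) * (q * (2 - 2 * Real.cos (a + b))) := by ring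
      _ ≤ _ := mul_le_mul v1 v2 w2 (le_trans w1 v1)
  have key2 : q * |2 * (Real.cos a - Real.cos b)| ≤ ‖E q (a - b)‖ * ‖E q (a + b)‖ :=
    (pow_le_pow_iff_left₀ (by positivity) (by positivity) two_ne_zero).1 key
  have key3 := Real.log_le_log (by positivity) key2
  rw [Real.log_mul hq0.ne' hpos.ne', Real.log_mul p1.ne' p2.ne'] at key3
  linarith

/-- The double sum over a period. -/
theorem double_sum {n : ℕ} (hn : 1 ≤ n) (u : ℤ → ℝ) (hu : ∀ j, u (j + n) = u j) :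
    ∑ j ∈ range n, ∑ d ∈ Ico 1 n, u ((j : ℤ) + (d : ℤ)) * u (j : ℤ) =
      (∑ j ∈ range n, u (j : ℤ)) ^ 2 - ∑ j ∈ range n, u (j : ℤ) ^ 2 := by
  have h1 : ∀ j ∈ range n, ∑ d ∈ Ico 1 n, u ((j : ℤ) + (d : ℤ)) * u (j : ℤ) =
      (∑ i ∈ range n, u (i : ℤ)) * u (j : ℤ) - u (j : ℤ) ^ 2 := by
    intro j _
    have e1 : ∑ d ∈ range n, u ((j : ℤ) + (d : ℤ)) = ∑ i ∈ range n, u (i : ℤ) := by
      rw [← sum_shift hu (j : ℤ)]
      apply Finset.sum_congr rfl
      intro d _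
      rw [add_comm]
    have e2 : ∑ d ∈ range n, u ((j : ℤ) + (d : ℤ)) = u (j : ℤ) +
        ∑ d ∈ Ico 1 n, u ((j : ℤ) + (d : ℤ)) := by
      rw [Finset.range_eq_Ico, Finset.sum_eq_sum_Ico_succ_bot (by omega)]
      simp
    rw [← Finset.sum_mul]
    have e3 : ∑ d ∈ Ico 1 n, u ((j : ℤ) + (d : ℤ)) = ∑ i ∈ range n, u (i : ℤ) - u (j : ℤ) := by
      linarith
    rw [e3]
    ring
  rw [Finset.sum_congr rfl h1, Finset.sum_sub_distrib, ← Finset.mul_sum]
  ring

end MLINE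

open MLINE in
theorem m_LINE : Stmt_LINE := by
  intro n x hn hper hinj hle
  have hn0 : (0 : ℝ) < n := by
    have : 0 < n := by omega
    exact_mod_cast this
  have hn1 : (1 : ℝ) < n := by
    have : 1 < n := by omega
    exact_mod_cast this
  set q : ℝ := 1 - 1 / (n : ℝ) with hq
  have hq0 : 0 < q := by
    rw [hq, sub_pos, div_lt_one hn0]
    exact hn1
  have hq1 : q < 1 := by
    rw [hq]
    have : 0 < 1 / (n : ℝ) := by positivity
    linarith
  set t : ℤ → ℝ := fun j => Real.arccos (x j) with ht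
  have hcos : ∀ j, Real.cos (t j) = x j := by
    intro j
    have h := abs_le.1 (hle j)
    exact Real.cos_arccos h.1 h.2
  have htper : ∀ j, t (j + n) = t j := by
    intro j
    simp only [ht]
    rw [hper]
  -- the bound for every pair
  have hpair : ∀ j ∈ range n, ∀ d ∈ Ico 1 n,
      Real.log |2 * (x ((j : ℤ) + (d : ℤ)) - x (j : ℤ))| ≤
        Real.log ‖E q (t ((j : ℤ) + (d : ℤ)) - t (j : ℤ))‖ +
          Real.log ‖E q (t ((j : ℤ) + (d : ℤ)) + t (j : ℤ))‖ - Real.log q := by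
    intro j _ d hd
    rw [Finset.mem_Ico] at hd
    have hne : Real.cos (t ((j : ℤ) + (d : ℤ))) ≠ Real.cos (t (j : ℤ)) := by
      rw [hcos, hcos]
      intro h
      have h1 := hinj _ _ h
      have h2 : (n : ℤ) ∣ (d : ℤ) := by
        have : (j : ℤ) + (d : ℤ) - (j : ℤ) = (d : ℤ) := by ring
        rwa [this] at h1
      have h3 : n ∣ d := Int.natCast_dvd_natCast.1 h2
      have h4 := Nat.le_of_dvd (by omega) h3
      omega
    have := pair_le hq0 hq1 (t ((j : ℤ) + (d : ℤ))) (t (j : ℤ)) hne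
    rw [hcos, hcos] at this
    exact this
  -- the series
  have hS1 : HasSum (fun k : ℕ => ∑ j ∈ range n, ∑ d ∈ Ico 1 n,
      (q ^ k / k * Real.cos (k * (t ((j : ℤ) + (d : ℤ)) - t (j : ℤ))) +
        q ^ k / k * Real.cos (k * (t ((j : ℤ) + (d : ℤ)) + t (j : ℤ)))))
      (∑ j ∈ range n, ∑ d ∈ Ico 1 n,
        (-Real.log ‖E q (t ((j : ℤ) + (d : ℤ)) - t (j : ℤ))‖ +
          -Real.log ‖E q (t ((j : ℤ) + (d : ℤ)) + t (j : ℤ))‖)) := by
    refine hasSum_sum fun j _ => hasSum_sum fun d _ => ?_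
    exact (hasSum_E hq0 hq1 _).add (hasSum_E hq0 hq1 _)
  set C : ℝ := ∑ j ∈ range n, x (j : ℤ) with hC
  have hS2 : HasSum (fun k : ℕ => (if k = 1 then 2 * q * C ^ 2 else 0) - 2 * n * (q ^ k / k))
      (2 * q * C ^ 2 - 2 * n * (-Real.log (1 - q))) :=
    (hasSum_ite_eq 1 (2 * q * C ^ 2)).sub ((hasSum_q hq0 hq1).mul_left _)
  have hterm : ∀ k : ℕ, (if k = 1 then 2 * q * C ^ 2 else 0) - 2 * n * (q ^ k / k) ≤
      ∑ j ∈ range n, ∑ d ∈ Ico 1 n,
      (q ^ k / k * Real.cos (k * (t ((j : ℤ) + (d : ℤ)) - t (j : ℤ))) +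
        q ^ k / k * Real.cos (k * (t ((j : ℤ) + (d : ℤ)) + t (j : ℤ)))) := by
    intro k
    have e1 : ∑ j ∈ range n, ∑ d ∈ Ico 1 n,
        (q ^ k / k * Real.cos (k * (t ((j : ℤ) + (d : ℤ)) - t (j : ℤ))) +
        q ^ k / k * Real.cos (k * (t ((j : ℤ) + (d : ℤ)) + t (j : ℤ)))) =
        2 * (q ^ k / k) * ∑ j ∈ range n, ∑ d ∈ Ico 1 n,
          Real.cos (k * t ((j : ℤ) + (d : ℤ))) * Real.cos (k * t (j : ℤ)) := by
      rw [Finset.mul_sum]
      apply Finset.sum_congr rfl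
      intro j _
      rw [Finset.mul_sum]
      apply Finset.sum_congr rfl
      intro d _
      rw [mul_sub, mul_add, Real.cos_sub, Real.cos_add]
      ring
    rw [e1, double_sum (by omega) (fun j => Real.cos (k * t j)) (fun j => by simp only [htper])]
    have hqk : 0 ≤ q ^ k / (k : ℝ) := by positivity
    have hsq : ∑ j ∈ range n, Real.cos (k * t (j : ℤ)) ^ 2 ≤ n := by
      calc ∑ j ∈ range n, Real.cos (k * t (j : ℤ)) ^ 2 ≤ ∑ j ∈ range n, (1 : ℝ) := by
            apply Finset.sum_le_sum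
            intro j _
            exact Real.cos_sq_le_one _
        _ = n := by simp
    by_cases hk : k = 1
    · subst hk
      rw [if_pos rfl]
      have e2 : ∑ j ∈ range n, Real.cos (((1 : ℕ) : ℝ) * t (j : ℤ)) = C := by
        rw [hC]
        apply Finset.sum_congr rfl
        intro j _
        rw [Nat.cast_one, one_mul, hcos]
      rw [e2]
      have e3 : q ^ 1 / ((1 : ℕ) : ℝ) = q := by simp
      rw [e3]
      have : q * ∑ j ∈ range n, Real.cos (((1 : ℕ) : ℝ) * t (j : ℤ)) ^ 2 ≤ q * n :=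
        mul_le_mul_of_nonneg_left hsq hq0.le
      nlinarith
    · rw [if_neg hk]
      have h1 : q ^ k / (k : ℝ) * ∑ j ∈ range n, Real.cos (k * t (j : ℤ)) ^ 2 ≤
          q ^ k / (k : ℝ) * n := mul_le_mul_of_nonneg_left hsq hqk
      have h2 : 0 ≤ q ^ k / (k : ℝ) * (∑ j ∈ range n, Real.cos (k * t (j : ℤ))) ^ 2 := by
        positivity
      nlinarith
  have hcmp := hasSum_le hterm hS2 hS1
  have hlogn : -Real.log (1 - q) = Real.log n := by
    have : 1 - q = (n : ℝ)⁻¹ := by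
      rw [hq]
      field_simp
      ring
    rw [this, Real.log_inv]
    ring
  rw [hlogn] at hcmp
  have hneg : ∑ j ∈ range n, ∑ d ∈ Ico 1 n,
        (-Real.log ‖E q (t ((j : ℤ) + (d : ℤ)) - t (j : ℤ))‖ +
          -Real.log ‖E q (t ((j : ℤ) + (d : ℤ)) + t (j : ℤ))‖) =
      - ∑ j ∈ range n, ∑ d ∈ Ico 1 n,
        (Real.log ‖E q (t ((j : ℤ) + (d : ℤ)) - t (j : ℤ))‖ +
          Real.log ‖E q (t ((j : ℤ) + (d : ℤ)) + t (j : ℤ))‖) := by
    rw [← Finset.sum_neg_distrib]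
    apply Finset.sum_congr rfl
    intro j _
    rw [← Finset.sum_neg_distrib]
    apply Finset.sum_congr rfl
    intro d _
    ring
  rw [hneg] at hcmp
  have hsum : ∑ j ∈ range n, ∑ d ∈ Ico 1 n,
      Real.log |2 * (x ((j : ℤ) + (d : ℤ)) - x (j : ℤ))| ≤
      ∑ j ∈ range n, ∑ d ∈ Ico 1 n,
        (Real.log ‖E q (t ((j : ℤ) + (d : ℤ)) - t (j : ℤ))‖ +
          Real.log ‖E q (t ((j : ℤ) + (d : ℤ)) + t (j : ℤ))‖ - Real.log q) :=
    Finset.sum_le_sum fun j hj => Finset.sum_le_sum fun d hd => hpair j hj d hd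
  have hconst : ∑ j ∈ range n, ∑ d ∈ Ico 1 n,
        (Real.log ‖E q (t ((j : ℤ) + (d : ℤ)) - t (j : ℤ))‖ +
          Real.log ‖E q (t ((j : ℤ) + (d : ℤ)) + t (j : ℤ))‖ - Real.log q) =
      ∑ j ∈ range n, ∑ d ∈ Ico 1 n,
        (Real.log ‖E q (t ((j : ℤ) + (d : ℤ)) - t (j : ℤ))‖ +
          Real.log ‖E q (t ((j : ℤ) + (d : ℤ)) + t (j : ℤ))‖) - n * ((n - 1) * Real.log q) := by
    simp only [Finset.sum_sub_distrib]
    congr 1
    rw [Finset.sum_const, Finset.sum_const, Finset.card_range, Nat.card_Ico, nsmul_eq_mul,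
      nsmul_eq_mul, Nat.cast_sub (by omega), Nat.cast_one]
  rw [hconst] at hsum
  have hlogq : (n - 1 : ℝ) * (-Real.log q) ≤ 1 := by
    have h1 := Real.one_sub_inv_le_log_of_pos hq0
    have h2 : q⁻¹ - 1 = 1 / (n - 1 : ℝ) := by
      have hnn : (n : ℝ) - 1 ≠ 0 := by linarith
      have : q = (n - 1) / n := by
        rw [hq]
        field_simp
      rw [this, inv_div]
      field_simp
      ring
    have h3 : -Real.log q ≤ 1 / (n - 1 : ℝ) := by linarith
    calc (n - 1 : ℝ) * (-Real.log q) ≤ (n - 1 : ℝ) * (1 / (n - 1 : ℝ)) :=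
          mul_le_mul_of_nonneg_left h3 (by linarith)
      _ = 1 := by
          rw [mul_one_div, div_self (by linarith)]
  have hfin : -(n * ((n - 1) * Real.log q)) ≤ (n : ℝ) := by
    have : (n : ℝ) * ((n - 1 : ℝ) * (-Real.log q)) ≤ n * 1 :=
      mul_le_mul_of_nonneg_left hlogq hn0.le
    linarith
  linarith

end Pool.Agent.EHP
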