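import Pool.Agent.EHP.Stmts6

/-!
# EHP, module MAIN (helper26)
-/

open Finset
open scoped Real ComplexConjugate

namespace Pool.Agent.EHP

/-- The largest distance of the points of a maximizer in polar coordinates is `2`. -/
private theorem main_two (hCUT : Stmt_CUT) {N : ℕ} (hN : 4 ≤ N) {c : Cfg (2 * N)}
    (ho : Opt (2 * N) c.z) : ∃ a b : Fin (2 * N), ‖c.z ((a : ℕ) : ℤ) - c.z ((b : ℕ) : ℤ)‖ = 2 := by
  have hn : 0 < 2 * N := by omega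
  have hP : PerSet (2 * N) {j : ℤ | ((2 * N : ℕ) : ℤ) ∣ j} := by
    intro j
    simp only [Set.mem_ofPred_eq]
    exact ⟨fun h => by simpa using dvd_sub h (dvd_refl _), fun h => dvd_add h (dvd_refl _)⟩
  obtain ⟨a, -, b, -, hab⟩ := hCUT (2 * N) c.z (by omega) ho {j : ℤ | ((2 * N : ℕ) : ℤ) ∣ j} hP
    ⟨0, by simp⟩ ⟨1, by
      simp only [Set.mem_ofPred_eq]
      intro h
      have := Int.le_of_dvd one_pos h
      push_cast at this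
      omega⟩
  have hn' : (0 : ℤ) < ((2 * N : ℕ) : ℤ) := by exact_mod_cast hn
  have h1 := Int.emod_nonneg a hn'.ne'
  have h2 := Int.emod_lt_of_pos a hn'
  have h3 := Int.emod_nonneg b hn'.ne'
  have h4 := Int.emod_lt_of_pos b hn'
  refine ⟨⟨(a % ((2 * N : ℕ) : ℤ)).toNat, by omega⟩, ⟨(b % ((2 * N : ℕ) : ℤ)).toNat, by omega⟩, ?_⟩
  simp only
  rw [Int.toNat_of_nonneg h1, Int.toNat_of_nonneg h3, per_mod c.z_add, per_mod c.z_add]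
  exact hab

/-- The tight pairs in terms of the pivot function. -/
private theorem main_adj {N : ℕ} {c : Cfg (2 * N)} {L : ℤ → ℤ} (hL : Piw (2 * N) c L)
    (i j : Fin (2 * N)) : (i ≠ j ∧ ‖c.z ((i : ℕ) : ℤ) - c.z ((j : ℕ) : ℤ)‖ = 2) ↔
      ∃ v l : ℤ, ((2 * N : ℕ) : ℤ) ∣ v - ((i : ℕ) : ℤ) ∧
      ((2 * N : ℕ) : ℤ) ∣ l - ((j : ℕ) : ℤ) ∧ v < l ∧ l < v + 2 * N ∧ L (v - 1) ≤ l ∧ l ≤ L v := by
  have hi := i.2
  have hj := j.2
  constructor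
  · rintro ⟨hne, h⟩
    have hne' : (i : ℕ) ≠ (j : ℕ) := fun h => hne (Fin.ext h)
    rcases lt_or_gt_of_ne hne' with hlt | hlt
    · have h1 : ((i : ℕ) : ℤ) < ((j : ℕ) : ℤ) := by exact_mod_cast hlt
      have h2 : ((j : ℕ) : ℤ) < ((i : ℕ) : ℤ) + ((2 * N : ℕ) : ℤ) := by omega
      have h3 := (hL.piv.tight _ _ h1 h2).1 h
      refine ⟨(i : ℕ), (j : ℕ), by simp, by simp, h1, ?_, h3.1, h3.2⟩
      push_cast at h2
      exact h2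
    · have h1 : ((i : ℕ) : ℤ) < ((j : ℕ) : ℤ) + ((2 * N : ℕ) : ℤ) := by omega
      have h2 : ((j : ℕ) : ℤ) + ((2 * N : ℕ) : ℤ) < ((i : ℕ) : ℤ) + ((2 * N : ℕ) : ℤ) := by omega
      have h3 := (hL.piv.tight _ _ h1 h2).1 (by rw [c.z_add]; exact h)
      refine ⟨(i : ℕ), ((j : ℕ) : ℤ) + ((2 * N : ℕ) : ℤ), by simp, by simp, h1, ?_, h3.1, h3.2⟩
      push_cast at h2 ⊢
      exact h2
  · rintro ⟨v, l, hv, hl, h1, h2, h3, h4⟩
    have h2' : l < v + ((2 * N : ℕ) : ℤ) := by push_cast; exact h2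
    have h5 := (hL.piv.tight v l h1 h2').2 ⟨h3, h4⟩
    rw [per_dvd c.z_add hv, per_dvd c.z_add hl] at h5
    refine ⟨?_, h5⟩
    rintro rfl
    rw [sub_self, norm_zero] at h5
    norm_num at h5

theorem m_MAIN : Stmt_NICE → Stmt_REG → Stmt_PIV → Stmt_SIX → Stmt_GRAPH → Stmt_CUT → Stmt_MAIN := by
  intro hNICE hREG hPIV hSIX hGRAPH hCUT
  obtain ⟨K, ε, hK, hε, n₁, h1⟩ := hREG
  obtain ⟨n₂, h2⟩ := hNICE ε hε
  obtain ⟨n₃, h3⟩ := hPIV K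
  obtain ⟨n₄, h4⟩ := hSIX K
  refine ⟨max (max n₁ n₂) (max (max n₃ n₄) 8), fun n hn hev z hz => ?_⟩
  have hn1 : n₁ ≤ n := le_trans (le_trans (le_max_left _ _) (le_max_left _ _)) hn
  have hn2 : n₂ ≤ n := le_trans (le_trans (le_max_right _ _) (le_max_left _ _)) hn
  have hn3 : n₃ ≤ n :=
    le_trans (le_trans (le_max_left _ _) (le_trans (le_max_left _ _) (le_max_right _ _))) hn
  have hn4 : n₄ ≤ n :=
    le_trans (le_trans (le_max_right _ _) (le_trans (le_max_left _ _) (le_max_right _ _))) hn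
  have hn8 : 8 ≤ n := le_trans (le_trans (le_max_right _ _) (le_max_right _ _)) hn
  obtain ⟨N, rfl⟩ : ∃ N, n = 2 * N := by
    obtain ⟨r, hr⟩ := hev
    exact ⟨r, by omega⟩
  obtain ⟨c, hc, e, u, t, hu, he⟩ := h2 (2 * N) hn2 z hz
  have hreg := h1 (2 * N) hn1 c hc
  obtain ⟨L, hL⟩ := h3 (2 * N) hn3 c hreg
  obtain ⟨V, hV⟩ := h4 N hn4 c hreg L hL
  have hN4 : 4 ≤ N := by omega
  have hd : ∀ i j : Fin (2 * N), ‖c.z ((i : ℕ) : ℤ) - c.z ((j : ℕ) : ℤ)‖ = ‖z (e i) - z (e j)‖ := by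
    intro i j
    rw [he, he, ← mul_sub, norm_mul, hu, one_mul]
    congr 1
    ring
  let G : SimpleGraph (Fin (2 * N)) :=
    { Adj := fun i j => i ≠ j ∧ ‖c.z ((i : ℕ) : ℤ) - c.z ((j : ℕ) : ℤ)‖ = 2
      symm := ⟨fun i j h => ⟨h.1.symm, by rw [norm_sub_rev]; exact h.2⟩⟩
      loopless := ⟨fun _ h => h.1 rfl⟩ }
  obtain ⟨a, ⟨f⟩⟩ := hGRAPH N L V hN4 hV G (fun i j => main_adj hL i j)
  obtain ⟨k₀, l₀, hkl⟩ := main_two hCUT hN4 hreg.opt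
  rw [hd] at hkl
  have hadj : ∀ i j : Fin (2 * N), (diamGraph z).Adj (e i) (e j) ↔ G.Adj i j := by
    intro i j
    show (e i ≠ e j ∧ ∀ k l, ‖z k - z l‖ ≤ ‖z (e i) - z (e j)‖) ↔
      (i ≠ j ∧ ‖c.z ((i : ℕ) : ℤ) - c.z ((j : ℕ) : ℤ)‖ = 2)
    rw [hd]
    constructor
    · rintro ⟨h5, h6⟩
      refine ⟨fun h7 => h5 (by rw [h7]), le_antisymm (hz.1 _ _) ?_⟩
      rw [← hkl]
      exact h6 _ _
    · rintro ⟨h5, h6⟩
      refine ⟨fun h7 => h5 (e.injective h7), fun k l => ?_⟩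
      rw [h6]
      exact hz.1 k l
  let φ : G ≃g diamGraph z := ⟨e, fun {i j} => hadj i j⟩
  exact ⟨a, ⟨φ.symm.trans f⟩⟩

end Pool.Agent.EHP
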