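import Pool.Agent.EHP.Stmts4

/-!
# Algebra of one mode
-/

open Finset
open scoped Real ComplexConjugate

namespace Pool.Agent.EHP

theorem m_MODEALG : Stmt_MODEALG := by
  refine ⟨?_, ?_, ?_⟩
  · intro k F V hk
    have hk0 : 0 < k := by linarith
    have h1 : (F * conj V).re ≤ ‖F‖ * ‖V‖ := by
      refine (Complex.re_le_norm _).trans ?_
      rw [norm_mul, Complex.norm_conj]
    have h2 : ‖F‖ * ‖V‖ ≤ 1 / 2 * (1 / k) * ‖V‖ ^ 2 + 1 / 2 * k * ‖F‖ ^ 2 := by
      have e : 1 / 2 * (1 / k) * ‖V‖ ^ 2 + 1 / 2 * k * ‖F‖ ^ 2 - ‖F‖ * ‖V‖ =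
          (k * ‖F‖ - ‖V‖) ^ 2 / (2 * k) := by
        field_simp
        ring
      have : 0 ≤ (k * ‖F‖ - ‖V‖) ^ 2 / (2 * k) := by positivity
      linarith
    have e2 : -(1 / 2) * (1 - 1 / k) ^ 2 * ‖V‖ ^ 2 =
        1 / 2 * (1 / k) * ‖V‖ ^ 2 - 1 / 2 * (1 + 1 / k ^ 2 - 1 / k) * ‖V‖ ^ 2 := by
      field_simp
      ring
    rw [e2]
    linarith
  · intro k P U hk
    have hk0 : k ≠ 0 := by linarith
    have hk1 : k + 1 ≠ 0 := by linarith
    have hk2 : k - 1 ≠ 0 := by linarith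
    have hk3 : k ^ 2 - 1 ≠ 0 := by nlinarith
    have e0 : U + P / ((k ^ 2 - 1 : ℝ) : ℂ) =
        ((U.re + P.re / (k ^ 2 - 1) : ℝ) : ℂ) + ((U.im + P.im / (k ^ 2 - 1) : ℝ) : ℂ) *
          Complex.I := by
      apply Complex.ext
      · simp only [Complex.add_re, Complex.div_ofReal_re, Complex.ofReal_re, Complex.mul_re,
          Complex.I_re, Complex.I_im, Complex.ofReal_im]
        ring
      · simp only [Complex.add_im, Complex.div_ofReal_im, Complex.ofReal_re, Complex.mul_im,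
          Complex.I_re, Complex.I_im, Complex.ofReal_im]
        ring
    have e1 : ‖U + P / ((k ^ 2 - 1 : ℝ) : ℂ)‖ ^ 2 =
        (U.re + P.re / (k ^ 2 - 1)) ^ 2 + (U.im + P.im / (k ^ 2 - 1)) ^ 2 := by
      rw [e0, Complex.sq_norm, Complex.normSq_add_mul_I]
    have e2 : ‖(π : ℂ) * (P - U)‖ ^ 2 = π ^ 2 * ((P.re - U.re) ^ 2 + (P.im - U.im) ^ 2) := by
      rw [norm_mul, mul_pow, Complex.sq_norm, Complex.sq_norm, Complex.normSq_ofReal,
        Complex.normSq_apply]
      simp only [Complex.sub_re, Complex.sub_im]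
      ring
    have e3 : ‖(-(π : ℂ)) * U‖ ^ 2 = π ^ 2 * (U.re ^ 2 + U.im ^ 2) := by
      rw [norm_mul, mul_pow, norm_neg, Complex.sq_norm, Complex.sq_norm, Complex.normSq_ofReal,
        Complex.normSq_apply]
      ring
    have e4 : ‖P‖ ^ 2 = P.re ^ 2 + P.im ^ 2 := by
      rw [Complex.sq_norm, Complex.normSq_apply]; ring
    have e5 : (((-(π : ℂ)) * U) * conj ((π : ℂ) * (P - U))).re =
        -π ^ 2 * (U.re * (P.re - U.re) + U.im * (P.im - U.im)) := by
      simp only [map_mul, map_sub, Complex.conj_ofReal, Complex.mul_re, Complex.mul_im,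
        Complex.sub_re, Complex.sub_im, Complex.conj_re, Complex.conj_im, Complex.neg_re,
        Complex.neg_im, Complex.ofReal_re, Complex.ofReal_im]
      ring
    rw [e1, e2, e3, e4, e5]
    have hfac : k ^ 2 - 1 = (k - 1) * (k + 1) := by ring
    rw [hfac]
    field_simp
    ring
  · intro P U
    have e2 : ‖(π : ℂ) * (P - U)‖ ^ 2 = π ^ 2 * ((P.re - U.re) ^ 2 + (P.im - U.im) ^ 2) := by
      rw [norm_mul, mul_pow, Complex.sq_norm, Complex.sq_norm, Complex.normSq_ofReal,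
        Complex.normSq_apply]
      simp only [Complex.sub_re, Complex.sub_im]
      ring
    have e3 : ‖(-(π : ℂ)) * U‖ ^ 2 = π ^ 2 * (U.re ^ 2 + U.im ^ 2) := by
      rw [norm_mul, mul_pow, norm_neg, Complex.sq_norm, Complex.sq_norm, Complex.normSq_ofReal,
        Complex.normSq_apply]
      ring
    have e4 : ‖P‖ ^ 2 = P.re ^ 2 + P.im ^ 2 := by
      rw [Complex.sq_norm, Complex.normSq_apply]; ring
    have e5 : (((-(π : ℂ)) * U) * conj ((π : ℂ) * (P - U))).re =
        -π ^ 2 * (U.re * (P.re - U.re) + U.im * (P.im - U.im)) := by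
      simp only [map_mul, map_sub, Complex.conj_ofReal, Complex.mul_re, Complex.mul_im,
        Complex.sub_re, Complex.sub_im, Complex.conj_re, Complex.conj_im, Complex.neg_re,
        Complex.neg_im, Complex.ofReal_re, Complex.ofReal_im]
      ring
    rw [e2, e3, e4, e5]
    ring

end Pool.Agent.EHP
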