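import Pool.Agent.EHP.Stmts4

/-!
# High modes
-/

open Finset
open scoped Real ComplexConjugate

namespace Pool.Agent.EHP

theorem mh_dr_DR {n : ℕ} (c : Cfg n) (k : ℤ) :
    dr n c.DR k = ((n / (2 * π) : ℝ) : ℂ) * (dr n (fun j => c.R (j + 1)) k - dr n c.R k) := by
  unfold dr dft
  rw [← sub_div, ← Finset.sum_sub_distrib, mul_div_assoc', Finset.mul_sum]
  congr 1
  apply Finset.sum_congr rfl
  intro j _
  unfold Cfg.DR
  push_cast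
  ring

theorem mh_norm {n : ℕ} (hn : 1 ≤ n) (hDFTS : Stmt_DFTS) (c : Cfg n) (k : ℤ) :
    ‖dr n c.DR k‖ = n / π * |Real.sin (π * k / n)| * ‖dr n c.R k‖ := by
  have hnpos : (0 : ℝ) < n := by exact_mod_cast hn
  have hπ := Real.pi_pos
  have hRp : ∀ j, c.R (j + n) = c.R j := by
    intro j; unfold Cfg.R; rw [c.ρ_add]
  have h := (hDFTS n c.R hn hRp k 1).1
  rw [mh_dr_DR, h]
  have e1 : Complex.exp ((2 * π * k * (1 : ℤ) / n : ℝ) * Complex.I) * dr n c.R k - dr n c.R k =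
      (Complex.exp (Complex.I * ((2 * π * k / n : ℝ) : ℂ)) - 1) * dr n c.R k := by
    rw [sub_mul, one_mul, mul_comm Complex.I]
    push_cast
    rw [mul_one]
  rw [e1, norm_mul, norm_mul, Complex.norm_exp_I_mul_ofReal_sub_one, Complex.norm_real,
    Real.norm_eq_abs, Real.norm_eq_abs, abs_mul, abs_two, abs_of_pos (by positivity)]
  have e2 : 2 * π * k / n / 2 = π * k / n := by ring
  rw [e2]
  field_simp

theorem m_MODEHI : Stmt_DFTS → Stmt_MODEHI := by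
  intro hDFTS N c hN k hk0 hkN
  have hπ := Real.pi_pos
  have hπ10 : π ^ 2 ≤ 10 := by
    have := Real.pi_lt_d4
    nlinarith
  obtain ⟨n, hn⟩ : ∃ n : ℝ, n = ((2 * N : ℕ) : ℝ) := ⟨_, rfl⟩
  have hnN : n = 2 * (N : ℝ) := by rw [hn]; push_cast; ring
  have hN1 : (1 : ℝ) ≤ N := by exact_mod_cast hN
  have hnpos : 0 < n := by linarith
  obtain ⟨m, hm⟩ : ∃ m : ℝ, m = |(k : ℝ)| := ⟨_, rfl⟩
  have hm1 : 1 ≤ m := by
    rw [hm]
    have : (1 : ℤ) ≤ |k| := Int.one_le_abs hk0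
    exact_mod_cast this
  have hmN : m ≤ N := by
    rw [hm]; exact_mod_cast hkN
  have hm0 : 0 < m := by linarith
  obtain ⟨V, hV⟩ : ∃ V, V = dr (2 * N) c.DR k := ⟨_, rfl⟩
  obtain ⟨R, hR⟩ : ∃ R, R = dr (2 * N) c.R k := ⟨_, rfl⟩
  obtain ⟨F, hF⟩ : ∃ F, F = dr (2 * N) c.Φ k := ⟨_, rfl⟩
  -- comparison of V and R
  have hVR : 2 * m * ‖R‖ ≤ π * ‖V‖ := by
    have h := mh_norm (by omega) hDFTS c k
    rw [← hV, ← hR, ← hn] at h
    have habs : |π * k / n| = π * m / n := by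
      rw [abs_div, abs_mul, abs_of_pos hπ, abs_of_pos hnpos, ← hm]
    have h1 : |π * k / n| ≤ π / 2 := by
      rw [habs, div_le_iff₀ hnpos, hnN]
      nlinarith
    have h2 := Real.mul_abs_le_abs_sin h1
    rw [habs] at h2
    have e : 2 / π * (π * m / n) = 2 * m / n := by field_simp
    rw [e, div_le_iff₀ hnpos] at h2
    rw [h]
    have e2 : π * (n / π * |Real.sin (π * k / n)| * ‖R‖) = |Real.sin (π * k / n)| * n * ‖R‖ := by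
      field_simp
    rw [e2]
    exact mul_le_mul_of_nonneg_right h2 (norm_nonneg _)
  have hκ1 : m / 2 ≤ kap (2 * N) k := by
    unfold kap
    rw [← hm, ← hn]
    have : m / n ≤ 1 / 2 := by
      rw [div_le_iff₀ hnpos]; linarith
    nlinarith
  have hκ2 : kap (2 * N) k ≤ m := by
    unfold kap
    rw [← hm, ← hn]
    have : 0 ≤ m / n := by positivity
    nlinarith
  obtain ⟨κ, hκ⟩ : ∃ κ, κ = kap (2 * N) k := ⟨_, rfl⟩
  rw [← hκ] at hκ1 hκ2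
  unfold EM
  rw [← hV, ← hR, ← hF, ← hκ, ← hm]
  obtain ⟨E, hE⟩ : ∃ E : ℂ, E = (1 + Complex.exp ((2 * π * k / (2 * N : ℕ) : ℝ) * Complex.I)) / 2 :=
    ⟨_, rfl⟩
  have hE1 : ‖E‖ ≤ 1 := by
    rw [hE, norm_div]
    have h1 := norm_add_le (1 : ℂ) (Complex.exp ((2 * π * k / (2 * N : ℕ) : ℝ) * Complex.I))
    rw [Complex.norm_exp_ofReal_mul_I, norm_one] at h1
    have h2 : ‖(2 : ℂ)‖ = 2 := by simp
    rw [h2]
    linarith
  rw [← hE]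
  have hre : (E * F * conj V).re ≤ ‖F‖ * ‖V‖ := by
    refine (Complex.re_le_norm _).trans ?_
    rw [norm_mul, norm_mul, Complex.norm_conj]
    have : ‖E‖ * ‖F‖ ≤ 1 * ‖F‖ := mul_le_mul_of_nonneg_right hE1 (norm_nonneg _)
    rw [one_mul] at this
    exact mul_le_mul_of_nonneg_right this (norm_nonneg _)
  have hF0 := norm_nonneg F
  have hV0 := norm_nonneg V
  have hR0 := norm_nonneg R
  have hκ0 : 0 < κ := by linarith
  have h1 : ‖F‖ * ‖V‖ ≤ κ / 2 * ‖F‖ ^ 2 + ‖V‖ ^ 2 / m := by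
    have h2 : ‖V‖ ^ 2 / (2 * κ) ≤ ‖V‖ ^ 2 / m := by
      apply div_le_div_of_nonneg_left (sq_nonneg _) hm0
      linarith
    have h3 : ‖F‖ * ‖V‖ ≤ κ / 2 * ‖F‖ ^ 2 + ‖V‖ ^ 2 / (2 * κ) := by
      have e : κ / 2 * ‖F‖ ^ 2 + ‖V‖ ^ 2 / (2 * κ) - ‖F‖ * ‖V‖ =
          (κ * ‖F‖ - ‖V‖) ^ 2 / (2 * κ) := by
        field_simp
        ring
      have : 0 ≤ (κ * ‖F‖ - ‖V‖) ^ 2 / (2 * κ) := by positivity
      linarith
    linarith
  have h2 : κ * ‖R‖ ^ 2 ≤ 2.5 * (‖V‖ ^ 2 / m) := by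
    have h3 : κ * ‖R‖ ^ 2 ≤ m * ‖R‖ ^ 2 := mul_le_mul_of_nonneg_right hκ2 (sq_nonneg _)
    have h4 : (2 * m * ‖R‖) ^ 2 ≤ (π * ‖V‖) ^ 2 := pow_le_pow_left₀ (by positivity) hVR 2
    have h5 : m * ‖R‖ ^ 2 ≤ 2.5 * (‖V‖ ^ 2 / m) := by
      rw [mul_div_assoc', le_div_iff₀ hm0]
      have h6 : π ^ 2 * ‖V‖ ^ 2 ≤ 10 * ‖V‖ ^ 2 := mul_le_mul_of_nonneg_right hπ10 (sq_nonneg _)
      nlinarith
    linarith
  have hfin : -(1 / 2) * (1 - 5 / m) * ‖V‖ ^ 2 = -(1 / 2) * ‖V‖ ^ 2 + 2.5 * (‖V‖ ^ 2 / m) := by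
    ring
  rw [hfin]
  have h7 : 0 ≤ ‖V‖ ^ 2 / m := by positivity
  have h8 : 0 ≤ ‖R‖ ^ 2 := sq_nonneg _
  linarith

end Pool.Agent.EHP
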