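import Pool.Agent.EHP.Stmts5
import Pool.Agent.EHP.Base

/-!
# The shape of the maximizers: `Stmt_MODES`
-/

open Finset
open scoped Real ComplexConjugate

namespace Pool.Agent.EHP

namespace MODES

theorem norm_dr_le (n : ℕ) (f : ℤ → ℝ) (k : ℤ) :
    ‖dr n f k‖ ≤ mn n (fun j => |f j|) := by
  unfold dr dft mn
  rw [norm_div, Complex.norm_natCast]
  gcongr
  refine (norm_sum_le _ _).trans (le_of_eq ?_)
  apply Finset.sum_congr rfl
  intro j _
  rw [norm_mul]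
  have : ‖Complex.exp (-((2 * π * (k : ℝ) * (j : ℝ) / (n : ℝ) : ℝ) : ℂ) * Complex.I)‖ = 1 := by
    rw [← Complex.ofReal_neg]
    exact Complex.norm_exp_ofReal_mul_I _
  simp only [Complex.norm_real, Real.norm_eq_abs]
  rw [this, mul_one]

theorem mn_mono {n : ℕ} {f g : ℤ → ℝ} (h : ∀ j, f j ≤ g j) : mn n f ≤ mn n g := by
  unfold mn
  gcongr with j _
  exact h _

theorem mn_const {n : ℕ} (hn : 1 ≤ n) (a : ℝ) : mn n (fun _ => a) = a := by
  unfold mn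
  have : (0 : ℝ) < n := by exact_mod_cast hn
  rw [Finset.sum_const, Finset.card_range, nsmul_eq_mul]
  field_simp

theorem mn_lin (n : ℕ) (f g : ℤ → ℝ) (a b : ℝ) :
    mn n (fun j => a * f j + b * g j) = a * mn n f + b * mn n g := by
  unfold mn
  rw [← mul_div_assoc, ← mul_div_assoc, ← add_div, Finset.mul_sum, Finset.mul_sum,
    ← Finset.sum_add_distrib]

theorem dr_lin (n : ℕ) (f g : ℤ → ℝ) (a b : ℝ) (k : ℤ) :
    dr n (fun j => a * f j + b * g j) k = a * dr n f k + b * dr n g k := by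
  unfold dr dft
  rw [← mul_div_assoc, ← mul_div_assoc, ← add_div, Finset.mul_sum, Finset.mul_sum,
    ← Finset.sum_add_distrib]
  congr 1
  apply Finset.sum_congr rfl
  intro j _
  push_cast
  ring

theorem dr_diff_le (n : ℕ) (f g : ℤ → ℝ) (k : ℤ) :
    ‖dr n f k - dr n g k‖ ≤ mn n (fun j => |f j - g j|) := by
  have h := norm_dr_le n (fun j => f j - g j) k
  have e : dr n (fun j => f j - g j) k = dr n f k - dr n g k := by
    have e1 : (fun j => f j - g j) = fun j => 1 * f j + (-1) * g j := by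
      funext j
      ring
    rw [e1, dr_lin]
    push_cast
    ring
  rw [← e]
  exact h

theorem dr_sq_le {n : ℕ} (hn : 1 ≤ n) (f : ℤ → ℝ) (k : ℤ) :
    ‖dr n f k‖ ^ 2 ≤ mn n (fun j => f j ^ 2) := by
  have hn0 : (0 : ℝ) < n := by exact_mod_cast hn
  have h1 : ‖dr n f k‖ ≤ (∑ j ∈ range n, |f (j : ℤ)|) / n := norm_dr_le n f k
  have h2 : (∑ j ∈ range n, |f (j : ℤ)|) ^ 2 ≤ n * ∑ j ∈ range n, f (j : ℤ) ^ 2 := by
    have := sq_sum_le_card_mul_sum_sq (s := range n) (f := fun j : ℕ => |f (j : ℤ)|)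
    rw [Finset.card_range] at this
    simpa only [sq_abs] using this
  calc ‖dr n f k‖ ^ 2 ≤ ((∑ j ∈ range n, |f (j : ℤ)|) / n) ^ 2 :=
        pow_le_pow_left₀ (norm_nonneg _) h1 2
    _ = (∑ j ∈ range n, |f (j : ℤ)|) ^ 2 / n ^ 2 := by rw [div_pow]
    _ ≤ (n * ∑ j ∈ range n, f (j : ℤ) ^ 2) / n ^ 2 := by gcongr
    _ = mn n (fun j => f j ^ 2) := by
        unfold mn
        field_simp

/-! ### periodicity -/

theorem Φ_per {n : ℕ} (hn : 1 ≤ n) (c : Cfg n) (j : ℤ) : c.Φ (j + n) = c.Φ j := by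
  unfold Cfg.Φ
  rw [c.φ_add (by omega)]

theorem R_per {n : ℕ} (c : Cfg n) (j : ℤ) : c.R (j + n) = c.R j := by
  unfold Cfg.R
  rw [c.ρ_add]

theorem uu_per {N : ℕ} (hN : 1 ≤ N) (c : Cfg (2 * N)) (j : ℤ) :
    uu N c (j + (2 * N : ℕ)) = uu N c j := by
  unfold uu
  have : j + ((2 * N : ℕ) : ℤ) + N = (j + N) + ((2 * N : ℕ) : ℤ) := by ring
  rw [this, Φ_per (by omega), Φ_per (by omega)]

theorem pp_per {N : ℕ} {c : Cfg (2 * N)} {L : ℤ → ℤ} (hL : Piw (2 * N) c L) (j : ℤ) :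
    pp N L (j + (2 * N : ℕ)) = pp N L j := by
  unfold pp
  rw [hL.piv.add]
  congr 2
  ring

theorem pT_per {p : ℤ → ℝ} {n : ℕ} (h : ∀ j, p (j + n) = p j) (j : ℤ) :
    pT p (j + n) = pT p j := by
  unfold pT
  rw [h]

theorem pO_per {p : ℤ → ℝ} {N : ℕ} (h : ∀ j, p (j + (2 * N : ℕ)) = p j) (j : ℤ) :
    pO N p (j + (2 * N : ℕ)) = pO N p j := by
  unfold pO
  have : j + ((2 * N : ℕ) : ℤ) + N = (j + N) + ((2 * N : ℕ) : ℤ) := by ring
  rw [this, pT_per h, pT_per h]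

/-! ### truncation -/

theorem pT_val (N : ℕ) (L : ℤ → ℤ) (j : ℤ) :
    pT (pp N L) j = 1 / 2 ∨ pT (pp N L) j = -(1 / 2) := by
  unfold pT pp
  rcases le_or_gt (L j - j - N) 0 with h | h
  · left
    have h1 : ((L j - j - N : ℤ) : ℝ) ≤ 0 := by exact_mod_cast h
    rw [min_eq_right (by linarith), max_eq_left (by norm_num)]
  · right
    have h1 : (1 : ℝ) ≤ ((L j - j - N : ℤ) : ℝ) := by exact_mod_cast h
    rw [min_eq_left (by linarith), max_eq_right (by linarith)]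

theorem pO_bd (N : ℕ) (L : ℤ → ℤ) (j : ℤ) : |pO N (pp N L) j| ≤ 1 / 2 := by
  unfold pO
  rcases pT_val N L j with h | h <;> rcases pT_val N L (j + N) with h' | h' <;> rw [h, h'] <;>
    norm_num [abs_le]

theorem pO_tri (N : ℕ) (L : ℤ → ℤ) (j : ℤ) {s : ℝ} (hs : s = 1 / 2 ∨ s = -(1 / 2)) :
    |pT (pp N L) j - pO N (pp N L) j| ≤ 2 * |pO N (pp N L) j - s| := by
  unfold pO
  rcases pT_val N L j with h | h <;> rcases pT_val N L (j + N) with h' | h' <;> rw [h, h'] <;>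
    rcases hs with hs | hs <;> rw [hs] <;> norm_num [abs_of_pos, abs_of_neg]

theorem sqw_val (x : ℝ) : sqw x = 1 / 2 ∨ sqw x = -(1 / 2) := by
  unfold sqw
  split_ifs
  · left; rfl
  · right; rfl

/-! ### the first mode -/

/-- for odd `k` the coefficient of `u` is that of `-Φ / π` -/
theorem dr_uu (hD : Stmt_DFTS) {N : ℕ} (hN : 1 ≤ N) (c : Cfg (2 * N)) (k : ℤ) (hk : Odd k) :
    dr (2 * N) c.Φ k = -(π : ℂ) * dr (2 * N) (uu N c) k := by
  have hΦper : ∀ j, c.Φ (j + (2 * N : ℕ)) = c.Φ j := fun j => Φ_per (by omega) c j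
  have e1 := (hD (2 * N) c.Φ (by omega) hΦper k N).1
  have hexp : Complex.exp ((2 * π * (k : ℝ) * ((N : ℤ) : ℝ) / ((2 * N : ℕ) : ℝ) : ℝ) * Complex.I) =
      -1 := by
    have hN0 : (N : ℝ) ≠ 0 := by
      have : N ≠ 0 := by omega
      exact_mod_cast this
    have e2 : (2 * π * (k : ℝ) * ((N : ℤ) : ℝ) / ((2 * N : ℕ) : ℝ) : ℝ) = π * k := by
      push_cast
      field_simp
    rw [e2]
    obtain ⟨m, hm⟩ := hk
    rw [hm]
    have e3 : ((π * ((2 * m + 1 : ℤ) : ℝ) : ℝ) : ℂ) * Complex.I =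
        m * (2 * π * Complex.I) + π * Complex.I := by
      push_cast
      ring
    rw [e3, Complex.exp_add, Complex.exp_int_mul_two_pi_mul_I, Complex.exp_pi_mul_I, one_mul]
  rw [hexp] at e1
  have e4 : dr (2 * N) (uu N c) k = dr (2 * N) (fun j => (-(1 / (2 * π))) * c.Φ j +
      (1 / (2 * π)) * (fun i => c.Φ (i + N)) j) k := by
    congr 1
    funext j
    unfold uu
    ring
  rw [e4, dr_lin, e1]
  have hπ : (π : ℂ) ≠ 0 := by exact_mod_cast Real.pi_ne_zero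
  push_cast
  field_simp
  ring

theorem exp_sum_zero {n : ℕ} (hn : 2 ≤ n) :
    ∑ j ∈ range n, Complex.exp ((2 * π * ((j : ℤ) : ℝ) / n : ℝ) * Complex.I) = 0 := by
  have h := (Complex.isPrimitiveRoot_exp n (by omega)).geom_sum_eq_zero (by omega)
  rw [← h]
  apply Finset.sum_congr rfl
  intro j _
  rw [← Complex.exp_nat_mul]
  congr 1
  push_cast
  ring

theorem z_eq {n : ℕ} (c : Cfg n) (j : ℤ) :
    c.z j = Complex.exp ((2 * π * (j : ℝ) / n : ℝ) * Complex.I) *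
      Complex.exp ((c.ρ j : ℂ) + (c.φ j : ℂ) * Complex.I) := by
  unfold Cfg.z Cfg.φ
  rw [← Complex.exp_add]
  congr 1
  push_cast
  ring

theorem cent_norm {n : ℕ} (hn : 2 ≤ n) {ε : ℝ} (hε : ε ≤ 1 / 2) (c : Cfg n)
    (hcent : ∑ j ∈ range n, c.z (j : ℤ) = 0) (hρ : ∀ j, |c.ρ j| ≤ ε) (hφ : ∀ j, |c.φ j| ≤ ε) :
    ‖∑ j ∈ range n, Complex.exp ((2 * π * ((j : ℤ) : ℝ) / n : ℝ) * Complex.I) *
      ((c.ρ j : ℂ) + (c.φ j : ℂ) * Complex.I)‖ ≤ ∑ j ∈ range n, (c.ρ j ^ 2 + c.φ j ^ 2) := by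
  have h1 : ∑ j ∈ range n, Complex.exp ((2 * π * ((j : ℤ) : ℝ) / n : ℝ) * Complex.I) *
      ((c.ρ j : ℂ) + (c.φ j : ℂ) * Complex.I) =
      -∑ j ∈ range n, Complex.exp ((2 * π * ((j : ℤ) : ℝ) / n : ℝ) * Complex.I) *
        (Complex.exp ((c.ρ j : ℂ) + (c.φ j : ℂ) * Complex.I) - 1 -
          ((c.ρ j : ℂ) + (c.φ j : ℂ) * Complex.I)) := by
    have h2 := hcent
    have h3 := exp_sum_zero hn
    simp only [z_eq] at h2
    have h4 : ∑ j ∈ range n, Complex.exp ((2 * π * ((j : ℤ) : ℝ) / n : ℝ) * Complex.I) *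
        (Complex.exp ((c.ρ j : ℂ) + (c.φ j : ℂ) * Complex.I) - 1 -
          ((c.ρ j : ℂ) + (c.φ j : ℂ) * Complex.I)) =
        ∑ j ∈ range n, Complex.exp ((2 * π * ((j : ℤ) : ℝ) / n : ℝ) * Complex.I) *
          Complex.exp ((c.ρ j : ℂ) + (c.φ j : ℂ) * Complex.I) -
        ∑ j ∈ range n, Complex.exp ((2 * π * ((j : ℤ) : ℝ) / n : ℝ) * Complex.I) -
        ∑ j ∈ range n, Complex.exp ((2 * π * ((j : ℤ) : ℝ) / n : ℝ) * Complex.I) *
          ((c.ρ j : ℂ) + (c.φ j : ℂ) * Complex.I) := by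
      rw [← Finset.sum_sub_distrib, ← Finset.sum_sub_distrib]
      apply Finset.sum_congr rfl
      intro j _
      ring
    rw [h4, h2, h3]
    ring
  rw [h1, norm_neg]
  refine (norm_sum_le _ _).trans (Finset.sum_le_sum fun j _ => ?_)
  rw [norm_mul, Complex.norm_exp_ofReal_mul_I, one_mul]
  have hr := hρ j
  have hp := hφ j
  have h5 : ‖(c.ρ j : ℂ) + (c.φ j : ℂ) * Complex.I‖ ≤ 1 := by
    refine (norm_add_le _ _).trans ?_
    rw [norm_mul, Complex.norm_I, mul_one, Complex.norm_real, Complex.norm_real,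
      Real.norm_eq_abs, Real.norm_eq_abs]
    linarith
  refine (Complex.norm_exp_sub_one_sub_id_le h5).trans (le_of_eq ?_)
  rw [← Complex.normSq_eq_norm_sq, Complex.normSq_add_mul_I]

/-- the first modes of `R` and `Φ` are tied by the centroid -/
theorem cent_mode {n : ℕ} (hn : 2 ≤ n) {K : ℝ} (c : Cfg n) (hc : Reg n K c) (hK : K / n ≤ 1 / 2) :
    ‖dr n c.R (-1) + Complex.I * dr n c.Φ (-1)‖ ≤ 2 * K ^ 2 / n := by
  have hn0 : (0 : ℝ) < n := by
    have : 0 < n := by omega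
    exact_mod_cast this
  have hnC : (n : ℂ) ≠ 0 := by
    have : n ≠ 0 := by omega
    exact_mod_cast this
  have h1 := cent_norm hn hK c hc.cent hc.hρ hc.hφ
  have e1 : dr n c.R (-1) + Complex.I * dr n c.Φ (-1) =
      ∑ j ∈ range n, Complex.exp ((2 * π * ((j : ℤ) : ℝ) / n : ℝ) * Complex.I) *
      ((c.ρ j : ℂ) + (c.φ j : ℂ) * Complex.I) := by
    unfold dr dft
    rw [← mul_div_assoc, ← add_div, Finset.mul_sum, ← Finset.sum_add_distrib, Finset.sum_div]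
    apply Finset.sum_congr rfl
    intro j _
    have e2 : Complex.exp (-((2 * π * (((-1 : ℤ)) : ℝ) * (j : ℝ) / (n : ℝ) : ℝ) : ℂ) * Complex.I) =
        Complex.exp ((2 * π * ((j : ℤ) : ℝ) / n : ℝ) * Complex.I) := by
      congr 1
      push_cast
      ring
    rw [e2]
    unfold Cfg.R Cfg.Φ
    push_cast
    field_simp
  rw [e1]
  refine h1.trans ?_
  have h2 : ∀ j ∈ range n, c.ρ (j : ℤ) ^ 2 + c.φ (j : ℤ) ^ 2 ≤ 2 * (K / n) ^ 2 := by
    intro j _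
    have a1 := pow_le_pow_left₀ (abs_nonneg _) (hc.hρ j) 2
    have a2 := pow_le_pow_left₀ (abs_nonneg _) (hc.hφ j) 2
    rw [sq_abs] at a1 a2
    linarith
  refine (Finset.sum_le_sum h2).trans (le_of_eq ?_)
  rw [Finset.sum_const, Finset.card_range, nsmul_eq_mul]
  field_simp

theorem DR_mode (hD : Stmt_DFTS) {n : ℕ} (hn : 7 ≤ n) (c : Cfg n) :
    ‖dr n c.DR (-1) + Complex.I * dr n c.R (-1)‖ ≤ 2 * π / n * ‖dr n c.R (-1)‖ := by
  have hn0 : (0 : ℝ) < n := by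
    have : 0 < n := by omega
    exact_mod_cast this
  have hn7 : (7 : ℝ) ≤ n := by exact_mod_cast hn
  have hπ := Real.pi_pos
  have hπ1 := Real.pi_lt_d2
  have e1 := (hD n c.R (by omega) (R_per c) (-1) 1).1
  have e2 : dr n c.DR (-1) = dr n (fun j => (n / (2 * π)) * (fun i => c.R (i + 1)) j +
      (-(n / (2 * π))) * c.R j) (-1) := by
    congr 1
    funext j
    unfold Cfg.DR
    ring
  rw [e2, dr_lin, e1]
  have e3 : ((n / (2 * π) : ℝ) : ℂ) * (Complex.exp ((2 * π * ((-1 : ℤ) : ℝ) * ((1 : ℤ) : ℝ) / n : ℝ) *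
      Complex.I) * dr n c.R (-1)) + ((-(n / (2 * π)) : ℝ) : ℂ) * dr n c.R (-1) +
      Complex.I * dr n c.R (-1) =
      ((n / (2 * π) : ℝ) : ℂ) * (Complex.exp (((-(2 * π / n) : ℝ) : ℂ) * Complex.I) - 1 -
        ((-(2 * π / n) : ℝ) : ℂ) * Complex.I) * dr n c.R (-1) := by
    have e4 : (2 * π * ((-1 : ℤ) : ℝ) * ((1 : ℤ) : ℝ) / n : ℝ) = -(2 * π / n) := by
      push_cast
      ring
    rw [e4]
    have hnC : (n : ℂ) ≠ 0 := by
      have : n ≠ 0 := by omega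
      exact_mod_cast this
    have hπC : (π : ℂ) ≠ 0 := by exact_mod_cast Real.pi_ne_zero
    push_cast
    field_simp
    ring
  rw [e3, norm_mul]
  apply mul_le_mul_of_nonneg_right _ (norm_nonneg _)
  have hh : ‖((-(2 * π / n) : ℝ) : ℂ) * Complex.I‖ = 2 * π / n := by
    rw [norm_mul, Complex.norm_I, mul_one, Complex.norm_real, Real.norm_eq_abs, abs_neg,
      abs_of_pos (by positivity)]
  have h1 : ‖((-(2 * π / n) : ℝ) : ℂ) * Complex.I‖ ≤ 1 := by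
    rw [hh, div_le_one hn0]
    linarith
  have h2 := Complex.norm_exp_sub_one_sub_id_le h1
  rw [hh] at h2
  rw [norm_mul, Complex.norm_real, Real.norm_eq_abs, abs_of_pos (by positivity)]
  calc (n : ℝ) / (2 * π) * ‖Complex.exp (((-(2 * π / n) : ℝ) : ℂ) * Complex.I) - 1 -
        ((-(2 * π / n) : ℝ) : ℂ) * Complex.I‖ ≤ (n : ℝ) / (2 * π) * (2 * π / n) ^ 2 := by gcongr
    _ = 2 * π / n := by field_simp

/-- the first mode of `u` is half of that of `p` -/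
theorem first_mode (hDR : Stmt_DRREL) (hD : Stmt_DFTS) (K ε : ℝ) (hε : 0 < ε) :
    ∃ n₀ : ℕ, ∀ N : ℕ, n₀ ≤ 2 * N → ∀ c : Cfg (2 * N), Reg (2 * N) K c → ∀ L : ℤ → ℤ,
      Piw (2 * N) c L → ‖dr (2 * N) (uu N c) (-1) - dr (2 * N) (pp N L) (-1) / 2‖ ≤ ε := by
  obtain ⟨C, n₁, hC, h1⟩ := hDR K
  obtain ⟨n₂, hn₂⟩ : ∃ n₂ : ℕ, 2 * |K| + (2 * π * |K| + 2 * K ^ 2) / (π * ε) +
    C / (π * ε) ^ 2 + 1 < n₂ := exists_nat_gt _
  refine ⟨n₁ + n₂ + 8, ?_⟩
  intro N hN c hc L hL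
  have hπ := Real.pi_pos
  obtain ⟨-, -, -, g4⟩ := h1 N (by omega) c hc L hL
  obtain ⟨x, hx⟩ : ∃ x : ℝ, x = ((2 * N : ℕ) : ℝ) := ⟨_, rfl⟩
  have hxn : (n₂ : ℝ) ≤ x := by
    rw [hx]
    have : n₂ ≤ 2 * N := by omega
    exact_mod_cast this
  have hA : 0 ≤ (2 * π * |K| + 2 * K ^ 2) / (π * ε) := by positivity
  have hB : 0 ≤ C / (π * ε) ^ 2 := by positivity
  have hK0 := abs_nonneg K
  have hx0 : 0 < x := by linarith
  have hxK : K / x ≤ 1 / 2 := by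
    rw [div_le_iff₀ hx0]
    have := le_abs_self K
    linarith
  have hc1 := cent_mode (by omega : 2 ≤ 2 * N) c hc (by rw [← hx]; exact hxK)
  have hc2 := DR_mode hD (by omega : 7 ≤ 2 * N) c
  rw [← hx] at hc1 hc2 g4
  have hR : ‖dr (2 * N) c.R (-1)‖ ≤ |K| := by
    refine (norm_dr_le _ _ _).trans ?_
    refine (mn_mono (g := fun _ => |K|) fun j => ?_).trans (le_of_eq (mn_const (by omega) _))
    have h3 := hc.hρ j
    unfold Cfg.R
    rw [← hx] at h3 ⊢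
    rw [abs_mul, abs_of_pos hx0]
    calc x * |c.ρ j| ≤ x * (K / x) := by gcongr
      _ = K := by field_simp
      _ ≤ |K| := le_abs_self K
  -- the error of DR
  have e1 : dr (2 * N) (fun j => c.DR j - π * (pp N L j - uu N c j)) (-1) =
      dr (2 * N) c.DR (-1) - (π : ℂ) * (dr (2 * N) (pp N L) (-1) - dr (2 * N) (uu N c) (-1)) := by
    have e1 : (fun j => c.DR j - π * (pp N L j - uu N c j)) =
        fun j => 1 * c.DR j + (-π) * (fun i => 1 * pp N L i + (-1) * uu N c i) j := by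
      funext j
      ring
    rw [e1, dr_lin, dr_lin]
    push_cast
    ring
  have h5 := (dr_sq_le (by omega : 1 ≤ 2 * N)
    (fun j => c.DR j - π * (pp N L j - uu N c j)) (-1)).trans g4
  rw [e1] at h5
  have h6 : ‖dr (2 * N) c.DR (-1) - (π : ℂ) * (dr (2 * N) (pp N L) (-1) -
      dr (2 * N) (uu N c) (-1))‖ ≤ π * ε := by
    have h7 : C / x ≤ (π * ε) ^ 2 := by
      rw [div_le_iff₀ hx0]
      have h8 : C / (π * ε) ^ 2 ≤ x := by linarith
      rw [div_le_iff₀ (by positivity)] at h8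
      linarith
    exact (pow_le_pow_iff_left₀ (norm_nonneg _) (by positivity) (by norm_num)).1 (h5.trans h7)
  have hu := dr_uu hD (by omega : 1 ≤ N) c (-1) (by decide)
  obtain ⟨V, hV⟩ : ∃ V : ℂ, V = dr (2 * N) c.DR (-1) := ⟨_, rfl⟩
  obtain ⟨F, hF⟩ : ∃ F : ℂ, F = dr (2 * N) c.Φ (-1) := ⟨_, rfl⟩
  obtain ⟨R, hRd⟩ : ∃ R : ℂ, R = dr (2 * N) c.R (-1) := ⟨_, rfl⟩
  obtain ⟨P, hP⟩ : ∃ P : ℂ, P = dr (2 * N) (pp N L) (-1) := ⟨_, rfl⟩
  obtain ⟨U, hU⟩ : ∃ U : ℂ, U = dr (2 * N) (uu N c) (-1) := ⟨_, rfl⟩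
  rw [← hV, ← hP, ← hU] at h6
  rw [← hV, ← hRd] at hc2
  rw [← hF, ← hRd] at hc1
  rw [← hF, ← hU] at hu
  rw [← hRd] at hR
  rw [← hU, ← hP]
  have hVF : ‖V + F‖ ≤ π * ε := by
    have e2 : V + F = (V + Complex.I * R) - Complex.I * (R + Complex.I * F) := by
      have := Complex.I_mul_I
      linear_combination F * this
    rw [e2]
    refine (norm_sub_le _ _).trans ?_
    rw [norm_mul, Complex.norm_I, one_mul]
    have h9 : 2 * π / x * ‖R‖ ≤ 2 * π / x * |K| := by gcongr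
    have h10 : (2 * π * |K| + 2 * K ^ 2) / (π * ε) ≤ x := by linarith
    rw [div_le_iff₀ (by positivity)] at h10
    have h11 : 2 * π / x * |K| + 2 * K ^ 2 / x = (2 * π * |K| + 2 * K ^ 2) / x := by ring
    have h12 : (2 * π * |K| + 2 * K ^ 2) / x ≤ π * ε := by
      rw [div_le_iff₀ hx0]
      linarith
    linarith
  have e3 : (2 * π : ℂ) * (U - P / 2) = (V - (π : ℂ) * (P - U)) - (V + F) := by
    rw [hu]
    ring
  have h13 : ‖(2 * π : ℂ) * (U - P / 2)‖ ≤ 2 * π * ε := by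
    rw [e3]
    refine (norm_sub_le _ _).trans ?_
    linarith
  have h14 : ‖(2 * π : ℂ) * (U - P / 2)‖ = 2 * π * ‖U - P / 2‖ := by
    rw [norm_mul, norm_mul, Complex.norm_real, Real.norm_eq_abs, abs_of_pos hπ]
    norm_num
  rw [h14] at h13
  exact le_of_mul_le_mul_left h13 (by positivity)

end MODES

open MODES in
theorem m_MODES : Stmt_CLOSE → Stmt_SHAPE → Stmt_PSTAR → Stmt_DRREL → Stmt_DFTS → Stmt_MODES := by
  intro hCL hSH hPS hDR hD K M ε hM hε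
  obtain ⟨δ, hδ, n₂, hS⟩ := hSH (ε / 12) (by positivity)
  obtain ⟨a, ha⟩ : ∃ a : ℝ, a = min (min (ε / 4) (ε ^ 2 / 2)) δ := ⟨_, rfl⟩
  have ha0 : 0 < a := by rw [ha]; positivity
  have ha1 : a ≤ ε / 4 := by rw [ha]; exact (min_le_left _ _).trans (min_le_left _ _)
  have ha2 : a ≤ ε ^ 2 / 2 := by rw [ha]; exact (min_le_left _ _).trans (min_le_right _ _)
  have ha3 : a ≤ δ := by rw [ha]; exact min_le_right _ _
  obtain ⟨n₁, hC⟩ := hCL K M a hM ha0
  have hPS' : ∀ k : ℤ, ∃ n₀ : ℕ, ∀ n ≥ n₀, ∀ x₀ : ℝ,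
      ‖dr n (fun j => sqw (2 * π * j / n - x₀)) k -
        Complex.exp (-(k * x₀ : ℝ) * Complex.I) * pst k‖ ≤ ε / 4 :=
    fun k => hPS k (ε / 4) (by positivity)
  choose nk hnk using hPS'
  obtain ⟨n₃, hn₃⟩ : ∃ n₃ : ℕ, n₃ = (Finset.Icc (-(M : ℤ)) M).sup nk := ⟨_, rfl⟩
  obtain ⟨n₄, hF⟩ := first_mode hDR hD K (ε / 2) (by positivity)
  refine ⟨n₁ + n₂ + n₃ + n₄ + 2, ?_⟩
  intro N hN c hc L hL
  have hN1 : 1 ≤ N := by omega
  obtain ⟨c1, c2, c3⟩ := hC N (by omega) c hc L hL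
  have hper := pp_per hL
  obtain ⟨x₀, hx₀⟩ := hS (2 * N) (by omega) (pO N (pp N L)) (pO_per hper) (pO_bd N L)
    (c2.trans ha3)
  refine ⟨x₀, ?_⟩
  -- (1)
  have g1 : mn (2 * N) (fun j => |pp N L j - sqw (2 * π * j / (2 * N : ℕ) - x₀)|) ≤ ε / 2 := by
    have h1 : mn (2 * N) (fun j => |pp N L j - sqw (2 * π * j / (2 * N : ℕ) - x₀)|) ≤
        mn (2 * N) (fun j => 1 * (fun i => |pp N L i - pT (pp N L) i|) j +
          3 * (fun i : ℤ => |pO N (pp N L) i - sqw (2 * π * i / (2 * N : ℕ) - x₀)|) j) := by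
      apply mn_mono
      intro j
      have t1 := abs_sub_le (pp N L j) (pT (pp N L) j) (sqw (2 * π * j / (2 * N : ℕ) - x₀))
      have t2 := abs_sub_le (pT (pp N L) j) (pO N (pp N L) j)
        (sqw (2 * π * j / (2 * N : ℕ) - x₀))
      have t3 := pO_tri N L j (sqw_val (2 * π * j / (2 * N : ℕ) - x₀))
      show _ ≤ 1 * |pp N L j - pT (pp N L) j| +
          3 * |pO N (pp N L) j - sqw (2 * π * j / (2 * N : ℕ) - x₀)|
      linarith
    rw [mn_lin] at h1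
    linarith
  -- (2)
  have g2 : ∀ k : ℤ, |k| ≤ M →
      ‖dr (2 * N) (pp N L) k - Complex.exp (-(k * x₀ : ℝ) * Complex.I) * pst k‖ ≤ 3 * ε / 4 := by
    intro k hk
    have h1 : nk k ≤ n₃ := by
      rw [hn₃]
      apply Finset.le_sup (f := nk)
      rw [Finset.mem_Icc]
      exact abs_le.1 hk
    have h2 := hnk k (2 * N) (by omega) x₀
    have h3 := dr_diff_le (2 * N) (pp N L) (fun j => sqw (2 * π * j / (2 * N : ℕ) - x₀)) k
    have e1 : dr (2 * N) (pp N L) k - Complex.exp (-(k * x₀ : ℝ) * Complex.I) * pst k =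
        (dr (2 * N) (pp N L) k - dr (2 * N) (fun j => sqw (2 * π * j / (2 * N : ℕ) - x₀)) k) +
        (dr (2 * N) (fun j => sqw (2 * π * j / (2 * N : ℕ) - x₀)) k -
          Complex.exp (-(k * x₀ : ℝ) * Complex.I) * pst k) := by ring
    rw [e1]
    refine (norm_add_le _ _).trans ?_
    linarith
  refine ⟨by linarith, fun k hk _ => (g2 k hk).trans (by linarith), ?_⟩
  -- (3)
  have hup := uu_per hN1 c
  have cu : ∀ k : ℤ, dr (2 * N) (uu N c) (-k) = conj (dr (2 * N) (uu N c) k) :=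
    fun k => (hD (2 * N) (uu N c) (by omega) hup k 0).2.1
  have cp : ∀ k : ℤ, dr (2 * N) (pp N L) (-k) = conj (dr (2 * N) (pp N L) k) :=
    fun k => (hD (2 * N) (pp N L) (by omega) hper k 0).2.1
  -- the modes 3 ≤ |k|
  have g3 : ∀ k : ℕ, k ∈ odds M →
      ‖dr (2 * N) (uu N c) k + dr (2 * N) (pp N L) k / (((k : ℝ) ^ 2 - 1 : ℝ) : ℂ)‖ ≤ ε / 2 := by
    intro k hk
    have h1 : ‖dr (2 * N) (uu N c) k + dr (2 * N) (pp N L) k /
        (((k : ℝ) ^ 2 - 1 : ℝ) : ℂ)‖ ^ 2 ≤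
        ∑ k ∈ odds M, ‖dr (2 * N) (uu N c) k + dr (2 * N) (pp N L) k /
          (((k : ℝ) ^ 2 - 1 : ℝ) : ℂ)‖ ^ 2 :=
      Finset.single_le_sum (f := fun k : ℕ => ‖dr (2 * N) (uu N c) k + dr (2 * N) (pp N L) k /
          (((k : ℝ) ^ 2 - 1 : ℝ) : ℂ)‖ ^ 2) (fun i _ => by positivity) hk
    unfold UM at c3
    have h2 : ‖dr (2 * N) (uu N c) k + dr (2 * N) (pp N L) k /
        (((k : ℝ) ^ 2 - 1 : ℝ) : ℂ)‖ ^ 2 ≤ (ε / 2) ^ 2 := by
      have : (ε / 2) ^ 2 = ε ^ 2 / 4 := by ring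
      rw [this]
      linarith
    exact (pow_le_pow_iff_left₀ (norm_nonneg _) (by positivity) (by norm_num)).1 h2
  have g4 : ∀ k : ℤ, 3 ≤ |k| → |k| ≤ M → k % 2 = 1 →
      ‖dr (2 * N) (uu N c) k + dr (2 * N) (pp N L) k / (((k : ℝ) ^ 2 - 1 : ℝ) : ℂ)‖ ≤ ε / 2 := by
    intro k hk3 hkM hk2
    have hmem : k.natAbs ∈ odds M := by
      unfold odds
      rw [Finset.mem_filter, Finset.mem_range]
      rw [Int.abs_eq_natAbs] at hk3 hkM
      omega
    have h1 := g3 k.natAbs hmem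
    rcases le_or_gt 0 k with h0 | h0
    · have e1 : ((k.natAbs : ℕ) : ℤ) = k := by omega
      have e2 : ((k.natAbs : ℕ) : ℝ) = (k : ℝ) := by
        have : (((k.natAbs : ℕ) : ℤ) : ℝ) = (k : ℝ) := by rw [e1]
        simpa using this
      rw [e1, e2] at h1
      exact h1
    · have e1 : ((k.natAbs : ℕ) : ℤ) = -k := by omega
      have e2 : ((k.natAbs : ℕ) : ℝ) = -(k : ℝ) := by
        have : (((k.natAbs : ℕ) : ℤ) : ℝ) = ((-k : ℤ) : ℝ) := by rw [e1]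
        rw [Int.cast_natCast, Int.cast_neg] at this
        exact this
      rw [e1, e2, cu, cp, neg_sq] at h1
      have e3 : conj (dr (2 * N) (uu N c) k) + conj (dr (2 * N) (pp N L) k) /
          (((k : ℝ) ^ 2 - 1 : ℝ) : ℂ) =
          conj (dr (2 * N) (uu N c) k + dr (2 * N) (pp N L) k /
            (((k : ℝ) ^ 2 - 1 : ℝ) : ℂ)) := by
        rw [map_add, map_div₀, Complex.conj_ofReal]
      rw [e3, Complex.norm_conj] at h1
      exact h1
  -- the first mode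
  have g5 : ‖dr (2 * N) (uu N c) (-1)‖ ≤ ε := by
    have h1 := hF N (by omega) c hc L hL
    have h2 := g2 (-1) (by
      have : (5 : ℤ) ≤ M := by exact_mod_cast hM
      simp
      omega)
    have e1 : pst (-1) = 0 := by
      unfold pst
      rw [if_neg (by decide)]
    rw [e1, mul_zero, sub_zero] at h2
    have e2 : dr (2 * N) (uu N c) (-1) = (dr (2 * N) (uu N c) (-1) -
        dr (2 * N) (pp N L) (-1) / 2) + dr (2 * N) (pp N L) (-1) / 2 := by ring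
    rw [e2]
    refine (norm_add_le _ _).trans ?_
    have e3 : ‖dr (2 * N) (pp N L) (-1) / 2‖ = ‖dr (2 * N) (pp N L) (-1)‖ / 2 := by
      rw [norm_div]
      norm_num
    rw [e3]
    linarith
  have g6 : ‖dr (2 * N) (uu N c) 1‖ ≤ ε := by
    have h1 := cu 1
    rw [h1, Complex.norm_conj] at g5
    exact g5
  intro k hkM hk2
  by_cases hk3 : 3 ≤ |k|
  · have h1 := g4 k hk3 hkM hk2
    have h2 := g2 k hkM
    have hq : (8 : ℝ) ≤ (k : ℝ) ^ 2 - 1 := by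
      have h3 : (3 : ℝ) ≤ |(k : ℝ)| := by
        have : ((3 : ℤ) : ℝ) ≤ ((|k| : ℤ) : ℝ) := by exact_mod_cast hk3
        push_cast at this
        exact this
      have h4 := sq_abs (k : ℝ)
      nlinarith
    obtain ⟨q, hqd⟩ : ∃ q : ℝ, q = (k : ℝ) ^ 2 - 1 := ⟨_, rfl⟩
    rw [← hqd] at h1 hq ⊢
    have hq0 : (q : ℂ) ≠ 0 := by
      have : q ≠ 0 := by linarith
      exact_mod_cast this
    have e1 : dr (2 * N) (uu N c) k + Complex.exp (-(k * x₀ : ℝ) * Complex.I) * pst k / (q : ℂ) =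
        (dr (2 * N) (uu N c) k + dr (2 * N) (pp N L) k / (q : ℂ)) -
        (dr (2 * N) (pp N L) k - Complex.exp (-(k * x₀ : ℝ) * Complex.I) * pst k) / (q : ℂ) := by
      ring
    rw [e1]
    refine (norm_sub_le _ _).trans ?_
    have e2 : ‖(dr (2 * N) (pp N L) k - Complex.exp (-(k * x₀ : ℝ) * Complex.I) * pst k) /
        (q : ℂ)‖ ≤ (3 * ε / 4) / 8 := by
      rw [norm_div, Complex.norm_real, Real.norm_eq_abs, abs_of_pos (by linarith)]
      exact div_le_div₀ (by positivity) h2 (by norm_num) hq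
    linarith
  · have hk1 : k = 1 ∨ k = -1 := by
      rw [abs_le] at hkM
      have : |k| < 3 := not_le.1 hk3
      rw [abs_lt] at this
      omega
    have e1 : (((k : ℝ) ^ 2 - 1 : ℝ) : ℂ) = 0 := by
      rcases hk1 with h | h <;> rw [h] <;> norm_num
    rw [e1, div_zero, add_zero]
    rcases hk1 with h | h <;> rw [h]
    · exact g6
    · exact g5

end Pool.Agent.EHP
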