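import Pool.Agent.EHP.Stmts5

/-!
# The moment condition: `Stmt_MOM`
-/

open Finset
open scoped Real ComplexConjugate Interval

namespace Pool.Agent.EHP

namespace M_MOM

/-- an antiderivative of `Wk` -/
noncomputable def VV (t : ℝ) : ℝ :=
  -(Real.sin t * Real.log (2 * Real.sin t)) - (π / 2 - t) * Real.cos t - Real.sin t -
    2 * (1 / 500) / 3 * Real.sin (3 * t)

/-- an antiderivative of `VV` -/
noncomputable def UU (t : ℝ) : ℝ :=
  (Real.cos t - 1) * Real.log (2 * Real.sin t) + Real.log 4 + 2 * Real.log (Real.cos (t / 2)) +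
    Real.cos t - (π / 2 - t) * Real.sin t + 2 * (1 / 500) / 9 * Real.cos (3 * t)

theorem sin_pos {t : ℝ} (h0 : 0 < t) (h1 : t < π) : 0 < Real.sin t :=
  Real.sin_pos_of_pos_of_lt_pi h0 h1

theorem cos_half_pos {t : ℝ} (h0 : -π < t) (h1 : t < π) : 0 < Real.cos (t / 2) :=
  Real.cos_pos_of_mem_Ioo ⟨by linarith, by linarith⟩

theorem der_log {t : ℝ} (h0 : 0 < t) (h1 : t < π) :
    HasDerivAt (fun t => Real.log (2 * Real.sin t)) (Real.cos t / Real.sin t) t := by
  have hs := sin_pos h0 h1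
  have h := ((Real.hasDerivAt_sin t).const_mul 2).log (by positivity)
  refine h.congr_deriv ?_
  field_simp

theorem VV_der {t : ℝ} (h0 : 0 < t) (h1 : t < π) : HasDerivAt VV (Wk t) t := by
  have hs := sin_pos h0 h1
  have d1 := (Real.hasDerivAt_sin t).mul (der_log h0 h1)
  have d2 := ((hasDerivAt_id t).const_sub (π / 2)).mul (Real.hasDerivAt_cos t)
  have d3 : HasDerivAt (fun t : ℝ => Real.sin (3 * t)) (Real.cos (3 * t) * 3) t := by
    have := ((hasDerivAt_id t).const_mul 3).sin
    simpa using this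
  have d := ((d1.neg.sub d2).sub (Real.hasDerivAt_sin t)).sub (d3.const_mul (2 * (1 / 500) / 3))
  refine d.congr_deriv ?_
  unfold Wk W0
  simp only [id]
  field_simp
  ring

theorem UU_der {t : ℝ} (h0 : 0 < t) (h1 : t < π) : HasDerivAt UU (VV t) t := by
  have hs := sin_pos h0 h1
  have hc := cos_half_pos (by linarith) h1
  have d1 := ((Real.hasDerivAt_cos t).sub_const 1).mul (der_log h0 h1)
  have d2 : HasDerivAt (fun t : ℝ => Real.log (Real.cos (t / 2)))
      (-Real.sin (t / 2) * (1 / 2) / Real.cos (t / 2)) t := by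
    have := (((hasDerivAt_id t).div_const 2).cos).log hc.ne'
    simpa using this
  have d3 := ((hasDerivAt_id t).const_sub (π / 2)).mul (Real.hasDerivAt_sin t)
  have d4 : HasDerivAt (fun t : ℝ => Real.cos (3 * t)) (-Real.sin (3 * t) * 3) t := by
    have := ((hasDerivAt_id t).const_mul 3).cos
    simpa using this
  have d := (((((d1.add_const (Real.log 4)).add (d2.const_mul 2)).add
    (Real.hasDerivAt_cos t)).sub d3).add (d4.const_mul (2 * (1 / 500) / 9)))
  refine d.congr_deriv ?_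
  unfold VV
  simp only [id]
  have e1 : Real.sin t = 2 * Real.sin (t / 2) * Real.cos (t / 2) := by
    rw [← Real.sin_two_mul]; congr 1; ring
  have e2 : Real.cos t = 2 * Real.cos (t / 2) ^ 2 - 1 := by
    rw [← Real.cos_two_mul]; congr 1; ring
  have hs2 : 0 < Real.sin (t / 2) := sin_pos (by linarith) (by linarith)
  have e3 := Real.sin_sq_add_cos_sq (t / 2)
  have e4 : (Real.cos t - 1) * (Real.cos t / Real.sin t) +
      2 * (-Real.sin (t / 2) * (1 / 2) / Real.cos (t / 2)) = -Real.sin t := by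
    rw [e1, e2]
    field_simp
    linear_combination (4 * Real.cos (t / 2) ^ 2 - 2) * e3
  linear_combination e4

theorem cont_slog : Continuous (fun t : ℝ => Real.sin t * Real.log (2 * Real.sin t)) := by
  have h : Continuous (fun t : ℝ => (2 * Real.sin t) * Real.log (2 * Real.sin t)) :=
    Real.continuous_mul_log.comp (continuous_const.mul Real.continuous_sin)
  have e : (fun t : ℝ => Real.sin t * Real.log (2 * Real.sin t)) =
      fun t => (1 / 2) * ((2 * Real.sin t) * Real.log (2 * Real.sin t)) := by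
    funext t
    ring
  rw [e]
  exact continuous_const.mul h

theorem VV_cont : Continuous VV := by
  unfold VV
  have h := cont_slog
  fun_prop

theorem UU_cont : ContinuousOn UU (Set.Icc 0 (2 * π / 3)) := by
  have hπ := Real.pi_pos
  have h1 : ContinuousOn (fun t : ℝ => -Real.tan (t / 2) *
      (Real.sin t * Real.log (2 * Real.sin t)) + Real.log 4 + 2 * Real.log (Real.cos (t / 2)) +
      Real.cos t - (π / 2 - t) * Real.sin t + 2 * (1 / 500) / 9 * Real.cos (3 * t))
      (Set.Icc 0 (2 * π / 3)) := by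
    have hc : ∀ t ∈ Set.Icc (0 : ℝ) (2 * π / 3), Real.cos (t / 2) ≠ 0 := fun t ht =>
      (cos_half_pos (by linarith [ht.1]) (by linarith [ht.2])).ne'
    have h2 : ContinuousOn (fun t : ℝ => Real.tan (t / 2)) (Set.Icc 0 (2 * π / 3)) := by
      apply Real.continuousOn_tan.comp (by fun_prop)
      intro t ht
      exact hc t ht
    have h3 : ContinuousOn (fun t : ℝ => Real.log (Real.cos (t / 2))) (Set.Icc 0 (2 * π / 3)) := by
      apply ContinuousOn.log (by fun_prop)
      intro t ht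
      exact hc t ht
    have h4 := cont_slog.continuousOn (s := Set.Icc (0 : ℝ) (2 * π / 3))
    fun_prop
  refine h1.congr ?_
  intro t ht
  unfold UU
  have hc := cos_half_pos (t := t) (by linarith [ht.1]) (by linarith [ht.2])
  have e1 : Real.sin t = 2 * Real.sin (t / 2) * Real.cos (t / 2) := by
    rw [← Real.sin_two_mul]; congr 1; ring
  have e2 : Real.cos t = 2 * Real.cos (t / 2) ^ 2 - 1 := by
    rw [← Real.cos_two_mul]; congr 1; ring
  have e3 := Real.sin_sq_add_cos_sq (t / 2)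
  have e4 : Real.cos t - 1 = -Real.tan (t / 2) * Real.sin t := by
    rw [Real.tan_eq_sin_div_cos, e1, e2]
    field_simp
    linear_combination 2 * e3
  rw [e4]
  ring

theorem tlog_cont : ContinuousOn (fun t : ℝ => t * Real.log (2 * Real.sin t))
    (Set.Icc 0 (π / 3)) := by
  have hπ := Real.pi_pos
  have h1 : ContinuousOn (fun t : ℝ => t * Real.log t + t * Real.log (2 * Real.sinc t))
      (Set.Icc 0 (π / 3)) := by
    have h2 := Real.continuous_mul_log.continuousOn (s := Set.Icc (0 : ℝ) (π / 3))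
    have h3 : ContinuousOn (fun t : ℝ => Real.log (2 * Real.sinc t)) (Set.Icc 0 (π / 3)) := by
      apply ContinuousOn.log
      · exact (continuous_const.mul Real.continuous_sinc).continuousOn
      · intro t ht
        rcases eq_or_lt_of_le ht.1 with h | h
        · rw [← h, Real.sinc_zero]; norm_num
        · rw [Real.sinc_of_ne_zero h.ne']
          have := sin_pos h (by linarith [ht.2])
          positivity
    exact h2.add (continuousOn_id.mul h3)
  refine h1.congr ?_
  intro t ht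
  rcases eq_or_lt_of_le ht.1 with h | h
  · rw [← h]; simp
  · have hs := sin_pos h (by linarith [ht.2])
    dsimp only
    rw [Real.sinc_of_ne_zero h.ne', ← mul_add, ← Real.log_mul h.ne' (by positivity)]
    congr 2
    field_simp

/-- antiderivatives of `EE` -/
noncomputable def F1 (s : ℝ) : ℝ :=
  e0 * s + e2 * (π / 6) / 3 * ((s - π / 6) / (π / 6)) ^ 3 +
    e4 * (π / 6) / 5 * ((s - π / 6) / (π / 6)) ^ 5

noncomputable def F2 (s : ℝ) : ℝ :=
  e0 / 2 * s ^ 2 + e2 * (π / 6) ^ 2 / 12 * ((s - π / 6) / (π / 6)) ^ 4 +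
    e4 * (π / 6) ^ 2 / 30 * ((s - π / 6) / (π / 6)) ^ 6

theorem v_der (s : ℝ) : HasDerivAt (fun s : ℝ => (s - π / 6) / (π / 6)) (1 / (π / 6)) s :=
  ((hasDerivAt_id s).sub_const (π / 6)).div_const (π / 6)

theorem F1_der (s : ℝ) : HasDerivAt F1 (EE s) s := by
  have hπ := Real.pi_ne_zero
  have d := (((hasDerivAt_id s).const_mul e0).add
    (((v_der s).pow 3).const_mul (e2 * (π / 6) / 3))).add
    (((v_der s).pow 5).const_mul (e4 * (π / 6) / 5))
  refine d.congr_deriv ?_
  unfold EE
  push_cast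
  field_simp

theorem F2_der (s : ℝ) : HasDerivAt F2 (F1 s) s := by
  have hπ := Real.pi_ne_zero
  have d := ((((hasDerivAt_id s).pow 2).const_mul (e0 / 2)).add
    (((v_der s).pow 4).const_mul (e2 * (π / 6) ^ 2 / 12))).add
    (((v_der s).pow 6).const_mul (e4 * (π / 6) ^ 2 / 30))
  refine d.congr_deriv ?_
  unfold F1
  simp only [id]
  push_cast
  field_simp
  ring

/-- antiderivatives of `GG` -/
noncomputable def G1 (s : ℝ) : ℝ := -(1 / 2) * VV (π / 3 + s) + F1 s

noncomputable def G2 (s : ℝ) : ℝ := -(1 / 2) * UU (π / 3 + s) + F2 s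

theorem G1_der {s : ℝ} (h0 : -(π / 3) < s) (h1 : s < 2 * π / 3) : HasDerivAt G1 (GG s) s := by
  have d1 : HasDerivAt (fun s : ℝ => VV (π / 3 + s)) (Wk (π / 3 + s)) s := by
    have := (VV_der (t := π / 3 + s) (by linarith) (by linarith)).comp_const_add (π / 3) s
    exact this
  have d := (d1.const_mul (-(1 / 2))).add (F1_der s)
  exact d

theorem G2_der {s : ℝ} (h0 : -(π / 3) < s) (h1 : s < 2 * π / 3) : HasDerivAt G2 (G1 s) s := by
  have d1 : HasDerivAt (fun s : ℝ => UU (π / 3 + s)) (VV (π / 3 + s)) s := by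
    have := (UU_der (t := π / 3 + s) (by linarith) (by linarith)).comp_const_add (π / 3) s
    exact this
  have d := (d1.const_mul (-(1 / 2))).add (F2_der s)
  exact d

/-- the antiderivative of `t * rh t` -/
noncomputable def HH0 (t : ℝ) : ℝ :=
  -(t * VV t - UU t) + t ^ 2 * GG t - 2 * (t * G1 t - G2 t) + t * G1 (π / 3 - t) + G2 (π / 3 - t)

theorem HH0_der (hGG : ∀ t : ℝ, -(π / 3) < t → t < 2 * π / 3 → HasDerivAt GG (-ww t) t) {t : ℝ}
    (h0 : 0 < t) (h1 : t < π / 3) : HasDerivAt HH0 (t * rh t) t := by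
  have hπ := Real.pi_pos
  have d1 := (hasDerivAt_id t).mul (VV_der h0 (by linarith))
  have d2 := UU_der h0 (by linarith)
  have d3 := ((hasDerivAt_id t).pow 2).mul (hGG t (by linarith) (by linarith))
  have d4 := (hasDerivAt_id t).mul (G1_der (s := t) (by linarith) (by linarith))
  have d5 := G2_der (s := t) (by linarith) (by linarith)
  have d6 : HasDerivAt (fun t : ℝ => G1 (π / 3 - t)) (-GG (π / 3 - t)) t :=
    (G1_der (s := π / 3 - t) (by linarith) (by linarith)).comp_const_sub (π / 3) t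
  have d7 : HasDerivAt (fun t : ℝ => G2 (π / 3 - t)) (-G1 (π / 3 - t)) t :=
    (G2_der (s := π / 3 - t) (by linarith) (by linarith)).comp_const_sub (π / 3) t
  have d8 := (hasDerivAt_id t).mul d6
  have d := (((((d1.sub d2).neg).add d3).sub ((d4.sub d5).const_mul 2)).add d8).add d7
  refine d.congr_deriv ?_
  unfold rh
  simp only [Pi.pow_apply, id]
  push_cast
  ring

end M_MOM

open M_MOM in
theorem m_MOM : Stmt_WDER → Stmt_WPOS → Stmt_MOM := by
  rintro ⟨hW1, hW2, hW3⟩ ⟨-, hG, -⟩
  have hπ := Real.pi_pos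
  have hGG : ∀ t : ℝ, -(π / 3) < t → t < 2 * π / 3 → HasDerivAt GG (-ww t) t :=
    fun t h0 h1 => (hW2 t h0 h1).2
  have cGG : ContinuousOn GG (Set.Icc 0 (π / 3)) := fun t ht =>
    (hGG t (by linarith [ht.1]) (by linarith [ht.2])).continuousAt.continuousWithinAt
  have cww : ContinuousOn ww (Set.Icc 0 (π / 3)) := fun t ht =>
    (hW2 t (by linarith [ht.1]) (by linarith [ht.2])).1.continuousAt.continuousWithinAt
  have cG1 : ContinuousOn G1 (Set.Icc 0 (π / 3)) := fun t ht =>
    (G1_der (by linarith [ht.1]) (by linarith [ht.2])).continuousAt.continuousWithinAt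
  have cG2 : ContinuousOn G2 (Set.Icc 0 (π / 3)) := fun t ht =>
    (G2_der (by linarith [ht.1]) (by linarith [ht.2])).continuousAt.continuousWithinAt
  have hmap : Set.MapsTo (fun t : ℝ => π / 3 - t) (Set.Icc 0 (π / 3)) (Set.Icc 0 (π / 3)) := by
    intro t ht
    exact ⟨by linarith [ht.2], by linarith [ht.1]⟩
  have csub : ContinuousOn (fun t : ℝ => π / 3 - t) (Set.Icc 0 (π / 3)) := by fun_prop
  have cGG' := cGG.comp csub hmap
  have cG1' := cG1.comp csub hmap
  have cG2' := cG2.comp csub hmap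
  have cUU : ContinuousOn UU (Set.Icc 0 (π / 3)) := UU_cont.mono fun t ht =>
    ⟨ht.1, by linarith [ht.2]⟩
  have cVV := VV_cont.continuousOn (s := Set.Icc (0 : ℝ) (π / 3))
  have cid : ContinuousOn (fun t : ℝ => t) (Set.Icc 0 (π / 3)) := continuousOn_id
  have cH : ContinuousOn HH0 (Set.Icc 0 (π / 3)) := by
    unfold HH0
    exact (((((cid.mul cVV).sub cUU).neg.add ((cid.pow 2).mul cGG)).sub
      (continuousOn_const.mul ((cid.mul cG1).sub cG2))).add (cid.mul cG1')).add cG2'
  have crh : ContinuousOn (fun t => t * rh t) (Set.Icc 0 (π / 3)) := by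
    have c1 : ContinuousOn (fun t : ℝ => -(-Real.cos t * (t * Real.log (2 * Real.sin t)) +
        t * ((π / 2 - t) * Real.sin t - Real.cos t - 2 * (1 / 500) * Real.cos (3 * t))) -
        t * (t * ww t) - t * GG (π / 3 - t)) (Set.Icc 0 (π / 3)) := by
      have c2 := tlog_cont
      have c3 : ContinuousOn (fun t : ℝ => -Real.cos t) (Set.Icc 0 (π / 3)) := by fun_prop
      have c4 : ContinuousOn (fun t : ℝ => t * ((π / 2 - t) * Real.sin t - Real.cos t -
        2 * (1 / 500) * Real.cos (3 * t))) (Set.Icc 0 (π / 3)) := by fun_prop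
      exact (((c3.mul c2).add c4).neg.sub (cid.mul (cid.mul cww))).sub (cid.mul cGG')
    refine c1.congr ?_
    intro t _
    unfold rh Wk W0
    ring
  have hint : IntervalIntegrable (fun t => t * rh t) MeasureTheory.volume 0 (π / 3) := by
    apply ContinuousOn.intervalIntegrable
    rw [Set.uIcc_of_le (by positivity)]
    exact crh
  refine ⟨hint, ?_⟩
  rw [intervalIntegral.integral_eq_sub_of_hasDerivAt_of_le (by positivity) cH
    (fun t ht => HH0_der hGG ht.1 ht.2) hint]
  -- the values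
  have hs3 : Real.sqrt 3 ^ 2 = 3 := Real.sq_sqrt (by norm_num)
  have hs3p : 0 < Real.sqrt 3 := Real.sqrt_pos.2 (by norm_num)
  have l3 : Real.log (Real.sqrt 3) = Real.log 3 / 2 := by
    rw [Real.sqrt_eq_rpow, Real.log_rpow (by norm_num)]
    ring
  have l4 : Real.log 4 = 2 * Real.log 2 := by
    rw [show (4 : ℝ) = 2 ^ 2 by norm_num, Real.log_pow]
    push_cast
    ring
  have s1 : Real.sin (π / 3) = Real.sqrt 3 / 2 := Real.sin_pi_div_three
  have c1 : Real.cos (π / 3) = 1 / 2 := Real.cos_pi_div_three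
  have ed : π / 3 + π / 3 = π - π / 3 := by ring
  have s2 : Real.sin (π / 3 + π / 3) = Real.sqrt 3 / 2 := by rw [ed, Real.sin_pi_sub, s1]
  have c2 : Real.cos (π / 3 + π / 3) = -(1 / 2) := by rw [ed, Real.cos_pi_sub, c1]
  have s3 : Real.sin (3 * (π / 3)) = 0 := by
    rw [show 3 * (π / 3) = π by ring, Real.sin_pi]
  have c3 : Real.cos (3 * (π / 3)) = -1 := by
    rw [show 3 * (π / 3) = π by ring, Real.cos_pi]
  have s4 : Real.sin (3 * (π / 3 + π / 3)) = 0 := by
    rw [show 3 * (π / 3 + π / 3) = 2 * π by ring, Real.sin_two_pi]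
  have c4 : Real.cos (3 * (π / 3 + π / 3)) = 1 := by
    rw [show 3 * (π / 3 + π / 3) = 2 * π by ring, Real.cos_two_pi]
  have c5 : Real.cos (π / 3 / 2) = Real.sqrt 3 / 2 := by
    rw [show π / 3 / 2 = π / 6 by ring, Real.cos_pi_div_six]
  have c6 : Real.cos ((π / 3 + π / 3) / 2) = 1 / 2 := by
    rw [show (π / 3 + π / 3) / 2 = π / 3 by ring, c1]
  have lx : Real.log (2 * (Real.sqrt 3 / 2)) = Real.log 3 / 2 := by
    rw [show 2 * (Real.sqrt 3 / 2) = Real.sqrt 3 by ring, l3]
  have ly : Real.log (Real.sqrt 3 / 2) = Real.log 3 / 2 - Real.log 2 := by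
    rw [Real.log_div hs3p.ne' (by norm_num), l3]
  have lz : Real.log (1 / 2) = -Real.log 2 := by
    rw [one_div, Real.log_inv]
  have vV : VV (π / 3) = -(Real.sqrt 3 / 4 * Real.log 3) - π / 12 - Real.sqrt 3 / 2 := by
    unfold VV
    rw [s1, c1, s3, lx]
    ring
  have vV2 : VV (π / 3 + π / 3) = VV (π / 3) := by
    rw [vV]
    unfold VV
    rw [s2, c2, s4, lx]
    ring
  have vU : UU (π / 3) = 3 / 4 * Real.log 3 + 1 / 2 - π * Real.sqrt 3 / 12 -
      2 * (1 / 500) / 9 := by
    unfold UU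
    rw [s1, c1, c3, c5, lx, ly, l4]
    ring
  have vU2 : UU (π / 3 + π / 3) = -UU (π / 3) := by
    rw [vU]
    unfold UU
    rw [s2, c2, c4, c6, lx, lz, l4]
    ring
  have vU0 : UU 0 = 2 * Real.log 2 + 1 + 2 * (1 / 500) / 9 := by
    unfold UU
    rw [l4]
    simp
  have hπ0 := Real.pi_ne_zero
  have vF1a : F1 (π / 3) = e0 * (π / 3) + π / 6 * (e2 / 3 + e4 / 5) := by
    unfold F1
    rw [show (π / 3 - π / 6) / (π / 6) = 1 by field_simp; norm_num]
    ring
  have vF10 : F1 0 = -(π / 6 * (e2 / 3 + e4 / 5)) := by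
    unfold F1
    rw [show (0 - π / 6) / (π / 6) = -1 by field_simp; ring]
    ring
  have vF2 : F2 (π / 3) - F2 0 = e0 / 2 * (π / 3) ^ 2 := by
    unfold F2
    rw [show (π / 3 - π / 6) / (π / 6) = 1 by field_simp; norm_num,
      show (0 - π / 6) / (π / 6) = -1 by field_simp; ring]
    ring
  have hH : HH0 (π / 3) - HH0 0 = -(π / 6) * VV (π / 3) + 2 * UU (π / 3) - UU 0 -
      2 * (π / 3) * F1 (π / 3) + π / 3 * F1 0 + (F2 (π / 3) - F2 0) := by
    unfold HH0 G1 G2
    rw [hG]
    simp only [sub_self, sub_zero, add_zero, zero_mul, zero_sub]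
    rw [vV2, vU2]
    ring
  rw [hH, vV, vU, vU0, vF1a, vF10, vF2]
  have hI : I0 = π * Real.sqrt 3 / 24 * Real.log 3 + π ^ 2 / 72 - π * Real.sqrt 3 / 12 +
      3 / 2 * Real.log 3 - 2 * Real.log 2 - 2 * (1 / 500) / 3 := rfl
  have he : e0 + e2 / 3 + e4 / 5 = 6 / π ^ 2 * I0 := by
    have h1 : e4 = 15 / 8 * (π / 12 * W1P / 3 - al + 6 / π ^ 2 * I0) := rfl
    have h2 : e2 = π / 12 * W1P / 2 - 2 * e4 := rfl
    have h3 : e0 = al - e2 - e4 := rfl
    linear_combination h3 - 2 / 3 * h2 + 8 / 15 * h1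
  have he' : π ^ 2 / 6 * (e0 + e2 / 3 + e4 / 5) = I0 := by
    rw [he]
    field_simp
  rw [hI] at he'
  linear_combination -he'

end Pool.Agent.EHP
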