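import Pool.Agent.EHP.Stmts3

/-!
# Two tight chords are never nested
-/

open Finset
open scoped Real ComplexConjugate

namespace Pool.Agent.EHP

namespace MNEST

theorem norm_add_lt {x y : ℂ} (h : (x * conj y).im ≠ 0) : ‖x + y‖ < ‖x‖ + ‖y‖ := by
  have h1 : (x * conj y).re < ‖x‖ * ‖y‖ := by
    have h2 := Complex.abs_re_lt_norm.2 h
    rw [norm_mul, Complex.norm_conj] at h2
    exact lt_of_le_of_lt (le_abs_self _) h2
  have h3 : ‖x + y‖ ^ 2 < (‖x‖ + ‖y‖) ^ 2 := by
    have e := Complex.normSq_add x y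
    rw [Complex.normSq_eq_norm_sq, Complex.normSq_eq_norm_sq, Complex.normSq_eq_norm_sq] at e
    rw [e]
    nlinarith
  exact lt_of_pow_lt_pow_left₀ 2 (by positivity) h3

theorem quad {A B P D : ℂ} (h1 : 0 < (conj (B - A) * (P - A)).im)
    (h2 : 0 < (conj (B - A) * (D - A)).im) (h3 : 0 < (conj (P - A) * (D - A)).im)
    (h4 : 0 < (conj (P - B) * (D - B)).im) : ‖A - D‖ + ‖B - P‖ < ‖A - P‖ + ‖B - D‖ := by
  set α := (conj (P - B) * (D - B)).im with hα
  set β := (conj (B - A) * (D - A)).im with hβ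
  set γ := (conj (P - A) * (D - A)).im with hγ
  set δ := (conj (B - A) * (P - A)).im with hδ
  have e0 : α + β = γ + δ := by
    simp only [hα, hβ, hγ, hδ, Complex.mul_im, Complex.conj_re, Complex.conj_im, Complex.sub_re,
      Complex.sub_im]
    ring
  have e1 : ((α + β : ℝ) : ℂ) * (A - D) = (β : ℂ) * (A - P) + (γ : ℂ) * (B - D) := by
    apply Complex.ext
    · simp only [hα, hβ, hγ, Complex.mul_im, Complex.mul_re, Complex.conj_re,
        Complex.conj_im, Complex.sub_re, Complex.sub_im, Complex.add_re, Complex.ofReal_re,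
        Complex.ofReal_im]
      ring
    · simp only [hα, hβ, hγ, Complex.mul_im, Complex.conj_re,
        Complex.conj_im, Complex.sub_re, Complex.sub_im, Complex.add_im, Complex.ofReal_re,
        Complex.ofReal_im]
      ring
  have e2 : ((α + β : ℝ) : ℂ) * (B - P) = (δ : ℂ) * (B - D) + (α : ℂ) * (A - P) := by
    apply Complex.ext
    · simp only [hα, hβ, hδ, Complex.mul_im, Complex.mul_re, Complex.conj_re,
        Complex.conj_im, Complex.sub_re, Complex.sub_im, Complex.add_re, Complex.ofReal_re,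
        Complex.ofReal_im]
      ring
    · simp only [hα, hβ, hδ, Complex.mul_im, Complex.conj_re,
        Complex.conj_im, Complex.sub_re, Complex.sub_im, Complex.add_im, Complex.ofReal_re,
        Complex.ofReal_im]
      ring
  have hS : 0 < α + β := by linarith
  have n1 : (α + β) * ‖A - D‖ < β * ‖A - P‖ + γ * ‖B - D‖ := by
    have h := norm_add_lt (x := (β : ℂ) * (A - P)) (y := (γ : ℂ) * (B - D)) (by
      have e : ((β : ℂ) * (A - P) * conj ((γ : ℂ) * (B - D))).im = -(β * γ * (α + β)) := by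
        simp only [hα, hβ, hγ, Complex.mul_im, Complex.mul_re, Complex.conj_re,
          Complex.conj_im, Complex.sub_re, Complex.sub_im, Complex.ofReal_re,
          Complex.ofReal_im]
        ring
      rw [e]
      exact (neg_lt_zero.2 (mul_pos (mul_pos h2 h3) hS)).ne)
    rw [← e1, norm_mul, norm_mul, norm_mul, Complex.norm_real, Complex.norm_real,
      Complex.norm_real, Real.norm_of_nonneg hS.le, Real.norm_of_nonneg h2.le,
      Real.norm_of_nonneg h3.le] at h
    exact h
  have n2 : (α + β) * ‖B - P‖ ≤ δ * ‖B - D‖ + α * ‖A - P‖ := by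
    have h := norm_add_le ((δ : ℂ) * (B - D)) ((α : ℂ) * (A - P))
    rw [← e2, norm_mul, norm_mul, norm_mul, Complex.norm_real, Complex.norm_real,
      Complex.norm_real, Real.norm_of_nonneg hS.le, Real.norm_of_nonneg h1.le,
      Real.norm_of_nonneg h4.le] at h
    exact h
  have n3 : (α + β) * (‖A - D‖ + ‖B - P‖) < (α + β) * (‖A - P‖ + ‖B - D‖) := by
    have e3 : (α + β) * ‖B - D‖ = γ * ‖B - D‖ + δ * ‖B - D‖ := by rw [e0]; ring
    have e4 : (α + β) * ‖A - P‖ = α * ‖A - P‖ + β * ‖A - P‖ := by ring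
    rw [mul_add, mul_add, e3, e4]
    linarith
  exact lt_of_mul_lt_mul_left n3 hS.le

end MNEST

open MNEST in
theorem m_NEST : Stmt_ORIENT → Stmt_NEST := by
  intro hO n ε c hn hε hc a b p d hab hbp hpd hda ⟨t1, t2⟩
  have o := hO n ε c hn hε hc
  have h := quad (o a b p hab hbp (by omega)) (o a b d hab (by omega) hda)
    (o a p d (by omega) hpd hda) (o b p d hbp hpd (by omega))
  have m1 := hc.opt.adm a p
  have m2 := hc.opt.adm b d
  linarith

end Pool.Agent.EHP
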