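import Pool.Agent.EHP.Stmts3

/-!
# The variation in the case of a gap
-/

open Finset
open scoped Real ComplexConjugate

namespace Pool.Agent.EHP

namespace MNGB

theorem tele0 (e : ℤ → ℂ) (f : ℤ → ℝ) (i : ℤ) (m : ℕ)
    (h : ∀ l : ℤ, i ≤ l → l < i + m → ‖e (l + 1) - e l‖ ≤ f l) :
    ‖e (i + m) - e i‖ ≤ ∑ l ∈ range m, f (i + l) := by
  induction m with
  | zero => simp
  | succ m ih =>
    rw [Finset.sum_range_succ]
    have h1 := ih (fun l h1 h2 => h l h1 (by push_cast; omega))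
    have h2 := h (i + m) (by omega) (by push_cast; omega)
    have e1 : e (i + ((m + 1 : ℕ) : ℤ)) - e i =
        (e (i + m + 1) - e (i + m)) + (e (i + m) - e i) := by
      rw [sub_add_sub_cancel]
      congr 2
      push_cast
      ring
    rw [e1]
    exact (norm_add_le _ _).trans (by linarith)

theorem tele (e : ℤ → ℂ) (f : ℤ → ℝ) (n : ℕ) (hf0 : ∀ j, 0 ≤ f j) (hfp : ∀ j, f (j + n) = f j)
    {i j : ℤ} (hij : i ≤ j) (hjn : j ≤ i + n)
    (h : ∀ l : ℤ, i ≤ l → l < j → ‖e (l + 1) - e l‖ ≤ f l) :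
    ‖e j - e i‖ ≤ ∑ l ∈ range n, f (l : ℤ) := by
  obtain ⟨m, hm⟩ := Int.eq_ofNat_of_zero_le (sub_nonneg.2 hij)
  have hj : j = i + m := by omega
  subst hj
  refine (tele0 e f i m (fun l h1 h2 => h l h1 h2)).trans ?_
  have hmn : m ≤ n := by omega
  calc ∑ l ∈ range m, f (i + l) ≤ ∑ l ∈ range n, f (i + l) :=
        Finset.sum_le_sum_of_subset_of_nonneg (Finset.range_subset_range.2 hmn)
          (fun _ _ _ => hf0 _)
    _ = ∑ l ∈ range n, f ((l : ℤ) + i) := by simp only [add_comm]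
    _ = ∑ l ∈ range n, f (l : ℤ) := sum_shift hfp i

theorem teleθ {n : ℕ} (c : Cfg n) (e : ℤ → ℂ) (C : ℝ) {i j : ℤ} (hij : i ≤ j)
    (h : ∀ l : ℤ, i ≤ l → l < j → ‖e (l + 1) - e l‖ ≤ C * c.g l) :
    ‖e j - e i‖ ≤ C * (c.θ j - c.θ i) := by
  obtain ⟨m, hm⟩ := Int.eq_ofNat_of_zero_le (sub_nonneg.2 hij)
  have hj : j = i + m := by omega
  subst hj
  refine (tele0 e (fun l => C * c.g l) i m (fun l h1 h2 => h l h1 h2)).trans (le_of_eq ?_)
  clear h hm hij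
  induction m with
  | zero => simp
  | succ m ih =>
    rw [Finset.sum_range_succ, ih]
    show C * (c.θ (i + m) - c.θ i) + C * (c.θ (i + m + 1) - c.θ (i + m)) = _
    have : i + ((m + 1 : ℕ) : ℤ) = i + m + 1 := by push_cast; ring
    rw [this]
    ring

theorem W_eq {P L : ℂ} (h : ‖P - L‖ = 2) :
    ((((P + L) / (P - L)).im : ℝ) : ℂ) * Complex.I * (P - L) =
      P + L - (((‖P‖ ^ 2 - ‖L‖ ^ 2) / 4 : ℝ) : ℂ) * (P - L) := by
  have h4 : Complex.normSq (P - L) = 4 := by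
    rw [Complex.normSq_eq_norm_sq, h]; norm_num
  have hne : P - L ≠ 0 := by
    rw [← norm_pos_iff, h]; norm_num
  have hre : ((P + L) / (P - L)).re = (‖P‖ ^ 2 - ‖L‖ ^ 2) / 4 := by
    rw [Complex.div_re, h4, ← Complex.normSq_eq_norm_sq, ← Complex.normSq_eq_norm_sq,
      Complex.normSq_apply, Complex.normSq_apply]
    simp only [Complex.add_re, Complex.sub_re, Complex.add_im, Complex.sub_im]
    ring
  have hu := Complex.re_add_im ((P + L) / (P - L))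
  have h5 : P + L = ((P + L) / (P - L)) * (P - L) := by rw [div_mul_cancel₀ _ hne]
  rw [← hu, hre] at h5
  linear_combination (-1 : ℂ) * h5

theorem step_bound {P P' L σ DP DP' DL : ℂ} (h' : ‖P' - L‖ = 2) (hσ : ‖σ‖ = 1)
    (e1 : DP - DL = σ * (P + L - (((‖P‖ ^ 2 - ‖L‖ ^ 2) / 4 : ℝ) : ℂ) * (P - L)))
    (e2 : DP' - DL = σ * (P' + L - (((‖P'‖ ^ 2 - ‖L‖ ^ 2) / 4 : ℝ) : ℂ) * (P' - L))) :
    ‖(DP' - σ * P') - (DP - σ * P)‖ ≤
      |‖P'‖ ^ 2 - ‖P‖ ^ 2| / 2 + |‖P‖ ^ 2 - ‖L‖ ^ 2| / 4 * ‖P' - P‖ := by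
  have e : (DP' - σ * P') - (DP - σ * P) =
      σ * (-((((‖P'‖ ^ 2 - ‖P‖ ^ 2) / 4 : ℝ) : ℂ) * (P' - L) +
        (((‖P‖ ^ 2 - ‖L‖ ^ 2) / 4 : ℝ) : ℂ) * (P' - P))) := by
    push_cast at e1 e2 ⊢
    linear_combination e2 - e1
  rw [e, norm_mul, hσ, one_mul, norm_neg]
  refine (norm_add_le _ _).trans (le_of_eq ?_)
  rw [norm_mul, norm_mul, Complex.norm_real, Complex.norm_real, h', Real.norm_eq_abs,
    Real.norm_eq_abs, abs_div, abs_div, abs_of_pos (by norm_num : (0 : ℝ) < 4)]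
  ring

theorem exp_quarter : Real.exp (1 / 4) ≤ 2 := by
  have h := Real.log_two_gt_d9
  calc Real.exp (1 / 4) ≤ Real.exp (Real.log 2) := Real.exp_le_exp.2 (by linarith)
    _ = 2 := Real.exp_log (by norm_num)

theorem exp_lip {a b : ℂ} (ha : a.re ≤ 1 / 4) (hb : b.re ≤ 1 / 4) :
    ‖Complex.exp a - Complex.exp b‖ ≤ 2 * ‖a - b‖ := by
  have hconv : Convex ℝ {w : ℂ | w.re ≤ 1 / 4} := convex_halfSpace_re_le _
  refine hconv.norm_image_sub_le_of_norm_deriv_le (𝕜 := ℂ)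
    (fun x _ => Complex.differentiable_exp x) (fun x hx => ?_) hb ha
  rw [Complex.deriv_exp, Complex.norm_exp]
  exact (Real.exp_le_exp.2 hx).trans exp_quarter

theorem sin_low {x : ℝ} (h0 : 0 ≤ x) (h1 : x ≤ 17 / 10) : x / 2 ≤ Real.sin x := by
  have hp1 := Real.pi_gt_d2
  have hp2 := Real.pi_lt_d2
  rcases le_total x (π / 2) with h | h
  · have h2 := Real.mul_le_sin h0 h
    have h3 : 1 / 2 ≤ 2 / π := by
      rw [div_le_div_iff₀ (by norm_num) Real.pi_pos]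
      linarith
    have := mul_le_mul_of_nonneg_right h3 h0
    linarith
  · rw [← Real.cos_sub_pi_div_two]
    have h2 := Real.one_sub_sq_div_two_le_cos (x := x - π / 2)
    have h3 : (x - π / 2) ^ 2 ≤ (13 / 100) ^ 2 := pow_le_pow_left₀ (by linarith) (by linarith) 2
    linarith

section

variable {n : ℕ} (c : Cfg n)

theorem sq_lip (hρ : ∀ j, |c.ρ j| ≤ 1 / 8) (i j : ℤ) :
    |‖c.z i‖ ^ 2 - ‖c.z j‖ ^ 2| ≤ 4 * |c.ρ i - c.ρ j| := by
  have h1 := abs_le.1 (hρ i)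
  have h2 := abs_le.1 (hρ j)
  have h := exp_lip (a := ((2 * c.ρ i : ℝ) : ℂ)) (b := ((2 * c.ρ j : ℝ) : ℂ))
    (by rw [Complex.ofReal_re]; linarith) (by rw [Complex.ofReal_re]; linarith)
  rw [← Complex.ofReal_exp, ← Complex.ofReal_exp, ← Complex.ofReal_sub, ← Complex.ofReal_sub,
    Complex.norm_real, Complex.norm_real, Real.norm_eq_abs, Real.norm_eq_abs, ← mul_sub,
    abs_mul, abs_of_pos (by norm_num : (0 : ℝ) < 2)] at h
  rw [c.norm_z, c.norm_z, ← Real.exp_nat_mul, ← Real.exp_nat_mul]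
  push_cast
  linarith

theorem dist_up (hρ : ∀ j, |c.ρ j| ≤ 1 / 8) (i j : ℤ) :
    ‖c.z i - c.z j‖ ≤ 2 * |c.ρ i - c.ρ j| + 2 * |c.θ i - c.θ j| := by
  have h1 := abs_le.1 (hρ i)
  have h2 := abs_le.1 (hρ j)
  unfold Cfg.z
  refine (exp_lip (by simp; linarith) (by simp; linarith)).trans ?_
  have h3 := Complex.norm_le_abs_re_add_abs_im
    ((c.ρ i : ℂ) + (c.θ i : ℂ) * Complex.I - ((c.ρ j : ℂ) + (c.θ j : ℂ) * Complex.I))
  simp only [Complex.sub_re, Complex.add_re, Complex.ofReal_re, Complex.mul_re, Complex.I_re,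
    mul_zero, Complex.ofReal_im, Complex.I_im, mul_one, sub_self, add_zero, Complex.sub_im,
    Complex.add_im, Complex.mul_im, zero_add] at h3
  linarith

theorem dist_low (hρ : ∀ j, |c.ρ j| ≤ 1 / 8) {i j : ℤ} (h0 : c.θ j ≤ c.θ i)
    (h1 : c.θ i - c.θ j ≤ 34 / 10) : (c.θ i - c.θ j) / 3 ≤ ‖c.z i - c.z j‖ := by
  refine le_of_sq_le_sq ?_ (norm_nonneg _)
  rw [c.dist_sq]
  have hx : c.X i j = (c.θ i - c.θ j) / 2 := rfl
  have h2 := sin_low (x := c.X i j) (by rw [hx]; linarith) (by rw [hx]; linarith)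
  have h3 : (c.X i j / 2) ^ 2 ≤ Real.sin (c.X i j) ^ 2 :=
    pow_le_pow_left₀ (by rw [hx]; linarith) h2 2
  have h4 : 3 / 4 ≤ Real.exp (c.ρ i + c.ρ j) := by
    have h5 := abs_le.1 (hρ i)
    have h6 := abs_le.1 (hρ j)
    have := Real.add_one_le_exp (c.ρ i + c.ρ j)
    linarith
  have h5 : 0 ≤ Real.sinh (c.Y i j) ^ 2 := sq_nonneg _
  have h6 : 0 ≤ (c.X i j / 2) ^ 2 := sq_nonneg _
  have h7 : 4 * (3 / 4) * (c.X i j / 2) ^ 2 ≤ 4 * Real.exp (c.ρ i + c.ρ j) *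
      (Real.sin (c.X i j) ^ 2 + Real.sinh (c.Y i j) ^ 2) :=
    mul_le_mul (by linarith) (by linarith) h6 (by positivity)
  refine le_trans ?_ h7
  rw [hx]
  nlinarith [sq_nonneg (c.θ i - c.θ j)]

/-- The bound for the tangent of a tight pair. -/
noncomputable def bb (j : ℤ) : ℝ := |c.s (j - 1)| + c.g (j - 1) + |c.s j| + c.g j

theorem bb_add (j : ℤ) : bb c (j + n) = bb c j := by
  unfold bb
  have : j + (n : ℤ) - 1 = (j - 1) + n := by ring
  rw [this, c.s_add, c.g_add, c.s_add, c.g_add]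

theorem bb_sum {M : ℝ} (hs : ∑ j ∈ range n, c.s (j : ℤ) ^ 2 ≤ M)
    (hg : ∑ j ∈ range n, c.g (j : ℤ) ^ 2 ≤ M) : ∑ j ∈ range n, bb c (j : ℤ) ^ 2 ≤ 16 * M := by
  have h1 : ∀ j : ℤ, bb c j ^ 2 ≤ 4 * (c.s (j - 1) ^ 2 + c.g (j - 1) ^ 2 + c.s j ^ 2 + c.g j ^ 2) := by
    intro j
    have e1 := sq_abs (c.s (j - 1))
    have e2 := sq_abs (c.s j)
    rw [← e1, ← e2]
    unfold bb
    nlinarith [sq_nonneg (|c.s (j - 1)| - c.g (j - 1)), sq_nonneg (|c.s (j - 1)| - |c.s j|),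
      sq_nonneg (|c.s (j - 1)| - c.g j), sq_nonneg (c.g (j - 1) - |c.s j|),
      sq_nonneg (c.g (j - 1) - c.g j), sq_nonneg (|c.s j| - c.g j)]
  have h2 : ∑ j ∈ range n, c.s ((j : ℤ) - 1) ^ 2 = ∑ j ∈ range n, c.s (j : ℤ) ^ 2 := by
    have := sum_shift (n := n) (f := fun j => c.s j ^ 2) (fun j => by simp only [c.s_add]) (-1)
    simpa [sub_eq_add_neg] using this
  have h3 : ∑ j ∈ range n, c.g ((j : ℤ) - 1) ^ 2 = ∑ j ∈ range n, c.g (j : ℤ) ^ 2 := by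
    have := sum_shift (n := n) (f := fun j => c.g j ^ 2) (fun j => by simp only [c.g_add]) (-1)
    simpa [sub_eq_add_neg] using this
  have h4 : ∑ j ∈ range n, bb c (j : ℤ) ^ 2 ≤ ∑ j ∈ range n, 4 * (c.s ((j : ℤ) - 1) ^ 2 +
      c.g ((j : ℤ) - 1) ^ 2 + c.s (j : ℤ) ^ 2 + c.g (j : ℤ) ^ 2) :=
    Finset.sum_le_sum fun (j : ℕ) _ => h1 (j : ℤ)
  refine h4.trans ?_
  rw [← Finset.mul_sum, Finset.sum_add_distrib, Finset.sum_add_distrib, Finset.sum_add_distrib,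
    h2, h3]
  linarith

end

/-- The relation for a vertex `p` and its tight partner `l`, on the side with the sign `σ`. -/
structure Rel {n : ℕ} (c : Cfg n) (σ : ℂ) (D A : ℤ → ℂ) (p l : ℤ) : Prop where
  t : ‖c.z p - c.z l‖ = 2
  d : D p - D l = σ * (c.z p + c.z l -
    (((‖c.z p‖ ^ 2 - ‖c.z l‖ ^ 2) / 4 : ℝ) : ℂ) * (c.z p - c.z l))
  a : ‖A p - A l‖ ≤ 8 * bb c p ^ 2

/-- One side. -/
structure Side {n : ℕ} (c : Cfg n) (σ : ℂ) (D A : ℤ → ℂ) (lo hi : ℤ → ℤ) (α β : ℤ) : Prop where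
  rel : ∀ p l, α < p → p ≤ β → lo p ≤ l → l ≤ hi p → Rel c σ D A p l
  lohi : ∀ p, lo p ≤ hi p
  piv : ∀ v, α < v → v < β → hi v = lo (v + 1)
  le : β ≤ α + n

section

variable {n : ℕ} {c : Cfg n} {σ : ℂ} {D A : ℤ → ℂ} {lo hi : ℤ → ℤ} {α β : ℤ}

theorem Side.step (h : Side c σ D A lo hi α β) (hσ : ‖σ‖ = 1) (hρ : ∀ j, |c.ρ j| ≤ 1 / 8)
    {r : ℝ} (hr : ∀ j, |c.ρ j| ≤ r) (hr8 : r ≤ 1 / 8) {j : ℤ} (h1 : α < j) (h2 : j < β) :
    ‖(D (j + 1) - σ * c.z (j + 1)) - (D j - σ * c.z j)‖ ≤ 3 * |c.Δ j| + 4 * r * c.g j ∧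
      ‖A (j + 1) - A j‖ ≤ 8 * (bb c j ^ 2 + bb c (j + 1) ^ 2) := by
  have hp := h.piv j h1 h2
  have r1 := h.rel j (hi j) h1 h2.le (h.lohi j) le_rfl
  have r2 := h.rel (j + 1) (hi j) (by omega) (by omega) hp.ge (by rw [hp]; exact h.lohi _)
  constructor
  · refine (step_bound r2.t hσ r1.d r2.d).trans ?_
    have e1 := sq_lip c hρ (j + 1) j
    have e2 := sq_lip c hρ j (hi j)
    have e3 := dist_up c hρ (j + 1) j
    have e4 : c.ρ (j + 1) - c.ρ j = c.Δ j := rfl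
    have e5 : c.θ (j + 1) - c.θ j = c.g j := rfl
    have hg := c.g_pos j
    rw [e4] at e1 e3
    rw [e5, abs_of_pos hg] at e3
    have e6 : |c.ρ j - c.ρ (hi j)| ≤ 2 * r := by
      refine (abs_sub _ _).trans ?_
      have := hr j
      have := hr (hi j)
      linarith
    have e7 : |‖c.z j‖ ^ 2 - ‖c.z (hi j)‖ ^ 2| / 4 ≤ 2 * r := by linarith
    have hr0 : 0 ≤ r := (abs_nonneg _).trans (hr j)
    have hΔ := abs_nonneg (c.Δ j)
    have e8 : |‖c.z j‖ ^ 2 - ‖c.z (hi j)‖ ^ 2| / 4 * ‖c.z (j + 1) - c.z j‖ ≤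
        2 * r * (2 * |c.Δ j| + 2 * c.g j) :=
      mul_le_mul e7 e3 (norm_nonneg _) (by linarith)
    have e9 : r * |c.Δ j| ≤ 1 / 8 * |c.Δ j| := mul_le_mul_of_nonneg_right hr8 hΔ
    nlinarith
  · have e : A (j + 1) - A j = (A (j + 1) - A (hi j)) - (A j - A (hi j)) := by ring
    rw [e]
    refine (norm_sub_le _ _).trans ?_
    have := r1.a
    have := r2.a
    linarith

theorem Side.all (h : Side c σ D A lo hi α β) (hσ : ‖σ‖ = 1) {r ε F G : ℝ}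
    (hr : ∀ j, |c.ρ j| ≤ r) (hr8 : r ≤ 1 / 8) (hs : ∀ j, |c.s j| ≤ ε)
    (hF : ∑ j ∈ range n, (3 * |c.Δ (j : ℤ)| + 4 * r * c.g (j : ℤ)) ≤ F)
    (hG : ∑ j ∈ range n, bb c (j : ℤ) ^ 2 ≤ G) {i j : ℤ} (hi' : α < i) (hij : i ≤ j)
    (hj : j ≤ β) :
    ‖(D j - σ * c.z j) - (D i - σ * c.z i)‖ ≤ F ∧ ‖A j - A i‖ ≤ 16 * G ∧
      ‖(D j - σ * c.z j) - (D i - σ * c.z i)‖ ≤ (3 * ε + 4 * r) * (c.θ j - c.θ i) := by
  have hle := h.le
  have hρ : ∀ j, |c.ρ j| ≤ 1 / 8 := fun j => (hr j).trans hr8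
  have hr0 : 0 ≤ r := (abs_nonneg _).trans (hr 0)
  have hst := fun (l : ℤ) (h1 : i ≤ l) (h2 : l < j) =>
    h.step hσ hρ hr hr8 (j := l) (by omega) (by omega)
  refine ⟨?_, ?_, ?_⟩
  · refine (tele (fun l => D l - σ * c.z l) (fun l => 3 * |c.Δ l| + 4 * r * c.g l) n
      (fun l => ?_) (fun l => ?_) hij (by omega) (fun l h1 h2 => (hst l h1 h2).1)).trans hF
    · have := c.g_pos l
      positivity
    · simp only [c.Δ_add, c.g_add]
  · refine (tele A (fun l => 8 * (bb c l ^ 2 + bb c (l + 1) ^ 2)) n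
      (fun l => by positivity) (fun l => ?_) hij (by omega) (fun l h1 h2 => (hst l h1 h2).2)).trans ?_
    · have e : l + (n : ℤ) + 1 = (l + 1) + n := by ring
      simp only [e, bb_add]
    · rw [← Finset.mul_sum, Finset.sum_add_distrib]
      have := sum_shift (n := n) (f := fun j => bb c j ^ 2) (fun j => by simp only [bb_add]) 1
      rw [this]
      linarith
  · refine teleθ c (fun l => D l - σ * c.z l) (3 * ε + 4 * r) hij (fun l h1 h2 => ?_)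
    refine (hst l h1 h2).1.trans ?_
    have hg := c.g_pos l
    have e1 : |c.Δ l| = |c.s l| * c.g l := by
      have : c.Δ l = c.s l * c.g l := by
        unfold Cfg.s
        rw [div_mul_cancel₀ _ hg.ne']
      rw [this, abs_mul, abs_of_pos hg]
    have e2 := mul_le_mul_of_nonneg_right (hs l) hg.le
    rw [e1]
    linarith

/-- The combinatorial data of a gap. -/
structure Gap (n : ℕ) (c : Cfg n) (lo hi : ℤ → ℤ) (v₀ w₀ : ℤ) : Prop where
  par : Par n c lo hi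
  n1 : 1 ≤ n
  hw : w₀ = hi v₀
  h1 : hi w₀ = v₀ + n
  h2 : lo (v₀ + 1) = w₀ + 1
  h3 : lo (w₀ + 1) = v₀ + 1 + n

theorem Gap.lo_mono {v₀ w₀ : ℤ} (G : Gap n c lo hi v₀ w₀) : Monotone lo :=
  monotone_int_of_le_succ fun v => (G.par.lt v).2.1.trans (G.par.step v)

theorem Gap.hi_mono {v₀ w₀ : ℤ} (G : Gap n c lo hi v₀ w₀) : Monotone hi :=
  monotone_int_of_le_succ fun v => (G.par.step v).trans (G.par.lt (v + 1)).2.1

theorem Gap.vw {v₀ w₀ : ℤ} (G : Gap n c lo hi v₀ w₀) : v₀ < w₀ := by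
  have := G.par.lt v₀
  rw [G.hw]
  omega

theorem Gap.wv {v₀ w₀ : ℤ} (G : Gap n c lo hi v₀ w₀) : w₀ < v₀ + n := by
  have := G.par.lt v₀
  rw [G.hw]
  omega

theorem Gap.inA {v₀ w₀ : ℤ} (G : Gap n c lo hi v₀ w₀) {a l : ℤ} (h1 : v₀ < a) (h2 : a ≤ w₀)
    (h3 : lo a ≤ l) (h4 : l ≤ hi a) : w₀ < l ∧ l ≤ v₀ + n := by
  have e1 := G.lo_mono (show v₀ + 1 ≤ a by omega)
  have e2 := G.hi_mono h2
  rw [G.h2] at e1
  rw [G.h1] at e2
  omega

theorem Gap.ti {v₀ w₀ : ℤ} (G : Gap n c lo hi v₀ w₀) {a l : ℤ} (h3 : lo a ≤ l) (h4 : l ≤ hi a) :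
    ‖c.z a - c.z l‖ = 2 := by
  have := G.par.lt a
  exact (G.par.tight a l (by omega) (by omega)).2 ⟨h3, h4⟩

theorem Gap.inB {v₀ w₀ : ℤ} (G : Gap n c lo hi v₀ w₀) {b l : ℤ} (h1 : w₀ < b) (h2 : b ≤ v₀ + n)
    (h3 : lo b ≤ l) (h4 : l ≤ hi b) : v₀ < l - n ∧ l - n ≤ w₀ ∧ lo (l - n) ≤ b ∧ b ≤ hi (l - n) := by
  have e1 := G.lo_mono (show w₀ + 1 ≤ b by omega)
  have e2 := G.hi_mono h2
  rw [G.h3] at e1
  rw [G.par.hi_add, ← G.hw] at e2
  have e3 := G.par.lt b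
  have e4 := G.ti h3 h4
  have e5 : ‖c.z (l - n) - c.z b‖ = 2 := by
    have := c.z_add (l - n)
    rw [sub_add_cancel] at this
    rw [← this, norm_sub_rev]
    exact e4
  have e6 := (G.par.tight (l - n) b (by omega) (by omega)).1 e5
  exact ⟨by omega, by omega, e6.1, e6.2⟩

theorem red {n : ℕ} (hn : 1 ≤ n) (v i : ℤ) : ∃ i', v < i' ∧ i' ≤ v + n ∧ (n : ℤ) ∣ i - i' := by
  refine ⟨v + 1 + (i - v - 1) % n, ?_, ?_, ?_⟩
  · have := Int.emod_nonneg (i - v - 1) (show (n : ℤ) ≠ 0 by omega)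
    omega
  · have := Int.emod_lt_of_pos (i - v - 1) (show (0 : ℤ) < n by omega)
    omega
  · have h := Int.mul_ediv_add_emod (i - v - 1) n
    exact ⟨(i - v - 1) / n, by linarith⟩

theorem Gap.cls {v₀ w₀ : ℤ} (G : Gap n c lo hi v₀ w₀) {i j : ℤ} (h : ‖c.z i - c.z j‖ = 2) :
    ∃ a b, v₀ < a ∧ a ≤ w₀ ∧ lo a ≤ b ∧ b ≤ hi a ∧
      (((n : ℤ) ∣ i - a ∧ (n : ℤ) ∣ j - b) ∨ ((n : ℤ) ∣ j - a ∧ (n : ℤ) ∣ i - b)) := by
  obtain ⟨i', hi1, hi2, hi3⟩ := red G.n1 v₀ i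
  obtain ⟨j', hj1, hj2, hj3⟩ := red G.n1 i' j
  have ei := per_dvd (f := c.z) c.z_add hi3
  have ej := per_dvd (f := c.z) c.z_add hj3
  rw [ei, ej] at h
  have hne : j' ≠ i' + n := by
    rintro rfl
    rw [c.z_add, sub_self, norm_zero] at h
    norm_num at h
  have ht := (G.par.tight i' j' hj1 (by omega)).1 h
  by_cases hA : i' ≤ w₀
  · exact ⟨i', j', hi1, hA, ht.1, ht.2, Or.inl ⟨hi3, hj3⟩⟩
  · have hB := G.inB (by omega) hi2 ht.1 ht.2
    refine ⟨j' - n, i', hB.1, hB.2.1, hB.2.2.1, hB.2.2.2, Or.inr ⟨?_, hi3⟩⟩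
    have e : j - (j' - n) = (j - j') + n := by ring
    rw [e]
    exact dvd_add hj3 (dvd_refl _)

/-- The number `ξ` of a pair. -/
noncomputable def xi (c : Cfg n) (a b : ℤ) : ℝ := ((c.z a + c.z b) / (c.z a - c.z b)).im

theorem xi_symm (a b : ℤ) : xi c b a = -xi c a b := by
  unfold xi
  have : (c.z b + c.z a) / (c.z b - c.z a) = -((c.z a + c.z b) / (c.z a - c.z b)) := by
    rw [← div_neg, neg_sub, add_comm]
  rw [this, Complex.neg_im]

/-- The solution of the tree equations. -/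
structure Sol (n : ℕ) (c : Cfg n) (lo hi : ℤ → ℤ) (v₀ w₀ : ℤ) (D A : ℤ → ℂ) : Prop where
  gap : Gap n c lo hi v₀ w₀
  ob : ∀ a b, ‖c.z a - c.z b‖ = 2 → |xi c a b| ≤ 2 * bb c a
  Dp : ∀ j, D (j + n) = D j
  Ap : ∀ j, A (j + n) = A j
  A0 : A (v₀ + 1) = 0
  eD : ∀ a, v₀ < a → a ≤ w₀ → ∀ b, lo a ≤ b → b ≤ hi a →
    D a - D b = xi c a b * Complex.I * (c.z a - c.z b)
  eA : ∀ a, v₀ < a → a ≤ w₀ → ∀ b, lo a ≤ b → b ≤ hi a →
    A a - A b = -(xi c a b : ℂ) ^ 2 * (c.z a - c.z b)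

theorem Sol.one {v₀ w₀ : ℤ} (S : Sol n c lo hi v₀ w₀ D A) {i j : ℤ} (h : ‖c.z i - c.z j‖ = 2) :
    ∃ ξ : ℝ, D i - D j = ξ * Complex.I * (c.z i - c.z j) ∧
        A i - A j = -(ξ : ℂ) ^ 2 * (c.z i - c.z j) := by
  obtain ⟨a, b, h1, h2, h3, h4, h5⟩ := S.gap.cls h
  have e1 := S.eD a h1 h2 b h3 h4
  have e2 := S.eA a h1 h2 b h3 h4
  rcases h5 with ⟨hi', hj'⟩ | ⟨hj', hi'⟩
  · refine ⟨xi c a b, ?_, ?_⟩
    · rw [per_dvd S.Dp hi', per_dvd S.Dp hj', per_dvd (f := c.z) c.z_add hi',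
        per_dvd (f := c.z) c.z_add hj', e1]
    · rw [per_dvd S.Ap hi', per_dvd S.Ap hj', per_dvd (f := c.z) c.z_add hi',
        per_dvd (f := c.z) c.z_add hj', e2]
  · refine ⟨xi c a b, ?_, ?_⟩
    · rw [per_dvd S.Dp hi', per_dvd S.Dp hj', per_dvd (f := c.z) c.z_add hi',
        per_dvd (f := c.z) c.z_add hj']
      linear_combination (-1 : ℂ) * e1
    · rw [per_dvd S.Ap hi', per_dvd S.Ap hj', per_dvd (f := c.z) c.z_add hi',
        per_dvd (f := c.z) c.z_add hj']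
      linear_combination (-1 : ℂ) * e2

theorem normA {c : Cfg n} {a b : ℤ} {x : ℝ} (h : ‖c.z a - c.z b‖ = 2) (hx : |x| ≤ 2 * bb c a)
    {w : ℂ} (hw : w = -(x : ℂ) ^ 2 * (c.z a - c.z b)) : ‖w‖ ≤ 8 * bb c a ^ 2 := by
  rw [hw, norm_mul, h, norm_neg, norm_pow, Complex.norm_real, Real.norm_eq_abs]
  have := pow_le_pow_left₀ (abs_nonneg x) hx 2
  nlinarith

theorem Sol.sideA {v₀ w₀ : ℤ} (S : Sol n c lo hi v₀ w₀ D A)
    (hp : ∀ v, v₀ < v → v < w₀ → hi v = lo (v + 1)) : Side c 1 D A lo hi v₀ w₀ where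
  rel p l h1 h2 h3 h4 := by
    have ht := S.gap.ti h3 h4
    refine ⟨ht, ?_, ?_⟩
    · rw [S.eD p h1 h2 l h3 h4, one_mul]
      exact W_eq ht
    · exact normA ht (S.ob p l ht) (S.eA p h1 h2 l h3 h4)
  lohi p := (S.gap.par.lt p).2.1
  piv := hp
  le := S.gap.wv.le

theorem Sol.sideB {v₀ w₀ : ℤ} (S : Sol n c lo hi v₀ w₀ D A)
    (hp : ∀ v, w₀ < v → v < v₀ + n → hi v = lo (v + 1)) :
    Side c (-1) D A lo hi w₀ (v₀ + n) where
  rel p l h1 h2 h3 h4 := by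
    have ht := S.gap.ti h3 h4
    obtain ⟨g1, g2, g3, g4⟩ := S.gap.inB h1 h2 h3 h4
    have hz : c.z (l - n) = c.z l := by
      have := c.z_add (l - n)
      rw [sub_add_cancel] at this
      exact this.symm
    have hD : D (l - n) = D l := by
      have := S.Dp (l - n)
      rw [sub_add_cancel] at this
      exact this.symm
    have hA : A (l - n) = A l := by
      have := S.Ap (l - n)
      rw [sub_add_cancel] at this
      exact this.symm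
    have hx : xi c (l - n) p = xi c l p := by
      unfold xi
      rw [hz]
    have e1 := S.eD (l - n) g1 g2 p g3 g4
    have e2 := S.eA (l - n) g1 g2 p g3 g4
    rw [hD, hz, hx] at e1
    rw [hA, hz, hx] at e2
    refine ⟨ht, ?_, ?_⟩
    · have ht' : ‖c.z l - c.z p‖ = 2 := by rw [norm_sub_rev]; exact ht
      have := W_eq ht'
      have e3 : D l - D p = c.z l + c.z p -
          (((‖c.z l‖ ^ 2 - ‖c.z p‖ ^ 2) / 4 : ℝ) : ℂ) * (c.z l - c.z p) := by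
        rw [e1]; exact this
      push_cast at e3 ⊢
      linear_combination (-1 : ℂ) * e3
    · refine normA ht (S.ob p l ht) (x := xi c p l) ?_
      rw [xi_symm l p]
      push_cast
      linear_combination (-1 : ℂ) * e2
  lohi p := (S.gap.par.lt p).2.1
  piv := hp
  le := by have := S.gap.vw; omega

theorem single {n : ℕ} (hn : 1 ≤ n) {f : ℤ → ℝ} (hf : ∀ j, f (j + n) = f j) (h0 : ∀ j, 0 ≤ f j)
    {B : ℝ} (hB : ∑ j ∈ range n, f (j : ℤ) ≤ B) (j : ℤ) : f j ≤ B := by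
  refine le_trans ?_ hB
  rw [← sum_shift hf j]
  have := Finset.single_le_sum (f := fun i : ℕ => f ((i : ℤ) + j)) (fun i _ => h0 _)
    (Finset.mem_range.2 (show 0 < n by omega))
  simpa using this

theorem Sol.fin {v₀ w₀ : ℤ} (S : Sol n c lo hi v₀ w₀ D A)
    (hpA : ∀ v, v₀ < v → v < w₀ → hi v = lo (v + 1))
    (hpB : ∀ v, w₀ < v → v < v₀ + n → hi v = lo (v + 1)) {r ε F G C : ℝ}
    (hr : ∀ j, |c.ρ j| ≤ r) (hr8 : r ≤ 1 / 8) (hs : ∀ j, |c.s j| ≤ ε)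
    (hε : 3 * (3 * ε + 4 * r) ≤ 1)
    (hF : ∑ j ∈ range n, (3 * |c.Δ (j : ℤ)| + 4 * r * c.g (j : ℤ)) ≤ F)
    (hG : ∑ j ∈ range n, bb c (j : ℤ) ^ 2 ≤ G)
    (hanti : ∀ v l : ℤ, v < l → l < v + n → ‖c.z v - c.z l‖ = 2 → |c.θ l - c.θ v - π| ≤ 1 / 5)
    (hC1 : 2 * F + 4 * r ≤ C) (hC2 : 24 * G ≤ C) :
      (∀ i j, v₀ < i → i ≤ w₀ → v₀ < j → j ≤ w₀ →
        ‖(D i - D j) - (c.z i - c.z j)‖ ≤ ‖c.z i - c.z j‖) ∧
      (∀ i j, w₀ < i → i ≤ v₀ + n → w₀ < j → j ≤ v₀ + n →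
        ‖(D i - D j) + (c.z i - c.z j)‖ ≤ ‖c.z i - c.z j‖) ∧
      (∀ a b, v₀ < a → a ≤ w₀ → w₀ < b → b ≤ v₀ + n →
        ‖(D a - D b) - (c.z a + c.z b)‖ ≤ C) ∧
      (∀ j, ‖A j‖ ≤ C) := by
  have hA := S.sideA hpA
  have hB := S.sideB hpB
  have hρ : ∀ j, |c.ρ j| ≤ 1 / 8 := fun j => (hr j).trans hr8
  have hvw := S.gap.vw
  have hwv := S.gap.wv
  have hG0 : 0 ≤ G := le_trans (Finset.sum_nonneg fun _ _ => sq_nonneg _) hG
  have hp2 := Real.pi_lt_d2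
  have ht1 : ‖c.z v₀ - c.z w₀‖ = 2 := by
    rw [S.gap.hw]
    exact S.gap.ti (S.gap.par.lt v₀).2.1 le_rfl
  have ht2 : ‖c.z w₀ - c.z (v₀ + n)‖ = 2 := by
    rw [← S.gap.h1]
    exact S.gap.ti (S.gap.par.lt w₀).2.1 le_rfl
  have hθ1 := (abs_le.1 (hanti v₀ w₀ hvw hwv ht1)).2
  have hθ2 := (abs_le.1 (hanti w₀ (v₀ + n) hwv (by omega) ht2)).2
  -- ordered versions of (2), (3)
  have key2 : ∀ i j, v₀ < i → i ≤ j → j ≤ w₀ →
      ‖(D j - D i) - (c.z j - c.z i)‖ ≤ ‖c.z j - c.z i‖ := by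
    intro i j h1 h2 h3
    have e1 := (hA.all norm_one hr hr8 hs hF hG h1 h2 h3).2.2
    have m1 := c.mono.monotone h2
    have m2 := c.mono.monotone h3
    have m3 := c.mono.monotone h1.le
    have e2 := dist_low c hρ (i := j) (j := i) m1 (by linarith)
    have e3 : (D j - D i) - (c.z j - c.z i) = (D j - 1 * c.z j) - (D i - 1 * c.z i) := by ring
    rw [e3]
    refine e1.trans (le_trans ?_ e2)
    have := mul_le_mul_of_nonneg_right hε (sub_nonneg.2 m1)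
    linarith
  have key3 : ∀ i j, w₀ < i → i ≤ j → j ≤ v₀ + n →
      ‖(D j - D i) + (c.z j - c.z i)‖ ≤ ‖c.z j - c.z i‖ := by
    intro i j h1 h2 h3
    have e1 := (hB.all (by rw [norm_neg, norm_one]) hr hr8 hs hF hG h1 h2 h3).2.2
    have m1 := c.mono.monotone h2
    have m2 := c.mono.monotone h3
    have m3 := c.mono.monotone h1.le
    have e2 := dist_low c hρ (i := j) (j := i) m1 (by linarith)
    have e3 : (D j - D i) + (c.z j - c.z i) = (D j - (-1) * c.z j) - (D i - (-1) * c.z i) := by ring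
    rw [e3]
    refine e1.trans (le_trans ?_ e2)
    have := mul_le_mul_of_nonneg_right hε (sub_nonneg.2 m1)
    linarith
  have hlo := S.gap.par.lt (v₀ + 1)
  have ht3 : ‖c.z (v₀ + 1) - c.z (w₀ + 1)‖ = 2 := by
    refine S.gap.ti (le_of_eq S.gap.h2) ?_
    rw [← S.gap.h2]
    exact hlo.2.1
  have hrel := hA.rel (v₀ + 1) (w₀ + 1) (by omega) (by omega) (le_of_eq S.gap.h2)
    (by rw [← S.gap.h2]; exact hlo.2.1)
  refine ⟨?_, ?_, ?_, ?_⟩
  · intro i j h1 h2 h3 h4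
    rcases le_total j i with h | h
    · exact key2 j i h3 h h2
    · have := key2 i j h1 h h4
      rw [norm_sub_rev (c.z i)]
      refine le_trans (le_of_eq ?_) this
      rw [← norm_neg]
      congr 1
      ring
  · intro i j h1 h2 h3 h4
    rcases le_total j i with h | h
    · exact key3 j i h3 h h2
    · have := key3 i j h1 h h4
      rw [norm_sub_rev (c.z i)]
      refine le_trans (le_of_eq ?_) this
      rw [← norm_neg]
      congr 1
      ring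
  · intro a b h1 h2 h3 h4
    have e1 := (hA.all norm_one hr hr8 hs hF hG (i := v₀ + 1) (j := a) (by omega) (by omega) h2).1
    have e2 := (hB.all (by rw [norm_neg, norm_one]) hr hr8 hs hF hG (i := w₀ + 1) (j := b)
      (by omega) (by omega) h4).1
    have e3 : ‖D (v₀ + 1) - D (w₀ + 1) - (c.z (v₀ + 1) + c.z (w₀ + 1))‖ ≤ 4 * r := by
      rw [hrel.d]
      have e4 : (1 : ℂ) * (c.z (v₀ + 1) + c.z (w₀ + 1) -
          (((‖c.z (v₀ + 1)‖ ^ 2 - ‖c.z (w₀ + 1)‖ ^ 2) / 4 : ℝ) : ℂ) *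
            (c.z (v₀ + 1) - c.z (w₀ + 1))) - (c.z (v₀ + 1) + c.z (w₀ + 1)) =
          -((((‖c.z (v₀ + 1)‖ ^ 2 - ‖c.z (w₀ + 1)‖ ^ 2) / 4 : ℝ) : ℂ) *
            (c.z (v₀ + 1) - c.z (w₀ + 1))) := by ring
      rw [e4, norm_neg, norm_mul, ht3, Complex.norm_real, Real.norm_eq_abs, abs_div,
        abs_of_pos (by norm_num : (0 : ℝ) < 4)]
      have e5 := sq_lip c hρ (v₀ + 1) (w₀ + 1)
      have e6 := abs_sub (c.ρ (v₀ + 1)) (c.ρ (w₀ + 1))
      have e7 := hr (v₀ + 1)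
      have e8 := hr (w₀ + 1)
      linarith
    have e9 : (D a - D b) - (c.z a + c.z b) = ((D a - 1 * c.z a) - (D (v₀ + 1) - 1 * c.z (v₀ + 1)))
        + (D (v₀ + 1) - D (w₀ + 1) - (c.z (v₀ + 1) + c.z (w₀ + 1)))
        - ((D b - (-1) * c.z b) - (D (w₀ + 1) - (-1) * c.z (w₀ + 1))) := by ring
    rw [e9]
    refine (norm_sub_le _ _).trans ?_
    refine (add_le_add (norm_add_le _ _) le_rfl).trans ?_
    linarith
  · intro j
    obtain ⟨i, h1, h2, h3⟩ := red S.gap.n1 v₀ j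
    rw [per_dvd S.Ap h3]
    by_cases h : i ≤ w₀
    · have e1 := (hA.all norm_one hr hr8 hs hF hG (i := v₀ + 1) (j := i) (by omega) (by omega) h).2.1
      rw [S.A0, sub_zero] at e1
      linarith
    · have e2 := (hB.all (by rw [norm_neg, norm_one]) hr hr8 hs hF hG (i := w₀ + 1) (j := i)
        (by omega) (by omega) h2).2.1
      have e3 := hrel.a
      rw [S.A0, zero_sub, norm_neg] at e3
      have e4 := single S.gap.n1 (f := fun j => bb c j ^ 2) (fun j => by simp only [bb_add])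
        (fun j => sq_nonneg _) hG (v₀ + 1)
      have e5 : A i = (A i - A (w₀ + 1)) + A (w₀ + 1) := by ring
      rw [e5]
      refine (norm_add_le _ _).trans ?_
      linarith

end

end MNGB

open MNGB in
theorem m_NGB : Stmt_TREE → Stmt_ONEGAP → Stmt_XI → Stmt_HOLD → Stmt_ANTI → Stmt_NGB := by
  intro hTREE hONE hXI hHOLD hANTI K
  obtain ⟨nx, hxi⟩ := hXI K
  obtain ⟨Cs, ns, hCs, hhold⟩ := hHOLD K
  obtain ⟨Ca, na, hCa, hanti⟩ := hANTI K
  set K₁ : ℝ := |K| + 1 with hK₁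
  have hK1 : 1 ≤ K₁ := by have := abs_nonneg K; linarith
  have hKK : K ≤ K₁ := by have := le_abs_self K; linarith
  have hpi := Real.pi_pos
  set M : ℝ := 24 * K₁ + 18 * Cs + 5 * Ca with hM
  have hM1 : 1 ≤ M := by linarith
  refine ⟨28 * π * (1 + K₁) + 4 * K₁ + 384 * (K₁ + 16 * π ^ 2),
    max (max na ns) (max nx ⌈M ^ 2⌉₊), by positivity, fun n hn c hc lo hi hpar v₀ hgap => ?_⟩
  have hna : na ≤ n := (le_max_left _ _).trans ((le_max_left _ _).trans hn)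
  have hns : ns ≤ n := (le_max_right _ _).trans ((le_max_left _ _).trans hn)
  have hnx : nx ≤ n := (le_max_left _ _).trans ((le_max_right _ _).trans hn)
  have hnM : M ^ 2 ≤ n := (Nat.le_ceil _).trans
    (by exact_mod_cast (le_max_right _ _).trans ((le_max_right _ _).trans hn))
  have hnR1 : (1 : ℝ) ≤ n := le_trans (by nlinarith) hnM
  have hn1 : 1 ≤ n := by exact_mod_cast hnR1
  have hnR : (0 : ℝ) < n := by linarith
  have hsq : M ≤ Real.sqrt n := Real.le_sqrt_of_sq_le hnM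
  have hsq0 : 0 < Real.sqrt n := by linarith
  have hMn : M ≤ n := by nlinarith
  have hr' : K₁ / n ≤ 1 / 24 := by
    rw [div_le_iff₀ hnR]
    linarith
  have hs' : Cs / Real.sqrt n ≤ 1 / 18 := by
    rw [div_le_iff₀ hsq0]
    linarith
  have ha' : Ca / Real.sqrt n ≤ 1 / 5 := by
    rw [div_le_iff₀ hsq0]
    linarith
  obtain ⟨hys, -⟩ := hhold n hns c hc
  obtain ⟨g1, g2, g3, g4, g5⟩ := hONE n c lo hi hn1 hc.opt hpar v₀ hgap
  obtain ⟨D', hDp, hD0, hDe⟩ := hTREE n c lo hi hn1 hc.opt hpar v₀ hgap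
    (fun a b => xi c a b * Complex.I * (c.z a - c.z b))
  obtain ⟨A, hAp, hA0, hAe⟩ := hTREE n c lo hi hn1 hc.opt hpar v₀ hgap
    (fun a b => -(xi c a b : ℂ) ^ 2 * (c.z a - c.z b))
  have hgb : ∀ j, c.g j ≤ 4 * π / n := by
    intro j
    rw [c.g_eq hn1]
    have h1 := (abs_le.1 ((hys j).1.trans hs')).2
    have h2 : 0 < 2 * π / n := by positivity
    calc 2 * π / n * (1 + c.y j) ≤ 2 * π / n * 2 :=
          mul_le_mul_of_nonneg_left (by linarith) h2.le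
      _ = 4 * π / n := by ring
  have hs2 : ∑ j ∈ range n, c.s (j : ℤ) ^ 2 ≤ K₁ / n :=
    hc.hs.trans (div_le_div_of_nonneg_right hKK hnR.le)
  have S : Sol n c lo hi v₀ (hi v₀) D' A :=
    { gap := ⟨hpar, hn1, rfl, g1, g2, g3⟩
      ob := fun a b h => by
        have := hxi n hnx c hc a b h
        unfold bb xi
        exact this
      Dp := hDp
      Ap := hAp
      A0 := hA0
      eD := hDe
      eA := hAe }
  have hΔ : ∑ j ∈ range n, |c.Δ (j : ℤ)| ≤ 2 * π * (1 + K₁) / n := by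
    have h1 : ∑ j ∈ range n, |c.Δ (j : ℤ)| ≤
        ∑ j ∈ range n, 4 * π / n * ((1 / n + n * c.s (j : ℤ) ^ 2) / 2) := by
      refine Finset.sum_le_sum fun (j : ℕ) _ => ?_
      have hg := c.g_pos (j : ℤ)
      have e1 : |c.Δ (j : ℤ)| = c.g j * |c.s (j : ℤ)| := by
        have : c.Δ (j : ℤ) = c.g j * c.s j := by
          unfold Cfg.s
          rw [mul_div_cancel₀ _ hg.ne']
        rw [this, abs_mul, abs_of_pos hg]
      have e2 : |c.s (j : ℤ)| ≤ (1 / n + n * c.s (j : ℤ) ^ 2) / 2 := by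
        rw [← sq_abs (c.s (j : ℤ))]
        have h3 : 1 / (n : ℝ) + n * |c.s (j : ℤ)| ^ 2 - 2 * |c.s (j : ℤ)| =
            n * (|c.s (j : ℤ)| - 1 / n) ^ 2 := by
          field_simp
          ring
        have h4 : 0 ≤ n * (|c.s (j : ℤ)| - 1 / n) ^ 2 := by positivity
        linarith
      rw [e1]
      exact mul_le_mul (hgb _) e2 (abs_nonneg _) (by positivity)
    refine h1.trans ?_
    rw [← Finset.mul_sum, ← Finset.sum_div, Finset.sum_add_distrib, ← Finset.mul_sum]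
    simp only [Finset.sum_const, Finset.card_range, nsmul_eq_mul]
    have h5 : (n : ℝ) * (1 / n) = 1 := by field_simp
    have h6 : n * ∑ j ∈ range n, c.s (j : ℤ) ^ 2 ≤ K₁ := by
      have := mul_le_mul_of_nonneg_left hs2 hnR.le
      rwa [mul_div_cancel₀ _ hnR.ne'] at this
    rw [h5]
    have h7 : 0 ≤ 4 * π / n := by positivity
    calc 4 * π / n * ((1 + n * ∑ j ∈ range n, c.s (j : ℤ) ^ 2) / 2) ≤
          4 * π / n * ((1 + K₁) / 2) := mul_le_mul_of_nonneg_left (by linarith) h7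
      _ = 2 * π * (1 + K₁) / n := by ring
  have hF : ∑ j ∈ range n, (3 * |c.Δ (j : ℤ)| + 4 * (K₁ / n) * c.g (j : ℤ)) ≤
      14 * π * (1 + K₁) / n := by
    rw [Finset.sum_add_distrib, ← Finset.mul_sum, ← Finset.mul_sum, c.sum_g]
    have e1 : 14 * π * (1 + K₁) / n = 3 * (2 * π * (1 + K₁) / n) + 4 * (K₁ / n) * (2 * π) +
        8 * π / n := by ring
    have e2 : 0 ≤ 8 * π / n := by positivity
    rw [e1]
    linarith
  have hG : ∑ j ∈ range n, bb c (j : ℤ) ^ 2 ≤ 16 * ((K₁ + 16 * π ^ 2) / n) := by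
    refine bb_sum c (hs2.trans (div_le_div_of_nonneg_right
      (by have := sq_nonneg π; linarith) hnR.le)) ?_
    have h1 : ∑ j ∈ range n, c.g (j : ℤ) ^ 2 ≤ ∑ j ∈ range n, (4 * π / n) ^ 2 :=
      Finset.sum_le_sum fun (j : ℕ) _ => pow_le_pow_left₀ (c.g_pos _).le (hgb _) 2
    refine h1.trans ?_
    rw [Finset.sum_const, Finset.card_range, nsmul_eq_mul]
    have e1 : (n : ℝ) * (4 * π / n) ^ 2 = 16 * π ^ 2 / n := by
      field_simp
      ring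
    rw [e1]
    exact div_le_div_of_nonneg_right (by linarith) hnR.le
  have hfin := S.fin g4 g5 (r := K₁ / n) (ε := Cs / Real.sqrt n)
    (C := (28 * π * (1 + K₁) + 4 * K₁ + 384 * (K₁ + 16 * π ^ 2)) / n)
    (fun j => (hc.hρ j).trans (div_le_div_of_nonneg_right hKK hnR.le)) (by linarith)
    (fun j => (hys j).2) (by linarith) hF hG
    (fun v l h1 h2 h3 => ((hanti n hna c hc v l h1 h2 h3).1).trans ha')
    (by
      have e1 : (28 * π * (1 + K₁) + 4 * K₁ + 384 * (K₁ + 16 * π ^ 2)) / (n : ℝ) =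
        2 * (14 * π * (1 + K₁) / n) + 4 * (K₁ / n) + 384 * (K₁ + 16 * π ^ 2) / n := by ring
      have e2 : 0 ≤ 384 * (K₁ + 16 * π ^ 2) / n := by positivity
      rw [e1]
      linarith)
    (by
      have e1 : (28 * π * (1 + K₁) + 4 * K₁ + 384 * (K₁ + 16 * π ^ 2)) / (n : ℝ) =
        24 * (16 * ((K₁ + 16 * π ^ 2) / n)) + (28 * π * (1 + K₁) + 4 * K₁) / n := by ring
      have e2 : 0 ≤ (28 * π * (1 + K₁) + 4 * K₁) / n := by positivity
      rw [e1]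
      linarith)
  exact ⟨D', A, hDp, hAp, fun i j h => S.one h, hfin.1, hfin.2.1, hfin.2.2.1, hfin.2.2.2⟩

end Pool.Agent.EHP
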