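import Pool.Agent.EHP.Stmts3

/-!
# There is no gap
-/

open Finset
open scoped Real ComplexConjugate

namespace Pool.Agent.EHP

theorem ng_Ioc {M : Type*} [AddCommGroup M] {n : ℕ} {f : ℤ → M} (hf : ∀ j, f (j + n) = f j)
    (v : ℤ) : ∑ j ∈ Finset.Ioc v (v + n), f j = ∑ j ∈ range n, f (j : ℤ) := by
  rw [← sum_shift hf (v + 1)]
  symm
  apply Finset.sum_nbij' (fun k : ℕ => (k : ℤ) + (v + 1)) (fun a : ℤ => (a - (v + 1)).toNat)
  · intro k hk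
    rw [Finset.mem_range] at hk
    rw [Finset.mem_Ioc]
    constructor <;> omega
  · intro a ha
    rw [Finset.mem_Ioc] at ha
    rw [Finset.mem_range]
    omega
  · intro k _
    simp
  · intro a ha
    rw [Finset.mem_Ioc] at ha
    have : 0 ≤ a - (v + 1) := by omega
    rw [Int.toNat_of_nonneg this]; ring
  · intro k _
    rfl

theorem ng_pairs {M : Type*} [AddCommGroup M] {n : ℕ} (hn : 1 ≤ n) {G : ℤ → ℤ → M}
    (h1 : ∀ i j, G (i + n) j = G i j) (h2 : ∀ i j, G i (j + n) = G i j) (h0 : ∀ j, G j j = 0)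
    (v : ℤ) :
    ∑ j ∈ range n, ∑ d ∈ Ico 1 n, G ((j : ℤ) + (d : ℤ)) (j : ℤ) =
      ∑ j ∈ Finset.Ioc v (v + n), ∑ i ∈ Finset.Ioc v (v + n), G i j := by
  rw [ng_Ioc (f := fun j => ∑ i ∈ Finset.Ioc v (v + n), G i j) (fun j => by simp only [h2]) v]
  apply Finset.sum_congr rfl
  intro j _
  rw [ng_Ioc (f := fun i => G i (j : ℤ)) (fun i => h1 i _) v]
  rw [← sum_shift (f := fun i => G i (j : ℤ)) (fun i => h1 i _) (j : ℤ)]
  have e : ∑ d ∈ range n, G ((d : ℤ) + (j : ℤ)) (j : ℤ) =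
      ∑ d ∈ Ico 1 n, G ((d : ℤ) + (j : ℤ)) (j : ℤ) := by
    rw [Finset.range_eq_Ico, Finset.sum_eq_sum_Ico_succ_bot (by omega : 0 < n)]
    simp [h0]
  rw [e]
  apply Finset.sum_congr rfl
  intro d _
  rw [add_comm]

theorem ng_same {u w : ℂ} (h : ‖u‖ ≤ 2 * ‖w‖) : -4 ≤ (-(u / w) ^ 2).re := by
  have h1 : ‖u / w‖ ≤ 2 := by
    rw [norm_div]
    rcases eq_or_ne w 0 with rfl | hw
    · simp
    · rw [div_le_iff₀ (norm_pos_iff.2 hw)]; exact h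
  have h2 : ‖(u / w) ^ 2‖ ≤ 4 := by
    rw [norm_pow]
    have := norm_nonneg (u / w)
    nlinarith
  have h3 := (abs_le.1 (Complex.abs_re_le_norm (-(u / w) ^ 2))).1
  rw [norm_neg] at h3
  linarith

theorem ng_diff {c e : ℂ} {C q : ℝ} (hq : 0 ≤ q) (he : ‖e‖ ≤ C)
    (hc : ‖c‖ ^ 2 ≤ 2 + q) (hr : 0.97 * q - 0.03 ≤ (-c ^ 2).re) :
    0.8 * q - (1 + 11 * C ^ 2) ≤ (-(c + e) ^ 2).re := by
  have e1 : (-(c + e) ^ 2).re = (-c ^ 2).re - 2 * (c * e).re - (e ^ 2).re := by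
    have : -(c + e) ^ 2 = -c ^ 2 - 2 * (c * e) - e ^ 2 := by ring
    rw [this]
    simp
  have h1 : (c * e).re ≤ ‖c‖ * ‖e‖ := by
    rw [← norm_mul]; exact Complex.re_le_norm _
  have h2 : (e ^ 2).re ≤ ‖e‖ ^ 2 := by
    rw [← norm_pow]; exact Complex.re_le_norm _
  have h3 : ‖e‖ ^ 2 ≤ C ^ 2 := pow_le_pow_left₀ (norm_nonneg _) he 2
  have h4 : 2 * (‖c‖ * ‖e‖) ≤ 0.1 * ‖c‖ ^ 2 + 10 * ‖e‖ ^ 2 := by
    nlinarith [sq_nonneg (‖c‖ - 10 * ‖e‖)]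
  rw [e1]
  nlinarith

theorem ng_sinh {y : ℝ} (hy : |y| ≤ 1) : Real.sinh y ^ 2 ≤ 4 * y ^ 2 := by
  have h1 := Real.abs_exp_sub_one_le hy
  have h2 := Real.abs_exp_sub_one_le (x := -y) (by rwa [abs_neg])
  rw [abs_neg] at h2
  have e : Real.sinh y = ((Real.exp y - 1) - (Real.exp (-y) - 1)) / 2 := by
    rw [Real.sinh_eq]; ring
  have h3 : |Real.sinh y| ≤ 2 * |y| := by
    rw [e, abs_div, abs_two]
    have := abs_sub (Real.exp y - 1) (Real.exp (-y) - 1)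
    linarith
  have h4 : |Real.sinh y| ^ 2 ≤ (2 * |y|) ^ 2 := pow_le_pow_left₀ (abs_nonneg _) h3 2
  rw [sq_abs, mul_pow, sq_abs] at h4
  linarith

theorem ng_jordan {X t : ℝ} (h0 : 0 ≤ X) (h1 : X ≤ π) (h2 : t ≤ X) (h3 : t ≤ π - X) :
    2 / π * t ≤ Real.sin X := by
  have hp : 0 ≤ 2 / π := by positivity
  rcases le_total X (π / 2) with h | h
  · exact le_trans (mul_le_mul_of_nonneg_left h2 hp) (Real.mul_le_sin h0 h)
  · rw [← Real.sin_pi_sub]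
    exact le_trans (mul_le_mul_of_nonneg_left h3 hp)
      (Real.mul_le_sin (by linarith) (by linarith))

/-- The pointwise lower bound for pairs across the gap. -/
theorem ng_cross {n : ℕ} {K C : ℝ} {c : Cfg n} (hCOTRE : Stmt_COTRE) (hn : 1 ≤ n)
    (hK4 : K / n ≤ 1 / 4) (hC : 0 < C) (hρ : ∀ j, |c.ρ j| ≤ K / n)
    (hg : ∀ j, π / n ≤ c.g j)
    (hslope : ∀ i j, |c.ρ i - c.ρ j| ≤ 1 / 40 * |c.θ i - c.θ j|)
    {a b : ℤ} (hab : a < b) (hba : b < a + n) {u : ℂ}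
    (hu : ‖u - (c.z a + c.z b)‖ ≤ C / n) :
    0.8 * (Real.cos (c.X b a) ^ 2 / Real.sin (c.X b a) ^ 2) - (1 + 11 * C ^ 2) ≤
      (-(u / (c.z a - c.z b)) ^ 2).re := by
  have hnpos : (0 : ℝ) < n := by exact_mod_cast hn
  have hπ := Real.pi_pos
  -- position of X
  have hθ1 : c.g a ≤ c.θ b - c.θ a := by
    unfold Cfg.g
    have := c.mono.monotone (show a + 1 ≤ b by omega)
    linarith
  have hθ2 : c.θ b - c.θ a ≤ 2 * π - c.g (a + n - 1) := by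
    unfold Cfg.g
    have h1 := c.mono.monotone (show b ≤ a + n - 1 by omega)
    have h2 := c.θ_add a
    rw [show a + (n : ℤ) - 1 + 1 = a + n by ring]
    linarith
  have hXdef : c.X b a = (c.θ b - c.θ a) / 2 := rfl
  have hga := hg a
  have hgb := hg (a + n - 1)
  have hX1 : π / (2 * n) ≤ c.X b a := by
    rw [hXdef]
    have : π / (2 * n) = (π / n) / 2 := by ring
    linarith
  have hX2 : π / (2 * n) ≤ π - c.X b a := by
    rw [hXdef]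
    have : π / (2 * n) = (π / n) / 2 := by ring
    linarith
  have hpn : 0 < π / (2 * n) := by positivity
  set X := c.X b a with hX
  set Y := c.Y b a with hY
  have hX0 : 0 ≤ X := by linarith
  have hXπ : X ≤ π := by linarith
  have hsin1 : 1 / n ≤ Real.sin X := by
    have h := ng_jordan hX0 hXπ hX1 hX2
    have e : 2 / π * (π / (2 * n)) = 1 / n := by field_simp
    rwa [e] at h
  have hsinpos : 0 < Real.sin X := lt_of_lt_of_le (by positivity) hsin1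
  -- Y is small compared with sin X
  have hY1 : 40 * |Y| ≤ X := by
    have h := hslope b a
    have e1 : |Y| = |c.ρ b - c.ρ a| / 2 := by
      rw [hY]; unfold Cfg.Y; rw [abs_div, abs_two]
    have e2 : |c.θ b - c.θ a| = 2 * X := by
      rw [hXdef, abs_of_pos (by linarith [c.g_pos a])]; ring
    rw [e2] at h
    rw [e1]; linarith
  have hY2 : 40 * |Y| ≤ π - X := by
    have h := hslope b (a + n)
    have e1 : |Y| = |c.ρ b - c.ρ a| / 2 := by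
      rw [hY]; unfold Cfg.Y; rw [abs_div, abs_two]
    have e2 : |c.θ b - c.θ (a + n)| = 2 * (π - X) := by
      rw [abs_sub_comm, c.θ_add, hXdef, abs_of_pos (by linarith [c.g_pos (a + n - 1)])]
      ring
    rw [e2, c.ρ_add] at h
    rw [e1]; linarith
  have hYs : |Y| ≤ 0.04 * Real.sin X := by
    have h := ng_jordan hX0 hXπ hY1 hY2
    have h1 : 2 / π * (40 * |Y|) = 80 * |Y| / π := by ring
    rw [h1, div_le_iff₀ hπ] at h
    have h2 : Real.sin X * π ≤ Real.sin X * 3.2 := by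
      apply mul_le_mul_of_nonneg_left _ hsinpos.le
      have := Real.pi_lt_d2
      linarith
    linarith
  have hs1 := Real.sin_le_one X
  have hsinh : Real.sinh Y ^ 2 ≤ 0.0064 * Real.sin X ^ 2 := by
    have h1 := ng_sinh (y := Y) (by linarith)
    have h2 : |Y| ^ 2 ≤ (0.04 * Real.sin X) ^ 2 := pow_le_pow_left₀ (abs_nonneg _) hYs 2
    rw [sq_abs] at h2
    nlinarith
  set q := Real.cos X ^ 2 / Real.sin X ^ 2 with hq
  have hq0 : 0 ≤ q := by positivity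
  have hinv : 1 / Real.sin X ^ 2 = 1 + q := by
    rw [hq]
    have := Real.sin_sq_add_cos_sq X
    field_simp
    linarith
  have hsq : ((-1 : ℂ)) ^ 2 = 1 := by norm_num
  -- the square of cc
  have hre : 0.97 * q - 0.03 ≤ (-(cc c.z a b) ^ 2).re := by
    have h := hCOTRE n c b a hsinpos.ne'
    have e : cc c.z a b ^ 2 = cc c.z b a ^ 2 := by
      unfold cc
      have : (c.z a + c.z b) / (c.z a - c.z b) = -((c.z b + c.z a) / (c.z b - c.z a)) := by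
        rw [← div_neg]; congr 1 <;> ring
      rw [this, neg_sq]
    rw [e]
    refine le_trans ?_ h
    rw [← hX, ← hY, ← hq]
    have h1 : 3 * Real.sinh Y ^ 2 / Real.sin X ^ 4 ≤ 0.0192 * (1 + q) := by
      rw [← hinv]
      rw [div_le_iff₀ (by positivity)]
      have e2 : 0.0192 * (1 / Real.sin X ^ 2) * Real.sin X ^ 4 = 0.0192 * Real.sin X ^ 2 := by
        field_simp
      rw [e2]
      linarith
    linarith
  have hdist : ‖c.z a - c.z b‖ ^ 2 =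
      4 * Real.exp (c.ρ b + c.ρ a) * (Real.sin X ^ 2 + Real.sinh Y ^ 2) := by
    rw [norm_sub_rev, c.dist_sq b a]
  have hexp : (1 : ℝ) / 2 ≤ Real.exp (c.ρ b + c.ρ a) := by
    have h1 := Real.add_one_le_exp (c.ρ b + c.ρ a)
    have h2 := (abs_le.1 (hρ a)).1
    have h3 := (abs_le.1 (hρ b)).1
    linarith
  have hsh0 : 0 ≤ Real.sinh Y ^ 2 := sq_nonneg _
  have hss0 : 0 < Real.sin X ^ 2 := by positivity
  have hlow : 1 / n ≤ ‖c.z a - c.z b‖ := by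
    have h1 : (1 / (n : ℝ)) ^ 2 ≤ ‖c.z a - c.z b‖ ^ 2 := by
      rw [hdist]
      have h2 : (1 / (n : ℝ)) ^ 2 ≤ Real.sin X ^ 2 := pow_le_pow_left₀ (by positivity) hsin1 2
      have h3 : Real.sin X ^ 2 ≤ Real.sin X ^ 2 + Real.sinh Y ^ 2 := by linarith
      nlinarith
    exact (pow_le_pow_iff_left₀ (by positivity) (norm_nonneg _) (by norm_num)).1 h1
  have hzpos : 0 < ‖c.z a - c.z b‖ := lt_of_lt_of_le (by positivity) hlow
  have hzne : c.z a - c.z b ≠ 0 := norm_pos_iff.1 hzpos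
  have hcc : ‖cc c.z a b‖ ^ 2 ≤ 2 + q := by
    have e1 : cc c.z a b ^ 2 = 1 + 4 * (c.z a * c.z b) / (c.z a - c.z b) ^ 2 := by
      unfold cc
      field_simp
      ring
    have h1 : ‖cc c.z a b‖ ^ 2 ≤ 1 + 4 * (‖c.z a‖ * ‖c.z b‖) / ‖c.z a - c.z b‖ ^ 2 := by
      rw [← norm_pow, e1]
      refine le_trans (norm_add_le _ _) ?_
      rw [norm_one, norm_div, norm_mul, norm_mul, norm_pow]
      simp
    refine le_trans h1 ?_
    have e2 : ‖c.z a‖ * ‖c.z b‖ = Real.exp (c.ρ b + c.ρ a) := by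
      rw [c.norm_z, c.norm_z, ← Real.exp_add, add_comm]
    rw [hdist, e2]
    have hE := Real.exp_pos (c.ρ b + c.ρ a)
    have e3 : 4 * Real.exp (c.ρ b + c.ρ a) / (4 * Real.exp (c.ρ b + c.ρ a) *
        (Real.sin X ^ 2 + Real.sinh Y ^ 2)) = 1 / (Real.sin X ^ 2 + Real.sinh Y ^ 2) := by
      have : Real.sin X ^ 2 + Real.sinh Y ^ 2 ≠ 0 := by positivity
      field_simp
    rw [e3]
    have h4 : 1 / (Real.sin X ^ 2 + Real.sinh Y ^ 2) ≤ 1 / Real.sin X ^ 2 :=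
      one_div_le_one_div_of_le hss0 (by linarith)
    rw [hinv] at h4
    linarith
  have herr : ‖u / (c.z a - c.z b) - cc c.z a b‖ ≤ C := by
    have e1 : u / (c.z a - c.z b) - cc c.z a b = (u - (c.z a + c.z b)) / (c.z a - c.z b) := by
      unfold cc; rw [sub_div]
    rw [e1, norm_div, div_le_iff₀ hzpos]
    refine le_trans hu ?_
    have : C / n = C * (1 / n) := by ring
    rw [this]
    exact mul_le_mul_of_nonneg_left hlow hC.le
  have hfin := ng_diff hq0 herr hcc hre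
  rwa [add_sub_cancel] at hfin

/-- The acceleration term. -/
theorem ng_acc {n : ℕ} {K C : ℝ} {c : Cfg n} (hFBH : Stmt_FBH) (hn : 1 ≤ n) (hC : 0 < C)
    (hK4 : K / n ≤ 1 / 4) (hc : Reg n K c) {A : ℤ → ℂ} (hAp : ∀ j, A (j + n) = A j)
    (hAb : ∀ j, ‖A j‖ ≤ C / n) :
    ‖∑ j ∈ range n, ∑ d ∈ Ico 1 n,
      (A ((j : ℤ) + (d : ℤ)) - A (j : ℤ)) / (c.z ((j : ℤ) + (d : ℤ)) - c.z (j : ℤ))‖ ≤
      2 * C * (n + 1 + K) := by
  have hnpos : (0 : ℝ) < n := by exact_mod_cast hn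
  have e1 : ∑ j ∈ range n, ∑ d ∈ Ico 1 n,
      (A ((j : ℤ) + (d : ℤ)) - A (j : ℤ)) / (c.z ((j : ℤ) + (d : ℤ)) - c.z (j : ℤ)) =
      2 * ∑ j ∈ range n, A (j : ℤ) * fb n c.z (j : ℤ) := by
    have e2 : ∀ j d : ℕ,
        (A ((j : ℤ) + (d : ℤ)) - A (j : ℤ)) / (c.z ((j : ℤ) + (d : ℤ)) - c.z (j : ℤ)) =
        A ((j : ℤ) + (d : ℤ)) / (c.z ((j : ℤ) + (d : ℤ)) - c.z (j : ℤ)) +
        A (j : ℤ) / (c.z (j : ℤ) - c.z ((j : ℤ) + (d : ℤ))) := by
      intro j d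
      rw [sub_div, sub_eq_add_neg]
      congr 1
      rw [← div_neg, neg_sub]
    simp only [e2, Finset.sum_add_distrib]
    have e3 := sum_swap (n := n) (F := fun i j => A i / (c.z i - c.z j))
      (fun i j => by simp only [hAp, c.z_add]) (fun i j => by simp only [c.z_add])
    rw [e3, ← two_mul]
    congr 1
    apply Finset.sum_congr rfl
    intro j _
    unfold fb
    rw [Finset.mul_sum]
    apply Finset.sum_congr rfl
    intro d _
    rw [mul_one_div]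
  rw [e1, norm_mul]
  have h2 : ‖(2 : ℂ)‖ = 2 := by simp
  rw [h2]
  have hfb : ∀ j : ℤ, ‖fb n c.z j‖ ≤ n + 1 + ‖HH n c.z j‖ ^ 2 := by
    intro j
    have h := hFBH n c.z hn hc.opt.pts j
    have h3 : ‖c.z j‖ * ‖fb n c.z j‖ ≤ (n : ℝ) / 2 + ‖HH n c.z j‖ := by
      rw [← norm_mul, h]
      refine le_trans (norm_add_le _ _) ?_
      have : ‖((n : ℂ) - 1) / 2‖ ≤ (n : ℝ) / 2 := by
        have e : ((n : ℂ) - 1) / 2 = ((((n : ℝ) - 1) / 2 : ℝ) : ℂ) := by push_cast; ring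
        rw [e, Complex.norm_real, Real.norm_eq_abs, abs_le]
        have : (1 : ℝ) ≤ n := by exact_mod_cast hn
        constructor <;> linarith
      linarith
    have h4 : (1 : ℝ) / 2 ≤ ‖c.z j‖ := by
      rw [c.norm_z]
      have h5 := Real.add_one_le_exp (c.ρ j)
      have h6 := (abs_le.1 (hc.hρ j)).1
      linarith
    have h7 := norm_nonneg (fb n c.z j)
    have h8 : 2 * ‖HH n c.z j‖ ≤ 1 + ‖HH n c.z j‖ ^ 2 := by
      nlinarith [sq_nonneg (‖HH n c.z j‖ - 1)]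
    nlinarith
  have h3 : ‖∑ j ∈ range n, A (j : ℤ) * fb n c.z (j : ℤ)‖ ≤
      ∑ j ∈ range n, C / n * (n + 1 + ‖HH n c.z (j : ℤ)‖ ^ 2) := by
    refine le_trans (norm_sum_le _ _) ?_
    apply Finset.sum_le_sum
    intro j _
    rw [norm_mul]
    exact mul_le_mul (hAb j) (hfb j) (norm_nonneg _) (by positivity)
  have h4 : ∑ j ∈ range n, C / n * (n + 1 + ‖HH n c.z (j : ℤ)‖ ^ 2) ≤ C * (n + 1 + K) := by
    rw [← Finset.mul_sum, Finset.sum_add_distrib, Finset.sum_const, Finset.card_range,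
      nsmul_eq_mul]
    have h5 := hc.hH
    have h6 : C / n * ((n : ℝ) * (n + 1) + ∑ j ∈ range n, ‖HH n c.z (j : ℤ)‖ ^ 2) ≤
        C / n * ((n : ℝ) * (n + 1) + K * n) := by
      apply mul_le_mul_of_nonneg_left _ (by positivity)
      linarith
    refine le_trans h6 (le_of_eq ?_)
    field_simp
  linarith

theorem m_NOGAP : Stmt_NGB → Stmt_SV → Stmt_FBH → Stmt_COTRE → Stmt_JUNC → Stmt_ANTI →
    Stmt_RNICE → Stmt_NOGAP := by
  intro hNGB hSV hFBH hCOTRE hJUNC hANTI hRNICE K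
  obtain ⟨C, n1, hC, hNGB⟩ := hNGB K
  obtain ⟨CJ, n2, hCJ, hJUNC⟩ := hJUNC K
  obtain ⟨CA, n3, hCA, hANTI⟩ := hANTI K
  obtain ⟨n4, hRNICE⟩ := hRNICE K (1 / 40) (by norm_num)
  obtain ⟨B, hB⟩ : ∃ B : ℝ, B = 1000 * (6 + 2 * CJ + 22 * C ^ 2 + 2 * C * (2 + |K|)) := ⟨_, rfl⟩
  refine ⟨n1 + n2 + n3 + n4 + ⌈Real.exp (B + 1)⌉₊ + ⌈4 * |K|⌉₊ + ⌈16 * CA ^ 2⌉₊ + 2, ?_⟩
  intro n hn c hc lo hi hpar v₀
  by_contra hne
  have hgap : hi v₀ < lo (v₀ + 1) := lt_of_le_of_ne (hpar.step v₀) hne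
  have hn1 : 1 ≤ n := by omega
  have hnpos : (0 : ℝ) < n := by exact_mod_cast hn1
  have hn1R : (1 : ℝ) ≤ n := by exact_mod_cast hn1
  have hπ := Real.pi_pos
  have hK0 : 0 ≤ K := by
    have h := le_trans (abs_nonneg _) (hc.hρ 0)
    by_contra hlt
    push Not at hlt
    have := div_neg_of_neg_of_pos hlt hnpos
    linarith
  have hKabs : |K| = K := abs_of_nonneg hK0
  have hK4 : K / n ≤ 1 / 4 := by
    have h : (4 * |K|) ≤ n := le_trans (Nat.le_ceil _) (by exact_mod_cast (by omega))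
    rw [div_le_iff₀ hnpos]
    rw [hKabs] at h
    linarith
  have hCAn : CA * Real.sqrt n ≤ n / 4 := by
    have h : 16 * CA ^ 2 ≤ n := le_trans (Nat.le_ceil _) (by exact_mod_cast (by omega))
    have hs := Real.sqrt_nonneg (n : ℝ)
    have hs2 := Real.sq_sqrt hnpos.le
    have h4 : 4 * CA ≤ Real.sqrt n := by
      apply Real.le_sqrt_of_sq_le
      nlinarith
    nlinarith
  have hlogn : B + 1 ≤ Real.log n := by
    have h : Real.exp (B + 1) ≤ n := le_trans (Nat.le_ceil _) (by exact_mod_cast (by omega))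
    rw [← Real.log_exp (B + 1)]
    exact Real.log_le_log (Real.exp_pos _) h
  have hnice := hRNICE n (by omega) c hc
  obtain ⟨D, A, hDp, hAp, hrot, hsA, hsB, hAB, hAb⟩ := hNGB n (by omega) c hc lo hi hpar v₀ hgap
  have hSV' := hSV n c.z hc.opt D A hDp hAp hrot
  obtain ⟨hl1, hl2, hl3⟩ := hpar.lt v₀
  obtain ⟨w₀, hw₀⟩ : ∃ w, w = hi v₀ := ⟨_, rfl⟩
  rw [← hw₀] at hsA hsB hAB hl2 hl3
  have hvw : v₀ < w₀ := by omega
  have hwv : w₀ < v₀ + n := by omega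
  -- position of w₀
  have htight : ‖c.z v₀ - c.z w₀‖ = 2 := (hpar.tight v₀ w₀ hvw hwv).2 ⟨hl2, by rw [hw₀]⟩
  have hpos := (hANTI n (by omega) c hc v₀ w₀ hvw hwv htight).2
  have hpos' := abs_le.1 (le_trans hpos hCAn)
  have hJ1 : v₀ + (n : ℤ) / 4 ≤ w₀ := by
    have h1 : (n : ℝ) ≤ 4 * ((w₀ - v₀ : ℤ) : ℝ) := by linarith [hpos'.1]
    have h2 : (n : ℤ) ≤ 4 * (w₀ - v₀) := by exact_mod_cast h1
    omega
  have hJ2 : w₀ + (n : ℤ) / 4 ≤ v₀ + n := by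
    have h1 : 4 * ((w₀ - v₀ : ℤ) : ℝ) ≤ 3 * (n : ℝ) := by linarith [hpos'.2]
    have h2 : 4 * (w₀ - v₀) ≤ 3 * (n : ℤ) := by exact_mod_cast h1
    omega
  have hJ := hJUNC n (by omega) c hc v₀ w₀ hJ1 hJ2
  -- the gaps
  have hy1 : ∀ j : ℤ, -(1 / 2) ≤ c.y j := by
    have h0 : ∀ j : ℕ, j ∈ range n → -(1 / 2) ≤ c.y (j : ℤ) := by
      intro j hj
      have h := Finset.single_le_sum (f := fun j : ℕ => c.y (j : ℤ) ^ 2)
        (fun i _ => sq_nonneg _) hj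
      have h' : c.y (j : ℤ) ^ 2 ≤ K / n := le_trans h hc.hy
      nlinarith
    intro j
    rw [← per_mod c.y_add j]
    have hm0 := Int.emod_nonneg j (show (n : ℤ) ≠ 0 by omega)
    have hm1 := Int.emod_lt_of_pos j (show (0 : ℤ) < n by omega)
    have := h0 (j % n).toNat (by rw [Finset.mem_range]; omega)
    rwa [Int.toNat_of_nonneg hm0] at this
  have hg : ∀ j : ℤ, π / n ≤ c.g j := by
    intro j
    rw [c.g_eq hn1]
    have h3 : 0 ≤ 2 * π / n := by positivity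
    have h4 : 2 * π / n * (1 / 2) ≤ 2 * π / n * (1 + c.y j) := by
      apply mul_le_mul_of_nonneg_left _ h3
      linarith [hy1 j]
    refine le_trans (le_of_eq ?_) h4
    ring
  -- the function G
  obtain ⟨G, hGdef⟩ : ∃ G : ℤ → ℤ → ℝ, ∀ i j, G i j = (-((D i - D j) / (c.z i - c.z j)) ^ 2).re :=
    ⟨_, fun _ _ => rfl⟩
  have hG1 : ∀ i j, G (i + n) j = G i j := by
    intro i j; rw [hGdef, hGdef, hDp, c.z_add]
  have hG2 : ∀ i j, G i (j + n) = G i j := by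
    intro i j; rw [hGdef, hGdef, hDp, c.z_add]
  have hG0 : ∀ j, G j j = 0 := by
    intro j; rw [hGdef]; simp
  have hGs : ∀ i j, G i j = G j i := by
    intro i j
    rw [hGdef, hGdef]
    have : (D i - D j) / (c.z i - c.z j) = (D j - D i) / (c.z j - c.z i) := by
      rw [← neg_sub (D j) (D i), ← neg_sub (c.z j) (c.z i), neg_div_neg_eq]
    rw [this]
  have hpairs := ng_pairs hn1 hG1 hG2 hG0 v₀
  -- upper bound
  have hup : ∑ j ∈ range n, ∑ d ∈ Ico 1 n, G ((j : ℤ) + (d : ℤ)) (j : ℤ) ≤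
      2 * C * (n + 1 + K) := by
    have hacc := ng_acc hFBH hn1 hC hK4 hc hAp hAb
    have h1 := (abs_le.1 (le_trans (Complex.abs_re_le_norm _) hacc)).1
    have e1 : (∑ j ∈ range n, ∑ d ∈ Ico 1 n,
      ((A ((j : ℤ) + (d : ℤ)) - A (j : ℤ)) / (c.z ((j : ℤ) + (d : ℤ)) - c.z (j : ℤ)) -
        ((D ((j : ℤ) + (d : ℤ)) - D (j : ℤ)) / (c.z ((j : ℤ) + (d : ℤ)) - c.z (j : ℤ))) ^ 2)).re =
        (∑ j ∈ range n, ∑ d ∈ Ico 1 n,
      (A ((j : ℤ) + (d : ℤ)) - A (j : ℤ)) / (c.z ((j : ℤ) + (d : ℤ)) - c.z (j : ℤ))).re +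
        ∑ j ∈ range n, ∑ d ∈ Ico 1 n, G ((j : ℤ) + (d : ℤ)) (j : ℤ) := by
      simp only [hGdef, Finset.sum_sub_distrib, Complex.sub_re, Complex.neg_re, Complex.re_sum,
        Finset.sum_neg_distrib]
      ring
    rw [e1] at hSV'
    linarith
  -- lower bounds
  have hAA : ∀ i ∈ Finset.Ioc v₀ w₀, ∀ j ∈ Finset.Ioc v₀ w₀, -4 ≤ G i j := by
    intro i hi j hj
    rw [Finset.mem_Ioc] at hi hj
    rw [hGdef]
    apply ng_same
    have h := hsA i j hi.1 hi.2 hj.1 hj.2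
    have h2 : D i - D j = ((D i - D j) - (c.z i - c.z j)) + (c.z i - c.z j) := by ring
    rw [h2]
    exact le_trans (norm_add_le _ _) (by linarith)
  have hBB : ∀ i ∈ Finset.Ioc w₀ (v₀ + n), ∀ j ∈ Finset.Ioc w₀ (v₀ + n), -4 ≤ G i j := by
    intro i hi j hj
    rw [Finset.mem_Ioc] at hi hj
    rw [hGdef]
    apply ng_same
    have h := hsB i j hi.1 hi.2 hj.1 hj.2
    have h2 : D i - D j = ((D i - D j) + (c.z i - c.z j)) - (c.z i - c.z j) := by ring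
    rw [h2]
    exact le_trans (norm_sub_le _ _) (by linarith)
  have hABl : ∀ a ∈ Finset.Ioc v₀ w₀, ∀ b ∈ Finset.Ioc w₀ (v₀ + n),
      0.8 * (Real.cos (c.X b a) ^ 2 / Real.sin (c.X b a) ^ 2) - (1 + 11 * C ^ 2) ≤ G a b := by
    intro a ha b hb
    rw [Finset.mem_Ioc] at ha hb
    rw [hGdef]
    exact ng_cross hCOTRE hn1 hK4 hC hc.hρ hg hnice.slope (by omega) (by omega)
      (hAB a b ha.1 ha.2 hb.1 hb.2)
  -- split
  have hsplit : Finset.Ioc v₀ (v₀ + (n : ℤ)) = Finset.Ioc v₀ w₀ ∪ Finset.Ioc w₀ (v₀ + n) :=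
    (Finset.Ioc_union_Ioc_eq_Ioc hvw.le hwv.le).symm
  have hdisj : Disjoint (Finset.Ioc v₀ w₀) (Finset.Ioc w₀ (v₀ + (n : ℤ))) := by
    rw [Finset.disjoint_left]
    intro x hx hy
    rw [Finset.mem_Ioc] at hx hy
    omega
  have hcardA : ((Finset.Ioc v₀ w₀).card : ℝ) = ((w₀ - v₀ : ℤ) : ℝ) := by
    rw [Int.card_Ioc]
    have : (((w₀ - v₀).toNat : ℤ) : ℝ) = ((w₀ - v₀ : ℤ) : ℝ) := by
      rw [Int.toNat_of_nonneg (by omega)]
    rw [← this]; norm_cast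
  have hcardB : ((Finset.Ioc w₀ (v₀ + (n : ℤ))).card : ℝ) = ((v₀ + n - w₀ : ℤ) : ℝ) := by
    rw [Int.card_Ioc]
    have : (((v₀ + n - w₀).toNat : ℤ) : ℝ) = ((v₀ + n - w₀ : ℤ) : ℝ) := by
      rw [Int.toNat_of_nonneg (by omega)]
    rw [← this]; norm_cast
  obtain ⟨p, hp⟩ : ∃ p : ℝ, p = ((w₀ - v₀ : ℤ) : ℝ) := ⟨_, rfl⟩
  have hp0 : 0 ≤ p := by
    rw [hp]; exact_mod_cast (by omega : (0 : ℤ) ≤ w₀ - v₀)
  have hpn : p ≤ n := by
    rw [hp]
    have : w₀ - v₀ ≤ (n : ℤ) := by omega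
    exact_mod_cast this
  have hpB : ((v₀ + n - w₀ : ℤ) : ℝ) = n - p := by
    rw [hp]; push_cast; ring
  rw [← hp] at hcardA
  rw [hpB] at hcardB
  rw [hpairs, hsplit, Finset.sum_union hdisj] at hup
  simp only [Finset.sum_union hdisj, Finset.sum_add_distrib] at hup
  have hsAA : -4 * (p * p) ≤ ∑ j ∈ Finset.Ioc v₀ w₀, ∑ i ∈ Finset.Ioc v₀ w₀, G i j := by
    have h : ∑ j ∈ Finset.Ioc v₀ w₀, ∑ i ∈ Finset.Ioc v₀ w₀, (-4 : ℝ) ≤
        ∑ j ∈ Finset.Ioc v₀ w₀, ∑ i ∈ Finset.Ioc v₀ w₀, G i j :=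
      Finset.sum_le_sum fun j hj => Finset.sum_le_sum fun i hi => hAA i hi j hj
    simp only [Finset.sum_const, nsmul_eq_mul, hcardA] at h
    linarith
  have hsBB : -4 * ((n - p) * (n - p)) ≤
      ∑ j ∈ Finset.Ioc w₀ (v₀ + (n : ℤ)), ∑ i ∈ Finset.Ioc w₀ (v₀ + (n : ℤ)), G i j := by
    have h : ∑ j ∈ Finset.Ioc w₀ (v₀ + (n : ℤ)), ∑ i ∈ Finset.Ioc w₀ (v₀ + (n : ℤ)), (-4 : ℝ) ≤
        ∑ j ∈ Finset.Ioc w₀ (v₀ + (n : ℤ)), ∑ i ∈ Finset.Ioc w₀ (v₀ + (n : ℤ)), G i j :=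
      Finset.sum_le_sum fun j hj => Finset.sum_le_sum fun i hi => hBB i hi j hj
    simp only [Finset.sum_const, nsmul_eq_mul, hcardB] at h
    linarith
  have hsAB : 0.8 * ((n : ℝ) ^ 2 * Real.log n / 1000 - CJ * (n : ℝ) ^ 2) -
      (1 + 11 * C ^ 2) * (n : ℝ) ^ 2 ≤
      ∑ a ∈ Finset.Ioc v₀ w₀, ∑ b ∈ Finset.Ioc w₀ (v₀ + (n : ℤ)), G a b := by
    have h : ∑ a ∈ Finset.Ioc v₀ w₀, ∑ b ∈ Finset.Ioc w₀ (v₀ + (n : ℤ)),
        (0.8 * (Real.cos (c.X b a) ^ 2 / Real.sin (c.X b a) ^ 2) - (1 + 11 * C ^ 2)) ≤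
        ∑ a ∈ Finset.Ioc v₀ w₀, ∑ b ∈ Finset.Ioc w₀ (v₀ + (n : ℤ)), G a b :=
      Finset.sum_le_sum fun a ha => Finset.sum_le_sum fun b hb => hABl a ha b hb
    simp only [Finset.sum_sub_distrib, ← Finset.mul_sum, Finset.sum_const, nsmul_eq_mul, hcardA,
      hcardB] at h
    have h2 : p * ((n - p) * (1 + 11 * C ^ 2)) ≤ (1 + 11 * C ^ 2) * (n : ℝ) ^ 2 := by
      have h3 : p * (n - p) ≤ (n : ℝ) ^ 2 := by nlinarith
      have h4 : 0 ≤ 1 + 11 * C ^ 2 := by positivity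
      nlinarith
    linarith
  have hsym1 : ∑ j ∈ Finset.Ioc v₀ w₀, ∑ i ∈ Finset.Ioc w₀ (v₀ + (n : ℤ)), G i j =
      ∑ a ∈ Finset.Ioc v₀ w₀, ∑ b ∈ Finset.Ioc w₀ (v₀ + (n : ℤ)), G a b :=
    Finset.sum_congr rfl fun a _ => Finset.sum_congr rfl fun b _ => hGs b a
  have hsym2 : ∑ j ∈ Finset.Ioc w₀ (v₀ + (n : ℤ)), ∑ i ∈ Finset.Ioc v₀ w₀, G i j =
      ∑ a ∈ Finset.Ioc v₀ w₀, ∑ b ∈ Finset.Ioc w₀ (v₀ + (n : ℤ)), G a b := Finset.sum_comm
  rw [hsym1, hsym2] at hup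
  have hsq : (1 : ℝ) ≤ (n : ℝ) ^ 2 := by nlinarith
  have hn2 : (n : ℝ) ≤ (n : ℝ) ^ 2 := by nlinarith
  have hquad : p * p + (n - p) * (n - p) ≤ (n : ℝ) ^ 2 := by nlinarith
  have h5 : 2 * C * (n + 1 + K) ≤ 2 * C * (2 + K) * (n : ℝ) ^ 2 := by
    have : (n : ℝ) + 1 + K ≤ (2 + K) * (n : ℝ) ^ 2 := by nlinarith
    nlinarith
  have h6 : (n : ℝ) ^ 2 * (1.6 * Real.log n / 1000) ≤
      (n : ℝ) ^ 2 * (6 + 1.6 * CJ + 22 * C ^ 2 + 2 * C * (2 + K)) := by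
    nlinarith
  have h7 : 1.6 * Real.log n / 1000 ≤ 6 + 1.6 * CJ + 22 * C ^ 2 + 2 * C * (2 + K) :=
    le_of_mul_le_mul_left h6 (by positivity)
  rw [hKabs] at hB
  have hB0 : 0 ≤ B := by rw [hB]; positivity
  linarith

end Pool.Agent.EHP
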