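import Pool.Agent.EHP.Stmts3

/-!
# Uniqueness of the gap: `Stmt_ONEGAP`
-/

open Finset
open scoped Real ComplexConjugate

namespace Pool.Agent.EHP

namespace M_ONEGAP

variable {n : ℕ} {c : Cfg n} {lo hi : ℤ → ℤ}

theorem lo_mono (P : Par n c lo hi) : Monotone lo :=
  monotone_int_of_le_succ fun v => (P.lt v).2.1.trans (P.step v)

theorem hi_mono (P : Par n c lo hi) : Monotone hi :=
  monotone_int_of_le_succ fun v => (P.step v).trans (P.lt (v + 1)).2.1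

theorem per_shift {f : ℤ → ℤ} (hf : ∀ v, f (v + n) = f v + n) (k v : ℤ) :
    f (v + k * n) = f v + k * n := by
  have h1 := per_mul (n := n) (f := fun v => f v - v) (fun j => by
    rw [hf]
    ring) k v
  linarith

/-- the tight pairs, for integer indices -/
theorem tightZ (P : Par n c lo hi) {v l : ℤ} (h1 : v < l) (h2 : l < v + n) :
    ‖c.z v - c.z l‖ = 2 ↔ lo v ≤ l ∧ l ≤ hi v := by
  first
  | exact P.tight v l h1 h2
  | have hn : (1 : ℤ) ≤ n := by omega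
    have hk : 0 ≤ v + (v.natAbs : ℤ) * n := by
      have h3 : (v.natAbs : ℤ) ≤ (v.natAbs : ℤ) * n := le_mul_of_one_le_right (by omega) hn
      omega
    obtain ⟨a, ha⟩ := Int.eq_ofNat_of_zero_le hk
    obtain ⟨b, hb⟩ := Int.eq_ofNat_of_zero_le (show 0 ≤ l + (v.natAbs : ℤ) * n by omega)
    have h4 := P.tight a b (by omega) (by omega)
    rw [← ha, ← hb, per_mul c.z_add, per_mul c.z_add, per_shift P.lo_add, per_shift P.hi_add] at h4
    rw [h4]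
    constructor <;> rintro ⟨h5, h6⟩ <;> constructor <;> linarith

/-- symmetry of the tight pairs -/
theorem sym (P : Par n c lo hi) {v l : ℤ} (h1 : v < l) (h2 : l < v + n) :
    (lo v ≤ l ∧ l ≤ hi v) ↔ (lo l ≤ v + n ∧ v + n ≤ hi l) := by
  rw [← tightZ P h1 h2, ← tightZ P (v := l) (l := v + n) h2 (by omega), c.z_add, norm_sub_rev]

theorem gap (P : Par n c lo hi) {v₀ : ℤ} (h : hi v₀ < lo (v₀ + 1)) :
    hi (hi v₀) = v₀ + n ∧ lo (v₀ + 1) = hi v₀ + 1 ∧ lo (hi v₀ + 1) = v₀ + 1 + n := by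
  have h0 := P.lt v₀
  obtain ⟨w₀, hw⟩ : ∃ w₀, hi v₀ = w₀ := ⟨_, rfl⟩
  rw [hw] at h h0 ⊢
  have h1 := (sym P (v := v₀) (l := w₀) (by omega) (by omega)).1 ⟨h0.2.1, by omega⟩
  have h2 : hi w₀ = v₀ + n := by
    by_contra hne
    have := (sym P (v := v₀ + 1) (l := w₀) (by omega) (by omega)).2 ⟨by omega, by omega⟩
    omega
  have hs := P.step w₀
  have h3 : v₀ + n + 1 ≤ lo (w₀ + 1) := by
    by_contra hne
    have h4 := P.lt (w₀ + 1)
    have := (sym P (v := v₀) (l := w₀ + 1) (by omega) (by omega)).2 ⟨by omega, by omega⟩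
    omega
  obtain ⟨q, hq⟩ : ∃ q, lo (w₀ + 1) = q := ⟨_, rfl⟩
  rw [hq] at h3 ⊢
  have h5 := P.lt (w₀ + 1)
  rw [hq] at h5
  have h6 := (sym P (v := q - n) (l := w₀ + 1) (by omega) (by omega)).2
    ⟨by omega, by omega⟩
  have h7 := lo_mono P (show v₀ + 1 ≤ q - n by omega)
  have h8 : lo (v₀ + 1) = w₀ + 1 := by omega
  have h9 := P.lt (v₀ + 1)
  have h10 := (sym P (v := v₀ + 1) (l := w₀ + 1) (by omega) (by omega)).1 ⟨by omega, by omega⟩
  exact ⟨h2, h8, by omega⟩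

/-- the representative in `(v₀, v₀ + n]` -/
theorem rep (n : ℕ) (hn : 1 ≤ n) (v₀ : ℤ) : ∃ r : ℤ → ℤ, (∀ j, v₀ < r j ∧ r j ≤ v₀ + n) ∧
    (∀ j, r (j + n) = r j) ∧ (∀ j, (n : ℤ) ∣ r j - j) ∧ ∀ j, v₀ < j → j ≤ v₀ + n → r j = j := by
  have hn' : (0 : ℤ) < n := by exact_mod_cast hn
  refine ⟨fun j => v₀ + 1 + (j - (v₀ + 1)) % n, fun j => ?_, fun j => ?_, fun j => ?_,
    fun j h1 h2 => ?_⟩
  · have h1 := Int.emod_nonneg (j - (v₀ + 1)) hn'.ne'
    have h2 := Int.emod_lt_of_pos (j - (v₀ + 1)) hn'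
    constructor <;> simp only <;> omega
  · have : j + (n : ℤ) - (v₀ + 1) = (j - (v₀ + 1)) + n := by ring
    simp only [this, Int.add_emod_right]
  · have h1 := Int.emod_add_mul_ediv (j - (v₀ + 1)) n
    exact ⟨-((j - (v₀ + 1)) / n), by simp only; linarith⟩
  · have : (j - (v₀ + 1)) % n = j - (v₀ + 1) := Int.emod_eq_of_lt (by omega) (by omega)
    simp only [this]
    ring

theorem inner (hCUT : Stmt_CUT) (hn : 1 ≤ n) (hopt : Opt n c.z) (P : Par n c lo hi) {v₀ : ℤ}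
    (h : hi v₀ < lo (v₀ + 1)) {v : ℤ} (h1 : v₀ < v) (h2 : v < hi v₀) : hi v = lo (v + 1) := by
  by_contra hne
  have hgap : hi v < lo (v + 1) := lt_of_le_of_ne (P.step v) hne
  obtain ⟨e1, e2, e3⟩ := gap P h
  obtain ⟨f1, f2, f3⟩ := gap P hgap
  obtain ⟨w₀, hw₀⟩ : ∃ w₀, hi v₀ = w₀ := ⟨_, rfl⟩
  obtain ⟨w, hw⟩ : ∃ w, hi v = w := ⟨_, rfl⟩
  rw [hw₀] at e1 e2 e3 h2
  rw [hw] at f1 f2 f3
  have hl0 := P.lt v₀
  have hlv := P.lt v
  rw [hw₀] at hl0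
  rw [hw] at hlv
  have hm1 := lo_mono P (show v₀ + 1 ≤ v by omega)
  have hm2 := hi_mono P h2.le
  rw [hw, e1] at hm2
  obtain ⟨r, hr1, hr2, hr3, hr4⟩ := rep n hn v₀
  obtain ⟨a, ha, b, hb, hab⟩ := hCUT n c.z hn hopt {j | r j ≤ v ∨ (w₀ < r j ∧ r j ≤ w)}
    (fun j => by simp only [Set.mem_ofPred_eq, hr2])
    ⟨v, Or.inl (by rw [hr4 v h1 (by omega)])⟩
    ⟨w₀, by
      rw [Set.mem_ofPred_eq, hr4 w₀ (by omega) (by omega)]
      omega⟩
  simp only [Set.mem_ofPred_eq] at ha hb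
  have hza : c.z a = c.z (r a) := (per_dvd c.z_add (hr3 a)).symm
  have hzb : c.z b = c.z (r b) := (per_dvd c.z_add (hr3 b)).symm
  rw [hza, hzb] at hab
  obtain ⟨a', ha'⟩ : ∃ a', r a = a' := ⟨_, rfl⟩
  obtain ⟨b', hb'⟩ : ∃ b', r b = b' := ⟨_, rfl⟩
  have hra := hr1 a
  have hrb := hr1 b
  rw [ha'] at hra ha hab
  rw [hb'] at hrb hb hab
  have hcase : (a' < b' ∧ lo a' ≤ b' ∧ b' ≤ hi a') ∨
      (b' < a' ∧ lo a' ≤ b' + n ∧ b' + n ≤ hi a') := by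
    rcases lt_trichotomy a' b' with hlt | heq | hgt
    · exact Or.inl ⟨hlt, (tightZ P hlt (by omega)).1 hab⟩
    · exfalso
      rw [heq] at ha
      omega
    · refine Or.inr ⟨hgt, (tightZ P (v := a') (l := b' + n) (by omega) (by omega)).1 ?_⟩
      rw [c.z_add]
      exact hab
  rcases ha with ha | ⟨ha1, ha2⟩
  · have g1 := lo_mono P (show v₀ + 1 ≤ a' by omega)
    have g2 := hi_mono P (show a' ≤ v by omega)
    rw [hw] at g2
    omega
  · have g1 := lo_mono P (show w₀ + 1 ≤ a' by omega)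
    have g2 := hi_mono P (show a' ≤ w by omega)
    omega

end M_ONEGAP

open M_ONEGAP in
theorem m_ONEGAP : Stmt_CUT → Stmt_ONEGAP := by
  intro hCUT n c lo hi hn hopt P v₀ h
  obtain ⟨e1, e2, e3⟩ := gap P h
  refine ⟨e1, e2, e3, fun v h1 h2 => inner hCUT hn hopt P h h1 h2, fun v h1 h2 => ?_⟩
  by_contra hne
  have hgap : hi v < lo (v + 1) := lt_of_le_of_ne (P.step v) hne
  obtain ⟨f1, f2, f3⟩ := gap P hgap
  obtain ⟨w₀, hw₀⟩ : ∃ w₀, hi v₀ = w₀ := ⟨_, rfl⟩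
  obtain ⟨w, hw⟩ : ∃ w, hi v = w := ⟨_, rfl⟩
  rw [hw] at f1 f2 f3
  rw [hw₀] at e1 e2 e3 h1
  have hlv := P.lt v
  rw [hw] at hlv
  have hm1 := lo_mono P (show w₀ + 1 ≤ v by omega)
  have hm2 := hi_mono P h2.le
  rw [P.hi_add, hw₀, hw] at hm2
  have hne' : w ≠ w₀ + n := by
    intro heq
    rw [heq, P.hi_add, e1] at f1
    omega
  have hu1 : hi (w - n) = v := by
    have := P.hi_add (w - n)
    rw [sub_add_cancel, f1] at this
    omega
  have hu2 : lo (w - n + 1) = v + 1 := by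
    have := P.lo_add (w - n + 1)
    have e : w - (n : ℤ) + 1 + n = w + 1 := by ring
    rw [e, f3] at this
    omega
  have := inner hCUT hn hopt P h (v := w - n) (by omega) (by rw [hw₀]; omega)
  omega

end Pool.Agent.EHP
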