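import Pool.Agent.EHP.Stmts1

/-!
# Invariance of maximizers under rigid motions and renumbering
-/

open Finset
open scoped Real ComplexConjugate

namespace Pool.Agent.EHP

namespace OPTINV

/-- `FL` as a full double sum. -/
theorem FL_full {n : ℕ} {w : ℤ → ℂ} (hn : 1 ≤ n) (hw : ∀ j : ℤ, w (j + n) = w j) :
    FL n w = ∑ j ∈ range n, ∑ i ∈ range n, Real.log ‖w (i : ℤ) - w (j : ℤ)‖ := by
  unfold FL
  refine Finset.sum_congr rfl fun j _ => ?_
  have h1 : ∑ i ∈ range n, Real.log ‖w ((i : ℤ) + (j : ℤ)) - w (j : ℤ)‖ =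
      ∑ i ∈ range n, Real.log ‖w (i : ℤ) - w (j : ℤ)‖ :=
    sum_shift (n := n) (f := fun i : ℤ => Real.log ‖w i - w (j : ℤ)‖)
      (fun i => by simp only [hw]) (j : ℤ)
  have hn' : 0 < n := hn
  rw [← h1, Finset.range_eq_Ico,
    Finset.sum_eq_sum_Ico_succ_bot hn'
      (fun i : ℕ => Real.log ‖w ((i : ℤ) + (j : ℤ)) - w (j : ℤ)‖)]
  simp only [Nat.cast_zero, zero_add, sub_self, norm_zero, Real.log_zero]
  refine Finset.sum_congr rfl fun d _ => ?_
  rw [add_comm (d : ℤ)]

/-- Reindexing a sum over a period. -/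
theorem sum_reindex {n : ℕ} (hn : 1 ≤ n) {f : ℤ → ℝ} (hf : ∀ j : ℤ, f (j + n) = f j) {e : ℤ → ℤ}
    (he : ∀ i j, (n : ℤ) ∣ e i - e j ↔ (n : ℤ) ∣ i - j) :
    ∑ j ∈ range n, f (e (j : ℤ)) = ∑ j ∈ range n, f (j : ℤ) := by
  have hn0 : (0 : ℤ) < n := by exact_mod_cast hn
  set τ : ℕ → ℕ := fun j => (e (j : ℤ) % (n : ℤ)).toNat with hτ
  have hcast : ∀ j : ℕ, ((τ j : ℕ) : ℤ) = e (j : ℤ) % (n : ℤ) := fun j =>
    Int.toNat_of_nonneg (Int.emod_nonneg _ hn0.ne')
  have hmem : ∀ j ∈ range n, τ j ∈ range n := by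
    intro j _
    rw [Finset.mem_range]
    have := Int.emod_lt_of_pos (e (j : ℤ)) hn0
    have h2 := hcast j
    omega
  have hinj : Set.InjOn τ (range n : Set ℕ) := by
    intro i hi j hj hij
    have h1 : e (i : ℤ) % (n : ℤ) = e (j : ℤ) % (n : ℤ) := by
      rw [← hcast, ← hcast, hij]
    have h2 : (n : ℤ) ∣ e (i : ℤ) - e (j : ℤ) := Int.ModEq.dvd h1.symm
    have h3 := (he _ _).1 h2
    have hi' : i < n := by simpa using hi
    have hj' : j < n := by simpa using hj
    obtain ⟨c, hc⟩ := h3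
    have hc0 : c = 0 := by
      by_contra hne
      rcases lt_or_gt_of_ne hne with h | h
      · have : (n : ℤ) * c ≤ (n : ℤ) * (-1) := mul_le_mul_of_nonneg_left (by omega) hn0.le
        omega
      · have : (n : ℤ) * 1 ≤ (n : ℤ) * c := mul_le_mul_of_nonneg_left (by omega) hn0.le
        omega
    rw [hc0, mul_zero] at hc
    omega
  have himg : (range n).image τ = range n := by
    apply Finset.eq_of_subset_of_card_le
    · intro x hx
      obtain ⟨j, hj, rfl⟩ := Finset.mem_image.1 hx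
      exact hmem j hj
    · rw [Finset.card_image_of_injOn hinj]
  have h4 : ∑ j ∈ range n, f (e (j : ℤ)) = ∑ j ∈ range n, f ((τ j : ℕ) : ℤ) := by
    refine Finset.sum_congr rfl fun j _ => ?_
    rw [hcast, per_mod hf]
  rw [h4]
  conv_rhs => rw [← himg]
  rw [Finset.sum_image hinj]

end OPTINV

theorem m_OPTINV : Stmt_OPTINV := by
  intro n z hn hz e u t he hu
  have hper : ∀ j : ℤ, z (e (j + n)) = z (e j) := fun j =>
    per_dvd hz.pts.per ((he _ _).2 ⟨1, by ring⟩)
  have hnorm : ∀ i j : ℤ, ‖u * (z (e i) - t) - u * (z (e j) - t)‖ = ‖z (e i) - z (e j)‖ := by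
    intro i j
    have : u * (z (e i) - t) - u * (z (e j) - t) = u * (z (e i) - z (e j)) := by ring
    rw [this, norm_mul, hu, one_mul]
  have hu0 : u ≠ 0 := by
    intro h
    rw [h, norm_zero] at hu
    exact zero_ne_one hu
  have hFL : FL n (fun j => u * (z (e j) - t)) = FL n z := by
    rw [OPTINV.FL_full hn (w := fun j => u * (z (e j) - t)) (fun j => by simp only [hper]),
      OPTINV.FL_full hn hz.pts.per]
    simp only [hnorm]
    have h1 : ∀ j : ℤ, ∑ i ∈ range n, Real.log ‖z (e (i : ℤ)) - z (e j)‖ =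
        ∑ i ∈ range n, Real.log ‖z (i : ℤ) - z (e j)‖ := fun j =>
      OPTINV.sum_reindex hn (f := fun i : ℤ => Real.log ‖z i - z (e j)‖)
        (fun i => by simp only [hz.pts.per]) he
    simp only [h1]
    exact OPTINV.sum_reindex hn
      (f := fun j : ℤ => ∑ i ∈ range n, Real.log ‖z (i : ℤ) - z j‖)
      (fun i => by simp only [hz.pts.per]) he
  refine ⟨⟨fun j => by simp only [hper], fun i j hij => ?_⟩, fun i j => ?_, fun w hw hw2 => ?_⟩
  · have h1 : z (e i) - t = z (e j) - t := mul_left_cancel₀ hu0 hij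
    exact (he i j).1 (hz.pts.inj _ _ (sub_left_injective h1))
  · rw [hnorm]
    exact hz.adm _ _
  · rw [hFL]
    exact hz.max w hw hw2

end Pool.Agent.EHP
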