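import Pool.Agent.EHP.Stmts1

/-!
# Positive orientation of all triples (helper80)
-/

open Finset
open scoped Real ComplexConjugate

namespace Pool.Agent.EHP

namespace MORIENT

/-- the bracket `[ab]` -/
noncomputable def br (a b : ℂ) : ℝ := (conj a * b).im

theorem br_eq (a b : ℂ) : br a b = a.re * b.im - a.im * b.re := by
  unfold br
  rw [Complex.mul_im, Complex.conj_re, Complex.conj_im]
  ring

theorem br_z {n : ℕ} (c : Cfg n) (a b : ℤ) :
    br (c.z a) (c.z b) = Real.exp (c.ρ a) * Real.exp (c.ρ b) * Real.sin (c.θ b - c.θ a) := by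
  unfold br Cfg.z
  rw [← Complex.exp_conj, ← Complex.exp_add, Complex.exp_im]
  simp
  rw [Real.exp_add, neg_add_eq_sub]

theorem area (p q r : ℂ) : (conj (q - p) * (r - p)).im = br p q + br q r + br r p := by
  rw [br_eq, br_eq, br_eq, Complex.mul_im, Complex.conj_re, Complex.conj_im, Complex.sub_re,
    Complex.sub_re, Complex.sub_im, Complex.sub_im]
  ring

/-- real inner product -/
noncomputable def ip (a b : ℂ) : ℝ := (a * conj b).re

theorem ip_eq (a b : ℂ) : ip a b = a.re * b.re + a.im * b.im := by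
  unfold ip
  rw [Complex.mul_re, Complex.conj_re, Complex.conj_im]
  ring

theorem nsq (a : ℂ) : ‖a‖ ^ 2 = a.re ^ 2 + a.im ^ 2 := by
  rw [← Complex.normSq_eq_norm_sq, Complex.normSq_apply]
  ring

/-- the core case, for complex numbers -/
theorem core {p q r l : ℂ} (h1 : 0 < br p q) (h2 : 0 < br q r)
    (hql : ‖q - l‖ = 2) (hpl : ‖p - l‖ ≤ 2) (hrl : ‖r - l‖ ≤ 2)
    (hpq : p ≠ q) (hqr : r ≠ q) (hl : ‖l‖ ^ 2 < 2) :
    0 < br p q + br q r + br r p := by
  by_contra hneg
  have hrp : br r p = - br p r := by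
    rw [br_eq, br_eq]
    ring
  have hsum : br p q + br q r ≤ br p r := by
    rw [hrp] at hneg
    linarith
  have hql2 : ‖q - l‖ ^ 2 = 4 := by
    rw [hql]
    norm_num
  have hpl2 : ‖p - l‖ ^ 2 ≤ 4 := by
    have := norm_nonneg (p - l)
    nlinarith
  have hrl2 : ‖r - l‖ ^ 2 ≤ 4 := by
    have := norm_nonneg (r - l)
    nlinarith
  have hpq2 : 0 < ‖q - p‖ ^ 2 := by
    have : 0 < ‖q - p‖ := norm_pos_iff.2 (sub_ne_zero.2 hpq.symm)
    positivity
  have hqr2 : 0 < ‖q - r‖ ^ 2 := by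
    have : 0 < ‖q - r‖ := norm_pos_iff.2 (sub_ne_zero.2 hqr.symm)
    positivity
  rw [nsq] at hql2 hpl2 hrl2 hpq2 hqr2 hl
  simp only [Complex.sub_re, Complex.sub_im] at hql2 hpl2 hrl2 hpq2 hqr2
  -- the inner products with `U = q - l`
  have i1 : ip p (q - l) < ip q (q - l) := by
    rw [ip_eq, ip_eq, Complex.sub_re, Complex.sub_im]
    nlinarith
  have i2 : ip r (q - l) < ip q (q - l) := by
    rw [ip_eq, ip_eq, Complex.sub_re, Complex.sub_im]
    nlinarith
  have i3 : 0 < ip q (q - l) := by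
    rw [ip_eq, Complex.sub_re, Complex.sub_im]
    nlinarith [sq_nonneg q.re, sq_nonneg q.im]
  have e : br p r * ip q (q - l) = br q r * ip p (q - l) + br p q * ip r (q - l) := by
    rw [br_eq, br_eq, br_eq, ip_eq, ip_eq, ip_eq]
    ring
  have k1 := mul_lt_mul_of_pos_left i1 h2
  have k2 := mul_lt_mul_of_pos_left i2 h1
  have k3 := mul_le_mul_of_nonneg_right hsum i3.le
  nlinarith

variable {n : ℕ} {ε : ℝ} {c : Cfg n}

theorem norm_lt (hε : ε ≤ 1 / 10) (hc : Nice n ε c) (j : ℤ) : ‖c.z j‖ ^ 2 < 2 := by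
  rw [c.norm_z, ← Real.exp_nat_mul]
  have h1 : ((2 : ℕ) : ℝ) * c.ρ j ≤ 1 / 5 := by
    have := (abs_le.1 (hc.hρ j)).2
    push_cast
    linarith
  have h2 : Real.exp (1 / 5) < 2 := by
    have h3 : Real.exp (1 / 5) ^ 5 = Real.exp 1 := by
      rw [← Real.exp_nat_mul]
      norm_num
    have h4 := Real.exp_one_lt_d9
    by_contra h5
    rw [not_lt] at h5
    have h6 : (2 : ℝ) ^ 5 ≤ Real.exp (1 / 5) ^ 5 := pow_le_pow_left₀ (by norm_num) h5 5
    rw [h3] at h6
    norm_num at h6 h4
    linarith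
  exact lt_of_le_of_lt (Real.exp_le_exp.2 h1) h2

theorem partner (hcut : Stmt_CUT) (hn : 3 ≤ n) (hc : Nice n ε c) (j : ℤ) :
    ∃ l : ℤ, ‖c.z j - c.z l‖ = 2 := by
  obtain ⟨a, ha, b, _, hab⟩ := hcut n c.z (by omega) hc.opt {m : ℤ | (n : ℤ) ∣ m - j} (by
    intro m
    simp only [Set.mem_ofPred_eq]
    have e : m + (n : ℤ) - j = (m - j) + n := by ring
    rw [e]
    exact dvd_add_self_right) ⟨j, by simp⟩ ⟨j + 1, by
      simp only [Set.mem_ofPred_eq, add_sub_cancel_left]
      intro h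
      have := Int.le_of_dvd one_pos h
      omega⟩
  refine ⟨b, ?_⟩
  have : c.z a = c.z j := per_dvd c.z_add ha
  rw [← this]
  exact hab

theorem z_ne_of (hc : Nice n ε c) {a b : ℤ} (h1 : a < b) (h2 : b < a + n) : c.z a ≠ c.z b := by
  intro h
  have h3 := hc.opt.pts.inj b a h.symm
  have := Int.le_of_dvd (by omega) h3
  omega

/-- the core case -/
theorem core' (hcut : Stmt_CUT) (hn : 3 ≤ n) (hε : ε ≤ 1 / 10) (hc : Nice n ε c) {i j k : ℤ}
    (hij : i < j) (hjk : j < k) (hki : k < i + n) (hθ : c.θ k - c.θ i < π) :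
    0 < br (c.z i) (c.z j) + br (c.z j) (c.z k) + br (c.z k) (c.z i) := by
  have t1 := c.mono hij
  have t2 := c.mono hjk
  obtain ⟨l, hl⟩ := partner hcut hn hc j
  have pos : ∀ a b : ℤ, c.θ a < c.θ b → c.θ b - c.θ a < π → 0 < br (c.z a) (c.z b) := by
    intro a b h1 h2
    rw [br_z]
    have := Real.sin_pos_of_pos_of_lt_pi (sub_pos.2 h1) h2
    positivity
  exact core (pos i j t1 (by linarith)) (pos j k t2 (by linarith)) hl
    (hc.opt.adm i l) (hc.opt.adm k l) (z_ne_of hc hij (by omega))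
    (z_ne_of hc hjk (by omega)).symm (norm_lt hε hc l)

end MORIENT

open MORIENT in
/-- the statement for integer indices -/
theorem m_ORIENT_int (hcut : Stmt_CUT) {n : ℕ} {ε : ℝ} {c : Cfg n} (hn : 3 ≤ n)
    (hε : ε ≤ 1 / 10) (hc : Nice n ε c) (i j k : ℤ) (hij : i < j) (hjk : j < k)
    (hki : k < i + n) : 0 < (conj (c.z j - c.z i) * (c.z k - c.z i)).im := by
  rw [area]
  have t1 : c.θ i < c.θ j := c.mono hij
  have t2 : c.θ j < c.θ k := c.mono hjk
  have t3 : c.θ k < c.θ (i + n) := c.mono hki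
  rw [c.θ_add] at t3
  by_cases g1 : c.θ k - c.θ i < π
  · exact core' hcut hn hε hc hij hjk hki g1
  · by_cases g2 : c.θ i + 2 * π - c.θ j < π
    · have h := core' hcut hn hε hc hjk hki (by omega : i + n < j + n) (by
        rw [c.θ_add]
        exact g2)
      rw [c.z_add] at h
      linarith
    · by_cases g3 : c.θ j + 2 * π - c.θ k < π
      · have h := core' hcut hn hε hc hki (by omega : i + (n : ℤ) < j + n)
          (by omega : j + (n : ℤ) < k + n) (by
          rw [c.θ_add]
          exact g3)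
        rw [c.z_add, c.z_add] at h
        linarith
      · rw [not_lt] at g1 g2 g3
        rw [br_z, br_z, br_z]
        have e : Real.sin (c.θ i - c.θ k) = Real.sin (c.θ i + 2 * π - c.θ k) := by
          rw [← Real.sin_add_two_pi (c.θ i - c.θ k)]
          congr 1
          ring
        rw [e]
        have s1 : 0 ≤ Real.sin (c.θ j - c.θ i) :=
          Real.sin_nonneg_of_nonneg_of_le_pi (by linarith) (by linarith)
        have s2 : 0 ≤ Real.sin (c.θ k - c.θ j) :=
          Real.sin_nonneg_of_nonneg_of_le_pi (by linarith) (by linarith)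
        have s3 : 0 ≤ Real.sin (c.θ i + 2 * π - c.θ k) :=
          Real.sin_nonneg_of_nonneg_of_le_pi (by linarith) (by linarith)
        have e1 := Real.exp_pos (c.ρ i)
        have e2 := Real.exp_pos (c.ρ j)
        have e3 := Real.exp_pos (c.ρ k)
        have m1 := mul_nonneg (mul_pos e1 e2).le s1
        have m2 := mul_nonneg (mul_pos e2 e3).le s2
        have m3 := mul_nonneg (mul_pos e3 e1).le s3
        by_cases a1 : c.θ j - c.θ i < π
        · have := Real.sin_pos_of_pos_of_lt_pi (sub_pos.2 t1) a1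
          have := mul_pos (mul_pos e1 e2) this
          linarith
        · have := Real.sin_pos_of_pos_of_lt_pi (sub_pos.2 t2) (by linarith)
          have := mul_pos (mul_pos e2 e3) this
          linarith

theorem m_ORIENT : Stmt_CUT → Stmt_ORIENT := by
  intro hcut n ε c hn hε hc i j k hij hjk hki
  exact m_ORIENT_int hcut hn hε hc i j k (by exact_mod_cast hij) (by exact_mod_cast hjk)
    (by exact_mod_cast hki)

end Pool.Agent.EHP
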