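import Pool.Agent.EHP.Stmts1

/-!
# The perimeter of a nice configuration (helper75)
-/

open Finset
open scoped Real ComplexConjugate

namespace Pool.Agent.EHP

theorem m_PER2 : Stmt_ORIENT → Stmt_PERIM → Stmt_PER2 := by
  intro hO hP n ε c hn hε hN
  have hn0 : 0 < n := by omega
  have hn1 : (4 : ℝ) ≤ n := by exact_mod_cast hn
  have hnpos : (0 : ℝ) < n := by linarith
  have hpi := Real.pi_gt_three
  have hgφ : ∀ j, c.g j = c.φ (j + 1) - c.φ j + 2 * π / n := by
    intro j
    unfold Cfg.g Cfg.φ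
    push_cast
    field_simp
    ring
  have h3 : 2 * π / n ≤ π / 2 := by
    rw [div_le_iff₀ hnpos]
    nlinarith
  have hg : ∀ j, c.g j < π := by
    intro j
    have h1 := abs_le.1 (hN.hφ (j + 1))
    have h2 := abs_le.1 (hN.hφ j)
    rw [hgφ j]
    linarith [h1.1, h1.2, h2.1, h2.2]
  set q : ℤ → ℂ := fun j => Complex.exp ((c.Δ j : ℂ) + (c.g j : ℂ) * Complex.I) - 1 with hqdef
  have hq : ∀ j, c.z (j + 1) - c.z j = c.z j * q j := by
    intro j
    have h : c.z (j + 1) = c.z j * Complex.exp ((c.Δ j : ℂ) + (c.g j : ℂ) * Complex.I) := by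
      unfold Cfg.z
      rw [← Complex.exp_add]
      congr 1
      unfold Cfg.Δ Cfg.g
      push_cast
      ring
    rw [h, hqdef]
    ring
  have him : ∀ j, 0 < (q j).im := by
    intro j
    rw [hqdef]
    simp only [Complex.sub_im, Complex.one_im, sub_zero, Complex.exp_im]
    have h1 : ((c.Δ j : ℂ) + (c.g j : ℂ) * Complex.I).re = c.Δ j := by simp
    have h2 : ((c.Δ j : ℂ) + (c.g j : ℂ) * Complex.I).im = c.g j := by simp
    rw [h1, h2]
    exact mul_pos (Real.exp_pos _) (Real.sin_pos_of_pos_of_lt_pi (c.g_pos j) (hg j))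
  set ψ : ℤ → ℝ := fun j => c.θ j + (q j).arg with hψdef
  set ℓ : ℤ → ℝ := fun j => ‖c.z (j + 1) - c.z j‖ with hℓdef
  have hℓ0 : ∀ j, 0 ≤ ℓ j := fun j => norm_nonneg _
  have key : ∀ j, c.z (j + 1) - c.z j = (ℓ j : ℂ) * Complex.exp ((ψ j : ℂ) * Complex.I) := by
    intro j
    have h1 : c.z j = (‖c.z j‖ : ℂ) * Complex.exp ((c.θ j : ℂ) * Complex.I) := by
      rw [c.norm_z]
      unfold Cfg.z
      rw [Complex.exp_add, Complex.ofReal_exp]
    have h2 := Complex.norm_mul_exp_arg_mul_I (q j)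
    have h3 : ((ℓ j : ℝ) : ℂ) = (‖c.z j‖ : ℂ) * (‖q j‖ : ℂ) := by
      simp only [hℓdef]
      rw [hq j, norm_mul]
      push_cast
      rfl
    have h4 : ((ψ j : ℝ) : ℂ) * Complex.I = (c.θ j : ℂ) * Complex.I + ((q j).arg : ℂ) * Complex.I := by
      simp only [hψdef]
      push_cast
      ring
    rw [h3, h4, Complex.exp_add, hq j]
    calc c.z j * q j = ((‖c.z j‖ : ℂ) * Complex.exp ((c.θ j : ℂ) * Complex.I)) *
          ((‖q j‖ : ℂ) * Complex.exp (((q j).arg : ℂ) * Complex.I)) := by rw [← h1, h2]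
      _ = _ := by ring
  have hΔ : ∀ j, q (j + n) = q j := by
    intro j
    rw [hqdef]
    simp only
    rw [c.Δ_add, c.g_add]
  have hψn : ∀ j, ψ (j + n) = ψ j + 2 * π := by
    intro j
    simp only [hψdef]
    rw [hΔ, c.θ_add]
    ring
  have hℓn : ∀ j, ℓ (j + n) = ℓ j := by
    intro j
    simp only [hℓdef]
    have h : j + (n : ℤ) + 1 = (j + 1) + n := by ring
    rw [h, c.z_add, c.z_add]
  have hmono : Monotone ψ := by
    apply monotone_int_of_le_succ
    intro j
    have ho : 0 < (conj (c.z (j + 1) - c.z j) * (c.z (j + 1 + 1) - c.z j)).im := by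
      exact hO n ε c (by omega) hε hN j (j + 1) (j + 1 + 1) (by omega) (by omega) (by omega)
    have h1 : c.z (j + 1 + 1) - c.z j = (c.z (j + 1) - c.z j) + (c.z (j + 1 + 1) - c.z (j + 1)) := by
      ring
    rw [h1, mul_add, Complex.add_im] at ho
    have h2 : (conj (c.z (j + 1) - c.z j) * (c.z (j + 1) - c.z j)).im = 0 := by
      rw [mul_comm, Complex.mul_conj]
      exact Complex.ofReal_im _
    rw [h2, zero_add, key j, key (j + 1), map_mul, Complex.conj_ofReal, ← Complex.exp_conj,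
      map_mul, Complex.conj_ofReal, Complex.conj_I] at ho
    have h3 : (ℓ j : ℂ) * Complex.exp ((ψ j : ℂ) * -Complex.I) *
        ((ℓ (j + 1) : ℂ) * Complex.exp ((ψ (j + 1) : ℂ) * Complex.I)) =
        ((ℓ j * ℓ (j + 1) : ℝ) : ℂ) * Complex.exp (((ψ (j + 1) - ψ j : ℝ) : ℂ) * Complex.I) := by
      have : Complex.exp (((ψ (j + 1) - ψ j : ℝ) : ℂ) * Complex.I) =
          Complex.exp ((ψ j : ℂ) * -Complex.I) * Complex.exp ((ψ (j + 1) : ℂ) * Complex.I) := by
        rw [← Complex.exp_add]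
        congr 1
        push_cast
        ring
      rw [this]
      push_cast
      ring
    rw [h3, Complex.im_ofReal_mul, Complex.exp_ofReal_mul_I_im] at ho
    have h4 : 0 < Real.sin (ψ (j + 1) - ψ j) := by
      by_contra hn
      have := mul_nonpos_of_nonneg_of_nonpos (mul_nonneg (hℓ0 j) (hℓ0 (j + 1))) (not_lt.1 hn)
      linarith
    have h5 : -π ≤ ψ (j + 1) - ψ j := by
      have a1 := Complex.arg_nonneg_iff.2 (him (j + 1)).le
      have a2 := Complex.arg_le_pi (q j)
      have a3 := c.g_pos j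
      unfold Cfg.g at a3
      simp only [hψdef]
      linarith
    by_contra hn
    have := Real.sin_nonpos_of_nonpos_of_neg_pi_le (x := ψ (j + 1) - ψ j) (by linarith) h5
    linarith
  have hpart : ∀ (a : ℤ) (m : ℕ),
      ∑ i ∈ range m, (ℓ (a + i) : ℂ) * Complex.exp (ψ (a + i) * Complex.I) = c.z (a + m) - c.z a := by
    intro a m
    induction m with
    | zero => simp
    | succ k ih =>
      rw [Finset.sum_range_succ, ih, ← key]
      push_cast
      rw [add_assoc]
      ring
  have := hP n ℓ ψ (by omega) hℓ0 hℓn hmono hψn (by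
    intro a m
    rw [hpart]
    exact hN.opt.adm _ _)
  exact this

end Pool.Agent.EHP
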