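import Pool.Agent.EHP.Stmts1

/-!
# A closed convex polygon of diameter at most `2` has perimeter at most `2 π`
-/

open Finset
open scoped Real ComplexConjugate

namespace Pool.Agent.EHP

namespace PERIM

/-- The integral of `|cos|` over a period. -/
theorem integral_abs_cos (ψ : ℝ) : ∫ θ in (0 : ℝ)..(2 * π), |Real.cos (ψ - θ)| = 4 := by
  have hper : Function.Periodic (fun x : ℝ => |Real.cos x|) (2 * π) := by
    intro x
    simp only [Real.cos_add_two_pi]
  have h1 : ∫ θ in (0 : ℝ)..(2 * π), |Real.cos (ψ - θ)|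
      = ∫ x in (ψ - 2 * π)..(ψ - 0), |Real.cos x| :=
    intervalIntegral.integral_comp_sub_left (fun x => |Real.cos x|) ψ
  have h2 : ∫ x in (ψ - 2 * π)..(ψ - 0), |Real.cos x|
      = ∫ x in (-(π / 2))..(-(π / 2) + 2 * π), |Real.cos x| := by
    have := hper.intervalIntegral_add_eq (ψ - 2 * π) (-(π / 2))
    have e : ψ - 2 * π + 2 * π = ψ - 0 := by ring
    rw [e] at this
    exact this
  have hcont : Continuous (fun x : ℝ => |Real.cos x|) := Real.continuous_cos.abs
  have h3 : ∫ x in (-(π / 2))..(-(π / 2) + 2 * π), |Real.cos x|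
      = (∫ x in (-(π / 2))..(π / 2), |Real.cos x|)
        + ∫ x in (π / 2)..(-(π / 2) + 2 * π), |Real.cos x| :=
    (intervalIntegral.integral_add_adjacent_intervals
      (hcont.intervalIntegrable _ _) (hcont.intervalIntegrable _ _)).symm
  have h4 : ∫ x in (-(π / 2))..(π / 2), |Real.cos x| = 2 := by
    have : ∫ x in (-(π / 2))..(π / 2), |Real.cos x| = ∫ x in (-(π / 2))..(π / 2), Real.cos x := by
      apply intervalIntegral.integral_congr
      intro x hx
      rw [Set.uIcc_of_le (by linarith [Real.pi_pos])] at hx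
      exact abs_of_nonneg (Real.cos_nonneg_of_mem_Icc hx)
    rw [this, integral_cos, Real.sin_neg, Real.sin_pi_div_two]
    norm_num
  have h5 : ∫ x in (π / 2)..(-(π / 2) + 2 * π), |Real.cos x| = 2 := by
    have : ∫ x in (π / 2)..(-(π / 2) + 2 * π), |Real.cos x|
        = ∫ x in (π / 2)..(-(π / 2) + 2 * π), -Real.cos x := by
      apply intervalIntegral.integral_congr
      intro x hx
      rw [Set.uIcc_of_le (by linarith [Real.pi_pos])] at hx
      exact abs_of_nonpos (Real.cos_nonpos_of_pi_div_two_le_of_le hx.1 (by linarith [hx.2]))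
    rw [this, intervalIntegral.integral_neg, integral_cos, Real.sin_add_two_pi, Real.sin_neg,
      Real.sin_pi_div_two]
    norm_num
  rw [h1, h2, h3, h4, h5]
  norm_num

/-- The first index at which a monotone family passes the level `t`. -/
theorem exists_cut {n : ℕ} {ψ : ℤ → ℝ} (hm : Monotone ψ)
    (hψ : ∀ j, ψ (j + n) = ψ j + 2 * π) (t : ℝ) :
    ∃ A : ℤ, (∀ j, A ≤ j → t ≤ ψ j) ∧ ∀ j, j < A → ψ j < t := by
  have hmul : ∀ (k : ℕ), ψ (k * n) = ψ 0 + k * (2 * π) ∧ ψ (-(k * n : ℤ)) = ψ 0 - k * (2 * π) := by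
    intro k
    induction k with
    | zero => simp
    | succ k ih =>
      constructor
      · have := hψ (k * n)
        have e : (((k + 1 : ℕ) : ℤ) * n) = k * n + n := by push_cast; ring
        rw [e, this, ih.1]
        push_cast
        ring
      · have := hψ (-(((k + 1 : ℕ) : ℤ) * n))
        have e : -(((k + 1 : ℕ) : ℤ) * n) + n = -(k * n : ℤ) := by push_cast; ring
        rw [e, ih.2] at this
        push_cast at this ⊢
        linarith
  have hpi := Real.pi_pos
  obtain ⟨k, hk⟩ := exists_nat_gt (|t - ψ 0| / (2 * π))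
  rw [div_lt_iff₀ (by positivity)] at hk
  have hk1 : t < ψ (k * n) := by
    rw [(hmul k).1]
    linarith [le_abs_self (t - ψ 0)]
  have hk2 : ψ (-(k * n : ℤ)) < t := by
    rw [(hmul k).2]
    linarith [neg_abs_le (t - ψ 0)]
  obtain ⟨A, hA1, hA2⟩ := Int.exists_least_of_bdd (P := fun j => t ≤ ψ j)
    ⟨-(k * n : ℤ), fun z hz => by
      by_contra hcon
      push Not at hcon
      have := hm hcon.le
      linarith⟩ ⟨k * n, hk1.le⟩
  refine ⟨A, fun j hj => hA1.trans (hm hj), fun j hj => ?_⟩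
  by_contra hcon
  push Not at hcon
  have := hA2 j hcon
  omega

theorem re_sum (ℓ ψ : ℤ → ℝ) (a : ℤ) (m : ℕ) (θ : ℝ) :
    ∑ i ∈ range m, ℓ (a + i) * Real.cos (ψ (a + i) - θ)
      = (Complex.exp (-(θ : ℂ) * Complex.I) *
        ∑ i ∈ range m, (ℓ (a + i) : ℂ) * Complex.exp (ψ (a + i) * Complex.I)).re := by
  rw [Finset.mul_sum, Complex.re_sum]
  apply Finset.sum_congr rfl
  intro i _
  have : Complex.exp (-(θ : ℂ) * Complex.I) * ((ℓ (a + i) : ℂ) * Complex.exp (ψ (a + i) * Complex.I))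
      = (ℓ (a + i) : ℂ) * Complex.exp (((ψ (a + i) - θ : ℝ) : ℂ) * Complex.I) := by
    rw [mul_left_comm, ← Complex.exp_add]
    congr 2
    push_cast
    ring
  rw [this, Complex.re_ofReal_mul, Complex.exp_ofReal_mul_I_re]

theorem abs_sum_le (ℓ ψ : ℤ → ℝ) (a : ℤ) (m : ℕ) (θ : ℝ)
    (h : ‖∑ i ∈ range m, (ℓ (a + i) : ℂ) * Complex.exp (ψ (a + i) * Complex.I)‖ ≤ 2) :
    |∑ i ∈ range m, ℓ (a + i) * Real.cos (ψ (a + i) - θ)| ≤ 2 := by
  rw [re_sum]
  refine (Complex.abs_re_le_norm _).trans ?_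
  rw [norm_mul]
  have : ‖Complex.exp (-(θ : ℂ) * Complex.I)‖ = 1 := by
    have := Complex.norm_exp_ofReal_mul_I (-θ)
    push_cast at this
    exact this
  rw [this, one_mul]
  exact h

/-- For every direction the width sum is at most `4`. -/
theorem width {n : ℕ} {ℓ ψ : ℤ → ℝ}
    (hper : ∀ j, ℓ (j + n) = ℓ j) (hm : Monotone ψ) (hψ : ∀ j, ψ (j + n) = ψ j + 2 * π)
    (hs : ∀ (a : ℤ) (m : ℕ),
      ‖∑ i ∈ range m, (ℓ (a + i) : ℂ) * Complex.exp (ψ (a + i) * Complex.I)‖ ≤ 2) (θ : ℝ) :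
    ∑ j ∈ range n, ℓ (j : ℤ) * |Real.cos (ψ (j : ℤ) - θ)| ≤ 4 := by
  have hpi := Real.pi_pos
  obtain ⟨A, hA1, hA2⟩ := exists_cut hm hψ (θ - π / 2)
  obtain ⟨B, hB1, hB2⟩ := exists_cut hm hψ (θ + π / 2)
  have hAB : A ≤ B := by
    by_contra hcon
    push Not at hcon
    have := hA2 B hcon
    have := hB1 B le_rfl
    linarith
  have hBA : B ≤ A + n := by
    by_contra hcon
    push Not at hcon
    have h1 := hB2 (A + n) hcon
    have h2 := hA1 A le_rfl
    rw [hψ] at h1
    linarith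
  obtain ⟨m, hmB⟩ : ∃ m : ℕ, B = A + m := ⟨(B - A).toNat, by omega⟩
  have hmn : m ≤ n := by omega
  have hf : ∀ j : ℤ, (fun j : ℤ => ℓ j * |Real.cos (ψ j - θ)|) (j + n)
      = (fun j : ℤ => ℓ j * |Real.cos (ψ j - θ)|) j := by
    intro j
    simp only
    rw [hper, hψ]
    have : ψ j + 2 * π - θ = (ψ j - θ) + 2 * π := by ring
    rw [this, Real.cos_add_two_pi]
  have h1 := sum_shift (n := n) (f := fun j : ℤ => ℓ j * |Real.cos (ψ j - θ)|) hf A
  have h2 : ∑ j ∈ range n, ℓ (j : ℤ) * |Real.cos (ψ (j : ℤ) - θ)|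
      = ∑ i ∈ range n, ℓ (A + i) * |Real.cos (ψ (A + i) - θ)| := by
    rw [← h1]
    apply Finset.sum_congr rfl
    intro i _
    rw [add_comm (i : ℤ) A]
  have h3 : ∑ i ∈ range n, ℓ (A + i) * |Real.cos (ψ (A + i) - θ)|
      = ∑ i ∈ range m, ℓ (A + i) * |Real.cos (ψ (A + i) - θ)|
        + ∑ i ∈ range (n - m), ℓ (B + i) * |Real.cos (ψ (B + i) - θ)| := by
    have h := Finset.sum_range_add (fun i : ℕ => ℓ (A + i) * |Real.cos (ψ (A + i) - θ)|) m (n - m)
    rw [Nat.add_sub_cancel' hmn] at h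
    rw [h]
    congr 1
    apply Finset.sum_congr rfl
    intro i _
    have : A + ((m + i : ℕ) : ℤ) = B + i := by rw [hmB]; push_cast; ring
    rw [this]
  have h4 : ∑ i ∈ range m, ℓ (A + i) * |Real.cos (ψ (A + i) - θ)|
      = ∑ i ∈ range m, ℓ (A + i) * Real.cos (ψ (A + i) - θ) := by
    apply Finset.sum_congr rfl
    intro i hi
    have hi' := Finset.mem_range.1 hi
    have l1 := hA1 (A + i) (by omega)
    have l2 := hB2 (A + i) (by omega)
    rw [abs_of_nonneg]
    exact Real.cos_nonneg_of_mem_Icc ⟨by linarith, by linarith⟩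
  have h5 : ∑ i ∈ range (n - m), ℓ (B + i) * |Real.cos (ψ (B + i) - θ)|
      = -∑ i ∈ range (n - m), ℓ (B + i) * Real.cos (ψ (B + i) - θ) := by
    rw [← Finset.sum_neg_distrib]
    apply Finset.sum_congr rfl
    intro i hi
    have hi' := Finset.mem_range.1 hi
    have l1 := hB1 (B + i) (by omega)
    have l2 : ψ (B + i) < θ - π / 2 + 2 * π := by
      have h := hA2 (B + i - n) (by omega)
      have h' := hψ (B + i - n)
      rw [sub_add_cancel] at h'
      linarith
    rw [abs_of_nonpos]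
    · ring
    · exact Real.cos_nonpos_of_pi_div_two_le_of_le (by linarith) (by linarith)
  have h6 := abs_sum_le ℓ ψ A m θ (hs A m)
  have h7 := abs_sum_le ℓ ψ B (n - m) θ (hs B (n - m))
  rw [h2, h3, h4, h5]
  have := (abs_le.1 h6).2
  have := (abs_le.1 h7).1
  linarith

end PERIM

theorem m_PERIM : Stmt_PERIM := by
  intro n ℓ ψ hn hℓ hper hm hψ hs
  have hpi := Real.pi_pos
  have hcont : ∀ j : ℤ, Continuous (fun θ : ℝ => ℓ j * |Real.cos (ψ j - θ)|) := fun j => by
    have : Continuous (fun θ : ℝ => |Real.cos (ψ j - θ)|) :=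
      (Real.continuous_cos.comp (continuous_const.sub continuous_id)).abs
    exact continuous_const.mul this
  have hint : ∀ j ∈ range n, IntervalIntegrable
      (fun θ : ℝ => ℓ (j : ℤ) * |Real.cos (ψ (j : ℤ) - θ)|) MeasureTheory.volume 0 (2 * π) :=
    fun j _ => (hcont j).intervalIntegrable _ _
  have h1 : ∫ θ in (0 : ℝ)..(2 * π), ∑ j ∈ range n, ℓ (j : ℤ) * |Real.cos (ψ (j : ℤ) - θ)|
      ≤ ∫ _θ in (0 : ℝ)..(2 * π), (4 : ℝ) := by
    have hc := continuous_finsetSum (range n) (fun j _ => hcont (j : ℤ))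
    have hi1 : IntervalIntegrable
        (fun θ : ℝ => ∑ j ∈ range n, ℓ (j : ℤ) * |Real.cos (ψ (j : ℤ) - θ)|)
        MeasureTheory.volume 0 (2 * π) := hc.intervalIntegrable _ _
    have hi2 : IntervalIntegrable (fun _ : ℝ => (4 : ℝ)) MeasureTheory.volume 0 (2 * π) :=
      continuous_const.intervalIntegrable _ _
    exact intervalIntegral.integral_mono_on (by positivity) hi1 hi2
      (fun θ _ => PERIM.width hper hm hψ hs θ)
  rw [intervalIntegral.integral_finsetSum hint, intervalIntegral.integral_const] at h1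
  have h2 : ∀ j ∈ range n, ∫ θ in (0 : ℝ)..(2 * π), ℓ (j : ℤ) * |Real.cos (ψ (j : ℤ) - θ)|
      = ℓ (j : ℤ) * 4 := by
    intro j _
    rw [intervalIntegral.integral_const_mul, PERIM.integral_abs_cos]
  rw [Finset.sum_congr rfl h2, ← Finset.sum_mul] at h1
  simp only [sub_zero, smul_eq_mul] at h1
  linarith

end Pool.Agent.EHP
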