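import Pool.Agent.EHP.Stmts1

/-!
# Module PHI: the angles are uniformly close to those of the regular polygon
-/

open Finset
open scoped Real ComplexConjugate

namespace Pool.Agent.EHP

namespace PHIaux

theorem X_pos {n : ℕ} (c : Cfg n) (j : ℤ) {d : ℕ} (h1 : 1 ≤ d) : 0 < c.X (j + d) j := by
  unfold Cfg.X
  have := c.mono (show j < j + (d : ℤ) by omega)
  linarith

theorem X_lt {n : ℕ} (c : Cfg n) (j : ℤ) {d : ℕ} (h1 : d < n) : c.X (j + d) j < π := by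
  unfold Cfg.X
  have := c.mono (show j + (d : ℤ) < j + (n : ℤ) by omega)
  rw [c.θ_add] at this
  linarith

theorem X_sub {n : ℕ} (c : Cfg n) (j : ℤ) (d : ℕ) :
    c.X (j + d) j - π * d / n = (c.φ (j + d) - c.φ j) / 2 := by
  unfold Cfg.X Cfg.φ
  push_cast
  ring

theorem abs_sinh_le {y : ℝ} (hy : |y| ≤ 1) : |Real.sinh y| ≤ 2 * |y| := by
  have h1 := Real.abs_exp_sub_one_le hy
  have h2 := Real.abs_exp_sub_one_le (x := -y) (by rwa [abs_neg])
  rw [abs_neg] at h2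
  rw [Real.sinh_eq]
  have h3 : (Real.exp y - Real.exp (-y)) / 2 = ((Real.exp y - 1) - (Real.exp (-y) - 1)) / 2 := by
    ring
  rw [h3, abs_div, abs_two]
  have h4 := abs_sub (Real.exp y - 1) (Real.exp (-y) - 1)
  linarith

theorem sin_lb {X : ℝ} (h0 : 0 < X) (h1 : X < π) {Y δ : ℝ} (hY1 : Y ≤ δ * X)
    (hY2 : Y ≤ δ * (π - X)) (hδ : 0 ≤ δ) : Y ≤ 2 * δ * Real.sin X := by
  have hpi := Real.pi_pos
  have hpi4 := Real.pi_le_four
  rcases le_total X (π / 2) with h | h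
  · have h2 := Real.mul_le_sin h0.le h
    have h3 : X ≤ 2 * Real.sin X := by
      have : X / 2 ≤ 2 / π * X := by
        rw [div_mul_eq_mul_div, div_le_div_iff₀ (by norm_num) hpi]
        nlinarith
      linarith
    calc Y ≤ δ * X := hY1
      _ ≤ δ * (2 * Real.sin X) := mul_le_mul_of_nonneg_left h3 hδ
      _ = 2 * δ * Real.sin X := by ring
  · have h2 := Real.mul_le_sin (x := π - X) (by linarith) (by linarith)
    rw [Real.sin_pi_sub] at h2
    have h3 : π - X ≤ 2 * Real.sin X := by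
      have : (π - X) / 2 ≤ 2 / π * (π - X) := by
        rw [div_mul_eq_mul_div, div_le_div_iff₀ (by norm_num) hpi]
        nlinarith
      linarith
    calc Y ≤ δ * (π - X) := hY2
      _ ≤ δ * (2 * Real.sin X) := mul_le_mul_of_nonneg_left h3 hδ
      _ = 2 * δ * Real.sin X := by ring

theorem TT_le {n : ℕ} (c : Cfg n) {δ : ℝ} (hδ : 0 ≤ δ) (hδ1 : δ ≤ 1 / 4)
    (hs : ∀ i j, |c.ρ i - c.ρ j| ≤ δ * |c.θ i - c.θ j|) : TT c ≤ 8 * (n : ℝ) ^ 2 * δ ^ 2 := by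
  unfold TT
  have hterm : ∀ j ∈ range n, ∀ d ∈ Ico 1 n,
      Real.log (1 + Real.sinh (c.Y ((j : ℤ) + (d : ℤ)) (j : ℤ)) ^ 2 /
        Real.sin (c.X ((j : ℤ) + (d : ℤ)) (j : ℤ)) ^ 2) ≤ 16 * δ ^ 2 := by
    intro j _ d hd
    obtain ⟨hd1, hd2⟩ := Finset.mem_Ico.1 hd
    have hX0 := X_pos c (j : ℤ) hd1
    have hX1 := X_lt c (j : ℤ) hd2
    set X := c.X ((j : ℤ) + (d : ℤ)) (j : ℤ) with hXdef
    set Y := c.Y ((j : ℤ) + (d : ℤ)) (j : ℤ) with hYdef
    have hsin : 0 < Real.sin X := Real.sin_pos_of_pos_of_lt_pi hX0 hX1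
    have hY1 : |Y| ≤ δ * X := by
      have h := hs ((j : ℤ) + d) j
      have h2 : c.θ ((j : ℤ) + d) - c.θ j = 2 * X := by rw [hXdef]; unfold Cfg.X; ring
      rw [h2, abs_of_pos (show (0 : ℝ) < 2 * X by linarith)] at h
      have h3 : |Y| = |c.ρ ((j : ℤ) + d) - c.ρ j| / 2 := by
        rw [hYdef]; unfold Cfg.Y; rw [abs_div, abs_two]
      rw [h3]; linarith
    have hY2 : |Y| ≤ δ * (π - X) := by
      have h := hs ((j : ℤ) + d) ((j : ℤ) + n)
      have h2 : c.θ ((j : ℤ) + d) - c.θ ((j : ℤ) + n) = -(2 * (π - X)) := by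
        rw [c.θ_add, hXdef]; unfold Cfg.X; ring
      rw [h2, abs_neg, abs_of_pos (show (0 : ℝ) < 2 * (π - X) by linarith), c.ρ_add] at h
      have h3 : |Y| = |c.ρ ((j : ℤ) + d) - c.ρ j| / 2 := by
        rw [hYdef]; unfold Cfg.Y; rw [abs_div, abs_two]
      rw [h3]; linarith
    have hY3 := sin_lb hX0 hX1 hY1 hY2 hδ
    have hY4 : |Y| ≤ 1 := by
      have := Real.sin_le_one X
      nlinarith
    have hS := abs_sinh_le hY4
    have hS2 : |Real.sinh Y| ≤ 4 * δ * Real.sin X := by linarith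
    have hS3 : Real.sinh Y ^ 2 ≤ 16 * δ ^ 2 * Real.sin X ^ 2 := by
      rw [← sq_abs (Real.sinh Y)]
      have := pow_le_pow_left₀ (abs_nonneg _) hS2 2
      calc |Real.sinh Y| ^ 2 ≤ (4 * δ * Real.sin X) ^ 2 := this
        _ = 16 * δ ^ 2 * Real.sin X ^ 2 := by ring
    have hq : Real.sinh Y ^ 2 / Real.sin X ^ 2 ≤ 16 * δ ^ 2 := by
      rw [div_le_iff₀ (by positivity)]; exact hS3
    have hq0 : 0 ≤ Real.sinh Y ^ 2 / Real.sin X ^ 2 := by positivity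
    have hl := Real.log_le_sub_one_of_pos (x := 1 + Real.sinh Y ^ 2 / Real.sin X ^ 2)
      (by linarith)
    linarith
  have h1 : ∑ j ∈ range n, ∑ d ∈ Ico 1 n,
      Real.log (1 + Real.sinh (c.Y ((j : ℤ) + (d : ℤ)) (j : ℤ)) ^ 2 /
        Real.sin (c.X ((j : ℤ) + (d : ℤ)) (j : ℤ)) ^ 2)
      ≤ ∑ _j ∈ range n, ∑ _d ∈ Ico 1 n, 16 * δ ^ 2 :=
    Finset.sum_le_sum fun j hj => Finset.sum_le_sum fun d hd => hterm j hj d hd
  simp only [Finset.sum_const, Nat.card_Ico, Finset.card_range, nsmul_eq_mul] at h1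
  have h2 : ((n - 1 : ℕ) : ℝ) ≤ n := by exact_mod_cast Nat.sub_le n 1
  have h3 : (n : ℝ) * (((n - 1 : ℕ) : ℝ) * (16 * δ ^ 2)) ≤ (n : ℝ) * ((n : ℝ) * (16 * δ ^ 2)) := by
    apply mul_le_mul_of_nonneg_left _ (Nat.cast_nonneg _)
    exact mul_le_mul_of_nonneg_right h2 (by positivity)
  nlinarith

/-- Variance identity. -/
theorem sum_sq {n : ℕ} (hn : 1 ≤ n) {f : ℤ → ℝ} (hf : ∀ j, f (j + n) = f j)
    (h0 : ∑ j ∈ range n, f (j : ℤ) = 0) :
    ∑ j ∈ range n, ∑ d ∈ Ico 1 n, (f ((j : ℤ) + (d : ℤ)) - f (j : ℤ)) ^ 2 =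
      2 * n * ∑ j ∈ range n, f (j : ℤ) ^ 2 := by
  have key : ∀ j : ℕ, ∑ d ∈ Ico 1 n, (f ((j : ℤ) + (d : ℤ)) - f (j : ℤ)) ^ 2 =
      ∑ i ∈ range n, f (i : ℤ) ^ 2 + n * f (j : ℤ) ^ 2 := by
    intro j
    have e1 := Finset.sum_range_eq_add_Ico
      (fun d : ℕ => (f ((j : ℤ) + (d : ℤ)) - f (j : ℤ)) ^ 2) (n := n) (by omega)
    simp only [Nat.cast_zero, add_zero, sub_self, ne_eq, OfNat.ofNat_ne_zero, not_false_eq_true,
      zero_pow, zero_add] at e1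
    rw [← e1]
    have e2 : ∀ d ∈ range n, (f ((j : ℤ) + (d : ℤ)) - f (j : ℤ)) ^ 2 =
        f ((d : ℤ) + (j : ℤ)) ^ 2 - 2 * f (j : ℤ) * f ((d : ℤ) + (j : ℤ)) + f (j : ℤ) ^ 2 := by
      intro d _
      rw [add_comm (j : ℤ) (d : ℤ)]; ring
    rw [Finset.sum_congr rfl e2, Finset.sum_add_distrib, Finset.sum_sub_distrib,
      ← Finset.mul_sum, sum_shift (f := f) hf, h0,
      sum_shift (f := fun i => f i ^ 2) (fun i => by simp only [hf])]
    simp
  rw [Finset.sum_congr rfl fun j _ => key j, Finset.sum_add_distrib, ← Finset.mul_sum]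
  simp only [Finset.sum_const, Finset.card_range, nsmul_eq_mul]
  ring

theorem Eφ_ge (hDD : Stmt_DDLB) {n : ℕ} (hn : 1 ≤ n) (c : Cfg n)
    (h0 : ∑ j ∈ range n, c.φ (j : ℤ) = 0) :
    (n : ℝ) / 4 * ∑ j ∈ range n, c.φ (j : ℤ) ^ 2 ≤ Eφ c := by
  have hn' : (0 : ℝ) < n := by exact_mod_cast hn
  have h1 : ∑ j ∈ range n, ∑ d ∈ Ico 1 n,
      (c.φ ((j : ℤ) + (d : ℤ)) - c.φ (j : ℤ)) ^ 2 / 8 ≤ Eφ c := by
    unfold Eφ
    apply Finset.sum_le_sum; intro j _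
    apply Finset.sum_le_sum; intro d hd
    obtain ⟨hd1, hd2⟩ := Finset.mem_Ico.1 hd
    have hd1' : (0 : ℝ) < d := by exact_mod_cast hd1
    have hd2' : (d : ℝ) < n := by exact_mod_cast hd2
    have ha0 : 0 < π * d / n := by have := Real.pi_pos; positivity
    have ha1 : π * d / n < π := by
      rw [div_lt_iff₀ hn']
      exact mul_lt_mul_of_pos_left hd2' Real.pi_pos
    have := hDD (π * d / n) (c.X ((j : ℤ) + (d : ℤ)) (j : ℤ)) ha0 ha1 (X_pos c _ hd1)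
      (X_lt c _ hd2)
    rw [X_sub] at this
    calc (c.φ ((j : ℤ) + (d : ℤ)) - c.φ (j : ℤ)) ^ 2 / 8
        = ((c.φ ((j : ℤ) + (d : ℤ)) - c.φ (j : ℤ)) / 2) ^ 2 / 2 := by ring
      _ ≤ _ := this
  have h2 := sum_sq hn (f := c.φ) (c.φ_add hn) h0
  have h3 : ∑ j ∈ range n, ∑ d ∈ Ico 1 n,
      (c.φ ((j : ℤ) + (d : ℤ)) - c.φ (j : ℤ)) ^ 2 / 8 =
      (∑ j ∈ range n, ∑ d ∈ Ico 1 n, (c.φ ((j : ℤ) + (d : ℤ)) - c.φ (j : ℤ)) ^ 2) / 8 := by
    simp only [Finset.sum_div]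
  rw [h3, h2] at h1
  linarith

theorem φ_shift {n : ℕ} (c : Cfg n) (hn : 1 ≤ n) (j : ℤ) (m : ℕ) :
    c.φ j - 2 * π * m / n ≤ c.φ (j + m) := by
  have h : c.θ j ≤ c.θ (j + m) := c.mono.monotone (by omega)
  unfold Cfg.φ
  have : 2 * π * ((j + (m : ℤ) : ℤ) : ℝ) / n = 2 * π * j / n + 2 * π * m / n := by
    push_cast; ring
  rw [this]; linarith

/-- A block of `M + 1` consecutive large values. -/
theorem block {n M : ℕ} (hM : M + 1 ≤ n) {f : ℤ → ℝ} (hf : ∀ j, f (j + n) = f j) {b : ℝ}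
    (hb : 0 ≤ b) (a : ℤ) (h : ∀ m : ℕ, m ≤ M → b ^ 2 ≤ f ((m : ℤ) + a) ^ 2) :
    (M + 1 : ℝ) * b ^ 2 ≤ ∑ j ∈ range n, f (j : ℤ) ^ 2 := by
  rw [← sum_shift (f := fun i => f i ^ 2) (fun i => by simp only [hf]) a]
  calc (M + 1 : ℝ) * b ^ 2 = ∑ _m ∈ range (M + 1), b ^ 2 := by simp
    _ ≤ ∑ m ∈ range (M + 1), f ((m : ℤ) + a) ^ 2 := by
      apply Finset.sum_le_sum
      intro m hm
      exact h m (by have := Finset.mem_range.1 hm; omega)
    _ ≤ ∑ m ∈ range n, f ((m : ℤ) + a) ^ 2 := by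
      apply Finset.sum_le_sum_of_subset_of_nonneg
      · exact Finset.range_mono hM
      · intro i _ _; positivity

end PHIaux

open PHIaux in
theorem m_PHI : Stmt_IDEN → Stmt_REGP → Stmt_DDLB → Stmt_PHI := by
  intro hID hRG hDD ε hε
  set e := min ε 1 with he
  have he0 : 0 < e := lt_min hε one_pos
  have he1 : e ≤ 1 := min_le_right _ _
  have heε : e ≤ ε := min_le_left _ _
  have he3 : e ^ 3 ≤ 1 := pow_le_one₀ he0.le he1
  have he3' : 0 < e ^ 3 := by positivity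
  refine ⟨e ^ 3 / 1000, by positivity, ?_⟩
  intro n c hn hopt hρ hs h0
  set δ := e ^ 3 / 1000 with hδ
  have hδ0 : 0 < δ := by positivity
  have hδ1 : δ ≤ 1 / 1000 := by rw [hδ]; linarith
  have hn' : (1 : ℝ) ≤ n := by exact_mod_cast hn
  have hTT := TT_le c hδ0.le (by linarith) hs
  have hE := Eφ_ge hDD hn c h0
  have hid := hID n c hn
  have hrg := hRG n c.z hn hopt
  have hsρ : ∑ j ∈ range n, c.ρ (j : ℤ) ≤ n * δ := by
    calc ∑ j ∈ range n, c.ρ (j : ℤ) ≤ ∑ _j ∈ range n, δ :=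
          Finset.sum_le_sum fun j _ => (abs_le.1 (hρ j)).2
      _ = n * δ := by simp
  have hS : ∑ j ∈ range n, c.φ (j : ℤ) ^ 2 ≤ 8 * n * δ := by
    have h1 : (n : ℝ) / 4 * ∑ j ∈ range n, c.φ (j : ℤ) ^ 2 ≤
        (n - 1) * ∑ j ∈ range n, c.ρ (j : ℤ) + 8 * (n : ℝ) ^ 2 * δ ^ 2 := by linarith
    have h2 : ((n : ℝ) - 1) * ∑ j ∈ range n, c.ρ (j : ℤ) ≤ (n - 1) * (n * δ) :=
      mul_le_mul_of_nonneg_left hsρ (by linarith)
    have h3 : ((n : ℝ) - 1) * (n * δ) ≤ n * (n * δ) :=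
      mul_le_mul_of_nonneg_right (by linarith) (by positivity)
    have h4 : 8 * (n : ℝ) ^ 2 * δ ^ 2 ≤ (n : ℝ) ^ 2 * δ := by
      have : 8 * δ ^ 2 ≤ δ := by nlinarith
      nlinarith [sq_nonneg (n : ℝ)]
    have h5 : (n : ℝ) / 4 * ∑ j ∈ range n, c.φ (j : ℤ) ^ 2 ≤ (n : ℝ) / 4 * (8 * n * δ) := by
      nlinarith
    exact le_of_mul_le_mul_left h5 (by linarith)
  -- the block
  have hpi := Real.pi_gt_three
  have hpi4 := Real.pi_le_four
  set M := ⌊e * n / (4 * π)⌋₊ with hMdef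
  have hM1 : (M : ℝ) ≤ e * n / (4 * π) := Nat.floor_le (by positivity)
  have hM2 : e * n / (4 * π) < M + 1 := Nat.lt_floor_add_one _
  have hMn : M + 1 ≤ n := by
    have : (M : ℝ) < n := by
      refine lt_of_le_of_lt hM1 ?_
      rw [div_lt_iff₀ (by positivity)]
      nlinarith
    have : M < n := by exact_mod_cast this
    omega
  have hMπ : 2 * π * M / n ≤ e / 2 := by
    rw [div_le_iff₀ (by linarith)]
    have := (le_div_iff₀ (by positivity)).1 hM1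
    nlinarith
  have hfin : ¬ ((M + 1 : ℝ) * (e / 2) ^ 2 ≤ ∑ j ∈ range n, c.φ (j : ℤ) ^ 2) := by
    intro h
    have h1 : e * n / (4 * π) * (e / 2) ^ 2 < (M + 1 : ℝ) * (e / 2) ^ 2 :=
      mul_lt_mul_of_pos_right hM2 (by positivity)
    have h2 : e * n / 16 * (e / 2) ^ 2 ≤ e * n / (4 * π) * (e / 2) ^ 2 := by
      apply mul_le_mul_of_nonneg_right _ (by positivity)
      apply div_le_div_of_nonneg_left (by positivity) (by positivity)
      linarith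
    have h3 : e * n / 16 * (e / 2) ^ 2 = e ^ 3 * n / 64 := by ring
    have h4 : 8 * n * δ = e ^ 3 * n / 125 := by rw [hδ]; ring
    have h5 : 0 < e ^ 3 * n := by positivity
    linarith
  intro j
  rw [abs_le]
  constructor
  · by_contra hlt
    push_neg at hlt
    apply hfin
    apply block hMn (c.φ_add hn) (by positivity) (j - M)
    intro m hm
    have h1 := φ_shift c hn ((m : ℤ) + (j - M)) (M - m)
    have h2 : (m : ℤ) + (j - M) + ((M - m : ℕ) : ℤ) = j := by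
      rw [Nat.cast_sub hm]; ring
    rw [h2] at h1
    have h3 : 2 * π * ((M - m : ℕ) : ℝ) / n ≤ 2 * π * M / n := by
      apply div_le_div_of_nonneg_right _ (by linarith)
      apply mul_le_mul_of_nonneg_left _ (by positivity)
      exact_mod_cast Nat.sub_le M m
    have h4 : c.φ ((m : ℤ) + (j - M)) ≤ -(e / 2) := by linarith
    nlinarith
  · by_contra hlt
    push_neg at hlt
    apply hfin
    apply block hMn (c.φ_add hn) (by positivity) j
    intro m hm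
    have h1 := φ_shift c hn j m
    rw [add_comm j (m : ℤ)] at h1
    have h3 : 2 * π * (m : ℝ) / n ≤ 2 * π * M / n := by
      apply div_le_div_of_nonneg_right _ (by linarith)
      apply mul_le_mul_of_nonneg_left _ (by positivity)
      exact_mod_cast hm
    have h4 : e / 2 ≤ c.φ ((m : ℤ) + j) := by linarith
    nlinarith

end Pool.Agent.EHP
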