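import Pool.Agent.EHP.Stmts3

/-!
# The pivot function
-/

open Finset
open scoped Real ComplexConjugate

namespace Pool.Agent.EHP

theorem m_PIV : Stmt_RNICE → Stmt_PART → Stmt_NOGAP → Stmt_PIV := by
  intro hRNICE hPART hNOGAP K
  obtain ⟨n1, h1⟩ := hRNICE K (1 / 10) (by norm_num)
  obtain ⟨n2, h2⟩ := hNOGAP K
  refine ⟨n1 + n2 + 12, ?_⟩
  intro n hn c hc
  have hnice := h1 n (by omega) c hc
  obtain ⟨lo, hi, hpar⟩ := hPART n (1 / 10) c (by omega) le_rfl hnice
  have hng := h2 n (by omega) c hc lo hi hpar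
  refine ⟨hi, ⟨⟨?_, hpar.hi_add, ?_, ?_⟩, ?_⟩⟩
  · apply monotone_int_of_le_succ
    intro v
    rw [hng v]
    exact (hpar.lt (v + 1)).2.1
  · intro v
    obtain ⟨a1, a2, a3⟩ := hpar.lt v
    constructor <;> omega
  · intro v l hv hl
    have e := hng (v - 1)
    rw [sub_add_cancel] at e
    rw [e]
    exact hpar.tight v l hv hl
  · intro v
    obtain ⟨a1, a2, a3⟩ := hpar.lt v
    constructor <;> omega

end Pool.Agent.EHP
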