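import Pool.Agent.EHP.Stmts4

open Finset

namespace Pool.Agent.EHP

theorem m_PIVINV : Stmt_PIVINV := by
  intro n c L hL v l hl1 hl2
  have h0 := hL.lt2 (v - 1)
  have h1 := hL.lt2 v
  have t1 : ‖c.z v - c.z l‖ = 2 :=
    (hL.piv.tight v l (by omega) (by omega)).2 ⟨hl1, by omega⟩
  have t2 : ‖c.z v - c.z (l + 1)‖ = 2 :=
    (hL.piv.tight v (l + 1) (by omega) (by omega)).2 ⟨by omega, by omega⟩
  have t1' : ‖c.z l - c.z (v + n)‖ = 2 := by rw [c.z_add, norm_sub_rev]; exact t1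
  have t2' : ‖c.z (l + 1) - c.z (v + n)‖ = 2 := by rw [c.z_add, norm_sub_rev]; exact t2
  have r1 := (hL.piv.tight l (v + n) (by omega) (by omega)).1 t1'
  have r2 := (hL.piv.tight (l + 1) (v + n) (by omega) (by omega)).1 t2'
  have e : l + 1 - 1 = l := by ring
  rw [e] at r2
  exact le_antisymm r2.1 r1.2

end Pool.Agent.EHP
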