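import Pool.Agent.EHP.Stmts5

/-!
# EHP, module PSTAR: discrete Fourier coefficients of a shifted square wave
-/

open Finset
open scoped Real ComplexConjugate

namespace Pool.Agent.EHP

namespace PStar

/-- the exponential -/
noncomputable def ek (k : ℤ) (x : ℝ) : ℂ := Complex.exp (-(k * x : ℝ) * Complex.I)

theorem ek_add (k : ℤ) (x y : ℝ) : ek k (x + y) = ek k x * ek k y := by
  unfold ek
  rw [← Complex.exp_add]
  congr 1
  push_cast
  ring

theorem norm_ek (k : ℤ) (x : ℝ) : ‖ek k x‖ = 1 := by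
  unfold ek
  have : (-((k * x : ℝ) : ℂ) * Complex.I : ℂ) = ((-(k * x) : ℝ) : ℂ) * Complex.I := by
    push_cast; ring
  rw [this, Complex.norm_exp_ofReal_mul_I]

theorem ek_cont (k : ℤ) : Continuous (ek k) := by
  unfold ek
  fun_prop

theorem ek_zero (k : ℤ) : ek k 0 = 1 := by
  simp [ek]

theorem ek_two_pi (k : ℤ) : ek k (2 * π) = 1 := by
  unfold ek
  rw [Complex.exp_eq_one_iff]
  exact ⟨-k, by push_cast; ring⟩

theorem ek_sub_one (k : ℤ) (x : ℝ) : ‖ek k x - 1‖ ≤ |(k : ℝ)| * |x| := by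
  have h := Real.norm_exp_I_mul_ofReal_sub_one_le (x := -(k * x))
  have h1 : Complex.exp (Complex.I * ((-(k * x) : ℝ) : ℂ)) = ek k x := by
    unfold ek
    congr 1
    push_cast
    ring
  rw [h1, Real.norm_eq_abs, abs_neg, abs_mul] at h
  exact h

theorem ek_sub (k : ℤ) (a b : ℝ) : ‖ek k a - ek k b‖ ≤ |(k : ℝ)| * |b - a| := by
  have h1 : ek k b = ek k a * ek k (b - a) := by
    rw [← ek_add]
    congr 1
    ring
  have h2 : ek k a - ek k b = -(ek k a * (ek k (b - a) - 1)) := by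
    rw [h1]
    ring
  rw [h2, norm_neg, norm_mul, norm_ek, one_mul]
  exact ek_sub_one k _

theorem sqw_abs (x : ℝ) : |sqw x| = 1 / 2 := by
  unfold sqw
  split_ifs
  · rw [abs_of_pos (by norm_num)]
  · rw [abs_neg, abs_of_pos (by norm_num)]

theorem sqw_meas : Measurable sqw := by
  unfold sqw
  refine Measurable.ite ?_ measurable_const measurable_const
  exact measurableSet_le measurable_const (by fun_prop)

theorem sqw_per (x : ℝ) : sqw (x + 2 * π) = sqw x := by
  unfold sqw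
  have h : Real.sin (3 * (x + 2 * π)) = Real.sin (3 * x) := by
    have h1 : 3 * (x + 2 * π) = 3 * x + (3 : ℕ) * (2 * π) := by push_cast; ring
    rw [h1, Real.sin_add_nat_mul_two_pi]
  rw [h]

/-- the sign of `sin (π t)` -/
theorem sin_floor (t : ℝ) (ht : (⌊t⌋ : ℝ) ≠ t) :
    (⌊t⌋ % 2 = 0 → 0 ≤ Real.sin (π * t)) ∧ (⌊t⌋ % 2 = 1 → Real.sin (π * t) < 0) := by
  set m := ⌊t⌋ with hm
  have h1 : (m : ℝ) ≤ t := Int.floor_le t
  have h2 : t < m + 1 := Int.lt_floor_add_one t
  have h3 : (m : ℝ) < t := lt_of_le_of_ne h1 ht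
  have h4 : 0 < Real.sin (π * (t - m)) := by
    apply Real.sin_pos_of_pos_of_lt_pi
    · exact mul_pos Real.pi_pos (by linarith)
    · have : π * (t - m) < π * 1 := mul_lt_mul_of_pos_left (by linarith) Real.pi_pos
      linarith
  constructor
  · intro h
    obtain ⟨c, hc⟩ : ∃ c : ℤ, m = 2 * c := ⟨m / 2, by omega⟩
    have h5 : π * t = π * (t - m) + c * (2 * π) := by
      rw [hc]
      push_cast
      ring
    rw [h5, Real.sin_add_int_mul_two_pi]
    exact h4.le
  · intro h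
    obtain ⟨c, hc⟩ : ∃ c : ℤ, m = 2 * c + 1 := ⟨m / 2, by omega⟩
    have h5 : π * t = π * (t - m) + π + c * (2 * π) := by
      rw [hc]
      push_cast
      ring
    rw [h5, Real.sin_add_int_mul_two_pi, Real.sin_add_pi]
    linarith

theorem sqw_sub (a b : ℝ) (hab : a ≤ b) :
    |sqw a - sqw b| ≤ ((⌊3 * b / π⌋ - ⌊3 * a / π⌋ : ℤ) : ℝ) +
      ((⌈3 * b / π⌉ - ⌈3 * a / π⌉ : ℤ) : ℝ) := by
  have hle : 3 * a / π ≤ 3 * b / π := by
    have := Real.pi_pos
    gcongr
  have h1 : ⌊3 * a / π⌋ ≤ ⌊3 * b / π⌋ := Int.floor_le_floor hle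
  have h2 : ⌈3 * a / π⌉ ≤ ⌈3 * b / π⌉ := Int.ceil_le_ceil hle
  by_cases h3 : ⌊3 * a / π⌋ = ⌊3 * b / π⌋ ∧ ⌈3 * a / π⌉ = ⌈3 * b / π⌉
  · have h4 : sqw a = sqw b := by
      by_cases h5 : (⌊3 * a / π⌋ : ℝ) = 3 * a / π
      · have h6 : (⌊3 * b / π⌋ : ℝ) = 3 * b / π := by
          have h7 : ⌈3 * a / π⌉ = ⌊3 * a / π⌋ := by
            conv_lhs => rw [← h5]
            exact Int.ceil_intCast _
          have h8 : (⌊3 * b / π⌋ : ℝ) ≤ 3 * b / π := Int.floor_le _
          have h9 : 3 * b / π ≤ (⌈3 * b / π⌉ : ℝ) := Int.le_ceil _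
          rw [← h3.2, h7, h3.1] at h9
          linarith
        have h7 : 3 * a / π = 3 * b / π := by rw [← h5, ← h6, h3.1]
        have h8 : a = b := by
          have := Real.pi_pos
          field_simp at h7
          linarith
        rw [h8]
      · have h6 : (⌊3 * b / π⌋ : ℝ) ≠ 3 * b / π := by
          intro h6
          apply h5
          have h7 : ⌈3 * b / π⌉ = ⌊3 * b / π⌋ := by
            conv_lhs => rw [← h6]
            exact Int.ceil_intCast _
          have h8 : (⌊3 * a / π⌋ : ℝ) ≤ 3 * a / π := Int.floor_le _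
          have h9 : 3 * a / π ≤ (⌈3 * a / π⌉ : ℝ) := Int.le_ceil _
          rw [h3.2, h7, ← h3.1] at h9
          linarith
        have e1 : π * (3 * a / π) = 3 * a := by
          have := Real.pi_ne_zero
          field_simp
        have e2 : π * (3 * b / π) = 3 * b := by
          have := Real.pi_ne_zero
          field_simp
        have s1 := sin_floor _ h5
        have s2 := sin_floor _ h6
        rw [e1] at s1
        rw [e2] at s2
        rw [← h3.1] at s2
        unfold sqw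
        rcases Int.emod_two_eq_zero_or_one ⌊3 * a / π⌋ with h | h
        · rw [if_pos (s1.1 h), if_pos (s2.1 h)]
        · rw [if_neg (not_le.2 (s1.2 h)), if_neg (not_le.2 (s2.2 h))]
    rw [h4, sub_self, abs_zero]
    have h5 : (0 : ℤ) ≤ ⌊3 * b / π⌋ - ⌊3 * a / π⌋ := by omega
    have h6 : (0 : ℤ) ≤ ⌈3 * b / π⌉ - ⌈3 * a / π⌉ := by omega
    exact add_nonneg (by exact_mod_cast h5) (by exact_mod_cast h6)
  · have h4 : (1 : ℤ) ≤ (⌊3 * b / π⌋ - ⌊3 * a / π⌋) + (⌈3 * b / π⌉ - ⌈3 * a / π⌉) := by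
      by_contra h5
      apply h3
      constructor <;> omega
    have h5 : (1 : ℝ) ≤ ((⌊3 * b / π⌋ - ⌊3 * a / π⌋ : ℤ) : ℝ) +
        ((⌈3 * b / π⌉ - ⌈3 * a / π⌉ : ℤ) : ℝ) := by exact_mod_cast h4
    refine le_trans ?_ h5
    calc |sqw a - sqw b| ≤ |sqw a| + |sqw b| := abs_sub _ _
      _ = 1 := by rw [sqw_abs, sqw_abs]; norm_num

/-- the function -/
noncomputable def Gq (k : ℤ) (x₀ x : ℝ) : ℂ := (sqw (x - x₀) : ℂ) * ek k x

theorem Gq_meas (k : ℤ) (x₀ : ℝ) : Measurable (Gq k x₀) := by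
  unfold Gq
  exact (Complex.measurable_ofReal.comp (sqw_meas.comp (measurable_id.sub_const x₀))).mul
    (ek_cont k).measurable

theorem Gq_norm (k : ℤ) (x₀ x : ℝ) : ‖Gq k x₀ x‖ = 1 / 2 := by
  unfold Gq
  rw [norm_mul, norm_ek, mul_one, Complex.norm_real, Real.norm_eq_abs, sqw_abs]

theorem Gq_int (k : ℤ) (x₀ a b : ℝ) : IntervalIntegrable (Gq k x₀) MeasureTheory.volume a b := by
  rw [intervalIntegrable_iff]
  refine MeasureTheory.Measure.integrableOn_of_bounded (M := 1 / 2) ?_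
    (Gq_meas k x₀).aestronglyMeasurable (Filter.Eventually.of_forall fun x => (Gq_norm k x₀ x).le)
  rw [Set.uIoc, Real.volume_Ioc]
  exact ENNReal.ofReal_ne_top

theorem Gq_cell (k : ℤ) (x₀ a b : ℝ) (hab : a < b) :
    ‖((b - a : ℝ) : ℂ) * Gq k x₀ a - ∫ x in a..b, Gq k x₀ x‖ ≤
      (b - a) * ((((⌊3 * (b - x₀) / π⌋ - ⌊3 * (a - x₀) / π⌋ : ℤ) : ℝ) +
      ((⌈3 * (b - x₀) / π⌉ - ⌈3 * (a - x₀) / π⌉ : ℤ) : ℝ)) + |(k : ℝ)| * (b - a)) := by
  have h1 : ((b - a : ℝ) : ℂ) * Gq k x₀ a - ∫ x in a..b, Gq k x₀ x =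
      ∫ x in a..b, (Gq k x₀ a - Gq k x₀ x) := by
    rw [intervalIntegral.integral_sub (by simp) (Gq_int k x₀ a b),
      intervalIntegral.integral_const, Complex.real_smul]
  rw [h1]
  have h2 := intervalIntegral.norm_integral_le_of_norm_le_const (a := a) (b := b)
    (f := fun x => Gq k x₀ a - Gq k x₀ x)
    (C := (((⌊3 * (b - x₀) / π⌋ - ⌊3 * (a - x₀) / π⌋ : ℤ) : ℝ) +
      ((⌈3 * (b - x₀) / π⌉ - ⌈3 * (a - x₀) / π⌉ : ℤ) : ℝ)) + |(k : ℝ)| * (b - a)) ?_
  · rw [abs_of_pos (show (0 : ℝ) < b - a by linarith), mul_comm] at h2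
    exact h2
  · intro x hx
    rw [Set.uIoc_of_le hab.le] at hx
    have h3 : Gq k x₀ a - Gq k x₀ x = ((sqw (a - x₀) - sqw (x - x₀) : ℝ) : ℂ) * ek k a +
        (sqw (x - x₀) : ℂ) * (ek k a - ek k x) := by
      unfold Gq
      push_cast
      ring
    have hpi := Real.pi_pos
    have m1 : ⌊3 * (x - x₀) / π⌋ ≤ ⌊3 * (b - x₀) / π⌋ := by
      apply Int.floor_le_floor
      have := hx.2
      gcongr
    have m2 : ⌈3 * (x - x₀) / π⌉ ≤ ⌈3 * (b - x₀) / π⌉ := by
      apply Int.ceil_le_ceil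
      have := hx.2
      gcongr
    have h4 := sqw_sub (a - x₀) (x - x₀) (by linarith [hx.1])
    have m1' : (⌊3 * (x - x₀) / π⌋ : ℝ) ≤ ⌊3 * (b - x₀) / π⌋ := by exact_mod_cast m1
    have m2' : (⌈3 * (x - x₀) / π⌉ : ℝ) ≤ ⌈3 * (b - x₀) / π⌉ := by exact_mod_cast m2
    have h5 := ek_sub k a x
    rw [abs_of_nonneg (by linarith [hx.1] : (0 : ℝ) ≤ x - a)] at h5
    rw [h3]
    refine (norm_add_le _ _).trans ?_
    rw [norm_mul, norm_ek, mul_one, norm_mul, Complex.norm_real, Complex.norm_real,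
      Real.norm_eq_abs, Real.norm_eq_abs, sqw_abs]
    push_cast at h4 ⊢
    have h6 : 1 / 2 * ‖ek k a - ek k x‖ ≤ |(k : ℝ)| * (b - a) := by
      have h7 : |(k : ℝ)| * (x - a) ≤ |(k : ℝ)| * (b - a) :=
        mul_le_mul_of_nonneg_left (by linarith [hx.2]) (abs_nonneg _)
      have h8 := norm_nonneg (ek k a - ek k x)
      linarith
    linarith

/-- the Riemann sum -/
theorem riemann (k : ℤ) (x₀ : ℝ) (n : ℕ) (hn : 0 < n) :
    ‖(2 * π / n : ℝ) * ∑ j ∈ range n, Gq k x₀ (j * (2 * π / n)) - ∫ x in (0 : ℝ)..(2 * π),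
      Gq k x₀ x‖ ≤ (2 * π / n) * (12 + 2 * π * |(k : ℝ)|) := by
  have hn' : (0 : ℝ) < n := by exact_mod_cast hn
  have hpi := Real.pi_pos
  set h : ℝ := 2 * π / n with hh
  have hh0 : 0 < h := by positivity
  have hnh : (n : ℝ) * h = 2 * π := by
    rw [hh]
    field_simp
  have h1 : ∑ j ∈ range n, ∫ x in ((j : ℝ) * h)..(((j + 1 : ℕ) : ℝ) * h), Gq k x₀ x =
      ∫ x in (0 : ℝ)..(2 * π), Gq k x₀ x := by
    have h2 := intervalIntegral.sum_integral_adjacent_intervals (n := n)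
      (a := fun j : ℕ => (j : ℝ) * h) (f := Gq k x₀) (μ := MeasureTheory.volume)
      (fun j _ => Gq_int k x₀ _ _)
    simp only [Nat.cast_zero, zero_mul, hnh] at h2
    exact h2
  rw [← h1, Finset.mul_sum, ← Finset.sum_sub_distrib]
  refine (norm_sum_le _ _).trans ?_
  set fl : ℕ → ℝ := fun j => (⌊3 * ((j : ℝ) * h - x₀) / π⌋ : ℝ) with hfl
  set cl : ℕ → ℝ := fun j => (⌈3 * ((j : ℝ) * h - x₀) / π⌉ : ℝ) with hcl
  have h2 : ∀ j ∈ range n, ‖((h : ℝ) : ℂ) * Gq k x₀ (j * h) -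
      ∫ x in ((j : ℝ) * h)..(((j + 1 : ℕ) : ℝ) * h), Gq k x₀ x‖ ≤
      h * ((fl (j + 1) - fl j) + (cl (j + 1) - cl j) + |(k : ℝ)| * h) := by
    intro j _
    have e1 : ((j + 1 : ℕ) : ℝ) * h - j * h = h := by push_cast; ring
    have h3 := Gq_cell k x₀ ((j : ℝ) * h) (((j + 1 : ℕ) : ℝ) * h) (by
      have : (j : ℝ) * h < ((j + 1 : ℕ) : ℝ) * h := by
        apply mul_lt_mul_of_pos_right _ hh0
        push_cast
        linarith
      exact this)
    rw [e1] at h3
    refine h3.trans (le_of_eq ?_)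
    simp only [hfl, hcl]
    push_cast
    ring
  refine (Finset.sum_le_sum h2).trans ?_
  rw [← Finset.mul_sum, Finset.sum_add_distrib, Finset.sum_add_distrib, Finset.sum_range_sub,
    Finset.sum_range_sub, Finset.sum_const, Finset.card_range, nsmul_eq_mul]
  have e2 : 3 * ((n : ℝ) * h - x₀) / π = 3 * (((0 : ℕ) : ℝ) * h - x₀) / π + (6 : ℤ) := by
    rw [hnh]
    push_cast
    field_simp
    ring
  have e3 : fl n - fl 0 = 6 := by
    simp only [hfl]
    rw [e2, Int.floor_add_intCast]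
    push_cast
    ring
  have e4 : cl n - cl 0 = 6 := by
    simp only [hcl]
    rw [e2, Int.ceil_add_intCast]
    push_cast
    ring
  rw [e3, e4]
  apply le_of_eq
  have e5 : (n : ℝ) * (|(k : ℝ)| * h) = 2 * π * |(k : ℝ)| := by
    rw [← hnh]
    ring
  rw [e5]
  ring

/-! ### the integral -/

theorem cell_eq (k : ℤ) (m : ℕ) :
    ∫ x in ((m : ℝ) * (π / 3))..(((m + 1 : ℕ) : ℝ) * (π / 3)), Gq k 0 x =
      ((-1) ^ m / 2 : ℂ) * ∫ x in ((m : ℝ) * (π / 3))..(((m + 1 : ℕ) : ℝ) * (π / 3)), ek k x := by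
  have hpi := Real.pi_pos
  have hle : (m : ℝ) * (π / 3) ≤ ((m + 1 : ℕ) : ℝ) * (π / 3) := by
    push_cast
    nlinarith
  rw [← intervalIntegral.integral_const_mul, intervalIntegral.integral_of_le hle,
    intervalIntegral.integral_of_le hle, MeasureTheory.integral_Ioc_eq_integral_Ioo,
    MeasureTheory.integral_Ioc_eq_integral_Ioo]
  refine MeasureTheory.setIntegral_congr_fun measurableSet_Ioo ?_
  intro x hx
  have h1 : (m : ℝ) < 3 * x / π := by
    rw [lt_div_iff₀ hpi]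
    linarith [hx.1]
  have h2 : 3 * x / π < (m : ℝ) + 1 := by
    rw [div_lt_iff₀ hpi]
    have := hx.2
    push_cast at this
    linarith
  have hf : ⌊3 * x / π⌋ = (m : ℤ) := by
    rw [Int.floor_eq_iff]
    push_cast
    exact ⟨h1.le, h2⟩
  have hne : (⌊3 * x / π⌋ : ℝ) ≠ 3 * x / π := by
    rw [hf]
    push_cast
    exact h1.ne
  have hs := sin_floor _ hne
  have e1 : π * (3 * x / π) = 3 * x := by
    field_simp
  rw [e1, hf] at hs
  have hG : Gq k 0 x = (sqw x : ℂ) * ek k x := by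
    unfold Gq
    rw [sub_zero]
  show Gq k 0 x = ((-1) ^ m / 2 : ℂ) * ek k x
  rw [hG]
  congr 1
  unfold sqw
  rcases Nat.even_or_odd m with h | h
  · have h3 : (m : ℤ) % 2 = 0 := by
      obtain ⟨c, hc⟩ := h
      omega
    rw [if_pos (hs.1 h3), h.neg_one_pow]
    push_cast
    ring
  · have h3 : (m : ℤ) % 2 = 1 := by
      obtain ⟨c, hc⟩ := h
      omega
    rw [if_neg (not_le.2 (hs.2 h3)), h.neg_one_pow]
    push_cast
    ring

theorem ek_int (k : ℤ) (hk : k ≠ 0) (a b : ℝ) :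
    ∫ x in a..b, ek k x = (ek k b - ek k a) / (-(k * Complex.I)) := by
  have hc : (-(k * Complex.I) : ℂ) ≠ 0 := by
    rw [neg_ne_zero]
    exact mul_ne_zero (by exact_mod_cast hk) Complex.I_ne_zero
  have h := integral_exp_mul_complex (a := a) (b := b) hc
  have e : ∀ x : ℝ, Complex.exp (-(k * Complex.I) * (x : ℂ)) = ek k x := by
    intro x
    unfold ek
    congr 1
    push_cast
    ring
  simp only [e] at h
  exact h

theorem ek_pow (k : ℤ) (m : ℕ) : ek k ((m : ℝ) * (π / 3)) = ek k (π / 3) ^ m := by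
  induction m with
  | zero => simp [ek_zero]
  | succ m ih =>
    rw [pow_succ, ← ih, ← ek_add]
    congr 1
    push_cast
    ring

theorem base (k : ℤ) : ∫ x in (0 : ℝ)..(2 * π), Gq k 0 x = 2 * π * pst k := by
  have h1 : ∑ m ∈ range 6, ∫ x in ((m : ℝ) * (π / 3))..(((m + 1 : ℕ) : ℝ) * (π / 3)), Gq k 0 x =
      ∫ x in (0 : ℝ)..(2 * π), Gq k 0 x := by
    have h2 := intervalIntegral.sum_integral_adjacent_intervals (n := 6)
      (a := fun j : ℕ => (j : ℝ) * (π / 3)) (f := Gq k 0) (μ := MeasureTheory.volume)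
      (fun j _ => Gq_int k 0 _ _)
    have e : ((6 : ℕ) : ℝ) * (π / 3) = 2 * π := by push_cast; ring
    simp only [Nat.cast_zero, zero_mul, e] at h2
    exact h2
  rw [← h1]
  simp only [cell_eq]
  by_cases hk : k = 0
  · subst hk
    have h3 : ∀ a b : ℝ, ∫ x in a..b, ek 0 x = ((b - a : ℝ) : ℂ) := by
      intro a b
      have e : ∀ x : ℝ, ek 0 x = 1 := by
        intro x
        simp [ek]
      simp only [e]
      rw [intervalIntegral.integral_const, Complex.real_smul, mul_one]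
    simp only [h3, Finset.sum_range_succ, Finset.sum_range_zero]
    have h4 : pst 0 = 0 := by
      unfold pst
      rw [if_neg (by norm_num)]
    rw [h4]
    push_cast
    ring
  · simp only [ek_int k hk]
    have hk' : (k : ℂ) ≠ 0 := by exact_mod_cast hk
    have hI := Complex.I_ne_zero
    set w := ek k (π / 3) with hw
    have hw6 : w ^ 6 = 1 := by
      rw [hw, ← ek_pow, ← ek_two_pi k]
      congr 1
      push_cast
      ring
    simp only [ek_pow, ← hw]
    have hprod : (1 + w) * (1 - w + w ^ 2 - w ^ 3 + w ^ 4 - w ^ 5) = 0 := by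
      linear_combination (-1) * hw6
    have hsum : ∑ m ∈ range 6, ((-1) ^ m / 2 : ℂ) * ((w ^ (m + 1) - w ^ m) / (-(k * Complex.I))) =
        (w - 1) * (1 - w + w ^ 2 - w ^ 3 + w ^ 4 - w ^ 5) / (2 * (-(k * Complex.I))) := by
      simp only [Finset.sum_range_succ, Finset.sum_range_zero]
      field_simp
      ring
    rw [hsum]
    unfold pst
    by_cases h3 : k % 6 = 3
    · rw [if_pos h3]
      have hw1 : w = -1 := by
        obtain ⟨q, hq⟩ : ∃ q : ℤ, k = 6 * q + 3 := ⟨k / 6, by omega⟩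
        rw [hw]
        unfold ek
        have e : (-((k * (π / 3) : ℝ) : ℂ) * Complex.I : ℂ) =
            -(π * Complex.I) + (-q : ℤ) * (2 * π * Complex.I) := by
          rw [hq]
          push_cast
          ring
        rw [e, Complex.exp_add, Complex.exp_int_mul_two_pi_mul_I, mul_one, Complex.exp_neg,
          Complex.exp_pi_mul_I]
        norm_num
      rw [hw1]
      have hpi : (π : ℂ) ≠ 0 := by exact_mod_cast Real.pi_ne_zero
      field_simp
      ring_nf
      rw [Complex.I_sq]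
      ring
    · rw [if_neg h3, mul_zero]
      have hw1 : 1 + w ≠ 0 := by
        intro h4
        apply h3
        have h5 : w = -1 := by linear_combination h4
        have h6 : Complex.exp (-((k * (π / 3) : ℝ) : ℂ) * Complex.I) =
            Complex.exp (π * Complex.I) := by
          rw [Complex.exp_pi_mul_I, ← h5, hw]
          rfl
        obtain ⟨q, hq⟩ := Complex.exp_eq_exp_iff_exists_int.1 h6
        have hpi : (π : ℂ) ≠ 0 := by exact_mod_cast Real.pi_ne_zero
        have h7 : (-(k : ℂ)) = 3 + 6 * q := by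
          push_cast at hq
          have h8 : (π * Complex.I : ℂ) ≠ 0 := mul_ne_zero hpi hI
          apply mul_left_cancel₀ h8
          linear_combination 3 * hq
        have h8 : -k = 3 + 6 * q := by exact_mod_cast h7
        omega
      rw [(mul_eq_zero.1 hprod).resolve_left hw1]
      simp

theorem full (k : ℤ) (x₀ : ℝ) :
    ∫ x in (0 : ℝ)..(2 * π), Gq k x₀ x = 2 * π * (ek k x₀ * pst k) := by
  have h1 : ∀ x, Gq k x₀ x = ek k x₀ * Gq k 0 (x - x₀) := by
    intro x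
    unfold Gq
    rw [sub_zero]
    have h2 : ek k x = ek k x₀ * ek k (x - x₀) := by
      rw [← ek_add]
      congr 1
      ring
    rw [h2]
    ring
  simp only [h1]
  rw [intervalIntegral.integral_const_mul, intervalIntegral.integral_comp_sub_right (Gq k 0) x₀]
  have hper : Function.Periodic (Gq k 0) (2 * π) := by
    intro x
    unfold Gq
    rw [sub_zero, sub_zero, sqw_per, ek_add, ek_two_pi, mul_one]
  have h2 := hper.intervalIntegral_add_eq (0 - x₀) 0
  have e1 : 0 - x₀ + 2 * π = 2 * π - x₀ := by ring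
  rw [e1, zero_add, base] at h2
  rw [h2]
  ring

end PStar

open PStar in
theorem m_PSTAR : Stmt_PSTAR := by
  intro k ε hε
  have hpi := Real.pi_pos
  set K : ℝ := 12 + 2 * π * |(k : ℝ)| with hK
  have hK0 : 0 < K := by positivity
  obtain ⟨n₀, hn₀⟩ := exists_nat_gt (K / ε)
  refine ⟨n₀ + 1, fun n hn x₀ => ?_⟩
  have hn0 : 0 < n := by omega
  have hn' : (0 : ℝ) < n := by exact_mod_cast hn0
  have hnK : K / ε < n := by
    refine hn₀.trans ?_
    exact_mod_cast (by omega : n₀ < n)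
  have h1 := riemann k x₀ n hn0
  rw [full] at h1
  have h2 : dr n (fun j => sqw (2 * π * j / n - x₀)) k =
      (∑ j ∈ range n, Gq k x₀ (j * (2 * π / n))) / n := by
    unfold dr dft
    congr 1
    refine Finset.sum_congr rfl fun j _ => ?_
    unfold Gq ek
    have e1 : 2 * π * ((j : ℤ) : ℝ) / n - x₀ = (j : ℝ) * (2 * π / n) - x₀ := by
      push_cast
      ring
    have e2 : (2 * π * k * j / n : ℝ) = k * ((j : ℝ) * (2 * π / n)) := by
      ring
    show (sqw (2 * π * ((j : ℤ) : ℝ) / n - x₀) : ℂ) * _ = _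
    rw [e1, e2]
  rw [h2]
  have hpn : (π : ℂ) ≠ 0 := by exact_mod_cast Real.pi_ne_zero
  have hnn : (n : ℂ) ≠ 0 := by exact_mod_cast hn'.ne'
  have h3 : (∑ j ∈ range n, Gq k x₀ (j * (2 * π / n))) / n -
      Complex.exp (-(k * x₀ : ℝ) * Complex.I) * pst k =
      ((1 / (2 * π) : ℝ) : ℂ) * ((2 * π / n : ℝ) * ∑ j ∈ range n, Gq k x₀ (j * (2 * π / n)) -
        2 * π * (ek k x₀ * pst k)) := by
    have e1 : (Complex.exp (-(k * x₀ : ℝ) * Complex.I) : ℂ) = ek k x₀ := rfl
    rw [e1]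
    generalize (∑ j ∈ range n, Gq k x₀ (j * (2 * π / n))) = S
    generalize ek k x₀ = E
    push_cast
    field_simp
  rw [h3, norm_mul, Complex.norm_real, Real.norm_eq_abs, abs_of_pos (by positivity)]
  calc 1 / (2 * π) * _ ≤ 1 / (2 * π) * ((2 * π / n) * K) := by gcongr
    _ = K / n := by field_simp
    _ ≤ ε := by
      rw [div_le_iff₀ hn']
      rw [div_lt_iff₀ hε] at hnK
      linarith

end Pool.Agent.EHP
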