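import Pool.Agent.EHP.Stmts2

/-!
# The a priori bounds (helper5)
-/

open Finset
open scoped Real ComplexConjugate

namespace Pool.Agent.EHP

/-- Sup bound of a periodic sequence with small square sum and small total variation. -/
theorem reg_sup {n : ℕ} (hn : 0 < n) {f d : ℤ → ℝ} (hf : ∀ j, f (j + n) = f j)
    {A B : ℝ} (hA : 0 ≤ A) (h2 : ∑ j ∈ range n, f (j : ℤ) ^ 2 ≤ A / n)
    (hd : ∀ j, |f (j + 1) - f j| ≤ d j) (hd0 : ∀ j, 0 ≤ d j)
    (hB : ∑ j ∈ range n, d (j : ℤ) ≤ B / n) (j : ℤ) : |f j| ≤ (Real.sqrt A + B) / n := by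
  have hnR : (0 : ℝ) < n := by exact_mod_cast hn
  obtain ⟨i0, hi0, hfi⟩ : ∃ i ∈ range n, f (i : ℤ) ^ 2 ≤ A / (n : ℝ) ^ 2 := by
    by_contra hcon
    push Not at hcon
    have h3 : ∑ _i ∈ range n, A / (n : ℝ) ^ 2 < ∑ i ∈ range n, f (i : ℤ) ^ 2 :=
      Finset.sum_lt_sum_of_nonempty ⟨0, Finset.mem_range.2 hn⟩ hcon
    rw [Finset.sum_const, Finset.card_range, nsmul_eq_mul] at h3
    have h4 : (n : ℝ) * (A / (n : ℝ) ^ 2) = A / n := by
      field_simp
    linarith
  have habs : |f (i0 : ℤ)| ≤ Real.sqrt A / n := by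
    have h5 : |f (i0 : ℤ)| ≤ Real.sqrt (A / (n : ℝ) ^ 2) := Real.abs_le_sqrt hfi
    rwa [Real.sqrt_div hA, Real.sqrt_sq hnR.le] at h5
  -- total variation between two indices of the period
  have tv : ∀ a b : ℕ, a ≤ b → b < n → |f (b : ℤ) - f (a : ℤ)| ≤ B / n := by
    intro a b hab hb
    have h6 := dist_le_Ico_sum_of_dist_le (f := fun k : ℕ => f (k : ℤ))
      (d := fun k : ℕ => d (k : ℤ)) hab (fun {k} _ _ => by
        rw [dist_comm, Real.dist_eq]
        have := hd (k : ℤ)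
        push_cast
        exact this)
    rw [dist_comm, Real.dist_eq] at h6
    refine h6.trans (le_trans ?_ hB)
    apply Finset.sum_le_sum_of_subset_of_nonneg
    · intro i hi
      have := Finset.mem_Ico.1 hi
      exact Finset.mem_range.2 (by omega)
    · intro i _ _
      exact hd0 _
  -- reduction to the period
  have hmod : f (j % n) = f j := per_mod hf j
  have hnz : (n : ℤ) ≠ 0 := by exact_mod_cast hn.ne'
  have hr0 : 0 ≤ j % (n : ℤ) := Int.emod_nonneg _ hnz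
  have hr1 : j % (n : ℤ) < n := Int.emod_lt_of_pos _ (by exact_mod_cast hn)
  obtain ⟨r, hr⟩ := Int.eq_ofNat_of_zero_le hr0
  have hrn : r < n := by
    have : ((r : ℕ) : ℤ) < n := by rw [← hr]; exact hr1
    exact_mod_cast this
  have hfr : f j = f (r : ℤ) := by rw [← hmod, hr]
  have hi0n := Finset.mem_range.1 hi0
  have key : |f (r : ℤ) - f (i0 : ℤ)| ≤ B / n := by
    rcases le_total i0 r with h | h
    · exact tv i0 r h hrn
    · rw [abs_sub_comm]
      exact tv r i0 h hi0n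
  rw [hfr]
  have h7 : |f (r : ℤ)| ≤ |f (i0 : ℤ)| + |f (r : ℤ) - f (i0 : ℤ)| := by
    have := abs_add_le (f (i0 : ℤ)) (f (r : ℤ) - f (i0 : ℤ))
    simpa using this
  rw [add_div]
  linarith

/-- **REG.** -/
theorem m_REG : Stmt_APRI → Stmt_REGU → Stmt_SSUM → Stmt_REG := by
  rintro ⟨K1, e1, he1, n1, h1⟩ ⟨K2, e2, he2, n2, h2⟩ ⟨K3, e3, he3, n3, h3⟩
  have hpi := Real.pi_pos
  refine ⟨1 + |K2| + |K3| + (Real.sqrt |K1| + |K3|) + (Real.sqrt |K1| + 2 * π * Real.sqrt |K2|),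
    min e1 (min e2 e3), by positivity, lt_min he1 (lt_min he2 he3), max 1 (max n1 (max n2 n3)),
    fun n hn c hc => ?_⟩
  have hn1 : 1 ≤ n := (le_max_left _ _).trans hn
  have hnn1 : n1 ≤ n := ((le_max_left _ _).trans (le_max_right _ _)).trans hn
  have hnn2 : n2 ≤ n :=
    (((le_max_left _ _).trans (le_max_right _ _)).trans (le_max_right _ _)).trans hn
  have hnn3 : n3 ≤ n :=
    (((le_max_right _ _).trans (le_max_right _ _)).trans (le_max_right _ _)).trans hn
  have hn0 : 0 < n := hn1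
  have hnR : (0 : ℝ) < n := by exact_mod_cast hn0
  have mono : ∀ e, min e1 (min e2 e3) ≤ e → Nice n e c := fun e he =>
    { opt := hc.opt
      cent := hc.cent
      rot := hc.rot
      hρ := fun j => (hc.hρ j).trans he
      hφ := fun j => (hc.hφ j).trans he
      slope := fun i j => (hc.slope i j).trans (mul_le_mul_of_nonneg_right he (abs_nonneg _)) }
  obtain ⟨a1, -⟩ := h1 n hnn1 c (mono e1 (min_le_left _ _))
  obtain ⟨b1, b2⟩ := h2 n hnn2 c (mono e2 ((min_le_right _ _).trans (min_le_left _ _)))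
  obtain ⟨c1, c2, -⟩ := h3 n hnn3 c (mono e3 ((min_le_right _ _).trans (min_le_right _ _)))
  have hsK1 := Real.sqrt_nonneg |K1|
  have hsK2 := Real.sqrt_nonneg |K2|
  have hK1 := abs_nonneg K1
  have hK2 := abs_nonneg K2
  have hK3 := abs_nonneg K3
  have hK2' := le_abs_self K2
  have hK3' := le_abs_self K3
  have hK1' := le_abs_self K1
  have hp2 : 0 ≤ 2 * π * Real.sqrt |K2| := by positivity
  -- the means
  have hS : 0 ≤ c.S := by
    unfold Cfg.S
    exact Finset.sum_nonneg fun j _ => div_nonneg (sq_nonneg _) (c.g_pos _).le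
  have hmr : 0 ≤ mn n (fun j => c.ρ j ^ 2) := by
    unfold mn
    exact div_nonneg (Finset.sum_nonneg fun j _ => sq_nonneg _) hnR.le
  have hmp : 0 ≤ mn n (fun j => c.φ j ^ 2) := by
    unfold mn
    exact div_nonneg (Finset.sum_nonneg fun j _ => sq_nonneg _) hnR.le
  have hn2 : 0 < (n : ℝ) ^ 2 := by positivity
  have conv : ∀ f : ℤ → ℝ, (n : ℝ) ^ 2 * mn n f ≤ |K1| → ∑ j ∈ range n, f (j : ℤ) ≤ |K1| / n := by
    intro f hf
    unfold mn at hf
    rw [le_div_iff₀ hnR]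
    have : (n : ℝ) ^ 2 * ((∑ j ∈ range n, f (j : ℤ)) / n) = (∑ j ∈ range n, f (j : ℤ)) * n := by
      field_simp
    linarith
  have hρ2 : ∑ j ∈ range n, c.ρ (j : ℤ) ^ 2 ≤ |K1| / n := by
    apply conv (fun j => c.ρ j ^ 2)
    have t1 : (n : ℝ) ^ 2 * mn n (fun j => c.ρ j ^ 2) ≤
        (n : ℝ) ^ 2 * (c.S + mn n (fun j => c.ρ j ^ 2) + mn n (fun j => c.φ j ^ 2)) :=
      mul_le_mul_of_nonneg_left (by linarith) hn2.le
    linarith
  have hφ2 : ∑ j ∈ range n, c.φ (j : ℤ) ^ 2 ≤ |K1| / n := by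
    apply conv (fun j => c.φ j ^ 2)
    have t1 : (n : ℝ) ^ 2 * mn n (fun j => c.φ j ^ 2) ≤
        (n : ℝ) ^ 2 * (c.S + mn n (fun j => c.ρ j ^ 2) + mn n (fun j => c.φ j ^ 2)) :=
      mul_le_mul_of_nonneg_left (by linarith) hn2.le
    linarith
  -- total variation of rho
  have hΔ : ∀ j, |c.ρ (j + 1) - c.ρ j| ≤ c.g j * |c.s j| := by
    intro j
    have hg := c.g_pos j
    have : c.ρ (j + 1) - c.ρ j = c.g j * c.s j := by
      unfold Cfg.s Cfg.Δ
      rw [mul_div_cancel₀ _ hg.ne']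
    rw [this, abs_mul, abs_of_pos hg]
  have hvρ : ∑ j ∈ range n, c.g (j : ℤ) * |c.s (j : ℤ)| ≤ |K3| / n := by
    have t1 := Finset.sum_mul_sq_le_sq_mul_sq (range n) (fun j : ℕ => c.g (j : ℤ))
      (fun j : ℕ => |c.s (j : ℤ)|)
    simp only [sq_abs] at t1
    have t2 : (∑ j ∈ range n, c.g (j : ℤ) ^ 2) * ∑ j ∈ range n, c.s (j : ℤ) ^ 2 ≤
        (|K3| / n) * (|K3| / n) := by
      apply mul_le_mul
      · exact c2.trans (div_le_div_of_nonneg_right hK3' hnR.le)
      · exact c1.trans (div_le_div_of_nonneg_right hK3' hnR.le)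
      · exact Finset.sum_nonneg fun j _ => sq_nonneg _
      · positivity
    have t3 : (∑ j ∈ range n, c.g (j : ℤ) * |c.s (j : ℤ)|) ^ 2 ≤ (|K3| / n) ^ 2 := by
      rw [sq (|K3| / n)]
      exact t1.trans t2
    exact (abs_le_of_sq_le_sq' t3 (by positivity)).2
  -- total variation of phi
  have hφd : ∀ j, |c.φ (j + 1) - c.φ j| ≤ 2 * π / n * |c.y j| := by
    intro j
    have : c.φ (j + 1) - c.φ j = 2 * π / n * c.y j := by
      have hg := c.g_eq hn0 j
      have hg' : c.g j = c.θ (j + 1) - c.θ j := rfl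
      unfold Cfg.φ
      push_cast
      have : 2 * π * ((j : ℝ) + 1) / n = 2 * π * j / n + 2 * π / n := by ring
      rw [this]
      linarith
    rw [this, abs_mul, abs_of_pos (by positivity : 0 < 2 * π / n)]
  have hvφ : ∑ j ∈ range n, 2 * π / n * |c.y (j : ℤ)| ≤ 2 * π * Real.sqrt |K2| / n := by
    rw [← Finset.mul_sum]
    have t1 := sq_sum_le_card_mul_sum_sq (s := range n) (f := fun j : ℕ => |c.y (j : ℤ)|)
    simp only [card_range, sq_abs] at t1
    have t2 : (n : ℝ) * ∑ j ∈ range n, c.y (j : ℤ) ^ 2 ≤ |K2| := by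
      have t3 := mul_le_mul_of_nonneg_left
        (b1.trans (div_le_div_of_nonneg_right hK2' hnR.le)) hnR.le
      rwa [mul_div_cancel₀ _ hnR.ne'] at t3
    have t4 : ∑ j ∈ range n, |c.y (j : ℤ)| ≤ Real.sqrt |K2| :=
      (le_abs_self _).trans (Real.abs_le_sqrt (t1.trans t2))
    calc 2 * π / n * ∑ j ∈ range n, |c.y (j : ℤ)|
        ≤ 2 * π / n * Real.sqrt |K2| := mul_le_mul_of_nonneg_left t4 (by positivity)
      _ = 2 * π * Real.sqrt |K2| / n := by ring
  have sρ := reg_sup hn0 c.ρ_add (abs_nonneg K1) hρ2 hΔ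
    (fun j => mul_nonneg (c.g_pos j).le (abs_nonneg _)) hvρ
  have sφ := reg_sup hn0 (c.φ_add hn0) (abs_nonneg K1) hφ2 hφd
    (fun j => mul_nonneg (by positivity) (abs_nonneg _)) hvφ
  exact
    { opt := hc.opt
      cent := hc.cent
      rot := hc.rot
      hρ := fun j => (sρ j).trans (div_le_div_of_nonneg_right (by linarith) hnR.le)
      hφ := fun j => (sφ j).trans (div_le_div_of_nonneg_right (by linarith) hnR.le)
      hy := b1.trans (div_le_div_of_nonneg_right (by linarith) hnR.le)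
      hs := c1.trans (div_le_div_of_nonneg_right (by linarith) hnR.le)
      hH := b2.trans (mul_le_mul_of_nonneg_right (by linarith) hnR.le) }

end Pool.Agent.EHP
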