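import Pool.Agent.EHP.Stmts1

open Finset
open scoped Real ComplexConjugate

namespace Pool.Agent.EHP

/-- The roots of unity. -/
noncomputable def regp_w (n : ℕ) (j : ℤ) : ℂ := Complex.exp ((2 * π * j / n : ℝ) * Complex.I)

theorem regp_zpow {n : ℕ} (hn : 1 ≤ n) (j : ℤ) :
    regp_w n j = (Complex.exp (2 * π * Complex.I / n)) ^ j := by
  rw [regp_w, ← Complex.exp_int_mul]
  congr 1
  push_cast
  ring

theorem regp_ne {n : ℕ} (j : ℤ) : regp_w n j ≠ 0 := Complex.exp_ne_zero _

theorem regp_norm {n : ℕ} (j : ℤ) : ‖regp_w n j‖ = 1 := by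
  rw [regp_w, Complex.norm_exp_ofReal_mul_I]

theorem regp_add {n : ℕ} (i j : ℤ) : regp_w n (i + j) = regp_w n i * regp_w n j := by
  rw [regp_w, regp_w, regp_w, ← Complex.exp_add]
  congr 1
  push_cast
  ring

theorem m_REGP : Stmt_REGP := by
  intro n z hn hz
  have hprim := Complex.isPrimitiveRoot_exp n (by omega)
  have hn0 : (n : ℂ) ≠ 0 := by exact_mod_cast (by omega : n ≠ 0)
  have hone : ∀ k : ℤ, regp_w n k = 1 ↔ (n : ℤ) ∣ k := by
    intro k
    rw [regp_zpow hn]
    exact hprim.zpow_eq_one_iff_dvd k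
  have hpts : Pts n (regp_w n) := by
    constructor
    · intro j
      rw [regp_add, (hone n).2 (dvd_refl _), mul_one]
    · intro i j h
      rw [← hone, sub_eq_add_neg, regp_add]
      have h1 : regp_w n j * regp_w n (-j) = 1 := by
        rw [← regp_add, add_neg_cancel]
        exact (hone 0).2 (dvd_zero _)
      rw [h, h1]
  have hadm : ∀ i j : ℤ, ‖regp_w n i - regp_w n j‖ ≤ 2 := by
    intro i j
    calc ‖regp_w n i - regp_w n j‖ ≤ ‖regp_w n i‖ + ‖regp_w n j‖ := norm_sub_le _ _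
      _ = 2 := by rw [regp_norm, regp_norm]; norm_num
  have hmax := hz.max (regp_w n) hpts hadm
  refine le_trans (le_of_eq ?_) hmax
  have hprod : ∏ d ∈ Ico 1 n, ‖regp_w n (d : ℤ) - 1‖ = n := by
    obtain ⟨m, rfl⟩ : ∃ m, n = m + 1 := ⟨n - 1, by omega⟩
    have h := hprim.prod_one_sub_pow_eq_order
    rw [Finset.prod_Ico_eq_prod_range]
    have h2 := congrArg norm h
    rw [norm_prod] at h2
    have h3 : ‖((m : ℂ) + 1)‖ = ((m + 1 : ℕ) : ℝ) := by
      rw [← Nat.cast_succ, Complex.norm_natCast]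
    rw [h3] at h2
    rw [← h2]
    refine Finset.prod_congr (by simp) ?_
    intro k _
    rw [norm_sub_rev, regp_zpow hn]
    congr 2
    rw [← zpow_natCast]
    congr 1
    push_cast
    ring
  have hlog : ∑ d ∈ Ico 1 n, Real.log ‖regp_w n (d : ℤ) - 1‖ = Real.log n := by
    rw [← hprod, Real.log_prod]
    intro d hd
    rw [Finset.mem_Ico] at hd
    rw [norm_ne_zero_iff, sub_ne_zero]
    intro h
    have := (hone d).1 h
    have := Int.le_of_dvd (by omega) this
    omega
  rw [FL]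
  have : ∀ j ∈ range n, ∑ d ∈ Ico 1 n, Real.log ‖regp_w n ((j : ℤ) + (d : ℤ)) - regp_w n (j : ℤ)‖ =
      Real.log n := by
    intro j _
    rw [← hlog]
    refine Finset.sum_congr rfl ?_
    intro d _
    congr 1
    rw [regp_add, show regp_w n (j : ℤ) * regp_w n (d : ℤ) - regp_w n (j : ℤ) =
      regp_w n (j : ℤ) * (regp_w n (d : ℤ) - 1) by ring, norm_mul, regp_norm, one_mul]
  rw [Finset.sum_congr rfl this, Finset.sum_const, Finset.card_range, nsmul_eq_mul]

end Pool.Agent.EHP
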