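import Pool.Agent.EHP.Stmts2

/-!
# Regularity: `Stmt_REGU`
-/

open Finset
open scoped Real ComplexConjugate

namespace Pool.Agent.EHP

namespace M_REGU

theorem nice_mono {n : ℕ} {ε ε' : ℝ} {c : Cfg n} (h : Nice n ε c) (he : ε ≤ ε') : Nice n ε' c :=
  ⟨h.opt, h.cent, h.rot, fun j => (h.hρ j).trans he, fun j => (h.hφ j).trans he,
    fun i j => (h.slope i j).trans (mul_le_mul_of_nonneg_right he (abs_nonneg _))⟩

/-- half of the angle differences lie in `(0, π)` -/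
theorem X_mem {n : ℕ} (c : Cfg n) (j : ℤ) {d : ℕ} (hd : d ∈ Ico 1 n) :
    0 < c.X (j + (d : ℤ)) j ∧ c.X (j + (d : ℤ)) j < π := by
  obtain ⟨h1, h2⟩ := Finset.mem_Ico.1 hd
  have h3 : c.θ j < c.θ (j + (d : ℤ)) := c.mono (by omega)
  have h4 : c.θ (j + (d : ℤ)) < c.θ (j + n) := c.mono (by omega)
  rw [c.θ_add] at h4
  unfold Cfg.X
  constructor <;> linarith

theorem a_mem {n d : ℕ} (hd : d ∈ Ico 1 n) : 0 < π * d / n ∧ π * d / n < π := by
  obtain ⟨h1, h2⟩ := Finset.mem_Ico.1 hd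
  have h1' : (0 : ℝ) < d := by exact_mod_cast h1
  have h2' : (d : ℝ) < (n : ℝ) := by exact_mod_cast h2
  have hn : (0 : ℝ) < n := h1'.trans h2'
  constructor
  · have := Real.pi_pos
    positivity
  · rw [div_lt_iff₀ hn]
    exact mul_lt_mul_of_pos_left h2' Real.pi_pos

/-- the bound for the slopes of the tight directions -/
noncomputable def bb {n : ℕ} (c : Cfg n) (v : ℤ) : ℝ :=
  (|c.s (v - 1)| + c.g (v - 1)) + (|c.s v| + c.g v)

theorem vert (hCONE : Stmt_CONE) (hFBH : Stmt_FBH) {n : ℕ} (hn : 1 ≤ n) (c : Cfg n)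
    (hopt : Opt n c.z) (v : ℤ)
    (hT : ∀ l : ℤ, ‖c.z v - c.z l‖ = 2 → 0 < ((c.z v - c.z l) / c.z v).re ∧
      -(c.s (v - 1) + c.g (v - 1)) * ((c.z v - c.z l) / c.z v).re ≤ ((c.z v - c.z l) / c.z v).im ∧
      ((c.z v - c.z l) / c.z v).im ≤ (-c.s v + c.g v) * ((c.z v - c.z l) / c.z v).re) :
    (HH n c.z v).im ^ 2 ≤ bb c v ^ 2 * ((n : ℝ) ^ 2 / 2 + 2 * (HH n c.z v).re ^ 2) := by
  have hg1 := c.g_pos (v - 1)
  have hg2 := c.g_pos v
  have hb : 0 ≤ bb c v := by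
    unfold bb
    have := abs_nonneg (c.s (v - 1))
    have := abs_nonneg (c.s v)
    linarith
  have h1 := hCONE n c.z hn hopt v (bb c v) (c.z_ne v) hb (by
    intro l hl
    obtain ⟨hp, hlo, hhi⟩ := hT l hl
    refine ⟨hp, abs_le.2 ⟨?_, ?_⟩⟩
    · refine le_trans ?_ hlo
      rw [← neg_mul]
      refine mul_le_mul_of_nonneg_right ?_ hp.le
      unfold bb
      have := le_abs_self (c.s (v - 1))
      have := abs_nonneg (c.s v)
      linarith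
    · refine hhi.trans (mul_le_mul_of_nonneg_right ?_ hp.le)
      unfold bb
      have := neg_abs_le (c.s v)
      have := abs_nonneg (c.s (v - 1))
      linarith)
  rw [hFBH n c.z hn hopt.pts v] at h1
  have him : (((n : ℂ) - 1) / 2 + HH n c.z v).im = (HH n c.z v).im := by
    have : ((n : ℂ) - 1) / 2 = ((((n : ℝ) - 1) / 2 : ℝ) : ℂ) := by push_cast; ring
    rw [this, Complex.add_im, Complex.ofReal_im, zero_add]
  have hre : (((n : ℂ) - 1) / 2 + HH n c.z v).re = ((n : ℝ) - 1) / 2 + (HH n c.z v).re := by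
    have : ((n : ℂ) - 1) / 2 = ((((n : ℝ) - 1) / 2 : ℝ) : ℂ) := by push_cast; ring
    rw [this, Complex.add_re, Complex.ofReal_re]
  rw [him, hre] at h1
  have h2 : (HH n c.z v).im ^ 2 ≤ (bb c v * (((n : ℝ) - 1) / 2 + (HH n c.z v).re)) ^ 2 := by
    rw [← sq_abs (HH n c.z v).im]
    exact pow_le_pow_left₀ (abs_nonneg _) h1 2
  rw [mul_pow] at h2
  refine h2.trans (mul_le_mul_of_nonneg_left ?_ (sq_nonneg _))
  have hn1 : (1 : ℝ) ≤ n := by exact_mod_cast hn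
  nlinarith [sq_nonneg (((n : ℝ) - 1) / 2 - (HH n c.z v).re)]

theorem sum_bb {n : ℕ} (c : Cfg n) {K : ℝ}
    (hs : ∑ j ∈ range n, c.s (j : ℤ) ^ 2 ≤ K) (hg : ∑ j ∈ range n, c.g (j : ℤ) ^ 2 ≤ K) :
    ∑ j ∈ range n, bb c (j : ℤ) ^ 2 ≤ 16 * K := by
  have h1 : ∀ j ∈ range n, bb c (j : ℤ) ^ 2 ≤
      4 * (c.s ((j : ℤ) + (-1)) ^ 2 + c.g ((j : ℤ) + (-1)) ^ 2 + c.s (j : ℤ) ^ 2 +
        c.g (j : ℤ) ^ 2) := by
    intro j _
    unfold bb
    rw [← sub_eq_add_neg, ← sq_abs (c.s ((j : ℤ) - 1)), ← sq_abs (c.s (j : ℤ))]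
    nlinarith [sq_nonneg (|c.s ((j : ℤ) - 1)| - c.g ((j : ℤ) - 1)),
      sq_nonneg (|c.s ((j : ℤ) - 1)| - |c.s (j : ℤ)|), sq_nonneg (|c.s ((j : ℤ) - 1)| - c.g (j : ℤ)),
      sq_nonneg (c.g ((j : ℤ) - 1) - |c.s (j : ℤ)|), sq_nonneg (c.g ((j : ℤ) - 1) - c.g (j : ℤ)),
      sq_nonneg (|c.s (j : ℤ)| - c.g (j : ℤ))]
  have h2 : ∑ j ∈ range n, c.s ((j : ℤ) + (-1)) ^ 2 = ∑ j ∈ range n, c.s (j : ℤ) ^ 2 :=
    sum_shift (f := fun j => c.s j ^ 2) (fun j => by rw [c.s_add]) (-1)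
  have h3 : ∑ j ∈ range n, c.g ((j : ℤ) + (-1)) ^ 2 = ∑ j ∈ range n, c.g (j : ℤ) ^ 2 :=
    sum_shift (f := fun j => c.g j ^ 2) (fun j => by rw [c.g_add]) (-1)
  refine (Finset.sum_le_sum h1).trans ?_
  rw [← Finset.mul_sum, Finset.sum_add_distrib, Finset.sum_add_distrib, Finset.sum_add_distrib,
    h2, h3]
  linarith

theorem bb_le {n : ℕ} (c : Cfg n) (h : ∀ j, |c.s j| + c.g j ≤ 1 / 10) (v : ℤ) :
    bb c v ^ 2 ≤ 1 / 25 := by
  have h1 := h (v - 1)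
  have h2 := h v
  have hg1 := c.g_pos (v - 1)
  have hg2 := c.g_pos v
  have h3 := abs_nonneg (c.s (v - 1))
  have h4 := abs_nonneg (c.s v)
  have h5 : bb c v ≤ 1 / 5 := by unfold bb; linarith
  have h6 : 0 ≤ bb c v := by unfold bb; linarith
  nlinarith

/-- the sum over all pairs of the squared cotangents -/
theorem pairs (hCOTRE : Stmt_COTRE) (hCOTSUM : Stmt_COTSUM) {n : ℕ} (hn : 1 ≤ n) (c : Cfg n) :
    (n : ℝ) * (n - 1) * (n - 2) / 3 +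
      ∑ j ∈ range n, ∑ d ∈ Ico 1 n, D2 (π * d / n) (c.X ((j : ℤ) + (d : ℤ)) (j : ℤ)) -
      3 * ∑ j ∈ range n, ∑ d ∈ Ico 1 n, Real.sinh (c.Y ((j : ℤ) + (d : ℤ)) (j : ℤ)) ^ 2 /
        Real.sin (c.X ((j : ℤ) + (d : ℤ)) (j : ℤ)) ^ 4 ≤
    -(∑ j ∈ range n, ∑ d ∈ Ico 1 n, cc c.z (j : ℤ) ((j : ℤ) + (d : ℤ)) ^ 2).re := by
  have hn0 : 0 < n := hn
  have h1 : ∀ j ∈ range n, ∀ d ∈ Ico 1 n,
      D2 (π * d / n) (c.X ((j : ℤ) + (d : ℤ)) (j : ℤ)) +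
        Real.cos (π * d / n) ^ 2 / Real.sin (π * d / n) ^ 2 -
        (c.φ ((j : ℤ) + (d : ℤ)) * (Real.cos (π * d / n) / Real.sin (π * d / n) ^ 3) -
          c.φ (j : ℤ) * (Real.cos (π * d / n) / Real.sin (π * d / n) ^ 3)) -
        3 * (Real.sinh (c.Y ((j : ℤ) + (d : ℤ)) (j : ℤ)) ^ 2 /
          Real.sin (c.X ((j : ℤ) + (d : ℤ)) (j : ℤ)) ^ 4) ≤
        -(cc c.z (j : ℤ) ((j : ℤ) + (d : ℤ)) ^ 2).re := by
    intro j _ d hd
    obtain ⟨hX0, hX1⟩ := X_mem c (j : ℤ) hd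
    have hs := Real.sin_pos_of_pos_of_lt_pi hX0 hX1
    have h2 := hCOTRE n c ((j : ℤ) + (d : ℤ)) (j : ℤ) hs.ne'
    have h3 : cc c.z (j : ℤ) ((j : ℤ) + (d : ℤ)) ^ 2 = cc c.z ((j : ℤ) + (d : ℤ)) (j : ℤ) ^ 2 := by
      unfold cc
      rw [← neg_sub (c.z ((j : ℤ) + (d : ℤ))) (c.z (j : ℤ)), div_neg, neg_sq,
        add_comm (c.z (j : ℤ))]
    have h4 : c.X ((j : ℤ) + (d : ℤ)) (j : ℤ) - π * d / n =
        (c.φ ((j : ℤ) + (d : ℤ)) - c.φ (j : ℤ)) / 2 := by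
      unfold Cfg.X Cfg.φ
      push_cast
      ring
    rw [h3]
    rw [Complex.neg_re] at h2
    refine le_trans (le_of_eq ?_) h2
    unfold D2
    have h5 : 2 * (c.X ((j : ℤ) + (d : ℤ)) (j : ℤ) - π * d / n) * Real.cos (π * d / n) /
        Real.sin (π * d / n) ^ 3 = (c.φ ((j : ℤ) + (d : ℤ)) - c.φ (j : ℤ)) *
        (Real.cos (π * d / n) / Real.sin (π * d / n) ^ 3) := by
      rw [h4]
      ring
    rw [h5]
    ring
  have h6 := Finset.sum_le_sum fun j hj => Finset.sum_le_sum (h1 j hj)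
  simp only [Finset.sum_add_distrib, Finset.sum_sub_distrib, Finset.sum_neg_distrib] at h6
  have e1 : ∑ _j ∈ range n, ∑ d ∈ Ico 1 n,
      Real.cos (π * d / n) ^ 2 / Real.sin (π * d / n) ^ 2 = (n : ℝ) * (n - 1) * (n - 2) / 3 := by
    rw [Finset.sum_const, Finset.card_range, nsmul_eq_mul, hCOTSUM n hn]
    ring
  have e2 : ∑ j ∈ range n, ∑ d ∈ Ico 1 n, c.φ ((j : ℤ) + (d : ℤ)) *
      (Real.cos (π * d / n) / Real.sin (π * d / n) ^ 3) =
      ∑ j ∈ range n, ∑ d ∈ Ico 1 n, c.φ (j : ℤ) *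
      (Real.cos (π * d / n) / Real.sin (π * d / n) ^ 3) := by
    rw [Finset.sum_comm, Finset.sum_comm (s := range n)]
    refine Finset.sum_congr rfl fun d _ => ?_
    rw [← Finset.sum_mul, ← Finset.sum_mul, sum_shift (f := c.φ) (c.φ_add hn0) (d : ℤ)]
  have e3 : (∑ j ∈ range n, ∑ d ∈ Ico 1 n, cc c.z (j : ℤ) ((j : ℤ) + (d : ℤ)) ^ 2).re =
      ∑ j ∈ range n, ∑ d ∈ Ico 1 n, (cc c.z (j : ℤ) ((j : ℤ) + (d : ℤ)) ^ 2).re := by
    rw [Complex.re_sum]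
    exact Finset.sum_congr rfl fun j _ => Complex.re_sum _ _
  rw [e1, e2] at h6
  rw [e3]
  simp only [← Finset.mul_sum] at h6
  linarith

end M_REGU

open M_REGU in
theorem m_REGU : Stmt_CONE → Stmt_FBH → Stmt_TAN → Stmt_SSUM → Stmt_CALO → Stmt_COTRE →
    Stmt_ETA → Stmt_D2LB → Stmt_COTSUM → Stmt_REGU := by
  intro hCONE hFBH hTAN hSSUM hCALO hCOTRE hETA hD2LB hCOTSUM
  obtain ⟨ε₁, hε₁, n₁, hT⟩ := hTAN
  obtain ⟨K₁, ε₂, hε₂, n₂, hS⟩ := hSSUM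
  obtain ⟨K₂, ε₃, hε₃, n₃, hE⟩ := hETA
  set A : ℝ := 32 * |K₁| + |K₂| with hA
  have hA0 : 0 ≤ A := by positivity
  have hA1 : |K₁| ≤ A / 32 := by
    have := abs_nonneg K₂
    rw [hA]
    linarith
  refine ⟨100 * A, min ε₁ (min ε₂ ε₃), lt_min hε₁ (lt_min hε₂ hε₃),
    max (max n₁ n₂) (max n₃ (max 2 (⌊100 * A⌋₊ + 1))), fun n hn c hc => ?_⟩
  have hn₁ : n₁ ≤ n := le_trans (le_trans (le_max_left _ _) (le_max_left _ _)) hn
  have hn₂ : n₂ ≤ n := le_trans (le_trans (le_max_right _ _) (le_max_left _ _)) hn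
  have hn₃ : n₃ ≤ n := le_trans (le_trans (le_max_left _ _) (le_max_right _ _)) hn
  have hn4 : 2 ≤ n := le_trans (le_trans (le_trans (le_max_left _ _) (le_max_right _ _))
    (le_max_right _ _)) hn
  have hn5 : ⌊100 * A⌋₊ + 1 ≤ n := le_trans (le_trans (le_trans (le_max_right _ _)
    (le_max_right _ _)) (le_max_right _ _)) hn
  have hnA : 100 * A < n := lt_of_lt_of_le (Nat.lt_floor_add_one _) (by exact_mod_cast hn5)
  have hn1 : 1 ≤ n := by omega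
  have hn0 : 0 < n := by omega
  have hnr : (0 : ℝ) < n := by exact_mod_cast hn0
  have hc₁ : Nice n ε₁ c := nice_mono hc (min_le_left _ _)
  have hc₂ : Nice n ε₂ c := nice_mono hc ((min_le_right _ _).trans (min_le_left _ _))
  have hc₃ : Nice n ε₃ c := nice_mono hc ((min_le_right _ _).trans (min_le_right _ _))
  have hv : ∀ v : ℤ, (HH n c.z v).im ^ 2 ≤
      bb c v ^ 2 * ((n : ℝ) ^ 2 / 2 + 2 * (HH n c.z v).re ^ 2) := fun v =>
    vert hCONE hFBH hn1 c hc.opt v (fun l hl => hT n hn₁ c hc₁ v l hl)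
  obtain ⟨hS1, hS2, hS3⟩ := hS n hn₂ c hc₂
  have hE1 := hE n hn₃ c hc₃
  have hCp := pairs hCOTRE hCOTSUM hn1 c
  have hCal := congrArg Complex.re (hCALO n c.z hn1 hc.opt.pts)
  set D := ∑ j ∈ range n, ∑ d ∈ Ico 1 n, D2 (π * d / n) (c.X ((j : ℤ) + (d : ℤ)) (j : ℤ)) with hD
  set P := ∑ j ∈ range n, (HH n c.z (j : ℤ)).re ^ 2 with hP
  set Q := ∑ j ∈ range n, (HH n c.z (j : ℤ)).im ^ 2 with hQ
  set Sc := ∑ j ∈ range n, ∑ d ∈ Ico 1 n, cc c.z (j : ℤ) ((j : ℤ) + (d : ℤ)) ^ 2 with hSc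
  have hP0 : 0 ≤ P := Finset.sum_nonneg fun j _ => sq_nonneg _
  have hQ0 : 0 ≤ Q := Finset.sum_nonneg fun j _ => sq_nonneg _
  have hDt : ∀ j ∈ range n, ∀ d ∈ Ico 1 n,
      0 ≤ D2 (π * d / n) (c.X ((j : ℤ) + (d : ℤ)) (j : ℤ)) := by
    intro j _ d hd
    obtain ⟨h1, h2⟩ := a_mem hd
    obtain ⟨h3, h4⟩ := X_mem c (j : ℤ) hd
    exact hD2LB.1 _ _ h1 h2 h3 h4
  have hD0 : 0 ≤ D := Finset.sum_nonneg fun j hj => Finset.sum_nonneg fun d hd => hDt j hj d hd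
  -- the sum of the imaginary parts
  have hb := sum_bb c hS1 hS2
  have hQle : Q ≤ A / 4 * n + 2 / 25 * P := by
    have h1 : Q ≤ ∑ j ∈ range n, ((n : ℝ) ^ 2 / 2 * bb c (j : ℤ) ^ 2 +
        2 / 25 * (HH n c.z (j : ℤ)).re ^ 2) := by
      refine Finset.sum_le_sum fun j _ => (hv j).trans ?_
      have h2 := bb_le c hS3 (j : ℤ)
      nlinarith [sq_nonneg (HH n c.z (j : ℤ)).re, mul_nonneg (sub_nonneg.2 h2)
        (sq_nonneg (HH n c.z (j : ℤ)).re)]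
    rw [Finset.sum_add_distrib, ← Finset.mul_sum, ← Finset.mul_sum] at h1
    have h3 : (n : ℝ) ^ 2 / 2 * ∑ j ∈ range n, bb c (j : ℤ) ^ 2 ≤ A / 4 * n := by
      have h4 : (n : ℝ) ^ 2 / 2 * ∑ j ∈ range n, bb c (j : ℤ) ^ 2 ≤
          (n : ℝ) ^ 2 / 2 * (16 * (K₁ / n)) := mul_le_mul_of_nonneg_left hb (by positivity)
      have h5 : (n : ℝ) ^ 2 / 2 * (16 * (K₁ / n)) = 8 * K₁ * n := by
        field_simp
        ring
      rw [h5] at h4
      refine h4.trans (mul_le_mul_of_nonneg_right ?_ hnr.le)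
      have := le_abs_self K₁
      linarith
    linarith
  -- the Calogero identity
  have hre1 : (4 * ∑ j ∈ range n, HH n c.z (j : ℤ) ^ 2 : ℂ).re = 4 * (P - Q) := by
    have h1 : (4 * ∑ j ∈ range n, HH n c.z (j : ℤ) ^ 2 : ℂ) =
        ((4 : ℝ) : ℂ) * ∑ j ∈ range n, HH n c.z (j : ℤ) ^ 2 := by push_cast; ring
    rw [h1, Complex.re_ofReal_mul, Complex.re_sum, hP, hQ, ← Finset.sum_sub_distrib]
    congr 1
    refine Finset.sum_congr rfl fun j _ => ?_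
    rw [sq, Complex.mul_re]
    ring
  have hre2 : (Sc + (n : ℂ) * (n - 1) * (n - 2) / 3).re =
      Sc.re + (n : ℝ) * (n - 1) * (n - 2) / 3 := by
    have h1 : ((n : ℂ) * (n - 1) * (n - 2) / 3 : ℂ) =
        (((n : ℝ) * (n - 1) * (n - 2) / 3 : ℝ) : ℂ) := by push_cast; ring
    rw [Complex.add_re, h1, Complex.ofReal_re]
  rw [hre1, hre2] at hCal
  have hK2 : K₂ * n ≤ |K₂| * n := mul_le_mul_of_nonneg_right (le_abs_self K₂) hnr.le
  have hK2A : |K₂| * n + 4 * (A / 4 * n) ≤ 2 * A * n := by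
    have h1 : |K₂| ≤ A := by
      have := abs_nonneg K₁
      rw [hA]
      linarith
    have := mul_le_mul_of_nonneg_right h1 hnr.le
    linarith
  have hmain : 1 / 2 * D + 4 * P ≤ 2 * A * n + 8 / 25 * P := by linarith
  have hAn : 0 ≤ A * n := mul_nonneg hA0 hnr.le
  have hPle : P ≤ A * n := by linarith
  have hDle : D ≤ 4 * (A * n) := by linarith
  have hQle' : Q ≤ A * n := by
    have : A / 4 * n = A * n / 4 := by ring
    linarith
  refine ⟨?_, ?_⟩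
  · -- the gaps
    have hd1 : (1 : ℕ) ∈ Ico 1 n := Finset.mem_Ico.2 ⟨le_rfl, by omega⟩
    have hpi := Real.pi_pos
    have hpi2 : π ^ 2 ≤ 10 := by nlinarith [Real.pi_lt_d2, Real.pi_pos]
    have h1 : ∀ j ∈ range n, min (c.y (j : ℤ) ^ 2) |c.y (j : ℤ)| ≤
        12 * (π / n) ^ 2 / 5 * D2 (π * (1 : ℕ) / n) (c.X ((j : ℤ) + ((1 : ℕ) : ℤ)) (j : ℤ)) := by
      intro j _
      obtain ⟨ha1, ha2⟩ := a_mem hd1
      obtain ⟨hX1, hX2⟩ := X_mem c (j : ℤ) hd1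
      have h2 : c.X ((j : ℤ) + ((1 : ℕ) : ℤ)) (j : ℤ) = π * (1 : ℕ) / n * (1 + c.y (j : ℤ)) := by
        have h3 := c.g_eq hn0 (j : ℤ)
        have h4 : c.X ((j : ℤ) + ((1 : ℕ) : ℤ)) (j : ℤ) = c.g (j : ℤ) / 2 := by
          unfold Cfg.X Cfg.g
          push_cast
          rfl
        rw [h4, h3]
        push_cast
        ring
      have h5 := hD2LB.2.2 (π * (1 : ℕ) / n) (c.y (j : ℤ)) ha1 ha2 (c.y_gt hn0 (j : ℤ))
        (by rw [← h2]; exact hX2)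
      rw [← h2] at h5
      have h6 : 12 * (π / n) ^ 2 / 5 * (5 / (12 * (π * (1 : ℕ) / n) ^ 2) *
          min (c.y (j : ℤ) ^ 2) |c.y (j : ℤ)|) = min (c.y (j : ℤ) ^ 2) |c.y (j : ℤ)| := by
        have : (π * (1 : ℕ) / n : ℝ) = π / n := by push_cast; ring
        rw [this]
        field_simp
      rw [← h6]
      exact mul_le_mul_of_nonneg_left h5 (by positivity)
    have h7 : ∑ j ∈ range n, D2 (π * (1 : ℕ) / n) (c.X ((j : ℤ) + ((1 : ℕ) : ℤ)) (j : ℤ)) ≤ D := by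
      refine Finset.sum_le_sum fun j hj => ?_
      exact Finset.single_le_sum
        (f := fun d : ℕ => D2 (π * d / n) (c.X ((j : ℤ) + (d : ℤ)) (j : ℤ)))
        (fun d hd => hDt j hj d hd) hd1
    have h8 : ∑ j ∈ range n, min (c.y (j : ℤ) ^ 2) |c.y (j : ℤ)| ≤ 100 * A / n := by
      refine (Finset.sum_le_sum h1).trans ?_
      rw [← Finset.mul_sum]
      refine (mul_le_mul_of_nonneg_left (h7.trans hDle) (by positivity)).trans ?_
      rw [le_div_iff₀ hnr]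
      have h9 : 12 * (π / n) ^ 2 / 5 * (4 * (A * n)) * n = 48 / 5 * π ^ 2 * A := by
        field_simp
        ring
      rw [h9]
      have := mul_le_mul_of_nonneg_right hpi2 hA0
      linarith
    have h10 : ∀ j ∈ range n, c.y (j : ℤ) ^ 2 = min (c.y (j : ℤ) ^ 2) |c.y (j : ℤ)| := by
      intro j hj
      have h11 : min (c.y (j : ℤ) ^ 2) |c.y (j : ℤ)| < 1 := by
        have h12 := Finset.single_le_sum
          (f := fun j : ℕ => min (c.y (j : ℤ) ^ 2) |c.y (j : ℤ)|)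
          (fun i _ => le_min (sq_nonneg _) (abs_nonneg _)) hj
        refine lt_of_le_of_lt (h12.trans h8) ?_
        rw [div_lt_one hnr]
        exact hnA
      symm
      apply min_eq_left
      have h0 := abs_nonneg (c.y (j : ℤ))
      rw [← sq_abs] at h11 ⊢
      rcases min_lt_iff.1 h11 with h | h
      · have h13 : |c.y (j : ℤ)| ≤ 1 := by nlinarith
        nlinarith
      · nlinarith
    rw [Finset.sum_congr rfl h10]
    exact h8
  · have h1 : ∀ j ∈ range n, ‖HH n c.z (j : ℤ)‖ ^ 2 =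
        (HH n c.z (j : ℤ)).re ^ 2 + (HH n c.z (j : ℤ)).im ^ 2 := by
      intro j _
      rw [← Complex.normSq_eq_norm_sq, Complex.normSq_apply]
      ring
    rw [Finset.sum_congr rfl h1, Finset.sum_add_distrib]
    change P + Q ≤ 100 * A * n
    linarith

end Pool.Agent.EHP
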