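import Pool.Agent.EHP.Stmts5

/-!
# Convexity of `ρ'` and its sign at `π/3`
-/

open Finset
open scoped Real ComplexConjugate

namespace Pool.Agent.EHP

namespace RhocAux

/-- Derivative of `ww1`. -/
noncomputable def w2 (t : ℝ) : ℝ :=
  1 / 2 * Wk3 (π / 3 + t) - 24 * e4 * ((t - π / 6) / (π / 6)) / (π / 6) ^ 3

/-- Derivative of `w2`. -/
noncomputable def w3 (t : ℝ) : ℝ := 1 / 2 * Wk4 (π / 3 + t) - 24 * e4 / (π / 6) ^ 4

/-- Derivative of `rh1`. -/
noncomputable def r2 (t : ℝ) : ℝ := -Wk2 t - Wk2 (π / 3 + t) - (ww1 t + t * w2 t)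

/-- Second derivative of `rh1`. -/
noncomputable def r3 (t : ℝ) : ℝ := -Wk3 t - Wk3 (π / 3 + t) - (w2 t + (w2 t + t * w3 t))

theorem hww1 (hW : Stmt_WDER) {t : ℝ} (h1 : 0 < t) (h2 : t < 2 * π / 3) :
    HasDerivAt ww1 (w2 t) t := by
  have hπ := Real.pi_pos
  have h := (hW.1 (π / 3 + t) (by linarith) (by linarith)).2.2.1
  have h3 := (h.comp_const_add (π / 3) t).const_mul (1 / 2 : ℝ)
  have h4 : HasDerivAt (fun a : ℝ => (a - π / 6) / (π / 6)) (1 / (π / 6)) t :=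
    ((hasDerivAt_id' t).sub_const (π / 6)).div_const (π / 6)
  have h5 := (((h4.pow 2).const_mul (12 * e4)).const_add (2 * e2)).div_const ((π / 6) ^ 2)
  have h6 := h3.sub h5
  have e : 1 / 2 * Wk3 (π / 3 + t) - 12 * e4 * (((2 : ℕ) : ℝ) * ((t - π / 6) / (π / 6)) ^ (2 - 1) *
      (1 / (π / 6))) / (π / 6) ^ 2 = w2 t := by
    unfold w2
    push_cast
    field_simp
    ring
  rw [← e]
  exact h6

theorem hw2 (hW : Stmt_WDER) {t : ℝ} (h1 : 0 < t) (h2 : t < 2 * π / 3) :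
    HasDerivAt w2 (w3 t) t := by
  have hπ := Real.pi_pos
  have h := (hW.1 (π / 3 + t) (by linarith) (by linarith)).2.2.2.1
  have h3 := (h.comp_const_add (π / 3) t).const_mul (1 / 2 : ℝ)
  have h4 : HasDerivAt (fun a : ℝ => (a - π / 6) / (π / 6)) (1 / (π / 6)) t :=
    ((hasDerivAt_id' t).sub_const (π / 6)).div_const (π / 6)
  have h5 := (h4.const_mul (24 * e4)).div_const ((π / 6) ^ 3)
  have h6 := h3.sub h5
  have e : 1 / 2 * Wk4 (π / 3 + t) - 24 * e4 * (1 / (π / 6)) / (π / 6) ^ 3 = w3 t := by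
    unfold w3
    field_simp
  rw [← e]
  exact h6

theorem hrh1 (hW : Stmt_WDER) {t : ℝ} (h1 : 0 < t) (h2 : t < 2 * π / 3) :
    HasDerivAt rh1 (r2 t) t := by
  have hπ := Real.pi_pos
  have a1 := (hW.1 t h1 (by linarith)).2.1
  have a2 := (hW.1 (π / 3 + t) (by linarith) (by linarith)).2.1.comp_const_add (π / 3) t
  have a3 := (hasDerivAt_id' t).mul (hww1 hW h1 h2)
  have h := (a1.neg.sub a2).sub a3
  have e : -Wk2 t - Wk2 (π / 3 + t) - (1 * ww1 t + t * w2 t) = r2 t := by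
    unfold r2; ring
  rw [← e]
  exact h

theorem hr2 (hW : Stmt_WDER) {t : ℝ} (h1 : 0 < t) (h2 : t < 2 * π / 3) :
    HasDerivAt r2 (r3 t) t := by
  have hπ := Real.pi_pos
  have a1 := (hW.1 t h1 (by linarith)).2.2.1
  have a2 := (hW.1 (π / 3 + t) (by linarith) (by linarith)).2.2.1.comp_const_add (π / 3) t
  have a3 := (hww1 hW h1 h2).add ((hasDerivAt_id' t).mul (hw2 hW h1 h2))
  have h := (a1.neg.sub a2).sub a3
  have e : -Wk3 t - Wk3 (π / 3 + t) - (w2 t + (1 * w2 t + t * w3 t)) = r3 t := by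
    unfold r3; ring
  rw [← e]
  exact h

/-- `-Wk3 ≥ 3/2` on `(0, π/3)`. -/
theorem b1 {t : ℝ} (h1 : 0 < t) (h2 : t < π / 3) : 3 / 2 ≤ -Wk3 t := by
  have hπ := Real.pi_pos
  have hs : 0 < Real.sin t := Real.sin_pos_of_pos_of_lt_pi h1 (by linarith)
  have hs1 := Real.sin_le_one t
  have hc : 0 < Real.cos t := Real.cos_pos_of_mem_Ioo ⟨by linarith, by linarith⟩
  have hsc := Real.sin_sq_add_cos_sq t
  have hs3 : 0 ≤ Real.sin (3 * t) := Real.sin_nonneg_of_nonneg_of_le_pi (by linarith) (by linarith)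
  have hlog : 1 - (2 * Real.sin t)⁻¹ ≤ Real.log (2 * Real.sin t) :=
    Real.one_sub_inv_le_log_of_pos (by positivity)
  have hl : Real.sin t - 1 / 2 ≤ Real.sin t * Real.log (2 * Real.sin t) := by
    have := mul_le_mul_of_nonneg_left hlog hs.le
    have e : Real.sin t * (1 - (2 * Real.sin t)⁻¹) = Real.sin t - 1 / 2 := by
      field_simp
    linarith
  have hq : 2 - 2 * Real.sin t ≤ 2 * Real.cos t ^ 2 / Real.sin t ^ 3 := by
    rw [le_div_iff₀ (by positivity)]
    have e : Real.cos t ^ 2 = 1 - Real.sin t ^ 2 := by linarith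
    rw [e]
    have h5 : Real.sin t ^ 3 ≤ 1 := pow_le_one₀ hs.le hs1
    have h6 : 0 ≤ (1 - Real.sin t) * (1 + Real.sin t - Real.sin t ^ 3) :=
      mul_nonneg (by linarith) (by linarith)
    nlinarith
  have hp : 0 ≤ (π / 2 - t) * Real.cos t := mul_nonneg (by linarith) hc.le
  unfold Wk3
  linarith

theorem cossin {τ : ℝ} (h1 : π / 3 < τ) (h2 : τ < 2 * π / 3) :
    0 < Real.sin τ ∧ 3 / 4 ≤ Real.sin τ ^ 2 ∧ -(1 / 2) ≤ Real.cos τ ∧ Real.cos τ ≤ 1 / 2 := by
  have hπ := Real.pi_pos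
  have hs : 0 < Real.sin τ := Real.sin_pos_of_pos_of_lt_pi (by linarith) (by linarith)
  have hc1 : Real.cos τ ≤ 1 / 2 := by
    rw [← Real.cos_pi_div_three]
    exact Real.cos_le_cos_of_nonneg_of_le_pi (by linarith) (by linarith) h1.le
  have hc2 : -(1 / 2) ≤ Real.cos τ := by
    have h3 : Real.cos (π - τ) ≤ 1 / 2 := by
      rw [← Real.cos_pi_div_three]
      exact Real.cos_le_cos_of_nonneg_of_le_pi (by linarith) (by linarith) (by linarith)
    rw [Real.cos_pi_sub] at h3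
    linarith
  have hsc := Real.sin_sq_add_cos_sq τ
  refine ⟨hs, ?_, hc2, hc1⟩
  nlinarith

/-- `-Wk3 ≥ 1.58` on `(π/3, 2π/3)`. -/
theorem b2 {τ : ℝ} (h1 : π / 3 < τ) (h2 : τ < 2 * π / 3) : 1.58 ≤ -Wk3 τ := by
  have hπ := Real.pi_pos
  obtain ⟨hs, hs2, hc1, hc2⟩ := cossin h1 h2
  have hs1 := Real.sin_le_one τ
  have hsc := Real.sin_sq_add_cos_sq τ
  have hshalf : 1 / 2 ≤ Real.sin τ := by nlinarith
  have hlog2 := Real.log_two_gt_d9
  have hlog : 1 - (Real.sin τ)⁻¹ ≤ Real.log (Real.sin τ) := Real.one_sub_inv_le_log_of_pos hs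
  have hl : Real.sin τ * 0.693 + Real.sin τ - 1 ≤ Real.sin τ * Real.log (2 * Real.sin τ) := by
    rw [Real.log_mul (by norm_num) hs.ne']
    have h3 := mul_le_mul_of_nonneg_left hlog hs.le
    have e : Real.sin τ * (1 - (Real.sin τ)⁻¹) = Real.sin τ - 1 := by
      field_simp
    nlinarith
  have hq : 2 * (1 - Real.sin τ ^ 2) ≤ 2 * Real.cos τ ^ 2 / Real.sin τ ^ 3 := by
    rw [le_div_iff₀ (by positivity)]
    have e : Real.cos τ ^ 2 = 1 - Real.sin τ ^ 2 := by linarith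
    rw [e]
    have h5 : Real.sin τ ^ 3 ≤ 1 := pow_le_one₀ hs.le hs1
    have h6 : 0 ≤ 1 - Real.sin τ ^ 2 := by nlinarith
    nlinarith
  have hp : 0 ≤ (π / 2 - τ) * Real.cos τ := by
    rcases le_total τ (π / 2) with h | h
    · exact mul_nonneg (by linarith) (Real.cos_nonneg_of_mem_Icc ⟨by linarith, h⟩)
    · exact mul_nonneg_of_nonpos_of_nonpos (by linarith)
        (Real.cos_nonpos_of_pi_div_two_le_of_le h (by linarith))
  have hs3 := Real.neg_one_le_sin (3 * τ)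
  have hfac : 0 ≤ (1 - Real.sin τ) * (2 * Real.sin τ - 0.693) :=
    mul_nonneg (by linarith) (by linarith)
  unfold Wk3
  nlinarith

/-- `-Wk4 ≥ 0` on `[π/2, 2π/3)`. -/
theorem b3 {τ : ℝ} (h1 : π / 2 ≤ τ) (h2 : τ < 2 * π / 3) : 0 ≤ -Wk4 τ := by
  have hπ := Real.pi_pos
  obtain ⟨hs, hs2, hc1, hc2⟩ := cossin (by linarith) h2
  have hs1 := Real.sin_le_one τ
  have hsc := Real.sin_sq_add_cos_sq τ
  have hc : Real.cos τ ≤ 0 := Real.cos_nonpos_of_pi_div_two_le_of_le h1 (by linarith)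
  obtain ⟨c, hcdef⟩ : ∃ c, c = -Real.cos τ := ⟨_, rfl⟩
  have hcc : Real.cos τ = -c := by rw [hcdef]; ring
  have hc0 : 0 ≤ c := by linarith
  have hch : c ≤ 1 / 2 := by linarith
  have hlog : Real.log (2 * Real.sin τ) ≤ 0.7 := by
    have h3 : Real.log (2 * Real.sin τ) ≤ Real.log 2 := Real.log_le_log (by positivity) (by linarith)
    have := Real.log_two_lt_d9
    linarith
  have h4 : 4 * c ≤ 4 * c / Real.sin τ ^ 2 := by
    rw [le_div_iff₀ (by positivity)]
    have : Real.sin τ ^ 2 ≤ 1 := by nlinarith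
    nlinarith
  have h5 : 0 ≤ 6 * c ^ 3 / Real.sin τ ^ 4 := by positivity
  have h6 : 0 ≤ (τ - π / 2) * Real.sin τ := mul_nonneg (by linarith) hs.le
  have h7 : Real.cos (3 * τ) = 3 * c - 4 * c ^ 3 := by
    rw [Real.cos_three_mul, hcc]; ring
  have h8 : 0 ≤ 3 * c - 4 * c ^ 3 := by
    have : 4 * c ^ 3 = c * (4 * c ^ 2) := by ring
    have h9 : 4 * c ^ 2 ≤ 1 := by nlinarith
    nlinarith
  have h10 : c * Real.log (2 * Real.sin τ) ≤ c * 0.7 := mul_le_mul_of_nonneg_left hlog hc0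
  have e : -Wk4 τ = -(c * Real.log (2 * Real.sin τ)) - c + 4 * c / Real.sin τ ^ 2 +
      6 * c ^ 3 / Real.sin τ ^ 4 + (τ - π / 2) * Real.sin τ +
      162 * (1 / 500) * (3 * c - 4 * c ^ 3) := by
    unfold Wk4
    rw [h7, hcc]
    ring
  rw [e]
  linarith

/-- `-Wk4 ≥ -4.4` on `(π/3, π/2]`. -/
theorem b4 {τ : ℝ} (h1 : π / 3 < τ) (h2 : τ ≤ π / 2) : -4.4 ≤ -Wk4 τ := by
  have hπ := Real.pi_pos
  have hπ2 := Real.pi_lt_d2
  obtain ⟨hs, hs2, hc1, hc2⟩ := cossin h1 (by linarith)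
  have hs1 := Real.sin_le_one τ
  have hsc := Real.sin_sq_add_cos_sq τ
  have hc : 0 ≤ Real.cos τ := Real.cos_nonneg_of_mem_Icc ⟨by linarith, h2⟩
  obtain ⟨c, hcdef⟩ : ∃ c, c = Real.cos τ := ⟨_, rfl⟩
  rw [← hcdef] at hc hc2 hsc
  have hshalf : 1 / 2 ≤ Real.sin τ := by nlinarith
  have hlog : 0 ≤ Real.log (2 * Real.sin τ) := Real.log_nonneg (by linarith)
  have h4 : 4 * c / Real.sin τ ^ 2 ≤ 16 / 3 * c := by
    rw [div_le_iff₀ (by positivity)]
    nlinarith
  have h5 : 6 * c ^ 3 / Real.sin τ ^ 4 ≤ 8 / 3 * c := by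
    rw [div_le_iff₀ (by positivity)]
    have h6 : 9 / 16 ≤ Real.sin τ ^ 4 := by
      have : Real.sin τ ^ 4 = (Real.sin τ ^ 2) ^ 2 := by ring
      rw [this]; nlinarith
    have h7 : 8 / 3 * c * (9 / 16) ≤ 8 / 3 * c * Real.sin τ ^ 4 :=
      mul_le_mul_of_nonneg_left h6 (by positivity)
    have h8 : c ^ 2 ≤ 1 / 4 := by nlinarith
    have h9 : 6 * c ^ 3 = 6 * c * c ^ 2 := by ring
    nlinarith
  have h6 : (π / 2 - τ) * Real.sin τ ≤ 0.525 := by
    have h7 : π / 2 - τ ≤ 0.525 := by linarith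
    have h8 : 0 ≤ π / 2 - τ := by linarith
    nlinarith
  have h7 := Real.neg_one_le_cos (3 * τ)
  have h10 : 0 ≤ c * Real.log (2 * Real.sin τ) := mul_nonneg hc hlog
  have e : -Wk4 τ = c * Real.log (2 * Real.sin τ) + c - 4 * c / Real.sin τ ^ 2 -
      6 * c ^ 3 / Real.sin τ ^ 4 - (π / 2 - τ) * Real.sin τ +
      162 * (1 / 500) * Real.cos (3 * τ) := by
    unfold Wk4
    rw [← hcdef]
    ring
  rw [e]
  linarith

theorem r3_pos (hE : Stmt_E4) {t : ℝ} (h1 : 0 < t) (h2 : t < π / 3) : 0 ≤ r3 t := by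
  have hπ := Real.pi_pos
  have hπ3 := Real.pi_gt_d2
  have hπ4 := Real.pi_lt_d2
  obtain ⟨hE1, hE2⟩ := hE
  have c1 := b1 h1 h2
  have c2 := b2 (τ := π / 3 + t) (by linarith) (by linarith)
  obtain ⟨v, hv⟩ : ∃ v, v = (t - π / 6) / (π / 6) := ⟨_, rfl⟩
  have htv : t = π / 6 * (1 + v) := by rw [hv]; field_simp; ring
  obtain ⟨q, hq⟩ : ∃ q, q = -e4 / (π / 6) ^ 3 := ⟨_, rfl⟩
  have hq0 : 0 ≤ q := by
    rw [hq]; apply div_nonneg (by linarith) (by positivity)
  have hq1 : 24 * q ≤ 0.8 := by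
    rw [hq, mul_div_assoc', div_le_iff₀ (by positivity)]
    have h3 : (0.52 : ℝ) ^ 3 ≤ (π / 6) ^ 3 := pow_le_pow_left₀ (by norm_num) (by linarith) 3
    norm_num at h3 ⊢
    linarith
  have e : r3 t = -Wk3 t + 2 * (-Wk3 (π / 3 + t)) + t / 2 * (-Wk4 (π / 3 + t)) -
      24 * q * (1 + 3 * v) := by
    have e1 : w2 t = 1 / 2 * Wk3 (π / 3 + t) + 24 * q * v := by
      unfold w2; rw [← hv, hq]; ring
    have e2 : t * w3 t = t / 2 * Wk4 (π / 3 + t) + 24 * q * (1 + v) := by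
      unfold w3
      have : t * (24 * e4 / (π / 6) ^ 4) = -(24 * q * (1 + v)) := by
        rw [htv, hq]; field_simp
      rw [mul_sub, this]
      ring
    unfold r3
    rw [e1]
    have e3 : 1 / 2 * Wk3 (π / 3 + t) + 24 * q * v + t * w3 t =
        1 / 2 * Wk3 (π / 3 + t) + 24 * q * v + (t / 2 * Wk4 (π / 3 + t) + 24 * q * (1 + v)) := by
      rw [e2]
    rw [e3]
    ring
  rw [e]
  rcases le_total t (π / 6) with h | h
  · have c4 := b4 (τ := π / 3 + t) (by linarith) (by linarith)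
    have hv0 : v ≤ 0 := by
      rw [hv]; apply div_nonpos_of_nonpos_of_nonneg (by linarith) (by positivity)
    have h5 : t / 2 * (-4.4) ≤ t / 2 * (-Wk4 (π / 3 + t)) :=
      mul_le_mul_of_nonneg_left c4 (by linarith)
    have h6 : 24 * q * (1 + 3 * v) ≤ 0.8 := by
      have : 24 * q * (1 + 3 * v) ≤ 24 * q * 1 :=
        mul_le_mul_of_nonneg_left (by linarith) (by linarith)
      linarith
    linarith
  · have c3 := b3 (τ := π / 3 + t) (by linarith) (by linarith)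
    have hv1 : v ≤ 1 := by
      rw [hv, div_le_one (by positivity)]; linarith
    have h5 : 0 ≤ t / 2 * (-Wk4 (π / 3 + t)) := mul_nonneg (by linarith) c3
    have h6 : 24 * q * (1 + 3 * v) ≤ 3.2 := by
      have : 24 * q * (1 + 3 * v) ≤ 24 * q * 4 :=
        mul_le_mul_of_nonneg_left (by linarith) (by linarith)
      linarith
    linarith

end RhocAux

theorem m_RHOC : Stmt_WDER → Stmt_E4 → Stmt_RHOC := by
  intro hW hE
  have hπ := Real.pi_pos
  constructor
  · have hint : interior (Set.Ioc (0 : ℝ) (π / 3)) = Set.Ioo 0 (π / 3) := interior_Ioc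
    refine convexOn_of_hasDerivWithinAt2_nonneg (convex_Ioc _ _) (f' := RhocAux.r2)
      (f'' := RhocAux.r3) ?_ ?_ ?_ ?_
    · intro t ht
      exact (RhocAux.hrh1 hW ht.1 (by linarith [ht.2])).continuousAt.continuousWithinAt
    · intro t ht
      rw [hint] at ht
      exact (RhocAux.hrh1 hW ht.1 (by linarith [ht.2])).hasDerivWithinAt
    · intro t ht
      rw [hint] at ht
      exact (RhocAux.hr2 hW ht.1 (by linarith [ht.2])).hasDerivWithinAt
    · intro t ht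
      rw [hint] at ht
      exact RhocAux.r3_pos hE ht.1 ht.2
  · obtain ⟨hE1, hE2⟩ := hE
    obtain ⟨r, hr⟩ : ∃ r, r = Real.sqrt 3 := ⟨_, rfl⟩
    have hr0 : 0 < r := by rw [hr]; positivity
    have hrr : r * r = 3 := by rw [hr]; exact Real.mul_self_sqrt (by norm_num)
    have hr1 : 1.732 ≤ r := by nlinarith
    obtain ⟨l, hl⟩ : ∃ l, l = Real.log 3 := ⟨_, rfl⟩
    have hlogs : Real.log (2 * (r / 2)) = l / 2 := by
      have : 2 * (r / 2) = r := by ring
      rw [this, hr, Real.log_sqrt (by norm_num), hl]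
    have hl1 : 1.095 ≤ l := by
      have h1 : Real.log 9 = 2 * Real.log 3 := by
        rw [show (9 : ℝ) = 3 ^ 2 by norm_num, Real.log_pow]; norm_num
      have h2 : Real.log 9 = 3 * Real.log 2 + Real.log (9 / 8) := by
        rw [show (9 : ℝ) = 2 ^ 3 * (9 / 8) by norm_num, Real.log_mul (by norm_num) (by norm_num),
          Real.log_pow]
        norm_num
      have h3 : 1 - (9 / 8 : ℝ)⁻¹ ≤ Real.log (9 / 8) := Real.one_sub_inv_le_log_of_pos (by norm_num)
      have h4 := Real.log_two_gt_d9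
      rw [hl]
      norm_num at h3
      linarith
    have s1 : Real.sin (π / 3) = r / 2 := by rw [Real.sin_pi_div_three, hr]
    have s2 : Real.sin (π / 3 + π / 3) = r / 2 := by
      have : π / 3 + π / 3 = π - π / 3 := by ring
      rw [this, Real.sin_pi_sub, s1]
    have k1 : Real.cos (π / 3) = 1 / 2 := Real.cos_pi_div_three
    have k2 : Real.cos (π / 3 + π / 3) = -(1 / 2) := by
      have : π / 3 + π / 3 = π - π / 3 := by ring
      rw [this, Real.cos_pi_sub, k1]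
    have t1 : Real.sin (3 * (π / 3)) = 0 := by
      have : 3 * (π / 3) = π := by ring
      rw [this, Real.sin_pi]
    have t2 : Real.sin (3 * (π / 3 + π / 3)) = 0 := by
      have : 3 * (π / 3 + π / 3) = 2 * π := by ring
      rw [this, Real.sin_two_pi]
    have t3 : Real.cos (3 * (π / 3 + π / 3)) = 1 := by
      have : 3 * (π / 3 + π / 3) = 2 * π := by ring
      rw [this, Real.cos_two_pi]
    have v1 : Wk1 (π / 3) = r / 4 * l - r / 6 + π / 12 := by
      unfold Wk1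
      rw [s1, k1, t1, hlogs]
      have : (1 / 2 : ℝ) ^ 2 / (r / 2) = r / 6 := by
        rw [div_eq_div_iff (by positivity) (by norm_num)]
        linarith
      rw [this]; ring
    have v2 : Wk1 (π / 3 + π / 3) = r / 4 * l - r / 6 + π / 12 := by
      unfold Wk1
      rw [s2, k2, t2, hlogs]
      have : (-(1 / 2) : ℝ) ^ 2 / (r / 2) = r / 6 := by
        rw [div_eq_div_iff (by positivity) (by norm_num)]
        linarith
      rw [this]; ring
    have v3 : Wk2 (π / 3 + π / 3) = -l / 4 - 1 / 2 - 2 / 3 + π * r / 12 + 18 * (1 / 500) := by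
      unfold Wk2
      rw [s2, k2, t3, hlogs]
      have : -(1 / 2 : ℝ) / (r / 2) ^ 2 = -(2 / 3) := by
        rw [div_pow, show r ^ 2 = 3 by rw [sq]; exact hrr]
        norm_num
      rw [this]; ring
    have v4 : W1P = r / 4 * l - r / 6 + π / 12 := by
      unfold W1P
      rw [← hr, ← hl]
      have : 1 / (2 * r) = r / 6 := by
        rw [div_eq_div_iff (by positivity) (by norm_num)]
        linarith
      rw [this]
    have v5 : π / 3 * ((2 * e2 + 12 * e4 * ((π / 3 - π / 6) / (π / 6)) ^ 2) / (π / 6) ^ 2) =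
        W1P + 96 * e4 / π := by
      have h1 : (π / 3 - π / 6) / (π / 6) = 1 := by field_simp; norm_num
      rw [h1]
      unfold e2
      field_simp
      ring
    have hval : rh1 (π / 3) = (-r / 4 + π / 24) * l + r / 6 - π / 12 + 7 * π / 36 -
        π * π * r / 72 - 0.006 * π + 96 * e4 / π := by
      unfold rh1 ww1
      rw [mul_sub, v5, v1, v2, v3, v4]
      ring
    rw [hval]
    have hπ1 := Real.pi_gt_d4
    have hπ2 := Real.pi_lt_d4
    have h96 : 96 * e4 / π ≤ -0.061 := by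
      rw [div_le_iff₀ hπ]
      linarith
    have hcoef : -r / 4 + π / 24 ≤ 0 := by linarith
    have hl2 : (-r / 4 + π / 24) * l ≤ (-r / 4 + π / 24) * 1.095 :=
      mul_le_mul_of_nonpos_left hl1 hcoef
    have hππ : 9.869 ≤ π * π := by nlinarith
    have hππr : 17.09 ≤ π * π * r := by nlinarith
    linarith

end Pool.Agent.EHP
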