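import Pool.Agent.EHP.Stmts4
import Pool.Agent.EHP.MLEN

/-!
# The radial mean
-/

open Finset
open scoped Real ComplexConjugate

namespace Pool.Agent.EHP

namespace MRHOEX

/-- The perimeter of the regular polygon. -/
theorem per {n : ℝ} (hn : 4 ≤ n) :
    n ^ 2 / (2 * π) * (4 * n * Real.sin (π / (2 * n)) - 2 * π) ≤ -(π ^ 2 / 24) + π ^ 4 / n ^ 2 := by
  have hpi := Real.pi_pos
  have hpi2 := Real.pi_lt_d2
  have hn0 : 0 < n := by linarith
  set x : ℝ := π / (2 * n) with hx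
  have hx0 : 0 < x := by positivity
  have hx1 : x ≤ 1 := by
    rw [hx, div_le_one (by positivity)]
    linarith
  have hb := Real.sin_bound (x := x) (by rw [abs_of_pos hx0]; exact hx1)
  rw [abs_of_pos hx0] at hb
  have h1 := (abs_le.1 hb).2
  have hnx : n = π / (2 * x) := by
    rw [hx]
    field_simp
  have h2 : Real.sin x ≤ x - x ^ 3 / 6 + x ^ 5 / 100 := by linarith
  have h3 : 4 * n * Real.sin x ≤ 4 * n * (x - x ^ 3 / 6 + x ^ 5 / 100) :=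
    mul_le_mul_of_nonneg_left h2 (by positivity)
  have h4 : n ^ 2 / (2 * π) * (4 * n * Real.sin x - 2 * π) ≤
      n ^ 2 / (2 * π) * (4 * n * (x - x ^ 3 / 6 + x ^ 5 / 100) - 2 * π) :=
    mul_le_mul_of_nonneg_left (by linarith) (by positivity)
  refine h4.trans (le_of_sub_nonneg ?_)
  have h5 : -(π ^ 2 / 24) + π ^ 4 / n ^ 2 -
      n ^ 2 / (2 * π) * (4 * n * (x - x ^ 3 / 6 + x ^ 5 / 100) - 2 * π) =
      π ^ 4 / n ^ 2 * (1 - 1 / 1600) := by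
    rw [hx]
    field_simp
    ring
  rw [h5]
  have : 0 ≤ π ^ 4 / n ^ 2 := by positivity
  linarith

theorem core (n : ℕ) (c : Cfg n) {K₁ Cs : ℝ} (hK : 1 ≤ K₁) (hCs : 0 < Cs) (hn4 : 4 ≤ n)
    (hn : (10 * (Cs + K₁ + 4 * π)) ^ 2 ≤ n)
    (hP : ∑ j ∈ range n, ‖c.z ((j : ℤ) + 1) - c.z (j : ℤ)‖ ≤ 4 * n * Real.sin (π / (2 * n)))
    (hbyp : 2 * π / n * ∑ j ∈ range n, c.ρ (j : ℤ) =
      ∑ j ∈ range n, c.g (j : ℤ) * c.ρm (j : ℤ) + ∑ j ∈ range n, c.φm (j : ℤ) * c.Δ (j : ℤ))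
    (hρ : ∀ j, |c.ρ j| ≤ K₁ / n)
    (hy2 : ∑ j ∈ range n, c.y (j : ℤ) ^ 2 ≤ K₁ / n)
    (hs2 : ∑ j ∈ range n, c.s (j : ℤ) ^ 2 ≤ K₁ / n)
    (hy : ∀ j, |c.y j| ≤ Cs / Real.sqrt n) (hs : ∀ j, |c.s j| ≤ Cs / Real.sqrt n) :
    n * ∑ j ∈ range n, c.ρ (j : ℤ) ≤ π ^ 2 / 8 + mn n (fun j => (c.Φ j + c.Φ (j + 1)) / 2 * c.DR j) -
      1 / 2 * mn n (fun j => c.DR j ^ 2) - 1 / 2 * mn n (fun j => c.R j ^ 2) +
      (π ^ 4 + 3 * π ^ 2 * K₁ + (10 * (Cs + K₁ + 4 * π)) * π ^ 2 * (1 + K₁) + Cs * (K₁ ^ 2 + K₁) +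
        (10 * (Cs + K₁ + 4 * π)) * (K₁ ^ 2 + K₁)) / Real.sqrt n := by
  have hpi := Real.pi_pos
  have hpi3 := Real.pi_gt_three
  have hn0 : 0 < n := by omega
  have hn4R : (4 : ℝ) ≤ n := by exact_mod_cast hn4
  have hnR : (0 : ℝ) < n := by linarith
  set C₀ : ℝ := 10 * (Cs + K₁ + 4 * π) with hC₀
  have hC₀0 : 0 < C₀ := by positivity
  set q : ℝ := 1 / Real.sqrt n with hq
  have hsq : 0 < Real.sqrt n := Real.sqrt_pos.2 hnR
  have hq0 : 0 < q := by positivity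
  have hsqC : C₀ ≤ Real.sqrt n := Real.le_sqrt_of_sq_le hn
  have hκ1 : C₀ * q ≤ 1 := by
    rw [hq, mul_one_div, div_le_one hsq]
    exact hsqC
  have hC₀1 : 1 ≤ C₀ := by rw [hC₀]; nlinarith
  have hsqn : Real.sqrt n ≤ n := by
    have h1 : 1 ≤ Real.sqrt n := hC₀1.trans hsqC
    nlinarith [Real.sq_sqrt hnR.le]
  have hnq : 1 / (n : ℝ) ≤ q := one_div_le_one_div_of_le hsq hsqn
  have hn2q : 1 / (n : ℝ) ^ 2 ≤ q := by
    refine le_trans ?_ hnq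
    exact one_div_le_one_div_of_le hnR (by nlinarith)
  have hy' : ∀ j, |c.y j| ≤ Cs * q := fun j => by rw [hq, mul_one_div]; exact hy j
  have hs' : ∀ j, |c.s j| ≤ Cs * q := fun j => by rw [hq, mul_one_div]; exact hs j
  have hCsC : Cs * q ≤ 1 := le_trans (mul_le_mul_of_nonneg_right (by rw [hC₀]; nlinarith) hq0.le) hκ1
  have hy1 : ∀ j, |c.y j| ≤ 1 := fun j => (hy' j).trans hCsC
  have hge : ∀ j, c.g j = 2 * π / n * (1 + c.y j) := fun j => c.g_eq hn0 j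
  have hgb : ∀ j, c.g j ≤ 4 * π / n := by
    intro j
    rw [hge]
    have h1 := (abs_le.1 (hy1 j)).2
    have h2 : 0 < 2 * π / n := by positivity
    calc 2 * π / n * (1 + c.y j) ≤ 2 * π / n * 2 :=
          mul_le_mul_of_nonneg_left (by linarith) h2.le
      _ = 4 * π / n := by ring
  have hg1 : ∀ j, c.g j ≤ C₀ * q / 10 := by
    intro j
    refine (hgb j).trans ?_
    have e1 : 4 * π / n = 4 * π * (1 / n) := by ring
    have e2 := mul_le_mul_of_nonneg_left hnq (show 0 ≤ 4 * π by positivity)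
    have e3 : C₀ * q / 10 = 4 * π * q + (Cs + K₁) * q := by rw [hC₀]; ring
    have e4 : 0 ≤ (Cs + K₁) * q := by positivity
    rw [e1, e3]
    linarith
  have hs1 : ∀ j, |c.s j| ≤ C₀ * q / 10 := by
    intro j
    refine (hs' j).trans ?_
    have e3 : C₀ * q / 10 = Cs * q + (4 * π + K₁) * q := by rw [hC₀]; ring
    have e4 : 0 ≤ (4 * π + K₁) * q := by positivity
    rw [e3]
    linarith
  have hρmb : ∀ j, |c.ρm j| ≤ K₁ / n := by
    intro j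
    have h1 := abs_le.1 (hρ j)
    have h2 := abs_le.1 (hρ (j + 1))
    unfold Cfg.ρm
    rw [abs_le]
    constructor <;> linarith [h1.1, h1.2, h2.1, h2.2]
  have hr1 : ∀ j, |c.ρm j| ≤ C₀ * q / 10 := by
    intro j
    refine (hρmb j).trans ?_
    have e1 : K₁ / n = K₁ * (1 / n) := by ring
    have e2 := mul_le_mul_of_nonneg_left hnq (show 0 ≤ K₁ by linarith)
    have e3 : C₀ * q / 10 = K₁ * q + (Cs + 4 * π) * q := by rw [hC₀]; ring
    have e4 : 0 ≤ (Cs + 4 * π) * q := by positivity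
    rw [e1, e3]
    linarith
  set κ : ℝ := C₀ * q with hκ
  have hκ0 : 0 < κ := by positivity
  have hkey : ∀ j : ℤ, c.g j + c.g j * c.ρm j + (1 - κ) / 2 * (c.g j * c.ρm j ^ 2 +
      c.g j * c.s j ^ 2) - (1 + κ) / 24 * c.g j ^ 3 ≤ ‖c.z (j + 1) - c.z j‖ := by
    intro j
    rw [MLEN.len]
    exact MLEN.aux hκ0 hκ1 (c.g_pos j) (hg1 j) (hs1 j) (hr1 j)
  have hsum := (Finset.sum_le_sum fun (j : ℕ) (_ : j ∈ range n) => hkey (j : ℤ)).trans hP
  rw [Finset.sum_sub_distrib, Finset.sum_add_distrib, Finset.sum_add_distrib, ← Finset.mul_sum,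
    ← Finset.mul_sum, Finset.sum_add_distrib, c.sum_g] at hsum
  set A := ∑ j ∈ range n, c.g (j : ℤ) * c.ρm (j : ℤ) with hA
  set B := ∑ j ∈ range n, c.g (j : ℤ) * c.ρm (j : ℤ) ^ 2 with hB
  set S := ∑ j ∈ range n, c.g (j : ℤ) * c.s (j : ℤ) ^ 2 with hS
  set T := ∑ j ∈ range n, c.g (j : ℤ) ^ 3 with hT
  set P := ∑ j ∈ range n, c.φm (j : ℤ) * c.Δ (j : ℤ) with hPP
  set m : ℝ := (n : ℝ) ^ 2 / (2 * π) with hm
  have hm0 : 0 < m := by positivity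
  -- the means
  have hDR : ∀ j, c.DR j = n ^ 2 / (2 * π) * c.Δ j := by
    intro j
    unfold Cfg.DR Cfg.R Cfg.Δ
    ring
  have hDR2 : ∀ j, c.DR j = n * c.s j * (1 + c.y j) := by
    intro j
    have hg := c.g_pos j
    have h1 : c.Δ j = c.s j * c.g j := by
      unfold Cfg.s
      rw [div_mul_cancel₀ _ hg.ne']
    rw [hDR, h1, hge]
    field_simp
  have m1 : mn n (fun j => (c.Φ j + c.Φ (j + 1)) / 2 * c.DR j) = m * P := by
    unfold mn
    rw [hPP, Finset.mul_sum, Finset.sum_div]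
    refine Finset.sum_congr rfl fun j _ => ?_
    beta_reduce
    rw [hDR, hm]
    unfold Cfg.Φ Cfg.φm
    field_simp
  have m2 : mn n (fun j => c.DR j ^ 2) = n * ∑ j ∈ range n, (c.s (j : ℤ) * (1 + c.y (j : ℤ))) ^ 2 := by
    unfold mn
    rw [Finset.mul_sum, Finset.sum_div]
    refine Finset.sum_congr rfl fun j _ => ?_
    beta_reduce
    rw [hDR2]
    field_simp
  have m3 : mn n (fun j => c.R j ^ 2) = n * ∑ j ∈ range n, c.ρ (j : ℤ) ^ 2 := by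
    unfold mn
    rw [Finset.mul_sum, Finset.sum_div]
    refine Finset.sum_congr rfl fun j _ => ?_
    unfold Cfg.R
    field_simp
  have mS : m * S = n * ∑ j ∈ range n, (1 + c.y (j : ℤ)) * c.s (j : ℤ) ^ 2 := by
    rw [hS, Finset.mul_sum, Finset.mul_sum]
    refine Finset.sum_congr rfl fun j _ => ?_
    rw [hge, hm]
    field_simp
  have mB : m * B = n * ∑ j ∈ range n, (1 + c.y (j : ℤ)) * c.ρm (j : ℤ) ^ 2 := by
    rw [hB, Finset.mul_sum, Finset.mul_sum]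
    refine Finset.sum_congr rfl fun j _ => ?_
    rw [hge, hm]
    field_simp
  have mT : m * T = 4 * π ^ 2 / n * ∑ j ∈ range n, (1 + c.y (j : ℤ)) ^ 3 := by
    rw [hT, Finset.mul_sum, Finset.mul_sum]
    refine Finset.sum_congr rfl fun j _ => ?_
    rw [hge, hm]
    field_simp
    ring
  -- bounds
  have nV : n * ∑ j ∈ range n, c.s (j : ℤ) ^ 2 ≤ K₁ := by
    have := mul_le_mul_of_nonneg_left hs2 hnR.le
    rwa [mul_div_cancel₀ _ hnR.ne'] at this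
  have nY : n * ∑ j ∈ range n, c.y (j : ℤ) ^ 2 ≤ K₁ := by
    have := mul_le_mul_of_nonneg_left hy2 hnR.le
    rwa [mul_div_cancel₀ _ hnR.ne'] at this
  have nρm : n * ∑ j ∈ range n, c.ρm (j : ℤ) ^ 2 ≤ K₁ ^ 2 := by
    have h1 : ∑ j ∈ range n, c.ρm (j : ℤ) ^ 2 ≤ ∑ j ∈ range n, (K₁ / n) ^ 2 := by
      refine Finset.sum_le_sum fun (j : ℕ) _ => ?_
      rw [← sq_abs]
      exact pow_le_pow_left₀ (abs_nonneg _) (hρmb _) 2
    rw [Finset.sum_const, Finset.card_range, nsmul_eq_mul] at h1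
    have h2 := mul_le_mul_of_nonneg_left h1 hnR.le
    refine h2.trans (le_of_eq ?_)
    field_simp
  have bS1 : m * S ≤ 2 * K₁ := by
    rw [mS]
    have h1 : ∑ j ∈ range n, (1 + c.y (j : ℤ)) * c.s (j : ℤ) ^ 2 ≤
        ∑ j ∈ range n, 2 * c.s (j : ℤ) ^ 2 := by
      refine Finset.sum_le_sum fun (j : ℕ) _ => ?_
      have := (abs_le.1 (hy1 (j : ℤ))).2
      exact mul_le_mul_of_nonneg_right (by linarith) (sq_nonneg _)
    rw [← Finset.mul_sum] at h1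
    have h2 := mul_le_mul_of_nonneg_left h1 hnR.le
    linarith
  have bB1 : m * B ≤ 2 * K₁ ^ 2 := by
    rw [mB]
    have h1 : ∑ j ∈ range n, (1 + c.y (j : ℤ)) * c.ρm (j : ℤ) ^ 2 ≤
        ∑ j ∈ range n, 2 * c.ρm (j : ℤ) ^ 2 := by
      refine Finset.sum_le_sum fun (j : ℕ) _ => ?_
      have := (abs_le.1 (hy1 (j : ℤ))).2
      exact mul_le_mul_of_nonneg_right (by linarith) (sq_nonneg _)
    rw [← Finset.mul_sum] at h1
    have h2 := mul_le_mul_of_nonneg_left h1 hnR.le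
    linarith
  have bS2 : mn n (fun j => c.DR j ^ 2) - 2 * (Cs * q) * K₁ ≤ m * S := by
    rw [m2, mS]
    have h1 : ∑ j ∈ range n, (c.s (j : ℤ) * (1 + c.y (j : ℤ))) ^ 2 ≤
        ∑ j ∈ range n, ((1 + c.y (j : ℤ)) * c.s (j : ℤ) ^ 2 + 2 * (Cs * q) * c.s (j : ℤ) ^ 2) := by
      refine Finset.sum_le_sum fun (j : ℕ) _ => ?_
      have h2 := abs_le.1 (hy1 (j : ℤ))
      have h3 := abs_le.1 (hy' (j : ℤ))
      have h4 : c.y (j : ℤ) * (1 + c.y (j : ℤ)) ≤ 2 * (Cs * q) := by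
        have h5 : c.y (j : ℤ) * (1 + c.y (j : ℤ)) ≤ |c.y (j : ℤ)| * (1 + c.y (j : ℤ)) :=
          mul_le_mul_of_nonneg_right (le_abs_self _) (by linarith)
        have h6 : |c.y (j : ℤ)| * (1 + c.y (j : ℤ)) ≤ |c.y (j : ℤ)| * 2 :=
          mul_le_mul_of_nonneg_left (by linarith) (abs_nonneg _)
        have h7 := hy' (j : ℤ)
        linarith
      have h8 := mul_le_mul_of_nonneg_right h4 (sq_nonneg (c.s (j : ℤ)))
      have e : (c.s (j : ℤ) * (1 + c.y (j : ℤ))) ^ 2 = (1 + c.y (j : ℤ)) * c.s (j : ℤ) ^ 2 +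
        c.y (j : ℤ) * (1 + c.y (j : ℤ)) * c.s (j : ℤ) ^ 2 := by ring
      rw [e]
      linarith
    rw [Finset.sum_add_distrib, ← Finset.mul_sum] at h1
    have h2 := mul_le_mul_of_nonneg_left h1 hnR.le
    have h3 := mul_le_mul_of_nonneg_left nV (show 0 ≤ 2 * (Cs * q) by positivity)
    linarith
  have bB2 : mn n (fun j => c.R j ^ 2) - (Cs * q) * K₁ ^ 2 - 4 * π ^ 2 * K₁ * q ≤ m * B := by
    rw [m3, mB]
    have hsh := sum_shift (n := n) (f := fun j => c.ρ j ^ 2) (fun j => by simp only [c.ρ_add]) 1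
    have h0 : ∑ j ∈ range n, c.ρ (j : ℤ) ^ 2 = ∑ j ∈ range n, c.ρm (j : ℤ) ^ 2 +
        ∑ j ∈ range n, c.Δ (j : ℤ) ^ 2 / 4 := by
      have e : ∑ j ∈ range n, c.ρ (j : ℤ) ^ 2 =
          ∑ j ∈ range n, (c.ρ (j : ℤ) ^ 2 / 2 + c.ρ ((j : ℤ) + 1) ^ 2 / 2) := by
        rw [Finset.sum_add_distrib, ← Finset.sum_div, ← Finset.sum_div, hsh]
        ring
      rw [e, ← Finset.sum_add_distrib]
      refine Finset.sum_congr rfl fun j _ => ?_
      unfold Cfg.ρm Cfg.Δ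
      ring
    have h1 : ∑ j ∈ range n, c.Δ (j : ℤ) ^ 2 / 4 ≤
        ∑ j ∈ range n, (4 * π ^ 2 / n ^ 2) * c.s (j : ℤ) ^ 2 := by
      refine Finset.sum_le_sum fun (j : ℕ) _ => ?_
      have hg := c.g_pos (j : ℤ)
      have e1 : c.Δ (j : ℤ) = c.g j * c.s j := by
        unfold Cfg.s
        rw [mul_div_cancel₀ _ hg.ne']
      have e2 := pow_le_pow_left₀ hg.le (hgb (j : ℤ)) 2
      have e3 := mul_le_mul_of_nonneg_right e2 (sq_nonneg (c.s (j : ℤ)))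
      rw [e1, mul_pow]
      have e4 : (4 * π / (n : ℝ)) ^ 2 = 4 * (4 * π ^ 2 / n ^ 2) := by ring
      rw [e4] at e3
      linarith
    rw [← Finset.mul_sum] at h1
    have h2 : ∑ j ∈ range n, c.ρm (j : ℤ) ^ 2 ≤
        ∑ j ∈ range n, ((1 + c.y (j : ℤ)) * c.ρm (j : ℤ) ^ 2 + (Cs * q) * c.ρm (j : ℤ) ^ 2) := by
      refine Finset.sum_le_sum fun (j : ℕ) _ => ?_
      have h3 := abs_le.1 (hy' (j : ℤ))
      have h4 : 0 ≤ (c.y (j : ℤ) + Cs * q) * c.ρm (j : ℤ) ^ 2 :=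
        mul_nonneg (by linarith) (sq_nonneg _)
      linarith
    rw [Finset.sum_add_distrib, ← Finset.mul_sum] at h2
    have h3 := mul_le_mul_of_nonneg_left h2 hnR.le
    have h4 := mul_le_mul_of_nonneg_left nρm (show 0 ≤ Cs * q by positivity)
    have h5 := mul_le_mul_of_nonneg_left h1 hnR.le
    have h6 := mul_le_mul_of_nonneg_left nV (show 0 ≤ 4 * π ^ 2 / (n : ℝ) ^ 2 by positivity)
    have h7 : 4 * π ^ 2 / (n : ℝ) ^ 2 * K₁ ≤ 4 * π ^ 2 * K₁ * q := by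
      have := mul_le_mul_of_nonneg_left hn2q (show 0 ≤ 4 * π ^ 2 * K₁ by positivity)
      have e : 4 * π ^ 2 / (n : ℝ) ^ 2 * K₁ = 4 * π ^ 2 * K₁ * (1 / n ^ 2) := by ring
      rw [e]
      exact this
    rw [h0]
    linarith
  have bT : m * T ≤ 4 * π ^ 2 + 16 * π ^ 2 * K₁ * q := by
    rw [mT]
    have h1 : ∑ j ∈ range n, (1 + c.y (j : ℤ)) ^ 3 ≤
        ∑ j ∈ range n, (1 + 3 * c.y (j : ℤ) + 4 * c.y (j : ℤ) ^ 2) := by
      refine Finset.sum_le_sum fun (j : ℕ) _ => ?_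
      have h2 := abs_le.1 (hy1 (j : ℤ))
      have h3 : 0 ≤ c.y (j : ℤ) ^ 2 * (1 - c.y (j : ℤ)) := mul_nonneg (sq_nonneg _) (by linarith)
      linarith [h3]
    rw [Finset.sum_add_distrib, Finset.sum_add_distrib, ← Finset.mul_sum, ← Finset.mul_sum,
      c.sum_y hn0, Finset.sum_const, Finset.card_range, nsmul_eq_mul, mul_zero, add_zero,
      mul_one] at h1
    have h2 := mul_le_mul_of_nonneg_left h1 (show 0 ≤ 4 * π ^ 2 / (n : ℝ) by positivity)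
    refine h2.trans ?_
    have h3 := mul_le_mul_of_nonneg_left nY (show 0 ≤ 16 * π ^ 2 / (n : ℝ) ^ 2 by positivity)
    have e : 4 * π ^ 2 / (n : ℝ) * (n + 4 * ∑ j ∈ range n, c.y (j : ℤ) ^ 2) =
      4 * π ^ 2 + 16 * π ^ 2 / (n : ℝ) ^ 2 * (n * ∑ j ∈ range n, c.y (j : ℤ) ^ 2) := by
      field_simp
      ring
    rw [e]
    have := mul_le_mul_of_nonneg_left hn2q (show 0 ≤ 16 * π ^ 2 * K₁ by positivity)
    have e' : 16 * π ^ 2 / (n : ℝ) ^ 2 * K₁ = 16 * π ^ 2 * K₁ * (1 / n ^ 2) := by ring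
    rw [e'] at h3
    linarith
  have hper := per hn4R
  rw [← hm] at hper
  have hper' : m * (4 * n * Real.sin (π / (2 * n)) - 2 * π) ≤ -(π ^ 2 / 24) + π ^ 4 * q := by
    have := mul_le_mul_of_nonneg_left hn2q (show 0 ≤ π ^ 4 by positivity)
    have e : π ^ 4 / (n : ℝ) ^ 2 = π ^ 4 * (1 / n ^ 2) := by ring
    rw [e] at hper
    linarith
  -- multiply the main inequality by m
  have hmain : m * A ≤ m * (4 * n * Real.sin (π / (2 * n)) - 2 * π) -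
      1 / 2 * (m * B + m * S) + κ * (1 / 2 * (m * B + m * S)) + 1 / 24 * (m * T) +
      κ * (1 / 24 * (m * T)) := by
    have h1 : A ≤ (4 * n * Real.sin (π / (2 * n)) - 2 * π) - (1 - κ) / 2 * (B + S) +
        (1 + κ) / 24 * T := by linarith
    have h2 := mul_le_mul_of_nonneg_left h1 hm0.le
    refine h2.trans (le_of_eq ?_)
    ring
  have hk1 : κ * (1 / 2 * (m * B + m * S)) ≤ κ * (K₁ ^ 2 + K₁) :=
    mul_le_mul_of_nonneg_left (by linarith) hκ0.le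
  have hq1 : q ≤ 1 := by
    rw [hq, div_le_one hsq]
    exact hC₀1.trans hsqC
  have hk2 : κ * (1 / 24 * (m * T)) ≤ κ * (π ^ 2 * (1 + K₁)) := by
    refine mul_le_mul_of_nonneg_left ?_ hκ0.le
    have h1 : 16 * π ^ 2 * K₁ * q ≤ 16 * π ^ 2 * K₁ * 1 :=
      mul_le_mul_of_nonneg_left hq1 (by positivity)
    have h2 : 0 ≤ π ^ 2 := sq_nonneg _
    have h3 : 0 ≤ π ^ 2 * K₁ := by positivity
    linarith
  have hfin : n * ∑ j ∈ range n, c.ρ (j : ℤ) = m * A + m * P := by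
    rw [← mul_add, ← hbyp, hm]
    field_simp
  rw [hfin, m1]
  have e9 : (π ^ 4 + 3 * π ^ 2 * K₁ + C₀ * π ^ 2 * (1 + K₁) + Cs * (K₁ ^ 2 + K₁) +
        C₀ * (K₁ ^ 2 + K₁)) / Real.sqrt n = π ^ 4 * q + 3 * (π ^ 2 * K₁ * q) +
        κ * (π ^ 2 * (1 + K₁)) + Cs * q * (K₁ ^ 2 + K₁) + κ * (K₁ ^ 2 + K₁) := by
    rw [hκ, hq]
    ring
  rw [e9]
  have h2 : 0 ≤ π ^ 2 * K₁ * q := by positivity
  have h3 : 0 ≤ Cs * q * K₁ ^ 2 := by positivity
  linarith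

end MRHOEX

theorem m_RHOEX : Stmt_DELTA → Stmt_BYP → Stmt_HOLD → Stmt_RHOEX := by
  intro hD hB hH K
  obtain ⟨n₁, hd⟩ := hD K
  obtain ⟨Cs, n₂, hCs, hhold⟩ := hH K
  set K₁ : ℝ := |K| + 1 with hK₁
  have hK1 : 1 ≤ K₁ := by have := abs_nonneg K; linarith
  have hKK : K ≤ K₁ := by have := le_abs_self K; linarith
  have hpi := Real.pi_pos
  refine ⟨_, max (max n₁ n₂) (max 4 ⌈(10 * (Cs + K₁ + 4 * π)) ^ 2⌉₊), ?_,
    fun n hn c hc L hL => MRHOEX.core n c hK1 hCs ?_ ?_ ?_ (hB n c ?_) ?_ ?_ ?_ ?_ ?_⟩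
  · positivity
  · exact (le_max_left _ _).trans ((le_max_right _ _).trans hn)
  · exact (Nat.le_ceil _).trans (by exact_mod_cast (le_max_right _ _).trans ((le_max_right _ _).trans hn))
  · exact hd n ((le_max_left _ _).trans ((le_max_left _ _).trans hn)) c hc L hL
  · have : 4 ≤ n := (le_max_left _ _).trans ((le_max_right _ _).trans hn)
    omega
  · exact fun j => (hc.hρ j).trans (div_le_div_of_nonneg_right hKK (Nat.cast_nonneg _))
  · exact hc.hy.trans (div_le_div_of_nonneg_right hKK (Nat.cast_nonneg _))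
  · exact hc.hs.trans (div_le_div_of_nonneg_right hKK (Nat.cast_nonneg _))
  · exact fun j => ((hhold n ((le_max_right _ _).trans ((le_max_left _ _).trans hn)) c hc).1 j).1
  · exact fun j => ((hhold n ((le_max_right _ _).trans ((le_max_left _ _).trans hn)) c hc).1 j).2

end Pool.Agent.EHP
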