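import Pool.Agent.EHP.Stmts3

/-!
# Regular configurations are nice
-/

open Finset
open scoped Real ComplexConjugate

namespace Pool.Agent.EHP

theorem m_RNICE : Stmt_RNICE := by
  intro K ε hε
  obtain ⟨n₀, hn₀⟩ := exists_nat_gt (max (K / ε) (K / ε ^ 2))
  refine ⟨n₀ + 1, fun n hn c hc => ?_⟩
  have hnpos : 0 < n := by omega
  have hn' : (0 : ℝ) < n := by exact_mod_cast hnpos
  have hnn : (n₀ : ℝ) ≤ n := by
    have : n₀ ≤ n := by omega
    exact_mod_cast this
  have h1 : K / n ≤ ε := by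
    have h : K / ε < n := lt_of_le_of_lt (le_max_left _ _) (lt_of_lt_of_le hn₀ hnn)
    rw [div_lt_iff₀ hε] at h
    rw [div_le_iff₀ hn']
    linarith [mul_comm (n : ℝ) ε]
  have h2 : K / n ≤ ε ^ 2 := by
    have h : K / ε ^ 2 < n := lt_of_le_of_lt (le_max_right _ _) (lt_of_lt_of_le hn₀ hnn)
    rw [div_lt_iff₀ (by positivity)] at h
    rw [div_le_iff₀ hn']
    linarith [mul_comm (n : ℝ) (ε ^ 2)]
  have hs0 : ∀ j ∈ range n, |c.s (j : ℤ)| ≤ ε := by
    intro j hj
    have h3 : c.s (j : ℤ) ^ 2 ≤ ∑ j ∈ range n, c.s (j : ℤ) ^ 2 :=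
      Finset.single_le_sum (f := fun j : ℕ => c.s (j : ℤ) ^ 2) (fun i _ => sq_nonneg _) hj
    exact abs_le_of_sq_le_sq (h3.trans (hc.hs.trans h2)) hε.le
  have hs : ∀ j : ℤ, |c.s j| ≤ ε := by
    intro j
    have h3 := per_mod (f := c.s) (fun j => c.s_add j) j
    have h4 : 0 ≤ j % (n : ℤ) := Int.emod_nonneg _ (by exact_mod_cast hnpos.ne')
    have h5 : j % (n : ℤ) < n := Int.emod_lt_of_pos _ (by exact_mod_cast hnpos)
    rw [← h3]
    have h6 := hs0 (j % (n : ℤ)).toNat (by rw [Finset.mem_range]; omega)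
    rwa [Int.toNat_of_nonneg h4] at h6
  have hstep : ∀ j : ℤ, |c.ρ (j + 1) - c.ρ j| ≤ ε * (c.θ (j + 1) - c.θ j) := by
    intro j
    have hg := c.g_pos j
    have e : c.ρ (j + 1) - c.ρ j = c.s j * c.g j := by
      unfold Cfg.s
      rw [div_mul_cancel₀ _ hg.ne']
      rfl
    have e2 : c.θ (j + 1) - c.θ j = c.g j := rfl
    rw [e, e2, abs_mul, abs_of_pos hg]
    exact mul_le_mul_of_nonneg_right (hs j) hg.le
  have hle : ∀ i j : ℤ, i ≤ j → |c.ρ j - c.ρ i| ≤ ε * (c.θ j - c.θ i) := by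
    intro i j hij
    induction j, hij using Int.le_induction with
    | base => simp
    | succ j _ ih =>
      have h3 := hstep j
      have h4 := abs_add_le (c.ρ (j + 1) - c.ρ j) (c.ρ j - c.ρ i)
      rw [sub_add_sub_cancel] at h4
      nlinarith
  refine ⟨hc.opt, hc.cent, hc.rot, fun j => (hc.hρ j).trans h1, fun j => (hc.hφ j).trans h1, ?_⟩
  intro i j
  rcases le_total i j with h | h
  · rw [abs_sub_comm, abs_sub_comm (c.θ i)]
    exact (hle i j h).trans (mul_le_mul_of_nonneg_left (le_abs_self _) hε.le)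
  · exact (hle j i h).trans (mul_le_mul_of_nonneg_left (le_abs_self _) hε.le)

end Pool.Agent.EHP
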