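import Pool.Agent.EHP.Stmts6
import Pool.Agent.EHP.Base
import Pool.Agent.EHP.MHALF

/-!
# The pivot function of a maximizer
-/

open Finset
open scoped Real ComplexConjugate

namespace Pool.Agent.EHP

/-- `0` for even `i`, `1` for odd `i` -/
def sx (i : ℤ) : ℤ := if i % 2 = 0 then 0 else 1

theorem sx_even (k : ℤ) : sx (2 * k) = 0 := by
  unfold sx; rw [if_pos (by omega)]

theorem sx_odd (k : ℤ) : sx (2 * k + 1) = 1 := by
  unfold sx; rw [if_neg (by omega)]

/-- The values of the square wave. -/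
theorem six_sqw (i : ℤ) (x : ℝ) (h1 : i * π < 3 * x) (h2 : 3 * x < (i + 1) * π) :
    sqw x = 1 / 2 - sx i := by
  unfold sqw
  rcases Int.even_or_odd' i with ⟨k, hk | hk⟩
  · subst hk
    rw [sx_even]
    have h3 : 0 < Real.sin (3 * x) := by
      rw [← Real.sin_sub_int_mul_two_pi (3 * x) k]
      apply Real.sin_pos_of_pos_of_lt_pi
      · push_cast at h1; linarith
      · push_cast at h2; linarith
    rw [if_pos h3.le]
    norm_num
  · subst hk
    rw [sx_odd]
    have h3 : Real.sin (3 * x) < 0 := by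
      have h4 : 0 < Real.sin (3 * x - k * (2 * π) - π) := by
        apply Real.sin_pos_of_pos_of_lt_pi
        · push_cast at h1; linarith
        · push_cast at h2; linarith
      rw [Real.sin_sub_pi, Real.sin_sub_int_mul_two_pi] at h4
      linarith
    rw [if_neg (not_le.2 h3)]
    norm_num

/-- On the gaps between the windows the pivot function is known. -/
theorem six_gap {N : ℕ} (hN : 100 ≤ N) {L : ℤ → ℤ} (hadd : ∀ v, L (v + (2 * N : ℕ)) = L v + (2 * N : ℕ))
    (h01 : ∀ v, L v = v + N ∨ L v = v + N + 1) {x₀ X₀ E : ℝ} (hX : X₀ = N * x₀ / π)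
    (hE0 : 0 < E) (hE : 600 * E ≤ N)
    (hW : ∀ v : ℤ, L v - v ≠ L (v - 1) - (v - 1) → ∃ k : ℤ, |(v : ℝ) - X₀ - k * N / 3| ≤ E)
    (hmean : mn (2 * N) (fun j => |pp N L j - sqw (2 * π * j / (2 * N : ℕ) - x₀)|) ≤ 1 / 20)
    (i v : ℤ) (h1 : X₀ + i * N / 3 + E < v) (h2 : (v : ℝ) < X₀ + (i + 1) * N / 3 - E) :
    L v = v + N + sx i := by
  have hNr : (100 : ℝ) ≤ N := by exact_mod_cast hN
  have hpi := Real.pi_pos
  -- no jumps in the gap
  have hnj : ∀ b : ℤ, X₀ + i * N / 3 + E < b → (b : ℝ) < X₀ + (i + 1) * N / 3 - E →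
      L b - b = L (b - 1) - (b - 1) := by
    intro b hb1 hb2
    by_contra hc
    obtain ⟨k, hk⟩ := hW b hc
    rw [abs_le] at hk
    rcases le_or_gt k i with hki | hki
    · have h3 : (k : ℝ) ≤ i := by exact_mod_cast hki
      nlinarith [hk.2]
    · have h3 : (i : ℝ) + 1 ≤ k := by exact_mod_cast hki
      nlinarith [hk.1]
  have hconst : ∀ a : ℤ, X₀ + i * N / 3 + E < a → ∀ b : ℤ, a ≤ b →
      (b : ℝ) < X₀ + (i + 1) * N / 3 - E → L b - b = L a - a := by
    intro a ha b hab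
    induction b, hab using Int.leInduction with
    | base => intro _; rfl
    | succ b hab ih =>
      intro hb
      have hab' : (a : ℝ) ≤ b := by exact_mod_cast hab
      push_cast at hb
      have h3 := hnj (b + 1) (by push_cast; linarith) (by push_cast; linarith)
      have h4 := ih (by linarith)
      have e : b + 1 - 1 = b := by ring
      rw [e] at h3
      omega
  by_contra hc
  -- the middle of the gap
  obtain ⟨m, hm⟩ : ∃ m : ℤ, m = ⌈X₀ + (i + 1) * N / 3 - N / 6⌉ := ⟨_, rfl⟩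
  have hm1 : X₀ + (i + 1) * N / 3 - N / 6 ≤ m := by rw [hm]; exact Int.le_ceil _
  have hm2 : (m : ℝ) < X₀ + (i + 1) * N / 3 - N / 6 + 1 := by rw [hm]; exact Int.ceil_lt_add_one _
  have hmv : ∀ b : ℤ, X₀ + i * N / 3 + E < b → (b : ℝ) < X₀ + (i + 1) * N / 3 - E →
      L b - b = L v - v := by
    intro b hb1 hb2
    rcases le_total v b with h | h
    · exact hconst v h1 b h hb2
    · exact (hconst b hb1 v h h2).symm
  have hf : ∀ b : ℤ, X₀ + i * N / 3 + E < b → (b : ℝ) < X₀ + (i + 1) * N / 3 - E →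
      |pp N L b - sqw (2 * π * b / (2 * N : ℕ) - x₀)| = 1 := by
    intro b hb1 hb2
    have h3 : sqw (2 * π * b / (2 * N : ℕ) - x₀) = 1 / 2 - sx i := by
      have e : 3 * (2 * π * b / (2 * N : ℕ) - x₀) = (3 * π / N) * (b - X₀) := by
        rw [hX]; push_cast; field_simp
      have hN0 : (0 : ℝ) < N := by linarith
      apply six_sqw
      · rw [e]
        have h4 : (i : ℝ) * π = (3 * π / N) * (i * N / 3) := by field_simp
        rw [h4]
        exact mul_lt_mul_of_pos_left (by linarith) (by positivity)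
      · rw [e]
        have h4 : ((i : ℝ) + 1) * π = (3 * π / N) * ((i + 1) * N / 3) := by field_simp
        rw [h4]
        exact mul_lt_mul_of_pos_left (by linarith) (by positivity)
    rw [h3]
    have h4 := hmv b hb1 hb2
    have h5 : L b - b - N ≠ sx i := by
      intro h; apply hc; omega
    have h6 : L b - b - N = 0 ∨ L b - b - N = 1 := by
      rcases h01 b with h | h
      · left; omega
      · right; omega
    have h7 : sx i = 0 ∨ sx i = 1 := by
      unfold sx; split_ifs <;> simp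
    unfold pp
    rcases h6 with h6 | h6 <;> rcases h7 with h7 | h7
    · exact absurd (h6.trans h7.symm) h5
    · rw [h6, h7]; norm_num
    · rw [h6, h7]; norm_num
    · exact absurd (h6.trans h7.symm) h5
  -- periodicity
  obtain ⟨f, hfd⟩ : ∃ f : ℤ → ℝ, f = fun j => |pp N L j - sqw (2 * π * j / (2 * N : ℕ) - x₀)| :=
    ⟨_, rfl⟩
  have hN0 : (N : ℝ) ≠ 0 := by linarith
  have hper : ∀ j, f (j + (2 * N : ℕ)) = f j := by
    intro j
    rw [hfd]
    simp only
    have e1 : pp N L (j + (2 * N : ℕ)) = pp N L j := by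
      unfold pp
      rw [hadd]
      congr 2
      omega
    have e2 : sqw (2 * π * ((j + (2 * N : ℕ) : ℤ) : ℝ) / (2 * N : ℕ) - x₀) =
        sqw (2 * π * j / (2 * N : ℕ) - x₀) := by
      have e3 : 3 * (2 * π * ((j + (2 * N : ℕ) : ℤ) : ℝ) / (2 * N : ℕ) - x₀) =
          3 * (2 * π * j / (2 * N : ℕ) - x₀) + (3 : ℤ) * (2 * π) := by
        push_cast
        field_simp
        ring
      unfold sqw
      rw [e3, Real.sin_add_int_mul_two_pi]
    rw [e1, e2]
  have hnn : ∀ j, 0 ≤ f j := by intro j; rw [hfd]; exact abs_nonneg _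
  rw [← hfd] at hmean
  unfold mn at hmean
  rw [← sum_shift hper m] at hmean
  have hT : ((N / 8 : ℕ) : ℝ) ≤ ∑ j ∈ range (2 * N), f ((j : ℤ) + m) := by
    have hsub : range (N / 8) ⊆ range (2 * N) := by
      intro j hj
      rw [Finset.mem_range] at hj ⊢
      omega
    calc ((N / 8 : ℕ) : ℝ) = ∑ j ∈ range (N / 8), (1 : ℝ) := by simp
      _ = ∑ j ∈ range (N / 8), f ((j : ℤ) + m) := by
        refine Finset.sum_congr rfl fun j hj => ?_
        rw [hfd]
        have hj1 : (j : ℝ) ≤ (N : ℝ) / 8 := by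
          have h3 := Finset.mem_range.1 hj
          have h4 : 8 * j ≤ N := by omega
          have h5 : (8 : ℝ) * j ≤ N := by exact_mod_cast h4
          linarith
        have hj0 : (0 : ℝ) ≤ j := Nat.cast_nonneg _
        refine (hf ((j : ℤ) + m) ?_ ?_).symm
        · push_cast; linarith
        · push_cast; linarith
      _ ≤ _ := Finset.sum_le_sum_of_subset_of_nonneg hsub fun j _ _ => hnn _
  have h8 : (N : ℝ) / 8 - 1 ≤ ((N / 8 : ℕ) : ℝ) := by
    have h9 : N ≤ 8 * (N / 8) + 7 := by omega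
    have h10 : (N : ℝ) ≤ 8 * ((N / 8 : ℕ) : ℝ) + 7 := by exact_mod_cast h9
    linarith
  rw [div_le_iff₀ (by positivity)] at hmean
  push_cast at hmean
  linarith

/-- First and last up-jump between two indices. -/
theorem six_jumps {N : ℕ} {L : ℤ → ℤ} (h01 : ∀ v, L v = v + N ∨ L v = v + N + 1) {A B : ℤ}
    (hAB : A < B) (hA : L A = A + N + 1) (hB : L B = B + N) :
    ∃ v w : ℤ, A < v ∧ v ≤ w ∧ w ≤ B ∧ L (v - 1) = v + N ∧ L v = v + N ∧ L (w - 1) = w + N ∧
      L w = w + N ∧ (∀ j, A ≤ j → j < v → L j = j + N + 1) ∧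
      ∀ j, w ≤ j → j ≤ B → L j = j + N := by
  classical
  have ex1 : ∃ k : ℕ, L (A + k) = A + k + N := by
    refine ⟨(B - A).toNat, ?_⟩
    have e : (((B - A).toNat : ℕ) : ℤ) = B - A := Int.toNat_of_nonneg (by omega)
    rw [e, show A + (B - A) = B by ring]
    exact hB
  have ex2 : ∃ k : ℕ, L (B - k) = B - k + N + 1 := by
    refine ⟨(B - A).toNat, ?_⟩
    have e : (((B - A).toNat : ℕ) : ℤ) = B - A := Int.toNat_of_nonneg (by omega)
    rw [e, show B - (B - A) = A by ring]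
    exact hA
  obtain ⟨k₀, hk₀, hk₀'⟩ : ∃ k : ℕ, L (A + k) = A + k + N ∧
      ∀ j : ℕ, j < k → L (A + j) ≠ A + j + N :=
    ⟨Nat.find ex1, Nat.find_spec ex1, fun j hj => Nat.find_min ex1 hj⟩
  obtain ⟨k₁, hk₁, hk₁'⟩ : ∃ k : ℕ, L (B - k) = B - k + N + 1 ∧
      ∀ j : ℕ, j < k → L (B - j) ≠ B - j + N + 1 :=
    ⟨Nat.find ex2, Nat.find_spec ex2, fun j hj => Nat.find_min ex2 hj⟩
  have h0 : k₀ ≠ 0 := by
    intro h
    rw [h] at hk₀
    simp only [Nat.cast_zero, add_zero] at hk₀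
    omega
  have h1 : k₁ ≠ 0 := by
    intro h
    rw [h] at hk₁
    simp only [Nat.cast_zero, sub_zero] at hk₁
    omega
  have hlow : ∀ j, A ≤ j → j < A + k₀ → L j = j + N + 1 := by
    intro j hj1 hj2
    have h2 := hk₀' (j - A).toNat (by omega)
    have e : (((j - A).toNat : ℕ) : ℤ) = j - A := Int.toNat_of_nonneg (by omega)
    rw [e, show A + (j - A) = j by ring] at h2
    exact (h01 j).resolve_left h2
  have hup : ∀ j, B - k₁ + 1 ≤ j → j ≤ B → L j = j + N := by
    intro j hj1 hj2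
    have h2 := hk₁' (B - j).toNat (by omega)
    have e : (((B - j).toNat : ℕ) : ℤ) = B - j := Int.toNat_of_nonneg (by omega)
    rw [e, show B - (B - j) = j by ring] at h2
    exact (h01 j).resolve_right h2
  have hkB : A + (k₀ : ℤ) ≤ B := by
    by_contra hc
    have h2 := hlow B (by omega) (by omega)
    omega
  have hkA : A ≤ B - (k₁ : ℤ) := by
    by_contra hc
    have h2 := hup A (by omega) (by omega)
    omega
  have hvw : A + (k₀ : ℤ) ≤ B - k₁ + 1 := by
    by_contra hc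
    have h2 := hlow (A + k₀ - 1) (by omega) (by omega)
    have h3 := hup (A + k₀ - 1) (by omega) (by omega)
    omega
  refine ⟨A + k₀, B - k₁ + 1, by omega, hvw, by omega, ?_, hk₀, ?_, ?_, hlow, hup⟩
  · have h2 := hlow (A + k₀ - 1) (by omega) (by omega)
    omega
  · rw [show B - (k₁ : ℤ) + 1 - 1 = B - k₁ by ring, hk₁]
    ring
  · exact hup _ le_rfl (by omega)

/-- The combinatorial part. -/
theorem six_core {N : ℕ} (hN : 100 ≤ N) {L : ℤ → ℤ}
    (h01 : ∀ v, L v = v + N ∨ L v = v + N + 1)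
    (hanti : ∀ j : ℤ, L (j + N) - (j + N) + (L j - j) = 2 * N + 1) {X₀ E : ℝ}
    (hE0 : 0 < E) (hE : 600 * E ≤ N)
    (hW : ∀ v : ℤ, L v - v ≠ L (v - 1) - (v - 1) → ∃ k : ℤ, |(v : ℝ) - X₀ - k * N / 3| ≤ E)
    (gap : ∀ i v : ℤ, X₀ + i * N / 3 + E < v → (v : ℝ) < X₀ + (i + 1) * N / 3 - E →
      L v = v + N + sx i)
    (hno : ∀ k v w : ℤ, v + 1 < w → L v = v + N → L w = w + N → L (w - 1) = L w →
      |(v : ℝ) - X₀ - ((2 * k : ℤ) : ℝ) * N / 3| ≤ E →
      |(w : ℝ) - X₀ - ((2 * k : ℤ) : ℝ) * N / 3| ≤ E →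
      (∀ j : ℤ, 10 * (v - j) ≤ N → j < v → L j = j + N + 1) →
      (∀ j : ℤ, w ≤ j → 10 * (j - w) ≤ N → L j = j + N) → False) :
    ∃ V : ℤ → ℤ, Comb N L V := by
  have hNr : (100 : ℝ) ≤ N := by exact_mod_cast hN
  obtain ⟨A, hAd⟩ : ∃ A : ℤ → ℤ, ∀ i : ℤ, A i = ⌈X₀ + i * N / 3 - N / 6⌉ := ⟨_, fun _ => rfl⟩
  have hA1 : ∀ i : ℤ, X₀ + i * N / 3 - N / 6 ≤ A i := by
    intro i; rw [hAd]; exact Int.le_ceil _
  have hA2 : ∀ i : ℤ, (A i : ℝ) < X₀ + i * N / 3 - N / 6 + 1 := by
    intro i; rw [hAd]; exact Int.ceil_lt_add_one _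
  have hA3 : ∀ i : ℤ, A (i + 3) = A i + N := by
    intro i
    rw [hAd, hAd]
    have e : X₀ + ((i + 3 : ℤ) : ℝ) * N / 3 - N / 6 =
        (X₀ + i * N / 3 - N / 6) + ((N : ℤ) : ℝ) := by
      push_cast; ring
    rw [e, Int.ceil_add_intCast]
  have hAlt : ∀ i : ℤ, A i < A (i + 1) := by
    intro i
    have h1 := hA2 i
    have h2 := hA1 (i + 1)
    push_cast at h2
    have h3 : (A i : ℝ) < A (i + 1) := by linarith
    exact_mod_cast h3
  have hAL : ∀ i : ℤ, L (A i) = A i + N + sx (i - 1) := by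
    intro i
    have h1 := hA1 i
    have h2 := hA2 i
    refine gap (i - 1) (A i) ?_ ?_
    · push_cast; linarith
    · push_cast; linarith
  have hsx : ∀ i : ℤ, sx (i - 1) = 1 - sx i := by
    intro i; unfold sx; split_ifs <;> omega
  have hsx3 : ∀ i : ℤ, sx (i + 3) = 1 - sx i := by
    intro i; unfold sx; split_ifs <;> omega
  obtain ⟨P, hPd⟩ : ∃ P : ℤ → ℤ → Prop, ∀ i v, P i v ↔ (A i < v ∧ v ≤ A (i + 1) ∧
      (∀ j, A i ≤ j → j < v → L j = j + N + (1 - sx i)) ∧
      ∀ j, v ≤ j → j ≤ A (i + 1) → L j = j + N + sx i) := ⟨_, fun _ _ => Iff.rfl⟩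
  have hex0 : ∀ k : ℤ, ∃ v, P (2 * k) v := by
    intro k
    have hLA := hAL (2 * k)
    rw [hsx, sx_even] at hLA
    have hLB := hAL (2 * k + 1)
    rw [show 2 * k + 1 - 1 = 2 * k by ring, sx_even] at hLB
    obtain ⟨v, w, hv1, hvw, hw1, hv2, hv3, hw2, hw3, hlow, hup⟩ :=
      six_jumps h01 (hAlt (2 * k)) (by omega) (by omega)
    rcases hvw.eq_or_lt with heq | hlt
    · subst heq
      refine ⟨v, (hPd _ _).2 ⟨hv1, hw1, ?_, ?_⟩⟩
      · intro j hj1 hj2
        rw [sx_even, hlow j hj1 hj2]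
        ring
      · intro j hj1 hj2
        rw [sx_even, hup j hj1 hj2]
        ring
    · exfalso
      have hloc : ∀ u : ℤ, A (2 * k) < u → u ≤ A (2 * k + 1) → L (u - 1) = u + N → L u = u + N →
          |(u : ℝ) - X₀ - ((2 * k : ℤ) : ℝ) * N / 3| ≤ E := by
        intro u hu1 hu2 hu3 hu4
        obtain ⟨k', hk'⟩ := hW u (by omega)
        have ha := hA1 (2 * k)
        have hb := hA2 (2 * k + 1)
        have hu1' : (A (2 * k) : ℝ) < u := by exact_mod_cast hu1
        have hu2' : (u : ℝ) ≤ A (2 * k + 1) := by exact_mod_cast hu2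
        rw [abs_le] at hk'
        have hkk : k' = 2 * k := by
          rcases lt_trichotomy k' (2 * k) with h | h | h
          · exfalso
            have h3 : (k' : ℝ) ≤ ((2 * k : ℤ) : ℝ) - 1 := by
              have : k' ≤ 2 * k - 1 := by omega
              exact_mod_cast this
            have h4 := mul_le_mul_of_nonneg_right h3 (by linarith : (0 : ℝ) ≤ N / 3)
            linarith [hk'.2]
          · exact h
          · exfalso
            have h3 : ((2 * k : ℤ) : ℝ) + 1 ≤ (k' : ℝ) := by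
              have : 2 * k + 1 ≤ k' := by omega
              exact_mod_cast this
            have h4 := mul_le_mul_of_nonneg_right h3 (by linarith : (0 : ℝ) ≤ N / 3)
            push_cast at hb h4
            linarith [hk'.1]
        rw [hkk] at hk'
        exact abs_le.2 hk'
      have hvl := hloc v hv1 (by omega) hv2 hv3
      have hwl := hloc w (by omega) hw1 hw2 hw3
      have ha1 := hA1 (2 * k)
      have ha2 := hA2 (2 * k)
      have hb1 := hA1 (2 * k + 1)
      have hb2 := hA2 (2 * k + 1)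
      have hvl' := abs_le.1 hvl
      have hwl' := abs_le.1 hwl
      refine hno k v w ?_ hv3 hw3 (by rw [hw2, hw3]) hvl hwl ?_ ?_
      · by_contra hc
        have : w - 1 = v := by omega
        rw [this] at hw2
        omega
      · intro j hj1 hj2
        rcases le_or_gt (A (2 * k)) j with h | h
        · exact hlow j h hj2
        · have hj1' : 10 * ((v : ℝ) - j) ≤ N := by exact_mod_cast hj1
          have h' : (j : ℝ) < A (2 * k) := by exact_mod_cast h
          have h3 := gap (2 * k - 1) j (by push_cast at *; linarith) (by push_cast at *; linarith)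
          rw [hsx, sx_even] at h3
          omega
      · intro j hj1 hj2
        rcases le_or_gt j (A (2 * k + 1)) with h | h
        · exact hup j hj1 h
        · have hj1' : 10 * ((j : ℝ) - w) ≤ N := by exact_mod_cast hj2
          have h' : (A (2 * k + 1) : ℝ) < j := by exact_mod_cast h
          have h3 := gap (2 * k) j (by push_cast at *; linarith) (by push_cast at *; linarith)
          rw [sx_even] at h3
          omega
  have hshift : ∀ i v, P (i + 3) v → P i (v - N) := by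
    intro i v h
    obtain ⟨h1, h2, h3, h4⟩ := (hPd _ _).1 h
    have e1 := hA3 i
    have e2 := hA3 (i + 1)
    rw [show i + 1 + 3 = i + 3 + 1 by ring] at e2
    refine (hPd _ _).2 ⟨by omega, by omega, ?_, ?_⟩
    · intro j hj1 hj2
      have h5 := h3 (j + N) (by omega) (by omega)
      have h6 := hanti j
      rw [hsx3] at h5
      omega
    · intro j hj1 hj2
      have h5 := h4 (j + N) (by omega) (by omega)
      have h6 := hanti j
      rw [hsx3] at h5
      omega
  have hshift' : ∀ i v, P i v → P (i + 3) (v + N) := by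
    intro i v h
    obtain ⟨h1, h2, h3, h4⟩ := (hPd _ _).1 h
    have e1 := hA3 i
    have e2 := hA3 (i + 1)
    rw [show i + 1 + 3 = i + 3 + 1 by ring] at e2
    refine (hPd _ _).2 ⟨by omega, by omega, ?_, ?_⟩
    · intro j hj1 hj2
      have h5 := h3 (j - N) (by omega) (by omega)
      have h6 := hanti (j - N)
      rw [show j - (N : ℤ) + N = j by ring] at h6
      rw [hsx3]
      omega
    · intro j hj1 hj2
      have h5 := h4 (j - N) (by omega) (by omega)
      have h6 := hanti (j - N)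
      rw [show j - (N : ℤ) + N = j by ring] at h6
      rw [hsx3]
      omega
  have hex : ∀ i : ℤ, ∃ v, P i v := by
    intro i
    rcases Int.even_or_odd' i with ⟨k, hk | hk⟩
    · rw [hk]; exact hex0 k
    · obtain ⟨v, hv⟩ := hex0 (k + 2)
      rw [show 2 * (k + 2) = i + 3 by omega] at hv
      exact ⟨_, hshift i v hv⟩
  have huniq : ∀ i v v', P i v → P i v' → v = v' := by
    have key : ∀ i v v', P i v → P i v' → ¬ v < v' := by
      intro i v v' h h' hlt
      obtain ⟨h1, h2, h3, h4⟩ := (hPd _ _).1 h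
      obtain ⟨h1', h2', h3', h4'⟩ := (hPd _ _).1 h'
      have h5 := h4 v le_rfl h2
      have h6 := h3' v h1.le hlt
      have h7 : sx i = 0 ∨ sx i = 1 := by unfold sx; split_ifs <;> simp
      omega
    intro i v v' h h'
    have h1 := key i v v' h h'
    have h2 := key i v' v h' h
    omega
  choose V hV using hex
  refine ⟨V, ?_, ?_, ?_⟩
  · intro i
    have h1 := ((hPd _ _).1 (hV i)).2.1
    have h2 := ((hPd _ _).1 (hV (i + 1))).1
    omega
  · intro i
    exact huniq (i + 3) _ _ (hV (i + 3)) (hshift' i _ (hV i))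
  · intro i v hv1 hv2
    show L v = v + N + sx i
    rcases le_or_gt v (A (i + 1)) with h | h
    · exact ((hPd _ _).1 (hV i)).2.2.2 v hv1 h
    · have h1 := ((hPd _ _).1 (hV (i + 1))).2.2.1 v h.le hv2
      have h2 := hsx (i + 1)
      rw [show i + 1 - 1 = i by ring] at h2
      omega

theorem m_SIX : Stmt_MODES → Stmt_PEND → Stmt_HALF → Stmt_UBD → Stmt_TWOP → Stmt_K3 → Stmt_SIX := by
  intro hMODES hPEND hHALF hUBD hTWOP hK3 K
  have hpi := Real.pi_pos
  obtain ⟨C, n₄, hC, h4⟩ := hK3 K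
  obtain ⟨η, hηd⟩ : ∃ η : ℝ, η = min (1 / 200) (π / 20 * Real.exp (-(2 * (C + 1)))) := ⟨_, rfl⟩
  have hη0 : 0 < η := by rw [hηd]; exact lt_min (by norm_num) (by positivity)
  have hη1 : η ≤ 1 / 200 := by rw [hηd]; exact min_le_left _ _
  have hη2 : η ≤ π / 20 * Real.exp (-(2 * (C + 1))) := by rw [hηd]; exact min_le_right _ _
  obtain ⟨M1, n₁, δ1, hδ1, h1⟩ := hPEND K η hη0
  obtain ⟨M2, n₂, δ2, hδ2, h2⟩ := hHALF K
  obtain ⟨M3, n₃, δ3, hδ3, h3⟩ := hUBD K
  obtain ⟨n₅, h5⟩ := hTWOP K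
  obtain ⟨M, hM5, hM1, hM2, hM3⟩ : ∃ M : ℕ, 5 ≤ M ∧ M1 ≤ M ∧ M2 ≤ M ∧ M3 ≤ M :=
    ⟨5 + M1 + M2 + M3, by omega, by omega, by omega, by omega⟩
  obtain ⟨δ, hδ0, hδa, hδb, hδc, hδd⟩ : ∃ δ : ℝ, 0 < δ ∧ δ ≤ 1 / 20 ∧ δ ≤ δ1 ∧ δ ≤ δ2 ∧ δ ≤ δ3 :=
    ⟨min (1 / 20) (min δ1 (min δ2 δ3)), lt_min (by norm_num) (lt_min hδ1 (lt_min hδ2 hδ3)),
      min_le_left _ _, (min_le_right _ _).trans (min_le_left _ _),
      (min_le_right _ _).trans ((min_le_right _ _).trans (min_le_left _ _)),
      (min_le_right _ _).trans ((min_le_right _ _).trans (min_le_right _ _))⟩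
  obtain ⟨n₆, h6⟩ := hMODES K M δ hM5 hδ0
  refine ⟨n₁ + n₂ + n₃ + n₄ + n₅ + n₆ + 200, ?_⟩
  intro N hN c hc L hL
  obtain ⟨x₀, hm, hp, hu⟩ := h6 N (by omega) c hc L hL
  have hMo : Mo N M δ c L x₀ := ⟨hm, hp, hu⟩
  have pend := h1 N (by omega) c hc L hL x₀ (hMo.weaken hM1 hδb)
  obtain ⟨h01, hhalf, hanti⟩ := h2 N (by omega) c hc L hL x₀ (hMo.weaken hM2 hδc)
  have ubd := h3 N (by omega) c hc L hL x₀ (hMo.weaken hM3 hδd)
  have hN100 : 100 ≤ N := by omega
  have hNr : (100 : ℝ) ≤ N := by exact_mod_cast hN100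
  have hN0 : (0 : ℝ) < N := by linarith
  -- values
  have hpp0 : ∀ v : ℤ, L v = v + N → pp N L v = 1 / 2 := by
    intro v hv
    unfold pp
    rw [hv]
    push_cast
    ring
  have hpp1 : ∀ v : ℤ, L v = v + N + 1 → pp N L v = -(1 / 2) := by
    intro v hv
    unfold pp
    rw [hv]
    push_cast
    ring
  have hanti' : ∀ j : ℤ, L (j + N) - (j + N) + (L j - j) = 2 * N + 1 := by
    intro j
    have h := hanti j
    rcases h01 j with h7 | h7 <;> rcases h01 (j + N) with h8 | h8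
    · exfalso
      rw [hpp0 j h7, hpp0 _ h8] at h; norm_num at h
    · omega
    · omega
    · exfalso
      rw [hpp1 j h7, hpp1 _ h8] at h; norm_num at h
  obtain ⟨X₀, hX⟩ : ∃ X₀ : ℝ, X₀ = N * x₀ / π := ⟨_, rfl⟩
  obtain ⟨E, hEd⟩ : ∃ E : ℝ, E = η * N / π := ⟨_, rfl⟩
  have hE0 : 0 < E := by rw [hEd]; positivity
  have hEN : E * π = η * N := by rw [hEd]; field_simp
  have hE : 600 * E ≤ N := by
    have h7 : E * 3 ≤ E * π := mul_le_mul_of_nonneg_left Real.pi_gt_three.le hE0.le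
    have h8 : η * N ≤ 1 / 200 * N := mul_le_mul_of_nonneg_right hη1 hN0.le
    linarith
  have hconv : ∀ v k : ℤ, 2 * π * v / (2 * N : ℕ) - x₀ - k * (π / 3) =
      π / N * ((v : ℝ) - X₀ - k * N / 3) := by
    intro v k
    rw [hX]
    push_cast
    field_simp
  have hwin : ∀ v k : ℤ, |2 * π * v / (2 * N : ℕ) - x₀ - k * (π / 3)| ≤ η →
      |(v : ℝ) - X₀ - k * N / 3| ≤ E := by
    intro v k h
    rw [hconv, abs_mul, abs_of_pos (by positivity : (0 : ℝ) < π / N)] at h
    rw [hEd, le_div_iff₀ hpi]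
    rw [div_mul_eq_mul_div, div_le_iff₀ hN0] at h
    linarith
  have hW : ∀ v : ℤ, L v - v ≠ L (v - 1) - (v - 1) →
      ∃ k : ℤ, |(v : ℝ) - X₀ - k * N / 3| ≤ E := by
    intro v hv
    rcases h01 v with h7 | h7 <;> rcases h01 (v - 1) with h8 | h8
    · exfalso; omega
    · obtain ⟨-, k, hk⟩ := pend v (by omega)
      exact ⟨k, hwin v k hk⟩
    · have h9 := hanti' v
      have h10 := hanti' (v - 1)
      rw [show v - 1 + (N : ℤ) = v + N - 1 by ring] at h10
      obtain ⟨-, k, hk⟩ := pend (v + N) (by omega)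
      have h11 := hwin _ _ hk
      refine ⟨k - 3, ?_⟩
      have e : ((v : ℝ) - X₀ - ((k - 3 : ℤ) : ℝ) * N / 3) =
          ((v + N : ℤ) : ℝ) - X₀ - k * N / 3 := by push_cast; ring
      rw [e]
      exact h11
    · exfalso; omega
  have gap := fun i v => six_gap hN100 hL.piv.add h01 hX hE0 hE hW (hm.trans hδa) i v
  refine six_core hN100 h01 hanti' hE0 hE hW gap ?_
  intro k v w hvw hv hw hw1 hvl hwl hlow hup
  have hvl' := abs_le.1 hvl
  have hwl' := abs_le.1 hwl
  have hwv : (w : ℝ) - v ≤ 2 * E := by linarith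
  have hwv0 : (2 : ℝ) ≤ (w : ℝ) - v := by
    have : v + 2 ≤ w := by omega
    have h7 : (v : ℝ) + 2 ≤ w := by exact_mod_cast this
    linarith
  have h20 : 20 * (w - v) ≤ (N : ℤ) := by
    have h7 : 20 * ((w : ℝ) - v) ≤ N := by linarith
    exact_mod_cast h7
  have ht := h5 N (by omega) c hc L hL v w hvw (by omega) hv hw hw1
  have hk := h4 N (by omega) c hc L hL hhalf hanti v w hvw h20
    (fun j hj1 hj2 => hpp1 j (hlow j hj1 hj2)) (fun j hj1 hj2 => hpp0 j (hup j hj1 hj2)) (by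
      intro j hj1 hj2
      apply ubd j k
      have hj1' : 10 * ((v : ℝ) - j) ≤ N := by exact_mod_cast hj1
      have hj2' : 10 * ((j : ℝ) - w) ≤ N := by exact_mod_cast hj2
      have h7 : |(j : ℝ) - X₀ - ((2 * k : ℤ) : ℝ) * N / 3| ≤ E + N / 10 := by
        rw [abs_le]
        constructor <;> linarith
      have h8 := hconv j (2 * k)
      have e : 2 * π * (j : ℝ) / (2 * N : ℕ) - x₀ - k * (2 * π / 3) =
          2 * π * (j : ℝ) / (2 * N : ℕ) - x₀ - ((2 * k : ℤ) : ℝ) * (π / 3) := by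
        push_cast; ring
      rw [e, h8, abs_mul, abs_of_pos (by positivity : (0 : ℝ) < π / N), div_mul_eq_mul_div,
        div_le_iff₀ hN0]
      have h9 := mul_le_mul_of_nonneg_left h7 hpi.le
      have h10 : π * (E + N / 10) = η * N + π * N / 10 := by
        rw [mul_add, mul_comm π E, hEN]; ring
      have h11 : η * N ≤ 1 / 200 * N := mul_le_mul_of_nonneg_right hη1 hN0.le
      have h12 : π * N ≤ 3.15 * N := mul_le_mul_of_nonneg_right Real.pi_lt_d2.le hN0.le
      linarith)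
  -- the logarithm
  have hlog : 2 * (C + 1) ≤ Real.log (N / (10 * ((w : ℝ) - v))) := by
    rw [Real.le_log_iff_exp_le (by positivity)]
    rw [le_div_iff₀ (by linarith)]
    have h7 : 10 * ((w : ℝ) - v) ≤ 20 * E := by linarith
    have h8 : Real.exp (2 * (C + 1)) * (10 * ((w : ℝ) - v)) ≤ Real.exp (2 * (C + 1)) * (20 * E) :=
      mul_le_mul_of_nonneg_left h7 (Real.exp_pos _).le
    refine h8.trans ?_
    have h9 : Real.exp (2 * (C + 1)) * η ≤ π / 20 := by
      have h10 := mul_le_mul_of_nonneg_left hη2 (Real.exp_pos (2 * (C + 1))).le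
      have h11 : Real.exp (2 * (C + 1)) * (π / 20 * Real.exp (-(2 * (C + 1)))) = π / 20 := by
        rw [mul_left_comm, ← Real.exp_add, add_neg_cancel, Real.exp_zero, mul_one]
      linarith
    have h12 : Real.exp (2 * (C + 1)) * (20 * E) =
        20 * (Real.exp (2 * (C + 1)) * η) * N / π := by
      rw [hEd]; ring
    rw [h12, div_le_iff₀ hpi]
    have h13 : 20 * (Real.exp (2 * (C + 1)) * η) ≤ π := by linarith
    calc 20 * (Real.exp (2 * (C + 1)) * η) * N ≤ π * N :=
          mul_le_mul_of_nonneg_right h13 hN0.le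
      _ = N * π := mul_comm _ _
  have h14 : 1 ≤ ((w : ℝ) - v - 1) * (1 / 2 * Real.log (N / (10 * ((w : ℝ) - v))) - C) := by
    have h15 : (1 : ℝ) ≤ (w : ℝ) - v - 1 := by linarith
    have h16 : (1 : ℝ) ≤ 1 / 2 * Real.log (N / (10 * ((w : ℝ) - v))) - C := by linarith
    nlinarith
  linarith

end Pool.Agent.EHP
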