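import Pool.Agent.EHP.Stmts1

/-!
# Lower bound of the moduli and small slopes
-/

open Finset
open scoped Real ComplexConjugate

namespace Pool.Agent.EHP

namespace MSLOPE

/-- The real part of `p * conj q` and the argument of `p / q`. -/
theorem re_mul_conj {p q : ℂ} (hp : p ≠ 0) (hq : q ≠ 0) :
    (p * conj q).re = ‖p‖ * ‖q‖ * Real.cos (p / q).arg := by
  have hx : p / q ≠ 0 := div_ne_zero hp hq
  rw [Complex.cos_arg hx, norm_div]
  have h1 : (p / q).re = (p * conj q).re / ‖q‖ ^ 2 := by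
    rw [Complex.div_re, ← Complex.normSq_eq_norm_sq, Complex.mul_re, Complex.conj_re,
      Complex.conj_im]
    ring
  rw [h1]
  have := norm_pos_iff.2 hp
  have := norm_pos_iff.2 hq
  field_simp

theorem norm_sub_sq' (p q : ℂ) : ‖p - q‖ ^ 2 = ‖p‖ ^ 2 + ‖q‖ ^ 2 - 2 * (p * conj q).re := by
  rw [← Complex.normSq_eq_norm_sq, ← Complex.normSq_eq_norm_sq, ← Complex.normSq_eq_norm_sq,
    Complex.normSq_sub]

theorem re_sub_mul_conj (p q : ℂ) : ((p - q) * conj p).re = ‖p‖ ^ 2 - (p * conj q).re := by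
  rw [← Complex.normSq_eq_norm_sq, Complex.normSq_apply]
  simp only [Complex.mul_re, Complex.sub_re, Complex.sub_im, Complex.conj_re, Complex.conj_im]
  ring

/-- The core estimate for two points. -/
theorem core {s : ℝ} (hs0 : 0 < s) (hs : s ≤ 1 / 10) {p q : ℂ} (hp : 1 - s ^ 2 ≤ ‖p‖)
    (hq' : ‖q‖ ≤ 1 + s ^ 2) (hle : ‖p‖ ≤ ‖q‖)
    (hK : -(2 * s) * ‖p - q‖ ≤ ((p - q) * conj p).re) :
    ‖q‖ - ‖p‖ ≤ 8 * s * |(p / q).arg| := by
  have hs2 : s ^ 2 ≤ 1 / 100 := by nlinarith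
  have hp0 : p ≠ 0 := by
    rintro rfl
    rw [norm_zero] at hp
    linarith
  have hq0 : q ≠ 0 := by
    rintro rfl
    rw [norm_zero] at hle
    linarith
  have hc := re_mul_conj hp0 hq0
  set γ := (p / q).arg with hγ
  set a := |γ| with ha
  have ha0 : 0 ≤ a := abs_nonneg _
  have ha2 : a ^ 2 = γ ^ 2 := sq_abs γ
  set P := ‖p‖ with hP
  set Q := ‖q‖ with hQ
  have hP0 : 0 < P := norm_pos_iff.2 hp0
  have hQ0 : 0 < Q := norm_pos_iff.2 hq0
  have hcos : 1 - a ^ 2 / 2 ≤ Real.cos γ := by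
    rw [ha2]; exact Real.one_sub_sq_div_two_le_cos
  have hPQ : 0 < P * Q := mul_pos hP0 hQ0
  have hc1 : P * Q * (1 - a ^ 2 / 2) ≤ (p * conj q).re := by
    rw [hc]; exact mul_le_mul_of_nonneg_left hcos hPQ.le
  have hn : ‖p - q‖ ≤ (Q - P) + Q * a := by
    have h0 : 0 ≤ (Q - P) + Q * a := by
      have := mul_nonneg hQ0.le ha0
      linarith
    refine le_of_sq_le_sq ?_ h0
    rw [norm_sub_sq']
    have e1 : 0 ≤ (Q - P) * (Q * a) := mul_nonneg (by linarith) (mul_nonneg hQ0.le ha0)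
    have e2 : P * Q * a ^ 2 ≤ Q * Q * a ^ 2 :=
      mul_le_mul_of_nonneg_right (mul_le_mul_of_nonneg_right hle hQ0.le) (sq_nonneg a)
    nlinarith
  rw [re_sub_mul_conj] at hK
  have h1 : -(2 * s) * ((Q - P) + Q * a) ≤ P ^ 2 - P * Q * (1 - a ^ 2 / 2) := by
    have e1 : -(2 * s) * ((Q - P) + Q * a) ≤ -(2 * s) * ‖p - q‖ := by
      have := mul_le_mul_of_nonneg_left hn (by linarith : (0 : ℝ) ≤ 2 * s)
      linarith
    linarith
  have h2 : (Q - P) * (P - 2 * s) ≤ P * Q * (a ^ 2 / 2) + 2 * s * (Q * a) := by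
    have e : (Q - P) * (P - 2 * s) = -(P ^ 2 - P * Q) - 2 * s * (Q - P) := by ring
    rw [e]
    linarith
  have hD : 0 ≤ Q - P := by linarith
  have h3 : (Q - P) * (1 / 2) ≤ (Q - P) * (P - 2 * s) :=
    mul_le_mul_of_nonneg_left (by linarith) hD
  have hQ1 : Q ≤ 101 / 100 := by linarith
  have hP1 : P ≤ 101 / 100 := by linarith
  have h4 : P * Q * (a ^ 2 / 2) ≤ a ^ 2 := by
    have e1 : P * Q ≤ 2 := by nlinarith
    have e2 := mul_le_mul_of_nonneg_right e1 (by positivity : (0 : ℝ) ≤ a ^ 2 / 2)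
    linarith
  have h5 : 2 * s * (Q * a) ≤ 3 * (s * a) := by
    have e1 : 0 ≤ s * a := mul_nonneg hs0.le ha0
    have e2 : Q * (s * a) ≤ 101 / 100 * (s * a) := mul_le_mul_of_nonneg_right hQ1 e1
    nlinarith
  have h6 : Q - P ≤ 2 * a ^ 2 + 6 * (s * a) := by linarith
  rcases le_total a s with h | h
  · have e1 : a * a ≤ s * a := mul_le_mul_of_nonneg_right h ha0
    nlinarith
  · have e1 : s * s ≤ s * a := mul_le_mul_of_nonneg_left h hs0.le
    have e2 : Q - P ≤ 2 * s ^ 2 := by linarith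
    have e3 : 0 ≤ s * a := mul_nonneg hs0.le ha0
    nlinarith

/-- The inequality given by a tight partner. -/
theorem key {s : ℝ} (hs0 : 0 < s) (hs : s ≤ 1 / 10) {p q l : ℂ} (hp : ‖p‖ ≤ 1 + s ^ 2)
    (hl : ‖l‖ ≤ 1 + s ^ 2) (ht : ‖p - l‖ = 2) (hq : ‖q - l‖ ≤ 2) :
    1 - s ^ 2 ≤ ‖p‖ ∧ -(2 * s) * ‖p - q‖ ≤ ((p - q) * conj p).re := by
  have hs2 : s ^ 2 ≤ 1 / 100 := by nlinarith
  constructor
  · have := norm_sub_le p l
    linarith
  · have h1 : ‖p + l‖ ≤ 4 * s := by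
      refine le_of_sq_le_sq ?_ (by linarith)
      have e1 : ‖p + l‖ ^ 2 = 2 * ‖p‖ ^ 2 + 2 * ‖l‖ ^ 2 - ‖p - l‖ ^ 2 := by
        rw [← Complex.normSq_eq_norm_sq, ← Complex.normSq_eq_norm_sq,
          ← Complex.normSq_eq_norm_sq, ← Complex.normSq_eq_norm_sq, Complex.normSq_sub,
          Complex.normSq_add]
        ring
      rw [e1, ht]
      have e2 : ‖p‖ ^ 2 ≤ (1 + s ^ 2) ^ 2 := pow_le_pow_left₀ (norm_nonneg _) hp 2
      have e3 : ‖l‖ ^ 2 ≤ (1 + s ^ 2) ^ 2 := pow_le_pow_left₀ (norm_nonneg _) hl 2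
      nlinarith
    have h2 : ‖q - l‖ ^ 2 = ‖p - l‖ ^ 2 - 2 * ((p - q) * conj (p - l)).re + ‖p - q‖ ^ 2 := by
      have e : q - l = (p - l) - (p - q) := by ring
      rw [e, norm_sub_sq' (p - l) (p - q)]
      have e2 : ((p - l) * conj (p - q)).re = ((p - q) * conj (p - l)).re := by
        simp only [Complex.mul_re, Complex.sub_re, Complex.sub_im, Complex.conj_re,
          Complex.conj_im]
        ring
      rw [e2]
      ring
    have h3 : ‖q - l‖ ^ 2 ≤ ‖p - l‖ ^ 2 := by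
      rw [ht]; exact pow_le_pow_left₀ (norm_nonneg _) hq 2
    have h4 : 0 ≤ ((p - q) * conj (p - l)).re := by
      have := sq_nonneg ‖p - q‖
      linarith
    have h5 : ((p - q) * conj p).re * 2 =
        ((p - q) * conj (p - l)).re + ((p - q) * conj (p + l)).re := by
      simp only [Complex.mul_re, Complex.sub_re, Complex.sub_im, Complex.conj_re,
        Complex.conj_im, Complex.add_re, Complex.add_im]
      ring
    have h6 : -(‖p - q‖ * (4 * s)) ≤ ((p - q) * conj (p + l)).re := by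
      have e1 := Complex.abs_re_le_norm ((p - q) * conj (p + l))
      rw [norm_mul, Complex.norm_conj] at e1
      have e2 : ‖p - q‖ * ‖p + l‖ ≤ ‖p - q‖ * (4 * s) :=
        mul_le_mul_of_nonneg_left h1 (norm_nonneg _)
      have e3 := neg_abs_le ((p - q) * conj (p + l)).re
      linarith
    nlinarith

end MSLOPE

open MSLOPE in
theorem m_SLOPE : Stmt_CUT → Stmt_SLOPE := by
  intro hcut ε hε
  set s : ℝ := min (1 / 10) (ε / 16) with hsdef
  have hs0 : 0 < s := lt_min (by norm_num) (by linarith)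
  have hs : s ≤ 1 / 10 := min_le_left _ _
  have hsε : 16 * s ≤ ε := by
    have := min_le_right (1 / 10 : ℝ) (ε / 16)
    linarith
  have hs2 : s ^ 2 ≤ 1 / 100 := by nlinarith
  refine ⟨s ^ 2, by positivity, ?_⟩
  intro n z hn hz hb
  have partner : ∀ i : ℤ, ∃ l : ℤ, ‖z i - z l‖ = 2 := by
    intro i
    obtain ⟨a, ha, b, -, h⟩ := hcut n z (by omega) hz {j | (n : ℤ) ∣ j - i} (by
      intro j
      show (n : ℤ) ∣ j + n - i ↔ (n : ℤ) ∣ j - i
      have e : j + (n : ℤ) - i = (j - i) + n := by ring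
      rw [e]
      exact dvd_add_self_right) ⟨i, by simp⟩ ⟨i + 1, by
        show ¬ (n : ℤ) ∣ i + 1 - i
        rw [add_sub_cancel_left]
        intro h
        have := Int.le_of_dvd one_pos h
        omega⟩
    refine ⟨b, ?_⟩
    have : z a = z i := per_dvd hz.pts.per ha
    rw [← this]
    exact h
  have hk : ∀ i j : ℤ, 1 - s ^ 2 ≤ ‖z i‖ ∧ -(2 * s) * ‖z i - z j‖ ≤ ((z i - z j) * conj (z i)).re := by
    intro i j
    obtain ⟨l, hl⟩ := partner i
    exact key hs0 hs (hb i) (hb l) hl (hz.adm j l)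
  have hlow : ∀ i, 1 - s ^ 2 ≤ ‖z i‖ := fun i => (hk i i).1
  have hz0 : ∀ i, z i ≠ 0 := by
    intro i h
    have := hlow i
    rw [h, norm_zero] at this
    linarith
  have harg : ∀ i j : ℤ, |(z j / z i).arg| = |(z i / z j).arg| := by
    intro i j
    have e : z j / z i = (z i / z j)⁻¹ := by rw [inv_div]
    rw [e, Complex.abs_arg_inv]
  have hD : ∀ i j : ℤ, |‖z i‖ - ‖z j‖| ≤ 8 * s * |(z i / z j).arg| := by
    intro i j
    rcases le_total ‖z i‖ ‖z j‖ with h | h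
    · rw [abs_sub_comm, abs_of_nonneg (by linarith)]
      exact core hs0 hs (hlow i) (hb j) h (hk i j).2
    · rw [abs_of_nonneg (by linarith), ← harg i j]
      exact core hs0 hs (hlow j) (hb i) h (hk j i).2
  refine ⟨fun j => ?_, fun i j hij => ⟨fun h0 => ?_, ?_⟩⟩
  · have := hlow j
    nlinarith
  · have h1 := hD i j
    rw [h0, abs_zero, mul_zero] at h1
    have h2 : ‖z i‖ = ‖z j‖ := by
      have := abs_nonneg (‖z i‖ - ‖z j‖)
      have h3 : |‖z i‖ - ‖z j‖| = 0 := le_antisymm h1 this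
      exact sub_eq_zero.1 (abs_eq_zero.1 h3)
    apply hij
    apply hz.pts.inj
    have h3 := Complex.norm_mul_exp_arg_mul_I (z i / z j)
    rw [h0, norm_div, h2, div_self (norm_ne_zero_iff.2 (hz0 j))] at h3
    simp only [Complex.ofReal_one, Complex.ofReal_zero, zero_mul, Complex.exp_zero, mul_one] at h3
    exact (div_eq_one_iff_eq (hz0 j)).1 h3.symm
  · have hlog : ∀ x y : ℝ, 1 / 2 ≤ x → 1 / 2 ≤ y → x ≤ y → |Real.log x - Real.log y| ≤ 2 * |x - y| := by
      intro x y hx hy hxy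
      have hx0 : 0 < x := by linarith
      have hy0 : 0 < y := by linarith
      have h1 : Real.log x ≤ Real.log y := Real.log_le_log hx0 hxy
      rw [abs_sub_comm, abs_of_nonneg (by linarith), abs_sub_comm, abs_of_nonneg (by linarith),
        ← Real.log_div hy0.ne' hx0.ne']
      have h2 := Real.log_le_sub_one_of_pos (div_pos hy0 hx0)
      have h3 : y / x - 1 ≤ 2 * (y - x) := by
        rw [div_sub_one hx0.ne', div_le_iff₀ hx0]
        nlinarith
      linarith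
    have hi : 1 / 2 ≤ ‖z i‖ := by linarith [hlow i]
    have hj : 1 / 2 ≤ ‖z j‖ := by linarith [hlow j]
    have h1 : |Real.log ‖z i‖ - Real.log ‖z j‖| ≤ 2 * |‖z i‖ - ‖z j‖| := by
      rcases le_total ‖z i‖ ‖z j‖ with h | h
      · exact hlog _ _ hi hj h
      · rw [abs_sub_comm, abs_sub_comm ‖z i‖]
        exact hlog _ _ hj hi h
    have h2 := hD i j
    have h3 : 0 ≤ |(z i / z j).arg| := abs_nonneg _
    have h4 : 16 * s * |(z i / z j).arg| ≤ ε * |(z i / z j).arg| :=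
      mul_le_mul_of_nonneg_right hsε h3
    linarith

end Pool.Agent.EHP
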