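import Pool.Agent.EHP.Stmts4

/-!
# The slope relation: `Stmt_SLREL`
-/

open Finset
open scoped Real ComplexConjugate

namespace Pool.Agent.EHP

namespace M_SLREL

theorem abs_sin_sub {x : ℝ} (h : |x| ≤ 1) : |Real.sin x - x| ≤ |x| ^ 3 := by
  have h1 := Real.sin_bound h
  have h2 : |Real.sin x - x| ≤ |Real.sin x - (x - x ^ 3 / 6)| + |x ^ 3 / 6| := by
    have e : Real.sin x - x = (Real.sin x - (x - x ^ 3 / 6)) + -(x ^ 3 / 6) := by ring
    rw [e]
    refine (abs_add_le _ _).trans ?_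
    rw [abs_neg]
  have h3 : |x ^ 3 / 6| = |x| ^ 3 / 6 := by rw [abs_div, abs_pow]; norm_num
  have h4 : |x| ^ 5 ≤ |x| ^ 3 := pow_le_pow_of_le_one (abs_nonneg x) h (by norm_num)
  have h5 : 0 ≤ |x| ^ 3 := by positivity
  rw [h3] at h2
  linarith

theorem abs_sinh_le {x : ℝ} (h : |x| ≤ 1) : |Real.sinh x| ≤ 2 * |x| := by
  rw [Real.sinh_eq]
  have h1 := Real.abs_exp_sub_one_le h
  have h2 := Real.abs_exp_sub_one_le (x := -x) (by rwa [abs_neg])
  rw [abs_neg] at h2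
  have e : (Real.exp x - Real.exp (-x)) / 2 =
      ((Real.exp x - 1) - (Real.exp (-x) - 1)) / 2 := by ring
  rw [e, abs_div, abs_of_pos (by norm_num : (0 : ℝ) < 2)]
  have h3 := abs_sub (Real.exp x - 1) (Real.exp (-x) - 1)
  linarith

/-- the real inequality behind the relation -/
theorem core {g b Δ S Y₁ κ : ℝ} (hκ0 : 0 ≤ κ) (hκ : κ ≤ 1 / 4) (hg : 0 < g) (hg1 : g ≤ 1)
    (hb : |b| ≤ 1) (hΔ : |Δ| ≤ 2 * κ) (hS : |S| ≤ 2 * κ) (hY : |Y₁| ≤ 2 * κ)
    (heq : Real.exp (-S) * (1 - Real.exp (-Δ)) + Real.sinh Y₁ * Real.sinh (Δ / 2) =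
      -(Real.sin b * Real.sin (g / 2))) :
    |Δ / g + b / 2| ≤ 14 * κ * |Δ / g| + |b| ^ 3 / 2 + |b| * g ^ 2 / 8 := by
  have hΔ1 : |Δ| ≤ 1 := by linarith
  have e1 : |Real.exp (-S) - 1| ≤ 2 * |S| := by
    have := Real.abs_exp_sub_one_le (x := -S) (by rw [abs_neg]; linarith)
    rwa [abs_neg] at this
  have e2 : |1 - Real.exp (-Δ)| ≤ 2 * |Δ| := by
    have := Real.abs_exp_sub_one_le (x := -Δ) (by rwa [abs_neg])
    rw [abs_neg] at this
    rwa [abs_sub_comm]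
  have e3 : |Real.exp (-Δ) - 1 - (-Δ)| ≤ Δ ^ 2 := by
    have := Real.abs_exp_sub_one_sub_id_le (x := -Δ) (by rwa [abs_neg])
    rwa [neg_sq] at this
  have e4 : |Real.sinh Y₁| ≤ 2 * |Y₁| := abs_sinh_le (by linarith)
  have e5 : |Real.sinh (Δ / 2)| ≤ |Δ| := by
    have := abs_sinh_le (x := Δ / 2) (by rw [abs_div]; norm_num; linarith)
    rw [abs_div] at this
    norm_num at this
    linarith
  have e6 : |Real.sin b - b| ≤ |b| ^ 3 := abs_sin_sub hb
  have e7 : |Real.sin (g / 2) - g / 2| ≤ (g / 2) ^ 3 := by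
    have := abs_sin_sub (x := g / 2) (by rw [abs_of_pos (by positivity)]; linarith)
    rwa [abs_of_pos (by positivity : 0 < g / 2)] at this
  have e8 : |Real.sin (g / 2)| ≤ g / 2 := by
    have h := Real.abs_sin_le_abs (x := g / 2)
    rwa [abs_of_pos (by positivity : 0 < g / 2)] at h
  -- the left side
  have f1 : |Real.exp (-S) * (1 - Real.exp (-Δ)) + Real.sinh Y₁ * Real.sinh (Δ / 2) - Δ| ≤
      14 * κ * |Δ| := by
    have e : Real.exp (-S) * (1 - Real.exp (-Δ)) + Real.sinh Y₁ * Real.sinh (Δ / 2) - Δ =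
        (Real.exp (-S) - 1) * (1 - Real.exp (-Δ)) - (Real.exp (-Δ) - 1 - (-Δ)) +
          Real.sinh Y₁ * Real.sinh (Δ / 2) := by ring
    rw [e]
    have g1 : |(Real.exp (-S) - 1) * (1 - Real.exp (-Δ))| ≤ (4 * κ) * (2 * |Δ|) := by
      rw [abs_mul]
      apply mul_le_mul _ e2 (abs_nonneg _) (by positivity)
      linarith
    have g2 : |Real.sinh Y₁ * Real.sinh (Δ / 2)| ≤ (4 * κ) * |Δ| := by
      rw [abs_mul]
      apply mul_le_mul _ e5 (abs_nonneg _) (by positivity)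
      linarith
    have g3 : Δ ^ 2 ≤ 2 * κ * |Δ| := by
      rw [← sq_abs, sq]
      exact mul_le_mul_of_nonneg_right hΔ (abs_nonneg _)
    have g4 := abs_add_le ((Real.exp (-S) - 1) * (1 - Real.exp (-Δ)) -
      (Real.exp (-Δ) - 1 - (-Δ))) (Real.sinh Y₁ * Real.sinh (Δ / 2))
    have g5 := abs_sub ((Real.exp (-S) - 1) * (1 - Real.exp (-Δ)))
      (Real.exp (-Δ) - 1 - (-Δ))
    linarith
  have f2 : |Real.sin b * Real.sin (g / 2) - b * (g / 2)| ≤ |b| ^ 3 * (g / 2) +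
      |b| * (g / 2) ^ 3 := by
    have e : Real.sin b * Real.sin (g / 2) - b * (g / 2) =
        (Real.sin b - b) * Real.sin (g / 2) + b * (Real.sin (g / 2) - g / 2) := by ring
    rw [e]
    refine (abs_add_le _ _).trans ?_
    rw [abs_mul, abs_mul]
    gcongr
  have f3 : |Δ + b * (g / 2)| ≤ 14 * κ * |Δ| + (|b| ^ 3 * (g / 2) + |b| * (g / 2) ^ 3) := by
    have e : Δ + b * (g / 2) = -(Real.exp (-S) * (1 - Real.exp (-Δ)) +
        Real.sinh Y₁ * Real.sinh (Δ / 2) - Δ) - (Real.sin b * Real.sin (g / 2) - b * (g / 2)) := by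
      rw [heq]
      ring
    rw [e]
    refine (abs_sub _ _).trans ?_
    rw [abs_neg]
    linarith
  have f4 : |Δ / g + b / 2| = |Δ + b * (g / 2)| / g := by
    rw [← abs_of_pos hg, ← abs_div, abs_of_pos hg]
    congr 1
    field_simp
  rw [f4, div_le_iff₀ hg, abs_div, abs_of_pos hg]
  have e9 : (14 * κ * (|Δ| / g) + |b| ^ 3 / 2 + |b| * g ^ 2 / 8) * g =
      14 * κ * |Δ| + (|b| ^ 3 * (g / 2) + |b| * (g / 2) ^ 3) := by
    field_simp
    ring
  rw [e9]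
  exact f3

/-- the exact relation for two tight pairs with a common partner -/
theorem exact_rel {n : ℕ} (c : Cfg n) (j l : ℤ) (h1 : ‖c.z j - c.z l‖ = 2)
    (h2 : ‖c.z (j + 1) - c.z l‖ = 2) :
    Real.exp (-(c.ρ j + c.ρ l)) * (1 - Real.exp (-c.Δ j)) +
      Real.sinh (c.Y j l + c.Y (j + 1) l) * Real.sinh (c.Δ j / 2) =
      -(Real.sin ((c.θ l - c.θ j - π) - c.g j / 2) * Real.sin (c.g j / 2)) := by
  have a1 := c.dist_sq j l
  have a2 := c.dist_sq (j + 1) l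
  rw [h1] at a1
  rw [h2] at a2
  have b1 : Real.exp (-(c.ρ j + c.ρ l)) = Real.sin (c.X j l) ^ 2 + Real.sinh (c.Y j l) ^ 2 := by
    have : Real.exp (-(c.ρ j + c.ρ l)) * Real.exp (c.ρ j + c.ρ l) = 1 := by
      rw [← Real.exp_add]; simp
    have h3 : Real.exp (c.ρ j + c.ρ l) *
        (Real.sin (c.X j l) ^ 2 + Real.sinh (c.Y j l) ^ 2) = 1 := by linarith
    calc Real.exp (-(c.ρ j + c.ρ l)) = Real.exp (-(c.ρ j + c.ρ l)) *
          (Real.exp (c.ρ j + c.ρ l) *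
        (Real.sin (c.X j l) ^ 2 + Real.sinh (c.Y j l) ^ 2)) := by rw [h3, mul_one]
      _ = (Real.exp (-(c.ρ j + c.ρ l)) * Real.exp (c.ρ j + c.ρ l)) *
        (Real.sin (c.X j l) ^ 2 + Real.sinh (c.Y j l) ^ 2) := by ring
      _ = _ := by rw [this, one_mul]
  have b2 : Real.exp (-(c.ρ (j + 1) + c.ρ l)) =
      Real.sin (c.X (j + 1) l) ^ 2 + Real.sinh (c.Y (j + 1) l) ^ 2 := by
    have : Real.exp (-(c.ρ (j + 1) + c.ρ l)) * Real.exp (c.ρ (j + 1) + c.ρ l) = 1 := by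
      rw [← Real.exp_add]; simp
    have h3 : Real.exp (c.ρ (j + 1) + c.ρ l) *
        (Real.sin (c.X (j + 1) l) ^ 2 + Real.sinh (c.Y (j + 1) l) ^ 2) = 1 := by linarith
    calc Real.exp (-(c.ρ (j + 1) + c.ρ l)) = Real.exp (-(c.ρ (j + 1) + c.ρ l)) *
          (Real.exp (c.ρ (j + 1) + c.ρ l) *
        (Real.sin (c.X (j + 1) l) ^ 2 + Real.sinh (c.Y (j + 1) l) ^ 2)) := by rw [h3, mul_one]
      _ = (Real.exp (-(c.ρ (j + 1) + c.ρ l)) * Real.exp (c.ρ (j + 1) + c.ρ l)) *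
        (Real.sin (c.X (j + 1) l) ^ 2 + Real.sinh (c.Y (j + 1) l) ^ 2) := by ring
      _ = _ := by rw [this, one_mul]
  have b3 : Real.exp (-(c.ρ j + c.ρ l)) * Real.exp (-c.Δ j) =
      Real.exp (-(c.ρ (j + 1) + c.ρ l)) := by
    rw [← Real.exp_add]
    congr 1
    unfold Cfg.Δ
    ring
  have b4 : Real.sinh (c.Y j l + c.Y (j + 1) l) * Real.sinh (c.Δ j / 2) =
      Real.sinh (c.Y (j + 1) l) ^ 2 - Real.sinh (c.Y j l) ^ 2 := by
    have e : c.Δ j / 2 = c.Y (j + 1) l - c.Y j l := by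
      unfold Cfg.Δ Cfg.Y
      ring
    rw [e, Real.sinh_add, Real.sinh_sub]
    have h3 := Real.cosh_sq (c.Y j l)
    have h4 := Real.cosh_sq (c.Y (j + 1) l)
    linear_combination Real.sinh (c.Y (j + 1) l) ^ 2 * h3 - Real.sinh (c.Y j l) ^ 2 * h4
  have b5 : Real.sin ((c.θ l - c.θ j - π) - c.g j / 2) * Real.sin (c.g j / 2) =
      Real.sin (c.X (j + 1) l) ^ 2 - Real.sin (c.X j l) ^ 2 := by
    have e1 : c.g j / 2 = c.X (j + 1) l - c.X j l := by
      unfold Cfg.g Cfg.X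
      ring
    have e2 : (c.θ l - c.θ j - π) - c.g j / 2 = -(c.X (j + 1) l + c.X j l + π) := by
      unfold Cfg.g Cfg.X
      ring
    rw [e2, Real.sin_neg, Real.sin_add_pi, e1, neg_neg, Real.sin_add, Real.sin_sub]
    have h3 := Real.sin_sq_add_cos_sq (c.X j l)
    have h4 := Real.sin_sq_add_cos_sq (c.X (j + 1) l)
    linear_combination Real.sin (c.X (j + 1) l) ^ 2 * h3 - Real.sin (c.X j l) ^ 2 * h4
  rw [mul_sub, mul_one, b3, b1, b2, b4, b5]
  ring

end M_SLREL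

open M_SLREL in
theorem m_SLREL : Stmt_HOLD → Stmt_ANTI → Stmt_SLREL := by
  intro hHOLD hANTI K
  obtain ⟨C₁, n₁, hC₁, hH⟩ := hHOLD K
  obtain ⟨C₂, n₂, hC₂, hA⟩ := hANTI K
  obtain ⟨B, hB⟩ : ∃ B : ℝ, B = 2 * π + 2 * |K| := ⟨_, rfl⟩
  have hπ := Real.pi_pos
  have hB0 : 0 < B := by rw [hB]; positivity
  obtain ⟨E, hE⟩ : ∃ E : ℝ, E = 14 * |K| * C₁ + B ^ 3 * (1 + C₂) ^ 2 + 2 * π ^ 2 * B + C₁ +
    2 * C₁ := ⟨_, rfl⟩
  have hE0 : 0 < E := by rw [hE]; positivity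
  obtain ⟨n₃, hn₃⟩ : ∃ n₃ : ℕ, (2 * C₂) ^ 2 + C₁ ^ 2 + 4 * |K| + 100 < n₃ := exists_nat_gt _
  refine ⟨2 * E ^ 2 + C₂ + 1, n₁ + n₂ + n₃, by positivity, ?_⟩
  intro N hN c hc L hL j
  obtain ⟨n, hn⟩ : ∃ n : ℕ, n = 2 * N := ⟨_, rfl⟩
  have hn1 : n₁ ≤ 2 * N := by omega
  have hn2 : n₂ ≤ 2 * N := by omega
  have hn3 : n₃ ≤ 2 * N := by omega
  obtain ⟨hys, hΦ⟩ := hH (2 * N) hn1 c hc
  obtain ⟨x, hx⟩ : ∃ x : ℝ, x = ((2 * N : ℕ) : ℝ) := ⟨_, rfl⟩
  rw [← hx]
  have hxN : x = 2 * (N : ℝ) := by rw [hx]; push_cast; ring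
  have hx3 : (2 * C₂) ^ 2 + C₁ ^ 2 + 4 * |K| + 100 < x := by
    have : (n₃ : ℝ) ≤ x := by rw [hx]; exact_mod_cast hn3
    linarith
  have hsq1 : 0 ≤ (2 * C₂) ^ 2 := sq_nonneg _
  have hsq2 : 0 ≤ C₁ ^ 2 := sq_nonneg _
  have hK0 : 0 ≤ |K| := abs_nonneg K
  have hx100 : 100 < x := by linarith
  have hx0 : 0 < x := by linarith
  have hNpos : 0 < 2 * N := by
    have : (0 : ℝ) < ((2 * N : ℕ) : ℝ) := by rw [← hx]; exact hx0
    exact_mod_cast this
  have hsx : 0 < Real.sqrt x := Real.sqrt_pos.2 hx0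
  have hsx2 : Real.sqrt x ^ 2 = x := Real.sq_sqrt hx0.le
  have hC₂x : 2 * C₂ ≤ Real.sqrt x := Real.le_sqrt_of_sq_le (by linarith)
  have hC₁x : C₁ ≤ Real.sqrt x := Real.le_sqrt_of_sq_le (by linarith)
  have hmono := hL.piv.mono
  have hlt := hL.lt2 j
  -- the two tight pairs
  have t1 : ‖c.z j - c.z (L j)‖ = 2 :=
    (hL.piv.tight j (L j) (by omega) (by omega)).2 ⟨hmono (by omega), le_rfl⟩
  have t2 : ‖c.z (j + 1) - c.z (L j)‖ = 2 := by
    refine (hL.piv.tight (j + 1) (L j) (by omega) (by omega)).2 ⟨?_, hmono (by omega)⟩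
    rw [add_sub_cancel_right]
  obtain ⟨hβ, hm⟩ := hA (2 * N) hn2 c hc j (L j) (by omega) (by omega) t1
  rw [← hx] at hβ hm
  obtain ⟨m, hmdef⟩ : ∃ m : ℤ, m = L j - j - N := ⟨_, rfl⟩
  have hpp : pp N L j = 1 / 2 - (m : ℝ) := by unfold pp; rw [hmdef]
  have hm' : |(m : ℝ)| ≤ C₂ * Real.sqrt x := by
    have e : (m : ℝ) = ((L j - j : ℤ) : ℝ) - x / 2 := by
      rw [hmdef, hxN]; push_cast; ring
    rw [e]; exact hm
  -- the basic quantities
  have hK : K / x ≤ |K| / x := by gcongr; exact le_abs_self K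
  have hρ : ∀ i, |c.ρ i| ≤ |K| / x := fun i => by
    have := hc.hρ i
    rw [← hx] at this
    exact this.trans hK
  have hφ : ∀ i, |c.φ i| ≤ |K| / x := fun i => by
    have := hc.hφ i
    rw [← hx] at this
    exact this.trans hK
  obtain ⟨hy, hs⟩ := hys j
  rw [← hx] at hy hs
  have hy1 : |c.y j| ≤ 1 := hy.trans (by rw [div_le_one hsx]; exact hC₁x)
  have hgeq : c.g j = 2 * π / x * (1 + c.y j) := by
    have := c.g_eq hNpos j
    rwa [← hx] at this
  have hg0 := c.g_pos j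
  have hg : c.g j ≤ 4 * π / x := by
    rw [hgeq]
    have e : 2 * π / x * (1 + c.y j) ≤ 2 * π / x * 2 := by
      apply mul_le_mul_of_nonneg_left _ (by positivity)
      linarith [(abs_le.1 hy1).2]
    calc _ ≤ _ := e
      _ = 4 * π / x := by ring
  have hg1 : c.g j ≤ 1 / 4 := by
    refine hg.trans ?_
    rw [div_le_iff₀ hx0]
    linarith [Real.pi_lt_four]
  obtain ⟨β, hβdef⟩ : ∃ β : ℝ, β = c.θ (L j) - c.θ j - π := ⟨_, rfl⟩
  rw [← hβdef] at hβ
  have hβ2 : |β| ≤ 1 / 2 := by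
    refine hβ.trans ?_
    rw [div_le_iff₀ hsx]
    linarith
  have hb1 : |β - c.g j / 2| ≤ 1 := by
    refine (abs_sub _ _).trans ?_
    rw [abs_of_pos (by positivity : 0 < c.g j / 2)]
    linarith
  have hκ : |K| / x ≤ 1 / 4 := by
    rw [div_le_iff₀ hx0]
    linarith
  have hκ0 : 0 ≤ |K| / x := by positivity
  have hcore := core (κ := |K| / x) hκ0 hκ hg0 (by linarith) hb1
    (Δ := c.Δ j) (S := c.ρ j + c.ρ (L j)) (Y₁ := c.Y j (L j) + c.Y (j + 1) (L j))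
    (by
      unfold Cfg.Δ
      have := abs_sub (c.ρ (j + 1)) (c.ρ j)
      linarith [hρ (j + 1), hρ j])
    (by
      have := abs_add_le (c.ρ j) (c.ρ (L j))
      linarith [hρ (L j), hρ j])
    (by
      have e : c.Y j (L j) + c.Y (j + 1) (L j) = (c.ρ j + c.ρ (j + 1)) / 2 - c.ρ (L j) := by
        unfold Cfg.Y; ring
      rw [e]
      have h1 := abs_sub ((c.ρ j + c.ρ (j + 1)) / 2) (c.ρ (L j))
      have h2 : |(c.ρ j + c.ρ (j + 1)) / 2| ≤ |K| / x := by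
        rw [abs_div, abs_of_pos (by norm_num : (0 : ℝ) < 2)]
        have := abs_add_le (c.ρ j) (c.ρ (j + 1))
        linarith [hρ (j + 1), hρ j]
      linarith [hρ (L j)])
    (by
      rw [hβdef]
      exact exact_rel c j (L j) t1 t2)
  have hsdef : c.Δ j / c.g j = c.s j := rfl
  rw [hsdef] at hcore
  obtain ⟨b, hbdef⟩ : ∃ b : ℝ, b = β - c.g j / 2 := ⟨_, rfl⟩
  rw [← hbdef] at hcore
  -- t = (1 + |m|) / x
  obtain ⟨t, ht⟩ : ∃ t : ℝ, t = (1 + |(m : ℝ)|) / x := ⟨_, rfl⟩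
  have ht0 : 0 < t := by rw [ht]; positivity
  have hxt : x * t = 1 + |(m : ℝ)| := by rw [ht]; field_simp
  have hst : 0 < Real.sqrt t := Real.sqrt_pos.2 ht0
  have hst2 : Real.sqrt t ^ 2 = t := Real.sq_sqrt ht0.le
  have htle : t * Real.sqrt x ≤ 1 + C₂ := by
    have h1 : x * t ≤ (1 + C₂) * Real.sqrt x := by
      rw [hxt]
      have h2 : 1 ≤ Real.sqrt x := by rw [Real.one_le_sqrt]; linarith
      linarith
    have h3 : Real.sqrt x * (t * Real.sqrt x) ≤ Real.sqrt x * (1 + C₂) := by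
      calc Real.sqrt x * (t * Real.sqrt x) = Real.sqrt x ^ 2 * t := by ring
        _ = x * t := by rw [hsx2]
        _ ≤ (1 + C₂) * Real.sqrt x := h1
        _ = _ := by ring
    exact le_of_mul_le_mul_left h3 hsx
  -- size of `m`
  have hmN : |(m : ℝ)| ≤ x / 2 - 1 := by
    have h1 : -((N : ℤ) - 1) ≤ m ∧ m ≤ (N : ℤ) - 1 := by
      rw [hmdef]
      push_cast at hlt
      constructor <;> omega
    have h2 : (-((N : ℝ) - 1)) ≤ (m : ℝ) := by exact_mod_cast h1.1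
    have h3 : (m : ℝ) ≤ (N : ℝ) - 1 := by exact_mod_cast h1.2
    rw [hxN]
    rw [abs_le]
    constructor <;> linarith
  have ht1 : t ≤ 1 := by
    rw [ht, div_le_one hx0]
    linarith
  have htst : t ≤ Real.sqrt t := by
    have h1 : Real.sqrt t ≤ 1 := Real.sqrt_le_one.2 ht1
    calc t = Real.sqrt t * Real.sqrt t := by rw [← sq, hst2]
      _ ≤ 1 * Real.sqrt t := mul_le_mul_of_nonneg_right h1 hst.le
      _ = Real.sqrt t := one_mul _
  have h1st : 1 / Real.sqrt x ≤ Real.sqrt t := by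
    rw [div_le_iff₀ hsx, ← Real.sqrt_mul ht0.le, Real.one_le_sqrt]
    rw [mul_comm, hxt]
    linarith [abs_nonneg (m : ℝ)]
  -- the relation of `b` and `m`
  have hβeq : x * β = 2 * π * m + c.Φ (L j) - c.Φ j := by
    have e1 : c.φ (L j) = c.θ (L j) - 2 * π * (L j : ℝ) / x := by
      unfold Cfg.φ; rw [hx]
    have e2 : c.φ j = c.θ j - 2 * π * (j : ℝ) / x := by
      unfold Cfg.φ; rw [hx]
    have e3 : c.Φ (L j) = x * c.φ (L j) := by unfold Cfg.Φ; rw [hx]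
    have e4 : c.Φ j = x * c.φ j := by unfold Cfg.Φ; rw [hx]
    have e5 : (m : ℝ) = (L j : ℝ) - j - x / 2 := by
      rw [hmdef, hxN]; push_cast; ring
    rw [e3, e4, e1, e2, e5, hβdef]
    field_simp
    ring
  have hΦb : ∀ i, |c.Φ i| ≤ |K| := by
    intro i
    have e4 : c.Φ i = x * c.φ i := by unfold Cfg.Φ; rw [hx]
    rw [e4, abs_mul, abs_of_pos hx0]
    calc x * |c.φ i| ≤ x * (|K| / x) := by gcongr; exact hφ i
      _ = |K| := by field_simp
  have hxg : x * c.g j = 2 * π * (1 + c.y j) := by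
    rw [hgeq]; field_simp
  have hb : |b| ≤ B * t := by
    have h1 : |x * b| ≤ B * (x * t) := by
      have e : x * b = 2 * π * m + c.Φ (L j) - c.Φ j - π * (1 + c.y j) := by
        rw [hbdef]
        have : x * (β - c.g j / 2) = x * β - (x * c.g j) / 2 := by ring
        rw [this, hβeq, hxg]
        ring
      rw [e, hxt, hB]
      have a1 : |2 * π * (m : ℝ)| = 2 * π * |(m : ℝ)| := by
        rw [abs_mul, abs_of_pos (by positivity : (0 : ℝ) < 2 * π)]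
      have a2 : |π * (1 + c.y j)| ≤ 2 * π := by
        rw [abs_mul, abs_of_pos hπ]
        have : |1 + c.y j| ≤ 2 := by
          have := abs_add_le 1 (c.y j)
          rw [abs_one] at this
          linarith
        have := mul_le_mul_of_nonneg_left this hπ.le
        linarith
      have a3 := abs_sub (2 * π * (m : ℝ) + c.Φ (L j) - c.Φ j) (π * (1 + c.y j))
      have a4 := abs_sub (2 * π * (m : ℝ) + c.Φ (L j)) (c.Φ j)
      have a5 := abs_add_le (2 * π * (m : ℝ)) (c.Φ (L j))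
      have a6 : 0 ≤ 2 * |K| * |(m : ℝ)| := by positivity
      have a7 := hΦb (L j)
      have a8 := hΦb j
      have a9 : (2 * π + 2 * |K|) * (1 + |(m : ℝ)|) =
          2 * π + 2 * |K| + 2 * π * |(m : ℝ)| + 2 * |K| * |(m : ℝ)| := by ring
      linarith
    rw [abs_mul, abs_of_pos hx0] at h1
    have h2 : x * |b| ≤ x * (B * t) := by linarith
    exact le_of_mul_le_mul_left h2 hx0
  -- the three errors
  have r1 : x * (14 * (|K| / x) * |c.s j|) ≤ 14 * |K| * C₁ * Real.sqrt t := by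
    have e : x * (14 * (|K| / x) * |c.s j|) = 14 * |K| * |c.s j| := by field_simp
    rw [e]
    calc 14 * |K| * |c.s j| ≤ 14 * |K| * (C₁ / Real.sqrt x) := by gcongr
      _ = 14 * |K| * C₁ * (1 / Real.sqrt x) := by ring
      _ ≤ 14 * |K| * C₁ * Real.sqrt t := by gcongr
  have r2 : x * (|b| ^ 3 / 2) ≤ B ^ 3 * (1 + C₂) ^ 2 * Real.sqrt t := by
    calc x * (|b| ^ 3 / 2) ≤ x * ((B * t) ^ 3 / 2) := by gcongr
      _ = B ^ 3 / 2 * (t * Real.sqrt x) ^ 2 * t := by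
          rw [mul_pow, mul_pow, hsx2]; ring
      _ ≤ B ^ 3 / 2 * (1 + C₂) ^ 2 * Real.sqrt t := by gcongr
      _ ≤ B ^ 3 * (1 + C₂) ^ 2 * Real.sqrt t := by
          have : 0 ≤ B ^ 3 * (1 + C₂) ^ 2 * Real.sqrt t := by positivity
          linarith
  have r3 : x * (|b| * c.g j ^ 2 / 8) ≤ 2 * π ^ 2 * B * Real.sqrt t := by
    calc x * (|b| * c.g j ^ 2 / 8) ≤ x * ((B * t) * (4 * π / x) ^ 2 / 8) := by gcongr
      _ = 2 * π ^ 2 * B * t / x := by field_simp; ring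
      _ ≤ 2 * π ^ 2 * B * t / 1 := by
          apply div_le_div_of_nonneg_left (by positivity) one_pos (by linarith)
      _ = 2 * π ^ 2 * B * t := by rw [div_one]
      _ ≤ 2 * π ^ 2 * B * Real.sqrt t := by gcongr
  have r4 : |c.Φ (L j) - c.Φ (j + N)| ≤ C₁ * Real.sqrt t := by
    have hNle : m ≤ (2 * N : ℕ) ∧ -m ≤ (2 * N : ℕ) := by
      rw [hmdef]
      push_cast at hlt ⊢
      constructor <;> omega
    have hsqm : ∀ k : ℕ, (k : ℝ) = |(m : ℝ)| → Real.sqrt ((k : ℝ) / x) ≤ Real.sqrt t := by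
      intro k hk
      apply Real.sqrt_le_sqrt
      rw [ht, hk]
      gcongr
      linarith
    rcases le_total 0 m with h0 | h0
    · obtain ⟨k, hk⟩ := Int.eq_ofNat_of_zero_le h0
      have e1 : L j = (j + N) + (k : ℤ) := by omega
      have h1 := (hΦ (j + N) k (by omega)).2
      rw [← hx] at h1
      rw [e1]
      refine h1.trans (mul_le_mul_of_nonneg_left (hsqm k ?_) hC₁.le)
      rw [abs_of_nonneg (by exact_mod_cast h0), hk]
      simp
    · obtain ⟨k, hk⟩ := Int.eq_ofNat_of_zero_le (by omega : 0 ≤ -m)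
      have e1 : j + N = L j + (k : ℤ) := by omega
      have h1 := (hΦ (L j) k (by omega)).2
      rw [← hx] at h1
      rw [e1, abs_sub_comm]
      refine h1.trans (mul_le_mul_of_nonneg_left (hsqm k ?_) hC₁.le)
      rw [abs_of_nonpos (by exact_mod_cast h0)]
      have : (k : ℤ) = -m := by omega
      exact_mod_cast this
  have r5 : |π / 2 * c.y j| ≤ 2 * C₁ * Real.sqrt t := by
    rw [abs_mul, abs_of_pos (by positivity : (0 : ℝ) < π / 2)]
    calc π / 2 * |c.y j| ≤ 2 * (C₁ / Real.sqrt x) := by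
          apply mul_le_mul _ hy (abs_nonneg _) (by norm_num)
          linarith [Real.pi_lt_four]
      _ = 2 * C₁ * (1 / Real.sqrt x) := by ring
      _ ≤ 2 * C₁ * Real.sqrt t := by gcongr
  -- assembly
  have huu : uu N c j = -(c.Φ j - c.Φ (j + N)) / (2 * π) := rfl
  have hident : x * c.s j - π * (pp N L j - uu N c j) =
      x * (c.s j + b / 2) - (c.Φ (L j) - c.Φ (j + N)) / 2 + π / 2 * c.y j := by
    have e : x * (c.s j + b / 2) = x * c.s j + (x * β) / 2 - (x * c.g j) / 4 := by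
      rw [hbdef]; ring
    rw [e, hβeq, hxg, hpp, huu]
    field_simp
    ring
  have hmain : |x * c.s j - π * (pp N L j - uu N c j)| ≤ E * Real.sqrt t := by
    rw [hident]
    have a1 := abs_add_le (x * (c.s j + b / 2) - (c.Φ (L j) - c.Φ (j + N)) / 2) (π / 2 * c.y j)
    have a2 := abs_sub (x * (c.s j + b / 2)) ((c.Φ (L j) - c.Φ (j + N)) / 2)
    have a3 : |x * (c.s j + b / 2)| ≤ x * (14 * (|K| / x) * |c.s j|) + x * (|b| ^ 3 / 2) +
        x * (|b| * c.g j ^ 2 / 8) := by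
      rw [abs_mul, abs_of_pos hx0, ← mul_add, ← mul_add]
      exact mul_le_mul_of_nonneg_left hcore hx0.le
    have a4 : |(c.Φ (L j) - c.Φ (j + N)) / 2| ≤ C₁ * Real.sqrt t := by
      rw [abs_div, abs_of_pos (by norm_num : (0 : ℝ) < 2)]
      have : 0 ≤ |c.Φ (L j) - c.Φ (j + N)| := abs_nonneg _
      linarith
    have a5 : E * Real.sqrt t = 14 * |K| * C₁ * Real.sqrt t +
        B ^ 3 * (1 + C₂) ^ 2 * Real.sqrt t + 2 * π ^ 2 * B * Real.sqrt t + C₁ * Real.sqrt t +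
        2 * C₁ * Real.sqrt t := by rw [hE]; ring
    linarith
  have hpm : |(m : ℝ)| ≤ |pp N L j| + 1 / 2 := by
    have e : (m : ℝ) = 1 / 2 - pp N L j := by rw [hpp]; ring
    rw [e]
    have := abs_sub (1 / 2) (pp N L j)
    rw [abs_of_pos (by norm_num : (0 : ℝ) < 1 / 2)] at this
    linarith
  constructor
  · have h1 := pow_le_pow_left₀ (abs_nonneg _) hmain 2
    rw [sq_abs, mul_pow, hst2] at h1
    refine h1.trans ?_
    rw [ht]
    have h2 : E ^ 2 * ((1 + |(m : ℝ)|) / x) ≤ E ^ 2 * (2 * (1 + |pp N L j|) / x) := by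
      apply mul_le_mul_of_nonneg_left _ (by positivity)
      gcongr
      have : 0 ≤ |pp N L j| := abs_nonneg _
      linarith
    refine h2.trans ?_
    have e : E ^ 2 * (2 * (1 + |pp N L j|) / x) = 2 * E ^ 2 * (1 + |pp N L j|) / x := by ring
    rw [e]
    gcongr
    linarith
  · have h1 : |pp N L j| ≤ 1 / 2 + |(m : ℝ)| := by
      rw [hpp]
      have := abs_sub (1 / 2) (m : ℝ)
      rw [abs_of_pos (by norm_num : (0 : ℝ) < 1 / 2)] at this
      exact this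
    have h2 : 1 ≤ Real.sqrt x := by rw [Real.one_le_sqrt]; linarith
    have h3 : 0 ≤ 2 * E ^ 2 * Real.sqrt x := by positivity
    have h4 : (2 * E ^ 2 + C₂ + 1) * Real.sqrt x =
        2 * E ^ 2 * Real.sqrt x + C₂ * Real.sqrt x + Real.sqrt x := by ring
    linarith

end Pool.Agent.EHP
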