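import Pool.Agent.EHP.Stmts1

/-!
# Ordering by angles
-/

open Finset
open scoped Real ComplexConjugate

namespace Pool.Agent.EHP

namespace SortAux

/-- The residue of `j` modulo `n` as an element of `Fin n`. -/
def res (n : ℕ) (hn : 1 ≤ n) (j : ℤ) : Fin n :=
  ⟨(j % n).toNat, by
    have h1 : (0 : ℤ) < n := by exact_mod_cast hn
    have h2 := Int.emod_nonneg j h1.ne'
    have h3 := Int.emod_lt_of_pos j h1
    omega⟩

theorem res_cast (n : ℕ) (hn : 1 ≤ n) (j : ℤ) : (((res n hn j : Fin n) : ℕ) : ℤ) = j % n := by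
  have h1 : (0 : ℤ) < n := by exact_mod_cast hn
  have h2 := Int.emod_nonneg j h1.ne'
  unfold res
  simp only
  omega

theorem fin_dvd {n : ℕ} (a b : Fin n) : (n : ℤ) ∣ ((a : ℕ) : ℤ) - ((b : ℕ) : ℤ) ↔ a = b := by
  constructor
  · intro h
    have ha := a.2
    have hb := b.2
    have h1 : ((a : ℕ) : ℤ) - ((b : ℕ) : ℤ) = 0 := by
      apply Int.eq_zero_of_abs_lt_dvd h
      rw [abs_lt]
      constructor <;> omega
    apply Fin.ext
    omega
  · rintro rfl
    simp

theorem res_eq (n : ℕ) (hn : 1 ≤ n) (i j : ℤ) : res n hn i = res n hn j ↔ (n : ℤ) ∣ i - j := by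
  rw [← fin_dvd, res_cast, res_cast]
  constructor
  · intro h
    have h1 := Int.emod_add_mul_ediv i n
    have h2 := Int.emod_add_mul_ediv j n
    have h3 : i - j = (i % n - j % n) + n * (i / n - j / n) := by linarith
    rw [h3]
    exact dvd_add h (dvd_mul_right _ _)
  · intro h
    have h1 := Int.emod_add_mul_ediv i n
    have h2 := Int.emod_add_mul_ediv j n
    have h3 : i % n - j % n = (i - j) - n * (i / n - j / n) := by linarith
    rw [h3]
    exact dvd_sub h (dvd_mul_right _ _)

theorem arg_div_zero {x y : ℂ} (hx : x ≠ 0) (hy : y ≠ 0) (h : x.arg = y.arg) :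
    (x / y).arg = 0 := by
  have hx' : 0 < ‖x‖ := norm_pos_iff.2 hx
  have hy' : 0 < ‖y‖ := norm_pos_iff.2 hy
  have e1 := Complex.norm_mul_exp_arg_mul_I x
  have e2 := Complex.norm_mul_exp_arg_mul_I y
  have : x / y = ((‖x‖ / ‖y‖ : ℝ) : ℂ) := by
    rw [← e1, ← e2, h]
    have h3 : Complex.exp (y.arg * Complex.I) ≠ 0 := Complex.exp_ne_zero _
    have h4 : ((‖y‖ : ℝ) : ℂ) ≠ 0 := by exact_mod_cast hy'.ne'
    rw [Complex.norm_mul, Complex.norm_mul, Complex.norm_exp_ofReal_mul_I]
    simp only [Complex.norm_real, norm_norm, mul_one, Complex.ofReal_div]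
    field_simp
  rw [this]
  exact Complex.arg_ofReal_of_nonneg (by positivity)

end SortAux

open SortAux in
theorem m_SORT : Stmt_SORT := by
  intro n z hn hz hz0 harg
  have hn0 : (0 : ℤ) < n := by exact_mod_cast hn
  set f : Fin n → ℝ := fun a => (z ((a : ℕ) : ℤ)).arg with hf
  have finj : Function.Injective f := by
    intro a b hab
    by_contra hne
    have h1 := harg ((a : ℕ) : ℤ) ((b : ℕ) : ℤ) (fun h => hne ((fin_dvd a b).1 h))
    exact h1 (arg_div_zero (hz0 _) (hz0 _) hab)
  set σ : Equiv.Perm (Fin n) := Tuple.sort f with hσ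
  have hmono : StrictMono (f ∘ σ) :=
    (Tuple.monotone_sort f).strictMono_of_injective (finj.comp σ.injective)
  set e : ℤ → ℤ := fun j => (((σ (res n hn j) : Fin n) : ℕ) : ℤ) with he
  have heq : ∀ i j, (n : ℤ) ∣ e i - e j ↔ (n : ℤ) ∣ i - j := by
    intro i j
    rw [he]
    simp only
    rw [fin_dvd, σ.injective.eq_iff, res_eq]
  have hres : ∀ j, res n hn (j + n) = res n hn j := by
    intro j
    rw [res_eq]
    exact ⟨1, by ring⟩
  have hadd : ∀ j : ℤ, e (j + n) = e j := by
    intro j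
    rw [he]
    simp only
    rw [hres]
  set θ₀ : ℤ → ℝ := fun j => (z (e j)).arg + 2 * π * ((j / n : ℤ) : ℝ) with hθ₀
  have hθadd : ∀ j : ℤ, θ₀ (j + n) = θ₀ j + 2 * π := by
    intro j
    rw [hθ₀]
    simp only
    rw [hadd, Int.add_ediv_of_dvd_right (dvd_refl _), Int.ediv_self hn0.ne']
    push_cast
    ring
  have hstep : ∀ j : ℤ, θ₀ j < θ₀ (j + 1) := by
    intro j
    rw [hθ₀]
    simp only
    have hj1 := Int.emod_nonneg j hn0.ne'
    have hj2 := Int.emod_lt_of_pos j hn0
    have hj3 := Int.emod_add_mul_ediv j n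
    by_cases hc : j % n + 1 < n
    · -- no carry
      have h1 : (j + 1) / n = j / n := by
        have : j + 1 = (j % n + 1) + n * (j / n) := by linarith
        rw [this, Int.add_mul_ediv_left _ _ hn0.ne', Int.ediv_eq_zero_of_lt (by linarith) hc]
        simp
      have h2 : (j + 1) % n = j % n + 1 := by
        have h3 := Int.emod_add_mul_ediv (j + 1) n
        rw [h1] at h3
        linarith
      rw [h1]
      have h4 : res n hn j < res n hn (j + 1) := by
        rw [Fin.lt_def]
        have e1 := res_cast n hn j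
        have e2 := res_cast n hn (j + 1)
        rw [h2] at e2
        omega
      have h5 := hmono h4
      have h6 : (z (e j)).arg < (z (e (j + 1))).arg := h5
      linarith
    · have hc' : j % n + 1 = n := by omega
      have h1 : (j + 1) / n = j / n + 1 := by
        have : j + 1 = n * (j / n + 1) := by linarith
        rw [this, Int.mul_ediv_cancel_left _ hn0.ne']
      rw [h1]
      have h5 := Complex.arg_le_pi (z (e j))
      have h6 := Complex.neg_pi_lt_arg (z (e (j + 1)))
      push_cast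
      linarith
  have hθmono : StrictMono θ₀ := strictMono_int_of_lt_succ hstep
  set μ : ℝ := (∑ j ∈ range n, (θ₀ (j : ℤ) - 2 * π * (j : ℤ) / n)) / n with hμ
  have hnR : (n : ℝ) ≠ 0 := by
    have : (0 : ℝ) < n := by exact_mod_cast hn
    exact this.ne'
  refine ⟨{ θ := fun j => θ₀ j - μ
            ρ := fun j => Real.log ‖z (e j)‖
            θ_add := fun j => by rw [hθadd]; ring
            ρ_add := fun j => by rw [hadd]
            mono := fun i j h => by
              have := hθmono h
              linarith }, -μ, e, heq, ?_, ?_⟩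
  · intro j
    unfold Cfg.z
    simp only
    have hw : z (e j) ≠ 0 := hz0 _
    have hw' : 0 < ‖z (e j)‖ := norm_pos_iff.2 hw
    have e1 : ((Real.log ‖z (e j)‖ : ℝ) : ℂ) + ((θ₀ j - μ : ℝ) : ℂ) * Complex.I
        = ((-μ : ℝ) : ℂ) * Complex.I + (((Real.log ‖z (e j)‖ : ℝ) : ℂ)
          + ((z (e j)).arg * Complex.I + ((j / n : ℤ) : ℂ) * (2 * π * Complex.I))) := by
      rw [hθ₀]
      push_cast
      ring
    rw [e1, Complex.exp_add, Complex.exp_add, Complex.exp_add, Complex.exp_int_mul_two_pi_mul_I,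
      mul_one, ← Complex.ofReal_exp, Real.exp_log hw', Complex.norm_mul_exp_arg_mul_I]
  · unfold Cfg.φ
    simp only
    have h1 : ∀ j ∈ range n, θ₀ (j : ℤ) - μ - 2 * π * ((j : ℤ) : ℝ) / n
        = (θ₀ (j : ℤ) - 2 * π * ((j : ℤ) : ℝ) / n) - μ := by
      intro j _
      ring
    rw [Finset.sum_congr rfl h1, Finset.sum_sub_distrib, Finset.sum_const, card_range,
      nsmul_eq_mul]
    have h2 : (n : ℝ) * μ = ∑ j ∈ range n, (θ₀ (j : ℤ) - 2 * π * ((j : ℤ) : ℝ) / n) := by
      rw [hμ]
      exact mul_div_cancel₀ _ hnR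
    rw [h2]
    exact sub_self _

end Pool.Agent.EHP
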