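import Pool.Agent.EHP.Stmts2

/-!
# Module EHP_SPEC: spectral gap of the kernel
-/

open Finset
open scoped Real ComplexConjugate

namespace Pool.Agent.EHP

namespace M_SPEC

/-- the characters -/
noncomputable def om (n : ℕ) (m j : ℤ) : ℂ :=
  Complex.exp ((2 * π * m * j / n : ℝ) * Complex.I)

variable {n : ℕ}

theorem om_add_right (m i j : ℤ) : om n m (i + j) = om n m i * om n m j := by
  unfold om
  rw [← Complex.exp_add]
  congr 1
  push_cast
  ring

theorem om_swap (m j : ℤ) : om n m j = om n j m := by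
  unfold om
  congr 2
  push_cast
  ring

theorem om_zero_right (m : ℤ) : om n m 0 = 1 := by
  unfold om
  simp

theorem om_zero_left (j : ℤ) : om n 0 j = 1 := by
  rw [om_swap, om_zero_right]

theorem om_n (hn : 0 < n) (m : ℤ) : om n m n = 1 := by
  unfold om
  have hn' : (n : ℂ) ≠ 0 := by exact_mod_cast hn.ne'
  have : (((2 * π * m * (n : ℤ) / n : ℝ) : ℂ)) * Complex.I = (m : ℂ) * (2 * π * Complex.I) := by
    push_cast
    field_simp
  rw [this, Complex.exp_int_mul_two_pi_mul_I]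

theorem om_per (hn : 0 < n) (m j : ℤ) : om n m (j + n) = om n m j := by
  rw [om_add_right, om_n hn, mul_one]

theorem conj_om (m j : ℤ) : conj (om n m j) = om n m (-j) := by
  unfold om
  rw [← Complex.exp_conj]
  congr 1
  rw [map_mul, Complex.conj_ofReal, Complex.conj_I]
  push_cast
  ring

theorem om_pow (m : ℤ) (d : ℕ) : om n m d = om n m 1 ^ d := by
  induction d with
  | zero => simp [om_zero_right]
  | succ d ih =>
    rw [pow_succ, ← ih]
    push_cast
    rw [om_add_right]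

theorem om_ne_one (hn : 0 < n) (m : ℤ) (h0 : m ≠ 0) (hm : |m| < n) : om n m 1 ≠ 1 := by
  intro h
  unfold om at h
  rw [Complex.exp_eq_one_iff] at h
  obtain ⟨N, hN⟩ := h
  have hn' : (n : ℂ) ≠ 0 := by exact_mod_cast hn.ne'
  have hpi : (π : ℂ) ≠ 0 := by exact_mod_cast Real.pi_ne_zero
  have hI : Complex.I ≠ 0 := Complex.I_ne_zero
  have h1 : (m : ℂ) = N * n := by
    push_cast at hN
    field_simp at hN
    linear_combination hN
  have h2 : m = N * n := by exact_mod_cast h1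
  have hN0 : N ≠ 0 := by
    rintro rfl
    exact h0 (by simpa using h2)
  have h3 : (1 : ℤ) ≤ |N| := Int.one_le_abs hN0
  have h4 : |m| = |N| * n := by
    rw [h2, abs_mul, Nat.abs_cast]
  have hnz : (0 : ℤ) < n := by exact_mod_cast hn
  nlinarith

theorem orth (hn : 0 < n) (m : ℤ) (h0 : m ≠ 0) (hm : |m| < n) :
    ∑ d ∈ range n, om n m (d : ℤ) = 0 := by
  have h1 : ∑ d ∈ range n, om n m (d : ℤ) = ∑ d ∈ range n, om n m 1 ^ d :=
    sum_congr rfl (fun d _ => om_pow m d)
  rw [h1, geom_sum_eq (om_ne_one hn m h0 hm), ← om_pow, om_n hn, sub_self, zero_div]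

theorem sum_om_zero : ∑ d ∈ range n, om n 0 (d : ℤ) = n := by
  simp only [om_zero_left]
  simp

theorem dr_eq (f : ℤ → ℝ) (k : ℤ) :
    dr n f k = (∑ j ∈ range n, (f (j : ℤ) : ℂ) * om n k (-(j : ℤ))) / n := by
  unfold dr dft om
  congr 1
  refine sum_congr rfl (fun j _ => ?_)
  congr 2
  push_cast
  ring

theorem conj_dr (f : ℤ → ℝ) (k : ℤ) :
    conj (dr n f k) = (∑ j ∈ range n, (f (j : ℤ) : ℂ) * om n k (j : ℤ)) / n := by
  rw [dr_eq, map_div₀, map_sum, Complex.conj_natCast]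
  congr 1
  refine sum_congr rfl (fun j _ => ?_)
  rw [map_mul, Complex.conj_ofReal, conj_om, neg_neg]

/-- the squared Fourier coefficients -/
noncomputable def F (n : ℕ) (f : ℤ → ℝ) (k : ℤ) : ℝ := ‖dr n f k‖ ^ 2

theorem F_nonneg (f : ℤ → ℝ) (k : ℤ) : 0 ≤ F n f k := sq_nonneg _

theorem F_cast (f : ℤ → ℝ) (k : ℤ) : ((F n f k : ℝ) : ℂ) = dr n f k * conj (dr n f k) := by
  unfold F
  rw [Complex.mul_conj, Complex.normSq_eq_norm_sq]

theorem dr_neg (f : ℤ → ℝ) (k : ℤ) : dr n f (-k) = conj (dr n f k) := by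
  rw [conj_dr, dr_eq]
  congr 1
  refine sum_congr rfl (fun j _ => ?_)
  congr 1
  unfold om
  congr 2
  push_cast
  ring

theorem F_neg (f : ℤ → ℝ) (k : ℤ) : F n f (-k) = F n f k := by
  unfold F
  rw [dr_neg, RCLike.norm_conj]

theorem F_per (hn : 0 < n) (f : ℤ → ℝ) (k : ℤ) : F n f (k + n) = F n f k := by
  unfold F
  have : dr n f (k + n) = dr n f k := by
    rw [dr_eq, dr_eq]
    congr 1
    refine sum_congr rfl (fun j _ => ?_)
    congr 1
    rw [om_swap, om_per hn, om_swap]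
  rw [this]

theorem F_zero (f : ℤ → ℝ) (h0 : ∑ j ∈ range n, f (j : ℤ) = 0) : F n f 0 = 0 := by
  unfold F
  have : dr n f 0 = 0 := by
    rw [dr_eq]
    simp only [om_zero_left, mul_one]
    rw [← Complex.ofReal_sum, h0]
    simp
  rw [this]
  simp

/-- the correlation sum -/
theorem F_eq (hn : 0 < n) (f : ℤ → ℝ) (k : ℤ) : (n : ℂ) ^ 2 * ((F n f k : ℝ) : ℂ) =
    ∑ j ∈ range n, ∑ l ∈ range n, (f (j : ℤ) : ℂ) * (f (l : ℤ) : ℂ) *
      om n k ((l : ℤ) - (j : ℤ)) := by
  have hn' : (n : ℂ) ≠ 0 := by exact_mod_cast hn.ne'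
  rw [F_cast, conj_dr, dr_eq]
  have : (n : ℂ) ^ 2 * ((∑ j ∈ range n, (f (j : ℤ) : ℂ) * om n k (-(j : ℤ))) / n *
      ((∑ j ∈ range n, (f (j : ℤ) : ℂ) * om n k (j : ℤ)) / n)) =
      (∑ j ∈ range n, (f (j : ℤ) : ℂ) * om n k (-(j : ℤ))) *
      (∑ j ∈ range n, (f (j : ℤ) : ℂ) * om n k (j : ℤ)) := by
    field_simp
  rw [this, sum_mul_sum]
  refine sum_congr rfl (fun j _ => sum_congr rfl (fun l _ => ?_))
  have : (l : ℤ) - (j : ℤ) = -(j : ℤ) + (l : ℤ) := by ring
  rw [this, om_add_right]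
  ring

theorem parseval (hn : 0 < n) (f : ℤ → ℝ) :
    ∑ k ∈ range n, F n f (k : ℤ) = mn n (fun j => f j ^ 2) := by
  have hn' : (n : ℂ) ≠ 0 := by exact_mod_cast hn.ne'
  have h1 : (n : ℂ) ^ 2 * ((∑ k ∈ range n, F n f (k : ℤ) : ℝ) : ℂ) =
      ∑ j ∈ range n, (n : ℂ) * ((f (j : ℤ) ^ 2 : ℝ) : ℂ) := by
    rw [Complex.ofReal_sum, mul_sum]
    have e1 : ∀ k ∈ range n, (n : ℂ) ^ 2 * ((F n f (k : ℤ) : ℝ) : ℂ) =
        ∑ j ∈ range n, ∑ l ∈ range n, (f (j : ℤ) : ℂ) * (f (l : ℤ) : ℂ) *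
          om n ((l : ℤ) - (j : ℤ)) (k : ℤ) := by
      intro k _
      rw [F_eq hn]
      refine sum_congr rfl (fun j _ => sum_congr rfl (fun l _ => ?_))
      rw [om_swap]
    rw [sum_congr rfl e1, sum_comm]
    refine sum_congr rfl (fun j hj => ?_)
    rw [sum_comm, sum_eq_single j]
    · rw [← mul_sum, sub_self, sum_om_zero]
      push_cast
      ring
    · intro l hl hne
      rw [← mul_sum, orth hn]
      · ring
      · intro h
        apply hne
        omega
      · rw [mem_range] at hj hl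
        rw [abs_lt]
        constructor <;> omega
    · intro h
      exact absurd hj h
  rw [← Complex.ofReal_inj]
  have h2 : ((∑ k ∈ range n, F n f (k : ℤ) : ℝ) : ℂ) =
      (∑ j ∈ range n, (n : ℂ) * ((f (j : ℤ) ^ 2 : ℝ) : ℂ)) / (n : ℂ) ^ 2 := by
    rw [← h1]
    field_simp
  rw [h2]
  unfold mn
  rw [← mul_sum]
  push_cast
  field_simp

/-- windows -/
theorem bessel (hn : 0 < n) (f : ℤ → ℝ) (r : ℕ) (hr : 2 * r + 1 ≤ n) :
    ∑ k ∈ range (2 * r + 1), F n f ((k : ℤ) - r) ≤ mn n (fun j => f j ^ 2) := by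
  rw [← parseval hn f]
  have h1 : ∑ k ∈ range n, F n f ((k : ℤ) + (-(r : ℤ))) = ∑ k ∈ range n, F n f (k : ℤ) :=
    sum_shift (fun j => F_per hn f j) _
  rw [← h1]
  have h2 : ∑ k ∈ range (2 * r + 1), F n f ((k : ℤ) - r) =
      ∑ k ∈ range (2 * r + 1), F n f ((k : ℤ) + (-(r : ℤ))) :=
    sum_congr rfl (fun k _ => by rw [sub_eq_add_neg])
  rw [h2]
  exact sum_le_sum_of_subset_of_nonneg (range_subset_range.2 hr) (fun k _ _ => F_nonneg f _)

/-- the transforms of the correlation -/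
noncomputable def Q (n : ℕ) (f : ℤ → ℝ) (m : ℤ) : ℂ :=
  ∑ j ∈ range n, ∑ d ∈ range n, (((f ((j : ℤ) + (d : ℤ)) - f (j : ℤ)) ^ 2 : ℝ) : ℂ) *
    om n m (d : ℤ)

theorem Q_eq (hn : 0 < n) (f : ℤ → ℝ) (hf : ∀ j, f (j + n) = f j) (m : ℤ) :
    Q n f m = 2 * (∑ j ∈ range n, ((f (j : ℤ) ^ 2 : ℝ) : ℂ)) * (∑ d ∈ range n, om n m (d : ℤ)) -
      2 * ((n : ℂ) ^ 2 * ((F n f m : ℝ) : ℂ)) := by
  have e1 : ∀ d : ℕ, ∑ j ∈ range n, ((f ((j : ℤ) + (d : ℤ)) ^ 2 : ℝ) : ℂ) =
      ∑ j ∈ range n, ((f (j : ℤ) ^ 2 : ℝ) : ℂ) := fun d =>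
    sum_shift (f := fun j => ((f j ^ 2 : ℝ) : ℂ)) (fun j => by simp only [hf]) (d : ℤ)
  have e2 : ∀ j : ℕ, ∑ d ∈ range n, (f ((j : ℤ) + (d : ℤ)) : ℂ) * om n m (d : ℤ) =
      om n m (-(j : ℤ)) * ∑ l ∈ range n, (f (l : ℤ) : ℂ) * om n m (l : ℤ) := by
    intro j
    have h1 : ∑ l ∈ range n, (f ((l : ℤ) + (j : ℤ)) : ℂ) * om n m ((l : ℤ) + (j : ℤ)) =
        ∑ l ∈ range n, (f (l : ℤ) : ℂ) * om n m (l : ℤ) :=
      sum_shift (f := fun l => (f l : ℂ) * om n m l)
        (fun l => by simp only [hf, om_per hn]) (j : ℤ)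
    rw [← h1, mul_sum]
    refine sum_congr rfl (fun d _ => ?_)
    have h2 : om n m (d : ℤ) = om n m (-(j : ℤ)) * om n m ((d : ℤ) + (j : ℤ)) := by
      rw [← om_add_right]
      congr 1
      ring
    rw [h2, add_comm (j : ℤ) (d : ℤ)]
    ring
  have e3 : (n : ℂ) ^ 2 * ((F n f m : ℝ) : ℂ) = ∑ j ∈ range n, (f (j : ℤ) : ℂ) *
      ∑ d ∈ range n, (f ((j : ℤ) + (d : ℤ)) : ℂ) * om n m (d : ℤ) := by
    rw [F_eq hn]
    refine sum_congr rfl (fun j _ => ?_)
    rw [e2 j, mul_sum, mul_sum]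
    refine sum_congr rfl (fun l _ => ?_)
    have : (l : ℤ) - (j : ℤ) = -(j : ℤ) + (l : ℤ) := by ring
    rw [this, om_add_right]
    ring
  have e4 : Q n f m = ∑ d ∈ range n, om n m (d : ℤ) *
      (∑ j ∈ range n, ((f ((j : ℤ) + (d : ℤ)) ^ 2 : ℝ) : ℂ)) +
      ∑ d ∈ range n, om n m (d : ℤ) * (∑ j ∈ range n, ((f (j : ℤ) ^ 2 : ℝ) : ℂ)) -
      2 * ∑ j ∈ range n, (f (j : ℤ) : ℂ) *
        ∑ d ∈ range n, (f ((j : ℤ) + (d : ℤ)) : ℂ) * om n m (d : ℤ) := by
    unfold Q
    simp only [mul_sum]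
    rw [sum_comm (s := range n) (t := range n)
      (f := fun d j => om n m (d : ℤ) * ((f ((j : ℤ) + (d : ℤ)) ^ 2 : ℝ) : ℂ)),
      sum_comm (s := range n) (t := range n)
      (f := fun d j => om n m (d : ℤ) * ((f (j : ℤ) ^ 2 : ℝ) : ℂ)),
      ← sum_add_distrib, ← sum_sub_distrib]
    refine sum_congr rfl (fun j _ => ?_)
    rw [← sum_add_distrib, ← sum_sub_distrib]
    refine sum_congr rfl (fun d _ => ?_)
    push_cast
    ring
  rw [e4, e3]
  simp only [e1]
  rw [← sum_mul]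
  ring

theorem Q_zero (hn : 0 < n) (f : ℤ → ℝ) (hf : ∀ j, f (j + n) = f j) :
    Q n f 0 = ((2 * (n : ℝ) ^ 2 * (mn n (fun j => f j ^ 2) - F n f 0) : ℝ) : ℂ) := by
  have hn' : (n : ℂ) ≠ 0 := by exact_mod_cast hn.ne'
  rw [Q_eq hn f hf, sum_om_zero]
  unfold mn
  push_cast
  field_simp

theorem Q_ne (hn : 0 < n) (f : ℤ → ℝ) (hf : ∀ j, f (j + n) = f j) (m : ℤ) (hm : m ≠ 0)
    (hm2 : |m| < n) : Q n f m = ((2 * (n : ℝ) ^ 2 * (0 - F n f m) : ℝ) : ℂ) := by
  rw [Q_eq hn f hf, orth hn m hm hm2]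
  push_cast
  ring

theorem cos_pow (n : ℕ) (r d : ℕ) : (((Real.cos (π * d / n)) ^ (2 * r) : ℝ) : ℂ) =
    (∑ k ∈ range (2 * r + 1), ((2 * r).choose k : ℂ) * om n ((k : ℤ) - r) (d : ℤ)) / 4 ^ r := by
  have h1 : ((Real.cos (π * d / n) : ℝ) : ℂ) =
      (Complex.exp (((π * d / n : ℝ) : ℂ) * Complex.I) +
        Complex.exp (-((π * d / n : ℝ) : ℂ) * Complex.I)) / 2 := by
    rw [Complex.ofReal_cos]
    rfl
  rw [Complex.ofReal_pow, h1, div_pow, add_pow]
  have h2 : (2 : ℂ) ^ (2 * r) = 4 ^ r := by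
    rw [pow_mul]
    norm_num
  rw [h2]
  congr 1
  refine sum_congr rfl (fun k hk => ?_)
  rw [mem_range] at hk
  rw [← Complex.exp_nat_mul, ← Complex.exp_nat_mul, ← Complex.exp_add, mul_comm]
  congr 1
  unfold om
  congr 1
  rw [Nat.cast_sub (by omega)]
  push_cast
  ring

theorem choose_mono_half (N k l : ℕ) (hkl : k ≤ l) (hl : 2 * l ≤ N) :
    N.choose k ≤ N.choose l := by
  induction l, hkl using Nat.le_induction with
  | base => exact le_rfl
  | succ l _ ih =>
    exact (ih (by omega)).trans (Nat.choose_le_succ_of_lt_half_left (by omega))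

theorem choose_far (r k : ℕ) (hk : k ≤ 2 * r) (h : k + 2 ≤ r ∨ r + 2 ≤ k) :
    (2 * r).choose k ≤ (2 * r).choose (r + 2) := by
  rcases h with h | h
  · have h1 : (2 * r).choose (r + 2) = (2 * r).choose (r - 2) := by
      rw [← Nat.choose_symm (by omega : r + 2 ≤ 2 * r)]
      congr 1
      omega
    rw [h1]
    exact choose_mono_half _ _ _ (by omega) (by omega)
  · have h1 : (2 * r).choose (r + 2) = (2 * r).choose (r - 2) := by
      rw [← Nat.choose_symm (by omega : r + 2 ≤ 2 * r)]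
      congr 1
      omega
    rw [h1, ← Nat.choose_symm hk]
    exact choose_mono_half _ _ _ (by omega) (by omega)

/-- the estimate for one power of the cosine -/
theorem per_r (hn : 0 < n) (f : ℤ → ℝ) (h0 : ∑ j ∈ range n, f (j : ℤ) = 0) (r : ℕ)
    (hr : 2 * r + 1 ≤ n) :
    ∑ k ∈ range (2 * r + 1), ((2 * r).choose k : ℝ) * F n f ((k : ℤ) - r) ≤
      ((2 * r).choose (r + 1) : ℝ) * (2 * F n f 1) +
        ((2 * r).choose (r + 2) : ℝ) * (mn n (fun j => f j ^ 2) - 2 * F n f 1) := by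
  rcases Nat.eq_zero_or_pos r with rfl | hr0
  · simp [F_zero f h0]
  · have hcc : ((2 * r).choose (r + 2) : ℝ) ≤ ((2 * r).choose (r + 1) : ℝ) := by
      have e1 : (2 * r).choose (r + 1) = (2 * r).choose (r - 1) := by
        rw [← Nat.choose_symm (by omega : r + 1 ≤ 2 * r)]
        congr 1
        omega
      rcases Nat.lt_or_ge r 2 with h | h
      · have hr1 : r = 1 := by omega
        subst hr1
        simp [Nat.choose]
      · have e2 : (2 * r).choose (r + 2) = (2 * r).choose (r - 2) := by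
          rw [← Nat.choose_symm (by omega : r + 2 ≤ 2 * r)]
          congr 1
          omega
        rw [e1, e2]
        exact_mod_cast choose_mono_half _ _ _ (by omega) (by omega)
    have hterm : ∀ k ∈ range (2 * r + 1), ((2 * r).choose k : ℝ) * F n f ((k : ℤ) - r) ≤
        ((2 * r).choose (r + 2) : ℝ) * F n f ((k : ℤ) - r) +
          ((if k = r + 1 then (((2 * r).choose (r + 1) : ℝ) - ((2 * r).choose (r + 2) : ℝ)) *
            F n f 1 else 0) +
          (if k = r - 1 then (((2 * r).choose (r + 1) : ℝ) - ((2 * r).choose (r + 2) : ℝ)) *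
            F n f 1 else 0)) := by
      intro k hk
      rw [mem_range] at hk
      by_cases h1 : k = r + 1
      · have h2 : k ≠ r - 1 := by omega
        rw [if_pos h1, if_neg h2, h1]
        have : (((r + 1 : ℕ) : ℤ) - (r : ℤ)) = 1 := by
          push_cast
          ring
        rw [this]
        apply le_of_eq
        ring
      · by_cases h2 : k = r - 1
        · rw [if_neg h1, if_pos h2, h2]
          have e1 : (2 * r).choose (r - 1) = (2 * r).choose (r + 1) := by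
            rw [← Nat.choose_symm (by omega : r + 1 ≤ 2 * r)]
            congr 1
            omega
          have : (((r - 1 : ℕ) : ℤ) - (r : ℤ)) = -1 := by
            rw [Nat.cast_sub hr0]
            push_cast
            ring
          rw [this, F_neg, e1]
          apply le_of_eq
          ring
        · rw [if_neg h1, if_neg h2, add_zero, add_zero]
          by_cases h3 : k = r
          · rw [h3, sub_self, F_zero f h0]
            simp
          · have h4 : (2 * r).choose k ≤ (2 * r).choose (r + 2) :=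
              choose_far r k (by omega) (by omega)
            exact mul_le_mul_of_nonneg_right (by exact_mod_cast h4) (F_nonneg f _)
    calc ∑ k ∈ range (2 * r + 1), ((2 * r).choose k : ℝ) * F n f ((k : ℤ) - r)
        ≤ ∑ k ∈ range (2 * r + 1), (((2 * r).choose (r + 2) : ℝ) * F n f ((k : ℤ) - r) +
          ((if k = r + 1 then (((2 * r).choose (r + 1) : ℝ) - ((2 * r).choose (r + 2) : ℝ)) *
            F n f 1 else 0) +
          (if k = r - 1 then (((2 * r).choose (r + 1) : ℝ) - ((2 * r).choose (r + 2) : ℝ)) *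
            F n f 1 else 0))) := sum_le_sum hterm
      _ = ((2 * r).choose (r + 2) : ℝ) * ∑ k ∈ range (2 * r + 1), F n f ((k : ℤ) - r) +
          2 * ((((2 * r).choose (r + 1) : ℝ) - ((2 * r).choose (r + 2) : ℝ)) * F n f 1) := by
        rw [sum_add_distrib, sum_add_distrib, ← mul_sum, sum_ite_eq', sum_ite_eq',
          if_pos (mem_range.2 (by omega)), if_pos (mem_range.2 (by omega))]
        ring
      _ ≤ ((2 * r).choose (r + 2) : ℝ) * mn n (fun j => f j ^ 2) +
          2 * ((((2 * r).choose (r + 1) : ℝ) - ((2 * r).choose (r + 2) : ℝ)) * F n f 1) := by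
        have := mul_le_mul_of_nonneg_left (bessel hn f r hr)
          (Nat.cast_nonneg (α := ℝ) ((2 * r).choose (r + 2)))
        linarith
      _ = _ := by ring

/-- the sums of the coefficients -/
theorem id1 (M : ℕ) : ∑ r ∈ range M, (((2 * r).choose r : ℝ) - ((2 * r).choose (r + 1) : ℝ)) / 4 ^ r =
    2 - 2 * (Nat.centralBinom M : ℝ) / 4 ^ M := by
  induction M with
  | zero => simp
  | succ M ih =>
    rw [sum_range_succ, ih]
    have h1 : Nat.centralBinom (M + 1) = 2 * (2 * M).choose M + 2 * (2 * M).choose (M + 1) := by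
      rw [Nat.centralBinom_eq_two_mul_choose]
      have e : 2 * (M + 1) = 2 * M + 1 + 1 := by ring
      rw [e, Nat.choose_succ_succ, Nat.choose_succ_succ, ← Nat.choose_symm_half M]
      rw [Nat.choose_succ_succ (2 * M) M]
      ring
    rw [h1, Nat.centralBinom_eq_two_mul_choose, pow_succ]
    push_cast
    have h4 : (4 : ℝ) ^ M ≠ 0 := by positivity
    field_simp
    ring

theorem id2 (M : ℕ) : ∑ r ∈ range M, (((2 * r).choose r : ℝ) - ((2 * r).choose (r + 2) : ℝ)) / 4 ^ r =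
    4 - 8 * (Nat.centralBinom (M + 1) : ℝ) / 4 ^ (M + 1) := by
  induction M with
  | zero =>
    have : Nat.centralBinom 1 = 2 := by decide
    rw [this]
    norm_num
  | succ M ih =>
    rw [sum_range_succ, ih]
    have sym : (2 * M + 1).choose M = (2 * M + 1).choose (M + 1) := (Nat.choose_symm_half M).symm
    have h1 : Nat.centralBinom (M + 1) = 2 * (2 * M).choose M + 2 * (2 * M).choose (M + 1) := by
      rw [Nat.centralBinom_eq_two_mul_choose]
      have e : 2 * (M + 1) = 2 * M + 1 + 1 := by ring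
      rw [e, Nat.choose_succ_succ, Nat.choose_succ_succ, sym]
      rw [Nat.choose_succ_succ (2 * M) M]
      ring
    have h2 : Nat.centralBinom (M + 1 + 1) = 2 * Nat.centralBinom (M + 1) +
        2 * ((2 * M).choose M + 2 * (2 * M).choose (M + 1) + (2 * M).choose (M + 2)) := by
      have sym2 : (2 * (M + 1) + 1).choose (M + 1) = (2 * (M + 1) + 1).choose (M + 1 + 1) :=
        (Nat.choose_symm_half (M + 1)).symm
      have e3 : (2 * (M + 1) + 1).choose (M + 1 + 1) = Nat.centralBinom (M + 1) +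
          ((2 * M).choose M + 2 * (2 * M).choose (M + 1) + (2 * M).choose (M + 2)) := by
        rw [Nat.choose_succ_succ, Nat.centralBinom_eq_two_mul_choose]
        congr 1
        have e : 2 * (M + 1) = 2 * M + 1 + 1 := by ring
        rw [e, Nat.choose_succ_succ, Nat.choose_succ_succ, Nat.choose_succ_succ]
        ring
      rw [Nat.centralBinom_eq_two_mul_choose (M + 1 + 1)]
      have e : 2 * (M + 1 + 1) = 2 * (M + 1) + 1 + 1 := by ring
      rw [e, Nat.choose_succ_succ, sym2, e3]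
      ring
    rw [h2, h1, pow_succ, pow_succ]
    push_cast
    have h4 : (4 : ℝ) ^ M ≠ 0 := by positivity
    field_simp
    ring

end M_SPEC

open M_SPEC in
theorem m_SPEC : Stmt_SPEC := by
  intro M n f hM hMn hf h0
  have hn : 0 < n := by omega
  set A : ℝ := mn n (fun j => f j ^ 2) with hA
  -- the right side
  have hR : ∑ j ∈ range n, ∑ d ∈ Ico 1 n, (f ((j : ℤ) + (d : ℤ)) - f (j : ℤ)) ^ 2 *
      ∑ r ∈ range M, Real.cos (π * d / n) ^ (2 * r) =
      ∑ r ∈ range M, (2 * (n : ℝ) ^ 2 * (((2 * r).choose r : ℝ) * A -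
        ∑ k ∈ range (2 * r + 1), ((2 * r).choose k : ℝ) * F n f ((k : ℤ) - r))) / 4 ^ r := by
    have s1 : ∑ j ∈ range n, ∑ d ∈ Ico 1 n, (f ((j : ℤ) + (d : ℤ)) - f (j : ℤ)) ^ 2 *
        ∑ r ∈ range M, Real.cos (π * d / n) ^ (2 * r) =
        ∑ j ∈ range n, ∑ d ∈ range n, (f ((j : ℤ) + (d : ℤ)) - f (j : ℤ)) ^ 2 *
        ∑ r ∈ range M, Real.cos (π * d / n) ^ (2 * r) := by
      refine sum_congr rfl (fun j _ => ?_)
      rw [sum_range_eq_add_Ico _ hn]
      simp
    have s2 : ∑ j ∈ range n, ∑ d ∈ range n, (f ((j : ℤ) + (d : ℤ)) - f (j : ℤ)) ^ 2 *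
        ∑ r ∈ range M, Real.cos (π * d / n) ^ (2 * r) =
        ∑ r ∈ range M, ∑ j ∈ range n, ∑ d ∈ range n, (f ((j : ℤ) + (d : ℤ)) - f (j : ℤ)) ^ 2 *
          Real.cos (π * d / n) ^ (2 * r) := by
      simp only [mul_sum]
      rw [sum_comm (s := range M)]
      refine sum_congr rfl (fun j _ => ?_)
      rw [sum_comm]
    rw [s1, s2]
    refine sum_congr rfl (fun r hr => ?_)
    rw [mem_range] at hr
    rw [← Complex.ofReal_inj]
    have s3 : ((∑ j ∈ range n, ∑ d ∈ range n, (f ((j : ℤ) + (d : ℤ)) - f (j : ℤ)) ^ 2 *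
        Real.cos (π * d / n) ^ (2 * r) : ℝ) : ℂ) =
        (∑ k ∈ range (2 * r + 1), ((2 * r).choose k : ℂ) * Q n f ((k : ℤ) - r)) / 4 ^ r := by
      rw [Complex.ofReal_sum]
      have t1 : ∀ j ∈ range n, ((∑ d ∈ range n, (f ((j : ℤ) + (d : ℤ)) - f (j : ℤ)) ^ 2 *
          Real.cos (π * d / n) ^ (2 * r) : ℝ) : ℂ) =
          (∑ k ∈ range (2 * r + 1), ((2 * r).choose k : ℂ) *
            ∑ d ∈ range n, (((f ((j : ℤ) + (d : ℤ)) - f (j : ℤ)) ^ 2 : ℝ) : ℂ) *
              om n ((k : ℤ) - r) (d : ℤ)) / 4 ^ r := by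
        intro j _
        rw [Complex.ofReal_sum]
        simp only [mul_sum]
        rw [sum_comm, sum_div]
        refine sum_congr rfl (fun d _ => ?_)
        rw [Complex.ofReal_mul, cos_pow, mul_div_assoc', mul_sum]
        congr 1
        refine sum_congr rfl (fun k _ => ?_)
        ring
      rw [sum_congr rfl t1, ← sum_div, sum_comm]
      unfold Q
      simp only [mul_sum]
    rw [s3]
    have s4 : ∀ k ∈ range (2 * r + 1), ((2 * r).choose k : ℂ) * Q n f ((k : ℤ) - r) =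
        (((2 * r).choose k : ℝ) * (2 * (n : ℝ) ^ 2 * ((if k = r then A else 0) -
          F n f ((k : ℤ) - r))) : ℝ) := by
      intro k hk
      rw [mem_range] at hk
      by_cases hkr : k = r
      · rw [if_pos hkr, hkr, sub_self, Q_zero hn f hf]
        push_cast
        ring
      · rw [if_neg hkr, Q_ne hn f hf]
        · push_cast
          ring
        · omega
        · rw [abs_lt]
          constructor <;> omega
    rw [sum_congr rfl s4, ← Complex.ofReal_sum]
    have s5 : ∑ k ∈ range (2 * r + 1), ((2 * r).choose k : ℝ) * (2 * (n : ℝ) ^ 2 *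
        ((if k = r then A else 0) - F n f ((k : ℤ) - r))) =
        2 * (n : ℝ) ^ 2 * (((2 * r).choose r : ℝ) * A -
        ∑ k ∈ range (2 * r + 1), ((2 * r).choose k : ℝ) * F n f ((k : ℤ) - r)) := by
      have t2 : ∀ k ∈ range (2 * r + 1), ((2 * r).choose k : ℝ) * (2 * (n : ℝ) ^ 2 *
          ((if k = r then A else 0) - F n f ((k : ℤ) - r))) =
          (if k = r then 2 * (n : ℝ) ^ 2 * (((2 * r).choose r : ℝ) * A) else 0) -
          2 * (n : ℝ) ^ 2 * (((2 * r).choose k : ℝ) * F n f ((k : ℤ) - r)) := by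
        intro k _
        by_cases hkr : k = r
        · rw [if_pos hkr, if_pos hkr, hkr]
          ring
        · rw [if_neg hkr, if_neg hkr]
          ring
      rw [sum_congr rfl t2, sum_sub_distrib, sum_ite_eq', if_pos (mem_range.2 (by omega)),
        ← mul_sum]
      ring
    rw [s5]
    push_cast
    rfl
  rw [hR]
  have hF1 : ‖dr n f 1‖ ^ 2 = F n f 1 := rfl
  rw [hF1, ← id1, ← id2]
  have hn2 : (0 : ℝ) ≤ 2 * (n : ℝ) ^ 2 := by positivity
  calc 2 * (n : ℝ) ^ 2 *
      ((∑ r ∈ range M, (((2 * r).choose r : ℝ) - ((2 * r).choose (r + 1) : ℝ)) / 4 ^ r) *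
        (2 * F n f 1) +
      (∑ r ∈ range M, (((2 * r).choose r : ℝ) - ((2 * r).choose (r + 2) : ℝ)) / 4 ^ r) *
        (A - 2 * F n f 1))
      = ∑ r ∈ range M, (2 * (n : ℝ) ^ 2 * (((2 * r).choose r : ℝ) * A -
        (((2 * r).choose (r + 1) : ℝ) * (2 * F n f 1) +
        ((2 * r).choose (r + 2) : ℝ) * (A - 2 * F n f 1)))) / 4 ^ r := by
        rw [sum_mul, sum_mul, ← sum_add_distrib, mul_sum]
        refine sum_congr rfl (fun r _ => ?_)
        ring
    _ ≤ _ := by
      refine sum_le_sum (fun r hr => ?_)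
      rw [mem_range] at hr
      have := per_r hn f h0 r (by omega)
      gcongr

end Pool.Agent.EHP
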