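import Pool.Agent.EHP.Stmts2
import Pool.Agent.EHP.MDDLB

/-!
# Square summability of the slopes: `Stmt_SSUM`
-/

open Finset
open scoped Real ComplexConjugate

namespace Pool.Agent.EHP

namespace M_SSUM

theorem nice_mono {n : ℕ} {ε ε' : ℝ} {c : Cfg n} (h : Nice n ε c) (he : ε ≤ ε') : Nice n ε' c :=
  ⟨h.opt, h.cent, h.rot, fun j => (h.hρ j).trans he, fun j => (h.hφ j).trans he,
    fun i j => (h.slope i j).trans (mul_le_mul_of_nonneg_right he (abs_nonneg _))⟩

/-- half of the angle differences lie in `(0, π)` -/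
theorem X_mem {n : ℕ} (c : Cfg n) (j : ℤ) {d : ℕ} (hd : d ∈ Ico 1 n) :
    0 < c.X (j + (d : ℤ)) j ∧ c.X (j + (d : ℤ)) j < π := by
  obtain ⟨h1, h2⟩ := Finset.mem_Ico.1 hd
  have h3 : c.θ j < c.θ (j + (d : ℤ)) := c.mono (by omega)
  have h4 : c.θ (j + (d : ℤ)) < c.θ (j + n) := c.mono (by omega)
  rw [c.θ_add] at h4
  unfold Cfg.X
  constructor <;> linarith

theorem a_mem {n d : ℕ} (hd : d ∈ Ico 1 n) : 0 < π * d / n ∧ π * d / n < π := by
  obtain ⟨h1, h2⟩ := Finset.mem_Ico.1 hd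
  have h1' : (0 : ℝ) < d := by exact_mod_cast h1
  have h2' : (d : ℝ) < (n : ℝ) := by exact_mod_cast h2
  have hn : (0 : ℝ) < n := h1'.trans h2'
  constructor
  · have := Real.pi_pos
    positivity
  · rw [div_lt_iff₀ hn]
    exact mul_lt_mul_of_pos_left h2' Real.pi_pos

theorem partner {n : ℕ} {ε : ℝ} {c : Cfg n} (hcut : Stmt_CUT) (hn : 2 ≤ n) (hc : Nice n ε c)
    (j : ℤ) : ∃ l : ℤ, ‖c.z j - c.z l‖ = 2 := by
  obtain ⟨a, ha, b, _, hab⟩ := hcut n c.z (by omega) hc.opt {m : ℤ | (n : ℤ) ∣ m - j} (by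
    intro m
    simp only [Set.mem_ofPred_eq]
    have e : m + (n : ℤ) - j = (m - j) + n := by ring
    rw [e]
    exact dvd_add_self_right) ⟨j, by simp⟩ ⟨j + 1, by
      simp only [Set.mem_ofPred_eq, add_sub_cancel_left]
      intro h
      have := Int.le_of_dvd one_pos h
      omega⟩
  refine ⟨b, ?_⟩
  have : c.z a = c.z j := per_dvd c.z_add ha
  rw [← this]
  exact hab

/-- small gaps cost energy -/
theorem dd_tiny {a X : ℝ} (ha : 0 < a) (ha1 : a ≤ 1 / 2) (hX : 0 < X) (hX1 : X ≤ a / 2) :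
    1 / 10 ≤ DD a X := by
  have hsa : 0 < Real.sin a := Real.sin_pos_of_pos_of_lt_pi ha (by linarith [Real.pi_gt_three])
  have hsX : 0 < Real.sin X := Real.sin_pos_of_pos_of_lt_pi hX (by linarith [Real.pi_gt_three])
  have h1 : Real.sin X ≤ X := (Real.sin_lt hX).le
  have h2 : a - a ^ 3 / 6 < Real.sin a := Real.sin_gt_sub_cube ha
  have h3 : 15 / 16 * a ≤ Real.sin a := by
    have : a ^ 2 ≤ 1 / 4 := by nlinarith
    nlinarith
  have h4 : Real.log (Real.sin X / Real.sin a) ≤ 2 * (X / a) - 1 - Real.log (15 / 8) := by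
    have e1 : Real.sin X / Real.sin a ≤ (2 * (X / a)) / (15 / 8) := by
      rw [div_le_iff₀ hsa]
      have e2 : 2 * (X / a) / (15 / 8) * (15 / 16 * a) = X := by
        field_simp
        norm_num
      calc Real.sin X ≤ X := h1
        _ = 2 * (X / a) / (15 / 8) * (15 / 16 * a) := e2.symm
        _ ≤ 2 * (X / a) / (15 / 8) * Real.sin a := by gcongr
    have e3 : Real.log (Real.sin X / Real.sin a) ≤ Real.log (2 * (X / a) / (15 / 8)) :=
      Real.log_le_log (by positivity) e1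
    have e5 : Real.log (2 * (X / a) / (15 / 8)) = Real.log (2 * (X / a)) - Real.log (15 / 8) :=
      Real.log_div (by positivity) (by norm_num)
    rw [e5] at e3
    have e4 : Real.log (2 * (X / a)) ≤ 2 * (X / a) - 1 := Real.log_le_sub_one_of_pos (by positivity)
    linarith
  have h5 : (6 : ℝ) / 10 ≤ Real.log (15 / 8) := by
    rw [Real.le_log_iff_exp_le (by norm_num)]
    by_contra h
    rw [not_le] at h
    have h6 : ((15 : ℝ) / 8) ^ 5 ≤ Real.exp (6 / 10) ^ 5 := pow_le_pow_left₀ (by norm_num) h.le 5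
    have h7 : Real.exp (6 / 10) ^ 5 = Real.exp 1 ^ 3 := by
      rw [← Real.exp_nat_mul, ← Real.exp_nat_mul]
      norm_num
    have h8 : Real.exp 1 ^ 3 ≤ 2.7182818286 ^ 3 :=
      pow_le_pow_left₀ (Real.exp_pos _).le Real.exp_one_lt_d9.le 3
    rw [h7] at h6
    norm_num at h6 h8
    linarith
  have h6 : Real.cos a / Real.sin a ≤ 1 / a := by
    have hca : 0 < Real.cos a := Real.cos_pos_of_mem_Ioo ⟨by linarith [Real.pi_gt_three],
      by linarith [Real.pi_gt_three]⟩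
    have h7 : a < Real.tan a := Real.lt_tan ha (by linarith [Real.pi_gt_three])
    rw [Real.tan_eq_sin_div_cos, lt_div_iff₀ hca] at h7
    rw [div_le_div_iff₀ hsa ha]
    linarith
  have h7 : -(1 - X / a) ≤ (X - a) * (Real.cos a / Real.sin a) := by
    have e1 : (a - X) * (Real.cos a / Real.sin a) ≤ (a - X) * (1 / a) :=
      mul_le_mul_of_nonneg_left h6 (by linarith)
    have e2 : (a - X) * (1 / a) = 1 - X / a := by field_simp
    linarith
  have h8 : X / a ≤ 1 / 2 := by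
    rw [div_le_iff₀ ha]
    linarith
  unfold DD
  linarith

theorem S_bounds {n : ℕ} (hn : 2 ≤ n) (hna : π / n ≤ 1 / 2) (c : Cfg n) {K : ℝ}
    (hE : Eφ c ≤ K) :
    ∑ j ∈ range n, (if c.y (j : ℤ) < -1 / 2 then (1 : ℝ) else 0) ≤ 10 * K := by
  have hn0 : (0 : ℝ) < n := by
    have : 0 < n := by omega
    exact_mod_cast this
  have h1 : ∑ j ∈ range n, (if c.y (j : ℤ) < -1 / 2 then (1 : ℝ) else 0) / 10 ≤ Eφ c := by
    unfold Eφ
    apply Finset.sum_le_sum
    intro j _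
    have h2 : DD (π * (1 : ℕ) / n) (c.X ((j : ℤ) + ((1 : ℕ) : ℤ)) (j : ℤ)) ≤
        ∑ d ∈ Ico 1 n, DD (π * d / n) (c.X ((j : ℤ) + (d : ℤ)) (j : ℤ)) := by
      apply Finset.single_le_sum (f := fun d : ℕ => DD (π * d / n) (c.X ((j : ℤ) + (d : ℤ)) (j : ℤ)))
      · intro d hd
        have h3 := m_DDLB _ _ (a_mem hd).1 (a_mem hd).2 (X_mem c j hd).1 (X_mem c j hd).2
        have h4 := sq_nonneg (c.X ((j : ℤ) + (d : ℤ)) (j : ℤ) - π * d / n)
        linarith
      · rw [Finset.mem_Ico]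
        omega
    refine le_trans ?_ h2
    have h1m : (1 : ℕ) ∈ Ico 1 n := by rw [Finset.mem_Ico]; omega
    split_ifs with hy
    · apply dd_tiny (a_mem h1m).1 (by simpa using hna) (X_mem c j h1m).1
      have e1 : c.X ((j : ℤ) + ((1 : ℕ) : ℤ)) (j : ℤ) = c.g (j : ℤ) / 2 := by
        unfold Cfg.X Cfg.g
        push_cast
        rfl
      rw [e1, c.g_eq (by omega)]
      have e2 : 2 * π / n * (1 + c.y (j : ℤ)) ≤ 2 * π / n * (1 / 2) := by
        apply mul_le_mul_of_nonneg_left (by linarith)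
        have := Real.pi_pos
        positivity
      have e3 : 2 * π / n * (1 / 2) / 2 = π * (1 : ℕ) / n / 2 := by
        push_cast
        field_simp
      linarith
    · have h3 := m_DDLB _ _ (a_mem h1m).1 (a_mem h1m).2 (X_mem c j h1m).1 (X_mem c j h1m).2
      have h4 := sq_nonneg (c.X ((j : ℤ) + ((1 : ℕ) : ℤ)) (j : ℤ) - π * (1 : ℕ) / n)
      linarith
  rw [← Finset.sum_div] at h1
  linarith

/-- There is an index which is not tiny among `M` consecutive ones. -/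
theorem exists_big {n M : ℕ} (c : Cfg n) (hM : M ≤ n) {K : ℝ}
    (hT : ∑ j ∈ range n, (if c.y (j : ℤ) < -1 / 2 then (1 : ℝ) else 0) ≤ K) (hK : K < M) (j : ℤ) :
    ∃ i ∈ range M, ¬ c.y (j + (i : ℤ)) < -1 / 2 := by
  by_contra h
  push Not at h
  have h1 := sum_shift (n := n) (f := fun i : ℤ => if c.y i < -1 / 2 then (1 : ℝ) else 0)
    (fun i => by simp only [c.y_add]) j
  have h2 : (M : ℝ) ≤ ∑ i ∈ range n, (if c.y ((i : ℤ) + j) < -1 / 2 then (1 : ℝ) else 0) := by
    calc (M : ℝ) = ∑ i ∈ range M, (if c.y ((i : ℤ) + j) < -1 / 2 then (1 : ℝ) else 0) := by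
          rw [Finset.sum_congr rfl (fun i hi => by
            rw [if_pos (by rw [add_comm]; exact h i hi)])]
          simp
      _ ≤ _ := by
          apply Finset.sum_le_sum_of_subset_of_nonneg
          · intro i hi
            simp only [Finset.mem_range] at *
            omega
          · intro i _ _
            split_ifs <;> norm_num
  rw [h1] at h2
  linarith

theorem steps {s : ℤ → ℝ} {A : ℝ} (hA : ∀ v, s (v + 1) ≤ s v + A) (v : ℤ) (m : ℕ) :
    s (v + m) ≤ s v + m * A := by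
  induction m with
  | zero => simp
  | succ k ih =>
    have h1 := hA (v + k)
    have e : v + ((k + 1 : ℕ) : ℤ) = v + k + 1 := by push_cast; ring
    rw [e]
    push_cast
    linarith

end M_SSUM

open M_SSUM in
theorem m_SSUM : Stmt_APRI → Stmt_BIGGAP → Stmt_CUT → Stmt_TAN → Stmt_SSUM := by
  rintro ⟨K₀, ε₁, hε₁, n₁, hA⟩ ⟨ε₂, hε₂, n₂, hB⟩ hcut ⟨ε₃, hε₃, n₃, hT⟩
  obtain ⟨K₁, hK₁, hK₀⟩ : ∃ K₁ : ℝ, 1 ≤ K₁ ∧ K₀ ≤ K₁ := ⟨max K₀ 1, le_max_right _ _, le_max_left _ _⟩
  obtain ⟨M, hM⟩ : ∃ M : ℕ, 10 * K₁ < M := exists_nat_gt _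
  obtain ⟨G, hGdef⟩ : ∃ G : ℝ, G = 2 * π * (3 + 40 * K₁) := ⟨_, rfl⟩
  have hG : 0 < G := by
    rw [hGdef]
    have := Real.pi_pos
    positivity
  obtain ⟨B, hBdef⟩ : ∃ B : ℝ, B = Real.sqrt K₁ + M * (2 * G) := ⟨_, rfl⟩
  have hB0 : 0 < B := by
    rw [hBdef]
    have : 0 < Real.sqrt K₁ := Real.sqrt_pos.2 (by linarith)
    positivity
  obtain ⟨n₄, hn₄⟩ : ∃ n₄ : ℕ, (10 * (B + G)) ^ 2 < n₄ := exists_nat_gt _
  refine ⟨K₁ + 10 * K₁ * B ^ 2 + G ^ 2, min ε₁ (min ε₂ ε₃), lt_min hε₁ (lt_min hε₂ hε₃),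
    n₁ + n₂ + n₃ + n₄ + M + 10, ?_⟩
  intro n hn c hc
  have hc₁ : Nice n ε₁ c := nice_mono hc (min_le_left _ _)
  have hc₂ : Nice n ε₂ c := nice_mono hc ((min_le_right _ _).trans (min_le_left _ _))
  have hc₃ : Nice n ε₃ c := nice_mono hc ((min_le_right _ _).trans (min_le_right _ _))
  obtain ⟨hS, hE⟩ := hA n (by omega) c hc₁
  have hG2 := hB n (by omega) c hc₂
  have hT2 := hT n (by omega) c hc₃
  have hnpos : 0 < n := by omega
  have hn0 : (0 : ℝ) < n := by exact_mod_cast hnpos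
  have hn10 : (10 : ℝ) ≤ n := by
    have : 10 ≤ n := by omega
    exact_mod_cast this
  have hπ := Real.pi_pos
  -- the basic bounds
  have hE1 : Eφ c ≤ K₁ := hE.trans hK₀
  have hS1 : (n : ℝ) ^ 2 * c.S ≤ K₁ := by
    have e1 : 0 ≤ mn n (fun j => c.ρ j ^ 2) := by unfold mn; positivity
    have e2 : 0 ≤ mn n (fun j => c.φ j ^ 2) := by unfold mn; positivity
    have e3 : (n : ℝ) ^ 2 * c.S ≤ (n : ℝ) ^ 2 *
        (c.S + mn n (fun j => c.ρ j ^ 2) + mn n (fun j => c.φ j ^ 2)) := by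
      apply mul_le_mul_of_nonneg_left _ (by positivity)
      linarith
    linarith
  have hy : ∀ j, c.y j ≤ 2 + 40 * K₁ := by
    intro j
    rw [← per_mod c.y_add j]
    have hj0 := Int.emod_nonneg j (by omega : (n : ℤ) ≠ 0)
    have hj1 := Int.emod_lt_of_pos j (by omega : (0 : ℤ) < (n : ℤ))
    obtain ⟨i, hi⟩ := Int.eq_ofNat_of_zero_le hj0
    rw [hi] at hj1 ⊢
    have hin : i < n := by exact_mod_cast hj1
    by_contra h
    rw [not_le] at h
    have h2 : (2 : ℝ) ≤ c.y (i : ℤ) := by linarith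
    have h3 : (if 2 ≤ c.y (i : ℤ) then c.y (i : ℤ) ^ 2 else 0) ≤
        ∑ j ∈ range n, (if 2 ≤ c.y (j : ℤ) then c.y (j : ℤ) ^ 2 else 0) := by
      apply Finset.single_le_sum (f := fun j : ℕ =>
        if 2 ≤ c.y (j : ℤ) then c.y (j : ℤ) ^ 2 else 0)
      · intro d _
        split_ifs
        · positivity
        · exact le_refl _
      · rw [Finset.mem_range]
        exact hin
    rw [if_pos h2] at h3
    have h4 : c.y (i : ℤ) ^ 2 ≤ 40 * K₁ := by linarith
    nlinarith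
  have hg : ∀ j, c.g j ≤ G / n := by
    intro j
    rw [c.g_eq hnpos, hGdef]
    have e1 : 2 * π / n * (1 + c.y j) ≤ 2 * π / n * (3 + 40 * K₁) := by
      apply mul_le_mul_of_nonneg_left
      · linarith [hy j]
      · positivity
    have e2 : 2 * π / n * (3 + 40 * K₁) = 2 * π * (3 + 40 * K₁) / n := by ring
    linarith
  have hna : π / n ≤ 1 / 2 := by
    rw [div_le_iff₀ hn0]
    linarith [Real.pi_lt_four]
  have hTiny := S_bounds (by omega) hna c hE1
  -- slopes of the indices which are not tiny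
  have hbig1 : ∀ j, ¬ c.y j < -1 / 2 → c.s j ^ 2 ≤ n / π * (c.Δ j ^ 2 / c.g j) := by
    intro j hj
    rw [not_lt] at hj
    have h1 := c.g_pos j
    have h2 : π / n ≤ c.g j := by
      rw [c.g_eq hnpos]
      have e1 : 2 * π / n * (1 / 2) ≤ 2 * π / n * (1 + c.y j) := by
        apply mul_le_mul_of_nonneg_left
        · linarith
        · positivity
      have e2 : 2 * π / n * (1 / 2) = π / n := by ring
      linarith
    have e1 : c.Δ j ^ 2 / c.g j = c.s j ^ 2 * c.g j := by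
      unfold Cfg.s
      field_simp
    rw [e1]
    have e2 : c.s j ^ 2 = n / π * (c.s j ^ 2 * (π / n)) := by
      field_simp
    calc c.s j ^ 2 = n / π * (c.s j ^ 2 * (π / n)) := e2
      _ ≤ n / π * (c.s j ^ 2 * c.g j) := by gcongr
  have hSj : ∀ j, c.Δ j ^ 2 / c.g j ≤ c.S := by
    intro j
    have hper : ∀ i, c.Δ (i + n) ^ 2 / c.g (i + n) = c.Δ i ^ 2 / c.g i := by
      intro i
      rw [c.Δ_add, c.g_add]
    have h0 : c.Δ (j % n) ^ 2 / c.g (j % n) = c.Δ j ^ 2 / c.g j :=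
      per_mod (f := fun i => c.Δ i ^ 2 / c.g i) hper j
    rw [← h0]
    have hj0 := Int.emod_nonneg j (by omega : (n : ℤ) ≠ 0)
    have hj1 := Int.emod_lt_of_pos j (by omega : (0 : ℤ) < (n : ℤ))
    obtain ⟨i, hi⟩ := Int.eq_ofNat_of_zero_le hj0
    rw [hi] at hj1 ⊢
    have hin : i < n := by exact_mod_cast hj1
    unfold Cfg.S
    apply Finset.single_le_sum (f := fun j : ℕ => c.Δ (j : ℤ) ^ 2 / c.g (j : ℤ))
    · intro d _
      have := c.g_pos d
      positivity
    · rw [Finset.mem_range]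
      exact hin
  have hS2 : n / π * c.S ≤ K₁ / n := by
    rw [le_div_iff₀ hn0]
    have e1 : n / π * c.S * n = (n : ℝ) ^ 2 * c.S / π := by ring
    rw [e1, div_le_iff₀ hπ]
    have e2 : K₁ * 1 ≤ K₁ * π := by
      apply mul_le_mul_of_nonneg_left
      · linarith [Real.pi_gt_three]
      · linarith
    linarith
  have hsq : 0 < Real.sqrt n := Real.sqrt_pos.2 hn0
  have hsqn : Real.sqrt n ^ 2 = n := Real.sq_sqrt hn0.le
  have hbig2 : ∀ j, ¬ c.y j < -1 / 2 → |c.s j| ≤ Real.sqrt K₁ / Real.sqrt n := by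
    intro j hj
    rw [← Real.sqrt_div (by linarith)]
    apply Real.abs_le_sqrt
    calc c.s j ^ 2 ≤ n / π * (c.Δ j ^ 2 / c.g j) := hbig1 j hj
      _ ≤ n / π * c.S := by
          apply mul_le_mul_of_nonneg_left (hSj j)
          positivity
      _ ≤ K₁ / n := hS2
  -- one step
  have hstep : ∀ v, c.s (v + 1) ≤ c.s v + 2 * G / n := by
    intro v
    obtain ⟨l, hl⟩ := partner hcut (by omega) hc (v + 1)
    obtain ⟨h1, h2, h3⟩ := hT2 (v + 1) l hl
    have e : v + 1 - 1 = v := by ring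
    rw [e] at h2
    have h4 : -(c.s v + c.g v) ≤ -c.s (v + 1) + c.g (v + 1) :=
      le_of_mul_le_mul_right (h2.trans h3) h1
    have h5 := hg v
    have h6 := hg (v + 1)
    have e2 : 2 * G / n = G / n + G / n := by ring
    linarith
  have hnsq : 1 / (n : ℝ) ≤ 1 / Real.sqrt n := by
    apply one_div_le_one_div_of_le hsq
    have : (1 : ℝ) ≤ Real.sqrt n := by
      rw [Real.one_le_sqrt]
      linarith
    nlinarith
  have hMstep : ∀ m : ℕ, m ≤ M → (m : ℝ) * (2 * G / n) ≤ M * (2 * G) / Real.sqrt n := by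
    intro m hm
    have hm' : (m : ℝ) ≤ M := by exact_mod_cast hm
    calc (m : ℝ) * (2 * G / n) ≤ M * (2 * G / n) := by gcongr
      _ = M * (2 * G) * (1 / n) := by ring
      _ ≤ M * (2 * G) * (1 / Real.sqrt n) := by gcongr
      _ = M * (2 * G) / Real.sqrt n := by ring
  have hsall : ∀ j, |c.s j| ≤ B / Real.sqrt n := by
    intro j
    have eB : B / Real.sqrt n = Real.sqrt K₁ / Real.sqrt n + M * (2 * G) / Real.sqrt n := by
      rw [hBdef, add_div]
    rw [eB, abs_le]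
    have hMn : M ≤ n := by omega
    constructor
    · obtain ⟨i, hi, hi2⟩ := exists_big c hMn hTiny hM j
      rw [Finset.mem_range] at hi
      have h1 := steps hstep j i
      have h2 := (abs_le.1 (hbig2 _ hi2)).1
      have h3 := hMstep i hi.le
      linarith
    · obtain ⟨i, hi, hi2⟩ := exists_big c hMn hTiny hM (j - M)
      rw [Finset.mem_range] at hi
      have h1 := steps hstep (j - M + i) (M - i)
      have e1 : j - M + i + ((M - i : ℕ) : ℤ) = j := by
        rw [Nat.cast_sub hi.le]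
        ring
      rw [e1] at h1
      have h2 := (abs_le.1 (hbig2 _ hi2)).2
      have h3 := hMstep (M - i) (Nat.sub_le _ _)
      linarith
  have hs2 : ∀ j, c.s j ^ 2 ≤ B ^ 2 / n := by
    intro j
    have h1 := pow_le_pow_left₀ (abs_nonneg _) (hsall j) 2
    rw [sq_abs, div_pow, hsqn] at h1
    exact h1
  refine ⟨?_, ?_, ?_⟩
  · have h1 : ∑ j ∈ range n, c.s (j : ℤ) ^ 2 ≤ ∑ j ∈ range n,
        ((if c.y (j : ℤ) < -1 / 2 then (1 : ℝ) else 0) * (B ^ 2 / n) +
          n / π * (c.Δ (j : ℤ) ^ 2 / c.g (j : ℤ))) := by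
      apply Finset.sum_le_sum
      intro j _
      have hgp := c.g_pos (j : ℤ)
      have h0 : 0 ≤ n / π * (c.Δ (j : ℤ) ^ 2 / c.g (j : ℤ)) := by positivity
      split_ifs with hj
      · linarith [hs2 (j : ℤ)]
      · linarith [hbig1 (j : ℤ) hj]
    rw [Finset.sum_add_distrib, ← Finset.sum_mul, ← Finset.mul_sum] at h1
    have h2 : (∑ j ∈ range n, (if c.y (j : ℤ) < -1 / 2 then (1 : ℝ) else 0)) * (B ^ 2 / n) ≤
        10 * K₁ * (B ^ 2 / n) := mul_le_mul_of_nonneg_right hTiny (by positivity)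
    have h3 : n / π * ∑ j ∈ range n, c.Δ (j : ℤ) ^ 2 / c.g (j : ℤ) ≤ K₁ / n := hS2
    have h4 : 0 ≤ G ^ 2 / n := by positivity
    have h5 : (K₁ + 10 * K₁ * B ^ 2 + G ^ 2) / n =
        K₁ / n + 10 * K₁ * (B ^ 2 / n) + G ^ 2 / n := by ring
    linarith
  · have h1 : ∑ j ∈ range n, c.g (j : ℤ) ^ 2 ≤ ∑ _j ∈ range n, (G / n) ^ 2 := by
      apply Finset.sum_le_sum
      intro j _
      exact pow_le_pow_left₀ (c.g_pos _).le (hg _) 2
    rw [Finset.sum_const, Finset.card_range, nsmul_eq_mul] at h1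
    have h2 : (n : ℝ) * (G / n) ^ 2 = G ^ 2 / n := by
      field_simp
    rw [h2] at h1
    have h4 : 0 ≤ (K₁ + 10 * K₁ * B ^ 2) / n := by positivity
    have h5 : (K₁ + 10 * K₁ * B ^ 2 + G ^ 2) / n = (K₁ + 10 * K₁ * B ^ 2) / n + G ^ 2 / n := by ring
    linarith
  · intro j
    have h1 := hsall j
    have h2 : c.g j ≤ G / Real.sqrt n := by
      calc c.g j ≤ G / n := hg j
        _ = G * (1 / n) := by ring
        _ ≤ G * (1 / Real.sqrt n) := by gcongr
        _ = G / Real.sqrt n := by ring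
    have h3 : (B + G) / Real.sqrt n ≤ 1 / 10 := by
      rw [div_le_iff₀ hsq]
      have h4 : (10 * (B + G)) ≤ Real.sqrt n := by
        apply Real.le_sqrt_of_sq_le
        have : (n₄ : ℝ) ≤ n := by
          have : n₄ ≤ n := by omega
          exact_mod_cast this
        linarith
      linarith
    have h5 : (B + G) / Real.sqrt n = B / Real.sqrt n + G / Real.sqrt n := add_div _ _ _
    linarith

end Pool.Agent.EHP
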