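import Pool.Agent.EHP.Stmts1

/-!
# The second variation
-/

open Finset Filter Topology
open scoped Real ComplexConjugate

namespace Pool.Agent.EHP

namespace MSV

/-- The moved family. -/
noncomputable def W (z D A : ℤ → ℂ) (t : ℝ) (j : ℤ) : ℂ :=
  z j + (t : ℂ) * D j + (t : ℂ) ^ 2 / 2 * A j

theorem W_per {n : ℕ} {z D A : ℤ → ℂ} (hz : ∀ j, z (j + n) = z j) (hD : ∀ j, D (j + n) = D j)
    (hA : ∀ j, A (j + n) = A j) (t : ℝ) (j : ℤ) : W z D A t (j + n) = W z D A t j := by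
  unfold W
  rw [hz, hD, hA]

theorem W_cont (z D A : ℤ → ℂ) (j : ℤ) : Continuous (fun t : ℝ => W z D A t j) := by
  unfold W
  fun_prop

theorem W_zero (z D A : ℤ → ℂ) (j : ℤ) : W z D A 0 j = z j := by
  simp [W]

theorem hasDeriv_log (u v : ℂ) :
    HasDerivAt (fun s : ℝ => Real.log ‖1 + (s : ℂ) * u + (s : ℂ) ^ 2 * v‖) u.re 0 := by
  have h1 : HasDerivAt (fun s : ℝ => 1 + (s : ℂ) * u + (s : ℂ) ^ 2 * v) u 0 := by
    have h0 : HasDerivAt (fun s : ℝ => (s : ℂ)) 1 0 := Complex.ofRealCLM.hasDerivAt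
    have h2 : HasDerivAt (fun s : ℝ => (s : ℂ) * u) (1 * u) 0 := h0.mul_const u
    have h3 : HasDerivAt (fun s : ℝ => (s : ℂ) ^ 2 * v) 0 0 := by
      have h := (h0.fun_pow 2).mul_const v
      simpa using h
    have h4 := (h2.const_add 1).add h3
    have h5 : (1 : ℂ) * u + 0 = u := by ring
    rw [h5] at h4
    exact h4
  have h5 : HasDerivAt (fun s : ℝ => Complex.log (1 + (s : ℂ) * u + (s : ℂ) ^ 2 * v)) u 0 := by
    have h := h1.clog_real (by simp)
    simpa using h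
  have h6 := Complex.reCLM.hasFDerivAt.comp_hasDerivAt (0 : ℝ) h5
  have h7 : (fun s : ℝ => Real.log ‖1 + (s : ℂ) * u + (s : ℂ) ^ 2 * v‖)
      = Complex.reCLM ∘ (fun s : ℝ => Complex.log (1 + (s : ℂ) * u + (s : ℂ) ^ 2 * v)) := by
    funext s
    simp [Complex.log_re]
  rw [h7]
  exact h6

theorem pair_log {Z X Y : ℂ} (hZ : Z ≠ 0) (t : ℝ)
    (h1 : Z + (t : ℂ) * X + (t : ℂ) ^ 2 / 2 * Y ≠ 0)
    (h2 : Z + ((-t : ℝ) : ℂ) * X + ((-t : ℝ) : ℂ) ^ 2 / 2 * Y ≠ 0) :
    Real.log ‖1 + ((t ^ 2 : ℝ) : ℂ) * (Y / Z - (X / Z) ^ 2)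
      + ((t ^ 2 : ℝ) : ℂ) ^ 2 * ((Y / Z) ^ 2 / 4)‖ =
    Real.log ‖Z + (t : ℂ) * X + (t : ℂ) ^ 2 / 2 * Y‖
      + Real.log ‖Z + ((-t : ℝ) : ℂ) * X + ((-t : ℝ) : ℂ) ^ 2 / 2 * Y‖
      - 2 * Real.log ‖Z‖ := by
  have e : (1 + ((t ^ 2 : ℝ) : ℂ) * (Y / Z - (X / Z) ^ 2)
      + ((t ^ 2 : ℝ) : ℂ) ^ 2 * ((Y / Z) ^ 2 / 4)) =
      (Z + (t : ℂ) * X + (t : ℂ) ^ 2 / 2 * Y) *
        (Z + ((-t : ℝ) : ℂ) * X + ((-t : ℝ) : ℂ) ^ 2 / 2 * Y) / (Z * Z) := by
    push_cast
    field_simp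
    ring
  rw [e, norm_div, norm_mul, norm_mul, Real.log_div, Real.log_mul, Real.log_mul]
  · ring
  · exact norm_ne_zero_iff.2 hZ
  · exact norm_ne_zero_iff.2 hZ
  · exact norm_ne_zero_iff.2 h1
  · exact norm_ne_zero_iff.2 h2
  · exact mul_ne_zero (norm_ne_zero_iff.2 h1) (norm_ne_zero_iff.2 h2)
  · exact mul_ne_zero (norm_ne_zero_iff.2 hZ) (norm_ne_zero_iff.2 hZ)

/-- The tight pairs. -/
theorem tight_norm {Z : ℂ} (hZ : ‖Z‖ = 2) (ξ t B : ℝ) (hB : |ξ| ≤ B) :
    ‖Z + (t : ℂ) * (ξ * Complex.I * Z) + (t : ℂ) ^ 2 / 2 * (-(ξ : ℂ) ^ 2 * Z)‖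
      ≤ 2 * (1 + B ^ 4 * t ^ 4) := by
  have e : Z + (t : ℂ) * (ξ * Complex.I * Z) + (t : ℂ) ^ 2 / 2 * (-(ξ : ℂ) ^ 2 * Z)
      = Z * (((1 - ξ ^ 2 * t ^ 2 / 2 : ℝ) : ℂ) + ((ξ * t : ℝ) : ℂ) * Complex.I) := by
    push_cast
    ring
  rw [e, norm_mul, hZ]
  have h0 : 0 ≤ B := le_trans (abs_nonneg _) hB
  have h4 : ξ ^ 4 ≤ B ^ 4 := by
    have := pow_le_pow_left₀ (abs_nonneg ξ) hB 4
    rwa [show |ξ| ^ 4 = ξ ^ 4 by rw [show (4 : ℕ) = 2 * 2 by norm_num, pow_mul, pow_mul, sq_abs]]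
      at this
  have h5 : ‖(((1 - ξ ^ 2 * t ^ 2 / 2 : ℝ) : ℂ) + ((ξ * t : ℝ) : ℂ) * Complex.I)‖
      ≤ 1 + B ^ 4 * t ^ 4 := by
    have ht4 : 0 ≤ t ^ 4 := by positivity
    have hBt : 0 ≤ B ^ 4 * t ^ 4 := by positivity
    apply le_of_sq_le_sq _ (by positivity)
    rw [← Complex.normSq_eq_norm_sq, Complex.normSq_add_mul_I]
    have h6 : ξ ^ 4 * t ^ 4 ≤ B ^ 4 * t ^ 4 := mul_le_mul_of_nonneg_right h4 ht4
    nlinarith [sq_nonneg (B ^ 4 * t ^ 4)]
  linarith

end MSV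

open MSV

theorem m_SV : Stmt_SV := by
  intro n z hO D A hD hA hT
  rcases Nat.eq_zero_or_pos n with hn | hn
  · subst hn; simp
  have hz := hO.pts.per
  -- a bound for the velocities
  obtain ⟨B, hB⟩ : ∃ B : ℝ, ∀ i j, ‖D i - D j‖ ≤ 2 * B := by
    have hn' : (0 : ℤ) < n := by exact_mod_cast hn
    refine ⟨∑ i ∈ range n, ‖D (i : ℤ)‖, fun i j => ?_⟩
    have key : ∀ i, ‖D i‖ ≤ ∑ i ∈ range n, ‖D (i : ℤ)‖ := by
      intro i
      have h1 : ((i % n).toNat : ℤ) = i % n := Int.toNat_of_nonneg (Int.emod_nonneg _ hn'.ne')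
      have h2 : (i % n).toNat ∈ range n := by
        rw [Finset.mem_range]
        have := Int.emod_lt_of_pos i hn'
        omega
      have h3 := Finset.single_le_sum (f := fun i : ℕ => ‖D (i : ℤ)‖)
        (fun _ _ => norm_nonneg _) h2
      simp only [h1, per_mod hD] at h3
      exact h3
    have := norm_sub_le (D i) (D j)
    linarith [key i, key j]
  set M : ℝ := B ^ 4 with hM
  have hM0 : 0 ≤ M := by
    rw [hM, show (4 : ℕ) = 2 * 2 by norm_num, pow_mul]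
    positivity
  -- competitors
  have hcomp : ∀ᶠ t : ℝ in 𝓝 0, Pts n (fun j => W z D A t j / ((1 + M * t ^ 4 : ℝ) : ℂ)) ∧
      ∀ i j : ℤ, ‖W z D A t i / ((1 + M * t ^ 4 : ℝ) : ℂ)
        - W z D A t j / ((1 + M * t ^ 4 : ℝ) : ℂ)‖ ≤ 2 := by
    have hn' : (0 : ℤ) < n := by exact_mod_cast hn
    have e1 : ∀ᶠ t : ℝ in 𝓝 0, ∀ i ∈ range n, ∀ j ∈ range n,
        ‖W z D A t i - W z D A t j‖ ≤ 2 * (1 + M * t ^ 4) := by
      rw [Finset.eventually_all]
      intro i _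
      rw [Finset.eventually_all]
      intro j _
      rcases eq_or_lt_of_le (hO.adm i j) with h | h
      · obtain ⟨ξ, h1, h2⟩ := hT i j h
        have hξ : |ξ| ≤ B := by
          have h3 := hB i j
          rw [h1, norm_mul, norm_mul, Complex.norm_I, h, mul_one, Complex.norm_real,
            Real.norm_eq_abs] at h3
          linarith
        refine Eventually.of_forall fun t => ?_
        have h4 := tight_norm h ξ t B hξ
        have h5 : W z D A t i - W z D A t j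
            = (z i - z j) + (t : ℂ) * (D i - D j) + (t : ℂ) ^ 2 / 2 * (A i - A j) := by
          unfold W; ring
        rw [h5, h1, h2]
        exact h4
      · have hc : Tendsto (fun t : ℝ => ‖W z D A t i - W z D A t j‖) (𝓝 0)
            (𝓝 ‖W z D A 0 i - W z D A 0 j‖) :=
          (((W_cont z D A i).sub (W_cont z D A j)).norm).tendsto 0
        rw [W_zero, W_zero] at hc
        filter_upwards [hc.eventually_lt_const h] with t ht
        have : 0 ≤ M * t ^ 4 := by positivity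
        linarith
    have e2 : ∀ᶠ t : ℝ in 𝓝 0, ∀ i ∈ range n, ∀ j ∈ range n,
        i ≠ j → W z D A t i ≠ W z D A t j := by
      rw [Finset.eventually_all]
      intro i hi
      rw [Finset.eventually_all]
      intro j hj
      by_cases hij : i = j
      · exact Eventually.of_forall fun t h => absurd hij h
      · have hne : z i - z j ≠ 0 := by
          intro h
          have h1 := hO.pts.inj i j (sub_eq_zero.1 h)
          rw [Finset.mem_range] at hi hj
          apply hij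
          have h2 : (i : ℤ) = j := by
            obtain ⟨k, hk⟩ := h1
            have hk0 : k = 0 := by
              by_contra hk0
              rcases lt_or_gt_of_ne hk0 with hk1 | hk1
              · nlinarith
              · nlinarith
            rw [hk0] at hk
            linarith
          exact_mod_cast h2
        have hc : Tendsto (fun t : ℝ => W z D A t i - W z D A t j) (𝓝 0)
            (𝓝 (W z D A 0 i - W z D A 0 j)) :=
          ((W_cont z D A i).sub (W_cont z D A j)).tendsto 0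
        rw [W_zero, W_zero] at hc
        filter_upwards [hc.eventually_ne hne] with t ht _
        exact sub_ne_zero.1 ht
    filter_upwards [e1, e2] with t h1 h2
    have hc0 : 0 < 1 + M * t ^ 4 := by positivity
    have hc1 : ((1 + M * t ^ 4 : ℝ) : ℂ) ≠ 0 := by exact_mod_cast hc0.ne'
    have hWp := W_per hz hD hA t
    have hmod : ∀ i : ℤ, ∃ i' ∈ range n, ((i' : ℕ) : ℤ) = i % n := by
      intro i
      have h1 : ((i % n).toNat : ℤ) = i % n := Int.toNat_of_nonneg (Int.emod_nonneg _ hn'.ne')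
      refine ⟨(i % n).toNat, ?_, h1⟩
      rw [Finset.mem_range]
      have := Int.emod_lt_of_pos i hn'
      omega
    refine ⟨⟨fun j => ?_, fun i j hij => ?_⟩, fun i j => ?_⟩
    · simp only [hWp]
    · have hij' : W z D A t i = W z D A t j := by
        have := (div_left_inj' hc1).1 hij
        exact this
      obtain ⟨i', hi', hi⟩ := hmod i
      obtain ⟨j', hj', hj⟩ := hmod j
      by_contra hnd
      have hne : i' ≠ j' := by
        intro h
        apply hnd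
        rw [← h, hi] at hj
        exact Int.ModEq.dvd (n := (n : ℤ)) (a := j) (b := i) hj.symm
      apply h2 i' hi' j' hj' hne
      rw [hi, hj, per_mod hWp, per_mod hWp]
      exact hij'
    · obtain ⟨i', hi', hi⟩ := hmod i
      obtain ⟨j', hj', hj⟩ := hmod j
      have h3 := h1 i' hi' j' hj'
      rw [hi, hj, per_mod hWp, per_mod hWp] at h3
      rw [← sub_div, norm_div, Complex.norm_real, Real.norm_eq_abs, abs_of_pos hc0,
        div_le_iff₀ hc0]
      exact h3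
  -- the function of `s = t²`
  set x : ℕ → ℕ → ℂ := fun j d =>
    (D ((j : ℤ) + (d : ℤ)) - D (j : ℤ)) / (z ((j : ℤ) + (d : ℤ)) - z (j : ℤ)) with hx
  set y : ℕ → ℕ → ℂ := fun j d =>
    (A ((j : ℤ) + (d : ℤ)) - A (j : ℤ)) / (z ((j : ℤ) + (d : ℤ)) - z (j : ℤ)) with hy
  set G : ℝ → ℝ := fun s => ∑ j ∈ range n, ∑ d ∈ Ico 1 n,
    Real.log ‖1 + (s : ℂ) * (y j d - x j d ^ 2) + (s : ℂ) ^ 2 * (y j d ^ 2 / 4)‖ with hG
  have hGd : HasDerivAt G (∑ j ∈ range n, ∑ d ∈ Ico 1 n, (y j d - x j d ^ 2).re) 0 := by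
    apply HasDerivAt.fun_sum
    intro j _
    apply HasDerivAt.fun_sum
    intro d _
    exact hasDeriv_log _ _
  have hG0 : G 0 = 0 := by
    simp [hG]
  have hzne : ∀ j ∈ range n, ∀ d ∈ Ico 1 n, z ((j : ℤ) + (d : ℤ)) - z (j : ℤ) ≠ 0 := by
    intro j _ d hd h
    have h1 := hO.pts.inj _ _ (sub_eq_zero.1 h)
    rw [add_sub_cancel_left] at h1
    rw [Finset.mem_Ico] at hd
    have h2 : n ∣ d := by exact_mod_cast h1
    have := Nat.le_of_dvd (by omega) h2
    omega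
  have hFL : ∀ᶠ t : ℝ in 𝓝 0, G (t ^ 2) ≤ 2 * (n * (n : ℝ)) * (M * t ^ 4) := by
    have hneg : Tendsto (fun t : ℝ => -t) (𝓝 0) (𝓝 0) := by
      have := (continuous_neg (G := ℝ)).tendsto 0
      simpa using this
    filter_upwards [hcomp, hneg.eventually hcomp] with t ⟨hp, ha⟩ ⟨hp', ha'⟩
    have m1 := hO.max _ hp ha
    have m2 := hO.max _ hp' ha'
    have hc0 : 0 < 1 + M * t ^ 4 := by positivity
    have ht4 : (-t) ^ 4 = t ^ 4 := by ring
    rw [ht4] at m2
    have hlog : Real.log (1 + M * t ^ 4) ≤ M * t ^ 4 := by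
      have := Real.log_le_sub_one_of_pos hc0
      linarith
    have hlog0 : 0 ≤ M * t ^ 4 := by positivity
    have hc1 : ((1 + M * t ^ 4 : ℝ) : ℂ) ≠ 0 := by exact_mod_cast hc0.ne'
    have hmain : G (t ^ 2) ≤ FL n (fun j => W z D A t j / ((1 + M * t ^ 4 : ℝ) : ℂ))
        + FL n (fun j => W z D A (-t) j / ((1 + M * t ^ 4 : ℝ) : ℂ)) - 2 * FL n z
        + ∑ j ∈ range n, ∑ d ∈ Ico 1 n, 2 * (M * t ^ 4) := by
      unfold FL
      rw [hG, Finset.mul_sum, ← Finset.sum_add_distrib, ← Finset.sum_sub_distrib,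
        ← Finset.sum_add_distrib]
      apply Finset.sum_le_sum
      intro j hj
      rw [Finset.mul_sum, ← Finset.sum_add_distrib, ← Finset.sum_sub_distrib,
        ← Finset.sum_add_distrib]
      apply Finset.sum_le_sum
      intro d hd
      have hdd := Finset.mem_Ico.1 hd
      have hZ := hzne j hj d hd
      have hnd : ∀ {w : ℤ → ℂ}, Pts n w → w ((j : ℤ) + (d : ℤ)) - w (j : ℤ) ≠ 0 := by
        intro w hw h
        have h1 := hw.inj _ _ (sub_eq_zero.1 h)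
        rw [add_sub_cancel_left] at h1
        have h2 : n ∣ d := by exact_mod_cast h1
        have := Nat.le_of_dvd (by omega) h2
        omega
      have q1 := hnd hp
      have q2 := hnd hp'
      simp only [ht4, ← sub_div] at q1 q2
      have r1 : W z D A t ((j : ℤ) + (d : ℤ)) - W z D A t (j : ℤ) ≠ 0 := by
        intro h; rw [h] at q1; simp at q1
      have r2 : W z D A (-t) ((j : ℤ) + (d : ℤ)) - W z D A (-t) (j : ℤ) ≠ 0 := by
        intro h; rw [h] at q2; simp at q2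
      have w1 : ∀ t : ℝ, W z D A t ((j : ℤ) + (d : ℤ)) - W z D A t (j : ℤ)
          = (z ((j : ℤ) + (d : ℤ)) - z (j : ℤ)) + (t : ℂ) * (D ((j : ℤ) + (d : ℤ)) - D (j : ℤ))
            + (t : ℂ) ^ 2 / 2 * (A ((j : ℤ) + (d : ℤ)) - A (j : ℤ)) := by
        intro t; unfold W; ring
      have hp1 := pair_log hZ t (by rw [← w1]; exact r1) (by rw [← w1]; exact r2)
      rw [← w1, ← w1] at hp1
      simp only [← sub_div]
      rw [norm_div, norm_div, Real.log_div (norm_ne_zero_iff.2 r1) (norm_ne_zero_iff.2 hc1),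
        Real.log_div (norm_ne_zero_iff.2 r2) (norm_ne_zero_iff.2 hc1), Complex.norm_real,
        Real.norm_eq_abs, abs_of_pos hc0]
      rw [hx, hy]
      dsimp only
      rw [hp1]
      linarith
    have hsum : ∑ j ∈ range n, ∑ d ∈ Ico 1 n, 2 * (M * t ^ 4) ≤
        2 * (n * (n : ℝ)) * (M * t ^ 4) := by
      rw [Finset.sum_const, Finset.sum_const, Finset.card_range, Nat.card_Ico, nsmul_eq_mul,
        nsmul_eq_mul]
      have h1 : ((n - 1 : ℕ) : ℝ) ≤ n := by exact_mod_cast Nat.sub_le n 1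
      have h2 : (n : ℝ) * (((n - 1 : ℕ) : ℝ) * (2 * (M * t ^ 4)))
          ≤ (n : ℝ) * ((n : ℝ) * (2 * (M * t ^ 4))) := by
        apply mul_le_mul_of_nonneg_left _ (by positivity)
        apply mul_le_mul_of_nonneg_right h1 (by positivity)
      linarith
    linarith
  -- conclusion
  have hre : (∑ j ∈ range n, ∑ d ∈ Ico 1 n,
      ((A ((j : ℤ) + (d : ℤ)) - A (j : ℤ)) / (z ((j : ℤ) + (d : ℤ)) - z (j : ℤ)) -
        ((D ((j : ℤ) + (d : ℤ)) - D (j : ℤ)) / (z ((j : ℤ) + (d : ℤ)) - z (j : ℤ))) ^ 2)).re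
      = ∑ j ∈ range n, ∑ d ∈ Ico 1 n, (y j d - x j d ^ 2).re := by
    rw [Complex.re_sum]
    apply Finset.sum_congr rfl
    intro j _
    rw [Complex.re_sum]
  rw [hre]
  have hslope := hGd.tendsto_slope
  have hsqrt : Tendsto (fun s : ℝ => Real.sqrt s) (𝓝[>] 0) (𝓝 0) := by
    have := (Real.continuous_sqrt.tendsto 0).mono_left (nhdsWithin_le_nhds (s := Set.Ioi (0 : ℝ)))
    simpa using this
  have hs2 : Tendsto (slope G 0) (𝓝[>] 0) (𝓝 (∑ j ∈ range n, ∑ d ∈ Ico 1 n,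
      (y j d - x j d ^ 2).re)) :=
    hslope.mono_left (nhdsWithin_mono _ (fun s hs => ne_of_gt hs))
  have hlim : Tendsto (fun s : ℝ => 2 * (n * (n : ℝ)) * M * s) (𝓝[>] 0) (𝓝 0) := by
    have : Continuous (fun s : ℝ => 2 * (n * (n : ℝ)) * M * s) := by fun_prop
    have h := (this.tendsto 0).mono_left (nhdsWithin_le_nhds (s := Set.Ioi (0 : ℝ)))
    simpa using h
  refine le_of_tendsto_of_tendsto hs2 hlim ?_
  filter_upwards [hsqrt.eventually hFL, self_mem_nhdsWithin] with s hs hs0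
  have hs0' : (0 : ℝ) < s := hs0
  have h1 : Real.sqrt s ^ 2 = s := Real.sq_sqrt hs0'.le
  have h2 : Real.sqrt s ^ 4 = s ^ 2 := by
    rw [show (4 : ℕ) = 2 * 2 by norm_num, pow_mul, h1]
  rw [h1, h2] at hs
  rw [slope_def_field, hG0, sub_zero, sub_zero, div_le_iff₀ hs0']
  nlinarith

end Pool.Agent.EHP
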