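import Pool.Agent.EHP.Stmts3

open Finset

namespace Pool.Agent.EHP

theorem m_SYM : Stmt_SYM := by
  intro n c L hL v
  have h1 := hL.lt2 v
  have hm : L (v - 1) ≤ L v := hL.piv.mono (by omega)
  have hm' : L v ≤ L (v + 1) := hL.piv.mono (by omega)
  have t1 : ‖c.z v - c.z (L v)‖ = 2 := (hL.piv.tight v (L v) (by omega) (by omega)).2 ⟨hm, le_rfl⟩
  have t2 : ‖c.z (v + 1) - c.z (L v)‖ = 2 := by
    refine (hL.piv.tight (v + 1) (L v) (by omega) (by omega)).2 ⟨?_, hm'⟩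
    have : v + 1 - 1 = v := by ring
    rw [this]
  have t1' : ‖c.z (L v) - c.z (v + n)‖ = 2 := by rw [c.z_add, norm_sub_rev]; exact t1
  have t2' : ‖c.z (L v) - c.z (v + 1 + n)‖ = 2 := by rw [c.z_add, norm_sub_rev]; exact t2
  have r1 := (hL.piv.tight (L v) (v + n) (by omega) (by omega)).1 t1'
  have r2 := (hL.piv.tight (L v) (v + 1 + n) (by omega) (by omega)).1 t2'
  exact ⟨r1.1, by have := r2.2; omega⟩

end Pool.Agent.EHP
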