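import Pool.Agent.EHP.Stmts2

/-!
# Tight directions are bounded by the slopes of the two adjacent sides
-/

open Finset
open scoped Real ComplexConjugate

namespace Pool.Agent.EHP

/-- The elementary inequality behind the tangent bounds. -/
theorem tan_aux {g D : ℝ} (hg : 0 < g) (hg2 : g ≤ 1 / 2) (hD : |D| ≤ 1 / 10 * g) :
    Real.exp (-D) - Real.cos g ≤ (-(D / g) + g) * Real.sin g := by
  obtain ⟨u, hu⟩ : ∃ u : ℝ, u = D / g := ⟨_, rfl⟩
  have hDu : D = u * g := by rw [hu]; field_simp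
  have hu1 : |u| ≤ 1 / 10 := by
    rw [hu, abs_div, abs_of_pos hg, div_le_iff₀ hg]
    exact hD
  have hD1 : |(-D)| ≤ 1 := by rw [abs_neg]; nlinarith
  have h1 := abs_le.1 (Real.abs_exp_sub_one_sub_id_le hD1)
  have h2 : 1 - g ^ 2 / 2 ≤ Real.cos g := Real.one_sub_sq_div_two_le_cos
  have h3 : g - g ^ 3 / 4 < Real.sin g := by
    have h30 := Real.sin_gt_sub_cube hg
    have : 0 < g ^ 3 := by positivity
    linarith
  have h4 : Real.sin g ≤ g := Real.sin_le hg.le
  rw [← hu]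
  have hu2 := abs_le.1 hu1
  have h5 : u * (g - Real.sin g) ≥ -(1 / 10) * (g ^ 3 / 4) := by
    have ha : 0 ≤ g - Real.sin g := by linarith
    have hb : g - Real.sin g ≤ g ^ 3 / 4 := by linarith
    nlinarith
  have h6 : g * (g - g ^ 3 / 4) ≤ g * Real.sin g := mul_le_mul_of_nonneg_left h3.le hg.le
  have h7 : (-D) ^ 2 ≤ 1 / 100 * g ^ 2 := by
    have : D ^ 2 = |D| ^ 2 := (sq_abs D).symm
    rw [neg_sq, this]
    have h8 : |D| ^ 2 ≤ (1 / 10 * g) ^ 2 := pow_le_pow_left₀ (abs_nonneg _) hD 2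
    nlinarith
  have h9 : g ^ 4 ≤ g ^ 2 / 4 := by nlinarith [sq_nonneg g, sq_nonneg (g ^ 2)]
  have h10 : g ^ 3 ≤ g ^ 2 / 2 := by nlinarith [sq_nonneg g]
  have h11 : (-u + g) * Real.sin g = -D + u * (g - Real.sin g) + g * Real.sin g := by
    rw [hDu]; ring
  rw [h11]
  have h12 : g * (g - g ^ 3 / 4) = g ^ 2 - g ^ 4 / 4 := by ring
  nlinarith [h1.2, sq_nonneg g]

/-- If moving from `A` to `A - B` does not increase the norm then `Re (B * conj A) ≥ 0`. -/
theorem re_nonneg_of_norm_le {A B : ℂ} (h : ‖A - B‖ ≤ ‖A‖) : 0 ≤ (B * conj A).re := by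
  have h1 : ‖A - B‖ ^ 2 ≤ ‖A‖ ^ 2 := pow_le_pow_left₀ (norm_nonneg _) h 2
  rw [← Complex.normSq_eq_norm_sq, ← Complex.normSq_eq_norm_sq, Complex.normSq_sub] at h1
  have h2 := Complex.normSq_nonneg B
  have h3 : (A * conj B).re = (B * conj A).re := by
    simp [Complex.mul_re]; ring
  rw [h3] at h1
  linarith

/-- The inequality for a neighbour `z * e^(D + i G)` of the point `z`. -/
theorem tan_step {z w l : ℂ} {D G : ℝ} (hz : z ≠ 0)
    (hw : w = z * Complex.exp ((D : ℂ) + (G : ℂ) * Complex.I))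
    (h : ‖w - l‖ ≤ ‖z - l‖) :
    0 ≤ (1 - Real.exp D * Real.cos G) * ((z - l) / z).re
      - Real.exp D * Real.sin G * ((z - l) / z).im := by
  have h0 : w - l = (z - l) - (z - w) := by ring
  rw [h0] at h
  have h1 := re_nonneg_of_norm_le h
  have h2 : (z - w) * conj (z - l) =
      ((Complex.normSq z : ℝ) : ℂ) * ((1 - Complex.exp ((D : ℂ) + (G : ℂ) * Complex.I)) *
        conj ((z - l) / z)) := by
    rw [hw, map_div₀, Complex.normSq_eq_conj_mul_self]
    have : conj z ≠ 0 := by simpa using hz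
    field_simp
  rw [h2, Complex.re_ofReal_mul] at h1
  have h3 : 0 < Complex.normSq z := Complex.normSq_pos.2 hz
  have h4 := nonneg_of_mul_nonneg_right h1 h3
  have h5 : Complex.exp ((D : ℂ) + (G : ℂ) * Complex.I)
      = ((Real.exp D * Real.cos G : ℝ) : ℂ) + ((Real.exp D * Real.sin G : ℝ) : ℂ) * Complex.I := by
    rw [Complex.exp_add, Complex.exp_mul_I]
    push_cast
    ring
  rw [h5] at h4
  obtain ⟨q, hq⟩ : ∃ q : ℂ, q = (z - l) / z := ⟨_, rfl⟩
  obtain ⟨x, hx⟩ : ∃ x : ℝ, x = Real.exp D * Real.cos G := ⟨_, rfl⟩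
  obtain ⟨y, hy⟩ : ∃ y : ℝ, y = Real.exp D * Real.sin G := ⟨_, rfl⟩
  rw [← hq, ← hx, ← hy] at h4 ⊢
  simp [Complex.mul_re] at h4
  linarith

theorem m_TAN : Stmt_TAN := by
  refine ⟨1 / 10, by norm_num, 100, ?_⟩
  intro n hn c hc v l hvl
  have hn0 : 0 < n := by omega
  have hnr : (100 : ℝ) ≤ n := by exact_mod_cast hn
  -- the gaps are small
  have hg : ∀ j, c.g j ≤ 1 / 2 := by
    intro j
    have h1 : c.g j = 2 * π / n + (c.φ (j + 1) - c.φ j) := by
      unfold Cfg.g Cfg.φ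
      have : (n : ℝ) ≠ 0 := by positivity
      push_cast
      field_simp
      ring
    have h2 := abs_le.1 (hc.hφ (j + 1))
    have h3 := abs_le.1 (hc.hφ j)
    have h4 : 2 * π / n ≤ 1 / 10 := by
      rw [div_le_iff₀ (by positivity)]
      nlinarith [Real.pi_lt_four]
    rw [h1]
    linarith [h2.2, h3.1]
  have hΔ : ∀ j, |c.Δ j| ≤ 1 / 10 * c.g j := by
    intro j
    have h1 := hc.slope (j + 1) j
    have h2 : |c.θ (j + 1) - c.θ j| = c.g j := abs_of_pos (c.g_pos j)
    rw [h2] at h1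
    exact h1
  have hz := c.z_ne v
  -- the real part is positive
  have hnl : ‖c.z l‖ ^ 2 < 4 := by
    rw [c.norm_z, ← Real.exp_nat_mul]
    have h1 := abs_le.1 (hc.hρ l)
    have h2 : Real.exp ((2 : ℕ) * c.ρ l) ≤ Real.exp 1 := by
      apply Real.exp_le_exp.2
      push_cast
      linarith [h1.2]
    have := Real.exp_one_lt_d9
    linarith
  have ha : 0 < ((c.z v - c.z l) / c.z v).re := by
    have h1 : ‖c.z v - c.z l‖ ^ 2 = 4 := by rw [hvl]; norm_num
    have h2 : (c.z v - c.z l) / c.z v =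
        (((Complex.normSq (c.z v))⁻¹ : ℝ) : ℂ) * ((c.z v - c.z l) * conj (c.z v)) := by
      rw [Complex.ofReal_inv, Complex.normSq_eq_conj_mul_self]
      have : conj (c.z v) ≠ 0 := by simpa using hz
      field_simp
    rw [h2, Complex.re_ofReal_mul]
    have h3 : 0 < Complex.normSq (c.z v) := Complex.normSq_pos.2 hz
    apply mul_pos (inv_pos.2 h3)
    rw [← Complex.normSq_eq_norm_sq] at h1 hnl
    have h4 : 2 * ((c.z v - c.z l) * conj (c.z v)).re =
        Complex.normSq (c.z v - c.z l) + Complex.normSq (c.z v) - Complex.normSq (c.z l) := by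
      simp [Complex.mul_re, Complex.normSq_apply]
      ring
    rw [h1] at h4
    linarith
  -- two neighbours
  have hs : ∀ j, 0 < Real.sin (c.g j) := fun j =>
    Real.sin_pos_of_pos_of_lt_pi (c.g_pos j) (by linarith [hg j, Real.pi_gt_three])
  have hadm : ∀ w, ‖c.z w - c.z l‖ ≤ ‖c.z v - c.z l‖ := fun w => by
    rw [hvl]; exact hc.opt.adm w l
  refine ⟨ha, ?_, ?_⟩
  · -- the neighbour `v - 1`
    have hw : c.z (v - 1) = c.z v *
        Complex.exp (((-c.Δ (v - 1) : ℝ) : ℂ) + ((-c.g (v - 1) : ℝ) : ℂ) * Complex.I) := by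
      unfold Cfg.z Cfg.Δ Cfg.g
      rw [← Complex.exp_add]
      congr 1
      rw [sub_add_cancel]
      push_cast
      ring
    have h1 := tan_step hz hw (hadm (v - 1))
    rw [Real.cos_neg, Real.sin_neg] at h1
    have h2 := tan_aux (c.g_pos (v - 1)) (hg (v - 1)) (D := -c.Δ (v - 1))
      (by rw [abs_neg]; exact hΔ _)
    rw [neg_neg] at h2
    set a := ((c.z v - c.z l) / c.z v).re
    set b := ((c.z v - c.z l) / c.z v).im
    have h3 := Real.exp_pos (c.Δ (v - 1))
    have h4 : Real.exp (c.Δ (v - 1)) * Real.exp (-c.Δ (v - 1)) = 1 := by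
      rw [← Real.exp_add]; simp
    have h5 : 0 ≤ (Real.exp (c.Δ (v - 1)) - Real.cos (c.g (v - 1))) * a
        + Real.sin (c.g (v - 1)) * b := by
      have h6 := mul_nonneg h3.le h1
      have h7 : Real.exp (c.Δ (v - 1)) * ((1 - Real.exp (-c.Δ (v - 1)) *
          Real.cos (c.g (v - 1))) * a -
          Real.exp (-c.Δ (v - 1)) * -Real.sin (c.g (v - 1)) * b) =
          Real.exp (c.Δ (v - 1)) * a - (Real.exp (c.Δ (v - 1)) * Real.exp (-c.Δ (v - 1))) *
            Real.cos (c.g (v - 1)) * a +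
          (Real.exp (c.Δ (v - 1)) * Real.exp (-c.Δ (v - 1))) * Real.sin (c.g (v - 1)) * b := by
        ring
      rw [h7, h4] at h6
      linarith
    have h8 : (Real.exp (c.Δ (v - 1)) - Real.cos (c.g (v - 1))) * a ≤
        (-(-c.Δ (v - 1) / c.g (v - 1)) + c.g (v - 1)) * Real.sin (c.g (v - 1)) * a :=
      mul_le_mul_of_nonneg_right h2 ha.le
    have h9 : -(-c.Δ (v - 1) / c.g (v - 1)) = c.s (v - 1) := by
      unfold Cfg.s; ring
    rw [h9] at h8
    have h10 : 0 ≤ Real.sin (c.g (v - 1)) * ((c.s (v - 1) + c.g (v - 1)) * a + b) := by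
      have : Real.sin (c.g (v - 1)) * ((c.s (v - 1) + c.g (v - 1)) * a + b) =
        (c.s (v - 1) + c.g (v - 1)) * Real.sin (c.g (v - 1)) * a +
          Real.sin (c.g (v - 1)) * b := by ring
      rw [this]
      linarith
    have h11 := nonneg_of_mul_nonneg_right h10 (hs (v - 1))
    linarith
  · -- the neighbour `v + 1`
    have hw : c.z (v + 1) = c.z v *
        Complex.exp (((c.Δ v : ℝ) : ℂ) + ((c.g v : ℝ) : ℂ) * Complex.I) := by
      unfold Cfg.z Cfg.Δ Cfg.g
      rw [← Complex.exp_add]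
      congr 1
      push_cast
      ring
    have h1 := tan_step hz hw (hadm (v + 1))
    have h2 := tan_aux (c.g_pos v) (hg v) (D := c.Δ v) (hΔ _)
    set a := ((c.z v - c.z l) / c.z v).re
    set b := ((c.z v - c.z l) / c.z v).im
    have h3 := Real.exp_pos (-c.Δ v)
    have h4 : Real.exp (-c.Δ v) * Real.exp (c.Δ v) = 1 := by
      rw [← Real.exp_add]; simp
    have h5 : 0 ≤ (Real.exp (-c.Δ v) - Real.cos (c.g v)) * a - Real.sin (c.g v) * b := by
      have h6 := mul_nonneg h3.le h1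
      have h7 : Real.exp (-c.Δ v) * ((1 - Real.exp (c.Δ v) * Real.cos (c.g v)) * a -
          Real.exp (c.Δ v) * Real.sin (c.g v) * b) =
          Real.exp (-c.Δ v) * a - (Real.exp (-c.Δ v) * Real.exp (c.Δ v)) *
            Real.cos (c.g v) * a -
          (Real.exp (-c.Δ v) * Real.exp (c.Δ v)) * Real.sin (c.g v) * b := by
        ring
      rw [h7, h4] at h6
      linarith
    have h8 : (Real.exp (-c.Δ v) - Real.cos (c.g v)) * a ≤
        (-(c.Δ v / c.g v) + c.g v) * Real.sin (c.g v) * a :=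
      mul_le_mul_of_nonneg_right h2 ha.le
    have h9 : c.Δ v / c.g v = c.s v := rfl
    rw [h9] at h8
    have h10 : 0 ≤ Real.sin (c.g v) * ((-c.s v + c.g v) * a - b) := by
      have : Real.sin (c.g v) * ((-c.s v + c.g v) * a - b) =
        (-c.s v + c.g v) * Real.sin (c.g v) * a - Real.sin (c.g v) * b := by ring
      rw [this]
      linarith
    have h11 := nonneg_of_mul_nonneg_right h10 (hs v)
    linarith

end Pool.Agent.EHP
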