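import Pool.Agent.EHP.Stmts6

open Finset
open scoped Real ComplexConjugate

namespace Pool.Agent.EHP

/-- Representatives of a tight pair leaving the union of two arcs. -/
theorem tedge_core {n : ℕ} {c : Cfg n} {L : ℤ → ℤ} (hn : 1 ≤ n) (hL : Piw n c L) {α β p q : ℤ}
    {a b : ℤ} (ha : a ∈ arc2 n α β p q) (hb : b ∉ arc2 n α β p q) (h2 : ‖c.z a - c.z b‖ = 2) :
    ∃ a' b' : ℤ, (∃ k : ℤ, a' = a + k * n) ∧ (n : ℤ) ∣ a - a' ∧ (n : ℤ) ∣ b - b' ∧
      ((α < a' ∧ a' ≤ β) ∨ (p < a' ∧ a' ≤ q)) ∧ a' < b' ∧ b' < a' + n ∧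
      L (a' - 1) ≤ b' ∧ b' ≤ L a' ∧ ¬ (α < b' ∧ b' ≤ β) ∧ ¬ (p < b' ∧ b' ≤ q) ∧
      ¬ (α < b' - n ∧ b' - n ≤ β) ∧ ¬ (p < b' - n ∧ b' - n ≤ q) ∧ ‖c.z a' - c.z b'‖ = 2 := by
  obtain ⟨k, hk⟩ := ha
  have hn' : (0 : ℤ) < n := by exact_mod_cast hn
  set a' : ℤ := a + k * n with ha'
  set r : ℤ := (b - a') % n with hr
  have hr0 : 0 ≤ r := Int.emod_nonneg _ hn'.ne'
  have hr1 : r < n := Int.emod_lt_of_pos _ hn'
  have hdm := Int.emod_add_mul_ediv (b - a') n
  -- `b' = a' + r = b - n * ((b - a') / n)`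
  set t : ℤ := (b - a') / n with ht
  have hb' : a' + r = b + (-t) * n := by
    have : r + n * t = b - a' := hdm
    linarith [mul_comm (n : ℤ) t]
  have hnb : ∀ m : ℤ, ¬ ((α < b + m * n ∧ b + m * n ≤ β) ∨ (p < b + m * n ∧ b + m * n ≤ q)) := by
    intro m hm
    exact hb ⟨m, hm⟩
  have hrne : r ≠ 0 := by
    intro h0
    have h3 := hnb (-t)
    rw [← hb', h0, add_zero] at h3
    exact h3 hk
  have hper : ∀ j m : ℤ, c.z (j + m * n) = c.z j := by
    intro j m
    induction m using Int.induction_on with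
    | zero => simp
    | succ i ih =>
      have : j + ((i : ℤ) + 1) * n = (j + i * n) + n := by ring
      rw [this, c.z_add, ih]
    | pred i ih =>
      have h1 := c.z_add (j + (-(i : ℤ) - 1) * n)
      have : j + (-(i : ℤ) - 1) * n + n = j + -(i : ℤ) * n := by ring
      rw [this, ih] at h1
      exact h1.symm
  have hza : c.z a' = c.z a := hper a k
  have hzb : c.z (a' + r) = c.z b := by rw [hb']; exact hper b (-t)
  have htt : ‖c.z a' - c.z (a' + r)‖ = 2 := by rw [hza, hzb]; exact h2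
  have hti := (hL.piv.tight a' (a' + r) (by omega) (by omega)).1 htt
  have n0 := hnb (-t)
  have n1 := hnb (-t - 1)
  have e1 : b + (-t - 1) * (n : ℤ) = (a' + r) - n := by rw [hb']; ring
  rw [e1] at n1
  rw [← hb'] at n0
  refine ⟨a', a' + r, ⟨k, rfl⟩, ⟨-k, ?_⟩, ⟨t, ?_⟩, hk, by omega, by omega, hti.1, hti.2, ?_, ?_, ?_,
    ?_, htt⟩
  · rw [ha']; ring
  · rw [hb']; ring
  · exact fun h => n0 (Or.inl h)
  · exact fun h => n0 (Or.inr h)
  · exact fun h => n1 (Or.inl h)
  · exact fun h => n1 (Or.inr h)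

theorem m_TEDGE : Stmt_SYM → Stmt_TEDGE := by
  intro hsym n c L hn hL v v' hvv' hv'
  have hmono := hL.piv.mono
  have hsv := hsym n c L hL v
  have hsv' := hsym n c L hL v'
  have hLL : L v ≤ L v' := hmono hvv'.le
  refine ⟨?_, ?_, ?_⟩
  · intro a ha b hb h2
    obtain ⟨a', b', -, hda, hdb, har, hab1, hab2, hL1, hL2, n1, n2, n3, n4, -⟩ :=
      tedge_core hn hL ha hb h2
    rcases har with ⟨h3, h4⟩ | ⟨h3, h4⟩
    · left
      have m1 : L v ≤ L (a' - 1) := hmono (by omega)
      have m2 : L a' ≤ L v' := hmono h4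
      have : b' = L v := by
        by_contra hne
        exact n2 ⟨by omega, by omega⟩
      rw [← this]; exact hdb
    · right
      have : a' = L v' := by
        by_contra hne
        have m1 : L (L v) ≤ L (a' - 1) := hmono (by omega)
        have m2 : L a' ≤ L (L v' - 1) := hmono (by omega)
        exact n3 ⟨by omega, by omega⟩
      rw [← this]; exact hda
  · intro hpend a ha b hb h2
    obtain ⟨a', b', -, hda, hdb, har, hab1, hab2, hL1, hL2, n1, n2, n3, n4, -⟩ :=
      tedge_core hn hL ha hb h2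
    rcases har with ⟨h3, h4⟩ | ⟨h3, h4⟩
    · exfalso
      have m1 : L (v - 1) ≤ L (a' - 1) := hmono (by omega)
      have m2 : L a' ≤ L v' := hmono h4
      exact n2 ⟨by omega, by omega⟩
    · by_cases h5 : a' = L v
      · left; rw [← h5]; exact hda
      · right
        have : a' = L v' := by
          by_contra hne
          have m1 : L (L v) ≤ L (a' - 1) := hmono (by omega)
          have m2 : L a' ≤ L (L v' - 1) := hmono (by omega)
          exact n3 ⟨by omega, by omega⟩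
        rw [← this]; exact hda
  · intro hpend a ha b hb h2
    obtain ⟨a', b', ⟨k, hk⟩, hda, hdb, har, hab1, hab2, hL1, hL2, n1, n2, n3, n4, htt⟩ :=
      tedge_core hn hL ha hb h2
    rcases har with ⟨h3, h4⟩ | ⟨h3, h4⟩
    · exact ⟨k, by rw [← hk]; omega, by rw [← hk]; omega⟩
    · exfalso
      have m1 : L (L v) ≤ L (a' - 1) := hmono (by omega)
      have m2 : L a' ≤ L (L v' - 1) := hmono (by omega)
      have hb' : b' = v' + n := by
        by_contra hne
        exact n3 ⟨by omega, by omega⟩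
      rw [hb', c.z_add, norm_sub_rev] at htt
      have := (hL.piv.tight v' a' (by omega) (by omega)).1 htt
      omega

end Pool.Agent.EHP
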