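import Pool.Agent.EHP.Stmts2

/-!
# Radial gain of the far pairs
-/

open Finset
open scoped Real ComplexConjugate

namespace Pool.Agent.EHP

namespace M_TFAR

/-- `sinh² y ≤ (1 + ε)² y²` for small `y`. -/
theorem sinh_sq_le {y ε : ℝ} (hε : ε ≤ 1) (hy : |y| ≤ ε) :
    Real.sinh y ^ 2 ≤ (1 + ε) ^ 2 * y ^ 2 := by
  have h1 := Real.abs_exp_sub_one_sub_id_le (x := y) (hy.trans hε)
  have h2 := Real.abs_exp_sub_one_sub_id_le (x := -y) (by rw [abs_neg]; exact hy.trans hε)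
  have h3 : |Real.sinh y - y| ≤ y ^ 2 := by
    rw [Real.sinh_eq]
    rw [abs_le] at h1 h2 ⊢
    rw [neg_sq] at h2
    constructor
    · linarith [h1.1, h2.2]
    · linarith [h1.2, h2.1]
  have h4 : |Real.sinh y| ≤ (1 + ε) * |y| := by
    have h5 : |Real.sinh y| ≤ |Real.sinh y - y| + |y| := by
      have := abs_add_le (Real.sinh y - y) y
      rwa [sub_add_cancel] at this
    have h6 : y ^ 2 ≤ ε * |y| := by
      rw [← sq_abs, sq]
      exact mul_le_mul_of_nonneg_right hy (abs_nonneg y)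
    linarith
  have h7 : Real.sinh y ^ 2 = |Real.sinh y| ^ 2 := (sq_abs _).symm
  rw [h7, ← sq_abs y, ← mul_pow]
  exact pow_le_pow_left₀ (abs_nonneg _) h4 2

/-- The sine is `1`-Lipschitz. -/
theorem sin_ge {a x ε : ℝ} (h : |x - a| ≤ ε) : Real.sin a - ε ≤ Real.sin x := by
  have h1 : |Real.sin x - Real.sin a| ≤ |x - a| := by
    have := Real.abs_sin_sub_sin_le x a
    exact this
  have h2 := (abs_le.1 (h1.trans h)).1
  linarith

end M_TFAR

open M_TFAR in
theorem m_TFAR : Stmt_TFAR := by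
  intro κ hκ
  refine ⟨min (1 / 8) (κ / 10), by positivity, 1, ?_⟩
  intro n hn c hc d hd1 hdn hlo hhi
  set ε : ℝ := min (1 / 8) (κ / 10) with hε
  have hε0 : 0 < ε := by rw [hε]; positivity
  have hε1 : ε ≤ 1 / 8 := min_le_left _ _
  have hε2 : ε ≤ κ / 10 := min_le_right _ _
  have hn0 : (0 : ℝ) < n := by exact_mod_cast (by omega : 0 < n)
  have hd0 : (0 : ℝ) < d := by exact_mod_cast (by omega : 0 < d)
  set a : ℝ := π * d / n with ha
  have ha1 : π / 6 ≤ a := by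
    have h1 : 0.57 < a := by
      rw [ha, lt_div_iff₀ hn0]; exact hlo
    have := Real.pi_lt_d2
    linarith
  have ha2 : a ≤ 5 * π / 6 := by
    have h1 : a < π - 0.57 := by
      rw [ha, div_lt_iff₀ hn0]
      linarith
    have := Real.pi_lt_d2
    linarith
  have hsin : 1 / 2 ≤ Real.sin a := by
    rcases le_total a (π / 2) with h | h
    · have h1 : Real.sin (π / 6) ≤ Real.sin a :=
        Real.sin_le_sin_of_le_of_le_pi_div_two (by linarith [Real.pi_pos]) h ha1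
      rw [Real.sin_pi_div_six] at h1
      exact h1
    · have h1 : Real.sin (π / 6) ≤ Real.sin (π - a) :=
        Real.sin_le_sin_of_le_of_le_pi_div_two (by linarith [Real.pi_pos]) (by linarith)
          (by linarith)
      rw [Real.sin_pi_div_six, Real.sin_pi_sub] at h1
      exact h1
  have hs0 : 0 < Real.sin a := by linarith
  -- one pair
  have hpair : ∀ j : ℤ, Real.log (1 + Real.sinh (c.Y (j + (d : ℤ)) j) ^ 2 /
      Real.sin (c.X (j + (d : ℤ)) j) ^ 2) ≤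
      (1 + κ) / Real.sin a ^ 2 * c.Y (j + (d : ℤ)) j ^ 2 := by
    intro j
    have hX : |c.X (j + (d : ℤ)) j - a| ≤ ε := by
      have h1 : c.X (j + (d : ℤ)) j - a = (c.φ (j + (d : ℤ)) - c.φ j) / 2 := by
        unfold Cfg.X Cfg.φ
        rw [ha]
        push_cast
        field_simp
        ring
      rw [h1, abs_div, abs_two]
      have h2 := abs_sub (c.φ (j + (d : ℤ))) (c.φ j)
      have h3 := hc.hφ (j + (d : ℤ))
      have h4 := hc.hφ j
      linarith
    have hY : |c.Y (j + (d : ℤ)) j| ≤ ε := by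
      unfold Cfg.Y
      rw [abs_div, abs_two]
      have h2 := abs_sub (c.ρ (j + (d : ℤ))) (c.ρ j)
      have h3 := hc.hρ (j + (d : ℤ))
      have h4 := hc.hρ j
      linarith
    set X : ℝ := c.X (j + (d : ℤ)) j with hXd
    set Y : ℝ := c.Y (j + (d : ℤ)) j with hYd
    have hsX : Real.sin a * (1 - 2 * ε) ≤ Real.sin X := by
      have := sin_ge hX
      nlinarith
    have hpos : 0 < Real.sin a * (1 - 2 * ε) := mul_pos hs0 (by linarith)
    have hsX0 : 0 < Real.sin X := by linarith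
    have hu : 0 ≤ Real.sinh Y ^ 2 / Real.sin X ^ 2 := by positivity
    have h1 : Real.log (1 + Real.sinh Y ^ 2 / Real.sin X ^ 2) ≤
        Real.sinh Y ^ 2 / Real.sin X ^ 2 := by
      have := Real.log_le_sub_one_of_pos (x := 1 + Real.sinh Y ^ 2 / Real.sin X ^ 2) (by linarith)
      linarith
    refine h1.trans ?_
    have h2 : Real.sinh Y ^ 2 / Real.sin X ^ 2 ≤
        (1 + ε) ^ 2 * Y ^ 2 / (Real.sin a * (1 - 2 * ε)) ^ 2 := by
      apply div_le_div₀ (by positivity) (sinh_sq_le (by linarith) hY) (by positivity)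
      exact pow_le_pow_left₀ hpos.le hsX 2
    refine h2.trans ?_
    have h3 : (1 + ε) ^ 2 ≤ (1 + κ) * (1 - 2 * ε) ^ 2 := by
      have h4 : (1 + ε) ≤ (1 + 4 * ε) * (1 - 2 * ε) := by nlinarith
      have h5 : (1 + ε) ^ 2 ≤ ((1 + 4 * ε) * (1 - 2 * ε)) ^ 2 :=
        pow_le_pow_left₀ (by linarith) h4 2
      have h6 : (1 + 4 * ε) ^ 2 ≤ 1 + κ := by nlinarith
      rw [mul_pow] at h5
      exact h5.trans (mul_le_mul_of_nonneg_right h6 (sq_nonneg _))
    have h12 : 0 < 1 - 2 * ε := by linarith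
    rw [mul_pow, div_mul_eq_mul_div, div_le_div_iff₀ (by positivity) (by positivity)]
    have h7 := mul_le_mul_of_nonneg_right h3 (by positivity : 0 ≤ Y ^ 2 * Real.sin a ^ 2)
    calc (1 + ε) ^ 2 * Y ^ 2 * Real.sin a ^ 2 = (1 + ε) ^ 2 * (Y ^ 2 * Real.sin a ^ 2) := by ring
      _ ≤ _ := h7
      _ = _ := by ring
  -- the sum of the squares
  have hsq : ∑ j ∈ range n, c.Y ((j : ℤ) + (d : ℤ)) (j : ℤ) ^ 2 ≤
      ∑ j ∈ range n, c.ρ (j : ℤ) ^ 2 := by
    have h1 : ∑ j ∈ range n, c.ρ ((j : ℤ) + (d : ℤ)) ^ 2 = ∑ j ∈ range n, c.ρ (j : ℤ) ^ 2 :=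
      sum_shift (f := fun j => c.ρ j ^ 2) (fun j => by rw [c.ρ_add]) (d : ℤ)
    have h2 : ∀ j ∈ range n, c.Y ((j : ℤ) + (d : ℤ)) (j : ℤ) ^ 2 ≤
        (c.ρ ((j : ℤ) + (d : ℤ)) ^ 2 + c.ρ (j : ℤ) ^ 2) / 2 := by
      intro j _
      unfold Cfg.Y
      nlinarith [sq_nonneg (c.ρ ((j : ℤ) + (d : ℤ)) + c.ρ (j : ℤ))]
    refine (Finset.sum_le_sum h2).trans (le_of_eq ?_)
    rw [← Finset.sum_div, Finset.sum_add_distrib, h1]
    ring
  have hk : 0 ≤ (1 + κ) / Real.sin a ^ 2 := by positivity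
  calc Td c d ≤ ∑ j ∈ range n, (1 + κ) / Real.sin a ^ 2 *
        c.Y ((j : ℤ) + (d : ℤ)) (j : ℤ) ^ 2 := by
        unfold Td
        exact Finset.sum_le_sum fun j _ => hpair (j : ℤ)
    _ = (1 + κ) / Real.sin a ^ 2 * ∑ j ∈ range n, c.Y ((j : ℤ) + (d : ℤ)) (j : ℤ) ^ 2 := by
        rw [Finset.mul_sum]
    _ ≤ _ := mul_le_mul_of_nonneg_left hsq hk

end Pool.Agent.EHP
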