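import Pool.Agent.EHP.Stmts2
import Pool.Agent.EHP.MDDLB

/-!
# Radial gain of the near pairs
-/

open Finset
open scoped Real ComplexConjugate

namespace Pool.Agent.EHP

namespace M_TNEAR

/-- `sinh² y ≤ (1 + ε)² y²` for small `y`. -/
theorem sinh_sq_le {y ε : ℝ} (hε : ε ≤ 1) (hy : |y| ≤ ε) :
    Real.sinh y ^ 2 ≤ (1 + ε) ^ 2 * y ^ 2 := by
  have h1 := Real.abs_exp_sub_one_sub_id_le (x := y) (hy.trans hε)
  have h2 := Real.abs_exp_sub_one_sub_id_le (x := -y) (by rw [abs_neg]; exact hy.trans hε)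
  have h3 : |Real.sinh y - y| ≤ y ^ 2 := by
    rw [Real.sinh_eq]
    rw [abs_le] at h1 h2 ⊢
    rw [neg_sq] at h2
    constructor
    · linarith [h1.1, h2.2]
    · linarith [h1.2, h2.1]
  have h4 : |Real.sinh y| ≤ (1 + ε) * |y| := by
    have h5 : |Real.sinh y| ≤ |Real.sinh y - y| + |y| := by
      have := abs_add_le (Real.sinh y - y) y
      rwa [sub_add_cancel] at this
    have h6 : y ^ 2 ≤ ε * |y| := by
      rw [← sq_abs, sq]
      exact mul_le_mul_of_nonneg_right hy (abs_nonneg y)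
    linarith
  have h7 : Real.sinh y ^ 2 = |Real.sinh y| ^ 2 := (sq_abs _).symm
  rw [h7, ← sq_abs y, ← mul_pow]
  exact pow_le_pow_left₀ (abs_nonneg _) h4 2

theorem nn_of_deriv {f f' : ℝ → ℝ} (hf : ∀ x, HasDerivAt f (f' x) x) (h0 : f 0 = 0)
    (h : ∀ x, 0 ≤ x → 0 ≤ f' x) : ∀ x, 0 ≤ x → 0 ≤ f x := by
  intro x hx
  have hm : MonotoneOn f (Set.Ici 0) := by
    refine monotoneOn_of_deriv_nonneg (convex_Ici _)
      (fun x _ => (hf x).continuousAt.continuousWithinAt)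
      (fun x _ => (hf x).differentiableAt.differentiableWithinAt) ?_
    intro y hy
    rw [interior_Ici] at hy
    rw [(hf y).deriv]
    exact h y (le_of_lt hy)
  have := hm (Set.mem_Ici.2 le_rfl) (Set.mem_Ici.2 hx) hx
  rw [h0] at this
  exact this

theorem dpow (k : ℕ) (c x : ℝ) :
    HasDerivAt (fun x : ℝ => x ^ (k + 1) / c) (((k : ℝ) + 1) * x ^ k / c) x := by
  have h := (hasDerivAt_pow (k + 1) x).div_const c
  simpa using h

theorem s1 : ∀ x : ℝ, 0 ≤ x → 0 ≤ x - Real.sin x :=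
  nn_of_deriv (f' := fun x => 1 - Real.cos x)
    (fun x => (hasDerivAt_id x).sub (Real.hasDerivAt_sin x)) (by simp)
    (fun x _ => by linarith [Real.cos_le_one x])

theorem c2 : ∀ x : ℝ, 0 ≤ x → 0 ≤ Real.cos x - 1 + x ^ 2 / 2 :=
  nn_of_deriv (f' := fun x => -Real.sin x + ((1 : ℕ) + 1) * x ^ 1 / 2)
    (fun x => ((Real.hasDerivAt_cos x).sub_const 1).add (dpow 1 2 x)) (by simp)
    (fun x hx => by have := s1 x hx; push_cast; linarith)

theorem s3 : ∀ x : ℝ, 0 ≤ x → 0 ≤ Real.sin x - x + x ^ 3 / 6 :=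
  nn_of_deriv (f' := fun x => Real.cos x - 1 + ((2 : ℕ) + 1) * x ^ 2 / 6)
    (fun x => ((Real.hasDerivAt_sin x).sub (hasDerivAt_id x)).add (dpow 2 6 x)) (by simp)
    (fun x hx => by have := c2 x hx; push_cast; linarith)

theorem c4 : ∀ x : ℝ, 0 ≤ x → 0 ≤ 1 - Real.cos x - x ^ 2 / 2 + x ^ 4 / 24 :=
  nn_of_deriv (f' := fun x => -(-Real.sin x) - ((1 : ℕ) + 1) * x ^ 1 / 2 +
      ((3 : ℕ) + 1) * x ^ 3 / 24)
    (fun x => (((Real.hasDerivAt_cos x).const_sub 1).sub (dpow 1 2 x)).add (dpow 3 24 x)) (by simp)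
    (fun x hx => by have := s3 x hx; push_cast; linarith)

theorem s5 : ∀ x : ℝ, 0 ≤ x → 0 ≤ x - Real.sin x - x ^ 3 / 6 + x ^ 5 / 120 :=
  nn_of_deriv (f' := fun x => 1 - Real.cos x - ((2 : ℕ) + 1) * x ^ 2 / 6 +
      ((4 : ℕ) + 1) * x ^ 4 / 120)
    (fun x => (((hasDerivAt_id x).sub (Real.hasDerivAt_sin x)).sub (dpow 2 6 x)).add
      (dpow 4 120 x)) (by simp)
    (fun x hx => by have := c4 x hx; push_cast; linarith)

theorem c6 : ∀ x : ℝ, 0 ≤ x → 0 ≤ Real.cos x - 1 + x ^ 2 / 2 - x ^ 4 / 24 + x ^ 6 / 720 :=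
  nn_of_deriv (f' := fun x => -Real.sin x + ((1 : ℕ) + 1) * x ^ 1 / 2 -
      ((3 : ℕ) + 1) * x ^ 3 / 24 + ((5 : ℕ) + 1) * x ^ 5 / 720)
    (fun x => ((((Real.hasDerivAt_cos x).sub_const 1).add (dpow 1 2 x)).sub (dpow 3 24 x)).add
      (dpow 5 720 x)) (by simp)
    (fun x hx => by have := s5 x hx; push_cast; linarith)

theorem s7 : ∀ x : ℝ, 0 ≤ x →
    0 ≤ Real.sin x - x + x ^ 3 / 6 - x ^ 5 / 120 + x ^ 7 / 5040 :=
  nn_of_deriv (f' := fun x => Real.cos x - 1 + ((2 : ℕ) + 1) * x ^ 2 / 6 -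
      ((4 : ℕ) + 1) * x ^ 4 / 120 + ((6 : ℕ) + 1) * x ^ 6 / 5040)
    (fun x => ((((Real.hasDerivAt_sin x).sub (hasDerivAt_id x)).add (dpow 2 6 x)).sub
      (dpow 4 120 x)).add (dpow 6 5040 x)) (by simp)
    (fun x hx => by have := c6 x hx; push_cast; linarith)

/-- `sin a ≥ 0.9467 a` for `0 ≤ a ≤ 0.57`. -/
theorem sin_lb {a : ℝ} (h0 : 0 ≤ a) (h1 : a ≤ 0.57) : 0.9467 * a ≤ Real.sin a := by
  have h := s7 a h0
  set u : ℝ := a ^ 2 with hu
  have hu0 : 0 ≤ u := sq_nonneg _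
  have hu1 : u ≤ 0.3249 := by rw [hu]; nlinarith
  have hp : 0.9467 ≤ 1 - u / 6 + u ^ 2 / 120 - u ^ 3 / 5040 := by
    have h2 : u ^ 3 ≤ 0.3249 * u ^ 2 := by nlinarith [sq_nonneg u]
    nlinarith
  have h3 : Real.sin a ≥ a * (1 - u / 6 + u ^ 2 / 120 - u ^ 3 / 5040) := by
    have : a * (1 - u / 6 + u ^ 2 / 120 - u ^ 3 / 5040) =
        a - a ^ 3 / 6 + a ^ 5 / 120 - a ^ 7 / 5040 := by rw [hu]; ring
    rw [this]; linarith
  have h4 := mul_le_mul_of_nonneg_left hp h0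
  linarith

/-- Lower bound of `D` for `X ≤ a`. -/
theorem DD_lb {a X : ℝ} (ha : 0 < a) (hap : a < π) (hX : 0 < X) (h : X ≤ a) :
    (X - a) ^ 2 / (2 * a ^ 2) ≤ DD a X := by
  have hsa : 0 < Real.sin a := Real.sin_pos_of_pos_of_lt_pi ha hap
  have ha2 : 0 < a ^ 2 := by positivity
  have hsub : Set.Icc X a ⊆ Set.Ioo (0 : ℝ) π := fun x hx =>
    ⟨lt_of_lt_of_le hX hx.1, lt_of_le_of_lt hx.2 hap⟩
  have hg : ∀ x ∈ Set.Ioo (0 : ℝ) π, HasDerivAt
      (fun x : ℝ => Real.cos a / Real.sin a - Real.cos x / Real.sin x - (x - a) / a ^ 2)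
      (1 / Real.sin x ^ 2 - 1 / a ^ 2) x := by
    intro x hx
    have hs : 0 < Real.sin x := Real.sin_pos_of_pos_of_lt_pi hx.1 hx.2
    have h1 := (Real.hasDerivAt_cos x).div (Real.hasDerivAt_sin x) hs.ne'
    have h2 := (h1.const_sub (Real.cos a / Real.sin a)).sub
      (((hasDerivAt_id x).sub_const a).div_const (a ^ 2))
    have h3 := Real.sin_sq_add_cos_sq x
    have h4 : -Real.sin x * Real.sin x - Real.cos x * Real.cos x = -1 := by nlinarith
    have h5 : -((-Real.sin x * Real.sin x - Real.cos x * Real.cos x) / Real.sin x ^ 2) -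
        1 / a ^ 2 = 1 / Real.sin x ^ 2 - 1 / a ^ 2 := by
      rw [h4]
      ring
    rw [← h5]
    exact h2
  have hgm : MonotoneOn
      (fun x : ℝ => Real.cos a / Real.sin a - Real.cos x / Real.sin x - (x - a) / a ^ 2)
      (Set.Icc X a) := by
    refine monotoneOn_of_deriv_nonneg (convex_Icc _ _)
      (fun x hx => (hg x (hsub hx)).continuousAt.continuousWithinAt) ?_ ?_
    · intro x hx
      exact (hg x (hsub (interior_subset hx))).differentiableAt.differentiableWithinAt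
    · intro x hx
      have hx' := interior_subset hx
      rw [(hg x (hsub hx')).deriv]
      have hx0 := (hsub hx').1
      have hs : 0 < Real.sin x := Real.sin_pos_of_pos_of_lt_pi hx0 (hsub hx').2
      have h1 : Real.sin x ≤ a := (Real.sin_le hx0.le).trans hx'.2
      have h2 : Real.sin x ^ 2 ≤ a ^ 2 := pow_le_pow_left₀ hs.le h1 2
      have h3 : 1 / a ^ 2 ≤ 1 / Real.sin x ^ 2 := one_div_le_one_div_of_le (by positivity) h2
      linarith
  have hf : ∀ x ∈ Set.Ioo (0 : ℝ) π, HasDerivAt (fun x : ℝ => DD a x - (x - a) ^ 2 / (2 * a ^ 2))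
      (Real.cos a / Real.sin a - Real.cos x / Real.sin x - (x - a) / a ^ 2) x := by
    intro x hx
    have hs : 0 < Real.sin x := Real.sin_pos_of_pos_of_lt_pi hx.1 hx.2
    have h0 : HasDerivAt (fun x : ℝ => Real.sin x / Real.sin a) (Real.cos x / Real.sin a) x :=
      (Real.hasDerivAt_sin x).div_const _
    have h1 := (h0.log (div_pos hs hsa).ne').neg
    have h2 := ((hasDerivAt_id x).sub_const a).mul_const (Real.cos a / Real.sin a)
    have h3 := ((((hasDerivAt_id x).sub_const a).pow 2)).div_const (2 * a ^ 2)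
    have h4 := (h1.add h2).sub h3
    have h5 : -(Real.cos x / Real.sin a / (Real.sin x / Real.sin a)) +
        1 * (Real.cos a / Real.sin a) -
        ((2 : ℕ) : ℝ) * (id x - a) ^ (2 - 1) * 1 / (2 * a ^ 2) =
        Real.cos a / Real.sin a - Real.cos x / Real.sin x - (x - a) / a ^ 2 := by
      rw [div_div_div_cancel_right₀ hsa.ne']
      simp only [id]
      push_cast
      field_simp
      ring
    rw [← h5]
    exact h4
  have hfa : DD a a - (a - a) ^ 2 / (2 * a ^ 2) = 0 := by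
    simp [DD, div_self hsa.ne']
  have hm : AntitoneOn (fun x : ℝ => DD a x - (x - a) ^ 2 / (2 * a ^ 2)) (Set.Icc X a) := by
    refine antitoneOn_of_deriv_nonpos (convex_Icc _ _)
      (fun x hx => (hf x (hsub hx)).continuousAt.continuousWithinAt) ?_ ?_
    · intro x hx
      exact (hf x (hsub (interior_subset hx))).differentiableAt.differentiableWithinAt
    · intro x hx
      have hx' := interior_subset hx
      rw [(hf x (hsub hx')).deriv]
      have := hgm hx' (Set.right_mem_Icc.2 h) hx'.2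
      simp only [sub_self, zero_div] at this
      linarith
  have := hm (Set.left_mem_Icc.2 h) (Set.right_mem_Icc.2 h) h
  simp only at this
  rw [hfa] at this
  linarith

/-- `sin² t / t` increases on `(0, 1]`. -/
theorem mono_aux {u v : ℝ} (hu : 0 < u) (huv : u ≤ v) (hv : v ≤ 1) :
    v * Real.sin u ^ 2 ≤ u * Real.sin v ^ 2 := by
  have hd : ∀ x ∈ Set.Icc u v, HasDerivAt (fun x : ℝ => Real.sin x ^ 2 / x)
      ((2 * Real.sin x * Real.cos x * x - Real.sin x ^ 2) / x ^ 2) x := by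
    intro x hx
    have hx0 : x ≠ 0 := (lt_of_lt_of_le hu hx.1).ne'
    have h1 := ((Real.hasDerivAt_sin x).pow 2).div (hasDerivAt_id x) hx0
    have h2 : (((2 : ℕ) : ℝ) * Real.sin x ^ (2 - 1) * Real.cos x * id x -
        Real.sin x ^ 2 * 1) / id x ^ 2 =
        (2 * Real.sin x * Real.cos x * x - Real.sin x ^ 2) / x ^ 2 := by
      simp
    rw [← h2]
    exact h1
  have hm : MonotoneOn (fun x : ℝ => Real.sin x ^ 2 / x) (Set.Icc u v) := by
    refine monotoneOn_of_deriv_nonneg (convex_Icc _ _)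
      (fun x hx => (hd x hx).continuousAt.continuousWithinAt)
      (fun x hx => (hd x (interior_subset hx)).differentiableAt.differentiableWithinAt) ?_
    intro x hx
    have hx' := interior_subset hx
    rw [(hd x hx').deriv]
    have hx0 : 0 < x := lt_of_lt_of_le hu hx'.1
    have hx1 : x ≤ 1 := hx'.2.trans hv
    have hs : 0 < Real.sin x := Real.sin_pos_of_pos_of_lt_pi hx0 (by linarith [Real.pi_gt_three])
    have h1 := c2 x hx0.le
    have h2 := s1 x hx0.le
    have h3 : 1 / 2 ≤ Real.cos x := by nlinarith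
    apply div_nonneg _ (by positivity)
    have h4 : Real.sin x ≤ 2 * Real.cos x * x := by nlinarith
    nlinarith
  have h := hm (Set.left_mem_Icc.2 huv) (Set.right_mem_Icc.2 huv) huv
  simp only at h
  rw [div_le_div_iff₀ hu (lt_of_lt_of_le hu huv)] at h
  linarith

/-- `sin (l a) ≥ l sin a` for `l ≤ 1`. -/
theorem sin_mul_lb {l a : ℝ} (hl0 : 0 ≤ l) (hl : l ≤ 1) (ha : 0 ≤ a) (hap : a ≤ π) :
    l * Real.sin a ≤ Real.sin (l * a) := by
  have hc := strictConcaveOn_sin_Icc.concaveOn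
  have h0 : (0 : ℝ) ∈ Set.Icc (0 : ℝ) π := ⟨le_rfl, Real.pi_pos.le⟩
  have h1 : a ∈ Set.Icc (0 : ℝ) π := ⟨ha, hap⟩
  have h := hc.2 h0 h1 (sub_nonneg.2 hl) hl0 (by ring)
  simpa using h

/-- One pair. -/
theorem pair {κ k a X Y s : ℝ} (hk0 : 0 < k) (hk1 : k ≤ 1) (hkκ : k ≤ κ) (ha : 0 < a)
    (ha1 : a ≤ 0.57) (hX : 0 < X) (hXa : |X - a| ≤ k ^ 2 / 100) (hY : |Y| ≤ k ^ 2 / 100 * X)
    (hYs : Y ^ 2 ≤ X * s / 2) (hs : 0 ≤ s) :
    Real.log (1 + Real.sinh Y ^ 2 / Real.sin X ^ 2) ≤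
      κ * DD a X + (1 + κ) * (a / Real.sin a ^ 2 * s / 2) := by
  set ε : ℝ := k ^ 2 / 100 with hε
  have hk2 : k ^ 2 ≤ k := by nlinarith
  have hε0 : 0 < ε := by rw [hε]; positivity
  have hεk : ε ≤ k / 100 := by rw [hε]; linarith
  have hκ : 0 < κ := by linarith
  have hXa' := abs_le.1 hXa
  have hX1 : X ≤ 1 := by linarith
  have hpi := Real.pi_gt_three
  have hsX0 : 0 < Real.sin X := Real.sin_pos_of_pos_of_lt_pi hX (by linarith)
  have hsa : 0 < Real.sin a := Real.sin_pos_of_pos_of_lt_pi ha (by linarith)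
  have hYε : |Y| ≤ ε := hY.trans (by nlinarith)
  have hD : 0 ≤ DD a X := le_trans (by positivity)
    (m_DDLB a X ha (by linarith) hX (by linarith))
  have h1 : Real.log (1 + Real.sinh Y ^ 2 / Real.sin X ^ 2) ≤
      Real.sinh Y ^ 2 / Real.sin X ^ 2 := by
    have hu : 0 ≤ Real.sinh Y ^ 2 / Real.sin X ^ 2 := by positivity
    have := Real.log_le_sub_one_of_pos (x := 1 + Real.sinh Y ^ 2 / Real.sin X ^ 2) (by linarith)
    linarith
  refine h1.trans ?_
  have h2 := sinh_sq_le (by linarith : ε ≤ 1) hYε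
  have hrest : 0 ≤ (1 + κ) * (a / Real.sin a ^ 2 * s / 2) := by positivity
  rcases lt_or_ge X ((1 - k / 8) * a) with hcase | hcase
  · -- small `X`
    have h3 : (k / 8) ^ 2 / 2 ≤ DD a X := by
      refine le_trans ?_ (DD_lb ha (by linarith) hX (by nlinarith))
      rw [div_le_div_iff₀ (by norm_num) (by positivity)]
      have h4 : k / 8 * a ≤ a - X := by linarith
      have h5 : (k / 8 * a) ^ 2 ≤ (a - X) ^ 2 := pow_le_pow_left₀ (by positivity) h4 2
      nlinarith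
    have h4 : 5 / 6 * X ≤ Real.sin X := by
      have := s3 X hX.le
      nlinarith [mul_pos hX hX]
    have h5 : Real.sinh Y ^ 2 / Real.sin X ^ 2 ≤ 4 * ε ^ 2 := by
      rw [div_le_iff₀ (by positivity)]
      have h6 : Y ^ 2 ≤ ε ^ 2 * X ^ 2 := by
        rw [← sq_abs Y, ← mul_pow]
        exact pow_le_pow_left₀ (abs_nonneg _) hY 2
      have h7 : (5 / 6 * X) ^ 2 ≤ Real.sin X ^ 2 := pow_le_pow_left₀ (by positivity) h4 2
      have h8 : (1 + ε) ^ 2 ≤ 2 := by nlinarith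
      calc Real.sinh Y ^ 2 ≤ (1 + ε) ^ 2 * Y ^ 2 := h2
        _ ≤ 2 * (ε ^ 2 * X ^ 2) := by
            apply mul_le_mul h8 h6 (sq_nonneg _) (by norm_num)
        _ ≤ 4 * ε ^ 2 * (5 / 6 * X) ^ 2 := by
            have : 0 ≤ ε ^ 2 * X ^ 2 := by positivity
            nlinarith
        _ ≤ 4 * ε ^ 2 * Real.sin X ^ 2 := by
            apply mul_le_mul_of_nonneg_left h7 (by positivity)
    have h6 : 4 * ε ^ 2 ≤ κ * DD a X := by
      have h7 : 4 * ε ^ 2 ≤ k * ((k / 8) ^ 2 / 2) := by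
        have h8 : k ^ 4 ≤ k ^ 3 := by
          have : 0 ≤ k ^ 3 * (1 - k) := mul_nonneg (by positivity) (by linarith)
          nlinarith
        have h9 : 4 * ε ^ 2 = k ^ 4 / 2500 := by rw [hε]; ring
        have h10 : k * ((k / 8) ^ 2 / 2) = k ^ 3 / 128 := by ring
        rw [h9, h10]
        have : 0 ≤ k ^ 3 := by positivity
        linarith
      have h8 : k * ((k / 8) ^ 2 / 2) ≤ κ * DD a X :=
        mul_le_mul hkκ h3 (by positivity) hκ.le
      linarith
    linarith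
  · -- the other `X`
    have hl : 0 < 1 - k / 8 := by linarith
    have hX₀ : 0 < (1 - k / 8) * a := by positivity
    have h3 := mono_aux hX₀ hcase hX1
    have h4 : (1 - k / 8) * Real.sin a ≤ Real.sin ((1 - k / 8) * a) :=
      sin_mul_lb hl.le (by linarith) ha.le (by linarith)
    have h5 : ((1 - k / 8) * Real.sin a) ^ 2 ≤ Real.sin ((1 - k / 8) * a) ^ 2 :=
      pow_le_pow_left₀ (by positivity) h4 2
    have h6 : X * ((1 - k / 8) * Real.sin a ^ 2) ≤ a * Real.sin X ^ 2 := by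
      have h7 := (mul_le_mul_of_nonneg_left h5 hX.le).trans h3
      have h8 : X * ((1 - k / 8) * Real.sin a) ^ 2 =
          (1 - k / 8) * (X * ((1 - k / 8) * Real.sin a ^ 2)) := by ring
      have h9 : (1 - k / 8) * a * Real.sin X ^ 2 = (1 - k / 8) * (a * Real.sin X ^ 2) := by ring
      rw [h8, h9] at h7
      exact le_of_mul_le_mul_left h7 hl
    have h7 : (1 + ε) ^ 2 ≤ (1 + κ) * (1 - k / 8) := by
      have h8 : (1 + ε) ^ 2 ≤ (1 + k) * (1 - k / 8) := by nlinarith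
      have h9 : (1 + k) * (1 - k / 8) ≤ (1 + κ) * (1 - k / 8) :=
        mul_le_mul_of_nonneg_right (by linarith) hl.le
      linarith
    have h8 : Real.sinh Y ^ 2 / Real.sin X ^ 2 ≤ (1 + κ) * (a / Real.sin a ^ 2 * s / 2) := by
      rw [div_le_iff₀ (by positivity)]
      have h9 : (1 + κ) * (a / Real.sin a ^ 2 * s / 2) * Real.sin X ^ 2 =
          (1 + κ) * (a * Real.sin X ^ 2) / Real.sin a ^ 2 * s / 2 := by ring
      rw [h9]
      have h10 : (1 + κ) * (1 - k / 8) * X ≤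
          (1 + κ) * (a * Real.sin X ^ 2) / Real.sin a ^ 2 := by
        rw [le_div_iff₀ (by positivity)]
        have := mul_le_mul_of_nonneg_left h6 (by linarith : 0 ≤ 1 + κ)
        linarith
      calc Real.sinh Y ^ 2 ≤ (1 + ε) ^ 2 * Y ^ 2 := h2
        _ ≤ (1 + κ) * (1 - k / 8) * (X * s / 2) := by
            apply mul_le_mul h7 hYs (sq_nonneg _)
            positivity
        _ = (1 + κ) * (1 - k / 8) * X * (s / 2) := by ring
        _ ≤ (1 + κ) * (a * Real.sin X ^ 2) / Real.sin a ^ 2 * (s / 2) :=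
            mul_le_mul_of_nonneg_right h10 (by positivity)
        _ = _ := by ring
    have h11 : 0 ≤ κ * DD a X := by positivity
    linarith

theorem tele (f : ℤ → ℝ) (j : ℤ) (d : ℕ) :
    ∑ l ∈ range d, (f (j + (l : ℤ) + 1) - f (j + (l : ℤ))) = f (j + (d : ℤ)) - f j := by
  induction d with
  | zero => simp
  | succ m ih =>
    rw [Finset.sum_range_succ, ih]
    have : j + ((m + 1 : ℕ) : ℤ) = j + (m : ℤ) + 1 := by push_cast; ring
    rw [this]
    ring

end M_TNEAR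

open M_TNEAR in
theorem m_TNEAR : Stmt_TNEAR := by
  intro κ hκ
  set k : ℝ := min κ 1 with hk
  have hk0 : 0 < k := by rw [hk]; positivity
  have hk1 : k ≤ 1 := min_le_right _ _
  have hkκ : k ≤ κ := min_le_left _ _
  refine ⟨k ^ 2 / 100, by positivity, 1, ?_⟩
  intro n hn c hc d hd1 hlo
  have hn0 : (0 : ℝ) < n := by exact_mod_cast (by omega : 0 < n)
  have hd0 : (0 : ℝ) < d := by exact_mod_cast (by omega : 0 < d)
  set a : ℝ := π * d / n with ha
  have ha0 : 0 < a := by rw [ha]; positivity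
  have ha1 : a ≤ 0.57 := by rw [ha, div_le_iff₀ hn0]; exact hlo
  set s : ℤ → ℝ := fun j => ∑ l ∈ range d, c.Δ (j + (l : ℤ)) ^ 2 / c.g (j + (l : ℤ)) with hs
  have hs0 : ∀ j, 0 ≤ s j := by
    intro j
    apply Finset.sum_nonneg
    intro l _
    have := c.g_pos (j + (l : ℤ))
    positivity
  have hpair : ∀ j : ℤ, Real.log (1 + Real.sinh (c.Y (j + (d : ℤ)) j) ^ 2 /
      Real.sin (c.X (j + (d : ℤ)) j) ^ 2) ≤
      κ * DD a (c.X (j + (d : ℤ)) j) + (1 + κ) * (a / Real.sin a ^ 2 * s j / 2) := by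
    intro j
    have hX0 : 0 < c.X (j + (d : ℤ)) j := by
      unfold Cfg.X
      have := c.mono (show j < j + (d : ℤ) by omega)
      linarith
    have hXa : |c.X (j + (d : ℤ)) j - a| ≤ k ^ 2 / 100 := by
      have h1 : c.X (j + (d : ℤ)) j - a = (c.φ (j + (d : ℤ)) - c.φ j) / 2 := by
        unfold Cfg.X Cfg.φ
        rw [ha]
        push_cast
        field_simp
        ring
      rw [h1, abs_div, abs_two]
      have h2 := abs_sub (c.φ (j + (d : ℤ))) (c.φ j)
      have h3 := hc.hφ (j + (d : ℤ))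
      have h4 := hc.hφ j
      linarith
    have hY : |c.Y (j + (d : ℤ)) j| ≤ k ^ 2 / 100 * c.X (j + (d : ℤ)) j := by
      have h1 := hc.slope (j + (d : ℤ)) j
      have h2 : |c.θ (j + (d : ℤ)) - c.θ j| = 2 * c.X (j + (d : ℤ)) j := by
        have h3 : c.θ (j + (d : ℤ)) - c.θ j = 2 * c.X (j + (d : ℤ)) j := by
          unfold Cfg.X; ring
        rw [h3]
        exact abs_of_pos (by linarith)
      rw [h2] at h1
      unfold Cfg.Y
      rw [abs_div, abs_two]
      linarith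
    have hYs : c.Y (j + (d : ℤ)) j ^ 2 ≤ c.X (j + (d : ℤ)) j * s j / 2 := by
      have h1 := Finset.sum_sq_le_sum_mul_sum_of_sq_le_mul (range d)
        (r := fun l : ℕ => c.Δ (j + (l : ℤ))) (f := fun l : ℕ => c.g (j + (l : ℤ)))
        (g := fun l : ℕ => c.Δ (j + (l : ℤ)) ^ 2 / c.g (j + (l : ℤ)))
        (fun l _ => (c.g_pos _).le)
        (fun l _ => by have := c.g_pos (j + (l : ℤ)); positivity)
        (fun l _ => by
          have := (c.g_pos (j + (l : ℤ))).ne'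
          rw [mul_div_cancel₀ _ this])
      have h2 : ∑ l ∈ range d, c.Δ (j + (l : ℤ)) = c.ρ (j + (d : ℤ)) - c.ρ j :=
        tele c.ρ j d
      have h3 : ∑ l ∈ range d, c.g (j + (l : ℤ)) = c.θ (j + (d : ℤ)) - c.θ j :=
        tele c.θ j d
      rw [h2, h3] at h1
      have h4 : c.Y (j + (d : ℤ)) j ^ 2 = (c.ρ (j + (d : ℤ)) - c.ρ j) ^ 2 / 4 := by
        unfold Cfg.Y; ring
      have h5 : c.X (j + (d : ℤ)) j * s j / 2 = (c.θ (j + (d : ℤ)) - c.θ j) * s j / 4 := by
        unfold Cfg.X; ring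
      rw [h4, h5]
      have h6 : s j = ∑ l ∈ range d, c.Δ (j + (l : ℤ)) ^ 2 / c.g (j + (l : ℤ)) := rfl
      rw [h6]
      linarith
    exact pair hk0 hk1 hkκ ha0 ha1 hX0 hXa hY hYs (hs0 j)
  -- the sum of the `s j`
  have hsum : ∑ j ∈ range n, s (j : ℤ) = d * c.S := by
    have h1 : ∀ l ∈ range d, ∑ j ∈ range n, c.Δ ((j : ℤ) + (l : ℤ)) ^ 2 /
        c.g ((j : ℤ) + (l : ℤ)) = c.S := by
      intro l _
      exact sum_shift (f := fun j => c.Δ j ^ 2 / c.g j)
        (fun j => by rw [c.Δ_add, c.g_add]) (l : ℤ)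
    have h2 : ∑ j ∈ range n, s (j : ℤ) = ∑ l ∈ range d, ∑ j ∈ range n,
        c.Δ ((j : ℤ) + (l : ℤ)) ^ 2 / c.g ((j : ℤ) + (l : ℤ)) := by
      rw [Finset.sum_comm]
    rw [h2, Finset.sum_congr rfl h1]
    simp
  have hS0 : 0 ≤ c.S := by
    unfold Cfg.S
    apply Finset.sum_nonneg
    intro l _
    have := c.g_pos (l : ℤ)
    positivity
  have hsa : 0 < Real.sin a :=
    Real.sin_pos_of_pos_of_lt_pi ha0 (by linarith [Real.pi_gt_three])
  have hfin : a / Real.sin a ^ 2 * (d * c.S) / 2 ≤ 1.1158 * (n / (2 * π)) * c.S := by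
    have hd : (d : ℝ) = a * n / π := by
      rw [ha]
      have := Real.pi_ne_zero
      field_simp
    have h1 : a / Real.sin a ^ 2 * (d * c.S) / 2 =
        a ^ 2 / Real.sin a ^ 2 * (n / (2 * π)) * c.S := by
      rw [hd]
      have := Real.pi_ne_zero
      field_simp
    rw [h1]
    have h2 : a ^ 2 / Real.sin a ^ 2 ≤ 1.1158 := by
      rw [div_le_iff₀ (by positivity)]
      have h3 : (0.9467 * a) ^ 2 ≤ Real.sin a ^ 2 :=
        pow_le_pow_left₀ (by positivity) (sin_lb ha0.le ha1) 2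
      nlinarith [sq_nonneg a]
    have h3 : 0 ≤ (n / (2 * π)) * c.S := by positivity
    have h4 := mul_le_mul_of_nonneg_right h2 h3
    linarith
  calc Td c d ≤ ∑ j ∈ range n, (κ * DD a (c.X ((j : ℤ) + (d : ℤ)) (j : ℤ)) +
        (1 + κ) * (a / Real.sin a ^ 2 * s (j : ℤ) / 2)) := by
        unfold Td
        exact Finset.sum_le_sum fun j _ => hpair (j : ℤ)
    _ = κ * Ed c d + (1 + κ) * (a / Real.sin a ^ 2 * (d * c.S) / 2) := by
        rw [Finset.sum_add_distrib, ← Finset.mul_sum, ← Finset.mul_sum, ← Finset.sum_div,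
          ← Finset.mul_sum, hsum]
        rfl
    _ ≤ κ * Ed c d + (1 + κ) * (1.1158 * (n / (2 * π)) * c.S) := by
        have := mul_le_mul_of_nonneg_left hfin (by linarith : 0 ≤ 1 + κ)
        linarith
    _ = _ := by ring

end Pool.Agent.EHP
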