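import Pool.Agent.EHP.Stmts1

/-!
# EHP: from the problem to periodic families (helper90)
-/

open Finset
open scoped Real ComplexConjugate

namespace Pool.Agent.EHP

namespace TransAux

/-- A sum over all residues different from `i`. -/
theorem sum_erase {n : ℕ} (G : ℤ → ℝ) (hG : ∀ j, G (j + n) = G j) (i : Fin n) :
    ∑ j ∈ univ.erase i, G ((j : ℕ) : ℤ) = ∑ d ∈ Ico 1 n, G (((i : ℕ) : ℤ) + (d : ℤ)) := by
  have hn : 0 < n := i.pos
  have h1 := sum_shift (n := n) (f := G) hG ((i : ℕ) : ℤ)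
  have h2 : ∑ j ∈ range n, G ((j : ℤ) + ((i : ℕ) : ℤ)) =
      G (((i : ℕ) : ℤ)) + ∑ d ∈ Ico 1 n, G (((i : ℕ) : ℤ) + (d : ℤ)) := by
    rw [Finset.range_eq_Ico, Finset.sum_eq_sum_Ico_succ_bot hn]
    congr 1
    · simp
    · apply Finset.sum_congr (by simp)
      intro d _
      rw [add_comm]
  have h3 : ∑ j ∈ range n, G (j : ℤ) = ∑ j : Fin n, G ((j : ℕ) : ℤ) :=
    Finset.sum_range (fun j : ℕ => G (j : ℤ))
  have h4 := Finset.add_sum_erase univ (fun j : Fin n => G ((j : ℕ) : ℤ)) (Finset.mem_univ i)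
  linarith

/-- The logarithm of the product of the distances of a periodic family. -/
theorem log_PD {n : ℕ} {w : ℤ → ℂ} (hw : Pts n w) :
    0 < PD (fun j : Fin n => w ((j : ℕ) : ℤ)) ∧
      Real.log (PD (fun j : Fin n => w ((j : ℕ) : ℤ))) = FL n w := by
  have hne : ∀ i : Fin n, ∀ j ∈ univ.erase i,
      0 < ‖w ((i : ℕ) : ℤ) - w ((j : ℕ) : ℤ)‖ := by
    intro i j hj
    rw [Finset.mem_erase] at hj
    rw [norm_pos_iff, sub_ne_zero]
    intro h
    have h1 := hw.inj _ _ h
    apply hj.1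
    have h2 : ((i : ℕ) : ℤ) - ((j : ℕ) : ℤ) = 0 := by
      apply Int.eq_zero_of_abs_lt_dvd h1
      have := i.isLt
      have := j.isLt
      rw [abs_lt]
      constructor <;> omega
    apply Fin.ext
    omega
  have hne' : ∀ i : Fin n, 0 < ∏ j ∈ univ.erase i, ‖w ((i : ℕ) : ℤ) - w ((j : ℕ) : ℤ)‖ :=
    fun i => Finset.prod_pos (hne i)
  refine ⟨Finset.prod_pos fun i _ => hne' i, ?_⟩
  unfold PD FL
  rw [Real.log_prod (fun i _ => (hne' i).ne')]
  rw [Finset.sum_range (fun j : ℕ => ∑ d ∈ Ico 1 n, Real.log ‖w ((j : ℤ) + (d : ℤ)) - w (j : ℤ)‖)]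
  apply Finset.sum_congr rfl
  intro i _
  rw [Real.log_prod (fun j hj => (hne i j hj).ne')]
  rw [← sum_erase (fun k => Real.log ‖w k - w ((i : ℕ) : ℤ)‖) (fun j => by rw [hw.per]) i]
  apply Finset.sum_congr rfl
  intro j _
  rw [norm_sub_rev]

end TransAux

open TransAux in
theorem m_TRANS : Stmt_TRANS := by
  intro n z hn hz
  have hn0 : 0 < n := by omega
  have hnR : (0 : ℝ) < n := by exact_mod_cast hn0
  -- a competitor with a positive product
  have hpos : 0 < PD z := by
    let u : Fin n → ℂ := fun j => ((2 * ((j : ℕ) : ℝ) / n : ℝ) : ℂ)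
    have hu : ∀ i j : Fin n, ‖u i - u j‖ = |2 * ((i : ℕ) : ℝ) / n - 2 * ((j : ℕ) : ℝ) / n| := by
      intro i j
      simp only [u]
      rw [← Complex.ofReal_sub, Complex.norm_real, Real.norm_eq_abs]
    have hadm : Adm u := by
      intro i j
      rw [hu, abs_le]
      have hi : ((i : ℕ) : ℝ) < n := by exact_mod_cast i.isLt
      have hj : ((j : ℕ) : ℝ) < n := by exact_mod_cast j.isLt
      have hi0 : (0 : ℝ) ≤ ((i : ℕ) : ℝ) := by positivity
      have hj0 : (0 : ℝ) ≤ ((j : ℕ) : ℝ) := by positivity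
      rw [← sub_div, div_le_iff₀ hnR, le_div_iff₀ hnR]
      constructor <;> nlinarith
    have hup : 0 < PD u := by
      apply Finset.prod_pos
      intro i _
      apply Finset.prod_pos
      intro j hj
      rw [Finset.mem_erase] at hj
      rw [hu, abs_pos, ← sub_div, ← mul_sub]
      apply div_ne_zero _ hnR.ne'
      apply mul_ne_zero two_ne_zero
      rw [sub_ne_zero]
      intro h
      apply hj.1
      apply Fin.ext
      exact_mod_cast h.symm
    exact hup.trans_le (hz.2 u hadm)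
  have hinj : ∀ i j : Fin n, z i = z j → i = j := by
    intro i j h
    by_contra hij
    have h0 : PD z = 0 := by
      unfold PD
      apply Finset.prod_eq_zero (Finset.mem_univ i)
      apply Finset.prod_eq_zero (i := j) (Finset.mem_erase.2 ⟨Ne.symm hij, Finset.mem_univ j⟩)
      rw [h, sub_self, norm_zero]
    rw [h0] at hpos
    exact lt_irrefl _ hpos
  have hlt : ∀ j : ℤ, (j % (n : ℤ)).toNat < n := by
    intro j
    have h1 := Int.emod_nonneg j (b := (n : ℤ)) (by omega)
    have h2 := Int.emod_lt_of_pos j (b := (n : ℤ)) (by omega)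
    omega
  let w : ℤ → ℂ := fun j => z ⟨(j % (n : ℤ)).toNat, hlt j⟩
  have hwz : ∀ j : Fin n, w ((j : ℕ) : ℤ) = z j := by
    intro j
    simp only [w]
    congr 1
    apply Fin.ext
    simp only
    rw [Int.emod_eq_of_lt (by omega) (by exact_mod_cast j.isLt)]
    simp
  have hpts : Pts n w := by
    refine ⟨?_, ?_⟩
    · intro j
      simp only [w]
      congr 2
      rw [Int.add_emod_right]
    · intro i j h
      have h1 := hinj _ _ h
      have h2 := congrArg Fin.val h1
      simp only at h2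
      have h3 := Int.emod_nonneg i (b := (n : ℤ)) (by omega)
      have h4 := Int.emod_nonneg j (b := (n : ℤ)) (by omega)
      have h5 : i % (n : ℤ) = j % (n : ℤ) := by omega
      exact Int.ModEq.dvd (Int.ModEq.symm h5)
  have hzw : (fun j : Fin n => w ((j : ℕ) : ℤ)) = z := funext hwz
  refine ⟨w, ⟨hpts, fun i j => hz.1 _ _, ?_⟩, hwz⟩
  intro w' hw' had'
  obtain ⟨p1, l1⟩ := log_PD hw'
  obtain ⟨p2, l2⟩ := log_PD hpts
  rw [← l1, ← l2]
  apply Real.log_le_log p1
  rw [hzw]
  exact hz.2 _ (fun i j => had' _ _)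

end Pool.Agent.EHP
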