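import Pool.Agent.EHP.Stmts3

/-!
# The tight pairs form a tree in the case of a gap: `Stmt_TREE`
-/

open Finset
open scoped Real ComplexConjugate

namespace Pool.Agent.EHP

namespace M_TREE

/-- a sequence defined by three kinds of steps -/
theorem exists_seq (v₀ w₀ : ℤ) (hi : ℤ → ℤ) (n : ℕ) (W : ℤ → ℤ → ℂ) :
    ∃ f : ℕ → ℂ, f 0 = 0 ∧
      (∀ r : ℕ, v₀ + 1 + r + 1 ≤ w₀ → f (r + 1) = f r + W (v₀ + 1 + r + 1) (hi (v₀ + 1 + r)) -
        W (v₀ + 1 + r) (hi (v₀ + 1 + r))) ∧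
      (∀ r : ℕ, v₀ + 1 + r = w₀ → f (r + 1) = -W (v₀ + 1) (w₀ + 1)) ∧
      (∀ r : ℕ, w₀ < v₀ + 1 + r → f (r + 1) = f r - W (hi (v₀ + 1 + r) - n) (v₀ + 1 + r + 1) +
        W (hi (v₀ + 1 + r) - n) (v₀ + 1 + r)) := by
  refine ⟨fun r => Nat.rec (0 : ℂ) (fun r y => if v₀ + 1 + (r : ℤ) + 1 ≤ w₀ then
    y + W (v₀ + 1 + r + 1) (hi (v₀ + 1 + r)) - W (v₀ + 1 + r) (hi (v₀ + 1 + r)) else
    if v₀ + 1 + (r : ℤ) = w₀ then -W (v₀ + 1) (w₀ + 1) else
      y - W (hi (v₀ + 1 + r) - n) (v₀ + 1 + r + 1) +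
        W (hi (v₀ + 1 + r) - n) (v₀ + 1 + r)) r, rfl, ?_, ?_, ?_⟩
  · intro r hr
    exact if_pos hr
  · intro r hr
    refine (if_neg ?_).trans (if_pos hr)
    omega
  · intro r hr
    refine (if_neg ?_).trans (if_neg ?_)
    · omega
    · omega

end M_TREE

theorem m_TREE : Stmt_ONEGAP → Stmt_TREE := by
  intro hOG n c lo hi hn hopt hpar v₀ hgap W
  obtain ⟨h1, h2, h3, h4, h5⟩ := hOG n c lo hi hn hopt hpar v₀ hgap
  obtain ⟨f, hf0, hfA, hfM, hfB⟩ := M_TREE.exists_seq v₀ (hi v₀) hi n W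
  have hn0 : (0 : ℤ) < n := by exact_mod_cast hn
  obtain ⟨hl1, hl2, hl3⟩ := hpar.lt v₀
  -- monotonicity
  have hlohi : ∀ v, lo v ≤ hi v := fun v => (hpar.lt v).2.1
  have hhimono : Monotone hi := monotone_int_of_le_succ fun v => (hpar.step v).trans (hlohi (v + 1))
  have hlomono : Monotone lo := monotone_int_of_le_succ fun v => (hlohi v).trans (hpar.step v)
  let D : ℤ → ℂ := fun j => f ((j - (v₀ + 1)) % n).toNat
  have hDper : ∀ j, D (j + n) = D j := by
    intro j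
    have e : (j + (n : ℤ) - (v₀ + 1)) % n = (j - (v₀ + 1)) % n := by
      have : j + (n : ℤ) - (v₀ + 1) = (j - (v₀ + 1)) + n := by ring
      rw [this, Int.add_emod_right]
    show f ((j + (n : ℤ) - (v₀ + 1)) % n).toNat = f ((j - (v₀ + 1)) % n).toNat
    rw [e]
  have hDf : ∀ r : ℕ, r < n → D (v₀ + 1 + r) = f r := by
    intro r hr
    show f ((v₀ + 1 + (r : ℤ) - (v₀ + 1)) % n).toNat = f r
    have e : v₀ + 1 + (r : ℤ) - (v₀ + 1) = r := by ring
    rw [e, Int.emod_eq_of_lt (by omega) (by exact_mod_cast hr), Int.toNat_natCast]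
  have hDA : ∀ a, v₀ < a → a + 1 ≤ hi v₀ → D (a + 1) = D a + W (a + 1) (hi a) - W a (hi a) := by
    intro a ha1 ha2
    obtain ⟨r, hr⟩ := Int.eq_ofNat_of_zero_le (by omega : 0 ≤ a - (v₀ + 1))
    have e : a = v₀ + 1 + r := by omega
    have e2 : a + 1 = v₀ + 1 + ((r + 1 : ℕ) : ℤ) := by push_cast; omega
    have g1 : D a = f r := by rw [e]; exact hDf r (by omega)
    have g2 : D (a + 1) = f (r + 1) := by rw [e2]; exact hDf (r + 1) (by omega)
    rw [g1, g2, hfA r (by omega), ← e]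
  have hDM : D (hi v₀ + 1) = -W (v₀ + 1) (hi v₀ + 1) := by
    obtain ⟨r, hr⟩ := Int.eq_ofNat_of_zero_le (by omega : 0 ≤ hi v₀ - (v₀ + 1))
    have e2 : hi v₀ + 1 = v₀ + 1 + ((r + 1 : ℕ) : ℤ) := by push_cast; omega
    have g2 : D (hi v₀ + 1) = f (r + 1) := by rw [e2]; exact hDf (r + 1) (by omega)
    rw [g2, hfM r (by omega)]
  have hDB : ∀ b, hi v₀ < b → b + 1 ≤ v₀ + n →
      D (b + 1) = D b - W (hi b - n) (b + 1) + W (hi b - n) b := by
    intro b hb1 hb2
    obtain ⟨r, hr⟩ := Int.eq_ofNat_of_zero_le (by omega : 0 ≤ b - (v₀ + 1))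
    have e : b = v₀ + 1 + r := by omega
    have e2 : b + 1 = v₀ + 1 + ((r + 1 : ℕ) : ℤ) := by push_cast; omega
    have g1 : D b = f r := by rw [e]; exact hDf r (by omega)
    have g2 : D (b + 1) = f (r + 1) := by rw [e2]; exact hDf (r + 1) (by omega)
    rw [g1, g2, hfB r (by omega), ← e]
  have hD0 : D (v₀ + 1) = 0 := by
    have := hDf 0 (by omega)
    simp only [Nat.cast_zero, add_zero] at this
    rw [this, hf0]
  -- the pivot of a side of `B`
  have hpiv : ∀ a b, lo a ≤ b → b + 1 ≤ hi a → hi b = a + n := by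
    intro a b hb1 hb2
    have ha := hpar.lt a
    have t1 : ‖c.z a - c.z b‖ = 2 := (hpar.tight a b (by omega) (by omega)).2 ⟨hb1, by omega⟩
    have t2 : ‖c.z a - c.z (b + 1)‖ = 2 :=
      (hpar.tight a (b + 1) (by omega) (by omega)).2 ⟨by omega, hb2⟩
    have t3 : ‖c.z b - c.z (a + n)‖ = 2 := by rw [c.z_add, norm_sub_rev]; exact t1
    have t4 : ‖c.z (b + 1) - c.z (a + n)‖ = 2 := by rw [c.z_add, norm_sub_rev]; exact t2
    have t5 := ((hpar.tight b (a + n) (by omega) (by omega)).1 t3).2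
    have t6 := ((hpar.tight (b + 1) (a + n) (by omega) (by omega)).1 t4).1
    have t7 := hpar.step b
    omega
  -- from the lower end to the whole interval
  have hrow : ∀ a, v₀ < a → a ≤ hi v₀ → D a - D (lo a) = W a (lo a) →
      ∀ m : ℕ, lo a + m ≤ hi a → D a - D (lo a + m) = W a (lo a + m) := by
    intro a ha1 ha2 h0 m
    induction m with
    | zero => intro _; simpa using h0
    | succ k ih =>
      intro hk
      push_cast at hk
      have ih' := ih (by omega)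
      have hp := hpiv a (lo a + k) (by omega) (by omega)
      have g1 : hi v₀ < lo a + k := by
        have := hlomono (by omega : v₀ + 1 ≤ a)
        omega
      have g2 : lo a + k + 1 ≤ v₀ + n := by
        have := hhimono ha2
        omega
      have g3 := hDB (lo a + k) g1 g2
      rw [hp, add_sub_cancel_right] at g3
      have e : lo a + ((k + 1 : ℕ) : ℤ) = lo a + k + 1 := by push_cast; ring
      rw [e, g3]
      linear_combination ih'
  have hrow' : ∀ a, v₀ < a → a ≤ hi v₀ → D a - D (lo a) = W a (lo a) →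
      ∀ b, lo a ≤ b → b ≤ hi a → D a - D b = W a b := by
    intro a ha1 ha2 h0 b hb1 hb2
    obtain ⟨m, hm⟩ := Int.eq_ofNat_of_zero_le (by omega : 0 ≤ b - lo a)
    have e : b = lo a + m := by omega
    rw [e]
    exact hrow a ha1 ha2 h0 m (by omega)
  have hlow : ∀ k : ℕ, v₀ + 1 + k ≤ hi v₀ →
      D (v₀ + 1 + k) - D (lo (v₀ + 1 + k)) = W (v₀ + 1 + k) (lo (v₀ + 1 + k)) := by
    intro k
    induction k with
    | zero =>
      intro _
      simp only [Nat.cast_zero, add_zero]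
      rw [h2, hD0, hDM]
      ring
    | succ k ih =>
      intro hk
      push_cast at hk
      have ih' := ih (by omega)
      have g1 := hrow' (v₀ + 1 + k) (by omega) (by omega) ih' (hi (v₀ + 1 + k)) (hlohi _) le_rfl
      have g2 := hDA (v₀ + 1 + k) (by omega) (by omega)
      have g3 := h4 (v₀ + 1 + k) (by omega) (by omega)
      have e : v₀ + 1 + ((k + 1 : ℕ) : ℤ) = v₀ + 1 + k + 1 := by push_cast; ring
      rw [e, ← g3, g2]
      linear_combination g1
  refine ⟨D, hDper, hD0, ?_⟩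
  intro a ha1 ha2 b hb1 hb2
  obtain ⟨k, hk⟩ := Int.eq_ofNat_of_zero_le (by omega : 0 ≤ a - (v₀ + 1))
  have e : a = v₀ + 1 + k := by omega
  apply hrow' a ha1 ha2 _ b hb1 hb2
  rw [e]
  exact hlow k (by omega)

end Pool.Agent.EHP
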