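import Pool.Agent.EHP.Stmts5

/-!
# Energies of trigonometric polynomials
-/

open Finset
open scoped Real ComplexConjugate

namespace Pool.Agent.EHP

namespace TrigeAux

/-- Orthogonality of the characters. -/
theorem orth {n : ℕ} (hn : 0 < n) (m : ℤ) :
    (∑ t ∈ range n, Complex.exp ((2 * π * m * ((t : ℤ) : ℝ) / n : ℝ) * Complex.I)) / n =
      if (n : ℤ) ∣ m then 1 else 0 := by
  have hn' : (n : ℂ) ≠ 0 := by exact_mod_cast hn.ne'
  set ζ : ℂ := Complex.exp ((2 * π * m / n : ℝ) * Complex.I) with hζ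
  have h1 : ∀ t ∈ range n, Complex.exp ((2 * π * m * ((t : ℤ) : ℝ) / n : ℝ) * Complex.I) =
      ζ ^ t := by
    intro t _
    rw [hζ, ← Complex.exp_nat_mul]
    congr 1
    push_cast
    ring
  rw [Finset.sum_congr rfl h1]
  split_ifs with hm
  · obtain ⟨k, hk⟩ := hm
    have hζ1 : ζ = 1 := by
      rw [hζ, Complex.exp_eq_one_iff]
      refine ⟨k, ?_⟩
      rw [hk]
      push_cast
      field_simp
    rw [hζ1]
    simp only [one_pow, Finset.sum_const, Finset.card_range, nsmul_eq_mul, mul_one]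
    exact div_self hn'
  · have hpow : ζ ^ n = 1 := by
      rw [hζ, ← Complex.exp_nat_mul, Complex.exp_eq_one_iff]
      refine ⟨m, ?_⟩
      push_cast
      field_simp
    have hne : ζ ≠ 1 := by
      intro h
      rw [hζ, Complex.exp_eq_one_iff] at h
      obtain ⟨k, hk⟩ := h
      apply hm
      refine ⟨k, ?_⟩
      have hpi : (π : ℂ) ≠ 0 := by exact_mod_cast Real.pi_ne_zero
      have h2 : (m : ℂ) = (n : ℂ) * k := by
        push_cast at hk
        field_simp at hk
        have h3 : (2 * π * Complex.I) * ((m : ℂ)) = (2 * π * Complex.I) * ((n : ℂ) * k) := by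
          linear_combination (2 * π * Complex.I) * hk
        exact mul_left_cancel₀ (by
          simp [hpi, Complex.I_ne_zero]) h3
      exact_mod_cast h2
    have h3 := mul_geom_sum ζ n
    rw [hpow, sub_self] at h3
    rw [(mul_eq_zero.1 h3).resolve_left (sub_ne_zero.2 hne), zero_div]

theorem coeff {M N : ℕ} (h : 6 * M + 3 < N) (A : ℕ → ℂ) (f : ℤ → ℝ)
    (hf : ∀ j, (f j : ℂ) = ∑ i ∈ range M,
      (A i * Complex.exp ((2 * π * ((6 * i + 3 : ℤ) : ℝ) * j / (2 * N : ℕ) : ℝ) * Complex.I) +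
        conj (A i) *
          Complex.exp ((2 * π * ((-(6 * i + 3) : ℤ) : ℝ) * j / (2 * N : ℕ) : ℝ) * Complex.I)))
    {k : ℤ} (hk : k ∈ Finset.Ioc (-(N : ℤ)) N) :
    dr (2 * N) f k = ∑ i ∈ range M, (A i * (if k = 6 * (i : ℤ) + 3 then 1 else 0) +
      conj (A i) * (if k = -(6 * (i : ℤ) + 3) then 1 else 0)) := by
  rw [Finset.mem_Ioc] at hk
  have hn : 0 < 2 * N := by omega
  unfold dr dft
  have e1 : ∀ j ∈ range (2 * N), ((f (j : ℤ) : ℝ) : ℂ) *
      Complex.exp (-(2 * π * k * ((j : ℤ) : ℝ) / ((2 * N : ℕ) : ℝ) : ℝ) * Complex.I) =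
      ∑ i ∈ range M, (A i * Complex.exp ((2 * π * ((6 * i + 3 - k : ℤ) : ℝ) * ((j : ℤ) : ℝ) /
          (2 * N : ℕ) : ℝ) * Complex.I) +
        conj (A i) * Complex.exp ((2 * π * ((-(6 * i + 3) - k : ℤ) : ℝ) * ((j : ℤ) : ℝ) /
          (2 * N : ℕ) : ℝ) * Complex.I)) := by
    intro j _
    rw [hf, Finset.sum_mul]
    apply Finset.sum_congr rfl
    intro i _
    rw [add_mul, mul_assoc (A i), mul_assoc (conj (A i)), ← Complex.exp_add, ← Complex.exp_add]
    congr 3
    · push_cast; ring
    · push_cast; ring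
  have e2 : (∑ j ∈ range (2 * N), ((f (j : ℤ) : ℝ) : ℂ) *
      Complex.exp (-(2 * π * k * ((j : ℤ) : ℝ) / ((2 * N : ℕ) : ℝ) : ℝ) * Complex.I)) /
        ((2 * N : ℕ) : ℂ) = ∑ i ∈ range M,
      (A i * ((∑ t ∈ range (2 * N), Complex.exp ((2 * π * ((6 * i + 3 - k : ℤ) : ℝ) *
        ((t : ℤ) : ℝ) / (2 * N : ℕ) : ℝ) * Complex.I)) / ((2 * N : ℕ) : ℂ)) +
       conj (A i) * ((∑ t ∈ range (2 * N), Complex.exp ((2 * π * ((-(6 * i + 3) - k : ℤ) : ℝ) *
        ((t : ℤ) : ℝ) / (2 * N : ℕ) : ℝ) * Complex.I)) / ((2 * N : ℕ) : ℂ))) := by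
    rw [Finset.sum_congr rfl e1, Finset.sum_comm, Finset.sum_div]
    apply Finset.sum_congr rfl
    intro i _
    rw [Finset.sum_add_distrib, ← Finset.mul_sum, ← Finset.mul_sum]
    ring
  refine Eq.trans ?_ (e2.trans ?_)
  · push_cast
    rfl
  · apply Finset.sum_congr rfl
    intro i hi
    rw [Finset.mem_range] at hi
    rw [orth hn, orth hn]
    have d1 : ((2 * N : ℕ) : ℤ) ∣ (6 * (i : ℤ) + 3 - k) ↔ k = 6 * (i : ℤ) + 3 := by
      constructor
      · rintro ⟨q, hq⟩
        push_cast at hq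
        have hq0 : q = 0 := by
          by_contra hne
          rcases lt_or_gt_of_ne hne with hlt | hgt
          · have : 2 * (N : ℤ) * q ≤ 2 * N * (-1) :=
              mul_le_mul_of_nonneg_left (by omega) (by omega)
            omega
          · have : 2 * (N : ℤ) * 1 ≤ 2 * N * q :=
              mul_le_mul_of_nonneg_left (by omega) (by omega)
            omega
        rw [hq0] at hq
        omega
      · intro hq
        rw [hq, sub_self]
        exact dvd_zero _
    have d2 : ((2 * N : ℕ) : ℤ) ∣ (-(6 * (i : ℤ) + 3) - k) ↔ k = -(6 * (i : ℤ) + 3) := by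
      constructor
      · rintro ⟨q, hq⟩
        push_cast at hq
        have hq0 : q = 0 := by
          by_contra hne
          rcases lt_or_gt_of_ne hne with hlt | hgt
          · have : 2 * (N : ℤ) * q ≤ 2 * N * (-1) :=
              mul_le_mul_of_nonneg_left (by omega) (by omega)
            omega
          · have : 2 * (N : ℤ) * 1 ≤ 2 * N * q :=
              mul_le_mul_of_nonneg_left (by omega) (by omega)
            omega
        rw [hq0] at hq
        omega
      · intro hq
        rw [hq, sub_self]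
        exact dvd_zero _
    simp only [d1, d2]

theorem coeff_sq {M N : ℕ} (h : 6 * M + 3 < N) (A : ℕ → ℂ) (f : ℤ → ℝ)
    (hf : ∀ j, (f j : ℂ) = ∑ i ∈ range M,
      (A i * Complex.exp ((2 * π * ((6 * i + 3 : ℤ) : ℝ) * j / (2 * N : ℕ) : ℝ) * Complex.I) +
        conj (A i) *
          Complex.exp ((2 * π * ((-(6 * i + 3) : ℤ) : ℝ) * j / (2 * N : ℕ) : ℝ) * Complex.I)))
    {k : ℤ} (hk : k ∈ Finset.Ioc (-(N : ℤ)) N) :
    ‖dr (2 * N) f k‖ ^ 2 = ∑ i ∈ range M, (‖A i‖ ^ 2 * (if k = 6 * (i : ℤ) + 3 then 1 else 0) +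
      ‖A i‖ ^ 2 * (if k = -(6 * (i : ℤ) + 3) then 1 else 0)) := by
  rw [coeff h A f hf hk]
  by_cases h1 : ∃ i ∈ range M, k = 6 * (i : ℤ) + 3
  · obtain ⟨i, hi, hki⟩ := h1
    have hne : ¬ k = -(6 * (i : ℤ) + 3) := by omega
    rw [Finset.sum_eq_single i, Finset.sum_eq_single i]
    · simp only [if_pos hki, if_neg hne, mul_one, mul_zero, add_zero]
    · intro b _ hb
      rw [if_neg (by omega), if_neg (by omega)]
      simp
    · intro hni; exact absurd hi hni
    · intro b _ hb
      rw [if_neg (by omega), if_neg (by omega)]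
      simp
    · intro hni; exact absurd hi hni
  · by_cases h2 : ∃ i ∈ range M, k = -(6 * (i : ℤ) + 3)
    · obtain ⟨i, hi, hki⟩ := h2
      have hne : ¬ k = 6 * (i : ℤ) + 3 := by omega
      rw [Finset.sum_eq_single i, Finset.sum_eq_single i]
      · simp only [if_pos hki, if_neg hne, mul_one, mul_zero, zero_add, Complex.norm_conj]
      · intro b _ hb
        rw [if_neg (by omega), if_neg (by omega)]
        simp
      · intro hni; exact absurd hi hni
      · intro b _ hb
        rw [if_neg (by omega), if_neg (by omega)]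
        simp
      · intro hni; exact absurd hi hni
    · rw [Finset.sum_eq_zero, Finset.sum_eq_zero]
      · simp
      · intro i hi
        rw [if_neg (fun hh => h1 ⟨i, hi, hh⟩), if_neg (fun hh => h2 ⟨i, hi, hh⟩)]
        simp
      · intro i hi
        rw [if_neg (fun hh => h1 ⟨i, hi, hh⟩), if_neg (fun hh => h2 ⟨i, hi, hh⟩)]
        simp

theorem main (hPARS : Stmt_PARS) {M N : ℕ} (h : 6 * M + 3 < N) (A : ℕ → ℂ) (f : ℤ → ℝ)
    (hfp : ∀ j, f (j + (2 * N : ℕ)) = f j)
    (hf : ∀ j, (f j : ℂ) = ∑ i ∈ range M,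
      (A i * Complex.exp ((2 * π * ((6 * i + 3 : ℤ) : ℝ) * j / (2 * N : ℕ) : ℝ) * Complex.I) +
        conj (A i) *
          Complex.exp ((2 * π * ((-(6 * i + 3) : ℤ) : ℝ) * j / (2 * N : ℕ) : ℝ) * Complex.I))) :
    QK (2 * N) f = ∑ i ∈ range M, kap (2 * N) (6 * i + 3) * ‖A i‖ ^ 2 ∧
      mn (2 * N) (fun j => f j ^ 2) = ∑ i ∈ range M, 2 * ‖A i‖ ^ 2 := by
  obtain ⟨h1, h2⟩ := hPARS N f f (by omega) hfp hfp
  have key : ∀ c : ℤ → ℝ, ∑ k ∈ Finset.Ioc (-(N : ℤ)) N, c k * ‖dr (2 * N) f k‖ ^ 2 =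
      ∑ i ∈ range M, (c (6 * i + 3) + c (-(6 * i + 3))) * ‖A i‖ ^ 2 := by
    intro c
    have e1 : ∀ k ∈ Finset.Ioc (-(N : ℤ)) N, c k * ‖dr (2 * N) f k‖ ^ 2 =
        ∑ i ∈ range M, ((if k = 6 * (i : ℤ) + 3 then c k * ‖A i‖ ^ 2 else 0) +
          (if k = -(6 * (i : ℤ) + 3) then c k * ‖A i‖ ^ 2 else 0)) := by
      intro k hk
      rw [coeff_sq h A f hf hk, Finset.mul_sum]
      apply Finset.sum_congr rfl
      intro i _
      split_ifs <;> ring
    rw [Finset.sum_congr rfl e1, Finset.sum_comm]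
    apply Finset.sum_congr rfl
    intro i hi
    rw [Finset.mem_range] at hi
    rw [Finset.sum_add_distrib, Finset.sum_ite_eq', Finset.sum_ite_eq',
      if_pos (by rw [Finset.mem_Ioc]; constructor <;> omega),
      if_pos (by rw [Finset.mem_Ioc]; constructor <;> omega)]
    ring
  constructor
  · rw [h2, key, Finset.mul_sum]
    apply Finset.sum_congr rfl
    intro i _
    have : kap (2 * N) (-(6 * (i : ℤ) + 3)) = kap (2 * N) (6 * i + 3) := by
      unfold kap
      push_cast
      rw [abs_neg]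
    rw [this]
    ring
  · have e : mn (2 * N) (fun j => f j ^ 2) = mn (2 * N) (fun j => f j * f j) := by
      unfold mn
      simp only [sq]
    rw [e, h1]
    have e2 : ∀ k ∈ Finset.Ioc (-(N : ℤ)) N,
        (dr (2 * N) f k * conj (dr (2 * N) f k)).re = 1 * ‖dr (2 * N) f k‖ ^ 2 := by
      intro k _
      rw [Complex.mul_conj, Complex.ofReal_re, Complex.normSq_eq_norm_sq, one_mul]
    rw [Finset.sum_congr rfl e2, key (fun _ => 1)]
    apply Finset.sum_congr rfl
    intro i _
    ring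

end TrigeAux

theorem m_TRIGE : Stmt_PARS → Stmt_TRIGE := by
  intro hPARS M N a h
  have hN : (0 : ℝ) < ((2 * N : ℕ) : ℝ) := by exact_mod_cast (by omega : 0 < 2 * N)
  have hang : ∀ (i : ℕ) (j : ℤ), (6 * (i : ℝ) + 3) * (2 * π * ((j + (2 * N : ℕ) : ℤ) : ℝ) /
      ((2 * N : ℕ) : ℝ)) = (6 * (i : ℝ) + 3) * (2 * π * (j : ℝ) / ((2 * N : ℕ) : ℝ)) +
        ((6 * i + 3 : ℕ) : ℝ) * (2 * π) := by
    intro i j
    have hN' : (N : ℝ) ≠ 0 := by
      have : 0 < N := by omega
      exact_mod_cast this.ne'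
    push_cast
    field_simp
  constructor
  · obtain ⟨h1, h2⟩ := TrigeAux.main hPARS h (fun i => ((a i / 2 : ℝ) : ℂ))
      (fun j => ∑ i ∈ range M, a i * Real.cos ((6 * i + 3) * (2 * π * j / (2 * N : ℕ))))
      (by
        intro j
        apply Finset.sum_congr rfl
        intro i _
        rw [hang, Real.cos_add_nat_mul_two_pi])
      (by
        intro j
        push_cast
        apply Finset.sum_congr rfl
        intro i _
        rw [Complex.cos]
        simp only [map_div₀, Complex.conj_ofReal, map_ofNat]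
        have e1 : (6 * (i : ℂ) + 3) * (2 * π * j / (2 * N)) * Complex.I =
            2 * π * (6 * i + 3) * j / (2 * N) * Complex.I := by ring
        have e2 : -((6 * (i : ℂ) + 3) * (2 * π * j / (2 * N))) * Complex.I =
            2 * π * -(6 * i + 3) * j / (2 * N) * Complex.I := by ring
        rw [e1, e2]
        ring)
    constructor
    · rw [h1]
      apply Finset.sum_congr rfl
      intro i _
      rw [Complex.norm_real, Real.norm_eq_abs, sq_abs]
      ring
    · rw [h2]
      apply Finset.sum_congr rfl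
      intro i _
      rw [Complex.norm_real, Real.norm_eq_abs, sq_abs]
      ring
  · obtain ⟨h1, h2⟩ := TrigeAux.main hPARS h (fun i => ((a i / 2 : ℝ) : ℂ) * (-Complex.I))
      (fun j => ∑ i ∈ range M, a i * Real.sin ((6 * i + 3) * (2 * π * j / (2 * N : ℕ))))
      (by
        intro j
        apply Finset.sum_congr rfl
        intro i _
        rw [hang, Real.sin_add_nat_mul_two_pi])
      (by
        intro j
        push_cast
        apply Finset.sum_congr rfl
        intro i _
        rw [Complex.sin]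
        simp only [map_div₀, map_mul, map_neg, Complex.conj_ofReal, Complex.conj_I, map_ofNat]
        have e1 : (6 * (i : ℂ) + 3) * (2 * π * j / (2 * N)) * Complex.I =
            2 * π * (6 * i + 3) * j / (2 * N) * Complex.I := by ring
        have e2 : -((6 * (i : ℂ) + 3) * (2 * π * j / (2 * N))) * Complex.I =
            2 * π * -(6 * i + 3) * j / (2 * N) * Complex.I := by ring
        rw [e1, e2]
        ring)
    constructor
    · rw [h1]
      apply Finset.sum_congr rfl
      intro i _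
      rw [norm_mul, norm_neg, Complex.norm_I, mul_one, Complex.norm_real, Real.norm_eq_abs, sq_abs]
      ring
    · rw [h2]
      apply Finset.sum_congr rfl
      intro i _
      rw [norm_mul, norm_neg, Complex.norm_I, mul_one, Complex.norm_real, Real.norm_eq_abs, sq_abs]
      ring

end Pool.Agent.EHP
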