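import Pool.Agent.EHP.Stmts5
import Pool.Agent.EHP.MEHI

/-!
# Truncation
-/

open Finset
open scoped Real ComplexConjugate

namespace Pool.Agent.EHP

namespace MTRUNC

theorem odds_sum (hP : Stmt_PARS) (hD : Stmt_DFTS) {n N M : ℕ} (hnN : n = 2 * N) (hMN : M < N)
    {f : ℤ → ℝ} (hf : ∀ j, f (j + n) = f j) :
    2 * ∑ k ∈ odds M, ‖dr n f (k : ℤ)‖ ^ 2 ≤ mn n (fun j => f j ^ 2) := by
  have hN : 1 ≤ N := by omega
  rw [MEHI.pars1 hP hnN hN hf]
  have h1 : ∑ k ∈ odds M, ‖dr n f (k : ℤ)‖ ^ 2 =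
      ∑ k ∈ (odds M).image (fun k : ℕ => (k : ℤ)), ‖dr n f k‖ ^ 2 := by
    rw [Finset.sum_image]
    intro a _ b _ h
    have h' : (a : ℤ) = (b : ℤ) := h
    exact_mod_cast h'
  have h2 : ∑ k ∈ odds M, ‖dr n f (k : ℤ)‖ ^ 2 =
      ∑ k ∈ (odds M).image (fun k : ℕ => -(k : ℤ)), ‖dr n f k‖ ^ 2 := by
    rw [Finset.sum_image]
    · refine Finset.sum_congr rfl fun k _ => ?_
      rw [(hD n f (by omega) hf k 0).2.1, Complex.norm_conj]
    · intro a _ b _ h
      have : -(a : ℤ) = -(b : ℤ) := h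
      omega
  have hmem : ∀ k ∈ odds M, 3 ≤ k ∧ k ≤ M := by
    intro k hk
    unfold odds at hk
    rw [Finset.mem_filter, Finset.mem_range] at hk
    omega
  have hdis : Disjoint ((odds M).image (fun k : ℕ => (k : ℤ)))
      ((odds M).image (fun k : ℕ => -(k : ℤ))) := by
    rw [Finset.disjoint_left]
    intro a ha hb
    rw [Finset.mem_image] at ha hb
    obtain ⟨k, hk, rfl⟩ := ha
    obtain ⟨l, hl, hkl⟩ := hb
    have := hmem k hk
    have := hmem l hl
    omega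
  have hsub : (odds M).image (fun k : ℕ => (k : ℤ)) ∪ (odds M).image (fun k : ℕ => -(k : ℤ)) ⊆
      Finset.Ioc (-(N : ℤ)) N := by
    intro a ha
    rw [Finset.mem_union, Finset.mem_image, Finset.mem_image] at ha
    rw [Finset.mem_Ioc]
    rcases ha with ⟨k, hk, rfl⟩ | ⟨k, hk, rfl⟩
    · have := hmem k hk
      omega
    · have := hmem k hk
      omega
  have h3 : 2 * ∑ k ∈ odds M, ‖dr n f (k : ℤ)‖ ^ 2 =
      ∑ k ∈ (odds M).image (fun k : ℕ => (k : ℤ)) ∪ (odds M).image (fun k : ℕ => -(k : ℤ)),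
        ‖dr n f k‖ ^ 2 := by
    rw [Finset.sum_union hdis, ← h1, ← h2]
    ring
  rw [h3]
  exact Finset.sum_le_sum_of_subset_of_nonneg hsub fun _ _ _ => sq_nonneg _

theorem recip (M : ℕ) : ∑ k ∈ odds M, 1 / ((k : ℝ) + 1) ^ 2 ≤ 1 / 6 := by
  have h1 : ∀ m : ℕ, ∑ i ∈ range m, (1 : ℝ) / ((2 * (i : ℝ) + 3 : ℝ) + 1) ^ 2 ≤
      (1 : ℝ) / 6 - 1 / 2 / (2 * (m : ℝ) + 3) := by
    intro m
    induction m with
    | zero => norm_num
    | succ m ih =>
      rw [Finset.sum_range_succ]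
      have h2 : 1 / ((2 * m + 3 : ℝ) + 1) ^ 2 ≤ 1 / 2 / (2 * m + 3) - 1 / 2 / (2 * m + 5) := by
        have e : 1 / 2 / (2 * m + 3 : ℝ) - 1 / 2 / (2 * m + 5) = 1 / ((2 * m + 3) * (2 * m + 5)) := by
          field_simp
          ring
        rw [e]
        refine one_div_le_one_div_of_le (by positivity) ?_
        nlinarith
      push_cast
      have e2 : (2 * ((m : ℝ) + 1) + 3) = 2 * m + 5 := by ring
      rw [e2]
      linarith
  have hsub : odds M ⊆ (range M).image (fun i => 2 * i + 3) := by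
    intro k hk
    unfold odds at hk
    rw [Finset.mem_filter, Finset.mem_range] at hk
    rw [Finset.mem_image]
    exact ⟨(k - 3) / 2, by rw [Finset.mem_range]; omega, by omega⟩
  refine (Finset.sum_le_sum_of_subset_of_nonneg hsub fun _ _ _ => by positivity).trans ?_
  rw [Finset.sum_image (by intro a _ b _ h; simpa using h)]
  have h3 := h1 M
  have h4 : 0 ≤ 1 / 2 / (2 * (M : ℝ) + 3) := by positivity
  push_cast
  linarith

theorem dr_le (n : ℕ) (f : ℤ → ℝ) (k : ℤ) : ‖dr n f k‖ ≤ mn n (fun j => |f j|) := by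
  unfold dr dft mn
  rw [norm_div, Complex.norm_natCast]
  refine div_le_div_of_nonneg_right ((norm_sum_le _ _).trans (le_of_eq ?_)) (Nat.cast_nonneg _)
  refine Finset.sum_congr rfl fun j _ => ?_
  have e : -((2 * π * k * j / n : ℝ) : ℂ) * Complex.I = ((-(2 * π * k * j / n) : ℝ) : ℂ) * Complex.I := by
    push_cast
    ring
  rw [norm_mul, e, Complex.norm_exp_ofReal_mul_I, mul_one, Complex.norm_real, Real.norm_eq_abs]

theorem dr_add (n : ℕ) (f g : ℤ → ℝ) (k : ℤ) :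
    dr n (fun j => f j + g j) k = dr n f k + dr n g k := by
  unfold dr dft
  rw [← add_div, ← Finset.sum_add_distrib]
  congr 1
  refine Finset.sum_congr rfl fun j _ => ?_
  push_cast
  ring

theorem dr_O (hD : Stmt_DFTS) {n N : ℕ} (hnN : n = 2 * N) (hN : 1 ≤ N) {p : ℤ → ℝ}
    (hp : ∀ j, pT p (j + n) = pT p j) {k : ℕ} (hk : k % 2 = 1) :
    dr n (pO N p) (k : ℤ) = dr n (pT p) (k : ℤ) := by
  have h := (hD n (pT p) (by omega) hp k N).1
  have e1 : dr n (pO N p) (k : ℤ) = (1 / 2 : ℂ) * (dr n (pT p) k - dr n (fun j => pT p (j + N)) k) := by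
    unfold dr dft
    rw [← sub_div, ← Finset.sum_sub_distrib, ← mul_div_assoc, Finset.mul_sum]
    congr 1
    refine Finset.sum_congr rfl fun j _ => ?_
    unfold pO
    push_cast
    ring
  have e2 : Complex.exp ((2 * π * ((k : ℤ) : ℝ) * ((N : ℤ) : ℝ) / n : ℝ) * Complex.I) = -1 := by
    obtain ⟨m, hm⟩ : ∃ m, k = 2 * m + 1 := ⟨k / 2, by omega⟩
    have hN0 : (N : ℂ) ≠ 0 := by
      have : 0 < N := hN
      exact_mod_cast this.ne'
    have e3 : ((2 * π * ((k : ℤ) : ℝ) * ((N : ℤ) : ℝ) / n : ℝ) : ℂ) * Complex.I =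
        (m : ℕ) * (2 * π * Complex.I) + π * Complex.I := by
      rw [hm, hnN]
      push_cast
      field_simp
    rw [e3, Complex.exp_add, Complex.exp_nat_mul_two_pi_mul_I, Complex.exp_pi_mul_I, one_mul]
  rw [e1, h, e2]
  ring

theorem core (hP : Stmt_PARS) (hD : Stmt_DFTS) {n N M : ℕ} (hnN : n = 2 * N) (hMN : M < N)
    {p : ℤ → ℝ} (hp : ∀ j, p (j + n) = p j) (h2 : ∀ j, 1 / 2 ≤ |p j|) :
    1 / 4 - mn n (fun j => p j ^ 2) + QM n M p ≤
      QM n M (pO N p) - 2 / 5 * mn n (fun j => |p j - pT p j|) := by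
  have hN : 1 ≤ N := by omega
  have hn0 : 0 < n := by omega
  have hnR : (0 : ℝ) < n := by exact_mod_cast hn0
  have hT : ∀ j, pT p (j + n) = pT p j := by
    intro j
    unfold pT
    rw [hp]
  have habs : ∀ j, pT p j ^ 2 = 1 / 4 ∧ p j ^ 2 = 1 / 4 + |p j - pT p j| + (p j - pT p j) ^ 2 := by
    intro j
    have h := h2 j
    unfold pT
    rcases le_total 0 (p j) with h0 | h0
    · rw [abs_of_nonneg h0] at h
      rw [min_eq_right h, max_eq_left (by norm_num), abs_of_nonneg (by linarith)]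
      constructor
      · norm_num
      · ring
    · rw [abs_of_nonpos h0] at h
      rw [min_eq_left (by linarith), max_eq_right (by linarith), abs_of_nonpos (by linarith)]
      constructor
      · norm_num
      · ring
  set E : ℤ → ℝ := fun j => p j - pT p j with hE
  have hEp : ∀ j, E (j + n) = E j := by
    intro j
    simp only [hE]
    rw [hp, hT]
  have hpE : p = fun j => pT p j + E j := by
    funext j
    simp only [hE]
    ring
  set e1 : ℝ := mn n (fun j => |p j - pT p j|) with he1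
  set e2 : ℝ := mn n (fun j => E j ^ 2) with he2
  have he10 : 0 ≤ e1 := div_nonneg (Finset.sum_nonneg fun _ _ => abs_nonneg _) hnR.le
  have he20 : 0 ≤ e2 := div_nonneg (Finset.sum_nonneg fun _ _ => sq_nonneg _) hnR.le
  have hmnp : mn n (fun j => p j ^ 2) = 1 / 4 + e1 + e2 := by
    rw [he1, he2]
    unfold mn
    have h1 : ∑ j ∈ range n, p (j : ℤ) ^ 2 = ∑ j ∈ range n, (1 / 4 + |p (j : ℤ) - pT p (j : ℤ)| +
        (p (j : ℤ) - pT p (j : ℤ)) ^ 2) := Finset.sum_congr rfl fun j _ => (habs _).2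
    rw [h1, Finset.sum_add_distrib, Finset.sum_add_distrib, Finset.sum_const, Finset.card_range,
      nsmul_eq_mul]
    simp only [hE]
    field_simp
  have hmnT : mn n (fun j => pT p j ^ 2) = 1 / 4 := by
    unfold mn
    have h1 : ∑ j ∈ range n, pT p (j : ℤ) ^ 2 = ∑ j ∈ range n, (1 / 4 : ℝ) :=
      Finset.sum_congr rfl fun j _ => (habs _).1
    rw [h1, Finset.sum_const, Finset.card_range, nsmul_eq_mul]
    field_simp
  have hsT := odds_sum hP hD hnN hMN hT
  have hsE := odds_sum hP hD hnN hMN hEp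
  rw [hmnT] at hsT
  have hQO : QM n M (pO N p) = QM n M (pT p) := by
    unfold QM
    congr 1
    refine Finset.sum_congr rfl fun k hk => ?_
    unfold odds at hk
    rw [Finset.mem_filter] at hk
    rw [dr_O hD hnN hN hT hk.2.1]
  have hk3 : ∀ k ∈ odds M, (3 : ℝ) ≤ k := by
    intro k hk
    unfold odds at hk
    rw [Finset.mem_filter] at hk
    exact_mod_cast hk.2.2
  have hQ : QM n M p ≤ QM n M (pT p) + 3 / 5 * e1 + e2 := by
    unfold QM
    have h1 : ∀ k ∈ odds M, ‖dr n p (k : ℤ)‖ ^ 2 / ((k : ℝ) + 1) ≤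
        ‖dr n (pT p) (k : ℤ)‖ ^ 2 / ((k : ℝ) + 1) +
        e1 * (‖dr n (pT p) (k : ℤ)‖ ^ 2 + 1 / ((k : ℝ) + 1) ^ 2) +
        ‖dr n E (k : ℤ)‖ ^ 2 := by
      intro k hk
      have h3 := hk3 k hk
      have hk1 : (0 : ℝ) < (k : ℝ) + 1 := by linarith
      have e : dr n p (k : ℤ) = dr n (pT p) k + dr n E k := by
        conv_lhs => rw [hpE]
        exact dr_add n (pT p) E k
      have h4 := norm_add_le (dr n (pT p) (k : ℤ)) (dr n E k)
      rw [← e] at h4
      have h5 := pow_le_pow_left₀ (norm_nonneg _) h4 2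
      have h6 : ‖dr n E (k : ℤ)‖ ≤ e1 := dr_le n E k
      set T := ‖dr n (pT p) (k : ℤ)‖ with hTT
      set F := ‖dr n E (k : ℤ)‖ with hFF
      have hT0 : 0 ≤ T := norm_nonneg _
      have hF0 : 0 ≤ F := norm_nonneg _
      have h7 : ‖dr n p (k : ℤ)‖ ^ 2 / ((k : ℝ) + 1) ≤ (T + F) ^ 2 / ((k : ℝ) + 1) :=
        div_le_div_of_nonneg_right h5 hk1.le
      have h8 : (T + F) ^ 2 / ((k : ℝ) + 1) = T ^ 2 / ((k : ℝ) + 1) +
          F * (2 * (T * (1 / ((k : ℝ) + 1)))) + F ^ 2 * (1 / ((k : ℝ) + 1)) := by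
        field_simp
        ring
      have h9 : 2 * (T * (1 / ((k : ℝ) + 1))) ≤ T ^ 2 + 1 / ((k : ℝ) + 1) ^ 2 := by
        have e3 : 1 / ((k : ℝ) + 1) ^ 2 = (1 / ((k : ℝ) + 1)) ^ 2 := by rw [div_pow, one_pow]
        rw [e3]
        nlinarith [sq_nonneg (T - 1 / ((k : ℝ) + 1))]
      have h10 : F * (2 * (T * (1 / ((k : ℝ) + 1)))) ≤ e1 * (T ^ 2 + 1 / ((k : ℝ) + 1) ^ 2) :=
        mul_le_mul h6 h9 (by positivity) he10
      have h11 : F ^ 2 * (1 / ((k : ℝ) + 1)) ≤ F ^ 2 * 1 :=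
        mul_le_mul_of_nonneg_left (by rw [div_le_one hk1]; linarith) (sq_nonneg _)
      linarith
    have h2 := Finset.sum_le_sum h1
    rw [Finset.sum_add_distrib, Finset.sum_add_distrib, ← Finset.mul_sum,
      Finset.sum_add_distrib] at h2
    have h3 := recip M
    have h4 : e1 * (∑ k ∈ odds M, ‖dr n (pT p) (k : ℤ)‖ ^ 2 +
        ∑ k ∈ odds M, 1 / ((k : ℝ) + 1) ^ 2) ≤ e1 * (3 / 10) :=
      mul_le_mul_of_nonneg_left (by linarith) he10
    linarith
  rw [hQO, hmnp]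
  linarith

end MTRUNC

theorem m_TRUNC : Stmt_PARS → Stmt_DFTS → Stmt_TRUNC := by
  intro hP hD N M p hMN hp h2
  exact MTRUNC.core hP hD rfl hMN hp h2

end Pool.Agent.EHP
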