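import Pool.Agent.EHP.Stmts2
import Pool.Agent.EHP.MDDLB

/-!
# TTUB: upper bound of the radial gain
-/

open Finset
open scoped Real ComplexConjugate

namespace Pool.Agent.EHP

namespace TTUBaux

/-- Taylor bounds for `cos` and `sin`. -/
theorem trig_bds (x : ℝ) (hx : |x| ≤ 1) :
    |Real.cos x - (1 - x ^ 2 / 2 + x ^ 4 / 24 - x ^ 6 / 720)| ≤ |x| ^ 8 * (1 / 35840) ∧
    |Real.sin x - (x - x ^ 3 / 6 + x ^ 5 / 120 - x ^ 7 / 5040)| ≤ |x| ^ 8 * (1 / 35840) := by
  have h1 : ‖((x : ℂ) * Complex.I)‖ ≤ 1 := by simpa using hx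
  have h := Complex.exp_bound h1 (n := 8) (by norm_num)
  have h2 : ‖((x : ℂ) * Complex.I)‖ = |x| := by simp
  rw [h2] at h
  have h3 : ∑ m ∈ range 8, ((x : ℂ) * Complex.I) ^ m / (m.factorial : ℂ) =
      ((1 - x ^ 2 / 2 + x ^ 4 / 24 - x ^ 6 / 720 : ℝ) : ℂ) +
      ((x - x ^ 3 / 6 + x ^ 5 / 120 - x ^ 7 / 5040 : ℝ) : ℂ) * Complex.I := by
    simp only [Finset.sum_range_succ, Finset.sum_range_zero, mul_pow]
    have i2 : Complex.I ^ 2 = -1 := Complex.I_sq
    have i3 : Complex.I ^ 3 = -Complex.I := by rw [pow_succ, i2]; ring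
    have i4 : Complex.I ^ 4 = 1 := by rw [pow_succ, i3]; simp
    have i5 : Complex.I ^ 5 = Complex.I := by rw [pow_succ, i4]; ring
    have i6 : Complex.I ^ 6 = -1 := by rw [pow_succ, i5]; simp
    have i7 : Complex.I ^ 7 = -Complex.I := by rw [pow_succ, i6]; ring
    rw [i2, i3, i4, i5, i6, i7]
    simp only [Nat.factorial]
    push_cast
    ring
  rw [h3, Complex.exp_mul_I, ← Complex.ofReal_cos, ← Complex.ofReal_sin] at h
  have h4 : |x| ^ 8 * ((Nat.succ 8 : ℝ) * ((Nat.factorial 8 : ℝ) * (8 : ℕ))⁻¹) =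
      |x| ^ 8 * (1 / 35840) := by
    simp only [Nat.factorial]; norm_num
  rw [h4] at h
  set w : ℂ := (((Real.cos x : ℝ) : ℂ) + ((Real.sin x : ℝ) : ℂ) * Complex.I -
      (((1 - x ^ 2 / 2 + x ^ 4 / 24 - x ^ 6 / 720 : ℝ) : ℂ) +
      ((x - x ^ 3 / 6 + x ^ 5 / 120 - x ^ 7 / 5040 : ℝ) : ℂ) * Complex.I)) with hw
  have hre : w.re = Real.cos x - (1 - x ^ 2 / 2 + x ^ 4 / 24 - x ^ 6 / 720) := by
    rw [hw]
    simp only [Complex.sub_re, Complex.add_re, Complex.mul_re, Complex.ofReal_re,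
      Complex.ofReal_im, Complex.I_re, Complex.I_im]
    ring
  have him : w.im = Real.sin x - (x - x ^ 3 / 6 + x ^ 5 / 120 - x ^ 7 / 5040) := by
    rw [hw]
    simp only [Complex.sub_im, Complex.add_im, Complex.mul_im, Complex.ofReal_re,
      Complex.ofReal_im, Complex.I_re, Complex.I_im]
    ring
  rw [← hre, ← him]
  exact ⟨(Complex.abs_re_le_norm w).trans h, (Complex.abs_im_le_norm w).trans h⟩

theorem num1 : Real.cos 0.56999 ≤ 1.5602 * Real.sin 0.56999 ∧ 0 < Real.sin 0.56999 := by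
  obtain ⟨h1, h2⟩ := trig_bds 0.56999 (by norm_num [abs_le])
  rw [abs_le] at h1 h2
  have e : |(0.56999 : ℝ)| = 0.56999 := abs_of_pos (by norm_num)
  rw [e] at h1 h2
  norm_num at h1 h2 ⊢
  constructor <;> linarith [h1.1, h1.2, h2.1, h2.2]

/-- one step of the telescoping sum -/
theorem step (a h : ℝ) (h0 : 0 < h) (h1 : h < π) (ha : h / 2 < a) (ha' : a + h / 2 < π) :
    1 / Real.sin a ^ 2 ≤ 1 / Real.sin h *
      (Real.cos (a - h / 2) / Real.sin (a - h / 2) -
        Real.cos (a + h / 2) / Real.sin (a + h / 2)) := by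
  have s1 : 0 < Real.sin (a - h / 2) := Real.sin_pos_of_pos_of_lt_pi (by linarith) (by linarith)
  have s2 : 0 < Real.sin (a + h / 2) := Real.sin_pos_of_pos_of_lt_pi (by linarith) (by linarith)
  have s3 : 0 < Real.sin h := Real.sin_pos_of_pos_of_lt_pi h0 h1
  have s4 : 0 < Real.sin a := Real.sin_pos_of_pos_of_lt_pi (by linarith) (by linarith)
  have e1 : Real.cos (a - h / 2) / Real.sin (a - h / 2) -
        Real.cos (a + h / 2) / Real.sin (a + h / 2) =
      Real.sin h / (Real.sin (a - h / 2) * Real.sin (a + h / 2)) := by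
    rw [div_sub_div _ _ s1.ne' s2.ne']
    congr 1
    have : Real.sin h = Real.sin ((a + h / 2) - (a - h / 2)) := by congr 1; ring
    rw [this, Real.sin_sub (a + h / 2) (a - h / 2)]
    ring
  rw [e1]
  have e2 : 1 / Real.sin h * (Real.sin h / (Real.sin (a - h / 2) * Real.sin (a + h / 2))) =
      1 / (Real.sin (a - h / 2) * Real.sin (a + h / 2)) := by
    field_simp
  rw [e2]
  apply one_div_le_one_div_of_le (mul_pos s1 s2)
  have e3 : Real.sin (a - h / 2) * Real.sin (a + h / 2) =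
      Real.sin a ^ 2 - Real.sin (h / 2) ^ 2 := by
    rw [Real.sin_sub, Real.sin_add]
    have c1 := Real.sin_sq_add_cos_sq a
    have c2 := Real.sin_sq_add_cos_sq (h / 2)
    have : Real.cos a ^ 2 = 1 - Real.sin a ^ 2 := by linarith
    have : Real.cos (h / 2) ^ 2 = 1 - Real.sin (h / 2) ^ 2 := by linarith
    calc (Real.sin a * Real.cos (h / 2) - Real.cos a * Real.sin (h / 2)) *
        (Real.sin a * Real.cos (h / 2) + Real.cos a * Real.sin (h / 2))
        = Real.sin a ^ 2 * Real.cos (h / 2) ^ 2 - Real.cos a ^ 2 * Real.sin (h / 2) ^ 2 := by ring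
      _ = Real.sin a ^ 2 * (1 - Real.sin (h / 2) ^ 2) -
          (1 - Real.sin a ^ 2) * Real.sin (h / 2) ^ 2 := by
          rw [‹Real.cos a ^ 2 = 1 - Real.sin a ^ 2›,
            ‹Real.cos (h / 2) ^ 2 = 1 - Real.sin (h / 2) ^ 2›]
      _ = _ := by ring
  rw [e3]
  nlinarith [sq_nonneg (Real.sin (h / 2))]

/-- the sum over the far index distances -/
theorem far_sum (n m : ℕ) (hn : 200000 ≤ n) (h1 : π * m ≤ 0.57 * n) (h2 : 0.57 * n < π * (m + 1)) :
    ∑ d ∈ Ico (m + 1) (n - m), 1 / Real.sin (π * d / n) ^ 2 ≤ 2 * 0.4967 * (n : ℝ) := by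
  have hn0 : (0 : ℝ) < n := by exact_mod_cast (by omega : 0 < n)
  have hnR : (200000 : ℝ) ≤ n := by exact_mod_cast hn
  have hpi := Real.pi_gt_d6
  have hpi' := Real.pi_lt_d6
  set h : ℝ := π / n with hh
  have h0 : 0 < h := div_pos Real.pi_pos hn0
  have hle : h ≤ 0.00002 := by
    rw [hh, div_le_iff₀ hn0]
    linarith
  have hhn : h * n = π := by rw [hh]; field_simp
  -- `C`
  set C : ℕ → ℝ := fun d => Real.cos ((2 * d - 1) * h / 2) / Real.sin ((2 * d - 1) * h / 2) with hC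
  have hmn : m + 1 ≤ n - m := by
    have : π * (2 * m + 1) ≤ 1.14 * n + π := by linarith
    have h3 : (2 * m + 1 : ℝ) < n := by
      by_contra hcon
      push Not at hcon
      have : π * n ≤ π * (2 * m + 1) := mul_le_mul_of_nonneg_left hcon Real.pi_pos.le
      nlinarith
    have h4 : 2 * m + 1 < n := by exact_mod_cast h3
    omega
  have hmle : m ≤ n := by omega
  have htel : ∀ q : ℕ, m + 1 ≤ q → ∑ d ∈ Ico (m + 1) q, (C d - C (d + 1)) = C (m + 1) - C q := by
    intro q hq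
    induction q, hq using Nat.le_induction with
    | base => simp
    | succ q hq ih =>
      rw [Finset.sum_Ico_succ_top hq, ih]
      ring
  have hterm : ∀ d ∈ Ico (m + 1) (n - m), 1 / Real.sin (π * d / n) ^ 2 ≤
      1 / Real.sin h * (C d - C (d + 1)) := by
    intro d hd
    obtain ⟨hd1, hd2⟩ := Finset.mem_Ico.1 hd
    have hdR : (1 : ℝ) ≤ d := by exact_mod_cast (by omega : 1 ≤ d)
    have hdR2 : (d : ℝ) + 1 ≤ n := by exact_mod_cast (by omega : d + 1 ≤ n)
    have e1 : π * d / n = d * h := by rw [hh]; ring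
    rw [e1]
    have := step (d * h) h h0 (by linarith) (by nlinarith) (by nlinarith)
    have e2 : (d : ℝ) * h - h / 2 = (2 * d - 1) * h / 2 := by ring
    have e3 : (d : ℝ) * h + h / 2 = (2 * ((d + 1 : ℕ) : ℝ) - 1) * h / 2 := by push_cast; ring
    rw [e2, e3] at this
    exact this
  have hsum := Finset.sum_le_sum hterm
  rw [← Finset.mul_sum, htel (n - m) hmn] at hsum
  -- value at the other end
  have hCq : C (n - m) = -C (m + 1) := by
    simp only [hC]
    have e1 : (2 * ((n - m : ℕ) : ℝ) - 1) * h / 2 = π - (2 * ((m + 1 : ℕ) : ℝ) - 1) * h / 2 := by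
      rw [Nat.cast_sub hmle]
      push_cast
      linarith [hhn]
    rw [e1, Real.cos_pi_sub, Real.sin_pi_sub, neg_div]
  rw [hCq] at hsum
  -- bound of `C (m+1)`
  have hx : (0.56999 : ℝ) ≤ (2 * ((m + 1 : ℕ) : ℝ) - 1) * h / 2 := by
    have e1 : (2 * ((m + 1 : ℕ) : ℝ) - 1) * h / 2 = (π * (m + 1)) / n - h / 2 := by
      rw [hh]; push_cast; ring
    rw [e1]
    have e2 : (0.57 : ℝ) ≤ (π * (m + 1)) / n := by
      rw [le_div_iff₀ hn0]; exact h2.le
    linarith
  have hx' : (2 * ((m + 1 : ℕ) : ℝ) - 1) * h / 2 ≤ 1 := by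
    have e1 : (2 * ((m + 1 : ℕ) : ℝ) - 1) * h / 2 = (π * m) / n + h / 2 := by
      rw [hh]; push_cast; ring
    rw [e1]
    have e2 : (π * m) / n ≤ 0.57 := by
      rw [div_le_iff₀ hn0]; exact h1
    linarith
  have hCm : C (m + 1) ≤ 1.5602 := by
    simp only [hC]
    obtain ⟨n1, n2⟩ := num1
    have c1 : Real.cos ((2 * ((m + 1 : ℕ) : ℝ) - 1) * h / 2) ≤ Real.cos 0.56999 :=
      Real.cos_le_cos_of_nonneg_of_le_pi (by norm_num) (by linarith) hx
    have c2 : Real.sin 0.56999 ≤ Real.sin ((2 * ((m + 1 : ℕ) : ℝ) - 1) * h / 2) :=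
      Real.sin_le_sin_of_le_of_le_pi_div_two (by linarith) (by linarith) hx
    rw [div_le_iff₀ (by linarith)]
    nlinarith
  have hs : h * 0.9999 ≤ Real.sin h := by
    have := Real.sin_gt_sub_cube h0
    have h3 : h ^ 3 / 6 ≤ h * 0.0001 := by
      have : h ^ 2 ≤ 0.0004 := by nlinarith
      nlinarith
    linarith
  have hs0 : 0 < Real.sin h := by nlinarith
  have h5 : 1 / Real.sin h ≤ 1 / (h * 0.9999) := one_div_le_one_div_of_le (by positivity) hs
  have h6 : 1 / (h * 0.9999) = n / (π * 0.9999) := by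
    rw [hh]; field_simp
  have h7 : (n : ℝ) / (π * 0.9999) ≤ n * 0.31835 := by
    rw [div_le_iff₀ (by positivity)]
    have : 1 ≤ 0.31835 * (π * 0.9999) := by nlinarith
    nlinarith
  calc ∑ d ∈ Ico (m + 1) (n - m), 1 / Real.sin (π * d / n) ^ 2
      ≤ 1 / Real.sin h * (C (m + 1) - -C (m + 1)) := hsum
    _ = 1 / Real.sin h * (2 * C (m + 1)) := by ring
    _ ≤ 1 / Real.sin h * (2 * 1.5602) := by
        apply mul_le_mul_of_nonneg_left _ (by positivity)
        linarith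
    _ ≤ (n * 0.31835) * (2 * 1.5602) := by
        apply mul_le_mul_of_nonneg_right _ (by norm_num)
        linarith [h5, h6, h7]
    _ ≤ 2 * 0.4967 * n := by nlinarith

variable {n : ℕ} (c : Cfg n)

theorem X_add_left (i j : ℤ) : c.X (i + n) j = c.X i j + π := by
  unfold Cfg.X
  rw [c.θ_add]
  ring

theorem X_add_right (i j : ℤ) : c.X i (j + n) = c.X i j - π := by
  unfold Cfg.X
  rw [c.θ_add]
  ring

theorem Y_add_left (i j : ℤ) : c.Y (i + n) j = c.Y i j := by
  unfold Cfg.Y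
  rw [c.ρ_add]

theorem Y_add_right (i j : ℤ) : c.Y i (j + n) = c.Y i j := by
  unfold Cfg.Y
  rw [c.ρ_add]

theorem X_neg (i j : ℤ) : c.X i j = -c.X j i := by
  unfold Cfg.X
  ring

theorem Y_neg (i j : ℤ) : c.Y i j = -c.Y j i := by
  unfold Cfg.Y
  ring

theorem X_mem' (j : ℤ) {d : ℕ} (hd : d ∈ Ico 1 n) :
    0 < c.X (j + (d : ℤ)) j ∧ c.X (j + (d : ℤ)) j < π := by
  obtain ⟨h1, h2⟩ := Finset.mem_Ico.1 hd
  have h3 : c.θ j < c.θ (j + (d : ℤ)) := c.mono (by omega)
  have h4 : c.θ (j + (d : ℤ)) < c.θ (j + n) := c.mono (by omega)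
  rw [c.θ_add] at h4
  unfold Cfg.X
  constructor <;> linarith

/-- the logarithm for a pair -/
noncomputable def G (i j : ℤ) : ℝ :=
  Real.log (1 + Real.sinh (c.Y i j) ^ 2 / Real.sin (c.X i j) ^ 2)

theorem G_symm (i j : ℤ) : G c i j = G c j i := by
  unfold G
  rw [X_neg, Y_neg, Real.sinh_neg, Real.sin_neg, neg_sq, neg_sq]

theorem G_add_left (i j : ℤ) : G c (i + n) j = G c i j := by
  unfold G
  rw [X_add_left, Y_add_left, Real.sin_add_pi, neg_sq]

theorem G_add_right (i j : ℤ) : G c i (j + n) = G c i j := by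
  unfold G
  rw [X_add_right, Y_add_right, Real.sin_sub_pi, neg_sq]

theorem Td_eq (d : ℕ) : Td c d = ∑ j ∈ range n, G c ((j : ℤ) + (d : ℤ)) (j : ℤ) := rfl

theorem Td_symm {d : ℕ} (hd : d ∈ Ico 1 n) : Td c (n - d) = Td c d := by
  obtain ⟨h1, h2⟩ := Finset.mem_Ico.1 hd
  rw [Td_eq, Td_eq]
  have hsh := sum_shift (n := n) (f := fun j => G c (j - d) j) (fun j => by
    show G c (j + n - d) (j + n) = G c (j - d) j
    have : j + (n : ℤ) - d = (j - d) + n := by ring
    rw [this, G_add_left, G_add_right]) (d : ℤ)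
  simp only [add_sub_cancel_right] at hsh
  have e1 : ∑ j ∈ range n, G c ((j : ℤ) + ((n - d : ℕ) : ℤ)) (j : ℤ) =
      ∑ j ∈ range n, G c ((j : ℤ) - d) (j : ℤ) := by
    apply Finset.sum_congr rfl
    intro j _
    have : (j : ℤ) + ((n - d : ℕ) : ℤ) = ((j : ℤ) - d) + n := by
      rw [Nat.cast_sub h2.le]; ring
    rw [this, G_add_left]
  rw [e1, ← hsh]
  apply Finset.sum_congr rfl
  intro j _
  exact G_symm c _ _

/-- the angular energy of a pair -/
noncomputable def W (d : ℕ) (i j : ℤ) : ℝ := DD (π * d / n) (c.X i j)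

theorem DD_symm (a X : ℝ) : DD (π - a) (π - X) = DD a X := by
  unfold DD
  rw [Real.sin_pi_sub, Real.sin_pi_sub, Real.cos_pi_sub]
  ring

theorem Ed_symm {d : ℕ} (hd : d ∈ Ico 1 n) : Ed c (n - d) = Ed c d := by
  obtain ⟨h1, h2⟩ := Finset.mem_Ico.1 hd
  have hn0 : (n : ℝ) ≠ 0 := by exact_mod_cast (by omega : n ≠ 0)
  unfold Ed
  have hsh := sum_shift (n := n) (f := fun j => DD (π * d / n) (c.X j (j - d))) (fun j => by
    show DD (π * d / n) (c.X (j + n) (j + n - d)) = DD (π * d / n) (c.X j (j - d))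
    have : j + (n : ℤ) - d = (j - d) + n := by ring
    rw [this, X_add_left, X_add_right]
    congr 1
    ring) (d : ℤ)
  simp only [add_sub_cancel_right] at hsh
  rw [hsh]
  apply Finset.sum_congr rfl
  intro j _
  have e1 : (j : ℤ) + ((n - d : ℕ) : ℤ) = ((j : ℤ) - d) + n := by
    rw [Nat.cast_sub h2.le]; ring
  have e2 : π * ((n - d : ℕ) : ℝ) / n = π - π * d / n := by
    rw [Nat.cast_sub h2.le]
    field_simp
  rw [e1, X_add_left, X_neg, e2]
  have e3 : -c.X (j : ℤ) ((j : ℤ) - d) + π = π - c.X (j : ℤ) ((j : ℤ) - d) := by ring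
  rw [e3, DD_symm]

theorem Ed_nonneg {d : ℕ} (hd : d ∈ Ico 1 n) : 0 ≤ Ed c d := by
  obtain ⟨h1, h2⟩ := Finset.mem_Ico.1 hd
  have hn0 : (0 : ℝ) < n := by exact_mod_cast (by omega : 0 < n)
  unfold Ed
  apply Finset.sum_nonneg
  intro j _
  obtain ⟨hX0, hX1⟩ := X_mem' c (j : ℤ) hd
  have ha0 : 0 < π * d / n := by
    have : (0 : ℝ) < d := by exact_mod_cast (by omega : 0 < d)
    positivity
  have ha1 : π * d / n < π := by
    rw [div_lt_iff₀ hn0]
    have : (d : ℝ) < n := by exact_mod_cast h2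
    exact mul_lt_mul_of_pos_left this Real.pi_pos
  exact le_trans (by positivity) (m_DDLB _ _ ha0 ha1 hX0 hX1)

theorem TT_eq : TT c = (∑ d ∈ Ico 1 n, Td c d) / 2 := by
  unfold TT
  rw [Finset.sum_comm]
  rfl

theorem Eφ_eq : Eφ c = ∑ d ∈ Ico 1 n, Ed c d := by
  unfold Eφ
  rw [Finset.sum_comm]
  rfl

end TTUBaux

open TTUBaux in
theorem m_TTUB : Stmt_TNEAR → Stmt_TFAR → Stmt_TTUB := by
  intro hnear hfar κ hκ
  obtain ⟨ε₁, hε₁, n₁, H1⟩ := hnear κ hκ
  obtain ⟨ε₂, hε₂, n₂, H2⟩ := hfar κ hκ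
  refine ⟨min ε₁ ε₂, lt_min hε₁ hε₂, max (max n₁ n₂) 200000, ?_⟩
  intro n hn c hc
  have hn1 : n₁ ≤ n := le_trans (le_trans (le_max_left _ _) (le_max_left _ _)) hn
  have hn2 : n₂ ≤ n := le_trans (le_trans (le_max_right _ _) (le_max_left _ _)) hn
  have hn3 : 200000 ≤ n := le_trans (le_max_right _ _) hn
  have hnice : ∀ ε, min ε₁ ε₂ ≤ ε → Nice n ε c := by
    intro ε hε
    refine ⟨hc.opt, hc.cent, hc.rot, fun j => (hc.hρ j).trans hε, fun j => (hc.hφ j).trans hε, ?_⟩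
    intro i j
    exact (hc.slope i j).trans (mul_le_mul_of_nonneg_right hε (abs_nonneg _))
  have T1 := H1 n hn1 c (hnice _ (min_le_left _ _))
  have T2 := H2 n hn2 c (hnice _ (min_le_right _ _))
  have hn0 : (0 : ℝ) < n := by exact_mod_cast (by omega : 0 < n)
  have hpi := Real.pi_gt_d6
  have hS : 0 ≤ c.S := by
    unfold Cfg.S
    apply Finset.sum_nonneg
    intro j _
    exact div_nonneg (sq_nonneg _) (c.g_pos _).le
  set m : ℕ := ⌊0.57 * (n : ℝ) / π⌋₊ with hm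
  have hm1 : π * m ≤ 0.57 * n := by
    have := Nat.floor_le (a := 0.57 * (n : ℝ) / π) (by positivity)
    rw [← hm, le_div_iff₀ Real.pi_pos] at this
    linarith
  have hm2 : 0.57 * n < π * (m + 1) := by
    have := Nat.lt_floor_add_one (0.57 * (n : ℝ) / π)
    rw [← hm, div_lt_iff₀ Real.pi_pos] at this
    linarith
  have h2m : 2 * m + 1 < n := by
    have h3 : (2 * m + 1 : ℝ) < n := by
      by_contra hcon
      push Not at hcon
      have : π * n ≤ π * (2 * m + 1) := mul_le_mul_of_nonneg_left hcon Real.pi_pos.le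
      have hnR : (200000 : ℝ) ≤ n := by exact_mod_cast hn3
      nlinarith
    exact_mod_cast h3
  set K₁ : ℝ := (1 + κ) * 1.1158 * (n / (2 * π)) * c.S with hK₁
  set R : ℝ := ∑ j ∈ range n, c.ρ (j : ℤ) ^ 2 with hR
  have hR0 : 0 ≤ R := Finset.sum_nonneg fun j _ => sq_nonneg _
  -- the three ranges
  have hsplit : ∀ f : ℕ → ℝ, ∑ d ∈ Ico 1 n, f d =
      ∑ d ∈ Ico 1 (m + 1), f d + ∑ d ∈ Ico (m + 1) (n - m), f d + ∑ d ∈ Ico (n - m) n, f d := by
    intro f
    rw [Finset.sum_Ico_consecutive f (by omega) (by omega),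
      Finset.sum_Ico_consecutive f (by omega) (by omega)]
  have hA : ∑ d ∈ Ico 1 (m + 1), Td c d ≤ κ * ∑ d ∈ Ico 1 (m + 1), Ed c d + m * K₁ := by
    have : ∀ d ∈ Ico 1 (m + 1), Td c d ≤ κ * Ed c d + K₁ := by
      intro d hd
      obtain ⟨hd1, hd2⟩ := Finset.mem_Ico.1 hd
      apply T1 d hd1
      have : (d : ℝ) ≤ m := by exact_mod_cast (by omega : d ≤ m)
      nlinarith [Real.pi_pos]
    refine (Finset.sum_le_sum this).trans (le_of_eq ?_)
    rw [Finset.sum_add_distrib, ← Finset.mul_sum, Finset.sum_const, Nat.card_Ico]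
    simp
  have hC : ∑ d ∈ Ico (n - m) n, Td c d ≤ κ * ∑ d ∈ Ico (n - m) n, Ed c d + m * K₁ := by
    have : ∀ d ∈ Ico (n - m) n, Td c d ≤ κ * Ed c d + K₁ := by
      intro d hd
      obtain ⟨hd1, hd2⟩ := Finset.mem_Ico.1 hd
      have hdI : d ∈ Ico 1 n := Finset.mem_Ico.2 ⟨by omega, hd2⟩
      rw [← Td_symm c hdI, ← Ed_symm c hdI]
      apply T1 (n - d) (by omega)
      have : ((n - d : ℕ) : ℝ) ≤ m := by exact_mod_cast (by omega : n - d ≤ m)
      nlinarith [Real.pi_pos]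
    refine (Finset.sum_le_sum this).trans (le_of_eq ?_)
    rw [Finset.sum_add_distrib, ← Finset.mul_sum, Finset.sum_const, Nat.card_Ico]
    have : n - (n - m) = m := by omega
    rw [this]
    simp
  have hB : ∑ d ∈ Ico (m + 1) (n - m), Td c d ≤ κ * ∑ d ∈ Ico (m + 1) (n - m), Ed c d +
      (1 + κ) * R * (2 * 0.4967 * n) := by
    have : ∀ d ∈ Ico (m + 1) (n - m), Td c d ≤
        κ * Ed c d + (1 + κ) * R * (1 / Real.sin (π * d / n) ^ 2) := by
      intro d hd
      obtain ⟨hd1, hd2⟩ := Finset.mem_Ico.1 hd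
      have hdI : d ∈ Ico 1 n := Finset.mem_Ico.2 ⟨by omega, by omega⟩
      have h3 := T2 d (by omega) (by omega) (by
        have : (m : ℝ) + 1 ≤ d := by exact_mod_cast hd1
        nlinarith [Real.pi_pos]) (by
        have : (m : ℝ) + 1 ≤ (n : ℝ) - d := by
          have h4 : m + 1 + d ≤ n := by omega
          have : ((m + 1 + d : ℕ) : ℝ) ≤ n := by exact_mod_cast h4
          push_cast at this
          linarith
        nlinarith [Real.pi_pos])
      have h4 := mul_nonneg hκ.le (Ed_nonneg c hdI)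
      have h5 : (1 + κ) / Real.sin (π * d / n) ^ 2 * R =
          (1 + κ) * R * (1 / Real.sin (π * d / n) ^ 2) := by ring
      rw [h5] at h3
      linarith
    refine (Finset.sum_le_sum this).trans ?_
    rw [Finset.sum_add_distrib, ← Finset.mul_sum, ← Finset.mul_sum]
    have h6 := far_sum n m hn3 hm1 hm2
    have h7 : (1 + κ) * R * ∑ d ∈ Ico (m + 1) (n - m), 1 / Real.sin (π * d / n) ^ 2 ≤
        (1 + κ) * R * (2 * 0.4967 * n) :=
      mul_le_mul_of_nonneg_left h6 (mul_nonneg (by linarith) hR0)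
    linarith
  have htot : ∑ d ∈ Ico 1 n, Td c d ≤ κ * Eφ c + 2 * (m * K₁) +
      (1 + κ) * R * (2 * 0.4967 * n) := by
    rw [Eφ_eq, hsplit (Td c), hsplit (Ed c)]
    linarith
  have hEφ : 0 ≤ Eφ c := by
    rw [Eφ_eq]
    exact Finset.sum_nonneg fun d hd => Ed_nonneg c hd
  have hmn : mn n (fun j => c.ρ j ^ 2) = R / n := rfl
  have hmK : m * K₁ ≤ (1 + κ) * (n : ℝ) ^ 2 * (0.2025 * (c.S / (2 * π))) := by
    have h1 : (m : ℝ) * 1.1158 ≤ 0.2025 * n := by
      have h2 : (m : ℝ) * 3.141592 ≤ 0.57 * n := by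
        have : (m : ℝ) * 3.141592 ≤ π * m := by
          have : (0 : ℝ) ≤ m := Nat.cast_nonneg m
          nlinarith
        linarith
      linarith
    have h3 : m * K₁ = (m * 1.1158) * ((1 + κ) * n * (c.S / (2 * π))) := by
      rw [hK₁]; field_simp
    have h4 : 0 ≤ (1 + κ) * n * (c.S / (2 * π)) := by
      apply mul_nonneg (mul_nonneg (by linarith) hn0.le)
      exact div_nonneg hS (by positivity)
    rw [h3]
    calc (m * 1.1158) * ((1 + κ) * n * (c.S / (2 * π)))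
        ≤ (0.2025 * n) * ((1 + κ) * n * (c.S / (2 * π))) := mul_le_mul_of_nonneg_right h1 h4
      _ = _ := by ring
  rw [TT_eq, hmn]
  have h8 : (1 + κ) * (n : ℝ) ^ 2 * (0.2025 * (c.S / (2 * π)) + 0.4967 * (R / n)) =
      (1 + κ) * (n : ℝ) ^ 2 * (0.2025 * (c.S / (2 * π))) + (1 + κ) * R * (0.4967 * n) := by
    field_simp
  rw [h8]
  have h9 : κ * Eφ c / 2 ≤ κ * Eφ c := by
    have := mul_nonneg hκ.le hEφ
    linarith
  linarith

end Pool.Agent.EHP
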