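import Pool.Agent.EHP.Stmts6

/-!
# Module EHP_TWOP: two pendant vertices close to each other (MP_fd5ac7_co)
-/

open Finset
open scoped Real ComplexConjugate Interval

namespace Pool.Agent.EHP

theorem m_TWOP : Stmt_TLEM → Stmt_FCARC → Stmt_TEDGE → Stmt_ANTI → Stmt_TWOP := by
  intro hT hF hE hA K
  obtain ⟨C, n1, hC, hA⟩ := hA K
  obtain ⟨n2, hn2⟩ := exists_nat_ge (20 * |K|)
  obtain ⟨n3, hn3⟩ := exists_nat_ge ((10 * C) ^ 2)
  refine ⟨max 1 (max n1 (max n2 n3)), ?_⟩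
  intro N hN c hreg L hL v w hvw h10 hLv hLw hLw1
  have hn0 : 1 ≤ 2 * N := (le_max_left _ _).trans hN
  have hN1 : n1 ≤ 2 * N := ((le_max_left _ _).trans (le_max_right _ _)).trans hN
  have hN2 : n2 ≤ 2 * N :=
    ((le_max_left _ _).trans ((le_max_right _ _).trans (le_max_right _ _))).trans hN
  have hN3 : n3 ≤ 2 * N :=
    ((le_max_right _ _).trans ((le_max_right _ _).trans (le_max_right _ _))).trans hN
  have hnr : (0 : ℝ) < (2 * N : ℕ) := by exact_mod_cast hn0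
  have hcast : ((2 * N : ℕ) : ℤ) = 2 * (N : ℤ) := by push_cast; ring
  have hKn : K / (2 * N : ℕ) ≤ 1 / 20 := by
    rw [div_le_iff₀ hnr]
    have h1 : (n2 : ℝ) ≤ (2 * N : ℕ) := by exact_mod_cast hN2
    have h2 := le_abs_self K
    linarith
  have hCn : C / Real.sqrt (2 * N : ℕ) ≤ 1 / 10 := by
    have h1 : (n3 : ℝ) ≤ (2 * N : ℕ) := by exact_mod_cast hN3
    have h2 : 10 * C ≤ Real.sqrt (2 * N : ℕ) := Real.le_sqrt_of_sq_le (hn3.trans h1)
    have h3 : 0 < Real.sqrt (2 * N : ℕ) := Real.sqrt_pos.2 hnr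
    rw [div_le_iff₀ h3]
    linarith
  obtain ⟨hper, -⟩ := hF (2 * N) c.z hn0 c.z_add v (w - 1) (v + N) (w + N - 1) (by omega) (by omega)
    (by omega) (by rw [hcast]; omega)
  have hE3 := (hE (2 * N) c L hn0 hL v w (by omega) (by rw [hLv]; omega)).2.2 hLw1
  rw [hLv, hLw] at hE3
  have key := hT (2 * N) c.z hreg.opt _ hper (-Complex.exp ((c.θ v : ℂ) * Complex.I)) ?_
  · rw [neg_mul, Complex.neg_re] at key
    linarith
  intro a ha b hb hab
  obtain ⟨k, hk1, hk2⟩ := hE3 a ha b hb hab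
  set a' : ℤ := a + k * (2 * N : ℕ) with ha'
  have hza : c.z a = c.z a' := (per_mul c.z_add k a).symm
  set b' : ℤ := a' + 1 + (b - a' - 1) % (2 * N : ℕ) with hb'
  have hmod1 := Int.emod_nonneg (b - a' - 1) (b := ((2 * N : ℕ) : ℤ)) (by omega)
  have hmod2 := Int.emod_lt_of_pos (b - a' - 1) (b := ((2 * N : ℕ) : ℤ)) (by omega)
  have hzb : c.z b = c.z b' := by
    refine per_dvd c.z_add ?_
    have h1 := Int.emod_add_mul_ediv (b - a' - 1) ((2 * N : ℕ) : ℤ)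
    exact ⟨(b - a' - 1) / ((2 * N : ℕ) : ℤ), by rw [hb']; linarith⟩
  rw [hza, hzb] at hab ⊢
  have hb1 : a' < b' := by omega
  have hb2 : b' < a' + (2 * N : ℕ) := by
    rcases lt_or_eq_of_le (show b' ≤ a' + (2 * N : ℕ) by omega) with h | h
    · exact h
    · exfalso
      rw [h, c.z_add, sub_self, norm_zero] at hab
      norm_num at hab
  obtain ⟨hθ, -⟩ := hA (2 * N) hN1 c hreg a' b' hb1 hb2 hab
  have hθ' := abs_le.1 (hθ.trans hCn)
  -- the angle of a'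
  have hα0 : 0 < c.θ a' - c.θ v := sub_pos.2 (c.mono hk1)
  have hφa := abs_le.1 (hreg.hφ a')
  have hφv := abs_le.1 (hreg.hφ v)
  have hα1 : c.θ a' - c.θ v = 2 * π * ((a' : ℝ) - v) / (2 * N : ℕ) + (c.φ a' - c.φ v) := by
    unfold Cfg.φ
    field_simp
    ring
  have hav : (a' : ℝ) - v ≤ (2 * N : ℕ) / 20 := by
    have h1 : 20 * (a' - v) ≤ ((2 * N : ℕ) : ℤ) := by rw [hcast]; omega
    have h2 : (20 : ℝ) * ((a' : ℝ) - v) ≤ (2 * N : ℕ) := by exact_mod_cast h1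
    linarith
  have hα2 : c.θ a' - c.θ v ≤ π / 10 + 1 / 10 := by
    have h1 : 2 * π * ((a' : ℝ) - v) / (2 * N : ℕ) ≤ π / 10 := by
      rw [div_le_iff₀ hnr]
      nlinarith [Real.pi_pos]
    rw [hα1]
    linarith
  set α : ℝ := c.θ a' - c.θ v with hα
  set δ : ℝ := c.θ b' - c.θ a' - π with hδ
  have hpi := Real.pi_gt_three
  have hc1 : 0 < Real.cos α := Real.cos_pos_of_mem_Ioo ⟨by linarith, by linarith⟩
  have hc2 : 0 < Real.cos (α + δ) := Real.cos_pos_of_mem_Ioo ⟨by linarith [hθ'.1], by linarith [hθ'.2]⟩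
  have hre : ∀ j, (Complex.exp (-((c.θ v : ℂ) * Complex.I)) * c.z j).re =
      Real.exp (c.ρ j) * Real.cos (c.θ j - c.θ v) := by
    intro j
    unfold Cfg.z
    rw [← Complex.exp_add]
    have h1 : -((c.θ v : ℂ) * Complex.I) + ((c.ρ j : ℂ) + (c.θ j : ℂ) * Complex.I) =
        ((c.ρ j : ℝ) : ℂ) + ((c.θ j - c.θ v : ℝ) : ℂ) * Complex.I := by
      push_cast; ring
    rw [h1, Complex.exp_re]
    simp
  have hconj : conj (-Complex.exp ((c.θ v : ℂ) * Complex.I)) =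
      -Complex.exp (-((c.θ v : ℂ) * Complex.I)) := by
    rw [map_neg, ← Complex.exp_conj, map_mul, Complex.conj_ofReal, Complex.conj_I, mul_neg]
  rw [hconj, neg_mul, Complex.neg_re, mul_sub, Complex.sub_re, hre, hre]
  have hcb : Real.cos (c.θ b' - c.θ v) = -Real.cos (α + δ) := by
    have h1 : c.θ b' - c.θ v = (α + δ) + π := by rw [hα, hδ]; ring
    rw [h1, Real.cos_add_pi]
  rw [hcb]
  have e1 := mul_pos (Real.exp_pos (c.ρ a')) hc1
  have e2 := mul_pos (Real.exp_pos (c.ρ b')) hc2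
  linarith

end Pool.Agent.EHP
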