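import Pool.Agent.EHP.Stmts6
import Pool.Agent.EHP.Base

/-!
# Module EHP_UBD: `u` is small near the up-jumps of the square wave
-/

open Finset
open scoped Real ComplexConjugate

namespace Pool.Agent.EHP

namespace UBDaux

theorem dr_lin (n : ℕ) (f g : ℤ → ℝ) (a b : ℝ) (k : ℤ) :
    dr n (fun j => a * f j + b * g j) k = a * dr n f k + b * dr n g k := by
  unfold dr dft
  rw [← mul_div_assoc, ← mul_div_assoc, ← add_div, Finset.mul_sum, Finset.mul_sum,
    ← Finset.sum_add_distrib]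
  congr 1
  apply Finset.sum_congr rfl
  intro j _
  push_cast
  ring

theorem Φper {N : ℕ} (hN : 1 ≤ N) (c : Cfg (2 * N)) (j : ℤ) : c.Φ (j + (2 * N : ℕ)) = c.Φ j := by
  unfold Cfg.Φ
  rw [c.φ_add (by omega)]

theorem uper {N : ℕ} (hN : 1 ≤ N) (c : Cfg (2 * N)) (j : ℤ) :
    uu N c (j + (2 * N : ℕ)) = uu N c j := by
  unfold uu
  have e : j + ((2 * N : ℕ) : ℤ) + (N : ℤ) = (j + N) + ((2 * N : ℕ) : ℤ) := by ring
  rw [e, Φper hN, Φper hN]

theorem dr_uu (hD : Stmt_DFTS) {N : ℕ} (hN : 1 ≤ N) (c : Cfg (2 * N)) (k : ℤ) :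
    dr (2 * N) (uu N c) k =
      (-(1 / (2 * π)) : ℝ) * dr (2 * N) c.Φ k + (1 / (2 * π) : ℝ) *
        (Complex.exp ((π * k : ℝ) * Complex.I) * dr (2 * N) c.Φ k) := by
  have e1 := (hD (2 * N) c.Φ (by omega) (Φper hN c) k N).1
  have hN0 : (N : ℝ) ≠ 0 := by
    have : N ≠ 0 := by omega
    exact_mod_cast this
  have e2 : (2 * π * (k : ℝ) * ((N : ℤ) : ℝ) / ((2 * N : ℕ) : ℝ) : ℝ) = π * k := by
    push_cast
    field_simp
  rw [e2] at e1
  rw [← e1, ← dr_lin]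
  congr 1
  funext j
  unfold uu
  ring

theorem exp_even {k : ℤ} (hk : k % 2 = 0) : Complex.exp ((π * k : ℝ) * Complex.I) = 1 := by
  have h : k = 2 * (k / 2) := by omega
  rw [h]
  have e3 : ((π * ((2 * (k / 2) : ℤ) : ℝ) : ℝ) : ℂ) * Complex.I =
      ((k / 2 : ℤ) : ℂ) * (2 * π * Complex.I) := by
    push_cast
    ring
  rw [e3, Complex.exp_int_mul_two_pi_mul_I]

theorem dr_uu_even (hD : Stmt_DFTS) {N : ℕ} (hN : 1 ≤ N) (c : Cfg (2 * N)) {k : ℤ}
    (hk : k % 2 = 0) : dr (2 * N) (uu N c) k = 0 := by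
  rw [dr_uu hD hN, exp_even hk]
  push_cast
  ring

theorem norm_dr_uu (hD : Stmt_DFTS) {N : ℕ} (hN : 1 ≤ N) (c : Cfg (2 * N)) (k : ℤ) :
    ‖dr (2 * N) (uu N c) k‖ ≤ ‖dr (2 * N) c.Φ k‖ := by
  rw [dr_uu hD hN]
  have hpi := Real.pi_gt_three
  have h1 : |1 / (2 * π)| ≤ 1 / 2 := by
    rw [abs_of_pos (by positivity)]
    apply one_div_le_one_div_of_le (by norm_num)
    linarith
  have hΦ := norm_nonneg (dr (2 * N) c.Φ k)
  calc _ ≤ ‖((-(1 / (2 * π)) : ℝ) : ℂ) * dr (2 * N) c.Φ k‖ + ‖((1 / (2 * π) : ℝ) : ℂ) *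
        (Complex.exp ((π * k : ℝ) * Complex.I) * dr (2 * N) c.Φ k)‖ := norm_add_le _ _
    _ = |1 / (2 * π)| * ‖dr (2 * N) c.Φ k‖ + |1 / (2 * π)| * ‖dr (2 * N) c.Φ k‖ := by
        rw [norm_mul, norm_mul, norm_mul, Complex.norm_exp_ofReal_mul_I, one_mul,
          Complex.norm_real, Complex.norm_real, Real.norm_eq_abs, Real.norm_eq_abs, abs_neg]
    _ ≤ 1 / 2 * ‖dr (2 * N) c.Φ k‖ + 1 / 2 * ‖dr (2 * N) c.Φ k‖ := by gcongr
    _ = _ := by ring

/-- the positive frequencies -/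
theorem sum_pos (m : ℕ) : ∑ l ∈ range (m + 1), 1 / ((6 * (l : ℝ) + 3) ^ 2 - 1) ≤
    1 / 8 + 1 / 36 * (1 - 1 / ((m : ℝ) + 1)) := by
  induction m with
  | zero => norm_num
  | succ m ih =>
    rw [Finset.sum_range_succ]
    have hm : (0 : ℝ) ≤ m := Nat.cast_nonneg m
    have h : 1 / ((6 * ((m + 1 : ℕ) : ℝ) + 3) ^ 2 - 1) ≤
        1 / 36 * (1 / ((m : ℝ) + 1) - 1 / ((m : ℝ) + 1 + 1)) := by
      have e : 1 / 36 * (1 / ((m : ℝ) + 1) - 1 / ((m : ℝ) + 1 + 1)) =
          1 / (36 * (((m : ℝ) + 1) * ((m : ℝ) + 1 + 1))) := by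
        field_simp
        ring
      rw [e]
      apply one_div_le_one_div_of_le (by positivity)
      push_cast
      nlinarith
    push_cast at h ⊢
    linarith

/-- the weight of the mode `k` -/
noncomputable def wt (k : ℤ) : ℝ := if k % 6 = 3 then 1 / ((k : ℝ) ^ 2 - 1) else 0

theorem wt_nonneg (k : ℤ) : 0 ≤ wt k := by
  unfold wt
  split_ifs with h
  · apply one_div_nonneg.2
    have h1 : (1 : ℤ) ≤ k ^ 2 := by
      have : k ≠ 0 := by omega
      have := sq_nonneg k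
      have h3 : k ^ 2 ≠ 0 := by positivity
      omega
    have h2 : (1 : ℝ) ≤ (k : ℝ) ^ 2 := by exact_mod_cast h1
    linarith
  · exact le_rfl

theorem sum_wt (M : ℕ) (S : Finset ℤ) (hS : ∀ k ∈ S, |k| ≤ M) : ∑ k ∈ S, wt k ≤ 11 / 36 := by
  have h1 : ∑ k ∈ S, wt k ≤ ∑ k ∈ ((range (M + 1)).image (fun l : ℕ => (6 * l + 3 : ℤ))) ∪
      ((range (M + 1)).image (fun l : ℕ => (-(6 * l + 3) : ℤ))), wt k := by
    rw [← Finset.sum_filter_add_sum_filter_not S (fun k => k % 6 = 3)]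
    have h0 : ∑ k ∈ S.filter (fun k => ¬ k % 6 = 3), wt k = 0 := by
      apply Finset.sum_eq_zero
      intro k hk
      have := (Finset.mem_filter.1 hk).2
      unfold wt
      rw [if_neg this]
    rw [h0, add_zero]
    apply Finset.sum_le_sum_of_subset_of_nonneg
    · intro k hk
      obtain ⟨hk1, hk2⟩ := Finset.mem_filter.1 hk
      have hk3 := hS k hk1
      rw [Finset.mem_union, Finset.mem_image, Finset.mem_image]
      rcases le_or_gt 0 k with h | h
      · left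
        refine ⟨(k / 6).toNat, ?_, ?_⟩
        · rw [Finset.mem_range]
          rw [abs_of_nonneg h] at hk3
          omega
        · have : ((k / 6).toNat : ℤ) = k / 6 := Int.toNat_of_nonneg (by omega)
          rw [this]
          omega
      · right
        refine ⟨((-k) / 6).toNat, ?_, ?_⟩
        · rw [Finset.mem_range]
          rw [abs_of_neg h] at hk3
          omega
        · have : (((-k) / 6).toNat : ℤ) = (-k) / 6 := Int.toNat_of_nonneg (by omega)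
          rw [this]
          omega
    · intro k _ _
      exact wt_nonneg k
  refine h1.trans ?_
  have hdisj : Disjoint ((range (M + 1)).image (fun l : ℕ => (6 * l + 3 : ℤ)))
      ((range (M + 1)).image (fun l : ℕ => (-(6 * l + 3) : ℤ))) := by
    rw [Finset.disjoint_left]
    intro k h2 h3
    obtain ⟨l, -, hl⟩ := Finset.mem_image.1 h2
    obtain ⟨l', -, hl'⟩ := Finset.mem_image.1 h3
    omega
  rw [Finset.sum_union hdisj, Finset.sum_image (fun a _ b _ h => by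
      have : (6 * (a : ℤ) + 3) = 6 * (b : ℤ) + 3 := h
      omega), Finset.sum_image (fun a _ b _ h => by
      have : (-(6 * (a : ℤ) + 3)) = -(6 * (b : ℤ) + 3) := h
      omega)]
  have e1 : ∀ l : ℕ, wt (6 * l + 3 : ℤ) = 1 / ((6 * (l : ℝ) + 3) ^ 2 - 1) := by
    intro l
    unfold wt
    rw [if_pos (by omega)]
    push_cast
    rfl
  have e2 : ∀ l : ℕ, wt (-(6 * l + 3) : ℤ) = 1 / ((6 * (l : ℝ) + 3) ^ 2 - 1) := by
    intro l
    unfold wt
    rw [if_pos (by omega)]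
    push_cast
    ring
  rw [Finset.sum_congr rfl fun l _ => e1 l, Finset.sum_congr rfl fun l _ => e2 l]
  have h5 := sum_pos M
  have h6 : 0 ≤ 1 / ((M : ℝ) + 1) := by positivity
  linarith

/-- the tail -/
theorem sum_tail (M : ℕ) (hM : 1 ≤ M) (N : ℕ) :
    ∑ k ∈ (Finset.Ioc (-(N : ℤ)) N).filter (fun k : ℤ => ¬ |k| ≤ (M : ℤ)), 1 / (k : ℝ) ^ 2 ≤ 2 / (M : ℝ) := by
  have hM' : (0 : ℝ) < M := by exact_mod_cast hM
  rcases le_or_gt N M with hNM | hNM
  · have : (Finset.Ioc (-(N : ℤ)) N).filter (fun k : ℤ => ¬ |k| ≤ (M : ℤ)) = ∅ := by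
      apply Finset.filter_eq_empty_iff.2
      intro k hk
      rw [Finset.mem_Ioc] at hk
      rw [not_not, abs_le]
      omega
    rw [this, Finset.sum_empty]
    positivity
  have h1 : ∑ k ∈ (Finset.Ioc (-(N : ℤ)) N).filter (fun k : ℤ => ¬ |k| ≤ (M : ℤ)), 1 / (k : ℝ) ^ 2 ≤
      ∑ k ∈ ((Finset.Ioc M N).image (fun l : ℕ => (l : ℤ))) ∪
      ((Finset.Ioc M N).image (fun l : ℕ => (-(l : ℤ)))), 1 / (k : ℝ) ^ 2 := by
    apply Finset.sum_le_sum_of_subset_of_nonneg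
    · intro k hk
      obtain ⟨hk1, hk2⟩ := Finset.mem_filter.1 hk
      rw [Finset.mem_Ioc] at hk1
      rw [Finset.mem_union, Finset.mem_image, Finset.mem_image]
      rcases le_or_gt 0 k with h | h
      · left
        rw [abs_of_nonneg h] at hk2
        refine ⟨k.toNat, ?_, Int.toNat_of_nonneg h⟩
        rw [Finset.mem_Ioc]
        omega
      · right
        rw [abs_of_neg h] at hk2
        refine ⟨(-k).toNat, ?_, ?_⟩
        · rw [Finset.mem_Ioc]
          omega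
        · have := Int.toNat_of_nonneg (show 0 ≤ -k by omega)
          rw [this]
          ring
    · intro k _ _
      positivity
  refine h1.trans ?_
  have hdisj : Disjoint ((Finset.Ioc M N).image (fun l : ℕ => (l : ℤ)))
      ((Finset.Ioc M N).image (fun l : ℕ => (-(l : ℤ)))) := by
    rw [Finset.disjoint_left]
    intro k h2 h3
    obtain ⟨l, hl0, hl⟩ := Finset.mem_image.1 h2
    obtain ⟨l', hl0', hl'⟩ := Finset.mem_image.1 h3
    rw [Finset.mem_Ioc] at hl0 hl0'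
    omega
  rw [Finset.sum_union hdisj, Finset.sum_image (fun a _ b _ h => by
      have : (a : ℤ) = (b : ℤ) := h
      omega), Finset.sum_image (fun a _ b _ h => by
      have : (-(a : ℤ)) = -(b : ℤ) := h
      omega)]
  have h2 : ∑ i ∈ Finset.Ioc M N, (((i : ℝ)) ^ 2)⁻¹ ≤ (M : ℝ)⁻¹ - (N : ℝ)⁻¹ :=
    sum_Ioc_inv_sq_le_sub (by omega) hNM.le
  have hN' : (0 : ℝ) ≤ (N : ℝ)⁻¹ := by positivity
  have e1 : ∑ l ∈ Finset.Ioc M N, 1 / (((l : ℤ) : ℝ)) ^ 2 = ∑ i ∈ Finset.Ioc M N, (((i : ℝ)) ^ 2)⁻¹ := by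
    refine Finset.sum_congr rfl fun i _ => ?_
    push_cast
    rw [one_div]
  have e2 : ∑ l ∈ Finset.Ioc M N, 1 / (((-(l : ℤ) : ℤ) : ℝ)) ^ 2 =
      ∑ i ∈ Finset.Ioc M N, (((i : ℝ)) ^ 2)⁻¹ := by
    refine Finset.sum_congr rfl fun i _ => ?_
    push_cast
    rw [one_div, neg_sq]
  rw [e1, e2]
  have e3 : (2 : ℝ) / M = (M : ℝ)⁻¹ + (M : ℝ)⁻¹ := by
    rw [div_eq_mul_inv]
    ring
  rw [e3]
  linarith

/-- the main part of one mode -/
theorem main_mode (k : ℤ) (hk : k % 6 = 3) (x₀ x : ℝ) (i : ℤ)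
    (hx : |x - x₀ - i * (2 * π / 3)| ≤ 33 / 100) :
    |(Complex.exp (-(k * x₀ : ℝ) * Complex.I) * pst k / (((k : ℝ) ^ 2 - 1 : ℝ) : ℂ) *
      Complex.exp ((k * x : ℝ) * Complex.I)).re| ≤ 99 / 314 * wt k := by
  have hk0 : k ≠ 0 := by omega
  have hkR : (k : ℝ) ≠ 0 := by exact_mod_cast hk0
  have hk3 : (9 : ℤ) ≤ k ^ 2 := by
    have : k ≤ -3 ∨ 3 ≤ k := by omega
    rcases this with h | h <;> nlinarith
  have hk3' : (9 : ℝ) ≤ (k : ℝ) ^ 2 := by exact_mod_cast hk3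
  have hpi := Real.pi_gt_d2
  have hpi0 := Real.pi_pos
  have e1 : Complex.exp (-(k * x₀ : ℝ) * Complex.I) * pst k / (((k : ℝ) ^ 2 - 1 : ℝ) : ℂ) *
      Complex.exp ((k * x : ℝ) * Complex.I) =
      ((-(3 / (π * k * ((k : ℝ) ^ 2 - 1))) : ℝ) : ℂ) * (Complex.I *
        Complex.exp ((k * (x - x₀) : ℝ) * Complex.I)) := by
    have e2 : Complex.exp ((k * (x - x₀) : ℝ) * Complex.I) =
        Complex.exp (-(k * x₀ : ℝ) * Complex.I) * Complex.exp ((k * x : ℝ) * Complex.I) := by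
      rw [← Complex.exp_add]
      congr 1
      push_cast
      ring
    rw [e2]
    unfold pst
    rw [if_pos hk]
    have h1 : ((k : ℂ)) ≠ 0 := by exact_mod_cast hk0
    have h2 : (π : ℂ) ≠ 0 := by exact_mod_cast hpi0.ne'
    have h3 : ((k : ℂ)) ^ 2 - 1 ≠ 0 := by
      have : ((k : ℝ)) ^ 2 - 1 ≠ 0 := by
        have : 0 < ((k : ℝ)) ^ 2 - 1 := by linarith
        exact this.ne'
      exact_mod_cast this
    push_cast
    field_simp
  rw [e1, Complex.re_ofReal_mul]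
  have e3 : (Complex.I * Complex.exp ((k * (x - x₀) : ℝ) * Complex.I)).re =
      -Real.sin (k * (x - x₀)) := by
    rw [Complex.I_mul_re, Complex.exp_ofReal_mul_I_im]
  rw [e3]
  -- the sine
  have hq : k = 3 * (k / 3) := by omega
  have hs : |Real.sin (k * (x - x₀))| ≤ |(k : ℝ)| * (33 / 100) := by
    have e4 : (k : ℝ) * (x - x₀) = k * (x - x₀ - i * (2 * π / 3)) +
        ((k / 3 * i : ℤ) : ℝ) * (2 * π) := by
      have e5 : (k : ℝ) = 3 * ((k / 3 : ℤ) : ℝ) := by exact_mod_cast hq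
      rw [Int.cast_mul]
      have e6 : (k : ℝ) * (i * (2 * π / 3)) = ((k / 3 : ℤ) : ℝ) * i * (2 * π) := by
        rw [e5]
        ring
      linarith
    rw [e4, Real.sin_add_int_mul_two_pi]
    calc |Real.sin (k * (x - x₀ - i * (2 * π / 3)))| ≤ |k * (x - x₀ - i * (2 * π / 3))| :=
          Real.abs_sin_le_abs
      _ = |(k : ℝ)| * |x - x₀ - i * (2 * π / 3)| := abs_mul _ _
      _ ≤ _ := mul_le_mul_of_nonneg_left hx (abs_nonneg _)
  rw [abs_mul, abs_neg, abs_neg, abs_div, abs_mul, abs_mul]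
  have hkp : 0 < |(k : ℝ)| := abs_pos.2 hkR
  have hk1 : 0 < (k : ℝ) ^ 2 - 1 := by linarith
  rw [abs_of_pos hk1, abs_of_pos hpi0, abs_of_pos (by norm_num : (0 : ℝ) < 3)]
  unfold wt
  rw [if_pos hk]
  calc 3 / (π * |(k : ℝ)| * ((k : ℝ) ^ 2 - 1)) * |Real.sin (k * (x - x₀))| ≤
        3 / (π * |(k : ℝ)| * ((k : ℝ) ^ 2 - 1)) * (|(k : ℝ)| * (33 / 100)) := by
        gcongr
    _ = (99 / 100) / π * (1 / ((k : ℝ) ^ 2 - 1)) := by
        field_simp
        norm_num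
    _ ≤ 99 / 314 * (1 / ((k : ℝ) ^ 2 - 1)) := by
        apply mul_le_mul_of_nonneg_right _ (by positivity)
        rw [div_le_div_iff₀ hpi0 (by norm_num)]
        linarith

end UBDaux

open UBDaux in
theorem m_UBD : Stmt_DINV → Stmt_H1B → Stmt_DFTS → Stmt_UBD := by
  intro hI hH hD K
  obtain ⟨C, n₁, hC, hB⟩ := hH K
  obtain ⟨M, hM⟩ := exists_nat_gt (500000 * C)
  have hM0 : (0 : ℝ) < M := lt_trans (by positivity) hM
  have hM1 : 1 ≤ M := by
    have : 0 < M := by exact_mod_cast hM0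
    omega
  refine ⟨M, max n₁ 2, 1 / (1000 * (2 * M + 1)), by positivity, ?_⟩
  intro N hN c hR L hL x₀ hMo j i hji
  have hN1 : 1 ≤ N := by
    have := le_trans (le_max_right n₁ 2) hN
    omega
  obtain ⟨-, hk2, -⟩ := hB N (le_trans (le_max_left _ _) hN) c hR
  have hinv := hI N (fun a => ((uu N c a : ℝ) : ℂ)) hN1
    (fun a => by rw [uper hN1]) j
  have hre : uu N c j = ∑ k ∈ Finset.Ioc (-(N : ℤ)) N,
      (dr (2 * N) (uu N c) k * om (2 * N) k j).re := by
    have := congrArg Complex.re hinv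
    rw [Complex.ofReal_re, Complex.re_sum] at this
    exact this
  set δ : ℝ := 1 / (1000 * (2 * M + 1)) with hδ
  have hom : ∀ k, ‖om (2 * N) k j‖ = 1 := fun k => by
    unfold om
    exact Complex.norm_exp_ofReal_mul_I _
  -- low modes
  have hlow : ∀ k ∈ (Finset.Ioc (-(N : ℤ)) N).filter (fun k : ℤ => |k| ≤ (M : ℤ)),
      |(dr (2 * N) (uu N c) k * om (2 * N) k j).re| ≤ 99 / 314 * wt k + δ := by
    intro k hk
    have hkM := (Finset.mem_filter.1 hk).2
    have hδ0 : 0 < δ := by positivity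
    rcases Int.emod_two_eq_zero_or_one k with h2 | h2
    · rw [dr_uu_even hD hN1 c h2, zero_mul, Complex.zero_re, abs_zero]
      have := wt_nonneg k
      positivity
    · have h3 := hMo.hu k hkM h2
      set P := Complex.exp (-(k * x₀ : ℝ) * Complex.I) * pst k / (((k : ℝ) ^ 2 - 1 : ℝ) : ℂ) with hP
      have e1 : dr (2 * N) (uu N c) k * om (2 * N) k j =
          (dr (2 * N) (uu N c) k + P) * om (2 * N) k j - P * om (2 * N) k j := by ring
      rw [e1, Complex.sub_re]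
      have h4 : |((dr (2 * N) (uu N c) k + P) * om (2 * N) k j).re| ≤ δ := by
        refine (Complex.abs_re_le_norm _).trans ?_
        rw [norm_mul, hom, mul_one]
        exact h3
      have h5 : |(P * om (2 * N) k j).re| ≤ 99 / 314 * wt k := by
        by_cases h6 : k % 6 = 3
        · have := main_mode k h6 x₀ (2 * π * j / (2 * N : ℕ)) i hji
          rw [hP]
          have e2 : om (2 * N) k j =
              Complex.exp ((k * (2 * π * j / (2 * N : ℕ)) : ℝ) * Complex.I) := by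
            unfold om
            congr 3
            ring
          rw [e2]
          exact this
        · have e3 : P = 0 := by
            rw [hP]
            unfold pst
            rw [if_neg h6]
            simp
          rw [e3, zero_mul, Complex.zero_re, abs_zero]
          have := wt_nonneg k
          positivity
      calc _ ≤ |((dr (2 * N) (uu N c) k + P) * om (2 * N) k j).re| + |(P * om (2 * N) k j).re| :=
            abs_sub _ _
        _ ≤ _ := by linarith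
  -- high modes
  set lam : ℝ := 1 / (500 * C) with hlam
  have hlam0 : 0 < lam := by positivity
  have hhigh : ∀ k ∈ (Finset.Ioc (-(N : ℤ)) N).filter (fun k : ℤ => ¬ |k| ≤ (M : ℤ)),
      |(dr (2 * N) (uu N c) k * om (2 * N) k j).re| ≤
        lam / 2 * ((k : ℝ) ^ 2 * (‖dr (2 * N) c.R k‖ ^ 2 + ‖dr (2 * N) c.Φ k‖ ^ 2)) +
          1 / (2 * lam) * (1 / (k : ℝ) ^ 2) := by
    intro k hk
    have hkM := (Finset.mem_filter.1 hk).2
    have hk0 : k ≠ 0 := by
      intro h0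
      apply hkM
      rw [h0, abs_zero]
      positivity
    have hkR : (k : ℝ) ≠ 0 := by exact_mod_cast hk0
    have hk2 : 0 < (k : ℝ) ^ 2 := by positivity
    have h1 : |(dr (2 * N) (uu N c) k * om (2 * N) k j).re| ≤ ‖dr (2 * N) c.Φ k‖ := by
      refine (Complex.abs_re_le_norm _).trans ?_
      rw [norm_mul, hom, mul_one]
      exact norm_dr_uu hD hN1 c k
    refine h1.trans ?_
    set X := ‖dr (2 * N) c.Φ k‖ with hX
    have h2 : X ≤ lam / 2 * ((k : ℝ) ^ 2 * X ^ 2) + 1 / (2 * lam) * (1 / (k : ℝ) ^ 2) := by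
      have h3 : lam / 2 * ((k : ℝ) ^ 2 * X ^ 2) + 1 / (2 * lam) * (1 / (k : ℝ) ^ 2) - X =
          (lam * (k : ℝ) ^ 2 * X - 1) ^ 2 / (2 * lam * (k : ℝ) ^ 2) := by
        field_simp
        ring
      have h4 : 0 ≤ (lam * (k : ℝ) ^ 2 * X - 1) ^ 2 / (2 * lam * (k : ℝ) ^ 2) := by positivity
      linarith
    have h5 : 0 ≤ lam / 2 * ((k : ℝ) ^ 2 * ‖dr (2 * N) c.R k‖ ^ 2) := by positivity
    calc X ≤ _ := h2
      _ ≤ _ := by
        rw [mul_add ((k : ℝ) ^ 2)]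
        linarith
  have hsplit := Finset.sum_filter_add_sum_filter_not (Finset.Ioc (-(N : ℤ)) N)
    (fun k : ℤ => |k| ≤ (M : ℤ)) (fun k => |(dr (2 * N) (uu N c) k * om (2 * N) k j).re|)
  have habs : |uu N c j| ≤ ∑ k ∈ Finset.Ioc (-(N : ℤ)) N,
      |(dr (2 * N) (uu N c) k * om (2 * N) k j).re| := by
    rw [hre]
    exact Finset.abs_sum_le_sum_abs _ _
  rw [← hsplit] at habs
  have hs1 := Finset.sum_le_sum hlow
  have hs2 := Finset.sum_le_sum hhigh
  rw [Finset.sum_add_distrib, ← Finset.mul_sum, Finset.sum_const, nsmul_eq_mul] at hs1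
  rw [Finset.sum_add_distrib, ← Finset.mul_sum, ← Finset.mul_sum] at hs2
  have hw := sum_wt M ((Finset.Ioc (-(N : ℤ)) N).filter (fun k : ℤ => |k| ≤ (M : ℤ)))
    (fun k hk => (Finset.mem_filter.1 hk).2)
  have hcard : (((Finset.Ioc (-(N : ℤ)) N).filter (fun k : ℤ => |k| ≤ (M : ℤ))).card : ℝ) ≤ 2 * M + 1 := by
    have h1 : (Finset.Ioc (-(N : ℤ)) N).filter (fun k : ℤ => |k| ≤ (M : ℤ)) ⊆ Finset.Icc (-(M : ℤ)) M := by
      intro k hk
      have := (Finset.mem_filter.1 hk).2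
      rw [Finset.mem_Icc]
      exact abs_le.1 this
    have h2 := Finset.card_le_card h1
    rw [Int.card_Icc] at h2
    have h3 : ((Finset.Ioc (-(N : ℤ)) N).filter (fun k : ℤ => |k| ≤ (M : ℤ))).card ≤ 2 * M + 1 := by
      refine h2.trans ?_
      omega
    exact_mod_cast h3
  have hδM : (((Finset.Ioc (-(N : ℤ)) N).filter (fun k : ℤ => |k| ≤ (M : ℤ))).card : ℝ) * δ ≤ 1 / 1000 := by
    calc _ ≤ (2 * (M : ℝ) + 1) * δ := mul_le_mul_of_nonneg_right hcard (by positivity)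
      _ = 1 / 1000 := by
        rw [hδ]
        field_simp
  have ht := sum_tail M hM1 N
  have hC1 : ∑ k ∈ (Finset.Ioc (-(N : ℤ)) N).filter (fun k : ℤ => ¬ |k| ≤ (M : ℤ)),
      (k : ℝ) ^ 2 * (‖dr (2 * N) c.R k‖ ^ 2 + ‖dr (2 * N) c.Φ k‖ ^ 2) ≤ C := by
    refine le_trans ?_ hk2
    apply Finset.sum_le_sum_of_subset_of_nonneg (Finset.filter_subset _ _)
    intro k _ _
    positivity
  have hA : lam / 2 * ∑ k ∈ (Finset.Ioc (-(N : ℤ)) N).filter (fun k : ℤ => ¬ |k| ≤ (M : ℤ)),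
      (k : ℝ) ^ 2 * (‖dr (2 * N) c.R k‖ ^ 2 + ‖dr (2 * N) c.Φ k‖ ^ 2) ≤ 1 / 1000 := by
    calc _ ≤ lam / 2 * C := mul_le_mul_of_nonneg_left hC1 (by positivity)
      _ = 1 / 1000 := by
        rw [hlam]
        field_simp
        norm_num
  have hBB : 1 / (2 * lam) * ∑ k ∈ (Finset.Ioc (-(N : ℤ)) N).filter (fun k : ℤ => ¬ |k| ≤ (M : ℤ)),
      1 / (k : ℝ) ^ 2 ≤ 1 / 1000 := by
    calc _ ≤ 1 / (2 * lam) * (2 / M) := mul_le_mul_of_nonneg_left ht (by positivity)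
      _ = 500 * C / M := by
        rw [hlam]
        field_simp
      _ ≤ 1 / 1000 := by
        rw [div_le_div_iff₀ hM0 (by norm_num)]
        linarith
  have hw2 : 99 / 314 * ∑ k ∈ (Finset.Ioc (-(N : ℤ)) N).filter (fun k : ℤ => |k| ≤ (M : ℤ)), wt k ≤
      99 / 314 * (11 / 36) := mul_le_mul_of_nonneg_left hw (by norm_num)
  have : (99 : ℝ) / 314 * (11 / 36) + 3 / 1000 ≤ 1 / 10 := by norm_num
  linarith

end Pool.Agent.EHP
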