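import Pool.Agent.EHP.Stmts5

/-!
# Module EHP_WDER: derivatives (MP_fd5ac7_co)
-/

open Finset
open scoped Real ComplexConjugate Interval

namespace Pool.Agent.EHP

namespace WDER

theorem dL (t : ℝ) (h : 0 < Real.sin t) :
    HasDerivAt (fun x : ℝ => Real.log (2 * Real.sin x)) (Real.cos t / Real.sin t) t := by
  have h1 := ((Real.hasDerivAt_sin t).const_mul 2).log (by positivity)
  convert h1 using 1
  field_simp

theorem dC3 (t : ℝ) : HasDerivAt (fun x : ℝ => Real.cos (3 * x)) (-Real.sin (3 * t) * 3) t := by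
  have h1 := ((hasDerivAt_id' t).const_mul 3).cos
  convert h1 using 1
  ring

theorem dS3 (t : ℝ) : HasDerivAt (fun x : ℝ => Real.sin (3 * x)) (Real.cos (3 * t) * 3) t := by
  have h1 := ((hasDerivAt_id' t).const_mul 3).sin
  convert h1 using 1
  ring

theorem dP (t : ℝ) : HasDerivAt (fun x : ℝ => π / 2 - x) (-1) t := (hasDerivAt_id' t).const_sub _

theorem d0 (t : ℝ) (h : 0 < Real.sin t) : HasDerivAt Wk (Wk1 t) t := by
  have h1 := ((((Real.hasDerivAt_cos t).neg.mul (dL t h)).add ((dP t).mul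
    (Real.hasDerivAt_sin t))).sub (Real.hasDerivAt_cos t)).sub ((dC3 t).const_mul (2 * (1 / 500)))
  refine HasDerivAt.congr_deriv (f := Wk) (h1.congr_of_eventuallyEq
    (Filter.Eventually.of_forall fun x => ?_)) ?_
  · simp only [Wk, W0, Pi.add_apply, Pi.sub_apply, Pi.mul_apply, Pi.neg_apply]
  · simp only [Wk1, Pi.neg_apply]
    field_simp
    ring

theorem d1 (t : ℝ) (h : 0 < Real.sin t) : HasDerivAt Wk1 (Wk2 t) t := by
  have h1 := ((((Real.hasDerivAt_sin t).mul (dL t h)).sub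
    (((Real.hasDerivAt_cos t).pow 2).div (Real.hasDerivAt_sin t) h.ne')).add ((dP t).mul
    (Real.hasDerivAt_cos t))).add ((dS3 t).const_mul (6 * (1 / 500)))
  refine HasDerivAt.congr_deriv (f := Wk1) (h1.congr_of_eventuallyEq
    (Filter.Eventually.of_forall fun x => ?_)) ?_
  · simp only [Wk1, Pi.add_apply, Pi.sub_apply, Pi.mul_apply, Pi.div_apply, Pi.pow_apply]
  · simp only [Wk2, Pi.pow_apply]
    have hc : Real.cos t ^ 2 = 1 - Real.sin t ^ 2 := Real.cos_sq' t
    have hc3 : Real.cos t ^ 3 = Real.cos t * (1 - Real.sin t ^ 2) := by rw [← hc]; ring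
    field_simp
    ring_nf
    simp only [hc3]
    ring_nf

theorem d2 (t : ℝ) (h : 0 < Real.sin t) : HasDerivAt Wk2 (Wk3 t) t := by
  have h1 := (((((Real.hasDerivAt_cos t).mul (dL t h)).add (Real.hasDerivAt_cos t)).add
    ((Real.hasDerivAt_cos t).div ((Real.hasDerivAt_sin t).pow 2) (pow_ne_zero 2 h.ne'))).sub ((dP t).mul
    (Real.hasDerivAt_sin t))).add ((dC3 t).const_mul (18 * (1 / 500)))
  refine HasDerivAt.congr_deriv (f := Wk2) (h1.congr_of_eventuallyEq
    (Filter.Eventually.of_forall fun x => ?_)) ?_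
  · simp only [Wk2, Pi.add_apply, Pi.sub_apply, Pi.mul_apply, Pi.div_apply, Pi.pow_apply]
  · simp only [Wk3, Pi.pow_apply]
    have hc : Real.cos t ^ 2 = 1 - Real.sin t ^ 2 := Real.cos_sq' t
    field_simp
    ring_nf
    simp only [hc]
    ring_nf

theorem d3 (t : ℝ) (h : 0 < Real.sin t) : HasDerivAt Wk3 (Wk4 t) t := by
  have h1 := (((((Real.hasDerivAt_sin t).neg.mul (dL t h)).sub (Real.hasDerivAt_sin t)).sub
    ((((Real.hasDerivAt_cos t).pow 2).const_mul 2).div ((Real.hasDerivAt_sin t).pow 3)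
    (pow_ne_zero 3 h.ne'))).sub ((dP t).mul (Real.hasDerivAt_cos t))).sub ((dS3 t).const_mul (54 * (1 / 500)))
  refine HasDerivAt.congr_deriv (f := Wk3) (h1.congr_of_eventuallyEq
    (Filter.Eventually.of_forall fun x => ?_)) ?_
  · simp only [Wk3, Pi.sub_apply, Pi.mul_apply, Pi.div_apply, Pi.pow_apply, Pi.neg_apply]
  · simp only [Wk4, Pi.pow_apply, Pi.neg_apply]
    field_simp
    ring

theorem sym0 (t : ℝ) : Wk (π - t) = -Wk t := by
  unfold Wk W0
  have h3 : Real.cos (3 * (π - t)) = -Real.cos (3 * t) := by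
    have : 3 * (π - t) = (π - 3 * t) + 2 * π := by ring
    rw [this, Real.cos_add_two_pi, Real.cos_pi_sub]
  rw [Real.cos_pi_sub, Real.sin_pi_sub, h3]
  ring

theorem sym1 (t : ℝ) : Wk1 (π - t) = Wk1 t := by
  unfold Wk1
  have h3 : Real.sin (3 * (π - t)) = Real.sin (3 * t) := by
    have : 3 * (π - t) = (π - 3 * t) + 2 * π := by ring
    rw [this, Real.sin_add_two_pi, Real.sin_pi_sub]
  rw [Real.cos_pi_sub, Real.sin_pi_sub, h3]
  ring

theorem dv (a : ℝ) : HasDerivAt (fun x : ℝ => (x - π / 6) / (π / 6)) (1 / (π / 6)) a :=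
  ((hasDerivAt_id' a).sub_const _).div_const _

theorem sh (t : ℝ) : HasDerivAt (fun x : ℝ => π / 3 + x) 1 t := (hasDerivAt_id' t).const_add _

theorem dw (t : ℝ) (h : 0 < Real.sin (π / 3 + t)) : HasDerivAt ww (ww1 t) t := by
  have h0 : HasDerivAt (fun x => Wk1 (π / 3 + x)) (Wk2 (π / 3 + t) * 1) t :=
    HasDerivAt.comp t (h₂ := Wk1) (d1 _ h) (sh t)
  have h1 := (h0.const_mul (1 / 2)).sub ((((dv t).const_mul (2 * e2)).add
    (((dv t).pow 3).const_mul (4 * e4))).div_const (π / 6))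
  refine HasDerivAt.congr_deriv (f := ww) (h1.congr_of_eventuallyEq
    (Filter.Eventually.of_forall fun x => ?_)) ?_
  · simp only [ww, Pi.add_apply, Pi.sub_apply, Pi.pow_apply]
  · simp only [ww1]
    have := Real.pi_ne_zero
    generalize (t - π / 6) / (π / 6) = v
    norm_num
    field_simp
    ring

theorem dG (t : ℝ) (h : 0 < Real.sin (π / 3 + t)) : HasDerivAt GG (-ww t) t := by
  have h0 : HasDerivAt (fun x => Wk (π / 3 + x)) (Wk1 (π / 3 + t) * 1) t :=
    HasDerivAt.comp t (h₂ := Wk) (d0 _ h) (sh t)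
  have h1 := (h0.const_mul (-(1 / 2))).add (((((dv t).pow 2).const_mul e2).const_add e0).add
    (((dv t).pow 4).const_mul e4))
  refine HasDerivAt.congr_deriv (f := GG) (h1.congr_of_eventuallyEq
    (Filter.Eventually.of_forall fun x => ?_)) ?_
  · simp only [GG, EE, Pi.add_apply, Pi.pow_apply]
  · simp only [ww]
    have := Real.pi_ne_zero
    generalize (t - π / 6) / (π / 6) = v
    norm_num
    field_simp
    ring

theorem sumw (t : ℝ) : ww t + ww (π / 3 - t) = Wk1 (π / 3 + t) := by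
  unfold ww
  have h1 : Wk1 (π / 3 + (π / 3 - t)) = Wk1 (π / 3 + t) := by
    rw [← sym1 (π / 3 + t)]
    congr 1
    ring
  rw [h1]
  have := Real.pi_ne_zero
  field_simp
  ring

end WDER

open WDER in
theorem m_WDER : Stmt_WDER := by
  refine ⟨fun t h0 h1 => ?_, fun t h0 h1 => ?_, fun t h0 h1 => ?_⟩
  · have h := Real.sin_pos_of_pos_of_lt_pi h0 h1
    exact ⟨d0 t h, d1 t h, d2 t h, d3 t h, sym0 t⟩
  · have h : 0 < Real.sin (π / 3 + t) :=
      Real.sin_pos_of_pos_of_lt_pi (by linarith) (by linarith)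
    exact ⟨dw t h, dG t h⟩
  · have hpi := Real.pi_pos
    have h : 0 < Real.sin t := Real.sin_pos_of_pos_of_lt_pi h0 (by linarith)
    have h' : 0 < Real.sin (π / 3 + t) :=
      Real.sin_pos_of_pos_of_lt_pi (by linarith) (by linarith)
    have h'' : 0 < Real.sin (π / 3 + (π / 3 - t)) :=
      Real.sin_pos_of_pos_of_lt_pi (by linarith) (by linarith)
    have g1 : HasDerivAt (fun x => GG (π / 3 - x)) (-ww (π / 3 - t) * (-1)) t :=
      HasDerivAt.comp t (h₂ := GG) (dG _ h'') ((hasDerivAt_id' t).const_sub _)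
    have g2 := ((d0 t h).neg.sub ((hasDerivAt_id' t).mul (dw t h'))).sub g1
    refine HasDerivAt.congr_deriv (f := rh) (g2.congr_of_eventuallyEq
      (Filter.Eventually.of_forall fun x => ?_)) ?_
    · simp only [rh, Pi.sub_apply, Pi.mul_apply, Pi.neg_apply]
    · simp only [rh1]
      have := sumw t
      linarith

end Pool.Agent.EHP
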