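import Pool.Agent.EHP.Stmts5

/-!
# Module WINT: Fourier coefficients of the kernel
-/

open Finset
open scoped Real Interval

namespace Pool.Agent.EHP

namespace WINT

open MeasureTheory

/-- the logarithm -/
noncomputable def lg (t : ℝ) : ℝ := Real.log (2 * Real.sin t)

lemma sin_pos' {t : ℝ} (ht : t ∈ Set.Ioc 0 (π / 2)) : 0 < Real.sin t :=
  Real.sin_pos_of_pos_of_lt_pi ht.1 (by linarith [ht.2, Real.pi_pos])

lemma lg_eq {t : ℝ} (ht : t ∈ Set.Ioc 0 (π / 2)) :
    lg t = Real.log 2 + Real.log (Real.sin t) :=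
  Real.log_mul two_ne_zero (sin_pos' ht).ne'

lemma aux_int : IntervalIntegrable (fun t => Real.log 2 + Real.log (Real.sin t)) volume 0 (π / 2) :=
  intervalIntegrable_const.add intervalIntegrable_log_sin

lemma lg_int : IntervalIntegrable lg volume 0 (π / 2) := by
  refine aux_int.congr_ae ?_
  rw [Set.uIoc_of_le (by positivity)]
  filter_upwards [ae_restrict_mem measurableSet_Ioc] with t ht
  exact (lg_eq ht).symm

lemma lg_mul_int {f : ℝ → ℝ} (hf : Continuous f) :
    IntervalIntegrable (fun t => f t * lg t) volume 0 (π / 2) :=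
  lg_int.continuousOn_mul hf.continuousOn

lemma lg_integral : ∫ t in (0 : ℝ)..(π / 2), lg t = 0 := by
  have h1 : ∫ t in (0 : ℝ)..(π / 2), lg t =
      ∫ t in (0 : ℝ)..(π / 2), (Real.log 2 + Real.log (Real.sin t)) := by
    refine intervalIntegral.integral_congr_ae (Filter.Eventually.of_forall fun t ht => ?_)
    rw [Set.uIoc_of_le (by positivity)] at ht
    exact lg_eq ht
  have h2 : IntervalIntegrable (fun t => Real.log (Real.sin t)) volume 0 (π / 2) :=
    intervalIntegrable_log_sin
  rw [h1, intervalIntegral.integral_add intervalIntegrable_const h2,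
    intervalIntegral.integral_const, integral_log_sin_zero_pi_div_two]
  simp only [smul_eq_mul, sub_zero]
  ring

/-- the integral of the cosine -/
lemma E_int (m : ℕ) (hm : 1 ≤ m) : ∫ t in (0 : ℝ)..(π / 2), Real.cos (2 * m * t) = 0 := by
  have hm0 : (2 * m : ℝ) ≠ 0 := by positivity
  have h1 : ∀ t ∈ Set.uIcc (0 : ℝ) (π / 2),
      HasDerivAt (fun t : ℝ => Real.sin (2 * m * t) / (2 * m)) (Real.cos (2 * m * t)) t := by
    intro t _
    have h2 : HasDerivAt (fun t : ℝ => 2 * (m : ℝ) * t) (2 * m) t := by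
      simpa using (hasDerivAt_id t).const_mul (2 * (m : ℝ))
    have h3 := (h2.sin).div_const (2 * (m : ℝ))
    rwa [mul_div_assoc, div_self hm0, mul_one] at h3
  rw [intervalIntegral.integral_eq_sub_of_hasDerivAt h1 (by
    apply Continuous.intervalIntegrable; fun_prop)]
  have h2 : 2 * (m : ℝ) * (π / 2) = m * π := by ring
  rw [h2, Real.sin_nat_mul_pi]
  simp

lemma E_zero : ∫ t in (0 : ℝ)..(π / 2), Real.cos (2 * (0 : ℕ) * t) = π / 2 := by
  simp

/-- the integral of `cos t cos (2j+1)t` -/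
lemma J_int (j : ℕ) : ∫ t in (0 : ℝ)..(π / 2), Real.cos t * Real.cos ((2 * j + 1) * t) =
    if j = 0 then π / 4 else 0 := by
  have h1 : ∀ t : ℝ, Real.cos t * Real.cos ((2 * j + 1) * t) =
      1 / 2 * (Real.cos (2 * (j : ℕ) * t) + Real.cos (2 * (j + 1 : ℕ) * t)) := by
    intro t
    have e1 : 2 * (j : ℝ) * t = (2 * j + 1) * t - t := by ring
    have e2 : 2 * ((j + 1 : ℕ) : ℝ) * t = (2 * j + 1) * t + t := by push_cast; ring
    rw [e1, e2, Real.cos_sub, Real.cos_add]
    ring
  simp_rw [h1]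
  rw [intervalIntegral.integral_const_mul, intervalIntegral.integral_add
    (by apply Continuous.intervalIntegrable; fun_prop)
    (by apply Continuous.intervalIntegrable; fun_prop), E_int (j + 1) (by omega)]
  by_cases hj : j = 0
  · subst hj
    rw [E_zero, if_pos rfl]
    ring
  · rw [E_int j (by omega), if_neg hj]
    ring

/-- the quotient `sin 2mt / sin t` -/
noncomputable def D (m : ℕ) (t : ℝ) : ℝ := 2 * ∑ j ∈ range m, Real.cos ((2 * j + 1) * t)

lemma D_cont (m : ℕ) : Continuous (D m) := by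
  unfold D
  fun_prop

lemma sin_D (m : ℕ) (t : ℝ) : Real.sin (2 * m * t) = Real.sin t * D m t := by
  induction m with
  | zero => simp [D]
  | succ m ih =>
    have h1 : D (m + 1) t = D m t + 2 * Real.cos ((2 * m + 1) * t) := by
      unfold D
      rw [sum_range_succ, mul_add]
    rw [h1, mul_add, ← ih]
    have e1 : 2 * ((m + 1 : ℕ) : ℝ) * t = (2 * m + 1) * t + t := by push_cast; ring
    have e2 : 2 * (m : ℝ) * t = (2 * m + 1) * t - t := by ring
    rw [e1, e2, Real.sin_add, Real.sin_sub]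
    ring

lemma D_int (m : ℕ) (hm : 1 ≤ m) : ∫ t in (0 : ℝ)..(π / 2), Real.cos t * D m t = π / 2 := by
  have h1 : ∀ t : ℝ, Real.cos t * D m t =
      ∑ j ∈ range m, 2 * (Real.cos t * Real.cos ((2 * j + 1) * t)) := by
    intro t
    unfold D
    rw [mul_sum, mul_sum]
    refine sum_congr rfl fun j _ => ?_
    ring
  simp_rw [h1]
  rw [intervalIntegral.integral_finsetSum (fun j _ => by
    apply Continuous.intervalIntegrable; fun_prop)]
  simp_rw [intervalIntegral.integral_const_mul, J_int]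
  rw [sum_eq_single 0]
  · rw [if_pos rfl]
    ring
  · intro j _ hj
    rw [if_neg hj, mul_zero]
  · intro h0
    exact absurd (mem_range.2 (by omega)) h0

/-- the integral of `cos 2mt log (2 sin t)` -/
lemma L_int (m : ℕ) (hm : 1 ≤ m) :
    ∫ t in (0 : ℝ)..(π / 2), Real.cos (2 * m * t) * lg t = -(π / (4 * m)) := by
  have hm0 : (2 * m : ℝ) ≠ 0 := by positivity
  have hm1 : (m : ℝ) ≠ 0 := by positivity
  set F : ℝ → ℝ := fun t => 1 / (4 * m) * ((2 * Real.sin t) * Real.log (2 * Real.sin t)) * D m t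
    with hF
  have hFc : Continuous F := by
    have h1 : Continuous fun t : ℝ => (2 * Real.sin t) * Real.log (2 * Real.sin t) :=
      Real.continuous_mul_log.comp (by fun_prop : Continuous fun t : ℝ => 2 * Real.sin t)
    exact (continuous_const.mul h1).mul (D_cont m)
  have hFe : ∀ t, F t = 1 / (2 * m) * (Real.sin (2 * m * t) * Real.log (2 * Real.sin t)) := by
    intro t
    rw [sin_D]
    simp only [hF]
    field_simp
    ring
  have hd : ∀ t ∈ Set.Ioo (0 : ℝ) (π / 2), HasDerivAt F
      (Real.cos (2 * m * t) * lg t + 1 / (2 * m) * (Real.cos t * D m t)) t := by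
    intro t ht
    have hs := sin_pos' ⟨ht.1, ht.2.le⟩
    have h2 : HasDerivAt (fun t : ℝ => 2 * (m : ℝ) * t) (2 * m) t := by
      simpa using (hasDerivAt_id t).const_mul (2 * (m : ℝ))
    have h3 := h2.sin
    have h4 : HasDerivAt (fun t : ℝ => 2 * Real.sin t) (2 * Real.cos t) t :=
      (Real.hasDerivAt_sin t).const_mul 2
    have h5 := h4.log (by positivity)
    have h6 := (h3.mul h5).const_mul (1 / (2 * (m : ℝ)))
    have h7 : F = fun t => 1 / (2 * (m : ℝ)) *
        (Real.sin (2 * m * t) * Real.log (2 * Real.sin t)) := funext hFe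
    rw [h7]
    refine HasDerivAt.congr_deriv h6 ?_
    rw [sin_D]
    unfold lg
    field_simp
  have i1 : IntervalIntegrable (fun t => Real.cos (2 * m * t) * lg t) volume 0 (π / 2) :=
    lg_mul_int (by fun_prop)
  have i2 : IntervalIntegrable (fun t => 1 / (2 * (m : ℝ)) * (Real.cos t * D m t)) volume
      0 (π / 2) :=
    Continuous.intervalIntegrable
      (continuous_const.mul (Real.continuous_cos.mul (D_cont m))) _ _
  have hi : IntervalIntegrable (fun t => Real.cos (2 * m * t) * lg t +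
      1 / (2 * m) * (Real.cos t * D m t)) volume 0 (π / 2) := i1.add i2
  have h8 := intervalIntegral.integral_eq_sub_of_hasDerivAt_of_le (by positivity)
    hFc.continuousOn hd hi
  rw [intervalIntegral.integral_add i1 i2,
    intervalIntegral.integral_const_mul, D_int m hm] at h8
  have h9 : F (π / 2) = 0 := by
    rw [hFe]
    have h2 : 2 * (m : ℝ) * (π / 2) = m * π := by ring
    rw [h2, Real.sin_nat_mul_pi]
    ring
  have h10 : F 0 = 0 := by
    rw [hFe]
    simp
  rw [h9, h10] at h8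
  have h11 : 1 / (2 * (m : ℝ)) * (π / 2) = π / (4 * m) := by
    field_simp
    ring
  rw [h11] at h8
  linarith

lemma L_zero : ∫ t in (0 : ℝ)..(π / 2), Real.cos (2 * (0 : ℕ) * t) * lg t = 0 := by
  simp only [Nat.cast_zero, mul_zero, zero_mul, Real.cos_zero, one_mul]
  exact lg_integral

/-- the integral of `(π/2 - t) sin 2mt` -/
lemma S_int (m : ℕ) (hm : 1 ≤ m) :
    ∫ t in (0 : ℝ)..(π / 2), (π / 2 - t) * Real.sin (2 * m * t) = π / (4 * m) := by
  have hm0 : (2 * m : ℝ) ≠ 0 := by positivity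
  have hm1 : (m : ℝ) ≠ 0 := by positivity
  have h1 : ∀ t ∈ Set.uIcc (0 : ℝ) (π / 2),
      HasDerivAt (fun t : ℝ => -((π / 2 - t) * Real.cos (2 * m * t)) / (2 * m) -
        Real.sin (2 * m * t) / (2 * m) ^ 2) ((π / 2 - t) * Real.sin (2 * m * t)) t := by
    intro t _
    have h2 : HasDerivAt (fun t : ℝ => 2 * (m : ℝ) * t) (2 * m) t := by
      simpa using (hasDerivAt_id t).const_mul (2 * (m : ℝ))
    have h3 : HasDerivAt (fun t : ℝ => π / 2 - t) (-1) t := by
      simpa using (hasDerivAt_id t).const_sub (π / 2)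
    have h4 := ((h3.mul h2.cos).neg.div_const (2 * (m : ℝ))).sub
      (h2.sin.div_const ((2 * (m : ℝ)) ^ 2))
    refine HasDerivAt.congr_deriv h4 ?_
    field_simp
    ring
  rw [intervalIntegral.integral_eq_sub_of_hasDerivAt h1 (by
    apply Continuous.intervalIntegrable; fun_prop)]
  have h2 : 2 * (m : ℝ) * (π / 2) = m * π := by ring
  rw [h2, Real.sin_nat_mul_pi]
  simp
  field_simp
  ring

lemma S_zero : ∫ t in (0 : ℝ)..(π / 2), (π / 2 - t) * Real.sin (2 * (0 : ℕ) * t) = 0 := by
  simp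

/-- the product of the kernel with `cos (2m+1)t` -/
lemma W_mul (m : ℕ) (t : ℝ) : W0 t * Real.cos ((2 * m + 1) * t) =
    -(1 / 2) * (Real.cos (2 * m * t) * lg t + Real.cos (2 * (m + 1 : ℕ) * t) * lg t) +
    1 / 2 * ((π / 2 - t) * Real.sin (2 * (m + 1 : ℕ) * t) -
      (π / 2 - t) * Real.sin (2 * m * t)) -
    Real.cos t * Real.cos ((2 * m + 1) * t) := by
  have e1 : 2 * ((m + 1 : ℕ) : ℝ) * t = (2 * m + 1) * t + t := by push_cast; ring
  have e2 : 2 * (m : ℝ) * t = (2 * m + 1) * t - t := by ring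
  rw [e1, e2, Real.sin_add, Real.sin_sub, Real.cos_add, Real.cos_sub]
  unfold W0 lg
  ring

lemma W_int (m : ℕ) : ∫ t in (0 : ℝ)..(π / 2), W0 t * Real.cos ((2 * m + 1) * t) =
    -(1 / 2) * ((∫ t in (0 : ℝ)..(π / 2), Real.cos (2 * m * t) * lg t) +
      ∫ t in (0 : ℝ)..(π / 2), Real.cos (2 * (m + 1 : ℕ) * t) * lg t) +
    1 / 2 * ((∫ t in (0 : ℝ)..(π / 2), (π / 2 - t) * Real.sin (2 * (m + 1 : ℕ) * t)) -
      ∫ t in (0 : ℝ)..(π / 2), (π / 2 - t) * Real.sin (2 * m * t)) -
    ∫ t in (0 : ℝ)..(π / 2), Real.cos t * Real.cos ((2 * m + 1) * t) := by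
  simp_rw [W_mul]
  have i1 : IntervalIntegrable (fun t : ℝ => Real.cos (2 * m * t) * lg t) volume 0 (π / 2) :=
    lg_mul_int (by fun_prop)
  have i2 : IntervalIntegrable (fun t : ℝ => Real.cos (2 * (m + 1 : ℕ) * t) * lg t) volume 0
    (π / 2) := lg_mul_int (by fun_prop)
  have i3 : IntervalIntegrable (fun t : ℝ => (π / 2 - t) * Real.sin (2 * (m + 1 : ℕ) * t)) volume
    0 (π / 2) := Continuous.intervalIntegrable (by fun_prop) _ _
  have i4 : IntervalIntegrable (fun t : ℝ => (π / 2 - t) * Real.sin (2 * m * t)) volume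
    0 (π / 2) := Continuous.intervalIntegrable (by fun_prop) _ _
  have i5 : IntervalIntegrable (fun t : ℝ => Real.cos t * Real.cos ((2 * m + 1) * t)) volume
    0 (π / 2) := Continuous.intervalIntegrable (by fun_prop) _ _
  rw [intervalIntegral.integral_sub (((i1.add i2).const_mul _).add ((i3.sub i4).const_mul _)) i5,
    intervalIntegral.integral_add ((i1.add i2).const_mul _) ((i3.sub i4).const_mul _),
    intervalIntegral.integral_const_mul, intervalIntegral.integral_const_mul,
    intervalIntegral.integral_add i1 i2, intervalIntegral.integral_sub i3 i4]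

end WINT

open WINT in
theorem m_WINT : Stmt_WINT := by
  refine ⟨?_, ?_, ?_⟩
  · have h1 : W0 = fun t => -Real.cos t * lg t + ((π / 2 - t) * Real.sin t - Real.cos t) := by
      funext t
      unfold W0 lg
      ring
    rw [h1]
    refine (lg_mul_int (by fun_prop)).add (Continuous.intervalIntegrable (by fun_prop) _ _)
  · have h1 := W_int 0
    rw [L_zero, L_int (0 + 1) le_rfl, S_int (0 + 1) le_rfl, S_zero, J_int, if_pos rfl] at h1
    have h2 : ∀ t : ℝ, (2 * ((0 : ℕ) : ℝ) + 1) * t = t := by intro t; simp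
    simp_rw [h2] at h1
    rw [h1]
    push_cast
    ring
  · intro k hk hk3
    obtain ⟨m, rfl⟩ : ∃ m, k = 2 * m + 1 := ⟨k / 2, by omega⟩
    have hm : 1 ≤ m := by omega
    have h1 := W_int m
    rw [L_int m hm, L_int (m + 1) (by omega), S_int (m + 1) (by omega), S_int m hm, J_int,
      if_neg (by omega)] at h1
    have h2 : ((2 * m + 1 : ℕ) : ℝ) = 2 * m + 1 := by push_cast; ring
    rw [h2, h1]
    have hm1 : (m : ℝ) ≠ 0 := by positivity
    have hm2 : (m : ℝ) + 1 ≠ 0 := by positivity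
    push_cast
    have e : (2 * (m : ℝ) + 1 + 1) = 2 * (m + 1) := by ring
    rw [e]
    field_simp
    ring

end Pool.Agent.EHP
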