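import Pool.Agent.EHP.Stmts5

/-!
# Positivity of the weight
-/

open Finset
open scoped Real ComplexConjugate

namespace Pool.Agent.EHP

namespace MWPOS

theorem sin23 : Real.sin (2 * π / 3) = Real.sqrt 3 / 2 := by
  have : 2 * π / 3 = π - π / 3 := by ring
  rw [this, Real.sin_pi_sub, Real.sin_pi_div_three]

theorem cos23 : Real.cos (2 * π / 3) = -(1 / 2) := by
  have : 2 * π / 3 = π - π / 3 := by ring
  rw [this, Real.cos_pi_sub, Real.cos_pi_div_three]

theorem logs : Real.log (2 * (Real.sqrt 3 / 2)) = Real.log 3 / 2 := by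
  rw [mul_div_cancel₀ _ (by norm_num : (2 : ℝ) ≠ 0), Real.log_sqrt (by norm_num)]

theorem Wk1_a : Wk1 (π / 3) = W1P := by
  unfold Wk1 W1P
  have e : 3 * (π / 3) = π := by ring
  have h3 : Real.sqrt 3 ≠ 0 := by positivity
  rw [Real.sin_pi_div_three, Real.cos_pi_div_three, logs, e, Real.sin_pi]
  field_simp
  ring

theorem Wk1_b : Wk1 (2 * π / 3) = W1P := by
  unfold Wk1 W1P
  have e : 3 * (2 * π / 3) = 2 * π := by ring
  have h3 : Real.sqrt 3 ≠ 0 := by positivity
  rw [sin23, cos23, logs, e, Real.sin_two_pi]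
  field_simp
  ring

theorem Wk_b : Wk (2 * π / 3) = 2 * al := by
  unfold Wk W0 al
  have e : 3 * (2 * π / 3) = 2 * π := by ring
  rw [sin23, cos23, logs, e, Real.cos_two_pi]
  ring

theorem v1 : (π / 3 - π / 6) / (π / 6) = 1 := by
  have := Real.pi_ne_zero
  field_simp
  ring

theorem v0 : (0 - π / 6) / (π / 6) = -1 := by
  have := Real.pi_ne_zero
  field_simp
  ring

theorem ww_b : ww (π / 3) = 0 := by
  have := Real.pi_ne_zero
  unfold ww
  have e : π / 3 + π / 3 = 2 * π / 3 := by ring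
  rw [e, Wk1_b, v1]
  unfold e2
  field_simp
  ring

theorem ww_a : ww 0 = W1P := by
  have := Real.pi_ne_zero
  unfold ww
  rw [add_zero, Wk1_a, v0]
  unfold e2
  field_simp
  ring

theorem W1P_pos : 0 < W1P := by
  unfold W1P
  have hl := Real.log_three_gt_d9
  have hpi := Real.pi_gt_three
  have h3 : 0 < Real.sqrt 3 := by positivity
  have hs : (1.5 : ℝ) ≤ Real.sqrt 3 := Real.le_sqrt_of_sq_le (by norm_num)
  have h1 : 1 / (2 * Real.sqrt 3) ≤ 1 / 3 := one_div_le_one_div_of_le (by norm_num) (by linarith)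
  have h2 : (1.5 : ℝ) / 4 * 1 ≤ Real.sqrt 3 / 4 * Real.log 3 :=
    mul_le_mul (by linarith) (by linarith) (by norm_num) (by positivity)
  linarith

/-- Bound of the third derivative. -/
theorem Wk3_le {τ : ℝ} (h1 : π / 3 ≤ τ) (h2 : τ ≤ 2 * π / 3) : Wk3 τ ≤ -1.58 := by
  have hpi := Real.pi_pos
  have hL := Real.log_two_gt_d9
  have hL2 := Real.log_two_lt_d9
  set s := Real.sin τ with hs
  set c := Real.cos τ with hc
  have hcs : s ^ 2 + c ^ 2 = 1 := Real.sin_sq_add_cos_sq τ
  have hc1 : c ≤ 1 / 2 := by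
    rw [← Real.cos_pi_div_three]
    exact Real.cos_le_cos_of_nonneg_of_le_pi (by positivity) (by linarith) h1
  have hc2 : -(1 / 2) ≤ c := by
    rw [← cos23]
    exact Real.cos_le_cos_of_nonneg_of_le_pi (by linarith) (by linarith) h2
  have hs0 : 0 < s := Real.sin_pos_of_pos_of_lt_pi (by linarith) (by linarith)
  have hs1 : s ≤ 1 := Real.sin_le_one τ
  have hc3 : c ^ 2 ≤ 1 / 4 := by nlinarith
  have hs2 : 1 / 2 ≤ s := by nlinarith
  have hpc : 0 ≤ (π / 2 - τ) * c := by
    rcases le_total τ (π / 2) with h | h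
    · exact mul_nonneg (by linarith) (Real.cos_nonneg_of_mem_Icc ⟨by linarith, h⟩)
    · exact mul_nonneg_of_nonpos_of_nonpos (by linarith)
        (Real.cos_nonpos_of_pi_div_two_le_of_le h (by linarith))
  have hlog : 1 - 1 / s ≤ Real.log s := by
    have := Real.one_sub_inv_le_log_of_pos hs0
    rwa [← one_div] at this
  have hlog2 : Real.log (2 * s) = Real.log 2 + Real.log s :=
    Real.log_mul (by norm_num) hs0.ne'
  have h3 : s * (1 - 1 / s) ≤ s * Real.log s := mul_le_mul_of_nonneg_left hlog hs0.le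
  have h4 : s * (1 - 1 / s) = s - 1 := by field_simp
  have h5 : 2 * c ^ 2 ≤ 2 * c ^ 2 / s ^ 3 := by
    rw [le_div_iff₀ (by positivity)]
    have : s ^ 3 ≤ 1 := pow_le_one₀ hs0.le hs1
    have := mul_le_mul_of_nonneg_left this (show 0 ≤ 2 * c ^ 2 by positivity)
    linarith
  have h6 := Real.neg_one_le_sin (3 * τ)
  have h7 : 0 ≤ (1 - s) * (2 * s - Real.log 2) := mul_nonneg (by linarith) (by linarith)
  unfold Wk3
  rw [← hs, ← hc, hlog2]
  have h8 : c ^ 2 = 1 - s ^ 2 := by linarith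
  norm_num at *
  nlinarith

theorem e4b (hE : Stmt_E4) {v : ℝ} (h1 : -1 ≤ v) (h2 : v ≤ 1) :
    -(24 * e4 * v / (π / 6) ^ 3) ≤ 0.76 := by
  obtain ⟨h3, h4⟩ := hE
  have hpi := Real.pi_gt_d2
  have h5 : (0.1433 : ℝ) ≤ (π / 6) ^ 3 := by
    have : ((3.14 : ℝ) / 6) ^ 3 ≤ (π / 6) ^ 3 := pow_le_pow_left₀ (by norm_num) (by linarith) 3
    norm_num at this ⊢
    linarith
  have h6 : -(24 * e4 * v) ≤ 0.108 := by
    norm_num at *
    nlinarith
  rw [← neg_div, div_le_iff₀ (by positivity)]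
  norm_num at *
  linarith

end MWPOS

open MWPOS in
theorem m_WPOS : Stmt_WDER → Stmt_E4 → Stmt_WPOS := by
  intro hW hE
  have hpi := Real.pi_pos
  refine ⟨?_, ?_, ?_⟩
  · -- concavity
    have hd1 : ∀ x ∈ Set.Icc 0 (π / 3), HasDerivAt ww (ww1 x) x := fun x hx =>
      (hW.2.1 x (by linarith [hx.1]) (by linarith [hx.2])).1
    have hd2 : ∀ x ∈ Set.Icc 0 (π / 3), HasDerivAt ww1
        (1 / 2 * Wk3 (π / 3 + x) - 24 * e4 * ((x - π / 6) / (π / 6)) / (π / 6) ^ 3) x := by
      intro x hx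
      have h1 : HasDerivAt (fun y => Wk2 (π / 3 + y)) (Wk3 (π / 3 + x)) x :=
        HasDerivAt.comp_const_add (π / 3) x
          (hW.1 (π / 3 + x) (by linarith [hx.1]) (by linarith [hx.2])).2.2.1
      have h2 : HasDerivAt (fun y : ℝ => ((y - π / 6) / (π / 6))) (1 / (π / 6)) x :=
        ((hasDerivAt_id x).sub_const (π / 6)).div_const (π / 6)
      have h3 := (h1.const_mul (1 / 2)).sub
        (((h2.pow 2).const_mul (12 * e4)).const_add (2 * e2) |>.div_const ((π / 6) ^ 2))
      refine h3.congr_deriv ?_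
      have hp0 := hpi.ne'
      rw [show (2 - 1 : ℕ) = 1 from rfl, pow_one]
      push_cast
      field_simp
      ring
    have hcc : ConcaveOn ℝ (Set.Icc 0 (π / 3)) ww := by
      refine concaveOn_of_hasDerivWithinAt2_nonpos (convex_Icc _ _)
        (fun x hx => (hd1 x hx).continuousAt.continuousWithinAt)
        (fun x hx => (hd1 x (interior_subset hx)).hasDerivWithinAt)
        (fun x hx => (hd2 x (interior_subset hx)).hasDerivWithinAt) (fun x hx => ?_)
      have hx' := interior_subset hx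
      have h1 := Wk3_le (τ := π / 3 + x) (by linarith [hx'.1]) (by linarith [hx'.2])
      have h2 := e4b hE (v := (x - π / 6) / (π / 6))
        (by rw [le_div_iff₀ (by positivity)]; linarith [hx'.1])
        (by rw [div_le_iff₀ (by positivity)]; linarith [hx'.2])
      norm_num at *
      linarith
    intro a h0 h1
    have hmin := hcc.min_le_of_mem_Icc (x := 0) (y := π / 3) (z := a)
      (Set.left_mem_Icc.2 (by positivity)) (Set.right_mem_Icc.2 (by positivity)) ⟨h0, h1⟩
    rw [ww_a, ww_b] at hmin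
    exact (le_min W1P_pos.le le_rfl).trans hmin
  · unfold GG EE
    have e : π / 3 + π / 3 = 2 * π / 3 := by ring
    rw [e, Wk_b, v1]
    unfold e0
    ring
  · have h1 := (hW.1 (π / 3) (by positivity) (by linarith)).2.2.2.2
    have e : π - π / 3 = 2 * π / 3 := by ring
    rw [e, Wk_b] at h1
    unfold rh
    rw [ww_b, sub_self]
    unfold GG EE
    rw [add_zero, v0]
    unfold e0
    linarith

end Pool.Agent.EHP
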