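import Pool.Agent.EHP.Stmts3

/-!
# Tight pairs nearly pass through the origin
-/

open Finset
open scoped Real ComplexConjugate

namespace Pool.Agent.EHP

theorem m_XI : Stmt_RNICE → Stmt_TAN → Stmt_XI := by
  intro hR hT K
  obtain ⟨ε, hε, n₁, hT⟩ := hT
  have hε' : 0 < min ε (1 / 2) := lt_min hε (by norm_num)
  obtain ⟨n₂, hR⟩ := hR K (min ε (1 / 2)) hε'
  refine ⟨max n₁ n₂, fun n hn c hc a b hab => ?_⟩
  have hN := hR n (le_of_max_le_right hn) c hc
  have hN' : Nice n ε c := ⟨hN.opt, hN.cent, hN.rot, fun j => (hN.hρ j).trans (min_le_left _ _),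
    fun j => (hN.hφ j).trans (min_le_left _ _), fun i j => (hN.slope i j).trans
      (mul_le_mul_of_nonneg_right (min_le_left _ _) (abs_nonneg _))⟩
  obtain ⟨h1, h2, h3⟩ := hT n (le_of_max_le_left hn) c hN' a b hab
  have hza := c.z_ne a
  set u := (c.z a - c.z b) / c.z a with hu
  set B := |c.s (a - 1)| + c.g (a - 1) + |c.s a| + c.g a with hB
  have hg1 := c.g_pos (a - 1)
  have hg2 := c.g_pos a
  have hq : |u.im| ≤ B * u.re := by
    rw [abs_le]
    constructor
    · have e1 : c.s (a - 1) + c.g (a - 1) ≤ B := by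
        have := le_abs_self (c.s (a - 1))
        have := abs_nonneg (c.s a)
        rw [hB]
        linarith
      have := mul_le_mul_of_nonneg_right e1 h1.le
      linarith
    · have e1 : -c.s a + c.g a ≤ B := by
        have := neg_abs_le (c.s a)
        have := abs_nonneg (c.s (a - 1))
        rw [hB]
        linarith
      have := mul_le_mul_of_nonneg_right e1 h1.le
      linarith
  have hr : ‖c.z a‖ ≤ 2 := by
    rw [c.norm_z]
    have e1 : c.ρ a ≤ 1 / 2 := (le_abs_self _).trans ((hN.hρ a).trans (min_le_right _ _))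
    have e2 : (1 / 2 : ℝ) ≤ Real.log 2 := by
      have := Real.log_two_gt_d9
      linarith
    calc Real.exp (c.ρ a) ≤ Real.exp (Real.log 2) := Real.exp_le_exp.2 (e1.trans e2)
      _ = 2 := Real.exp_log (by norm_num)
  have hr0 : 0 < ‖c.z a‖ := norm_pos_iff.2 hza
  have hun : ‖u‖ = 2 / ‖c.z a‖ := by rw [hu, norm_div, hab]
  have hu0 : u ≠ 0 := by
    rw [← norm_pos_iff, hun]; positivity
  have hsub : c.z a - c.z b ≠ 0 := by
    rw [← norm_pos_iff, hab]; norm_num
  have e1 : (c.z a + c.z b) / (c.z a - c.z b) = 2 / u - 1 := by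
    rw [hu]
    field_simp
    ring
  have e2 : ((c.z a + c.z b) / (c.z a - c.z b)).im = -(2 * u.im) / ‖u‖ ^ 2 := by
    rw [e1, Complex.sub_im, Complex.one_im, sub_zero, Complex.div_im, Complex.normSq_eq_norm_sq]
    simp
    ring
  rw [e2, abs_div, abs_neg, abs_mul, abs_of_pos (by norm_num : (0 : ℝ) < 2),
    abs_of_nonneg (by positivity : (0 : ℝ) ≤ ‖u‖ ^ 2), div_le_iff₀ (by positivity)]
  have hre : u.re ≤ ‖u‖ := (le_abs_self _).trans (Complex.abs_re_le_norm u)
  have hB0 : 0 ≤ B := by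
    have := abs_nonneg (c.s (a - 1))
    have := abs_nonneg (c.s a)
    rw [hB]
    linarith
  have hu1 : 1 ≤ ‖u‖ := by
    rw [hun, le_div_iff₀ hr0]
    linarith
  have h5 : B * u.re ≤ B * ‖u‖ := mul_le_mul_of_nonneg_left hre hB0
  have h6 : B * ‖u‖ ≤ B * ‖u‖ ^ 2 := by
    have : ‖u‖ ≤ ‖u‖ ^ 2 := by nlinarith
    exact mul_le_mul_of_nonneg_left this hB0
  linarith

end Pool.Agent.EHP
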