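import Pool.Agent.EHP.MTLEM
import Pool.Agent.EHP.MCUT
import Pool.Agent.EHP.MSV
import Pool.Agent.EHP.MFCSUM
import Pool.Agent.EHP.MOPTINV
import Pool.Agent.EHP.MTRANS
import Pool.Agent.EHP.MREGP
import Pool.Agent.EHP.MLINE
import Pool.Agent.EHP.MCAVG
import Pool.Agent.EHP.MCOARSE
import Pool.Agent.EHP.MSLOPE
import Pool.Agent.EHP.MSORT
import Pool.Agent.EHP.MDDLB
import Pool.Agent.EHP.MIDEN
import Pool.Agent.EHP.MPHI
import Pool.Agent.EHP.MNICE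
import Pool.Agent.EHP.MORIENT
import Pool.Agent.EHP.MPERIM
import Pool.Agent.EHP.MPER2
import Pool.Agent.EHP.MLEN
import Pool.Agent.EHP.MBYP
import Pool.Agent.EHP.MBIGGAP
import Pool.Agent.EHP.MCUBE
import Pool.Agent.EHP.MTNEAR
import Pool.Agent.EHP.MTFAR
import Pool.Agent.EHP.MTTUB
import Pool.Agent.EHP.MGRHO
import Pool.Agent.EHP.MCROSS
import Pool.Agent.EHP.MKERN
import Pool.Agent.EHP.MSPEC
import Pool.Agent.EHP.MELOW
import Pool.Agent.EHP.MAPRI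
import Pool.Agent.EHP.MCALO
import Pool.Agent.EHP.MCONE
import Pool.Agent.EHP.MFBH
import Pool.Agent.EHP.MTAN
import Pool.Agent.EHP.MSSUM
import Pool.Agent.EHP.MCOTRE
import Pool.Agent.EHP.MD2LB
import Pool.Agent.EHP.META
import Pool.Agent.EHP.MCOTSUM
import Pool.Agent.EHP.MREGU
import Pool.Agent.EHP.MREG
import Pool.Agent.EHP.MHOLD
import Pool.Agent.EHP.MRNICE
import Pool.Agent.EHP.MANTI
import Pool.Agent.EHP.MNEST
import Pool.Agent.EHP.MPART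
import Pool.Agent.EHP.MONEGAP
import Pool.Agent.EHP.MTREE
import Pool.Agent.EHP.MXI
import Pool.Agent.EHP.MNGB
import Pool.Agent.EHP.MJUNC
import Pool.Agent.EHP.MNOGAP
import Pool.Agent.EHP.MPIV
import Pool.Agent.EHP.MSYM
import Pool.Agent.EHP.MPIVINV
import Pool.Agent.EHP.MDELTA
import Pool.Agent.EHP.MSLREL
import Pool.Agent.EHP.MDRREL
import Pool.Agent.EHP.MRHOEX
import Pool.Agent.EHP.MEPSEX
import Pool.Agent.EHP.MCSCSUM
import Pool.Agent.EHP.MPARS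
import Pool.Agent.EHP.MDFTS
import Pool.Agent.EHP.MESUM
import Pool.Agent.EHP.MMODEHI
import Pool.Agent.EHP.MMODELO
import Pool.Agent.EHP.MMODEALG
import Pool.Agent.EHP.MAREA
import Pool.Agent.EHP.MANTIP
import Pool.Agent.EHP.MEVENSM
import Pool.Agent.EHP.MEHI
import Pool.Agent.EHP.MELO
import Pool.Agent.EHP.MHFIN
import Pool.Agent.EHP.MFEJER
import Pool.Agent.EHP.MCOMP
import Pool.Agent.EHP.MCOMPE
import Pool.Agent.EHP.MTRIGE
import Pool.Agent.EHP.MLOWER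
import Pool.Agent.EHP.MWDER
import Pool.Agent.EHP.ME4
import Pool.Agent.EHP.MWPOS
import Pool.Agent.EHP.MRHOC
import Pool.Agent.EHP.MMOM
import Pool.Agent.EHP.MCERTA
import Pool.Agent.EHP.MCERTB
import Pool.Agent.EHP.MFUB
import Pool.Agent.EHP.MIBP
import Pool.Agent.EHP.MCERT
import Pool.Agent.EHP.MWINT
import Pool.Agent.EHP.MDSTI
import Pool.Agent.EHP.MKD
import Pool.Agent.EHP.MKR
import Pool.Agent.EHP.MKLINK
import Pool.Agent.EHP.MLIMIT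
import Pool.Agent.EHP.MTRUNC
import Pool.Agent.EHP.MCLOSE
import Pool.Agent.EHP.MSHAPE
import Pool.Agent.EHP.MPSTAR
import Pool.Agent.EHP.MMODES
import Pool.Agent.EHP.MDINV
import Pool.Agent.EHP.MH1B
import Pool.Agent.EHP.MCOTL
import Pool.Agent.EHP.MFBLIN
import Pool.Agent.EHP.MFARC
import Pool.Agent.EHP.MFMODE
import Pool.Agent.EHP.MKSF
import Pool.Agent.EHP.MFORCE
import Pool.Agent.EHP.MFCARC
import Pool.Agent.EHP.MTEDGE
import Pool.Agent.EHP.MPEND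
import Pool.Agent.EHP.MHALF
import Pool.Agent.EHP.MUBD
import Pool.Agent.EHP.MTWOP
import Pool.Agent.EHP.MK3A
import Pool.Agent.EHP.MK3B
import Pool.Agent.EHP.MK3NEAR
import Pool.Agent.EHP.MK3SUM
import Pool.Agent.EHP.MK3
import Pool.Agent.EHP.MSIX
import Pool.Agent.EHP.MGRAPH
import Pool.Agent.EHP.MMAIN
import Pool.Agent.EHP.MASY
import Pool.Agent.EHP.MEXM

/-!
# Assembly of the modules
-/

namespace Pool.Agent.EHP

theorem f_TLEM : Stmt_TLEM := m_TLEM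

theorem f_CUT : Stmt_CUT := m_CUT

theorem f_SV : Stmt_SV := m_SV

theorem f_FCSUM : Stmt_FCSUM := m_FCSUM

theorem f_OPTINV : Stmt_OPTINV := m_OPTINV

theorem f_TRANS : Stmt_TRANS := m_TRANS

theorem f_REGP : Stmt_REGP := m_REGP

theorem f_LINE : Stmt_LINE := m_LINE

theorem f_CAVG : Stmt_CAVG := m_CAVG

theorem f_COARSE : Stmt_COARSE := m_COARSE f_LINE f_CAVG

theorem f_SLOPE : Stmt_SLOPE := m_SLOPE f_CUT

theorem f_SORT : Stmt_SORT := m_SORT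

theorem f_DDLB : Stmt_DDLB := m_DDLB

theorem f_IDEN : Stmt_IDEN := m_IDEN

theorem f_PHI : Stmt_PHI := m_PHI f_IDEN f_REGP f_DDLB

theorem f_NICE : Stmt_NICE := m_NICE f_TRANS f_OPTINV f_REGP f_COARSE f_SLOPE f_SORT f_PHI

theorem f_ORIENT : Stmt_ORIENT := m_ORIENT f_CUT

theorem f_PERIM : Stmt_PERIM := m_PERIM

theorem f_PER2 : Stmt_PER2 := m_PER2 f_ORIENT f_PERIM

theorem f_LEN : Stmt_LEN := m_LEN f_PER2

theorem f_BYP : Stmt_BYP := m_BYP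

theorem f_BIGGAP : Stmt_BIGGAP := m_BIGGAP f_DDLB

theorem f_CUBE : Stmt_CUBE := m_CUBE f_BIGGAP

theorem f_TNEAR : Stmt_TNEAR := m_TNEAR

theorem f_TFAR : Stmt_TFAR := m_TFAR

theorem f_TTUB : Stmt_TTUB := m_TTUB f_TNEAR f_TFAR

theorem f_GRHO : Stmt_GRHO := m_GRHO

theorem f_CROSS : Stmt_CROSS := m_CROSS

theorem f_KERN : Stmt_KERN := m_KERN

theorem f_SPEC : Stmt_SPEC := m_SPEC

theorem f_ELOW : Stmt_ELOW := m_ELOW f_KERN f_SPEC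

theorem f_APRI : Stmt_APRI := m_APRI f_IDEN f_REGP f_BYP f_LEN f_CUBE f_CROSS f_GRHO f_TTUB f_ELOW

theorem f_CALO : Stmt_CALO := m_CALO

theorem f_CONE : Stmt_CONE := m_CONE f_TLEM f_FCSUM

theorem f_FBH : Stmt_FBH := m_FBH

theorem f_TAN : Stmt_TAN := m_TAN

theorem f_SSUM : Stmt_SSUM := m_SSUM f_APRI f_BIGGAP f_CUT f_TAN

theorem f_COTRE : Stmt_COTRE := m_COTRE

theorem f_D2LB : Stmt_D2LB := m_D2LB

theorem f_ETA : Stmt_ETA := m_ETA f_APRI f_D2LB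

theorem f_COTSUM : Stmt_COTSUM := m_COTSUM f_CALO

theorem f_REGU : Stmt_REGU := m_REGU f_CONE f_FBH f_TAN f_SSUM f_CALO f_COTRE f_ETA f_D2LB f_COTSUM

theorem f_REG : Stmt_REG := m_REG f_APRI f_REGU f_SSUM

theorem f_HOLD : Stmt_HOLD := m_HOLD

theorem f_RNICE : Stmt_RNICE := m_RNICE

theorem f_ANTI : Stmt_ANTI := m_ANTI

theorem f_NEST : Stmt_NEST := m_NEST f_ORIENT

theorem f_PART : Stmt_PART := m_PART f_CUT f_NEST

theorem f_ONEGAP : Stmt_ONEGAP := m_ONEGAP f_CUT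

theorem f_TREE : Stmt_TREE := m_TREE f_ONEGAP

theorem f_XI : Stmt_XI := m_XI f_RNICE f_TAN

theorem f_NGB : Stmt_NGB := m_NGB f_TREE f_ONEGAP f_XI f_HOLD f_ANTI

theorem f_JUNC : Stmt_JUNC := m_JUNC

theorem f_NOGAP : Stmt_NOGAP := m_NOGAP f_NGB f_SV f_FBH f_COTRE f_JUNC f_ANTI f_RNICE

theorem f_PIV : Stmt_PIV := m_PIV f_RNICE f_PART f_NOGAP

theorem f_SYM : Stmt_SYM := m_SYM

theorem f_PIVINV : Stmt_PIVINV := m_PIVINV

theorem f_DELTA : Stmt_DELTA := m_DELTA f_RNICE f_ORIENT f_TAN f_PIVINV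

theorem f_SLREL : Stmt_SLREL := m_SLREL f_HOLD f_ANTI

theorem f_DRREL : Stmt_DRREL := m_DRREL f_SLREL f_HOLD

theorem f_RHOEX : Stmt_RHOEX := m_RHOEX f_DELTA f_BYP f_HOLD

theorem f_EPSEX : Stmt_EPSEX := m_EPSEX f_HOLD

theorem f_CSCSUM : Stmt_CSCSUM := m_CSCSUM

theorem f_PARS : Stmt_PARS := m_PARS f_CSCSUM

theorem f_DFTS : Stmt_DFTS := m_DFTS

theorem f_ESUM : Stmt_ESUM := m_ESUM f_IDEN f_RHOEX f_EPSEX f_PARS f_DFTS f_DRREL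

theorem f_MODEHI : Stmt_MODEHI := m_MODEHI f_DFTS

theorem f_MODELO : Stmt_MODELO := m_MODELO f_DFTS

theorem f_MODEALG : Stmt_MODEALG := m_MODEALG

theorem f_AREA : Stmt_AREA := m_AREA f_PIVINV

theorem f_ANTIP : Stmt_ANTIP := m_ANTIP f_AREA f_SYM

theorem f_EVENSM : Stmt_EVENSM := m_EVENSM f_ANTIP f_DRREL

theorem f_EHI : Stmt_EHI := m_EHI f_DRREL f_PARS f_MODEHI f_DFTS

theorem f_ELO : Stmt_ELO := m_ELO f_DRREL f_MODELO f_MODEALG f_DFTS f_EVENSM f_PARS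

theorem f_HFIN : Stmt_HFIN := m_HFIN f_ESUM f_EHI f_ELO f_PARS

theorem f_FEJER : Stmt_FEJER := m_FEJER

theorem f_COMP : Stmt_COMP := m_COMP

theorem f_COMPE : Stmt_COMPE := m_COMPE

theorem f_TRIGE : Stmt_TRIGE := m_TRIGE f_PARS

theorem f_LOWER : Stmt_LOWER := m_LOWER f_FEJER f_COMP f_COMPE f_TRIGE

theorem f_WDER : Stmt_WDER := m_WDER

theorem f_E4 : Stmt_E4 := m_E4

theorem f_WPOS : Stmt_WPOS := m_WPOS f_WDER f_E4

theorem f_RHOC : Stmt_RHOC := m_RHOC f_WDER f_E4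

theorem f_MOM : Stmt_MOM := m_MOM f_WDER f_WPOS

theorem f_CERTA : Stmt_CERTA := m_CERTA f_WPOS

theorem f_CERTB : Stmt_CERTB := m_CERTB f_WDER f_WPOS f_RHOC f_MOM

theorem f_FUB : Stmt_FUB := m_FUB f_WDER f_WPOS

theorem f_IBP : Stmt_IBP := m_IBP f_WDER f_WPOS

theorem f_CERT : Stmt_CERT := m_CERT f_WDER f_WPOS f_CERTA f_CERTB f_FUB f_IBP

theorem f_WINT : Stmt_WINT := m_WINT

theorem f_DSTI : Stmt_DSTI := m_DSTI f_WINT

theorem f_KD : Stmt_KD := m_KD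

theorem f_KR : Stmt_KR := m_KR

theorem f_KLINK : Stmt_KLINK := m_KLINK f_KD f_KR f_WINT

theorem f_LIMIT : Stmt_LIMIT := m_LIMIT f_KD f_KLINK f_CERT f_DSTI

theorem f_TRUNC : Stmt_TRUNC := m_TRUNC f_PARS f_DFTS

theorem f_CLOSE : Stmt_CLOSE := m_CLOSE f_LOWER f_HFIN f_TRUNC f_LIMIT

theorem f_SHAPE : Stmt_SHAPE := m_SHAPE

theorem f_PSTAR : Stmt_PSTAR := m_PSTAR

theorem f_MODES : Stmt_MODES := m_MODES f_CLOSE f_SHAPE f_PSTAR f_DRREL f_DFTS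

theorem f_DINV : Stmt_DINV := m_DINV

theorem f_H1B : Stmt_H1B := m_H1B f_HOLD f_PARS f_DFTS

theorem f_COTL : Stmt_COTL := m_COTL

theorem f_FBLIN : Stmt_FBLIN := m_FBLIN f_FBH f_HOLD f_H1B f_DINV f_CSCSUM f_COTL

theorem f_FARC : Stmt_FARC := m_FARC

theorem f_FMODE : Stmt_FMODE := m_FMODE f_DRREL f_DFTS

theorem f_KSF : Stmt_KSF := m_KSF

theorem f_FORCE : Stmt_FORCE := m_FORCE f_FBLIN f_FARC f_FMODE f_KSF f_H1B f_SLREL

theorem f_FCARC : Stmt_FCARC := m_FCARC f_FCSUM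

theorem f_TEDGE : Stmt_TEDGE := m_TEDGE f_SYM

theorem f_PEND : Stmt_PEND := m_PEND f_TLEM f_FCARC f_TEDGE f_FORCE f_ANTI f_FBH f_KSF

theorem f_HALF : Stmt_HALF := m_HALF f_PEND f_SYM

theorem f_UBD : Stmt_UBD := m_UBD f_DINV f_H1B f_DFTS

theorem f_TWOP : Stmt_TWOP := m_TWOP f_TLEM f_FCARC f_TEDGE f_ANTI

theorem f_K3A : Stmt_K3A := m_K3A

theorem f_K3B : Stmt_K3B := m_K3B f_HOLD f_FBH

theorem f_K3NEAR : Stmt_K3NEAR := m_K3NEAR f_HOLD f_SLREL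

theorem f_K3SUM : Stmt_K3SUM := m_K3SUM

theorem f_K3 : Stmt_K3 := m_K3 f_K3A f_K3B f_K3NEAR f_K3SUM

theorem f_SIX : Stmt_SIX := m_SIX f_MODES f_PEND f_HALF f_UBD f_TWOP f_K3

theorem f_GRAPH : Stmt_GRAPH := m_GRAPH

theorem f_MAIN : Stmt_MAIN := m_MAIN f_NICE f_REG f_PIV f_SIX f_GRAPH f_CUT

theorem f_ASY : Stmt_ASY := m_ASY f_NICE f_REG f_PIV f_HFIN f_TRUNC f_LIMIT f_LOWER

theorem f_EXM : Stmt_EXM := m_EXM

end Pool.Agent.EHP
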