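import Pool.Agent.EHP.Stmts2

open Finset
open scoped Real ComplexConjugate

namespace Pool.Agent.EHP

theorem mAPRI_nice {n : ℕ} {ε ε' : ℝ} {c : Cfg n} (h : ε ≤ ε') (hc : Nice n ε c) :
    Nice n ε' c :=
  ⟨hc.opt, hc.cent, hc.rot, fun j => (hc.hρ j).trans h, fun j => (hc.hφ j).trans h,
    fun i j => (hc.slope i j).trans (mul_le_mul_of_nonneg_right h (abs_nonneg _))⟩

theorem mAPRI_mn_nonneg (n : ℕ) (f : ℤ → ℝ) : 0 ≤ mn n (fun j => f j ^ 2) := by
  unfold mn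
  exact div_nonneg (Finset.sum_nonneg fun j _ => sq_nonneg _) (Nat.cast_nonneg _)

/-- The real arithmetic. -/
theorem mAPRI_arith (n C S A B P q E T Sρ G1 G2 g3 gr φφ : ℝ)
    (hn : 10000 ≤ n) (hS : S = 2 * π * A) (hA : 0 ≤ A) (hB : 0 ≤ B) (hP : 0 ≤ P) (hq : 0 ≤ q)
    (hg3 : 0 ≤ g3)
    (h1 : 0 ≤ (n - 1) * Sρ - E + T)
    (h2 : 2 * π / n * Sρ = G1 + G2)
    (h3 : G1 ≤ (1 + 1 / 10000) / 24 * g3 - (1 - 1 / 10000) / 2 * (gr + S))
    (h4 : n ^ 2 * g3 ≤ C + 1 / 10000 * E)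
    (h5 : G2 ≤ (1 + 1 / 10000) * Real.sqrt (S * (2 * π * P)) + 1 / 10000 * (B + φφ))
    (h6 : (1 - 1 / 10000) * (2 * π) * B - 1 / 10000 * S ≤ gr)
    (h7 : T ≤ 1 / 10000 * E + (1 + 1 / 10000) * n ^ 2 *
      (0.2025 * (S / (2 * π)) + 0.4967 * B))
    (h8 : (1 - 1 / 10000) * n ^ 2 * (P + q) ≤ E)
    (h9 : φφ = P + 2 * q) :
    n ^ 2 * (S + B + φφ) ≤ 400 * C ∧ E ≤ 400 * C := by
  have hπ := Real.pi_pos
  have hπ3 := Real.pi_gt_three
  have hπ4 := Real.pi_lt_four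
  have hπ315 := Real.pi_lt_d2
  have hn0 : 0 < n := by linarith
  have hE : 0 ≤ E := le_trans (by positivity) h8
  -- the square root
  have hroot : Real.sqrt (S * (2 * π * P)) ≤ 2 * π * (0.275 * A + 1 / 1.1 * P) := by
    have e : S * (2 * π * P) = (2 * π) ^ 2 * (A * P) := by rw [hS]; ring
    rw [e]
    apply Real.sqrt_le_iff.2
    refine ⟨by positivity, ?_⟩
    have e2 : A * P ≤ (0.275 * A + 1 / 1.1 * P) ^ 2 := by
      nlinarith [sq_nonneg (0.275 * A - 1 / 1.1 * P)]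
    calc (2 * π) ^ 2 * (A * P) ≤ (2 * π) ^ 2 * (0.275 * A + 1 / 1.1 * P) ^ 2 :=
          mul_le_mul_of_nonneg_left e2 (by positivity)
      _ = (2 * π * (0.275 * A + 1 / 1.1 * P)) ^ 2 := by ring
  -- w
  set w : ℝ := (n - 1) * n / (2 * π) with hw
  have hw0 : 0 ≤ w := by
    apply div_nonneg _ (by positivity)
    apply mul_nonneg <;> linarith
  have hρ : (n - 1) * Sρ = w * (G1 + G2) := by
    rw [← h2, hw]
    field_simp
  have hwle : w * (2 * π) ≤ n ^ 2 := by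
    rw [hw, div_mul_cancel₀ _ (by positivity)]
    nlinarith
  have hwge : (1 - 1 / 10000) * n ^ 2 ≤ w * (2 * π) := by
    rw [hw, div_mul_cancel₀ _ (by positivity)]
    nlinarith
  rw [hρ] at h1
  -- bound of w G1
  have hG1 : w * G1 ≤ (C + 1 / 10000 * E) - (1 - 1 / 10000) ^ 3 / 2 * (n ^ 2 * (A + B)) := by
    have e1 : w * G1 ≤ w * ((1 + 1 / 10000) / 24 * g3 -
        (1 - 1 / 10000) ^ 2 / 2 * (2 * π * (A + B))) := by
      apply mul_le_mul_of_nonneg_left _ hw0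
      refine h3.trans ?_
      have : (1 - 1 / 10000) * (2 * π * B + S) ≤ gr + S := by
        have : (1 - 1 / 10000 : ℝ) * (2 * π * B + S) =
          (1 - 1 / 10000) * (2 * π) * B - 1 / 10000 * S + S := by ring
        rw [this]
        linarith
      rw [hS] at this ⊢
      nlinarith
    have e2 : w * ((1 + 1 / 10000) / 24 * g3) ≤ C + 1 / 10000 * E := by
      have e3 : w * ((1 + 1 / 10000) / 24 * g3) ≤ n ^ 2 * g3 := by
        have e4 : w * ((1 + 1 / 10000) / 24) ≤ n ^ 2 := by nlinarith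
        calc w * ((1 + 1 / 10000) / 24 * g3) = w * ((1 + 1 / 10000) / 24) * g3 := by ring
          _ ≤ n ^ 2 * g3 := mul_le_mul_of_nonneg_right e4 hg3
      linarith
    have e5 : (1 - 1 / 10000) ^ 3 / 2 * (n ^ 2 * (A + B)) ≤
        w * ((1 - 1 / 10000) ^ 2 / 2 * (2 * π * (A + B))) := by
      have e6 : 0 ≤ (1 - 1 / 10000 : ℝ) ^ 2 / 2 * (A + B) := by positivity
      calc (1 - 1 / 10000) ^ 3 / 2 * (n ^ 2 * (A + B)) =
          ((1 - 1 / 10000) * n ^ 2) * ((1 - 1 / 10000 : ℝ) ^ 2 / 2 * (A + B)) := by ring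
        _ ≤ (w * (2 * π)) * ((1 - 1 / 10000 : ℝ) ^ 2 / 2 * (A + B)) :=
            mul_le_mul_of_nonneg_right hwge e6
        _ = _ := by ring
    rw [mul_sub] at e1
    linarith
  -- bound of w G2
  have hG2 : w * G2 ≤ n ^ 2 * ((1 + 1 / 10000) * (0.275 * A + 1 / 1.1 * P) +
      1 / 10000 * (B + (P + 2 * q))) := by
    have e1 : G2 ≤ (2 * π) * ((1 + 1 / 10000) * (0.275 * A + 1 / 1.1 * P) +
      1 / 10000 * (B + (P + 2 * q))) := by
      have e2 : 1 / 10000 * (B + φφ) ≤ (2 * π) * (1 / 10000 * (B + (P + 2 * q))) := by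
        rw [h9]
        have : 0 ≤ 1 / 10000 * (B + (P + 2 * q)) := by positivity
        nlinarith
      have e3 := mul_le_mul_of_nonneg_left hroot (show (0 : ℝ) ≤ 1 + 1 / 10000 by norm_num)
      have e4 : (2 * π) * ((1 + 1 / 10000) * (0.275 * A + 1 / 1.1 * P) +
          1 / 10000 * (B + (P + 2 * q))) = (1 + 1 / 10000) * (2 * π * (0.275 * A + 1 / 1.1 * P)) +
          (2 * π) * (1 / 10000 * (B + (P + 2 * q))) := by ring
      rw [e4]
      linarith
    have e5 : 0 ≤ (1 + 1 / 10000) * (0.275 * A + 1 / 1.1 * P) +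
      1 / 10000 * (B + (P + 2 * q)) := by positivity
    calc w * G2 ≤ w * ((2 * π) * ((1 + 1 / 10000) * (0.275 * A + 1 / 1.1 * P) +
          1 / 10000 * (B + (P + 2 * q)))) := mul_le_mul_of_nonneg_left e1 hw0
      _ = (w * (2 * π)) * ((1 + 1 / 10000) * (0.275 * A + 1 / 1.1 * P) +
          1 / 10000 * (B + (P + 2 * q))) := by ring
      _ ≤ _ := mul_le_mul_of_nonneg_right hwle e5
  have hSA : S / (2 * π) = A := by
    rw [hS]
    field_simp
  rw [hSA] at h7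
  set a := n ^ 2 * A with ha
  set b := n ^ 2 * B with hb
  set p := n ^ 2 * P with hp
  set r := n ^ 2 * q with hr
  have ha0 : 0 ≤ a := by positivity
  have hb0 : 0 ≤ b := by positivity
  have hp0 : 0 ≤ p := by positivity
  have hr0 : 0 ≤ r := by positivity
  have g1 : w * G1 ≤ (C + 1 / 10000 * E) - (1 - 1 / 10000) ^ 3 / 2 * (a + b) := by
    have : n ^ 2 * (A + B) = a + b := by rw [ha, hb]; ring
    rw [this] at hG1
    exact hG1
  have g2 : w * G2 ≤ (1 + 1 / 10000) * (0.275 * a + 1 / 1.1 * p) +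
      1 / 10000 * (b + (p + 2 * r)) := by
    have : n ^ 2 * ((1 + 1 / 10000) * (0.275 * A + 1 / 1.1 * P) +
      1 / 10000 * (B + (P + 2 * q))) = (1 + 1 / 10000) * (0.275 * a + 1 / 1.1 * p) +
      1 / 10000 * (b + (p + 2 * r)) := by rw [ha, hb, hp, hr]; ring
    rw [this] at hG2
    exact hG2
  have g7 : T ≤ 1 / 10000 * E + (1 + 1 / 10000) * (0.2025 * a + 0.4967 * b) := by
    have : (1 + 1 / 10000) * n ^ 2 * (0.2025 * A + 0.4967 * B) =
      (1 + 1 / 10000) * (0.2025 * a + 0.4967 * b) := by rw [ha, hb]; ring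
    rw [this] at h7
    exact h7
  have g8 : (1 - 1 / 10000) * (p + r) ≤ E := by
    have : (1 - 1 / 10000) * n ^ 2 * (P + q) = (1 - 1 / 10000) * (p + r) := by rw [hp, hr]; ring
    rw [this] at h8
    exact h8
  have gtot : 0.0098 * E + (0.02 * a + 0.003 * b + 0.07 * p + 0.9 * r) ≤ C := by
    have h10 : w * (G1 + G2) = w * G1 + w * G2 := by ring
    rw [h10] at h1
    norm_num at g1 g2 g7 g8 ⊢
    linarith
  refine ⟨?_, by linarith⟩
  have e : n ^ 2 * (S + B + φφ) = 2 * π * a + b + p + 2 * r := by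
    rw [hS, h9, ha, hb, hp, hr]; ring
  rw [e]
  nlinarith

theorem m_APRI : Stmt_IDEN → Stmt_REGP → Stmt_BYP → Stmt_LEN → Stmt_CUBE → Stmt_CROSS →
    Stmt_GRHO → Stmt_TTUB → Stmt_ELOW → Stmt_APRI := by
  intro hI hR hBy hL hCu hCr hG hT hE
  obtain ⟨C, hCu⟩ := hCu
  have hκ : (0 : ℝ) < 1 / 10000 := by norm_num
  obtain ⟨ε1, he1, n1, h1⟩ := hL _ hκ
  obtain ⟨ε2, he2, n2, h2⟩ := hCu _ hκ
  obtain ⟨ε3, he3, n3, h3⟩ := hCr _ hκ
  obtain ⟨ε4, he4, n4, h4⟩ := hG _ hκ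
  obtain ⟨ε5, he5, n5, h5⟩ := hT _ hκ
  obtain ⟨ε6, he6, n6, h6⟩ := hE _ hκ
  refine ⟨400 * C, min ε1 (min ε2 (min ε3 (min ε4 (min ε5 ε6)))), by positivity,
    n1 + n2 + n3 + n4 + n5 + n6 + 10000, fun n hn c hc => ?_⟩
  have c1 := mAPRI_nice (min_le_left _ _) hc
  have c2 := mAPRI_nice ((min_le_right _ _).trans (min_le_left _ _)) hc
  have c3 := mAPRI_nice ((min_le_right _ _).trans ((min_le_right _ _).trans (min_le_left _ _))) hc
  have c4 := mAPRI_nice ((min_le_right _ _).trans ((min_le_right _ _).trans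
    ((min_le_right _ _).trans (min_le_left _ _)))) hc
  have c5 := mAPRI_nice ((min_le_right _ _).trans ((min_le_right _ _).trans
    ((min_le_right _ _).trans ((min_le_right _ _).trans (min_le_left _ _))))) hc
  have c6 := mAPRI_nice ((min_le_right _ _).trans ((min_le_right _ _).trans
    ((min_le_right _ _).trans ((min_le_right _ _).trans (min_le_right _ _))))) hc
  have hn1 : 1 ≤ n := by omega
  have hn4 : (10000 : ℝ) ≤ n := by
    have : 10000 ≤ n := by omega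
    exact_mod_cast this
  have hS : 0 ≤ c.S := by
    unfold Cfg.S
    exact Finset.sum_nonneg fun j _ => div_nonneg (sq_nonneg _) (c.g_pos _).le
  have hπ := Real.pi_pos
  have r6 := h6 n (by omega) c c6
  refine mAPRI_arith n C c.S (c.S / (2 * π)) (mn n (fun j => c.ρ j ^ 2))
    (mn n (fun j => ψψ c j ^ 2)) (‖dr n c.φ 1‖ ^ 2) (Eφ c) (TT c)
    (∑ j ∈ range n, c.ρ (j : ℤ)) (∑ j ∈ range n, c.g (j : ℤ) * c.ρm (j : ℤ))
    (∑ j ∈ range n, c.φm (j : ℤ) * c.Δ (j : ℤ)) (∑ j ∈ range n, c.g (j : ℤ) ^ 3)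
    (∑ j ∈ range n, c.g (j : ℤ) * c.ρm (j : ℤ) ^ 2) (mn n (fun j => c.φ j ^ 2))
    hn4 (by field_simp) (by positivity) (mAPRI_mn_nonneg n _) (mAPRI_mn_nonneg n _)
    (by positivity) (Finset.sum_nonneg fun j _ => pow_nonneg (c.g_pos _).le _) ?_
    (hBy n c hn1) (h1 n (by omega) c c1) (h2 n (by omega) c c2) (h3 n (by omega) c c3)
    (h4 n (by omega) c c4) (h5 n (by omega) c c5) r6.1 r6.2
  have a1 := hI n c hn1
  have a2 := hR n c.z hn1 hc.opt
  rw [a1] at a2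
  linarith

end Pool.Agent.EHP
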