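import Pool.Agent.EHP.Stmts5

/-!
# The upper bound of the quadratic form, with stability
-/

open Finset
open scoped Real ComplexConjugate Interval

namespace Pool.Agent.EHP

private theorem norm_dr_le_half {n : ℕ} (hn : 1 ≤ n) {f : ℤ → ℝ} (hf : ∀ j, |f j| ≤ 1 / 2) (k : ℤ) :
    ‖dr n f k‖ ≤ 1 / 2 := by
  have hn0 : (0 : ℝ) < n := by exact_mod_cast hn
  unfold dr dft
  rw [norm_div, Complex.norm_natCast, div_le_iff₀ hn0]
  calc ‖∑ j ∈ range n, ((f (j : ℤ) : ℝ) : ℂ) *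
        Complex.exp (-(2 * π * k * (j : ℤ) / n : ℝ) * Complex.I)‖
      ≤ ∑ j ∈ range n, ‖((f (j : ℤ) : ℝ) : ℂ) *
        Complex.exp (-(2 * π * k * (j : ℤ) / n : ℝ) * Complex.I)‖ := norm_sum_le _ _
    _ ≤ ∑ _j ∈ range n, (1 / 2 : ℝ) := by
        apply Finset.sum_le_sum
        intro j _
        rw [norm_mul, Complex.norm_real, Real.norm_eq_abs]
        have h1 : ‖Complex.exp (-(2 * π * k * (j : ℤ) / n : ℝ) * Complex.I)‖ = 1 := by
          rw [← Complex.ofReal_neg, Complex.norm_exp_ofReal_mul_I]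
        rw [h1, mul_one]
        exact hf _
    _ = 1 / 2 * n := by simp; ring

/-- The factor `(sin x / x)²` at `x = π k / 2N`. -/
private noncomputable def SF (N k : ℕ) : ℝ :=
  (Real.sin (π * k / (2 * N : ℕ)) / (π * k / (2 * N : ℕ))) ^ 2

private theorem SF_nonneg (N k : ℕ) : 0 ≤ SF N k := sq_nonneg _

private theorem SF_le_one (N k : ℕ) : SF N k ≤ 1 := by
  unfold SF
  set x : ℝ := π * k / (2 * N : ℕ) with hx
  by_cases h0 : x = 0
  · rw [h0]; simp
  · rw [← Real.sinc_of_ne_zero h0]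
    have := Real.abs_sinc_le_one x
    rw [← sq_abs]
    exact pow_le_one₀ (abs_nonneg _) this

private theorem SF_tendsto (k : ℕ) (hk : 1 ≤ k) :
    Filter.Tendsto (fun N : ℕ => SF N k) Filter.atTop (nhds 1) := by
  have h1 : Filter.Tendsto (fun N : ℕ => π * k / ((2 * N : ℕ) : ℝ)) Filter.atTop (nhds 0) := by
    have h2 : Filter.Tendsto (fun N : ℕ => ((2 * N : ℕ) : ℝ)) Filter.atTop Filter.atTop := by
      apply Filter.Tendsto.comp tendsto_natCast_atTop_atTop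
      exact Filter.tendsto_id.const_mul_atTop' (by norm_num : 0 < 2)
    exact Filter.Tendsto.const_div_atTop h2 _
  have h3 : Filter.Tendsto (fun N : ℕ => (Real.sinc (π * k / ((2 * N : ℕ) : ℝ))) ^ 2)
      Filter.atTop (nhds ((Real.sinc 0) ^ 2)) :=
    ((Real.continuous_sinc.tendsto 0).comp h1).pow 2
  rw [Real.sinc_zero, one_pow] at h3
  refine h3.congr' ?_
  filter_upwards [Filter.eventually_ge_atTop 1] with N hN
  have hk0 : (0 : ℝ) < k := by exact_mod_cast hk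
  have hN0 : (0 : ℝ) < ((2 * N : ℕ) : ℝ) := by
    have : 0 < 2 * N := by omega
    exact_mod_cast this
  have hx : π * k / ((2 * N : ℕ) : ℝ) ≠ 0 := by
    have := Real.pi_pos
    positivity
  rw [Real.sinc_of_ne_zero hx, SF]

/-- The upper bound of the quadratic form, with stability. -/
theorem m_LIMIT : Stmt_KD → Stmt_KLINK → Stmt_CERT → Stmt_DSTI → Stmt_LIMIT := by
  intro hKD hKL hCE hDS M ε hM hε
  have hpi := Real.pi_pos
  -- the error
  have hlim : Filter.Tendsto (fun N : ℕ => ∑ k ∈ odds M,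
      π ^ 2 / 4 * (1 - SF N k) / ((k : ℝ) + 1)) Filter.atTop (nhds 0) := by
    have h : Filter.Tendsto (fun N : ℕ => ∑ k ∈ odds M,
        π ^ 2 / 4 * (1 - SF N k) / ((k : ℝ) + 1)) Filter.atTop
        (nhds (∑ k ∈ odds M, π ^ 2 / 4 * (1 - 1) / ((k : ℝ) + 1))) := by
      apply tendsto_finsetSum
      intro k hk
      have hk3 : 1 ≤ k := by
        simp only [odds, Finset.mem_filter] at hk
        omega
      have := SF_tendsto k hk3
      exact ((tendsto_const_nhds.sub this).const_mul _).div_const _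
    simpa using h
  have hev := hlim.eventually (gt_mem_nhds hε)
  obtain ⟨N₁, hN₁⟩ := Filter.eventually_atTop.1 hev
  refine ⟨max N₁ 1, fun N hN p hanti hbd => ?_⟩
  have hN1 : 1 ≤ N := le_trans (le_max_right _ _) hN
  have herr := hN₁ N (le_trans (le_max_left _ _) hN)
  have hK := hKL N M p hN1 hM hanti hbd
  have hC := hCE (DN N p) (hKD N p hN1 hanti hbd).1
  have hD : 1 / π * ∫ t in (0 : ℝ)..(π / 2), Wk t * (1 / 2 - Dst t) =
    2 / π ^ 2 * (cstar - 1 / 500) := hDS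
  have hC' : 1 / π * ∫ t in (0 : ℝ)..(π / 2), Wk t * (1 / 2 - DN N p t) ≤
      2 / π ^ 2 * (cstar - 1 / 500) := by
    rw [← hD]
    exact mul_le_mul_of_nonneg_left hC (by positivity)
  have hmain := hK.trans hC'
  have hSF3 : (Real.sin (π * 3 / (2 * N : ℕ)) / (π * 3 / (2 * N : ℕ))) ^ 2 = SF N 3 := by
    simp [SF]
  rw [hSF3] at hmain
  have hsum : ∑ k ∈ odds M, ‖dr (2 * N) p k‖ ^ 2 *
        (Real.sin (π * k / (2 * N : ℕ)) / (π * k / (2 * N : ℕ))) ^ 2 / ((k : ℝ) + 1) =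
      ∑ k ∈ odds M, ‖dr (2 * N) p k‖ ^ 2 * SF N k / ((k : ℝ) + 1) := rfl
  rw [hsum] at hmain
  -- multiply by `π²/2`
  have h2 : π ^ 2 / 2 * (2 * ∑ k ∈ odds M, ‖dr (2 * N) p k‖ ^ 2 * SF N k / ((k : ℝ) + 1) -
      2 * (1 / 500) * ‖dr (2 * N) p 3‖ ^ 2 * SF N 3) ≤ cstar - 1 / 500 := by
    have := mul_le_mul_of_nonneg_left hmain (by positivity : (0 : ℝ) ≤ π ^ 2 / 2)
    refine this.trans (le_of_eq ?_)
    field_simp
  have h3 : ∑ k ∈ odds M, ‖dr (2 * N) p k‖ ^ 2 / ((k : ℝ) + 1) ≤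
      ∑ k ∈ odds M, ‖dr (2 * N) p k‖ ^ 2 * SF N k / ((k : ℝ) + 1) +
        ∑ k ∈ odds M, (1 / 4 * (1 - SF N k) / ((k : ℝ) + 1)) := by
    rw [← Finset.sum_add_distrib]
    apply Finset.sum_le_sum
    intro k _
    have hk1 : (0 : ℝ) < (k : ℝ) + 1 := by positivity
    rw [← add_div]
    apply div_le_div_of_nonneg_right _ hk1.le
    have hn1 : ‖dr (2 * N) p k‖ ≤ 1 / 2 := norm_dr_le_half (by omega) hbd _
    have hn2 : ‖dr (2 * N) p k‖ ^ 2 ≤ 1 / 4 := by
      have := pow_le_pow_left₀ (norm_nonneg _) hn1 2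
      norm_num at this ⊢
      exact this
    have := SF_le_one N k
    nlinarith [SF_nonneg N k]
  have h4 : ∑ k ∈ odds M, π ^ 2 / 4 * (1 - SF N k) / ((k : ℝ) + 1) =
      π ^ 2 * ∑ k ∈ odds M, (1 / 4 * (1 - SF N k) / ((k : ℝ) + 1)) := by
    rw [Finset.mul_sum]
    apply Finset.sum_congr rfl
    intro k _
    ring
  rw [h4] at herr
  have h5 : ‖dr (2 * N) p 3‖ ^ 2 * SF N 3 ≤ ‖dr (2 * N) p 3‖ ^ 2 := by
    have := SF_le_one N 3
    nlinarith [sq_nonneg ‖dr (2 * N) p 3‖]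
  have hp2 : 0 < π ^ 2 := by positivity
  have h6 := mul_le_mul_of_nonneg_left h3 hp2.le
  have h7 := mul_le_mul_of_nonneg_left h5 hp2.le
  unfold QM
  nlinarith

end Pool.Agent.EHP
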