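import Pool.Agent.EHP.Stmts5

/-!
# Module EHP_LOWER
-/

open Finset Filter Topology
open scoped Real ComplexConjugate

namespace Pool.Agent.EHP

namespace LOWERaux

/-- The coefficients of the Fejér mean. -/
noncomputable def be (M i : ℕ) : ℝ := 2 / π * ((1 - (2 * i + 1 : ℝ) / (2 * M)) / (2 * i + 1))

noncomputable def pf (M : ℕ) (x : ℝ) : ℝ := ∑ i ∈ range M, be M i * Real.sin ((6 * i + 3) * x)

noncomputable def ac (M i : ℕ) : ℝ := π * be M i * (6 * i + 3) / (1 - (6 * i + 3) ^ 2)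

noncomputable def bc (M i : ℕ) : ℝ := -(π * be M i / (1 - (6 * i + 3) ^ 2))

noncomputable def fA (M : ℕ) (x : ℝ) : ℝ := ∑ i ∈ range M, ac M i * Real.cos ((6 * i + 3) * x)

noncomputable def fB (M : ℕ) (x : ℝ) : ℝ := ∑ i ∈ range M, bc M i * Real.sin ((6 * i + 3) * x)

noncomputable def ze (M : ℕ) (x : ℝ) : ℂ := (fA M x : ℂ) + (fB M x : ℂ) * Complex.I

theorem ze_re (M : ℕ) (x : ℝ) : (ze M x).re = fA M x := by simp [ze]

theorem ze_im (M : ℕ) (x : ℝ) : (ze M x).im = fB M x := by simp [ze]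

theorem kne (i : ℕ) : (1 : ℝ) - (6 * i + 3) ^ 2 ≠ 0 := by
  have : (0 : ℝ) ≤ i := Nat.cast_nonneg i
  nlinarith [this]

theorem cos_add (i : ℕ) (x : ℝ) : Real.cos ((6 * i + 3) * (x + π)) = -Real.cos ((6 * i + 3) * x) := by
  have e : (6 * (i : ℝ) + 3) * (x + π) = ((6 * i + 3) * x + π) + ((3 * i + 1 : ℕ) : ℝ) * (2 * π) := by
    push_cast; ring
  rw [e, Real.cos_add_nat_mul_two_pi, Real.cos_add_pi]

theorem sin_add (i : ℕ) (x : ℝ) : Real.sin ((6 * i + 3) * (x + π)) = -Real.sin ((6 * i + 3) * x) := by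
  have e : (6 * (i : ℝ) + 3) * (x + π) = ((6 * i + 3) * x + π) + ((3 * i + 1 : ℕ) : ℝ) * (2 * π) := by
    push_cast; ring
  rw [e, Real.sin_add_nat_mul_two_pi, Real.sin_add_pi]

theorem hdA (M : ℕ) (x : ℝ) : HasDerivAt (fA M)
    (∑ i ∈ range M, -(ac M i * (6 * i + 3) * Real.sin ((6 * i + 3) * x))) x := by
  unfold fA
  apply HasDerivAt.fun_sum
  intro i _
  have h1 : HasDerivAt (fun y : ℝ => (6 * (i : ℝ) + 3) * y) (6 * (i : ℝ) + 3) x := by
    simpa using (hasDerivAt_id x).const_mul (6 * (i : ℝ) + 3)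
  refine HasDerivAt.congr_deriv (h1.cos.const_mul (ac M i)) ?_
  ring

theorem hdB (M : ℕ) (x : ℝ) : HasDerivAt (fB M)
    (∑ i ∈ range M, bc M i * (6 * i + 3) * Real.cos ((6 * i + 3) * x)) x := by
  unfold fB
  apply HasDerivAt.fun_sum
  intro i _
  have h1 : HasDerivAt (fun y : ℝ => (6 * (i : ℝ) + 3) * y) (6 * (i : ℝ) + 3) x := by
    simpa using (hasDerivAt_id x).const_mul (6 * (i : ℝ) + 3)
  refine HasDerivAt.congr_deriv (h1.sin.const_mul (bc M i)) ?_
  ring

theorem defo (hF : Stmt_FEJER) {M : ℕ} (hM : 1 ≤ M) : Defo (pf M) (ze M) where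
  cont := by
    unfold pf
    fun_prop
  bd := by
    intro x
    have h := hF M (3 * x) hM
    have e : pf M x = 2 / π * ∑ i ∈ range M,
        (1 - (2 * i + 1 : ℝ) / (2 * M)) * Real.sin ((2 * i + 1) * (3 * x)) / (2 * i + 1) := by
      unfold pf be
      rw [Finset.mul_sum]
      apply Finset.sum_congr rfl
      intro i _
      have : (2 * (i : ℝ) + 1) * (3 * x) = (6 * i + 3) * x := by ring
      rw [this]
      ring
    rw [e]
    exact h
  anti := by
    intro x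
    have h1 : fA M (x + π) = -fA M x := by
      unfold fA
      rw [← Finset.sum_neg_distrib]
      apply Finset.sum_congr rfl
      intro i _
      rw [cos_add]; ring
    have h2 : fB M (x + π) = -fB M x := by
      unfold fB
      rw [← Finset.sum_neg_distrib]
      apply Finset.sum_congr rfl
      intro i _
      rw [sin_add]; ring
    unfold ze
    rw [h1, h2]
    push_cast
    ring
  der := by
    intro x
    have hA := (hdA M x).ofReal_comp
    have hB := (hdB M x).ofReal_comp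
    have hE : HasDerivAt (fun y : ℝ => Complex.exp ((y : ℂ) * Complex.I))
        (Complex.exp ((x : ℂ) * Complex.I) * Complex.I) x := by
      have h1 : HasDerivAt (fun y : ℂ => Complex.exp (y * Complex.I))
          (Complex.exp ((x : ℂ) * Complex.I) * Complex.I) (x : ℂ) := by
        have := ((hasDerivAt_id (x : ℂ)).mul_const Complex.I).cexp
        simpa using this
      exact h1.comp_ofReal
    have h := (hA.add (hB.mul_const Complex.I)).mul hE
    refine HasDerivAt.congr_deriv h ?_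
    have e1 : (∑ i ∈ range M, -(ac M i * (6 * i + 3) * Real.sin ((6 * i + 3) * x))) =
        π * pf M x + fB M x := by
      unfold pf fB
      rw [Finset.mul_sum, ← Finset.sum_add_distrib]
      apply Finset.sum_congr rfl
      intro i _
      unfold ac bc
      have := kne i
      field_simp
      ring
    have e2 : (∑ i ∈ range M, bc M i * (6 * i + 3) * Real.cos ((6 * i + 3) * x)) = -fA M x := by
      unfold fA
      rw [← Finset.sum_neg_distrib]
      apply Finset.sum_congr rfl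
      intro i _
      unfold ac bc
      have := kne i
      field_simp
    rw [e1, e2]
    simp only [Pi.add_apply]
    push_cast
    linear_combination (-(Complex.exp ((x : ℂ) * Complex.I)) * (fB M x : ℂ)) * (-Complex.I_sq)

/-- The limit of the energies. -/
noncomputable def TM (M : ℕ) : ℝ := ∑ i ∈ range M,
  (1 - (2 * i + 1 : ℝ) / (2 * M)) ^ 2 * (1 / ((2 * (i : ℝ) + 1) ^ 2 * (3 * (2 * i + 1) + 1)))

theorem summable_f :
    Summable (fun l : ℕ => 1 / ((2 * (l : ℝ) + 1) ^ 2 * (3 * (2 * l + 1) + 1))) := by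
  have h : Summable (fun l : ℕ => 1 / (((l + 1 : ℕ) : ℝ)) ^ 2) :=
    (summable_nat_add_iff 1).2 (Real.summable_one_div_nat_pow.2 one_lt_two)
  refine Summable.of_nonneg_of_le (fun l => by positivity) (fun l => ?_) h
  apply one_div_le_one_div_of_le (by positivity)
  push_cast
  have hl : (0 : ℝ) ≤ l := Nat.cast_nonneg l
  have h1 : ((l : ℝ) + 1) ^ 2 ≤ (2 * (l : ℝ) + 1) ^ 2 := pow_le_pow_left₀ (by linarith) (by linarith) 2
  nlinarith [sq_nonneg (2 * (l : ℝ) + 1)]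

theorem TM_tendsto : Tendsto TM atTop (𝓝 cstar) := by
  have h := tendsto_tsum_of_dominated_convergence (𝓕 := atTop)
    (f := fun (M l : ℕ) => if l < M then (1 - (2 * l + 1 : ℝ) / (2 * M)) ^ 2 *
      (1 / ((2 * (l : ℝ) + 1) ^ 2 * (3 * (2 * l + 1) + 1))) else 0)
    (g := fun l : ℕ => 1 / ((2 * (l : ℝ) + 1) ^ 2 * (3 * (2 * l + 1) + 1)))
    (bound := fun l : ℕ => 1 / ((2 * (l : ℝ) + 1) ^ 2 * (3 * (2 * l + 1) + 1)))
    summable_f ?_ ?_
  · refine Tendsto.congr (fun M => ?_) h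
    unfold TM
    rw [tsum_eq_sum (s := range M)]
    · apply Finset.sum_congr rfl
      intro i hi
      rw [if_pos (Finset.mem_range.1 hi)]
    · intro i hi
      rw [if_neg (fun h => hi (Finset.mem_range.2 h))]
  · intro l
    have h1 : Tendsto (fun M : ℕ => (2 * l + 1 : ℝ) / (2 * M)) atTop (𝓝 0) := by
      have h2 : Tendsto (fun M : ℕ => 2 * (M : ℝ)) atTop atTop :=
        Tendsto.const_mul_atTop (by norm_num) tendsto_natCast_atTop_atTop
      exact Tendsto.const_div_atTop h2 _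
    have h3 : Tendsto (fun M : ℕ => (1 - (2 * l + 1 : ℝ) / (2 * M)) ^ 2 *
      (1 / ((2 * (l : ℝ) + 1) ^ 2 * (3 * (2 * l + 1) + 1)))) atTop
        (𝓝 ((1 - 0) ^ 2 * (1 / ((2 * (l : ℝ) + 1) ^ 2 * (3 * (2 * l + 1) + 1))))) :=
      ((tendsto_const_nhds.sub h1).pow 2).mul tendsto_const_nhds
    have e : ((1 : ℝ) - 0) ^ 2 * (1 / ((2 * (l : ℝ) + 1) ^ 2 * (3 * (2 * l + 1) + 1))) =
      1 / ((2 * (l : ℝ) + 1) ^ 2 * (3 * (2 * l + 1) + 1)) := by ring
    rw [e] at h3
    refine Tendsto.congr' ?_ h3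
    filter_upwards [eventually_gt_atTop l] with M hM
    rw [if_pos hM]
  · refine Eventually.of_forall (fun M l => ?_)
    have hp : 0 ≤ 1 / ((2 * (l : ℝ) + 1) ^ 2 * (3 * (2 * l + 1) + 1)) := by positivity
    split_ifs with hl
    · have hl' : (l : ℝ) + 1 ≤ M := by exact_mod_cast hl
      have hM0 : (0 : ℝ) < 2 * M := by
        have : (0 : ℝ) ≤ l := Nat.cast_nonneg l
        linarith
      have h1 : (2 * l + 1 : ℝ) / (2 * M) ≤ 1 := by
        rw [div_le_one hM0]; linarith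
      have h2 : 0 ≤ (2 * l + 1 : ℝ) / (2 * M) := by positivity
      rw [Real.norm_of_nonneg (by positivity)]
      have h3 : (1 - (2 * l + 1 : ℝ) / (2 * M)) ^ 2 ≤ 1 := by nlinarith
      exact mul_le_of_le_one_left hp h3
    · simpa using hp

theorem exists_M {ε : ℝ} (hε : 0 < ε) : ∃ M : ℕ, 1 ≤ M ∧ cstar - ε ≤ TM M := by
  have h1 := (TM_tendsto.eventually (lt_mem_nhds (show cstar - ε < cstar by linarith)))
  obtain ⟨M, h2, h3⟩ := (h1.and (eventually_ge_atTop 1)).exists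
  exact ⟨M, h3, h2.le⟩

/-- The energy as a function of `t = 1 / n`. -/
noncomputable def PP (M : ℕ) (t : ℝ) : ℝ :=
  (∑ i ∈ range M, 1 / 4 * (ac M i ^ 2 - bc M i ^ 2) *
    ((6 * i + 3) * (1 - (6 * i + 3) * t) - 1 + t)) - 27 * t - π ^ 4 / 8 * t ^ 2

theorem alg1 (x k w : ℝ) : (2 * x * k / -w) ^ 2 - (-(2 * x / -w)) ^ 2 =
    4 * x ^ 2 * ((k ^ 2 - 1) / w ^ 2) := by
  ring

theorem PP_zero (M : ℕ) : PP M 0 = TM M := by
  unfold PP TM
  simp only [mul_zero, sub_zero, mul_one, add_zero]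
  rw [zero_pow (by norm_num), mul_zero, sub_zero]
  apply Finset.sum_congr rfl
  intro i _
  unfold ac bc be
  have h := kne i
  have hpi := Real.pi_ne_zero
  have h3 : (2 * (i : ℝ) + 1) ≠ 0 := by positivity
  have h4 : (3 * (2 * (i : ℝ) + 1) + 1) ≠ 0 := by positivity
  generalize (1 - (2 * (i : ℝ) + 1) / (2 * M)) = q
  have h5 : (6 * (i : ℝ) + 2) ≠ 0 := by positivity
  have h6 : (6 * (i : ℝ) + 4) ≠ 0 := by positivity
  have h7 : (1 : ℝ) - (6 * i + 3) ^ 2 = -((6 * i + 2) * (6 * i + 4)) := by ring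
  have h8 : (3 * (2 * (i : ℝ) + 1) + 1) = 6 * i + 4 := by ring
  have h9 : (6 * (i : ℝ) + 3) - 1 = 6 * i + 2 := by ring
  rw [h7, h8, h9]
  have e1 : π * (2 / π * (q / (2 * (i : ℝ) + 1))) = 2 * (q / (2 * i + 1)) := by
    field_simp
  rw [e1]
  have e2 : (2 * (q / (2 * (i : ℝ) + 1)) * (6 * i + 3) / -((6 * i + 2) * (6 * i + 4))) ^ 2 -
      (-(2 * (q / (2 * (i : ℝ) + 1)) / -((6 * i + 2) * (6 * i + 4)))) ^ 2 =
      4 * (q / (2 * i + 1)) ^ 2 * (((6 * i + 3) ^ 2 - 1) / ((6 * i + 2) * (6 * i + 4)) ^ 2) :=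
    alg1 _ _ _
  have e3 : ((6 * (i : ℝ) + 3) ^ 2 - 1) / ((6 * i + 2) * (6 * i + 4)) ^ 2 =
      1 / ((6 * i + 2) * (6 * i + 4)) := by
    have : (6 * (i : ℝ) + 3) ^ 2 - 1 = (6 * i + 2) * (6 * i + 4) := by ring
    rw [this, sq]
    field_simp
  rw [e2, e3]
  field_simp

theorem PP_cont (M : ℕ) : Continuous (PP M) := by
  unfold PP
  fun_prop

theorem FL_scale {n : ℕ} {z : ℤ → ℂ} (hz : Pts n z) (r : ℝ) :
    FL n (fun j => (Real.exp r : ℂ) * z j) = FL n z + n * (n - 1 : ℕ) * r := by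
  unfold FL
  have h1 : ∀ j ∈ range n, ∑ d ∈ Ico 1 n, Real.log ‖(Real.exp r : ℂ) * z ((j : ℤ) + (d : ℤ)) -
      (Real.exp r : ℂ) * z (j : ℤ)‖ =
      ∑ d ∈ Ico 1 n, Real.log ‖z ((j : ℤ) + (d : ℤ)) - z (j : ℤ)‖ + (n - 1 : ℕ) * r := by
    intro j _
    have h2 : ∀ d ∈ Ico 1 n, Real.log ‖(Real.exp r : ℂ) * z ((j : ℤ) + (d : ℤ)) -
        (Real.exp r : ℂ) * z (j : ℤ)‖ = Real.log ‖z ((j : ℤ) + (d : ℤ)) - z (j : ℤ)‖ + r := by
      intro d hd
      have hd' := Finset.mem_Ico.1 hd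
      have hne : ‖z ((j : ℤ) + (d : ℤ)) - z (j : ℤ)‖ ≠ 0 := by
        rw [norm_ne_zero_iff, sub_ne_zero]
        intro h
        have h3 := hz.inj _ _ h
        rw [add_sub_cancel_left] at h3
        have h4 : n ∣ d := by exact_mod_cast h3
        have := Nat.le_of_dvd (by omega) h4
        omega
      rw [← mul_sub, norm_mul, Complex.norm_real, Real.norm_of_nonneg (Real.exp_pos r).le,
        Real.log_mul (Real.exp_pos r).ne' hne, Real.log_exp, add_comm]
    rw [Finset.sum_congr rfl h2, Finset.sum_add_distrib]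
    simp
  rw [Finset.sum_congr rfl h1, Finset.sum_add_distrib]
  simp [mul_assoc]

theorem Pts_scale {n : ℕ} {z : ℤ → ℂ} (hz : Pts n z) (r : ℝ) :
    Pts n (fun j => (Real.exp r : ℂ) * z j) where
  per := fun j => by simp only [hz.per]
  inj := fun i j h => by
    apply hz.inj
    have : (Real.exp r : ℂ) ≠ 0 := by
      exact_mod_cast (Real.exp_pos r).ne'
    exact mul_left_cancel₀ this h

theorem bound {M N : ℕ} (hF : Stmt_FEJER) (hC : Stmt_COMP) (hE : Stmt_COMPE) (hT : Stmt_TRIGE)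
    (hM : 1 ≤ M) (hN : 6 * M + 3 < N) {z : ℤ → ℂ} (hz : Opt (2 * N) z) :
    (2 * N : ℕ) * Real.log (2 * N : ℕ) + PP M (1 / (2 * N : ℕ)) ≤ FL (2 * N) z := by
  have hD := defo hF hM
  obtain ⟨hP, hEn⟩ := hE (pf M) (ze M) hD N (by omega)
  have hdist := hC (pf M) (ze M) hD N (by omega)
  obtain ⟨⟨a1, a2⟩, -⟩ := hT M N (ac M) hN
  obtain ⟨-, b1, b2⟩ := hT M N (bc M) hN
  set n : ℝ := ((2 * N : ℕ) : ℝ) with hn
  have hn0 : 1 ≤ n := by
    rw [hn]
    exact_mod_cast (by omega : 1 ≤ 2 * N)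
  simp only [ze_re, ze_im] at hEn
  unfold fA fB at hEn
  rw [a1, a2, b1, b2] at hEn
  set t : ℝ := π ^ 4 / (4 * n ^ 4) with ht
  have ht0 : 0 ≤ t := by positivity
  have hmax := hz.max (fun j => (Real.exp (-(t / 2)) : ℂ) * wz (2 * N) (ze M) j)
    (Pts_scale hP _) (by
      intro i j
      rw [← mul_sub, norm_mul, Complex.norm_real, Real.norm_of_nonneg (Real.exp_pos _).le]
      have h1 := hdist i j
      have h2 : (Real.exp (-(t / 2)) * ‖wz (2 * N) (ze M) i - wz (2 * N) (ze M) j‖) ^ 2 ≤ 2 ^ 2 := by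
        rw [mul_pow, ← Real.exp_nat_mul]
        have h3 : ((2 : ℕ) : ℝ) * (-(t / 2)) = -t := by push_cast; ring
        rw [h3]
        have h4 : (4 : ℝ) + π ^ 4 / n ^ 4 = 4 * (t + 1) := by
          rw [ht]; field_simp; ring
        rw [h4] at h1
        have h5 : t + 1 ≤ Real.exp t := Real.add_one_le_exp t
        have h6 : Real.exp (-t) * Real.exp t = 1 := by
          rw [← Real.exp_add]; simp
        calc Real.exp (-t) * ‖wz (2 * N) (ze M) i - wz (2 * N) (ze M) j‖ ^ 2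
            ≤ Real.exp (-t) * (4 * Real.exp t) :=
              mul_le_mul_of_nonneg_left (h1.trans (by linarith)) (Real.exp_pos _).le
          _ = 2 ^ 2 := by
              rw [mul_left_comm, h6]; norm_num
      exact le_of_sq_le_sq h2 (by norm_num))
  rw [FL_scale hP] at hmax
  refine le_trans ?_ hmax
  have h7 : ((2 * N : ℕ) : ℝ) * ((2 * N - 1 : ℕ) : ℝ) * (-(t / 2)) ≥ -(π ^ 4 / 8 * (1 / n) ^ 2) := by
    have h8 : ((2 * N - 1 : ℕ) : ℝ) ≤ n := by
      rw [hn]
      exact_mod_cast Nat.sub_le _ _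
    have h9 : n * ((2 * N - 1 : ℕ) : ℝ) * (t / 2) ≤ n * n * (t / 2) := by
      apply mul_le_mul_of_nonneg_right _ (by positivity)
      exact mul_le_mul_of_nonneg_left h8 (by linarith)
    have h10 : n * n * (t / 2) = π ^ 4 / 8 * (1 / n) ^ 2 := by
      rw [ht]
      field_simp
      ring
    rw [h10] at h9
    rw [← hn]
    linarith
  rw [← hn] at h7 ⊢
  have h11 : PP M (1 / n) = (∑ i ∈ range M, kap (2 * N) (6 * i + 3) * ac M i ^ 2 / 4) -
      (∑ i ∈ range M, kap (2 * N) (6 * i + 3) * bc M i ^ 2 / 4) -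
      1 / 2 * (1 - 1 / n) * ((∑ i ∈ range M, ac M i ^ 2 / 2) - ∑ i ∈ range M, bc M i ^ 2 / 2) -
      27 / n - π ^ 4 / 8 * (1 / n) ^ 2 := by
    have h12 : (∑ i ∈ range M, 1 / 4 * (ac M i ^ 2 - bc M i ^ 2) *
        ((6 * i + 3) * (1 - (6 * i + 3) * (1 / n)) - 1 + 1 / n)) =
        (∑ i ∈ range M, kap (2 * N) (6 * i + 3) * ac M i ^ 2 / 4) -
      (∑ i ∈ range M, kap (2 * N) (6 * i + 3) * bc M i ^ 2 / 4) -
      1 / 2 * (1 - 1 / n) * ((∑ i ∈ range M, ac M i ^ 2 / 2) - ∑ i ∈ range M, bc M i ^ 2 / 2) := by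
      rw [← Finset.sum_sub_distrib, ← Finset.sum_sub_distrib, Finset.mul_sum,
        ← Finset.sum_sub_distrib]
      apply Finset.sum_congr rfl
      intro i _
      have h13 : kap (2 * N) (6 * i + 3) = (6 * i + 3) * (1 - (6 * i + 3) * (1 / n)) := by
        unfold kap
        rw [← hn]
        push_cast
        rw [abs_of_nonneg (by positivity)]
        ring
      rw [h13]
      ring
    unfold PP
    rw [h12]
    ring
  rw [h11]
  linarith

end LOWERaux

open LOWERaux in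
/-- Module EHP_LOWER. -/
theorem m_LOWER : Stmt_FEJER → Stmt_COMP → Stmt_COMPE → Stmt_TRIGE → Stmt_LOWER := by
  intro hF hC hE hT ε hε
  obtain ⟨M, hM, hM'⟩ := exists_M (half_pos hε)
  have h1 : Tendsto (fun N : ℕ => PP M (1 / ((2 * N : ℕ) : ℝ))) atTop (𝓝 (TM M)) := by
    rw [← PP_zero]
    refine ((PP_cont M).tendsto 0).comp ?_
    have h2 : Tendsto (fun N : ℕ => ((2 * N : ℕ) : ℝ)) atTop atTop := by
      refine tendsto_natCast_atTop_atTop.comp ?_
      exact Filter.tendsto_atTop_mono (fun N => show N ≤ 2 * N by omega) tendsto_id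
    exact Tendsto.const_div_atTop h2 _
  have h3 := h1.eventually (lt_mem_nhds (show TM M - ε / 2 < TM M by linarith))
  obtain ⟨N₀, hN₀⟩ := Filter.eventually_atTop.1 h3
  refine ⟨2 * (N₀ + 6 * M + 4), ?_⟩
  intro N hN z hz
  have h4 := hN₀ N (by omega)
  have h5 := bound hF hC hE hT hM (by omega) hz
  linarith

end Pool.Agent.EHP
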