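import Pool.Agent.EHP.Stmts1

/-!
# Every maximizer is, after a rigid motion and relabelling, nearly regular
-/

open Finset
open scoped Real ComplexConjugate

namespace Pool.Agent.EHP

namespace NICEM

/-- The residue map of a relabelling. -/
theorem res_inj {n : ℕ} (hn : 1 ≤ n) {e : ℤ → ℤ}
    (he : ∀ i j, (n : ℤ) ∣ e i - e j ↔ (n : ℤ) ∣ i - j) {i j : ℕ} (hi : i < n) (hj : j < n)
    (h : (e (i : ℤ) % (n : ℤ)).toNat = (e (j : ℤ) % (n : ℤ)).toNat) : i = j := by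
  have hn0 : (0 : ℤ) < n := by exact_mod_cast hn
  have c1 : (((e (i : ℤ) % (n : ℤ)).toNat : ℕ) : ℤ) = e (i : ℤ) % (n : ℤ) :=
    Int.toNat_of_nonneg (Int.emod_nonneg _ hn0.ne')
  have c2 : (((e (j : ℤ) % (n : ℤ)).toNat : ℕ) : ℤ) = e (j : ℤ) % (n : ℤ) :=
    Int.toNat_of_nonneg (Int.emod_nonneg _ hn0.ne')
  have h1 : e (i : ℤ) % (n : ℤ) = e (j : ℤ) % (n : ℤ) := by rw [← c1, ← c2, h]
  have h2 : (n : ℤ) ∣ e (i : ℤ) - e (j : ℤ) := Int.ModEq.dvd h1.symm
  obtain ⟨c, hc⟩ := (he _ _).1 h2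
  have hc0 : c = 0 := by
    by_contra hne
    rcases lt_or_gt_of_ne hne with h | h
    · have : (n : ℤ) * c ≤ (n : ℤ) * (-1) := mul_le_mul_of_nonneg_left (by omega) hn0.le
      omega
    · have : (n : ℤ) * 1 ≤ (n : ℤ) * c := mul_le_mul_of_nonneg_left (by omega) hn0.le
      omega
  rw [hc0, mul_zero] at hc
  omega

/-- The residue bijection of a relabelling. -/
theorem exists_equiv {n : ℕ} (hn : 1 ≤ n) {e : ℤ → ℤ}
    (he : ∀ i j, (n : ℤ) ∣ e i - e j ↔ (n : ℤ) ∣ i - j) :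
    ∃ σ : Fin n ≃ Fin n, ∀ j : Fin n, (((σ j : Fin n) : ℕ) : ℤ) = e ((j : ℕ) : ℤ) % (n : ℤ) := by
  have hn0 : (0 : ℤ) < n := by exact_mod_cast hn
  have hlt : ∀ j : ℤ, (e j % (n : ℤ)).toNat < n := by
    intro j
    have h1 := Int.emod_lt_of_pos (e j) hn0
    have h2 := Int.emod_nonneg (e j) hn0.ne'
    omega
  let f : Fin n → Fin n := fun j => ⟨(e ((j : ℕ) : ℤ) % (n : ℤ)).toNat, hlt _⟩
  have hf : Function.Injective f := by
    intro i j hij
    have h1 := congrArg Fin.val hij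
    exact Fin.ext (res_inj hn he i.2 j.2 h1)
  have hb : Function.Bijective f := Finite.injective_iff_bijective.1 hf
  refine ⟨Equiv.ofBijective f hb, fun j => ?_⟩
  rw [Equiv.ofBijective_apply]
  exact Int.toNat_of_nonneg (Int.emod_nonneg _ hn0.ne')

/-- Reindexing a sum over a period. -/
theorem sum_re {n : ℕ} (hn : 1 ≤ n) {f : ℤ → ℂ} (hf : ∀ j : ℤ, f (j + n) = f j) {e : ℤ → ℤ}
    (he : ∀ i j, (n : ℤ) ∣ e i - e j ↔ (n : ℤ) ∣ i - j) :
    ∑ j ∈ range n, f (e (j : ℤ)) = ∑ j ∈ range n, f (j : ℤ) := by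
  obtain ⟨σ, hσ⟩ := exists_equiv hn he
  rw [← Fin.sum_univ_eq_sum_range (fun j : ℕ => f (e (j : ℤ))) n,
    ← Fin.sum_univ_eq_sum_range (fun j : ℕ => f (j : ℤ)) n]
  rw [← Equiv.sum_comp σ (fun j : Fin n => f ((j : ℕ) : ℤ))]
  refine Finset.sum_congr rfl fun j _ => ?_
  rw [hσ j, per_mod hf]

/-- The argument is the representative of least absolute value. -/
theorem abs_arg_exp (x : ℂ) : |(Complex.exp x).arg| ≤ |x.im| := by
  rcases le_or_gt π |x.im| with h | h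
  · exact (Complex.abs_arg_le_pi _).trans h
  · have h1 := abs_lt.1 h
    have h2 : Complex.log (Complex.exp x) = x := Complex.log_exp h1.1 h1.2.le
    have h3 : (Complex.exp x).arg = x.im := by
      rw [← Complex.log_im, h2]
    rw [h3]

theorem div_z {n : ℕ} (c : Cfg n) (i j : ℤ) : c.z i / c.z j =
    Complex.exp (((c.ρ i - c.ρ j : ℝ) : ℂ) + ((c.θ i - c.θ j : ℝ) : ℂ) * Complex.I) := by
  unfold Cfg.z
  rw [← Complex.exp_sub]
  congr 1
  push_cast
  ring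

theorem log_lower {x e : ℝ} (he : 0 < e) (he2 : e ≤ 1 / 2) (hx : 1 - e ≤ x) :
    -(2 * e) ≤ Real.log x := by
  have hx0 : 0 < x := by linarith
  have h1 := Real.one_sub_inv_le_log_of_pos hx0
  have h2 : x⁻¹ ≤ (1 - e)⁻¹ := inv_anti₀ (by linarith) hx
  have h3 : (1 - e)⁻¹ ≤ 1 + 2 * e := by
    rw [inv_le_comm₀ (by linarith) (by linarith), inv_le_iff_one_le_mul₀ (by linarith)]
    nlinarith
  linarith

end NICEM

theorem m_NICE : Stmt_TRANS → Stmt_OPTINV → Stmt_REGP → Stmt_COARSE → Stmt_SLOPE → Stmt_SORT →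
    Stmt_PHI → Stmt_NICE := by
  intro hT hO hR hC hS hSo hP ε hε
  obtain ⟨δφ, hδφ, hphi⟩ := hP ε hε
  set μ : ℝ := min ε δφ with hμ
  have hμ0 : 0 < μ := lt_min hε hδφ
  have hμ1 : μ ≤ ε := min_le_left _ _
  have hμ2 : μ ≤ δφ := min_le_right _ _
  set ε' : ℝ := min (μ / 2) (1 / 2) with hε'
  have hε'0 : 0 < ε' := lt_min (by linarith) (by norm_num)
  have hε'1 : ε' ≤ μ / 2 := min_le_left _ _
  have hε'2 : ε' ≤ 1 / 2 := min_le_right _ _
  obtain ⟨δs, hδs, hslope⟩ := hS ε' hε'0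
  have hδ0 : 0 < min δs μ := lt_min hδs hμ0
  obtain ⟨n₀, hcoarse⟩ := hC (min δs μ) hδ0
  refine ⟨max n₀ 2, fun n hn z hz => ?_⟩
  have hn0 : n₀ ≤ n := le_trans (le_max_left _ _) hn
  have hn2 : 2 ≤ n := le_trans (le_max_right _ _) hn
  have hn1 : 1 ≤ n := by omega
  have hnC : (n : ℂ) ≠ 0 := by
    have : n ≠ 0 := by omega
    exact_mod_cast this
  obtain ⟨w, hw, hwz⟩ := hT n z hn2 hz
  set t : ℂ := (∑ j ∈ range n, w (j : ℤ)) / n with ht
  set w1 : ℤ → ℂ := fun j => w j - t with hw1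
  have hopt1 : Opt n w1 := by
    have h := hO n w hn1 hw id 1 t (fun i j => by simp) (by simp)
    have h2 : (fun j => (1 : ℂ) * (w (id j) - t)) = w1 := by
      funext j
      simp [hw1]
    rw [h2] at h
    exact h
  have hsum1 : ∑ j ∈ range n, w1 (j : ℤ) = 0 := by
    simp only [hw1, Finset.sum_sub_distrib, Finset.sum_const, Finset.card_range, nsmul_eq_mul]
    rw [ht]
    field_simp
    ring
  have hup : ∀ j, ‖w1 j‖ ≤ 1 + min δs μ :=
    hcoarse n hn0 w1 hopt1.pts hopt1.adm hsum1 (hR n w1 hn1 hopt1)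
  obtain ⟨hlo, hsl⟩ := hslope n w1 hn2 hopt1 (fun j => (hup j).trans (by
    have := min_le_left δs μ
    linarith))
  have hne : ∀ j, w1 j ≠ 0 := by
    intro j h
    have h1 := hlo j
    rw [h, norm_zero] at h1
    linarith
  obtain ⟨c, β, e, he, hcz, hφ0⟩ := hSo n w1 hn1 hopt1.pts hne (fun i j hij => (hsl i j hij).1)
  have hu : ‖Complex.exp (β * Complex.I)‖ = 1 := Complex.norm_exp_ofReal_mul_I β
  have hcz' : (fun j => Complex.exp (β * Complex.I) * (w1 (e j) - 0)) = c.z := by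
    funext j
    rw [hcz j, sub_zero]
  have hoptc : Opt n c.z := by
    have h := hO n w1 hn1 hopt1 e (Complex.exp (β * Complex.I)) 0 he hu
    rw [hcz'] at h
    exact h
  have hnorm : ∀ j, ‖c.z j‖ = ‖w1 (e j)‖ := by
    intro j
    rw [hcz j, norm_mul, hu, one_mul]
  have hρ : ∀ j, c.ρ j = Real.log ‖w1 (e j)‖ := by
    intro j
    rw [← hnorm j, c.norm_z, Real.log_exp]
  have hρb : ∀ j, |c.ρ j| ≤ μ := by
    intro j
    rw [hρ j, abs_le]
    constructor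
    · have := NICEM.log_lower hε'0 hε'2 (hlo (e j))
      linarith
    · have h1 : 0 < ‖w1 (e j)‖ := norm_pos_iff.2 (hne _)
      have h2 := Real.log_le_sub_one_of_pos h1
      have h3 := hup (e j)
      have h4 := min_le_right δs μ
      linarith
  have hslb : ∀ i j, |c.ρ i - c.ρ j| ≤ ε' * |c.θ i - c.θ j| := by
    intro i j
    by_cases hij : (n : ℤ) ∣ i - j
    · have h1 : c.ρ i = c.ρ j := per_dvd c.ρ_add hij
      rw [h1, sub_self, abs_zero]
      positivity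
    · have hij' : ¬ (n : ℤ) ∣ e i - e j := fun h => hij ((he i j).1 h)
      have h1 := (hsl (e i) (e j) hij').2
      rw [hρ i, hρ j]
      refine h1.trans (mul_le_mul_of_nonneg_left ?_ hε'0.le)
      have h2 : w1 (e i) / w1 (e j) = c.z i / c.z j := by
        rw [hcz i, hcz j, mul_div_mul_left _ _ (Complex.exp_ne_zero _)]
      rw [h2, NICEM.div_z]
      refine (NICEM.abs_arg_exp _).trans (le_of_eq ?_)
      simp
  have hslμ : ∀ i j, |c.ρ i - c.ρ j| ≤ μ * |c.θ i - c.θ j| := fun i j =>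
    (hslb i j).trans (mul_le_mul_of_nonneg_right (by linarith) (abs_nonneg _))
  have hφb : ∀ j, |c.φ j| ≤ ε :=
    hphi n c hn1 hoptc (fun j => (hρb j).trans hμ2)
      (fun i j => (hslμ i j).trans (mul_le_mul_of_nonneg_right hμ2 (abs_nonneg _))) hφ0
  have hcent : ∑ j ∈ range n, c.z (j : ℤ) = 0 := by
    have h1 : ∑ j ∈ range n, c.z (j : ℤ) =
        Complex.exp (β * Complex.I) * ∑ j ∈ range n, w1 (e (j : ℤ)) := by
      rw [Finset.mul_sum]
      exact Finset.sum_congr rfl fun j _ => hcz j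
    rw [h1, NICEM.sum_re hn1 hopt1.pts.per he, hsum1, mul_zero]
  refine ⟨c, ⟨hoptc, hcent, hφ0, fun j => (hρb j).trans hμ1, hφb,
    fun i j => (hslμ i j).trans (mul_le_mul_of_nonneg_right hμ1 (abs_nonneg _))⟩, ?_⟩
  obtain ⟨σ, hσ⟩ := NICEM.exists_equiv hn1 he
  refine ⟨σ, Complex.exp (β * Complex.I), t, hu, fun j => ?_⟩
  rw [hcz, ← hwz (σ j), hσ j, per_mod hw.pts.per]

end Pool.Agent.EHP
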