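import Pool.Agent.EHP.Stmts3

/-!
# The partners of a vertex form an interval
-/

open Finset
open scoped Real ComplexConjugate

namespace Pool.Agent.EHP

/-- Neighbours are at distance less than two. -/
theorem part_nb {n : ℕ} {ε : ℝ} {c : Cfg n} (hn : 12 ≤ n) (hε : ε ≤ 1 / 10) (hc : Nice n ε c)
    (v : ℤ) : ‖c.z v - c.z (v + 1)‖ < 2 := by
  have hnR : (12 : ℝ) ≤ n := by exact_mod_cast hn
  have hnpos : (0 : ℝ) < n := by linarith
  have hg0 := c.g_pos v
  have hg : c.g v ≤ 0.73 := by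
    have e1 : c.g v = 2 * π / n + (c.φ (v + 1) - c.φ v) := by
      unfold Cfg.g Cfg.φ
      push_cast
      field_simp
      ring
    have h1 := abs_le.1 (hc.hφ (v + 1))
    have h2 := abs_le.1 (hc.hφ v)
    have h3 : 2 * π / n ≤ 0.5237 := by
      rw [div_le_iff₀ hnpos]
      have := Real.pi_lt_d4
      nlinarith
    rw [e1]; linarith [h1.2, h2.1]
  have hr1 := abs_le.1 (hc.hρ v)
  have hr2 := abs_le.1 (hc.hρ (v + 1))
  have hexp : Real.exp (c.ρ v + c.ρ (v + 1)) ≤ 1.25 := by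
    have h1 : c.ρ v + c.ρ (v + 1) ≤ 0.2 := by linarith [hr1.2, hr2.2]
    have h2 : Real.exp (c.ρ v + c.ρ (v + 1)) ≤ Real.exp 0.2 := Real.exp_le_exp.2 h1
    have h3 : (1 : ℝ) - 0.2 ≤ Real.exp (-0.2) := by linarith [Real.add_one_le_exp (-0.2 : ℝ)]
    have h4 : Real.exp (-0.2) * Real.exp 0.2 = 1 := by
      rw [← Real.exp_add]; norm_num
    have h5 := Real.exp_pos (0.2 : ℝ)
    nlinarith
  have hsin : Real.sin (c.X v (v + 1)) ^ 2 ≤ 0.14 := by
    have e1 : c.X v (v + 1) = -(c.g v / 2) := by unfold Cfg.X Cfg.g; ring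
    rw [e1, Real.sin_neg, neg_sq]
    have h1 : Real.sin (c.g v / 2) ≤ c.g v / 2 := Real.sin_le (by linarith)
    have h2 : 0 ≤ Real.sin (c.g v / 2) :=
      Real.sin_nonneg_of_nonneg_of_le_pi (by linarith) (by linarith [Real.pi_gt_three])
    nlinarith
  have hsinh : Real.sinh (c.Y v (v + 1)) ^ 2 ≤ 0.05 := by
    have hY : |c.Y v (v + 1)| ≤ 0.1 := by
      unfold Cfg.Y
      rw [abs_le]
      constructor <;> linarith [hr1.1, hr1.2, hr2.1, hr2.2]
    have hY' := abs_le.1 hY
    rw [Real.sinh_eq]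
    have e0 : ∀ x : ℝ, |x| ≤ 0.1 → Real.exp x ≤ 1.12 ∧ 0.9 ≤ Real.exp x := by
      intro x hx
      have hx' := abs_le.1 hx
      have h1 : (1 : ℝ) - 0.1 ≤ Real.exp (-x) := by
        linarith [Real.add_one_le_exp (-x), hx'.2]
      have h2 : Real.exp (-x) * Real.exp x = 1 := by
        rw [← Real.exp_add]; simp
      have h3 := Real.exp_pos x
      refine ⟨by nlinarith, by linarith [Real.add_one_le_exp x, hx'.1]⟩
    obtain ⟨a1, a2⟩ := e0 _ hY
    obtain ⟨b1, b2⟩ := e0 (-c.Y v (v + 1)) (by rwa [abs_neg])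
    have h1 : |(Real.exp (c.Y v (v + 1)) - Real.exp (-c.Y v (v + 1))) / 2| ≤ 0.11 := by
      rw [abs_le]; constructor <;> linarith
    have h2 := abs_le.1 h1
    nlinarith
  have hd := c.dist_sq v (v + 1)
  have hpos := Real.exp_pos (c.ρ v + c.ρ (v + 1))
  have h2 : ‖c.z v - c.z (v + 1)‖ ^ 2 < 4 := by
    rw [hd]
    have h3 : 0 ≤ Real.sin (c.X v (v + 1)) ^ 2 + Real.sinh (c.Y v (v + 1)) ^ 2 := by positivity
    nlinarith
  have h0 := norm_nonneg (c.z v - c.z (v + 1))
  nlinarith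

theorem m_PART : Stmt_CUT → Stmt_NEST → Stmt_PART := by
  intro hCUT hNEST n ε c hn hε hc
  have hnest := hNEST n ε c (by omega) hε hc
  have hper : ∀ j, c.z (j + n) = c.z j := c.z_add
  have hnZ : (12 : ℤ) ≤ n := by exact_mod_cast hn
  -- existence of partners
  have hex : ∀ v : ℤ, ((Finset.Ioo v (v + n)).filter (fun l => ‖c.z v - c.z l‖ = 2)).Nonempty := by
    intro v
    obtain ⟨a, ha, b, hb, hab⟩ := hCUT n c.z (by omega) hc.opt {j | (n : ℤ) ∣ j - v}
      (by
        intro j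
        simp only [Set.mem_setOf_eq]
        constructor
        · intro h
          have : j - v = (j + n - v) - n := by ring
          rw [this]; exact dvd_sub h (dvd_refl _)
        · intro h
          have : j + n - v = (j - v) + n := by ring
          rw [this]; exact dvd_add h (dvd_refl _))
      ⟨v, by simp⟩
      ⟨v + 1, by
        simp only [Set.mem_setOf_eq, add_sub_cancel_left]
        intro h
        have := Int.le_of_dvd (by norm_num) h
        omega⟩
    simp only [Set.mem_setOf_eq] at ha hb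
    have hza : c.z a = c.z v := per_dvd hper ha
    have hmod := Int.emod_add_mul_ediv (b - v) n
    have hm0 := Int.emod_nonneg (b - v) (show (n : ℤ) ≠ 0 by omega)
    have hm1 := Int.emod_lt_of_pos (b - v) (show (0 : ℤ) < n by omega)
    have hm2 : (b - v) % n ≠ 0 := fun h => hb (Int.dvd_of_emod_eq_zero h)
    have hzb : c.z (v + (b - v) % n) = c.z b := by
      apply per_dvd hper
      exact ⟨-((b - v) / n), by linarith⟩
    refine ⟨v + (b - v) % n, ?_⟩
    rw [Finset.mem_filter, Finset.mem_Ioo, hzb, ← hza]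
    refine ⟨⟨by omega, by omega⟩, hab⟩
  have hprop : ∀ v : ℤ, ∃ lo hi : ℤ, (v < lo ∧ lo < v + n ∧ ‖c.z v - c.z lo‖ = 2) ∧
      (v < hi ∧ hi < v + n ∧ ‖c.z v - c.z hi‖ = 2) ∧
      ∀ l, v < l → l < v + n → ‖c.z v - c.z l‖ = 2 → lo ≤ l ∧ l ≤ hi := by
    intro v
    refine ⟨((Finset.Ioo v (v + n)).filter (fun l => ‖c.z v - c.z l‖ = 2)).min' (hex v),
      ((Finset.Ioo v (v + n)).filter (fun l => ‖c.z v - c.z l‖ = 2)).max' (hex v), ?_, ?_, ?_⟩
    · have := Finset.min'_mem _ (hex v)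
      rw [Finset.mem_filter, Finset.mem_Ioo] at this
      exact ⟨this.1.1, this.1.2, this.2⟩
    · have := Finset.max'_mem _ (hex v)
      rw [Finset.mem_filter, Finset.mem_Ioo] at this
      exact ⟨this.1.1, this.1.2, this.2⟩
    · intro l h1 h2 h3
      have hl : l ∈ (Finset.Ioo v (v + n)).filter (fun l => ‖c.z v - c.z l‖ = 2) := by
        rw [Finset.mem_filter, Finset.mem_Ioo]
        exact ⟨⟨h1, h2⟩, h3⟩
      exact ⟨Finset.min'_le _ _ hl, Finset.le_max' _ _ hl⟩
  choose lo hi hlo hhi hall using hprop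
  have hint : ∀ v l : ℤ, lo v ≤ l → l ≤ hi v → ‖c.z v - c.z l‖ = 2 := by
    intro v l h1 h2
    rcases h1.eq_or_lt with h1 | h1
    · rw [← h1]; exact (hlo v).2.2
    rcases h2.eq_or_lt with h2 | h2
    · rw [h2]; exact (hhi v).2.2
    obtain ⟨w1, w2, w3⟩ := hlo (l - n)
    have e1 : c.z (l - n) = c.z l := by
      have := hper (l - n)
      rwa [sub_add_cancel, eq_comm] at this
    rw [e1] at w3
    rcases lt_trichotomy (lo (l - n)) v with h | h | h
    · exfalso
      refine hnest (lo (l - n)) v (lo v) l h (hlo v).1 h1 (by omega) ⟨?_, (hlo v).2.2⟩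
      rw [norm_sub_rev]; exact w3
    · rw [← h, norm_sub_rev]; exact w3
    · exfalso
      refine hnest v (lo (l - n)) l (hi v) h (by omega) h2 (hhi v).2.1 ⟨(hhi v).2.2, ?_⟩
      rw [norm_sub_rev]; exact w3
  have hnb1 : ∀ v l : ℤ, v < l → l < v + n → ‖c.z v - c.z l‖ = 2 → v + 1 < l ∧ l + 1 < v + n := by
    intro v l h1 h2 h3
    constructor
    · by_contra h
      have : l = v + 1 := by omega
      rw [this] at h3
      have := part_nb hn hε hc v
      linarith
    · by_contra h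
      have e2 : l + 1 = v + n := by omega
      have h4 := part_nb hn hε hc l
      rw [e2, hper, norm_sub_rev] at h4
      linarith
  refine ⟨lo, hi, ⟨?_, ?_, ?_, ?_, ?_⟩⟩
  · intro v
    obtain ⟨a1, a2, a3⟩ := hlo v
    obtain ⟨b1, b2, b3⟩ := hhi v
    exact ⟨(hnb1 v _ a1 a2 a3).1, (hall v _ a1 a2 a3).2, (hnb1 v _ b1 b2 b3).2⟩
  · intro v l h1 h2
    exact ⟨hall v l h1 h2, fun h => hint v l h.1 h.2⟩
  · intro v
    by_contra h
    push Not at h
    obtain ⟨a1, a2, a3⟩ := hlo (v + 1)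
    obtain ⟨b1, b2, b3⟩ := hhi v
    exact hnest v (v + 1) (lo (v + 1)) (hi v) (by omega) a1 h b2 ⟨b3, a3⟩
  · intro v
    obtain ⟨a1, a2, a3⟩ := hlo v
    obtain ⟨b1, b2, b3⟩ := hlo (v + n)
    have e1 : c.z (lo (v + n) - n) = c.z (lo (v + n)) := by
      have := hper (lo (v + n) - n)
      rwa [sub_add_cancel, eq_comm] at this
    have h1 := (hall v (lo (v + n) - n) (by omega) (by omega) (by rw [e1, ← b3, hper])).1
    have h2 := (hall (v + n) (lo v + n) (by omega) (by omega) (by rw [hper, hper]; exact a3)).1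
    omega
  · intro v
    obtain ⟨a1, a2, a3⟩ := hhi v
    obtain ⟨b1, b2, b3⟩ := hhi (v + n)
    have e1 : c.z (hi (v + n) - n) = c.z (hi (v + n)) := by
      have := hper (hi (v + n) - n)
      rwa [sub_add_cancel, eq_comm] at this
    have h1 := (hall v (hi (v + n) - n) (by omega) (by omega) (by rw [e1, ← b3, hper])).2
    have h2 := (hall (v + n) (hi v + n) (by omega) (by omega) (by rw [hper, hper]; exact a3)).2
    omega

end Pool.Agent.EHP
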