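import Pool.Agent.EHP.Stmts6

/-!
# Pendant vertices
-/

open Finset
open scoped Real ComplexConjugate

namespace Pool.Agent.EHP
namespace MPENDaux

/-- the points of the regular polygon -/
noncomputable def ex (n : ℕ) (j : ℤ) : ℂ := Complex.exp ((2 * π * j / n : ℝ) * Complex.I)

theorem norm_ex (n : ℕ) (j : ℤ) : ‖ex n j‖ = 1 := Complex.norm_exp_ofReal_mul_I _

theorem om_neg (n : ℕ) (j : ℤ) : om n (-1) j = conj (ex n j) := by
  unfold om ex
  rw [← Complex.exp_conj]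
  congr 1
  rw [map_mul, Complex.conj_ofReal, Complex.conj_I]
  push_cast
  ring

theorem re_ex (n : ℕ) (i j : ℤ) : (conj (ex n i) * ex n j).re =
    Real.cos (2 * π * ((j : ℝ) - i) / n) := by
  unfold ex
  rw [← Complex.exp_conj, ← Complex.exp_add, map_mul, Complex.conj_ofReal, Complex.conj_I]
  rw [show (((2 * π * i / n : ℝ) : ℂ) * -Complex.I + ((2 * π * j / n : ℝ) : ℂ) * Complex.I) =
    ((2 * π * ((j : ℝ) - i) / n : ℝ) : ℂ) * Complex.I by push_cast; ring]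
  exact Complex.exp_ofReal_mul_I_re _

section
variable {n : ℕ} {c : Cfg n} {K₁ : ℝ}

theorem z_near (hr : ∀ j, |c.ρ j| ≤ K₁ / n) (hp : ∀ j, |c.φ j| ≤ K₁ / n)
    (hK : 2 * (K₁ / n) ≤ 1) (j : ℤ) : ‖c.z j - ex n j‖ ≤ 4 * (K₁ / n) := by
  have e1 : c.z j = ex n j * Complex.exp ((c.ρ j : ℂ) + (c.φ j : ℂ) * Complex.I) := by
    unfold Cfg.z Cfg.φ ex
    rw [← Complex.exp_add]
    congr 1
    push_cast
    ring
  have e2 : c.z j - ex n j =
      ex n j * (Complex.exp ((c.ρ j : ℂ) + (c.φ j : ℂ) * Complex.I) - 1) := by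
    rw [e1]; ring
  have h1 : ‖(c.ρ j : ℂ) + (c.φ j : ℂ) * Complex.I‖ ≤ 2 * (K₁ / n) := by
    refine (norm_add_le _ _).trans ?_
    rw [norm_mul, Complex.norm_I, mul_one, Complex.norm_real, Complex.norm_real,
      Real.norm_eq_abs, Real.norm_eq_abs]
    linarith [hr j, hp j]
  rw [e2, norm_mul, norm_ex, one_mul]
  have h2 := Complex.norm_exp_sub_one_le (h1.trans hK)
  linarith

theorem norm_z_ge (hr : ∀ j, |c.ρ j| ≤ K₁ / n) (hK : 2 * (K₁ / n) ≤ 1) (j : ℤ) :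
    1 / 2 ≤ ‖c.z j‖ := by
  rw [c.norm_z]
  have h1 := Real.add_one_le_exp (c.ρ j)
  have h2 := (abs_le.1 (hr j)).1
  linarith

theorem tight_sq (hr : ∀ j, |c.ρ j| ≤ K₁ / n) (hK : 2 * (K₁ / n) ≤ 1) {a b : ℤ}
    (hab : ‖c.z a - c.z b‖ = 2) : ‖c.z a + c.z b‖ ^ 2 ≤ 16 * (K₁ / n) := by
  have h1 := parallelogram_law_with_norm ℝ (c.z a) (c.z b)
  have h2 : ∀ j, ‖c.z j‖ * ‖c.z j‖ ≤ 1 + 4 * (K₁ / n) := by
    intro j
    rw [c.norm_z, ← Real.exp_add]
    have h3 : |c.ρ j + c.ρ j| ≤ 1 := by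
      have := abs_add_le (c.ρ j) (c.ρ j)
      linarith [hr j]
    have h4 := Real.abs_exp_sub_one_le h3
    have h5 := (abs_le.1 h4).2
    have h6 : |c.ρ j + c.ρ j| ≤ 2 * (K₁ / n) := by
      have := abs_add_le (c.ρ j) (c.ρ j)
      linarith [hr j]
    linarith
  rw [hab] at h1
  nlinarith [h2 a, h2 b]

theorem tight_sum (hK₁ : 1 ≤ K₁) (hn : 1 ≤ n) (hr : ∀ j, |c.ρ j| ≤ K₁ / n)
    (hK : 2 * (K₁ / n) ≤ 1) {a b : ℤ}
    (hab : ‖c.z a - c.z b‖ = 2) : ‖c.z a + c.z b‖ ≤ 4 * K₁ / Real.sqrt n := by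
  have h1 := tight_sq hr hK hab
  have hn0 : (0 : ℝ) < n := by exact_mod_cast hn
  have hs : 0 < Real.sqrt n := Real.sqrt_pos.2 hn0
  apply le_of_sq_le_sq _ (by positivity)
  refine h1.trans ?_
  rw [div_pow, Real.sq_sqrt hn0.le, mul_pow, mul_div_assoc]
  have h2 : K₁ / n ≤ K₁ ^ 2 / n := by
    apply div_le_div_of_nonneg_right _ hn0.le
    nlinarith
  nlinarith

end

/-- a window with a good index -/
theorem window {n : ℕ} (hn : 1 ≤ n) (f : ℤ → ℝ) (hf : ∀ j, f (j + n) = f j) (h0 : ∀ j, 0 ≤ f j)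
    (δ : ℝ) (hmean : mn n f ≤ δ) (A : ℤ) (W : ℕ) (hW : W ≤ n) (hWδ : δ * n < W) :
    ∃ j, A ≤ j ∧ j < A + W ∧ f j < 1 := by
  by_contra hcon
  push Not at hcon
  have hn0 : (0 : ℝ) < n := by exact_mod_cast hn
  have h1 : ∑ j ∈ range n, f (j : ℤ) ≤ δ * n := by
    unfold mn at hmean
    rwa [div_le_iff₀ hn0] at hmean
  have h2 := sum_shift (n := n) (f := f) hf A
  have h3 : (W : ℝ) ≤ ∑ j ∈ range n, f ((j : ℤ) + A) := by
    calc (W : ℝ) = ∑ j ∈ range W, (1 : ℝ) := by simp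
      _ ≤ ∑ j ∈ range W, f ((j : ℤ) + A) := by
          apply Finset.sum_le_sum
          intro j hj
          have hj' := Finset.mem_range.1 hj
          exact hcon _ (by omega) (by omega)
      _ ≤ ∑ j ∈ range n, f ((j : ℤ) + A) := by
          apply Finset.sum_le_sum_of_subset_of_nonneg
          · exact Finset.range_subset_range.2 hW
          · intro j _ _
            exact h0 _
  rw [h2] at h3
  linarith

/-- the force on two antipodal points -/
theorem fb_pair {n : ℕ} {c : Cfg n} {K K₁ : ℝ} (hF : Stmt_FBH) (hc : Reg n K c) (hK₁ : 1 ≤ K₁)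
    (hKK : K ≤ K₁) (hn : 1 ≤ n) (hr : ∀ j, |c.ρ j| ≤ K₁ / n) (hK : 2 * (K₁ / n) ≤ 1) {a b : ℤ}
    (hab : ‖c.z a - c.z b‖ = 2) :
    ‖fb n c.z a + fb n c.z b‖ ≤ 12 * K₁ * Real.sqrt n := by
  have hn0 : (0 : ℝ) < n := by exact_mod_cast hn
  have hs : 0 < Real.sqrt n := Real.sqrt_pos.2 hn0
  have hss : Real.sqrt n * Real.sqrt n = n := Real.mul_self_sqrt hn0.le
  have hper : ∀ j : ℤ, HH n c.z (j + n) = HH n c.z j := by
    intro j
    unfold HH cc
    congr 1
    apply Finset.sum_congr rfl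
    intro d _
    have : j + (n : ℤ) + (d : ℤ) = (j + d) + n := by ring
    rw [this, c.z_add, c.z_add]
  have hH : ∀ j : ℤ, ‖HH n c.z j‖ ≤ K₁ * Real.sqrt n := by
    intro j
    have h1 : ‖HH n c.z j‖ ^ 2 ≤ K * n := by
      refine le_trans ?_ hc.hH
      have hm := per_mod (f := fun j => ‖HH n c.z j‖ ^ 2) (fun j => by
        show ‖HH n c.z (j + n)‖ ^ 2 = ‖HH n c.z j‖ ^ 2
        rw [hper]) j
      have hpos : (0 : ℤ) < n := by exact_mod_cast hn
      have h2 := Int.emod_nonneg j hpos.ne'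
      have h3 := Int.emod_lt_of_pos j hpos
      obtain ⟨i, hi⟩ := Int.eq_ofNat_of_zero_le h2
      rw [hi] at hm h3
      have hm' : ‖HH n c.z (i : ℤ)‖ ^ 2 = ‖HH n c.z j‖ ^ 2 := hm
      rw [← hm']
      exact Finset.single_le_sum (f := fun i : ℕ => ‖HH n c.z (i : ℤ)‖ ^ 2)
        (fun _ _ => sq_nonneg _) (Finset.mem_range.2 (by exact_mod_cast h3))
    apply le_of_sq_le_sq _ (by positivity)
    rw [mul_pow, Real.sq_sqrt hn0.le]
    refine h1.trans (mul_le_mul_of_nonneg_right ?_ hn0.le)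
    nlinarith
  have hza := norm_z_ge hr hK a
  have hzb := norm_z_ge hr hK b
  have hna : c.z a ≠ 0 := c.z_ne a
  have hnb : c.z b ≠ 0 := c.z_ne b
  have ha := hF n c.z hn hc.opt.pts a
  have hb := hF n c.z hn hc.opt.pts b
  have e : fb n c.z a + fb n c.z b = ((n : ℂ) - 1) / 2 * ((c.z a + c.z b) / (c.z a * c.z b)) +
      HH n c.z a / c.z a + HH n c.z b / c.z b := by
    have ea : fb n c.z a = (((n : ℂ) - 1) / 2 + HH n c.z a) / c.z a := by
      rw [eq_div_iff hna, ← ha]; ring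
    have eb : fb n c.z b = (((n : ℂ) - 1) / 2 + HH n c.z b) / c.z b := by
      rw [eq_div_iff hnb, ← hb]; ring
    rw [ea, eb]
    field_simp
    ring
  have hsum := tight_sum hK₁ hn hr hK hab
  have h1 : ‖((n : ℂ) - 1) / 2‖ ≤ n / 2 := by
    have e1 : ((n : ℂ) - 1) / 2 = (((n : ℝ) - 1) / 2 : ℝ) := by push_cast; ring
    have h1n : (1 : ℝ) ≤ n := by exact_mod_cast hn
    rw [e1, Complex.norm_real, Real.norm_eq_abs, abs_of_nonneg (by linarith)]
    linarith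
  have h2 : ‖(c.z a + c.z b) / (c.z a * c.z b)‖ ≤ 4 * (4 * K₁ / Real.sqrt n) := by
    rw [norm_div, norm_mul, div_le_iff₀ (by positivity)]
    have h3 : 1 / 4 ≤ ‖c.z a‖ * ‖c.z b‖ := by nlinarith
    have h4 : 0 ≤ 4 * (4 * K₁ / Real.sqrt n) := by positivity
    nlinarith
  have h3 : ∀ j : ℤ, ‖HH n c.z j / c.z j‖ ≤ 2 * (K₁ * Real.sqrt n) := by
    intro j
    have hz := norm_z_ge hr hK j
    rw [norm_div, div_le_iff₀ (by linarith)]
    have h5 := hH j
    have h6 : 0 ≤ 2 * (K₁ * Real.sqrt n) := by positivity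
    nlinarith
  rw [e]
  refine (norm_add_le _ _).trans ?_
  have h4 := norm_add_le (((n : ℂ) - 1) / 2 * ((c.z a + c.z b) / (c.z a * c.z b)))
    (HH n c.z a / c.z a)
  rw [norm_mul] at h4
  have h5 : ‖((n : ℂ) - 1) / 2‖ * ‖(c.z a + c.z b) / (c.z a * c.z b)‖ ≤
      n / 2 * (4 * (4 * K₁ / Real.sqrt n)) := mul_le_mul h1 h2 (norm_nonneg _) (by positivity)
  have h6 : (n : ℝ) / 2 * (4 * (4 * K₁ / Real.sqrt n)) = 8 * K₁ * Real.sqrt n := by
    have : (n : ℝ) / Real.sqrt n = Real.sqrt n := by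
      rw [div_eq_iff hs.ne', hss]
    calc (n : ℝ) / 2 * (4 * (4 * K₁ / Real.sqrt n)) = 8 * K₁ * (n / Real.sqrt n) := by ring
      _ = 8 * K₁ * Real.sqrt n := by rw [this]
  linarith [h3 a, h3 b]

/-- consequence of the sign of the force for `τ = σ u + β u'` -/
theorem force_re (u u' Ψ : ℂ) (F F' σ β n err : ℝ) (hu : ‖u‖ = 1) (hu' : ‖u'‖ = 1)
    (hσ : |σ| ≤ 1) (hβ : |β| ≤ 1) (hn : 0 < n)
    (hΨ : ‖Ψ - (n : ℂ) / 2 * (conj u * F - conj u' * F')‖ ≤ err)
    (hre : ((σ * u + β * u') * Ψ).re ≤ 0) :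
    F * (σ + β * (conj u * u').re) - F' * (σ * (conj u * u').re + β) ≤ 4 * err / n := by
  have hτ : ‖(σ : ℂ) * u + β * u'‖ ≤ 2 := by
    refine (norm_add_le _ _).trans ?_
    rw [norm_mul, norm_mul, hu, hu', Complex.norm_real, Complex.norm_real, Real.norm_eq_abs,
      Real.norm_eq_abs]
    linarith
  have herr : 0 ≤ err := (norm_nonneg _).trans hΨ
  have h1 : (((σ : ℂ) * u + β * u') * Ψ).re =
      n / 2 * (((σ : ℂ) * u + β * u') * (conj u * F - conj u' * F')).re +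
      (((σ : ℂ) * u + β * u') * (Ψ - (n : ℂ) / 2 * (conj u * F - conj u' * F'))).re := by
    have : ((σ : ℂ) * u + β * u') * Ψ = ((n / 2 : ℝ) : ℂ) *
        (((σ : ℂ) * u + β * u') * (conj u * F - conj u' * F')) +
        ((σ : ℂ) * u + β * u') * (Ψ - (n : ℂ) / 2 * (conj u * F - conj u' * F')) := by
      push_cast; ring
    rw [this, Complex.add_re, Complex.re_ofReal_mul]
  have h2 : -(2 * err) ≤
      (((σ : ℂ) * u + β * u') * (Ψ - (n : ℂ) / 2 * (conj u * F - conj u' * F'))).re := by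
    have h3 := Complex.abs_re_le_norm
      (((σ : ℂ) * u + β * u') * (Ψ - (n : ℂ) / 2 * (conj u * F - conj u' * F')))
    rw [norm_mul] at h3
    have h4 : ‖(σ : ℂ) * u + β * u'‖ * ‖Ψ - (n : ℂ) / 2 * (conj u * F - conj u' * F')‖ ≤ 2 * err :=
      mul_le_mul hτ hΨ (norm_nonneg _) (by norm_num)
    linarith [(abs_le.1 (h3.trans h4)).1]
  have h3 : (((σ : ℂ) * u + β * u') * (conj u * F - conj u' * F')).re =
      F * (σ + β * (conj u * u').re) - F' * (σ * (conj u * u').re + β) := by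
    have n1 : u.re * u.re + u.im * u.im = 1 := by
      have := Complex.normSq_eq_norm_sq u
      rw [hu, Complex.normSq_apply] at this
      linarith
    have n2 : u'.re * u'.re + u'.im * u'.im = 1 := by
      have := Complex.normSq_eq_norm_sq u'
      rw [hu', Complex.normSq_apply] at this
      linarith
    simp only [Complex.mul_re, Complex.add_re, Complex.sub_re, Complex.add_im, Complex.sub_im,
      Complex.mul_im, Complex.ofReal_re, Complex.ofReal_im, Complex.conj_re, Complex.conj_im]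
    linear_combination (F * σ) * n1 - (F' * β) * n2
  rw [h1, h3] at hre
  rw [le_div_iff₀ hn]
  nlinarith

/-- the real part of the product with a direction -/
theorem dir_re (u u' D t : ℂ) (σ β E r : ℝ) (hu : ‖u‖ = 1) (hu' : ‖u'‖ = 1)
    (hσ : |σ| ≤ 1) (hβ : |β| ≤ 1) (hD : ‖D - t‖ ≤ E)
    (ht : (conj ((σ : ℂ) * u + β * u') * t).re ≤ r) (hr : r + 2 * E < 0) :
    (conj ((σ : ℂ) * u + β * u') * D).re < 0 := by
  have hτ : ‖conj ((σ : ℂ) * u + β * u')‖ ≤ 2 := by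
    rw [RCLike.norm_conj]
    refine (norm_add_le _ _).trans ?_
    rw [norm_mul, norm_mul, hu, hu', Complex.norm_real, Complex.norm_real, Real.norm_eq_abs,
      Real.norm_eq_abs]
    linarith
  have h1 : (conj ((σ : ℂ) * u + β * u') * D).re = (conj ((σ : ℂ) * u + β * u') * t).re +
      (conj ((σ : ℂ) * u + β * u') * (D - t)).re := by
    rw [← Complex.add_re]; congr 1; ring
  have h2 := Complex.re_le_norm (conj ((σ : ℂ) * u + β * u') * (D - t))
  rw [norm_mul] at h2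
  have h4 : ‖conj ((σ : ℂ) * u + β * u')‖ * ‖D - t‖ ≤ 2 * E :=
    mul_le_mul hτ hD (norm_nonneg _) (by norm_num)
  rw [h1]
  linarith

theorem dir_u (u u' : ℂ) (σ β : ℝ) (hu : ‖u‖ = 1) :
    (conj ((σ : ℂ) * u + β * u') * u).re = σ + β * (conj u * u').re := by
  have n1 : u.re * u.re + u.im * u.im = 1 := by
    have := Complex.normSq_eq_norm_sq u
    rw [hu, Complex.normSq_apply] at this
    linarith
  simp only [map_add, map_mul, Complex.conj_ofReal, Complex.mul_re, Complex.add_re, Complex.add_im,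
    Complex.mul_im, Complex.ofReal_re, Complex.ofReal_im, Complex.conj_re, Complex.conj_im]
  linear_combination σ * n1

theorem dir_u' (u u' : ℂ) (σ β : ℝ) (hu' : ‖u'‖ = 1) :
    (conj ((σ : ℂ) * u + β * u') * u').re = σ * (conj u * u').re + β := by
  have n1 : u'.re * u'.re + u'.im * u'.im = 1 := by
    have := Complex.normSq_eq_norm_sq u'
    rw [hu', Complex.normSq_apply] at this
    linarith
  simp only [map_add, map_mul, Complex.conj_ofReal, Complex.mul_re, Complex.add_re, Complex.add_im,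
    Complex.mul_im, Complex.ofReal_re, Complex.ofReal_im, Complex.conj_re, Complex.conj_im]
  linear_combination β * n1

/-- the integer nearest to a number with small sine -/
theorem near_zero (y κ : ℝ) (h : |Real.sin (3 * y)| ≤ κ) :
    ∃ i : ℤ, |y - i * (π / 3)| ≤ 11 / 20 * κ := by
  have hπ := Real.pi_pos
  refine ⟨round (3 * y / π), ?_⟩
  set i := round (3 * y / π) with hi
  have h1 : |3 * y / π - i| ≤ 1 / 2 := abs_sub_round _
  set r := 3 * y - i * π with hr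
  have h2 : |r| ≤ π / 2 := by
    have e : r = (3 * y / π - i) * π := by rw [hr]; field_simp
    rw [e, abs_mul, abs_of_pos hπ]
    nlinarith
  have h3 : |Real.sin (3 * y)| = |Real.sin r| := by
    have e : 3 * y = r + i * π := by rw [hr]; ring
    rw [e, Real.sin_add_int_mul_pi]
    rw [abs_mul]
    have : |((-1 : ℝ)) ^ i| = 1 := by
      rw [abs_zpow, abs_neg, abs_one, one_zpow]
    rw [this, one_mul]
  have h4 : 2 / π * |r| ≤ |Real.sin r| := Real.mul_abs_le_abs_sin h2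
  have h5 : |r| ≤ π / 2 * κ := by
    have : 2 / π * |r| ≤ κ := h4.trans (h3 ▸ h)
    rw [div_mul_eq_mul_div, div_le_iff₀ hπ] at this
    linarith
  have e : y - i * (π / 3) = r / 3 := by rw [hr]; ring
  rw [e, abs_div, abs_of_pos (by norm_num : (0 : ℝ) < 3)]
  have hκ : 0 ≤ κ := (abs_nonneg _).trans h
  have : π ≤ 3.15 := Real.pi_lt_d2.le
  nlinarith

/-- the main estimate: the value `F` at a pendant vertex is small -/
theorem main (hT : Stmt_TLEM) (hFC : Stmt_FCARC) (hTE : Stmt_TEDGE) (hF : Stmt_FBH)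
    {n : ℕ} {c : Cfg n} {L : ℤ → ℤ} {K K₁ CF β ε : ℝ} (hn : 1 ≤ n) (hc : Reg n K c)
    (hL : Piw n c L) (hK₁ : 1 ≤ K₁) (hKK : K ≤ K₁)
    (hr : ∀ j, |c.ρ j| ≤ K₁ / n) (hp : ∀ j, |c.φ j| ≤ K₁ / n)
    (hK : 2 * (K₁ / n) ≤ 1) (hβ : 0 < β) (hβ1 : β ≤ 1 / 16) (hCF : 0 ≤ CF)
    (hE : 20 * K₁ / Real.sqrt n ≤ β / 8) (v v' : ℤ) (hvv : v < v')
    (hv1 : v' + 1 ≤ L v) (hv2 : L v' + 1 ≤ v + n)
    (hpen : L (v - 1) = L v) (G : ℤ → ℝ) (hG' : |G v'| ≤ 5 / 4)
    (hγ : |Real.cos (2 * π * ((v' : ℝ) - v) / n)| ≤ β / 2)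
    (mv : ℝ) (hmv : 0 ≤ mv)
    (hΨ : ‖(∑ a ∈ Finset.Ioc v v', fb n c.z a + ∑ a ∈ Finset.Ioc (L v) (L v'), fb n c.z a) -
        (n : ℂ) / 2 * (om n (-1) v * (G v : ℂ) - om n (-1) v' * (G v' : ℂ))‖ ≤
      ε * n + CF * Real.sqrt n * (mv + 1)) :
    |G v| ≤ 4 * β + 2 * (4 * ε + 4 * (CF * (mv + 1) + 12 * K₁) / Real.sqrt n) := by
  have hn0 : (0 : ℝ) < n := by exact_mod_cast hn
  have hs : 0 < Real.sqrt n := Real.sqrt_pos.2 hn0
  have hss : Real.sqrt n * Real.sqrt n = n := Real.mul_self_sqrt hn0.le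
  have hs1 : 1 ≤ Real.sqrt n := by
    rw [Real.one_le_sqrt]; exact_mod_cast hn
  set γ := Real.cos (2 * π * ((v' : ℝ) - v) / n) with hγd
  have hγe : (conj (ex n v) * ex n v').re = γ := re_ex n v v'
  have hu := norm_ex n v
  have hu' := norm_ex n v'
  -- tight pairs
  have hT1 : ‖c.z v - c.z (L v)‖ = 2 :=
    (hL.piv.tight v (L v) (by have := (hL.lt2 v).1; omega) (by have := (hL.lt2 v).2; omega)).2
      ⟨hpen.le, le_rfl⟩
  have hT2 : ‖c.z v' - c.z (L v')‖ = 2 :=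
    (hL.piv.tight v' (L v') (by have := (hL.lt2 v').1; omega) (by have := (hL.lt2 v').2; omega)).2
      ⟨hL.piv.mono (by omega), le_rfl⟩
  have hsum : ∀ a b : ℤ, ‖c.z a - c.z b‖ = 2 → ‖c.z a + c.z b‖ ≤ 4 * K₁ / Real.sqrt n :=
    fun a b hab => tight_sum hK₁ hn hr hK hab
  have hKn : 4 * (K₁ / n) ≤ 4 * K₁ / Real.sqrt n := by
    rw [← mul_div_assoc]
    apply div_le_div_of_nonneg_left (by linarith) hs
    nlinarith
  have hzn : ∀ j, ‖c.z j - ex n j‖ ≤ 4 * K₁ / Real.sqrt n :=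
    fun j => (z_near hr hp hK j).trans hKn
  have hEe : 4 * K₁ / Real.sqrt n * 5 = 20 * K₁ / Real.sqrt n := by ring
  have hE0 : 0 ≤ 4 * K₁ / Real.sqrt n := by positivity
  -- direction if `a ≡ L w`
  have dirA : ∀ w : ℤ, ‖c.z w - c.z (L w)‖ = 2 → ∀ a b : ℤ, ‖c.z a - c.z b‖ = 2 →
      (n : ℤ) ∣ a - L w → ‖(c.z a - c.z b) - (-2 * ex n w)‖ ≤ 20 * K₁ / Real.sqrt n := by
    intro w hw a b hab hdv
    have e1 : c.z a = c.z (L w) := per_dvd c.z_add hdv
    have e2 : (c.z a - c.z b) - (-2 * ex n w) =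
        (c.z w + c.z (L w)) + (c.z w + c.z (L w)) - (c.z a + c.z b) - (c.z w - ex n w) -
          (c.z w - ex n w) := by rw [e1]; ring
    rw [e2]
    refine (norm_sub_le _ _).trans ?_
    have h1 := norm_sub_le ((c.z w + c.z (L w)) + (c.z w + c.z (L w)) - (c.z a + c.z b))
      (c.z w - ex n w)
    have h2 := norm_sub_le ((c.z w + c.z (L w)) + (c.z w + c.z (L w))) (c.z a + c.z b)
    have h3 := norm_add_le (c.z w + c.z (L w)) (c.z w + c.z (L w))
    have h4 := hsum _ _ hw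
    have h5 := hsum _ _ hab
    have h6 := hzn w
    linarith
  -- direction if `b ≡ L w`
  have dirB : ∀ w : ℤ, ‖c.z w - c.z (L w)‖ = 2 → ∀ a b : ℤ, ‖c.z a - c.z b‖ = 2 →
      (n : ℤ) ∣ b - L w → ‖(c.z a - c.z b) - (2 * ex n w)‖ ≤ 20 * K₁ / Real.sqrt n := by
    intro w hw a b hab hdv
    have h1 := dirA w hw b a (by rw [norm_sub_rev]; exact hab) hdv
    have e : (c.z a - c.z b) - (2 * ex n w) = -((c.z b - c.z a) - (-2 * ex n w)) := by ring
    rw [e, norm_neg]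
    exact h1
  have hβr : |β| ≤ 1 := by rw [abs_of_pos hβ]; linarith
  have hγ1 := (abs_le.1 hγ).1
  have hγ2 := (abs_le.1 hγ).2
  have hβγ1 : β * γ ≤ β * (β / 2) := mul_le_mul_of_nonneg_left hγ2 hβ.le
  have hβγ2 : -(β * (β / 2)) ≤ β * γ := by
    have := mul_le_mul_of_nonneg_left hγ1 hβ.le
    linarith
  have hββ : β * (β / 2) ≤ 1 / 512 := by nlinarith
  obtain ⟨te1, te2, -⟩ := hTE n c L hn hL v v' hvv (by omega)
  have hmono : L v ≤ L v' := hL.piv.mono hvv.le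
  -- first set
  have hA : G v * (-1 + β * γ) - G v' * (-1 * γ + β) ≤
      4 * (ε * n + CF * Real.sqrt n * (mv + 1)) / n := by
    obtain ⟨hper, hsumF⟩ := hFC n c.z hn c.z_add v v' (L v) (L v') hvv.le (by omega) hmono (by omega)
    have h1 := hT n c.z hc.opt _ hper (((-1 : ℝ) : ℂ) * ex n v + (β : ℂ) * ex n v') (by
      intro a ha b hb hab
      rcases te1 a ha b hb hab with hd | hd
      · refine dir_re _ _ _ (2 * ex n v) (-1) β (20 * K₁ / Real.sqrt n) (2 * (-1 + β * γ)) hu hu'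
          (by norm_num) hβr (dirB v hT1 a b hab hd) ?_ (by linarith)
        have h2 := dir_u (ex n v) (ex n v') (-1) β hu
        rw [hγe] at h2
        have e : conj (((-1 : ℝ) : ℂ) * ex n v + (β : ℂ) * ex n v') * (2 * ex n v) =
          ((2 : ℝ) : ℂ) * (conj (((-1 : ℝ) : ℂ) * ex n v + (β : ℂ) * ex n v') * ex n v) := by
          push_cast; ring
        rw [e, Complex.re_ofReal_mul, h2]
      · refine dir_re _ _ _ (-2 * ex n v') (-1) β (20 * K₁ / Real.sqrt n) (-2 * (-1 * γ + β)) hu hu'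
          (by norm_num) hβr (dirA v' hT2 a b hab hd) ?_ (by linarith)
        have h2 := dir_u' (ex n v) (ex n v') (-1) β hu'
        rw [hγe] at h2
        have e : conj (((-1 : ℝ) : ℂ) * ex n v + (β : ℂ) * ex n v') * (-2 * ex n v') =
          ((-2 : ℝ) : ℂ) * (conj (((-1 : ℝ) : ℂ) * ex n v + (β : ℂ) * ex n v') * ex n v') := by
          push_cast; ring
        rw [e, Complex.re_ofReal_mul, h2])
    rw [hsumF] at h1
    have h2 := force_re (ex n v) (ex n v') _ (G v) (G v') (-1) β n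
      (ε * n + CF * Real.sqrt n * (mv + 1)) hu hu' (by norm_num) hβr hn0 (by
        rw [om_neg, om_neg] at hΨ
        push_cast at hΨ ⊢
        exact hΨ) h1
    rw [hγe] at h2
    exact h2
  -- second set
  have hB : G v * (1 + β * γ) - G v' * (1 * γ + β) ≤
      4 * (ε * n + CF * Real.sqrt n * (mv + 1) + 12 * K₁ * Real.sqrt n) / n := by
    obtain ⟨hper, hsumF⟩ := hFC n c.z hn c.z_add (v - 1) v' (L v - 1) (L v') (by omega) (by omega)
      (by omega) (by omega)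
    have h1 := hT n c.z hc.opt _ hper (((1 : ℝ) : ℂ) * ex n v + (β : ℂ) * ex n v') (by
      intro a ha b hb hab
      rcases te2 hpen a ha b hb hab with hd | hd
      · refine dir_re _ _ _ (-2 * ex n v) 1 β (20 * K₁ / Real.sqrt n) (-2 * (1 + β * γ)) hu hu'
          (by norm_num) hβr (dirA v hT1 a b hab hd) ?_ (by linarith)
        have h2 := dir_u (ex n v) (ex n v') 1 β hu
        rw [hγe] at h2
        have e : conj (((1 : ℝ) : ℂ) * ex n v + (β : ℂ) * ex n v') * (-2 * ex n v) =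
          ((-2 : ℝ) : ℂ) * (conj (((1 : ℝ) : ℂ) * ex n v + (β : ℂ) * ex n v') * ex n v) := by
          push_cast; ring
        rw [e, Complex.re_ofReal_mul, h2]
      · refine dir_re _ _ _ (-2 * ex n v') 1 β (20 * K₁ / Real.sqrt n) (-2 * (1 * γ + β)) hu hu'
          (by norm_num) hβr (dirA v' hT2 a b hab hd) ?_ (by linarith)
        have h2 := dir_u' (ex n v) (ex n v') 1 β hu'
        rw [hγe] at h2
        have e : conj (((1 : ℝ) : ℂ) * ex n v + (β : ℂ) * ex n v') * (-2 * ex n v') =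
          ((-2 : ℝ) : ℂ) * (conj (((1 : ℝ) : ℂ) * ex n v + (β : ℂ) * ex n v') * ex n v') := by
          push_cast; ring
        rw [e, Complex.re_ofReal_mul, h2])
    rw [hsumF] at h1
    have i1 : Finset.Ioc (v - 1) v' = insert v (Finset.Ioc v v') := by
      ext j; simp only [Finset.mem_Ioc, Finset.mem_insert]; omega
    have i2 : Finset.Ioc (L v - 1) (L v') = insert (L v) (Finset.Ioc (L v) (L v')) := by
      ext j; simp only [Finset.mem_Ioc, Finset.mem_insert]; omega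
    rw [i1, i2, Finset.sum_insert (by simp), Finset.sum_insert (by simp)] at h1
    have hfb := fb_pair hF hc hK₁ hKK hn hr hK hT1
    have h2 := force_re (ex n v) (ex n v') _ (G v) (G v') 1 β n
      (ε * n + CF * Real.sqrt n * (mv + 1) + 12 * K₁ * Real.sqrt n) hu hu' (by norm_num) hβr hn0 (by
        rw [om_neg, om_neg] at hΨ
        push_cast at hΨ ⊢
        have e : (fb n c.z v + ∑ a ∈ Finset.Ioc v v', fb n c.z a +
            (fb n c.z (L v) + ∑ a ∈ Finset.Ioc (L v) (L v'), fb n c.z a)) -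
            (n : ℂ) / 2 * (conj (ex n v) * (G v : ℂ) - conj (ex n v') * (G v' : ℂ)) =
            ((∑ a ∈ Finset.Ioc v v', fb n c.z a + ∑ a ∈ Finset.Ioc (L v) (L v'), fb n c.z a) -
            (n : ℂ) / 2 * (conj (ex n v) * (G v : ℂ) - conj (ex n v') * (G v' : ℂ))) +
            (fb n c.z v + fb n c.z (L v)) := by ring
        rw [e]
        exact (norm_add_le _ _).trans (add_le_add hΨ hfb)) h1
    rw [hγe] at h2
    exact h2
  have hsn : Real.sqrt n / n = 1 / Real.sqrt n := by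
    rw [div_eq_div_iff hn0.ne' hs.ne', hss, one_mul]
  have e1 : 4 * (ε * n + CF * Real.sqrt n * (mv + 1)) / n =
      4 * ε + 4 * (CF * (mv + 1)) / Real.sqrt n := by
    have : 4 * (ε * n + CF * Real.sqrt n * (mv + 1)) / n =
      4 * ε * (n / n) + 4 * (CF * (mv + 1)) * (Real.sqrt n / n) := by ring
    rw [this, hsn, div_self hn0.ne']
    ring
  have e2 : 4 * (ε * n + CF * Real.sqrt n * (mv + 1) + 12 * K₁ * Real.sqrt n) / n =
      4 * ε + 4 * (CF * (mv + 1) + 12 * K₁) / Real.sqrt n := by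
    have : 4 * (ε * n + CF * Real.sqrt n * (mv + 1) + 12 * K₁ * Real.sqrt n) / n =
      4 * ε * (n / n) + 4 * (CF * (mv + 1) + 12 * K₁) * (Real.sqrt n / n) := by ring
    rw [this, hsn, div_self hn0.ne']
    ring
  rw [e1] at hA
  rw [e2] at hB
  set R := 4 * (CF * (mv + 1) + 12 * K₁) / Real.sqrt n with hR
  have hle : 4 * (CF * (mv + 1)) / Real.sqrt n ≤ R := by
    rw [hR]
    apply div_le_div_of_nonneg_right _ hs.le
    linarith
  have g1 := (abs_le.1 hG').1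
  have g2 := (abs_le.1 hG').2
  have b1 : G v' * (-1 * γ + β) ≤ 2 * β := by
    have h0 : 0 ≤ -1 * γ + β := by linarith
    have h1 : G v' * (-1 * γ + β) ≤ 5 / 4 * (-1 * γ + β) := mul_le_mul_of_nonneg_right g2 h0
    linarith
  have b2 : G v' * (1 * γ + β) ≤ 2 * β := by
    have h0 : 0 ≤ 1 * γ + β := by linarith
    have h1 : G v' * (1 * γ + β) ≤ 5 / 4 * (1 * γ + β) := mul_le_mul_of_nonneg_right g2 h0
    linarith
  rw [abs_le]
  constructor
  · by_contra hcon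
    push Not at hcon
    have hR0 : 0 ≤ R := by positivity
    have hneg : G v ≤ 0 ∨ 0 < G v := le_or_gt _ _
    rcases hneg with h0 | h0
    · have h1 : -G v * (1 / 2) ≤ G v * (-1 + β * γ) := by nlinarith
      linarith
    · have h1 : G v * (1 / 2) ≤ G v * (1 + β * γ) := by nlinarith
      linarith
  · by_contra hcon
    push Not at hcon
    have hneg : G v ≤ 0 ∨ 0 < G v := le_or_gt _ _
    rcases hneg with h0 | h0
    · have h1 : -G v * (1 / 2) ≤ G v * (-1 + β * γ) := by nlinarith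
      linarith
    · have h1 : G v * (1 / 2) ≤ G v * (1 + β * γ) := by nlinarith
      linarith

end MPENDaux

open MPENDaux

theorem m_PEND (hT : Stmt_TLEM) (hFC : Stmt_FCARC) (hTE : Stmt_TEDGE) (hFO : Stmt_FORCE)
    (hAN : Stmt_ANTI) (hF : Stmt_FBH) (hKS : Stmt_KSF) : Stmt_PEND := by
  intro K η hη
  obtain ⟨η₁, hη₁, hη1, hη2⟩ : ∃ η₁ : ℝ, 0 < η₁ ∧ η₁ ≤ η ∧ η₁ ≤ 1 :=
    ⟨min η 1, lt_min hη one_pos, min_le_left _ _, min_le_right _ _⟩
  obtain ⟨CF, hCF, hFO1⟩ := hFO K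
  obtain ⟨CA, nA, hCA, hAN1⟩ := hAN K
  obtain ⟨β, hβ⟩ : ∃ β : ℝ, β = η₁ / 96 := ⟨_, rfl⟩
  obtain ⟨ε, hε⟩ : ∃ ε : ℝ, ε = η₁ / 192 := ⟨_, rfl⟩
  have hβ0 : 0 < β := by rw [hβ]; positivity
  have hβ1 : β ≤ 1 / 96 := by rw [hβ]; linarith
  have hε0 : 0 < ε := by rw [hε]; positivity
  obtain ⟨M, nF, δF, hδF, hFO2⟩ := hFO1 ε hε0
  obtain ⟨K₁, hK₁, hKK⟩ : ∃ K₁ : ℝ, 1 ≤ K₁ ∧ K ≤ K₁ := ⟨max K 1, le_max_right _ _, le_max_left _ _⟩
  have hK₁0 : 0 < K₁ := by linarith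
  obtain ⟨T, hTd⟩ : ∃ T : ℝ, T = 16 + 8 * CA + 4 * (CF + 12 * K₁) * (48 / η₁) + 160 * K₁ / β +
    16 / β := ⟨_, rfl⟩
  have t1 : 0 ≤ 4 * (CF + 12 * K₁) * (48 / η₁) := by positivity
  have t2 : 0 ≤ 160 * K₁ / β := by positivity
  have t3 : 0 ≤ 16 / β := by positivity
  refine ⟨M, max nF (max nA ⌈T ^ 2⌉₊), min δF (β / 30), by positivity, ?_⟩
  intro N hN c hc L hL x₀ hMo v hpen
  have hnF : nF ≤ 2 * N := (le_max_left _ _).trans hN
  have hnA : nA ≤ 2 * N := ((le_max_left _ _).trans (le_max_right _ _)).trans hN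
  have hnT : ⌈T ^ 2⌉₊ ≤ 2 * N := ((le_max_right _ _).trans (le_max_right _ _)).trans hN
  have hT2 : T ^ 2 ≤ ((2 * N : ℕ) : ℝ) := (Nat.le_ceil _).trans (by exact_mod_cast hnT)
  obtain ⟨s, hs⟩ : ∃ s : ℝ, s = Real.sqrt ((2 * N : ℕ) : ℝ) := ⟨_, rfl⟩
  have hT0 : 16 ≤ T := by rw [hTd]; linarith
  have hTs : T ≤ s := by
    rw [hs]
    exact Real.le_sqrt_of_sq_le hT2
  have hs16 : 16 ≤ s := hT0.trans hTs
  have hs0 : 0 < s := by linarith
  have hss : s * s = ((2 * N : ℕ) : ℝ) := by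
    rw [hs]; exact Real.mul_self_sqrt (by positivity)
  obtain ⟨n', hn'⟩ : ∃ n' : ℝ, n' = ((2 * N : ℕ) : ℝ) := ⟨_, rfl⟩
  rw [← hn'] at hss
  have hn's : 16 * s ≤ n' := by rw [← hss]; nlinarith
  have hn'0 : 0 < n' := by nlinarith
  have hNn : n' = 2 * (N : ℝ) := by rw [hn']; push_cast; ring
  have hN1 : 1 ≤ N := by
    by_contra h0
    have : N = 0 := by omega
    rw [this] at hNn
    simp at hNn
    linarith
  have hn1 : 1 ≤ 2 * N := by omega
  have s1 : 8 * CA + 16 ≤ s := by linarith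
  have s2 : 4 * (CF + 12 * K₁) * (48 / η₁) ≤ s := by linarith
  have s3 : 160 * K₁ / β ≤ s := by linarith
  have s4 : 16 / β ≤ s := by linarith
  -- bounds on `ρ`, `φ`
  have hr : ∀ j, |c.ρ j| ≤ K₁ / (2 * N : ℕ) := fun j =>
    (hc.hρ j).trans (div_le_div_of_nonneg_right hKK (by positivity))
  have hp : ∀ j, |c.φ j| ≤ K₁ / (2 * N : ℕ) := fun j =>
    (hc.hφ j).trans (div_le_div_of_nonneg_right hKK (by positivity))
  have hKs : 160 * K₁ ≤ s * β := by rwa [div_le_iff₀ hβ0] at s3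
  have hK : 2 * (K₁ / (2 * N : ℕ)) ≤ 1 := by
    rw [← hn', ← mul_div_assoc, div_le_one hn'0]
    nlinarith
  have hE : 20 * K₁ / Real.sqrt (2 * N : ℕ) ≤ β / 8 := by
    rw [← hs, div_le_iff₀ hs0]
    linarith
  -- the window
  obtain ⟨v', hA1, hA2, hf⟩ := window hn1
    (fun j => |pp N L j - sqw (2 * π * j / (2 * N : ℕ) - x₀)|) (by
      intro j
      have e1 : pp N L (j + (2 * N : ℕ)) = pp N L j := by
        unfold pp
        rw [hL.piv.add]
        push_cast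
        ring
      have e2 : sqw (2 * π * ((j + (2 * N : ℕ) : ℤ) : ℝ) / (2 * N : ℕ) - x₀) =
          sqw (2 * π * j / (2 * N : ℕ) - x₀) := by
        have e3 : 3 * (2 * π * ((j + (2 * N : ℕ) : ℤ) : ℝ) / (2 * N : ℕ) - x₀) =
            3 * (2 * π * j / (2 * N : ℕ) - x₀) + (3 : ℕ) * (2 * π) := by
          have h0 : ((2 * N : ℕ) : ℝ) ≠ 0 := by rw [← hn']; exact hn'0.ne'
          rw [Int.cast_add, Int.cast_natCast]
          field_simp
          push_cast
          ring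
        unfold sqw
        rw [e3, Real.sin_add_nat_mul_two_pi]
      show |_ - _| = |_ - _|
      rw [e1, e2]) (fun j => abs_nonneg _) (β / 30)
    (hMo.mean.trans (min_le_right _ _)) (v + (N : ℤ) / 2) (⌊β / 30 * n'⌋₊ + 1) (by
      have h1 : (⌊β / 30 * n'⌋₊ : ℝ) ≤ β / 30 * n' := Nat.floor_le (by positivity)
      have h2 : (⌊β / 30 * n'⌋₊ : ℝ) + 1 ≤ ((2 * N : ℕ) : ℝ) := by
        rw [← hn']
        nlinarith
      exact_mod_cast h2) (by
      rw [← hn']
      push_cast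
      exact Nat.lt_floor_add_one _)
  have hfl : (⌊β / 30 * n'⌋₊ : ℝ) ≤ β / 30 * n' := Nat.floor_le (by positivity)
  have hdivN : (N : ℤ) / 2 * 2 ≤ N ∧ (N : ℤ) ≤ (N : ℤ) / 2 * 2 + 1 := by omega
  have hdN1 : (((N : ℤ) / 2 : ℤ) : ℝ) * 2 ≤ N := by exact_mod_cast hdivN.1
  have hdN2 : (N : ℝ) ≤ (((N : ℤ) / 2 : ℤ) : ℝ) * 2 + 1 := by exact_mod_cast hdivN.2
  have hv'1 : (v : ℝ) + (((N : ℤ) / 2 : ℤ) : ℝ) ≤ v' := by exact_mod_cast hA1
  have hv'2 : (v' : ℝ) ≤ (v : ℝ) + (((N : ℤ) / 2 : ℤ) : ℝ) + (⌊β / 30 * n'⌋₊ : ℝ) := by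
    have h1 : v' ≤ v + (N : ℤ) / 2 + (⌊β / 30 * n'⌋₊ : ℤ) := by
      push_cast at hA2
      omega
    exact_mod_cast h1
  have hβn : β / 30 * n' ≤ n' / 2880 := by nlinarith
  have hD1 : n' / 4 - 1 / 2 ≤ (v' : ℝ) - v := by linarith
  have hD2 : (v' : ℝ) - v ≤ n' / 4 + β / 30 * n' := by linarith
  -- `m_{v'} ∈ {0, 1}`
  have hm' : mm N L v' = 0 ∨ mm N L v' = 1 := by
    have h1 : pp N L v' = 1 / 2 - (mm N L v' : ℝ) := rfl
    simp only [h1] at hf
    have h2 : sqw (2 * π * v' / (2 * N : ℕ) - x₀) = 1 / 2 ∨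
        sqw (2 * π * v' / (2 * N : ℕ) - x₀) = -(1 / 2) := by
      unfold sqw
      split_ifs
      · left; rfl
      · right; rfl
    have h3 : -1 < mm N L v' := by
      by_contra h4
      have h5 : mm N L v' ≤ -1 := by omega
      have h6 : (mm N L v' : ℝ) ≤ -1 := by exact_mod_cast h5
      have h7 := (abs_lt.1 hf).2
      rcases h2 with h2 | h2 <;> rw [h2] at h7 <;> linarith
    have h4 : mm N L v' < 2 := by
      by_contra h4
      have h5 : 2 ≤ mm N L v' := by omega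
      have h6 : 2 ≤ (mm N L v' : ℝ) := by exact_mod_cast h5
      have h7 := (abs_lt.1 hf).1
      rcases h2 with h2 | h2 <;> rw [h2] at h7 <;> linarith
    omega
  have hm'a : |(mm N L v' : ℝ)| ≤ 1 := by
    rcases hm' with h | h <;> rw [h] <;> norm_num
  -- positions
  have hT1 : ‖c.z v - c.z (L v)‖ = 2 :=
    (hL.piv.tight v (L v) (by have := (hL.lt2 v).1; omega) (by have := (hL.lt2 v).2; omega)).2
      ⟨hpen.le, le_rfl⟩
  have hT2' : ‖c.z v' - c.z (L v')‖ = 2 :=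
    (hL.piv.tight v' (L v') (by have := (hL.lt2 v').1; omega) (by have := (hL.lt2 v').2; omega)).2
      ⟨hL.piv.mono (by omega), le_rfl⟩
  have hP1 := (hAN1 (2 * N) hnA c hc v (L v) (by have := (hL.lt2 v).1; omega)
    (by have := (hL.lt2 v).2; omega) hT1).2
  have hP2 := (hAN1 (2 * N) hnA c hc v' (L v') (by have := (hL.lt2 v').1; omega)
    (by have := (hL.lt2 v').2; omega) hT2').2
  rw [← hs, ← hn', Int.cast_sub] at hP1 hP2
  have hCAs : CA * s ≤ n' / 8 - 32 := by rw [← hss]; nlinarith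
  have hL1 := (abs_le.1 hP1).1
  have hL2 := (abs_le.1 hP2).2
  have hn256 : 256 ≤ n' := by linarith
  have hvv : v < v' := by
    have : (v : ℝ) < v' := by linarith
    exact_mod_cast this
  have hv1 : v' + 1 ≤ L v := by
    have : (v' : ℝ) + 1 ≤ L v := by linarith
    exact_mod_cast this
  have hv2 : L v' + 1 ≤ v + (2 * N : ℕ) := by
    have : (L v' : ℝ) + 1 ≤ v + n' := by linarith
    rw [hn'] at this
    exact_mod_cast this
  have hvN : v' ≤ v + N := by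
    have : (v' : ℝ) ≤ v + N := by linarith
    exact_mod_cast this
  have hγ : |Real.cos (2 * π * ((v' : ℝ) - v) / (2 * N : ℕ))| ≤ β / 2 := by
    rw [← hn', ← Real.sin_pi_div_two_sub]
    refine Real.abs_sin_le_abs.trans ?_
    have hπ1 : π ≤ 3.15 := Real.pi_lt_d2.le
    have hπ0 := Real.pi_pos
    have e : π / 2 - 2 * π * ((v' : ℝ) - v) / n' = 2 * π / n' * (n' / 4 - ((v' : ℝ) - v)) := by
      field_simp
      ring
    rw [e, abs_mul, abs_of_pos (by positivity : 0 < 2 * π / n')]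
    have h1 : |n' / 4 - ((v' : ℝ) - v)| ≤ 1 / 2 + β / 30 * n' := by
      rw [abs_le]
      constructor <;> nlinarith
    have h2 : 2 * π / n' * |n' / 4 - ((v' : ℝ) - v)| ≤ 2 * π / n' * (1 / 2 + β / 30 * n') :=
      mul_le_mul_of_nonneg_left h1 (by positivity)
    have h3 : 2 * π / n' * (1 / 2 + β / 30 * n') = π / n' + π * β / 15 := by
      field_simp
      ring
    rw [h3] at h2
    have h4 : π / n' ≤ β / 4 := by
      rw [div_le_iff₀ hn'0]
      have h5 : 16 ≤ s * β := by rwa [div_le_iff₀ hβ0] at s4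
      nlinarith
    have h5 : π * β / 15 ≤ β / 4 := by nlinarith
    linarith
  -- the force
  have hMo' : Mo N M δF c L x₀ := ⟨hMo.mean.trans (min_le_left _ _),
    fun k h1 h2 => (hMo.hp k h1 h2).trans (min_le_left _ _),
    fun k h1 h2 => (hMo.hu k h1 h2).trans (min_le_left _ _)⟩
  have hΨ := hFO2 N hnF c hc L hL x₀ hMo' v v' hvv hvN
  have hks : ∀ w : ℤ, |ks (2 * π * w / (2 * N : ℕ) - x₀)| ≤ 1 / 4 := fun w => hKS.1 _
  have hmain := main hT hFC hTE hF hn1 hc hL hK₁ hKK hr hp hK hβ0 (by linarith) hCF.le hE v v' hvv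
    hv1 hv2 hpen (fun w => (mm N L w : ℝ) + ks (2 * π * w / (2 * N : ℕ) - x₀)) (by
      have h1 := abs_add_le (mm N L v' : ℝ) (ks (2 * π * v' / (2 * N : ℕ) - x₀))
      have h2 := hks v'
      show |(mm N L v' : ℝ) + ks (2 * π * v' / (2 * N : ℕ) - x₀)| ≤ 5 / 4
      linarith) hγ |(mm N L v : ℝ)| (abs_nonneg _) (ε := ε) (by
      refine hΨ.trans ?_
      have h1 : CF * Real.sqrt (2 * N : ℕ) * (|(mm N L v : ℝ)| + |(mm N L v' : ℝ)|) ≤
          CF * Real.sqrt (2 * N : ℕ) * (|(mm N L v : ℝ)| + 1) :=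
        mul_le_mul_of_nonneg_left (by linarith) (by positivity)
      linarith)
  rw [← hs] at hmain
  obtain ⟨a, ha⟩ : ∃ a : ℝ, a = |(mm N L v : ℝ)| := ⟨_, rfl⟩
  have ha0 : 0 ≤ a := by rw [ha]; exact abs_nonneg _
  rw [← ha] at hmain
  have hq : 4 * (CF * (a + 1) + 12 * K₁) / s ≤ (a + 1) * (η₁ / 48) := by
    rw [div_le_iff₀ hs0]
    have h1 : 4 * (CF + 12 * K₁) * 48 ≤ s * η₁ := by
      rw [← mul_div_assoc, div_le_iff₀ hη₁] at s2
      exact s2
    nlinarith [mul_nonneg ha0 hK₁0.le]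
  have hG : |(mm N L v : ℝ) + ks (2 * π * v / (2 * N : ℕ) - x₀)| ≤ η₁ * (a + 3) / 24 := by
    refine hmain.trans ?_
    rw [hβ, hε]
    nlinarith
  have hlow : a - 1 / 4 ≤ |(mm N L v : ℝ) + ks (2 * π * v / (2 * N : ℕ) - x₀)| := by
    have h1 := abs_sub_abs_le_abs_sub (mm N L v : ℝ) (-ks (2 * π * v / (2 * N : ℕ) - x₀))
    rw [abs_neg, sub_neg_eq_add, ← ha] at h1
    have h2 := hks v
    linarith
  have ha1 : a < 1 := by
    by_contra h0
    push Not at h0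
    nlinarith
  have hmz : mm N L v = 0 := by
    rw [ha] at ha1
    have : |mm N L v| < 1 := by exact_mod_cast ha1
    exact Int.abs_lt_one_iff.1 this
  refine ⟨by unfold mm at hmz; omega, ?_⟩
  rw [hmz] at ha hG
  have ha2 : a = 0 := by rw [ha]; simp
  rw [ha2] at hG
  push_cast at hG
  rw [zero_add] at hG
  have h10 := hKS.2.1 (2 * π * v / (2 * N : ℕ) - x₀)
  obtain ⟨i, hi⟩ := near_zero (2 * π * v / (2 * N : ℕ) - x₀) (10 * (η₁ / 8)) (by
    push_cast at h10 ⊢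
    linarith)
  refine ⟨i, hi.trans ?_⟩
  linarith

end Pool.Agent.EHP
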