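import Pool.Agent.EHP.Stmts1

/-!
# Translation lemma (module EHP_TLEM)
-/

open Finset Filter Topology
open scoped Real ComplexConjugate

namespace Pool.Agent.EHP

theorem TLEM_sq (a b : ℂ) (e : ℝ) :
    ‖a + e * b‖ ^ 2 = ‖a‖ ^ 2 + 2 * e * (conj b * a).re + e ^ 2 * ‖b‖ ^ 2 := by
  rw [← Complex.normSq_eq_norm_sq, ← Complex.normSq_eq_norm_sq, ← Complex.normSq_eq_norm_sq]
  simp only [Complex.normSq_apply, Complex.add_re, Complex.add_im, Complex.mul_re, Complex.mul_im,
    Complex.ofReal_re, Complex.ofReal_im, Complex.conj_re, Complex.conj_im]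
  ring

theorem TLEM_deriv (a b : ℂ) (ha : a ≠ 0) :
    HasDerivAt (fun e : ℝ => Real.log ‖a + e * b‖) (b / a).re 0 := by
  have h1 : (fun e : ℝ => Real.log ‖a + e * b‖) =
      fun e : ℝ => (1 / 2) * Real.log (‖a‖ ^ 2 + 2 * e * (conj b * a).re + e ^ 2 * ‖b‖ ^ 2) := by
    funext e
    rw [← TLEM_sq, Real.log_pow]
    push_cast
    ring
  rw [h1]
  have h2 : HasDerivAt (fun e : ℝ => ‖a‖ ^ 2 + 2 * e * (conj b * a).re + e ^ 2 * ‖b‖ ^ 2)
      (2 * (conj b * a).re) 0 := by
    have e1 : HasDerivAt (fun e : ℝ => 2 * e * (conj b * a).re) (2 * 1 * (conj b * a).re) 0 :=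
      ((hasDerivAt_id (0 : ℝ)).const_mul 2).mul_const _
    have e2 : HasDerivAt (fun e : ℝ => e ^ 2 * ‖b‖ ^ 2) (((2 : ℕ) * (0 : ℝ) ^ (2 - 1)) * ‖b‖ ^ 2) 0 :=
      (hasDerivAt_pow 2 (0 : ℝ)).mul_const _
    have e3 := (e1.const_add (‖a‖ ^ 2)).add e2
    have e4 : (2 * 1 * (conj b * a).re) + (((2 : ℕ) * (0 : ℝ) ^ (2 - 1)) * ‖b‖ ^ 2) =
        2 * (conj b * a).re := by norm_num
    rw [e4] at e3
    exact e3
  have hna : (‖a‖ ^ 2 : ℝ) ≠ 0 := pow_ne_zero _ (norm_ne_zero_iff.2 ha)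
  have h3 : (fun e : ℝ => ‖a‖ ^ 2 + 2 * e * (conj b * a).re + e ^ 2 * ‖b‖ ^ 2) 0 ≠ 0 := by
    simpa using ha
  have h4 := (h2.log h3).const_mul (1 / 2 : ℝ)
  have h5 : (b / a).re = 1 / 2 * (2 * (conj b * a).re /
      ((fun e : ℝ => ‖a‖ ^ 2 + 2 * e * (conj b * a).re + e ^ 2 * ‖b‖ ^ 2) 0)) := by
    have e5 : (fun e : ℝ => ‖a‖ ^ 2 + 2 * e * (conj b * a).re + e ^ 2 * ‖b‖ ^ 2) 0 = ‖a‖ ^ 2 := by
      simp
    rw [e5, Complex.div_re, Complex.normSq_eq_norm_sq]
    simp only [Complex.mul_re, Complex.conj_re, Complex.conj_im]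
    field_simp
    ring
  rw [h5]
  exact h4

theorem t_res {n : ℕ} (hn : 0 < n) (j : ℤ) : ∃ r ∈ range n, (j % n) = (r : ℤ) := by
  have hn' : (0 : ℤ) < n := by exact_mod_cast hn
  have h1 := Int.emod_nonneg j hn'.ne'
  have h2 := Int.emod_lt_of_pos j hn'
  refine ⟨(j % n).toNat, Finset.mem_range.2 (by omega), by omega⟩

theorem m_TLEM : Stmt_TLEM := by
  classical
  intro n z hz C hC τ hτ
  rcases Nat.eq_zero_or_pos n with hn | hn
  · subst hn
    simp [FC]
  set χ : ℤ → ℂ := fun j => if j ∈ C then τ else 0 with hχ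
  have hχper : ∀ j, χ (j + n) = χ j := by
    intro j
    simp only [hχ, hC j]
  set w : ℝ → ℤ → ℂ := fun e j => z j + e * χ j with hw
  have hwper : ∀ e j, w e (j + n) = w e j := by
    intro e j
    simp only [hw, hz.pts.per, hχper]
  have hw0 : w 0 = z := by
    funext j
    simp [hw]
  have hcont : ∀ i j : ℤ, Continuous fun e : ℝ => w e i - w e j := by
    intro i j
    simp only [hw]
    fun_prop
  -- admissibility
  have hinj : ∀ᶠ e : ℝ in 𝓝[>] 0, ∀ i ∈ range n, ∀ j ∈ range n, i ≠ j →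
      w e (i : ℤ) ≠ w e (j : ℤ) := by
    rw [Filter.eventually_all_finset]
    intro i hi
    rw [Filter.eventually_all_finset]
    intro j hj
    by_cases hij : i = j
    · exact Filter.Eventually.of_forall fun e h => absurd hij h
    · have h0 : w 0 (i : ℤ) - w 0 (j : ℤ) ≠ 0 := by
        rw [hw0]
        intro h
        have h1 := hz.pts.inj _ _ (sub_eq_zero.1 h)
        have hi' := Finset.mem_range.1 hi
        have hj' := Finset.mem_range.1 hj
        have h2 := Int.eq_zero_of_abs_lt_dvd h1 (by rw [abs_lt]; constructor <;> omega)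
        exact hij (by omega)
      have h1 : ∀ᶠ e : ℝ in 𝓝 0, w e (i : ℤ) - w e (j : ℤ) ≠ 0 :=
        (hcont i j).continuousAt.eventually_ne h0
      filter_upwards [h1.filter_mono nhdsWithin_le_nhds] with e he _
      exact sub_ne_zero.1 he
  have hedge : ∀ a b : ℂ, ‖a‖ = 2 → (conj b * a).re < 0 →
      ∀ᶠ e : ℝ in 𝓝[>] 0, ‖a + e * b‖ ≤ 2 := by
    intro a b ha hb
    have h1 : ∀ᶠ e : ℝ in 𝓝 0, 2 * (conj b * a).re + e * ‖b‖ ^ 2 < 0 := by
      have hc : Continuous fun e : ℝ => 2 * (conj b * a).re + e * ‖b‖ ^ 2 := by fun_prop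
      apply hc.continuousAt.eventually_lt_const
      simp only [zero_mul, add_zero]
      linarith
    filter_upwards [h1.filter_mono nhdsWithin_le_nhds, self_mem_nhdsWithin] with e he he0
    have he0' : 0 < e := he0
    have h2 : ‖a + e * b‖ ^ 2 ≤ 2 ^ 2 := by
      rw [TLEM_sq, ha]
      nlinarith
    exact (pow_le_pow_iff_left₀ (norm_nonneg _) (by norm_num) (by norm_num)).1 h2
  have hadm : ∀ᶠ e : ℝ in 𝓝[>] 0, ∀ i ∈ range n, ∀ j ∈ range n,
      ‖w e (i : ℤ) - w e (j : ℤ)‖ ≤ 2 := by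
    rw [Filter.eventually_all_finset]
    intro i hi
    rw [Filter.eventually_all_finset]
    intro j hj
    rcases (hz.adm (i : ℤ) (j : ℤ)).lt_or_eq with h | h
    · have h1 : ∀ᶠ e : ℝ in 𝓝 0, ‖w e (i : ℤ) - w e (j : ℤ)‖ < 2 := by
        apply (hcont i j).norm.continuousAt.eventually_lt_const
        show ‖w 0 (i : ℤ) - w 0 (j : ℤ)‖ < 2
        rw [hw0]
        exact h
      filter_upwards [h1.filter_mono nhdsWithin_le_nhds] with e he
      exact he.le
    · by_cases hiC : (i : ℤ) ∈ C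
      · by_cases hjC : (j : ℤ) ∈ C
        · refine Filter.Eventually.of_forall fun e => ?_
          have : w e (i : ℤ) - w e (j : ℤ) = z i - z j := by
            simp only [hw, hχ, if_pos hiC, if_pos hjC]
            ring
          rw [this, h]
        · filter_upwards [hedge _ τ h (hτ _ hiC _ hjC h)] with e he
          have : w e (i : ℤ) - w e (j : ℤ) = z i - z j + e * τ := by
            simp only [hw, hχ, if_pos hiC, if_neg hjC]
            ring
          rwa [this]
      · by_cases hjC : (j : ℤ) ∈ C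
        · have h' : ‖z (j : ℤ) - z (i : ℤ)‖ = 2 := by rw [norm_sub_rev]; exact h
          filter_upwards [hedge _ τ h' (hτ _ hjC _ hiC h')] with e he
          have : w e (i : ℤ) - w e (j : ℤ) = -(z j - z i + e * τ) := by
            simp only [hw, hχ, if_neg hiC, if_pos hjC]
            ring
          rwa [this, norm_neg]
        · refine Filter.Eventually.of_forall fun e => ?_
          have : w e (i : ℤ) - w e (j : ℤ) = z i - z j := by
            simp only [hw, hχ, if_neg hiC, if_neg hjC]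
            ring
          rw [this, h]
  -- the maximality
  have hmax : ∀ᶠ e : ℝ in 𝓝[>] 0, FL n (w e) ≤ FL n (w 0) := by
    filter_upwards [hinj, hadm] with e he1 he2
    rw [hw0]
    apply hz.max
    · refine ⟨hwper e, fun i j hij => ?_⟩
      obtain ⟨a, ha, hia⟩ := t_res hn i
      obtain ⟨b, hb, hjb⟩ := t_res hn j
      have h1 : w e (a : ℤ) = w e (b : ℤ) := by
        rw [← hia, ← hjb, per_mod (hwper e), per_mod (hwper e), hij]
      have h2 : a = b := by
        by_contra hne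
        exact he1 a ha b hb hne h1
      have h3 : i % n = j % n := by rw [hia, hjb, h2]
      exact Int.dvd_of_emod_eq_zero (Int.emod_eq_emod_iff_emod_sub_eq_zero.1 h3)
    · intro i j
      obtain ⟨a, ha, hia⟩ := t_res hn i
      obtain ⟨b, hb, hjb⟩ := t_res hn j
      have h1 := he2 a ha b hb
      rwa [← hia, ← hjb, per_mod (hwper e), per_mod (hwper e)] at h1
  -- the derivative
  have hder : HasDerivAt (fun e : ℝ => FL n (w e))
      (∑ j ∈ range n, ∑ d ∈ Ico 1 n,
        ((χ ((j : ℤ) + (d : ℤ)) - χ (j : ℤ)) / (z ((j : ℤ) + (d : ℤ)) - z (j : ℤ))).re) 0 := by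
    unfold FL
    apply HasDerivAt.fun_sum
    intro j hj
    apply HasDerivAt.fun_sum
    intro d hd
    have hd' := Finset.mem_Ico.1 hd
    have hne : z ((j : ℤ) + (d : ℤ)) - z (j : ℤ) ≠ 0 := by
      intro h
      have h1 := hz.pts.inj _ _ (sub_eq_zero.1 h)
      have h2 := Int.eq_zero_of_abs_lt_dvd h1 (by rw [abs_lt]; constructor <;> omega)
      omega
    have h3 := TLEM_deriv (z ((j : ℤ) + (d : ℤ)) - z (j : ℤ)) (χ ((j : ℤ) + (d : ℤ)) - χ (j : ℤ)) hne
    have h4 : (fun e : ℝ => Real.log ‖w e ((j : ℤ) + (d : ℤ)) - w e (j : ℤ)‖) =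
        fun e : ℝ => Real.log ‖z ((j : ℤ) + (d : ℤ)) - z (j : ℤ) +
          e * (χ ((j : ℤ) + (d : ℤ)) - χ (j : ℤ))‖ := by
      funext e
      congr 2
      simp only [hw]
      ring
    rw [h4]
    exact h3
  -- the sum
  set F : ℤ → ℤ → ℂ := fun i j => if i ∈ C ∧ j ∉ C then 1 / (z i - z j) else 0 with hF
  have hF1 : ∀ i j, F (i + n) j = F i j := by
    intro i j
    simp only [hF, hC i, hz.pts.per]
  have hF2 : ∀ i j, F i (j + n) = F i j := by
    intro i j
    simp only [hF, hC j, hz.pts.per]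
  have hFC : FC n z C = ∑ j ∈ range n, ∑ d ∈ Ico 1 n, F (j : ℤ) ((j : ℤ) + (d : ℤ)) := by
    unfold FC
    rfl
  have hpt : ∀ i j : ℤ, (χ i - χ j) / (z i - z j) = τ * (F i j + F j i) := by
    intro i j
    simp only [hχ, hF]
    by_cases hi : i ∈ C
    · by_cases hj : j ∈ C
      · simp [hi, hj]
      · simp [hi, hj, div_eq_mul_inv]
    · by_cases hj : j ∈ C
      · simp only [hi, hj, if_false, if_true, not_true_eq_false, and_false, not_false_eq_true,
          and_true, zero_sub, zero_add]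
        rw [← neg_sub (z j) (z i), neg_div_neg_eq]
        simp [div_eq_mul_inv]
      · simp [hi, hj]
  have hsum : (∑ j ∈ range n, ∑ d ∈ Ico 1 n,
        ((χ ((j : ℤ) + (d : ℤ)) - χ (j : ℤ)) / (z ((j : ℤ) + (d : ℤ)) - z (j : ℤ))).re) =
      2 * (τ * FC n z C).re := by
    have h1 : (∑ j ∈ range n, ∑ d ∈ Ico 1 n,
        ((χ ((j : ℤ) + (d : ℤ)) - χ (j : ℤ)) / (z ((j : ℤ) + (d : ℤ)) - z (j : ℤ)))) =
        2 * (τ * FC n z C) := by
      simp only [hpt]
      simp only [← Finset.mul_sum, Finset.sum_add_distrib]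
      rw [sum_swap hF1 hF2, ← hFC]
      ring
    have h2 := congrArg Complex.re h1
    rw [Complex.re_sum] at h2
    simp only [Complex.re_sum] at h2
    rw [h2]
    simp
  rw [hsum] at hder
  have hslope := (hasDerivWithinAt_iff_tendsto_slope' (s := Set.Ioi (0 : ℝ)) (by simp)).1
    (hder.hasDerivWithinAt (s := Set.Ioi (0 : ℝ)))
  have hle : 2 * (τ * FC n z C).re ≤ 0 := by
    apply le_of_tendsto hslope
    filter_upwards [hmax, self_mem_nhdsWithin] with e he he0
    have he0' : 0 < e := he0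
    rw [slope_def_field]
    apply div_nonpos_of_nonpos_of_nonneg
    · linarith
    · linarith
  linarith

end Pool.Agent.EHP
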