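import Pool.Agent.EHP.Base

/-!
# Statements, part 1: optimality, coarse shape, ordering

Everything is about maximizers `z` (`Opt n z`) of `∏_{i ≠ j} |z_i - z_j|` under `|z_i - z_j| ≤ 2`.
A pair `i, j` is called tight if `‖z i - z j‖ = 2`.
-/

open Finset
open scoped Real ComplexConjugate

namespace Pool.Agent.EHP

/-- Translation lemma. If moving all points of `C` in the direction `τ` shortens all tight pairs
between `C` and its complement, then it does not increase the product to first order.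

Proof. `w_ε j = z j + ε τ` for `j ∈ C`, `w_ε j = z j` otherwise. For small `ε > 0` the family `w_ε`
satisfies `Pts` (finitely many conditions) and `‖w_ε i - w_ε j‖ ≤ 2`: pairs on the same side do not
change, for a tight pair `a ∈ C`, `b ∉ C`, `|z_a - z_b + ε τ|² = 4 + 2 ε Re (conj τ (z_a - z_b)) +
ε² |τ|² < 4`, the other pairs are at distance `< 2` (finitely many pairs modulo `n`). Now
`FL n w_ε` has the right derivative `2 Re (τ * FC n z C)` at `ε = 0` (`d/dε log |z_a - z_b + ε τ| =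
Re (τ / (z_a - z_b))`; each unordered pair occurs twice in `FL`, `sum_swap`). By `Opt.max` it is
`≤ 0`. -/
def Stmt_TLEM : Prop :=
  ∀ (n : ℕ) (z : ℤ → ℂ), Opt n z → ∀ C : Set ℤ, PerSet n C → ∀ τ : ℂ,
    (∀ a ∈ C, ∀ b ∉ C, ‖z a - z b‖ = 2 → (conj τ * (z a - z b)).re < 0) →
    (τ * FC n z C).re ≤ 0

/-- Every proper nonempty periodic set has a tight pair leaving it (the diameter graph is
connected).

Proof. Otherwise all `w_τ = z + τ 1_C` with `|τ|` small are admissible, and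
`exp (FL n w_τ - FL n z) = |P τ / P 0|²` with the polynomial
`P τ = ∏_{a ∈ C, b ∉ C mod n} (z_a - z_b + τ)` (`a, b` run over residues); `P 0 ≠ 0`. So `|P|` has a
local maximum at `0`; by the maximum principle (`Complex.eventually_eq_of_isLocalMax_norm`) `P` is
constant near `0`, hence constant as a polynomial; but it is monic of degree `|C| |C^c| ≥ 1`. -/
def Stmt_CUT : Prop :=
  ∀ (n : ℕ) (z : ℤ → ℂ), 1 ≤ n → Opt n z → ∀ C : Set ℤ, PerSet n C → (∃ j, j ∈ C) → (∃ j, j ∉ C) →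
    ∃ a ∈ C, ∃ b ∉ C, ‖z a - z b‖ = 2

/-- Second variation. Let the velocities `D` and accelerations `A` rotate all tight pairs rigidly.
Then the second variation is nonpositive.

Proof. `w_t = z + t D + (t²/2) A` for small real `t`. For a tight pair
`|w_t i - w_t j|² = 4 |1 + i ξ t - ξ² t² / 2|² = 4 (1 + ξ⁴ t⁴ / 4)`; the other pairs stay `< 2`. With
`M` large (finitely many tight pairs modulo `n`) `w_t / (1 + M t⁴)` is admissible for small `t`, so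
`FL n w_t - n (n - 1) log (1 + M t⁴) ≤ FL n z`. Adding the inequalities for `t` and `-t`:
`FL n w_t + FL n w_{-t} - 2 FL n z ≤ 2 n² M t⁴`. For each pair
`log |1 + t x + t² y / 2| + log |1 - t x + t² y / 2| = t² Re (y - x²) + O (t⁴)` with
`x = (D_i - D_j)/(z_i - z_j)`, `y = (A_i - A_j)/(z_i - z_j)`
(the product is `1 + t² (y - x²) + t⁴ y² / 4`). Divide by `t²` and let `t → 0`. -/
def Stmt_SV : Prop :=
  ∀ (n : ℕ) (z : ℤ → ℂ), Opt n z → ∀ D A : ℤ → ℂ, (∀ j, D (j + n) = D j) → (∀ j, A (j + n) = A j) →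
    (∀ i j, ‖z i - z j‖ = 2 → ∃ ξ : ℝ, D i - D j = ξ * Complex.I * (z i - z j) ∧
      A i - A j = -(ξ : ℂ) ^ 2 * (z i - z j)) →
    (∑ j ∈ range n, ∑ d ∈ Ico 1 n,
      ((A ((j : ℤ) + (d : ℤ)) - A (j : ℤ)) / (z ((j : ℤ) + (d : ℤ)) - z (j : ℤ)) -
        ((D ((j : ℤ) + (d : ℤ)) - D (j : ℤ)) / (z ((j : ℤ) + (d : ℤ)) - z (j : ℤ))) ^ 2)).re ≤ 0

open Classical in
/-- Internal forces cancel: `FC` is the sum of the forces on the points of `C`.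
Proof: the terms with `a ∈ C` and `a + d ∈ C` cancel by `sum_swap`, applied to
`F i j = if i ∈ C ∧ j ∈ C then 1 / (z i - z j) else 0`. -/
def Stmt_FCSUM : Prop :=
  ∀ (n : ℕ) (z : ℤ → ℂ), (∀ j, z (j + n) = z j) → ∀ C : Set ℤ, PerSet n C →
    FC n z C = ∑ a ∈ range n, if (a : ℤ) ∈ C then fb n z (a : ℤ) else 0

/-- Invariance of `Opt` under rigid motions and relabelling. Proof: `e` induces a bijection of the
residues modulo `n`; `FL` is a sum over the ordered pairs of different residues. For the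
maximality apply `Opt.max` of `z` to the family `w (e' j) / u + t`, where `e'` is an inverse of `e`
modulo `n` (define `e'` on residues by choice). -/
def Stmt_OPTINV : Prop :=
  ∀ (n : ℕ) (z : ℤ → ℂ), 1 ≤ n → Opt n z → ∀ (e : ℤ → ℤ) (u t : ℂ),
    (∀ i j, (n : ℤ) ∣ e i - e j ↔ (n : ℤ) ∣ i - j) → ‖u‖ = 1 →
    Opt n (fun j => u * (z (e j) - t))

/-- From the problem to periodic families. Proof: `w j = z (j mod n)`. `PD z > 0` because the roots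
of unity are a competitor with positive product, so `z` is injective; `log PD z = FL n w`
(reindex the pairs `i ≠ j` by `(j, d)`), and a competitor `w'` gives the competitor
`fun j : Fin n => w' j`. -/
def Stmt_TRANS : Prop :=
  ∀ (n : ℕ) (z : Fin n → ℂ), 2 ≤ n → IsMaximizer z →
    ∃ w : ℤ → ℂ, Opt n w ∧ ∀ j : Fin n, w ((j : ℕ) : ℤ) = z j

/-- The regular `n`-gon is a competitor: `n log n ≤ FL n z`. Proof: `ω_j = exp (2 π i j / n)`,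
`|ω_i - ω_j| ≤ 2`, and `∏_{d = 1}^{n-1} (1 - ω_d) = n` (`IsPrimitiveRoot.prod_one_sub_pow_eq_order`
or similar), so `FL n ω = n log n`. -/
def Stmt_REGP : Prop :=
  ∀ (n : ℕ) (z : ℤ → ℂ), 1 ≤ n → Opt n z → n * Real.log n ≤ FL n z

/-! ### The coarse shape -/

/-- One dimensional inequality.

Proof. `c_j = cos t_j`, `t_j ∈ [0, π]`. `|2 (c_i - c_j)| = |1 - e^{i (t_i - t_j)}| |1 - e^{i (t_i + t_j)}|`
and both factors are nonzero for `c_i ≠ c_j`. With `q = 1 - 1/n`: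
`|1 - q e^{iα}|² = (1 - q)² + q |1 - e^{iα}|²`, so `log |1 - e^{iα}| ≤ log |1 - q e^{iα}| - (log q)/2`,
and `log |1 - q e^{iα}| = - ∑_{k ≥ 1} q^k cos (k α) / k`. Since
`∑_{i ≠ j} (cos k (t_i - t_j) + cos k (t_i + t_j)) = 2 (C_k² - ∑_i cos² k t_i)`, `C_k = ∑_i cos k t_i`,
the sum is at most `- n (n-1) log q - ∑_k (2 q^k / k) C_k² + ∑_k (2 q^k / k) n
≤ n - 2 q C_1² + 2 n log n` (`- log q ≤ 1/(n-1)`, `∑ q^k / k = - log (1 - q) = log n`). -/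
def Stmt_LINE : Prop :=
  ∀ (n : ℕ) (x : ℤ → ℝ), 2 ≤ n → (∀ j, x (j + n) = x j) →
    (∀ i j, x i = x j → (n : ℤ) ∣ i - j) → (∀ j, |x j| ≤ 1) →
    ∑ j ∈ range n, ∑ d ∈ Ico 1 n, Real.log |2 * (x ((j : ℤ) + (d : ℤ)) - x (j : ℤ))| ≤
      n + 2 * n * Real.log n - 2 * (1 - 1 / (n : ℝ)) * (∑ j ∈ range n, x (j : ℤ)) ^ 2

/-- The mean of `log |2 ⟨v, e_θ⟩|` is `log |v|`. Proof: `2 Re (v e^{-iθ}) = v e^{-iθ} + conj v e^{iθ}`,
whose modulus is `|v| |e^{2iθ} + v / conj v|`; use `circleAverage_log_norm_sub_const_eq_posLog`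
(Mathlib) for a constant of modulus one, and the substitution `2 θ`. -/
def Stmt_CAVG : Prop :=
  ∀ v : ℂ, v ≠ 0 →
    IntervalIntegrable (fun θ : ℝ => Real.log |2 * (v * Complex.exp (-(θ : ℂ) * Complex.I)).re|)
      MeasureTheory.volume 0 (2 * π) ∧
    ∫ θ in (0 : ℝ)..(2 * π), Real.log |2 * (v * Complex.exp (-(θ : ℂ) * Complex.I)).re| =
      2 * π * Real.log ‖v‖

/-- Coarse bound: a competitor at least as good as the regular polygon, with centroid `0`, lies in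
the disc of radius `1 + δ`.

Proof. For an angle `θ` let `x_j = Re (z_j e^{-iθ})` and `m(θ) = (max_j x_j + min_j x_j) / 2`. Then
`|x_j - m| ≤ 1`. Apart from finitely many `θ` the `x_j` are different, so `LINE` for `x_j - m` and
`∑ x_j = 0` give `∑_{j,d} log |2 (x_{j+d} - x_j)| ≤ n + 2 n log n - 2 (1 - 1/n) n² m²`. Integrate over
`θ ∈ [0, 2π]` (`CAVG`; `m` is continuous):
`2 π n log n ≤ 2 π FL ≤ 2 π (n + 2 n log n) - 2 n (n-1) ∫ m²`, so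
`∫ m² ≤ 2 π (1 + log n) / (2 (n-1)) → 0`. If `|z_j| > 1 + δ` for some `j` with argument `θ₀`, then
`x_j = |z_j| cos (θ - θ₀) ≥ 1 + δ/2` for `|θ - θ₀| ≤ η(δ)`, and `m ≥ max_j x_j - 1 ≥ δ/2` there (as
`(max - min)/2 ≤ 1`), so `∫ m² ≥ 2 η (δ/2)²` (use periodicity of `m`, or choose `θ₀ ∈ [0, 2π)` and
half of the interval). -/
def Stmt_COARSE : Prop :=
  ∀ δ : ℝ, 0 < δ → ∃ n₀ : ℕ, ∀ n ≥ n₀, ∀ z : ℤ → ℂ, Pts n z → (∀ i j, ‖z i - z j‖ ≤ 2) →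
    ∑ j ∈ range n, z (j : ℤ) = 0 → n * Real.log n ≤ FL n z → ∀ j, ‖z j‖ ≤ 1 + δ

/-- Lower bound of the moduli and small slopes.

Proof. Every `i` has a tight partner `l` (`CUT` with `C = i + nℤ`), so
`‖z_i‖ ≥ 2 - (1 + δ) = 1 - δ` and `‖z_i + z_l‖² = 2 ‖z_i‖² + 2 ‖z_l‖² - 4 ≤ 12 δ` for `δ ≤ 1`. For every
`w = z_j`, `‖w - z_l‖ ≤ 2 = ‖z_i - z_l‖` gives `2 Re ((z_i - w) conj (z_i - z_l)) ≥ ‖z_i - w‖²`, hence,
as `‖(z_i - z_l) - 2 z_i‖ ≤ 4 √δ`, `Re ((z_i - w) conj z_i) ≥ - 2 √δ ‖z_i - w‖`. Let `z_i, z_j` have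
moduli `r_i ≤ r_j` and `γ = arg (z_i / z_j)`: `r_i (r_i - r_j cos γ) ≥ -2 √δ ‖z_i - z_j‖` and
`‖z_i - z_j‖ ≤ |r_i - r_j| + r_j |γ|`; so `|r_i - r_j| (1 - 3 √δ) ≤ γ² + 3 √δ |γ|`, which gives
`|r_i - r_j| ≤ C √δ |γ|` for `|γ| ≤ √δ`; for `|γ| ≥ √δ` use `|r_i - r_j| ≤ 2 δ ≤ 2 √δ |γ|`. In
particular `γ = 0` would give `z_i = z_j`. -/
def Stmt_SLOPE : Prop :=
  ∀ ε : ℝ, 0 < ε → ∃ δ : ℝ, 0 < δ ∧ ∀ (n : ℕ) (z : ℤ → ℂ), 2 ≤ n → Opt n z → (∀ j, ‖z j‖ ≤ 1 + δ) →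
    (∀ j, 1 - ε ≤ ‖z j‖) ∧ ∀ i j, ¬ (n : ℤ) ∣ i - j → (z i / z j).arg ≠ 0 ∧
      |Real.log ‖z i‖ - Real.log ‖z j‖| ≤ ε * |(z i / z j).arg|

/-- Ordering by angles. Proof: sort the arguments (in `(-π, π]`) of `z_0, …, z_{n-1}` (they are
different), extend to `ℤ` by `θ_{j+n} = θ_j + 2π`, and rotate by the mean `-β` of
`θ_j - 2 π j / n`. -/
def Stmt_SORT : Prop :=
  ∀ (n : ℕ) (z : ℤ → ℂ), 1 ≤ n → Pts n z → (∀ j, z j ≠ 0) →
    (∀ i j, ¬ (n : ℤ) ∣ i - j → (z i / z j).arg ≠ 0) →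
    ∃ (c : Cfg n) (β : ℝ) (e : ℤ → ℤ), (∀ i j, (n : ℤ) ∣ e i - e j ↔ (n : ℤ) ∣ i - j) ∧
      (∀ j, c.z j = Complex.exp (β * Complex.I) * z (e j)) ∧ ∑ j ∈ range n, c.φ (j : ℤ) = 0

/-- `D(a; X) ≥ (X - a)² / 2`, in particular `D ≥ 0`. Proof: in `X` the function vanishes with its
derivative at `X = a`, and its second derivative is `1 / sin² X ≥ 1`. -/
def Stmt_DDLB : Prop :=
  ∀ a X : ℝ, 0 < a → a < π → 0 < X → X < π → (X - a) ^ 2 / 2 ≤ DD a X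

/-- The energy identity. Proof: by `Cfg.dist_sq`, for `X = X_{ij} ∈ (0, π)`,
`log |z_i - z_j| = log (2 sin a) + (ρ_i + ρ_j)/2 - D(a; X) + (X - a) cot a +
(1/2) log (1 + sinh² Y / sin² X)`, `a = π d / n`. Sum over the pairs `(j + d, j)`:
`∑_{d=1}^{n-1} log (2 sin (π d / n)) = log n`; `∑_j (X_{j+d,j} - π d/n) = (1/2) ∑_j (φ_{j+d} - φ_j) = 0`
for each `d`; `∑_{j,d} (ρ_{j+d} + ρ_j)/2 = (n-1) ∑ ρ` (`sum_fst`, `sum_snd`). -/
def Stmt_IDEN : Prop :=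
  ∀ (n : ℕ) (c : Cfg n), 1 ≤ n →
    FL n c.z = n * Real.log n + (n - 1) * ∑ j ∈ range n, c.ρ (j : ℤ) - Eφ c + TT c

/-- The angles are uniformly close to those of the regular polygon.

Proof. `IDEN` and `REGP`: `Eφ ≤ (n-1) ∑ ρ + TT`. For the pair `(j+d, j)` with
`X = X_{j+d,j} ∈ (0, π)`, `|Y| ≤ δ X`, and, as `ρ_j = ρ_{j+n}`, `|Y| ≤ δ (π - X)`; so
`|Y| ≤ δ (π/2) sin X` and `sinh² Y ≤ 4 δ² sin² X`; `TT ≤ 2 δ² n²`. By `DDLB`,
`Eφ ≥ (1/8) ∑_{j,d} (φ_{j+d} - φ_j)² = (n/4) ∑ φ²` (`∑ φ = 0`). So `∑ φ² ≤ 4 n (δ + 2 δ²)`. As `θ` is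
increasing, `φ_{j+m} ≥ φ_j - 2 π m / n` for `m ≥ 0`. If `φ_j ≥ ε` then `φ_{j+m} ≥ ε/2` for
`0 ≤ m ≤ ε n / (4π)`, so `∑ φ² ≥ (ε²/4) ε n / (4π)` (take `ε ≤ 1`, so that these are less than `n`
consecutive indices); a contradiction for small `δ`. Similarly if `φ_j ≤ -ε`, with `m ≤ 0`. -/
def Stmt_PHI : Prop :=
  ∀ ε : ℝ, 0 < ε → ∃ δ : ℝ, 0 < δ ∧ ∀ (n : ℕ) (c : Cfg n), 1 ≤ n → Opt n c.z →
    (∀ j, |c.ρ j| ≤ δ) → (∀ i j, |c.ρ i - c.ρ j| ≤ δ * |c.θ i - c.θ j|) →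
    ∑ j ∈ range n, c.φ (j : ℤ) = 0 → ∀ j, |c.φ j| ≤ ε

/-- Every maximizer is, after a rigid motion and relabelling, a nearly regular configuration.

Proof. `TRANS`; translate the centroid to `0` (`OPTINV`); `REGP`, `COARSE`: `‖z_j‖ ≤ 1 + δ`;
`SLOPE`; `SORT`; `OPTINV` again for `c.z` (the centroid stays `0`). `|ρ_j| = |log ‖c.z j‖|` is
small. For `i ≢ j`: `arg (c.z i / c.z j)` is the representative of `θ_i - θ_j` modulo `2π` of least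
absolute value, so `|ρ_i - ρ_j| ≤ ε |arg| ≤ ε |θ_i - θ_j|`; for `i ≡ j`, `ρ_i = ρ_j`. Then `PHI`. The
relabelling: `e` restricted to residues is a bijection of `Fin n`. -/
def Stmt_NICE : Prop :=
  ∀ ε : ℝ, 0 < ε → ∃ n₀ : ℕ, ∀ n ≥ n₀, ∀ z : Fin n → ℂ, IsMaximizer z →
    ∃ c : Cfg n, Nice n ε c ∧ ∃ (e : Fin n ≃ Fin n) (u t : ℂ), ‖u‖ = 1 ∧
      ∀ j : Fin n, c.z ((j : ℕ) : ℤ) = u * (z (e j) - t)

/-! ### Convexity and the perimeter -/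

/-- Positive orientation of all triples: the points are in convex position in their order.

Proof. Put `[ab] = Im (conj z_a z_b) = r_a r_b sin (θ_b - θ_a)`. The number is `[ij] + [jk] + [ki]`. The
three gaps `α = θ_j - θ_i`, `β = θ_k - θ_j`, `γ = θ_i + 2π - θ_k` are positive with sum `2π`. If all are
`≤ π`, at most one is `π`, and the sum is positive. Otherwise one is `> π`; by cyclic symmetry
(replace `(i, j, k)` by `(j, k, i + n)`, …) let it be `γ`, so `α + β < π`. Suppose the sum is `≤ 0`. Then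
`z_j = a z_i + b z_k` with `a = [jk]/[ik] > 0`, `b = [ij]/[ik] > 0`, `a + b ≤ 1`. `j` has a tight
partner `l` (`CUT`); let `U = z_j - z_l`. `|z_i - z_l| ≤ 2 = |z_j - z_l|` gives
`2 Re ((z_j - z_i) conj U) ≥ |z_j - z_i|² > 0`, and the same for `z_k`; and
`Re (z_j conj U) = |z_j|² - Re (z_j conj z_l) > 0` as `2 Re (z_j conj z_l) = |z_j|² + |z_l|² - 4 < 0`.
So `Re (z_j conj U) = a Re (z_i conj U) + b Re (z_k conj U) < (a + b) Re (z_j conj U) ≤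
Re (z_j conj U)`, a contradiction. -/
def Stmt_ORIENT : Prop :=
  ∀ (n : ℕ) (ε : ℝ) (c : Cfg n), 3 ≤ n → ε ≤ 1 / 10 → Nice n ε c →
    ∀ i j k : ℤ, i < j → j < k → k < i + n → 0 < (conj (c.z j - c.z i) * (c.z k - c.z i)).im

/-- A closed convex polygon with diameter `≤ 2` has perimeter `≤ 2π`.

Proof. For an angle `θ` let `A` be the least `j` with `ψ_j ≥ θ - π/2` and `B ≥ A` the least with
`ψ_j ≥ θ + π/2`; then `A + n` is the least with `ψ_j ≥ θ + 3π/2`. `cos (ψ_j - θ) ≥ 0` on `[A, B)` and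
`≤ 0` on `[B, A + n)`. So the sum over a period of `ℓ_j |cos (ψ_j - θ)|` is
`Re (e^{-iθ} ∑_{[A,B)} ℓ_j e^{iψ_j}) - Re (e^{-iθ} ∑_{[B,A+n)} …) ≤ 4`. Integrate over
`θ ∈ [0, 2π]`: `∫ |cos (ψ - θ)| dθ = 4`, so `4 ∑ ℓ_j ≤ 8 π`. -/
def Stmt_PERIM : Prop :=
  ∀ (n : ℕ) (ℓ ψ : ℤ → ℝ), 1 ≤ n → (∀ j, 0 ≤ ℓ j) → (∀ j, ℓ (j + n) = ℓ j) → Monotone ψ →
    (∀ j, ψ (j + n) = ψ j + 2 * π) →
    (∀ (a : ℤ) (m : ℕ), ‖∑ i ∈ range m, (ℓ (a + i) : ℂ) * Complex.exp (ψ (a + i) * Complex.I)‖ ≤ 2) →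
    ∑ j ∈ range n, ℓ (j : ℤ) ≤ 2 * π

/-- The perimeter of a nice configuration is at most `2π`.

Proof. `ℓ_j = ‖z_{j+1} - z_j‖`, `ψ_j = θ_j + arg (e^{Δ_j + i g_j} - 1)`, where the second term is in
`(0, π)` (`0 < g_j < π`: `g_j ≤ 2π/n + 2ε < π`). `ψ_{j+n} = ψ_j + 2π`. Monotone: `sin (ψ_{j+1} - ψ_j) > 0` by
`ORIENT` for `(j, j+1, j+2)`, and `ψ_{j+1} - ψ_j ∈ (g_j - π, g_j + π) ⊆ (-π, 2π)`, so it is in `(0, π)`.
The partial sums are differences of points. Apply `PERIM`. -/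
def Stmt_PER2 : Prop :=
  ∀ (n : ℕ) (ε : ℝ) (c : Cfg n), 4 ≤ n → ε ≤ 1 / 10 → Nice n ε c →
    ∑ j ∈ range n, ‖c.z ((j : ℤ) + 1) - c.z (j : ℤ)‖ ≤ 2 * π

end Pool.Agent.EHP
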