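import Pool.Agent.EHP.Stmts1

/-!
# Statements, part 2: a priori bounds (energy) and regularity (forces)

Notation in the proofs: `ρm_j, φm_j` midpoint values, `a_d = π d / n`, `X = X_{j+d,j} ∈ (0, π)`,
`Y = Y_{j+d,j}`, `x = X - a_d = (φ_{j+d} - φ_j) / 2`, so `|x| ≤ ε` in a nice configuration. The gaps
satisfy `g_j = 2π/n + φ_{j+1} - φ_j ≤ 2π/n + 2ε`, and `x = (π/n) (y_j + … + y_{j+d-1})`.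
Cauchy-Schwarz: `Y² ≤ (1/2) X S_{j,d}` with `S_{j,d} = ∑_{l=j}^{j+d-1} Δ_l² / g_l`, and
`∑_{j ∈ range n} S_{j,d} = d S` for `d ≤ n`.
-/

open Finset
open scoped Real ComplexConjugate

namespace Pool.Agent.EHP

/-- The part of `φ` without the first Fourier mode. -/
noncomputable def ψψ {n : ℕ} (c : Cfg n) (j : ℤ) : ℝ :=
  c.φ j - 2 * (dr n c.φ 1 * Complex.exp ((2 * π * j / n : ℝ) * Complex.I)).re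

/-- The part of `2 TT` with index distance `d`. -/
noncomputable def Td {n : ℕ} (c : Cfg n) (d : ℕ) : ℝ :=
  ∑ j ∈ range n, Real.log (1 + Real.sinh (c.Y ((j : ℤ) + (d : ℤ)) (j : ℤ)) ^ 2 /
    Real.sin (c.X ((j : ℤ) + (d : ℤ)) (j : ℤ)) ^ 2)

/-- The part of `Eφ` with index distance `d`. -/
noncomputable def Ed {n : ℕ} (c : Cfg n) (d : ℕ) : ℝ :=
  ∑ j ∈ range n, DD (π * d / n) (c.X ((j : ℤ) + (d : ℤ)) (j : ℤ))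

/-! ### Energy -/

/-- Upper bound for the weighted mean of `ρ` from the perimeter.

Proof. `‖z_{j+1} - z_j‖ = e^{ρm_j} (4 sin² (g/2) + 4 sinh² (Δ/2))^{1/2} ≥
e^{ρm} g (1 - g²/12 + s²)^{1/2}` (`dist_sq`; `4 sin² (g/2) ≥ g² - g⁴/12`, `sinh² y ≥ y²`). As
`√(1+t) ≥ 1 + t/2 - t²/2` for `|t| ≤ 1`, and `|s| ≤ ε`, the root is
`≥ 1 + (s²/2)(1 - ε²) - (g²/24)(1 + g²/12)` (use `(u - v)² ≤ u² + v²` for `u, v ≥ 0`). And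
`e^{ρm} ≥ 1 + ρm + (ρm²/2)(1 - |ρm|)`, `|e^{ρm} - 1| ≤ 2ε`. So
`‖z_{j+1} - z_j‖ ≥ g + g ρm + ((1-κ)/2) (g ρm² + Δ²/g) - ((1+κ)/24) g³`. Sum up, with `∑ g = 2π`
(`sum_g`) and `PER2`. -/
def Stmt_LEN : Prop :=
  ∀ κ : ℝ, 0 < κ → ∃ ε : ℝ, 0 < ε ∧ ∃ n₀ : ℕ, ∀ n ≥ n₀, ∀ c : Cfg n, Nice n ε c →
    ∑ j ∈ range n, c.g (j : ℤ) * c.ρm (j : ℤ) ≤
      (1 + κ) / 24 * ∑ j ∈ range n, c.g (j : ℤ) ^ 3 -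
      (1 - κ) / 2 * (∑ j ∈ range n, c.g (j : ℤ) * c.ρm (j : ℤ) ^ 2 + c.S)

/-- Summation by parts. Proof: `g_j = 2π/n + φ_{j+1} - φ_j`, and
`(φ_{j+1} - φ_j) ρm_j + φm_j Δ_j = φ_{j+1} ρ_{j+1} - φ_j ρ_j` (`sum_shift`). -/
def Stmt_BYP : Prop :=
  ∀ (n : ℕ) (c : Cfg n), 1 ≤ n → 2 * π / n * ∑ j ∈ range n, c.ρ (j : ℤ) =
    ∑ j ∈ range n, c.g (j : ℤ) * c.ρm (j : ℤ) + ∑ j ∈ range n, c.φm (j : ℤ) * c.Δ (j : ℤ)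

/-- Large gaps cost energy.

Proof. For a pair `(i + d, i)`, `1 ≤ d`, put `B = {l ∈ [i, i+d) | y_l ≥ 2 d}`. Claim:
`D(a_d; X) ≥ (1/(10 d)) ∑_{l ∈ B} y_l`. If `B` is empty this is `DDLB`. Otherwise
`t := x / a_d = (1/d) ∑_{l ∈ [i,i+d)} y_l ≥ (1/d) (∑_B y_l - d) ≥ (1/(2d)) ∑_B y_l ≥ 1` (`y > -1`), and
`2 d ≤ y_l ≤ n ε / π` so `a_d ≤ ε / 2`; `sin (a + x) / sin a ≤ 1 + t` (as `sin u / u` decreases) and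
`x cot a ≥ 0.95 t`, so `D ≥ 0.95 t - log (1 + t) ≥ 0.2 t`. Sum over `i ∈ range n`, `d ∈ Ico 1 n`: for
each `l` and `d ≤ y_l / 2` there are `d` values of `i` modulo `n` with `l ∈ [i, i+d)`, so
`Eφ ≥ ∑_{y_l ≥ 2} ∑_{d ≤ y_l/2} d y_l / (10 d) ≥ ∑_{y_l ≥ 2} y_l² / 40` (`⌊y/2⌋ ≥ y/4`). -/
def Stmt_BIGGAP : Prop :=
  ∃ ε : ℝ, 0 < ε ∧ ∃ n₀ : ℕ, ∀ n ≥ n₀, ∀ c : Cfg n, Nice n ε c →
    ∑ j ∈ range n, (if 2 ≤ c.y (j : ℤ) then c.y (j : ℤ) ^ 2 else 0) ≤ 40 * Eφ c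

/-- The cubic term. Proof: `n² ∑ g³ = (8π³/n) ∑ (1+y)³ ≤ (8π³/n) (27 n + (27/8) ∑_{y ≥ 2} y³)`, and
`y ≤ n ε / π`; use `BIGGAP`. -/
def Stmt_CUBE : Prop :=
  ∃ C : ℝ, ∀ κ : ℝ, 0 < κ → ∃ ε : ℝ, 0 < ε ∧ ∃ n₀ : ℕ, ∀ n ≥ n₀, ∀ c : Cfg n, Nice n ε c →
    (n : ℝ) ^ 2 * ∑ j ∈ range n, c.g (j : ℤ) ^ 3 ≤ C + κ * Eφ c

/-- Radial gain of the near pairs, for one index distance `d`.

Proof. Let `η = η(κ) > 0` be small and `a = π d / n ≤ 0.57`. For a pair with `X < (1 - η) a`: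
`D(a; X) ≥ (X - a)²/(2 a²) · c` — precisely, `D(a; X) = ∫_X^a (t - X) / sin² t dt ≥
(a - X)² / (2 a²) ≥ η²/2` (`sin t ≤ t ≤ a`), while `|Y| ≤ ε X`, `log (1 + sinh² Y / sin² X) ≤ 4 ε²`,
which is `≤ κ D` if `ε` is small. For the other pairs `log (1 + u) ≤ u`, `sinh² Y ≤ (1+κ/4) Y²`,
`Y² ≤ (1/2) X S_{j,d}`, and `X / sin² X ≤ (1 + κ/4) a / sin² a` (the function `t / sin² t` decreases on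
`(0, 1.16]`; `(1-η) a ≤ X ≤ a + ε`, compare with the value at `(1-η) a`). Summing over `j`:
`(1+κ) (1/2) (a / sin² a) d S = (1+κ) (n / 2π) (a / sin a)² S`, and `(a / sin a)² ≤ (0.57 / sin 0.57)²
≤ 1.1158`. -/
def Stmt_TNEAR : Prop :=
  ∀ κ : ℝ, 0 < κ → ∃ ε : ℝ, 0 < ε ∧ ∃ n₀ : ℕ, ∀ n ≥ n₀, ∀ c : Cfg n, Nice n ε c →
    ∀ d : ℕ, 1 ≤ d → π * d ≤ 0.57 * n →
      Td c d ≤ κ * Ed c d + (1 + κ) * 1.1158 * (n / (2 * π)) * c.S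

/-- Radial gain of the far pairs. Proof: `|X - a| ≤ ε`, `sin a ≥ sin 0.57`, so
`sin² X ≥ (1 - κ/4) sin² a`; `sinh² Y ≤ (1 + κ/4) Y²`; `log (1+u) ≤ u`; and
`∑_j Y² = (1/4) ∑_j (ρ_{j+d} - ρ_j)² ≤ ∑ ρ²`. -/
def Stmt_TFAR : Prop :=
  ∀ κ : ℝ, 0 < κ → ∃ ε : ℝ, 0 < ε ∧ ∃ n₀ : ℕ, ∀ n ≥ n₀, ∀ c : Cfg n, Nice n ε c →
    ∀ d : ℕ, 1 ≤ d → d < n → 0.57 * n < π * d → 0.57 * n < π * (n - d) →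
      Td c d ≤ (1 + κ) / Real.sin (π * d / n) ^ 2 * ∑ j ∈ range n, c.ρ (j : ℤ) ^ 2

/-- Upper bound of the radial gain. Proof: `TT = (1/2) ∑_{d ∈ Ico 1 n} Td d`, `Eφ = ∑_d Ed d`,
`Td (n - d) = Td d`, `Ed (n - d) = Ed d` (the pair `(j+d, j)` and the pair `(j+n, j+d)`). Near `d`
(`π d ≤ 0.57 n` or `π (n - d) ≤ 0.57 n`): `TNEAR`, and `0.57 * 1.1158 / π ≤ 0.20246`. Far `d`:
`TFAR` and `∑_{far} 1 / sin² (π d/n) ≤ (n/π) 2 cot 0.57 + 2 / sin² 0.57` (the function `1 / sin²` is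
convex, or: decreasing up to `π/2` and increasing afterwards; its integral is `-cot`), and
`cot 0.57 / π ≤ 0.49662`. -/
def Stmt_TTUB : Prop :=
  ∀ κ : ℝ, 0 < κ → ∃ ε : ℝ, 0 < ε ∧ ∃ n₀ : ℕ, ∀ n ≥ n₀, ∀ c : Cfg n, Nice n ε c →
    TT c ≤ κ * Eφ c + (1 + κ) * (n : ℝ) ^ 2 *
      (0.2025 * (c.S / (2 * π)) + 0.4967 * mn n (fun j => c.ρ j ^ 2))

/-- Comparison of the angular mean and the mean of `ρ²`.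

Proof. `∑ g ρm² = (2π/n) ∑ ρm² + ∑ (φ_{j+1} - φ_j) ρm_j²`; `∑ ρm² = ∑ ρ² - (1/4) ∑ Δ²`;
`∑ Δ² ≤ (max g) S`. The second sum is `- ∑ φ_{j+1} (ρm_{j+1}² - ρm_j²)`, of absolute value
`≤ ε ∑ (1/2) (|Δ_j| + |Δ_{j+1}|) (|ρm_j| + |ρm_{j+1}|) ≤ 2 ε (∑ |Δ_j| |ρm_j| + ∑ Δ_j²)` (as
`|ρm_{j+1} - ρm_j| ≤ (|Δ_j| + |Δ_{j+1}|)/2`; constants are not important), and
`∑ |Δ| |ρm| ≤ (∑ g ρm²)^{1/2} S^{1/2} ≤ ∑ g ρm² + S`. -/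
def Stmt_GRHO : Prop :=
  ∀ κ : ℝ, 0 < κ → ∃ ε : ℝ, 0 < ε ∧ ∃ n₀ : ℕ, ∀ n ≥ n₀, ∀ c : Cfg n, Nice n ε c →
    (1 - κ) * (2 * π) * mn n (fun j => c.ρ j ^ 2) - κ * c.S ≤
      ∑ j ∈ range n, c.g (j : ℤ) * c.ρm (j : ℤ) ^ 2

/-- The cross term; the first mode has the good sign because the centroid is `0`.

Proof. `h = 2π/n`. (1) Centroid: `z_j = e^{2πij/n} exp (ρ_j + i φ_j)` and `|e^w - 1 - w| ≤ |w|²` give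
`|e| ≤ mn ρ² + mn φ²` for `e := ρ̂_{-1} + i φ̂_{-1}` (`ρ̂_k = dr n c.ρ k`). (2) With
`φ¹_j = 2 Re (φ̂_1 e^{2πij/n})`: `∑_j (φ¹_j + φ¹_{j+1})/2 Δ_j = 2 n sin h Re (-i φ̂_1 conj ρ̂_1)`
(shift the sum; `∑_j φ¹m_j Δ_j = ∑_j ρ_j (φ¹_{j-1} - φ¹_{j+1})/2`), and `conj ρ̂_1 = ρ̂_{-1} = e - i conj φ̂_1`,
so it is `2 n sin h (-|φ̂_1|² + Re (-i φ̂_1 e)) ≤ 2 n h ε (mn ρ² + mn φ²)`. (3) The rest, `ψ = ψψ c`: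
`∑ ψm_j Δ_j ≤ (∑ g_j ψm_j²)^{1/2} S^{1/2}`, and
`∑ g ψm² = h ∑ ψm² + ∑ (ψ_{j+1} - ψ_j) ψm_j² + ∑ (φ¹_{j+1} - φ¹_j) ψm_j²`; the last sum is
`≤ 2 h ε ∑ ψm²` (`|φ¹_{j+1} - φ¹_j| ≤ 2 h |φ̂_1|`); the middle sum is `-(1/12) ∑ (ψ_{j+1} - ψ_j)³`
(`(b-a)(a+b)²/4 = (b³-a³)/3 - (b-a)³/12`), and `ψ_{j+1} - ψ_j ≥ -h (1 + 2ε)` as
`φ_{j+1} - φ_j = g_j - h > -h`; so it is `≤ (h (1+2ε)/12) ∑ (ψ_{j+1} - ψ_j)² =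
(h (1+2ε)/3) (∑ ψ² - ∑ ψm²)`. Total `∑ g ψm² ≤ h (1 + 4ε) ∑ ψ²`. -/
def Stmt_CROSS : Prop :=
  ∀ κ : ℝ, 0 < κ → ∃ ε : ℝ, 0 < ε ∧ ∃ n₀ : ℕ, ∀ n ≥ n₀, ∀ c : Cfg n, Nice n ε c →
    ∑ j ∈ range n, c.φm (j : ℤ) * c.Δ (j : ℤ) ≤
      (1 + κ) * Real.sqrt (c.S * (2 * π * mn n (fun j => ψψ c j ^ 2))) +
      κ * (mn n (fun j => c.ρ j ^ 2) + mn n (fun j => c.φ j ^ 2))

/-- Lower bound of `D` by a polynomial kernel. Proof: `D(a;X) = ∫_a^X (X - t) / sin² t dt` and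
`1 / sin² t ≥ K(t) := ∑_{r<M} cos^{2r} t` (geometric series), `|K'| ≤ ∑_{r<M} 2r ≤ M²`. (Or: compare the
second derivatives in `X`.) -/
def Stmt_KERN : Prop :=
  ∀ (M : ℕ) (a X : ℝ), 0 < a → a < π → 0 < X → X < π →
    (X - a) ^ 2 / 2 * (∑ r ∈ range M, Real.cos a ^ (2 * r) - M ^ 2 * |X - a|) ≤ DD a X

/-- Spectral gap of the kernel.

Proof. `cos^{2r} (π d/n) = 4^{-r} ∑_m C(2r, r+m) e^{2πimd/n}`; with `κ_m = ∑_{r<M} 4^{-r} C(2r, r+m)` and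
`n > 4 M` the left side is `2 n² (κ_0 mn f² - ∑_{|m|<M} κ_m |f̂_m|²)` (the terms `d = 0` vanish on the
left; `∑_{j,d} f_j f_{j+d} e^{2πimd/n} = n² |f̂_m|²`). `f̂_0 = 0`, `κ_m ≤ κ_2` for `|m| ≥ 2`
(`C(2r, r+m) ≤ C(2r, r+2)`), Bessel's inequality. `κ_0 - κ_1` is the mean over `d` of
`∑_{r<M} cos^{2r} a_d (1 - cos 2a_d) = 2 (1 - cos^{2M} a_d)`, i.e. `2 - 2 C(2M,M)/4^M`; `κ_0 - κ_2` is the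
mean of `8 cos² a (1 - cos^{2M} a)`, i.e. `4 - 8 C(2M+2,M+1)/4^{M+1}`. -/
def Stmt_SPEC : Prop :=
  ∀ (M n : ℕ) (f : ℤ → ℝ), 3 ≤ M → 4 * M + 4 < n → (∀ j, f (j + n) = f j) →
    ∑ j ∈ range n, f (j : ℤ) = 0 →
    2 * (n : ℝ) ^ 2 * ((2 - 2 * (Nat.centralBinom M : ℝ) / 4 ^ M) * (2 * ‖dr n f 1‖ ^ 2) +
      (4 - 8 * (Nat.centralBinom (M + 1) : ℝ) / 4 ^ (M + 1)) *
        (mn n (fun j => f j ^ 2) - 2 * ‖dr n f 1‖ ^ 2)) ≤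
    ∑ j ∈ range n, ∑ d ∈ Ico 1 n, (f ((j : ℤ) + (d : ℤ)) - f (j : ℤ)) ^ 2 *
      ∑ r ∈ range M, Real.cos (π * d / n) ^ (2 * r)

/-- Lower bound of the angular energy. Proof: `KERN` with `|X - a| ≤ ε`, `SPEC` for `f = φ`
(`mn ψ² = mn φ² - 2 |φ̂_1|²`), and `C(2M,M)/4^M → 0` (`(C(2M,M)/4^M)² (2M+1) ≤ 1` by induction). With
`(X - a)² = (φ_{j+d} - φ_j)²/4`: `Eφ ≥ (n²/4) ((B₁ - M² ε) 2|φ̂_1|² + (B₂ - M² ε) mn ψ²)`,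
`B₁ → 2`, `B₂ → 4`. First choose `M`, then `ε`. -/
def Stmt_ELOW : Prop :=
  ∀ κ : ℝ, 0 < κ → ∃ ε : ℝ, 0 < ε ∧ ∃ n₀ : ℕ, ∀ n ≥ n₀, ∀ c : Cfg n, Nice n ε c →
    (1 - κ) * (n : ℝ) ^ 2 * (mn n (fun j => ψψ c j ^ 2) + ‖dr n c.φ 1‖ ^ 2) ≤ Eφ c ∧
      mn n (fun j => c.φ j ^ 2) = mn n (fun j => ψψ c j ^ 2) + 2 * ‖dr n c.φ 1‖ ^ 2

/-- A priori bound.

Proof. Write `A = S/2π`, `B = mn ρ²`, `P = mn ψ²`, `q = |φ̂_1|²`, `mn φ² = P + 2q`, and `κ = 1/10000`. By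
`IDEN`, `REGP`: `0 ≤ (n-1) ∑ ρ - Eφ + TT`. By `BYP`, `(n-1) ∑ ρ = (1 - 1/n) (n²/2π) (∑ g ρm + ∑ φm Δ)`.
Insert `LEN`, `CUBE`, `CROSS`, `GRHO`, `TTUB`:
`0 ≤ C + κ Eφ + κ n² (B + P + 2q) + (1+κ) n² √(A P) - (1/2)(1-4κ) n² (A + B) - Eφ + κ Eφ +
(1+κ) n² (0.2025 A + 0.4967 B)` (`n ≥ 1/κ`). Use `Eφ = 0.01 Eφ + 0.99 Eφ` and
`0.99 Eφ ≥ 0.99 (1-κ) n² (P + q)` (`ELOW`). The coefficient of `-n² A` is `≥ 0.297`, of `-n² B`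
`≥ 0.0029`, of `-n² P` `≥ 0.989`, of `-n² q` `≥ 0.98`, and `4 * 0.297 * 0.989 > 1.0001²`, so
`0.009 Eφ + c n² (A + B + P + q) ≤ C`. -/
def Stmt_APRI : Prop :=
  ∃ (K ε : ℝ), 0 < ε ∧ ∃ n₀ : ℕ, ∀ n ≥ n₀, ∀ c : Cfg n, Nice n ε c →
    (n : ℝ) ^ 2 * (c.S + mn n (fun j => c.ρ j ^ 2) + mn n (fun j => c.φ j ^ 2)) ≤ K ∧ Eφ c ≤ K

/-! ### Forces -/

/-- The Calogero identity. Proof: expand the square; the terms with two different partners are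
`∑_{v, w, u different} c_{vw} c_{vu} = (1/3) ∑ (c_{vw} c_{vu} + c_{wu} c_{wv} + c_{uv} c_{uw})` and the
bracket is `1` for three different points (field identity). (It may be convenient to prove the
identity first for a finite set of points `Finset ℂ` or for `Fin n → ℂ` injective.) -/
def Stmt_CALO : Prop :=
  ∀ (n : ℕ) (z : ℤ → ℂ), 1 ≤ n → Pts n z →
    4 * ∑ j ∈ range n, HH n z (j : ℤ) ^ 2 =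
      ∑ j ∈ range n, ∑ d ∈ Ico 1 n, cc z (j : ℤ) ((j : ℤ) + (d : ℤ)) ^ 2 +
      (n : ℂ) * (n - 1) * (n - 2) / 3

/-- The force on a point is in the cone of its tight directions. Proof: `TLEM` with
`C = {j | n ∣ j - v}`, for which `FC n z C = fb n z v` (`FCSUM`, or directly), and
`τ = z_v (-(b + κ) ± i)`, `κ > 0`: for a tight partner `l` with `(z_v - z_l)/z_v = p (1 + i T)`, `|T| ≤ b`,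
`Re (conj τ (z_v - z_l)) = |z_v|² p Re ((-(b+κ) ∓ i) (1 + i T)) = |z_v|² p (-(b+κ) ± T) < 0`. So
`Re ((-(b+κ) ± i) z_v fb) ≤ 0`; let `κ → 0`. -/
def Stmt_CONE : Prop :=
  ∀ (n : ℕ) (z : ℤ → ℂ), 1 ≤ n → Opt n z → ∀ (v : ℤ) (b : ℝ), z v ≠ 0 → 0 ≤ b →
    (∀ l, ‖z v - z l‖ = 2 → 0 < ((z v - z l) / z v).re ∧
      |((z v - z l) / z v).im| ≤ b * ((z v - z l) / z v).re) →
    |(z v * fb n z v).im| ≤ b * (z v * fb n z v).re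

/-- Relation of force and `H`: `z/(z - w) = 1/2 + (1/2) (z + w)/(z - w)`. -/
def Stmt_FBH : Prop :=
  ∀ (n : ℕ) (z : ℤ → ℂ), 1 ≤ n → Pts n z → ∀ v, z v * fb n z v = ((n : ℂ) - 1) / 2 + HH n z v

/-- Tight directions are bounded by the slopes of the two adjacent sides.

Proof. `(z_v - z_l)/z_v = p (1 + i T)`; `p > 0` as `Re ((z_v - z_l) conj z_v) = |z_v|² - Re (z_l conj z_v) > 0`
(`|z_v - z_l| = 2`, moduli `< √2`). For `w = v + 1`: `|z_w - z_l| ≤ 2 = |z_v - z_l|` gives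
`Re ((z_v - z_w) conj (z_v - z_l)) > 0`, i.e. `Re ((1 - e^{Δ + i g}) (1 - i T)) > 0`, i.e.
`T < (e^{-Δ} - cos g)/ sin g` with `Δ = Δ_v`, `g = g_v`; and `e^{-Δ} ≤ 1 - Δ + Δ²`, `1 - cos g ≤ g²/2`,
`|Δ| ≤ ε g`, `g ≤ 2π/n + 2ε` give `T ≤ -s_v + g_v`. For `w = v - 1` in the same way
`T > -(e^{Δ_{v-1}} - cos g_{v-1})/ sin g_{v-1} ≥ -s_{v-1} - g_{v-1}`. -/
def Stmt_TAN : Prop :=
  ∃ ε : ℝ, 0 < ε ∧ ∃ n₀ : ℕ, ∀ n ≥ n₀, ∀ c : Cfg n, Nice n ε c → ∀ v l : ℤ, ‖c.z v - c.z l‖ = 2 →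
    0 < ((c.z v - c.z l) / c.z v).re ∧
    -(c.s (v - 1) + c.g (v - 1)) * ((c.z v - c.z l) / c.z v).re ≤ ((c.z v - c.z l) / c.z v).im ∧
    ((c.z v - c.z l) / c.z v).im ≤ (-c.s v + c.g v) * ((c.z v - c.z l) / c.z v).re

/-- The slopes are square summable with the right constant.

Proof. `APRI`, `BIGGAP`: `n² S ≤ K`, `Eφ ≤ K`, `∑_{y ≥ 2} y² ≤ 40 K`; so all `y_j ≤ C`,
`g_j ≤ C/n`, `∑ (1+y)² ≤ C n`. Call `j` tiny if `y_j < -1/2`: the pair `(j+1, j)` has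
`D(π/n; (π/n)(1+y)) ≥ 0.1` then (`D(a; X) ≥ D(a; a/2)` by convexity for `X ≤ a/2`, and
`D(a; a/2) = log (2 cos (a/2)) - (a/2) cot a ≥ 0.69 - 0.5 - small`), so there are at most `10 K` tiny
indices modulo `n`. For `j` not tiny `g_j ≥ π/n`, so `∑_{not tiny} s_j² ≤ (n/π) S ≤ C/n`. Every `v` has
a tight partner (`CUT`), so `TAN` gives `s_v ≤ s_{v-1} + g_{v-1} + g_v`. Let `j` be tiny, and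
`j' < j < j''` the nearest indices that are not tiny (at most `10 K` steps away, `n` large):
`s_j ≤ s_{j'} + 2 ∑_{j' ≤ l ≤ j} g_l ≤ |s_{j'}| + C/n` and `s_j ≥ s_{j''} - 2 ∑_{j ≤ l ≤ j''} g_l`; so
`s_j² ≤ C/n`, and there are at most `10 K` such `j`. -/
def Stmt_SSUM : Prop :=
  ∃ (K ε : ℝ), 0 < ε ∧ ∃ n₀ : ℕ, ∀ n ≥ n₀, ∀ c : Cfg n, Nice n ε c →
    ∑ j ∈ range n, c.s (j : ℤ) ^ 2 ≤ K / n ∧ ∑ j ∈ range n, c.g (j : ℤ) ^ 2 ≤ K / n ∧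
      ∀ j, |c.s j| + c.g j ≤ 1 / 10

/-- Real part of the squared complex cotangent. Proof: `c_{ij} = coth (Y + i X)`,
`-Re coth² (Y + iX) = -1 + (S - q + 2qS)/(S + q)²` with `S = sin² X`, `q = sinh² Y` (use
`coth² = 1 + 1/sinh²`, `|sinh (Y+iX)|² = S + q`, `Re sinh² (Y + iX) = q (1-S) - (1+q) S`). Subtract
`cot² X = 1/S - 1`: the difference is `(-3qS - q² + 2qS²)/(S (S+q)²) ≥ -3q/(S(S+q)) ≥ -3q/S²`. -/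
def Stmt_COTRE : Prop :=
  ∀ (n : ℕ) (c : Cfg n) (i j : ℤ), Real.sin (c.X i j) ≠ 0 →
    Real.cos (c.X i j) ^ 2 / Real.sin (c.X i j) ^ 2 -
      3 * Real.sinh (c.Y i j) ^ 2 / Real.sin (c.X i j) ^ 4 ≤ (-(cc c.z i j) ^ 2).re

/-- `D₂(a; X) = cot² X - cot² a + 2 (X - a) cot a / sin² a`. -/
noncomputable def D2 (a X : ℝ) : ℝ :=
  Real.cos X ^ 2 / Real.sin X ^ 2 - Real.cos a ^ 2 / Real.sin a ^ 2 +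
    2 * (X - a) * Real.cos a / Real.sin a ^ 3

/-- Lower bounds for `D₂`.

Proof. (1) `cot²` is convex on `(0, π)`: second derivative `2/sin⁴ + 4 cot²/sin² ≥ 2/sin⁴`.
(2) At `X = a/2`: `cot (a/2) = cot a + 1/sin a` gives `D₂ = (2 cos a + 1 - a cot a)/sin² a`, and
`(1/4)/sin² (a/2) = (1 + cos a)/(2 sin² a)`; `1.5 cos a + 0.5 ≥ 1.5708 cos a ≥ a cot a`
(`a/sin a ≤ π/2`). For `X < a/2` the derivative of `D₂ - (1/4)/sin² X` in `X` is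
`-(3/2) cot X / sin² X + 2 cot a / sin² a ≤ 0`, because `cot X ≥ cot (a/2) ≥ 2 cot a` and `sin X ≤ sin a`.
(3) `D₂ ≥ ∫_a^X (X-t) 2 t^{-4} dt = (1/3) a^{-2} ((1+y)^{-2} - 1 + 2y)` for `X = a (1+y)`, and
`(1+y)^{-2} - 1 + 2y = y² (3+2y)/(1+y)² ≥ (5/4) min (y², |y|)`. -/
def Stmt_D2LB : Prop :=
  (∀ a X : ℝ, 0 < a → a < π → 0 < X → X < π → 0 ≤ D2 a X) ∧
  (∀ a X : ℝ, 0 < a → a ≤ π / 2 → 0 < X → X ≤ a / 2 → 1 / (4 * Real.sin X ^ 2) ≤ D2 a X) ∧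
  (∀ a y : ℝ, 0 < a → a < π → -1 < y → a * (1 + y) < π →
    5 / (12 * a ^ 2) * min (y ^ 2) |y| ≤ D2 a (a * (1 + y)))

/-- The quadratic error term.

Proof. `n² S ≤ K` (`APRI`). By symmetry (`D₂(π-a; π-X) = D₂(a;X)`, the pairs `(j+d, j)` and
`(j+n, j+d)`) treat `d ≤ n/2`, `a = π d/n ≤ π/2`. If `X ≤ a/2`: `|Y| ≤ ε X`, `sinh² Y ≤ 4 ε² sin² X`, so the
term is `≤ 4 ε²/sin² X ≤ 16 ε² D₂` (`D2LB` (2)). If `X ≥ a/2`: `sinh² Y ≤ 1.1 Y² ≤ 0.55 X S_{j,d}`,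
`sin X ≥ 0.6 X` (`X ≤ π/2 + ε`), so the term is `≤ 5 S_{j,d}/X³ ≤ 40 (n/(π d))³ S_{j,d}`; summed over `j`
and `d`: `≤ 40 (n³/π³) ∑ d^{-2} S ≤ 3 K n`. -/
def Stmt_ETA : Prop :=
  ∃ (K ε : ℝ), 0 < ε ∧ ∃ n₀ : ℕ, ∀ n ≥ n₀, ∀ c : Cfg n, Nice n ε c →
    3 * ∑ j ∈ range n, ∑ d ∈ Ico 1 n, Real.sinh (c.Y ((j : ℤ) + (d : ℤ)) (j : ℤ)) ^ 2 /
        Real.sin (c.X ((j : ℤ) + (d : ℤ)) (j : ℤ)) ^ 4 ≤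
      1 / 2 * ∑ j ∈ range n, ∑ d ∈ Ico 1 n, D2 (π * d / n) (c.X ((j : ℤ) + (d : ℤ)) (j : ℤ)) + K * n

/-- Regularity.

Proof. Write `HH_v = 𝒳_v - i 𝒴_v`. `CONE` (with `FBH`, `TAN`, and
`b_v = max (|s_{v-1}| + g_{v-1}, |s_v| + g_v)`): `|𝒴_v| ≤ b_v ((n-1)/2 + 𝒳_v)`, so
`𝒴_v² ≤ b_v² (n²/2 + 2 𝒳_v²)`; `b_v ≤ 1/10` and `∑ b_v² ≤ C/n` (`SSUM`). `CALO`, real part:
`4 ∑ (𝒳² - 𝒴²) = ∑ Re c² + n(n-1)(n-2)/3`. `COTRE` and the definition of `D₂`: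
`∑_{j,d} Re (-c²) ≥ ∑_{j,d} (cot² a_d - 2 x cot a_d / sin² a_d + D₂) - 3 ∑ sinh² Y/sin⁴ X`; here
`∑_{d=1}^{n-1} cot² (π d/n) = (n-1)(n-2)/3` and `∑_j x_{j+d,j} = 0`. With `ETA`:
`(1/2) ∑ D₂ + 4 ∑ 𝒳² ≤ 4 ∑ 𝒴² + K n ≤ 2 n² ∑ b² + 8 ∑ b² 𝒳² + K n ≤ C n + (1/10) ∑ 𝒳²`. So
`∑ 𝒳², ∑ 𝒴², ∑ D₂ ≤ C n`. The pairs `d = 1` and `D2LB` (3) with `a = π/n`:
`∑ min (y_j², |y_j|) ≤ C/n`; for large `n` this forces `|y_j| < 1`, so `∑ y² ≤ C/n`. -/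
def Stmt_REGU : Prop :=
  ∃ (K ε : ℝ), 0 < ε ∧ ∃ n₀ : ℕ, ∀ n ≥ n₀, ∀ c : Cfg n, Nice n ε c →
    ∑ j ∈ range n, c.y (j : ℤ) ^ 2 ≤ K / n ∧ ∑ j ∈ range n, ‖HH n c.z (j : ℤ)‖ ^ 2 ≤ K * n

/-- `∑_{d=1}^{n-1} cot² (π d/n) = (n-1)(n-2)/3`. (Mathlib may have a related sum; or apply `CALO`
to the roots of unity, where `HH = 0` by symmetry and `cc = -i cot (X)`.) -/
def Stmt_COTSUM : Prop :=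
  ∀ n : ℕ, 1 ≤ n → ∑ d ∈ Ico 1 n, Real.cos (π * d / n) ^ 2 / Real.sin (π * d / n) ^ 2 =
    ((n : ℝ) - 1) * (n - 2) / 3

/-- The a priori bounds. Proof: `REGU`, `SSUM` (the sums over `s_j²`), and the sup bounds: `mn ρ² ≤ K/n²`,
`mn φ² ≤ K/n²` (`APRI`), `|φ_{j+m} - φ_j| = (2π/n) |y_j + … + y_{j+m-1}| ≤ (2π/n) √n √(K/n)` and
`|ρ_{j+m} - ρ_j| ≤ ∑ g |s| ≤ (∑ g²)^{1/2} (∑ s²)^{1/2} ≤ K/n` for `m ≤ n`. -/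
def Stmt_REG : Prop :=
  ∃ (K ε : ℝ), 0 < K ∧ 0 < ε ∧ ∃ n₀ : ℕ, ∀ n ≥ n₀, ∀ c : Cfg n, Nice n ε c → Reg n K c

/-- Hölder bounds. Proof: `|Φ_{j+m} - Φ_j| = 2π |y_j + … + y_{j+m-1}| ≤ 2π √m √(K/n)` for `m ≤ n`;
`|y| ≤ 1`, so `g ≤ 4π/n` and `|R_{j+m} - R_j| ≤ n ∑ g |s| ≤ 4π √m √(K/n)`. -/
def Stmt_HOLD : Prop :=
  ∀ K : ℝ, ∃ (C : ℝ) (n₀ : ℕ), 0 < C ∧ ∀ n ≥ n₀, ∀ c : Cfg n, Reg n K c →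
    (∀ j, |c.y j| ≤ C / Real.sqrt n ∧ |c.s j| ≤ C / Real.sqrt n) ∧
    ∀ (j : ℤ) (m : ℕ), m ≤ n → |c.R (j + m) - c.R j| ≤ C * Real.sqrt (m / n) ∧
      |c.Φ (j + m) - c.Φ j| ≤ C * Real.sqrt (m / n)

end Pool.Agent.EHP
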