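import Pool.Agent.EHP.Stmts2

/-!
# Statements, part 3: structure of the tight pairs, exclusion of the caterpillar

A pair `i, j` is tight if `‖c.z i - c.z j‖ = 2`. Since `c.z` is `n`-periodic, tightness of `(i, j)` only
depends on the residues, and `(v, l)` with `v < l < v + n` is tight iff `(l, v + n)` is.
-/

open Finset
open scoped Real ComplexConjugate

namespace Pool.Agent.EHP

/-- The partners of `v` in `(v, v + n)` form the interval `[lo v, hi v]`, and `hi v ≤ lo (v + 1)`. -/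
structure Par (n : ℕ) (c : Cfg n) (lo hi : ℤ → ℤ) : Prop where
  lt : ∀ v, v + 1 < lo v ∧ lo v ≤ hi v ∧ hi v + 1 < v + n
  tight : ∀ v l : ℤ, v < l → l < v + n → (‖c.z v - c.z l‖ = 2 ↔ lo v ≤ l ∧ l ≤ hi v)
  step : ∀ v, hi v ≤ lo (v + 1)
  lo_add : ∀ v, lo (v + n) = lo v + n
  hi_add : ∀ v, hi (v + n) = hi v + n

/-- Pivot function, with the information that neighbours are never tight. -/
structure Piw (n : ℕ) (c : Cfg n) (L : ℤ → ℤ) : Prop where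
  piv : Piv n c L
  lt2 : ∀ v, v + 1 < L v ∧ L v + 1 < v + n

/-- Regular configurations are nice. Proof: `|ρ|, |φ| ≤ K/n`; `|s_j| ≤ √(K/n)`, so
`|ρ_i - ρ_j| ≤ ∑ |s_l| g_l ≤ √(K/n) |θ_i - θ_j|` (sum over the sides between `i` and `j`). -/
def Stmt_RNICE : Prop :=
  ∀ K ε : ℝ, 0 < ε → ∃ n₀ : ℕ, ∀ n ≥ n₀, ∀ c : Cfg n, Reg n K c → Nice n ε c

/-- Tight pairs are nearly antipodal. Proof: `dist_sq`: `4 = 4 e^{ρ_v + ρ_l} (sin² X + sinh² Y)`, so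
`cos² X = 1 - e^{-ρ_v-ρ_l} + sinh² Y ≤ C/n` with `X = X_{l,v} ∈ (0, π)`; so `|X - π/2| ≤ C/√n`,
and `θ_l - θ_v = 2 π (l - v)/n + φ_l - φ_v`. -/
def Stmt_ANTI : Prop :=
  ∀ K : ℝ, ∃ (C : ℝ) (n₀ : ℕ), 0 < C ∧ ∀ n ≥ n₀, ∀ c : Cfg n, Reg n K c → ∀ v l : ℤ, v < l →
    l < v + n → ‖c.z v - c.z l‖ = 2 →
    |c.θ l - c.θ v - π| ≤ C / Real.sqrt n ∧ |((l - v : ℤ) : ℝ) - n / 2| ≤ C * Real.sqrt n

/-- Two tight chords are never nested.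

Proof. By `ORIENT` the quadrilateral `a, b, p, d` is convex in this order: `[a,b,p], [a,b,d], [a,p,d],
[b,p,d] > 0`. So `b, d` are strictly on different sides of the line `a p`, and `a, p` on different
sides of the line `b d`; the open segments `(a, p)` and `(b, d)` meet in a point `P`. Then
`|a d| + |b p| ≤ |a P| + |P d| + |b P| + |P p| = |a p| + |b d| ≤ 4`, with strict first inequality since
`P` is not on the line `a d` (`a, p, d` are not collinear). But `|a d| = |b p| = 2`. -/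
def Stmt_NEST : Prop :=
  ∀ (n : ℕ) (ε : ℝ) (c : Cfg n), 3 ≤ n → ε ≤ 1 / 10 → Nice n ε c →
    ∀ a b p d : ℤ, a < b → b < p → p < d → d < a + n →
      ¬ (‖c.z a - c.z d‖ = 2 ∧ ‖c.z b - c.z p‖ = 2)

/-- The partners of a vertex form an interval, and these intervals are ordered.

Proof. Neighbours are at distance `< 2` (`dist_sq`, `g ≤ 2π/n + 2ε`, `n ≥ 12`). By `CUT` for
`{j | n ∣ j - v}` every `v` has a partner in `(v, v + n)`; let `lo v` and `hi v` be the least and the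
largest one. `hi v ≤ lo (v+1)`: otherwise `v < v + 1 < lo (v+1) < hi v < v + n` are nested tight chords
(`NEST`). Interval: let `lo v < l < hi v`; `l` has a partner `w ∈ (l - n, l)`. If `w > v`, the chords
`(v, hi v)`, `(w, l)` are nested; if `w < v`, the chords `(w, l)` and `(v, lo v)` are nested
(`w < v < lo v < l < w + n`). So `w = v`. -/
def Stmt_PART : Prop :=
  ∀ (n : ℕ) (ε : ℝ) (c : Cfg n), 12 ≤ n → ε ≤ 1 / 10 → Nice n ε c → ∃ lo hi : ℤ → ℤ, Par n c lo hi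

/-- A gap is unique, up to its antipodal partner.

Proof. `lo` and `hi` are monotone. Symmetry (S): for `v < l < v + n`, `l ∈ [lo v, hi v]` iff
`v + n ∈ [lo l, hi l]`. Let `w₀ = hi v₀ < lo (v₀ + 1)`. Then `v₀ + n ∈ [lo w₀, hi w₀]` and
`v₀ + n + 1 ∉` (else `w₀ ∈ [lo (v₀+1), …]`), so `hi w₀ = v₀ + n`. `lo (w₀ + 1) ≥ hi w₀ = v₀ + n` and
`≠ v₀ + n` (else `w₀ + 1 ∈ [lo v₀, hi v₀]`), so `lo (w₀+1) ≥ v₀ + n + 1`. Let `q = lo (w₀ + 1)`; then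
`w₀ + 1 ∈ [lo (q-n), hi (q-n)]` and `q - n ≥ v₀ + 1`, so `lo (v₀ + 1) ≤ lo (q - n) ≤ w₀ + 1`; hence
`lo (v₀ + 1) = w₀ + 1`, and then `lo (w₀ + 1) = v₀ + 1 + n`. If there were a gap at `v'`,
`v₀ < v' < w₀`, with `w' = hi v'`, the set `C = (v₀, v'] ∪ (w₀, w'] + nℤ` would have no tight pair
leaving it: partners of `a ∈ (v₀, v']` are in `[lo (v₀+1), hi v'] = [w₀+1, w']`, partners of
`b ∈ (w₀, w']` are in `[lo (w₀+1), hi w'] = [v₀+1+n, v'+n]` (`hi w' = v' + n` as above), and `w₀ ∉ C`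
(`w' ≤ hi w₀ = v₀ + n`): contradiction to `CUT`. A gap at `v' ∈ (w₀, v₀ + n)` gives one at
`hi v' - n ∈ (v₀, w₀)` (`hi v' ≥ lo (w₀+1) ≥ v₀+n+1`, and `hi v' ≤ hi (v₀ + n) = w₀ + n`, with equality
excluded as `hi (hi v') = v' + n` but `hi (w₀ + n) = v₀ + 2n`). -/
def Stmt_ONEGAP : Prop :=
  ∀ (n : ℕ) (c : Cfg n) (lo hi : ℤ → ℤ), 1 ≤ n → Opt n c.z → Par n c lo hi →
    ∀ v₀, hi v₀ < lo (v₀ + 1) →
      hi (hi v₀) = v₀ + n ∧ lo (v₀ + 1) = hi v₀ + 1 ∧ lo (hi v₀ + 1) = v₀ + 1 + n ∧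
      (∀ v, v₀ < v → v < hi v₀ → hi v = lo (v + 1)) ∧
      (∀ v, hi v₀ < v → v < v₀ + n → hi v = lo (v + 1))

/-- The tight pairs form a tree in the case of a gap: differences along tight pairs can be
prescribed.

Proof. `w₀ = hi v₀`; `A = (v₀, w₀]`, `B = (w₀, v₀ + n]`. Partners of `a ∈ A` in `(a, a+n)` are in
`[lo (v₀+1), hi w₀] = [w₀+1, v₀+n] = B`. Put `D (v₀+1) = 0`; for `j ∈ A`, `j < w₀`:
`D (j+1) = D j + W (j+1) (hi j) - W j (hi j)`; `D (w₀+1) = - W (v₀+1) (w₀+1)`; for `j ∈ B`,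
`j < v₀ + n`: `D (j+1) = D j - W a (j+1) + W a j` with `a = hi j - n`; extend periodically. Claim: for
`a ∈ A` and `b ∈ [lo a, hi a]`, `D a - D b = W a b`; induction over `a`. For `a = v₀+1`, `b = w₀+1 = lo a`
by definition. From `b` to `b + 1 ≤ hi a`: `a + n` is a partner of `b` and of `b + 1`, so
`a + n ≤ hi b ≤ lo (b+1) ≤ a + n`, the pivot of the side `b` is `hi b - n = a`. From `a` to `a + 1 ≤ w₀`:
`lo (a+1) = hi a =: l`, and `D (a+1) - D l = W a l + W (a+1) l - W a l`. -/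
def Stmt_TREE : Prop :=
  ∀ (n : ℕ) (c : Cfg n) (lo hi : ℤ → ℤ), 1 ≤ n → Opt n c.z → Par n c lo hi →
    ∀ v₀, hi v₀ < lo (v₀ + 1) → ∀ W : ℤ → ℤ → ℂ, ∃ D : ℤ → ℂ, (∀ j, D (j + n) = D j) ∧
      D (v₀ + 1) = 0 ∧ ∀ a, v₀ < a → a ≤ hi v₀ → ∀ b, lo a ≤ b → b ≤ hi a → D a - D b = W a b

/-- Tight pairs nearly pass through the origin.

Proof. `RNICE`, `TAN`: `(z_a - z_b)/z_a = p (1 + iT)`, `|T| ≤ max (|s_{a-1}| + g_{a-1}, |s_a| + g_a)`. Then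
`(z_a + z_b)/(z_a - z_b) = 2/(p (1 + iT)) - 1` has the imaginary part `-2T/(p (1 + T²))`, and
`p √(1+T²) = 2/|z_a|`, so its absolute value is `≤ |z_a| |T| ≤ 2 |T|`. -/
def Stmt_XI : Prop :=
  ∀ K : ℝ, ∃ n₀ : ℕ, ∀ n ≥ n₀, ∀ c : Cfg n, Reg n K c → ∀ a b : ℤ, ‖c.z a - c.z b‖ = 2 →
    |((c.z a + c.z b) / (c.z a - c.z b)).im| ≤
      2 * (|c.s (a - 1)| + c.g (a - 1) + |c.s a| + c.g a)

/-- The variation in the case of a gap.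

Proof. `w₀ = hi v₀`, `A = (v₀, w₀]`, `B = (w₀, v₀+n]`. For tight `a ∈ A`, `b ∈ B` let
`ξ_ab = Im ((z_a + z_b)/(z_a - z_b))`, `W a b = i ξ_ab (z_a - z_b)`, `V a b = -ξ_ab² (z_a - z_b)`, and let
`D = z_{v₀+1} + D'` and `A` be given by `TREE` for `W`, `V`. Every tight pair is (modulo `n`, up to
order) of the form `a ∈ A`, `b ∈ [lo a, hi a]`, so (1) holds with `ξ = ξ_ab` (for the reversed
pair the same `ξ`). As `|z_a - z_b| = 2`,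
`W a b = z_a + z_b - κ_ab (z_a - z_b)`, `κ_ab = (|z_a|² - |z_b|²)/4`. Put `e_v = D_v - z_v` on `A`,
`e_v = D_v + z_v` on `B`. For `j, j+1 ∈ A` with the common partner `l = hi j = lo (j+1)` (`ONEGAP`)
`e_{j+1} - e_j = -(κ_{j+1,l} - κ_{j,l}) (z_{j+1} - z_l) - κ_{j,l} (z_{j+1} - z_j)`, so
`|e_{j+1} - e_j| ≤ 2 |Δ_j| + (4K/n) g_j`; the same for `j, j+1 ∈ B`; and
`e_{v₀+1} - e_{w₀+1} = -κ (z_{v₀+1} - z_{w₀+1})` is `O(1/n)`. As `|Δ_j| = |s_j| g_j`, `∑ |Δ_j| ≤ C/n`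
(Cauchy-Schwarz), so `|e_i - e_j| ≤ C/n` for all `i, j`: this is (4). For `i, j` on the same side
`|e_i - e_j| ≤ (C/√n) |θ_i - θ_j|` (`HOLD`: `|s| ≤ C/√n`) and `|z_i - z_j| ≥ c |θ_i - θ_j|` since
`|θ_i - θ_j| ≤ π + C/√n` (`ANTI`): (2), (3) for large `n`. `A`: `|V| ≤ 2 ξ²`, with `XI` applied at the
endpoint `j` resp. `j + 1` of the two chords `(j, l)`, `(j+1, l)` of a side:
`|A_{j+1} - A_j| ≤ C (b_j² + b_{j+1}²)`, `b_j = |s_{j-1}| + g_{j-1} + |s_j| + g_j`, `∑ b_j² ≤ C/n`; so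
`|A_i| ≤ C/n`: (5). -/
def Stmt_NGB : Prop :=
  ∀ K : ℝ, ∃ (C : ℝ) (n₀ : ℕ), 0 < C ∧ ∀ n ≥ n₀, ∀ c : Cfg n, Reg n K c → ∀ lo hi : ℤ → ℤ,
    Par n c lo hi → ∀ v₀, hi v₀ < lo (v₀ + 1) → ∃ D A : ℤ → ℂ,
      (∀ j, D (j + n) = D j) ∧ (∀ j, A (j + n) = A j) ∧
      (∀ i j, ‖c.z i - c.z j‖ = 2 → ∃ ξ : ℝ, D i - D j = ξ * Complex.I * (c.z i - c.z j) ∧
        A i - A j = -(ξ : ℂ) ^ 2 * (c.z i - c.z j)) ∧
      (∀ i j, v₀ < i → i ≤ hi v₀ → v₀ < j → j ≤ hi v₀ →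
        ‖(D i - D j) - (c.z i - c.z j)‖ ≤ ‖c.z i - c.z j‖) ∧
      (∀ i j, hi v₀ < i → i ≤ v₀ + n → hi v₀ < j → j ≤ v₀ + n →
        ‖(D i - D j) + (c.z i - c.z j)‖ ≤ ‖c.z i - c.z j‖) ∧
      (∀ a b, v₀ < a → a ≤ hi v₀ → hi v₀ < b → b ≤ v₀ + n →
        ‖(D a - D b) - (c.z a + c.z b)‖ ≤ C / n) ∧
      (∀ j, ‖A j‖ ≤ C / n)

/-- Many pairs across a junction. Proof: for `a = w₀ - i`, `b = w₀ + 1 + j`, `0 ≤ i, j ≤ n/16`, the gaps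
are `≤ 4π/n`, so `X_{ba} ≤ 2π (i+j+1)/n`; if this is `≤ π/4`, `cot X ≥ 0.7/X`; so the sum is
`≥ 0.01 n² ∑_{i,j} (i+j+1)^{-2} ≥ 0.01 n² ∑_{s=1}^{n/16} 1/s`. -/
def Stmt_JUNC : Prop :=
  ∀ K : ℝ, ∃ (C : ℝ) (n₀ : ℕ), 0 < C ∧ ∀ n ≥ n₀, ∀ c : Cfg n, Reg n K c → ∀ v₀ w₀ : ℤ,
    v₀ + n / 4 ≤ w₀ → w₀ + n / 4 ≤ v₀ + n →
    (n : ℝ) ^ 2 * Real.log n / 1000 - C * (n : ℝ) ^ 2 ≤
      ∑ a ∈ Finset.Ioc v₀ w₀, ∑ b ∈ Finset.Ioc w₀ (v₀ + n),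
        Real.cos (c.X b a) ^ 2 / Real.sin (c.X b a) ^ 2

/-- There is no gap.

Proof. `PART`, `NGB`, `SV`. The acceleration term is
`∑_{i≠j} (A_i - A_j)/(z_i - z_j) = 2 ∑_i A_i fb_i`, of modulus
`≤ (2C/n) ∑ |fb_i| ≤ C n` (`FBH`, `|HH|` from `Reg`). So `-Re ∑_{i≠j} ((D_i - D_j)/(z_i - z_j))² ≤ C n`.
Same side: the ratio has modulus `≤ 2`, total `≥ -4 n²`. Different sides, `a ∈ A`, `b ∈ B`: the ratio is
`c_ab + ε'`, `|ε'| ≤ (C/n)/|z_a - z_b| ≤ C'` (`g ≥ π/n`), `-Re c_ab² ≥ cot² X - 3 sinh² Y/sin⁴ X ≥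
0.9 cot² X - 1` (`COTRE`; `|sinh Y| ≤ small sin X`), `|c_ab| ≤ |cot X| + 1`
(`|coth (Y+iX)|² = (cos² X + sinh² Y)/(sin² X + sinh² Y)`), so `-Re (c_ab + ε')² ≥ 0.8 cot² X - C''`. With
`JUNC` (`ANTI` for the position of `w₀ = hi v₀`) the total is `≥ n² log n/1000 - C n²`: contradiction
for large `n`. To turn the sum over `range n`, `Ico 1 n` into sums over `(v₀, v₀+n]` use periodicity. -/
def Stmt_NOGAP : Prop :=
  ∀ K : ℝ, ∃ n₀ : ℕ, ∀ n ≥ n₀, ∀ c : Cfg n, Reg n K c → ∀ lo hi : ℤ → ℤ, Par n c lo hi →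
    ∀ v, hi v = lo (v + 1)

/-- The pivot function. Proof: `RNICE`, `PART`, `NOGAP`; `L = hi`. -/
def Stmt_PIV : Prop :=
  ∀ K : ℝ, ∃ n₀ : ℕ, ∀ n ≥ n₀, ∀ c : Cfg n, Reg n K c → ∃ L : ℤ → ℤ, Piw n c L

/-- Symmetry of the pivot function. Proof: `l = L v` is a partner of `v` and of `v + 1`, so `v + n` and
`v + 1 + n` are partners of `l`, i.e. both are in `[L (l - 1), L l]`. -/
def Stmt_SYM : Prop :=
  ∀ (n : ℕ) (c : Cfg n) (L : ℤ → ℤ), Piw n c L → ∀ v, L (L v - 1) ≤ v + n ∧ v + n + 1 ≤ L (L v)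

end Pool.Agent.EHP
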