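import Pool.Agent.EHP.Stmts3

/-!
# Statements, part 4: expansion of the energy for `n = 2 N`

Notation of the proofs: `h = 2π/n`, `m_j = L j - j - N`, `p_j = 1/2 - m_j` (`pp N L`),
`u_j = -(Φ_j - Φ_{j+N})/2π` (`uu N c`), `f̂_k = dr n f k`. Everything is for a regular configuration
`c` (`Reg`) with a pivot function `L` (`Piw`), and constants `C` depend only on the constant `K` of
`Reg`.
-/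

open Finset
open scoped Real ComplexConjugate

namespace Pool.Agent.EHP

/-- The perimeter.

Proof. `δ_j = 2 arcsin (‖z_{j+1} - z_j‖ / 4)`. For the side `j` and `l = L j`,
`|z_j - z_l| = |z_{j+1} - z_l| = 2`, so `z_{j+1} - z_l = e^{± i δ_j} (z_j - z_l)`, with the sign `+` by
`ORIENT` for `(j, j+1, l)`. Let `A(v, l) = θ_v + arg ((z_v - z_l)/z_v)` for tight pairs;
`e^{i A(v,l)} = (z_v - z_l)/2`, `|arg| ≤ 0.2` (`TAN`, slopes and gaps are small) and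
`A(v+n, l+n) = A(v,l) + 2π`. So `A(j+1, l) - A(j, l) = δ_j` for `l = L j` (equal modulo `2π`, both
small). If `l, l + 1` are both partners of `v` then `L l = v + n` (`PIVINV`), so
`z_{l+1} - z_v = e^{i δ_l} (z_l - z_v)` and `A(v, l+1) - A(v, l) = δ_l`. With `f(v) = A(v, L v)`:
`f(v+1) - f(v) = δ_v + ∑_{l ∈ [L v, L (v+1))} δ_l`; the sum over `v ∈ range n` is
`2π = 2 ∑ δ` (the intervals `[L v, L (v+1))` tile a period). So `∑ δ_j = π`, and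
`∑ 4 sin (δ_j / 2) ≤ 4 n sin (π / 2n)` by concavity. -/
def Stmt_DELTA : Prop :=
  ∀ K : ℝ, ∃ n₀ : ℕ, ∀ n ≥ n₀, ∀ c : Cfg n, Reg n K c → ∀ L : ℤ → ℤ, Piw n c L →
    ∑ j ∈ range n, ‖c.z ((j : ℤ) + 1) - c.z (j : ℤ)‖ ≤ 4 * n * Real.sin (π / (2 * n))

/-- The pivot of the side `(l, l+1)` for `l ∈ [L (v-1), L v)` is `v`. Proof: `l` and `l + 1` are partners
of `v`, so `v + n` is a partner of `l` and of `l + 1`: `v + n ≤ L l` and `L l ≤ v + n`. -/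
def Stmt_PIVINV : Prop :=
  ∀ (n : ℕ) (c : Cfg n) (L : ℤ → ℤ), Piw n c L → ∀ v l : ℤ, L (v - 1) ≤ l → l < L v → L l = v + n

/-- Slope relation.

Proof. Let `l = L j`, `β = θ_l - θ_j - π`, `g = g_j`, `Y = Y_{j,l}`, `Y' = Y_{j+1,l}`. By `dist_sq` for
the tight pairs `(j, l)`, `(j+1, l)`: `ρ_j + ρ_l = - log (1 - q)`, `ρ_{j+1} + ρ_l = - log (1 - q')` with
`q = sin² (β/2) - sinh² Y`, `q' = sin² ((β-g)/2) - sinh² Y'`. So `Δ = log (1-q) - log (1-q')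
= (q' - q)(1 + O(|q| + |q'|))`, and `q' - q = - sin (g/2) sin (β - g/2) - sinh (Y'+Y) sinh (Δ/2)`,
`|Y + Y'| ≤ 4K/n`. Hence `s = Δ/g = - β/2 + g/4 + O((|β| + g)(β² + 1/n))`. Here
`β = 2π m/n + φ_l - φ_j`, `|φ| ≤ K/n`, and `|β| ≤ C/√n` (`ANTI`), so `|m| ≤ C √n` and
`n s = - π m - (Φ_l - Φ_j)/2 + (π/2)(1 + y_j) + O((1 + |m|)/n)` (`(1+|m|)³/n² ≤ C (1+|m|)/n`). Finally
`Φ_l = Φ_{j+N} + O(√(|m|/n))` (`HOLD`), `|y_j| ≤ C/√n`, and `(Φ_{j+N} - Φ_j)/2 = π u_j`. -/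
def Stmt_SLREL : Prop :=
  ∀ K : ℝ, ∃ (C : ℝ) (n₀ : ℕ), 0 < C ∧ ∀ N : ℕ, n₀ ≤ 2 * N → ∀ c : Cfg (2 * N), Reg (2 * N) K c →
    ∀ L : ℤ → ℤ, Piw (2 * N) c L → ∀ j : ℤ,
      (((2 * N : ℕ) : ℝ) * c.s j - π * (pp N L j - uu N c j)) ^ 2 ≤ C * (1 + |pp N L j|) / (2 * N : ℕ) ∧
      |pp N L j| ≤ C * Real.sqrt (2 * N : ℕ)

/-- Consequences in the mean.

Proof. `DR_j = (n²/2π) Δ_j = n s_j (1 + y_j)`. `mn (n s)² ≤ K` (`Reg`), `|u_j| ≤ K`, `SLREL`: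
`π² p² ≤ 3 ((ns)² + π² u² + C (1 + |p|)/n)`, so `mn p² ≤ C`, hence `mn |p| ≤ C` and
`mn (n s - π (p - u))² ≤ C/n`; `mn (n s y)² ≤ (C/n) K` (`HOLD`). -/
def Stmt_DRREL : Prop :=
  ∀ K : ℝ, ∃ (C : ℝ) (n₀ : ℕ), 0 < C ∧ ∀ N : ℕ, n₀ ≤ 2 * N → ∀ c : Cfg (2 * N), Reg (2 * N) K c →
    ∀ L : ℤ → ℤ, Piw (2 * N) c L →
      mn (2 * N) (fun j => pp N L j ^ 2) ≤ C ∧ mn (2 * N) (fun j => c.DR j ^ 2) ≤ C ∧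
      (∀ j, |uu N c j| ≤ C) ∧
      mn (2 * N) (fun j => (c.DR j - π * (pp N L j - uu N c j)) ^ 2) ≤ C / (2 * N : ℕ)

/-- The radial mean.

Proof. As in `LEN`, but with explicit errors: by `HOLD`, `|s| ≤ C/√n`, `g ≤ 4π/n`, `|ρ| ≤ K/n`, and
`‖z_{j+1} - z_j‖ ≥ g (1 + ρm + ρm²/2 - g²/24 + s²/2) - C g (n^{-3} + s²/n)`. Sum:
`∑ g ρm ≤ (P - 2π) - (1/2) ∑ g ρm² - (1/2) S + (1/24) ∑ g³ + C n^{-3}`, `P` the perimeter (`S ≤ C/n²`).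
`DELTA`: `P - 2π ≤ -π³/(12 n²) + C n^{-4}`. `∑ g³ = (8π³/n³)(n + 3 ∑ y² + ∑ y³) ≤ 8π³/n² + C n^{-4}`. So
`(n²/2π) ∑ g ρm ≤ π²/8 - (n²/4π)(∑ g ρm² + S) + C/n`. Here `(n²/2π) ∑ g ρm² = mn ((1+y) Rm²) ≥ mn R² - C/√n`
and `(n²/2π) S = mn (DR²/(1+y)) ≥ mn DR² - C/√n`. Finally `n ∑ ρ = (n²/2π)(∑ g ρm + ∑ φm Δ)` (`BYP`), and
`(n²/2π) ∑ φm Δ = mn (Φm DR)`. -/
def Stmt_RHOEX : Prop :=
  ∀ K : ℝ, ∃ (C : ℝ) (n₀ : ℕ), 0 < C ∧ ∀ n ≥ n₀, ∀ c : Cfg n, Reg n K c → ∀ L : ℤ → ℤ, Piw n c L →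
    n * ∑ j ∈ range n, c.ρ (j : ℤ) ≤ π ^ 2 / 8 + mn n (fun j => (c.Φ j + c.Φ (j + 1)) / 2 * c.DR j) -
      1 / 2 * mn n (fun j => c.DR j ^ 2) - 1 / 2 * mn n (fun j => c.R j ^ 2) + C / Real.sqrt n

/-- The two energies.

Proof. For `d ≤ n/2` (the other pairs by symmetry, `(j+d, j)` and `(j+n, j+d)`), `a = π d/n`,
`|x| = |Φ_{j+d} - Φ_j|/(2n) ≤ C √(d/n)/n ≤ (C/√n) a` (`HOLD`). So
`D(a; X) = ∫_a^X (X-t)/sin² t dt ≥ (1 - C/√n) x²/(2 sin² a)`, and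
`log (1 + sinh² Y/sin² X) ≤ (1 + C/√n) Y²/sin² a`. Sum up. `QK` is bounded: for any periodic `f`,
`∑_j (f_{j+d} - f_j)² ≤ d² ∑ (f_{j+1} - f_j)²` and `sin (π d/n) ≥ 2d/n`, so
`QK f ≤ (n/16) ∑ (f_{j+1} - f_j)²`, which is `≤ C` for `Φ` (`Φ_{j+1} - Φ_j = 2π y_j`) and `R`
(`|R_{j+1} - R_j| = n g |s|`). -/
def Stmt_EPSEX : Prop :=
  ∀ K : ℝ, ∃ (C : ℝ) (n₀ : ℕ), 0 < C ∧ ∀ n ≥ n₀, ∀ c : Cfg n, Reg n K c →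
    QK n c.Φ - C / Real.sqrt n ≤ Eφ c ∧ TT c ≤ QK n c.R + C / Real.sqrt n ∧
      QK n c.Φ ≤ C ∧ QK n c.R ≤ C

/-- The kernel sum. Proof: `f(k) = ∑_d (1 - cos (2πkd/n))/sin² (πd/n)` has `f(0) = f(n) = 0` and the second
difference `f(k+1) - 2 f(k) + f(k-1) = 4 ∑_{d=1}^{n-1} cos (2πkd/n) = -4` for `0 < k < n`. -/
def Stmt_CSCSUM : Prop :=
  ∀ n k : ℕ, 1 ≤ n → k ≤ n → ∑ d ∈ Ico 1 n, (1 - Real.cos (2 * π * k * d / n)) /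
    Real.sin (π * d / n) ^ 2 = 2 * k * ((n : ℝ) - k)

/-- Parseval, for `n = 2 N`, with the frequencies in `(-N, N]`. Proof: orthogonality of the characters of
`ℤ/n` (for instance `(1/n) ∑_j e^{2πi(k-l)j/n}` is `1` if `n ∣ k - l`, else `0`, and `(-N, N]` is a system
of representatives); for `QK` use `CSCSUM` and
`∑_j (f_{j+d} - f_j)² = 2 n ∑_k |f̂_k|² (1 - cos (2πkd/n))`. -/
def Stmt_PARS : Prop :=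
  ∀ (N : ℕ) (f g : ℤ → ℝ), 1 ≤ N → (∀ j, f (j + (2 * N : ℕ)) = f j) →
    (∀ j, g (j + (2 * N : ℕ)) = g j) →
    mn (2 * N) (fun j => f j * g j) =
      ∑ k ∈ Finset.Ioc (-(N : ℤ)) N, (dr (2 * N) f k * conj (dr (2 * N) g k)).re ∧
    QK (2 * N) f = 1 / 2 * ∑ k ∈ Finset.Ioc (-(N : ℤ)) N, kap (2 * N) k * ‖dr (2 * N) f k‖ ^ 2

/-- Discrete Fourier coefficients of shifts and differences. Proof: `sum_shift`. -/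
def Stmt_DFTS : Prop :=
  ∀ (n : ℕ) (f : ℤ → ℝ), 1 ≤ n → (∀ j, f (j + n) = f j) → ∀ k a : ℤ,
    dr n (fun j => f (j + a)) k = Complex.exp ((2 * π * k * a / n : ℝ) * Complex.I) * dr n f k ∧
    dr n f (-k) = conj (dr n f k) ∧ dr n f (k + n) = dr n f k

/-- Energy of one mode. -/
noncomputable def EM {n : ℕ} (c : Cfg n) (k : ℤ) : ℝ :=
  ((1 + Complex.exp ((2 * π * k / n : ℝ) * Complex.I)) / 2 * dr n c.Φ k * conj (dr n c.DR k)).re -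
    1 / 2 * ‖dr n c.DR k‖ ^ 2 - 1 / 2 * ‖dr n c.R k‖ ^ 2 - 1 / 2 * kap n k * ‖dr n c.Φ k‖ ^ 2 +
    1 / 2 * kap n k * ‖dr n c.R k‖ ^ 2

/-- Upper bound of the energy as a sum over the modes. Proof: `IDEN`, `RHOEX` (multiply by `1 - 1/n`; the
right side of `RHOEX` is bounded by `C` in absolute value), `EPSEX`, `PARS` with `DFTS`. -/
def Stmt_ESUM : Prop :=
  ∀ K : ℝ, ∃ (C : ℝ) (n₀ : ℕ), 0 < C ∧ ∀ N : ℕ, n₀ ≤ 2 * N → ∀ c : Cfg (2 * N), Reg (2 * N) K c →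
    ∀ L : ℤ → ℤ, Piw (2 * N) c L →
      FL (2 * N) c.z - (2 * N : ℕ) * Real.log (2 * N : ℕ) ≤
        π ^ 2 / 8 + ∑ k ∈ Finset.Ioc (-(N : ℤ)) N, EM c k + C / Real.sqrt (2 * N : ℕ)

/-- High modes. Proof: `|V| = (n/π) |sin (πk/n)| |R̂| ≥ (2|k|/π) |R̂|` for `V = dr DR k` (`DFTS`),
`|k|/2 ≤ κ_k ≤ |k|`; `|Φ̂| |V| ≤ (κ/2) |Φ̂|² + |V|²/(2κ)`. So `EM ≤ -(1/2)(1 - 5/|k|) |V|²`. -/
def Stmt_MODEHI : Prop :=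
  ∀ (N : ℕ) (c : Cfg (2 * N)), 1 ≤ N → ∀ k : ℤ, k ≠ 0 → |k| ≤ N →
    EM c k ≤ -(1 / 2) * (1 - 5 / |(k : ℝ)|) * ‖dr (2 * N) c.DR k‖ ^ 2

/-- Low modes converge. Proof: `(1 + e^{ikh})/2 → 1`, `κ_k → |k|`, `|R̂|² / |V|² → 1/k²`. -/
def Stmt_MODELO : Prop :=
  ∀ (k : ℤ) (ε : ℝ), k ≠ 0 → 0 < ε → ∃ n₀ : ℕ, ∀ n ≥ n₀, ∀ c : Cfg n,
    EM c k ≤ (dr n c.Φ k * conj (dr n c.DR k)).re -
      1 / 2 * (1 + 1 / (k : ℝ) ^ 2 - 1 / |(k : ℝ)|) * ‖dr n c.DR k‖ ^ 2 -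
      1 / 2 * |(k : ℝ)| * ‖dr n c.Φ k‖ ^ 2 + ε * (‖dr n c.DR k‖ ^ 2 + ‖dr n c.Φ k‖ ^ 2)

/-- Algebra of one mode. Proof: expand (`k ≥ 1` real; for the second claim write `a = 1 + 1/k² - 1/k`;
the coefficients of `|P|²`, `Re (U conj P)`, `|U|²` in `-2/π²` times the left side are `a`, `2(1 - a)`,
`k + a - 2 = (k-1)² (k+1)/k²`). -/
def Stmt_MODEALG : Prop :=
  (∀ (k : ℝ) (F V : ℂ), 1 ≤ k → (F * conj V).re - 1 / 2 * (1 + 1 / k ^ 2 - 1 / k) * ‖V‖ ^ 2 -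
    1 / 2 * k * ‖F‖ ^ 2 ≤ -(1 / 2) * (1 - 1 / k) ^ 2 * ‖V‖ ^ 2) ∧
  (∀ (k : ℝ) (P U : ℂ), 2 ≤ k →
    (((-(π : ℂ)) * U) * conj ((π : ℂ) * (P - U))).re -
      1 / 2 * (1 + 1 / k ^ 2 - 1 / k) * ‖(π : ℂ) * (P - U)‖ ^ 2 - 1 / 2 * k * ‖(-(π : ℂ)) * U‖ ^ 2 =
    -(π ^ 2 / 2) * (‖P‖ ^ 2 * (1 - 1 / (k + 1)) +
      (k - 1) ^ 2 * (k + 1) / k ^ 2 * ‖U + P / ((k ^ 2 - 1 : ℝ) : ℂ)‖ ^ 2)) ∧
  (∀ P U : ℂ, (((-(π : ℂ)) * U) * conj ((π : ℂ) * (P - U))).re -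
      1 / 2 * ‖(π : ℂ) * (P - U)‖ ^ 2 - 1 / 2 * ‖(-(π : ℂ)) * U‖ ^ 2 = -(π ^ 2 / 2) * ‖P‖ ^ 2)

/-- Area identity for the pivot function.

Proof. `m_j = L j - j - N`. By `PIVINV`,
`∑_{l ∈ [L a, L b)} (L l - n) = ∑_{v ∈ (a, b]} v (L v - L (v-1)) = b L b - a L a - ∑_{v ∈ [a,b)} L v`.
Insert `L v = v + N + m_v`, `L l - n = l - N + m_l`. -/
def Stmt_AREA : Prop :=
  ∀ (N : ℕ) (c : Cfg (2 * N)) (L : ℤ → ℤ), Piw (2 * N) c L → ∀ a b : ℤ, a ≤ b →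
    2 * (∑ v ∈ Finset.Ico a b, (L v - v - N) + ∑ l ∈ Finset.Ico (L a) (L b), (L l - l - N)) =
      2 * (b - a) - ((L b - b - N) ^ 2 - (L b - b - N)) + ((L a - a - N) ^ 2 - (L a - a - N))

/-- The sequence `p` is almost antiperiodic in the mean.

Proof. `AREA`, and `∑_{l ∈ [L a, L b)} m_l` is compared with `∑_{l ∈ [a+N, b+N)} m_l`: for `l` between
`a + N` and `L a = a + N + m_a`, `|m_l| ≤ |m_a| + |m_{a+N}|`. Indeed if `m_a > 0` and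
`l ∈ [a+N, L a)`: `L l ≤ L (L a - 1) ≤ a + n` (`SYM`) gives `m_l ≤ a + N - l ≤ 0`, and `L l ≥ L (a+N)` gives
`m_l ≥ m_{a+N} - (l - a - N)`; if `m_a < 0`, `l ∈ [L a, a+N)`: `L l ≥ L (L a) ≥ a + n + 1` gives `m_l > 0`
and `L l ≤ L (a+N)` gives `m_l ≤ m_{a+N} + (a + N - l)`. The same at `b`. -/
def Stmt_ANTIP : Prop :=
  ∀ (N : ℕ) (c : Cfg (2 * N)) (L : ℤ → ℤ), Piw (2 * N) c L → ∀ a b : ℤ, a ≤ b →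
    |∑ j ∈ Finset.Ico a b, (pp N L j + pp N L (j + N))| ≤
      10 * (pp N L a ^ 2 + pp N L (a + N) ^ 2 + pp N L b ^ 2 + pp N L (b + N) ^ 2)

/-- Even modes of `p` are small.

Proof. For even `k`, `p̂_k = (1/n) ∑_{j ∈ [a, a+N)} (p_j + p_{j+N}) e^{-ikjh}` for every `a`. Choose `a` with
`p_a² + p_{a+N}² ≤ 2 mn p² ≤ C` (`DRREL`). Abel summation with the partial sums `S_b` of `ANTIP`:
`|p̂_k| ≤ (1/n)(|S_{a+N}| + |k| h ∑_{b ∈ [a, a+N)} |S_b|) ≤ (C/n)(1 + |k|)`, as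
`∑_b |S_b| ≤ C n` (`|p_j| ≥ 1/2`, so constants are absorbed). -/
def Stmt_EVENSM : Prop :=
  ∀ K : ℝ, ∃ (C : ℝ) (n₀ : ℕ), 0 < C ∧ ∀ N : ℕ, n₀ ≤ 2 * N → ∀ c : Cfg (2 * N), Reg (2 * N) K c →
    ∀ L : ℤ → ℤ, Piw (2 * N) c L → ∀ k : ℤ, ‖dr (2 * N) (pp N L) (2 * k)‖ ≤ C * (1 + |(k : ℝ)|) / (2 * N : ℕ)

/-- Odd numbers between `3` and `M`. -/
def odds (M : ℕ) : Finset ℕ := (Finset.range (M + 1)).filter (fun k => k % 2 = 1 ∧ 3 ≤ k)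

/-- Contribution of the high modes.

Proof. `V_k = π (p̂_k - û_k) + e_k`, `∑ |e_k|² ≤ C/n` (`DRREL`, `PARS`). `MODEHI`:
`∑_{|k| > M} EM ≤ -(1/2)(1 - 5/M) ∑_{|k|>M} |V_k|²`. `û_k` is `0` or `-Φ̂_k/π` (`DFTS`, shift by `N`), and
`Φ_{j+1} - Φ_j = 2π y_j` gives `∑ (2|k|/π)² |Φ̂_k|² ≤ mn (n y)² ≤ K`, so `∑_{|k|>M} |û_k|² ≤ C/M²`. Hence
`∑_{|k|>M} |V|² ≥ π² ∑_{|k|>M} |p̂|² - C/M - C/√n` (Cauchy-Schwarz, `mn p² ≤ C`). -/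
def Stmt_EHI : Prop :=
  ∀ K : ℝ, ∃ (C : ℝ) (n₀ : ℕ), 0 < C ∧ ∀ N : ℕ, n₀ ≤ 2 * N → ∀ c : Cfg (2 * N), Reg (2 * N) K c →
    ∀ L : ℤ → ℤ, Piw (2 * N) c L → ∀ M : ℕ, 5 ≤ M → M < N →
      ∑ k ∈ (Finset.Ioc (-(N : ℤ)) N).filter (fun k => (M : ℤ) < |k|), EM c k ≤
        -(π ^ 2 / 2) * ∑ k ∈ (Finset.Ioc (-(N : ℤ)) N).filter (fun k => (M : ℤ) < |k|),
          ‖dr (2 * N) (pp N L) k‖ ^ 2 + C / M + C / Real.sqrt (2 * N : ℕ)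

/-- Contribution of a low mode.

Proof. `DFTS`: for odd `k`, `û_k = -Φ̂_k/π`. `V_k = π (p̂_k - û_k) + e_k`, `|e_k|² ≤ C/n`, all quantities
bounded by `C`. Odd `k`: `MODELO`, then replace `V_k` by `π (p̂_k - û_k)` (error `≤ C |e_k|`), then
`MODEALG`; `(|k|-1)² (|k|+1)/k² ≥ 16/9` for `|k| ≥ 3`, and `(π²/2)(16/9) ≥ 8.7 ≥ 8`. Even `k ≠ 0`: `MODELO`,
`MODEALG` (1) give `EM ≤ ε'`, and `|p̂_k|² ≤ ε'` (`EVENSM`). `k = 0`: `EM = -|R̂_0|²/2 ≤ 0`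
(`V_0 = 0`) and `p̂_0` is small by `EVENSM`. -/
def Stmt_ELO : Prop :=
  ∀ K : ℝ, ∀ (k : ℕ) (ε : ℝ), 0 < ε → ∃ n₀ : ℕ, ∀ N : ℕ, n₀ ≤ 2 * N → ∀ c : Cfg (2 * N),
    Reg (2 * N) K c → ∀ L : ℤ → ℤ, Piw (2 * N) c L → ∀ σ : ℤ, (σ = 1 ∨ σ = -1) →
      EM c (σ * k) ≤ -(π ^ 2 / 2) * ‖dr (2 * N) (pp N L) k‖ ^ 2 +
        (if k % 2 = 1 ∧ 3 ≤ k then π ^ 2 / 2 * (‖dr (2 * N) (pp N L) k‖ ^ 2 / (k + 1)) -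
          8 * ‖dr (2 * N) (uu N c) k + dr (2 * N) (pp N L) k / (((k : ℝ) ^ 2 - 1 : ℝ) : ℂ)‖ ^ 2
          else 0) + ε

/-- The quadratic form `∑_{3 ≤ |k| ≤ M, k odd} |f̂_k|² / (|k| + 1)`. -/
noncomputable def QM (n M : ℕ) (f : ℤ → ℝ) : ℝ := 2 * ∑ k ∈ odds M, ‖dr n f k‖ ^ 2 / ((k : ℝ) + 1)

/-- Deviation of `u` from its optimal value. -/
noncomputable def UM (n M : ℕ) (u p : ℤ → ℝ) : ℝ :=
  2 * ∑ k ∈ odds M, ‖dr n u k + dr n p k / (((k : ℝ) ^ 2 - 1 : ℝ) : ℂ)‖ ^ 2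

/-- The energy in terms of `p` and `u`. Proof: `ESUM`; split the modes at `M`: `EHI`, `ELO` for the
finitely many `k ≤ M` (with `ε/(4M+4)`), `PARS` for `mn p² = ∑ |p̂_k|²`. -/
def Stmt_HFIN : Prop :=
  ∀ K : ℝ, ∃ C : ℝ, 0 < C ∧ ∀ (M : ℕ) (ε : ℝ), 5 ≤ M → 0 < ε → ∃ n₀ : ℕ, ∀ N : ℕ, n₀ ≤ 2 * N →
    ∀ c : Cfg (2 * N), Reg (2 * N) K c → ∀ L : ℤ → ℤ, Piw (2 * N) c L →
      FL (2 * N) c.z - (2 * N : ℕ) * Real.log (2 * N : ℕ) ≤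
        π ^ 2 / 2 * (1 / 4 - mn (2 * N) (fun j => pp N L j ^ 2) + QM (2 * N) M (pp N L)) -
        8 * UM (2 * N) M (uu N c) (pp N L) + C / M + ε

end Pool.Agent.EHP
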