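import Pool.Agent.EHP.Stmts4

/-!
# Statements, part 5: the competitor (lower bound) and the limit problem (upper bound)
-/

open Finset
open scoped Real ComplexConjugate Interval

namespace Pool.Agent.EHP

/-! ### The competitor -/

/-- Fejér means of the square wave of height `1/2` are bounded by `1/2`.

Proof. With `F(t) = (1/2M) |∑_{j<2M} e^{ijt}|² = 1 + 2 ∑_{k=1}^{2M-1} (1 - k/2M) cos kt ≥ 0` the sum is
`(1/4π) (∫_0^π F(y - t) dt - ∫_π^{2π} F(y - t) dt)` (even frequencies cancel), and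
`∫_0^{2π} F = 2π`. -/
def Stmt_FEJER : Prop :=
  ∀ (M : ℕ) (y : ℝ), 1 ≤ M → |2 / π * ∑ i ∈ range M,
    (1 - (2 * i + 1 : ℝ) / (2 * M)) * Real.sin ((2 * i + 1) * y) / (2 * i + 1)| ≤ 1 / 2

/-- The points `e^{2πij/n} (1 + ζ(2πj/n)/n)`. -/
noncomputable def wz (n : ℕ) (ζ : ℝ → ℂ) (j : ℤ) : ℂ :=
  Complex.exp ((2 * π * j / n : ℝ) * Complex.I) * (1 + ζ (2 * π * j / n) / n)

/-- The hypotheses on the deformation: `η(x) = ζ(x) e^{ix}` has the derivative `π p(x) e^{ix}` with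
`|p| ≤ 1/2`, and `ζ` is antiperiodic. -/
structure Defo (p : ℝ → ℝ) (ζ : ℝ → ℂ) : Prop where
  cont : Continuous p
  bd : ∀ x, |p x| ≤ 1 / 2
  anti : ∀ x, ζ (x + π) = - ζ x
  der : ∀ x : ℝ, HasDerivAt (fun y : ℝ => ζ y * Complex.exp (y * Complex.I))
    (π * p x * Complex.exp (x * Complex.I)) x

/-- The distances of the deformed polygon are at most `2 + O(n^{-4})`.

Proof. `n = 2N`, `h = 2π/n`. Let `l = j + N + m`, `t = m h ∈ [-π, π]`, `x = j h`. Then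
`(z_j - z_l)/ω_j = (1 + e^{it}) + G/n` with `G = ζ(x) - e^{it} ζ(x+t) = e^{-ix} (η(x) - η(x+t)) =
-π ∫_0^t p(x+s) e^{is} ds`. So `|·|² = |1+e^{it}|² + (2/n) Re ((1+e^{-it}) G) + |G|²/n²`. For
`0 ≤ t ≤ π`: `Re ((1+e^{-it}) e^{is}) = cos s + cos (t-s) ≥ 0` on `[0, t]`, so
`|Re ((1+e^{-it}) G)| ≤ (π/2) ∫_0^t (cos s + cos (t-s)) ds = π sin t`; similarly for `t < 0`;
`|G| ≤ π |t|/2`. With `x' = |t|/2 = π|m|/n`:
`|·|² ≤ 4 cos² x' + (4π/n) sin x' cos x' + π² x'²/n²`. `m = 0`: `4`. `|m| = 1`, `x' = π/n`: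
`4 - 4 sin x' (sin x' - x' cos x') + x'⁴ ≤ 4 + x'⁴`. `|m| ≥ 2`: `π/n ≤ x'/2`,
`sin x' - (π/n) cos x' ≥ sin x'/2` (`x' cos x' ≤ sin x'`), so it is
`≤ 4 - 2 sin² x' + π² x'²/n² ≤ 4` (`sin x' ≥ 2x'/π`, `n ≥ 4`). -/
def Stmt_COMP : Prop :=
  ∀ (p : ℝ → ℝ) (ζ : ℝ → ℂ), Defo p ζ → ∀ N : ℕ, 2 ≤ N → ∀ i j : ℤ,
    ‖wz (2 * N) ζ i - wz (2 * N) ζ j‖ ^ 2 ≤ 4 + π ^ 4 / (2 * N : ℕ) ^ 4

/-- The energy of the deformed polygon.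

Proof. `n = 2N`, `z_j = ω_j + η_j/n`, `η_j = η(jh)`. For `i ≠ j`, `E_ij = (η_i - η_j)/(n (ω_i - ω_j))`
has `|E_ij| ≤ 3/n` (`|η(x) - η(y)| ≤ (π/2)|x - y|`, `η` is `2π`-periodic, `|ω_i - ω_j| ≥ (2/π)|x - y|`
for `|x-y| ≤ π`). `log |1 + E| ≥ Re (E - E²/2) - |E|³`. The points are different. So
`FL(z) ≥ n log n + ∑ Re E_ij - (1/2) ∑ Re E_ij² - 27/n`. `∑_{j≠i} 1/(ω_i - ω_j) = (n-1)/(2 ω_i)`, so
`∑ E_ij = ((n-1)/n) ∑ ζ(jh)`, whose sum vanishes by antiperiodicity. And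
`(ω_i - ω_j)² = -4 sin² a ω_i ω_j`, `a = π(i-j)/n`, gives
`-(1/2) ∑ E_ij² = (1/8n²) ∑ (ζ_i - ζ_j)²/sin² a - ((n-1)/2n²) ∑ ζ_j²`
(`(ζ_i ω_i - ζ_j ω_j)²/(ω_i ω_j) = ζ_i² e^{2ia} + ζ_j² e^{-2ia} - 2 ζ_i ζ_j`, `e^{2ia} = 1 - 2 sin² a +
i sin 2a`, the odd parts cancel). Real part: `ζ = r + i φ`. -/
def Stmt_COMPE : Prop :=
  ∀ (p : ℝ → ℝ) (ζ : ℝ → ℂ), Defo p ζ → ∀ N : ℕ, 5 ≤ N → Pts (2 * N) (wz (2 * N) ζ) ∧
    (2 * N : ℕ) * Real.log (2 * N : ℕ) + QK (2 * N) (fun j => (ζ (2 * π * j / (2 * N : ℕ))).re) -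
      QK (2 * N) (fun j => (ζ (2 * π * j / (2 * N : ℕ))).im) -
      1 / 2 * (1 - 1 / (2 * N : ℕ)) * (mn (2 * N) (fun j => (ζ (2 * π * j / (2 * N : ℕ))).re ^ 2) -
        mn (2 * N) (fun j => (ζ (2 * π * j / (2 * N : ℕ))).im ^ 2)) - 27 / (2 * N : ℕ) ≤
      FL (2 * N) (wz (2 * N) ζ)

/-- Energies of trigonometric polynomials with the frequencies `6i + 3`. Proof: `PARS`, the Fourier
coefficients are `a_i/2` at `±(6i+3)` (for the sine `∓ i a_i/2`), and zero otherwise. -/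
def Stmt_TRIGE : Prop :=
  ∀ (M N : ℕ) (a : ℕ → ℝ), 6 * M + 3 < N →
    (QK (2 * N) (fun j => ∑ i ∈ range M, a i * Real.cos ((6 * i + 3) * (2 * π * j / (2 * N : ℕ)))) =
      ∑ i ∈ range M, kap (2 * N) (6 * i + 3) * a i ^ 2 / 4 ∧
    mn (2 * N) (fun j => (∑ i ∈ range M, a i * Real.cos ((6 * i + 3) * (2 * π * j / (2 * N : ℕ)))) ^ 2) =
      ∑ i ∈ range M, a i ^ 2 / 2) ∧
    (QK (2 * N) (fun j => ∑ i ∈ range M, a i * Real.sin ((6 * i + 3) * (2 * π * j / (2 * N : ℕ)))) =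
      ∑ i ∈ range M, kap (2 * N) (6 * i + 3) * a i ^ 2 / 4 ∧
    mn (2 * N) (fun j => (∑ i ∈ range M, a i * Real.sin ((6 * i + 3) * (2 * π * j / (2 * N : ℕ)))) ^ 2) =
      ∑ i ∈ range M, a i ^ 2 / 2)

/-- The lower bound.

Proof. `β_i = (2/π)(1 - (2i+1)/2M)/(2i+1)`, `k_i = 6i+3`, `p(x) = ∑_{i<M} β_i sin (k_i x)`, `|p| ≤ 1/2` by
`FEJER` (`y = 3x`), `u = ∑ β_i/(1 - k_i²) sin (k_i x)`, `u'' + u = p`, `ζ = π (u' - i u)`: `Defo p ζ`.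
`COMP`, `COMPE`: the family `λ wz` with `λ = (1 + π⁴/4n⁴)^{-1/2}` is admissible and
`FL(λ z) = FL(z) + n(n-1) log λ ≥ FL(z) - C/n²`. With `TRIGE` the value is
`n log n + ∑_{i<M} (κ_{k_i} - 1 + 1/n) (π² β_i²/4)/(k_i² - 1) - C/n`, which tends for `n → ∞` to
`∑_{i<M} (π²/4) β_i²/(k_i + 1) = ∑_{i<M} (1 - (2i+1)/2M)²/((2i+1)² (6i+4))`, and this tends to `cstar` for
`M → ∞`. -/
def Stmt_LOWER : Prop :=
  ∀ ε : ℝ, 0 < ε → ∃ n₀ : ℕ, ∀ N : ℕ, n₀ ≤ 2 * N → ∀ z : ℤ → ℂ, Opt (2 * N) z →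
    (2 * N : ℕ) * Real.log (2 * N : ℕ) + cstar - ε ≤ FL (2 * N) z

/-! ### The limit problem

`κ₀ = 1/500`, `W(t) = - cos t log (2 sin t) + (π/2 - t) sin t - cos t`, `Wk = W - 2 κ₀ cos 3t`,
with the derivatives `Wk1, …, Wk4`; `W(π - t) = -W(t)` and the same for `Wk`. -/

/-- The kernel. -/
noncomputable def W0 (t : ℝ) : ℝ :=
  -Real.cos t * Real.log (2 * Real.sin t) + (π / 2 - t) * Real.sin t - Real.cos t

/-- The modified kernel. -/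
noncomputable def Wk (t : ℝ) : ℝ := W0 t - 2 * (1 / 500) * Real.cos (3 * t)

/-- First derivative. -/
noncomputable def Wk1 (t : ℝ) : ℝ :=
  Real.sin t * Real.log (2 * Real.sin t) - Real.cos t ^ 2 / Real.sin t + (π / 2 - t) * Real.cos t +
    6 * (1 / 500) * Real.sin (3 * t)

/-- Second derivative. -/
noncomputable def Wk2 (t : ℝ) : ℝ :=
  Real.cos t * Real.log (2 * Real.sin t) + Real.cos t + Real.cos t / Real.sin t ^ 2 -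
    (π / 2 - t) * Real.sin t + 18 * (1 / 500) * Real.cos (3 * t)

/-- Third derivative. -/
noncomputable def Wk3 (t : ℝ) : ℝ :=
  -Real.sin t * Real.log (2 * Real.sin t) - Real.sin t - 2 * Real.cos t ^ 2 / Real.sin t ^ 3 -
    (π / 2 - t) * Real.cos t - 54 * (1 / 500) * Real.sin (3 * t)

/-- Fourth derivative. -/
noncomputable def Wk4 (t : ℝ) : ℝ :=
  -Real.cos t * Real.log (2 * Real.sin t) - Real.cos t + 4 * Real.cos t / Real.sin t ^ 2 +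
    6 * Real.cos t ^ 3 / Real.sin t ^ 4 + (π / 2 - t) * Real.sin t -
    162 * (1 / 500) * Real.cos (3 * t)

/-- `W'(π/3)`. -/
noncomputable def W1P : ℝ := Real.sqrt 3 / 4 * Real.log 3 - 1 / (2 * Real.sqrt 3) + π / 12

/-- `α = -Wk(π/3)/2`. -/
noncomputable def al : ℝ :=
  1 / 2 * (Real.log 3 / 4 - π * Real.sqrt 3 / 12 + 1 / 2 - 2 * (1 / 500))

/-- The number `M₁ - ν₁/2` of the moment condition. -/
noncomputable def I0 : ℝ :=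
  π * Real.sqrt 3 / 24 * Real.log 3 + π ^ 2 / 72 - π * Real.sqrt 3 / 12 + 3 / 2 * Real.log 3 -
    2 * Real.log 2 - 2 * (1 / 500) / 3

/-- Coefficient `e₄ = -0.00394…`. -/
noncomputable def e4 : ℝ := 15 / 8 * (π / 12 * W1P / 3 - al + 6 / π ^ 2 * I0)

/-- Coefficient `e₂`. -/
noncomputable def e2 : ℝ := π / 12 * W1P / 2 - 2 * e4

/-- Coefficient `e₀`. -/
noncomputable def e0 : ℝ := al - e2 - e4

/-- The even correction `E`. -/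
noncomputable def EE (s : ℝ) : ℝ :=
  e0 + e2 * ((s - π / 6) / (π / 6)) ^ 2 + e4 * ((s - π / 6) / (π / 6)) ^ 4

/-- The weight `w(a) = Wk1(π/3 + a)/2 - E'(a)`. -/
noncomputable def ww (a : ℝ) : ℝ :=
  1 / 2 * Wk1 (π / 3 + a) -
    (2 * e2 * ((a - π / 6) / (π / 6)) + 4 * e4 * ((a - π / 6) / (π / 6)) ^ 3) / (π / 6)

/-- `w'`. -/
noncomputable def ww1 (a : ℝ) : ℝ :=
  1 / 2 * Wk2 (π / 3 + a) - (2 * e2 + 12 * e4 * ((a - π / 6) / (π / 6)) ^ 2) / (π / 6) ^ 2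

/-- `Γ(s) = -Wk(π/3 + s)/2 + E(s) = ∫_s^{π/3} w`. -/
noncomputable def GG (s : ℝ) : ℝ := -(1 / 2) * Wk (π / 3 + s) + EE s

/-- `ρ(t) = -Wk(t) - t w(t) - Γ(π/3 - t)`. -/
noncomputable def rh (t : ℝ) : ℝ := -Wk t - t * ww t - GG (π / 3 - t)

/-- `ρ'(t) = -Wk1(t) - Wk1(π/3 + t) - t w'(t)`. -/
noncomputable def rh1 (t : ℝ) : ℝ := -Wk1 t - Wk1 (π / 3 + t) - t * ww1 t

/-- Derivatives. Proof: calculus. In (6), (7) use `Wk1(2π/3 - t) = Wk1(π/3 + t)` and that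
`w(t) + w(π/3 - t) = Wk1(π/3 + t)` (the derivative of `E` is odd about `π/6`). -/
def Stmt_WDER : Prop :=
  (∀ t : ℝ, 0 < t → t < π → HasDerivAt Wk (Wk1 t) t ∧ HasDerivAt Wk1 (Wk2 t) t ∧
    HasDerivAt Wk2 (Wk3 t) t ∧ HasDerivAt Wk3 (Wk4 t) t ∧ Wk (π - t) = -Wk t) ∧
  (∀ t : ℝ, -(π / 3) < t → t < 2 * π / 3 → HasDerivAt ww (ww1 t) t ∧ HasDerivAt GG (-ww t) t) ∧
  (∀ t : ℝ, 0 < t → t < 2 * π / 3 → HasDerivAt rh (rh1 t) t)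

/-- Numerical bounds (true value `-0.003942`). Proof: bounds for `log 2`, `log 3`, `π`, `√3`; the number
`e4 * 8/15` is `-0.0021023`. -/
def Stmt_E4 : Prop := -0.0045 < e4 ∧ e4 < -0.002

/-- Positivity of the weight, boundary values.

Proof. `w(0) = W1P > 0` and `w(π/3) = 0` (`Wk1(π/3) = Wk1(2π/3) = W1P`, `E'(π/3) = (2 e₂ + 4 e₄)/(π/6)
= W1P/2`); `Γ(π/3) = 0` (`Wk(2π/3) = -Wk(π/3) = 2 al`, `E(π/3) = al`). `w` is concave: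
`w'' = Wk3(π/3 + a)/2 - 24 e₄ v/(π/6)³`, `v = (a - π/6)/(π/6) ∈ [-1, 1]`, `24 |e₄|/(π/6)³ ≤ 0.76`, and for
`τ = π/3 + a`, `s = sin τ ∈ [√3/2, 1]`: `-Wk3(τ) ≥ s (1 + log 2s) + 2 (1 - s²) - 0.108 ≥ 1 + log 2 - 0.108
≥ 1.58` (`(π/2 - τ) cos τ ≥ 0`; the function of `s` is decreasing). -/
def Stmt_WPOS : Prop :=
  (∀ a : ℝ, 0 ≤ a → a ≤ π / 3 → 0 ≤ ww a) ∧ GG (π / 3) = 0 ∧ rh (π / 3) = 0

/-- Convexity of `ρ'` and its sign at `π/3`.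

Proof. `ρ''' = -Wk3(t) - 2 Wk3(π/3+t) - (t/2) Wk4(π/3+t) + 2 E''' + t E''''`, `E''' = 24 e₄ v/(π/6)³`,
`E'''' = 24 e₄/(π/6)⁴ ≥ -1.45` (`e₄ > -0.0045`), `|E'''| ≤ 0.76`. On `(0, π/3)`: `-Wk3(t) ≥ 0.9` (`s log 2s + s ≥ -0.07`,
`2c²/s³ ≥ 0.76`, `(π/2 - t) c ≥ 0.26`); `-2 Wk3(π/3+t) ≥ 3.16` (see `WPOS`). For `t ≥ π/6`:
`-Wk4(π/3+t) ≥ 0` (all terms, `cos ≤ 0`), sum `≥ 0.9 + 3.16 - 1.52 - 1.52 > 0`. For `t ≤ π/6`:
`E''' ≥ 0` (`e₄, v ≤ 0`), `-Wk4(π/3+t) ≥ -4.1` (largest at `t = 0`; crude bounds suffice), so the sum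
is `≥ 0.9 + 3.16 - 1.1 - 0.8 > 0`. Value: `ρ'(π/3) = -W1P - (π/6) Wk2(2π/3) + (96/π) e₄` and
`Wk2(2π/3) = -(log 3)/4 - 1/2 - 2/3 + π√3/12 + 18/500`; numerically `0.0496 + 30.56 e₄ < 0`. -/
def Stmt_RHOC : Prop := ConvexOn ℝ (Set.Ioc 0 (π / 3)) rh1 ∧ rh1 (π / 3) < 0

/-- Moment condition.

Proof. `V = -sin t log (2 sin t) - (π/2 - t) cos t - sin t - (2κ₀/3) sin 3t` is an antiderivative of
`Wk`, `U = cos t log (2 sin t) - log tan (t/2) + cos t - (π/2 - t) sin t + (2κ₀/9) cos 3t` one of `V`, and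
`U(0+) = 2 log 2 + 1 + 2κ₀/9`. `∫ t w = -(π/3) … `: since `w = -Γ'`, `Γ(π/3) = 0`,
`∫_0^{π/3} t² w dt = 2 ∫ t Γ`, `∫ t Γ(π/3 - t) = (π/3) ∫ Γ - ∫ t Γ`. So
`∫ t ρ = - ∫ t Wk - ∫ t Γ - (π/3) ∫ Γ`. By symmetry about `π/6` of `E` and antisymmetry of
`Wk(π/3 + s)`: `∫ Γ = ∫ E =: e`, `∫ t Γ = -(1/2) ∫ s Wk(π/3+s) ds + (π/6) e`; and
`e = (π/3)(e₀ + e₂/3 + e₄/5)`. The result is `I0 - (π/2) e` with
`I0 = -∫ t Wk + (1/2) ∫_0^{π/3} s Wk(π/3+s) ds`, and `e = (2/π) I0` by the choice of `e₀, e₂, e₄`. -/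
def Stmt_MOM : Prop :=
  IntervalIntegrable (fun t => t * rh t) MeasureTheory.volume 0 (π / 3) ∧
    ∫ t in (0 : ℝ)..(π / 3), t * rh t = 0

/-- The properties of the distance function of a sequence with values in `[-1/2, 1/2]`. -/
structure DProp (D : ℝ → ℝ) : Prop where
  cont : Continuous D
  nonneg : ∀ t, 0 ≤ D t
  sub : ∀ s t, 0 ≤ s → 0 ≤ t → s + t ≤ π → D (s + t) ≤ D s + D t
  tri : ∀ s t, 0 ≤ s → 0 ≤ t → s + t ≤ π → D s + D t + D (s + t) ≤ 2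
  refl : ∀ t, 0 ≤ t → t ≤ π → D (π - t) = 1 - D t

/-- The extremal distance function on `[0, 2π/3]`. -/
noncomputable def Dst (t : ℝ) : ℝ := if t ≤ π / 3 then 3 * t / π else 2 - 3 * t / π

/-- First part of the certificate.

Proof. With `a(t) = D(t) - 3t/π`, `b(s) = D(π/3+s) - (1 - 3s/π)` on `[0, π/3]`: `DProp.tri` gives
`a(x) + a(y) + b(x+y-π/3) ≤ 0` for `x, y ≤ π/3 ≤ x + y`; integrate over `y ∈ [π/3 - x, π/3]` and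
multiply by `w(x) ≥ 0`. -/
def Stmt_CERTA : Prop :=
  ∀ D : ℝ → ℝ, DProp D → ∫ x in (0 : ℝ)..(π / 3), ww x * (x * (D x - 3 * x / π) +
    (∫ y in (π / 3 - x)..(π / 3), (D y - 3 * y / π)) +
      ∫ s in (0 : ℝ)..x, (D (π / 3 + s) - (1 - 3 * s / π))) ≤ 0

/-- Second part of the certificate.

Proof. `a(t) = D(t) - 3t/π`, `A(x) = ∫_0^x a`. `DProp.sub` gives `a(x) ≤ a(y) + a(x-y)`, so
`x a(x) ≤ 2 A(x)`, and `A(x)/x²` is antitone on `(0, π/3]`. `ρ'` is convex with `ρ'(π/3) < 0`, so there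
is `t₀ ∈ [0, π/3)` with `ρ' ≥ 0` on `(0, t₀]`, `ρ' ≤ 0` on `[t₀, π/3]`; `t₀ > 0` because
`∫ x² ρ' = [x² ρ] - 2 ∫ x ρ = 0` (`MOM`, `ρ(π/3) = 0`, `|ρ| ≤ C (1 + |log x|)`). Hence
`∫ ρ' A = ∫ x² ρ'(x) (A(x)/x² - A(t₀)/t₀²) dx ≥ 0`. Integrability: `|ρ'| ≤ C/x`, `|A| ≤ C x`. -/
def Stmt_CERTB : Prop :=
  ∀ D : ℝ → ℝ, DProp D →
    IntervalIntegrable (fun x => rh1 x * ∫ y in (0 : ℝ)..x, (D y - 3 * y / π))
      MeasureTheory.volume 0 (π / 3) ∧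
    0 ≤ ∫ x in (0 : ℝ)..(π / 3), rh1 x * ∫ y in (0 : ℝ)..x, (D y - 3 * y / π)

/-- Fubini. Proof: `∫_0^{π/3} w(x) ∫_{π/3-x}^{π/3} a(y) dy dx = ∫ a(y) (∫_{π/3-y}^{π/3} w) dy`,
`∫_0^{π/3} w(x) ∫_0^x b(s) ds dx = ∫ b(s) (∫_s^{π/3} w) ds`, and `∫_s^{π/3} w = Γ(s)` by `WDER` (`Γ' = -w`)
and `Γ(π/3) = 0` (`WPOS`). All functions are continuous on `[0, π/3]`. (Alternatively: partial
integration with the primitives of `a` and `b`.) -/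
def Stmt_FUB : Prop :=
  ∀ a b : ℝ → ℝ, Continuous a → Continuous b →
    ∫ x in (0 : ℝ)..(π / 3), ww x * (x * a x + (∫ y in (π / 3 - x)..(π / 3), a y) +
      ∫ s in (0 : ℝ)..x, b s) =
    (∫ y in (0 : ℝ)..(π / 3), a y * (y * ww y + GG (π / 3 - y))) +
      ∫ s in (0 : ℝ)..(π / 3), b s * GG s

/-- Partial integration with a logarithmic singularity at `0`.

Proof. `F(x) = ρ(x) A(x)`, `A(x) = ∫_0^x a`, has the derivative `ρ' A + ρ a` on `(0, π/3]`; `F(π/3) = 0`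
(`WPOS`), `F(x) → 0` for `x → 0+` (`|A| ≤ C x`, `|ρ| ≤ C (1 + |log x|)`); `ρ a` and `ρ' A` are integrable
(`|ρ'| ≤ C/x`). -/
def Stmt_IBP : Prop :=
  ∀ a : ℝ → ℝ, Continuous a →
    IntervalIntegrable (fun x => rh x * a x) MeasureTheory.volume 0 (π / 3) ∧
    IntervalIntegrable (fun x => rh1 x * ∫ y in (0 : ℝ)..x, a y) MeasureTheory.volume 0 (π / 3) ∧
    ∫ x in (0 : ℝ)..(π / 3), (rh1 x * ∫ y in (0 : ℝ)..x, a y) =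
      -∫ x in (0 : ℝ)..(π / 3), rh x * a x

/-- The limit problem.

Proof. Notation of `CERTA`, `CERTB`; `b(π/3 - s) = -b(s)` (`DProp.refl`), `Wk(2π/3 - s) = -Wk(π/3 + s)`.
So `∫_0^{π/2} Wk (D - Dst) = ∫_0^{π/3} Wk a + (1/2) ∫_0^{π/3} Wk(π/3+s) b(s) ds`. Let `T₁ ≤ 0` be the
integral of `CERTA` and `T₂ ≥ 0` the one of `CERTB`. `FUB`:
`T₁ = ∫ a(y) (y w(y) + Γ(π/3 - y)) dy + ∫ b(s) Γ(s) ds`. `IBP`: `T₂ = - ∫ ρ a`. And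
`∫ b Γ = -(1/2) ∫ Wk(π/3+s) b(s) ds`, since `E` is even and `b` odd about `π/6`. As
`ρ = -Wk - y w - Γ(π/3 - y)`, the left side is `-T₁ + T₂ ≥ 0`. -/
def Stmt_CERT : Prop :=
  ∀ D : ℝ → ℝ, DProp D →
    ∫ t in (0 : ℝ)..(π / 2), Wk t * (1 / 2 - D t) ≤ ∫ t in (0 : ℝ)..(π / 2), Wk t * (1 / 2 - Dst t)

/-- Fourier coefficients of the kernel.

Proof. `W'' + W = cos t/sin² t`. For odd `k`:
`(W' cos kt + k W sin kt)' = (cos t/sin² t) cos kt + (k² - 1) W cos kt`. Integrate over `[ε, π/2]`: the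
left side tends to `1/ε - π/2 + o(1)` (`W'(ε) = -1/ε + π/2 + o(1)`, at `π/2` it vanishes), and
`cos t cos kt = 1 - (1 - cos (k+1)t)/2 - (1 - cos (k-1)t)/2`, `∫_ε^{π/2} 1/sin² = cot ε`,
`∫_0^{π/2} (1 - cos 2mt)/sin² t dt = mπ`. So `(k² - 1) ∫ W cos kt = (k - 1) π/2`. For `k = 1`:
`∫_0^{π/2} cos² t log (2 sin t) dt = -π/8` (by parts, or from `∫ log (2 sin t) = 0` (Mathlib:
`integral_log_sin_zero_pi_div_two`) and `∫ cos 2t log (2 sin t) = -π/4`), `∫ (π/2 - t) sin t cos t = π/8`,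
`∫ cos² = π/4`. -/
def Stmt_WINT : Prop :=
  IntervalIntegrable W0 MeasureTheory.volume 0 (π / 2) ∧
  (∫ t in (0 : ℝ)..(π / 2), W0 t * Real.cos t = 0) ∧
  ∀ k : ℕ, k % 2 = 1 → 3 ≤ k →
    ∫ t in (0 : ℝ)..(π / 2), W0 t * Real.cos (k * t) = π / (2 * (k + 1))

/-- The extremal value.

Proof. `1/2 - Dst t = (4/π²) ∑_{l odd} cos (3lt)/l²` on `[0, 2π/3]` (triangle wave; Mathlib:
`hasSum_one_div_nat_pow_mul_cos` with the Bernoulli polynomial `B₂`, odd part), uniformly; integrate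
against `W0` (`WINT`) and against `cos 3t`. -/
def Stmt_DSTI : Prop :=
  1 / π * ∫ t in (0 : ℝ)..(π / 2), Wk t * (1 / 2 - Dst t) = 2 / π ^ 2 * (cstar - 1 / 500)

/-- The step function of a sequence, with steps of length `π/N`. -/
noncomputable def PN (N : ℕ) (p : ℤ → ℝ) (x : ℝ) : ℝ := p ⌊x * N / π⌋

/-- The autocorrelation. -/
noncomputable def rN (N : ℕ) (p : ℤ → ℝ) (t : ℝ) : ℝ :=
  (∫ x in (0 : ℝ)..(2 * π), PN N p x * PN N p (x + t)) / (2 * π)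

/-- The distance function `D(t) = 1/2 - 2 r(t)`. -/
noncomputable def DN (N : ℕ) (p : ℤ → ℝ) (t : ℝ) : ℝ := 1 / 2 - 2 * rN N p t

/-- Properties of the distance function.

Proof. `r` is Lipschitz (piecewise linear interpolation of `(1/n) ∑_j p_j p_{j+m}`, or: the step
functions `P` and `P(· + t)` differ on a set of measure `≤ 2N |t|` per period). `sub` from
`xy + yz - xz ≤ 1/4` and `tri` from `xy + yz + xz ≥ -1/4` for `x, y, z ∈ [-1/2, 1/2]` (the functions are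
affine in each variable; check the vertices), applied to `x = P(ξ)`, `y = P(ξ+s)`, `z = P(ξ+s+t)` and
integrated (periodicity of `P`), `refl` from `P(x + π) = -P(x)` (and `r(-t) = r(t)`), `nonneg` from
`|r| ≤ 1/4`. -/
def Stmt_KD : Prop :=
  ∀ (N : ℕ) (p : ℤ → ℝ), 1 ≤ N → (∀ j, p (j + N) = -p j) → (∀ j, |p j| ≤ 1 / 2) →
    DProp (DN N p) ∧ ∀ t, rN N p t = 1 / 4 - DN N p t / 2

/-- Fourier series of the autocorrelation.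

Proof. `n = 2N`, `h = π/N`: the Fourier coefficient of the step function is
`P̂_k = p̂_k (1 - e^{-ikh})/(ikh)`, of modulus `|p̂_k| |sin (πk/n)|/(π|k|/n)`, zero for even `k`; the one of the
(continuous, even, `2π`-periodic) function `r` is `|P̂_k|²` (Fubini), which is summable, so the
Fourier series converges to `r` (Mathlib: `has_pointwise_sum_fourier_series_of_summable`, on
`AddCircle (2π)`; or: `r` is piecewise linear, use any proof). Pair `k` and `-k`. -/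
def Stmt_KR : Prop :=
  ∀ (N : ℕ) (p : ℤ → ℝ), 1 ≤ N → (∀ j, p (j + N) = -p j) → (∀ j, |p j| ≤ 1 / 2) →
    Summable (fun i : ℕ => ‖dr (2 * N) p (2 * i + 1)‖ ^ 2 *
      (Real.sin (π * (2 * i + 1) / (2 * N : ℕ)) / (π * (2 * i + 1) / (2 * N : ℕ))) ^ 2) ∧
    ∀ t : ℝ, rN N p t = 2 * ∑' i : ℕ, ‖dr (2 * N) p (2 * i + 1)‖ ^ 2 *
      (Real.sin (π * (2 * i + 1) / (2 * N : ℕ)) / (π * (2 * i + 1) / (2 * N : ℕ))) ^ 2 *
      Real.cos ((2 * i + 1) * t)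

/-- From sequences to distance functions. Proof: `KR`, `1/2 - D = 2 r`, `WINT`:
`(1/π) ∫_0^{π/2} W0 (1/2 - D) = (2/π) ∫ W0 r = 2 ∑_{k odd ≥ 3} |P̂_k|²/(k+1)` (uniform convergence, `W0`
integrable; the term `k = 1` vanishes) and `(1/π) ∫_0^{π/2} 2κ₀ cos 3t (1/2 - D) = 2κ₀ |P̂_3|²`
(`∫_0^{π/2} cos kt cos 3t dt = 0` for odd `k ≠ 3`, `π/4` for `k = 3`). Drop the terms with `k > M`. -/
def Stmt_KLINK : Prop :=
  ∀ (N M : ℕ) (p : ℤ → ℝ), 1 ≤ N → 3 ≤ M → (∀ j, p (j + N) = -p j) →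
    (∀ j, |p j| ≤ 1 / 2) →
    2 * ∑ k ∈ odds M, ‖dr (2 * N) p k‖ ^ 2 *
        (Real.sin (π * k / (2 * N : ℕ)) / (π * k / (2 * N : ℕ))) ^ 2 / ((k : ℝ) + 1) -
      2 * (1 / 500) * ‖dr (2 * N) p 3‖ ^ 2 *
        (Real.sin (π * 3 / (2 * N : ℕ)) / (π * 3 / (2 * N : ℕ))) ^ 2 ≤
      1 / π * ∫ t in (0 : ℝ)..(π / 2), Wk t * (1 / 2 - DN N p t)

/-- The upper bound of the quadratic form, with stability. Proof: `KD`, `KLINK`, `CERT`, `DSTI`; the factors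
`(sin x/x)²` tend to `1`, and `‖dr p k‖ ≤ 1/2`. -/
def Stmt_LIMIT : Prop :=
  ∀ (M : ℕ) (ε : ℝ), 3 ≤ M → 0 < ε → ∃ N₀ : ℕ, ∀ N ≥ N₀, ∀ p : ℤ → ℝ, (∀ j, p (j + N) = -p j) →
    (∀ j, |p j| ≤ 1 / 2) →
    π ^ 2 / 2 * QM (2 * N) M p ≤ cstar - 1 / 500 * (1 - π ^ 2 * ‖dr (2 * N) p 3‖ ^ 2) + ε

/-! ### Identification of the limit -/

/-- Truncation to `±1/2`. -/
noncomputable def pT (p : ℤ → ℝ) (j : ℤ) : ℝ := max (min (p j) (1 / 2)) (-(1 / 2))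

/-- The antiperiodic part of the truncation. -/
noncomputable def pO (N : ℕ) (p : ℤ → ℝ) (j : ℤ) : ℝ := (pT p j - pT p (j + N)) / 2

/-- Truncation.

Proof. `p = pT + pE`. `|p| = 1/2 + |pE|`, so `mn p² - 1/4 = mn (|pE| + pE²)`. `QM` is the quadratic form
of the convolution operator `𝒦` with the symbol `1/(|k|+1)` on `3 ≤ |k| ≤ M` odd:
`QM(p) ≤ QM(pT) + 2 ‖𝒦 pT‖_∞ mn |pE| + QM(pE)`, `QM(pE) ≤ (1/4) mn pE²`, and
`‖𝒦 pT‖_∞ ≤ ∑ |p̂T_k|/(|k|+1) ≤ (1/2) (2 ∑_{k ≥ 3 odd} (k+1)^{-2})^{1/2} = (1/2)((π²/6 - 1)/2)^{1/2} ≤ 0.285`.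
`QM(pT) = QM(pO)` since for odd `k` the coefficients agree (`DFTS`, shift by `N`). -/
def Stmt_TRUNC : Prop :=
  ∀ (N M : ℕ) (p : ℤ → ℝ), M < N → (∀ j, p (j + (2 * N : ℕ)) = p j) → (∀ j, 1 / 2 ≤ |p j|) →
    1 / 4 - mn (2 * N) (fun j => p j ^ 2) + QM (2 * N) M p ≤
      QM (2 * N) M (pO N p) - 2 / 5 * mn (2 * N) (fun j => |p j - pT p j|)

/-- Convergence of the data of the maximizers.

Proof. `LOWER`, `HFIN`, `TRUNC`, `LIMIT` for `pO` (antiperiodic, bounded by `1/2`), with a large `M' ≥ M`: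
`κ₀ (1 - π² |p̂O_3|²) + (π²/5) mn |pE| + 8 UM ≤ C/M' + 3ε'`; the three terms are nonnegative (apply the
inequality to each; `1 - π² |p̂O_3|² ≥ -ε'`: `|p̂O_3| ≤ (1/2) mn |sin 3(jh - x)|`-type bound, or from
`LIMIT` itself, since otherwise the right side would be too large: in fact
`κ₀ (1 - π²|p̂_3|²) ≤ …` is all that is needed, the lower bound follows from
`|p̂_3| ≤ mn (1/2)|cos (3jh + α)| → 1/π`). `UM` is monotone in `M`. -/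
def Stmt_CLOSE : Prop :=
  ∀ K : ℝ, ∀ (M : ℕ) (ε : ℝ), 5 ≤ M → 0 < ε → ∃ n₀ : ℕ, ∀ N : ℕ, n₀ ≤ 2 * N →
    ∀ c : Cfg (2 * N), Reg (2 * N) K c → ∀ L : ℤ → ℤ, Piw (2 * N) c L →
      mn (2 * N) (fun j => |pp N L j - pT (pp N L) j|) ≤ ε ∧
      1 - π ^ 2 * ‖dr (2 * N) (pO N (pp N L)) 3‖ ^ 2 ≤ ε ∧
      UM (2 * N) M (uu N c) (pp N L) ≤ ε

/-- The square wave of height `1/2`. -/
noncomputable def sqw (x : ℝ) : ℝ := if 0 ≤ Real.sin (3 * x) then 1 / 2 else -(1 / 2)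

/-- Sequences with almost maximal third coefficient are close to a square wave.

Proof. Choose `x₀` with `(1/n) ∑ q_j sin (3 (jh - x₀)) = |q̂_3|`. As `mn |sin 3(jh - x₀)| → 2/π` uniformly
in `x₀`, `mn ((1/2 - q_j σ_j) |sin 3(jh - x₀)|) ≤ 1/π - |q̂_3| + o(1)`, `σ_j = 2 sqw(jh - x₀) = ±1`, and
`1/2 - q_j σ_j = |q_j - σ_j/2|`. Split according to `|sin| ≥ η` or not; the proportion of the `j` with
`|sin 3(jh - x₀)| < η` is `≤ C η + o(1)`. -/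
def Stmt_SHAPE : Prop :=
  ∀ ε : ℝ, 0 < ε → ∃ δ : ℝ, 0 < δ ∧ ∃ n₀ : ℕ, ∀ n ≥ n₀, ∀ q : ℤ → ℝ, (∀ j, q (j + n) = q j) →
    (∀ j, |q j| ≤ 1 / 2) → 1 - π ^ 2 * ‖dr n q 3‖ ^ 2 ≤ δ →
    ∃ x₀ : ℝ, mn n (fun j => |q j - sqw (2 * π * j / n - x₀)|) ≤ ε

/-- The Fourier coefficients of the square wave: `-i/(πl)` at `k = 3l`, `l` odd. -/
noncomputable def pst (k : ℤ) : ℂ :=
  if k % 6 = 3 then -(3 * Complex.I) / ((π : ℂ) * k) else 0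

/-- Discrete Fourier coefficients of a shifted square wave. Proof: Riemann sums of a function with six
jumps, uniformly in the shift; `(1/2π) ∫_0^{2π} sqw(x) e^{-ikx} dx = pst k`. -/
def Stmt_PSTAR : Prop :=
  ∀ (k : ℤ) (ε : ℝ), 0 < ε → ∃ n₀ : ℕ, ∀ n ≥ n₀, ∀ x₀ : ℝ,
    ‖dr n (fun j => sqw (2 * π * j / n - x₀)) k - Complex.exp (-(k * x₀ : ℝ) * Complex.I) * pst k‖ ≤ ε

/-- The shape of the maximizers.

Proof. `CLOSE`; `SHAPE` for `q = pO N (pp N L)`; for the indices with `|pO_j| = 1/2`, `pT_j = pO_j`, and if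
`|pO_j| < 1/2` then `pO_j = 0` and `|pO_j - sqw| = 1/2`; so `mn |pT - pO| ≤ 2 mn |pO - sqw|`. Hence (1).
`|p̂_k - (sqw)^_k| ≤ mn |p - sqw|`, `PSTAR`: (2). (3): `UM ≤ ε` for `3 ≤ |k| ≤ M`; for `k = ±1`: the
centroid is `0`, so `|R̂_{-1} + i Φ̂_{-1}| ≤ C/n` (as in `CROSS`), and
`R̂_{-1} = D̂R_{-1}/d_{-1}`, `d_{-1} = (n/2π)(e^{-ih} - 1) → -i`, `D̂R = π (p̂ - û) + O(1/√n)` (`DRREL`),
`Φ̂ = -π û`; so `π (p̂_{-1} - û_{-1})/(-i) - i π û_{-1} → 0`, i.e. `û_{-1} - p̂_{-1}/2 → 0`, and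
`p̂_{±1} → 0` by (2). (For negative `k` use conjugation.) -/
def Stmt_MODES : Prop :=
  ∀ K : ℝ, ∀ (M : ℕ) (ε : ℝ), 5 ≤ M → 0 < ε → ∃ n₀ : ℕ, ∀ N : ℕ, n₀ ≤ 2 * N →
    ∀ c : Cfg (2 * N), Reg (2 * N) K c → ∀ L : ℤ → ℤ, Piw (2 * N) c L → ∃ x₀ : ℝ,
      mn (2 * N) (fun j => |pp N L j - sqw (2 * π * j / (2 * N : ℕ) - x₀)|) ≤ ε ∧
      (∀ k : ℤ, |k| ≤ M → k % 2 = 1 →
        ‖dr (2 * N) (pp N L) k - Complex.exp (-(k * x₀ : ℝ) * Complex.I) * pst k‖ ≤ ε) ∧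
      (∀ k : ℤ, |k| ≤ M → k % 2 = 1 →
        ‖dr (2 * N) (uu N c) k + Complex.exp (-(k * x₀ : ℝ) * Complex.I) * pst k /
          (((k : ℝ) ^ 2 - 1 : ℝ) : ℂ)‖ ≤ ε)

end Pool.Agent.EHP
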