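import Pool.Agent.EHP.Stmts5

/-!
# Statements, part 6: forces on arcs, exclusion of extra pendant vertices, the graph

Notation of the proofs: `n = 2N`, `h = 2π/n`, `x_j = j h`, `ω_j = e^{i x_j}` (`om`), `m_j = L j - j - N`
(`mm`), `p_j = 1/2 - m_j`, `ζ = R + i Φ`, so `z_j = ω_j e^{ζ_j/n}`.
-/

open Finset
open scoped Real ComplexConjugate

namespace Pool.Agent.EHP

/-- `e^{2πika/n}`. -/
noncomputable def om (n : ℕ) (k a : ℤ) : ℂ := Complex.exp ((2 * π * k * a / n : ℝ) * Complex.I)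

/-- `m_j = L j - j - N`, so that `pp N L j = 1/2 - mm N L j`. -/
def mm (N : ℕ) (L : ℤ → ℤ) (j : ℤ) : ℤ := L j - j - N

/-- The data of a configuration are close to those of the limit (`MODES`). -/
structure Mo (N M : ℕ) (δ : ℝ) (c : Cfg (2 * N)) (L : ℤ → ℤ) (x₀ : ℝ) : Prop where
  mean : mn (2 * N) (fun j => |pp N L j - sqw (2 * π * j / (2 * N : ℕ) - x₀)|) ≤ δ
  hp : ∀ k : ℤ, |k| ≤ M → k % 2 = 1 →
    ‖dr (2 * N) (pp N L) k - Complex.exp (-(k * x₀ : ℝ) * Complex.I) * pst k‖ ≤ δ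
  hu : ∀ k : ℤ, |k| ≤ M → k % 2 = 1 →
    ‖dr (2 * N) (uu N c) k + Complex.exp (-(k * x₀ : ℝ) * Complex.I) * pst k /
      (((k : ℝ) ^ 2 - 1 : ℝ) : ℂ)‖ ≤ δ

/-! ### Linearised forces -/

/-- Fourier inversion. Proof: `∑_{k ∈ (-N, N]} e^{2πik(a-j)/n}` is `n` if `n ∣ a - j`, else `0`. -/
def Stmt_DINV : Prop :=
  ∀ (N : ℕ) (f : ℤ → ℂ), 1 ≤ N → (∀ j, f (j + (2 * N : ℕ)) = f j) → ∀ a : ℤ,
    f a = ∑ k ∈ Finset.Ioc (-(N : ℤ)) N, dft (2 * N) f k * om (2 * N) k a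

/-- Bounds for the differences.

Proof. `Φ_{j+1} - Φ_j = 2π y_j`, `R_{j+1} - R_j = n g_j s_j`, `g_j = (2π/n)(1+y_j) ≤ 4π/n` (`HOLD`,
`Cfg.g_eq`), so with `f = R, Φ`: `∑_j (f_{j+1} - f_j)² ≤ C/n`. For `d`: Cauchy-Schwarz
`(f_{j+d} - f_j)² ≤ d ∑_{i<d} (f_{j+i+1} - f_{j+i})²` and `sum_shift`. Parseval (`PARS` for the sequence
`f_{j+1} - f_j`, `DFTS`): `∑_k |ω_k - 1|² |f̂_k|² = mn (f_{j+1} - f_j)² ≤ C/n²`, and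
`|e^{2πik/n} - 1| = 2 |sin (πk/n)| ≥ 4|k|/n` for `|k| ≤ N`. Last claim: `|f| ≤ K`. -/
def Stmt_H1B : Prop :=
  ∀ K : ℝ, ∃ (C : ℝ) (n₀ : ℕ), 0 < C ∧ ∀ N : ℕ, n₀ ≤ 2 * N → ∀ c : Cfg (2 * N), Reg (2 * N) K c →
    (∀ d : ℕ, ∑ j ∈ range (2 * N), ((c.R ((j : ℤ) + (d : ℤ)) - c.R (j : ℤ)) ^ 2 +
      (c.Φ ((j : ℤ) + (d : ℤ)) - c.Φ (j : ℤ)) ^ 2) ≤ C * (d : ℝ) ^ 2 / (2 * N : ℕ)) ∧
    ∑ k ∈ Finset.Ioc (-(N : ℤ)) N,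
      (k : ℝ) ^ 2 * (‖dr (2 * N) c.R k‖ ^ 2 + ‖dr (2 * N) c.Φ k‖ ^ 2) ≤ C ∧
    ∀ k : ℤ, ‖dr (2 * N) c.R k‖ ≤ C ∧ ‖dr (2 * N) c.Φ k‖ ≤ C

/-- Linearisation of the complex cotangent.

Proof. The difference is `-2E ((e^q - 1 - q)(E - 1) - qE(e^q - 1)) / ((E e^q - 1)(E - 1)²)`, with
`‖e^q - 1 - q‖ ≤ ‖q‖²`, `‖e^q - 1‖ ≤ 2‖q‖`, `‖E e^q - 1‖ ≥ ‖E - 1‖ - 2‖q‖ ≥ ‖E - 1‖/2`. -/
def Stmt_COTL : Prop :=
  ∀ E q : ℂ, ‖E‖ = 1 → E ≠ 1 → 4 * ‖q‖ ≤ ‖E - 1‖ →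
    ‖(E * Complex.exp q + 1) / (E * Complex.exp q - 1) -
      ((E + 1) / (E - 1) - 2 * E * q / (E - 1) ^ 2)‖ ≤ 16 * ‖q‖ ^ 2 / ‖E - 1‖ ^ 3

/-- The linearised force. -/
noncomputable def fl (N : ℕ) (c : Cfg (2 * N)) (a : ℤ) : ℂ :=
  om (2 * N) (-1) a * ((((2 * N : ℕ) : ℂ) - 1) / 2 +
    1 / 2 * ∑ k ∈ Finset.Ioc (-(N : ℤ)) N, ((kap (2 * N) k - 1 + 1 / (2 * N : ℕ) : ℝ) : ℂ) *
      (dr (2 * N) c.R k + Complex.I * dr (2 * N) c.Φ k) * om (2 * N) k a)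

/-- The forces are approximated by the linearised ones in the mean.

Proof. By `FBH` `z_a fb_a = (n-1)/2 + H_a`, `H_a = (1/2) ∑_d c_{a,a+d}`. Here
`c_{ab} = (E e^q + 1)/(E e^q - 1)` with `E = ω_{a-b}`, `q = (ζ_a - ζ_b)/n`. By `HOLD` (and periodicity)
`|q| ≤ C √(d'/n)/n`, `d' = min (d, n - d)`, and `|E - 1| = 2 sin (πd/n) ≥ 4 d'/n`, so `COTL` applies for
large `n`. The terms `(E+1)/(E-1)` cancel (`d ↔ n - d`). `-2E/(E-1)² = 1/(2 sin² (πd/n))`. So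
`H_a = (1/4n) ∑_d (ζ_a - ζ_{a+d})/sin² (πd/n) + e_a`, with
`∑_a |e_a| ≤ ∑_d 8 (n/(4d'))³ n^{-2} ∑_a |ζ_{a+d} - ζ_a|² ≤ C ∑_d 1/d' ≤ C log n` (`H1B`). By `DINV` for `ζ`
and `CSCSUM` the main part of `H_a` is `(1/2) ∑_k κ_k ζ̂_k ω_a^k`. Finally
`1/z_a = ω̄_a e^{-ζ_a/n} = ω̄_a (1 - ζ_a/n + O(n^{-2}))`, `((n-1)/2)(-ζ_a/n) = -(1/2)(1 - 1/n) ζ_a` and
`∑_a |H_a| |ζ_a|/n ≤ C` (`Reg.hH`, Cauchy-Schwarz). -/
def Stmt_FBLIN : Prop :=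
  ∀ K : ℝ, ∃ (C : ℝ) (n₀ : ℕ), 0 < C ∧ ∀ N : ℕ, n₀ ≤ 2 * N → ∀ c : Cfg (2 * N), Reg (2 * N) K c →
    ∑ a ∈ range (2 * N), ‖fb (2 * N) c.z (a : ℤ) - fl N c (a : ℤ)‖ ≤ C * Real.log (2 * N : ℕ)

/-- Sum of a character over two arcs. -/
noncomputable def AS (n : ℕ) (k a b p q : ℤ) : ℂ :=
  ∑ j ∈ Finset.Ioc a b, om n k j + ∑ j ∈ Finset.Ioc p q, om n k j

/-- Sums of characters over nearly antipodal arcs; `κ = k - 1`.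

Proof. `∑_{j ∈ (a,b]} ω^{κj} = (ω^{κb} - ω^{κa}) ω^κ/(ω^κ - 1)` (`ω = e^{ih}`), and
`ω^{κ(v+N+m)} = (-1)^κ ω^{κv} e^{iκmh}`, `|e^{iκmh} - 1| ≤ |κ| |m| h`, `|ω^κ - 1| ≥ (2/π)|κ| h`. For the last
claim (`κ = -1`): `(1 - ω^{-m})/(ω - 1)` is `∑_{l=1}^m ω^{-l}` for `m > 0` and `-∑_{l<|m|} ω^l` for `m < 0`;
it differs from `m` by at most `h m²`. -/
def Stmt_FARC : Prop :=
  ∀ (N : ℕ) (v v' m m' : ℤ), 1 ≤ N → v ≤ v' → v + N + m ≤ v' + N + m' →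
    (∀ k : ℤ, k % 2 = 1 → k ≠ 1 → |k - 1| ≤ N →
      ‖AS (2 * N) (k - 1) v v' (v + N + m) (v' + N + m') -
        2 * (om (2 * N) (k - 1) v' - om (2 * N) (k - 1) v) *
          (om (2 * N) (k - 1) 1 / (om (2 * N) (k - 1) 1 - 1))‖ ≤ 2 * (|(m : ℝ)| + |(m' : ℝ)|)) ∧
    (∀ k : ℤ, k % 2 = 0 → |k - 1| ≤ N →
      ‖AS (2 * N) (k - 1) v v' (v + N + m) (v' + N + m')‖ ≤ 2 * (|(m : ℝ)| + |(m' : ℝ)|)) ∧
    ‖AS (2 * N) (-1) v v' (v + N + m) (v' + N + m') -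
      ((m : ℂ) * om (2 * N) (-1) v - (m' : ℂ) * om (2 * N) (-1) v')‖ ≤
        2 * π / (2 * N : ℕ) * ((m : ℝ) ^ 2 + (m' : ℝ) ^ 2)

/-- The coefficient of the mode `k` in the force on an arc. -/
noncomputable def bk (N : ℕ) (c : Cfg (2 * N)) (k : ℤ) : ℂ :=
  ((kap (2 * N) k - 1 + 1 / (2 * N : ℕ) : ℝ) : ℂ) *
    (dr (2 * N) c.R k + Complex.I * dr (2 * N) c.Φ k) *
      (om (2 * N) (k - 1) 1 / (om (2 * N) (k - 1) 1 - 1))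

/-- The coefficients of the modes.

Proof. (1) For odd `k`, `û_k = -Φ̂_k/π` (`DFTS`, shift by `N`), and with `V = dr DR k`,
`V = (n/2π)(ω_k - 1) R̂_k` (`DFTS`), `|V - π (p̂_k - û_k)| ≤ √(C/n)` (`DRREL`,
`|dr f k|² ≤ mn f²`). As `(n/2π)(ω_k - 1) → ik` and `(1/n) ω_{k-1}/(ω_{k-1} - 1) → 1/(2πi(k-1))`, and
`p̂_k ≈ P`, `û_k ≈ -P/(k²-1)`, `P = e^{-ikx₀} pst k`: `R̂_k ≈ (π/(ik)) (P + P/(k²-1))`,
`iΦ̂_k ≈ iπ P/(k²-1)`, sum `-iπ P/(k+1)`; so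
`bk/n ≈ (|k| - 1)(-iπP/(k+1))/(2πi(k-1)) = -(1/2) P/(|k|+1)`. All quantities are bounded.
(2) `κ_{-1} = 1 - 1/n`. (3) `0 ≤ κ_k - 1 + 1/n ≤ |k|`, `|ω_{k-1} - 1| ≥ 4|k-1|/n ≥ (8/3)|k|/n`. -/
def Stmt_FMODE : Prop :=
  (∀ K : ℝ, ∀ (k : ℤ) (ε : ℝ), k % 2 = 1 → 3 ≤ |k| → 0 < ε → ∃ (M n₀ : ℕ) (δ : ℝ), 0 < δ ∧
    ∀ N : ℕ, n₀ ≤ 2 * N → ∀ c : Cfg (2 * N), Reg (2 * N) K c → ∀ L : ℤ → ℤ, Piw (2 * N) c L →
    ∀ x₀ : ℝ, Mo N M δ c L x₀ →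
      ‖bk N c k + (2 * N : ℕ) / 2 * (Complex.exp (-(k * x₀ : ℝ) * Complex.I) * pst k /
        ((|(k : ℝ)| + 1 : ℝ) : ℂ))‖ ≤ ε * (2 * N : ℕ)) ∧
  (∀ (N : ℕ) (c : Cfg (2 * N)), 1 ≤ N → bk N c (-1) = 0 ∧
    kap (2 * N) 1 - 1 + 1 / (2 * N : ℕ) = 0 ∧
    ∀ k : ℤ, 3 ≤ |k| → |k| ≤ N → ‖bk N c k‖ ≤
      (2 * N : ℕ) * ‖dr (2 * N) c.R k + Complex.I * dr (2 * N) c.Φ k‖)

/-- The function `k*(x) = (2/π) ∑_l sin ((6l+3)x)/((2l+1)(6l+4))`. -/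
noncomputable def ks (x : ℝ) : ℝ :=
  2 / π * ∑' l : ℕ, Real.sin ((6 * l + 3) * x) / ((2 * l + 1) * (6 * l + 4))

/-- Facts on `ks`.

Proof. (1) `(2/π) ∑ 1/((2l+1)(6l+4)) ≤ (2/π)(1/4 + 1/30 + ∑_{l≥2} 1/(12 l²)) ≤ 1/4`.
(2) `ks (x + π/3) = -ks x`, the same for `sin 3x`; so let `y = 3x ∈ (0, π)`. With
`S_l = ∑_{i≤l} sin ((2i+1)y) = sin² ((l+1)y)/sin y ≥ 0` and `c_l = 1/((2l+1)(6l+4))` decreasing,
summation by parts gives `∑ c_l sin ((2l+1)y) = ∑ (c_l - c_{l+1}) S_l ≥ (c_0 - c_1) sin y`, and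
`(2/π)(1/4 - 1/30) ≥ 1/10`. (3) Pair `k = 6l+3` and `-k` (`pst k ≠ 0` only for `k % 6 = 3`); the tail is
at most `(6/π) ∑_{k>M} 1/(k(k+1)) ≤ 2/(M+1)`. -/
def Stmt_KSF : Prop :=
  (∀ x : ℝ, |ks x| ≤ 1 / 4) ∧ (∀ x : ℝ, 1 / 10 * |Real.sin (3 * x)| ≤ |ks x|) ∧
  ∀ (M : ℕ) (x x₀ : ℝ),
    ‖∑ k ∈ (Finset.Icc (-(M : ℤ)) M).filter (fun k => k % 2 = 1),
      Complex.exp (-(k * x₀ : ℝ) * Complex.I) * pst k / ((|(k : ℝ)| + 1 : ℝ) : ℂ) *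
        Complex.exp ((k * x : ℝ) * Complex.I) - (ks (x - x₀) : ℂ)‖ ≤ 4 / ((M : ℝ) + 1)

/-- The force on nearly antipodal arcs.

Proof. Both arcs contain at most `n` consecutive indices, so by `FBLIN` (and periodicity of `fb`, `fl`)
`fb` may be replaced by `fl` with an error `≤ 2 C log n`. By definition of `fl` the sum is
`((n-1)/2) AS(-1) + (1/2) ∑_k (κ_k - 1 + 1/n) ζ̂_k AS(k-1)`, `L v = v + N + m_v`. `FARC`, last claim: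
`((n-1)/2) AS(-1)` is `(n/2)(m_v ω̄_v - m_{v'} ω̄_{v'})` up to `C (|m_v| + |m_{v'}| + m_v² + m_{v'}²)`,
and `|m| ≤ C √n` (`SLREL`). The term `k = 1` vanishes (`FMODE` (2)). The other errors of `FARC` sum up to
`≤ C (|m_v| + |m_{v'}|) ∑ (|k|+1)|ζ̂_k| ≤ C √n (|m_v| + |m_{v'}|)` (`H1B`, Cauchy-Schwarz with `n` terms).
There remains `∑_{k odd, k ≠ 1} bk_k (ω_{v'}^{k-1} - ω_v^{k-1})`; `bk_{-1} = 0`; for `|k| > M'` it is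
`≤ 2 n ∑_{|k|>M'} |ζ̂_k| ≤ C n/√M'` (`FMODE` (3), `H1B`); for the finitely many `3 ≤ |k| ≤ M'` use
`FMODE` (1), and `KSF` (3) with `ω_v^{k-1} = ω̄_v e^{ikx_v}`; `pst (±1) = 0`. First choose `M'`, then `M, δ`
(`Mo` is monotone in `M` and `δ`). -/
def Stmt_FORCE : Prop :=
  ∀ K : ℝ, ∃ C : ℝ, 0 < C ∧ ∀ ε : ℝ, 0 < ε → ∃ (M n₀ : ℕ) (δ : ℝ), 0 < δ ∧
    ∀ N : ℕ, n₀ ≤ 2 * N → ∀ c : Cfg (2 * N), Reg (2 * N) K c → ∀ L : ℤ → ℤ, Piw (2 * N) c L →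
    ∀ x₀ : ℝ, Mo N M δ c L x₀ → ∀ v v' : ℤ, v < v' → v' ≤ v + N →
      ‖(∑ a ∈ Finset.Ioc v v', fb (2 * N) c.z a + ∑ a ∈ Finset.Ioc (L v) (L v'), fb (2 * N) c.z a) -
        (2 * N : ℕ) / 2 *
          (om (2 * N) (-1) v * (((mm N L v : ℝ) + ks (2 * π * v / (2 * N : ℕ) - x₀) : ℝ) : ℂ) -
           om (2 * N) (-1) v' *
             (((mm N L v' : ℝ) + ks (2 * π * v' / (2 * N : ℕ) - x₀) : ℝ) : ℂ))‖ ≤
      ε * (2 * N : ℕ) + C * Real.sqrt (2 * N : ℕ) * (|(mm N L v : ℝ)| + |(mm N L v' : ℝ)|)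

/-! ### Pendant vertices: `v` is pendant when `L (v - 1) = L v` -/

/-- The union of the arcs `(a, b]` and `(p, q]`, modulo `n`. -/
def arc2 (n : ℕ) (a b p q : ℤ) : Set ℤ :=
  {j | ∃ k : ℤ, (a < j + k * n ∧ j + k * n ≤ b) ∨ (p < j + k * n ∧ j + k * n ≤ q)}

/-- Force on two disjoint arcs. Proof: `FCSUM`, and each residue modulo `n` in `arc2` has exactly one
representative in `(a, b] ∪ (p, q] ⊆ (a, a + n]` (`sum_shift`). -/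
def Stmt_FCARC : Prop :=
  ∀ (n : ℕ) (z : ℤ → ℂ), 1 ≤ n → (∀ j, z (j + n) = z j) → ∀ a b p q : ℤ, a ≤ b → b ≤ p → p ≤ q →
    q ≤ a + n → PerSet n (arc2 n a b p q) ∧ FC n z (arc2 n a b p q) =
      ∑ j ∈ Finset.Ioc a b, fb n z j + ∑ j ∈ Finset.Ioc p q, fb n z j

/-- Tight pairs leaving unions of arcs.

Proof. `L` is monotone, `L (w + n) = L w + n`. The partners of `a` in `(a, a + n)` are
`[L (a-1), L a]`. `SYM`: `L (L w - 1) ≤ w + n`, `w + n + 1 ≤ L (L w)`. Shift `a` (and `b`) by multiples of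
`n` so that `a` is in one of the two arcs and `b ∈ (a, a + n)`.
(1) `a ∈ (v, v']`: `b ∈ [L v, L v']`, so `b = L v`. `a ∈ (L v, L v']`, `a < L v'`:
`b ∈ [L (L v), L (L v' - 1)] ⊆ [v+n+1, v'+n]`, impossible; so `a = L v'`.
(2) If `L (v-1) = L v` and `a ∈ [v, v']`, `b ∈ [L v, L v']`, impossible. `a ∈ (L v, L v')` is impossible
as before.
(3) If `L (v'-1) = L v'` and `a ∈ (L v, L v' - 1]`, then `b ∈ [v+n+1, v'+n]`, so `b = v' + n`, but the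
only partner of `v'` in `(v', v' + n)` is `L v'`, and `v' ≤ L v < a < L v'`. So `a ∈ (v, v' - 1]`. -/
def Stmt_TEDGE : Prop :=
  ∀ (n : ℕ) (c : Cfg n) (L : ℤ → ℤ), 1 ≤ n → Piw n c L → ∀ v v' : ℤ, v < v' → v' ≤ L v →
    (∀ a ∈ arc2 n v v' (L v) (L v'), ∀ b ∉ arc2 n v v' (L v) (L v'), ‖c.z a - c.z b‖ = 2 →
      (n : ℤ) ∣ b - L v ∨ (n : ℤ) ∣ a - L v') ∧
    (L (v - 1) = L v → ∀ a ∈ arc2 n (v - 1) v' (L v - 1) (L v'),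
      ∀ b ∉ arc2 n (v - 1) v' (L v - 1) (L v'), ‖c.z a - c.z b‖ = 2 →
        (n : ℤ) ∣ a - L v ∨ (n : ℤ) ∣ a - L v') ∧
    (L (v' - 1) = L v' → ∀ a ∈ arc2 n v (v' - 1) (L v) (L v' - 1),
      ∀ b ∉ arc2 n v (v' - 1) (L v) (L v' - 1), ‖c.z a - c.z b‖ = 2 →
        ∃ k : ℤ, v < a + k * n ∧ a + k * n < v')

/-- Pendant vertices have `m = 0` and lie near the zeros of `sin (3 (x - x₀))`.

Proof. `F_w := m_w + ks (x_w - x₀)`, `|F_w - m_w| ≤ 1/4` (`KSF`). By `Mo.mean` fewer than `δ n + 1` indices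
of a period have `m ∉ {0, 1}` (then `|p - sqw| ≥ 1`), so there is `v'` with `m_{v'} ∈ {0, 1}`,
`|v' - v - n/4| ≤ δ n + 2`; so `ω_{v'} = i ω_v e^{iη'}`, `|η'|` small. By `ANTI` (for the tight pairs
`(v, L v)`, `(v', L v')`, and the one considered): `L v, L v'` are `v + N, v' + N` up to `C √n`, and
`z_a - z_b = 2 ω_a + O(n^{-1/2})` for all tight pairs. `Ψ` is the sum of forces in `FORCE`. By `FCARC` it is
`FC (arc2 n v v' (L v) (L v'))`, and `FC (arc2 n (v-1) v' (L v - 1) (L v')) = Ψ + fb_v + fb_{L v}`, where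
`|fb_v + fb_{L v}| ≤ C √n` (`FBH`, `|H| ≤ √(K n)`, `z_{L v} = -z_v + O(n^{-1/2})`). Let `β > 0` be small
(compared with `η`), and `|η'| ≤ β/2`.
(a) `C₂ = arc2 n v v' (L v) (L v')`, `τ = -ω_v + β ω_{v'}`: by `TEDGE` (1) the leaving tight pairs have
direction `z_a - z_b ≈ 2ω_v` (`b ≡ L v`: `z_b ≈ -ω_v`) or `≈ -2ω_{v'}` (`a ≡ L v'`), and
`Re (conj τ ·) ≤ -β/2 < 0`. `TLEM`: `Re (τ Ψ) ≤ 0`; with `FORCE`:
`F_v (1 + O(β)) ≥ -C' β - error`, error `= 4ε + C (|m_v| + 1)/√n`.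
(b) `C₁ = arc2 n (v-1) v' (L v - 1) (L v')`, `τ = ω_v + β ω_{v'}`: by `TEDGE` (2) the directions are
`≈ -2ω_v` or `≈ -2ω_{v'}`. `TLEM`: `F_v (1 + O(β)) ≤ C' β + error`.
So `|F_v| ≤ C'' (β + ε) + C (|m_v| + 1)/√n`; as `|F_v| ≥ |m_v| - 1/4` and `m_v` is an integer, `m_v = 0` and
`|ks (x_v - x₀)|` is small, so by `KSF` (2) `|sin (3 (x_v - x₀))|` is small. -/
def Stmt_PEND : Prop :=
  ∀ K η : ℝ, 0 < η → ∃ (M n₀ : ℕ) (δ : ℝ), 0 < δ ∧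
    ∀ N : ℕ, n₀ ≤ 2 * N → ∀ c : Cfg (2 * N), Reg (2 * N) K c → ∀ L : ℤ → ℤ, Piw (2 * N) c L →
    ∀ x₀ : ℝ, Mo N M δ c L x₀ → ∀ v : ℤ, L (v - 1) = L v →
      L v = v + N ∧ ∃ i : ℤ, |2 * π * v / (2 * N : ℕ) - x₀ - i * (π / 3)| ≤ η

/-- `p` has the values `± 1/2` and is antiperiodic.

Proof. `L w - L (w-1) ≥ 0`, so `m_{w-1} - m_w ≤ 1` with equality only if `w` is pendant, and then
`m_w = 0`, `m_{w-1} = 1` (`PEND`). There is a `j` with `m_j ∈ {0, 1}` (`Mo.mean` with `δ < 1`). If some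
`m_w < 0`, take, going to the right from a `j < w` with `m_j ≥ 0`, the first index with `m < 0`: `m`
decreases there, so it is pendant with `m = 0`, contradiction. If some `m_w > 1`, go to the right from
`w` to the first index with `m ≤ 1`: there `m` decreases, so it is pendant and `m` was `1` before,
contradiction. Antiperiodicity from `SYM`: if `L v = v + N`, then `L (v+N) ≥ v + n + 1`; if
`L v = v + N + 1`, then `L (v + N) ≤ v + n`. -/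
def Stmt_HALF : Prop :=
  ∀ K : ℝ, ∃ (M n₀ : ℕ) (δ : ℝ), 0 < δ ∧
    ∀ N : ℕ, n₀ ≤ 2 * N → ∀ c : Cfg (2 * N), Reg (2 * N) K c → ∀ L : ℤ → ℤ, Piw (2 * N) c L →
    ∀ x₀ : ℝ, Mo N M δ c L x₀ →
      (∀ v, L v = v + N ∨ L v = v + N + 1) ∧ (∀ v, |pp N L v| = 1 / 2) ∧
        ∀ v, pp N L (v + N) = -pp N L v

/-- `u` is small near the up-jumps of the square wave.

Proof. `u` is antiperiodic, so `û_k = 0` for even `k`; for odd `k` `û_k = -Φ̂_k/π` (`DFTS`). By `DINV`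
`u_j = ∑_k û_k ω_j^k`. The modes `|k| > M` contribute `≤ ∑_{|k|>M} |Φ̂_k| ≤ C/√M` (`H1B`), for odd
`|k| ≤ M` replace `û_k` by `-e^{-ikx₀} pst k/(k²-1)` (error `≤ (2M+1) δ`); their sum is
`-(6/π) ∑_{k ≤ M, k ≡ 3 (6)} sin (k (x_j - x₀))/(k (k²-1))`, and `|sin (k (x_j - x₀))| ≤ k · 0.33`
(`k · 2π i/3` is a multiple of `2π`). `(6/π) ∑_{l ≥ 0} 1/((6l+2)(6l+4)) ≤ (6/π)(1/8 + 1/36) ≤ 0.292`, and
`0.292 * 0.33 < 0.097`. -/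
def Stmt_UBD : Prop :=
  ∀ K : ℝ, ∃ (M n₀ : ℕ) (δ : ℝ), 0 < δ ∧
    ∀ N : ℕ, n₀ ≤ 2 * N → ∀ c : Cfg (2 * N), Reg (2 * N) K c → ∀ L : ℤ → ℤ, Piw (2 * N) c L →
    ∀ x₀ : ℝ, Mo N M δ c L x₀ → ∀ j i : ℤ,
      |2 * π * j / (2 * N : ℕ) - x₀ - i * (2 * π / 3)| ≤ 33 / 100 → |uu N c j| ≤ 1 / 10

/-- Two pendant vertices close to each other: sign of the force.

Proof. `C = arc2 n v (w-1) (v+N) (w+N-1)`, a periodic set (`FCARC`). `TEDGE` (3) with `v' = w`: all tight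
pairs leaving `C` have, modulo `n`, `a ∈ (v, w)`; by `ANTI` `z_a - z_b = 2 z_a + O(n^{-1/2})`, and
`|θ_a - θ_v| ≤ 2π/20 + 2K/n`. So `Re (e^{-iθ_v} (z_a - z_b)) > 0`, and `TLEM` with `τ = -e^{iθ_v}` gives the
claim. -/
def Stmt_TWOP : Prop :=
  ∀ K : ℝ, ∃ n₀ : ℕ, ∀ N : ℕ, n₀ ≤ 2 * N → ∀ c : Cfg (2 * N), Reg (2 * N) K c →
    ∀ L : ℤ → ℤ, Piw (2 * N) c L → ∀ v w : ℤ, v + 1 < w → 10 * (w - v) ≤ N →
    L v = v + N → L w = w + N → L (w - 1) = L w →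
      0 ≤ (Complex.exp ((c.θ v : ℂ) * Complex.I) *
        FC (2 * N) c.z (arc2 (2 * N) v (w - 1) (v + N) (w + N - 1))).re

/-! ### The force on a short antipodally symmetric set -/

/-- The antipodal copy `z'_j = -z_{j+N}`. -/
noncomputable def zq (N : ℕ) (z : ℤ → ℂ) (j : ℤ) : ℂ := -z (j + N)

/-- `λ_j = 1 + z_{j+N} / z_j`, so that `z_j - z'_j = λ_j z_j`. -/
noncomputable def la (N : ℕ) (z : ℤ → ℂ) (j : ℤ) : ℂ := 1 + z (j + N) / z j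

/-- First part of `1 / (z_a - z_b) - 1 / (z'_a - z'_b)`. -/
noncomputable def t1 (N : ℕ) (z : ℤ → ℂ) (a b : ℤ) : ℂ :=
  -(1 / 2) * (z a + z b) * (la N z a - la N z b) / ((z a - z b) * (zq N z a - zq N z b))

/-- Second part. -/
noncomputable def t2 (N : ℕ) (z : ℤ → ℂ) (a b : ℤ) : ℂ :=
  -(1 / 2) * (la N z a + la N z b) / (zq N z a - zq N z b)

/-- Algebra of the force on a symmetric set.

Proof. Modulo `n = 2N` the set is `A ∪ (A + N)`, `A = (v, w)`, and its complement is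
`B = [w, v+N] ∪ [w+N, v+n]`, invariant under the shift by `N`. So the force is
`∑_{a ∈ A} ∑_{b ∈ B} (1/(z_a - z_b) + 1/(z_{a+N} - z_{b+N}))`, and the bracket is
`1/(z_a - z_b) - 1/(z'_a - z'_b) = -(λ_a z_a - λ_b z_b)/((z_a - z_b)(z'_a - z'_b)) = t1 a b + t2 a b`.
`∑_{b ∈ B} t2 a b` is the sum over all `b ≢ a` minus the ones over `b ∈ A \ {a}` and `b ∈ A + N`; the sum of
the former over `a, b ∈ A`, `a ≠ b`, vanishes, since `t2 b a = - t2 a b`. -/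
def Stmt_K3A : Prop :=
  ∀ (N : ℕ) (z : ℤ → ℂ), 1 ≤ N → Pts (2 * N) z → (∀ j, z j ≠ 0) → ∀ v w : ℤ, v < w → w ≤ v + N →
    FC (2 * N) z (arc2 (2 * N) v (w - 1) (v + N) (w + N - 1)) =
      ∑ a ∈ Finset.Ioo v w, (∑ b ∈ Finset.Icc w (v + N), t1 N z a b +
        ∑ b ∈ Finset.Icc (w + N) (v + 2 * N), t1 N z a b) +
      ∑ a ∈ Finset.Ioo v w, (∑ d ∈ Finset.Ico 1 (2 * N), t2 N z a (a + (d : ℤ)) -
        ∑ b ∈ Finset.Ioo v w, t2 N z a (b + N))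

/-- Bounded parts.

Proof. `λ_j = 1 - exp ((ζ_{j+N} - ζ_j)/n)`, so `|λ_j| ≤ C/n` and, by `HOLD`,
`|λ_a - λ_b| ≤ (C/n) √(d'/n)`, `d'` the distance of `a` and `b` modulo `n`; `|z_a - z_b| ≥ c d'/n`
(`dist_sq`, `g_j ≥ π/n` by `HOLD`), the same for `z'`. (1)
`t2 a b = -λ_a/(z'_a - z'_b) + (λ_a - λ_b)/(2 (z'_a - z'_b))`. The sum of the first terms is
`λ_a fb (a+N)`, and `|fb| ≤ C n` (`FBH`, `|H| ≤ √(K n)`); the second ones are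
`≤ C √(d'/n)/d'`, with sum `≤ C`. (2) Far pairs: all differences `z_a - z_b` have modulus `≥ c`. -/
def Stmt_K3B : Prop :=
  ∀ K : ℝ, ∃ (C : ℝ) (n₀ : ℕ), 0 < C ∧ ∀ N : ℕ, n₀ ≤ 2 * N → ∀ c : Cfg (2 * N), Reg (2 * N) K c →
    (∀ a : ℤ, ‖∑ d ∈ Finset.Ico 1 (2 * N), t2 N c.z a (a + (d : ℤ))‖ ≤ C) ∧
    ∀ a b : ℤ, (N : ℤ) ≤ 12 * (b - a) → (N : ℤ) ≤ 12 * (a + 2 * N - b) →
      ‖t1 N c.z a b‖ ≤ C / (2 * N : ℕ) ∧ ‖t2 N c.z a b‖ ≤ C / (2 * N : ℕ)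

/-- Near pairs.

Proof. `n = 2N`, `d = b - a ≤ N/2`. Let `μ_j = ζ_j - ζ_{j+N} = Q_j - 2πi u_j`, `Q_j = R_j - R_{j+N}`;
`λ_j = 1 - e^{-μ_j/n}`, so `λ_a - λ_b = ((μ_a - μ_b)/n)(1 + O(1/n))`, and `|μ_a - μ_b| ≤ C √(d/n)` (`HOLD`).
`z_b/z_a = e^q`, `q = ihd + (ζ_b - ζ_a)/n`, so
`z_a - z_b = -z_a i h d (1 + O(1/√(dn)) + O(d/n))`; the same for `z'`, and `z'_a = z_a (1 + O(1/n))`,
`z_a + z_b = 2 z_a (1 + O(d/n))`. Hence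
`t1 a b = ((λ_a - λ_b)/(z_a h² d²))(1 + O(1/√(dn)) + O(d/n))`, and
`e^{iθ_v}/z_a = 1 + O((1 + |a - v|)/n)` (`|ρ| ≤ K/n`, `g_j ≤ 4π/n`). So `Re (e^{iθ_v} t1 a b)` is
`(Q_a - Q_b)/(n h² d²)` up to `C √(d/n) n^{-1} (n/d)² (1/√(dn) + (d + |a-v|)/n)
= C (d^{-2} + (d + |a-v|) d^{-3/2} n^{-1/2})`. Here
`Q_a - Q_b = - ∑_{j ∈ [a,b)} (2π/n)(DR_j - DR_{j+N})`, `DR_j = n s_j (1 + y_j) = π (p_j - u_j) + O(n^{-1/2})`
(`SLREL`, `HOLD`; `|p| = 1/2`), `p_{j+N} = -p_j`, `u_{j+N} = -u_j`, and `n h = 2π`: the main term is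
`- ∑_{j ∈ [a,b)} (p_j - u_j + O(n^{-1/2}))/d²`, and `n^{-1/2}/d ≤ d · d^{-3/2} n^{-1/2}`. -/
def Stmt_K3NEAR : Prop :=
  ∀ K : ℝ, ∃ (C : ℝ) (n₀ : ℕ), 0 < C ∧ ∀ N : ℕ, n₀ ≤ 2 * N → ∀ c : Cfg (2 * N), Reg (2 * N) K c →
    ∀ L : ℤ → ℤ, Piw (2 * N) c L → (∀ j, |pp N L j| = 1 / 2) →
    (∀ j, pp N L (j + N) = -pp N L j) → ∀ v a b : ℤ, a < b → 2 * (b - a) ≤ N →
      |(Complex.exp ((c.θ v : ℂ) * Complex.I) * t1 N c.z a b).re +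
        (∑ j ∈ Finset.Ico a b, (pp N L j - uu N c j)) / ((b : ℝ) - a) ^ 2| ≤
      C * (1 / ((b : ℝ) - a) ^ 2 + ((b : ℝ) - a + |(a : ℝ) - v|) /
        (((b : ℝ) - a) * Real.sqrt ((b : ℝ) - a) * Real.sqrt (2 * N : ℕ)))

/-- Elementary sums.

Proof. (1) `((3/5)s - (2/5)t)/(t+s)² = s/(t+s)² - (2/5)/(t+s)`; `∑_{t ≥ 0} s/(t+s)² ≤ 1/s + 1 ≤ 2`,
`∑_{t=0}^T 1/(t+s) ≥ log ((T+s+1)/s) ≥ log (T/w)`. (2) `∑_{t≥0} 1/(s+t)² ≤ 2`;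
`∑_{d=1}^{n} 1/√(d n) ≤ 2`; `∑_{d ≥ s} d^{-3/2} ≤ 4 s^{-1/2}`, `∑_{s<w} s^{-1/2} ≤ 2√w` and `w ≤ n`. -/
def Stmt_K3SUM : Prop :=
  ∃ C : ℝ, 0 < C ∧ ∀ w T n : ℕ, 2 ≤ w → w ≤ T → T + w ≤ n →
    ∑ s ∈ Finset.Ico 1 w, ∑ t ∈ range (T + 1), (3 / 5 * (s : ℝ) - 2 / 5 * t) / ((t : ℝ) + s) ^ 2 ≤
      -((w : ℝ) - 1) * (2 / 5 * Real.log ((T : ℝ) / w) - C) ∧
    ∑ s ∈ Finset.Ico 1 w, ∑ t ∈ range (T + 1), (1 / ((t : ℝ) + s) ^ 2 + ((t : ℝ) + s + 2 * w) /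
      (((t : ℝ) + s) * Real.sqrt ((t : ℝ) + s) * Real.sqrt n)) ≤ C * ((w : ℝ) - 1)

/-- The force on a short symmetric set is negative.

Proof. `A = (v, w)`, `ℓ = w - v ≥ 2`, `T = ⌊N/10⌋ ≥ ℓ`. In `K3A` the `t2` terms contribute
`≤ C |A| + |A|² C/n ≤ C |A|` (`K3B`). The `t1` terms with `b ∈ (w + T, v + N]` or
`b ∈ [w + N, v + n - T)` are far, in total `≤ C |A|` (`K3B`). Near terms, `b = w + t`, `0 ≤ t ≤ T`,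
`s = w - a`: `K3NEAR` (phase at `v`, `|a - v| ≤ ℓ`), `p ≥ -1/2` on `[a, w)`, `p = 1/2` on `[w, b)`,
`|u| ≤ 1/10`: `Re (e^{iθ_v} t1 a b) ≤ ((1/2 + 1/10) s - (1/2 - 1/10) t)/(s+t)² + error`. `b = v + n - t`, `0 ≤ t ≤ T`,
`s = a - v`: by periodicity `b = v - t`, `t1 a b = - t1 b a`, `K3NEAR` for `(b, a)` (`|b - v| = t`), `p = -1/2` on
`[b, v)`, `p ≤ 1/2` on `[v, a)`: the same bound. Sum up with `K3SUM`: total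
`≤ -(ℓ-1)((4/5) log (T/ℓ) - C)`, and `log (T/ℓ) ≥ log (N/(10 ℓ)) - 1`, `log (N/(10ℓ)) ≥ 0`. -/
def Stmt_K3 : Prop :=
  ∀ K : ℝ, ∃ (C : ℝ) (n₀ : ℕ), 0 < C ∧ ∀ N : ℕ, n₀ ≤ 2 * N → ∀ c : Cfg (2 * N), Reg (2 * N) K c →
    ∀ L : ℤ → ℤ, Piw (2 * N) c L → (∀ j, |pp N L j| = 1 / 2) →
    (∀ j, pp N L (j + N) = -pp N L j) → ∀ v w : ℤ, v + 1 < w → 20 * (w - v) ≤ N →
    (∀ j : ℤ, 10 * (v - j) ≤ N → j < v → pp N L j = -(1 / 2)) →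
    (∀ j : ℤ, w ≤ j → 10 * (j - w) ≤ N → pp N L j = 1 / 2) →
    (∀ j : ℤ, 10 * (v - j) ≤ N → 10 * (j - w) ≤ N → |uu N c j| ≤ 1 / 10) →
      (Complex.exp ((c.θ v : ℂ) * Complex.I) *
        FC (2 * N) c.z (arc2 (2 * N) v (w - 1) (v + N) (w + N - 1))).re ≤
      -((w : ℝ) - v - 1) * (1 / 2 * Real.log (N / (10 * ((w : ℝ) - v))) - C)

/-! ### The combinatorial structure -/

/-- `L v - v - N` is `0` on `[V i, V (i + 1))` for even `i` and `1` for odd `i`; there are six such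
intervals in a period, `V (i + 3) = V i + N`. -/
structure Comb (N : ℕ) (L V : ℤ → ℤ) : Prop where
  lt : ∀ i, V i < V (i + 1)
  add : ∀ i, V (i + 3) = V i + N
  val : ∀ i v : ℤ, V i ≤ v → v < V (i + 1) → L v = v + N + (if i % 2 = 0 then 0 else 1)

/-- The pivot function of a maximizer.

Proof. Let `η > 0` be small: `η ≤ 1/200` and `(1/2) log (π/(20 η)) > C` with `C` from `K3`. Take `M` large
and `δ` small enough for `PEND` (with `η`), `HALF`, `UBD`, and `δ < 1/20`, and `x₀` from `MODES` (`Mo` is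
monotone in `M` and `δ`). All jumps of `p` are `±1`; at an up-jump `v` (`p_{v-1} = -1/2`, `p_v = 1/2`)
`L (v-1) = L v`, so by `PEND` `x_v` is in a window `W_i = [x₀ + iπ/3 - η, x₀ + iπ/3 + η]`; if `v` is a
down-jump, `v + N` is an up-jump and `x_{v+N} = x_v + π`, so `x_v` is in a window, too. Between `W_i` and
`W_{i+1}` (gap `G_i`) `p` is constant; the gap contains at least `1/12` of the indices of a period, so by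
`Mo.mean` (`|p - sqw| ∈ {0, 1}` there) `p = sqw = (-1)^i/2` on `G_i`. Let `i` be even. Let `v` be the first
index to the right of `G_{i-1}` with `p_v = 1/2`, and `w` the least index with `p = 1/2` on `[w, G_i]`.
Both are up-jumps in `W_i`, `v ≤ w`, `w - v ≤ 2η/h = η n/π`. If `v < w` then `v + 1 < w`, and
`L v = v + N`, `L w = w + N`, `L (w-1) = L w`; `TWOP` and `K3` (the hypotheses on `u`: `UBD`, as
`|x_j - x₀ - iπ/3| ≤ 2π/20 + 2η ≤ 0.33`; on `p`: gaps are longer than `π/3 - 2η > π/10 + 2η`) give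
`(1/2) log (N/(10 (w-v))) ≤ C`, a contradiction. So `v = w =: V i`, `p = -1/2` from `G_{i-1}` up to
`V i - 1`, `p = 1/2` from `V i` up to `G_i`. For odd `i` put `V i = V (i+3) - N`. Then
`V (i+6) = V i + n` by uniqueness. -/
def Stmt_SIX : Prop :=
  ∀ K : ℝ, ∃ n₀ : ℕ, ∀ N : ℕ, n₀ ≤ 2 * N → ∀ c : Cfg (2 * N), Reg (2 * N) K c →
    ∀ L : ℤ → ℤ, Piw (2 * N) c L → ∃ V : ℤ → ℤ, Comb N L V

/-- The graph.

Proof. Pendant vertices: `V (2j)`, with the only partner `V (2j) + N = V (2j+3)`. For `v` with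
`V (2j) < v ≤ V (2j+2)` let `c v = v - j`. The restriction of `c` to the integers different from all
`V (2j)` is a bijection onto `ℤ` (`V (2j) + 1 ↦ V (2j) + 1 - j`, …, `V (2j+2) - 1 ↦ V (2j+2) - 1 - j`), and
`c (v + 2N) = c v + (2N - 3)`. If `v` is not pendant, neither is `L v`, and `c (L v) = c v + N - 1`: for
`V (2j) < v < V (2j+1)`, `L v = v + N ∈ (V (2j+3), V (2j+4))`; for `V (2j+1) ≤ v < V (2j+2)`,
`L v = v + N + 1 ∈ (V (2j+4), V (2j+5)]`. The partners of a non pendant `v` are `L v` and `L (v-1)` and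
possibly the pendant vertex between them; if `v - 1` is pendant, `L (v-1) = L (v-2)`; so the partners of
`v` which are not pendant are, in the numbering `c`, `c v + N - 1` and `c v + N - 2`, which is
`c v - (N - 1)` modulo `m = 2N - 3`. As `2 (N-1) = m + 1`, the map `v ↦ 2 c v mod m` transforms the
adjacency into `± 1`. Pendant `V (2k)`, `k = 0, 1, 2`, goes to `Sum.inr k`, `a k = 2 c (V (2k) + N) mod m`.
(`SimpleGraph.cycleGraph_adj'`; the map is injective as `m` is odd, and `2N = (2N - 3) + 3`.) -/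
def Stmt_GRAPH : Prop :=
  ∀ (N : ℕ) (L V : ℤ → ℤ), 4 ≤ N → Comb N L V → ∀ G : SimpleGraph (Fin (2 * N)),
    (∀ i j : Fin (2 * N), G.Adj i j ↔ ∃ v l : ℤ, ((2 * N : ℕ) : ℤ) ∣ v - ((i : ℕ) : ℤ) ∧
      ((2 * N : ℕ) : ℤ) ∣ l - ((j : ℕ) : ℤ) ∧ v < l ∧ l < v + 2 * N ∧ L (v - 1) ≤ l ∧ l ≤ L v) →
    ∃ a : Fin 3 → Fin (2 * N - 3), Nonempty (G ≃g cyclePlus3 (2 * N - 3) a)

/-! ### The results -/

/-- The diameter graph of a maximizer.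

Proof. `NICE`, `REG`, `PIV`, `SIX`, `GRAPH`. By `CUT` (some tight pair exists) the largest distance is `2`,
so `diamGraph z` has `i ~ j` iff `‖z i - z j‖ = 2`; with `c.z j = u (z (e j) - t)` the map `e` is an
isomorphism from the graph `i ~ j ↔ ‖c.z i - c.z j‖ = 2` (`Piv.tight`) to `diamGraph z`. -/
def Stmt_MAIN : Prop :=
  ∃ n₀ : ℕ, ∀ n ≥ n₀, Even n → ∀ z : Fin n → ℂ, IsMaximizer z →
    ∃ a : Fin 3 → Fin (n - 3), Nonempty (diamGraph z ≃g cyclePlus3 (n - 3) a)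

/-- The value of the maximum.

Proof. `NICE`: `FL n c.z = log (PD z)` (reindexing; `‖c.z i - c.z j‖ = ‖z (e i) - z (e j)‖`). Lower bound:
`LOWER`. Upper bound: `REG`, `PIV`, `HFIN` (with `M` large), `TRUNC`, `LIMIT` for `pO` (antiperiodic,
`|pO| ≤ 1/2`, `1 - π² ‖p̂_3‖² ≥ -ε`: the coefficient `1/500` makes this harmless: use
`‖dr (pO) 3‖ ≤ mn |pO| |cos (…)|`, or `|dr pO 3| ≤ (1/2) mn |cos (3jh + α)| → 1/π`), `QM` of `LIMIT`. -/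
def Stmt_ASY : Prop :=
  ∀ ε : ℝ, 0 < ε → ∃ n₀ : ℕ, ∀ n ≥ n₀, Even n → ∀ z : Fin n → ℂ, IsMaximizer z →
    |Real.log (PD z) - n * Real.log n - cstar| ≤ ε

/-- Maximizers exist. Proof: `PD` is continuous and translation invariant; the set of the families with
`z 0 = 0` and `Adm z` is compact (for `n ≥ 1`) and nonempty. -/
def Stmt_EXM : Prop := ∀ n : ℕ, ∃ z : Fin n → ℂ, IsMaximizer z

end Pool.Agent.EHP
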